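import Pool.Agent.P.MP_cc4a10_gt.St

/-! Primitives on an annulus. -/

open Set Filter Topology Complex Metric
open scoped Real

namespace Pool.Agent.P.MP_cc4a10_gt

theorem pAnn : S_Ann := by
  intro F p r1 r2 r h1 hr hr2 hF
  have hr0 : 0 < r := h1.trans_lt hr
  obtain ⟨c, hc⟩ : ∃ c, c = cint p r F := ⟨_, rfl⟩
  rw [← hc]
  let S : Set ℂ := {w | r1 < Real.exp w.re ∧ Real.exp w.re < r2}
  have hS : Convex ℝ S := by
    have h2 : Convex ℝ (Real.exp ⁻¹' Ioo r1 r2) :=
      (ordConnected_Ioo.preimage_mono Real.exp_monotone).convex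
    exact h2.linear_preimage reLm
  have hSo : IsOpen S := isOpen_Ioo.preimage (Real.continuous_exp.comp continuous_re)
  have hU : IsOpen {z : ℂ | r1 < ‖z - p‖ ∧ ‖z - p‖ < r2} :=
    isOpen_Ioo.preimage (continuous_norm.comp (continuous_id.sub continuous_const))
  let g : ℂ → ℂ := fun w => F (p + exp w) * exp w - c
  have hg : DifferentiableOn ℂ g S := by
    refine ((hF.comp (f := fun w => p + exp w) (by fun_prop) fun w hw => ?_).mul
      (by fun_prop)).sub_const c
    simpa [norm_exp, S] using hw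
  obtain ⟨H, hH⟩ := hS.exists_forall_hasDerivWithinAt hg
  have hH' : ∀ w ∈ S, HasDerivAt H (g w) w := fun w hw => (hH w hw).hasDerivAt (hSo.mem_nhds hw)
  have hre : ∀ w ∈ S, ∀ t : ℝ, w + t * I ∈ S := fun w hw t => by simpa [S] using hw
  have h0 : ((Real.log r : ℝ) : ℂ) ∈ S := by simp [S, Real.exp_log hr0, hr, hr2]
  have h2 : ∀ w ∈ S, HasDerivAt (fun w => H (w + (2 * π : ℝ) * I) - H w) 0 w := by
    intro w hw
    have h3 := ((hH' _ (hre w hw (2 * π))).comp_add_const w _).sub (hH' w hw)
    refine h3.congr_deriv ?_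
    simp [g, exp_add]
  have h3 : H ((Real.log r : ℝ) + (2 * π : ℝ) * I) - H (Real.log r : ℝ) = 0 := by
    have h4 : ∀ θ : ℝ, exp ((Real.log r : ℝ) + θ * I) = circleMap 0 r θ := fun θ => by
      rw [exp_add, ← ofReal_exp, Real.exp_log hr0, circleMap, zero_add]
    have h5 : ∀ θ : ℝ, p + circleMap 0 r θ = circleMap p r θ := fun θ => by simp [circleMap]
    have hi : CircleIntegrable F p r := by
      refine (hF.continuousOn.mono fun z hz => ?_).circleIntegrable hr0.le
      rw [mem_sphere_iff_norm] at hz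
      exact ⟨hz ▸ hr, hz ▸ hr2⟩
    have h6 := intervalIntegral.integral_eq_sub_of_hasDerivAt (a := 0) (b := 2 * π)
      (f := fun θ : ℝ => H ((Real.log r : ℝ) + θ * I))
      (f' := fun θ => deriv (circleMap p r) θ • F (circleMap p r θ) - c * I)
      (fun θ _ => by
        have h7 : HasDerivAt (fun θ : ℝ => ((Real.log r : ℝ) : ℂ) + θ * I) I θ := by
          simpa using ((hasDerivAt_id θ).ofReal_comp.mul_const I).const_add
            ((Real.log r : ℝ) : ℂ)
        have h8 := (hH' _ (hre _ h0 θ)).scomp θ h7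
        refine h8.congr_deriv ?_
        simp only [g, h4, h5, deriv_circleMap, smul_eq_mul]
        ring)
      (hi.out.sub intervalIntegrable_const)
    rw [intervalIntegral.integral_sub hi.out intervalIntegrable_const] at h6
    have h7 : (∫ θ in (0 : ℝ)..2 * π, deriv (circleMap p r) θ • F (circleMap p r θ))
        = 2 * π * I * c := by
      rw [hc, cint, mul_inv_cancel_left₀ two_pi_I_ne_zero]
      rfl
    rw [h7] at h6
    simp only [ofReal_zero, zero_mul, add_zero] at h6
    rw [← h6]
    simp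
    ring
  have h4 : ∀ w ∈ S, H (w + (2 * π : ℝ) * I) = H w := fun w hw => by
    have h5 := hSo.is_const_of_deriv_eq_zero hS.isPreconnected
      (fun w hw => (h2 w hw).differentiableAt.differentiableWithinAt)
      (fun w hw => (h2 w hw).deriv) hw h0
    exact sub_eq_zero.1 (h5.trans h3)
  have h5 : ∀ (n : ℤ), ∀ w ∈ S, H (w + n * (2 * π * I)) = H w := by
    intro n w hw
    have h6 : ∀ n : ℤ, H (w + ((n + 1 : ℤ) : ℂ) * (2 * π * I)) = H (w + n * (2 * π * I)) := by
      intro n
      have h7 := h4 _ (hre w hw (n * (2 * π)))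
      convert h7 using 2 <;> push_cast <;> ring
    induction n using Int.induction_on with
    | zero => simp
    | succ n ih => rw [h6, ih]
    | pred n ih => rw [← h6, sub_add_cancel, ih]
  refine ⟨fun z => H (log (z - p)), fun z hz1 hz2 => ?_⟩
  have hz : z - p ≠ 0 := norm_pos_iff.1 (h1.trans_lt hz1)
  have h6 : HasDerivAt (fun y => log (z - p) + log ((y - p) / (z - p))) (z - p)⁻¹ z := by
    have h7 : HasDerivAt (fun y => (y - p) / (z - p)) (1 / (z - p)) z :=
      ((hasDerivAt_id z).sub_const p).div_const _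
    have h8 := (h7.clog (by simp [div_self hz])).const_add (log (z - p))
    refine h8.congr_deriv ?_
    simp [div_self hz]
  have h7 : log (z - p) ∈ S := by
    simpa [S, log_re, Real.exp_log (h1.trans_lt hz1)] using And.intro hz1 hz2
  have h8 : HasDerivAt H (g (log (z - p))) (log (z - p) + log ((z - p) / (z - p))) := by
    simpa [div_self hz] using hH' _ h7
  have h9 := h8.comp z h6
  refine (h9.congr_of_eventuallyEq ?_).congr_deriv ?_
  · filter_upwards [hU.mem_nhds ⟨hz1, hz2⟩] with y hy
    have hy0 : y - p ≠ 0 := norm_pos_iff.1 (h1.trans_lt hy.1)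
    have e1 : exp (log (z - p) + log ((y - p) / (z - p))) = exp (log (y - p)) := by
      rw [exp_add, exp_log hz, exp_log hy0, exp_log (div_ne_zero hy0 hz), mul_div_cancel₀ _ hz]
    obtain ⟨n, hn⟩ := exp_eq_exp_iff_exists_int.1 e1
    have e2 : log (y - p) ∈ S := by
      simpa [S, log_re, Real.exp_log (h1.trans_lt hy.1)] using hy
    simp only [Function.comp, hn, h5 n _ e2]
  · simp only [g, exp_log hz, add_sub_cancel]
    field_simp

end Pool.Agent.P.MP_cc4a10_gt
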