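import Pool.Agent.P.MP_cc4a10_gt.St

/-! The pieces form an embedded minimal surface; convergence on it is intrinsic. -/

open Set Filter Topology Complex Metric
open scoped ENNReal NNReal

namespace Pool.Agent.P.MP_cc4a10_gt

namespace Asm1P

theorem imm_mono {U V : Set ℂ} {f : ℂ → E3} (h : IsMinImm U f) (hV : V ⊆ U) : IsMinImm V f :=
  ⟨h.smooth.mono hV, fun z hz => h.imm z (hV hz), fun z hz => h.mean z (hV hz)⟩

theorem cont_hz : Continuous hz := by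
  have : hz = fun x : E3 => (x 0 : ℂ) + x 1 * I := funext fun x => by
    apply Complex.ext <;> simp [hz]
  rw [this]
  fun_prop

theorem hz_le (a b : E3) : ‖hz a - hz b‖ ≤ 2 * dist a b := by
  have h0 := PiLp.dist_apply_le a b 0
  have h1 := PiLp.dist_apply_le a b 1
  have h2 := Complex.norm_le_abs_re_add_abs_im (hz a - hz b)
  rw [Real.dist_eq] at h0 h1
  simp only [hz, sub_re, sub_im] at h2 ⊢
  linarith

theorem open_band (a b : ℝ) : IsOpen {x : E3 | x 2 ∈ Ioo a b} :=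
  isOpen_Ioo.preimage (by fun_prop : Continuous fun x : E3 => x 2)

theorem open_An (r1 r2 : ℝ) : IsOpen (An r1 r2) :=
  isOpen_Ioo.preimage (continuous_norm (E := ℂ))

theorem chartA (P : Pieces) (K : ℤ) {x : E3} (hx : x 2 ∈ Ioo (P.a1 K) (P.a2 K)) :
    ∃ (U : Set ℂ) (f : ℂ → E3) (W : Set E3), IsOpen U ∧ IsMinImm U f ∧
      IsEmbedding (U.domRestrict f) ∧ IsOpen W ∧ x ∈ W ∧ f '' U = P.M ∩ W := by
  have hc := (P.mX K).smooth.continuousOn
  refine ⟨{z ∈ P.Ω K | P.X K z 2 ∈ Ioo (P.a1 K) (P.a2 K)}, P.X K, _,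
    hc.isOpen_inter_preimage (P.oΩ K) (open_band _ _), imm_mono (P.mX K) fun z hz => hz.1, ?_,
    open_band _ _, hx, (P.hA K).symm⟩
  refine AntilipschitzWith.isEmbedding (K := 4) (AntilipschitzWith.of_le_mul_dist fun z z' => ?_)
    (continuousOn_iff_continuous_domRestrict.1 (hc.mono fun z hz => hz.1))
  have h1 := P.gr K z z.2.1 z' z'.2.1
  have h2 := hz_le (P.X K z) (P.X K z')
  rw [Subtype.dist_eq, dist_eq_norm]
  change _ ≤ (4 : ℝ) * dist (P.X K z) (P.X K z')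
  linarith

theorem chartB (P : Pieces) (k : ℤ) {x : E3} (hM : x ∈ P.M) (hx : x 2 ∈ Ioo (P.b1 k) (P.b2 k)) :
    ∃ (U : Set ℂ) (f : ℂ → E3) (W : Set E3), IsOpen U ∧ IsMinImm U f ∧
      IsEmbedding (U.domRestrict f) ∧ IsOpen W ∧ x ∈ W ∧ f '' U = P.M ∩ W := by
  have hB := P.hB k
  have hD := (P.Dp (k + 1)).1
  have near : ∀ u ∈ P.nk k, ∀ v ∈ An (P.r1 k u) (P.r2 k u),
      ‖hz (P.Y k u v) - P.cen k u‖ ≤ P.D (k + 1) / 10 := fun u hu v hv => by
    linarith [(P.hY k u hu v hv).2, min_le_right (P.D k) (P.D (k + 1))]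
  obtain ⟨u, hu, v0, hv0, rfl⟩ := mem_iUnion₂.1 (hB.subset ⟨hM, hx⟩)
  obtain ⟨h1, h2, h3, -, h4⟩ := P.mY k u hu
  obtain ⟨-, h5, h6, -⟩ := P.rY k u hu
  have hc := h1.smooth.continuousOn
  refine ⟨{v ∈ An (P.r1 k u) (P.r2 k u) | P.Y k u v 2 ∈ Ioo (P.b1 k) (P.b2 k)}, P.Y k u,
    {x | x 2 ∈ Ioo (P.b1 k) (P.b2 k)} ∩ {x | ‖hz x - P.cen k u‖ < P.D (k + 1) / 4},
    hc.isOpen_inter_preimage (open_An _ _) (open_band _ _), imm_mono h1 fun z hz => hz.1, ?_,
    (open_band _ _).inter (isOpen_lt (cont_hz.sub continuous_const).norm continuous_const),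
    ⟨hx, (near u hu v0 hv0.1).trans_lt (by linarith)⟩, ?_⟩
  · let C : Set ℂ := {v | Real.exp ((P.b1 k - P.η k u) / P.β k u) ≤ ‖v‖} ∩
      closedBall 0 (Real.exp ((P.b2 k - P.η k u) / P.β k u))
    have c1 : IsCompact C :=
      (isCompact_closedBall _ _).inter_left (isClosed_le continuous_const continuous_norm)
    have c2 : C ⊆ An (P.r1 k u) (P.r2 k u) := fun v hv => by
      refine ⟨lt_of_lt_of_le ?_ hv.1, (mem_closedBall_zero_iff.1 hv.2).trans_lt ?_⟩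
      · rw [← Real.log_lt_iff_lt_exp h3, lt_div_iff₀ h4]
        linarith
      · rw [← Real.lt_log_iff_exp_lt (h3.trans (hv0.1.1.trans hv0.1.2)), div_lt_iff₀ h4]
        linarith
    have c3 : {v ∈ An (P.r1 k u) (P.r2 k u) | P.Y k u v 2 ∈ Ioo (P.b1 k) (P.b2 k)} ⊆ C := by
      rintro v ⟨hv, c4, c5⟩
      rw [(P.hY k u hu v hv).1] at c4 c5
      have c6 := h3.trans hv.1
      refine ⟨mem_ofPred_eq ▸ le_of_lt ?_, mem_closedBall_zero_iff.2 (le_of_lt ?_)⟩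
      · rw [← Real.lt_log_iff_exp_lt c6, div_lt_iff₀ h4]
        linarith
      · rw [← Real.log_lt_iff_lt_exp c6, lt_div_iff₀ h4]
        linarith
    have := isCompact_iff_compactSpace.1 c1
    exact ((continuousOn_iff_continuous_domRestrict.1 (hc.mono c2)).isClosedEmbedding
      (h2.mono c2).injective).isEmbedding.comp (IsEmbedding.inclusion c3)
  · rw [← inter_assoc, hB]
    refine Subset.antisymm ?_ ?_
    · rintro _ ⟨v, hv, rfl⟩
      exact ⟨mem_iUnion₂.2 ⟨u, hu, v, hv, rfl⟩, (near u hu v hv.1).trans_lt (by linarith)⟩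
    · rintro y ⟨hy, hy'⟩
      obtain ⟨u', hu', v, hv, rfl⟩ := mem_iUnion₂.1 hy
      by_cases h : u = u'
      · exact ⟨v, h ▸ hv, h ▸ rfl⟩
      · have c1 := P.sep k u hu u' hu' h
        have c2 := near u' hu' v hv.1
        have c3 := norm_sub_le_norm_sub_add_norm_sub (P.cen k u) (hz (P.Y k u' v)) (P.cen k u')
        have c4 : ‖hz (P.Y k u' v) - P.cen k u‖ < P.D (k + 1) / 4 := hy'
        rw [norm_sub_rev] at c4
        linarith

theorem idist_le {M : Set E3} {f : ℂ → E3} {K : ℝ≥0} {s : Set ℂ} (hs : Convex ℝ s)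
    (hf : LipschitzOnWith K f s) (hM : MapsTo f s M) {a b : ℂ} (ha : a ∈ s) (hb : b ∈ s) :
    idist M (f a) (f b) ≤ (K * nndist a b : ℝ≥0) := by
  have h1 : MapsTo (AffineMap.lineMap (k := ℝ) a b) (Icc 0 1) s := fun t ht =>
    hs.lineMap_mem ha hb ht
  have h2 : LipschitzOnWith (K * nndist a b) (f ∘ AffineMap.lineMap (k := ℝ) a b) (Icc 0 1) :=
    hf.comp (lipschitzWith_lineMap a b).lipschitzOnWith h1
  refine (iInf₂_le (f ∘ AffineMap.lineMap (k := ℝ) a b)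
    ⟨h2.continuousOn, hM.comp h1, by simp, by simp⟩).trans ?_
  have h3 := h2.comp_eVariationOn_le (g := id) (s := Icc (0 : ℝ) 1) (mapsTo_id _)
  have h4 := (monotoneOn_id (s := Icc (0 : ℝ) 1)).eVariationOn_eq (left_mem_Icc.2 zero_le_one)
    (right_mem_Icc.2 zero_le_one)
  rw [inter_self] at h4
  refine h3.trans ((mul_le_mul_right h4.le _).trans ?_)
  simp

end Asm1P

open Asm1P

theorem pAsm1 : S_Asm1 := by
  intro P x hx
  have h1 : ∃ k, x 2 ∈ Ioo (P.a1 k) (P.a2 (k + 1)) := by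
    rcases P.hM ▸ hx with h | h
    · obtain ⟨K, z, hz, rfl⟩ := mem_iUnion.1 h
      have h2 := (P.cco K).2.2 z hz
      have h3 := P.ord (K + 1)
      exact ⟨K, h2.1, by linarith [h2.2, (P.ord K).2.2.2, h3.1, h3.2.1, h3.2.2.1]⟩
    · obtain ⟨k, h⟩ := mem_iUnion.1 h
      obtain ⟨u, hu, v, hv, rfl⟩ := mem_iUnion₂.1 h
      obtain ⟨-, -, h3, -, h4⟩ := P.mY k u hu
      obtain ⟨h5, -, -, h6⟩ := P.rY k u hu
      have h7 := mul_lt_mul_of_pos_left (Real.log_lt_log h3 hv.1) h4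
      have h8 := mul_lt_mul_of_pos_left (Real.log_lt_log (h3.trans hv.1) hv.2) h4
      rw [(P.hY k u hu v hv).1]
      exact ⟨k, by linarith, by linarith⟩
  obtain ⟨k, h1, h2⟩ := h1
  rcases lt_or_ge (x 2) (P.a2 k) with h3 | h3
  · exact chartA P k ⟨h1, h3⟩
  · rcases lt_or_ge (x 2) (P.b2 k) with h4 | h4
    · exact chartB P k hx ⟨(P.ord k).2.2.1.trans_le h3, h4⟩
    · have h5 := (P.ord (k + 1)).1
      rw [add_sub_cancel_right] at h5
      exact chartA P (k + 1) ⟨h5.trans_le h4, h2⟩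

theorem pIC : S_IC := by
  intro M hM x y hx hy h
  obtain ⟨U, f, W, hU, hf, he, hW, hyW, hi⟩ := hM y hy
  obtain ⟨z0, hz0, rfl⟩ : y ∈ f '' U := hi ▸ ⟨hy, hyW⟩
  have h1 : ∀ n, ∃ z : U, x n ∈ W → f z = x n := fun n => by
    by_cases h : x n ∈ W
    · obtain ⟨z, hz, hz'⟩ : x n ∈ f '' U := hi ▸ ⟨hx n, h⟩
      exact ⟨⟨z, hz⟩, fun _ => hz'⟩
    · exact ⟨⟨z0, hz0⟩, fun h' => absurd h' h⟩
  choose z hz using h1
  have h2 : ∀ᶠ n in atTop, f (z n) = x n := (h.eventually (hW.mem_nhds hyW)).mono hz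
  have h3 : Tendsto z atTop (𝓝 ⟨z0, hz0⟩) :=
    he.tendsto_nhds_iff.2 (h.congr' (h2.mono fun n hn => hn.symm))
  have h4 : Tendsto (fun n => (z n : ℂ)) atTop (𝓝 z0) := (continuous_subtype_val.tendsto _).comp h3
  obtain ⟨K, t, ht, hK⟩ := ((hf.smooth.contDiffAt (hU.mem_nhds hz0)).of_le
    (by exact_mod_cast le_top)).exists_lipschitzOnWith
  obtain ⟨ε, hε, h5⟩ := Metric.mem_nhds_iff.1 (inter_mem ht (hU.mem_nhds hz0))
  have h6 : Tendsto (fun n => ((K * nndist (z n : ℂ) z0 : ℝ≥0) : ℝ≥0∞)) atTop (𝓝 0) := by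
    have h7 := (h4.nndist (tendsto_const_nhds (x := z0))).const_mul K
    rw [nndist_self, mul_zero] at h7
    exact ENNReal.tendsto_coe.2 h7
  refine tendsto_of_tendsto_of_tendsto_of_le_of_le' tendsto_const_nhds h6
    (Eventually.of_forall fun n => zero_le) ?_
  filter_upwards [h2, h4.eventually (ball_mem_nhds z0 hε)] with n hn hn'
  rw [← hn]
  exact idist_le (convex_ball z0 ε) (hK.mono fun w hw => (h5 hw).1)
    (fun w hw => (hi.subset ⟨w, (h5 hw).2, rfl⟩).1) hn' (mem_ball_self hε)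

end Pool.Agent.P.MP_cc4a10_gt
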