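import Pool.Agent.P.MP_cc4a10_gt.St

/-! The assembled surface is connected and not proper. -/

open Set Filter Topology Complex Metric
open scoped Real

namespace Pool.Agent.P.MP_cc4a10_gt

namespace Asm2P

theorem an_preconn {r1 r2 : ℝ} (h : 0 < r1) : IsPreconnected (An r1 r2) := by
  have h1 : An r1 r2 = (fun p : ℝ × ℝ => (p.1 : ℂ) * exp (p.2 * I)) '' (Ioo r1 r2 ×ˢ univ) := by
    ext v
    constructor
    · intro hv
      exact ⟨(‖v‖, arg v), ⟨hv, trivial⟩, norm_mul_exp_arg_mul_I v⟩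
    · rintro ⟨⟨r, t⟩, ⟨hr, -⟩, rfl⟩
      have h2 : ‖(r : ℂ) * exp (t * I)‖ = r := by
        rw [norm_mul, norm_exp_ofReal_mul_I, mul_one, Complex.norm_real, Real.norm_eq_abs,
          abs_of_pos (h.trans hr.1)]
      change r1 < ‖(r : ℂ) * exp (t * I)‖ ∧ ‖(r : ℂ) * exp (t * I)‖ < r2
      rw [h2]
      exact hr
  rw [h1]
  exact (isPreconnected_Ioo.prod isPreconnected_univ).image _ (by fun_prop)

theorem sub_comp {M T : Set E3} {x : E3} (hT : IsPreconnected T) (hM : T ⊆ M)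
    (h : (T ∩ connectedComponentIn M x).Nonempty) : T ⊆ connectedComponentIn M x := by
  obtain ⟨y, hy, hy'⟩ := h
  rw [connectedComponentIn_eq hy']
  exact hT.subset_connectedComponentIn hy hM

theorem neck_ht (P : Pieces) {k : ℤ} {u : GI} (hu : u ∈ P.nk k) {v : ℂ}
    (hv : v ∈ An (P.r1 k u) (P.r2 k u)) :
    P.a1 k < P.Y k u v 2 ∧ P.Y k u v 2 < P.a1 (k + 1 + 1) := by
  obtain ⟨-, -, h1, -, h2⟩ := P.mY k u hu
  obtain ⟨h3, -, -, h4⟩ := P.rY k u hu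
  have h5 := (P.ord (k + 1)).2.2.2
  have h6 : Real.log (P.r1 k u) ≤ Real.log ‖v‖ := Real.log_le_log h1 hv.1.le
  have h7 : Real.log ‖v‖ ≤ Real.log (P.r2 k u) := Real.log_le_log (h1.trans hv.1) hv.2.le
  rw [(P.hY k u hu v hv).1]
  constructor <;> nlinarith

theorem conn (P : Pieces) : IsConnected P.M := by
  have hA : ∀ K, IsPreconnected (P.X K '' P.co K) := fun K =>
    (P.cco K).1.image _ ((P.mX K).smooth.continuousOn.mono (P.cco K).2.1)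
  have hB : ∀ k, ∀ u ∈ P.nk k, IsPreconnected (P.Y k u '' An (P.r1 k u) (P.r2 k u)) :=
    fun k u hu => (an_preconn (P.mY k u hu).2.2.1).image _ (P.mY k u hu).1.smooth.continuousOn
  have sA : ∀ K, P.X K '' P.co K ⊆ P.M := fun K => by
    rw [P.hM]
    exact (subset_iUnion (fun K => P.X K '' P.co K) K).trans subset_union_left
  have sB : ∀ k, ∀ u ∈ P.nk k, P.Y k u '' An (P.r1 k u) (P.r2 k u) ⊆ P.M := fun k u hu y hy => by
    rw [P.hM]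
    exact Or.inr (mem_iUnion.mpr ⟨k, mem_iUnion₂.mpr ⟨u, hu, hy⟩⟩)
  obtain ⟨u0, hu0, -⟩ := P.ne 0
  obtain ⟨x, -, hx⟩ := (P.meet 0 u0 hu0).1
  have hxM := sA 0 hx
  have key : ∀ K, P.X K '' P.co K ⊆ connectedComponentIn P.M x := by
    intro K
    induction K using Int.induction_on with
    | zero => exact sub_comp (hA 0) (sA 0) ⟨x, hx, mem_connectedComponentIn hxM⟩
    | succ n ih =>
      obtain ⟨u, hu, -⟩ := P.ne n
      obtain ⟨⟨y, hy1, hy2⟩, ⟨z, hz1, hz2⟩⟩ := P.meet n u hu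
      have h1 := sub_comp (hB n u hu) (sB n u hu) ⟨y, hy1, ih hy2⟩
      exact sub_comp (hA _) (sA _) ⟨z, hz2, h1 hz1⟩
    | pred n ih =>
      obtain ⟨u, hu, -⟩ := P.ne (-(n : ℤ) - 1)
      obtain ⟨⟨y, hy1, hy2⟩, ⟨z, hz1, hz2⟩⟩ := P.meet _ u hu
      rw [sub_add_cancel] at hz2
      have h1 := sub_comp (hB _ u hu) (sB _ u hu) ⟨z, hz1, ih hz2⟩
      exact sub_comp (hA _) (sA _) ⟨y, hy2, h1 hy1⟩
  have hM : P.M = connectedComponentIn P.M x := by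
    refine Subset.antisymm (fun y hy => ?_) (connectedComponentIn_subset _ _)
    have hy' := hy
    rw [P.hM] at hy'
    rcases hy' with hy' | hy'
    · obtain ⟨K, hK⟩ := mem_iUnion.mp hy'
      exact key K hK
    · obtain ⟨k, hk⟩ := mem_iUnion.mp hy'
      obtain ⟨u, hu, hyu⟩ := mem_iUnion₂.mp hk
      obtain ⟨z, hz1, hz2⟩ := (P.meet k u hu).1
      exact sub_comp (hB k u hu) (sB k u hu) ⟨z, hz1, key k hz2⟩ hyu
  refine ⟨⟨x, hxM⟩, ?_⟩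
  rw [hM]
  exact isPreconnected_connectedComponentIn

theorem ht_lt (P : Pieces) {x : E3} (hx : x ∈ P.M) : ∃ k, x 2 < P.a1 k := by
  rw [P.hM] at hx
  rcases hx with hx | hx
  · obtain ⟨K, z, hz, rfl⟩ := mem_iUnion.mp hx
    exact ⟨K + 1, ((P.cco K).2.2 z hz).2.trans (P.ord K).2.2.2⟩
  · obtain ⟨k, hk⟩ := mem_iUnion.mp hx
    obtain ⟨u, hu, v, hv, rfl⟩ := mem_iUnion₂.mp hk
    exact ⟨_, (neck_ht P hu hv).2⟩

theorem pts (P : Pieces) : ∃ R : ℝ, ∀ k, ∃ y ∈ P.M ∩ closedBall 0 R, P.a1 k < y 2 := by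
  obtain ⟨H, hH⟩ := P.bdd
  have H0 : 0 ≤ H := (abs_nonneg _).trans (hH 0)
  refine ⟨4 + H, fun k => ?_⟩
  obtain ⟨u, hu, hc⟩ := P.ne k
  obtain ⟨y, ⟨v, hv, rfl⟩, -⟩ := (P.meet k u hu).1
  obtain ⟨h1, h2⟩ := neck_ht P hu hv
  refine ⟨_, ⟨?_, ?_⟩, h1⟩
  · rw [P.hM]
    exact Or.inr (mem_iUnion.mpr ⟨k, mem_iUnion₂.mpr ⟨u, hu, v, hv, rfl⟩⟩)
  · have h3 := (P.hY k u hu v hv).2
    have h4 : min (P.D k) (P.D (k + 1)) ≤ 1 := (min_le_left _ _).trans (P.Dp k).2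
    have h5 : ‖hz (P.Y k u v)‖ ≤ 4 := by
      have := norm_le_norm_add_norm_sub' (hz (P.Y k u v)) (P.cen k u)
      linarith
    have h6 : ‖hz (P.Y k u v)‖ ^ 2 = P.Y k u v 0 ^ 2 + P.Y k u v 1 ^ 2 := by
      rw [Complex.sq_norm, normSq_apply]; simp [hz]; ring
    have h7 : P.Y k u v 2 ^ 2 ≤ H ^ 2 := by
      have a1 := abs_le.mp (hH k)
      have a2 := abs_le.mp (hH (k + 1 + 1))
      exact sq_le_sq' (by linarith) (by linarith)
    have h8 : ‖P.Y k u v‖ ^ 2 = P.Y k u v 0 ^ 2 + P.Y k u v 1 ^ 2 + P.Y k u v 2 ^ 2 := by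
      rw [EuclideanSpace.norm_sq_eq, Fin.sum_univ_three]; simp
    rw [mem_closedBall_zero_iff]
    have h9 : ‖hz (P.Y k u v)‖ ^ 2 ≤ 16 := by nlinarith [norm_nonneg (hz (P.Y k u v))]
    exact abs_le_of_sq_le_sq' (by nlinarith) (by linarith) |>.2

end Asm2P

open Asm2P in
theorem pAsm2 : S_Asm2 := by
  intro P
  refine ⟨conn P, ?_⟩
  obtain ⟨R, hR⟩ := pts P
  refine ⟨closedBall 0 R, isCompact_closedBall _ _, fun hc => ?_⟩
  obtain ⟨y0, hy0, -⟩ := hR 0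
  obtain ⟨x, hx, hmax⟩ := hc.exists_isMaxOn ⟨y0, hy0⟩ (f := fun x : E3 => x 2) (by fun_prop)
  obtain ⟨k, hk⟩ := ht_lt P hx.1
  obtain ⟨y, hy, hy2⟩ := hR k
  have h1 : y 2 ≤ x 2 := hmax hy
  linarith

end Pool.Agent.P.MP_cc4a10_gt
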