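import Pool.Agent.P.MP_cc4a10_gt.St

/-!
Closedness of the slices, the cost of crossing levels, intrinsic completeness.
-/

open Set Filter Topology Complex Metric
open scoped ENNReal

noncomputable section

namespace Pool.Agent.P.MP_cc4a10_gt.Asm3P

theorem hz_le (p q : E3) : ‖hz p - hz q‖ ≤ dist p q := by
  rw [EuclideanSpace.dist_eq, Complex.norm_eq_sqrt_sq_add_sq]
  apply Real.sqrt_le_sqrt
  simp only [hz, sub_re, sub_im, Fin.sum_univ_three, Real.dist_eq, sq_abs]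
  nlinarith [sq_nonneg (p 2 - q 2)]

theorem cont2 : Continuous (fun x : E3 => x 2) := by fun_prop

variable (P : Pieces)

theorem b2_mono : StrictMono P.b2 := strictMono_int_of_lt_succ fun k => by
  have h := P.ord (k + 1)
  have h' := P.ord (k + 1 + 1)
  simp only [add_sub_cancel_right] at h h'
  linarith [h.2.1, h.2.2.1, h.2.2.2, h'.1]

theorem cover (k : ℤ) (n : ℕ) : ∀ t, P.b1 k < t → t < P.b2 (k + n) →
    ∃ K, t ∈ Ioo (P.a1 K) (P.a2 K) ∨ t ∈ Ioo (P.b1 K) (P.b2 K) := by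
  induction n with
  | zero => exact fun t h1 h2 => ⟨k, Or.inr ⟨h1, by simpa using h2⟩⟩
  | succ n ih =>
    intro t h1 h2
    have h := P.ord (k + n + 1)
    simp only [add_sub_cancel_right] at h
    rcases lt_or_ge t (P.b2 (k + n)) with h3 | h3
    · exact ih t h1 h3
    rcases lt_or_ge t (P.a2 (k + n + 1)) with h4 | h4
    · exact ⟨k + n + 1, Or.inl ⟨h.1.trans_le h3, h4⟩⟩
    · refine ⟨k + n + 1, Or.inr ⟨h.2.2.1.trans_le h4, ?_⟩⟩
      rwa [Nat.cast_succ, ← add_assoc] at h2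

theorem cover' (k k' : ℤ) (t : ℝ) (h : t ∈ Icc (P.a1 k) (P.a2 k')) :
    ∃ K, t ∈ Ioo (P.a1 K) (P.a2 K) ∨ t ∈ Ioo (P.b1 K) (P.b2 K) := by
  refine cover P (k - 1) (k' - (k - 1)).toNat t ?_ ?_
  · have h1 := P.ord (k - 1)
    simp only [sub_add_cancel] at h1
    linarith [h1.2.2.1, h1.2.2.2, h.1]
  · have h1 := P.ord k'
    have h2 := P.ord (k' + 1)
    simp only [add_sub_cancel_right] at h2
    have h3 : P.b2 k' ≤ P.b2 (k - 1 + ((k' - (k - 1)).toNat : ℕ)) := (b2_mono P).monotone (by omega)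
    linarith [h1.2.2.2, h2.1, h.2]

theorem closA (K : ℤ) (y : E3) (hy : y ∈ closure P.M) (h : y 2 ∈ Ioo (P.a1 K) (P.a2 K)) :
    y ∈ P.M := by
  have ho : IsOpen ({x : E3 | x 2 ∈ Ioo (P.a1 K) (P.a2 K)} ∩ ball y 1) :=
    (isOpen_Ioo.preimage cont2).inter isOpen_ball
  have h1 := ho.inter_closure ⟨⟨h, mem_ball_self one_pos⟩, hy⟩
  obtain ⟨x0, ⟨hx0, hx1⟩, hx2⟩ := closure_nonempty_iff.1 ⟨y, h1⟩
  obtain ⟨z0, ⟨hz0, -⟩, rfl⟩ := (P.hA K).subset ⟨hx2, hx0⟩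
  have hc : IsCompact (P.X K '' (P.cl K ∩ closedBall z0 4)) :=
    ((isCompact_closedBall z0 4).inter_left (P.ccl K).1).image_of_continuousOn
      ((P.mX K).smooth.continuousOn.mono (inter_subset_left.trans (P.ccl K).2.1))
  have h2 : {x : E3 | x 2 ∈ Ioo (P.a1 K) (P.a2 K)} ∩ ball y 1 ∩ P.M
      ⊆ P.X K '' (P.cl K ∩ closedBall z0 4) := by
    rintro x ⟨⟨h3, h4⟩, h5⟩
    obtain ⟨z, ⟨hz1, hz2⟩, rfl⟩ := (P.hA K).subset ⟨h5, h3⟩
    refine ⟨z, ⟨(P.ccl K).2.2 z hz1 hz2, ?_⟩, rfl⟩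
    have h6 := P.gr K z hz1 z0 hz0
    have h7 := hz_le (P.X K z) (P.X K z0)
    have h8 := dist_triangle_right (P.X K z) (P.X K z0) y
    rw [mem_ball] at h4 hx1
    rw [mem_closedBall, dist_eq_norm]; linarith
  obtain ⟨z, ⟨hz1, -⟩, rfl⟩ := closure_minimal h2 hc.isClosed h1
  exact ((P.hA K).superset ⟨z, ⟨(P.ccl K).2.1 hz1, h⟩, rfl⟩).1

theorem inB (k : ℤ) (x : E3) (hx : x ∈ P.M) (h : x 2 ∈ Ioo (P.b1 k) (P.b2 k)) :
    ∃ u ∈ P.nk k, ∃ v ∈ An (P.r1 k u) (P.r2 k u), P.Y k u v = x := by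
  have := (P.hB k).subset ⟨hx, h⟩
  simp only [mem_iUnion] at this
  obtain ⟨u, hu, v, ⟨hv, -⟩, rfl⟩ := this
  exact ⟨u, hu, v, hv, rfl⟩

theorem closB (k : ℤ) (y : E3) (hy : y ∈ closure P.M) (h : y 2 ∈ Ioo (P.b1 k) (P.b2 k)) :
    y ∈ P.M := by
  have hD := (P.Dp (k + 1)).1
  have ho : IsOpen ({x : E3 | x 2 ∈ Ioo (P.b1 k) (P.b2 k)} ∩ ball y (P.D (k + 1) / 10)) :=
    (isOpen_Ioo.preimage cont2).inter isOpen_ball
  have h1 := ho.inter_closure ⟨⟨h, mem_ball_self (by positivity)⟩, hy⟩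
  obtain ⟨x0, ⟨hx0, hx1⟩, hx2⟩ := closure_nonempty_iff.1 ⟨y, h1⟩
  obtain ⟨u, hu, v0, hv0, rfl⟩ := inB P k x0 hx2 hx0
  obtain ⟨hm, -, hr1, hr2, hβ⟩ := P.mY k u hu
  obtain ⟨-, e1, e2, -⟩ := P.rY k u hu
  set s := Real.exp ((P.b1 k - P.η k u) / P.β k u) with hs
  set t := Real.exp ((P.b2 k - P.η k u) / P.β k u) with ht
  have hC : closedBall (0 : ℂ) t ∩ (ball 0 s)ᶜ ⊆ An (P.r1 k u) (P.r2 k u) := by
    rintro v ⟨h3, h4⟩
    simp only [mem_closedBall, mem_compl_iff, mem_ball, dist_zero_right, not_lt] at h3 h4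
    refine ⟨lt_of_lt_of_le ?_ h4, lt_of_le_of_lt h3 ?_⟩
    · rw [hs, ← Real.log_lt_iff_lt_exp hr1, lt_div_iff₀ hβ]; linarith
    · rw [ht, ← Real.lt_log_iff_exp_lt (hr1.trans hr2), div_lt_iff₀ hβ]; linarith
  have hc : IsCompact (P.Y k u '' (closedBall (0 : ℂ) t ∩ (ball 0 s)ᶜ)) :=
    ((isCompact_closedBall 0 t).inter_right isOpen_ball.isClosed_compl).image_of_continuousOn
      (hm.smooth.continuousOn.mono hC)
  have h2 : {x : E3 | x 2 ∈ Ioo (P.b1 k) (P.b2 k)} ∩ ball y (P.D (k + 1) / 10) ∩ P.M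
      ⊆ P.Y k u '' (closedBall (0 : ℂ) t ∩ (ball 0 s)ᶜ) := by
    rintro x ⟨⟨h3, h4⟩, h5⟩
    obtain ⟨u', hu', v, hv, rfl⟩ := inB P k x h5 h3
    have huu : u' = u := by
      by_contra hne
      have s1 := P.sep k u' hu' u hu hne
      have s2 := (P.hY k u' hu' v hv).2
      have s3 := (P.hY k u hu v0 hv0).2
      have s4 := hz_le (P.Y k u' v) (P.Y k u v0)
      have s5 := dist_triangle_right (P.Y k u' v) (P.Y k u v0) y
      have s6 := min_le_right (P.D k) (P.D (k + 1))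
      have s7 := dist_triangle4 (P.cen k u') (hz (P.Y k u' v)) (hz (P.Y k u v0)) (P.cen k u)
      rw [mem_ball] at h4 hx1
      simp only [dist_eq_norm] at s7
      rw [norm_sub_rev (P.cen k u') (hz _)] at s7
      linarith
    subst huu
    have hv0' : 0 < ‖v‖ := hr1.trans hv.1
    have h6 := (P.hY k u' hu v hv).1
    simp only [mem_ofPred_eq, h6, mem_Ioo] at h3
    refine ⟨v, ⟨?_, ?_⟩, rfl⟩
    · rw [mem_closedBall, dist_zero_right, ht, ← Real.log_le_iff_le_exp hv0', le_div_iff₀ hβ]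
      linarith [h3.2]
    · rw [mem_compl_iff, mem_ball, dist_zero_right, not_lt, hs, ← Real.le_log_iff_exp_le hv0',
        div_le_iff₀ hβ]
      linarith [h3.1]
  obtain ⟨v, hv, rfl⟩ := closure_minimal h2 hc.isClosed h1
  rw [P.hM]
  exact Or.inr (mem_iUnion.2 ⟨k, mem_iUnion₂.2 ⟨u, hu, v, hC hv, rfl⟩⟩)

/-- A path that climbs through the levels of `h` is long. -/
theorem climb {M : Set E3} {h : E3 → ℝ} (hh : Continuous h) {κ d : ℕ → ℝ} (hκ : Monotone κ)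
    (hd : ∀ i, ∀ p ∈ M, ∀ q ∈ M, h p = κ i → h q = κ (i + 1) → d i ≤ dist p q)
    (hd0 : ∀ i, 0 ≤ d i) {γ : ℝ → E3} (hγ : ContinuousOn γ (Icc 0 1)) (hM : MapsTo γ (Icc 0 1) M)
    (h0 : h (γ 0) ≤ κ 0) (n : ℕ) : ∀ t ∈ Icc (0 : ℝ) 1, κ n ≤ h (γ t) →
      ∃ s ∈ Icc (0 : ℝ) t, h (γ s) = κ n ∧
        ENNReal.ofReal (∑ i ∈ Finset.range n, d i) ≤ eVariationOn γ (Icc 0 s) := by
  have ivt : ∀ n, ∀ t ∈ Icc (0 : ℝ) 1, κ n ≤ h (γ t) → ∃ s ∈ Icc (0 : ℝ) t, h (γ s) = κ n :=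
    fun n t ht hn => intermediate_value_Icc ht.1
      (hh.comp_continuousOn (hγ.mono (Icc_subset_Icc_right ht.2)))
      ⟨h0.trans (hκ (Nat.zero_le n)), hn⟩
  induction n with
  | zero =>
    intro t ht hn
    obtain ⟨s, hs, e⟩ := ivt 0 t ht hn
    exact ⟨s, hs, e, by simp⟩
  | succ n ih =>
    intro t ht hn
    obtain ⟨s, hs, e⟩ := ivt (n + 1) t ht hn
    have hs1 : s ∈ Icc (0 : ℝ) 1 := ⟨hs.1, hs.2.trans ht.2⟩
    obtain ⟨r, hr, e', hv⟩ := ih s hs1 (e ▸ hκ n.le_succ)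
    refine ⟨s, hs, e, ?_⟩
    have h1 := eVariationOn.Icc_add_Icc γ (s := univ) hr.1 hr.2 (mem_univ r)
    simp only [univ_inter] at h1
    rw [← h1, Finset.sum_range_succ,
      ENNReal.ofReal_add (Finset.sum_nonneg fun i _ => hd0 i) (hd0 n)]
    refine add_le_add hv (le_trans ?_ (eVariationOn.edist_le γ (left_mem_Icc.2 hr.2)
      (right_mem_Icc.2 hr.2)))
    rw [edist_dist]
    exact ENNReal.ofReal_le_ofReal (hd n _ (hM ⟨hr.1, hr.2.trans hs1.2⟩) _ (hM hs1) e' e)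

theorem climb' {M : Set E3} {h : E3 → ℝ} (hh : Continuous h) {κ d : ℕ → ℝ} (hκ : Monotone κ)
    (hd : ∀ i, ∀ p ∈ M, ∀ q ∈ M, h p = κ i → h q = κ (i + 1) → d i ≤ dist p q)
    (hd0 : ∀ i, 0 ≤ d i) {x y : E3} (h0 : h x ≤ κ 0) {n : ℕ} (hn : 1 ≤ ∑ i ∈ Finset.range n, d i)
    (hxy : idist M x y < 1) : h y < κ n := by
  by_contra hc
  rw [not_lt] at hc
  refine absurd hxy (not_lt.2 (le_iInf₂ fun γ hγ => ?_))
  obtain ⟨h1, h2, rfl, rfl⟩ := hγ
  obtain ⟨s, hs, -, hv⟩ := climb hh hκ hd hd0 h1 h2 h0 n 1 (right_mem_Icc.2 zero_le_one) hc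
  exact (ENNReal.one_le_ofReal.2 hn).trans (hv.trans (eVariationOn.mono γ
    (Icc_subset_Icc_right hs.2)))

/-- A height in the middle of layer `k`. -/
def ka (k : ℤ) : ℝ := (P.a2 k + P.a1 (k + 1)) / 2

theorem ka_lt (k : ℤ) : P.a2 k < ka P k ∧ ka P k < P.a1 (k + 1) := by
  have := (P.ord k).2.2.2
  unfold ka; constructor <;> linarith

theorem a1_lt (k : ℤ) : P.a1 k < P.a2 k := by
  have := P.ord k
  linarith [this.1, this.2.1, this.2.2.1]

theorem ka_mono : StrictMono (ka P) := strictMono_int_of_lt_succ fun k => by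
  linarith [(ka_lt P k).2, (ka_lt P (k + 1)).1, a1_lt P (k + 1)]

theorem ka_mem (k : ℤ) : ka P k ∈ Ioo (P.b1 k) (P.b2 k) := by
  have h1 := (P.ord k).2.2.1
  have h2 := (P.ord (k + 1)).1
  simp only [add_sub_cancel_right] at h2
  exact ⟨h1.trans (ka_lt P k).1, (ka_lt P k).2.trans h2⟩

theorem ka_dist (k : ℤ) (p q : E3) (hp : p ∈ P.M) (hq : q ∈ P.M) (h1 : p 2 = ka P (k - 1))
    (h2 : q 2 = ka P k) : 3 / 10 * P.D k ≤ dist p q := by
  obtain ⟨u, hu, v, hv, rfl⟩ := inB P (k - 1) p hp (h1 ▸ ka_mem P _)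
  obtain ⟨u', hu', v', hv', rfl⟩ := inB P k q hq (h2 ▸ ka_mem P _)
  have s1 := P.sep2 k u hu u' hu'
  have s2 := (P.hY _ u hu v hv).2
  have s3 := (P.hY k u' hu' v' hv').2
  have s4 := hz_le (P.Y (k - 1) u v) (P.Y k u' v')
  have s5 := min_le_right (P.D (k - 1)) (P.D (k - 1 + 1))
  have s6 := min_le_left (P.D k) (P.D (k + 1))
  have s7 := dist_triangle4 (P.cen (k - 1) u) (hz (P.Y (k - 1) u v)) (hz (P.Y k u' v'))
    (P.cen k u')
  simp only [dist_eq_norm] at s7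
  rw [norm_sub_rev (P.cen (k - 1) u) (hz _)] at s7
  rw [sub_add_cancel] at s2 s5
  linarith

theorem height (x : E3) (hx : x ∈ P.M) : ∃ K, P.a1 K < x 2 ∧ x 2 < P.a2 (K + 1) := by
  rw [P.hM] at hx
  simp only [mem_union, mem_iUnion] at hx
  rcases hx with ⟨K, z, hz, rfl⟩ | ⟨k, u, hu, v, hv, rfl⟩
  · have h := (P.cco K).2.2 z hz
    exact ⟨K, h.1, by linarith [h.2, (P.ord K).2.2.2, a1_lt P (K + 1)]⟩
  · obtain ⟨-, -, hr1, -, hβ⟩ := P.mY k u hu
    obtain ⟨e1, -, -, e2⟩ := P.rY k u hu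
    have h1 := mul_lt_mul_of_pos_left (Real.log_lt_log hr1 hv.1) hβ
    have h2 := mul_lt_mul_of_pos_left (Real.log_lt_log (hr1.trans hv.1) hv.2) hβ
    refine ⟨k, ?_, ?_⟩ <;> rw [(P.hY k u hu v hv).1] <;> linarith

theorem edist_le_idist (M : Set E3) (x y : E3) : edist x y ≤ idist M x y :=
  le_iInf₂ fun γ hγ => by
    obtain ⟨-, -, rfl, rfl⟩ := hγ
    exact eVariationOn.edist_le γ (left_mem_Icc.2 zero_le_one) (right_mem_Icc.2 zero_le_one)

end Pool.Agent.P.MP_cc4a10_gt.Asm3P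

namespace Pool.Agent.P.MP_cc4a10_gt

open Asm3P

theorem pClo : S_Clo := fun P k k' => by
  refine isClosed_of_closure_subset fun y hy => ?_
  have h1 : y ∈ closure P.M := closure_mono inter_subset_left hy
  have h2 : y ∈ {x : E3 | x 2 ∈ Icc (P.a1 k) (P.a2 k')} :=
    closure_minimal inter_subset_right (isClosed_Icc.preimage cont2) hy
  refine ⟨?_, h2⟩
  obtain ⟨K, h | h⟩ := cover' P k k' _ h2
  exacts [closA P K y h1 h, closB P K y h1 h]

theorem pCross : S_Cross := fun P x hx => by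
  obtain ⟨K, h1, h2⟩ := height P x hx
  obtain ⟨n, hn⟩ := P.up (K + 2) 4
  obtain ⟨m, hm⟩ := P.dn (K - 1) 4
  refine ⟨K - 1 - m, K + 1 + n + 1, fun y _ hxy => ⟨?_, ?_⟩⟩
  · have := climb' (M := P.M) (h := fun x => -x 2) cont2.neg (κ := fun i => -ka P (K - 1 - i))
      (d := fun i => 3 / 10 * P.D (K - 1 - i))
      (fun i j hij => neg_le_neg ((ka_mono P).monotone (by omega)))
      (fun i p hp q hq e1 e2 => by
        rw [dist_comm]
        refine ka_dist P _ q p hq hp ?_ (neg_injective e1)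
        rw [neg_injective e2]; congr 1; push_cast; ring)
      (fun i => mul_nonneg (by norm_num) (P.Dp _).1.le) (x := x) (y := y) (n := m)
      (by
        have := (ka_lt P (K - 1)).2
        simp only [sub_add_cancel, Nat.cast_zero, sub_zero] at this ⊢
        linarith)
      (by rw [← Finset.mul_sum]; linarith) hxy
    linarith [(ka_lt P (K - 1 - m)).1, a1_lt P (K - 1 - m)]
  · have := climb' (M := P.M) (h := fun x => x 2) cont2 (κ := fun i => ka P (K + 1 + i))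
      (d := fun i => 3 / 10 * P.D (K + 2 + i))
      (fun i j hij => (ka_mono P).monotone (by omega))
      (fun i p hp q hq e1 e2 => by
        refine ka_dist P _ p q hp hq ?_ ?_
        · rw [e1]; congr 1; ring
        · rw [e2]; congr 1; push_cast; ring)
      (fun i => mul_nonneg (by norm_num) (P.Dp _).1.le) (x := x) (y := y) (n := n)
      (by
        have := (ka_lt P (K + 1)).1
        simp only [Nat.cast_zero, add_zero]
        linarith)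
      (by rw [← Finset.mul_sum]; linarith) hxy
    linarith [(ka_lt P (K + 1 + n)).2, a1_lt P (K + 1 + n + 1)]

theorem pAsm3 (h1 : S_Asm1) (h2 : S_IC) : S_Asm3 := fun P x hx hc => by
  have hcs : CauchySeq x := EMetric.cauchySeq_iff.2 fun ε hε => by
    obtain ⟨N, hN⟩ := hc ε hε
    exact ⟨N, fun m hm n hn => (edist_le_idist _ _ _).trans_lt (hN m hm n hn)⟩
  obtain ⟨y, hy⟩ := cauchySeq_tendsto_of_complete hcs
  obtain ⟨N, hN⟩ := hc 1 one_pos
  obtain ⟨k, k', hk⟩ := pCross P (x N) (hx N)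
  have hm : y ∈ P.M := ((pClo P k k').mem_of_tendsto hy (eventually_atTop.2
    ⟨N, fun n hn => ⟨hx n, hk _ (hx n) (hN N le_rfl n hn)⟩⟩)).1
  exact ⟨y, hm, h2 P.M (h1 P) x y hx hm hy⟩

end Pool.Agent.P.MP_cc4a10_gt
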