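import Pool.Agent.P.MP_cc4a10_gt.St

/-!
Asymptotics of the potential of the Bloch function.
-/

open Set Filter Topology Complex Metric
open scoped ComplexConjugate Real

noncomputable section

namespace Pool.Agent.P.MP_cc4a10_gt.AsyP

/-- The unimodular factor inverse to `ex`. -/
def EE (θ z : ℂ) : ℂ := exp (I * dot θ z)
/-- Potential with the leading term removed. -/
def VV {θ : ℂ} (b : BD θ) (z : ℂ) : ℂ := b.γ z + 2 * π / (‖θ‖ : ℂ) ^ 2 * EE θ z
/-- Periodic form of the Bloch function with the leading term removed. -/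
def BB {θ : ℂ} (b : BD θ) (z : ℂ) : ℂ := b.f z * ex θ z + 2 * π * I / θ

theorem norm_EE (θ z : ℂ) : ‖EE θ z‖ = 1 := norm_exp_I_mul_ofReal _

theorem norm_ex (θ z : ℂ) : ‖ex θ z‖ = 1 := by
  have := norm_exp_I_mul_ofReal (-dot θ z)
  unfold ex
  convert this using 3
  push_cast; ring

theorem EE_ex (θ z : ℂ) : EE θ z * ex θ z = 1 := by
  unfold EE ex
  rw [← exp_add]
  simp

theorem dot_add (θ z w : ℂ) : dot θ (z + w) = dot θ z + dot θ w := by
  simp [dot, mul_add]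

theorem dot_neg (θ z : ℂ) : dot θ (-z) = -dot θ z := by simp [dot]

theorem dot_real_mul (θ z : ℂ) (s : ℝ) : dot θ (s * z) = s * dot θ z := by
  simp [dot]; ring

theorem dot_eq (θ z : ℂ) : dot θ z = θ.re * z.re + θ.im * z.im := by simp [dot]

theorem conj_ex_neg (θ z : ℂ) : conj (ex θ (-z)) = ex θ z := by
  unfold ex
  rw [← exp_conj, dot_neg]
  simp

theorem dot_coe (θ h : ℂ) : ((dot θ h : ℝ) : ℂ) = (conj θ * h + θ * conj h) / 2 := by
  apply Complex.ext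
  · simp [dot]
  · simp [dot]; ring

theorem VV_ex {θ : ℂ} (b : BD θ) (z : ℂ) :
    ‖b.γ z * ex θ z + 2 * π / (‖θ‖ : ℂ) ^ 2‖ = ‖VV b z‖ := by
  have h : b.γ z * ex θ z + 2 * π / (‖θ‖ : ℂ) ^ 2 = VV b z * ex θ z := by
    unfold VV
    rw [add_mul, mul_assoc _ (EE θ z), EE_ex, mul_one]
  rw [h, norm_mul, norm_ex, mul_one]

theorem VV_per {θ : ℂ} (b : BD θ) (z : ℂ) (w : GI) :
    VV b (z + w) = exp (I * dot θ w) * VV b z := by
  unfold VV EE
  rw [b.blγ, dot_add]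
  push_cast
  rw [mul_add I, exp_add]
  ring

theorem hasDerivAt_VV {θ : ℂ} (b : BD θ) (hθ : θ ≠ 0) (z0 h : ℂ) (t : ℝ)
    (hz : NL (z0 + t * h)) :
    HasDerivAt (fun s : ℝ => VV b (z0 + s * h))
      (EE θ (z0 + t * h) * ((BB b (z0 + t * h) * h - conj (BB b (-(z0 + t * h))) * conj h) / 2))
      t := by
  have hp : HasDerivAt (fun s : ℝ => z0 + (s : ℂ) * h) h t := by
    simpa using ((hasDerivAt_id t).ofReal_comp.mul_const h).const_add z0
  have h1 := (b.hγ _ hz).comp_hasDerivAt t hp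
  have h2 : HasDerivAt (fun s : ℝ => EE θ (z0 + s * h))
      (EE θ (z0 + t * h) * (I * dot θ h)) t := by
    have e : (fun s : ℝ => EE θ (z0 + s * h))
        = fun s : ℝ => exp (I * (dot θ z0 + s * dot θ h)) := by
      funext s
      unfold EE
      rw [dot_add, dot_real_mul]; push_cast; rfl
    have h3 : HasDerivAt (fun s : ℝ => I * ((dot θ z0 : ℂ) + (s : ℂ) * (dot θ h : ℂ)))
        (I * dot θ h) t := by
      simpa using (((hasDerivAt_id t).ofReal_comp.mul_const (dot θ h : ℂ)).const_add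
        (dot θ z0 : ℂ)).const_mul I
    have h4 := h3.cexp
    rw [e]
    convert h4 using 2
    unfold EE
    rw [dot_add, dot_real_mul]; push_cast; rfl
  have h5 := h1.add (h2.const_mul (2 * π / (‖θ‖ : ℂ) ^ 2))
  refine HasDerivAt.congr_deriv h5 (Eq.symm ?_)
  have hn : ((‖θ‖ : ℝ) : ℂ) ^ 2 = θ * conj θ := by
    rw [mul_conj, normSq_eq_norm_sq]; push_cast; rfl
  have hc : conj θ ≠ 0 := by simpa using hθ
  have hE := EE_ex θ (z0 + t * h)
  unfold BB
  simp only [wl, sub_apply, ContinuousLinearMap.mul_apply',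
    ContinuousLinearMap.comp_apply, ContinuousLinearEquiv.coe_coe, conjCLE_apply, map_add,
    map_mul, map_div₀, conj_ex_neg, conj_ofReal, conj_I, map_ofNat]
  rw [hn, dot_coe]
  generalize EE θ (z0 + t * h) = A at hE ⊢
  generalize ex θ (z0 + t * h) = B at hE ⊢
  generalize b.f (z0 + t * h) = F
  generalize conj (b.f (-(z0 + t * h))) = G
  field_simp
  linear_combination (θ * conj θ * (F * h - G * conj h)) * hE

theorem norm_deriv_le {θ : ℂ} (b : BD θ) (z h : ℂ) {M : ℝ} (h1 : ‖BB b z‖ ≤ M)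
    (h2 : ‖BB b (-z)‖ ≤ M) :
    ‖EE θ z * ((BB b z * h - conj (BB b (-z)) * conj h) / 2)‖ ≤ M * ‖h‖ := by
  rw [norm_mul, norm_EE, one_mul, norm_div]
  have := norm_sub_le (BB b z * h) (conj (BB b (-z)) * conj h)
  simp only [norm_mul, norm_conj, Complex.norm_ofNat] at this ⊢
  have h3 := mul_le_mul_of_nonneg_right h1 (norm_nonneg h)
  have h4 := mul_le_mul_of_nonneg_right h2 (norm_nonneg h)
  linarith

theorem seg_le {θ : ℂ} (b : BD θ) (hθ : θ ≠ 0) (z0 h : ℂ) {M : ℝ}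
    (H : ∀ t : ℝ, t ∈ Icc (0 : ℝ) 1 → NL (z0 + t * h) ∧ ‖BB b (z0 + t * h)‖ ≤ M ∧
      ‖BB b (-(z0 + t * h))‖ ≤ M) :
    ‖VV b (z0 + h) - VV b z0‖ ≤ M * ‖h‖ := by
  have := norm_image_sub_le_of_norm_deriv_le_segment_01'
    (f := fun s : ℝ => VV b (z0 + s * h))
    (fun t ht => (hasDerivAt_VV b hθ z0 h t (H t ht).1).hasDerivWithinAt)
    (fun t ht => norm_deriv_le b _ h (H t (Ico_subset_Icc_self ht)).2.1
      (H t (Ico_subset_Icc_self ht)).2.2)
  simpa using this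

theorem NL_of_im {z : ℂ} (h : |z.im| = 1 / 2) : NL z := by
  rintro w rfl
  rw [← GaussianInt.intCast_im, ← Int.cast_abs] at h
  have h2 : ((2 * |w.im| : ℤ) : ℝ) = ((1 : ℤ) : ℝ) := by push_cast at h ⊢; linarith
  have := Int.cast_injective h2
  omega

theorem NL_of_re {z : ℂ} (h0 : 0 < |z.re|) (h : |z.re| < 1) : NL z := by
  rintro w rfl
  rw [← GaussianInt.intCast_re, ← Int.cast_abs] at h h0
  have h2 : |w.re| < 1 := by exact_mod_cast h
  have h3 : 0 < |w.re| := by exact_mod_cast h0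
  omega

theorem NP_of_Sq {θ : ℂ} (h : Sq θ) : NP θ := by
  rintro w rfl
  obtain ⟨h0, h1, h2⟩ := h
  have hp := Real.pi_pos
  have e1 : (2 * (π : ℂ) * (w : ℂ)).re = 2 * π * (w.re : ℝ) := by simp
  have e2 : (2 * (π : ℂ) * (w : ℂ)).im = 2 * π * (w.im : ℝ) := by simp
  rw [e1, abs_mul, abs_of_pos (by positivity)] at h1
  rw [e2, abs_mul, abs_of_pos (by positivity)] at h2
  have h3 : |(w.re : ℝ)| < 1 := by nlinarith
  have h4 : |(w.im : ℝ)| < 1 := by nlinarith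
  rw [← Int.cast_abs] at h3 h4
  have h5 : |w.re| < 1 := by exact_mod_cast h3
  have h6 : |w.im| < 1 := by exact_mod_cast h4
  apply h0
  have : w = 0 := by
    ext
    · simpa using Int.abs_lt_one_iff.mp h5
    · simpa using Int.abs_lt_one_iff.mp h6
  simp [this]

/-- The part of `S_AsyZ` that is used for the potential. -/
structure HZ (C : ℝ) {θ : ℂ} (b : BD θ) : Prop where
  pt : ∀ z : ℂ, NL z → |z.re| ≤ 1 → |z.im| ≤ 1 / 2 → (|z.im| = 1 / 2 ∨ |z.re| ≤ 1 / 2) →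
    ‖BB b z - z⁻¹‖ ≤ C
  i1 : ‖(∫ x in (0 : ℝ)..1, b.f (x + I / 2) * ex θ (x + I / 2)) + 2 * π * I / θ‖ ≤ C * ‖θ‖
  i2 : ‖(∫ x in (0 : ℝ)..1, b.f (-(x + I / 2)) * ex θ (-(x + I / 2))) + 2 * π * I / θ‖
    ≤ C * ‖θ‖

theorem HZ.far {C : ℝ} {θ : ℂ} {b : BD θ} (H : HZ C b) {z : ℂ} (h0 : NL z) (h1 : |z.re| ≤ 1)
    (h2 : |z.im| ≤ 1 / 2) (h3 : |z.im| = 1 / 2 ∨ |z.re| = 1 / 2) : ‖BB b z‖ ≤ C + 2 := by
  have h4 := H.pt z h0 h1 h2 (h3.imp id le_of_eq)
  have h5 : 1 / 2 ≤ ‖z‖ := by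
    rcases h3 with h3 | h3
    · rw [← h3]; exact abs_im_le_norm z
    · rw [← h3]; exact abs_re_le_norm z
  have h6 : ‖z⁻¹‖ ≤ 2 := by
    rw [norm_inv]
    calc ‖z‖⁻¹ ≤ (1 / 2 : ℝ)⁻¹ := inv_anti₀ (by norm_num) h5
      _ = 2 := by norm_num
  calc ‖BB b z‖ = ‖(BB b z - z⁻¹) + z⁻¹‖ := by ring_nf
    _ ≤ ‖BB b z - z⁻¹‖ + ‖z⁻¹‖ := norm_add_le _ _
    _ ≤ C + 2 := add_le_add h4 h6

theorem HZ.line {C : ℝ} {θ : ℂ} {b : BD θ} (H : HZ C b) {x : ℝ} (hx : |x| ≤ 1) :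
    NL (I / 2 + x) ∧ ‖BB b (I / 2 + x)‖ ≤ C + 2 ∧ ‖BB b (-(I / 2 + x))‖ ≤ C + 2 := by
  have e1 : |(I / 2 + (x : ℂ)).im| = 1 / 2 := by simp
  have e2 : |(-(I / 2 + (x : ℂ))).im| = 1 / 2 := by simp
  refine ⟨NL_of_im e1, H.far (NL_of_im e1) (by simpa using hx) e1.le (Or.inl e1),
    H.far (NL_of_im e2) (by simpa using hx) e2.le (Or.inl e2)⟩

theorem cont_BB {θ : ℂ} (b : BD θ) {z : ℂ} (hz : NL z) : ContinuousAt (BB b) z := by
  have h1 := (b.df z hz).continuousAt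
  have h2 : Continuous (ex θ) := by
    unfold ex dot
    fun_prop
  exact (h1.mul h2.continuousAt).add continuousAt_const

/-- Bound at `i / 2` when the real part of `θ` dominates. -/
theorem half_le {C : ℝ} {θ : ℂ} {b : BD θ} (hC : 0 < C) (H : HZ C b) (hθ : Sq θ)
    (hd : |θ.im| ≤ |θ.re|) : ‖VV b (I / 2)‖ ≤ π * (2 * C + 2) := by
  have hθ0 := hθ.1
  set β : ℝ → ℂ := fun x => (BB b (I / 2 + x) - conj (BB b (-(I / 2 + x)))) / 2 with hβ
  have hNL : ∀ x : ℝ, NL (I / 2 + x) := fun x => NL_of_im (by simp)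
  have hNL' : ∀ x : ℝ, NL (-(I / 2 + x)) := fun x => NL_of_im (by simp)
  have c1 : Continuous fun x : ℝ => BB b (I / 2 + x) :=
    continuous_iff_continuousAt.2 fun x =>
      ContinuousAt.comp (f := fun x : ℝ => I / 2 + (x : ℂ)) (cont_BB b (hNL x)) (by fun_prop)
  have c2 : Continuous fun x : ℝ => BB b (-(I / 2 + x)) :=
    continuous_iff_continuousAt.2 fun x =>
      ContinuousAt.comp (f := fun x : ℝ => -(I / 2 + (x : ℂ))) (cont_BB b (hNL' x)) (by fun_prop)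
  have cβ : Continuous β := by
    simp only [hβ]
    exact (c1.sub (continuous_conj.comp c2)).div_const 2
  have cE : Continuous fun x : ℝ => EE θ (I / 2 + x) := by
    unfold EE dot
    fun_prop
  have hder : ∀ x : ℝ, HasDerivAt (fun s : ℝ => VV b (I / 2 + s)) (EE θ (I / 2 + x) * β x) x := by
    intro x
    have := hasDerivAt_VV b hθ0 (I / 2) 1 x (by simpa using hNL x)
    simpa [hβ] using this
  have ftc : ∫ x in (0 : ℝ)..1, EE θ (I / 2 + x) * β x = VV b (I / 2 + 1) - VV b (I / 2) := by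
    have := intervalIntegral.integral_eq_sub_of_hasDerivAt (a := 0) (b := 1)
      (fun x _ => hder x) ((cE.mul cβ).intervalIntegrable 0 1)
    simpa using this
  have per : VV b (I / 2 + 1) = exp (I * θ.re) * VV b (I / 2) := by
    have := VV_per b (I / 2) 1
    simpa [dot_eq] using this
  have hEx : ∀ x : ℝ, EE θ (I / 2 + x) = EE θ (I / 2) * exp (I * ((θ.re * x : ℝ) : ℂ)) := by
    intro x
    unfold EE
    rw [← exp_add, dot_add]
    congr 1
    simp [dot_eq]; ring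
  have hβb : ∀ x : ℝ, |x| ≤ 1 → ‖β x‖ ≤ C + 2 := by
    intro x hx
    obtain ⟨-, h1, h2⟩ := H.line hx
    have := norm_sub_le (BB b (I / 2 + x)) (conj (BB b (-(I / 2 + x))))
    simp only [hβ, norm_div, norm_conj, Complex.norm_ofNat] at this ⊢
    linarith
  have m1 : ‖∫ x in (0 : ℝ)..1, β x‖ ≤ C * ‖θ‖ := by
    have a1 : ∫ x in (0 : ℝ)..1, BB b (I / 2 + x)
        = (∫ x in (0 : ℝ)..1, b.f (x + I / 2) * ex θ (x + I / 2)) + 2 * π * I / θ := by
      have c3 : Continuous fun x : ℝ => b.f (x + I / 2) * ex θ (x + I / 2) := by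
        have := c1.sub (continuous_const (y := 2 * π * I / θ))
        convert this using 2 with x
        simp [BB, add_comm]
      simp only [BB, add_comm (I / 2)]
      rw [intervalIntegral.integral_add (c3.intervalIntegrable 0 1) (by simp)]
      simp
    have a2 : ∫ x in (0 : ℝ)..1, BB b (-(I / 2 + x))
        = (∫ x in (0 : ℝ)..1, b.f (-(x + I / 2)) * ex θ (-(x + I / 2))) + 2 * π * I / θ := by
      have c3 : Continuous fun x : ℝ => b.f (-(x + I / 2)) * ex θ (-(x + I / 2)) := by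
        have := c2.sub (continuous_const (y := 2 * π * I / θ))
        convert this using 2 with x
        simp [BB, add_comm]
      simp only [BB, add_comm (I / 2)]
      rw [intervalIntegral.integral_add (c3.intervalIntegrable 0 1) (by simp)]
      simp
    have a3 : ∫ x in (0 : ℝ)..1, β x = ((∫ x in (0 : ℝ)..1, BB b (I / 2 + x))
        - conj (∫ x in (0 : ℝ)..1, BB b (-(I / 2 + x)))) / 2 := by
      simp only [hβ]
      have c4 : Continuous fun x : ℝ => conj (BB b (-(I / 2 + x))) := continuous_conj.comp c2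
      rw [intervalIntegral.integral_div, intervalIntegral.integral_sub (c1.intervalIntegrable 0 1)
        (c4.intervalIntegrable 0 1)]
      congr 2
      simp only [intervalIntegral.integral_of_le (zero_le_one' ℝ)]
      exact integral_conj
    rw [a3, a1, a2, norm_div]
    refine (div_le_iff₀ (by simp)).2 ((norm_sub_le _ _).trans ?_)
    have := H.i1
    have := H.i2
    rw [norm_conj, Complex.norm_ofNat]
    linarith
  have m2 : ‖∫ x in (0 : ℝ)..1, (exp (I * ((θ.re * x : ℝ) : ℂ)) - 1) * β x‖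
      ≤ |θ.re| * (C + 2) := by
    have := intervalIntegral.norm_integral_le_of_norm_le_const (a := (0 : ℝ)) (b := 1)
      (C := |θ.re| * (C + 2)) (f := fun x => (exp (I * ((θ.re * x : ℝ) : ℂ)) - 1) * β x) (by
        intro x hx
        rw [uIoc_of_le zero_le_one] at hx
        have hx1 : |x| ≤ 1 := by rw [abs_of_pos hx.1]; exact hx.2
        rw [norm_mul]
        have h1 : ‖exp (I * ((θ.re * x : ℝ) : ℂ)) - 1‖ ≤ |θ.re| := by
          refine Real.norm_exp_I_mul_ofReal_sub_one_le.trans ?_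
          rw [Real.norm_eq_abs, abs_mul]
          exact mul_le_of_le_one_right (abs_nonneg _) hx1
        exact mul_le_mul h1 (hβb x hx1) (norm_nonneg _) (abs_nonneg _))
    simpa using this
  have split : ∫ x in (0 : ℝ)..1, EE θ (I / 2 + x) * β x = EE θ (I / 2) *
      ((∫ x in (0 : ℝ)..1, β x)
        + ∫ x in (0 : ℝ)..1, (exp (I * ((θ.re * x : ℝ) : ℂ)) - 1) * β x) := by
    rw [← intervalIntegral.integral_add (cβ.intervalIntegrable 0 1)
      (Continuous.intervalIntegrable (by fun_prop) 0 1), ← intervalIntegral.integral_const_mul]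
    congr 1
    funext x
    rw [hEx]; ring
  have key : ‖exp (I * θ.re) - 1‖ * ‖VV b (I / 2)‖ ≤ C * ‖θ‖ + |θ.re| * (C + 2) := by
    have : (exp (I * θ.re) - 1) * VV b (I / 2) = VV b (I / 2 + 1) - VV b (I / 2) := by
      rw [per]; ring
    rw [← norm_mul, this, ← ftc, split, norm_mul, norm_EE, one_mul]
    exact (norm_add_le _ _).trans (add_le_add m1 m2)
  have hn : ‖θ‖ ≤ 2 * |θ.re| := by
    have := norm_le_abs_re_add_abs_im θ
    linarith
  have hre : 0 < |θ.re| := by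
    have := norm_pos_iff.2 hθ0
    linarith
  have low : 2 / π * |θ.re| ≤ ‖exp (I * θ.re) - 1‖ := by
    rw [norm_exp_I_mul_ofReal_sub_one, Real.norm_eq_abs, abs_mul, abs_two]
    have h1 := Real.mul_abs_le_abs_sin (x := θ.re / 2) (by
      rw [abs_div, abs_two]; have := hθ.2.1; linarith)
    rw [abs_div, abs_two] at h1
    linarith
  have hp := Real.pi_pos
  have k2 : 2 / π * |θ.re| * ‖VV b (I / 2)‖ ≤ |θ.re| * (3 * C + 2) := by
    have := mul_le_mul_of_nonneg_right low (norm_nonneg (VV b (I / 2)))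
    nlinarith
  have k3 : 2 / π * ‖VV b (I / 2)‖ ≤ 3 * C + 2 := by
    have : |θ.re| * (2 / π * ‖VV b (I / 2)‖) ≤ |θ.re| * (3 * C + 2) := by linarith
    exact le_of_mul_le_mul_left this hre
  rw [div_mul_eq_mul_div, div_le_iff₀ hp] at k3
  nlinarith

theorem hf_le {C : ℝ} {θ : ℂ} {b : BD θ} (hC : 0 < C) (H : HZ C b) (hθ : Sq θ)
    (hd : |θ.im| ≤ |θ.re|) : ‖VV b hf‖ ≤ π * (2 * C + 2) + (C + 2) := by
  have h1 := half_le hC H hθ hd
  have h2 := seg_le b hθ.1 (I / 2) (1 / 2) (M := C + 2) (by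
    intro t ht
    have e : (t : ℂ) * (1 / 2) = ((t / 2 : ℝ) : ℂ) := by push_cast; ring
    rw [e]
    exact H.line (by rw [abs_of_nonneg (by linarith [ht.1])]; linarith [ht.2]))
  have e : I / 2 + 1 / 2 = hf := by unfold hf; ring
  rw [e] at h2
  have h3 : ‖(1 / 2 : ℂ)‖ = 1 / 2 := by simp
  rw [h3] at h2
  have := norm_add_le (VV b hf - VV b (I / 2)) (VV b (I / 2))
  rw [sub_add_cancel] at this
  linarith

theorem one_half_le {C : ℝ} {θ : ℂ} {b : BD θ} (hC : 0 < C) (H : HZ C b) (hθ : θ ≠ 0) :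
    ‖VV b (1 / 2)‖ ≤ ‖VV b hf‖ + (C + 2) := by
  have h2 := seg_le b hθ (1 / 2) (I / 2) (M := C + 2) (by
    intro t ht
    have e1 : |((1 / 2 : ℂ) + t * (I / 2)).re| = 1 / 2 := by simp
    have e2 : |(-((1 / 2 : ℂ) + t * (I / 2))).re| = 1 / 2 := by simp
    have e3 : |((1 / 2 : ℂ) + t * (I / 2)).im| ≤ 1 / 2 := by
      have : ((1 / 2 : ℂ) + t * (I / 2)).im = t / 2 := by simp; ring
      rw [this, abs_of_nonneg (by linarith [ht.1])]; linarith [ht.2]
    have e4 : |(-((1 / 2 : ℂ) + t * (I / 2))).im| ≤ 1 / 2 := by rwa [neg_im, abs_neg]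
    have n1 := NL_of_re (z := (1 / 2 : ℂ) + t * (I / 2)) (by rw [e1]; norm_num)
      (by rw [e1]; norm_num)
    have n2 := NL_of_re (z := -((1 / 2 : ℂ) + t * (I / 2))) (by rw [e2]; norm_num)
      (by rw [e2]; norm_num)
    exact ⟨n1, H.far n1 (by rw [e1]; norm_num) e3 (Or.inr e1),
      H.far n2 (by rw [e2]; norm_num) e4 (Or.inr e2)⟩)
  have e : (1 / 2 : ℂ) + I / 2 = hf := by unfold hf; ring
  rw [e] at h2
  have h3 : ‖(I / 2 : ℂ)‖ = 1 / 2 := by simp
  rw [h3] at h2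
  have := norm_sub_le (VV b hf) (VV b hf - VV b (1 / 2))
  rw [sub_sub_cancel] at this
  linarith

theorem zero_le {C : ℝ} {θ : ℂ} {b : BD θ} (hC : 0 < C) (H : HZ C b) (hθ : Sq θ) :
    ‖b.g0 + 2 * π / (‖θ‖ : ℂ) ^ 2‖ ≤ ‖VV b (1 / 2)‖ + (π + C + 1) := by
  have hp := Real.pi_pos
  set W : ℝ → ℂ := fun x => VV b x - (Real.log x : ℝ) with hW
  have hder : ∀ x : ℝ, 0 < x → x ≤ 1 / 2 → ∃ d, HasDerivAt W d x ∧ ‖d‖ ≤ π + C := by
    intro x h0 h1
    have n1 : NL (x : ℂ) := NL_of_re (by simpa using h0.ne') (by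
      rw [ofReal_re, abs_of_pos h0]; linarith)
    have n2 : NL (-(x : ℂ)) := NL_of_re (by simpa using h0.ne') (by
      rw [neg_re, ofReal_re, abs_neg, abs_of_pos h0]; linarith)
    have d1 := hasDerivAt_VV b hθ.1 0 1 x (by simpa using n1)
    simp only [zero_add, mul_one, map_one] at d1
    have d2 := (Real.hasDerivAt_log h0.ne').ofReal_comp
    refine ⟨_, d1.sub d2, ?_⟩
    have r1 := H.pt x n1 (by rw [ofReal_re, abs_of_pos h0]; linarith) (by simp)
      (Or.inr (by rw [ofReal_re, abs_of_pos h0]; linarith))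
    have r2 := H.pt (-x) n2 (by rw [neg_re, ofReal_re, abs_neg, abs_of_pos h0]; linarith) (by simp)
      (Or.inr (by rw [neg_re, ofReal_re, abs_neg, abs_of_pos h0]; linarith))
    have e : EE θ x * ((BB b x - conj (BB b (-x))) / 2) - ((x⁻¹ : ℝ) : ℂ)
        = (EE θ x - 1) * ((x⁻¹ : ℝ) : ℂ)
          + EE θ x * (((BB b x - (x : ℂ)⁻¹) - conj (BB b (-x) - (-(x : ℂ))⁻¹)) / 2) := by
      simp only [map_sub, map_inv₀, map_neg, conj_ofReal, ofReal_inv, inv_neg]
      ring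
    rw [e]
    refine (norm_add_le _ _).trans (add_le_add ?_ ?_)
    · have h2 : ‖EE θ x - 1‖ ≤ π * x := by
        unfold EE
        refine Real.norm_exp_I_mul_ofReal_sub_one_le.trans ?_
        rw [Real.norm_eq_abs, dot_eq]
        simp only [ofReal_re, ofReal_im, mul_zero, add_zero, abs_mul, abs_of_pos h0]
        exact mul_le_mul_of_nonneg_right hθ.2.1 h0.le
      rw [norm_mul, norm_real, Real.norm_eq_abs, abs_of_pos (inv_pos.2 h0)]
      calc ‖EE θ x - 1‖ * x⁻¹ ≤ π * x * x⁻¹ :=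
            mul_le_mul_of_nonneg_right h2 (inv_pos.2 h0).le
        _ = π := by field_simp
    · rw [norm_mul, norm_EE, one_mul, norm_div, Complex.norm_ofNat]
      have := norm_sub_le (BB b x - (x : ℂ)⁻¹) (conj (BB b (-x) - (-(x : ℂ))⁻¹))
      rw [norm_conj] at this
      linarith
  have hseg : ∀ x : ℝ, 0 < x → x ≤ 1 / 2 → ‖W (1 / 2) - W x‖ ≤ (π + C) * (1 / 2) := by
    intro x h0 h1
    have := norm_image_sub_le_of_norm_deriv_le_segment' (f := W) (f' := deriv W) (a := x)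
      (b := 1 / 2) (C := π + C)
      (fun y hy => by
        obtain ⟨d, hd, -⟩ := hder y (h0.trans_le hy.1) hy.2
        exact hd.differentiableAt.hasDerivAt.hasDerivWithinAt)
      (fun y hy => by
        obtain ⟨d, hd, hb⟩ := hder y (h0.trans_le hy.1) hy.2.le
        rwa [hd.deriv]) (1 / 2) ⟨h1, le_rfl⟩
    refine this.trans (mul_le_mul_of_nonneg_left (by linarith) (by positivity))
  have hlim : Tendsto W (𝓝[>] 0) (𝓝 (b.g0 + 2 * π / (‖θ‖ : ℂ) ^ 2)) := by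
    have t1 : Tendsto (fun x : ℝ => (x : ℂ)) (𝓝[>] 0) (𝓝[≠] 0) := by
      refine tendsto_nhdsWithin_iff.2 ⟨?_, ?_⟩
      · have : Tendsto (fun x : ℝ => (x : ℂ)) (𝓝 0) (𝓝 ((0 : ℝ) : ℂ)) :=
          continuous_ofReal.tendsto 0
        simpa using this.mono_left nhdsWithin_le_nhds
      · filter_upwards [self_mem_nhdsWithin] with x hx
        simpa using (mem_Ioi.1 hx).ne'
    have t2 := b.lim.comp t1
    have t3 : Tendsto (fun x : ℝ => 2 * π / (‖θ‖ : ℂ) ^ 2 * EE θ x) (𝓝[>] 0)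
        (𝓝 (2 * π / (‖θ‖ : ℂ) ^ 2)) := by
      have c : Continuous fun x : ℝ => 2 * π / (‖θ‖ : ℂ) ^ 2 * EE θ x := by
        unfold EE dot
        fun_prop
      have := (c.tendsto 0).mono_left (nhdsWithin_le_nhds (s := Ioi 0))
      simpa [EE, dot] using this
    refine (t2.add t3).congr' ?_
    filter_upwards [self_mem_nhdsWithin] with x hx
    simp only [hW, VV, Function.comp, norm_real, Real.norm_eq_abs, Real.log_abs]
    ring
  have hb : ‖W (1 / 2) - (b.g0 + 2 * π / (‖θ‖ : ℂ) ^ 2)‖ ≤ (π + C) * (1 / 2) := by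
    refine le_of_tendsto ((tendsto_const_nhds.sub hlim).norm) ?_
    filter_upwards [Ioc_mem_nhdsGT (show (0 : ℝ) < 1 / 2 by norm_num)] with x hx
    exact hseg x hx.1 hx.2
  have hl : ‖((Real.log (1 / 2) : ℝ) : ℂ)‖ ≤ 1 := by
    rw [norm_real, Real.norm_eq_abs, one_div, Real.log_inv, abs_neg,
      abs_of_pos (Real.log_pos (by norm_num))]
    linarith [Real.log_two_lt_d9]
  have hW2 : ‖W (1 / 2)‖ ≤ ‖VV b (1 / 2)‖ + 1 := by
    have e : W (1 / 2) = VV b (1 / 2) - ((Real.log (1 / 2) : ℝ) : ℂ) := by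
      simp only [hW]; push_cast; rfl
    rw [e]
    exact (norm_sub_le _ _).trans (by linarith)
  have := norm_sub_le (W (1 / 2)) (W (1 / 2) - (b.g0 + 2 * π / (‖θ‖ : ℂ) ^ 2))
  rw [sub_sub_cancel] at this
  nlinarith

theorem part1 (hZ : S_AsyZ) (hU : S_Uni) :
    ∃ C : ℝ, 0 < C ∧ ∀ (θ : ℂ) (b : BD θ), Sq θ → Asy C θ b.sy ∧
      ‖b.sy.ch + π * conj θ / θ‖ ≤ C * ‖θ‖ ∧ ‖b.sy.p‖ ≤ C ∧ ‖b.sy.c‖ ≤ C := by
  obtain ⟨C, hC, H⟩ := hZ
  have hp := Real.pi_pos
  have HZ' : ∀ (θ : ℂ) (b : BD θ), Sq θ → HZ C b := fun θ b hθ =>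
    ⟨(H θ b hθ).2.2.2.2.2.2.1, (H θ b hθ).2.2.2.2.2.2.2.1, (H θ b hθ).2.2.2.2.2.2.2.2⟩
  set K := π * (2 * C + 2) + (C + 2) with hK
  have hK0 : 0 < K := by positivity
  have hh : ∀ (θ : ℂ) (b : BD θ), Sq θ → ‖VV b hf‖ ≤ K := by
    intro θ b hθ
    rcases le_total |θ.im| |θ.re| with hd | hd
    · exact hf_le hC (HZ' θ b hθ) hθ hd
    · obtain ⟨b', -, -, h3, -⟩ := (hU θ b (NP_of_Sq hθ)).2.1
      have hθ' : Sq (I * θ) := ⟨mul_ne_zero I_ne_zero hθ.1, by simpa using hθ.2.2,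
        by simpa using hθ.2.1⟩
      have h4 := hf_le hC (HZ' _ b' hθ') hθ' (by simpa using hd)
      have e1 : VV b hf = VV b' (I * hf) := by
        unfold VV EE
        rw [h3]
        congr 2
        · simp
        · congr 2
          simp [dot_eq]; ring
      have e2 : hf = I * hf + ((1 : GI) : ℂ) := by
        unfold hf
        simp only [map_one]
        linear_combination (-1 / 2) * I_mul_I
      have e3 := VV_per b' (I * hf) 1
      rw [← e2] at e3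
      rw [e3, norm_mul, norm_exp_I_mul_ofReal, one_mul] at h4
      rwa [e1]
  refine ⟨K + (C + 2) + (π + C + 1), by positivity, fun θ b hθ => ?_⟩
  obtain ⟨z0, z1, zh, ch, p, c, -⟩ := H θ b hθ
  have hm : C * ‖θ‖ ≤ (K + (C + 2) + (π + C + 1)) * ‖θ‖ :=
    mul_le_mul_of_nonneg_right (by linarith) (norm_nonneg _)
  have a1 := hh θ b hθ
  have a2 := one_half_le hC (HZ' θ b hθ) hθ.1
  have a3 := zero_le hC (HZ' θ b hθ) hθ
  refine ⟨⟨z0.trans hm, z1.trans hm, zh.trans hm, ?_, ?_, ?_⟩, ch.trans hm, by linarith,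
    by linarith⟩
  · change ‖b.g0 + _‖ ≤ _
    linarith
  · change ‖b.γ (1 / 2) * ex θ (1 / 2) + _‖ ≤ _
    rw [VV_ex]; linarith
  · change ‖b.γ hf * ex θ hf + _‖ ≤ _
    rw [VV_ex]; linarith

theorem exists_shift (θ : ℂ) : ∃ w : GI, |(θ + 2 * π * w).re| ≤ π ∧ |(θ + 2 * π * w).im| ≤ π := by
  have hp := Real.pi_pos
  have key : ∀ x : ℝ, |x + 2 * π * ((-round (x / (2 * π)) : ℤ) : ℝ)| ≤ π := by
    intro x
    have h := abs_sub_round (x / (2 * π))
    have e : x + 2 * π * ((-round (x / (2 * π)) : ℤ) : ℝ)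
        = 2 * π * (x / (2 * π) - round (x / (2 * π))) := by
      push_cast; field_simp; ring
    rw [e, abs_mul, abs_of_pos (by positivity : 0 < 2 * π)]
    nlinarith
  refine ⟨⟨-round (θ.re / (2 * π)), -round (θ.im / (2 * π))⟩, ?_, ?_⟩
  · convert key θ.re using 2
    simp [GaussianInt.toComplex_def']
  · convert key θ.im using 2
    simp [GaussianInt.toComplex_def']

end Pool.Agent.P.MP_cc4a10_gt.AsyP

namespace Pool.Agent.P.MP_cc4a10_gt

open AsyP in
theorem pAsy (hZ : S_AsyZ) (hU : S_Uni) : S_Asy := by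
  obtain ⟨C, hC, H⟩ := part1 hZ hU
  refine ⟨⟨C, hC, fun θ b hθ => (H θ b hθ).1⟩, fun η hη => ?_⟩
  have hp := Real.pi_pos
  refine ⟨C + C * (2 * π) + π + 2 * π / η + 2 * π / η ^ 2, by positivity, fun θ b hθ => ?_⟩
  have hNP : NP θ := by
    intro w hw
    have := hθ w
    rw [← hw, sub_self, norm_zero] at this
    linarith
  obtain ⟨w, h1, h2⟩ := exists_shift θ
  obtain ⟨b', e1, e2, e3, e4⟩ := (hU θ b hNP).2.2.1 w
  have hlow : η ≤ ‖θ + 2 * π * w‖ := by
    have := hθ (-w)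
    simpa using this
  generalize θ + 2 * π * w = θ' at b' e1 e2 e3 e4 h1 h2 hlow
  have h0 : θ' ≠ 0 := by
    rintro rfl
    rw [norm_zero] at hlow
    linarith
  obtain ⟨A, ch, p, c⟩ := H θ' b' ⟨h0, h1, h2⟩
  have hup : ‖θ'‖ ≤ 2 * π := by
    have := norm_le_abs_re_add_abs_im θ'
    linarith
  have hn0 : 0 < ‖θ'‖ := norm_pos_iff.2 h0
  have m1 : C * ‖θ'‖ ≤ C * (2 * π) := mul_le_mul_of_nonneg_left hup hC.le
  have m2 : ‖2 * π * I / θ'‖ ≤ 2 * π / η := by
    rw [norm_div]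
    simp only [norm_mul, Complex.norm_ofNat, norm_real, Real.norm_eq_abs, abs_of_pos hp, norm_I,
      mul_one]
    exact div_le_div_of_nonneg_left (by positivity) hη hlow
  have m3 : ‖(2 * π / (‖θ'‖ : ℂ) ^ 2 : ℂ)‖ ≤ 2 * π / η ^ 2 := by
    rw [norm_div]
    simp only [norm_mul, Complex.norm_ofNat, norm_real, Real.norm_eq_abs, abs_of_pos hp, norm_pow,
      abs_norm]
    exact div_le_div_of_nonneg_left (by positivity) (by positivity)
      (pow_le_pow_left₀ hη.le hlow 2)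
  have m4 : ‖π * conj θ' / θ'‖ = π := by
    rw [norm_div, norm_mul, norm_conj, norm_real, Real.norm_eq_abs, abs_of_pos hp]
    field_simp
  have tri : ∀ x y : ℂ, ‖x‖ ≤ ‖x + y‖ + ‖y‖ := fun x y => by
    simpa using norm_sub_le (x + y) y
  have q1 : 0 < 2 * π / η := by positivity
  have q2 : 0 < 2 * π / η ^ 2 := by positivity
  have q3 : 0 < C * (2 * π) := by positivity
  have t1 := tri b'.sy.ch (π * conj θ' / θ')
  have t2 := tri b'.sy.z0 (2 * π * I / θ')
  have t3 := tri b'.sy.z1 (2 * π * I / θ')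
  have t4 := tri b'.sy.zh (2 * π * I / θ')
  have t5 := tri b'.sy.g0 (2 * π / (‖θ'‖ : ℂ) ^ 2)
  have t6 := tri b'.sy.g1 (2 * π / (‖θ'‖ : ℂ) ^ 2)
  have t7 := tri b'.sy.gh (2 * π / (‖θ'‖ : ℂ) ^ 2)
  have a1 := A.z0
  have a2 := A.z1
  have a3 := A.zh
  have a4 := A.g0
  have a5 := A.g1
  have a6 := A.gh
  have n1 : ‖b.sy.p‖ = ‖b'.sy.p‖ := by simp only [BD.sy, e2]
  have n2 : ‖b.sy.c‖ = ‖b'.sy.c‖ := by simp only [BD.sy, e1, norm_mul, norm_ex]
  have n3 : ‖b.sy.ch‖ = ‖b'.sy.ch‖ := by simp only [BD.sy, e1, norm_mul, norm_ex]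
  have n4 : ‖b.sy.z0‖ = ‖b'.sy.z0‖ := by simp only [BD.sy, e2]
  have n5 : ‖b.sy.z1‖ = ‖b'.sy.z1‖ := by simp only [BD.sy, e1, norm_mul, norm_ex]
  have n6 : ‖b.sy.zh‖ = ‖b'.sy.zh‖ := by simp only [BD.sy, e1, norm_mul, norm_ex]
  have n7 : ‖b.sy.g0‖ = ‖b'.sy.g0‖ := by simp only [BD.sy, e4]
  have n8 : ‖b.sy.g1‖ = ‖b'.sy.g1‖ := by simp only [BD.sy, e3, norm_mul, norm_ex]
  have n9 : ‖b.sy.gh‖ = ‖b'.sy.gh‖ := by simp only [BD.sy, e3, norm_mul, norm_ex]
  unfold Bd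
  rw [n1, n2, n3, n4, n5, n6, n7, n8, n9]
  refine ⟨by linarith, by linarith, by linarith, by linarith, by linarith, by linarith,
    by linarith, by linarith, by linarith⟩

end Pool.Agent.P.MP_cc4a10_gt
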