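import Pool.Agent.P.MP_cc4a10_gt.AsyZ1

/-!
The Bloch function minus its leading term.
-/

open Set Filter Topology Complex Metric
open scoped ComplexConjugate Real

noncomputable section

namespace Pool.Agent.P.MP_cc4a10_gt.AsyZP

def HH (θ z : ℂ) : ℂ := π * cot (π * z) + 2 * π * I * SS θ z
def K0 (z : ℂ) : ℂ := HH 0 z + 2 * π * I * z.im
def BB (θ z : ℂ) : ℂ := exp (-θ * z.im) * (HH θ z - π * I * cth (θ / 2))

theorem fE_eq (θ z : ℂ) : fE θ z = exp (I * θ.re * z) * (HH θ z - π * I * cth (θ / 2)) := by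
  simp only [fE, HH, SS, tm]; ring

theorem exp_ex (θ z : ℂ) : exp (I * θ.re * z) * ex θ z = exp (-θ * z.im) := by
  rw [ex, ← exp_add]; congr 1
  apply Complex.ext <;> simp [dot]

theorem fE_ex (θ z : ℂ) : fE θ z * ex θ z = BB θ z := by
  rw [fE_eq, BB, ← exp_ex]; ring

theorem K0_odd (z : ℂ) : K0 (-z) = -K0 z := by
  simp only [K0, HH, SS_odd, mul_neg, cot_eq_cos_div_sin, cos_neg, sin_neg, div_neg, neg_im,
    ofReal_neg]
  ring

theorem two_pi_I_le : ‖(2 * π * I : ℂ)‖ ≤ 8 := by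
  rw [norm_mul, norm_I, mul_one]; exact two_pi_le

theorem Reg.norm_le {z : ℂ} (h : Reg z) : ‖z‖ ≤ 3 / 2 := by
  nlinarith [h.2.1, norm_nonneg z]

theorem HH_bound {θ z : ℂ} (h : |θ.re| ≤ π) (hz : Reg z) (hy : |z.im| ≤ 3 / 4) :
    ‖HH θ z - z⁻¹‖ ≤ 96 + 64 * Real.exp 5 := by
  have a1 := cot_bound hz
  have a2 := mul_le_mul two_pi_I_le (SS_bound h hy) (norm_nonneg _) (by norm_num)
  rw [← norm_mul] at a2
  rw [show HH θ z - z⁻¹ = (π * cot (π * z) - z⁻¹) + 2 * π * I * SS θ z by unfold HH; ring]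
  refine (norm_add_le _ _).trans ?_
  linarith [hz.norm_le]

theorem HH_lip {θ z : ℂ} (h : |θ.re| ≤ π) (h5 : ‖θ‖ ≤ 5) (hy : |z.im| ≤ 3 / 4) :
    ‖HH θ z - HH 0 z‖ ≤ 128 * Real.exp 5 * Real.exp 5 * ‖θ‖ := by
  have a2 := mul_le_mul two_pi_I_le (SS_lip h h5 hy) (norm_nonneg _) (by norm_num)
  rw [← norm_mul] at a2
  rw [show HH θ z - HH 0 z = 2 * π * I * (SS θ z - SS 0 z) by unfold HH; ring]
  linarith

/-- The constant in the basic estimate. -/
def C1 : ℝ := 128 * Real.exp 5 * Real.exp 5 * Real.exp 5 + Real.exp 5 * (97 + 64 * Real.exp 5)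
  + 11 * Real.exp 5 + 8 * Real.exp 5

theorem C1_pos : 0 < C1 := by unfold C1; positivity

theorem BB_est {θ z : ℂ} (h : Sq θ) (hz : Reg z) (hy : |z.im| ≤ 3 / 4) :
    ‖BB θ z + 2 * π * I / θ - K0 z‖ ≤ C1 * ‖θ‖ := by
  have h5 := norm_le_five h.2.1 h.2.2
  have h0 := h.1
  have hn : 0 < ‖θ‖ := norm_pos_iff.2 h0
  set E := Real.exp 5 with hE
  have hE0 : 0 < E := Real.exp_pos 5
  have hx : ‖-θ * z.im‖ = ‖θ‖ * |z.im| := by
    rw [norm_mul, norm_neg, Complex.norm_real, Real.norm_eq_abs]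
  have hx5 : ‖-θ * z.im‖ ≤ 5 := by rw [hx]; nlinarith [abs_nonneg z.im]
  have e0 := exp0 _ hx5
  have e1 := exp1 _ hx5
  have e2 := exp2 _ hx5
  rw [hx] at e1 e2
  have e : BB θ z + 2 * π * I / θ - K0 z = exp (-θ * z.im) * (HH θ z - HH 0 z)
      + (exp (-θ * z.im) - 1) * HH 0 z
      + exp (-θ * z.im) * (-(π * I * cth (θ / 2)) + 2 * π * I / θ)
      - 2 * π * I * ((exp (-θ * z.im) - 1 - -θ * z.im) / θ) := by
    unfold BB K0; field_simp; ring
  rw [e]
  have t1 : ‖exp (-θ * z.im) * (HH θ z - HH 0 z)‖ ≤ E * (128 * E * E * ‖θ‖) := by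
    rw [norm_mul]; exact mul_le_mul e0 (HH_lip h.2.1 h5 hy) (norm_nonneg _) hE0.le
  have t2 : ‖(exp (-θ * z.im) - 1) * HH 0 z‖ ≤ E * ‖θ‖ * (97 + 64 * E) := by
    have b1 := HH_bound (θ := 0) (by simp [Real.pi_pos.le]) hz hy
    have b2 : ‖HH 0 z‖ ≤ ‖z‖⁻¹ + (96 + 64 * E) := by
      have := norm_add_le z⁻¹ (HH 0 z - z⁻¹)
      rw [add_sub_cancel, norm_inv] at this
      linarith
    have b3 : |z.im| * ‖z‖⁻¹ ≤ 1 := by
      rw [← div_eq_mul_inv, div_le_one (norm_pos_iff.2 hz.1)]; exact Complex.abs_im_le_norm z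
    have b4 : |z.im| * ‖HH 0 z‖ ≤ 97 + 64 * E := by
      have := mul_le_mul_of_nonneg_left b2 (abs_nonneg z.im)
      nlinarith [abs_nonneg z.im]
    rw [norm_mul]
    calc _ ≤ E * (‖θ‖ * |z.im|) * ‖HH 0 z‖ := by gcongr
      _ = E * ‖θ‖ * (|z.im| * ‖HH 0 z‖) := by ring
      _ ≤ _ := by gcongr
  have t3 : ‖exp (-θ * z.im) * (-(π * I * cth (θ / 2)) + 2 * π * I / θ)‖ ≤ E * (11 * ‖θ‖) := by
    rw [norm_mul]; exact mul_le_mul e0 (cth_bound h) (norm_nonneg _) hE0.le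
  have t4 : ‖2 * π * I * ((exp (-θ * z.im) - 1 - -θ * z.im) / θ)‖ ≤ 8 * (E * ‖θ‖) := by
    rw [norm_mul]
    refine mul_le_mul two_pi_I_le ?_ (norm_nonneg _) (by norm_num)
    rw [norm_div, div_le_iff₀ hn]
    refine e2.trans ?_
    have : |z.im| ^ 2 ≤ 1 := by nlinarith [abs_nonneg z.im]
    calc E * (‖θ‖ * |z.im|) ^ 2 = E * ‖θ‖ * ‖θ‖ * |z.im| ^ 2 := by ring
      _ ≤ E * ‖θ‖ * ‖θ‖ * 1 := by gcongr
      _ = _ := by ring
  refine (norm_sub_le _ _).trans ?_
  have := norm_add₃_le (a := exp (-θ * z.im) * (HH θ z - HH 0 z))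
    (b := (exp (-θ * z.im) - 1) * HH 0 z)
    (c := exp (-θ * z.im) * (-(π * I * cth (θ / 2)) + 2 * π * I / θ))
  unfold C1
  nlinarith

theorem BB_odd {θ z : ℂ} (h : Sq θ) (hz : Reg z) (hy : |z.im| ≤ 3 / 4) :
    ‖(BB θ z + 2 * π * I / θ) + (BB θ (-z) + 2 * π * I / θ)‖ ≤ 2 * C1 * ‖θ‖ := by
  have a1 := BB_est h hz hy
  have a2 := BB_est h hz.neg (by simpa using hy)
  rw [K0_odd] at a2
  have := norm_add_le (BB θ z + 2 * π * I / θ - K0 z) (BB θ (-z) + 2 * π * I / θ - -K0 z)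
  rw [show BB θ z + 2 * π * I / θ - K0 z + (BB θ (-z) + 2 * π * I / θ - -K0 z)
    = (BB θ z + 2 * π * I / θ) + (BB θ (-z) + 2 * π * I / θ) by ring] at this
  linarith

theorem BB_bd {θ z : ℂ} (h : Sq θ) (hz : Reg z) (hy : |z.im| ≤ 3 / 4) :
    ‖BB θ z + 2 * π * I / θ - z⁻¹‖ ≤ 5 * C1 + 102 + 64 * Real.exp 5 := by
  have a1 := BB_est h hz hy
  have a2 := HH_bound (θ := 0) (by simp [Real.pi_pos.le]) hz hy
  have a3 : ‖2 * π * I * (z.im : ℂ)‖ ≤ 8 * (3 / 4) := by
    rw [norm_mul]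
    refine mul_le_mul two_pi_I_le ?_ (norm_nonneg _) (by norm_num)
    rwa [Complex.norm_real, Real.norm_eq_abs]
  have h5 := norm_le_five h.2.1 h.2.2
  have := norm_add₃_le (a := BB θ z + 2 * π * I / θ - K0 z) (b := HH 0 z - z⁻¹)
    (c := 2 * π * I * (z.im : ℂ))
  rw [show BB θ z + 2 * π * I / θ - K0 z + (HH 0 z - z⁻¹) + 2 * π * I * (z.im : ℂ)
    = BB θ z + 2 * π * I / θ - z⁻¹ by unfold K0; ring] at this
  nlinarith [C1_pos]

theorem np_of_sq {θ : ℂ} (h : Sq θ) : NP θ := by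
  obtain ⟨h0, h1, h2⟩ := h
  rintro w rfl
  have hpi := Real.pi_pos
  have key : ∀ n : ℤ, |2 * π * n| ≤ π → n = 0 := by
    intro n hn
    rw [abs_mul, abs_of_pos (by positivity : 0 < 2 * π)] at hn
    have : |(n : ℝ)| < 1 := by nlinarith
    have : |n| < 1 := by exact_mod_cast this
    exact Int.abs_lt_one_iff.1 this
  have a1 := key w.re (by simpa using h1)
  have a2 := key w.im (by simpa using h2)
  apply h0
  have : w = 0 := Zsqrtd.ext a1 a2
  simp [this]

theorem nl_of_im {z : ℂ} (h0 : 0 < |z.im|) (h1 : |z.im| < 1) : NL z := by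
  rintro w rfl
  rw [← GaussianInt.intCast_im] at h0 h1
  have a0 : 0 < |w.im| := by exact_mod_cast h0
  have a1 : |w.im| < 1 := by exact_mod_cast h1
  omega

theorem nl_of_small {z : ℂ} (h0 : z ≠ 0) (h1 : ‖z‖ < 1) : NL z := by
  rintro w rfl
  have a1 := (Complex.abs_re_le_norm (w : ℂ)).trans_lt h1
  have a2 := (Complex.abs_im_le_norm (w : ℂ)).trans_lt h1
  rw [← GaussianInt.intCast_re] at a1
  rw [← GaussianInt.intCast_im] at a2
  have b1 : |w.re| < 1 := by exact_mod_cast a1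
  have b2 : |w.im| < 1 := by exact_mod_cast a2
  apply h0
  have : w = 0 := Zsqrtd.ext (Int.abs_lt_one_iff.1 b1) (Int.abs_lt_one_iff.1 b2)
  simp [this]

theorem dot_add (θ z w : ℂ) : dot θ (z + w) = dot θ z + dot θ w := by
  simp only [dot, mul_add, add_re]

theorem ex_per (θ z w : ℂ) : exp (I * dot θ w) * ex θ (z + w) = ex θ z := by
  rw [ex, ex, ← exp_add, dot_add]; congr 1; push_cast; ring

theorem per {θ : ℂ} (b : BD θ) (z : ℂ) (w : GI) : b.f (z + w) * ex θ (z + w) = b.f z * ex θ z := by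
  rw [b.bl, ← ex_per θ z w]; ring

theorem dper {θ : ℂ} (b : BD θ) (z : ℂ) (w : GI) :
    deriv b.f (z + w) * ex θ (z + w) = deriv b.f z * ex θ z := by
  have : deriv b.f (z + w) = exp (I * dot θ w) * deriv b.f z := by
    rw [← deriv_comp_add_const, ← deriv_const_mul_field]
    congr 1; funext y; exact b.bl y w
  rw [this, ← ex_per θ z w]; ring

theorem sq_rot {θ : ℂ} (h : Sq θ) : Sq (I * θ) :=
  ⟨mul_ne_zero I_ne_zero h.1, by simpa using h.2.2, by simpa using h.2.1⟩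

theorem hf_re : hf.re = 1 / 2 := by simp [hf]
theorem hf_im : hf.im = 1 / 2 := by simp [hf]

section
variable (h1 : S_Ex) {θ : ℂ} (b : BD θ) (h : Sq θ)
include h1 h

theorem fB {z : ℂ} (hz : NL z) (hy : |z.im| < 1) : b.f z * ex θ z = BB θ z := by
  rw [(h1 θ b (np_of_sq h) h.2.1).1 z hz hy, fE_ex]

theorem half_pt {z : ℂ} (hz : NL z) (hz' : NL (-z)) (hr : Reg z) (hy : |z.im| ≤ 3 / 4) (w : GI)
    (hw : -z + w = z) : ‖b.f z * ex θ z + 2 * π * I / θ‖ ≤ C1 * ‖θ‖ := by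
  have a1 := BB_odd h hr hy
  rw [← fB h1 b h hz (by linarith), ← fB h1 b h hz' (by rw [neg_im, abs_neg]; linarith),
    ← per b (-z) w, hw, ← two_mul, norm_mul, Complex.norm_two] at a1
  linarith

theorem z1_est : ‖b.sy.z1 + 2 * π * I / θ‖ ≤ C1 * ‖θ‖ :=
  half_pt h1 b h (z := 1 / 2) (nl_of_small (by norm_num) (by norm_num))
    (nl_of_small (by norm_num) (by norm_num))
    (reg_of_re (by norm_num) (by norm_num [abs_le]) (by norm_num)) (by norm_num) 1
    (by norm_num)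

theorem zh_est : ‖b.sy.zh + 2 * π * I / θ‖ ≤ C1 * ‖θ‖ :=
  half_pt h1 b h (z := hf) (nl_of_im (by norm_num [hf_im]) (by norm_num [hf_im, abs_lt]))
    (nl_of_im (by norm_num [hf_im]) (by norm_num [hf_im, abs_lt]))
    (reg_of_im (by norm_num [hf_re, abs_le]) (by norm_num [hf_im, abs_le])
      (by norm_num [hf_im, le_abs])) (by norm_num [hf_im, abs_le]) om
    (by rw [coe_om, hf]; ring)

theorem z0_est : ‖b.sy.z0 + 2 * π * I / θ‖ ≤ C1 * ‖θ‖ := by
  have h5 := norm_le_five h.2.1 h.2.2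
  have hc : ContinuousAt b.g 0 :=
    (b.hg.differentiableAt (ball_mem_nhds 0 (by norm_num))).continuousAt
  have l1 : Tendsto (fun t : ℝ => (t : ℂ) * (I * θ)) (𝓝[>] 0) (𝓝 0) := by
    have : Continuous (fun t : ℝ => (t : ℂ) * (I * θ)) := by fun_prop
    simpa using (this.tendsto 0).mono_left nhdsWithin_le_nhds
  have l2 : Tendsto (fun t : ℝ => -((t : ℂ) * (I * θ))) (𝓝[>] 0) (𝓝 0) := by
    simpa using l1.neg
  have l3 := (((hc.tendsto.comp l1).add_const (2 * π * I / θ)).add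
    ((hc.tendsto.comp l2).add_const (2 * π * I / θ))).norm
  have key : ‖b.g 0 + 2 * π * I / θ + (b.g 0 + 2 * π * I / θ)‖ ≤ 2 * C1 * ‖θ‖ := by
    refine le_of_tendsto l3 ?_
    filter_upwards [Ioo_mem_nhdsGT (show (0 : ℝ) < 1 / 10 by norm_num)] with t ht
    set z : ℂ := t * (I * θ) with hz
    have hz0 : z ≠ 0 :=
      mul_ne_zero (by exact_mod_cast ht.1.ne') (mul_ne_zero I_ne_zero h.1)
    have hn : ‖z‖ ≤ 1 / 2 := by
      rw [hz, norm_mul, norm_mul, norm_I, one_mul, Complex.norm_real, Real.norm_of_nonneg ht.1.le]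
      nlinarith [ht.1, ht.2, norm_nonneg θ]
    have hre := (Complex.abs_re_le_norm z).trans hn
    have him := (Complex.abs_im_le_norm z).trans hn
    have a1 := BB_odd h (reg_of_re hz0 (by linarith) (by linarith)) (by linarith)
    have d1 : dot θ z = 0 := by simp [hz, dot]; ring
    have d2 : dot θ (-z) = 0 := by simp [hz, dot]; ring
    rw [← fB h1 b h (nl_of_small hz0 (by linarith)) (by linarith),
      ← fB h1 b h (nl_of_small (neg_ne_zero.2 hz0) (by rw [norm_neg]; linarith))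
        (by rw [neg_im, abs_neg]; linarith),
      b.loc z (by linarith) hz0, b.loc (-z) (by rw [norm_neg]; linarith) (neg_ne_zero.2 hz0),
      ex, ex, d1, d2] at a1
    simp only [ofReal_zero, mul_zero, Complex.exp_zero, mul_one] at a1
    rw [show z⁻¹ + b.g z + 2 * π * I / θ + ((-z)⁻¹ + b.g (-z) + 2 * π * I / θ)
      = b.g z + 2 * π * I / θ + (b.g (-z) + 2 * π * I / θ) by ring] at a1
    exact a1
  rw [← two_mul, norm_mul, Complex.norm_two] at key
  show ‖b.g 0 + 2 * π * I / θ‖ ≤ _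
  linarith

theorem int_est :
    ‖(∫ x in (0 : ℝ)..1, b.f (x + I / 2) * ex θ (x + I / 2)) + 2 * π * I / θ‖ ≤ C1 * ‖θ‖ ∧
    ‖(∫ x in (0 : ℝ)..1, b.f (-(x + I / 2)) * ex θ (-(x + I / 2))) + 2 * π * I / θ‖
      ≤ C1 * ‖θ‖ := by
  set F : ℝ → ℂ := fun x => b.f (x + I / 2) * ex θ (x + I / 2) with hF
  have him : ∀ x : ℝ, |((x : ℂ) + I / 2).im| = 1 / 2 := fun x => by norm_num
  have hnl : ∀ x : ℝ, NL ((x : ℂ) + I / 2) := fun x =>
    nl_of_im (by rw [him]; norm_num) (by rw [him]; norm_num)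
  have hc : Continuous F := by
    refine Continuous.mul ?_ ?_
    · refine continuous_iff_continuousAt.2 fun x => ?_
      exact ContinuousAt.comp (f := fun x : ℝ => (x : ℂ) + I / 2) (b.df _ (hnl x)).continuousAt
        (by fun_prop)
    · unfold ex dot; fun_prop
  have hG : ∀ x : ℝ, b.f (-(x + I / 2)) * ex θ (-(x + I / 2)) = F (1 - x) := fun x => by
    rw [← per b _ om, hF, coe_om]
    have : -((x : ℂ) + I / 2) + (1 + I) = ((1 - x : ℝ) : ℂ) + I / 2 := by push_cast; ring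
    simp only [this]
  have hI : (∫ x in (0 : ℝ)..1, F (1 - x)) = ∫ x in (0 : ℝ)..1, F x := by
    rw [intervalIntegral.integral_comp_sub_left F 1]; norm_num
  have hc' : Continuous fun x : ℝ => F (1 - x) := hc.comp (by fun_prop)
  have key : ‖(∫ x in (0 : ℝ)..1, F x) + 2 * π * I / θ‖ ≤ C1 * ‖θ‖ := by
    have e : (∫ x in (0 : ℝ)..1, (F x + 2 * π * I / θ) + (F (1 - x) + 2 * π * I / θ))
        = 2 * ((∫ x in (0 : ℝ)..1, F x) + 2 * π * I / θ) := by
      rw [intervalIntegral.integral_add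
          ((hc.intervalIntegrable _ _).add intervalIntegrable_const)
          ((hc'.intervalIntegrable _ _).add intervalIntegrable_const),
        intervalIntegral.integral_add (hc.intervalIntegrable _ _) intervalIntegrable_const,
        intervalIntegral.integral_add (hc'.intervalIntegrable _ _) intervalIntegrable_const, hI]
      simp; ring
    have hb := intervalIntegral.norm_integral_le_of_norm_le_const (a := (0 : ℝ)) (b := 1)
      (C := 2 * C1 * ‖θ‖)
      (f := fun x => (F x + 2 * π * I / θ) + (F (1 - x) + 2 * π * I / θ)) (fun x hx => by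
        rw [uIoc_of_le zero_le_one] at hx
        have hr : Reg ((x : ℂ) + I / 2) := reg_of_im (by
          simp only [add_re, ofReal_re, div_ofNat_re, I_re, zero_div, add_zero]
          rw [abs_of_pos hx.1]; exact hx.2) (by rw [him]; norm_num) (by rw [him]; norm_num)
        have a1 := BB_odd h hr (by rw [him]; norm_num)
        rw [← fB h1 b h (hnl x) (by rw [him]; norm_num),
          ← fB h1 b h (nl_of_im (by rw [neg_im, abs_neg, him]; norm_num)
            (by rw [neg_im, abs_neg, him]; norm_num)) (by rw [neg_im, abs_neg, him]; norm_num),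
          hG] at a1
        exact a1)
    rw [e, norm_mul, Complex.norm_two] at hb
    norm_num at hb ⊢
    linarith
  refine ⟨key, ?_⟩
  simp only [hG]
  rw [hI]; exact key

end

/-- The holomorphic part of a Bloch function near `hf`. -/
def hb {θ : ℂ} (b : BD θ) (z : ℂ) : ℂ := exp (-(I * θ.re * z)) * b.f z + π * I * cth (θ / 2)

theorem near_hf {z : ℂ} (hz : z ∈ closedBall hf (1 / 4)) :
    NL z ∧ Reg z ∧ |z.im| ≤ 3 / 4 ∧ ‖z⁻¹‖ ≤ 4 := by
  rw [mem_closedBall, dist_eq_norm] at hz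
  have a1 := abs_le.1 ((Complex.abs_re_le_norm _).trans hz)
  have a2 := abs_le.1 ((Complex.abs_im_le_norm _).trans hz)
  rw [sub_re, hf_re] at a1
  rw [sub_im, hf_im] at a2
  have b1 : |z.im| = z.im := abs_of_pos (by linarith)
  refine ⟨nl_of_im (by linarith) (by linarith), reg_of_im (abs_le.2 ⟨by linarith, by linarith⟩)
    (by linarith) (by linarith), by linarith, ?_⟩
  rw [norm_inv]
  have := Complex.abs_im_le_norm z
  calc ‖z‖⁻¹ ≤ (1 / 4)⁻¹ := inv_anti₀ (by norm_num) (by linarith)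
    _ = 4 := by norm_num

theorem hb_diff {θ : ℂ} (b : BD θ) : DiffContOnCl ℂ (hb b) (ball hf (1 / 4)) := by
  refine DifferentiableOn.diffContOnCl fun z hz => ?_
  rw [closure_ball _ (by norm_num)] at hz
  have := b.df z (near_hf hz).1
  refine DifferentiableAt.differentiableWithinAt ?_
  unfold hb; fun_prop

theorem hb_eq (h1 : S_Ex) {θ : ℂ} (b : BD θ) (h : Sq θ) {z : ℂ} (hz : z ∈ closedBall hf (1 / 4)) :
    hb b z = HH θ z := by
  obtain ⟨a1, -, a3, -⟩ := near_hf hz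
  rw [hb, (h1 θ b (np_of_sq h) h.2.1).1 z a1 (by linarith), fE_eq, ← mul_assoc, ← exp_add]
  simp

theorem ch_eq {θ : ℂ} (b : BD θ) :
    b.sy.ch = -(I * θ.re * b.sy.zh) - exp (-θ / 2) * deriv (hb b) hf := by
  have hd := (b.df hf (near_hf (mem_closedBall_self (by norm_num))).1).hasDerivAt
  have h2 : HasDerivAt (fun z : ℂ => exp (-(I * θ.re * z))) (exp (-(I * θ.re * hf)) * -(I * θ.re)) hf := by
    simpa using ((hasDerivAt_id hf).const_mul (I * θ.re)).neg.cexp
  have h3 : deriv (hb b) hf = exp (-(I * θ.re * hf)) * -(I * θ.re) * b.f hf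
      + exp (-(I * θ.re * hf)) * deriv b.f hf := ((h2.mul hd).add_const _).deriv
  have h4 : exp (-θ / 2) * exp (-(I * θ.re * hf)) = ex θ hf := by
    have := exp_ex θ hf
    rw [hf_im] at this
    rw [show -θ / 2 = -θ * ((1 / 2 : ℝ) : ℂ) by push_cast; ring, ← this, exp_neg]
    field_simp
  show -deriv b.f hf * ex θ hf = -(I * θ.re * (b.f hf * ex θ hf)) - _
  rw [h3, ← h4]; ring

theorem ch_aux (h1 : S_Ex) {θ : ℂ} (b : BD θ) (h : Sq θ) :
    ‖b.sy.ch + π * conj θ / θ + π + exp (-θ / 2) * deriv (hb b) hf‖ ≤ 4 * (C1 * ‖θ‖) := by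
  have h0 := h.1
  have e : b.sy.ch + π * conj θ / θ + π + exp (-θ / 2) * deriv (hb b) hf
      = -(I * θ.re * (b.sy.zh + 2 * π * I / θ)) := by
    rw [ch_eq, Complex.re_eq_add_conj]
    field_simp
    linear_combination (2 * π * (θ + conj θ)) * I_mul_I
  rw [e, norm_neg, norm_mul, norm_mul, norm_I, one_mul, Complex.norm_real, Real.norm_eq_abs]
  exact mul_le_mul (by linarith [h.2.1, Real.pi_lt_four]) (zh_est h1 b h) (norm_nonneg _)
    (by norm_num)

/-- The constant for `ch`. -/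
def C2 : ℝ := 4 * C1 + 512 * Real.exp 5 * Real.exp 5 * Real.exp 5
  + 2 * Real.exp 5 * (100 + 64 * Real.exp 5)

theorem ch_est (h1 : S_Ex) (h2 : S_Uni) {θ : ℂ} (b : BD θ) (h : Sq θ) :
    ‖b.sy.ch + π * conj θ / θ‖ ≤ C2 * ‖θ‖ := by
  obtain ⟨b', hb', -⟩ := (h2 θ b (np_of_sq h)).2.1
  have h' := sq_rot h
  have h5 := norm_le_five h.2.1 h.2.2
  have hn : ‖I * θ‖ = ‖θ‖ := by simp
  set E := Real.exp 5 with hE
  have hE0 : 0 < E := Real.exp_pos 5
  have r1 : b'.sy.ch = -b.sy.ch := by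
    have f1 : b'.f = fun w => -I * b.f (-I * w) := by
      funext w
      rw [← hb' (-I * w)]; congr 1
      linear_combination w * I_mul_I
    have f2 : deriv b'.f hf = -deriv b.f (-I * hf) := by
      rw [f1, deriv_const_mul_field, deriv_comp_mul_left, smul_eq_mul]
      linear_combination (deriv b.f (-I * hf)) * I_mul_I
    have f3 : ex (I * θ) hf = ex θ (-I * hf) := by
      simp only [ex, dot, map_mul, conj_I]; congr 4; ring
    have f4 := dper b (-I * hf) gi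
    rw [coe_gi, show -I * hf + I = hf by
      unfold hf; linear_combination (-1 / 2 : ℂ) * I_mul_I] at f4
    show -deriv b'.f hf * ex (I * θ) hf = -(-deriv b.f hf * ex θ hf)
    rw [f2, f3]; linear_combination -f4
  have r2 : π * conj (I * θ) / (I * θ) = -(π * conj θ / θ) := by
    have := h.1
    simp only [map_mul, conj_I]; field_simp
  have a1 := ch_aux h1 b h
  have a2 := ch_aux h1 b' h'
  rw [r1, r2, hn] at a2
  have d1 : ‖deriv (hb b) hf - deriv (hb b') hf‖ ≤ (256 * E * E * ‖θ‖) / (1 / 4) := by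
    have q1 := (hb_diff b).differentiableAt isOpen_ball (mem_ball_self (by norm_num))
    have q2 := (hb_diff b').differentiableAt isOpen_ball (mem_ball_self (by norm_num))
    rw [← deriv_sub q1 q2]
    refine norm_deriv_le_of_forall_mem_sphere_norm_le (by norm_num)
      ((hb_diff b).sub (hb_diff b')) fun z hz => ?_
    have hz' := sphere_subset_closedBall hz
    have hy := (near_hf hz').2.2.1
    rw [Pi.sub_apply, hb_eq h1 b h hz', hb_eq h1 b' h' hz']
    have p1 := HH_lip h.2.1 h5 hy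
    have p2 := HH_lip h'.2.1 (hn ▸ h5) hy
    rw [hn] at p2
    have := norm_sub_le (HH θ z - HH 0 z) (HH (I * θ) z - HH 0 z)
    rw [sub_sub_sub_cancel_right] at this
    linarith
  have d2 : ‖deriv (hb b') hf‖ ≤ (100 + 64 * E) / (1 / 4) := by
    refine norm_deriv_le_of_forall_mem_sphere_norm_le (by norm_num) (hb_diff b') fun z hz => ?_
    have hz' := sphere_subset_closedBall hz
    obtain ⟨-, q2, q3, q4⟩ := near_hf hz'
    rw [hb_eq h1 b' h' hz']
    have p1 := HH_bound h'.2.1 q2 q3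
    have := norm_add_le z⁻¹ (HH (I * θ) z - z⁻¹)
    rw [add_sub_cancel] at this
    linarith
  have n1 : ‖-θ / 2‖ = ‖θ‖ / 2 := by simp
  have n2 : ‖-(I * θ) / 2‖ = ‖θ‖ / 2 := by simp
  have e0 := exp0 (-θ / 2) (R := 5) (by linarith)
  have e1 := exp1 (-θ / 2) (R := 5) (by linarith)
  have e2 := exp1 (-(I * θ) / 2) (R := 5) (by linarith)
  rw [n1] at e1
  rw [n2] at e2
  have e3 : ‖exp (-θ / 2) - exp (-(I * θ) / 2)‖ ≤ E * ‖θ‖ := by
    have := norm_sub_le (exp (-θ / 2) - 1) (exp (-(I * θ) / 2) - 1)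
    rw [sub_sub_sub_cancel_right] at this
    linarith
  have t1 := mul_le_mul e0 d1 (norm_nonneg _) hE0.le
  have t2 := mul_le_mul e3 d2 (norm_nonneg _) (by positivity)
  rw [← norm_mul] at t1 t2
  have e : 2 * (b.sy.ch + π * conj θ / θ)
      = (b.sy.ch + π * conj θ / θ + π + exp (-θ / 2) * deriv (hb b) hf)
        - (-b.sy.ch + -(π * conj θ / θ) + π + exp (-(I * θ) / 2) * deriv (hb b') hf)
        - exp (-θ / 2) * (deriv (hb b) hf - deriv (hb b') hf)
        - (exp (-θ / 2) - exp (-(I * θ) / 2)) * deriv (hb b') hf := by ring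
  have u := congrArg norm e
  rw [norm_mul, Complex.norm_two] at u
  have u1 := norm_sub_le ((b.sy.ch + π * conj θ / θ + π + exp (-θ / 2) * deriv (hb b) hf)
        - (-b.sy.ch + -(π * conj θ / θ) + π + exp (-(I * θ) / 2) * deriv (hb b') hf)
        - exp (-θ / 2) * (deriv (hb b) hf - deriv (hb b') hf))
        ((exp (-θ / 2) - exp (-(I * θ) / 2)) * deriv (hb b') hf)
  have u2 := norm_sub_le ((b.sy.ch + π * conj θ / θ + π + exp (-θ / 2) * deriv (hb b) hf)
        - (-b.sy.ch + -(π * conj θ / θ) + π + exp (-(I * θ) / 2) * deriv (hb b') hf))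
        (exp (-θ / 2) * (deriv (hb b) hf - deriv (hb b') hf))
  have u3 := norm_sub_le (b.sy.ch + π * conj θ / θ + π + exp (-θ / 2) * deriv (hb b) hf)
        (-b.sy.ch + -(π * conj θ / θ) + π + exp (-(I * θ) / 2) * deriv (hb b') hf)
  unfold C2
  rw [← hE]
  nlinarith

end Pool.Agent.P.MP_cc4a10_gt.AsyZP

namespace Pool.Agent.P.MP_cc4a10_gt

open AsyZP in
theorem pAsyZ (h1 : S_Ex) (h2 : S_Uni) : S_AsyZ := by
  have hE := Real.exp_pos 5
  have c1 := C1_pos
  have c2 : C1 ≤ C2 := by unfold C2; nlinarith [mul_pos hE hE, mul_pos (mul_pos hE hE) hE]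
  refine ⟨C2 + 5 * C1 + 300 + 128 * Real.exp 5, by linarith, fun θ b h => ?_⟩
  have hn := norm_nonneg θ
  have up : ∀ {x c : ℝ}, c ≤ C2 → x ≤ c * ‖θ‖ → x ≤ (C2 + 5 * C1 + 300 + 128 * Real.exp 5) * ‖θ‖ :=
    fun hc hx => hx.trans (mul_le_mul_of_nonneg_right (by linarith) hn)
  obtain ⟨-, ep, ec⟩ := h1 θ b (np_of_sq h) h.2.1
  refine ⟨up c2 (z0_est h1 b h), up c2 (z1_est h1 b h), up c2 (zh_est h1 b h),
    up le_rfl (ch_est h1 h2 b h), ?_, ?_, fun z hz hx hy hc => ?_,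
    up c2 (int_est h1 b h).1, up c2 (int_est h1 b h).2⟩
  · rw [ep]; linarith [pE_bound h]
  · rw [ec]; linarith [cE_bound h]
  · have hr : Reg z := by
      rcases hc with hc | hc
      · exact reg_of_im hx (by linarith) (by linarith)
      · exact reg_of_re (by simpa using hz 0) (by linarith) (by linarith)
    rw [fB h1 b h hz (by linarith)]
    linarith [BB_bd h hr (by linarith)]

end Pool.Agent.P.MP_cc4a10_gt
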