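import Pool.Agent.P.MP_cc4a10_gt.St

/-!
Elementary estimates for the explicit series of a Bloch function.
-/

open Set Filter Topology Complex Metric
open scoped ComplexConjugate Real

noncomputable section

namespace Pool.Agent.P.MP_cc4a10_gt.AsyZP

/-- The region on which the cotangent is controlled. -/
def Reg (z : ℂ) : Prop := z ≠ 0 ∧ ‖z‖ ^ 2 ≤ 2 ∧ 1 / 4 ≤ ‖z - 1‖ ∧ 1 / 4 ≤ ‖z + 1‖

theorem Reg.neg {z : ℂ} (h : Reg z) : Reg (-z) := by
  obtain ⟨h0, h1, h2, h3⟩ := h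
  refine ⟨neg_ne_zero.2 h0, by simpa using h1, ?_, ?_⟩
  · rw [show -z - 1 = -(z + 1) by ring, norm_neg]; exact h3
  · rw [show -z + 1 = -(z - 1) by ring, norm_neg]; exact h2

theorem Reg.ic {z : ℂ} (h : Reg z) : z ∈ integerComplement := by
  obtain ⟨h0, h1, h2, h3⟩ := h
  rintro ⟨n, rfl⟩
  have hn : (n : ℝ) ^ 2 ≤ 2 := by
    rw [Complex.norm_intCast, sq_abs] at h1; exact h1
  have hn' : n ^ 2 ≤ 2 := by exact_mod_cast hn
  have hl : -2 < n := by nlinarith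
  have hu : n < 2 := by nlinarith
  interval_cases n
  · norm_num at h3
  · simp at h0
  · norm_num at h2

theorem reg_of_re {z : ℂ} (h0 : z ≠ 0) (hx : |z.re| ≤ 3 / 4) (hy : |z.im| ≤ 1) : Reg z := by
  have hx' := abs_le.1 hx
  have hy' := abs_le.1 hy
  refine ⟨h0, ?_, ?_, ?_⟩
  · rw [Complex.sq_norm, normSq_apply]; nlinarith
  · have := Complex.abs_re_le_norm (z - 1)
    have h2 : 1 / 4 ≤ |(z - 1).re| := by
      rw [le_abs]; right; simp; linarith
    linarith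
  · have := Complex.abs_re_le_norm (z + 1)
    have h2 : 1 / 4 ≤ |(z + 1).re| := by
      rw [le_abs]; left; simp; linarith
    linarith

theorem reg_of_im {z : ℂ} (hx : |z.re| ≤ 1) (hy : |z.im| ≤ 1) (hy2 : 1 / 4 ≤ |z.im|) : Reg z := by
  have hx' := abs_le.1 hx
  have hy' := abs_le.1 hy
  refine ⟨?_, ?_, ?_, ?_⟩
  · rintro rfl; norm_num at hy2
  · rw [Complex.sq_norm, normSq_apply]; nlinarith
  · have := Complex.abs_im_le_norm (z - 1)
    simp only [sub_im, one_im, sub_zero] at this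
    linarith
  · have := Complex.abs_im_le_norm (z + 1)
    simp only [add_im, one_im, add_zero] at this
    linarith

theorem hasSum_sq : HasSum (fun n : ℕ => 1 / ((n : ℝ) + 1) ^ 2) (π ^ 2 / 6) := by
  have := (hasSum_nat_add_iff' 1).2 hasSum_zeta_two
  simpa using this

theorem cot_bound {z : ℂ} (h : Reg z) : ‖π * cot (π * z) - z⁻¹‖ ≤ 64 * ‖z‖ := by
  have hc := cot_series_rep' h.ic
  rw [← one_div, hc]
  obtain ⟨h0, h1, h2, h3⟩ := id h
  have hs := hasSum_sq.mul_left (32 * ‖z‖)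
  refine (tsum_of_norm_bounded hs fun n => ?_).trans ?_
  · have hid := cotTerm_identity h.ic n
    simp only [cotTerm] at hid
    rw [hid, norm_mul, norm_mul, norm_div, norm_one, Complex.norm_two]
    have hlow : ((n : ℝ) + 1) ^ 2 / 16 ≤ ‖(z + (n + 1)) * (z - (n + 1))‖ := by
      rcases Nat.eq_zero_or_pos n with rfl | hn
      · simp only [CharP.cast_eq_zero, zero_add, norm_mul]
        nlinarith [mul_le_mul h3 h2 (by norm_num) (norm_nonneg _)]
      · have hn' : (1 : ℝ) ≤ n := by exact_mod_cast hn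
        have e : (z + (n + 1)) * (z - (n + 1)) = -((((n : ℝ) + 1) ^ 2 : ℝ) - z ^ 2) := by
          push_cast; ring
        rw [e, norm_neg]
        have := norm_sub_norm_le ((((n : ℝ) + 1) ^ 2 : ℝ) : ℂ) (z ^ 2)
        rw [Complex.norm_real, Real.norm_of_nonneg (by positivity), norm_pow] at this
        nlinarith
    have hp : (0 : ℝ) < ((n : ℝ) + 1) ^ 2 := by positivity
    have : 1 / ‖(z + (n + 1)) * (z - (n + 1))‖ ≤ 16 * (1 / ((n : ℝ) + 1) ^ 2) := by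
      calc _ ≤ 1 / (((n : ℝ) + 1) ^ 2 / 16) := one_div_le_one_div_of_le (by positivity) hlow
        _ = _ := by field_simp
    nlinarith [norm_nonneg z]
  · have : π ^ 2 ≤ 12 := by nlinarith [Real.pi_lt_d2, Real.pi_pos]
    nlinarith [norm_nonneg z]

theorem norm_le_five {θ : ℂ} (h1 : |θ.re| ≤ π) (h2 : |θ.im| ≤ π) : ‖θ‖ ≤ 5 := by
  have h3 := abs_le.1 h1
  have h4 := abs_le.1 h2
  have : ‖θ‖ ^ 2 ≤ 5 ^ 2 := by
    rw [Complex.sq_norm, normSq_apply]; nlinarith [Real.pi_lt_d2, Real.pi_pos]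
  exact (pow_le_pow_iff_left₀ (norm_nonneg _) (by norm_num) two_ne_zero).1 this

theorem cth_bound {θ : ℂ} (h : Sq θ) : ‖-(π * I * cth (θ / 2)) + 2 * π * I / θ‖ ≤ 11 * ‖θ‖ := by
  obtain ⟨h0, h1, h2⟩ := h
  have hpi := Real.pi_pos
  have hpc : (π : ℂ) ≠ 0 := by exact_mod_cast hpi.ne'
  set ζ : ℂ := θ * I / (2 * π) with hζ
  have hre : ζ.re = -θ.im / (2 * π) := by
    rw [hζ, show (2 * π : ℂ) = ((2 * π : ℝ) : ℂ) by push_cast; ring, Complex.div_ofReal_re]; simp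
  have him : ζ.im = θ.re / (2 * π) := by
    rw [hζ, show (2 * π : ℂ) = ((2 * π : ℝ) : ℂ) by push_cast; ring, Complex.div_ofReal_im]; simp
  have hr : Reg ζ := by
    refine reg_of_re ?_ ?_ ?_
    · rw [hζ]; exact div_ne_zero (mul_ne_zero h0 I_ne_zero) (mul_ne_zero two_ne_zero hpc)
    · rw [hre, abs_div, abs_neg, abs_of_pos (by positivity : 0 < 2 * π), div_le_iff₀ (by positivity)]
      linarith
    · rw [him, abs_div, abs_of_pos (by positivity : 0 < 2 * π), div_le_iff₀ (by positivity)]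
      linarith
  have hb := cot_bound hr
  have e1 : (π : ℂ) * ζ = θ / 2 * I := by rw [hζ]; field_simp
  have e2 : π * cot (π * ζ) - ζ⁻¹ = -(π * I * cth (θ / 2)) + 2 * π * I / θ := by
    rw [e1, cot_eq_cos_div_sin, cos_mul_I, sin_mul_I, cth, hζ]
    have : (cosh (θ / 2) / (sinh (θ / 2) * I)) = -I * (cosh (θ / 2) / sinh (θ / 2)) := by
      rw [div_mul_eq_div_div, div_I]; ring
    rw [this, inv_div, mul_comm θ I, ← div_div, div_I]; ring
  rw [e2] at hb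
  refine hb.trans ?_
  rw [hζ, norm_div, norm_mul, norm_I, mul_one, norm_mul, Complex.norm_two, Complex.norm_real,
    Real.norm_of_nonneg hpi.le, ← mul_div_assoc, div_le_iff₀ (by positivity)]
  nlinarith [Real.pi_gt_three, norm_nonneg θ]

theorem exp1 (x : ℂ) {R : ℝ} (h : ‖x‖ ≤ R) : ‖exp x - 1‖ ≤ Real.exp R * ‖x‖ := by
  have := norm_exp_sub_sum_le_norm_mul_exp x 1
  simp only [Finset.range_one, Finset.sum_singleton, pow_zero, Nat.factorial_zero, Nat.cast_one,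
    div_one, pow_one] at this
  refine this.trans ?_
  rw [mul_comm]; gcongr

theorem exp2 (x : ℂ) {R : ℝ} (h : ‖x‖ ≤ R) : ‖exp x - 1 - x‖ ≤ Real.exp R * ‖x‖ ^ 2 := by
  have := norm_exp_sub_sum_le_norm_mul_exp x 2
  simp only [Finset.sum_range_succ, Finset.range_zero, Finset.sum_empty, pow_zero,
    Nat.factorial_zero, Nat.cast_one, div_one, pow_one, zero_add, Nat.factorial_one] at this
  rw [sub_sub]
  refine this.trans ?_
  rw [mul_comm]; gcongr

theorem exp0 (x : ℂ) {R : ℝ} (h : ‖x‖ ≤ R) : ‖exp x‖ ≤ Real.exp R := by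
  rw [Complex.norm_exp]
  exact Real.exp_le_exp.2 ((Complex.re_le_norm x).trans h)

theorem UU_bound {w : ℂ} (h : 1 ≤ w.re) : ‖UU w‖ ≤ 2 * Real.exp (-w.re) := by
  have h2 : 2 ≤ Real.exp w.re := by linarith [Real.add_one_le_exp w.re]
  have h3 := norm_sub_norm_le (exp w) 1
  rw [Complex.norm_exp, norm_one] at h3
  rw [UU, norm_inv, Real.exp_neg]
  calc ‖exp w - 1‖⁻¹ ≤ (Real.exp w.re / 2)⁻¹ := inv_anti₀ (by positivity) (by linarith)
    _ = _ := by field_simp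

theorem exp_ne_one {w : ℂ} (h : 1 ≤ w.re) : exp w - 1 ≠ 0 := by
  have h2 : 2 ≤ Real.exp w.re := by linarith [Real.add_one_le_exp w.re]
  have h3 := norm_sub_norm_le (exp w) 1
  rw [Complex.norm_exp, norm_one] at h3
  intro h0; rw [h0, norm_zero] at h3; linarith

theorem UU_lip {w δ : ℂ} (h : 1 ≤ w.re) (h' : 1 ≤ (w + δ).re) (hδ : ‖δ‖ ≤ 5) :
    ‖UU (w + δ) - UU w‖ ≤ 4 * Real.exp 5 * Real.exp (-(w + δ).re) * ‖δ‖ := by
  have e : UU (w + δ) - UU w = -(UU (w + δ) * (UU w * exp w) * (exp δ - 1)) := by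
    have a1 := exp_ne_one h
    have a2 := exp_ne_one h'
    simp only [UU]
    rw [exp_add] at a2 ⊢
    field_simp
    ring
  rw [e, norm_neg, norm_mul, norm_mul]
  have b1 := UU_bound h'
  have b2 : ‖UU w * exp w‖ ≤ 2 := by
    rw [norm_mul, Complex.norm_exp]
    calc _ ≤ 2 * Real.exp (-w.re) * Real.exp w.re := by gcongr; exact UU_bound h
      _ = 2 := by rw [mul_assoc, ← Real.exp_add]; simp
  have b3 := exp1 δ hδ
  calc _ ≤ 2 * Real.exp (-(w + δ).re) * 2 * (Real.exp 5 * ‖δ‖) := by gcongr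
    _ = _ := by ring

theorem exp_half (k : ℕ) : Real.exp (-(π / 2 * (k + 1))) ≤ (1 / 2) ^ k := by
  have h1 : Real.exp (-(π / 2)) ≤ 1 / 2 := by
    rw [Real.exp_neg, ← one_div]
    refine one_div_le_one_div_of_le (by norm_num) ?_
    linarith [Real.add_one_le_exp (π / 2), Real.pi_gt_three]
  have : Real.exp (-(π / 2 * (k + 1))) = Real.exp (-(π / 2)) ^ (k + 1) := by
    rw [← Real.exp_nat_mul]; congr 1; push_cast; ring
  rw [this]
  calc _ ≤ (1 / 2 : ℝ) ^ (k + 1) := by gcongr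
    _ ≤ _ := by rw [pow_succ]; have : (0 : ℝ) ≤ (1 / 2) ^ k := by positivity
                linarith

theorem tsum_geo {a : ℕ → ℂ} {A : ℝ} (h : ∀ k, ‖a k‖ ≤ A * (1 / 2) ^ k) :
    Summable a ∧ ‖∑' k, a k‖ ≤ 2 * A := by
  have hs := hasSum_geometric_two.mul_left A
  exact ⟨Summable.of_norm_bounded hs.summable h,
    (tsum_of_norm_bounded hs h).trans (by rw [mul_comm])⟩

/-- The term of the series. -/
def tm (θ z : ℂ) (k : ℕ) : ℂ :=
  exp (-2 * π * I * (k + 1) * z) * UU (2 * π * (k + 1) - θ)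
      - exp (2 * π * I * (k + 1) * z) * UU (2 * π * (k + 1) + θ)

def SS (θ z : ℂ) : ℂ := ∑' k, tm θ z k

theorem ex_le {z : ℂ} (hz : |z.im| ≤ 3 / 4) (k : ℕ) :
    ‖exp (-2 * π * I * (k + 1) * z)‖ ≤ Real.exp (3 * π / 2 * (k + 1)) ∧
    ‖exp (2 * π * I * (k + 1) * z)‖ ≤ Real.exp (3 * π / 2 * (k + 1)) := by
  have hz' := abs_le.1 hz
  have hk : (0 : ℝ) ≤ π * (k + 1) := by have := Real.pi_pos; positivity
  constructor
  · rw [Complex.norm_exp]; apply Real.exp_le_exp.2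
    simp; nlinarith
  · rw [Complex.norm_exp]; apply Real.exp_le_exp.2
    simp; nlinarith

theorem re_arg {δ : ℂ} (h : |δ.re| ≤ π) (k : ℕ) :
    2 * π * (k + 1) - π ≤ (2 * π * (k + 1) + δ : ℂ).re ∧ 1 ≤ (2 * π * (k + 1) + δ : ℂ).re := by
  have h' := abs_le.1 h
  have hk : (0 : ℝ) ≤ π * k := by have := Real.pi_pos; positivity
  have e : (2 * π * (k + 1) + δ : ℂ).re = 2 * π * (k + 1) + δ.re := by simp
  rw [e]
  constructor
  · linarith
  · nlinarith [Real.pi_gt_three]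

theorem exp_comb {δ : ℂ} (h : |δ.re| ≤ π) (k : ℕ) :
    Real.exp (3 * π / 2 * (k + 1)) * Real.exp (-(2 * π * (k + 1) + δ : ℂ).re)
      ≤ Real.exp 5 * (1 / 2) ^ k := by
  have h1 := (re_arg h k).1
  calc _ = Real.exp (3 * π / 2 * (k + 1) - (2 * π * (k + 1) + δ : ℂ).re) := by
        rw [← Real.exp_add]; congr 1
    _ ≤ Real.exp (5 + -(π / 2 * (k + 1))) := by
        apply Real.exp_le_exp.2; linarith [Real.pi_lt_four]
    _ ≤ _ := by rw [Real.exp_add]; gcongr; exact exp_half k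

theorem half_bound {δ e : ℂ} (h : |δ.re| ≤ π) (k : ℕ) (he : ‖e‖ ≤ Real.exp (3 * π / 2 * (k + 1))) :
    ‖e * UU (2 * π * (k + 1) + δ)‖ ≤ 2 * Real.exp 5 * (1 / 2) ^ k := by
  rw [norm_mul]
  have h1 := UU_bound (re_arg h k).2
  have h2 := exp_comb h k
  calc _ ≤ Real.exp (3 * π / 2 * (k + 1)) * (2 * Real.exp (-(2 * π * (k + 1) + δ : ℂ).re)) := by
        gcongr
    _ ≤ _ := by nlinarith

theorem half_lip {δ e : ℂ} (h : |δ.re| ≤ π) (h5 : ‖δ‖ ≤ 5) (k : ℕ)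
    (he : ‖e‖ ≤ Real.exp (3 * π / 2 * (k + 1))) :
    ‖e * (UU (2 * π * (k + 1) + δ) - UU (2 * π * (k + 1)))‖
      ≤ 4 * Real.exp 5 * Real.exp 5 * ‖δ‖ * (1 / 2) ^ k := by
  rw [norm_mul]
  have h0 : 1 ≤ (2 * π * (k + 1) : ℂ).re := by
    have := (re_arg (δ := 0) (by simp [Real.pi_pos.le]) k).2
    rwa [add_zero] at this
  have h1 := UU_lip h0 (re_arg h k).2 h5
  have h2 := exp_comb h k
  calc _ ≤ Real.exp (3 * π / 2 * (k + 1)) *
        (4 * Real.exp 5 * Real.exp (-(2 * π * (k + 1) + δ : ℂ).re) * ‖δ‖) := by gcongr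
    _ = 4 * Real.exp 5 * ‖δ‖ * (Real.exp (3 * π / 2 * (k + 1)) *
        Real.exp (-(2 * π * (k + 1) + δ : ℂ).re)) := by ring
    _ ≤ 4 * Real.exp 5 * ‖δ‖ * (Real.exp 5 * (1 / 2) ^ k) := by gcongr
    _ = _ := by ring

theorem tm_bound {θ z : ℂ} (h : |θ.re| ≤ π) (hz : |z.im| ≤ 3 / 4) (k : ℕ) :
    ‖tm θ z k‖ ≤ 4 * Real.exp 5 * (1 / 2) ^ k := by
  have h1 := half_bound (δ := -θ) (by simpa using h) k (ex_le hz k).1
  have h2 := half_bound h k (ex_le hz k).2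
  rw [← sub_eq_add_neg] at h1
  refine (norm_sub_le _ _).trans ?_
  linarith

theorem SS_bound {θ z : ℂ} (h : |θ.re| ≤ π) (hz : |z.im| ≤ 3 / 4) : ‖SS θ z‖ ≤ 8 * Real.exp 5 := by
  have := (tsum_geo (tm_bound h hz)).2
  unfold SS; linarith

theorem SS_lip {θ z : ℂ} (h : |θ.re| ≤ π) (h5 : ‖θ‖ ≤ 5) (hz : |z.im| ≤ 3 / 4) :
    ‖SS θ z - SS 0 z‖ ≤ 16 * Real.exp 5 * Real.exp 5 * ‖θ‖ := by
  have s1 := (tsum_geo (tm_bound h hz)).1
  have s0 := (tsum_geo (tm_bound (θ := 0) (by simp [Real.pi_pos.le]) hz)).1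
  unfold SS
  rw [← s1.tsum_sub s0]
  have hb : ∀ k, ‖tm θ z k - tm 0 z k‖
      ≤ (8 * Real.exp 5 * Real.exp 5 * ‖θ‖) * (1 / 2) ^ k := fun k => by
    have h1 := half_lip (δ := -θ) (by simpa using h) (by simpa using h5) k (ex_le hz k).1
    have h2 := half_lip h h5 k (ex_le hz k).2
    rw [← sub_eq_add_neg, norm_neg] at h1
    have e : tm θ z k - tm 0 z k = exp (-2 * π * I * (k + 1) * z) *
        (UU (2 * π * (k + 1) - θ) - UU (2 * π * (k + 1))) - exp (2 * π * I * (k + 1) * z) *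
        (UU (2 * π * (k + 1) + θ) - UU (2 * π * (k + 1))) := by
      simp only [tm, sub_zero, add_zero]; ring
    rw [e]
    refine (norm_sub_le _ _).trans ?_
    linarith
  have := (tsum_geo hb).2
  linarith

theorem SS_odd (z : ℂ) : SS 0 (-z) = -SS 0 z := by
  unfold SS
  rw [← tsum_neg]
  congr 1; funext k
  simp only [tm, sub_zero, add_zero]
  rw [show -2 * π * I * (k + 1) * -z = 2 * π * I * (k + 1) * z by ring,
    show 2 * π * I * (k + 1) * -z = -2 * π * I * (k + 1) * z by ring]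
  ring

theorem hk_bound {θ : ℂ} (h : |θ.re| ≤ π) (k : ℕ) : ‖hk k θ‖ ≤ 8 * Real.exp 5 * (1 / 2) ^ k := by
  have h' := abs_le.1 h
  have hk0 : (0 : ℝ) ≤ π * k := by have := Real.pi_pos; positivity
  have key : ∀ t : ℝ, |t| ≤ π → ‖(2 * π * (k + 1) + t : ℂ)‖ ≤ 2 * Real.exp (3 * π / 2 * (k + 1)) := by
    intro t ht
    have ht' := abs_le.1 ht
    rw [show (2 * π * (k + 1) + t : ℂ) = ((2 * π * (k + 1) + t : ℝ) : ℂ) by push_cast; ring,
      Complex.norm_real, Real.norm_of_nonneg (by nlinarith)]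
    have := Real.add_one_le_exp (3 * π / 2 * (k + 1))
    nlinarith
  have k1 := key θ.re h
  have k2 := key (-θ.re) (by simpa using h)
  have h1 := half_bound (e := (2 * π * (k + 1) + θ.re) / 2) h k (by
    rw [norm_div, Complex.norm_two]; linarith)
  have h2 := half_bound (δ := -θ) (e := (2 * π * (k + 1) + ((-θ.re : ℝ) : ℂ)) / 2)
    (by simpa using h) k (by rw [norm_div, Complex.norm_two]; linarith)
  have e : hk k θ = 2 * ((2 * π * (k + 1) + θ.re) / 2 * UU (2 * π * (k + 1) + θ))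
      + 2 * ((2 * π * (k + 1) + ((-θ.re : ℝ) : ℂ)) / 2 * UU (2 * π * (k + 1) + -θ)) := by
    simp only [hk, ← sub_eq_add_neg]; push_cast; ring
  rw [e]
  refine (norm_add_le _ _).trans ?_
  rw [norm_mul 2, norm_mul 2, Complex.norm_two]
  linarith

theorem re_cth {θ : ℂ} (h : Sq θ) : ‖π * θ.re * cth (θ / 2)‖ ≤ 240 := by
  have h5 := norm_le_five h.2.1 h.2.2
  have hb := cth_bound h
  have h0 : 0 < ‖θ‖ := norm_pos_iff.2 h.1
  have e : π * θ.re * cth (θ / 2) = I * θ.re * (-(π * I * cth (θ / 2)) + 2 * π * I / θ)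
      + 2 * π * (θ.re / θ) := by
    linear_combination (π * θ.re * cth (θ / 2) - 2 * π * θ.re / θ) * I_mul_I
  rw [e]
  refine (norm_add_le _ _).trans ?_
  have a1 : ‖(θ.re : ℂ)‖ ≤ 4 := by
    rw [Complex.norm_real, Real.norm_eq_abs]; linarith [h.2.1, Real.pi_lt_four]
  have a2 : ‖(θ.re : ℂ) / θ‖ ≤ 1 := by
    rw [norm_div, div_le_one h0, Complex.norm_real, Real.norm_eq_abs]
    exact Complex.abs_re_le_norm θ
  have a3 : ‖(2 * π : ℂ)‖ ≤ 8 := by
    rw [norm_mul, Complex.norm_two, Complex.norm_real, Real.norm_of_nonneg Real.pi_pos.le]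
    linarith [Real.pi_lt_four]
  rw [norm_mul, norm_mul, norm_I, one_mul, norm_mul]
  have b1 := mul_le_mul a1 (hb.trans (by linarith : 11 * ‖θ‖ ≤ 55)) (norm_nonneg _) (by norm_num)
  have b2 := mul_le_mul a3 a2 (norm_nonneg _) (by norm_num)
  linarith

theorem two_pi_le : ‖(2 * π : ℂ)‖ ≤ 8 := by
  rw [norm_mul, Complex.norm_two, Complex.norm_real, Real.norm_of_nonneg Real.pi_pos.le]
  linarith [Real.pi_lt_four]

theorem pi_sq_le : ‖(π : ℂ) ^ 2‖ ≤ 16 := by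
  rw [norm_pow, Complex.norm_real, Real.norm_of_nonneg Real.pi_pos.le]
  nlinarith [Real.pi_lt_four, Real.pi_pos]

theorem pE_bound {θ : ℂ} (h : Sq θ) : ‖pE θ‖ ≤ 300 + 128 * Real.exp 5 := by
  have a1 := re_cth h
  have a2 := (tsum_geo (hk_bound h.2.1)).2
  have a3 : ‖(π : ℂ) ^ 2 / 3‖ ≤ 16 := by
    rw [norm_div]; have := pi_sq_le
    have h3 : ‖(3 : ℂ)‖ = 3 := by simp
    rw [h3]; linarith [norm_nonneg ((π : ℂ) ^ 2)]
  have a4 : ‖(θ.re : ℂ) ^ 2 / 2‖ ≤ 8 := by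
    rw [norm_div, Complex.norm_two, norm_pow, Complex.norm_real, Real.norm_eq_abs]
    nlinarith [h.2.1, Real.pi_lt_four, abs_nonneg θ.re]
  have a5 := mul_le_mul two_pi_le a2 (norm_nonneg _) (by norm_num)
  rw [← norm_mul] at a5
  unfold pE
  have b1 := norm_sub_le ((π : ℂ) ^ 2 / 3 + θ.re ^ 2 / 2 - π * θ.re * cth (θ / 2))
    (2 * π * ∑' k : ℕ, hk k θ)
  have b2 := norm_sub_le ((π : ℂ) ^ 2 / 3 + θ.re ^ 2 / 2) (π * θ.re * cth (θ / 2))
  have b3 := norm_add_le ((π : ℂ) ^ 2 / 3) ((θ.re : ℂ) ^ 2 / 2)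
  linarith

theorem cE_bound {θ : ℂ} (h : Sq θ) : ‖cE θ‖ ≤ 300 + 128 * Real.exp 5 := by
  have a1 := re_cth h
  have a2 := (tsum_geo (a := fun k => (-1) ^ k * hk k θ) (fun k => by
    rw [norm_mul, norm_pow, norm_neg, norm_one, one_pow, one_mul]; exact hk_bound h.2.1 k)).2
  have a3 := pi_sq_le
  have a5 := mul_le_mul two_pi_le a2 (norm_nonneg _) (by norm_num)
  rw [← norm_mul] at a5
  unfold cE
  have b1 := norm_add_le ((π : ℂ) ^ 2 - π * θ.re * cth (θ / 2))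
    (2 * π * ∑' k : ℕ, (-1) ^ k * hk k θ)
  have b2 := norm_sub_le ((π : ℂ) ^ 2) (π * θ.re * cth (θ / 2))
  linarith

end Pool.Agent.P.MP_cc4a10_gt.AsyZP
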