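import Pool.Agent.P.MP_cc4a10_gt.St

/-! Bounds for the period data and the neck constants. -/

open Set Filter Topology Complex Metric
open scoped ComplexConjugate Real

noncomputable section

namespace Pool.Agent.P.MP_cc4a10_gt.Aux1P

theorem Lm_add (μ a b : ℂ) : Lm μ (a + b) = Lm μ a + Lm μ b := by
  simp only [Lm, map_add]; ring

theorem Lm_real (μ a : ℂ) (x : ℝ) : Lm μ (x * a) = x * Lm μ a := by
  simp only [Lm, map_mul, conj_ofReal]; ring

theorem norm_Lm_ge {μ : ℂ} (h : ‖μ‖ ≤ 1 / 100) (a : ℂ) : ‖a‖ * (99 / 100) ≤ ‖Lm μ a‖ := by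
  have h1 : ‖a‖ ≤ ‖Lm μ a‖ + ‖μ * conj a‖ := by
    simpa [Lm] using norm_sub_le (Lm μ a) (μ * conj a)
  rw [norm_mul, norm_conj] at h1
  nlinarith [norm_nonneg a]

theorem norm_Lm_le {μ : ℂ} (h : ‖μ‖ ≤ 1) (a : ℂ) : ‖Lm μ a‖ ≤ 2 * ‖a‖ := by
  have h1 := norm_add_le a (μ * conj a)
  rw [norm_mul, norm_conj] at h1
  unfold Lm
  nlinarith [norm_nonneg a]

theorem half_le (n : ℤ) : (1 / 2 : ℝ) ≤ |(n : ℝ) + 1 / 2| := by
  rcases le_or_gt 0 n with h | h
  · have : (0 : ℝ) ≤ n := by exact_mod_cast h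
    exact le_abs.2 (Or.inl (by linarith))
  · have : (n : ℝ) ≤ -1 := by exact_mod_cast Int.le_sub_one_of_lt h
    exact le_abs.2 (Or.inr (by linarith))

theorem edge_far (w g : GI) (hg : g = 1 ∨ g = gi) (x : ℝ) :
    (1 / 2 : ℝ) ≤ ‖(w : ℂ) + (1 + I) / 2 + x * (g : ℂ)‖ := by
  rcases hg with rfl | rfl
  · refine (half_le w.im).trans (le_trans (le_of_eq ?_) (abs_im_le_norm _))
    simp [GaussianInt.intCast_im]
  · refine (half_le w.re).trans (le_trans (le_of_eq ?_) (abs_re_le_norm _))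
    simp [GaussianInt.intCast_re, coe_gi]

theorem norm_g {g : GI} (hg : g = 1 ∨ g = gi) : ‖(g : ℂ)‖ = 1 := by
  rcases hg with rfl | rfl
  · simp
  · simp [coe_gi]

theorem seg_le {f : ℂ → ℂ} {a b : ℂ} {B : ℝ} (h : ∀ x : ℝ, ‖f (a + x * (b - a))‖ ≤ B) :
    ‖seg f a b‖ ≤ ‖b - a‖ * B := by
  rw [seg, norm_mul]
  gcongr
  simpa using intervalIntegral.norm_integral_le_of_norm_le_const (a := 0) (b := 1)
    (f := fun x : ℝ => f (a + x * (b - a))) fun x _ => h x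

theorem seg_sub {f : ℂ → ℂ} {a b k : ℂ} (h : Continuous fun x : ℝ => f (a + x * (b - a))) :
    seg f a b - (b - a) * k = seg (fun z => f z - k) a b := by
  rw [seg, seg, intervalIntegral.integral_sub (h.intervalIntegrable _ _) intervalIntegrable_const]
  simp [mul_sub]

theorem seg_per {f : ℂ → ℂ} {p : ℂ} (h : ∀ z, f (z + p) = f z) (a b : ℂ) :
    seg f (a + p) (b + p) = seg f a b := by
  simp only [seg, add_sub_add_right_eq_sub, add_right_comm a p, h]

theorem norm_av_sub_le (m : ℕ) {F : GI → ℂ} {a : ℂ} {e : ℝ} (h : ∀ u, ‖F u - a‖ ≤ e) :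
    ‖av m F - a‖ ≤ e := by
  have h1 := (norm_av_le m fun u => F u - a).trans (av_mono m h)
  rwa [av_sub, av_const, av_const] at h1

/-- The edge integral. -/
theorem edge {lam ps : ℂ → ℂ} {a μ l c : ℂ} {d t C : ℝ} (hc : ‖c‖ = d) (ht : 0 < t)
    (ht1 : 17 * t ≤ 1) (hC : C ^ 2 * t ≤ 1) (hd : d = t ^ 16) (hμ : ‖μ‖ ≤ t ^ 30)
    (hl : ‖l‖ ≤ t ^ 30) (h0 : Continuous fun x : ℝ => lam (a + x * Lm μ c))
    (h1 : ∀ x : ℝ, ‖lam (a + x * Lm μ c) - l‖ ≤ t ^ 31)
    (h2 : ∀ x : ℝ, ‖ps (a + x * Lm μ c)‖ ≤ C * d) :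
    ‖seg (fun z => exp (lam z)) a (a + Lm μ c)
      - conj (seg (fun z => ps z ^ 2 * exp (-lam z)) a (a + Lm μ c)) - c
      - (l * c + μ * conj c)‖ ≤ 17 * t ^ 31 * d := by
  have hp : ∀ {i j : ℕ}, i ≤ j → t ^ j ≤ t ^ i := fun h =>
    pow_le_pow_of_le_one ht.le (by linarith) h
  have h30 : t ^ 30 ≤ 1 / 17 := (hp (show 1 ≤ 30 by norm_num)).trans (by rw [pow_one]; linarith)
  have hd0 : 0 < d := hd ▸ pow_pos ht _
  have hL : ‖Lm μ c‖ ≤ 2 * d := hc ▸ norm_Lm_le (by linarith) c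
  have h3 : ∀ x : ℝ, ‖lam (a + x * Lm μ c)‖ ≤ 2 * t ^ 30 := fun x => by
    have := norm_le_norm_sub_add (lam (a + x * Lm μ c)) l
    linarith [h1 x, hp (show 30 ≤ 31 by norm_num)]
  have e : a + Lm μ c - a = Lm μ c := add_sub_cancel_left _ _
  have h4 : ‖seg (fun z => exp (lam z)) a (a + Lm μ c) - Lm μ c * (1 + l)‖
      ≤ 2 * d * (5 * t ^ 31) := by
    have := seg_sub (f := fun z => exp (lam z)) (a := a) (b := a + Lm μ c) (k := 1 + l)
      (by rw [e]; exact h0.cexp)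
    rw [e] at this
    rw [this]
    refine (seg_le (B := 5 * t ^ 31) fun x => ?_).trans (by rw [e]; gcongr)
    rw [e]
    have h5 := norm_exp_sub_one_sub_id_le (x := lam (a + x * Lm μ c)) (by linarith [h3 x])
    have h6 := norm_add_le (exp (lam (a + x * Lm μ c)) - 1 - lam (a + x * Lm μ c))
      (lam (a + x * Lm μ c) - l)
    have h7 : ‖lam (a + x * Lm μ c)‖ ^ 2 ≤ (2 * t ^ 30) ^ 2 := by gcongr; exact h3 x
    have h8 := hp (show 31 ≤ 60 by norm_num)
    rw [show exp (lam (a + x * Lm μ c)) - 1 - lam (a + x * Lm μ c) + (lam (a + x * Lm μ c) - l)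
      = exp (lam (a + x * Lm μ c)) - (1 + l) by ring] at h6
    nlinarith [h1 x]
  have h5 : ‖seg (fun z => ps z ^ 2 * exp (-lam z)) a (a + Lm μ c)‖ ≤ 2 * d * (3 * t ^ 31) := by
    refine (seg_le (B := 3 * t ^ 31) fun x => ?_).trans (by rw [e]; gcongr)
    rw [e, norm_mul, norm_pow]
    have h6 : ‖exp (-lam (a + x * Lm μ c))‖ ≤ 3 := by
      have h7 := norm_exp_sub_one_le (x := -lam (a + x * Lm μ c))
        (by rw [norm_neg]; linarith [h3 x])
      have h8 := norm_le_norm_sub_add (exp (-lam (a + x * Lm μ c))) 1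
      rw [norm_neg] at h7
      rw [norm_one] at h8
      linarith [h3 x]
    have h7 : ‖ps (a + x * Lm μ c)‖ ^ 2 ≤ (C * d) ^ 2 := by gcongr; exact h2 x
    have h8 : (C * d) ^ 2 ≤ t ^ 31 := by
      rw [hd, show (C * t ^ 16) ^ 2 = C ^ 2 * t * t ^ 31 by ring]
      exact mul_le_of_le_one_left (by positivity) hC
    calc _ ≤ t ^ 31 * 3 := by gcongr; exact h7.trans h8
      _ = _ := by ring
  have h6 : ‖l * μ * conj c‖ ≤ t ^ 31 * d := by
    rw [norm_mul, norm_mul, norm_conj, hc]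
    gcongr
    calc _ ≤ t ^ 30 * t ^ 30 := by gcongr
      _ = t ^ 60 := by ring
      _ ≤ _ := hp (by norm_num)
  rw [← norm_conj] at h5
  calc _ = ‖(seg (fun z => exp (lam z)) a (a + Lm μ c) - Lm μ c * (1 + l))
        - conj (seg (fun z => ps z ^ 2 * exp (-lam z)) a (a + Lm μ c)) + l * μ * conj c‖ := by
        congr 1
        simp only [Lm]
        ring
    _ ≤ _ := by
        refine (norm_add_le _ _).trans ?_
        have := norm_sub_le (seg (fun z => exp (lam z)) a (a + Lm μ c) - Lm μ c * (1 + l))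
          (conj (seg (fun z => ps z ^ 2 * exp (-lam z)) a (a + Lm μ c)))
        linarith

theorem big_le {S : Sys} {j : ℕ} (h : Big S j) (K : ℤ) : j ≤ mK S K :=
  (le_min (h _) (h _)).trans (Nat.le_add_right _ _)

theorem VV_add (S : Sys) (x : Cfg) (K : ℤ) (u g : GI) :
    VV S x K (u + g) = VV S x K u + Lm (x.μ K) ((lvF S K).c * g) := by
  rw [VV, VV, ← Lm_add, map_add]
  congr 1
  ring

end Aux1P

open Aux1P in
theorem pAux1 (hC1 : S_Cou1) (hC2 : S_Cou2) (hS : S_Shp) (hL : S_Lev) (hV : S_Vt) (hP : S_Par)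
    (hF : S_Flip) (hD : S_Dip) : S_Aux1 := by
  intro E
  obtain ⟨C1, j1, -, hC1⟩ := hC1 E
  obtain ⟨C2, j2, hC2', hC2⟩ := hC2 E
  obtain ⟨C3, j3, hC3', hS⟩ := hS E
  obtain ⟨C4, j4, -, hL⟩ := hL E
  obtain ⟨C5, j5, -, hV⟩ := hV E
  obtain ⟨j6, h6⟩ := exists_pow_mul_tt_le 4 (η := (28 * C2 + C3 ^ 2 + 17)⁻¹) (by positivity)
  refine ⟨3, j1 + j2 + j3 + j4 + j5 + j6 + 10, by norm_num, fun S x hok hbig hx => ?_⟩
  have hb : ∀ j, j ≤ j1 + j2 + j3 + j4 + j5 + j6 + 10 → Big S j := fun j h k => h.trans (hbig k)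
  have hLG := fun K => (hF E S hok K).2 x (hb 10 (by omega)) hx
  have hm : ∀ K, j1 + j2 + j3 + j4 + j5 + j6 + 10 ≤ mK S K := big_le hbig
  replace hC1 := hC1 S x hok (hb _ (by omega)) hx
  replace hC2 := hC2 S x hok (hb _ (by omega)) hx
  replace hS := fun K => hS _ _ _ (hLG K) (show j3 ≤ mK S K by have := hm K; omega)
  replace hL := fun K => hL _ _ _ (hLG K) (show j4 ≤ mK S K by have := hm K; omega)
  replace hV := fun K => hV _ _ _ (hLG K) (show j5 ≤ mK S K by have := hm K; omega)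
  replace hP := hP S hok
  have hnb : ∀ K K', K' = K - 1 ∨ K' = K + 1 → ∀ k ≤ 64,
      tt (mK S K') ^ k ≤ 4 * tt (mK S K) ^ k := by
    rintro K K' (rfl | rfl) k hk
    · exact tt_pow_le (by simpa using (hP (K - 1)).2.2.2.1) hk
    · exact tt_pow_le (hP K).2.2.1 hk
  have hsm : ∀ K, C2 * sm S x K ≤ tt (mK S K) ^ 31 ∧ C3 ^ 2 * tt (mK S K) ≤ 1 ∧
      17 * tt (mK S K) ≤ 1 := by
    intro K
    have h0 := tt_pos (mK S K)
    have h1 : (1 : ℝ) ≤ mK S K := by exact_mod_cast (show 1 ≤ mK S K by have := hm K; omega)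
    have h2 := h6 (mK S K) (by have := hm K; omega)
    rw [inv_eq_one_div, le_div_iff₀ (by positivity)] at h2
    have h3 : tt (mK S K) ≤ (mK S K : ℝ) ^ 4 * tt (mK S K) :=
      le_mul_of_one_le_left h0.le (one_le_pow₀ h1)
    have h4 : 0 ≤ (mK S K : ℝ) ^ 4 * tt (mK S K) := by positivity
    refine ⟨?_, by nlinarith [sq_nonneg C3], by nlinarith [sq_nonneg C3]⟩
    have h5 : b3 S x K ≤ 27 * tt (mK S K) ^ 16 := by
      have a1 : bK S x (K - 1) ≤ 3 * tt (mK S (K - 1)) ^ 20 := (hLG (K - 1)).bs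
      have a2 : bK S x K ≤ 3 * tt (mK S K) ^ 20 := (hLG K).bs
      have a3 : bK S x (K + 1) ≤ 3 * tt (mK S (K + 1)) ^ 20 := (hLG (K + 1)).bs
      have a4 : tt (mK S K) ^ 20 ≤ tt (mK S K) ^ 16 :=
        pow_le_pow_of_le_one h0.le (tt_le_one _) (by norm_num)
      unfold b3
      linarith [hnb K _ (Or.inl rfl) 20 (by norm_num), hnb K _ (Or.inr rfl) 20 (by norm_num)]
    have h7 : sm S x K ≤ 28 * ((mK S K : ℝ) ^ 4 * tt (mK S K)) * tt (mK S K) ^ 31 := by
      have a1 : (mK S K : ℝ) ^ 2 ≤ (mK S K : ℝ) ^ 4 := pow_le_pow_right₀ h1 (by norm_num)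
      unfold sm
      rw [← tt_pow_16]
      calc _ ≤ (mK S K : ℝ) ^ 4 * tt (mK S K) ^ 16 * (27 * tt (mK S K) ^ 16)
            + (mK S K : ℝ) ^ 4 * (tt (mK S K) ^ 16) ^ 2 := by
            gcongr
            exact add_nonneg (add_nonneg (hLG _).b0 (hLG _).b0) (hLG _).b0
        _ = _ := by ring
    calc _ ≤ C2 * (28 * ((mK S K : ℝ) ^ 4 * tt (mK S K)) * tt (mK S K) ^ 31) := by gcongr
      _ = (mK S K : ℝ) ^ 4 * tt (mK S K) * (28 * C2) * tt (mK S K) ^ 31 := by ring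
      _ ≤ _ := mul_le_of_le_one_left (by positivity) (by nlinarith [sq_nonneg C3])
  have hMM : ∀ K, ∀ u ∈ Nk (lvF S K),
      ‖MM E S x K u (pK S x K u)‖ ≤ 2 * tt (mK S K) ^ 30 := by
    intro K u hu
    have h0 : ‖pK S x K u - pK S x K u‖ ≤ rho (mK S K) * (3 / 4) := by
      have := dd_pos (mK S K)
      rw [sub_self, norm_zero, rho]
      positivity
    have h1 : lv E (lvF S K) (ls S x K) u (pK S x K u) = 0 := (hV K u hu).2.2.2.1
    rw [((hC1 K u hu).2.2.2.1 _ h0).1, h1, sub_zero]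
    have h2 := (hC2 K).2.1 u hu _ h0
    have h3 : tt (mK S K) ^ 31 ≤ tt (mK S K) ^ 30 :=
      pow_le_pow_of_le_one (tt_pos _).le (tt_le_one _) (by norm_num)
    linarith [norm_add_le (x.l K) (Mt E S x K (pK S x K u)), hx.lb K, (hsm K).1]
  have hMp : ∀ K, ∀ u ∈ Nk (lvF S K), ∀ w, MM E S x K (u + om ^ mK S K * w)
      (pK S x K (u + om ^ mK S K * w)) = MM E S x K u (pK S x K u) := fun K u hu w => by
    rw [← ((hC1 K u hu).2.2.2.2.2.1 w (pK S x K u)).1]
    congr 1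
    exact (hL K).2.2.2.2.2.1 u w
  have hMn : ∀ K, ∀ u ∈ Nk (lvF S K), MM E S x K (-u) (pK S x K (-u))
      = MM E S x K u (pK S x K u) := fun K u hu => by
    rw [← ((hC1 K u hu).2.2.2.2.1 (pK S x K u)).1]
    congr 1
    exact (hL K).2.2.2.2.2.2.1 u hu
  intro K
  have ht := tt_pos (mK S K)
  have hd := dd_pos (mK S K)
  obtain ⟨hs1, hs2, hs3⟩ := hsm K
  have hp : ∀ {i j : ℕ}, i ≤ j → tt (mK S K) ^ j ≤ tt (mK S K) ^ i := fun h =>
    pow_le_pow_of_le_one ht.le (tt_le_one _) h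
  obtain ⟨-, -, -, -, -, -, -, hc, ⟨w0, hw0, -⟩, -⟩ := hD _ (hP K).2.1
  obtain ⟨-, -, hq1, hq2, -⟩ := hD _ (hP K).1
  change ‖(lvF S K).c‖ = dd (mK S K) at hc
  change (lvF S K).c * ((om ^ mK S K : GI) : ℂ) = w0 at hw0
  have hm1 : (1 : ℝ) ≤ mK S K := by exact_mod_cast (show 1 ≤ mK S K by have := hm K; omega)
  have hrho : rho (mK S K) ≤ dd (mK S K) := div_le_self hd.le hm1
  have hμ : ‖x.μ K‖ ≤ 1 / 100 := by
    have := hp (show 2 ≤ 30 by norm_num)
    nlinarith [hx.mb K]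
  have hout : ∀ (u g : GI), g = 1 ∨ g = gi → ∀ (y r : ℝ), r ≤ dd (mK S K) / 5 →
      VV S x K u + y * Lm (x.μ K) ((lvF S K).c * g) ∈ Out (Nk (lvF S K)) (pK S x K) r := by
    intro u g hg y r hr u' _
    have h1 : ‖(ls S x K).ε u'‖ ≤ rho (mK S K) / 1000 := ((hL K).1 u').2.1
    have h2 := norm_Lm_ge hμ ((lvF S K).c * (((u - u' : GI) : ℂ) + (1 + I) / 2 + y * (g : ℂ)))
    have h3 : Lm (x.μ K) ((lvF S K).c * (((u - u' : GI) : ℂ) + (1 + I) / 2 + y * (g : ℂ)))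
        = VV S x K u + y * Lm (x.μ K) ((lvF S K).c * g) - pK S x K u' + (ls S x K).ε u' := by
      change _ = _ - (Lm (x.μ K) ((lvF S K).c * u') + _) + _
      simp only [VV, Lm, map_mul, map_add, map_sub, conj_ofReal]
      ring
    rw [h3, norm_mul, hc] at h2
    have h4 := norm_add_le (VV S x K u + y * Lm (x.μ K) ((lvF S K).c * g) - pK S x K u')
      ((ls S x K).ε u')
    nlinarith [edge_far (u - u') g hg y]
  obtain ⟨κ, -, hψ, -⟩ := hS K
  have hE : ∀ (u g : GI), g = 1 ∨ g = gi →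
      ‖Th E S x K (VV S x K u) (VV S x K (u + g)) - (lvF S K).c * g
        - (x.l K * ((lvF S K).c * g) + x.μ K * conj ((lvF S K).c * g))‖
        ≤ 17 * tt (mK S K) ^ 31 * dd (mK S K) := by
    intro u g hg
    rw [VV_add]
    refine edge (lam := lam E S x K) (ps := psK E S x K) (C := C3)
      (by rw [norm_mul, hc, norm_g hg, mul_one]) ht hs3 hs2 (tt_pow_16 _).symm (hx.mb K) (hx.lb K)
      ((hC2 K).2.2.2.1.continuousOn.comp_continuous (by fun_prop) fun y => hout u g hg y _ ?_)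
      (fun y => ((hC2 K).2.2.2.2.1 _ (hout u g hg y _ (by linarith))).trans hs1)
      fun y => (hψ _ (hout u g hg y _ le_rfl)).1
    unfold rho1
    nlinarith
  have hI1 : ∀ u, ‖I1 E S x K u - (x.l K * (lvF S K).c + x.μ K * conj (lvF S K).c)‖
      ≤ 17 * tt (mK S K) ^ 31 * dd (mK S K) := fun u => by
    simpa [I1] using hE u 1 (Or.inl rfl)
  have hI2 : ∀ u, ‖I2 E S x K u - I * (x.l K * (lvF S K).c - x.μ K * conj (lvF S K).c)‖
      ≤ 17 * tt (mK S K) ^ 31 * dd (mK S K) := fun u => by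
    refine le_trans (le_of_eq ?_) (hE u gi (Or.inr rfl))
    congr 1
    simp only [I2, coe_gi, map_mul, conj_I]
    ring
  have h17 : 17 * tt (mK S K) ^ 31 ≤ tt (mK S K) ^ 30 := by
    rw [show 17 * tt (mK S K) ^ 31 = 17 * tt (mK S K) * tt (mK S K) ^ 30 by ring]
    exact mul_le_of_le_one_left (by positivity) hs3
  have h18 : 17 * tt (mK S K) ^ 31 * dd (mK S K) ≤ tt (mK S K) ^ 30 * dd (mK S K) := by gcongr
  have hA1 := norm_av_sub_le (mK S K) hI1
  have hA2 := norm_av_sub_le (mK S K) hI2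
  have hc0 : (lvF S K).c ≠ 0 := norm_ne_zero_iff.1 (by rw [hc]; exact hd.ne')
  have hc1 : conj (lvF S K).c ≠ 0 := (map_ne_zero _).2 hc0
  have hper : ∀ g : GI, Per (mK S K) fun u => Th E S x K (VV S x K u) (VV S x K (u + g)) := by
    intro g u w
    have h1 : (lvF S K).c * ((om ^ mK S K * w : GI) : ℂ) = ((w0 * w : GI) : ℂ) := by
      rw [map_mul, map_mul, ← hw0, mul_assoc]
    have h2 : ∀ z, lam E S x K (z + Lm (x.μ K) ((w0 * w : GI) : ℂ)) = lam E S x K z :=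
      fun z => ((hC2 K).2.2.2.2.2.2.2 z).2 _
    have h3 : ∀ z, psK E S x K (z + Lm (x.μ K) ((w0 * w : GI) : ℂ)) = psK E S x K z :=
      fun z => (((hL K).2.2.2.2.2.2.2.1 z).2.2 _).1
    simp only [add_right_comm u _ g, VV_add S x K _ (om ^ mK S K * w), h1, Th]
    rw [seg_per (fun z => by simp only [F1, h2]), seg_per (fun z => by simp only [F2, h2, h3])]
  have hlc : ‖x.l K * (lvF S K).c‖ ≤ tt (mK S K) ^ 30 * dd (mK S K) := by
    rw [norm_mul, hc]; gcongr; exact hx.lb K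
  have hmc : ‖x.μ K * conj (lvF S K).c‖ ≤ tt (mK S K) ^ 30 * dd (mK S K) := by
    rw [norm_mul, norm_conj, hc]; gcongr; exact hx.mb K
  refine ⟨?_, ?_, fun u w => congrArg (· - _) (hper 1 u w), fun u w => congrArg (· - _) (hper gi u w),
    fun u w => ?_, fun u => ⟨?_, ?_, ?_, ?_⟩⟩
  · have h1 : lamN E S x K = -((av (mK S K) (I1 E S x K)
        - (x.l K * (lvF S K).c + x.μ K * conj (lvF S K).c)) - I * (av (mK S K) (I2 E S x K)
        - I * (x.l K * (lvF S K).c - x.μ K * conj (lvF S K).c))) / (2 * (lvF S K).c) := by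
      rw [lamN]
      field_simp
      linear_combination (x.l K * (lvF S K).c - x.μ K * conj (lvF S K).c) * I_mul_I
    rw [h1, norm_div, norm_neg, norm_mul, hc, Complex.norm_two, div_le_iff₀ (by positivity)]
    refine (norm_sub_le _ _).trans ?_
    rw [norm_mul, norm_I]
    linarith
  · have h1 : muN E S x K = -((av (mK S K) (I1 E S x K)
        - (x.l K * (lvF S K).c + x.μ K * conj (lvF S K).c)) + I * (av (mK S K) (I2 E S x K)
        - I * (x.l K * (lvF S K).c - x.μ K * conj (lvF S K).c))) / (2 * conj (lvF S K).c) := by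
      rw [muN]
      field_simp
      linear_combination (-(x.l K * (lvF S K).c - x.μ K * conj (lvF S K).c)) * I_mul_I
    rw [h1, norm_div, norm_neg, norm_mul, norm_conj, hc, Complex.norm_two,
      div_le_iff₀ (by positivity)]
    refine (norm_add_le _ _).trans ?_
    rw [norm_mul, norm_I]
    linarith
  · have h1 : q0 (lvT S K) (u + om ^ mK S K * w) = q0 (lvT S K) u := hq1 u w
    have h2 : ot S K (u + om ^ mK S K * w) = ot S K u := by simp only [ot, h1]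
    by_cases h0 : q0 (lvT S K) u = 0
    · simp only [sN, h1, if_pos h0]
    · obtain ⟨h3, -, -, -, -, -, -, -, h4, -⟩ := (hP K).2.2.2.2.2.1 u h0
      obtain ⟨w', h4⟩ := h4 w
      simp only [sN, h1, if_neg h0, h2, h4]
      rw [hMp K u h0, hMp _ _ (show q0 (lvT S _) _ ≠ 0 by rw [h3]; exact neg_ne_zero.2 h0)]
  · linarith [norm_le_norm_sub_add (I1 E S x K u)
      (x.l K * (lvF S K).c + x.μ K * conj (lvF S K).c), hI1 u,
      norm_add_le (x.l K * (lvF S K).c) (x.μ K * conj (lvF S K).c)]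
  · have h1 := norm_le_norm_sub_add (I2 E S x K u)
      (I * (x.l K * (lvF S K).c - x.μ K * conj (lvF S K).c))
    rw [norm_mul, norm_I] at h1
    linarith [hI2 u, norm_sub_le (x.l K * (lvF S K).c) (x.μ K * conj (lvF S K).c)]
  · by_cases h0 : q0 (lvT S K) u = 0
    · simp only [sN, if_pos h0, norm_zero]
      positivity
    · obtain ⟨h3, -⟩ := (hP K).2.2.2.2.2.1 u h0
      simp only [sN, if_neg h0]
      have h4 := hMM K u h0
      have h5 := hMM _ _ (show q0 (lvT S _) _ ≠ 0 by rw [h3]; exact neg_ne_zero.2 h0)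
      have h7 := hnb K (ot S K u) (by unfold ot; split_ifs <;> simp) 30 (by norm_num)
      have h8 : 17 * tt (mK S K) ^ 30 ≤ tt (mK S K) ^ 29 := by
        rw [show 17 * tt (mK S K) ^ 30 = 17 * tt (mK S K) * tt (mK S K) ^ 29 by ring]
        exact mul_le_of_le_one_left (by positivity) hs3
      have h9 : 0 ≤ tt (mK S K) ^ 30 := by positivity
      refine (norm_add_le _ _).trans ?_
      linarith
  · have h1 : q0 (lvT S K) (-u) = q0 (lvT S K) u := (hq2 u).1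
    have h2 : ot S K (-u) = ot S K u := by simp only [ot, h1]
    by_cases h0 : q0 (lvT S K) u = 0
    · simp only [sN, h1, if_pos h0]
    · obtain ⟨h3, -, -, -, -, h4, -⟩ := (hP K).2.2.2.2.2.1 u h0
      simp only [sN, h1, if_neg h0, h2, h4]
      rw [hMn K u h0, hMn _ _ (show q0 (lvT S _) _ ≠ 0 by rw [h3]; exact neg_ne_zero.2 h0)]

end Pool.Agent.P.MP_cc4a10_gt
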