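import Pool.Agent.P.MP_cc4a10_gt.Aux2D

/-!
Package Aux2: periodicity and size of `xi1`.
-/

open Set Filter Topology Complex Metric
open scoped ComplexConjugate Real

noncomputable section

namespace Pool.Agent.P.MP_cc4a10_gt

namespace Aux2P

variable {E : Ell} {S : Sys} {x : Cfg} {C : ℝ}

theorem Fa.xi (h : Fa E S x C) (hPar : S_Par) (hS : S.ok) (K : ℤ) (u : GI) :
    ‖xi1 E S x K u‖ ≤ (1 + (2 * C + 3 * (C + 50) ^ 2) + (C + 1088))
      * dd (mK S K) * tt (mK S K) ^ 30 := by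
  have hd := dd_pos (mK S K)
  have ht := tt_pos (mK S K)
  have hC := h.C1
  unfold xi1
  split_ifs with hu
  · rw [norm_zero]; positivity
  have hu' : u ∈ Nk (lvF S K) := hu
  have a1 := h.th K hu' (a := 1) (Or.inl rfl)
  have a2 := h.th K hu' (a := -1) (Or.inr rfl)
  have a3 := h.ii hPar hS K hu' (a := 1) (Or.inl rfl)
  have a4 := h.ii hPar hS K hu' (a := -1) (Or.inr rfl)
  have a5 := h.mu_le K
  have a6 := VV_sub (S := S) (x := x) K u
  set T1 := Th E S x K (VV S x K u) (zP S x K u 1)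
  set T2 := Th E S x K (VV S x K u) (zP S x K u (-1))
  set c := (lvF S K).c
  set r1 : ℂ := ((1 * rho (mK S K) / 4 / dd (mK S K) : ℝ) : ℂ) * c with hr1
  set r2 : ℂ := ((-1 * rho (mK S K) / 4 / dd (mK S K) : ℝ) : ℂ) * c with hr2
  have z1 : zP S x K u 1 = pK S x K u + r1 := rfl
  have z2 : zP S x K u (-1) = pK S x K u + r2 := rfl
  have e : c * ((1 + I) / 2) - (ls S x K).ε u + (T1 - II E S x K u 1 + (T2 - II E S x K u (-1))) / 2
      = -(x.μ K * conj (c * ((1 + I) / 2))) + (((T1 - (zP S x K u 1 - VV S x K u))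
        - (II E S x K u 1 - r1)) + ((T2 - (zP S x K u (-1) - VV S x K u))
        - (II E S x K u (-1) - r2))) / 2 := by
    rw [z1, z2]
    linear_combination -a6
  rw [e]
  refine (norm_add_le _ _).trans ?_
  rw [norm_neg, norm_div, Complex.norm_two]
  have b1 := norm_add_le ((T1 - (zP S x K u 1 - VV S x K u)) - (II E S x K u 1 - r1))
    ((T2 - (zP S x K u (-1) - VV S x K u)) - (II E S x K u (-1) - r2))
  have b2 := norm_sub_le (T1 - (zP S x K u 1 - VV S x K u)) (II E S x K u 1 - r1)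
  have b3 := norm_sub_le (T2 - (zP S x K u (-1) - VV S x K u)) (II E S x K u (-1) - r2)
  linarith

theorem Lm_add (μ a b : ℂ) : Lm μ (a + b) = Lm μ a + Lm μ b := by
  simp only [Lm, map_add]; ring

theorem per (hC1 : S_Cou1) (hC2 : S_Cou2) (hLev : S_Lev) (hVt : S_Vt) (hPar : S_Par)
    (hFlip : S_Flip) (hDip : S_Dip) (E : Ell) : ∃ j1 : ℕ, ∀ (S : Sys) (x : Cfg), S.ok →
    Big S j1 → XX S x → ∀ K, Per (mK S K) (xi1 E S x K) := by
  obtain ⟨C1, j1, -, h1⟩ := hC1 E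
  obtain ⟨C2, j2, -, h2⟩ := hC2 E
  obtain ⟨C4, m4, -, h4⟩ := hLev E
  obtain ⟨C5, m5, -, h5⟩ := hVt E
  refine ⟨10 + j1 + j2 + m4 + m5, fun S x hS hB hx K u w => ?_⟩
  have hB' : ∀ j, j ≤ 10 + j1 + j2 + m4 + m5 → Big S j := fun j hj k => hj.trans (hB k)
  have hm := mK_ge hB
  have hLG : ∀ K, LG (lvF S K) (ls S x K) (bK S x K) := fun K =>
    (hFlip E S hS K).2 x (hB' 10 (by omega)) hx
  have hL : ∀ K, _ := fun K => h4 _ _ _ (hLG K) (show m4 ≤ mK S K by have := hm K; omega)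
  have hD : ∀ K, _ := fun K => hDip _ (hLG K).ok
  have hV : ∀ K, _ := fun K => h5 _ _ _ (hLG K) (show m5 ≤ mK S K by have := hm K; omega)
  have hK1 := h1 S x hS (hB' j1 (by omega)) hx
  have hK2 := h2 S x hS (hB' j2 (by omega)) hx
  have hq : q0 (lvT S K) (u + om ^ mK S K * w) = q0 (lvT S K) u := (hD K).2.2.1 u w
  have hp : ∀ L u w, pK S x L (u + om ^ mK S L * w) = pK S x L u + prd S x L w :=
    fun L u w => (hL L).2.2.2.2.2.1 u w
  have hz : ∀ L u w a, zP S x L (u + om ^ mK S L * w) a = zP S x L u a + prd S x L w :=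
    fun L u w a => by unfold zP; rw [hp]; ring
  have hv : ∀ L, ∀ u ∈ Nk (lvF S L), ∀ w a, vK E S x L (u + om ^ mK S L * w)
      (zP S x L (u + om ^ mK S L * w) a) = vK E S x L u (zP S x L u a) := fun L u hu w a => by
    rw [hz]; exact ((hV L u hu).2.2.2.2.2.2.2 w _).1
  unfold xi1
  rw [hq]
  split_ifs with hu
  · rfl
  have hu' : u ∈ Nk (lvF S K) := hu
  have hε : (ls S x K).ε (u + om ^ mK S K * w) = (ls S x K).ε u := (hLG K).lv.pe u w
  have hσ : (ls S x K).σ (u + om ^ mK S K * w) = (ls S x K).σ u := (hLG K).lv.ps u w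
  have hVV : VV S x K (u + om ^ mK S K * w) = VV S x K u + prd S x K w := by
    unfold VV prd
    rw [← Lm_add, map_add]; congr 1; ring
  obtain ⟨w0, hw0, -⟩ := (hD K).2.2.2.2.2.2.2.2.1
  have hprd : prd S x K w = Lm (x.μ K) ((w0 * w : GI) : ℂ) := by
    unfold prd
    rw [map_mul, map_mul, ← mul_assoc]
    exact congrArg (fun a => Lm (x.μ K) (a * (w : ℂ))) hw0
  have hlam : ∀ z, lam E S x K (z + prd S x K w) = lam E S x K z := fun z => by
    rw [hprd]; exact ((hK2 K).2.2.2.2.2.2.2 z).2 _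
  have hps : ∀ z, psK E S x K (z + prd S x K w) = psK E S x K z := fun z => by
    rw [hprd]; exact (((hL K).2.2.2.2.2.2.2.1 z).2.2 _).1
  have hTh : ∀ a, Th E S x K (VV S x K (u + om ^ mK S K * w)) (zP S x K (u + om ^ mK S K * w) a)
      = Th E S x K (VV S x K u) (zP S x K u a) := fun a => by
    unfold Th
    rw [hVV, hz, seg_shift (f := F1 E S x K) (fun z => by unfold F1; rw [hlam]),
      seg_shift (f := F2 E S x K) (fun z => by unfold F2; rw [hlam, hps])]
  have hot : ot S K (u + om ^ mK S K * w) = ot S K u := by unfold ot; rw [hq]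
  have htn : tn S x K (u + om ^ mK S K * w) = tn S x K u := by
    have hq' : q0 (lvF S K) (u + om ^ mK S K * w) = q0 (lvF S K) u := hq
    unfold tn qK qq
    rw [hq', hσ, hx.sp K u w]
  obtain ⟨p1, -, -, -, -, -, -, -, p9, -⟩ := (hPar S hS K).2.2.2.2.2.1 u hu
  obtain ⟨w', hw'⟩ := p9 w
  have hpu : par S K u ∈ Nk (lvF S (ot S K u)) := by
    change q0 (lvT S (ot S K u)) (par S K u) ≠ 0
    rw [p1]; exact neg_ne_zero.2 hu
  have hII : ∀ a, II E S x K (u + om ^ mK S K * w) a = II E S x K u a := fun a => by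
    have hN : ∀ y, Nf E S x K (u + om ^ mK S K * w) y = Nf E S x K u y := fun y =>
      ((hK1 K u hu').2.2.2.2.2.1 w y).2.2
    unfold II
    simp only [hN]
    rw [htn, hot, hw', hv _ _ hpu, hv _ _ hu']
  rw [hε, hTh, hTh, hII, hII]

end Aux2P

theorem pAux2 (hC1 : S_Cou1) (hC2 : S_Cou2) (hShp : S_Shp) (hLev : S_Lev) (hVt : S_Vt)
    (hInv : S_Inv) (hPar : S_Par) (hFlip : S_Flip) (hDip : S_Dip) : S_Aux2 := by
  intro E
  obtain ⟨C, j1, h1⟩ := Aux2P.fa hC1 hC2 hShp hLev hVt hInv hPar hFlip hDip E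
  obtain ⟨j2, h2⟩ := Aux2P.per hC1 hC2 hLev hVt hPar hFlip hDip E
  refine ⟨1 + (2 * |C| + 3 * (|C| + 50) ^ 2) + (|C| + 1088), j1 + j2, by positivity,
    fun S x hS hB hx K => ?_⟩
  have h := h1 S x hS (fun k => le_trans (by omega) (hB k)) hx
  refine ⟨h2 S x hS (fun k => le_trans (by omega) (hB k)) hx K, fun u => ?_⟩
  rw [abs_of_pos (by linarith [h.C1])]
  exact h.xi hPar hS K u

end Pool.Agent.P.MP_cc4a10_gt
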