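import Pool.Agent.P.MP_cc4a10_gt.St

/-!
Package Aux2, part A: segment integrals and the integral through a neck.
-/

open Set Filter Topology Complex Metric
open scoped ComplexConjugate Real

noncomputable section

namespace Pool.Agent.P.MP_cc4a10_gt.Aux2P

theorem seg_shift {f : ℂ → ℂ} {P : ℂ} (h : ∀ z, f (z + P) = f z) (a b : ℂ) :
    seg f (a + P) (b + P) = seg f a b := by
  unfold seg
  have e : b + P - (a + P) = b - a := by ring
  rw [e]
  congr 1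
  refine intervalIntegral.integral_congr fun s _ => ?_
  rw [show a + P + s * (b - a) = a + s * (b - a) + P by ring, h]

theorem norm_seg_le {f : ℂ → ℂ} {a b : ℂ} {η : ℝ}
    (h : ∀ s ∈ Icc (0 : ℝ) 1, ‖f (a + s * (b - a))‖ ≤ η) : ‖seg f a b‖ ≤ ‖b - a‖ * η := by
  unfold seg
  rw [norm_mul]
  gcongr
  have := intervalIntegral.norm_integral_le_of_norm_le_const (a := 0) (b := 1) (C := η)
    (f := fun s : ℝ => f (a + s * (b - a))) (fun s hs => h s (by
      rw [uIoc_of_le zero_le_one] at hs; exact Ioc_subset_Icc_self hs))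
  simpa using this

theorem cont_path (a b : ℂ) : Continuous (fun s : ℝ => a + s * (b - a)) := by fun_prop

theorem seg_sub {f g : ℂ → ℂ} {a b : ℂ}
    (hf : ContinuousOn (fun s : ℝ => f (a + s * (b - a))) (Icc 0 1))
    (hg : ContinuousOn (fun s : ℝ => g (a + s * (b - a))) (Icc 0 1)) :
    seg f a b - seg g a b = seg (fun z => f z - g z) a b := by
  unfold seg
  rw [← mul_sub, intervalIntegral.integral_sub (hf.intervalIntegrable_of_Icc zero_le_one)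
    (hg.intervalIntegrable_of_Icc zero_le_one)]

theorem seg_one (a b : ℂ) : seg (fun _ => 1) a b = b - a := by
  simp [seg]

theorem seg_sub_le {f : ℂ → ℂ} {a b : ℂ} {η : ℝ}
    (hf : ContinuousOn (fun s : ℝ => f (a + s * (b - a))) (Icc 0 1))
    (h : ∀ s ∈ Icc (0 : ℝ) 1, ‖f (a + s * (b - a)) - 1‖ ≤ η) :
    ‖seg f a b - (b - a)‖ ≤ ‖b - a‖ * η := by
  have e := seg_sub (g := fun _ => 1) hf continuousOn_const
  rw [seg_one] at e
  rw [e]
  exact norm_seg_le h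

theorem seg_eq_sub {f P : ℂ → ℂ} {a b : ℂ}
    (hf : ContinuousOn (fun s : ℝ => f (a + s * (b - a))) (Icc 0 1))
    (h : ∀ s ∈ Icc (0 : ℝ) 1, HasDerivAt P (f (a + s * (b - a))) (a + s * (b - a))) :
    seg f a b = P b - P a := by
  unfold seg
  rw [← intervalIntegral.integral_const_mul]
  have hd : ∀ s ∈ uIcc (0 : ℝ) 1, HasDerivAt (fun s : ℝ => P (a + s * (b - a)))
      ((b - a) * f (a + s * (b - a))) s := by
    intro s hs
    rw [uIcc_of_le zero_le_one] at hs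
    have h1 : HasDerivAt (fun w : ℂ => a + w * (b - a)) (b - a) (s : ℂ) := by
      simpa using ((hasDerivAt_id (s : ℂ)).mul_const (b - a)).const_add a
    have h2 := (h s hs).comp (s : ℂ) h1
    have h3 := h2.comp_ofReal
    simpa [mul_comm] using h3
  have hi : IntervalIntegrable (fun s : ℝ => (b - a) * f (a + s * (b - a))) MeasureTheory.volume 0 1 :=
    (continuousOn_const.mul hf).intervalIntegrable_of_Icc zero_le_one
  have := intervalIntegral.integral_eq_sub_of_hasDerivAt hd hi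
  simpa using this

theorem path_norm_le {y0 y1 : ℂ} {R : ℝ} (h0 : ‖y0‖ ≤ R) (h1 : ‖y1‖ ≤ R) {s : ℝ}
    (hs : s ∈ Icc (0 : ℝ) 1) : ‖y0 + s * (y1 - y0)‖ ≤ R := by
  have e : y0 + s * (y1 - y0) = ((1 - s : ℝ) : ℂ) * y0 + (s : ℂ) * y1 := by push_cast; ring
  rw [e]
  refine (norm_add_le _ _).trans ?_
  rw [norm_mul, norm_mul, norm_real, norm_real, Real.norm_of_nonneg (by linarith [hs.2]),
    Real.norm_of_nonneg hs.1]
  nlinarith [hs.1, hs.2]

theorem path_norm_ge {y0 y1 : ℂ} (ha : ‖y0‖ * ‖y1‖ / 2 ≤ (y0 * conj y1).re)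
    (h2 : 2 * ‖y0‖ ≤ ‖y1‖) {s : ℝ} (hs : s ∈ Icc (0 : ℝ) 1) :
    ‖y0‖ ≤ ‖y0 + s * (y1 - y0)‖ ∧ s * ‖y1‖ ≤ ‖y0 + s * (y1 - y0)‖ := by
  have e : ‖y0 + s * (y1 - y0)‖ ^ 2 = (1 - s) ^ 2 * ‖y0‖ ^ 2 + s ^ 2 * ‖y1‖ ^ 2
      + 2 * (s * (1 - s)) * (y0 * conj y1).re := by
    simp only [Complex.sq_norm, normSq_apply, add_re, add_im, mul_re, mul_im, sub_re, sub_im,
      ofReal_re, ofReal_im, conj_re, conj_im]
    ring
  have hA := norm_nonneg y0
  have hB := norm_nonneg y1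
  have hs0 := hs.1
  have hs1 : 0 ≤ 1 - s := by linarith [hs.2]
  have hss : 0 ≤ s * (1 - s) := mul_nonneg hs0 hs1
  have hAB : ‖y0‖ ^ 2 ≤ (y0 * conj y1).re := by nlinarith
  have hB2 : ‖y0‖ ^ 2 ≤ ‖y1‖ ^ 2 := by nlinarith
  constructor
  · apply le_of_sq_le_sq _ (norm_nonneg _) |> fun h => h
    rw [e]
    have h3 : s ^ 2 * ‖y0‖ ^ 2 ≤ s ^ 2 * ‖y1‖ ^ 2 := by gcongr
    have h4 : 2 * (s * (1 - s)) * ‖y0‖ ^ 2 ≤ 2 * (s * (1 - s)) * (y0 * conj y1).re := by gcongr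
    nlinarith
  · apply le_of_sq_le_sq _ (norm_nonneg _) |> fun h => h
    rw [e]
    have h4 : 0 ≤ 2 * (s * (1 - s)) * (y0 * conj y1).re :=
      mul_nonneg (by linarith) (le_trans (sq_nonneg _) hAB)
    nlinarith [sq_nonneg ((1 - s) * ‖y0‖)]

theorem int_inv_lin {A B : ℝ} (hA : 0 < A) (hB : 0 < B) :
    ∫ s in (0 : ℝ)..1, 1 / (A + s * B) = Real.log (1 + B / A) / B := by
  have hd : ∀ s ∈ uIcc (0 : ℝ) 1, HasDerivAt (fun s : ℝ => Real.log (A + s * B) / B)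
      (1 / (A + s * B)) s := by
    intro s hs
    rw [uIcc_of_le zero_le_one] at hs
    have hp : 0 < A + s * B := by nlinarith [hs.1]
    have h1 : HasDerivAt (fun s : ℝ => A + s * B) B s := by
      simpa using ((hasDerivAt_id s).mul_const B).const_add A
    have h2 := (h1.log hp.ne').div_const B
    have e : B / (A + s * B) / B = 1 / (A + s * B) := by field_simp
    rwa [e] at h2
  have hc : ContinuousOn (fun s : ℝ => 1 / (A + s * B)) (Icc 0 1) := by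
    refine continuousOn_const.div (by fun_prop) fun s hs => ?_
    have : 0 < A + s * B := by nlinarith [hs.1]
    exact this.ne'
  rw [intervalIntegral.integral_eq_sub_of_hasDerivAt hd (hc.intervalIntegrable_of_Icc zero_le_one)]
  have e : 1 + B / A = (A + B) / A := by field_simp
  rw [e, Real.log_div (by positivity) hA.ne']
  simp only [one_mul, zero_mul, add_zero]
  ring

theorem schwarz {m2 : ℂ → ℂ} {ρ : ℝ} (hρ : 0 < ρ)
    (hd : DifferentiableOn ℂ m2 (ball 0 (ρ * (49 / 100))))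
    (hb : ∀ y, ‖y‖ ≤ ρ * (45 / 100) → ‖m2 y‖ ≤ 1 / 1000) {w : ℂ} (hw : ‖w‖ < ρ * (45 / 100)) :
    ‖m2 w - m2 0‖ ≤ ‖w‖ / (200 * ρ) := by
  have h := Complex.dist_le_div_mul_dist_of_mapsTo_ball (f := m2) (c := 0) (z := w)
    (R₁ := ρ * (45 / 100)) (R₂ := 2 / 1000) (hd.mono (ball_subset_ball (by linarith)))
    (fun y hy => by
      rw [mem_closedBall, dist_eq_norm]
      have h1 := hb y (mem_ball_zero_iff.1 hy).le
      have h2 := hb 0 (by simp; positivity)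
      linarith [norm_sub_le (m2 y) (m2 0)]) (mem_ball_zero_iff.2 hw)
  rw [dist_eq_norm, dist_zero_right] at h
  refine h.trans ?_
  rw [div_mul_eq_mul_div, div_le_div_iff₀ (by positivity) (by positivity)]
  nlinarith [mul_nonneg (norm_nonneg w) hρ.le]

theorem norm_exp_le_two {z : ℂ} (h : ‖z‖ ≤ 1 / 1000) : ‖exp z‖ ≤ 2 := by
  have h1 := Complex.norm_exp_sub_one_le (x := z) (by linarith)
  have h2 := norm_add_le (exp z - 1) 1
  simp only [sub_add_cancel, norm_one] at h2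
  linarith

/-- The second factor of the neck integrand contributes a small error. -/
theorem neck_err {m1 m2 : ℂ → ℂ} {ρ ρ' : ℝ} {t y0 y1 : ℂ} (hρ' : 0 < ρ')
    (hd1 : DifferentiableOn ℂ m1 (ball 0 (ρ * (49 / 100))))
    (hb1 : ∀ y, ‖y‖ ≤ ρ * (45 / 100) → ‖m1 y‖ ≤ 1 / 1000)
    (hd2 : DifferentiableOn ℂ m2 (ball 0 (ρ' * (49 / 100))))
    (hb2 : ∀ y, ‖y‖ ≤ ρ' * (45 / 100) → ‖m2 y‖ ≤ 1 / 1000)
    (h0 : y0 ≠ 0) (ha : ‖y0‖ * ‖y1‖ / 2 ≤ (y0 * conj y1).re) (h2 : 2 * ‖y0‖ ≤ ‖y1‖)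
    (h1 : ‖y1‖ ≤ ρ * (45 / 100)) (ht : ‖t‖ ≤ ρ' * (40 / 100) * ‖y0‖) :
    ‖seg (fun y => exp (m1 y - (m2 (t / y) - m2 0))) y0 y1 - seg (fun y => exp (m1 y)) y0 y1‖
      ≤ ‖t‖ / ρ' * Real.log (1 + ‖y1‖ / ‖y0‖) := by
  have hA : 0 < ‖y0‖ := norm_pos_iff.2 h0
  have hB : 0 < ‖y1‖ := by linarith
  have hρ : 0 < ρ := by linarith
  have hle : ∀ s ∈ Icc (0 : ℝ) 1, ‖y0 + s * (y1 - y0)‖ ≤ ρ * (45 / 100) := fun s hs =>
    path_norm_le (by linarith) h1 hs
  have hpos : ∀ s ∈ Icc (0 : ℝ) 1, 0 < ‖y0 + s * (y1 - y0)‖ := fun s hs =>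
    hA.trans_le (path_norm_ge ha h2 hs).1
  have hw : ∀ s ∈ Icc (0 : ℝ) 1, ‖t / (y0 + s * (y1 - y0))‖ ≤ ρ' * (40 / 100) := fun s hs => by
    rw [norm_div, div_le_iff₀ (hpos s hs)]
    refine ht.trans ?_
    gcongr
    exact (path_norm_ge ha h2 hs).1
  have c1 : ContinuousOn (fun s : ℝ => m1 (y0 + s * (y1 - y0))) (Icc 0 1) :=
    hd1.continuousOn.comp (cont_path y0 y1).continuousOn fun s hs =>
      mem_ball_zero_iff.2 ((hle s hs).trans_lt (by linarith))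
  have c2 : ContinuousOn (fun s : ℝ => m2 (t / (y0 + s * (y1 - y0)))) (Icc 0 1) :=
    hd2.continuousOn.comp (continuousOn_const.div (cont_path y0 y1).continuousOn
      fun s hs => norm_pos_iff.1 (hpos s hs)) fun s hs =>
      mem_ball_zero_iff.2 ((hw s hs).trans_lt (by linarith))
  rw [seg_sub (f := fun y => exp (m1 y - (m2 (t / y) - m2 0))) (g := fun y => exp (m1 y))
    ((c1.sub (c2.sub continuousOn_const)).cexp) c1.cexp]
  unfold seg
  have hK : 0 ≤ ‖t‖ / (25 * ρ') := by positivity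
  have hc : ContinuousOn (fun s : ℝ => ‖t‖ / (25 * ρ') * (1 / (‖y0‖ + s * ‖y1‖))) (Icc 0 1) := by
    refine continuousOn_const.mul (continuousOn_const.div (by fun_prop) fun s hs => ?_)
    have : 0 < ‖y0‖ + s * ‖y1‖ := by nlinarith [hs.1]
    exact this.ne'
  have hI := intervalIntegral.norm_integral_le_of_norm_le (μ := MeasureTheory.volume)
    (f := fun s : ℝ => exp (m1 (y0 + s * (y1 - y0)) - (m2 (t / (y0 + s * (y1 - y0))) - m2 0))
      - exp (m1 (y0 + s * (y1 - y0)))) (g := fun s : ℝ => ‖t‖ / (25 * ρ') * (1 / (‖y0‖ + s * ‖y1‖)))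
    zero_le_one (Eventually.of_forall fun s hs => by
      have hs' := Ioc_subset_Icc_self hs
      set y := y0 + s * (y1 - y0) with hy
      have e1 := schwarz hρ' hd2 hb2 (w := t / y) ((hw s hs').trans_lt (by linarith))
      have e2 : ‖m2 (t / y) - m2 0‖ ≤ 1 := by
        refine e1.trans ?_
        rw [div_le_one (by positivity)]
        linarith [hw s hs']
      have e3 := Complex.norm_exp_sub_one_le (x := -(m2 (t / y) - m2 0)) (by rwa [norm_neg])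
      rw [norm_neg] at e3
      have e4 := norm_exp_le_two (hb1 y (hle s hs'))
      have e5 : exp (m1 y - (m2 (t / y) - m2 0)) - exp (m1 y)
          = exp (m1 y) * (exp (-(m2 (t / y) - m2 0)) - 1) := by
        rw [sub_eq_add_neg (m1 y), exp_add]; ring
      rw [e5, norm_mul]
      have e6 : ‖y0‖ + s * ‖y1‖ ≤ 2 * ‖y‖ := by
        linarith [(path_norm_ge ha h2 hs').1, (path_norm_ge ha h2 hs').2]
      have e7 : 0 < ‖y0‖ + s * ‖y1‖ := by nlinarith [hs'.1]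
      have hy0 := hpos s hs'
      have e8 : ‖t / y‖ ≤ ‖t‖ * (2 * (1 / (‖y0‖ + s * ‖y1‖))) := by
        rw [norm_div, div_eq_mul_inv]
        gcongr
        rw [mul_one_div, le_div_iff₀ e7, inv_mul_le_iff₀ hy0]
        linarith
      calc ‖exp (m1 y)‖ * ‖exp (-(m2 (t / y) - m2 0)) - 1‖
          ≤ 2 * (2 * (‖t / y‖ / (200 * ρ'))) := by
            gcongr
            linarith
        _ ≤ 2 * (2 * (‖t‖ * (2 * (1 / (‖y0‖ + s * ‖y1‖))) / (200 * ρ'))) := by gcongr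
        _ = ‖t‖ / (25 * ρ') * (1 / (‖y0‖ + s * ‖y1‖)) := by field_simp; ring)
    (hc.intervalIntegrable_of_Icc zero_le_one)
  rw [intervalIntegral.integral_const_mul, int_inv_lin hA hB] at hI
  have hL : 0 ≤ Real.log (1 + ‖y1‖ / ‖y0‖) := Real.log_nonneg (by
    have : 0 ≤ ‖y1‖ / ‖y0‖ := by positivity
    linarith)
  have hn : ‖y1 - y0‖ ≤ 2 * ‖y1‖ := by linarith [norm_sub_le y1 y0]
  rw [norm_mul]
  calc ‖y1 - y0‖ * _ ≤ 2 * ‖y1‖ * (‖t‖ / (25 * ρ') * (Real.log (1 + ‖y1‖ / ‖y0‖) / ‖y1‖)) := by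
        gcongr
    _ = 2 / 25 * (‖t‖ / ρ' * Real.log (1 + ‖y1‖ / ‖y0‖)) := by field_simp
    _ ≤ ‖t‖ / ρ' * Real.log (1 + ‖y1‖ / ‖y0‖) := by
        have : 0 ≤ ‖t‖ / ρ' * Real.log (1 + ‖y1‖ / ‖y0‖) := by positivity
        linarith

/-- The main part of the neck integral. -/
theorem neck_main {m1 v : ℂ → ℂ} {ρ η : ℝ} {p z1 y0 : ℂ} (hρ : 0 < ρ)
    (hd1 : DifferentiableOn ℂ m1 (ball 0 (ρ * (49 / 100))))
    (hb1 : ∀ y, ‖y‖ ≤ ρ * (45 / 100) → ‖m1 y‖ ≤ 1 / 1000)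
    (hv : ∀ z, ‖z - p‖ < ρ * (40 / 100) → DifferentiableAt ℂ v z ∧ ‖v z‖ ≤ ρ * (45 / 100) ∧
      ‖exp (m1 (v z)) * deriv v z - 1‖ ≤ η)
    (hp : v p = 0) (hz : ‖z1 - p‖ < ρ * (40 / 100)) (h0 : ‖y0‖ ≤ ρ * (45 / 100)) :
    ‖seg (fun y => exp (m1 y)) y0 (v z1) - (z1 - p)‖ ≤ η * ‖z1 - p‖ + 2 * ‖y0‖ := by
  obtain ⟨P, hP⟩ := hd1.cexp.isExactOn_ball
  have h1 := (hv z1 hz).2.1
  have hle : ∀ s ∈ Icc (0 : ℝ) 1, ‖y0 + s * (v z1 - y0)‖ ≤ ρ * (45 / 100) := fun s hs =>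
    path_norm_le h0 h1 hs
  have c1 : ContinuousOn (fun s : ℝ => m1 (y0 + s * (v z1 - y0))) (Icc 0 1) :=
    hd1.continuousOn.comp (cont_path y0 (v z1)).continuousOn fun s hs =>
      mem_ball_zero_iff.2 ((hle s hs).trans_lt (by linarith))
  rw [seg_eq_sub (f := fun y => exp (m1 y)) (P := P) c1.cexp fun s hs =>
    hP _ (mem_ball_zero_iff.2 ((hle s hs).trans_lt (by linarith)))]
  have e1 : ‖P y0 - P 0‖ ≤ 2 * ‖y0 - 0‖ :=
    (convex_closedBall (0 : ℂ) (ρ * (45 / 100))).norm_image_sub_le_of_norm_hasDerivWithin_le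
      (f := P) (f' := fun y => exp (m1 y))
      (fun y hy => (hP y (mem_ball_zero_iff.2
        ((mem_closedBall_zero_iff.1 hy).trans_lt (by linarith)))).hasDerivWithinAt)
      (fun y hy => norm_exp_le_two (hb1 y (mem_closedBall_zero_iff.1 hy)))
      (mem_closedBall_self (by positivity)) (mem_closedBall_zero_iff.2 h0)
  have e2 : ‖(P (v z1) - z1) - (P (v p) - p)‖ ≤ η * ‖z1 - p‖ :=
    (convex_ball p (ρ * (40 / 100))).norm_image_sub_le_of_norm_hasDerivWithin_le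
      (f := fun z => P (v z) - z) (f' := fun z => exp (m1 (v z)) * deriv v z - 1)
      (fun z hz => by
        have hz' := mem_ball_iff_norm.1 hz
        obtain ⟨a1, a2, _⟩ := hv z hz'
        have a3 := (hP (v z) (mem_ball_zero_iff.2 (a2.trans_lt (by linarith)))).comp z a1.hasDerivAt
        exact (a3.sub (hasDerivAt_id z)).hasDerivWithinAt)
      (fun z hz => (hv z (mem_ball_iff_norm.1 hz)).2.2)
      (mem_ball_self (by positivity)) (mem_ball_iff_norm.2 hz)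
  rw [hp] at e2
  rw [sub_zero] at e1
  have e3 : P (v z1) - P y0 - (z1 - p) = (P (v z1) - z1 - (P 0 - p)) - (P y0 - P 0) := by ring
  rw [e3]
  linarith [norm_sub_le (P (v z1) - z1 - (P 0 - p)) (P y0 - P 0)]

end Pool.Agent.P.MP_cc4a10_gt.Aux2P
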