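import Pool.Agent.P.MP_cc4a10_gt.Aux2A

/-!
Package Aux2, part B: plane geometry of the segments, scales, and the full neck integral.
-/

open Set Filter Topology Complex Metric
open scoped ComplexConjugate Real

noncomputable section

namespace Pool.Agent.P.MP_cc4a10_gt.Aux2P

theorem angle {c c' y1 w t : ℂ} {d d' l1 l2 Q : ℝ} (hd : 0 < d) (hd' : 0 < d') (hc : ‖c‖ = d)
    (hc' : ‖c'‖ = d') (hre : d * d' * (7 / 10) ≤ (-(c * c')).re) (hl : 0 < l1 * l2) (hQ : 0 < Q)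
    (h1 : ‖y1 - l1 * c‖ ≤ ‖(l1 : ℂ) * c‖ / 100) (h2 : ‖w - l2 * c'‖ ≤ ‖(l2 : ℂ) * c'‖ / 100)
    (h3 : ‖t + Q‖ ≤ Q / 100) : ‖t / w‖ * ‖y1‖ / 2 ≤ (t / w * conj y1).re := by
  set A := ‖(l1 : ℂ) * c‖ with hA
  set B := ‖(l2 : ℂ) * c'‖ with hB
  have hAB : A * B = l1 * l2 * (d * d') := by
    rw [hA, hB, norm_mul, norm_mul, hc, hc', norm_real, norm_real, Real.norm_eq_abs,
      Real.norm_eq_abs, show |l1| * d * (|l2| * d') = |l1| * |l2| * (d * d') by ring, ← abs_mul,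
      abs_of_pos hl]
  set L := l1 * l2 * (d * d') with hL
  have hL0 : 0 < L := by positivity
  have hA0 : 0 ≤ A := norm_nonneg _
  have hB0 : 0 ≤ B := norm_nonneg _
  have hBpos : 0 < B := by
    rcases hB0.eq_or_lt with h | h
    · rw [← h, mul_zero] at hAB; linarith
    · exact h
  have hwn : ‖w‖ ≤ B * (101 / 100) := by
    have := norm_add_le (w - l2 * c') (l2 * c')
    rw [sub_add_cancel] at this; linarith
  have hwl : B * (99 / 100) ≤ ‖w‖ := by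
    have := norm_sub_le w (w - l2 * c')
    rw [sub_sub_cancel] at this; linarith
  have hw0 : w ≠ 0 := norm_pos_iff.1 (by linarith)
  have hX : ‖y1 * w - (l1 * l2 : ℝ) * (c * c')‖ ≤ L * (201 / 10000) := by
    have e : y1 * w - (l1 * l2 : ℝ) * (c * c')
        = (y1 - l1 * c) * w + (l1 * c) * (w - l2 * c') := by push_cast; ring
    rw [e]
    refine (norm_add_le _ _).trans ?_
    rw [norm_mul, norm_mul (l1 * c : ℂ), ← hA]
    have a1 : ‖y1 - l1 * c‖ * ‖w‖ ≤ A / 100 * (B * (101 / 100)) := by gcongr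
    have a2 : A * ‖w - l2 * c'‖ ≤ A * (B / 100) := by gcongr
    nlinarith
  have hX0 : ‖((l1 * l2 : ℝ) : ℂ) * (c * c')‖ = L := by
    rw [norm_mul, norm_mul, hc, hc', norm_real, Real.norm_of_nonneg hl.le]
  have hXn : ‖y1 * w‖ ≤ L * (10201 / 10000) := by
    have := norm_add_le (y1 * w - (l1 * l2 : ℝ) * (c * c')) ((l1 * l2 : ℝ) * (c * c'))
    rw [sub_add_cancel] at this; linarith
  have hXr : (y1 * w).re ≤ -(L * (6799 / 10000)) := by
    have a1 := (re_le_norm _).trans hX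
    rw [sub_re, re_ofReal_mul] at a1
    rw [neg_re] at hre
    have a2 : l1 * l2 * (c * c').re ≤ l1 * l2 * (-(d * d' * (7 / 10))) := by
      gcongr; linarith
    nlinarith
  have htn : ‖t‖ ≤ Q * (101 / 100) := by
    have := norm_sub_le (t + Q) Q
    rw [add_sub_cancel_right, norm_real, Real.norm_of_nonneg hQ.le] at this; linarith
  have hmain : ‖t‖ * ‖y1 * w‖ / 2 ≤ (t * conj (y1 * w)).re := by
    have e : t * conj (y1 * w) = (t + Q) * conj (y1 * w) - Q * conj (y1 * w) := by ring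
    rw [e, sub_re, re_ofReal_mul, conj_re]
    have a1 : |((t + Q) * conj (y1 * w)).re| ≤ Q / 100 * (L * (10201 / 10000)) := by
      refine (abs_re_le_norm _).trans ?_
      rw [norm_mul, norm_conj]; gcongr
    have a2 : ‖t‖ * ‖y1 * w‖ ≤ Q * (101 / 100) * (L * (10201 / 10000)) := by gcongr
    have a3 : Q * (y1 * w).re ≤ Q * -(L * (6799 / 10000)) := by gcongr
    have a4 := (abs_le.1 a1).1
    have a5 : 0 < Q * L := by positivity
    nlinarith
  have hwp : 0 < ‖w‖ := norm_pos_iff.2 hw0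
  have e1 : t / w * conj y1 = ((‖w‖ ^ 2)⁻¹ : ℝ) * (t * conj (y1 * w)) := by
    have : ((‖w‖ : ℂ)) ^ 2 = w * conj w := by rw [mul_conj']
    push_cast
    rw [this, map_mul]
    have : conj w ≠ 0 := by simpa using hw0
    field_simp
  rw [e1, re_ofReal_mul, norm_div]
  have e2 : ‖t‖ / ‖w‖ * ‖y1‖ / 2 = (‖w‖ ^ 2)⁻¹ * (‖t‖ * ‖y1 * w‖ / 2) := by
    rw [norm_mul]; field_simp
  rw [e2]
  gcongr

theorem norm_hf_le : ‖((1 + I) / 2 : ℂ)‖ ≤ 7072 / 10000 := by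
  apply le_of_sq_le_sq _ (by norm_num) |> fun h => h
  rw [Complex.sq_norm, normSq_apply]
  simp only [div_ofNat_re, div_ofNat_im, add_re, one_re, I_re, add_im, one_im, I_im]
  norm_num

theorem seg_geo {c e : ℂ} {d ρ a s : ℝ} (hd : 0 < d) (hc : ‖c‖ = d) (hρ : 0 < ρ)
    (hρd : ρ ≤ d / 2) (he : ‖e‖ ≤ ρ / 100) (ha : a = 1 ∨ a = -1) (hs : s ∈ Icc (0 : ℝ) 1) :
    ρ / 10 < ‖c * ((1 + I) / 2) + e + s * (((a * ρ / 4 / d : ℝ) : ℂ) * c - (c * ((1 + I) / 2) + e))‖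
    ∧ ‖c * ((1 + I) / 2) + e + s * (((a * ρ / 4 / d : ℝ) : ℂ) * c - (c * ((1 + I) / 2) + e))‖
      ≤ d * (72 / 100) := by
  have haa : |a| = 1 := by rcases ha with h | h <;> simp [h]
  constructor
  · set r := ρ / 4 / d with hr
    have hr0 : 0 < r := by positivity
    have hrd : r * d = ρ / 4 := by rw [hr]; field_simp
    have hr8 : r ≤ 1 / 8 := by rw [hr, div_le_iff₀ hd]; linarith
    have e1 : c * ((1 + I) / 2) + e + s * (((a * ρ / 4 / d : ℝ) : ℂ) * c - (c * ((1 + I) / 2) + e))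
        = c * ((((1 - s) / 2 + s * a * r : ℝ) : ℂ) + (((1 - s) / 2 : ℝ) : ℂ) * I)
          + ((1 - s : ℝ) : ℂ) * e := by
      rw [hr]; push_cast; ring
    have e2 : r * (56 / 100)
        ≤ ‖((((1 - s) / 2 + s * a * r : ℝ) : ℂ) + (((1 - s) / 2 : ℝ) : ℂ) * I)‖ := by
      apply le_of_sq_le_sq _ (norm_nonneg _) |> fun h => h
      rw [Complex.sq_norm, normSq_add_mul_I]
      have a2 : a ^ 2 = 1 := by rcases ha with h | h <;> simp [h]
      rcases le_total s (8 / 10) with h | h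
      · have b1 : 1 / 10 ≤ (1 - s) / 2 := by linarith
        nlinarith [sq_nonneg ((1 - s) / 2 + s * a * r)]
      · have b1 : (s * a * r) ^ 2 = s ^ 2 * r ^ 2 := by rw [mul_pow, mul_pow, a2]; ring
        have b2 : (8 / 10) ^ 2 ≤ s ^ 2 := by gcongr
        have b3 : (8 / 10) ^ 2 * r ^ 2 ≤ s ^ 2 * r ^ 2 := by gcongr
        nlinarith [sq_nonneg ((1 - s) + s * a * r), sq_nonneg r]
    have e3 : ‖((1 - s : ℝ) : ℂ) * e‖ ≤ ρ / 100 := by
      rw [norm_mul, norm_real, Real.norm_of_nonneg (by linarith [hs.2])]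
      nlinarith [hs.1, norm_nonneg e]
    rw [e1]
    set X := c * ((((1 - s) / 2 + s * a * r : ℝ) : ℂ) + (((1 - s) / 2 : ℝ) : ℂ) * I) with hX
    have e4 : d * (r * (56 / 100)) ≤ ‖X‖ := by rw [hX, norm_mul, hc]; gcongr
    have e5 := norm_sub_le (X + ((1 - s : ℝ) : ℂ) * e) (((1 - s : ℝ) : ℂ) * e)
    rw [add_sub_cancel_right] at e5
    nlinarith
  · refine path_norm_le ?_ ?_ hs
    · refine (norm_add_le _ _).trans ?_
      rw [norm_mul, hc]
      have := mul_le_mul_of_nonneg_left norm_hf_le hd.le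
      linarith
    · rw [norm_mul, hc, norm_real, Real.norm_eq_abs, abs_div, abs_div, abs_mul, haa,
        abs_of_pos hρ, abs_of_pos hd, abs_of_pos (by norm_num : (0 : ℝ) < 4)]
      rw [div_mul_cancel₀ _ hd.ne']
      linarith

theorem one_le_norm_gi {u : GI} (h : u ≠ 0) : 1 ≤ ‖(u : ℂ)‖ := by
  have h1 : (1 : ℝ) ≤ normSq (u : ℂ) := by
    rw [← GaussianInt.intCast_real_norm]
    have := GaussianInt.norm_pos.2 h
    exact_mod_cast this
  apply le_of_sq_le_sq _ (norm_nonneg _) |> fun h => h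
  rw [Complex.sq_norm]; simpa using h1

/-- The full neck integral. -/
theorem neck_all {m1 m2 v : ℂ → ℂ} {ρ ρ' η d d' l1 l2 Q : ℝ} {p w t c c' : ℂ} (hρ : 0 < ρ)
    (hρ' : 0 < ρ') (hd : 0 < d) (hd' : 0 < d') (hc : ‖c‖ = d) (hc' : ‖c'‖ = d')
    (hre : d * d' * (7 / 10) ≤ (-(c * c')).re) (hl : 0 < l1 * l2) (hQ : 0 < Q)
    (hl1 : ‖(l1 : ℂ) * c‖ = ρ / 4) (hl2 : ‖(l2 : ℂ) * c'‖ = ρ' / 4)
    (hd1 : DifferentiableOn ℂ m1 (ball 0 (ρ * (49 / 100))))
    (hb1 : ∀ y, ‖y‖ ≤ ρ * (45 / 100) → ‖m1 y‖ ≤ 1 / 1000)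
    (hd2 : DifferentiableOn ℂ m2 (ball 0 (ρ' * (49 / 100))))
    (hb2 : ∀ y, ‖y‖ ≤ ρ' * (45 / 100) → ‖m2 y‖ ≤ 1 / 1000)
    (hv : ∀ z, ‖z - p‖ < ρ * (40 / 100) → DifferentiableAt ℂ v z ∧
      ‖v z - (z - p)‖ ≤ ‖z - p‖ / 100 ∧ ‖exp (m1 (v z)) * deriv v z - 1‖ ≤ η)
    (h2 : ‖w - l2 * c'‖ ≤ ‖(l2 : ℂ) * c'‖ / 100) (h3 : ‖t + Q‖ ≤ Q / 100)
    (hs : 40 * Q ≤ ρ * ρ') :
    ‖seg (fun y => exp (m1 y - (m2 (t / y) - m2 0))) (t / w) (v (p + l1 * c)) - l1 * c‖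
      ≤ η * (ρ / 4) + 2 * Q / ρ' * (5 + Real.log (1 + ρ * ρ' / Q)) := by
  have hp : v p = 0 := by
    have := (hv p (by simp; positivity)).2.1
    simpa using this
  have hz : ‖p + l1 * c - p‖ < ρ * (40 / 100) := by rw [add_sub_cancel_left, hl1]; linarith
  have h1 := (hv _ hz).2.1
  rw [add_sub_cancel_left] at h1
  set y1 := v (p + l1 * c) with hy1
  have ha := angle hd hd' hc hc' hre hl hQ h1 h2 h3
  rw [hl1] at h1
  rw [hl2] at h2
  have hy1u : ‖y1‖ ≤ ρ / 4 * (101 / 100) := by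
    have := norm_add_le (y1 - l1 * c) (l1 * c)
    rw [sub_add_cancel, hl1] at this; linarith
  have hy1l : ρ / 4 * (99 / 100) ≤ ‖y1‖ := by
    have := norm_sub_le y1 (y1 - l1 * c)
    rw [sub_sub_cancel, hl1] at this; linarith
  have hwu : ‖w‖ ≤ ρ' / 4 * (101 / 100) := by
    have := norm_add_le (w - l2 * c') (l2 * c')
    rw [sub_add_cancel, hl2] at this; linarith
  have hwl : ρ' / 4 * (99 / 100) ≤ ‖w‖ := by
    have := norm_sub_le w (w - l2 * c')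
    rw [sub_sub_cancel, hl2] at this; linarith
  have htu : ‖t‖ ≤ Q * (101 / 100) := by
    have := norm_sub_le (t + Q) Q
    rw [add_sub_cancel_right, norm_real, Real.norm_of_nonneg hQ.le] at this; linarith
  have htl : Q * (99 / 100) ≤ ‖t‖ := by
    have := norm_sub_le (t + Q) t
    rw [add_sub_cancel_left, norm_real, Real.norm_of_nonneg hQ.le] at this; linarith
  have hwp : 0 < ‖w‖ := by linarith
  have htp : 0 < ‖t‖ := by linarith
  have hy0 : ‖t / w‖ = ‖t‖ / ‖w‖ := norm_div _ _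
  have hy0p : 0 < ‖t / w‖ := by rw [hy0]; positivity
  have hy0u : ‖t / w‖ ≤ 9 / 2 * Q / ρ' := by
    rw [hy0, div_le_div_iff₀ hwp hρ']
    nlinarith [mul_le_mul_of_nonneg_left hwl hQ.le, mul_le_mul_of_nonneg_right htu hρ'.le,
      mul_pos hQ hρ']
  have hy0l : Q / ρ' ≤ ‖t / w‖ := by
    rw [hy0, div_le_div_iff₀ hρ' hwp]
    nlinarith [mul_le_mul_of_nonneg_left hwu hQ.le, mul_le_mul_of_nonneg_right htl hρ'.le,
      mul_pos hQ hρ']
  have hQρ : Q / ρ' ≤ ρ / 40 := by rw [div_le_div_iff₀ hρ' (by norm_num)]; linarith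
  have hy0u' : ‖t / w‖ ≤ 9 / 80 * ρ := by
    have : 9 / 2 * Q / ρ' = 9 / 2 * (Q / ρ') := by ring
    linarith
  have e1 := neck_err (m1 := m1) (m2 := m2) (ρ := ρ) (t := t) (y0 := t / w) (y1 := y1) hρ' hd1 hb1
    hd2 hb2 (norm_pos_iff.1 hy0p) ha (by linarith) (by linarith) (by
      rw [hy0, ← mul_div_assoc, le_div_iff₀ hwp]
      nlinarith [mul_le_mul_of_nonneg_left hwu htp.le, mul_pos htp hρ'])
  have e2 := neck_main (m1 := m1) (v := v) (η := η) (p := p) (z1 := p + l1 * c) (y0 := t / w) hρ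
    hd1 hb1 (fun z hz => ⟨(hv z hz).1, by
      have a1 := (hv z hz).2.1
      have a2 := norm_add_le (v z - (z - p)) (z - p)
      rw [sub_add_cancel] at a2; linarith, (hv z hz).2.2⟩) hp hz (by linarith)
  rw [add_sub_cancel_left, hl1, ← hy1] at e2
  have e3 : Real.log (1 + ‖y1‖ / ‖t / w‖) ≤ Real.log (1 + ρ * ρ' / Q) := by
    apply Real.log_le_log (by positivity)
    have : ‖y1‖ / ‖t / w‖ ≤ ρ / (Q / ρ') := by gcongr; linarith
    have e : ρ / (Q / ρ') = ρ * ρ' / Q := by field_simp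
    linarith
  have hL : 0 ≤ Real.log (1 + ρ * ρ' / Q) := Real.log_nonneg (by
    have : 0 ≤ ρ * ρ' / Q := by positivity
    linarith)
  have hL' : 0 ≤ Real.log (1 + ‖y1‖ / ‖t / w‖) := Real.log_nonneg (by
    have : 0 ≤ ‖y1‖ / ‖t / w‖ := by positivity
    linarith)
  have e4 : ‖t‖ / ρ' * Real.log (1 + ‖y1‖ / ‖t / w‖)
      ≤ 2 * Q / ρ' * Real.log (1 + ρ * ρ' / Q) := by gcongr; linarith
  have e5 := norm_add_le
    (seg (fun y => exp (m1 y - (m2 (t / y) - m2 0))) (t / w) y1 - seg (fun y => exp (m1 y)) (t / w) y1)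
    (seg (fun y => exp (m1 y)) (t / w) y1 - l1 * c)
  rw [sub_add_sub_cancel] at e5
  have e6 : 2 * Q / ρ' * (5 + Real.log (1 + ρ * ρ' / Q))
      = 10 * (Q / ρ') + 2 * Q / ρ' * Real.log (1 + ρ * ρ' / Q) := by ring
  have e7 : 9 / 2 * Q / ρ' = 9 / 2 * (Q / ρ') := by ring
  have e8 : 0 ≤ Q / ρ' := by positivity
  linarith

end Pool.Agent.P.MP_cc4a10_gt.Aux2P
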