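import Pool.Agent.P.MP_cc4a10_gt.Aux2B

/-!
Package Aux2, part C: scales and the facts collected from the other packages.
-/

open Set Filter Topology Complex Metric
open scoped ComplexConjugate Real

noncomputable section

namespace Pool.Agent.P.MP_cc4a10_gt.Aux2P

theorem mK_ge {S : Sys} {j : ℕ} (h : Big S j) (K : ℤ) : j + 2 ≤ mK S K := by
  have h1 := h (K - 1)
  have h2 := h K
  unfold mK jl
  omega

theorem dd_le4 {m n : ℕ} (h : n ≤ m + 1) : dd m ≤ 4 * dd n := by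
  rw [← tt_pow_16, ← tt_pow_16]; exact tt_pow_le h (by norm_num)

theorem rho_pos {m : ℕ} (h : 2 ≤ m) : 0 < rho m := by
  unfold rho
  have : (0 : ℝ) < m := by exact_mod_cast (by omega : 0 < m)
  exact div_pos (dd_pos m) this

theorem rho_le {m : ℕ} (h : 2 ≤ m) : rho m ≤ dd m / 2 := by
  unfold rho
  have : (2 : ℝ) ≤ m := by exact_mod_cast h
  gcongr
  exact (dd_pos m).le

theorem rho_mul {m : ℕ} (h : 2 ≤ m) : rho m * m = dd m := by
  unfold rho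
  have : (0 : ℝ) < m := by exact_mod_cast (by omega : 0 < m)
  field_simp

theorem scale_ii {m m' : ℕ} (h2 : 2 ≤ m) (h2' : 2 ≤ m') (h1 : m ≤ m' + 1) (h1' : m' ≤ m + 1)
    (hs : (m : ℝ) ^ 2 * tt m ≤ 1 / 10000) {Q : ℝ} (hQ1 : 3 * dd m ^ 4 ≤ Q)
    (hQ2 : Q ≤ 17 * dd m ^ 4) : 40 * Q ≤ rho m * rho m' ∧
    2 * Q / rho m' * (5 + Real.log (1 + rho m * rho m' / Q)) ≤ 1088 * (dd m * tt m ^ 30) := by
  have hd := dd_pos m
  have hd' := dd_pos m'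
  have ht := tt_pos m
  have ht1 := tt_le_one m
  have hρ := rho_pos h2
  have hρ' := rho_pos h2'
  have a1 := dd_le4 h1
  have a2 := dd_le4 h1'
  have hm : (2 : ℝ) ≤ m := by exact_mod_cast h2
  have hm' : (m' : ℝ) ≤ 2 * m := by
    have : (m' : ℝ) ≤ m + 1 := by exact_mod_cast h1'
    linarith
  have hm'0 : (0 : ℝ) < m' := by exact_mod_cast (by omega : 0 < m')
  have hQ : 0 < Q := lt_of_lt_of_le (by positivity) hQ1
  have hd2 : dd m ^ 2 = tt m ^ 32 := by rw [← tt_pow_16]; ring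
  have hρ'l : dd m / (8 * m) ≤ rho m' := by
    unfold rho
    rw [div_le_div_iff₀ (by positivity) hm'0]
    nlinarith [mul_le_mul_of_nonneg_left hm' hd.le, mul_le_mul_of_nonneg_right a2 (by linarith : (0 : ℝ) ≤ m)]
  have hmt : (m : ℝ) ^ 2 * dd m ^ 2 ≤ tt m ^ 30 / 10000 := by
    rw [hd2]
    have e : (m : ℝ) ^ 2 * tt m ^ 32 = (m ^ 2 * tt m) * tt m * tt m ^ 30 := by ring
    rw [e]
    have : (m ^ 2 * tt m) * tt m ≤ 1 / 10000 * 1 := by gcongr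
    nlinarith [pow_pos ht 30]
  have ht30 : tt m ^ 30 ≤ 1 := pow_le_one₀ ht.le ht1
  constructor
  · have b1 : rho m * (dd m / (8 * m)) ≤ rho m * rho m' := by gcongr
    refine le_trans ?_ b1
    have e : rho m * (dd m / (8 * m)) = dd m ^ 2 / (8 * m ^ 2) := by unfold rho; field_simp
    rw [e, le_div_iff₀ (by positivity)]
    have b2 : 40 * Q * (8 * m ^ 2) ≤ 40 * (17 * dd m ^ 4) * (8 * m ^ 2) := by gcongr
    have b3 : 40 * (17 * dd m ^ 4) * (8 * (m : ℝ) ^ 2)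
      = 5440 * (m ^ 2 * dd m ^ 2) * dd m ^ 2 := by ring
    have b4 : 5440 * ((m : ℝ) ^ 2 * dd m ^ 2) * dd m ^ 2 ≤ 1 * dd m ^ 2 := by
      gcongr; linarith
    linarith
  · have b1 : 2 * Q / rho m' ≤ 272 * dd m ^ 3 * m := by
      calc 2 * Q / rho m' ≤ 2 * (17 * dd m ^ 4) / (dd m / (8 * m)) := by gcongr
        _ = 272 * dd m ^ 3 * m := by field_simp; ring
    have b2 : rho m * rho m' / Q ≤ 2 ^ m := by
      have c1 := rho_le h2
      have c2 := rho_le h2'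
      have c3 : rho m * rho m' ≤ dd m / 2 * (4 * dd m / 2) := by
        gcongr; linarith
      have c4 : (2 : ℝ) ^ m * dd m ^ 2 = 1 := by rw [dd_sq]; field_simp
      rw [div_le_iff₀ hQ]
      have c5 : (2 : ℝ) ^ m * (3 * dd m ^ 4) ≤ 2 ^ m * Q := by gcongr
      have c6 : (2 : ℝ) ^ m * (3 * dd m ^ 4) = 3 * (2 ^ m * dd m ^ 2) * dd m ^ 2 := by ring
      rw [c4] at c6
      nlinarith [pow_pos hd 2]
    have b3 : Real.log (1 + rho m * rho m' / Q) ≤ m + 1 := by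
      have c1 : (1 : ℝ) ≤ 2 ^ m := one_le_pow₀ (by norm_num)
      have c2 : Real.log (1 + rho m * rho m' / Q) ≤ Real.log (2 ^ (m + 1)) := by
        apply Real.log_le_log (by positivity)
        rw [pow_succ]; linarith
      rw [Real.log_pow] at c2
      have c3 : Real.log 2 ≤ 1 := by linarith [Real.log_two_lt_d9]
      push_cast at c2
      nlinarith
    have b4 : 0 ≤ Real.log (1 + rho m * rho m' / Q) := Real.log_nonneg (by
      have : 0 ≤ rho m * rho m' / Q := by positivity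
      linarith)
    calc 2 * Q / rho m' * (5 + Real.log (1 + rho m * rho m' / Q))
        ≤ 272 * dd m ^ 3 * m * (4 * m) := by gcongr; linarith
      _ = 1088 * (dd m * (m ^ 2 * dd m ^ 2)) := by ring
      _ ≤ 1088 * (dd m * tt m ^ 30) := by gcongr; linarith [pow_pos ht 30]

theorem sm_le {S : Sys} {x : Cfg} {K : ℤ} (h1 : mK S K ≤ mK S (K - 1) + 1)
    (h2 : mK S K ≤ mK S (K + 1) + 1) (hb : ∀ L, bK S x L ≤ 3 * tt (mK S L) ^ 20)
    (hs : (mK S K : ℝ) ^ 2 * tt (mK S K) ≤ 1) : sm S x K ≤ 28 * tt (mK S K) ^ 30 := by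
  have a1 := tt_pow_le h1 (k := 20) (by norm_num)
  have a2 := tt_pow_le h2 (k := 20) (by norm_num)
  have a3 : b3 S x K ≤ 27 * tt (mK S K) ^ 20 := by
    unfold b3; linarith [hb (K - 1), hb K, hb (K + 1)]
  have ht := tt_pos (mK S K)
  have ht1 := tt_le_one (mK S K)
  unfold sm
  rw [← tt_pow_16]
  set t := tt (mK S K)
  set m : ℝ := (mK S K : ℝ)
  have a4 : m ^ 2 * t ^ 16 * b3 S x K ≤ m ^ 2 * t ^ 16 * (27 * t ^ 20) := by gcongr
  have a5 : m ^ 2 * t ^ 16 * (27 * t ^ 20) = 27 * ((m ^ 2 * t) * t ^ 5) * t ^ 30 := by ring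
  have a6 : (m ^ 2 * t) * t ^ 5 ≤ 1 * 1 := by gcongr; exact pow_le_one₀ ht.le ht1
  have a7 : m ^ 4 * (t ^ 16) ^ 2 = (m ^ 2 * t) ^ 2 * t ^ 30 := by ring
  have a8 : (m ^ 2 * t) ^ 2 ≤ 1 := pow_le_one₀ (by positivity) hs
  have a9 : 27 * ((m ^ 2 * t) * t ^ 5) * t ^ 30 ≤ 27 * 1 * t ^ 30 := by gcongr; linarith
  have a10 : (m ^ 2 * t) ^ 2 * t ^ 30 ≤ 1 * t ^ 30 := by gcongr
  linarith

/-- Facts on all levels of a configuration. -/
structure Fa (E : Ell) (S : Sys) (x : Cfg) (C : ℝ) : Prop where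
  C1 : 1 ≤ C
  m2 : ∀ K, 2 ≤ mK S K
  sml : ∀ K, C * (mK S K : ℝ) ^ 2 * tt (mK S K) ≤ 1 / 10000
  cn : ∀ K, ‖(lvF S K).c‖ = dd (mK S K)
  eps : ∀ K u, ‖(ls S x K).ε u‖ ≤ rho (mK S K) / 1000
  mu : ∀ K, ‖x.μ K‖ ≤ tt (mK S K) ^ 30
  q : ∀ K, ∀ u ∈ Nk (lvF S K), 3 * dd (mK S K) ^ 4 ≤ qK S x K u ^ 2 ∧
    qK S x K u ^ 2 ≤ 17 * dd (mK S K) ^ 4 ∧ |qK S x K u| ≤ 5 * dd (mK S K) ^ 2
  sep : ∀ K (u u' : GI), ‖pK S x K u - pK S x K u' - (lvF S K).c * ((u - u' : GI) : ℂ)‖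
    ≤ dd (mK S K) * ‖((u - u' : GI) : ℂ)‖ / 200
  rr : ∀ K, ∀ u ∈ Nk (lvF S K), ∀ z, ‖z - pK S x K u‖ < dd (mK S K) / 2 →
    ‖RR E (lvF S K) (ls S x K) u z‖ ≤ C * dd (mK S K)
  ps : ∀ K, ∀ z ∈ Out (Nk (lvF S K)) (pK S x K) (dd (mK S K) / 5),
    ‖psK E S x K z‖ ≤ C * dd (mK S K)
  lb : ∀ K, ∀ z ∈ Out (Nk (lvF S K)) (pK S x K) (rho (mK S K) / 10),
    ‖lam E S x K z‖ ≤ C * tt (mK S K) ^ 30
  ld : ∀ K, DifferentiableOn ℂ (lam E S x K) (Out (Nk (lvF S K)) (pK S x K) (rho1 (mK S K) / 2))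
  v : ∀ K, ∀ u ∈ Nk (lvF S K), ∀ z, ‖z - pK S x K u‖ < rho (mK S K) * (40 / 100) →
    DifferentiableAt ℂ (vK E S x K u) z ∧
    ‖vK E S x K u z - (z - pK S x K u)‖ ≤ ‖z - pK S x K u‖ / 100 ∧
    ‖exp (mm E S x (MM E S x) K u (vK E S x K u z)) * deriv (vK E S x K u) z - 1‖
      ≤ 2 * (C * tt (mK S K) ^ 30)
  md : ∀ K, ∀ u ∈ Nk (lvF S K),
    DifferentiableOn ℂ (mm E S x (MM E S x) K u) (ball 0 (rho (mK S K) * (49 / 100))) ∧
    (∀ y, ‖y‖ ≤ rho (mK S K) * (45 / 100) → ‖mm E S x (MM E S x) K u y‖ ≤ 1 / 1000) ∧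
    ‖tn S x K u + qK S x K u ^ 2‖ ≤ qK S x K u ^ 2 / 100

theorem q_bounds {q σ d : ℝ} (hd : 0 < d) (h1 : 2 * d ^ 2 ≤ |q|) (h2 : |q| ≤ 4 * d ^ 2)
    (hσ : |σ| ≤ 1 / 1000) : 3 * d ^ 4 ≤ (q * (1 + σ)) ^ 2 ∧ (q * (1 + σ)) ^ 2 ≤ 17 * d ^ 4 ∧
    |q * (1 + σ)| ≤ 5 * d ^ 2 := by
  obtain ⟨a1, a2⟩ := abs_le.1 hσ
  have hp : 0 < 1 + σ := by linarith
  have hd2 : 0 < d ^ 2 := by positivity
  have e : |q * (1 + σ)| = |q| * (1 + σ) := by rw [abs_mul, abs_of_pos hp]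
  have b1 : 2 * d ^ 2 * (999 / 1000) ≤ |q| * (1 + σ) := by gcongr; linarith
  have b2 : |q| * (1 + σ) ≤ 4 * d ^ 2 * (1001 / 1000) := by gcongr; linarith
  rw [← sq_abs, e]
  have b3 : (2 * d ^ 2 * (999 / 1000)) ^ 2 ≤ (|q| * (1 + σ)) ^ 2 := by gcongr
  have b4 : (|q| * (1 + σ)) ^ 2 ≤ (4 * d ^ 2 * (1001 / 1000)) ^ 2 := by gcongr
  have b5 : 0 < d ^ 4 := by positivity
  refine ⟨by nlinarith, by nlinarith, by linarith⟩

theorem fa (hC1 : S_Cou1) (hC2 : S_Cou2) (hShp : S_Shp) (hLev : S_Lev) (hVt : S_Vt)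
    (hInv : S_Inv) (hPar : S_Par) (hFlip : S_Flip) (hDip : S_Dip) (E : Ell) :
    ∃ (C : ℝ) (j1 : ℕ), ∀ (S : Sys) (x : Cfg), S.ok → Big S j1 → XX S x → Fa E S x C := by
  obtain ⟨C1, j1, hC1p, h1⟩ := hC1 E
  obtain ⟨C2, j2, hC2p, h2⟩ := hC2 E
  obtain ⟨C3, m3, hC3p, h3⟩ := hShp E
  obtain ⟨C4, m4, hC4p, h4⟩ := hLev E
  obtain ⟨C5, m5, hC5p, h5⟩ := hVt E
  set C := 1 + 28 * C2 + C3 with hC
  have hCp : 0 < C := by positivity
  obtain ⟨m6, h6⟩ := exists_pow_mul_tt_le 2 (η := 1 / (10000 * C)) (by positivity)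
  obtain ⟨m7, h7⟩ := exists_nat_ge (100 * C5)
  refine ⟨C, 10 + j1 + j2 + m3 + m4 + m5 + m6 + m7, fun S x hS hB hx => ?_⟩
  have hB' : ∀ j, j ≤ 10 + j1 + j2 + m3 + m4 + m5 + m6 + m7 → Big S j :=
    fun j hj k => hj.trans (hB k)
  have hm := mK_ge hB
  have hLG : ∀ K, LG (lvF S K) (ls S x K) (bK S x K) := fun K =>
    (hFlip E S hS K).2 x (hB' 10 (by omega)) hx
  have hm2 : ∀ K, 2 ≤ mK S K := fun K => by have := hm K; omega
  have hC1' : 1 ≤ C := by rw [hC]; linarith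
  have hsml : ∀ K, C * (mK S K : ℝ) ^ 2 * tt (mK S K) ≤ 1 / 10000 := fun K => by
    have a := h6 (mK S K) (by have := hm K; omega)
    rw [le_div_iff₀ (by positivity)] at a
    linarith
  have hs1 : ∀ K, (mK S K : ℝ) ^ 2 * tt (mK S K) ≤ 1 := fun K => by
    have a := hsml K
    have b : 0 ≤ (mK S K : ℝ) ^ 2 * tt (mK S K) := by have := tt_pos (mK S K); positivity
    nlinarith
  have hsm : ∀ K, sm S x K ≤ 28 * tt (mK S K) ^ 30 := fun K => by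
    refine sm_le ?_ (hPar S hS K).2.2.1 (fun L => (hLG L).bs) (hs1 K)
    have := (hPar S hS (K - 1)).2.2.2.1
    rwa [sub_add_cancel] at this
  have hL : ∀ K, _ := fun K => h4 _ _ _ (hLG K) (show m4 ≤ mK S K by have := hm K; omega)
  have hD : ∀ K, _ := fun K => hDip _ (hLG K).ok
  have hSh : ∀ K, _ := fun K => h3 _ _ _ (hLG K) (show m3 ≤ mK S K by have := hm K; omega)
  have hV : ∀ K, _ := fun K => h5 _ _ _ (hLG K) (show m5 ≤ mK S K by have := hm K; omega)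
  have hK1 := h1 S x hS (hB' j1 (by omega)) hx
  have hK2 := h2 S x hS (hB' j2 (by omega)) hx
  have hCt : ∀ K, tt (mK S K) ^ 30 + C2 * sm S x K ≤ C * tt (mK S K) ^ 30 := fun K => by
    have a := mul_le_mul_of_nonneg_left (hsm K) hC2p.le
    have b : 0 ≤ C3 * tt (mK S K) ^ 30 := by have := tt_pos (mK S K); positivity
    rw [hC]; linarith
  have hCt1 : ∀ K, C * tt (mK S K) ^ 30 ≤ 1 := fun K => by
    have a := hsml K
    have ht := tt_pos (mK S K)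
    have b : tt (mK S K) ^ 30 ≤ tt (mK S K) := pow_le_of_le_one ht.le (tt_le_one _) (by norm_num)
    have c : (1 : ℝ) ≤ (mK S K : ℝ) ^ 2 := one_le_pow₀ (by exact_mod_cast (by have := hm2 K; omega))
    have e : C * tt (mK S K) ^ 30 ≤ C * tt (mK S K) := by gcongr
    have f : C * 1 * tt (mK S K) ≤ C * (mK S K : ℝ) ^ 2 * tt (mK S K) := by gcongr
    linarith
  have hC3 : ∀ K, C3 * dd (mK S K) ≤ C * dd (mK S K) := fun K => by
    have := dd_pos (mK S K)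
    gcongr; rw [hC]; linarith
  refine ⟨hC1', hm2, hsml, fun K => (hD K).2.2.2.2.2.2.2.1, fun K u => ((hL K).1 u).2.1,
    hx.mb, fun K u hu => ?_, fun K => (hL K).2.2.2.1, fun K u hu z hz => ?_, fun K z hz => ?_,
    fun K z hz => ?_, fun K => (hK2 K).2.2.2.1, fun K u hu z hz => ?_, fun K u hu => ?_⟩
  · exact q_bounds (dd_pos _) ((hD K).2.2.2.2.2.1 u hu) ((hD K).2.2.2.2.2.2.1 u)
      ((hL K).1 u).2.2.2
  · obtain ⟨κ, a, -⟩ := hSh K
    exact (a u hu z hz).trans (hC3 K)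
  · obtain ⟨κ, -, a, -⟩ := hSh K
    exact (a z hz).1.trans (hC3 K)
  · have a := (hK2 K).2.2.2.2.1 z hz
    have b := norm_add_le (lam E S x K z - x.l K) (x.l K)
    rw [sub_add_cancel] at b
    linarith [hx.lb K, hCt K]
  · have hρ := rho_pos (hm2 K)
    obtain ⟨a1, -, a3, -, -, a6, -⟩ := hV K u hu
    have hmC : C5 / (mK S K : ℝ) ≤ 1 / 100 := by
      have b1 : (m7 : ℝ) ≤ mK S K := by exact_mod_cast (by have := hm K; omega)
      have b2 : (0 : ℝ) < mK S K := by exact_mod_cast (by have := hm K; omega)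
      rw [div_le_iff₀ b2]; linarith
    have hz3 : ‖z - pK S x K u‖ < 3 * rho (mK S K) := by linarith
    have hI := (hInv (vK E S x K u) (pK S x K u) (3 * rho (mK S K)) (by positivity) a1 a3
      (fun w hw => (a6 w (mem_ball_iff_norm.1 hw)).1.trans hmC)).1 z (mem_ball_iff_norm.2 hz3)
      (pK S x K u) (mem_ball_self (by positivity))
    have a3' : vK E S x K u (pK S x K u) = 0 := a3
    rw [a3', sub_zero] at hI
    refine ⟨a1.differentiableAt (isOpen_ball.mem_nhds (mem_ball_iff_norm.2 hz3)), hI, ?_⟩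
    obtain ⟨-, -, -, b4, -, -, -, -, -, b10, -⟩ := hK1 K u hu
    have c1 : exp (lv E (lvF S K) (ls S x K) u z) = deriv (vK E S x K u) z := (a6 z hz3).2.2.1
    rw [b10 z (by linarith), (b4 z (by linarith)).1, ← c1, ← exp_add]
    have e : x.l K - lv E (lvF S K) (ls S x K) u z + Mt E S x K z + lv E (lvF S K) (ls S x K) u z
      = x.l K + Mt E S x K z := by ring
    rw [e]
    have c2 : ‖x.l K + Mt E S x K z‖ ≤ C * tt (mK S K) ^ 30 := by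
      have := (hK2 K).2.1 u hu z (by linarith)
      linarith [norm_add_le (x.l K) (Mt E S x K z), hx.lb K, hCt K]
    have c3 := Complex.norm_exp_sub_one_le (c2.trans (hCt1 K))
    linarith
  · obtain ⟨-, -, -, -, -, -, b7, b8, b9, -⟩ := hK1 K u hu
    exact ⟨b8, b9, b7⟩

end Pool.Agent.P.MP_cc4a10_gt.Aux2P
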