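import Pool.Agent.P.MP_cc4a10_gt.Aux2C

/-!
Package Aux2, part D: the integral from a vertex to a neck and the integral through the neck.
-/

open Set Filter Topology Complex Metric
open scoped ComplexConjugate Real

noncomputable section

namespace Pool.Agent.P.MP_cc4a10_gt.Aux2P

variable {E : Ell} {S : Sys} {x : Cfg} {C : ℝ}

theorem Fa.mt (h : Fa E S x C) (K : ℤ) : (mK S K : ℝ) ^ 2 * tt (mK S K) ≤ 1 / 10000 := by
  have a := h.sml K
  have b : 0 ≤ (mK S K : ℝ) ^ 2 * tt (mK S K) := by have := tt_pos (mK S K); positivity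
  nlinarith [h.C1]

theorem Fa.mt1 (h : Fa E S x C) (K : ℤ) : (mK S K : ℝ) * tt (mK S K) ≤ 1 / 10000 := by
  have a := h.mt K
  have b : (1 : ℝ) ≤ mK S K := by exact_mod_cast (by have := h.m2 K; omega)
  have c : 0 ≤ (mK S K : ℝ) * tt (mK S K) := by have := tt_pos (mK S K); positivity
  nlinarith

theorem Fa.ct (h : Fa E S x C) (K : ℤ) : C * tt (mK S K) ^ 30 ≤ 1 := by
  have a := h.sml K
  have ht := tt_pos (mK S K)
  have hC := h.C1
  have b : tt (mK S K) ^ 30 ≤ tt (mK S K) := pow_le_of_le_one ht.le (tt_le_one _) (by norm_num)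
  have c : (1 : ℝ) ≤ (mK S K : ℝ) ^ 2 := one_le_pow₀ (by exact_mod_cast (by have := h.m2 K; omega))
  have e : C * tt (mK S K) ^ 30 ≤ C * tt (mK S K) := by gcongr
  have f : C * 1 * tt (mK S K) ≤ C * (mK S K : ℝ) ^ 2 * tt (mK S K) := by gcongr
  linarith

theorem VV_sub (K : ℤ) (u : GI) : VV S x K u - pK S x K u = (lvF S K).c * ((1 + I) / 2)
    + (x.μ K * conj ((lvF S K).c * ((1 + I) / 2)) - (ls S x K).ε u) := by
  have e : (ls S x K).μ = x.μ K := rfl
  simp only [VV, pK, pos, Lm, e, mul_add, map_add]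
  ring

theorem Fa.mu_le (h : Fa E S x C) (K : ℤ) :
    ‖x.μ K * conj ((lvF S K).c * ((1 + I) / 2))‖ ≤ dd (mK S K) * tt (mK S K) ^ 30 := by
  rw [norm_mul, norm_conj, norm_mul, h.cn, mul_comm]
  have hd := dd_pos (mK S K)
  have a : dd (mK S K) * ‖((1 + I) / 2 : ℂ)‖ ≤ dd (mK S K) := by nlinarith [norm_hf_le]
  gcongr
  exact h.mu K

theorem Fa.geo (h : Fa E S x C) (K : ℤ) (u : GI) {a : ℝ} (ha : a = 1 ∨ a = -1) {s : ℝ}
    (hs : s ∈ Icc (0 : ℝ) 1) :
    rho (mK S K) / 10 < ‖VV S x K u + s * (zP S x K u a - VV S x K u) - pK S x K u‖ ∧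
    ‖VV S x K u + s * (zP S x K u a - VV S x K u) - pK S x K u‖ ≤ dd (mK S K) * (72 / 100) ∧
    ∀ u', u' ≠ u → dd (mK S K) / 5 < ‖VV S x K u + s * (zP S x K u a - VV S x K u) - pK S x K u'‖ := by
  have hd := dd_pos (mK S K)
  have ht := tt_pos (mK S K)
  have hρ := rho_pos (h.m2 K)
  have he : ‖x.μ K * conj ((lvF S K).c * ((1 + I) / 2)) - (ls S x K).ε u‖ ≤ rho (mK S K) / 100 := by
    have a1 := h.mu_le K
    have a2 := h.eps K u
    have a3 : tt (mK S K) ^ 30 ≤ tt (mK S K) := pow_le_of_le_one ht.le (tt_le_one _) (by norm_num)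
    have a4 : dd (mK S K) * tt (mK S K) ^ 30 ≤ rho (mK S K) * (1 / 10000) := by
      rw [← rho_mul (h.m2 K), mul_assoc]
      gcongr
      refine le_trans ?_ (h.mt1 K)
      gcongr
    linarith [norm_sub_le (x.μ K * conj ((lvF S K).c * ((1 + I) / 2))) ((ls S x K).ε u)]
  have e : VV S x K u + s * (zP S x K u a - VV S x K u) - pK S x K u
      = (VV S x K u - pK S x K u) + s * (((a * rho (mK S K) / 4 / dd (mK S K) : ℝ) : ℂ) * (lvF S K).c
        - (VV S x K u - pK S x K u)) := by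
    unfold zP; ring
  have g := seg_geo hd (h.cn K) hρ (rho_le (h.m2 K)) he ha hs
  rw [← VV_sub, ← e] at g
  refine ⟨g.1, g.2, fun u' hu' => ?_⟩
  have b1 := h.sep K u u'
  have b2 := one_le_norm_gi (sub_ne_zero.2 hu'.symm)
  have b3 : ‖(lvF S K).c * ((u - u' : GI) : ℂ)‖ = dd (mK S K) * ‖((u - u' : GI) : ℂ)‖ := by
    rw [norm_mul, h.cn]
  set z := VV S x K u + s * (zP S x K u a - VV S x K u)
  have b4 : (lvF S K).c * ((u - u' : GI) : ℂ) = (z - pK S x K u') - (z - pK S x K u)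
    - (pK S x K u - pK S x K u' - (lvF S K).c * ((u - u' : GI) : ℂ)) := by ring
  have b5 := norm_sub_le ((z - pK S x K u') - (z - pK S x K u))
    (pK S x K u - pK S x K u' - (lvF S K).c * ((u - u' : GI) : ℂ))
  have b6 := norm_sub_le (z - pK S x K u') (z - pK S x K u)
  rw [← b4, b3] at b5
  have b7 : dd (mK S K) * 1 ≤ dd (mK S K) * ‖((u - u' : GI) : ℂ)‖ := by gcongr
  linarith [g.2]

theorem Fa.th (h : Fa E S x C) (K : ℤ) {u : GI} (hu : u ∈ Nk (lvF S K)) {a : ℝ}
    (ha : a = 1 ∨ a = -1) :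
    ‖Th E S x K (VV S x K u) (zP S x K u a) - (zP S x K u a - VV S x K u)‖
      ≤ (2 * C + 3 * (C + 50) ^ 2) * (dd (mK S K) * tt (mK S K) ^ 30) := by
  have hd := dd_pos (mK S K)
  have ht := tt_pos (mK S K)
  have hρ := rho_pos (h.m2 K)
  have hρd := rho_le (h.m2 K)
  have hC := h.C1
  have hm1 : (1 : ℝ) ≤ mK S K := by exact_mod_cast (by have := h.m2 K; omega)
  have hO : ∀ s ∈ Icc (0 : ℝ) 1, VV S x K u + s * (zP S x K u a - VV S x K u)
      ∈ Out (Nk (lvF S K)) (pK S x K) (rho (mK S K) / 10) := fun s hs u' _ => by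
    obtain ⟨a1, -, a3⟩ := h.geo K u ha hs
    by_cases e : u' = u
    · rw [e]; exact a1
    · linarith [a3 u' e]
  have hρ1 : rho1 (mK S K) / 2 ≤ rho (mK S K) / 10 := by
    unfold rho1
    rw [← rho_mul (h.m2 K), mul_assoc]
    nlinarith [h.mt1 K]
  have hn : ‖zP S x K u a - VV S x K u‖ ≤ dd (mK S K) := by
    have a1 := (h.geo K u ha (s := 0) ⟨le_rfl, zero_le_one⟩).2.1
    simp only [ofReal_zero, zero_mul, add_zero] at a1
    have haa : |a| = 1 := by rcases ha with h | h <;> simp [h]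
    have a2 : ‖zP S x K u a - pK S x K u‖ = rho (mK S K) / 4 := by
      unfold zP
      rw [add_sub_cancel_left, norm_mul, h.cn, norm_real, Real.norm_eq_abs, abs_div, abs_div,
        abs_mul, haa, abs_of_pos hρ, abs_of_pos hd, abs_of_pos (by norm_num : (0 : ℝ) < 4)]
      field_simp
    have a3 := norm_sub_le (zP S x K u a - pK S x K u) (VV S x K u - pK S x K u)
    rw [sub_sub_sub_cancel_right] at a3
    linarith
  have c1 : ContinuousOn (fun s : ℝ => F1 E S x K (VV S x K u + s * (zP S x K u a - VV S x K u)))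
      (Icc 0 1) :=
    ((h.ld K).continuousOn.comp (cont_path _ _).continuousOn fun s hs u' hu' =>
      hρ1.trans_lt (hO s hs u' hu')).cexp
  have e1 := seg_sub_le (η := 2 * (C * tt (mK S K) ^ 30)) c1 fun s hs => by
    have a1 := h.lb K _ (hO s hs)
    have a2 := Complex.norm_exp_sub_one_le (a1.trans (h.ct K))
    unfold F1
    linarith
  have e2 := norm_seg_le (f := F2 E S x K) (a := VV S x K u) (b := zP S x K u a)
    (η := ((C + 50) * (mK S K * dd (mK S K))) ^ 2 * 3) fun s hs => by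
    have a1 := h.lb K _ (hO s hs)
    obtain ⟨b1, -, b3⟩ := h.geo K u ha hs
    set z := VV S x K u + s * (zP S x K u a - VV S x K u)
    have a2 := Complex.norm_exp_sub_one_le (x := -lam E S x K z)
      (by rw [norm_neg]; exact a1.trans (h.ct K))
    rw [norm_neg] at a2
    have a3 : ‖exp (-lam E S x K z)‖ ≤ 3 := by
      have := norm_add_le (exp (-lam E S x K z) - 1) 1
      rw [sub_add_cancel, norm_one] at this
      linarith [h.ct K]
    have hmd : dd (mK S K) ≤ mK S K * dd (mK S K) := by nlinarith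
    have a4 : ‖psK E S x K z‖ ≤ (C + 50) * (mK S K * dd (mK S K)) := by
      have a5 : C * dd (mK S K) ≤ C * (mK S K * dd (mK S K)) := by gcongr
      rcases lt_or_ge ‖z - pK S x K u‖ (dd (mK S K) / 2) with hz | hz
      · have a6 := h.rr K u hu z hz
        have a7 : psK E S x K z = RR E (lvF S K) (ls S x K) u z
            + (qK S x K u : ℂ) / (z - pK S x K u) := by
          unfold RR psK qK pK; ring
        have a8 : ‖(qK S x K u : ℂ) / (z - pK S x K u)‖ ≤ 50 * (mK S K * dd (mK S K)) := by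
          rw [norm_div, norm_real, Real.norm_eq_abs, div_le_iff₀ (by linarith)]
          have a9 : 50 * (mK S K * dd (mK S K)) * (rho (mK S K) / 10)
              ≤ 50 * (mK S K * dd (mK S K)) * ‖z - pK S x K u‖ := by gcongr
          have a10 : 50 * (mK S K * dd (mK S K)) * (rho (mK S K) / 10)
              = 5 * dd (mK S K) * (rho (mK S K) * mK S K) := by ring
          rw [rho_mul (h.m2 K)] at a10
          nlinarith [(h.q K u hu).2.2]
        rw [a7]
        linarith [norm_add_le (RR E (lvF S K) (ls S x K) u z) ((qK S x K u : ℂ) / (z - pK S x K u))]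
      · have a6 := h.ps K z fun u' _ => by
          by_cases e : u' = u
          · rw [e]; linarith
          · exact b3 u' e
        nlinarith
    unfold F2
    rw [norm_mul, norm_pow]
    gcongr
  have e3 : Th E S x K (VV S x K u) (zP S x K u a) - (zP S x K u a - VV S x K u)
      = (seg (F1 E S x K) (VV S x K u) (zP S x K u a) - (zP S x K u a - VV S x K u))
        - conj (seg (F2 E S x K) (VV S x K u) (zP S x K u a)) := by unfold Th; ring
  rw [e3]
  refine (norm_sub_le _ _).trans ?_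
  rw [norm_conj]
  have e4 : ‖zP S x K u a - VV S x K u‖ * (2 * (C * tt (mK S K) ^ 30))
      ≤ dd (mK S K) * (2 * (C * tt (mK S K) ^ 30)) := by gcongr
  have e5 : ‖zP S x K u a - VV S x K u‖ * (((C + 50) * (mK S K * dd (mK S K))) ^ 2 * 3)
      ≤ dd (mK S K) * (((C + 50) * (mK S K * dd (mK S K))) ^ 2 * 3) := by gcongr
  have e6 : (mK S K * dd (mK S K)) ^ 2 ≤ tt (mK S K) ^ 30 := by
    rw [← tt_pow_16]
    have a1 : (mK S K * tt (mK S K) ^ 16) ^ 2 = (mK S K * tt (mK S K)) ^ 2 * tt (mK S K) ^ 30 := by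
      ring
    have a2 : (mK S K * tt (mK S K)) ^ 2 ≤ 1 :=
      pow_le_one₀ (by positivity) (by linarith [h.mt1 K])
    rw [a1]
    nlinarith [pow_pos ht 30]
  have e7 : dd (mK S K) * (((C + 50) * (mK S K * dd (mK S K))) ^ 2 * 3)
      ≤ dd (mK S K) * (((C + 50) ^ 2 * tt (mK S K) ^ 30) * 3) := by
    rw [mul_pow]; gcongr
  linarith

theorem re_cc (hP : ∀ K, dd (mK S K) * dd (mK S (K + 1)) * (7 / 10)
    ≤ (conj (lvT S K).c * (lvT S (K + 1)).c).re) (K : ℤ) :
    dd (mK S K) * dd (mK S (K + 1)) * (7 / 10) ≤ (-((lvF S K).c * (lvF S (K + 1)).c)).re := by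
  refine (hP K).trans_eq ?_
  have e : ∀ L, (lvF S L).c = io L (lvT S L).c := fun _ => rfl
  rw [e, e]
  unfold io
  by_cases hK : Even K
  · have : ¬Even (K + 1) := by rw [Int.even_add_one]; exact not_not.2 hK
    simp [hK, this]
  · have : Even (K + 1) := by rw [Int.even_add_one]; exact hK
    simp [hK, this]

theorem Fa.ii (h : Fa E S x C) (hPar : S_Par) (hS : S.ok) (K : ℤ) {u : GI}
    (hu : u ∈ Nk (lvF S K)) {a : ℝ} (ha : a = 1 ∨ a = -1) :
    ‖II E S x K u a - ((a * rho (mK S K) / 4 / dd (mK S K) : ℝ) : ℂ) * (lvF S K).c‖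
      ≤ (C + 1088) * (dd (mK S K) * tt (mK S K) ^ 30) := by
  have hre := re_cc (fun K => (hPar S hS K).2.2.2.2.1)
  have hK' : mK S K ≤ mK S (ot S K u) + 1 ∧ mK S (ot S K u) ≤ mK S K + 1 ∧
      dd (mK S K) * dd (mK S (ot S K u)) * (7 / 10) ≤ (-((lvF S K).c * (lvF S (ot S K u)).c)).re := by
    unfold ot
    split_ifs
    · have a1 := hPar S hS (K - 1)
      have a2 := hre (K - 1)
      rw [sub_add_cancel] at a1 a2
      refine ⟨a1.2.2.2.1, a1.2.2.1, ?_⟩
      rwa [mul_comm (dd _), mul_comm (lvF S K).c]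
    · exact ⟨(hPar S hS K).2.2.1, (hPar S hS K).2.2.2.1, hre K⟩
  have hu' : par S K u ∈ Nk (lvF S (ot S K u)) := by
    have a1 := ((hPar S hS K).2.2.2.2.2.1 u hu).1
    change q0 (lvT S (ot S K u)) (par S K u) ≠ 0
    rw [a1]; exact neg_ne_zero.2 hu
  set K' := ot S K u with hK
  set u' := par S K u
  have haa : |a| = 1 := by rcases ha with h | h <;> simp [h]
  have ha2 : a * a = 1 := by rcases ha with h | h <;> simp [h]
  have hl : ∀ L, ‖((a * rho (mK S L) / 4 / dd (mK S L) : ℝ) : ℂ) * (lvF S L).c‖ = rho (mK S L) / 4 := by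
    intro L
    have hd := dd_pos (mK S L)
    rw [norm_mul, h.cn, norm_real, Real.norm_eq_abs, abs_div, abs_div, abs_mul, haa,
      abs_of_pos (rho_pos (h.m2 L)), abs_of_pos hd, abs_of_pos (by norm_num : (0 : ℝ) < 4)]
    field_simp
  have hd := dd_pos (mK S K)
  have hd' := dd_pos (mK S K')
  have ht := tt_pos (mK S K)
  have hρ := rho_pos (h.m2 K)
  have hρ' := rho_pos (h.m2 K')
  obtain ⟨q1, q2, -⟩ := h.q K u hu
  have hQ : 0 < qK S x K u ^ 2 := lt_of_lt_of_le (by positivity) q1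
  obtain ⟨s1, s2⟩ := scale_ii (h.m2 K) (h.m2 K') hK'.1 hK'.2.1 (h.mt K) q1 q2
  have hw := (h.v K' u' hu' (zP S x K' u' a) (by
    unfold zP; rw [add_sub_cancel_left, hl]; linarith)).2.1
  have ez : zP S x K' u' a - pK S x K' u'
      = ((a * rho (mK S K') / 4 / dd (mK S K') : ℝ) : ℂ) * (lvF S K').c := by unfold zP; ring
  rw [ez] at hw
  have e := neck_all (m1 := mm E S x (MM E S x) K u) (m2 := mm E S x (MM E S x) K' u')
    (v := vK E S x K u) (η := 2 * (C * tt (mK S K) ^ 30)) (p := pK S x K u) (t := tn S x K u)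
    (Q := qK S x K u ^ 2) hρ hρ' hd hd' (h.cn K) (h.cn K') hK'.2.2 (by
      have : a * rho (mK S K) / 4 / dd (mK S K) * (a * rho (mK S K') / 4 / dd (mK S K'))
        = a * a * (rho (mK S K) / 4 / dd (mK S K) * (rho (mK S K') / 4 / dd (mK S K'))) := by ring
      rw [this, ha2]; positivity) hQ (hl K) (hl K') (h.md K u hu).1 (h.md K u hu).2.1
    (h.md K' u' hu').1 (h.md K' u' hu').2.1 (h.v K u hu) hw
    (by push_cast; exact (h.md K u hu).2.2) s1
  refine le_trans e ?_
  have hρd := rho_le (h.m2 K)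
  have hC := h.C1
  have a1 : 2 * (C * tt (mK S K) ^ 30) * (rho (mK S K) / 4)
      ≤ 2 * (C * tt (mK S K) ^ 30) * (dd (mK S K) / 2) :=
    mul_le_mul_of_nonneg_left (by linarith) (by positivity)
  linarith

end Pool.Agent.P.MP_cc4a10_gt.Aux2P
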