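import Pool.Agent.P.MP_cc4a10_gt.Lin

/-!
Toolbox for the lattice sums `ts`, `av`, `msq` and the scales `dd`, `tt`.
-/

open Set Filter Topology Complex
open scoped ComplexConjugate Real

noncomputable section

namespace Pool.Agent.P.MP_cc4a10_gt

section lin
variable {V W : Type*} [AddCommGroup V] [Module ℝ V] [AddCommGroup W] [Module ℝ W]

theorem ts_map (f : V →ₗ[ℝ] W) (m : ℕ) (F : GI → V) : f (ts m F) = ts m (fun u => f (F u)) := by
  simp [ts, map_sum]
theorem ts_add (m : ℕ) (F G : GI → V) : ts m (fun u => F u + G u) = ts m F + ts m G := by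
  simp [ts, Finset.sum_add_distrib]
theorem ts_sub (m : ℕ) (F G : GI → V) : ts m (fun u => F u - G u) = ts m F - ts m G := by
  simp [ts, Finset.sum_sub_distrib, smul_sub]
theorem ts_neg (m : ℕ) (F : GI → V) : ts m (fun u => -F u) = -ts m F := by
  simp [ts, Finset.sum_neg_distrib]
@[simp] theorem ts_zero (m : ℕ) : ts m (fun _ => (0 : V)) = 0 := by simp [ts]
theorem ts_smul (m : ℕ) (a : ℝ) (F : GI → V) : ts m (fun u => a • F u) = a • ts m F := by
  simp only [ts, ← Finset.smul_sum]; rw [smul_comm]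
theorem ts_sum {ι : Type*} (m : ℕ) (T : Finset ι) (F : ι → GI → V) :
    ts m (fun u => ∑ i ∈ T, F i u) = ∑ i ∈ T, ts m (F i) := by
  classical
  induction T using Finset.induction_on with
  | empty => simp
  | insert a T ha ih => simp only [Finset.sum_insert ha]; rw [ts_add, ih]
theorem ts_comm (m n : ℕ) (A : GI → GI → V) :
    ts m (fun u => ts n (A u)) = ts n (fun w => ts m (fun u => A u w)) := by
  have h : ∀ u, ts n (A u) = ((2 : ℝ) ^ n)⁻¹ • ∑ a ∈ Finset.range (2 ^ n),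
      ∑ b ∈ Finset.range (2 ^ n), A u ⟨a, b⟩ := fun _ => rfl
  simp only [h]
  rw [ts_smul, ts_sum]
  conv_rhs => rw [ts]
  congr 1
  exact Finset.sum_congr rfl fun a _ => ts_sum _ _ _
theorem ts_const (m : ℕ) (a : V) : ts m (fun _ => a) = ((2 : ℝ) ^ m) • a := by
  simp only [ts, Finset.sum_const, Finset.card_range, ← Nat.cast_smul_eq_nsmul ℝ, smul_smul]
  congr 1; push_cast; field_simp
theorem av_const (m : ℕ) (a : V) : av m (fun _ => a) = a := by
  rw [av, ts_const, smul_smul, inv_mul_cancel₀ (by positivity), one_smul]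
theorem av_add (m : ℕ) (F G : GI → V) : av m (fun u => F u + G u) = av m F + av m G := by
  simp [av, ts_add]
theorem av_sub (m : ℕ) (F G : GI → V) : av m (fun u => F u - G u) = av m F - av m G := by
  simp [av, ts_sub, smul_sub]
theorem ts_eq_av (m : ℕ) (F : GI → V) : ts m F = ((2 : ℝ) ^ m) • av m F := by
  rw [av, smul_smul, mul_inv_cancel₀ (by positivity), one_smul]

theorem om_mul_star : om * star om = 2 := by decide
theorem om_ne_zero : om ≠ 0 := by decide
theorem star_om : star om = om * -gi := by decide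
theorem gi_mul_gi : gi * gi = -1 := by decide
theorem coe_gi : ((gi : GI) : ℂ) = I := by simp [gi, GaussianInt.toComplex_def']
theorem coe_om : ((om : GI) : ℂ) = 1 + I := by simp [om, GaussianInt.toComplex_def']

omit [AddCommGroup V] [Module ℝ V] in
theorem Per.two {m : ℕ} {F : GI → V} (h : Per m F) (u w : GI) : F (u + 2 ^ m * w) = F u := by
  rw [← om_mul_star, mul_pow, mul_assoc]; exact h _ _
omit [AddCommGroup V] [Module ℝ V] in
theorem Per.of_dvd {m : ℕ} {F : GI → V} (h : Per m F) {u u' : GI} (hd : om ^ m ∣ u - u') :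
    F u = F u' := by
  obtain ⟨w, hw⟩ := hd
  rw [show u = u' + om ^ m * w by rw [← hw]; ring, h]
omit [AddCommGroup V] [Module ℝ V] in
theorem Per.shift {m : ℕ} {F : GI → V} (h : Per m F) (x : GI) : Per m (fun u => F (u + x)) :=
  fun u w => by simp only [add_right_comm u _ x]; exact h _ _
omit [AddCommGroup V] [Module ℝ V] in
theorem Per.mul {m : ℕ} {F : GI → V} (h : Per m F) (x : GI) : Per m (fun u => F (x * u)) :=
  fun u w => by simp only [mul_add, mul_left_comm x]; exact h _ _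
omit [AddCommGroup V] [Module ℝ V] in
theorem Per.neg {m : ℕ} {F : GI → V} (h : Per m F) : Per m (fun u => F (-u)) := by
  simpa using h.mul (-1)
omit [AddCommGroup V] [Module ℝ V] in
theorem Per.sub_left {m : ℕ} {F : GI → V} (h : Per m F) (x : GI) : Per m (fun u => F (x - u)) := by
  simpa [sub_eq_neg_add] using (h.shift x).neg
omit [AddCommGroup V] [Module ℝ V] in
theorem Per.star {m : ℕ} {F : GI → V} (h : Per m F) : Per m (fun u => F (star u)) :=
  fun u w => by
    simp only [star_add, star_mul', star_pow, star_om, mul_pow, mul_assoc]; exact h _ _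

theorem sum_range_shift (n : ℕ) (f : ℤ → V) (h : ∀ a, f (a + n) = f a) (x : ℤ) :
    ∑ a ∈ Finset.range n, f (a + x) = ∑ a ∈ Finset.range n, f a := by
  have h1 : ∀ g : ℤ → V, (∀ a, g (a + n) = g a) →
      ∑ a ∈ Finset.range n, g (a + 1) = ∑ a ∈ Finset.range n, g a := by
    intro g hg
    have e1 := Finset.sum_range_succ (fun a : ℕ => g a) n
    have e2 := Finset.sum_range_succ' (fun a : ℕ => g a) n
    have e3 := hg 0
    simp only [zero_add] at e3
    rw [e1, e3] at e2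
    push_cast at e2
    exact (add_right_cancel e2).symm
  induction x using Int.induction_on with
  | zero => simp
  | succ k ih =>
    rw [← ih, ← h1 (fun a => f (a + k)) (fun a => by rw [add_right_comm]; exact h _)]
    exact Finset.sum_congr rfl fun a _ => by congr 1; ring
  | pred k ih =>
    rw [← ih, ← h1 (fun a => f (a + (-(k : ℤ) - 1)))
      (fun a => by rw [add_right_comm]; exact h _)]
    exact Finset.sum_congr rfl fun a _ => by congr 1; ring

theorem sum_range_neg (n : ℕ) (f : ℤ → V) (h : ∀ a, f (a + n) = f a) :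
    ∑ a ∈ Finset.range n, f (-a) = ∑ a ∈ Finset.range n, f a := by
  rw [← Finset.sum_range_reflect, ← sum_range_shift n f h (1 - n)]
  refine Finset.sum_congr rfl fun a ha => ?_
  have := Finset.mem_range.1 ha
  congr 1; omega

theorem two_pow_mk (m : ℕ) : ((2 : GI) ^ m) = ⟨(2 ^ m : ℕ), 0⟩ := by
  have : ((2 : GI) ^ m) = ((2 ^ m : ℕ) : GI) := by push_cast; rfl
  rw [this, Zsqrtd.natCast_val]

theorem ts_shift {m : ℕ} {F : GI → V} (h : Per m F) (x : GI) :
    ts m (fun u => F (u + x)) = ts m F := by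
  unfold ts; congr 1
  have hr : ∀ a b : ℤ, F ⟨a + (2 ^ m : ℕ), b⟩ = F ⟨a, b⟩ := fun a b => by
    rw [← h.two ⟨a, b⟩ 1, two_pow_mk]; congr 1; ext <;> simp
  have hi : ∀ a b : ℤ, F ⟨a, b + (2 ^ m : ℕ)⟩ = F ⟨a, b⟩ := fun a b => by
    rw [← h.two ⟨a, b⟩ gi, two_pow_mk]; congr 1; ext <;> simp [gi]
  have e : ∀ a b : ℕ, F ((⟨a, b⟩ : GI) + x) = F ⟨a + x.re, b + x.im⟩ := fun a b => rfl
  simp only [e]
  rw [← sum_range_shift (2 ^ m) (fun a => ∑ b ∈ Finset.range (2 ^ m), F ⟨a, b⟩)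
    (fun a => by simp only [hr]) x.re]
  exact Finset.sum_congr rfl fun a _ =>
    sum_range_shift (2 ^ m) (fun b => F ⟨a + x.re, b⟩) (fun b => hi _ _) x.im

theorem ts_star {m : ℕ} {F : GI → V} (h : Per m F) : ts m (fun u => F (star u)) = ts m F := by
  unfold ts; congr 1
  have hi : ∀ a b : ℤ, F ⟨a, b + (2 ^ m : ℕ)⟩ = F ⟨a, b⟩ := fun a b => by
    rw [← h.two ⟨a, b⟩ gi, two_pow_mk]; congr 1; ext <;> simp [gi]
  exact Finset.sum_congr rfl fun a _ => sum_range_neg (2 ^ m) (fun b => F ⟨a, b⟩) (hi a)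

theorem ts_gi {m : ℕ} {F : GI → V} (h : Per m F) : ts m (fun u => F (gi * u)) = ts m F := by
  rw [← ts_star (h.mul gi)]
  unfold ts; congr 1
  rw [Finset.sum_comm]
  refine Finset.sum_congr rfl fun a _ => Finset.sum_congr rfl fun b _ => ?_
  refine congrArg F ?_; ext <;> simp [gi]

theorem ts_neg_arg {m : ℕ} {F : GI → V} (h : Per m F) : ts m (fun u => F (-u)) = ts m F := by
  rw [← ts_gi h, ← ts_gi (h.mul gi)]
  simp only [← mul_assoc, gi_mul_gi, neg_one_mul]

theorem ts_sub_left {m : ℕ} {F : GI → V} (h : Per m F) (x : GI) :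
    ts m (fun u => F (x - u)) = ts m F := by
  rw [← ts_shift h x, ← ts_neg_arg (h.shift x)]
  simp only [sub_eq_neg_add]

end lin

theorem ts_mul_left (m : ℕ) (a : ℂ) (F : GI → ℂ) : ts m (fun u => a * F u) = a * ts m F :=
  (ts_map (LinearMap.mul ℝ ℂ a) m F).symm
theorem ts_mul_left_real (m : ℕ) (a : ℝ) (F : GI → ℝ) : ts m (fun u => a * F u) = a * ts m F :=
  ts_smul m a F
theorem ts_re (m : ℕ) (F : GI → ℂ) : (ts m F).re = ts m (fun u => (F u).re) := ts_map reLm m F
theorem ts_im (m : ℕ) (F : GI → ℂ) : (ts m F).im = ts m (fun u => (F u).im) := ts_map imLm m F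
theorem ts_conj (m : ℕ) (F : GI → ℂ) : conj (ts m F) = ts m (fun u => conj (F u)) :=
  ts_map conjAe.toLinearMap m F
theorem ts_ofReal (m : ℕ) (F : GI → ℝ) : ((ts m F : ℝ) : ℂ) = ts m (fun u => (F u : ℂ)) :=
  ts_map ofRealAm.toLinearMap m F
theorem ts_mono (m : ℕ) {F G : GI → ℝ} (h : ∀ u, F u ≤ G u) : ts m F ≤ ts m G := by
  unfold ts
  exact smul_le_smul_of_nonneg_left
    (Finset.sum_le_sum fun a _ => Finset.sum_le_sum fun b _ => h _) (by positivity)
theorem ts_nonneg (m : ℕ) {F : GI → ℝ} (h : ∀ u, 0 ≤ F u) : 0 ≤ ts m F := by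
  simpa using ts_mono m (F := fun _ => 0) h
theorem norm_ts_le {V : Type*} [NormedAddCommGroup V] [NormedSpace ℝ V] (m : ℕ) (F : GI → V) :
    ‖ts m F‖ ≤ ts m (fun u => ‖F u‖) := by
  unfold ts
  rw [norm_smul, Real.norm_of_nonneg (by positivity), smul_eq_mul]
  gcongr
  exact (norm_sum_le _ _).trans (Finset.sum_le_sum fun a _ => norm_sum_le _ _)
theorem av_mono (m : ℕ) {F G : GI → ℝ} (h : ∀ u, F u ≤ G u) : av m F ≤ av m G :=
  smul_le_smul_of_nonneg_left (ts_mono m h) (by positivity)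
theorem av_nonneg (m : ℕ) {F : GI → ℝ} (h : ∀ u, 0 ≤ F u) : 0 ≤ av m F :=
  smul_nonneg (by positivity) (ts_nonneg m h)
theorem norm_av_le {V : Type*} [NormedAddCommGroup V] [NormedSpace ℝ V] (m : ℕ) (F : GI → V) :
    ‖av m F‖ ≤ av m (fun u => ‖F u‖) := by
  unfold av
  rw [norm_smul, Real.norm_of_nonneg (by positivity), smul_eq_mul]
  gcongr
  exact norm_ts_le m F
theorem msq_nonneg (m : ℕ) (F : GI → ℂ) : 0 ≤ msq m F := av_nonneg m fun _ => sq_nonneg _
theorem g2_nonneg (m : ℕ) (F : GI → ℂ) : 0 ≤ g2 m F := add_nonneg (msq_nonneg _ _) (msq_nonneg _ _)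
theorem msq_mono (m : ℕ) {F G : GI → ℂ} (h : ∀ u, ‖F u‖ ≤ ‖G u‖) : msq m F ≤ msq m G :=
  av_mono m fun u => by gcongr; exact h u
theorem msq_le_of_le (m : ℕ) {F : GI → ℂ} {b : ℝ} (h : ∀ u, ‖F u‖ ≤ b) : msq m F ≤ b ^ 2 := by
  have := av_mono m (F := fun u => ‖F u‖ ^ 2) (G := fun _ => b ^ 2) fun u => by gcongr; exact h u
  rwa [av_const] at this
theorem msq_mul (m : ℕ) (a : ℂ) (F : GI → ℂ) : msq m (fun u => a * F u) = ‖a‖ ^ 2 * msq m F := by
  simp only [msq, av, norm_mul, mul_pow, ts_mul_left_real, smul_eq_mul]; ring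
theorem msq_shift {m : ℕ} {F : GI → ℂ} (h : Per m F) (x : GI) :
    msq m (fun u => F (u + x)) = msq m F := by
  unfold msq av
  rw [ts_shift (F := fun u => ‖F u‖ ^ 2) (fun u w => by simp only [h u w]) x]

/-- Cauchy-Schwarz. -/
theorem av_mul_le (m : ℕ) (a b : GI → ℂ) :
    av m (fun u => ‖a u‖ * ‖b u‖) ≤ √(msq m a) * √(msq m b) := by
  have hA := msq_nonneg m a
  have hB := msq_nonneg m b
  have key : ∀ x : ℝ, 0 ≤ msq m a * (x * x) + -2 * av m (fun u => ‖a u‖ * ‖b u‖) * x + msq m b := by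
    intro x
    have h := av_nonneg m (F := fun u => (x * x) * ‖a u‖ ^ 2 + ((-2 * x) * (‖a u‖ * ‖b u‖)
      + ‖b u‖ ^ 2)) fun u => by nlinarith [sq_nonneg (x * ‖a u‖ - ‖b u‖)]
    simp only [av, ts_add, ts_mul_left_real, smul_eq_mul, msq] at h ⊢
    linarith
  have hd := discrim_le_zero key
  rw [discrim] at hd
  rw [← Real.sqrt_mul hA]
  exact Real.le_sqrt_of_sq_le (by linarith)

/-- Minkowski. -/
theorem sqrt_msq_add_le (m : ℕ) (a b : GI → ℂ) :
    √(msq m (fun u => a u + b u)) ≤ √(msq m a) + √(msq m b) := by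
  have hA := Real.sq_sqrt (msq_nonneg m a)
  have hB := Real.sq_sqrt (msq_nonneg m b)
  have h1 := av_mul_le m a b
  have h2 := av_mono m (F := fun u => ‖a u + b u‖ ^ 2)
    (G := fun u => ‖a u‖ ^ 2 + (2 * (‖a u‖ * ‖b u‖) + ‖b u‖ ^ 2)) fun u => by
      have := norm_add_le (a u) (b u)
      nlinarith [norm_nonneg (a u + b u), norm_nonneg (a u), norm_nonneg (b u)]
  apply Real.sqrt_le_iff.2 ⟨by positivity, ?_⟩
  simp only [av, ts_add, ts_mul_left_real, smul_eq_mul, msq] at *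
  nlinarith

theorem msq_add_le (m : ℕ) (a b : GI → ℂ) :
    msq m (fun u => a u + b u) ≤ 2 * msq m a + 2 * msq m b := by
  have h2 := av_mono m (F := fun u => ‖a u + b u‖ ^ 2)
    (G := fun u => 2 * ‖a u‖ ^ 2 + 2 * ‖b u‖ ^ 2) fun u => by
      have := norm_add_le (a u) (b u)
      nlinarith [norm_nonneg (a u + b u), sq_nonneg (‖a u‖ - ‖b u‖), norm_nonneg (a u),
        norm_nonneg (b u)]
  simp only [av, ts_add, ts_mul_left_real, smul_eq_mul, msq] at *
  linarith

theorem dd_pos (m : ℕ) : 0 < dd m := by unfold dd; positivity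
theorem tt_pos (m : ℕ) : 0 < tt m := by unfold tt; positivity
theorem tt_pow_16 (m : ℕ) : tt m ^ 16 = dd m := by
  unfold tt dd
  rw [← Real.rpow_natCast, ← Real.rpow_mul (by norm_num)]; congr 1; push_cast; ring
theorem dd_sq (m : ℕ) : dd m ^ 2 = ((2 : ℝ) ^ m)⁻¹ := by
  unfold dd
  rw [← Real.rpow_natCast, ← Real.rpow_mul (by norm_num), ← Real.rpow_natCast 2 m,
    ← Real.rpow_neg (by norm_num)]; congr 1; push_cast; ring
theorem tt_anti {m n : ℕ} (h : m ≤ n) : tt n ≤ tt m := by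
  unfold tt
  apply Real.rpow_le_rpow_of_exponent_le (by norm_num)
  have : (m : ℝ) ≤ n := by exact_mod_cast h
  linarith
theorem tt_le_one (m : ℕ) : tt m ≤ 1 := by simpa [tt] using tt_anti (Nat.zero_le m)
theorem dd_anti {m n : ℕ} (h : m ≤ n) : dd n ≤ dd m := by
  rw [← tt_pow_16, ← tt_pow_16]; gcongr; exacts [(tt_pos _).le, tt_anti h]
theorem dd_le_one (m : ℕ) : dd m ≤ 1 := by simpa [dd] using dd_anti (Nat.zero_le m)
theorem tt_pow_succ (m : ℕ) : tt m ^ 32 = 2 * tt (m + 1) ^ 32 := by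
  have h : ∀ k, tt k ^ 32 = ((2 : ℝ) ^ k)⁻¹ := fun k => by rw [← dd_sq, ← tt_pow_16]; ring
  rw [h, h, pow_succ]; field_simp
/-- Neighbouring levels have comparable scales. -/
theorem tt_pow_le {m n : ℕ} (h : n ≤ m + 1) {k : ℕ} (hk : k ≤ 64) : tt m ^ k ≤ 4 * tt n ^ k := by
  have h0 := tt_pos m
  have h1 := tt_pos (m + 1)
  have h2 : tt (m + 1) ^ k ≤ tt n ^ k := by gcongr; exact tt_anti h
  have h3 : 1 ≤ tt m / tt (m + 1) := (one_le_div h1).2 (tt_anti (Nat.le_succ m))
  have h4 : (tt m / tt (m + 1)) ^ k ≤ (tt m / tt (m + 1)) ^ 64 := pow_le_pow_right₀ h3 hk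
  have h5 : (tt m / tt (m + 1)) ^ 64 = 4 := by
    rw [show 64 = 32 * 2 by rfl, pow_mul, div_pow, tt_pow_succ]; field_simp; norm_num
  rw [h5, div_pow, div_le_iff₀ (by positivity)] at h4
  linarith
/-- Powers of `m` lose against `tt m`. -/
theorem exists_pow_mul_tt_le (p : ℕ) {η : ℝ} (hη : 0 < η) :
    ∃ m0 : ℕ, ∀ m, m0 ≤ m → (m : ℝ) ^ p * tt m ≤ η := by
  have hr : |tt 1| < 1 := by
    rw [abs_of_pos (tt_pos 1)]; unfold tt
    exact Real.rpow_lt_one_of_one_lt_of_neg (by norm_num) (by norm_num)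
  have h := tendsto_pow_const_mul_const_pow_of_abs_lt_one p hr
  obtain ⟨m0, hm⟩ := eventually_atTop.1 (h.eventually (ge_mem_nhds hη))
  refine ⟨m0, fun m h => ?_⟩
  have e : tt m = tt 1 ^ m := by
    unfold tt
    rw [← Real.rpow_natCast, ← Real.rpow_mul (by norm_num)]; congr 1; push_cast; ring
  rw [e]; exact hm m h

end Pool.Agent.P.MP_cc4a10_gt
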