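import Pool.Agent.P.MP_cc4a10_gt.St

/-!
The linearised form on one level is bounded.
-/

open Set Filter Topology Complex Metric
open scoped ComplexConjugate Real

noncomputable section

namespace Pool.Agent.P.MP_cc4a10_gt.BddP

/-- The field of displacements. -/
def fe (E : Ell) (l : Lv) (ε : GI → ℂ) (u : GI) : ℂ :=
  ts l.m (fun w => (q0 l w : ℂ) * (E.Z 0 (l.c * ((u - w : GI) : ℂ)) * (ε u - ε w)))

/-- The potential of a density. -/
def fg (E : Ell) (l : Lv) (ρ : GI → ℝ) (u : GI) : ℂ :=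
  ts l.m (fun w => (ρ w : ℂ) * (E.Gr 0 (l.c * ((u - w : GI) : ℂ)) : ℂ))

theorem arg_per (l : Lv) {w0 : GI} (h : l.c * ((om ^ l.m : GI) : ℂ) = w0) (x w : GI) :
    l.c * ((x + om ^ l.m * w : GI) : ℂ) = l.c * (x : ℂ) + Lm 0 ((w0 * w : GI) : ℂ) := by
  simp only [Lm, zero_mul, add_zero]
  rw [GaussianInt.toComplex_add, GaussianInt.toComplex_mul, GaussianInt.toComplex_mul, ← h]
  ring

theorem Z_per (E : Ell) (l : Lv) {w0 : GI} (h : l.c * ((om ^ l.m : GI) : ℂ) = w0) :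
    Per l.m (fun x : GI => E.Z 0 (l.c * (x : ℂ))) := fun x w => by
  simp only [arg_per l h]
  exact E.Zper 0 (by simp) _ _

theorem G_per (E : Ell) (l : Lv) {w0 : GI} (h : l.c * ((om ^ l.m : GI) : ℂ) = w0) :
    Per l.m (fun x : GI => E.Gr 0 (l.c * (x : ℂ))) := fun x w => by
  simp only [arg_per l h]
  exact E.Gper 0 (by simp) _ _

theorem fe_per (E : Ell) (l : Lv) {w0 : GI} (h : l.c * ((om ^ l.m : GI) : ℂ) = w0)
    {ε : GI → ℂ} (hε : Per l.m ε) : Per l.m (fe E l ε) := fun u v => by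
  unfold fe
  congr 1
  funext w
  have := Z_per E l h (u - w) v
  simp only at this
  rw [hε u v, show u + om ^ l.m * v - w = u - w + om ^ l.m * v by ring, this]

theorem fg_per (E : Ell) (l : Lv) {w0 : GI} (h : l.c * ((om ^ l.m : GI) : ℂ) = w0)
    (ρ : GI → ℝ) : Per l.m (fg E l ρ) := fun u v => by
  unfold fg
  congr 1
  funext w
  have := G_per E l h (u - w) v
  simp only at this
  rw [show u + om ^ l.m * v - w = u - w + om ^ l.m * v by ring, this]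

/-- The form splits into five terms. -/
theorem BL_split (E : Ell) (l : Lv) (ε ε' : GI → ℂ) (σ σ' : GI → ℝ)
    (hodd : ∀ z, E.Z 0 (-z) = -E.Z 0 z)
    (h0 : ∀ w, ts l.m (fun u => (q0 l u : ℂ) * E.Z 0 (l.c * ((w - u : GI) : ℂ))) = 0) :
    BL E l ε σ ε' σ' = pair l (Flin E l ε 0) 0 ε' 0
      + (ts l.m (fun w => ((q0 l w * σ w : ℝ) : ℂ) * fe E l ε' w)).re
      + (ts l.m (fun u => ((q0 l u * σ' u : ℝ) : ℂ) * fe E l ε u)).re
      + (ts l.m (fun u => ((q0 l u * σ' u : ℝ) : ℂ) * fg E l (fun w => q0 l w * σ w) u)).re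
      + ts l.m (fun u => q0 l u ^ 2 * (Real.log |q0 l u| + 1) * σ u * σ' u) := by
  have e2 : ts l.m (fun w => ((q0 l w * σ w : ℝ) : ℂ) * fe E l ε' w)
      = ts l.m (fun u => (q0 l u : ℂ) * ts l.m (fun w => ((q0 l w * σ w : ℝ) : ℂ)
          * E.Z 0 (l.c * ((u - w : GI) : ℂ))) * ε' u) := by
    have a1 : ∀ w, ((q0 l w * σ w : ℝ) : ℂ) * fe E l ε' w
        = ts l.m (fun u => (q0 l u : ℂ) * (((q0 l w * σ w : ℝ) : ℂ)
          * E.Z 0 (l.c * ((u - w : GI) : ℂ))) * ε' u) := by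
      intro w
      have b1 : fe E l ε' w = ts l.m (fun u => (q0 l u : ℂ) *
          E.Z 0 (l.c * ((u - w : GI) : ℂ)) * ε' u
          + ε' w * ((q0 l u : ℂ) * E.Z 0 (l.c * ((w - u : GI) : ℂ)))) := by
        unfold fe
        congr 1
        funext u
        have : l.c * ((u - w : GI) : ℂ) = -(l.c * ((w - u : GI) : ℂ)) := by
          rw [GaussianInt.toComplex_sub, GaussianInt.toComplex_sub]; ring
        rw [this, hodd]; ring
      rw [b1, ts_add, ts_mul_left, h0 w, mul_zero, add_zero, ← ts_mul_left]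
      congr 1
      funext u
      ring
    simp only [a1]
    rw [ts_comm]
    congr 1
    funext u
    rw [mul_comm _ (ε' u), ← mul_assoc, ← ts_mul_left]
    congr 1
    funext w
    ring
  rw [e2, ts_re, ts_re, ts_re]
  unfold BL pair
  rw [← ts_add, ← ts_add, ← ts_add, ← ts_add]
  congr 1
  funext u
  have r1 : Rlin E l ε σ u = Rlin E l ε 0 u + ts l.m (fun w => ((q0 l w * σ w : ℝ) : ℂ)
      * E.Z 0 (l.c * ((u - w : GI) : ℂ))) := by
    unfold Rlin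
    rw [← ts_add]
    congr 1
    funext w
    simp
  have r2 : hlin E l ε σ u = (fe E l ε u).re + (fg E l (fun w => q0 l w * σ w) u).re := by
    unfold hlin fe fg
    rw [ts_re, ts_re, ← ts_add]
    congr 1
    funext w
    rw [re_ofReal_mul, ← ofReal_mul, ofReal_re]
  unfold Flin Glin
  rw [r1, r2, re_ofReal_mul, re_ofReal_mul, mul_add, add_mul, add_re]
  simp only [Pi.zero_apply, mul_zero, add_zero]
  ring

theorem re_ts_le (m : ℕ) (ρ : GI → ℝ) (f : GI → ℂ) {D : ℝ}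
    (h : ‖av m (fun u => (ρ u : ℂ) * f u)‖ ≤ D) :
    |(ts m (fun u => (ρ u : ℂ) * f u)).re| ≤ D / dd m ^ 2 := by
  refine (abs_re_le_norm _).trans ?_
  rw [ts_eq_av, norm_smul, Real.norm_of_nonneg (by positivity), dd_sq, div_inv_eq_mul, mul_comm]
  gcongr

theorem sqrt_g2_le (l : Lv) (ε : GI → ℂ) (σ : GI → ℝ) :
    √(g2 l.m ε) ≤ dd l.m * √(nb2 l ε σ) := by
  have hd := dd_pos l.m
  have e : dd l.m * √(nb2 l ε σ) = √(dd l.m ^ 2 * nb2 l ε σ) := by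
    rw [Real.sqrt_mul (sq_nonneg _), Real.sqrt_sq hd.le]
  rw [e]
  apply Real.sqrt_le_sqrt
  have h1 : 0 ≤ (l.m : ℝ) * msq l.m (fun u => (σ u : ℂ)) :=
    mul_nonneg (Nat.cast_nonneg _) (msq_nonneg _ _)
  have h2 : g2 l.m ε / dd l.m ^ 2 ≤ nb2 l ε σ := by
    unfold nb2
    nlinarith [sq_nonneg (dn l.m (fun u => q0 l u * σ u / dd l.m ^ 2))]
  rwa [div_le_iff₀ (by positivity), mul_comm] at h2

theorem sqrt_msq_le (l : Lv) (hm : 1 ≤ l.m) (ε : GI → ℂ) (σ : GI → ℝ) :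
    √(msq l.m (fun u => (σ u : ℂ))) ≤ √(nb2 l ε σ) := by
  apply Real.sqrt_le_sqrt
  have h1 : (1 : ℝ) ≤ l.m := by exact_mod_cast hm
  have h2 : 0 ≤ g2 l.m ε / dd l.m ^ 2 := div_nonneg (g2_nonneg _ _) (sq_nonneg _)
  have h3 := msq_nonneg l.m (fun u => (σ u : ℂ))
  unfold nb2
  nlinarith [sq_nonneg (dn l.m (fun u => q0 l u * σ u / dd l.m ^ 2))]

theorem dn_le (l : Lv) (ε : GI → ℂ) (σ : GI → ℝ)
    (h : ∀ a : ℝ, dn l.m (fun u => a * (q0 l u * σ u)) = |a| * dn l.m (fun u => q0 l u * σ u)) :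
    dn l.m (fun u => q0 l u * σ u) ≤ dd l.m ^ 2 * √(nb2 l ε σ) := by
  have hd := dd_pos l.m
  have h1 := h (dd l.m ^ 2)⁻¹
  have e : (fun u => (dd l.m ^ 2)⁻¹ * (q0 l u * σ u)) = fun u => q0 l u * σ u / dd l.m ^ 2 := by
    funext u; ring
  rw [e, abs_of_pos (by positivity)] at h1
  have h2 : dn l.m (fun u => q0 l u * σ u / dd l.m ^ 2) ≤ √(nb2 l ε σ) := by
    apply Real.le_sqrt_of_sq_le
    have h3 : 0 ≤ (l.m : ℝ) * msq l.m (fun u => (σ u : ℂ)) :=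
      mul_nonneg (Nat.cast_nonneg _) (msq_nonneg _ _)
    have h4 : 0 ≤ g2 l.m ε / dd l.m ^ 2 := div_nonneg (g2_nonneg _ _) (sq_nonneg _)
    unfold nb2
    linarith
  rw [h1, inv_mul_le_iff₀ (by positivity)] at h2
  exact h2

theorem log_le (m : ℕ) (hm : 2 ≤ m) {q : ℝ} (h1 : 2 * dd m ^ 2 ≤ q) (h2 : q ≤ 4 * dd m ^ 2) :
    |Real.log q + 1| ≤ 2 * m := by
  have hd : 0 < dd m ^ 2 := by have := dd_pos m; positivity
  have hm' : (2 : ℝ) ≤ m := by exact_mod_cast hm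
  have h3 : dd m ^ 2 ≤ 1 / 4 := by
    rw [dd_sq, one_div]
    apply inv_anti₀ (by norm_num)
    calc (4 : ℝ) = 2 ^ 2 := by norm_num
      _ ≤ 2 ^ m := pow_le_pow_right₀ (by norm_num) hm
  have h4 : Real.log q ≤ 0 := Real.log_nonpos (by linarith) (by linarith)
  have h5 : Real.log (dd m ^ 2) ≤ Real.log q := Real.log_le_log hd (by linarith)
  rw [dd_sq, Real.log_inv, Real.log_pow] at h5
  have h6 : Real.log 2 ≤ 1 := by
    have := Real.log_le_sub_one_of_pos (show (0 : ℝ) < 2 by norm_num); linarith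
  rw [abs_le]
  constructor <;> nlinarith

theorem diag_le (l : Lv) (hm : 2 ≤ l.m) (σ σ' : GI → ℝ)
    (h1 : ∀ u, q0 l u ≠ 0 → 2 * dd l.m ^ 2 ≤ |q0 l u|) (h2 : ∀ u, |q0 l u| ≤ 4 * dd l.m ^ 2) :
    |ts l.m (fun u => q0 l u ^ 2 * (Real.log |q0 l u| + 1) * σ u * σ' u)|
      ≤ 32 * l.m * dd l.m ^ 2 *
        (√(msq l.m (fun u => (σ u : ℂ))) * √(msq l.m (fun u => (σ' u : ℂ)))) := by
  have hd := dd_pos l.m
  have a1 := norm_ts_le l.m (fun u => q0 l u ^ 2 * (Real.log |q0 l u| + 1) * σ u * σ' u)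
  have a2 : ts l.m (fun u => ‖q0 l u ^ 2 * (Real.log |q0 l u| + 1) * σ u * σ' u‖)
      ≤ ts l.m (fun u => (32 * l.m * dd l.m ^ 4) * (‖(σ u : ℂ)‖ * ‖(σ' u : ℂ)‖)) := by
    refine ts_mono _ fun u => ?_
    rw [norm_mul, norm_mul, norm_real, norm_real, mul_assoc]
    gcongr
    by_cases hq : q0 l u = 0
    · rw [hq]; simp; positivity
    · rw [norm_mul, Real.norm_eq_abs, Real.norm_eq_abs, abs_pow]
      have b1 := log_le l.m hm (h1 u hq) (h2 u)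
      have b2 : |q0 l u| ^ 2 ≤ (4 * dd l.m ^ 2) ^ 2 := by gcongr; exact h2 u
      calc |q0 l u| ^ 2 * |Real.log |q0 l u| + 1| ≤ (4 * dd l.m ^ 2) ^ 2 * (2 * l.m) := by gcongr
        _ = 32 * l.m * dd l.m ^ 4 := by ring
  rw [ts_mul_left_real, ts_eq_av l.m (fun u => ‖(σ u : ℂ)‖ * ‖(σ' u : ℂ)‖), smul_eq_mul] at a2
  have a3 := av_mul_le l.m (fun u => (σ u : ℂ)) (fun u => (σ' u : ℂ))
  have a4 : dd l.m ^ 2 * 2 ^ l.m = 1 := by rw [dd_sq]; field_simp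
  rw [Real.norm_eq_abs] at a1
  refine a1.trans (a2.trans ?_)
  calc 32 * l.m * dd l.m ^ 4 * (2 ^ l.m * av l.m fun u => ‖(σ u : ℂ)‖ * ‖(σ' u : ℂ)‖)
      = 32 * l.m * dd l.m ^ 2 * (dd l.m ^ 2 * 2 ^ l.m) *
        av l.m fun u => ‖(σ u : ℂ)‖ * ‖(σ' u : ℂ)‖ := by ring
    _ ≤ _ := by rw [a4, mul_one]; gcongr

/-- Gradient of the potential of a neutral density. -/
theorem g2_fg_le (hDual : S_Dual) (E : Ell) (l : Lv) (hm : 2 ≤ l.m) {w0 : GI}
    (h : l.c * ((om ^ l.m : GI) : ℂ) = w0) {ρ : GI → ℝ} (hρ : Per l.m ρ) (hn : ts l.m ρ = 0)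
    {B : ℝ}
    (hB : ∀ g g' : GI, St g → St g' → ts l.m (fun x => |E.Gr 0 (l.c * (x + g + g' : GI))
      - E.Gr 0 (l.c * (x + g : GI)) - E.Gr 0 (l.c * (x + g' : GI)) + E.Gr 0 (l.c * x)|) ≤ B) :
    g2 l.m (fg E l ρ) ≤ (2 * B * dn l.m ρ) ^ 2 := by
  have key : ∀ g : GI, St g → msq l.m (fun u => fg E l ρ (u + g) - fg E l ρ u)
      ≤ 2 * B ^ 2 * dn l.m ρ ^ 2 := by
    intro g hg
    have hG := G_per E l h
    have hk : Per l.m (fun x : GI => ((E.Gr 0 (l.c * ((x + g : GI) : ℂ))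
        - E.Gr 0 (l.c * (x : ℂ)) : ℝ) : ℂ)) := fun x w => by
      have e1 := hG.shift g x w
      have e2 := hG x w
      simp only at e1 e2 ⊢
      rw [e1, e2]
    have hs : ∀ g' : GI, St g' → ts l.m (fun x : GI =>
        ‖((E.Gr 0 (l.c * ((x + g' + g : GI) : ℂ)) - E.Gr 0 (l.c * ((x + g' : GI) : ℂ)) : ℝ) : ℂ)
          - ((E.Gr 0 (l.c * ((x + g : GI) : ℂ)) - E.Gr 0 (l.c * (x : ℂ)) : ℝ) : ℂ)‖) ≤ B := by
      intro g' hg'
      refine le_of_eq_of_le ?_ (hB g' g hg' hg)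
      congr 1
      funext x
      rw [← ofReal_sub, norm_real, Real.norm_eq_abs]
      congr 1
      ring
    have := hDual l.m ρ _ B hm hρ hn hk (hs 1 (Or.inl rfl))
      (hs gi (Or.inr (Or.inr (Or.inl rfl))))
    refine le_of_eq_of_le ?_ this
    congr 1
    funext u
    unfold fg
    rw [← ts_sub]
    congr 1
    funext w
    rw [show u + g - w = u - w + g by ring]
    push_cast
    ring
  have k1 := key 1 (Or.inl rfl)
  have k2 := key gi (Or.inr (Or.inr (Or.inl rfl)))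
  unfold g2
  nlinarith

end Pool.Agent.P.MP_cc4a10_gt.BddP

namespace Pool.Agent.P.MP_cc4a10_gt

open BddP

theorem pBdd (hA : S_BddA) (hB : S_BddB) (hDn : S_Dn) (hDual : S_Dual) (hSum : S_Sum)
    (hDip : S_Dip) (hK0 : S_Ker0) (hKG : S_KerG) : S_Bdd := by
  intro E
  obtain ⟨CA, mA, hCA, hA⟩ := hA E
  obtain ⟨CB, mB, hCB, hB⟩ := hB E
  obtain ⟨CD, -, hDn⟩ := hDn
  obtain ⟨CS, hCS, hSum⟩ := hSum
  obtain ⟨C0, -, hK0⟩ := hK0 E
  obtain ⟨CG, mG, hCG, hKG⟩ := hKG E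
  refine ⟨CA + CB + CB + 4 * CG * CS + 32, max mA (max mB mG), by positivity, ?_⟩
  intro l hl hm ε σ ε' σ' hv hv'
  have hmA : mA ≤ l.m := (le_max_left _ _).trans hm
  have hmB : mB ≤ l.m := ((le_max_left _ _).trans (le_max_right _ _)).trans hm
  have hmG : mG ≤ l.m := ((le_max_right _ _).trans (le_max_right _ _)).trans hm
  have h2 : 2 ≤ l.m := hl.1
  have hd := dd_pos l.m
  obtain ⟨-, hsym, hq, -, -, hq1, hq2, -, ⟨w0, hw0, -⟩, -⟩ := hDip l hl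
  have hodd : ∀ z, E.Z 0 (-z) = -E.Z 0 z := fun z => ((hK0 0 (by simp)).2.2.2.2.1 z).1
  have h0 : ∀ w, ts l.m (fun u => (q0 l u : ℂ) * E.Z 0 (l.c * ((w - u : GI) : ℂ))) = 0 :=
    fun w => hsym (fun x => E.Z 0 (l.c * (x : ℂ))) w (Z_per E l hw0) fun x => by
      simp only [GaussianInt.toComplex_neg, mul_neg, hodd]
  rw [BL_split E l ε ε' σ σ' hodd h0]
  have hρ : Per l.m (fun u => q0 l u * σ u) := fun u w => by simp only [hq u w, hv.ps u w]
  have hρ' : Per l.m (fun u => q0 l u * σ' u) := fun u w => by simp only [hq u w, hv'.ps u w]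
  obtain ⟨d0, d1, -, -, d2, -⟩ := hDn l.m _ h2 hρ hv.neu
  obtain ⟨d0', d1', -, -, d2', -⟩ := hDn l.m _ h2 hρ' hv'.neu
  set N := √(nb2 l ε σ)
  set N' := √(nb2 l ε' σ')
  have hN : 0 ≤ N := Real.sqrt_nonneg _
  have hN' : 0 ≤ N' := Real.sqrt_nonneg _
  have g1 : √(g2 l.m ε) ≤ dd l.m * N := sqrt_g2_le l ε σ
  have g1' : √(g2 l.m ε') ≤ dd l.m * N' := sqrt_g2_le l ε' σ'
  have n1 : dn l.m (fun u => q0 l u * σ u) ≤ dd l.m ^ 2 * N := dn_le l ε σ d2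
  have n1' : dn l.m (fun u => q0 l u * σ' u) ≤ dd l.m ^ 2 * N' := dn_le l ε' σ' d2'
  have fb : ∀ e : GI → ℂ, Per l.m e → √(g2 l.m (fe E l e)) ≤ CB * l.m * dd l.m * √(g2 l.m e) := by
    intro e he
    rw [← Real.sqrt_sq (show 0 ≤ CB * l.m * dd l.m by positivity), ← Real.sqrt_mul (sq_nonneg _)]
    exact Real.sqrt_le_sqrt (hB l hl hmB e he)
  have t1 : |pair l (Flin E l ε 0) 0 ε' 0| ≤ CA * l.m * dd l.m ^ 2 * (N * N') :=
    calc _ ≤ CA * l.m * (√(g2 l.m ε) * √(g2 l.m ε')) := hA l hl hmA ε ε' hv.pe hv'.pe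
      _ ≤ CA * l.m * ((dd l.m * N) * (dd l.m * N')) := by gcongr
      _ = _ := by ring
  have t2 : |(ts l.m (fun w => ((q0 l w * σ w : ℝ) : ℂ) * fe E l ε' w)).re|
      ≤ CB * l.m * dd l.m ^ 2 * (N * N') := by
    refine (re_ts_le l.m _ _ (d1 _ (fe_per E l hw0 hv'.pe))).trans ?_
    rw [div_le_iff₀ (by positivity)]
    calc _ ≤ (dd l.m ^ 2 * N) * (CB * l.m * dd l.m * (dd l.m * N')) := by
          gcongr
          exact (fb ε' hv'.pe).trans (by gcongr)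
      _ = _ := by ring
  have t3 : |(ts l.m (fun w => ((q0 l w * σ' w : ℝ) : ℂ) * fe E l ε w)).re|
      ≤ CB * l.m * dd l.m ^ 2 * (N * N') := by
    refine (re_ts_le l.m _ _ (d1' _ (fe_per E l hw0 hv.pe))).trans ?_
    rw [div_le_iff₀ (by positivity)]
    calc _ ≤ (dd l.m ^ 2 * N') * (CB * l.m * dd l.m * (dd l.m * N)) := by
          gcongr
          exact (fb ε hv.pe).trans (by gcongr)
      _ = _ := by ring
  have hGB : ∀ g g' : GI, St g → St g' → ts l.m (fun x => |E.Gr 0 (l.c * (x + g + g' : GI))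
      - E.Gr 0 (l.c * (x + g : GI)) - E.Gr 0 (l.c * (x + g' : GI)) + E.Gr 0 (l.c * x)|)
      ≤ 2 * CG * CS * l.m := by
    intro g g' hg hg'
    obtain ⟨-, s2, s3⟩ := hSum l.m (by omega)
    have a1 := ts_mono l.m (G := fun x => CG * (1 / Hh l.m x ^ 2 + l.m * (1 / Hh l.m x ^ 3)))
      fun x => ((hKG l 0 hl hmG (by simp) x g g' hg hg').2.2).trans (le_of_eq (by ring))
    refine a1.trans ?_
    rw [ts_mul_left_real, ts_add, ts_mul_left_real]
    calc _ ≤ CG * (CS * l.m + l.m * CS) := by gcongr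
      _ = _ := by ring
  have t4 : |(ts l.m (fun u => ((q0 l u * σ' u : ℝ) : ℂ) *
      fg E l (fun w => q0 l w * σ w) u)).re| ≤ 4 * CG * CS * l.m * dd l.m ^ 2 * (N * N') := by
    refine (re_ts_le l.m _ _ (d1' _ (fg_per E l hw0 _))).trans ?_
    rw [div_le_iff₀ (by positivity)]
    have a1 : √(g2 l.m (fg E l (fun w => q0 l w * σ w)))
        ≤ 2 * (2 * CG * CS * l.m) * dn l.m (fun w => q0 l w * σ w) :=
      Real.sqrt_le_iff.2 ⟨by positivity, g2_fg_le hDual E l h2 hw0 hρ hv.neu hGB⟩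
    calc _ ≤ (dd l.m ^ 2 * N') * (2 * (2 * CG * CS * l.m) * (dd l.m ^ 2 * N)) := by
          gcongr
          exact a1.trans (by gcongr)
      _ = _ := by ring
  have t5 : |ts l.m (fun u => q0 l u ^ 2 * (Real.log |q0 l u| + 1) * σ u * σ' u)|
      ≤ 32 * l.m * dd l.m ^ 2 * (N * N') := by
    refine (diag_le l h2 σ σ' hq1 hq2).trans ?_
    gcongr
    · exact sqrt_msq_le l (by omega) ε σ
    · exact sqrt_msq_le l (by omega) ε' σ'
  rw [abs_le] at t1 t2 t3 t4 t5 ⊢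
  constructor <;> nlinarith [t1.1, t1.2, t2.1, t2.2, t3.1, t3.2, t4.1, t4.2, t5.1, t5.2]

end Pool.Agent.P.MP_cc4a10_gt
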