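import Pool.Agent.P.MP_cc4a10_gt.St

/-!
The displacement block of the linearised form is bounded.
-/

open Complex
open scoped ComplexConjugate Real

noncomputable section

namespace Pool.Agent.P.MP_cc4a10_gt.BddAP

/-- Double mean. -/
def J (m : ℕ) (X : GI → GI → ℝ) : ℝ := av m (fun u => ts m (fun w => X u w))

theorem J_mono (m : ℕ) {X Y : GI → GI → ℝ} (h : ∀ u w, X u w ≤ Y u w) : J m X ≤ J m Y :=
  av_mono m fun u => ts_mono m (h u)
theorem J_add (m : ℕ) (X Y : GI → GI → ℝ) :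
    J m (fun u w => X u w + Y u w) = J m X + J m Y := by
  simp only [J, ts_add, av_add]
theorem J_mul (m : ℕ) (a : ℝ) (X : GI → GI → ℝ) : J m (fun u w => a * X u w) = a * J m X := by
  simp only [J, av, ts_mul_left_real, smul_eq_mul]; ring
theorem J_comm (m : ℕ) (X : GI → GI → ℝ) : J m (fun u w => X w u) = J m X := by
  unfold J av
  rw [ts_comm m m (fun u w => X w u)]

theorem ts_eq (m : ℕ) (F : GI → ℝ) : dd m ^ 2 * ts m F = av m F := by
  rw [dd_sq, av, smul_eq_mul]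

theorem dip1 (hD : S_Dip) {l : Lv} (hl : l.ok) {Ψ : GI → ℂ} (hΨ : Per l.m Ψ) :
    ‖ts l.m (fun u => (q0 l u : ℂ) * Ψ u)‖
      ≤ 4 * dd l.m ^ 2 * ts l.m (fun u => ‖Ψ (u + 1) - Ψ u‖ + ‖Ψ (u + gi) - Ψ u‖) := by
  obtain ⟨⟨β1, β2, -, -, hb, -, -, he⟩, -⟩ := hD l hl
  rw [he Ψ hΨ, ← ts_mul_left_real]
  refine (norm_ts_le _ _).trans (ts_mono _ fun u => ?_)
  refine (norm_add_le _ _).trans ?_
  rw [norm_mul, norm_mul, norm_real, norm_real, Real.norm_eq_abs, Real.norm_eq_abs, mul_add]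
  gcongr
  exacts [(hb u).1, (hb u).2]

theorem dip2 (hD : S_Dip) {l : Lv} (hl : l.ok) {Φ : GI → GI → ℂ}
    (h1 : ∀ w, Per l.m (fun u => Φ u w)) (h2 : ∀ u, Per l.m (Φ u)) {B : ℝ}
    (hB : ∀ g g' : GI, (g = 1 ∨ g = gi) → (g' = 1 ∨ g' = gi) → J l.m (fun u w =>
      ‖Φ (u + g) (w + g') - Φ u (w + g') - Φ (u + g) w + Φ u w‖) ≤ B) :
    ‖ts l.m (fun u => (q0 l u : ℂ) * ts l.m (fun w => (q0 l w : ℂ) * Φ u w))‖
      ≤ 64 * dd l.m ^ 2 * B := by
  have hd := dd_pos l.m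
  have p : Per l.m (fun u => ts l.m (fun w => (q0 l w : ℂ) * Φ u w)) := fun u x => by
    have : ∀ w, Φ (u + om ^ l.m * x) w = Φ u w := fun w => h1 w u x
    simp only [this]
  have step : ∀ g u : GI, ‖ts l.m (fun w => (q0 l w : ℂ) * Φ (u + g) w)
      - ts l.m (fun w => (q0 l w : ℂ) * Φ u w)‖ ≤ 4 * dd l.m ^ 2 * ts l.m (fun w =>
        ‖Φ (u + g) (w + 1) - Φ u (w + 1) - Φ (u + g) w + Φ u w‖
        + ‖Φ (u + g) (w + gi) - Φ u (w + gi) - Φ (u + g) w + Φ u w‖) := fun g u => by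
    rw [← ts_sub]
    have := dip1 hD hl (Ψ := fun w => Φ (u + g) w - Φ u w) fun w x => by
      simp only [h2 _ w x]
    simp only [mul_sub] at this
    refine this.trans (le_of_eq ?_)
    congr 2
    funext w
    congr 2 <;> ring
  refine (dip1 hD hl p).trans ?_
  have b11 := hB 1 1 (.inl rfl) (.inl rfl)
  have b12 := hB 1 gi (.inl rfl) (.inr rfl)
  have b21 := hB gi 1 (.inr rfl) (.inl rfl)
  have b22 := hB gi gi (.inr rfl) (.inr rfl)
  have key := ts_mono l.m fun u => add_le_add (step 1 u) (step gi u)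
  simp only [ts_add, ts_mul_left_real] at key
  simp only [J, ← ts_eq] at b11 b12 b21 b22
  rw [mul_assoc, ts_add]
  have k2 := mul_le_mul_of_nonneg_left key (sq_nonneg (dd l.m))
  have : 0 ≤ dd l.m ^ 2 := sq_nonneg _
  nlinarith

theorem sqrt_msq_le {m : ℕ} (ε : GI → ℂ) {g : GI} (hg : g = 1 ∨ g = gi) :
    √(msq m (fun u => ε (u + g) - ε u)) ≤ √(g2 m ε) := by
  apply Real.sqrt_le_sqrt
  have a := msq_nonneg m (fun u => ε (u + 1) - ε u)
  have b := msq_nonneg m (fun u => ε (u + gi) - ε u)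
  unfold g2
  rcases hg with rfl | rfl <;> linarith

theorem per_diff {m : ℕ} {ε : GI → ℂ} (h : Per m ε) (g : GI) :
    Per m (fun u => ε (u + g) - ε u) := fun u w => by
  have := h.shift g u w
  simp only at this ⊢
  rw [this, h u w]

theorem av_norm_le (m : ℕ) (a : GI → ℂ) : av m (fun u => ‖a u‖) ≤ √(msq m a) := by
  have h := av_mul_le m a (fun _ => 1)
  have e : msq m (fun _ => (1 : ℂ)) = 1 := by simp only [msq, norm_one, one_pow, av_const]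
  simpa only [e, norm_one, mul_one, Real.sqrt_one] using h

/-- The charge paired with a displacement. -/
theorem dip0 (hD : S_Dip) {l : Lv} (hl : l.ok) {ε : GI → ℂ} (hε : Per l.m ε) :
    ‖ts l.m (fun u => (q0 l u : ℂ) * ε u)‖ ≤ 8 * √(g2 l.m ε) := by
  refine (dip1 hD hl hε).trans ?_
  rw [mul_assoc, ts_eq, av_add]
  have a := (av_norm_le l.m _).trans (sqrt_msq_le (m := l.m) ε (.inl rfl))
  have b := (av_norm_le l.m _).trans (sqrt_msq_le (m := l.m) ε (.inr rfl))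
  linarith

theorem J_diag {m : ℕ} {k : GI → ℝ} (hk : Per m k) (h0 : ∀ u, 0 ≤ k u) (a b : GI → ℂ) :
    J m (fun u w => k (u - w) * (‖a u‖ * ‖b u‖)) ≤ ts m k * (√(msq m a) * √(msq m b)) := by
  have e : ∀ u, ts m (fun w => k (u - w) * (‖a u‖ * ‖b u‖)) = ts m k * (‖a u‖ * ‖b u‖) := by
    intro u
    simp only [mul_comm (k _), ts_mul_left_real]
    rw [ts_sub_left hk u, mul_comm]
  have h := av_mul_le m a b
  have t := ts_nonneg m h0
  simp only [J, e, av, ts_mul_left_real, smul_eq_mul] at h ⊢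
  nlinarith

/-- Pointwise bound of the double difference. -/
theorem dd_bound {k00 k10 k01 k11 e e' a a' b b' : ℂ} {K2 K3 K4 : ℝ}
    (h2 : ‖k00‖ ≤ K2) (h3 : ‖k10 - k00‖ ≤ K3) (h3' : ‖k01 - k00‖ ≤ K3)
    (h4 : ‖k11 - k10 - k01 + k00‖ ≤ K4) (h32 : K3 ≤ K2) (h43 : K4 ≤ K3) :
    ‖k11 * (e + a - b) * (e' + a' - b') - k01 * (e - b) * (e' - b')
        - k10 * (e + a) * (e' + a') + k00 * e * e'‖
      ≤ K4 * (‖e‖ * ‖e'‖) + 2 * (K3 * (‖e'‖ * ‖a‖)) + 2 * (K3 * (‖e'‖ * ‖b‖))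
        + 2 * (K3 * (‖e‖ * ‖a'‖)) + 2 * (K3 * (‖e‖ * ‖b'‖)) + 4 * (K2 * (‖a‖ * ‖b'‖))
        + 4 * (K2 * (‖a'‖ * ‖b‖)) + 2 * (K2 * (‖a‖ * ‖a'‖)) + 2 * (K2 * (‖b‖ * ‖b'‖)) := by
  have A : ‖k11 - k10‖ ≤ 2 * K3 := by
    have := norm_add_le (k11 - k10 - k01 + k00) (k01 - k00)
    rw [show k11 - k10 - k01 + k00 + (k01 - k00) = k11 - k10 by ring] at this
    linarith
  have B : ‖k11 - k01‖ ≤ 2 * K3 := by
    have := norm_add_le (k11 - k10 - k01 + k00) (k10 - k00)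
    rw [show k11 - k10 - k01 + k00 + (k10 - k00) = k11 - k01 by ring] at this
    linarith
  have C : ‖k11‖ ≤ 4 * K2 := by
    have h := norm_add_le (k11 - k10) (k10 - k00 + k00)
    have h' := norm_add_le (k10 - k00) k00
    rw [show k11 - k10 + (k10 - k00 + k00) = k11 by ring] at h
    linarith
  have id : k11 * (e + a - b) * (e' + a' - b') - k01 * (e - b) * (e' - b')
        - k10 * (e + a) * (e' + a') + k00 * e * e'
      = (k11 - k10 - k01 + k00) * (e * e') + (k11 - k10) * (e' * a) + -((k11 - k01) * (e' * b))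
        + (k11 - k10) * (e * a') + -((k11 - k01) * (e * b')) + -(k11 * (a * b'))
        + -(k11 * (a' * b)) + (k11 - k10) * (a * a') + (k11 - k01) * (b * b') := by ring
  have t : ∀ {k x y : ℂ} {K : ℝ}, ‖k‖ ≤ K → ‖k * (x * y)‖ ≤ K * (‖x‖ * ‖y‖) := fun h => by
    rw [norm_mul, norm_mul]; gcongr
  have t' : ∀ {k x y : ℂ} {K : ℝ}, ‖k‖ ≤ K → ‖-(k * (x * y))‖ ≤ K * (‖x‖ * ‖y‖) := fun h => by
    rw [norm_neg]; exact t h
  have A2 : ‖k11 - k10‖ ≤ 2 * K2 := by linarith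
  have B2 : ‖k11 - k01‖ ≤ 2 * K2 := by linarith
  rw [id]
  refine le_trans (norm_add_le_of_le (norm_add_le_of_le (norm_add_le_of_le (norm_add_le_of_le
    (norm_add_le_of_le (norm_add_le_of_le (norm_add_le_of_le (norm_add_le_of_le (t h4) (t A))
    (t' B)) (t A)) (t' B)) (t' C)) (t' C)) (t A2)) (t B2)) (le_of_eq ?_)
  ring

theorem per_c {V : Type*} (hD : S_Dip) {l : Lv} (hl : l.ok) {f : ℂ → V}
    (hf : ∀ w (u : GI), f (w + u) = f w) : Per l.m (fun x : GI => f (l.c * x)) := by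
  obtain ⟨-, -, -, -, -, -, -, -, ⟨w0, hw, -⟩, -⟩ := hD l hl
  intro u w
  simp only
  rw [← hf (l.c * u) (w0 * w), GaussianInt.toComplex_add, GaussianInt.toComplex_mul,
    GaussianInt.toComplex_mul, ← hw]
  congr 1; ring

theorem per_H (hB : S_Box) (m n : ℕ) : Per m (fun x => 1 / Hh m x ^ n) := fun u w => by
  simp only [(hB m).2.2.1 u w]

theorem per_left {V : Type*} {m : ℕ} {k : GI → V} (h : Per m k) (w : GI) :
    Per m (fun u => k (u - w)) := by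
  simpa only [sub_eq_add_neg] using h.shift (-w)

/-- The main part. -/
theorem main (hB : S_Box) (hY : S_Young) (hD : S_Dip) {l : Lv} (hl : l.ok) {k : GI → ℂ}
    (hk : Per l.m k) {C Cs : ℝ} (hC : 0 ≤ C) (hs : ts l.m (fun u => 1 / Hh l.m u ^ 2) ≤ Cs)
    (hb : ∀ x g g' : GI, St g → St g' → ‖k x‖ ≤ C / (dd l.m * Hh l.m x) ^ 2 ∧
      ‖k (x + g) - k x‖ ≤ C / (dd l.m ^ 2 * Hh l.m x ^ 3) ∧
      ‖k (x + g + g') - k (x + g) - k (x + g') + k x‖ ≤ C / (dd l.m ^ 2 * Hh l.m x ^ 4))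
    {ε ε' : GI → ℂ} (hε : Per l.m ε) (hε' : Per l.m ε') :
    ‖ts l.m (fun u => (q0 l u : ℂ) * ts l.m (fun w => (q0 l w : ℂ) *
      (k (u - w) * (ε u - ε w) * (ε' u - ε' w))))‖
      ≤ 64 * 30 * C * Cs * (√(g2 l.m ε) * √(g2 l.m ε')) := by
  have hd := dd_pos l.m
  have H1 : ∀ x, 1 ≤ Hh l.m x := fun x => ((hB l.m).2.2.2.2.1 x).1
  have H0 : ∀ n x, 0 ≤ 1 / Hh l.m x ^ n := fun n x => by have := H1 x; positivity
  have Cs0 : 0 ≤ Cs := (ts_nonneg _ (H0 2)).trans hs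
  set G := √(g2 l.m ε) with hG
  set G' := √(g2 l.m ε') with hG'
  have G0 : 0 ≤ G := Real.sqrt_nonneg _
  have G0' : 0 ≤ G' := Real.sqrt_nonneg _
  have s4 : ts l.m (fun x => 1 / Hh l.m x ^ 4 * Hh l.m x ^ 2) ≤ Cs := by
    refine le_trans (le_of_eq ?_) hs
    congr 1; funext x; have := H1 x; field_simp
  have s3 : ts l.m (fun x => 1 / Hh l.m x ^ 3 * Hh l.m x) ≤ Cs := by
    refine le_trans (le_of_eq ?_) hs
    congr 1; funext x; have := H1 x; field_simp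
  obtain ⟨-, -, -, y4, -, -⟩ := hY l.m _ (per_H hB l.m 2) (H0 2)
  obtain ⟨-, -, -, -, -, y6⟩ := hY l.m _ (per_H hB l.m 3) (H0 3)
  obtain ⟨-, -, -, -, y5, -⟩ := hY l.m _ (per_H hB l.m 4) (H0 4)
  have key := dip2 hD hl (Φ := fun u w => k (u - w) * (ε u - ε w) * (ε' u - ε' w))
    (fun w u x => by
      have := per_left hk w u x
      simp only at this ⊢
      rw [this, hε u x, hε' u x])
    (fun u w x => by
      have := hk.sub_left u w x
      simp only at this ⊢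
      rw [this, hε w x, hε' w x]) (B := C / dd l.m ^ 2 * (30 * Cs * (G * G'))) ?_
  · refine key.trans (le_of_eq ?_)
    field_simp
  intro g g' hg hg'
  have sg : St g := by rcases hg with h | h <;> simp [St, h]
  have sg' : St (-g') := by rcases hg' with h | h <;> simp [St, h]
  have pa := per_diff hε g
  have pa' := per_diff hε' g
  have pb := per_diff hε g'
  have pb' := per_diff hε' g'
  have ma := sqrt_msq_le (m := l.m) ε hg
  have ma' := sqrt_msq_le (m := l.m) ε' hg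
  have mb := sqrt_msq_le (m := l.m) ε hg'
  have mb' := sqrt_msq_le (m := l.m) ε' hg'
  set a := fun u => ε (u + g) - ε u with ha
  set a' := fun u => ε' (u + g) - ε' u with ha'
  set b := fun u => ε (u + g') - ε u with hb1
  set b' := fun u => ε' (u + g') - ε' u with hb1'
  have up : ∀ {T S x y X Y : ℝ}, T ≤ S * (x * y) → S ≤ 2 * Cs → 0 ≤ x → 0 ≤ y → x ≤ X → y ≤ Y →
      T ≤ 2 * Cs * (X * Y) := fun h1 h2 h3 h4 h5 h6 => h1.trans (by gcongr; linarith)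
  have sq0 : ∀ x : ℝ, 0 ≤ √x := Real.sqrt_nonneg
  have t1 : J l.m (fun u w => 1 / Hh l.m (u - w) ^ 4 * (‖ε u - ε w‖ * ‖ε' u - ε' w‖))
      ≤ 2 * Cs * (G * G') := up (y5 ε ε' hε hε') (by linarith) G0 G0' le_rfl le_rfl
  have t2 : J l.m (fun u w => 1 / Hh l.m (u - w) ^ 3 * (‖ε' u - ε' w‖ * ‖a u‖))
      ≤ 2 * Cs * (G' * G) := up (y6 ε' a hε' pa).2 (by linarith) G0' (sq0 _) le_rfl ma
  have t3 : J l.m (fun u w => 1 / Hh l.m (u - w) ^ 3 * (‖ε' u - ε' w‖ * ‖b w‖))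
      ≤ 2 * Cs * (G' * G) := up (y6 ε' b hε' pb).1 (by linarith) G0' (sq0 _) le_rfl mb
  have t4 : J l.m (fun u w => 1 / Hh l.m (u - w) ^ 3 * (‖ε u - ε w‖ * ‖a' u‖))
      ≤ 2 * Cs * (G * G') := up (y6 ε a' hε pa').2 (by linarith) G0 (sq0 _) le_rfl ma'
  have t5 : J l.m (fun u w => 1 / Hh l.m (u - w) ^ 3 * (‖ε u - ε w‖ * ‖b' w‖))
      ≤ 2 * Cs * (G * G') := up (y6 ε b' hε pb').1 (by linarith) G0 (sq0 _) le_rfl mb'
  have up1 : ∀ {T S x y X Y : ℝ}, T ≤ S * (x * y) → S ≤ Cs → 0 ≤ x → 0 ≤ y → x ≤ X → y ≤ Y →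
      T ≤ Cs * (X * Y) := fun h1 h2 h3 h4 h5 h6 => h1.trans (by gcongr; linarith)
  have t6 : J l.m (fun u w => 1 / Hh l.m (u - w) ^ 2 * (‖a u‖ * ‖b' w‖))
      ≤ Cs * (G * G') := up1 (y4 a b' pa pb') hs (sq0 _) (sq0 _) ma mb'
  have t7 : J l.m (fun u w => 1 / Hh l.m (u - w) ^ 2 * (‖a' u‖ * ‖b w‖))
      ≤ Cs * (G' * G) := up1 (y4 a' b pa' pb) hs (sq0 _) (sq0 _) ma' mb
  have t8 : J l.m (fun u w => 1 / Hh l.m (u - w) ^ 2 * (‖a u‖ * ‖a' u‖))
      ≤ Cs * (G * G') := up1 (J_diag (per_H hB l.m 2) (H0 2) a a') hs (sq0 _) (sq0 _) ma ma'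
  have t9 : J l.m (fun u w => 1 / Hh l.m (u - w) ^ 2 * (‖b w‖ * ‖b' w‖))
      ≤ Cs * (G * G') := by
    rw [← J_comm]
    have e : ∀ u w : GI, Hh l.m (w - u) = Hh l.m (u - w) := fun u w => by
      rw [← ((hB l.m).2.2.2.2.1 (u - w)).2.2.1, neg_sub]
    simp only [e]
    exact up1 (J_diag (per_H hB l.m 2) (H0 2) b b') hs (sq0 _) (sq0 _) mb mb'
  have pt : ∀ u w, ‖k (u + g - (w + g')) * (ε (u + g) - ε (w + g')) * (ε' (u + g) - ε' (w + g'))
      - k (u - (w + g')) * (ε u - ε (w + g')) * (ε' u - ε' (w + g'))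
      - k (u + g - w) * (ε (u + g) - ε w) * (ε' (u + g) - ε' w)
      + k (u - w) * (ε u - ε w) * (ε' u - ε' w)‖ ≤ C / dd l.m ^ 2 *
      (1 / Hh l.m (u - w) ^ 4 * (‖ε u - ε w‖ * ‖ε' u - ε' w‖)
        + 2 * (1 / Hh l.m (u - w) ^ 3 * (‖ε' u - ε' w‖ * ‖a u‖))
        + 2 * (1 / Hh l.m (u - w) ^ 3 * (‖ε' u - ε' w‖ * ‖b w‖))
        + 2 * (1 / Hh l.m (u - w) ^ 3 * (‖ε u - ε w‖ * ‖a' u‖))
        + 2 * (1 / Hh l.m (u - w) ^ 3 * (‖ε u - ε w‖ * ‖b' w‖))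
        + 4 * (1 / Hh l.m (u - w) ^ 2 * (‖a u‖ * ‖b' w‖))
        + 4 * (1 / Hh l.m (u - w) ^ 2 * (‖a' u‖ * ‖b w‖))
        + 2 * (1 / Hh l.m (u - w) ^ 2 * (‖a u‖ * ‖a' u‖))
        + 2 * (1 / Hh l.m (u - w) ^ 2 * (‖b w‖ * ‖b' w‖))) := fun u w => by
    obtain ⟨k1, k2, k3⟩ := hb (u - w) g (-g') sg sg'
    obtain ⟨-, k4, -⟩ := hb (u - w) (-g') g sg' sg
    have h1 := H1 (u - w)
    have c32 : C / (dd l.m ^ 2 * Hh l.m (u - w) ^ 3) ≤ C / (dd l.m * Hh l.m (u - w)) ^ 2 := by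
      rw [mul_pow]; gcongr; norm_num
    have c43 : C / (dd l.m ^ 2 * Hh l.m (u - w) ^ 4) ≤ C / (dd l.m ^ 2 * Hh l.m (u - w) ^ 3) := by
      gcongr; norm_num
    have := dd_bound (e := ε u - ε w) (e' := ε' u - ε' w) (a := a u) (a' := a' u) (b := b w)
      (b' := b' w) k1 k2 k4 k3 c32 c43
    rw [show u + g - (w + g') = u - w + g + -g' by ring, show u - (w + g') = u - w + -g' by ring,
      show u + g - w = u - w + g by ring]
    refine le_trans (le_of_eq ?_) (this.trans (le_of_eq ?_))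
    · simp only [ha, ha', hb1, hb1']; congr 1; ring
    · field_simp
  refine (J_mono l.m pt).trans ?_
  simp only [J_mul, J_add]
  gcongr
  nlinarith

end Pool.Agent.P.MP_cc4a10_gt.BddAP

namespace Pool.Agent.P.MP_cc4a10_gt

open BddAP in
theorem pBddA (hB : S_Box) (hS : S_Sum) (hY : S_Young) (hD : S_Dip) (h0 : S_Ker0)
    (hZ : S_KerZ) : S_BddA := by
  intro E
  obtain ⟨Cs, hCs, hs⟩ := hS
  obtain ⟨C, m0, hC, hz⟩ := hZ E
  obtain ⟨C0, -, hk0⟩ := h0 E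
  obtain ⟨-, -, -, -, -, -, -, -, hev, -⟩ := hk0 0 (by norm_num)
  refine ⟨32 * 30 * C * Cs + 64 * π, m0, by positivity, fun l hl hm ε ε' hε hε' => ?_⟩
  have m1 : 1 ≤ l.m := by have := hl.1; omega
  have m1' : (1 : ℝ) ≤ l.m := by exact_mod_cast m1
  have hk : Per l.m (fun x : GI => E.wp (l.c * x)) := per_c hD hl E.Wper
  have M := main hB hY hD hl hk hC.le (hs l.m m1).2.1
    (fun x g g' hg hg' => (hz l 0 hl hm (by norm_num) x g g' hg hg').2.2.2.2.2) hε hε'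
  have d1 := dip0 hD hl hε
  have d2 := dip0 hD hl hε'
  have hq : ts l.m (fun u => (q0 l u : ℂ)) = 0 := by
    rw [← ts_ofReal, (hD l hl).2.2.2.2.1]; simp
  set k : GI → ℂ := fun x : GI => E.wp (l.c * x) with hkd
  have kev : ∀ u w : GI, k (w - u) = k (u - w) := fun u w => by
    simp only [hkd]
    rw [← (hev _).1, ← mul_neg, ← GaussianInt.toComplex_neg, neg_sub]
  set T1 := ts l.m (fun u => ts l.m (fun w =>
    (q0 l u : ℂ) * (q0 l w * (k (u - w) * (ε u - ε w) * ε' u)))) with hT1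
  have sw : T1 = ts l.m (fun u => ts l.m (fun w =>
      (q0 l u : ℂ) * (q0 l w * (k (u - w) * (ε u - ε w) * -ε' w)))) := by
    rw [hT1, ts_comm]
    congr 1; funext u; congr 1; funext w
    rw [kev u w]; ring
  have two : ts l.m (fun u => (q0 l u : ℂ) * ts l.m (fun w => (q0 l w : ℂ) *
      (k (u - w) * (ε u - ε w) * (ε' u - ε' w)))) = 2 * T1 := by
    rw [two_mul]
    nth_rewrite 2 [sw]
    rw [hT1, ← ts_add]
    congr 1; funext u
    rw [← ts_add, ← ts_mul_left]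
    congr 1; funext w; ring
  have inner : ∀ u, Flin E l ε 0 u * ε' u = -ts l.m (fun w =>
      (q0 l u : ℂ) * (q0 l w * (k (u - w) * (ε u - ε w) * ε' u)))
      + π * conj (ts l.m (fun w => (q0 l w : ℂ) * ε w)) * (q0 l u * ε' u) := fun u => by
    have e1 : ts l.m (fun w => (q0 l u * ε' u * π * conj (ε u)) * (q0 l w : ℂ)) = 0 := by
      rw [ts_mul_left, hq, mul_zero]
    rw [ts_conj, Flin, Rlin, mul_right_comm, ← ts_mul_left, mul_right_comm (π : ℂ),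
      ← ts_mul_left, ← ts_neg, ← ts_add, ← add_zero (ts l.m _), ← e1, ← ts_add]
    congr 1; funext w
    simp only [hkd, Pi.zero_apply, mul_zero, ofReal_zero, zero_mul, add_zero, map_sub, map_mul,
      conj_ofReal]
    ring
  have tot : pair l (Flin E l ε 0) 0 ε' 0 = (-T1 + π * conj (ts l.m (fun w => (q0 l w : ℂ) * ε w))
      * ts l.m (fun u => (q0 l u : ℂ) * ε' u)).re := by
    rw [hT1, ← ts_neg, ← ts_mul_left, ← ts_add, ts_re, pair]
    congr 1; funext u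
    rw [inner]; simp
  rw [two, norm_mul] at M
  rw [tot]
  refine (abs_re_le_norm _).trans ((norm_add_le _ _).trans ?_)
  rw [norm_neg, norm_mul, norm_mul, norm_conj, norm_real, Real.norm_of_nonneg Real.pi_pos.le]
  have G0 := Real.sqrt_nonneg (g2 l.m ε)
  have G0' := Real.sqrt_nonneg (g2 l.m ε')
  have a2 : π * ‖ts l.m (fun w => (q0 l w : ℂ) * ε w)‖ * ‖ts l.m (fun u => (q0 l u : ℂ) * ε' u)‖
      ≤ π * (8 * √(g2 l.m ε)) * (8 * √(g2 l.m ε')) := by gcongr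
  have a3 : π * (√(g2 l.m ε) * √(g2 l.m ε')) ≤ π * l.m * (√(g2 l.m ε) * √(g2 l.m ε')) := by
    gcongr; nlinarith [Real.pi_pos]
  have n2 : ‖(2 : ℂ)‖ = 2 := by simp
  rw [n2] at M
  nlinarith

end Pool.Agent.P.MP_cc4a10_gt

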