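import Pool.Agent.P.MP_cc4a10_gt.St

/-! Gradient bound for the potential created by a displacement. -/

noncomputable section

namespace Pool.Agent.P.MP_cc4a10_gt

namespace BddBP

theorem one (hB : S_Box) (hY : S_Young) {m : ℕ} {A M b : ℝ} (hA : 0 ≤ A) (hb : 0 ≤ b)
    (hM : b * A * ts m (fun u => 1 / Hh m u ^ 2) ≤ M) (k : GI → ℂ) (β : GI → ℝ)
    (hβ : ∀ u, |β u| ≤ b) (ε : GI → ℂ) (hε : Per m ε) (g g' : GI)
    (hg : msq m (fun u => ε (u + g) - ε u) ≤ g2 m ε)
    (hg' : msq m (fun u => ε (u + g') - ε u) ≤ g2 m ε)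
    (h1 : ∀ x, ‖k (x + -g') - k x‖ ≤ A / Hh m x ^ 2) (h2 : ∀ x, ‖k (x + g) - k x‖ ≤ A / Hh m x ^ 2)
    (h3 : ∀ x, ‖k (x + g + -g') - k (x + g) - k (x + -g') + k x‖ ≤ A / Hh m x ^ 3) :
    msq m (fun u => ts m (fun w => (β w : ℂ) *
      ((k (u + g - (w + g')) * (ε (u + g) - ε (w + g')) - k (u - (w + g')) * (ε u - ε (w + g')))
        - (k (u + g - w) * (ε (u + g) - ε w) - k (u - w) * (ε u - ε w)))))
      ≤ 14 * M ^ 2 * g2 m ε := by
  obtain ⟨-, -, hH, -, hH1, -⟩ := hB m
  have hp : ∀ x, 0 < Hh m x := fun x => lt_of_lt_of_le one_pos (hH1 x).1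
  have hG := g2_nonneg m ε
  have hn : ∀ w, ‖(β w : ℂ)‖ ≤ b := fun w => by simpa using hβ w
  have hT : 0 ≤ b * A * ts m (fun u => 1 / Hh m u ^ 2) :=
    mul_nonneg (mul_nonneg hb hA) (ts_nonneg m fun u => by positivity)
  have hP : ∀ y, Per m (fun x => b * A * (1 / Hh m (x + y) ^ 2)) := fun y u w => by
    simp only [hH.shift y u w]
  have hs : ∀ y, ts m (fun x => b * A * (1 / Hh m (x + y) ^ 2)) =
      b * A * ts m (fun u => 1 / Hh m u ^ 2) := fun y => by
    rw [ts_mul_left_real, ts_shift (F := fun u => 1 / Hh m u ^ 2) (fun u w => by simp only [hH u w])]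
  have t1 : msq m (fun u => ts m (fun w => (β w : ℂ) * ((ε u - ε w) *
      (k (u - w + g + -g') - k (u - w + g) - k (u - w + -g') + k (u - w)))))
      ≤ 2 * M ^ 2 * g2 m ε := by
    refine ((hY m (fun x => b * A / Hh m x ^ 3) (fun u w => by simp only [hH u w])
      (fun u => by have := hp u; positivity)).2.2.1 ε _ hε fun u w => ?_).trans ?_
    · rw [norm_mul, norm_mul]
      calc _ ≤ b * (‖ε u - ε w‖ * (A / Hh m (u - w) ^ 3)) := by gcongr; exacts [hn w, h3 _]
        _ = _ := by ring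
    · have : (fun x => b * A / Hh m x ^ 3 * Hh m x) = fun x => b * A * (1 / Hh m (x + 0) ^ 2) := by
        funext x
        have := hp x
        rw [add_zero]
        field_simp
      rw [this, hs]
      gcongr
  have t2 : msq m (fun u => ts m (fun w => (β w : ℂ) * ((ε (u + g) - ε u) *
      (k (u - w + g + -g') - k (u - w + g))))) ≤ M ^ 2 * g2 m ε := by
    refine (msq_mono m (G := fun u => (M : ℂ) * (ε (u + g) - ε u)) fun u => ?_).trans ?_
    · refine (norm_ts_le _ _).trans ((ts_mono m (G := fun w => ‖ε (u + g) - ε u‖ *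
        (b * A * (1 / Hh m (u - w + g) ^ 2))) fun w => ?_).trans ?_)
      · rw [norm_mul, norm_mul]
        calc _ ≤ b * (‖ε (u + g) - ε u‖ * (A / Hh m (u - w + g) ^ 2)) := by
              gcongr; exacts [hn w, h1 _]
          _ = _ := by ring
      · rw [ts_mul_left_real, ts_sub_left (hP g), hs, norm_mul, Complex.norm_real,
          Real.norm_of_nonneg (hT.trans hM), mul_comm]
        gcongr
    · rw [msq_mul, Complex.norm_real, Real.norm_of_nonneg (hT.trans hM)]
      gcongr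
  have t3 : msq m (fun u => ts m (fun w => (β w : ℂ) * (-(ε (w + g') - ε w) *
      (k (u - w + -g' + g) - k (u - w + -g'))))) ≤ M ^ 2 * g2 m ε := by
    refine ((hY m _ (hP (-g')) (fun u => by positivity)).1 (fun w => ε (w + g') - ε w) _
      (fun u w => by simp only [hε u w, hε.shift g' u w]) fun u w => ?_).trans ?_
    · rw [norm_mul, norm_mul, norm_neg]
      calc _ ≤ b * (‖ε (w + g') - ε w‖ * (A / Hh m (u - w + -g') ^ 2)) := by
            gcongr; exacts [hn w, h2 _]
        _ = _ := by ring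
    · rw [hs]
      have := msq_nonneg m (fun w => ε (w + g') - ε w)
      gcongr
  have t4 := (msq_add_le m _ _).trans (add_le_add (mul_le_mul_of_nonneg_left
    ((msq_add_le m _ _).trans (add_le_add (mul_le_mul_of_nonneg_left t1 zero_le_two)
      (mul_le_mul_of_nonneg_left t2 zero_le_two))) zero_le_two)
      (mul_le_mul_of_nonneg_left t3 zero_le_two))
  refine le_trans (le_of_eq ?_) (t4.trans (le_of_eq (by ring)))
  congr 1
  funext u
  rw [← ts_add, ← ts_add]
  congr 1
  funext w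
  rw [show u + g - (w + g') = u - w + g + -g' by ring, show u - (w + g') = u - w + -g' by ring,
    show u + g - w = u - w + g by ring, show u - w + -g' + g = u - w + g + -g' by ring]
  ring

end BddBP

theorem pBddB (hB : S_Box) (hS : S_Sum) (hY : S_Young) (hD : S_Dip) (hK : S_KerZ) : S_BddB := by
  intro E
  obtain ⟨C, m0, hC, HK⟩ := hK E
  obtain ⟨C', hC', HS⟩ := hS
  refine ⟨44 * C * C', m0, by positivity, fun l hl hm ε hε => ?_⟩
  obtain ⟨⟨β1, β2, -, -, hβ, -, -, hdip⟩, -, -, -, -, -, -, -, ⟨w0, hw0, -⟩, -⟩ := hD l hl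
  have hd := dd_pos l.m
  have hk : Per l.m (fun x : GI => E.Z 0 (l.c * (x : ℂ))) := fun u w => by
    have := E.Zper 0 (by norm_num) (l.c * u) (w0 * w)
    beta_reduce
    rw [← this]
    congr 1
    simp only [Lm, map_add, map_mul, zero_mul, add_zero, ← hw0]
    ring
  have hM : 4 * dd l.m ^ 2 * (C / dd l.m) * ts l.m (fun u => 1 / Hh l.m u ^ 2)
      ≤ 4 * C * C' * l.m * dd l.m := by
    calc _ ≤ 4 * dd l.m ^ 2 * (C / dd l.m) * (C' * l.m) := by
          gcongr
          exact (HS l.m (le_trans (by norm_num) hl.1)).2.1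
      _ = _ := by field_simp
  have hst : ∀ g : GI, g = 1 ∨ g = gi → St g ∧ St (-g) ∧
      msq l.m (fun u => ε (u + g) - ε u) ≤ g2 l.m ε := fun g hg => by
    rcases hg with rfl | rfl
    · exact ⟨Or.inl rfl, Or.inr (Or.inl rfl), le_add_of_nonneg_right (msq_nonneg _ _)⟩
    · exact ⟨Or.inr (Or.inr (Or.inl rfl)), Or.inr (Or.inr (Or.inr rfl)),
        le_add_of_nonneg_left (msq_nonneg _ _)⟩
  have two := fun (β : GI → ℝ) (hβ : ∀ u, |β u| ≤ 4 * dd l.m ^ 2) g g' (hg : g = 1 ∨ g = gi)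
    (hg' : g' = 1 ∨ g' = gi) => BddBP.one hB hY (by positivity) (by positivity) hM
      (fun x : GI => E.Z 0 (l.c * (x : ℂ))) β hβ ε hε g g' (hst g hg).2.2 (hst g' hg').2.2
      (fun x => by
        rw [div_div]
        exact (HK l 0 hl hm (by norm_num) x _ _ (hst g' hg').2.1 (hst g hg).1).2.2.2.1)
      (fun x => by
        rw [div_div]
        exact (HK l 0 hl hm (by norm_num) x _ _ (hst g hg).1 (hst g hg).1).2.2.2.1)
      (fun x => by
        rw [div_div]
        exact (HK l 0 hl hm (by norm_num) x _ _ (hst g hg).1 (hst g' hg').2.1).2.2.2.2.1)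
  have three : ∀ g : GI, g = 1 ∨ g = gi → msq l.m (fun u =>
      ts l.m (fun w => (q0 l w : ℂ) * (E.Z 0 (l.c * ((u + g - w : GI) : ℂ)) * (ε (u + g) - ε w)))
        - ts l.m (fun w => (q0 l w : ℂ) * (E.Z 0 (l.c * ((u - w : GI) : ℂ)) * (ε u - ε w))))
      ≤ 56 * (4 * C * C' * l.m * dd l.m) ^ 2 * g2 l.m ε := fun g hg => by
    have t := (msq_add_le l.m _ _).trans (add_le_add
      (mul_le_mul_of_nonneg_left (two β1 (fun u => (hβ u).1) g 1 hg (Or.inl rfl)) zero_le_two)
      (mul_le_mul_of_nonneg_left (two β2 (fun u => (hβ u).2) g gi hg (Or.inr rfl)) zero_le_two))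
    refine le_trans (le_of_eq ?_) (t.trans (le_of_eq (by ring)))
    congr 1
    funext u
    rw [← ts_add, ← ts_sub, ← hdip (fun w => E.Z 0 (l.c * ((u + g - w : GI) : ℂ)) *
      (ε (u + g) - ε w) - E.Z 0 (l.c * ((u - w : GI) : ℂ)) * (ε u - ε w)) fun a b => by
        simp only [hε a b, hk.sub_left (u + g) a b, hk.sub_left u a b]]
    simp only [mul_sub]
  have hG := g2_nonneg l.m ε
  refine (add_le_add (three 1 (Or.inl rfl)) (three gi (Or.inr rfl))).trans ?_
  have : 0 ≤ (C * C' * l.m * dd l.m) ^ 2 * g2 l.m ε := by positivity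
  nlinarith

end Pool.Agent.P.MP_cc4a10_gt
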