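import Pool.Agent.P.MP_cc4a10_gt.St

/-!
Representatives modulo `(1+i)^m`.
-/

open Set Filter Topology Complex Metric
open scoped ComplexConjugate Real

noncomputable section

namespace Pool.Agent.P.MP_cc4a10_gt.BoxP

theorem omp_ne (m : ℕ) : ((om ^ m : GI) : ℂ) ≠ 0 := by
  rw [Ne, GaussianInt.toComplex_eq_zero]; exact pow_ne_zero _ om_ne_zero

theorem norm_omp (m : ℕ) : ‖((om ^ m : GI) : ℂ)‖ * dd m = 1 := by
  have h1 : ‖((om ^ m : GI) : ℂ)‖ ^ 2 = 2 ^ m := by
    rw [map_pow, norm_pow, ← pow_mul, mul_comm, pow_mul, coe_om, Complex.sq_norm]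
    congr 1
    simp [normSq_apply]; norm_num
  have h2 : (‖((om ^ m : GI) : ℂ)‖ * dd m) ^ 2 = 1 := by
    rw [mul_pow, h1, dd_sq]; field_simp
  have h3 : 0 ≤ ‖((om ^ m : GI) : ℂ)‖ * dd m := mul_nonneg (norm_nonneg _) (dd_pos m).le
  nlinarith

theorem mr_eq (m : ℕ) (u : GI) : mr m u = u - om ^ m * (u / om ^ m) := rfl

theorem mr_coe (m : ℕ) (u : GI) : ((mr m u : GI) : ℂ)
    = ((om ^ m : GI) : ℂ) * ((u : ℂ) / ((om ^ m : GI) : ℂ) - ((u / om ^ m : GI) : ℂ)) := by
  rw [mr_eq, GaussianInt.toComplex_sub, GaussianInt.toComplex_mul, mul_sub,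
    mul_div_cancel₀ _ (omp_ne m)]

theorem mr_small (m : ℕ) (u : GI) : ‖((mr m u : GI) : ℂ)‖ * dd m ≤ 7072 / 10000 := by
  rw [mr_coe, norm_mul, mul_right_comm, norm_omp, one_mul]
  set z := (u : ℂ) / ((om ^ m : GI) : ℂ) with hz
  have h1 : |(z - ((u / om ^ m : GI) : ℂ)).re| ≤ 1 / 2 := by
    rw [sub_re, GaussianInt.toComplex_re_div]; exact abs_sub_round _
  have h2 : |(z - ((u / om ^ m : GI) : ℂ)).im| ≤ 1 / 2 := by
    rw [sub_im, GaussianInt.toComplex_im_div]; exact abs_sub_round _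
  apply le_of_sq_le_sq _ (by norm_num) |> fun h => h
  rw [Complex.sq_norm, normSq_apply]
  rw [abs_le] at h1 h2
  nlinarith

theorem mr_min (m : ℕ) (u w : GI) :
    ‖((mr m u : GI) : ℂ)‖ ≤ ‖((u + om ^ m * w : GI) : ℂ)‖ := by
  have e : ((u + om ^ m * w : GI) : ℂ)
      = ((om ^ m : GI) : ℂ) * ((u : ℂ) / ((om ^ m : GI) : ℂ) - ((-w : GI) : ℂ)) := by
    rw [GaussianInt.toComplex_add, GaussianInt.toComplex_mul, mul_sub,
      mul_div_cancel₀ _ (omp_ne m), GaussianInt.toComplex_neg]; ring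
  rw [mr_coe, e, norm_mul, norm_mul]
  gcongr
  set z := (u : ℂ) / ((om ^ m : GI) : ℂ) with hz
  rw [Complex.norm_def, Complex.norm_def]
  apply Real.sqrt_le_sqrt
  apply GaussianInt.normSq_le_normSq_of_re_le_of_im_le
  · rw [sub_re, sub_re, GaussianInt.toComplex_re_div, ← GaussianInt.intCast_re (-w)]
    exact round_le _ _
  · rw [sub_im, sub_im, GaussianInt.toComplex_im_div, ← GaussianInt.intCast_im (-w)]
    exact round_le _ _

theorem mr_per (m : ℕ) : Per m (mr m) := fun u w => by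
  have e : ((u + om ^ m * w : GI) : ℂ) / ((om ^ m : GI) : ℂ)
      = (u : ℂ) / ((om ^ m : GI) : ℂ) + w := by
    rw [GaussianInt.toComplex_add, GaussianInt.toComplex_mul, add_div,
      mul_div_cancel_left₀ _ (omp_ne m)]
  have h : (u + om ^ m * w) / om ^ m = u / om ^ m + w := by
    rw [← GaussianInt.toComplex_inj]
    apply Complex.ext
    · rw [GaussianInt.toComplex_add (u / om ^ m), add_re, GaussianInt.toComplex_re_div,
        GaussianInt.toComplex_re_div, e, add_re, ← GaussianInt.intCast_re w, round_add_intCast]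
      push_cast; rfl
    · rw [GaussianInt.toComplex_add (u / om ^ m), add_im, GaussianInt.toComplex_im_div,
        GaussianInt.toComplex_im_div, e, add_im, ← GaussianInt.intCast_im w, round_add_intCast]
      push_cast; rfl
  rw [mr_eq, mr_eq, h]; ring

theorem Hh_neg_le (m : ℕ) (u : GI) : Hh m (-u) ≤ Hh m u := by
  unfold Hh
  have := mr_min m (-u) (u / om ^ m)
  rw [show -u + om ^ m * (u / om ^ m) = -mr m u by rw [mr_eq]; ring, GaussianInt.toComplex_neg,
    norm_neg] at this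
  linarith

theorem Hh_add_le (m : ℕ) (u g : GI) : Hh m (u + g) ≤ Hh m u + ‖(g : ℂ)‖ := by
  unfold Hh
  have := mr_min m (u + g) (-(u / om ^ m))
  rw [show u + g + om ^ m * -(u / om ^ m) = mr m u + g by rw [mr_eq]; ring,
    GaussianInt.toComplex_add] at this
  linarith [norm_add_le ((mr m u : GI) : ℂ) (g : ℂ)]

theorem om_cases (w : GI) : om ∣ w ∨ om ∣ w - 1 := by
  rcases Int.emod_two_eq_zero_or_one (w.re + w.im) with h | h
  · left
    refine ⟨⟨(w.re + w.im) / 2, (w.im - w.re) / 2⟩, ?_⟩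
    ext <;> simp [om] <;> omega
  · right
    refine ⟨⟨(w.re + w.im - 1) / 2, (w.im - w.re + 1) / 2⟩, ?_⟩
    ext <;> simp [om] <;> omega

theorem not_dvd (j : ℕ) : ¬ om ^ (j + 1) ∣ om ^ j := by
  intro h
  rw [pow_succ] at h
  nth_rewrite 2 [← mul_one (om ^ j)] at h
  obtain ⟨w, hw⟩ := (mul_dvd_mul_iff_left (pow_ne_zero j om_ne_zero)).1 h
  have h1 := congrArg Zsqrtd.re hw
  have h2 := congrArg Zsqrtd.im hw
  simp [om] at h1 h2
  omega

theorem exists_rep (j : ℕ) : ∃ R, Rep j R ∧ R.card = 2 ^ j := by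
  classical
  induction j with
  | zero => exact ⟨{0}, ⟨by simp, by simp⟩, by simp⟩
  | succ j ih =>
    obtain ⟨R, ⟨h1, h2⟩, hc⟩ := ih
    have hd : ∀ {x : GI}, om ^ (j + 1) ∣ x → om ^ j ∣ x := fun h => (pow_dvd_pow om (by omega)).trans h
    have key : ∀ a ∈ R, ∀ b ∈ R, ¬ om ^ (j + 1) ∣ a - (b + om ^ j) := by
      intro a ha b hb h
      have e : a = b := h1 a ha b hb (by
        have := dvd_add (hd h) (dvd_refl (om ^ j))
        rwa [show a - (b + om ^ j) + om ^ j = a - b by ring] at this)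
      rw [e, show b - (b + om ^ j) = -om ^ j by ring, dvd_neg] at h
      exact not_dvd j h
    refine ⟨R ∪ R.image (fun κ => κ + om ^ j), ⟨?_, ?_⟩, ?_⟩
    · intro a ha b hb h
      rw [Finset.mem_union, Finset.mem_image] at ha hb
      rcases ha with ha | ⟨a, ha, rfl⟩ <;> rcases hb with hb | ⟨b, hb, rfl⟩
      · exact h1 a ha b hb (hd h)
      · exact (key a ha b hb h).elim
      · exact (key b hb a ha (by rw [← dvd_neg, neg_sub]; exact h)).elim
      · rw [h1 a ha b hb (by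
          have := hd h
          rwa [show a + om ^ j - (b + om ^ j) = a - b by ring] at this)]
    · intro κ
      obtain ⟨a, ha, w, hw⟩ := h2 κ
      rcases om_cases w with ⟨v, hv⟩ | ⟨v, hv⟩
      · exact ⟨a, Finset.mem_union_left _ ha, v, by rw [hw, hv]; ring⟩
      · refine ⟨a + om ^ j, Finset.mem_union_right _ (Finset.mem_image_of_mem _ ha), v, ?_⟩
        rw [pow_succ, mul_assoc, ← hv, ← sub_sub, hw]; ring
    · rw [Finset.card_union_of_disjoint, Finset.card_image_of_injective _ (add_left_injective _),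
        hc, pow_succ]
      · ring
      · rw [Finset.disjoint_left]
        intro a ha hb
        obtain ⟨b, hb, e⟩ := Finset.mem_image.1 hb
        exact key a ha b hb (by rw [e, sub_self]; exact dvd_zero _)

open Classical in
theorem sum_ind {V : Type*} [AddCommGroup V] {m : ℕ} {R : Finset GI} (hR : Rep m R) (w : GI)
    (a : V) : ∑ κ ∈ R, (if om ^ m ∣ w - κ then a else 0) = a := by
  obtain ⟨κ, hκ, hd⟩ := hR.2 w
  rw [Finset.sum_eq_single_of_mem κ hκ, if_pos hd]
  intro b hb hne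
  rw [if_neg]
  intro h
  apply hne
  apply hR.1 b hb κ hκ
  have := dvd_sub hd h
  rwa [show w - κ - (w - b) = b - κ by ring] at this

open Classical in
theorem ts_ind (m : ℕ) (u : GI) : ts m (fun w => if om ^ m ∣ w - u then (1 : ℝ) else 0) = 1 := by
  have hp : Per m (fun w : GI => if om ^ m ∣ w then (1 : ℝ) else 0) := fun x w => by
    simp only [dvd_add_left (dvd_mul_right (om ^ m) w)]
  have h1 : ∀ u : GI, ts m (fun w => if om ^ m ∣ w - u then (1 : ℝ) else 0)
      = ts m (fun w => if om ^ m ∣ w then (1 : ℝ) else 0) := fun u => by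
    rw [← ts_shift hp (-u)]; simp only [sub_eq_add_neg]
  obtain ⟨R, hR, hc⟩ := exists_rep m
  have h2 := ts_sum m R (fun κ w => if om ^ m ∣ w - κ then (1 : ℝ) else 0)
  simp only [sum_ind hR, h1, ts_const, Finset.sum_const, hc, smul_eq_mul, nsmul_eq_mul,
    mul_one] at h2
  rw [h1]
  push_cast at h2
  have h3 : (2 : ℝ) ^ m ≠ 0 := by positivity
  exact mul_left_cancel₀ h3 (by rw [← h2, mul_one])

open Classical in
theorem ts_single {V : Type*} [AddCommGroup V] [Module ℝ V] {m : ℕ} {F : GI → V} (h : Per m F)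
    (u : GI) : ts m (fun w => if om ^ m ∣ w - u then F w else 0) = F u := by
  have h1 := ts_map (LinearMap.toSpanSingleton ℝ V (F u)) m
    (fun w => if om ^ m ∣ w - u then (1 : ℝ) else 0)
  rw [ts_ind, LinearMap.toSpanSingleton_apply, one_smul] at h1
  rw [h1]
  congr 1
  funext w
  split_ifs with hw
  · rw [LinearMap.toSpanSingleton_apply, one_smul, h.of_dvd hw]
  · simp

theorem ts_rep {V : Type*} [AddCommGroup V] [Module ℝ V] {m : ℕ} {F : GI → V} (h : Per m F)
    {R : Finset GI} (hR : Rep m R) : ts m F = ∑ κ ∈ R, F κ := by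
  classical
  have h2 := ts_sum m R (fun κ w => if om ^ m ∣ w - κ then F w else 0)
  simp only [sum_ind hR, ts_single h] at h2
  exact h2

theorem mr_mr (m : ℕ) (u : GI) : mr m (mr m u) = mr m u :=
  (mr_per m).of_dvd ⟨-(u / om ^ m), by rw [mr_eq]; ring⟩

end Pool.Agent.P.MP_cc4a10_gt.BoxP

namespace Pool.Agent.P.MP_cc4a10_gt

open BoxP

theorem pBox : S_Box := by
  classical
  intro m
  refine ⟨fun u => ⟨⟨u / om ^ m, by rw [mr_eq]; ring⟩, mr_small m u, mr_min m u,
    EuclideanDomain.mod_eq_zero⟩, mr_per m, fun u w => by simp only [Hh, mr_per m u w],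
    norm_omp m, fun u => ⟨?_, ?_, ?_, Hh_add_le m u⟩, fun V _ _ F hF => ⟨fun u => ?_,
    fun R hR => ts_rep hF hR⟩, ?_, fun F hF u => ?_⟩
  · unfold Hh; linarith [norm_nonneg ((mr m u : GI) : ℂ)]
  · unfold Hh; linarith [mr_small m u, dd_le_one m]
  · apply le_antisymm (Hh_neg_le m u)
    simpa using Hh_neg_le m (-u)
  · convert ts_single hF u
  · obtain ⟨R, hR, -⟩ := exists_rep m
    refine ⟨R.image (mr m), ⟨?_, ?_⟩, ?_⟩
    · intro a ha b hb h
      obtain ⟨a, -, rfl⟩ := Finset.mem_image.1 ha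
      obtain ⟨b, -, rfl⟩ := Finset.mem_image.1 hb
      have := (mr_per m).of_dvd h
      rwa [mr_mr, mr_mr] at this
    · intro κ
      obtain ⟨a, ha, hd⟩ := hR.2 κ
      refine ⟨mr m a, Finset.mem_image_of_mem _ ha, ?_⟩
      rw [mr_eq, show κ - (a - om ^ m * (a / om ^ m)) = κ - a + om ^ m * (a / om ^ m) by ring]
      exact dvd_add hd (dvd_mul_right _ _)
    · intro a ha
      obtain ⟨a, -, rfl⟩ := Finset.mem_image.1 ha
      exact mr_mr m a
  · have h1 := ts_single (F := fun w => ‖F w‖ ^ 2) (m := m) (fun x w => by simp only [hF x w]) u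
    have h2 := ts_mono m (F := fun w => if om ^ m ∣ w - u then ‖F w‖ ^ 2 else 0)
      (G := fun w => ‖F w‖ ^ 2) fun w => by
        split_ifs
        · exact le_rfl
        · positivity
    rw [h1, ts_eq_av, smul_eq_mul] at h2
    rw [dd_sq, div_inv_eq_mul, mul_comm]
    exact h2

end Pool.Agent.P.MP_cc4a10_gt
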