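import Pool.Agent.P.MP_cc4a10_gt.St

/-!
Characters of the Gaussian integers modulo `(1+i)^j`: representatives, inversion, Parseval.
-/

open Set Filter Topology Complex Metric
open scoped ComplexConjugate Real

noncomputable section

namespace Pool.Agent.P.MP_cc4a10_gt.ChrP

theorem coe_star (w : GI) : ((star w : GI) : ℂ) = conj (w : ℂ) := GaussianInt.toComplex_star w

theorem conj_al : conj al = kp := by
  simp only [al, kp, map_div₀, map_add, map_one, conj_I, map_ofNat]; ring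

theorem al_mul_conj_om : al * conj ((om : GI) : ℂ) = 1 := by
  rw [coe_om]; simp only [al, map_add, map_one, conj_I]
  linear_combination (-1 / 2 : ℂ) * I_mul_I

theorem kp_mul_om : kp * ((om : GI) : ℂ) = 1 := by
  rw [coe_om]; simp only [kp]
  linear_combination (-1 / 2 : ℂ) * I_mul_I

theorem al_mul_om : al * ((om : GI) : ℂ) = ((gi : GI) : ℂ) := by
  rw [coe_om, coe_gi]; simp only [al]
  linear_combination (1 / 2 : ℂ) * I_mul_I

theorem al_ne : al ≠ 0 := fun h => by simpa [h] using al_mul_conj_om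

theorem alp_star (j : ℕ) (g : GI) : al ^ j * ((star om ^ j * g : GI) : ℂ) = g := by
  rw [map_mul, map_pow, coe_star, ← mul_assoc, ← mul_pow, al_mul_conj_om, one_pow, one_mul]

theorem alp_om (j : ℕ) (g : GI) : al ^ j * ((om ^ j * g : GI) : ℂ) = ((gi ^ j * g : GI) : ℂ) := by
  rw [map_mul, map_pow, ← mul_assoc, ← mul_pow, al_mul_om, map_mul, map_pow]

theorem kpp_om (j : ℕ) : kp ^ j * ((om ^ j : GI) : ℂ) = 1 := by
  rw [map_pow, ← mul_pow, kp_mul_om, one_pow]

/-! ### The character -/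

theorem chi_add (κ : GI) (z z' : ℂ) : chi κ (z + z') = chi κ z * chi κ z' := by
  simp only [chi, dot, mul_add, add_re, ofReal_add, Complex.exp_add]

theorem chi_add_left (κ κ' : GI) (z : ℂ) : chi (κ + κ') z = chi κ z * chi κ' z := by
  simp only [chi, dot, map_add, add_mul, mul_add, add_re, ofReal_add, Complex.exp_add]

theorem conj_chi (κ : GI) (z : ℂ) : conj (chi κ z) = chi (-κ) z := by
  simp only [chi, dot, ← exp_conj, map_mul, conj_ofReal, conj_I, map_ofNat, map_neg, neg_mul,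
    neg_re, ofReal_neg, mul_neg]

theorem chi_neg (κ : GI) (z : ℂ) : chi κ (-z) = chi (-κ) z := by
  simp only [chi, dot, map_neg, neg_mul, mul_neg]

theorem chi_zero (z : ℂ) : chi 0 z = 1 := by simp [chi, dot]

theorem chi_eq_one_iff (κ : GI) (z : ℂ) : chi κ z = 1 ↔ ∃ n : ℤ, dot κ z = n := by
  rw [chi, Complex.exp_eq_one_iff]
  refine exists_congr fun n => ⟨fun h => ?_, fun h => by rw [h]; push_cast; ring⟩
  have h2 : (2 * π * I : ℂ) ≠ 0 := two_pi_I_ne_zero
  have : ((dot κ z : ℝ) : ℂ) = (n : ℂ) := mul_left_cancel₀ h2 (by rw [h]; ring)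
  exact_mod_cast this

theorem chi_int (κ g : GI) : chi κ g = 1 := by
  rw [chi_eq_one_iff]
  refine ⟨(star κ * g).re, ?_⟩
  rw [dot, ← coe_star, ← map_mul, GaussianInt.intCast_re]

theorem chi_mul (κ g : GI) (z : ℂ) : chi (g * κ) z = chi κ (conj (g : ℂ) * z) := by
  simp only [chi, dot, map_mul]; congr 4; ring

/-- The character on the lattice points. -/
def ps (j : ℕ) (κ w : GI) : ℂ := chi κ (al ^ j * w)

theorem ps_add (j : ℕ) (κ w w' : GI) : ps j κ (w + w') = ps j κ w * ps j κ w' := by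
  simp only [ps, map_add, mul_add, chi_add]

theorem ps_add_left (j : ℕ) (κ κ' w : GI) : ps j (κ + κ') w = ps j κ w * ps j κ' w :=
  chi_add_left _ _ _

theorem ps_of_dvd (j : ℕ) (κ w : GI) (h : om ^ j ∣ w) : ps j κ w = 1 := by
  obtain ⟨g, rfl⟩ := h
  rw [ps, alp_om, chi_int]

theorem ps_of_dvd_left (j : ℕ) (κ w : GI) (h : om ^ j ∣ κ) : ps j κ w = 1 := by
  obtain ⟨g, rfl⟩ := h
  rw [ps, chi_mul, map_pow, map_pow, ← mul_assoc, ← mul_pow, mul_comm _ al, al_mul_conj_om, one_pow,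
    one_mul, chi_int]

theorem per_ps (j : ℕ) (κ : GI) : Per j (ps j κ) := fun u w => by
  rw [ps_add, ps_of_dvd j κ _ (dvd_mul_right _ _), mul_one]

theorem per_ps_left (j : ℕ) (w : GI) : Per j (fun κ => ps j κ w) := fun u g => by
  simp only
  rw [ps_add_left, ps_of_dvd_left j _ w (dvd_mul_right _ _), mul_one]

theorem exists_gi {z : ℂ} (h1 : ∃ n : ℤ, z.re = n) (h2 : ∃ n : ℤ, z.im = n) : ∃ g : GI, z = g := by
  obtain ⟨a, ha⟩ := h1
  obtain ⟨b, hb⟩ := h2
  exact ⟨⟨a, b⟩, Complex.ext (by simpa using ha) (by simpa using hb)⟩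

theorem dvd_of_ps (j : ℕ) (κ : GI) (h : ∀ w, ps j κ w = 1) : om ^ j ∣ κ := by
  obtain ⟨a, ha⟩ := (chi_eq_one_iff _ _).1 (h 1)
  obtain ⟨b, hb⟩ := (chi_eq_one_iff _ _).1 (h gi)
  obtain ⟨g, hg⟩ := exists_gi (z := conj (κ : ℂ) * al ^ j) ⟨a, by simpa [dot] using ha⟩
    ⟨-b, by
      rw [dot, coe_gi, ← mul_assoc, mul_I_re] at hb
      push_cast; linarith⟩
  refine ⟨star g, GaussianInt.toComplex_injective ?_⟩
  have h1 := congrArg conj hg
  rw [map_mul, conj_conj, map_pow, conj_al] at h1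
  rw [map_mul, coe_star, ← h1]
  linear_combination (-(κ : ℂ)) * kpp_om j

theorem dvd_of_ps_left (j : ℕ) (w : GI) (h : ∀ κ, ps j κ w = 1) : om ^ j ∣ w := by
  obtain ⟨a, ha⟩ := (chi_eq_one_iff _ _).1 (h 1)
  obtain ⟨b, hb⟩ := (chi_eq_one_iff _ _).1 (h gi)
  obtain ⟨g, hg⟩ := exists_gi (z := al ^ j * w) ⟨a, by simpa [dot] using ha⟩
    ⟨b, by
      rw [dot, coe_gi, conj_I, neg_mul, neg_re, I_mul_re, neg_neg] at hb
      exact hb⟩
  have h1 : w = star om ^ j * g := by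
    apply GaussianInt.toComplex_injective
    apply mul_left_cancel₀ (pow_ne_zero j al_ne)
    rw [alp_star, hg]
  exact ⟨(-gi) ^ j * g, by rw [h1, star_om, mul_pow, mul_assoc]⟩

theorem ts_char {j : ℕ} {F : GI → ℂ} (hp : Per j F) (hm : ∀ u x, F (u + x) = F u * F x)
    (hx : ¬∀ x, F x = 1) : ts j F = 0 := by
  obtain ⟨x, hx⟩ := not_forall.1 hx
  have h := ts_shift hp x
  simp only [hm, mul_comm _ (F x), ts_mul_left] at h
  have h2 : (F x - 1) * ts j F = 0 := by linear_combination h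
  exact (mul_eq_zero.1 h2).resolve_left (sub_ne_zero.2 hx)

open Classical in
theorem ts_ps (j : ℕ) (κ : GI) : ts j (ps j κ) = if om ^ j ∣ κ then 2 ^ j else 0 := by
  split_ifs with h
  · rw [show ps j κ = fun _ => 1 from funext fun w => ps_of_dvd_left j κ w h, ts_const]; simp
  · exact ts_char (per_ps j κ) (ps_add j κ) fun h' => h (dvd_of_ps j κ h')

open Classical in
theorem ts_ps_left (j : ℕ) (w : GI) :
    ts j (fun κ => ps j κ w) = if om ^ j ∣ w then 2 ^ j else 0 := by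
  split_ifs with h
  · rw [show (fun κ => ps j κ w) = fun _ => 1 from funext fun κ => ps_of_dvd j κ w h, ts_const]
    simp
  · exact ts_char (per_ps_left j w) (fun u x => ps_add_left j u x w)
      fun h' => h (dvd_of_ps_left j w h')

theorem chi_split (j : ℕ) (κ : GI) (o : ℂ) (w : GI) :
    chi κ (al ^ j * (o + w)) = chi κ (al ^ j * o) * ps j κ w := by
  rw [mul_add, chi_add, ps]

theorem ts_chi (j : ℕ) (κ : GI) (o : ℂ) (h : ¬om ^ j ∣ κ) :
    ts j (fun w => chi κ (al ^ j * (o + w))) = 0 := by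
  simp only [chi_split, ts_mul_left]
  rw [ts_ps, if_neg h, mul_zero]

theorem av_mul_left (m : ℕ) (a : ℂ) (F : GI → ℂ) : av m (fun u => a * F u) = a * av m F := by
  simp only [av, ts_mul_left, mul_smul_comm]

theorem av_sum {ι : Type*} (m : ℕ) (T : Finset ι) (F : ι → GI → ℂ) :
    av m (fun u => ∑ i ∈ T, F i u) = ∑ i ∈ T, av m (F i) := by
  simp only [av, ts_sum, Finset.smul_sum]

/-- Orthogonality. -/
theorem orth {j : ℕ} {R : Finset GI} (hR : Rep j R) (o : ℂ) {κ κ' : GI} (h : κ ∈ R) (h' : κ' ∈ R) :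
    av j (fun w => chi κ (al ^ j * (o + w)) * conj (chi κ' (al ^ j * (o + w))))
      = if κ = κ' then 1 else 0 := by
  simp only [conj_chi, ← chi_add_left]
  split_ifs with e
  · simp only [e, add_neg_cancel, chi_zero, av_const]
  · rw [av, ts_chi j _ o fun hd => e (hR.1 κ h κ' h' (by rwa [sub_eq_add_neg])), smul_zero]

theorem pars1 {j : ℕ} {R : Finset GI} (hR : Rep j R) (o : ℂ) (a : GI → ℂ) :
    msq j (fun w => ∑ κ ∈ R, a κ * chi κ (al ^ j * (o + w))) = ∑ κ ∈ R, ‖a κ‖ ^ 2 := by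
  apply ofReal_injective
  have h1 : ∀ F : GI → ℂ, ((msq j F : ℝ) : ℂ) = av j (fun w => F w * conj (F w)) := fun F => by
    simp only [msq, av, smul_eq_mul, ofReal_mul, ts_ofReal, mul_conj', real_smul, ofReal_pow]
  rw [h1]
  have h2 : ∀ w : GI, (∑ κ ∈ R, a κ * chi κ (al ^ j * (o + w)))
      * conj (∑ κ ∈ R, a κ * chi κ (al ^ j * (o + w))) = ∑ κ ∈ R, ∑ κ' ∈ R, (a κ * conj (a κ')) *
        (chi κ (al ^ j * (o + w)) * conj (chi κ' (al ^ j * (o + w)))) := fun w => by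
    rw [map_sum, Finset.sum_mul_sum]
    refine Finset.sum_congr rfl fun κ _ => Finset.sum_congr rfl fun κ' _ => ?_
    rw [map_mul]; ring
  simp only [h2, av_sum, av_mul_left]
  push_cast
  refine Finset.sum_congr rfl fun κ hκ => ?_
  rw [Finset.sum_congr rfl fun κ' hκ' => by rw [orth hR o hκ hκ']]
  simp only [mul_ite, mul_one, mul_zero, Finset.sum_ite_eq, if_pos hκ, mul_conj']

theorem inversion (hB : S_Box) {j : ℕ} {R : Finset GI} (hR : Rep j R) (o : ℂ) {f : GI → ℂ}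
    (hf : Per j f) (w : GI) :
    ∑ κ ∈ R, av j (fun w => f w * conj (chi κ (al ^ j * (o + w)))) * chi κ (al ^ j * (o + w))
      = f w := by
  classical
  obtain ⟨-, -, -, -, -, hS, -, -⟩ := hB j
  have h1 : ∀ κ : GI, av j (fun w => f w * conj (chi κ (al ^ j * (o + w))))
      * chi κ (al ^ j * (o + w)) = av j (fun u => f u * ps j κ (w - u)) := fun κ => by
    rw [mul_comm, ← av_mul_left]
    congr 1; funext u
    rw [conj_chi, ← chi_neg, mul_left_comm, ← chi_add, ps]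
    congr 2; rw [map_sub]; ring
  simp only [h1]
  rw [← av_sum]
  have h2 : ∀ u : GI, ∑ κ ∈ R, f u * ps j κ (w - u)
      = (2 : ℂ) ^ j * (if om ^ j ∣ u - w then f u else 0) := fun u => by
    rw [← Finset.mul_sum, ← (hS ℂ _ (per_ps_left j (w - u))).2 R hR, ts_ps_left, dvd_sub_comm]
    split_ifs <;> simp [mul_comm]
  simp only [h2]
  rw [av, ts_mul_left]
  have h3 := (hS ℂ f hf).1 w
  rw [show ts j (fun u => if om ^ j ∣ u - w then f u else 0) = f w by convert h3]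
  rw [real_smul]; push_cast; field_simp

theorem pars2 (hB : S_Box) {j : ℕ} {R : Finset GI} (hR : Rep j R) (o : ℂ) {f : GI → ℂ}
    (hf : Per j f) :
    ∑ κ ∈ R, ‖av j (fun w => f w * conj (chi κ (al ^ j * (o + w))))‖ ^ 2 = msq j f := by
  rw [← pars1 hR o]
  congr 1; funext w; exact inversion hB hR o hf w

/-! ### Representatives -/

theorem thq_eq (j : ℕ) (κ : GI) : thq j κ = 2 * π * ((κ : ℂ) / ((om ^ j : GI) : ℂ)) := by
  have h := kpp_om j
  have h0 : ((om ^ j : GI) : ℂ) ≠ 0 := fun e => by simp [e] at h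
  rw [thq, conj_al, eq_div_of_mul_eq h0 h]; ring

theorem repS (hB : S_Box) (j : ℕ) : ∃ R, RepS j R := by
  obtain ⟨h1, -, -, -, -, -, ⟨R, hR, hm⟩, -⟩ := hB j
  have h0 : (om ^ j : GI) ≠ 0 := pow_ne_zero _ om_ne_zero
  refine ⟨R, hR, ?_, fun κ hκ hne => ?_⟩
  · obtain ⟨κ, hκ, hd⟩ := hR.2 0
    rw [zero_sub, dvd_neg] at hd
    have := (h1 κ).2.2.2.2 hd
    rw [hm κ hκ] at this
    exact this ▸ hκ
  · have hq : κ / om ^ j = 0 := by
      have h := hm κ hκ
      rw [mr, GaussianInt.mod_def, sub_eq_self] at h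
      exact (mul_eq_zero.1 h).resolve_left h0
    have hre := GaussianInt.toComplex_re_div κ (om ^ j)
    have him := GaussianInt.toComplex_im_div κ (om ^ j)
    rw [hq] at hre him
    set y : ℂ := (κ : ℂ) / ((om ^ j : GI) : ℂ) with hy
    have hr : |y.re| ≤ 1 / 2 := by
      have := abs_sub_round y.re
      rwa [← hre, map_zero, zero_re, sub_zero] at this
    have hi : |y.im| ≤ 1 / 2 := by
      have := abs_sub_round y.im
      rwa [← him, map_zero, zero_im, sub_zero] at this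
    have e : thq j κ = ((2 * π : ℝ) : ℂ) * y := by rw [thq_eq]; push_cast; rfl
    have hp : (0 : ℝ) < 2 * π := by positivity
    refine ⟨?_, ?_, ?_⟩
    · rw [e]
      exact mul_ne_zero (ofReal_ne_zero.2 hp.ne')
        (div_ne_zero (by simpa using hne) (by simpa using h0))
    · rw [e, re_ofReal_mul, abs_mul, abs_of_pos hp]; nlinarith [Real.pi_pos]
    · rw [e, im_ofReal_mul, abs_mul, abs_of_pos hp]; nlinarith [Real.pi_pos]

theorem om_dvd_or (w : GI) : om ∣ w ∨ om ∣ w - 1 := by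
  obtain ⟨a, b⟩ := w
  rcases Int.even_or_odd' (a + b) with ⟨n, h | h⟩
  · exact Or.inl ⟨⟨n, b - n⟩, by ext <;> simp [om] <;> omega⟩
  · exact Or.inr ⟨⟨n, b - n⟩, by ext <;> simp [om] <;> omega⟩

theorem not_dvd_succ (j : ℕ) : ¬(om ^ (j + 1) : GI) ∣ om ^ j := by
  rintro ⟨g, hg⟩
  have h0 : (om ^ j : GI) ≠ 0 := pow_ne_zero _ om_ne_zero
  have h1 : (1 : GI) = om * g := mul_left_cancel₀ h0 (by rw [mul_one, ← mul_assoc, ← pow_succ, ← hg])
  obtain ⟨a, b⟩ := g
  have h2 := congrArg Zsqrtd.re h1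
  have h3 := congrArg Zsqrtd.im h1
  simp [om] at h2 h3
  omega

theorem rep2 {j : ℕ} {R : Finset GI} (hR : Rep j R) : Rep (j + 1) (R2 j R) := by
  have hw : ∀ {x : GI}, om ^ (j + 1) ∣ x → om ^ j ∣ x := fun h => (pow_dvd_pow _ j.le_succ).trans h
  have mix : ∀ κ ∈ R, ∀ κ' ∈ R, ¬om ^ (j + 1) ∣ κ - (κ' + om ^ j) := fun κ hκ κ' hκ' hd => by
    have h1 : om ^ j ∣ κ - κ' := by
      have := (hw hd).add (dvd_refl (om ^ j))
      rwa [show κ - (κ' + om ^ j) + om ^ j = κ - κ' by ring] at this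
    rw [hR.1 κ hκ κ' hκ' h1, show κ' - (κ' + om ^ j) = -om ^ j by ring, dvd_neg] at hd
    exact not_dvd_succ j hd
  constructor
  · intro κ hκ κ' hκ' hd
    simp only [R2, Finset.mem_union, Finset.mem_image] at hκ hκ'
    rcases hκ with hκ | ⟨κ, hκ, rfl⟩ <;> rcases hκ' with hκ' | ⟨κ', hκ', rfl⟩
    · exact hR.1 κ hκ κ' hκ' (hw hd)
    · exact absurd hd (mix κ hκ κ' hκ')
    · exact absurd (dvd_sub_comm.1 hd) (mix κ' hκ' κ hκ)
    · rw [add_sub_add_right_eq_sub] at hd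
      rw [hR.1 κ hκ κ' hκ' (hw hd)]
  · intro κ
    obtain ⟨κ', hκ', w, hw⟩ := hR.2 κ
    rcases om_dvd_or w with ⟨g, hg⟩ | ⟨g, hg⟩
    · exact ⟨κ', Finset.mem_union_left _ hκ', g, by rw [hw, hg]; ring⟩
    · refine ⟨κ' + om ^ j, Finset.mem_union_right _ (Finset.mem_image_of_mem _ hκ'), g, ?_⟩
      linear_combination hw + om ^ j * hg

theorem sum2 {j : ℕ} {R : Finset GI} (hR : Rep j R) (F : GI → ℝ) :
    ∑ κ ∈ R2 j R, F κ = ∑ κ ∈ R, (F κ + F (κ + om ^ j)) := by
  have h0 : (om ^ j : GI) ≠ 0 := pow_ne_zero _ om_ne_zero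
  rw [R2, Finset.sum_union, Finset.sum_image fun a _ b _ h => add_right_cancel h,
    Finset.sum_add_distrib]
  rw [Finset.disjoint_left]
  intro κ hκ h
  obtain ⟨κ', hκ', e⟩ := Finset.mem_image.1 h
  have := hR.1 κ hκ κ' hκ' ⟨1, by rw [← e]; ring⟩
  rw [← this, add_eq_left] at e
  exact h0 e

theorem np_iff (j : ℕ) (κ : GI) : NP (thq j κ) ↔ ¬om ^ j ∣ κ := by
  have h0 : ((om ^ j : GI) : ℂ) ≠ 0 := fun e => by have := kpp_om j; simp [e] at this
  have hp : (2 * π : ℂ) ≠ 0 := mul_ne_zero two_ne_zero (ofReal_ne_zero.2 Real.pi_ne_zero)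
  rw [NP, thq_eq]
  refine ⟨fun h ⟨w, hw⟩ => h w ?_, fun h w hw => h ⟨w, GaussianInt.toComplex_injective ?_⟩⟩
  · rw [hw, map_mul, mul_div_cancel_left₀ _ h0]
  · rw [map_mul, ← mul_left_cancel₀ hp hw, mul_div_cancel₀ _ h0]

theorem thq_succ (j : ℕ) (κ : GI) : thq (j + 1) κ = thq j κ * kp := by
  simp only [thq, conj_al, pow_succ]; ring

theorem thq_succ' (j : ℕ) (κ : GI) :
    thq (j + 1) (κ + om ^ j) = thq j κ * kp + π * (1 - I) := by
  have h := kpp_om j
  have h2 : (1 - I : ℂ) = 2 * kp := by simp only [kp]; ring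
  simp only [thq, conj_al, pow_succ, map_add, h2]
  linear_combination (2 * π * kp : ℂ) * h

/-! ### Analysis and synthesis on the layers -/

theorem lp_per (S : Sys) (k : ℤ) (u w : GI) :
    lp S k (u + om ^ S.st k * w) = lp S k u + ((gi ^ S.st k * w : GI) : ℂ) := by
  rw [← alp_om]; simp only [lp, map_add]; ring

theorem lp_shift (S : Sys) (k : ℤ) (u g : GI) :
    lp S k (u + star om ^ S.st k * g) = lp S k u + g := by
  rw [← alp_star (S.st k) g]; simp only [lp, map_add]; ring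

theorem hat_zero {S : Sys} (J : ℕ) {v : Vec} (hv : Adm S v) (k : ℤ) (κ : GI)
    (h : om ^ S.st k ∣ κ) : hat S J v k κ = 0 := by
  have h1 : ∀ w, chi κ (lp S k w) = chi κ (al ^ S.st k * oo (S.hh k)) := fun w => by
    rw [lp, chi_split, ps_of_dvd_left _ _ _ h, mul_one]
  have h2 := hv.m1 k
  have h3 := congrArg conj h2
  have h4 := congrArg ofReal (hv.m2 k)
  rw [ts_conj, map_zero] at h3
  rw [ts_ofReal, ofReal_zero] at h4
  change _ = (⟨0, 0, 0⟩ : T3)
  simp only [hat, h1, mul_comm _ (conj (chi κ (al ^ S.st k * oo (S.hh k)))), av, ts_mul_left, h2,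
    h3, h4, mul_zero, smul_zero, zero_div]

theorem syn_hat (hB : S_Box) {S : Sys} (J : ℕ) (R : ℤ → Finset GI) {v : Vec} (hv : Adm S v) (k : ℤ)
    (hR : Rep (S.st k) (R k)) :
    (syn S J R (hat S J v)).1 k = v.1 k ∧ (syn S J R (hat S J v)).2 k = v.2 k := by
  have p1 : Per (S.st k) (fun w => v.1 k (lp S k w)) := fun u w => by
    simp only [lp_per, (hv.per k _ _).1]
  have p2 : Per (S.st k) (fun w => conj (v.1 k (lp S k w))) := fun u w => by
    simp only [lp_per, (hv.per k _ _).1]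
  have p3 : Per (S.st k) (fun w => ((v.2 k (lp S k w) : ℝ) : ℂ)) := fun u w => by
    simp only [lp_per, (hv.per k _ _).2]
  have hJ : al ^ J ≠ 0 := pow_ne_zero _ al_ne
  constructor <;> funext z <;> simp only [syn] <;> split_ifs with h
  · obtain ⟨w, rfl⟩ := h
    have e1 := inversion hB hR (oo (S.hh k)) p1 w
    have e2 := congrArg conj (inversion hB hR (oo (S.hh k)) p2 w)
    rw [conj_conj, map_sum] at e2
    have e3 : ∀ κ, (hat S J v k κ).x * chi κ (lp S k w)
        + conj (hat S J v k κ).X * conj (chi κ (lp S k w)) = (al ^ J)⁻¹ *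
          (av (S.st k) (fun w => v.1 k (lp S k w) * conj (chi κ (lp S k w))) * chi κ (lp S k w)
          + conj (av (S.st k) (fun w => conj (v.1 k (lp S k w)) * conj (chi κ (lp S k w)))
            * chi κ (lp S k w))) := fun κ => by
      simp only [hat, map_div₀, map_pow, conj_conj, map_mul]; ring
    simp only [e3]
    rw [← Finset.mul_sum, Finset.sum_add_distrib]
    simp only [lp] at e1 e2 ⊢
    rw [e1, e2]; field_simp; ring
  · exact ((hv.off k z (not_exists.1 h)).1).symm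
  · obtain ⟨w, rfl⟩ := h
    have e1 := inversion hB hR (oo (S.hh k)) p3 w
    simp only [hat, lp] at e1 ⊢
    rw [e1, ofReal_re]
  · exact ((hv.off k z (not_exists.1 h)).2).symm

theorem adm_syn (S : Sys) (J : ℕ) (R : ℤ → Finset GI) (a : ℤ → GI → T3)
    (ha : ∀ k, ∀ κ ∈ R k, om ^ S.st k ∣ κ → a k κ = 0) : Adm S (syn S J R a) := by
  have hz : ∀ k, ∀ κ ∈ R k, ∀ b : T3 → ℂ, b 0 = 0 →
      ts (S.st k) (fun w => b (a k κ) * chi κ (lp S k w)) = 0 := fun k κ hκ b hb => by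
    rw [ts_mul_left]
    by_cases h : om ^ S.st k ∣ κ
    · rw [ha k κ hκ h, hb, zero_mul]
    · simp only [lp]; rw [ts_chi _ _ _ h, mul_zero]
  constructor
  · intro k z h
    simp only [syn, if_neg (not_exists.2 h), and_self]
  · intro k z g
    have h : (∃ w, z + g = lp S k w) ↔ ∃ w, z = lp S k w := by
      refine ⟨fun ⟨w, hw⟩ => ⟨w + star om ^ S.st k * (-g), ?_⟩,
        fun ⟨w, hw⟩ => ⟨w + star om ^ S.st k * g, ?_⟩⟩
      · rw [lp_shift, ← hw, map_neg]; ring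
      · rw [lp_shift, hw]
    simp only [syn, chi_add, chi_int, mul_one]
    rw [propext h]; exact ⟨rfl, rfl⟩
  · intro k
    have h : ∀ w, ∃ w', lp S k w = lp S k w' := fun w => ⟨w, rfl⟩
    simp only [syn, h, if_true, ts_mul_left, ts_sum, ts_add, ← map_mul, ← ts_conj]
    rw [Finset.sum_eq_zero fun κ hκ => ?_, mul_zero]
    have h1 := hz k κ hκ T3.x rfl
    have h2 := hz k κ hκ T3.X rfl
    rw [ts_mul_left] at h1 h2
    rw [h1, h2, map_zero, add_zero]
  · intro k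
    have h : ∀ w, ∃ w', lp S k w = lp S k w' := fun w => ⟨w, rfl⟩
    simp only [syn, h, if_true]
    rw [← ts_re, ts_sum, Finset.sum_eq_zero fun κ hκ => hz k κ hκ T3.s rfl, zero_re]

end Pool.Agent.P.MP_cc4a10_gt.ChrP

namespace Pool.Agent.P.MP_cc4a10_gt

open ChrP in
theorem pChar (hB : S_Box) : S_Char :=
  ⟨repS hB, fun _ _ hR => ⟨rep2 hR, sum2 hR⟩,
    fun j κ => ⟨np_iff j κ, thq_succ j κ, thq_succ' j κ⟩,
    fun _ _ o hR => ⟨pars1 hR o, fun _ hf => ⟨inversion hB hR o hf, pars2 hB hR o hf⟩⟩,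
    fun S J R => ⟨fun _ hv => ⟨hat_zero J hv, syn_hat hB J R hv⟩, adm_syn S J R⟩⟩

end Pool.Agent.P.MP_cc4a10_gt
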