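import Pool.Agent.P.MP_cc4a10_gt.Cont1A

/-! Joint continuity on one level. -/

open Set Filter Topology Complex Metric
open scoped ComplexConjugate Real

namespace Pool.Agent.P.MP_cc4a10_gt

namespace Cont1P

variable {T : Type*} [TopologicalSpace T]

/-- A continuous family of level states. -/
structure CF (s : T → Ls) : Prop where
  μ : Continuous (fun t => (s t).μ)
  ε : ∀ u, Continuous (fun t => (s t).ε u)
  σ : ∀ u, Continuous (fun t => (s t).σ u)

theorem CF.comp {T' : Type*} [TopologicalSpace T'] {s : T → Ls} (h : CF s) {g : T' → T}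
    (hg : Continuous g) : CF (fun t => s (g t)) :=
  ⟨h.μ.comp hg, fun u => (h.ε u).comp hg, fun u => (h.σ u).comp hg⟩

theorem CF.pos {s : T → Ls} (h : CF s) (l : Lv) (u : GI) : Continuous (fun t => pos l (s t) u) :=
  (Lm_cont h.μ continuous_const).add (h.ε u)

theorem CF.qq {s : T → Ls} (h : CF s) (l : Lv) (u : GI) : Continuous (fun t => qq l (s t) u) :=
  continuous_const.mul (continuous_const.add (h.σ u))

/-- What is used of a good level. -/
structure GD (l : Lv) (s : Ls) : Prop where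
  mu : ‖s.μ‖ ≤ 1 / 100
  lat : ∀ w v : GI, ∃ w', pos l s (w + om ^ l.m * w') = pos l s w + Lm s.μ v
  per : ∀ u w : GI, om ^ l.m ∣ w - u → ∃ v : GI, ∀ s' : Ls, Per l.m s'.ε →
    pos l s' w = pos l s' u + Lm s'.μ v
  pe : Per l.m s.ε
  pq : Per l.m (qq l s)
  sep : ∀ u u' : GI, ‖pos l s u - pos l s u'‖ < dd l.m / 2 → u = u'
  qne : ∀ u ∈ Nk l, qq l s u ≠ 0

theorem Lm_add (μ a b : ℂ) : Lm μ (a + b) = Lm μ a + Lm μ b := by
  simp only [Lm, map_add]; ring

theorem gd_of (hD : S_Dip) {l : Lv} {s : Ls} {b : ℝ} (h : LG l s b) (hμ : ‖s.μ‖ ≤ 1 / 100)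
    (hσ : ∀ u, |s.σ u| ≤ 1 / 1000)
    (hs : ∀ u u' : GI, ‖pos l s u - pos l s u' - l.c * ((u - u' : GI) : ℂ)‖
      ≤ dd l.m * ‖((u - u' : GI) : ℂ)‖ / 200) : GD l s := by
  obtain ⟨-, -, hq, -, -, -, -, hc, ⟨w0, hw0, hu0⟩, -⟩ := hD l h.ok
  have key : ∀ (s' : Ls), Per l.m s'.ε → ∀ u w : GI,
      pos l s' (u + om ^ l.m * w) = pos l s' u + Lm s'.μ ((w0 * w : GI) : ℂ) := by
    intro s' hs' u w
    unfold pos
    rw [hs' u w, map_mul, ← hw0, map_add, map_mul, mul_add, Lm_add, mul_assoc]; ring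
  refine ⟨hμ, fun w v => ?_, fun u w huw => ?_, h.lv.pe, fun u w => ?_, fun u u' huu => ?_,
    fun u hu => ?_⟩
  · obtain ⟨a, ha⟩ := hu0.exists_right_inv
    refine ⟨a * v, ?_⟩
    rw [key s h.lv.pe, ← mul_assoc, ha, one_mul]
  · obtain ⟨x, hx⟩ := huw
    refine ⟨w0 * x, fun s' hs' => ?_⟩
    rw [← key s' hs', ← hx, add_sub_cancel]
  · unfold qq; rw [hq u w, h.lv.ps u w]
  · by_contra hne
    have h1 : (1 : ℝ) ≤ ‖((u - u' : GI) : ℂ)‖ := by
      have h2 : (u - u').norm ≠ 0 := fun h3 =>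
        hne (sub_eq_zero.1 (GaussianInt.norm_eq_zero.1 h3))
      have h3 := GaussianInt.norm_nonneg (u - u')
      have h4 : (1 : ℝ) ≤ ((u - u').norm : ℝ) := by exact_mod_cast (by omega : 1 ≤ (u - u').norm)
      rw [GaussianInt.intCast_real_norm, normSq_eq_norm_sq] at h4
      have := norm_nonneg ((u - u' : GI) : ℂ)
      nlinarith
    have h2 := hs u u'
    have h3 := norm_sub_norm_le (l.c * ((u - u' : GI) : ℂ))
      (l.c * ((u - u' : GI) : ℂ) - (pos l s u - pos l s u'))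
    rw [sub_sub_cancel, norm_sub_rev (l.c * _), norm_mul, hc] at h3
    have h5 := dd_pos l.m
    nlinarith
  · unfold qq
    have h1 := abs_le.1 (hσ u)
    exact mul_ne_zero hu (by linarith [h1.1])

theorem nk_of_dvd (hD : S_Dip) {l : Lv} (hl : l.ok) {w : GI} (hw : w ∈ Nk l) (w' : GI) :
    w + om ^ l.m * w' ∈ Nk l := by
  obtain ⟨-, -, hq, -⟩ := hD l hl
  show q0 l _ ≠ 0
  rw [hq]; exact hw

theorem psi_cont (hK : S_Ker0) (hD : S_Dip) (E : Ell) {l : Lv} (hl : l.ok) {s : T → Ls}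
    (hs : CF s) (hg : ∀ t, GD l (s t)) {z : T → ℂ} (hz : Continuous z)
    (ho : ∀ t, z t ∈ Out (Nk l) (pos l (s t)) 0) : Continuous (fun t => psi E l (s t) (z t)) := by
  refine ts_cont l.m (fun t u => (qq l (s t) u : ℂ) * E.Z (s t).μ (z t - pos l (s t) u))
    fun u => ?_
  by_cases hu : q0 l u = 0
  · simp only [qq, hu, zero_mul, ofReal_zero]; exact continuous_const
  refine (continuous_ofReal.comp (hs.qq l u)).mul
    (Z_cont hK E hs.μ (hz.sub (hs.pos l u)) (fun t => (hg t).mu) fun t v hv => ?_)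
  obtain ⟨w', hw'⟩ := (hg t).lat u v
  have := ho t _ (nk_of_dvd hD hl hu w')
  rw [hw', ← hv] at this
  simp at this

theorem not_lat {l : Lv} {s : Ls} (hg : GD l s) {u w : GI} (huw : ¬om ^ l.m ∣ w - u) {y : ℂ}
    (hy : ‖y‖ < dd l.m / 2) (v : GI) : pos l s u + y - pos l s w ≠ Lm s.μ v := fun hv => by
  obtain ⟨w', hw'⟩ := hg.lat w v
  have h1 : w + om ^ l.m * w' = u := hg.sep _ _ (by
    rw [hw', ← hv]; simpa using hy)
  exact huw ⟨-w', by rw [← h1]; ring⟩

theorem ht_cont (hK : S_Ker0) (E : Ell) {l : Lv} {s : T → Ls}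
    (hs : CF s) (hg : ∀ t, GD l (s t)) (u : GI) :
    Continuous (fun t => ht E l (s t) (pos l (s t) u)) := by
  refine ts_cont l.m
    (fun t w => qq l (s t) w * E.Gr (s t).μ (pos l (s t) u - pos l (s t) w)) fun w => ?_
  refine (hs.qq l w).mul ?_
  by_cases huw : om ^ l.m ∣ u - w
  · have : ∀ t, E.Gr (s t).μ (pos l (s t) u - pos l (s t) w) = 0 := fun t => by
      obtain ⟨v, hv⟩ := (hg t).per w u huw
      obtain ⟨C, -, hC⟩ := hK E
      have h1 := E.Gper _ (hg t).mu 0 v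
      rw [hv _ (hg t).pe, add_sub_cancel_left, ← zero_add (Lm _ _), h1]
      exact (hC _ (hg t).mu).2.2.2.2.2.2.1
    simp only [this]; exact continuous_const
  · refine Gr_cont hK E hs.μ ((hs.pos l u).sub (hs.pos l w)) (fun t => (hg t).mu) fun t v => ?_
    have := not_lat (hg t) (u := u) (w := w) (fun h => huw (dvd_sub_comm.1 h)) (y := 0)
      (by simpa using dd_pos l.m) v
    simpa using this

open Classical in
theorem RR_cont (hK : S_Ker0) (hB : S_Box) (E : Ell) {l : Lv} {s : T → Ls}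
    (hs : CF s) (hg : ∀ t, GD l (s t)) (u : GI) {y : T → ℂ} (hy : Continuous y)
    (hb : ∀ t, ‖y t‖ < dd l.m / 2) :
    Continuous (fun t => RR E l (s t) u (pos l (s t) u + y t)) := by
  have h1 : ∀ t, RR E l (s t) u (pos l (s t) u + y t) = ts l.m (fun w => (qq l (s t) w : ℂ) *
      (E.Z (s t).μ (pos l (s t) u + y t - pos l (s t) w)
        - if om ^ l.m ∣ w - u then (y t)⁻¹ else 0)) := fun t => by
    have h2 := ((hB l.m).2.2.2.2.2.1 ℂ (fun w => (qq l (s t) w : ℂ) * (y t)⁻¹)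
      (fun a b => by simp only [(hg t).pq a b])).1 u
    simp only [mul_sub, ts_sub, mul_ite, mul_zero, RR, psi, add_sub_cancel_left, div_eq_mul_inv]
    congr 1
    convert h2.symm
  simp only [h1]
  refine ts_cont l.m _ fun w => (continuous_ofReal.comp (hs.qq l w)).mul ?_
  by_cases huw : om ^ l.m ∣ w - u
  · simp only [huw, if_true]
    have h2 : ∀ t, E.Z (s t).μ (pos l (s t) u + y t - pos l (s t) w) = E.Z (s t).μ (y t) :=
      fun t => by
        obtain ⟨v, hv⟩ := (hg t).per w u (dvd_sub_comm.1 huw)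
        rw [← E.Zper _ (hg t).mu (y t) v, hv _ (hg t).pe]; congr 1; ring
    simp only [h2]
    refine continuous_iff_continuousAt.2 fun t0 =>
      Zr_contAt hK E hs.μ hy (fun t => (hg t).mu) ?_
    have := hb t0
    have := dd_le_one l.m
    linarith
  · simp only [huw, if_false, sub_zero]
    exact Z_cont hK E hs.μ (((hs.pos l u).add hy).sub (hs.pos l w)) (fun t => (hg t).mu)
      fun t v => not_lat (hg t) huw (hb t) v

theorem int_cont (hK : S_Ker0) (hB : S_Box) (E : Ell) {l : Lv} {s : T → Ls}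
    (hs : CF s) (hg : ∀ t, GD l (s t)) (u : GI) {y : T → ℂ} (hy : Continuous y)
    (hb : ∀ t, ‖y t‖ < dd l.m / 2) :
    Continuous (fun t => ∫ x in (0 : ℝ)..1, RR E l (s t) u (pos l (s t) u + x * y t)) := by
  have h1 : Continuous (fun a : T × ℝ => RR E l (s a.1) u
      (pos l (s a.1) u + ((projIcc (0 : ℝ) 1 zero_le_one a.2 : ℝ) : ℂ) * y a.1)) := by
    refine RR_cont hK hB E (hs.comp continuous_fst) (fun a => hg a.1) u ?_ fun a => ?_
    · exact (continuous_ofReal.comp (continuous_subtype_val.comp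
        (continuous_projIcc.comp continuous_snd))).mul (hy.comp continuous_fst)
    · have h2 := (projIcc (0 : ℝ) 1 zero_le_one a.2).2
      rw [norm_mul, norm_real, Real.norm_of_nonneg h2.1]
      exact (mul_le_of_le_one_left (norm_nonneg _) h2.2).trans_lt (hb a.1)
  have h2 := intervalIntegral.continuous_parametric_intervalIntegral_of_continuous'
    (μ := MeasureTheory.volume)
    (f := fun (t : T) (x : ℝ) => RR E l (s t) u
      (pos l (s t) u + ((projIcc (0 : ℝ) 1 zero_le_one x : ℝ) : ℂ) * y t)) h1 0 1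
  refine h2.congr fun t => intervalIntegral.integral_congr fun x hx => ?_
  rw [uIcc_of_le zero_le_one] at hx
  simp only [projIcc_of_mem zero_le_one hx]

theorem vt_eq (E : Ell) (l : Lv) (s : Ls) (u : GI) (y : ℂ) : vt E l s u (pos l s u + y)
    = y * exp (y * (∫ x in (0 : ℝ)..1, RR E l s u (pos l s u + x * y)) / (qq l s u : ℂ)) := by
  simp only [vt, add_sub_cancel_left]

theorem ex_cont (hK : S_Ker0) (hB : S_Box) (E : Ell) {l : Lv} {s : T → Ls}
    (hs : CF s) (hg : ∀ t, GD l (s t)) {u : GI} (hu : u ∈ Nk l) {y : T → ℂ} (hy : Continuous y)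
    (hb : ∀ t, ‖y t‖ < dd l.m / 2) : Continuous (fun t => exp (y t *
      (∫ x in (0 : ℝ)..1, RR E l (s t) u (pos l (s t) u + x * y t)) / (qq l (s t) u : ℂ))) :=
  continuous_exp.comp ((hy.mul (int_cont hK hB E hs hg u hy hb)).div
    (continuous_ofReal.comp (hs.qq l u)) fun t => ofReal_ne_zero.2 ((hg t).qne u hu))

theorem dv_eq (E : Ell) {l : Lv} {s : Ls} {u : GI} (hq : qq l s u ≠ 0) {y : ℂ}
    (h0 : lv E l s u (pos l s u) = 0)
    (h1 : exp (lv E l s u (pos l s u + y)) = deriv (vt E l s u) (pos l s u + y))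
    (h2 : pos l s u + y ≠ pos l s u → psi E l s (pos l s u + y)
      = qq l s u * deriv (vt E l s u) (pos l s u + y) / vt E l s u (pos l s u + y)) :
    deriv (vt E l s u) (pos l s u + y)
      = exp (y * (∫ x in (0 : ℝ)..1, RR E l s u (pos l s u + x * y)) / (qq l s u : ℂ))
        * (1 + y * RR E l s u (pos l s u + y) / qq l s u) := by
  by_cases hy : y = 0
  · subst hy
    rw [← h1]; simp [h0]
  · have h3 := h2 (by simpa using hy)
    have hq' : (qq l s u : ℂ) ≠ 0 := ofReal_ne_zero.2 hq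
    rw [vt_eq] at h3
    have he := exp_ne_zero
      (y * (∫ x in (0 : ℝ)..1, RR E l s u (pos l s u + x * y)) / (qq l s u : ℂ))
    generalize exp (y * (∫ x in (0 : ℝ)..1, RR E l s u (pos l s u + x * y)) / (qq l s u : ℂ))
      = e at h3 he ⊢
    rw [RR, h3, add_sub_cancel_left]
    field_simp
    ring

theorem cf_ls (S : Sys) (K : ℤ) : CF (fun x : Cfg => ls S x K) := by
  refine ⟨?_, fun u => ?_, fun u => ?_⟩
  · show Continuous (fun x : Cfg => x.2.2.2.1 K); fun_prop
  · show Continuous (fun x : Cfg => flC K (eT S x.1 K) u - x.2.1 K u)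
    refine Continuous.sub ?_ (by fun_prop)
    unfold flC eT
    split_ifs
    · fun_prop
    · exact (continuous_conj.comp (by fun_prop)).neg
  · show Continuous (fun x : Cfg => flR K (sT S x.1 K) u)
    unfold flR sT
    split_ifs <;> fun_prop

end Cont1P

open Cont1P in
theorem pCont1 (hK : S_Ker0) (hL : S_Lev) (hV : S_Vt) (hF : S_Flip) (hD : S_Dip) (hB : S_Box) :
    S_Cont1 := by
  intro E
  obtain ⟨C1, m1, -, h1⟩ := hL E
  obtain ⟨C2, m2, hC2, h2⟩ := hV E
  obtain ⟨m3, h3⟩ := exists_pow_mul_tt_le 0 (η := 1 / 100) (by norm_num)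
  refine ⟨10 + m1 + m2 + m3 + ⌈C2⌉₊, fun S hS hbig K => ?_⟩
  have hm : 10 + m1 + m2 + m3 + ⌈C2⌉₊ ≤ jl S K := le_min (hbig _) (hbig _)
  have hmm : (lvF S K).m = jl S K + 2 := rfl
  have hmK : mK S K = (lvF S K).m := rfl
  have hLG : ∀ x, XX S x → LG (lvF S K) (ls S x K) (bK S x K) := fun x hx =>
    (hF E S hS K).2 x (fun k => le_trans (by omega) (hbig k)) hx
  have hGD : ∀ x, XX S x → GD (lvF S K) (ls S x K) := fun x hx => by
    have h4 := h1 _ _ _ (hLG x hx) (by omega)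
    refine gd_of hD (hLG x hx) ((hLG x hx).mu.trans ?_) (fun u => (h4.1 u).2.2.2) h4.2.2.2.1
    have h5 := h3 (lvF S K).m (by omega)
    rw [pow_zero, one_mul] at h5
    exact (pow_le_of_le_one (tt_pos _).le (tt_le_one _) (by norm_num)).trans h5
  have hcf := cf_ls S K
  have hm10 : (10 : ℝ) ≤ ((lvF S K).m : ℝ) := by exact_mod_cast (by omega : 10 ≤ (lvF S K).m)
  have hrho : 3 * rho (mK S K) ≤ dd (lvF S K).m / 2 := by
    rw [hmK, rho, ← mul_div_assoc, div_le_div_iff₀ (by linarith) (by norm_num)]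
    have := dd_pos (lvF S K).m
    nlinarith
  refine ⟨fun u => ⟨hcf.pos _ u, hcf.qq _ u, ?_⟩, ?_, fun u hu => ?_⟩
  · unfold tn
    refine ((continuous_ofReal.comp (hcf.qq _ u)).pow 2).neg.mul (continuous_exp.comp ?_)
    show Continuous (fun x : Cfg => -x.2.2.1 K u); fun_prop
  · rw [continuousOn_iff_continuous_domRestrict]
    by_cases hne : Nonempty ↥{a : Cfg × ℂ | XX S a.1 ∧ a.2 ∈ Out (Nk (lvF S K)) (pK S a.1 K) 0}
    · obtain ⟨a0⟩ := hne
      exact psi_cont hK hD E (hLG _ a0.2.1).ok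
        (hcf.comp (continuous_fst.comp continuous_subtype_val)) (fun a => hGD _ a.2.1)
        (continuous_snd.comp continuous_subtype_val) fun a => a.2.2
    · rw [not_nonempty_iff] at hne
      exact continuous_of_discreteTopology
  have hs := hcf.comp (continuous_fst.comp (continuous_subtype_val
    (p := fun a : Cfg × ℂ => a ∈ {a : Cfg × ℂ | XX S a.1 ∧ ‖a.2‖ < 3 * rho (mK S K)})))
  have hy := continuous_snd.comp (continuous_subtype_val
    (p := fun a : Cfg × ℂ => a ∈ {a : Cfg × ℂ | XX S a.1 ∧ ‖a.2‖ < 3 * rho (mK S K)}))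
  have he := ex_cont hK hB E hs (fun a => hGD _ a.2.1) hu hy fun a => a.2.2.trans_le hrho
  have hr := RR_cont hK hB E hs (fun a => hGD _ a.2.1) u hy fun a => a.2.2.trans_le hrho
  have hd : ContinuousOn (fun a : Cfg × ℂ => deriv (vK E S a.1 K u) (pK S a.1 K u + a.2))
      {a | XX S a.1 ∧ ‖a.2‖ < 3 * rho (mK S K)} := by
    rw [continuousOn_iff_continuous_domRestrict]
    refine (he.mul (continuous_const.add ((hy.mul hr).div
      (continuous_ofReal.comp (hs.qq _ u))
      fun a => ofReal_ne_zero.2 ((hGD _ a.2.1).qne u hu)) (f := fun _ => (1 : ℂ)))).congr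
      fun a => ?_
    obtain ⟨-, -, -, h5, -, h6, -⟩ := h2 _ _ _ (hLG _ a.2.1) (by omega) u hu
    have h7 := h6 (pos (lvF S K) (ls S a.1.1 K) u + a.1.2)
      (by rw [add_sub_cancel_left]; exact a.2.2)
    exact (dv_eq E ((hGD _ a.2.1).qne u hu) h5 h7.2.2.1 fun h => (h7.2.2.2 h).1).symm
  refine ⟨?_, ?_, hd, ?_⟩
  · rw [continuousOn_iff_continuous_domRestrict]
    exact ht_cont hK E (hcf.comp continuous_subtype_val) (fun a => hGD _ a.2) u
  · rw [continuousOn_iff_continuous_domRestrict]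
    exact (hy.mul he).congr fun a => (vt_eq E _ _ u _).symm
  · refine hd.clog fun a ha => ?_
    obtain ⟨-, -, -, -, -, h6, -⟩ := h2 _ _ _ (hLG _ ha.1) (by omega) u hu
    have h7 := (h6 (pos (lvF S K) (ls S a.1 K) u + a.2)
      (by rw [add_sub_cancel_left]; exact ha.2)).1
    have h8 : C2 / ((lvF S K).m : ℝ) < 1 := by
      rw [div_lt_one (by linarith)]
      have h9 : ((⌈C2⌉₊ + 1 : ℕ) : ℝ) ≤ ((lvF S K).m : ℝ) := by
        exact_mod_cast (by omega : ⌈C2⌉₊ + 1 ≤ (lvF S K).m)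
      have := Nat.le_ceil C2
      push_cast at h9
      linarith
    have := mem_slitPlane_of_norm_lt_one (h7.trans_lt h8)
    rw [add_sub_cancel] at this
    exact this

end Pool.Agent.P.MP_cc4a10_gt
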