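import Pool.Agent.P.MP_cc4a10_gt.St

/-! Joint continuity of the kernels in the lattice parameter and the point. -/

open Set Filter Topology Complex Metric
open scoped ComplexConjugate Real

namespace Pool.Agent.P.MP_cc4a10_gt

namespace Cont1P

variable {T : Type*} [TopologicalSpace T]

theorem ts_cont {V : Type*} [NormedAddCommGroup V] [NormedSpace ℝ V] (m : ℕ) (F : T → GI → V)
    (h : ∀ u, Continuous (fun t => F t u)) : Continuous (fun t => ts m (F t)) := by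
  unfold ts
  exact (continuous_finsetSum _ fun a _ => continuous_finsetSum _ fun b _ => h _).const_smul _

theorem Lm_cont {μ z : T → ℂ} (hμ : Continuous μ) (hz : Continuous z) :
    Continuous (fun t => Lm (μ t) (z t)) := by
  unfold Lm; exact hz.add (hμ.mul (continuous_conj.comp hz))

theorem bE_cont {μ : T → ℂ} (hμ : Continuous μ) (hb : ∀ t, ‖μ t‖ ≤ 1 / 100) :
    Continuous (fun t => bE (μ t)) := by
  unfold bE
  refine continuous_const.div (continuous_const.sub (hμ.norm.pow 2)) fun t => ?_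
  have h1 := hb t
  have h2 := norm_nonneg (μ t)
  nlinarith

/-- a family that is Lipschitz in the parameter and continuous in the point -/
theorem fam_contAt {G : ℂ → ℂ → ℂ} {C : ℝ} {μ w : T → ℂ} (hμ : Continuous μ) (hw : Continuous w)
    (hb : ∀ t, ‖μ t‖ ≤ 1 / 100)
    (hL : ∀ a b : ℂ, ‖a‖ ≤ 1 / 100 → ‖b‖ ≤ 1 / 100 → ∀ z : ℂ, ‖z‖ < 9 / 10 →
      ‖G a z - G b z‖ ≤ C * ‖a - b‖)
    {t0 : T} (h0 : ‖w t0‖ < 9 / 10) (hc : ContinuousAt (G (μ t0)) (w t0)) :
    ContinuousAt (fun t => G (μ t) (w t)) t0 := by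
  have h1 : Tendsto (fun t => G (μ t0) (w t)) (𝓝 t0) (𝓝 (G (μ t0) (w t0))) :=
    hc.tendsto.comp (hw.tendsto t0)
  have h2 : Tendsto (fun t => G (μ t) (w t) - G (μ t0) (w t)) (𝓝 t0) (𝓝 0) := by
    have h3 : Tendsto (fun t => C * ‖μ t - μ t0‖) (𝓝 t0) (𝓝 0) := by
      have : Continuous (fun t => C * ‖μ t - μ t0‖) := by fun_prop
      simpa using this.tendsto t0
    refine squeeze_zero_norm' ?_ h3
    have h4 : ∀ᶠ t in 𝓝 t0, ‖w t‖ < 9 / 10 := (hw.norm.tendsto t0).eventually (gt_mem_nhds h0)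
    filter_upwards [h4] with t ht using hL _ _ (hb t) (hb t0) _ ht
  have := h2.add h1
  simpa [ContinuousAt] using this

theorem F_contAt (E : Ell) {μ w : T → ℂ} (hμ : Continuous μ) (hw : Continuous w)
    (hb : ∀ t, ‖μ t‖ ≤ 1 / 100) {t0 : T} (h0 : ‖w t0‖ < 9 / 10) :
    ContinuousAt (fun t => E.F (μ t) (w t)) t0 := by
  refine fam_contAt (C := E.CF) hμ hw hb
    (fun a b ha hb z hz => E.lip a b ha hb z (by linarith)) h0 ?_
  refine ((E.hol _ (hb t0)).differentiableAt (isOpen_ball.mem_nhds ?_)).continuousAt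
  rw [mem_ball_zero_iff]; linarith

theorem dF_contAt (hK : S_Ker0) (E : Ell) {μ w : T → ℂ} (hμ : Continuous μ) (hw : Continuous w)
    (hb : ∀ t, ‖μ t‖ ≤ 1 / 100) {t0 : T} (h0 : ‖w t0‖ < 9 / 10) :
    ContinuousAt (fun t => deriv (E.F (μ t)) (w t)) t0 := by
  obtain ⟨C, -, hC⟩ := hK E
  refine fam_contAt (G := fun a z => deriv (E.F a) z) (C := C) hμ hw hb
    (fun a b ha hb z hz => ?_) h0 ?_
  · simpa using ((hC a ha).1 1 (by norm_num) z hz.le).2 b hb
  · refine (((E.hol _ (hb t0)).deriv isOpen_ball).differentiableAt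
      (isOpen_ball.mem_nhds ?_)).continuousAt
    rw [mem_ball_zero_iff]; linarith

/-- the regular part of the force kernel near the pole -/
theorem Zr_contAt (hK : S_Ker0) (E : Ell) {μ w : T → ℂ} (hμ : Continuous μ) (hw : Continuous w)
    (hb : ∀ t, ‖μ t‖ ≤ 1 / 100) {t0 : T} (h0 : ‖w t0‖ < 9 / 10) :
    ContinuousAt (fun t => E.Z (μ t) (w t) - (w t)⁻¹) t0 := by
  have h4 : ∀ᶠ t in 𝓝 t0, ‖w t‖ < 9 / 10 := (hw.norm.tendsto t0).eventually (gt_mem_nhds h0)
  have h1 : ContinuousAt (fun t => deriv (E.F (μ t)) (w t) - bE (μ t) * conj (w t)) t0 :=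
    (dF_contAt hK E hμ hw hb h0).sub
      ((continuous_ofReal.comp (bE_cont hμ hb)).mul (continuous_conj.comp hw)).continuousAt
  refine h1.congr ?_
  filter_upwards [h4] with t ht
  rw [E.Zloc _ (hb t) _ ht]; ring

theorem Z_cont (hK : S_Ker0) (E : Ell) {μ w : T → ℂ} (hμ : Continuous μ) (hw : Continuous w)
    (hb : ∀ t, ‖μ t‖ ≤ 1 / 100) (h0 : ∀ t (u : GI), w t ≠ Lm (μ t) u) :
    Continuous (fun t => E.Z (μ t) (w t)) := by
  refine continuous_iff_continuousAt.2 fun t0 => ?_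
  obtain ⟨C, -, hC⟩ := hK E
  obtain ⟨u, hu⟩ := (hC _ (hb t0)).2.2.1 (w t0)
  have hw' : Continuous (fun t => w t - Lm (μ t) u) := hw.sub (Lm_cont hμ continuous_const)
  have h1 := (Zr_contAt hK E hμ hw' hb (t0 := t0) (by linarith)).add
    (hw'.continuousAt.inv₀ (sub_ne_zero.2 (h0 t0 u)))
  refine h1.congr (Eventually.of_forall fun t => ?_)
  have := E.Zper _ (hb t) (w t - Lm (μ t) u) u
  simp only [sub_add_cancel] at this
  simp only [Pi.add_apply, Pi.inv_apply, sub_add_cancel, this]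

theorem Gr_cont (hK : S_Ker0) (E : Ell) {μ w : T → ℂ} (hμ : Continuous μ) (hw : Continuous w)
    (hb : ∀ t, ‖μ t‖ ≤ 1 / 100) (h0 : ∀ t (u : GI), w t ≠ Lm (μ t) u) :
    Continuous (fun t => E.Gr (μ t) (w t)) := by
  refine continuous_iff_continuousAt.2 fun t0 => ?_
  obtain ⟨C, -, hC⟩ := hK E
  obtain ⟨u, hu⟩ := (hC _ (hb t0)).2.2.1 (w t0)
  have hw' : Continuous (fun t => w t - Lm (μ t) u) := hw.sub (Lm_cont hμ continuous_const)
  have h5 : ‖w t0 - Lm (μ t0) u‖ < 9 / 10 := by linarith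
  have h4 : ∀ᶠ t in 𝓝 t0, ‖w t - Lm (μ t) u‖ < 9 / 10 :=
    (hw'.norm.tendsto t0).eventually (gt_mem_nhds h5)
  have h1 : ContinuousAt (fun t => Real.log ‖w t - Lm (μ t) u‖ + (E.F (μ t) (w t - Lm (μ t) u)).re
      - bE (μ t) * ‖w t - Lm (μ t) u‖ ^ 2 / 2) t0 := by
    refine ((hw'.norm.continuousAt.log ?_).add
      (continuous_re.continuousAt.comp (F_contAt E hμ hw' hb h5))).sub
      (((bE_cont hμ hb).mul (hw'.norm.pow 2)).div_const 2).continuousAt
    exact norm_ne_zero_iff.2 (sub_ne_zero.2 (h0 t0 u))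
  refine h1.congr ?_
  filter_upwards [h4] with t ht
  have := E.Gper _ (hb t) (w t - Lm (μ t) u) u
  simp only [sub_add_cancel] at this
  rw [this, E.Gloc _ (hb t) _ ht]

end Cont1P

end Pool.Agent.P.MP_cc4a10_gt
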