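import Pool.Agent.P.MP_cc4a10_gt.Fo

/-!
Package Cont2: joint continuity of the Cousin solution.
-/

open Set Filter Topology Complex Metric
open scoped ComplexConjugate Real

noncomputable section

namespace Pool.Agent.P.MP_cc4a10_gt

namespace Cont2P

open FoP

/-- Circle integrals with parameters. -/
theorem cont_cint {X : Type*} [TopologicalSpace X] {s : Set X} {p : X → ℂ} {r : ℝ} (hr : 0 ≤ r)
    {f : X → ℂ → ℂ}
    (h : ContinuousOn (fun a : X × ℂ => f a.1 (p a.1 + a.2)) {a | a.1 ∈ s ∧ ‖a.2‖ = r}) :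
    ContinuousOn (fun x => cint (p x) r (f x)) s := by
  rw [continuousOn_iff_continuous_domRestrict]
  have e : s.domRestrict (fun x => cint (p x) r (f x)) = fun x : s => (2 * π * I)⁻¹ *
      ∫ θ in (0 : ℝ)..2 * π, (circleMap 0 r θ * I) * f x (p x + circleMap 0 r θ) := by
    funext x
    simp only [domRestrict_apply, cint, circleIntegral, deriv_circleMap, smul_eq_mul]
    congr 2
    funext θ
    congr 2
    simp [circleMap]
  rw [e]
  refine continuous_const.mul ?_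
  refine intervalIntegral.continuous_parametric_intervalIntegral_of_continuous'
    (f := fun (x : s) θ => (circleMap 0 r θ * I) * f x (p x + circleMap 0 r θ)) ?_ _ _
  have h1 : Continuous (fun a : s × ℝ => circleMap 0 r a.2) :=
    (continuous_circleMap 0 r).comp continuous_snd
  have h2 : Continuous (fun a : s × ℝ => ((a.1 : X), circleMap 0 r a.2)) :=
    (continuous_subtype_val.comp continuous_fst).prodMk h1
  refine (h1.mul continuous_const).mul ?_
  exact h.comp_continuous h2 fun a => ⟨a.1.2, by simp [abs_of_nonneg hr]⟩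

theorem cont_ts {X : Type*} [TopologicalSpace X] {s : Set X} (m : ℕ) {F : X → GI → ℂ}
    (h : ∀ u, ContinuousOn (fun x => F x u) s) : ContinuousOn (fun x => ts m (F x)) s := by
  unfold ts
  exact (continuousOn_finsetSum _ fun a _ => continuousOn_finsetSum _ fun b _ => h _).const_smul _

theorem cont_bE : ContinuousOn (fun μ : ℂ => bE μ) {μ | ‖μ‖ ≤ 1 / 100} := by
  unfold bE
  refine continuousOn_const.div (by fun_prop) fun μ hμ => ?_
  have h1 : ‖μ‖ ≤ 1 / 100 := hμ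
  have h2 := norm_nonneg μ
  nlinarith

theorem cont_dF (hK : S_Ker0) (E : Ell) :
    ContinuousOn (fun a : ℂ × ℂ => deriv (E.F a.1) a.2) {a | ‖a.1‖ ≤ 1 / 100 ∧ ‖a.2‖ < 9 / 10} := by
  obtain ⟨C, hC0, hC⟩ := hK E
  intro a ha
  have h1 : ContinuousAt (deriv (E.F a.1)) a.2 :=
    ((E.hol a.1 ha.1).deriv isOpen_ball).continuousOn.continuousAt
      (isOpen_ball.mem_nhds (mem_ball_zero_iff.2 (by linarith [ha.2])))
  have h2 : ContinuousWithinAt (fun b : ℂ × ℂ => deriv (E.F a.1) b.2)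
      {a | ‖a.1‖ ≤ 1 / 100 ∧ ‖a.2‖ < 9 / 10} a :=
    (ContinuousAt.comp (f := fun b : ℂ × ℂ => b.2) h1 continuousAt_snd).continuousWithinAt
  have h3 : Tendsto (fun b : ℂ × ℂ => deriv (E.F b.1) b.2 - deriv (E.F a.1) b.2)
      (𝓝[{a | ‖a.1‖ ≤ 1 / 100 ∧ ‖a.2‖ < 9 / 10}] a) (𝓝 0) := by
    have h4 : Tendsto (fun b : ℂ × ℂ => C * ‖b.1 - a.1‖)
        (𝓝[{a | ‖a.1‖ ≤ 1 / 100 ∧ ‖a.2‖ < 9 / 10}] a) (𝓝 0) := by
      have h5 : Continuous (fun b : ℂ × ℂ => C * ‖b.1 - a.1‖) := by fun_prop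
      have h6 := h5.tendsto a
      simp only [sub_self, norm_zero, mul_zero] at h6
      exact h6.mono_left nhdsWithin_le_nhds
    refine squeeze_zero_norm' ?_ h4
    filter_upwards [self_mem_nhdsWithin] with b hb
    have := ((hC b.1 hb.1).1 1 (by norm_num) b.2 hb.2.le).2 a.1 ha.1
    simpa only [iteratedDeriv_one] using this
  have h7 := h3.add h2
  simp only [sub_add_cancel, zero_add] at h7
  exact h7

/-- The kernel is jointly continuous off the lattice. -/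
theorem cont_Z (hK : S_Ker0) (E : Ell) : ContinuousOn (fun a : ℂ × ℂ => E.Z a.1 a.2)
    {a | ‖a.1‖ ≤ 1 / 100 ∧ ∀ g : GI, a.2 ≠ Lm a.1 g} := by
  have hF := cont_dF hK E
  obtain ⟨C, hC0, hC⟩ := hK E
  intro a ha
  obtain ⟨g, hg⟩ := (hC a.1 ha.1).2.2.1 a.2
  set T : Set (ℂ × ℂ) := {a | ‖a.1‖ ≤ 1 / 100 ∧ ∀ g : GI, a.2 ≠ Lm a.1 g} with hT
  have hw : Continuous (fun b : ℂ × ℂ => b.2 - Lm b.1 g) := by unfold Lm; fun_prop
  have hn : ∀ᶠ b in 𝓝[T] a, ‖b.2 - Lm b.1 g‖ < 9 / 10 := by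
    refine nhdsWithin_le_nhds ?_
    exact hw.norm.continuousAt.eventually_lt continuousAt_const (by linarith)
  have h1 : ContinuousWithinAt (fun b : ℂ × ℂ => deriv (E.F b.1) (b.2 - Lm b.1 g)) T a := by
    have h2 := hF (a.1, a.2 - Lm a.1 g) ⟨ha.1, by simp only; linarith⟩
    refine Tendsto.comp (g := fun c : ℂ × ℂ => deriv (E.F c.1) c.2)
      (f := fun b : ℂ × ℂ => (b.1, b.2 - Lm b.1 g)) h2 ?_
    refine tendsto_nhdsWithin_iff.2 ⟨?_, ?_⟩
    · exact ((continuous_fst.prodMk hw).tendsto a).mono_left nhdsWithin_le_nhds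
    · filter_upwards [hn, self_mem_nhdsWithin] with b hb hb'
      exact ⟨hb'.1, hb⟩
  have h3 : ContinuousWithinAt (fun b : ℂ × ℂ => (b.2 - Lm b.1 g)⁻¹) T a :=
    (hw.continuousAt.inv₀ (sub_ne_zero.2 (ha.2 g))).continuousWithinAt
  have h4 : ContinuousWithinAt (fun b : ℂ × ℂ => (bE b.1 : ℂ)) T a := by
    refine continuous_ofReal.continuousAt.comp_continuousWithinAt ?_
    exact ContinuousWithinAt.comp (g := fun μ : ℂ => bE μ) (f := fun b : ℂ × ℂ => b.1)
      (cont_bE a.1 ha.1) continuousAt_fst.continuousWithinAt fun b hb => hb.1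
  have h5 : ContinuousWithinAt (fun b : ℂ × ℂ => conj (b.2 - Lm b.1 g)) T a :=
    (continuous_conj.comp hw).continuousAt.continuousWithinAt
  have key : ∀ b : ℂ × ℂ, ‖b.1‖ ≤ 1 / 100 → ‖b.2 - Lm b.1 g‖ < 9 / 10 → E.Z b.1 b.2 =
      (b.2 - Lm b.1 g)⁻¹ + deriv (E.F b.1) (b.2 - Lm b.1 g) - bE b.1 * conj (b.2 - Lm b.1 g) := by
    intro b h6 h7
    rw [← E.Zloc b.1 h6 _ h7, ← E.Zper b.1 h6 (b.2 - Lm b.1 g) g, sub_add_cancel]
  refine ((h3.add h1).sub (h4.mul h5)).congr_of_eventuallyEq ?_ (key a ha.1 (by linarith))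
  filter_upwards [hn, self_mem_nhdsWithin] with b hb hb'
  exact key b hb'.1 hb

variable {E : Ell} {S : Sys}

theorem cont_mu (K : ℤ) : Continuous (fun x : Cfg => x.μ K) := by
  unfold Cfg.μ; fun_prop

theorem cont_l (K : ℤ) : Continuous (fun x : Cfg => x.l K) := by
  unfold Cfg.l; fun_prop

/-- The Cousin operator off the circles. -/
theorem cont_So (hK : S_Ker0) (hG : ∀ x, XX S x → ∀ K, Gd E S x K) {K : ℤ}
    (hp : ∀ u, Continuous (fun x : Cfg => pK S x K u)) {r : ℝ} (hr : 0 ≤ r)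
    {f : Cfg → GI → ℂ → ℂ} (h0 : ∀ x u, u ∉ Nk (lvF S K) → f x u = 0)
    (hf : ∀ u ∈ Nk (lvF S K), ContinuousOn (fun a : Cfg × ℂ => f a.1 u (pK S a.1 K u + a.2))
      {a | XX S a.1 ∧ ‖a.2‖ = r}) :
    ContinuousOn (fun a : Cfg × ℂ => So E S a.1 K (f a.1) r a.2)
      {a | XX S a.1 ∧ ∀ u ∈ Nk (lvF S K), ‖a.2 - pK S a.1 K u‖ ≠ r} := by
  unfold So SoL
  refine cont_ts (mK S K) fun u => ?_
  by_cases hu : u ∈ Nk (lvF S K)
  swap
  · simp only [h0 _ u hu, Pi.zero_apply, zero_mul, cint, circleIntegral, smul_zero,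
      intervalIntegral.integral_zero, mul_zero]
    exact continuousOn_const
  refine cont_cint (X := Cfg × ℂ) (p := fun a => pK S a.1 K u) hr
    (f := fun a ξ => f a.1 u ξ * (E.Z (a.1.μ K) (ξ - a.2)
      + bE (a.1.μ K) * conj (ξ - pK S a.1 K u))) ?_
  have hm : Continuous (fun b : (Cfg × ℂ) × ℂ => b.1.1.μ K) :=
    (cont_mu K).comp (continuous_fst.comp continuous_fst)
  have hq : Continuous (fun b : (Cfg × ℂ) × ℂ => pK S b.1.1 K u) :=
    (hp u).comp (continuous_fst.comp continuous_fst)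
  refine ContinuousOn.mul ?_ (ContinuousOn.add ?_ (ContinuousOn.mul ?_ ?_))
  · exact (hf u hu).comp (f := fun b : (Cfg × ℂ) × ℂ => (b.1.1, b.2))
      (Continuous.continuousOn (by fun_prop)) fun b hb => ⟨hb.1.1, hb.2⟩
  · refine (cont_Z hK E).comp
      (f := fun b : (Cfg × ℂ) × ℂ => (b.1.1.μ K, pK S b.1.1 K u + b.2 - b.1.2))
      (hm.prodMk ((hq.add continuous_snd).sub (continuous_snd.comp continuous_fst))).continuousOn
      fun b hb => ⟨(hG _ hb.1.1 K).mu, fun g e => ?_⟩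
    have G := hG _ hb.1.1 K
    obtain ⟨w, hw⟩ := G.lat' (-g)
    have hu' : u + om ^ mK S K * w ∈ Nk (lvF S K) := by
      rw [mem_Nk, G.qper]; exact hu
    refine hb.1.2 _ hu' ?_
    have e1 : Lm (b.1.1.μ K) ((-g : GI) : ℂ) = -Lm (b.1.1.μ K) g := by
      simp [Lm]; ring
    have e2 : pK S b.1.1 K u + b.2 - b.1.2 = Lm (b.1.1.μ K) g := e
    rw [G.pper, hw, e1, ← e2, ← hb.2]
    congr 1
    ring
  · refine continuous_ofReal.comp_continuousOn ?_
    exact cont_bE.comp hm.continuousOn fun b hb => (hG _ hb.1.1 K).mu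
  · exact (continuous_conj.comp ((hq.add continuous_snd).sub hq)).continuousOn

/-- The facts from the package Cont1. -/
def C1 (E : Ell) (S : Sys) : Prop := ∀ K,
  (∀ u, Continuous (fun x : Cfg => pK S x K u) ∧ Continuous (fun x : Cfg => tn S x K u)) ∧
  ∀ u ∈ Nk (lvF S K),
    ContinuousOn (fun a : Cfg × ℂ => vK E S a.1 K u (pK S a.1 K u + a.2))
      {a | XX S a.1 ∧ ‖a.2‖ < 3 * rho (mK S K)} ∧
    ContinuousOn (fun a : Cfg × ℂ => deriv (vK E S a.1 K u) (pK S a.1 K u + a.2))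
      {a | XX S a.1 ∧ ‖a.2‖ < 3 * rho (mK S K)}

/-- Jointly continuous families. -/
def JC (S : Sys) (M : Cfg → Fam) : Prop := ∀ K, ∀ u ∈ Nk (lvF S K),
  ContinuousOn (fun a : Cfg × ℂ => M a.1 K u (pK S a.1 K u + a.2))
    {a | XX S a.1 ∧ ‖a.2‖ ≤ rho (mK S K) * (3 / 4)}

theorem rho_pos (S : Sys) (K : ℤ) : 0 < rho (mK S K) := by
  have := dd_pos (mK S K)
  have : (0 : ℝ) < mK S K := by unfold mK; positivity
  unfold rho; positivity

theorem cont_mm (hI : S_Inv) (hG : ∀ x, XX S x → ∀ K, Gd E S x K) (h1 : C1 E S)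
    {M : Cfg → Fam} (hM : JC S M) {K : ℤ} {u : GI} (hu : u ∈ Nk (lvF S K)) :
    ContinuousOn (fun a : Cfg × ℂ => mm E S a.1 (M a.1) K u a.2)
      {a | XX S a.1 ∧ ‖a.2‖ ≤ rho (mK S K) * (45 / 100)} := by
  have hρ := rho_pos S K
  unfold mm
  refine cont_cint (X := Cfg × ℂ) (p := fun a => pK S a.1 K u) (by positivity)
    (f := fun a ξ => M a.1 K u ξ * deriv (vK E S a.1 K u) ξ / (vK E S a.1 K u ξ - a.2)) ?_
  have hc : ContinuousOn (fun b : (Cfg × ℂ) × ℂ => (b.1.1, b.2))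
      {b | b.1 ∈ {a : Cfg × ℂ | XX S a.1 ∧ ‖a.2‖ ≤ rho (mK S K) * (45 / 100)} ∧
        ‖b.2‖ = rho (mK S K) / 2} := Continuous.continuousOn (by fun_prop)
  refine ContinuousOn.div (ContinuousOn.mul ?_ ?_) (ContinuousOn.sub ?_ ?_) fun b hb => ?_
  · exact (hM K u hu).comp hc fun b hb => ⟨hb.1.1, by simp only [hb.2]; linarith⟩
  · exact ((h1 K).2 u hu).2.comp hc fun b hb => ⟨hb.1.1, by simp only [hb.2]; linarith⟩
  · exact ((h1 K).2 u hu).1.comp hc fun b hb => ⟨hb.1.1, by simp only [hb.2]; linarith⟩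
  · exact (continuous_snd.comp continuous_fst).continuousOn
  · have h2 := (((hG _ hb.1.1 K).co u hu).near hI (z := pK S b.1.1 K u + b.2)
      (by rw [add_sub_cancel_left, hb.2]; linarith)).1
    rw [add_sub_cancel_left, hb.2] at h2
    intro e
    have h3 : ‖b.1.2‖ ≤ rho (mK S K) * (45 / 100) := hb.1.2
    rw [← sub_eq_zero.1 e] at h3
    linarith

theorem cont_fo (hI : S_Inv) (hPar : S_Par) (hS : S.ok) (hG : ∀ x, XX S x → ∀ K, Gd E S x K)
    (h1 : C1 E S) {M : Cfg → Fam} (hM : JC S M) {K : ℤ} {u : GI} (hu : u ∈ Nk (lvF S K))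
    {r : ℝ} (r1 : rho1 (mK S K) / 4 < r) (r2 : r < 2 * rho (mK S K)) :
    ContinuousOn (fun a : Cfg × ℂ => fo E S a.1 (M a.1) K u (pK S a.1 K u + a.2))
      {a | XX S a.1 ∧ ‖a.2‖ = r} := by
  have hρ := rho_pos S K
  have hρ' := rho_pos S (ot S K u)
  have hu' := (par_facts hPar hS hu).1
  have h2 := cont_mm hI hG h1 hM hu'
  simp only [fo_eq hu]
  have h3 : ∀ a : Cfg × ℂ, XX S a.1 → ‖a.2‖ = r → vK E S a.1 K u (pK S a.1 K u + a.2) ≠ 0 ∧
      ‖tn S a.1 K u / vK E S a.1 K u (pK S a.1 K u + a.2)‖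
        < rho (mK S (ot S K u)) * (45 / 100) := by
    intro a ha hr
    have := arg_small hI hPar hS (hG _ ha) hu (ξ := pK S a.1 K u + a.2)
      (by rw [add_sub_cancel_left, hr]; exact r1) (by rw [add_sub_cancel_left, hr]; exact r2)
    exact ⟨this.1, this.2.2⟩
  refine ContinuousOn.sub ?_ ?_
  · refine h2.comp (f := fun a : Cfg × ℂ =>
      (a.1, tn S a.1 K u / vK E S a.1 K u (pK S a.1 K u + a.2)))
      (continuousOn_fst.prodMk (ContinuousOn.div ?_ ?_ fun a ha => (h3 a ha.1 ha.2).1))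
      fun a ha => ⟨ha.1, (h3 a ha.1 ha.2).2.le⟩
    · exact (((h1 K).1 u).2.comp continuous_fst).continuousOn
    · exact ((h1 K).2 u hu).1.mono fun a ha => ⟨ha.1, by rw [ha.2]; linarith⟩
  · exact h2.comp (f := fun a : Cfg × ℂ => (a.1, (0 : ℂ)))
      (continuousOn_fst.prodMk continuousOn_const)
      fun a ha => ⟨ha.1, by simp only [norm_zero]; positivity⟩

theorem rho1_pos (m : ℕ) : 0 < rho1 m := by
  have := dd_pos m
  have := tt_pos m
  unfold rho1; positivity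

theorem cont_step (hK : S_Ker0) (hI : S_Inv) (hPar : S_Par) (hS : S.ok)
    (hG : ∀ x, XX S x → ∀ K, Gd E S x K) (h1 : C1 E S) {M : Cfg → Fam} (hM : JC S M) (K : ℤ)
    {r : ℝ} (r1 : rho1 (mK S K) / 4 < r) (r2 : r < 2 * rho (mK S K)) :
    ContinuousOn (fun a : Cfg × ℂ => So E S a.1 K (fo E S a.1 (M a.1) K) r a.2)
      {a | XX S a.1 ∧ ∀ u ∈ Nk (lvF S K), ‖a.2 - pK S a.1 K u‖ ≠ r} := by
  have := rho1_pos (mK S K)
  exact cont_So hK hG (fun u => ((h1 K).1 u).1) (by linarith)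
    (f := fun x => fo E S x (M x) K) (fun x u hu => fo_zero hu)
    fun u hu => cont_fo hI hPar hS hG h1 hM hu r1 r2

end Cont2P

open FoP Cont2P in
theorem pCont2 (hC : S_Cont1) (hCou : S_Cou1) (hK : S_Ker0) (hLev : S_Lev) (hVt : S_Vt)
    (hI : S_Inv) (hFlip : S_Flip) (hPar : S_Par) (hDip : S_Dip) : S_Cont2 := by
  intro E
  obtain ⟨j0, hj0⟩ := exists_gd hFlip hLev hVt hDip E
  obtain ⟨j1, hj1⟩ := hC E
  obtain ⟨C, j2, -, hj2⟩ := hCou E
  refine ⟨j0 + j1 + j2, fun S hS hB => ?_⟩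
  have hG : ∀ x, XX S x → ∀ K, Gd E S x K := fun x hX =>
    hj0 S x hS (fun k => le_trans (by omega) (hB k)) hX
  have h0 := hj1 S hS (fun k => le_trans (by omega) (hB k))
  have h1 : C1 E S := fun K => ⟨fun u => ⟨((h0 K).1 u).1, ((h0 K).1 u).2.2⟩,
    fun u hu => ⟨((h0 K).2.2 u hu).2.1, ((h0 K).2.2 u hu).2.2.1⟩⟩
  by_cases hne : ∃ x, XX S x
  swap
  · intro K
    refine ⟨fun a ha => absurd ⟨_, ha.1⟩ hne, fun u hu =>
      ⟨fun a ha => absurd ⟨_, ha.1⟩ hne, fun a ha => absurd ⟨_, ha.1⟩ hne⟩⟩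
  obtain ⟨x0, hx0⟩ := hne
  have hr : ∀ K, rho1 (mK S K) / 2 ≤ rho (mK S K) := fun K => rho1_le (hG x0 hx0 K)
  have hinc : ∀ n, JC S (fun x => inc E S x n) := by
    intro n
    induction n with
    | zero =>
      intro K u hu
      have hρ := rho_pos S K
      refine ContinuousOn.sub ((cont_l K).comp continuous_fst).continuousOn ?_
      exact ((h0 K).2.2 u hu).2.2.2.mono fun a ha => ⟨ha.1, by linarith [ha.2]⟩
    | succ n ih =>
      intro K u hu
      have hρ := rho_pos S K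
      have h2 := rho1_pos (mK S K)
      have h3 := cont_step hK hI hPar hS hG h1 ih K (r := rho (mK S K)) (by linarith [hr K])
        (by linarith)
      refine h3.comp (f := fun a : Cfg × ℂ => (a.1, pK S a.1 K u + a.2))
        (continuous_fst.prodMk ((((h1 K).1 u).1.comp continuous_fst).add
          continuous_snd)).continuousOn fun a ha => ⟨ha.1, fun u' _ => ?_⟩
      have h4 : ‖a.2‖ ≤ rho (mK S K) * (3 / 4) := ha.2
      by_cases e : u' = u
      · rw [e]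
        simp only [add_sub_cancel_left]
        exact ne_of_lt (by linarith)
      · have := far (hG _ ha.1 K) e (z := pK S a.1 K u + a.2)
          (by rw [add_sub_cancel_left]; linarith)
        exact ne_of_gt (by simp only; linarith)
  have hMM : JC S (fun x => MM E S x) := by
    intro K u hu
    refine continuousOn_tsum (u := fun n : ℕ => (1 / 2 : ℝ) ^ n) (fun n => hinc n K u hu)
      summable_geometric_two fun n a ha => ?_
    exact (hj2 S a.1 hS (fun k => le_trans (by omega) (hB k)) ha.1 K u hu).1 n _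
      (by rw [add_sub_cancel_left]; exact ha.2)
  intro K
  refine ⟨?_, fun u hu => ⟨hMM K u hu, cont_mm hI hG h1 hMM hu⟩⟩
  have hρ := rho_pos S K
  have h2 := rho1_pos (mK S K)
  have h3 := cont_step hK hI hPar hS hG h1 hMM K (r := rho1 (mK S K) / 2) (by linarith)
    (by linarith [hr K])
  refine ContinuousOn.add ((cont_l K).comp continuous_fst).continuousOn ?_
  exact h3.mono fun a ha => ⟨ha.1, fun u hu => ne_of_gt (ha.2 u hu)⟩

end Pool.Agent.P.MP_cc4a10_gt
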