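import Pool.Agent.P.MP_cc4a10_gt.Cont3A

/-!
Continuity of the data of the fixed point map.
-/

open Set Complex
open scoped ComplexConjugate Real

noncomputable section

namespace Pool.Agent.P.MP_cc4a10_gt.Cont3P

/-- The facts used on one level. -/
structure Gd (E : Ell) (S : Sys) (x : Cfg) (K : ℤ) : Prop where
  m1 : 1 ≤ mK S K
  mt : mK S K * tt (mK S K) ≤ 1 / 100
  nc : ‖(lvF S K).c‖ = dd (mK S K)
  mu : ‖x.μ K‖ ≤ 1 / 100
  ep : ∀ u, ‖(ls S x K).ε u‖ ≤ rho (mK S K) / 1000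
  sg : ∀ u, |(ls S x K).σ u| ≤ 1 / 1000
  vv : ∀ u ∈ Nk (lvF S K), ∀ w, ‖w‖ < 3 * rho (mK S K) →
    ‖vK E S x K u (pK S x K u + w) - w‖ ≤ ‖w‖ / 100
  tq : ∀ u ∈ Nk (lvF S K), ‖tn S x K u + (qK S x K u ^ 2 : ℝ)‖ ≤ qK S x K u ^ 2 / 100 ∧
    0 < qK S x K u ^ 2 ∧ qK S x K u ^ 2 ≤ 17 * dd (mK S K) ^ 4

theorem good (hU : S_Cou1) (hL : S_Lev) (hV : S_Vt) (hF : S_Flip) (hP : S_Par) (hD : S_Dip)
    (hI : S_Inv) (E : Ell) : ∃ j1 : ℕ, ∀ S : Sys, S.ok → Big S j1 → ∀ x, XX S x → ∀ K,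
    Gd E S x K := by
  obtain ⟨C1, j1, -, h1⟩ := hU E
  obtain ⟨C2, m2, -, h2⟩ := hL E
  obtain ⟨C3, m3, hC3, h3⟩ := hV E
  obtain ⟨m4, h4⟩ := exists_pow_mul_tt_le 1 (η := 1 / 100) (by norm_num)
  obtain ⟨m5, h5⟩ := exists_nat_ge (100 * C3)
  refine ⟨j1 + m2 + m3 + m4 + m5 + 10, fun S hS hB x hx K => ?_⟩
  have hm : j1 + m2 + m3 + m4 + m5 + 12 ≤ mK S K := by
    have a := hB (K - 1)
    have b := hB K
    unfold mK jl; omega
  have lg := (hF E S hS K).2 x (fun k => le_trans (by omega) (hB k)) hx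
  have ok := (hP S hS K).2.1
  have em : (lvF S K).m = mK S K := rfl
  obtain ⟨l1, -⟩ := h2 _ _ _ lg (by rw [em]; omega)
  have mt : mK S K * tt (mK S K) ≤ 1 / 100 := by simpa using h4 (mK S K) (by omega)
  have m1 : (1 : ℝ) ≤ mK S K := by exact_mod_cast (by omega : 1 ≤ mK S K)
  have t0 := tt_pos (mK S K)
  have hd := dd_pos (mK S K)
  have r0 : 0 < rho (mK S K) := by unfold rho; positivity
  obtain ⟨-, -, -, -, -, q1, q2, nc, -⟩ := hD _ ok
  refine ⟨by omega, mt, nc, ?_, fun u => (l1 u).2.1, fun u => (l1 u).2.2.2, ?_, ?_⟩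
  · have a : tt (mK S K) ^ 30 ≤ tt (mK S K) :=
      pow_le_of_le_one t0.le (tt_le_one _) (by norm_num)
    have := hx.mb K
    nlinarith
  · intro u hu w hw
    obtain ⟨v1, -, v2, -, -, v3, -⟩ := h3 _ _ _ lg (by rw [em]; omega) u hu
    have hc : C3 / (mK S K : ℝ) ≤ 1 / 100 := by
      have : (m5 : ℝ) ≤ mK S K := by exact_mod_cast (by omega : m5 ≤ mK S K)
      rw [div_le_iff₀ (by linarith)]; linarith
    have := (hI _ _ _ (by rw [em]; linarith) v1 v2 fun z hz =>
      (v3 z (by simpa [dist_eq_norm] using hz)).1.trans hc).1 (pK S x K u + w)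
      (by simpa [pK, em] using hw) (pK S x K u) (by simpa [pK, em] using r0)
    rw [add_sub_cancel_left] at this
    have e : vt E (lvF S K) (ls S x K) u (pK S x K u) = 0 := v2
    rwa [e, sub_zero] at this
  · intro u hu
    obtain ⟨-, -, -, -, -, -, c1, -⟩ := h1 S x hS (fun k => le_trans (by omega) (hB k)) hx K u hu
    have s1 := abs_le.1 (l1 u).2.2.2
    have e : qK S x K u = q0 (lvF S K) u * (1 + (ls S x K).σ u) := rfl
    refine ⟨by simpa using c1, ?_, ?_⟩
    · have : qK S x K u ≠ 0 := by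
        rw [e]; exact mul_ne_zero hu (by linarith)
      positivity
    · have a : q0 (lvF S K) u ^ 2 ≤ (4 * dd (mK S K) ^ 2) ^ 2 :=
        sq_le_sq' (abs_le.1 (q2 u)).1 (abs_le.1 (q2 u)).2
      have b : (1 + (ls S x K).σ u) ^ 2 ≤ 17 / 16 := by nlinarith
      rw [e, mul_pow]
      calc _ ≤ (4 * dd (mK S K) ^ 2) ^ 2 * (17 / 16) := by gcongr
        _ = _ := by ring

variable {E : Ell} {S : Sys} {x : Cfg} {K : ℤ}

theorem Gd.rho_pos (g : Gd E S x K) : 0 < rho (mK S K) := by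
  have := dd_pos (mK S K)
  have : (0 : ℝ) < mK S K := by exact_mod_cast g.m1
  unfold rho; positivity

theorem Gd.out (g : Gd E S x K) {ζ δ z : ℂ}
    (hζ : ∀ n : GI, 1 / (16 * (mK S K : ℝ)) ≤ ‖ζ - n‖) (hδ : ‖δ‖ ≤ rho (mK S K) / 100)
    (hz : z = Lm (x.μ K) ((lvF S K).c * ζ) + δ) :
    z ∈ Out (Nk (lvF S K)) (pK S x K) (rho1 (mK S K) / 2) := fun n _ =>
  hz ▸ out_of g.m1 g.nc g.mu (g.ep n) g.mt (hζ n) hδ

theorem Gd.inv16 (g : Gd E S x K) : 1 / (16 * (mK S K : ℝ)) ≤ 1 / 2 := by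
  have : (1 : ℝ) ≤ mK S K := by exact_mod_cast g.m1
  rw [div_le_div_iff₀ (by linarith) (by norm_num)]; linarith

theorem Gd.out1 (g : Gd E S x K) (u : GI) (t : ℝ) :
    VV S x K u + t * (VV S x K (u + 1) - VV S x K u)
      ∈ Out (Nk (lvF S K)) (pK S x K) (rho1 (mK S K) / 2) := by
  refine g.out (δ := 0) (fun n => g.inv16.trans (edge1 u n t))
    (by have := g.rho_pos; rw [norm_zero]; linarith) ?_
  simp only [VV, Lm, map_mul, map_add, conj_ofReal, map_one]
  ring

theorem Gd.out2 (g : Gd E S x K) (u : GI) (t : ℝ) :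
    VV S x K u + t * (VV S x K (u + gi) - VV S x K u)
      ∈ Out (Nk (lvF S K)) (pK S x K) (rho1 (mK S K) / 2) := by
  refine g.out (δ := 0) (fun n => g.inv16.trans (edge2 u n t))
    (by have := g.rho_pos; rw [norm_zero]; linarith) ?_
  simp only [VV, Lm, coe_gi, map_mul, map_add, conj_ofReal]
  ring

theorem Gd.r_eq (g : Gd E S x K) : rho (mK S K) / 4 / dd (mK S K) = 1 / (4 * (mK S K : ℝ)) := by
  have := dd_pos (mK S K)
  have : (0 : ℝ) < mK S K := by exact_mod_cast g.m1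
  unfold rho; field_simp

theorem Gd.r_le (g : Gd E S x K) : 1 / (4 * (mK S K : ℝ)) ≤ 1 / 4 := by
  have : (1 : ℝ) ≤ mK S K := by exact_mod_cast g.m1
  rw [div_le_div_iff₀ (by linarith) (by norm_num)]; linarith

theorem Gd.small (g : Gd E S x K) {w e : ℂ} (hw : ‖w‖ ≤ rho (mK S K) / 4)
    (he : ‖e‖ ≤ rho (mK S K) / 1000) : ‖e - x.μ K * conj w‖ ≤ rho (mK S K) / 100 := by
  have a := norm_sub_le e (x.μ K * conj w)
  rw [norm_mul, norm_conj] at a
  have b : ‖x.μ K‖ * ‖w‖ ≤ 1 / 100 * (rho (mK S K) / 4) := by gcongr; exact g.mu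
  have := g.rho_pos
  linarith

/-- The offset of the anchor point. -/
def wa (S : Sys) (K : ℤ) (a : ℝ) : ℂ :=
  ((a * rho (mK S K) / 4 / dd (mK S K) : ℝ) : ℂ) * (lvF S K).c

theorem Gd.nwa (g : Gd E S x K) {a : ℝ} (ha : a = 1 ∨ a = -1) :
    ‖wa S K a‖ = rho (mK S K) / 4 := by
  have := dd_pos (mK S K)
  have := g.rho_pos
  have a1 : |a| = 1 := by rcases ha with rfl | rfl <;> simp
  rw [wa, norm_mul, g.nc, norm_real, Real.norm_eq_abs, abs_div, abs_div, abs_mul, a1,
    abs_of_pos g.rho_pos, abs_of_pos (dd_pos _), abs_of_pos (by norm_num)]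
  field_simp

theorem Gd.out3 (g : Gd E S x K) (u : GI) {a t : ℝ} (ha : a = 1 ∨ a = -1)
    (ht : t ∈ Icc (0 : ℝ) 1) : VV S x K u + t * (zP S x K u a - VV S x K u)
      ∈ Out (Nk (lvF S K)) (pK S x K) (rho1 (mK S K) / 2) := by
  have r0 := g.rho_pos
  have m0 : (0 : ℝ) < mK S K := by exact_mod_cast g.m1
  refine g.out (δ := t * (ls S x K).ε u - x.μ K * conj (t * wa S K a))
    (fun n => le_trans (le_of_eq ?_) (diag u n ht ha (by positivity) g.r_le)) (g.small ?_ ?_) ?_
  · field_simp; norm_num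
  · rw [norm_mul, g.nwa ha, norm_real, Real.norm_of_nonneg ht.1]
    nlinarith [ht.2]
  · rw [norm_mul, norm_real, Real.norm_of_nonneg ht.1]
    nlinarith [ht.2, g.ep u, norm_nonneg ((ls S x K).ε u)]
  · have e : a * rho (mK S K) / 4 / dd (mK S K) = a * (1 / (4 * (mK S K : ℝ))) := by
      rw [← g.r_eq]; ring
    have e2 : pK S x K u = Lm (x.μ K) ((lvF S K).c * u) + (ls S x K).ε u := rfl
    simp only [VV, zP, wa, e, e2, Lm, map_mul, map_add, conj_ofReal]
    push_cast
    ring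

theorem Gd.out4 (g : Gd E S x K) (u : GI) (t : ℝ) :
    pK S x K u + (rho (mK S K) / 4 : ℝ) * exp (t * I)
      ∈ Out (Nk (lvF S K)) (pK S x K) (rho1 (mK S K) / 2) := by
  have r0 := g.rho_pos
  have hd := dd_pos (mK S K)
  have m0 : (0 : ℝ) < mK S K := by exact_mod_cast g.m1
  have c0 : (lvF S K).c ≠ 0 := norm_pos_iff.1 (g.nc ▸ hd)
  have n1 : ‖((rho (mK S K) / 4 : ℝ) : ℂ) * exp (t * I)‖ = rho (mK S K) / 4 := by
    rw [norm_mul, norm_exp_ofReal_mul_I, mul_one, norm_real, Real.norm_of_nonneg (by linarith)]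
  set w := ((rho (mK S K) / 4 : ℝ) : ℂ) * exp (t * I)
  refine g.out (δ := (ls S x K).ε u - x.μ K * conj w)
    (fun n => le_trans (le_of_eq ?_) (circ u n (η := w / (lvF S K).c) ?_ g.r_le))
    (g.small n1.le (g.ep u)) ?_
  · field_simp; norm_num
  · rw [norm_div, n1, g.nc, g.r_eq]
  · have e2 : pK S x K u = Lm (x.μ K) ((lvF S K).c * u) + (ls S x K).ε u := rfl
    rw [e2, mul_add, mul_div_cancel₀ _ c0, Lm_add]
    simp only [Lm]
    ring

theorem ang (hP : S_Par) (hS : S.ok) {K K' : ℤ} (h : K' = K - 1 ∨ K' = K + 1) :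
    dd (mK S K) * dd (mK S K') * (7 / 10) ≤ -((lvF S K).c * (lvF S K').c).re := by
  have key : ∀ L : ℤ, dd (mK S L) * dd (mK S (L + 1)) * (7 / 10)
      ≤ -((lvF S L).c * (lvF S (L + 1)).c).re := fun L => by
    refine (hP S hS L).2.2.2.2.1.trans (le_of_eq ?_)
    have e : ∀ M, (lvF S M).c = io M (lvT S M).c := fun _ => rfl
    rw [e, e]
    by_cases hL : Even L
    · have : ¬Even (L + 1) := by simpa [Int.even_add_one] using hL
      simp [io, hL, this]
    · have : Even (L + 1) := by simpa [Int.even_add_one] using hL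
      simp [io, hL, this]
  rcases h with rfl | rfl
  · have := key (K - 1)
    rwa [sub_add_cancel, mul_comm (dd _), mul_comm (lvF S (K - 1)).c] at this
  · exact key K

theorem Gd.cross (hP : S_Par) (hS : S.ok) {K' : ℤ} (g : Gd E S x K) (g' : Gd E S x K')
    (h : K' = K - 1 ∨ K' = K + 1) {u u' : GI} (hu : u ∈ Nk (lvF S K)) (hu' : u' ∈ Nk (lvF S K'))
    {a : ℝ} (ha : a = 1 ∨ a = -1) :
    vK E S x K' u' (zP S x K' u' a) ≠ 0 ∧ ∀ t ∈ Icc (0 : ℝ) 1, ∀ y,
      y = tn S x K u / vK E S x K' u' (zP S x K' u' a) + t * (vK E S x K u (zP S x K u a)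
        - tn S x K u / vK E S x K' u' (zP S x K' u' a)) →
      y ≠ 0 ∧ ‖y‖ ≤ rho (mK S K) * (45 / 100) ∧ ‖tn S x K u / y‖ ≤ rho (mK S K') * (45 / 100) := by
  have r0 := g.rho_pos
  have r0' := g'.rho_pos
  have hd := dd_pos (mK S K)
  have hd' := dd_pos (mK S K')
  have m0 : (1 : ℝ) ≤ mK S K := by exact_mod_cast g.m1
  have m0' : (1 : ℝ) ≤ mK S K' := by exact_mod_cast g'.m1
  obtain ⟨q1, q2, q3⟩ := g.tq u hu
  have hm : mK S K' ≤ mK S K + 1 := by
    rcases h with rfl | rfl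
    · simpa using (hP S hS (K - 1)).2.2.1
    · exact (hP S hS K).2.2.2.1
  have A := across (V := vK E S x K u (zP S x K u a)) (V' := vK E S x K' u' (zP S x K' u' a))
    (W := wa S K a) (W' := wa S K' a) q2 (by linarith : 0 < rho (mK S K') / 4) q1
    (g.vv u hu (wa S K a) (by rw [g.nwa ha]; linarith))
    (g'.vv u' hu' (wa S K' a) (by rw [g'.nwa ha]; linarith))
    (g.nwa ha) (g'.nwa ha) ?_ ?_
  · refine ⟨A.1, fun t ht y hy => ?_⟩
    obtain ⟨b1, b2, b3⟩ := A.2 t ht
    rw [hy]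
    exact ⟨b1, by linarith, by linarith⟩
  · have a2 : a * a = 1 := by rcases ha with rfl | rfl <;> norm_num
    have e : wa S K a * wa S K' a = ((rho (mK S K) / 4 / dd (mK S K)
        * (rho (mK S K') / 4 / dd (mK S K')) : ℝ) : ℂ) * ((lvF S K).c * (lvF S K').c) := by
      have : ((a : ℂ) * a) = 1 := by exact_mod_cast a2
      simp only [wa]; push_cast
      linear_combination ((rho (mK S K) : ℂ) / 4 / dd (mK S K) * (rho (mK S K') / 4 / dd (mK S K'))
        * ((lvF S K).c * (lvF S K').c)) * this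
    rw [e, re_ofReal_mul, ← mul_neg]
    calc _ = rho (mK S K) / 4 / dd (mK S K) * (rho (mK S K') / 4 / dd (mK S K'))
          * (dd (mK S K) * dd (mK S K') * (7 / 10)) := by field_simp
      _ ≤ _ := by gcongr; exact ang hP hS h
  · have d1 : dd (mK S K) ≤ 4 * dd (mK S K') := by
      rw [← tt_pow_16, ← tt_pow_16]; exact tt_pow_le hm (by norm_num)
    have d2 : dd (mK S K) ≤ tt (mK S K) ^ 2 := by
      rw [← tt_pow_16]
      exact pow_le_pow_of_le_one (tt_pos _).le (tt_le_one _) (by norm_num)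
    have m2 : (mK S K' : ℝ) ≤ 2 * mK S K := by
      have : (mK S K' : ℝ) ≤ mK S K + 1 := by exact_mod_cast hm
      linarith
    have t0 := tt_pos (mK S K)
    have t1 := tt_le_one (mK S K)
    have mt := g.mt
    have d3 : mK S K * dd (mK S K) ≤ 1 / 100 := by nlinarith
    have d4 : (mK S K * dd (mK S K)) ^ 2 ≤ (1 / 100) ^ 2 := by gcongr
    refine q3.trans ?_
    have e : rho (mK S K) / 4 * (rho (mK S K') / 4) / 2
        = dd (mK S K) * dd (mK S K') / (32 * (mK S K * mK S K')) := by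
      unfold rho; field_simp; norm_num
    rw [e, le_div_iff₀ (by positivity)]
    calc _ ≤ 17 * dd (mK S K) ^ 4 * (32 * (mK S K * (2 * mK S K))) := by gcongr
      _ = 1088 * (mK S K * dd (mK S K)) ^ 2 * dd (mK S K) * dd (mK S K) := by ring
      _ ≤ 1088 * (1 / 100) ^ 2 * dd (mK S K) * (4 * dd (mK S K')) := by gcongr
      _ ≤ _ := by nlinarith [mul_pos hd hd']

theorem c_eT (S : Sys) (K : ℤ) (u : GI) : Continuous fun x : Cfg => eT S x.v K u := by
  unfold eT; fun_prop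

theorem c_sT (S : Sys) (K : ℤ) (u : GI) : Continuous fun x : Cfg => sT S x.v K u := by
  unfold sT; split_ifs <;> fun_prop

theorem c_eps (S : Sys) (K : ℤ) (u : GI) : Continuous fun x : Cfg => (ls S x K).ε u := by
  have a := c_eT S K u
  have b := c_eT S K (star u)
  simp only [ls, flC]
  split_ifs <;> fun_prop

theorem c_sig (S : Sys) (K : ℤ) (u : GI) : Continuous fun x : Cfg => (ls S x K).σ u := by
  simp only [ls, flR]
  split_ifs <;> exact c_sT _ _ _

theorem c_Flin (E : Ell) (S : Sys) (K : ℤ) (u : GI) :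
    Continuous fun x : Cfg => Flin E (lvT S K) (eT S x.v K) (sT S x.v K) u := by
  unfold Flin Rlin
  refine continuous_const.mul (co_ts _ fun w => ?_)
  have a := c_eT S K u
  have b := c_eT S K w
  have c := c_sT S K w
  fun_prop

theorem c_Glin (E : Ell) (S : Sys) (K : ℤ) (u : GI) :
    Continuous fun x : Cfg => Glin E (lvT S K) (eT S x.v K) (sT S x.v K) u := by
  unfold Glin hlin
  refine (continuous_const.mul (co_ts _ fun w => ?_)).add (continuous_const.mul (c_sT _ _ _))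
  have a := c_eT S K u
  have b := c_eT S K w
  have c := c_sT S K w
  fun_prop

theorem c_VV (S : Sys) (K : ℤ) (u : GI) : Continuous fun x : Cfg => VV S x K u := by
  unfold VV Lm; fun_prop

end Pool.Agent.P.MP_cc4a10_gt.Cont3P

namespace Pool.Agent.P.MP_cc4a10_gt

open Cont3P in
theorem pCont3 (h1 : S_Cont1) (h2 : S_Cont2) (hU : S_Cou1) (hL : S_Lev) (hV : S_Vt)
    (hF : S_Flip) (hP : S_Par) (hD : S_Dip) (hI : S_Inv) : S_Cont3 := by
  intro E
  obtain ⟨j1, c1⟩ := h1 E
  obtain ⟨j2, c2⟩ := h2 E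
  obtain ⟨j3, c3⟩ := good hU hL hV hF hP hD hI E
  refine ⟨j1 + j2 + j3, fun S hS hB => ?_⟩
  replace c1 := c1 S hS fun k => le_trans (by omega) (hB k)
  replace c2 := c2 S hS fun k => le_trans (by omega) (hB k)
  replace c3 := c3 S hS fun k => le_trans (by omega) (hB k)
  have f1 : ∀ K, ContinuousOn (fun a : Cfg × ℂ => F1 E S a.1 K a.2)
      {a | XX S a.1 ∧ a.2 ∈ Out (Nk (lvF S K)) (pK S a.1 K) (rho1 (mK S K) / 2)} := fun K =>
    (c2 K).1.cexp
  have f2 : ∀ K, ContinuousOn (fun a : Cfg × ℂ => F2 E S a.1 K a.2)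
      {a | XX S a.1 ∧ a.2 ∈ Out (Nk (lvF S K)) (pK S a.1 K) (rho1 (mK S K) / 2)} := fun K => by
    refine (((c1 K).2.1.mono fun a ha => ⟨ha.1, fun n hn => lt_trans ?_ (ha.2 n hn)⟩).pow 2).mul
      (c2 K).1.neg.cexp
    have := dd_pos (mK S K)
    have := tt_pos (mK S K)
    unfold rho1; positivity
  have th : ∀ K (a b : Cfg → ℂ), ContinuousOn a {x | XX S x} → ContinuousOn b {x | XX S x} →
      (∀ x, XX S x → ∀ t ∈ Icc (0 : ℝ) 1, a x + t * (b x - a x)
        ∈ Out (Nk (lvF S K)) (pK S x K) (rho1 (mK S K) / 2)) →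
      ContinuousOn (fun x => Th E S x K (a x) (b x)) {x | XX S x} := fun K a b ha hb h =>
    (co_seg (f1 K) ha hb fun x hx t ht => by exact ⟨hx, h x hx t ht⟩).sub
      (continuous_conj.comp_continuousOn
        (co_seg (f2 K) ha hb fun x hx t ht => by exact ⟨hx, h x hx t ht⟩))
  have fr : ∀ K u, ContinuousOn (fun x => fres E S x K u) {x | XX S x} := fun K u => by
    unfold fres
    split_ifs with h
    · exact continuousOn_const
    · refine ContinuousOn.div (co_cint (f2 K) ((c1 K).1 u).1.continuousOn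
        fun x hx t => ⟨hx, (c3 x hx K).out4 u t⟩) ?_ fun x hx => ?_
      · exact (continuous_const.mul (continuous_const.add
          (continuous_ofReal.comp (c_sig S K u)))).continuousOn
      · have := (abs_le.1 ((c3 x hx K).sg u)).1
        have e : (1 + (ls S x K).σ u : ℝ) ≠ 0 := by linarith
        exact mul_ne_zero two_ne_zero (by exact_mod_cast e)
  have gr : ∀ K u, ContinuousOn (fun x => gres E S x K u) {x | XX S x} := fun K u => by
    unfold gres
    by_cases h : q0 (lvT S K) u = 0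
    · simp only [h, zero_mul, abs_zero, add_zero]
      exact continuousOn_const
    · have q := ((c1 K).1 u).2.1.abs
      refine (continuousOn_const.mul ((c1 K).2.2 u h).1).add (continuousOn_const.mul ?_)
      refine ((Real.continuous_mul_log.comp q).sub ?_).continuousOn
      fun_prop
  have pr : ∀ K u, q0 (lvT S K) u ≠ 0 → par S K u ∈ Nk (lvF S (ot S K u)) := fun K u h => by
    have := ((hP S hS K).2.2.2.2.2.1 u h).1
    change q0 (lvT S (ot S K u)) (par S K u) ≠ 0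
    rw [this]; exact neg_ne_zero.2 h
  have vz : ∀ K, ∀ u ∈ Nk (lvF S K), ∀ a : ℝ, (a = 1 ∨ a = -1) →
      ContinuousOn (fun x => vK E S x K u (zP S x K u a)) {x | XX S x} := fun K u hu a ha =>
    ((c1 K).2.2 u hu).2.1.comp (f := fun x : Cfg => (x, wa S K a)) (by fun_prop) fun x hx =>
      ⟨hx, by have := (c3 x hx K).rho_pos; rw [(c3 x hx K).nwa ha]; linarith⟩
  have ii : ∀ K u, q0 (lvT S K) u ≠ 0 → ∀ a : ℝ, (a = 1 ∨ a = -1) →
      ContinuousOn (fun x => II E S x K u a) {x | XX S x} := fun K u h a ha => by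
    have hu' := pr K u h
    have ho : ot S K u = K - 1 ∨ ot S K u = K + 1 := by unfold ot; split_ifs <;> simp
    have cr := fun x (hx : XX S x) => (c3 x hx K).cross hP hS (c3 x hx (ot S K u)) ho h hu' ha
    have tn' := ((c1 K).1 u).2.2
    unfold II
    refine co_seg (U := {p : Cfg × ℂ | XX S p.1 ∧ p.2 ≠ 0 ∧ ‖p.2‖ ≤ rho (mK S K) * (45 / 100) ∧
      ‖tn S p.1 K u / p.2‖ ≤ rho (mK S (ot S K u)) * (45 / 100)}) (ContinuousOn.cexp ?_)
      (tn'.continuousOn.div (vz _ _ hu' a ha) fun x hx => (cr x hx).1) (vz K u h a ha)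
      fun x hx t ht => ⟨hx, (cr x hx).2 t ht _ rfl⟩
    unfold Nf
    refine (((c2 K).2 u h).2.mono fun p hp => ⟨hp.1, hp.2.2.1⟩).sub (ContinuousOn.sub ?_ ?_)
    · exact ((c2 _).2 _ hu').2.comp (f := fun p : Cfg × ℂ => (p.1, tn S p.1 K u / p.2))
        (continuousOn_fst.prodMk ((tn'.comp continuous_fst).continuousOn.div continuousOn_snd
          fun p hp => hp.2.1)) fun p hp => ⟨hp.1, hp.2.2.2⟩
    · exact ((c2 _).2 _ hu').2.comp (f := fun p : Cfg × ℂ => (p.1, (0 : ℂ))) (by fun_prop)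
        fun p hp => ⟨hp.1, by
          have := (c3 p.1 hp.1 (ot S K u)).rho_pos
          rw [norm_zero]; linarith⟩
  have mp : ∀ K, ∀ u ∈ Nk (lvF S K),
      ContinuousOn (fun x => MM E S x K u (pK S x K u)) {x | XX S x} := fun K u hu => by
    have := ((c2 K).2 u hu).1.comp (s := {x | XX S x}) (f := fun x : Cfg => (x, (0 : ℂ)))
      (by fun_prop) fun x hx => ⟨hx, by
        have := (c3 x hx K).rho_pos
        rw [norm_zero]; linarith⟩
    simpa only [Function.comp_def, add_zero] using this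
  intro K u
  refine ⟨?_, ?_, fr K u, gr K u, ?_, ?_, ?_, ?_⟩
  · unfold FF flC
    refine (c_Flin E S K u).continuousOn.sub ?_
    split_ifs
    · exact fr K u
    · exact (continuous_conj.comp_continuousOn (fr K (star u))).neg
  · unfold GG flR
    refine (c_Glin E S K u).continuousOn.sub ?_
    split_ifs
    · exact gr K u
    · exact gr K (star u)
  · exact (th K _ _ (c_VV S K u).continuousOn (c_VV S K (u + 1)).continuousOn
      fun x hx t _ => (c3 x hx K).out1 u t).sub continuousOn_const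
  · exact (th K _ _ (c_VV S K u).continuousOn (c_VV S K (u + gi)).continuousOn
      fun x hx t _ => (c3 x hx K).out2 u t).sub continuousOn_const
  · unfold xi1
    split_ifs with h
    · exact continuousOn_const
    · have tz : ∀ a : ℝ, (a = 1 ∨ a = -1) → ContinuousOn
          (fun x => Th E S x K (VV S x K u) (zP S x K u a) - II E S x K u a) {x | XX S x} :=
        fun a ha => (th K _ _ (c_VV S K u).continuousOn
          (((c1 K).1 u).1.add continuous_const).continuousOn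
          fun x hx t ht => (c3 x hx K).out3 u ha ht).sub (ii K u h a ha)
      exact (continuousOn_const.sub (c_eps S K u).continuousOn).add
        (((tz 1 (.inl rfl)).add (tz (-1) (.inr rfl))).div_const 2)
  · unfold sN
    split_ifs with h
    · exact continuousOn_const
    · exact (mp K u h).add (mp _ _ (pr K u h))

end Pool.Agent.P.MP_cc4a10_gt

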