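import Pool.Agent.P.MP_cc4a10_gt.St

/-!
Parametric integrals and the plane geometry used for the continuity of the fixed point map.
-/

open Set Complex
open scoped ComplexConjugate Real

noncomputable section

namespace Pool.Agent.P.MP_cc4a10_gt.Cont3P

section par
variable {Y : Type*} [TopologicalSpace Y] {X : Set Y}

theorem co_int {f : Y → ℝ → ℂ} {a b : ℝ} (hab : a ≤ b)
    (h : ContinuousOn (fun p : Y × ℝ => f p.1 p.2) (X ×ˢ Icc a b)) :
    ContinuousOn (fun x => ∫ t in a..b, f x t) X := by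
  rw [continuousOn_iff_continuous_domRestrict]
  have hc : Continuous (Function.uncurry fun (x : X) (t : ℝ) => f x (projIcc a b hab t)) := by
    refine h.comp_continuous (f := fun p : X × ℝ => ((p.1 : Y), (projIcc a b hab p.2 : ℝ))) ?_ ?_
    · exact (continuous_subtype_val.comp continuous_fst).prodMk
        (continuous_subtype_val.comp (continuous_projIcc.comp continuous_snd))
    · exact fun p => ⟨p.1.2, (projIcc a b hab p.2).2⟩
  refine (intervalIntegral.continuous_parametric_intervalIntegral_of_continuous'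
    (μ := MeasureTheory.volume) hc a b).congr fun x => ?_
  refine intervalIntegral.integral_congr fun t ht => ?_
  rw [uIcc_of_le hab] at ht
  simp only [projIcc_of_mem hab ht]

theorem co_seg {f : Y → ℂ → ℂ} {a b : Y → ℂ} {U : Set (Y × ℂ)}
    (hf : ContinuousOn (fun p : Y × ℂ => f p.1 p.2) U) (ha : ContinuousOn a X)
    (hb : ContinuousOn b X)
    (hU : ∀ x ∈ X, ∀ t ∈ Icc (0 : ℝ) 1, (x, a x + t * (b x - a x)) ∈ U) :
    ContinuousOn (fun x => seg (f x) (a x) (b x)) X := by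
  unfold seg
  refine (hb.sub ha).mul (co_int zero_le_one ?_)
  have ha' : ContinuousOn (fun p : Y × ℝ => a p.1) (X ×ˢ Icc 0 1) :=
    ha.comp continuousOn_fst fun p hp => hp.1
  have hb' : ContinuousOn (fun p : Y × ℝ => b p.1) (X ×ˢ Icc 0 1) :=
    hb.comp continuousOn_fst fun p hp => hp.1
  refine hf.comp (f := fun p : Y × ℝ => (p.1, a p.1 + p.2 * (b p.1 - a p.1)))
    (continuousOn_fst.prodMk (ha'.add (ContinuousOn.mul (by fun_prop) (hb'.sub ha'))))
    fun p hp => hU p.1 hp.1 p.2 hp.2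

theorem co_cint {f : Y → ℂ → ℂ} {a : Y → ℂ} {r : ℝ} {U : Set (Y × ℂ)}
    (hf : ContinuousOn (fun p : Y × ℂ => f p.1 p.2) U) (ha : ContinuousOn a X)
    (hU : ∀ x ∈ X, ∀ t : ℝ, (x, a x + r * exp (t * I)) ∈ U) :
    ContinuousOn (fun x => cint (a x) r (f x)) X := by
  unfold cint circleIntegral
  refine continuousOn_const.mul (co_int (by positivity) ?_)
  have ha' : ContinuousOn (fun p : Y × ℝ => a p.1) (X ×ˢ Icc 0 (2 * π)) :=
    ha.comp continuousOn_fst fun p hp => hp.1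
  simp only [deriv_circleMap, smul_eq_mul, circleMap]
  refine ContinuousOn.mul (by fun_prop) ?_
  exact hf.comp (f := fun p : Y × ℝ => (p.1, a p.1 + r * exp (p.2 * I)))
    (continuousOn_fst.prodMk (ha'.add (by fun_prop))) fun p hp => hU p.1 hp.1 p.2

theorem co_ts {V : Type*} [NormedAddCommGroup V] [NormedSpace ℝ V] (m : ℕ) {F : Y → GI → V}
    (h : ∀ u, Continuous (fun x => F x u)) : Continuous (fun x => ts m (F x)) := by
  unfold ts
  exact (continuous_finsetSum _ fun a _ => continuous_finsetSum _ fun b _ => h _).const_smul _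

end par

theorem Lm_add (μ a b : ℂ) : Lm μ (a + b) = Lm μ a + Lm μ b := by
  simp only [Lm, map_add]; ring

theorem Lm_lower {μ : ℂ} (hμ : ‖μ‖ ≤ 1 / 100) (z : ℂ) : 99 / 100 * ‖z‖ ≤ ‖Lm μ z‖ := by
  have h := norm_sub_le (Lm μ z) (μ * conj z)
  rw [show Lm μ z - μ * conj z = z by simp [Lm], norm_mul, norm_conj] at h
  nlinarith [norm_nonneg z]

/-- Points that stay away from all necks. -/
theorem out_of {m : ℕ} {c μ ζ δ e : ℂ} {n : GI} (hm : 1 ≤ m) (hc : ‖c‖ = dd m)
    (hμ : ‖μ‖ ≤ 1 / 100) (he : ‖e‖ ≤ rho m / 1000) (ht : m * tt m ≤ 1 / 100)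
    (hζ : 1 / (16 * (m : ℝ)) ≤ ‖ζ - n‖) (hδ : ‖δ‖ ≤ rho m / 100) :
    rho1 m / 2 < ‖Lm μ (c * ζ) + δ - (Lm μ (c * n) + e)‖ := by
  have hd := dd_pos m
  have m0 : (0 : ℝ) < m := by exact_mod_cast hm
  have h1 := Lm_lower hμ (c * (ζ - n))
  rw [norm_mul, hc] at h1
  have e1 : Lm μ (c * (ζ - n)) = (Lm μ (c * ζ) + δ - (Lm μ (c * n) + e)) - (δ - e) := by
    simp only [Lm, mul_sub, map_sub]; ring
  have h2 := norm_sub_le (Lm μ (c * ζ) + δ - (Lm μ (c * n) + e)) (δ - e)
  have h3 := norm_sub_le δ e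
  rw [← e1] at h2
  have h4 : rho m / 16 ≤ dd m * ‖ζ - n‖ := by
    calc rho m / 16 = dd m * (1 / (16 * (m : ℝ))) := by unfold rho; field_simp
      _ ≤ _ := by gcongr
  have h5 : rho1 m ≤ rho m / 100 := by
    unfold rho1 rho
    rw [div_div, le_div_iff₀ (by positivity)]
    nlinarith
  have h6 : 0 < rho m := by unfold rho; positivity
  linarith

theorem half_le (k : ℤ) : (1 / 2 : ℝ) ≤ |(k : ℝ) + 1 / 2| := by
  rcases le_or_gt 0 k with h | h
  · have : (0 : ℝ) ≤ k := by exact_mod_cast h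
    exact le_abs.2 (.inl (by linarith))
  · have : (k : ℝ) ≤ -1 := by exact_mod_cast (by omega : k ≤ -1)
    exact le_abs.2 (.inr (by linarith))

theorem edge1 (u n : GI) (t : ℝ) : 1 / 2 ≤ ‖((u : ℂ) + (1 + I) / 2 + t) - n‖ := by
  refine le_trans ?_ (abs_im_le_norm _)
  have := half_le (u.im - n.im)
  refine this.trans (le_of_eq ?_)
  congr 1
  simp [← GaussianInt.intCast_im]; ring

theorem edge2 (u n : GI) (t : ℝ) : 1 / 2 ≤ ‖((u : ℂ) + (1 + I) / 2 + t * I) - n‖ := by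
  refine le_trans ?_ (abs_re_le_norm _)
  have := half_le (u.re - n.re)
  refine this.trans (le_of_eq ?_)
  congr 1
  simp [← GaussianInt.intCast_re]; ring

theorem diag (u n : GI) {t a r : ℝ} (ht : t ∈ Icc (0 : ℝ) 1) (ha : a = 1 ∨ a = -1) (hr : 0 ≤ r)
    (hr' : r ≤ 1 / 4) :
    r / 4 ≤ ‖((u : ℂ) + (1 - t : ℝ) * ((1 + I) / 2) + (t * (a * r) : ℝ)) - n‖ := by
  set z := ((u : ℂ) + (1 - t : ℝ) * ((1 + I) / 2) + (t * (a * r) : ℝ)) - n with hz
  have hre : z.re = ((u.re - n.re : ℤ) : ℝ) + (1 - t) / 2 + t * (a * r) := by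
    simp [hz, ← GaussianInt.intCast_re]; ring
  have him : z.im = ((u.im - n.im : ℤ) : ℝ) + (1 - t) / 2 := by
    simp [hz, ← GaussianInt.intCast_im]; ring
  have a1 := abs_le.1 (abs_re_le_norm z)
  have a2 := abs_le.1 (abs_im_le_norm z)
  obtain ⟨t0, t1⟩ := ht
  have tr : 0 ≤ t * r := by positivity
  have tr' : t * r ≤ t / 4 := by nlinarith
  rcases lt_trichotomy (u.im - n.im) 0 with h | h | h
  · have : ((u.im - n.im : ℤ) : ℝ) ≤ -1 := by exact_mod_cast (by omega : u.im - n.im ≤ -1)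
    linarith
  · rw [h] at him
    rcases lt_trichotomy (u.re - n.re) 0 with h' | h' | h'
    · have : ((u.re - n.re : ℤ) : ℝ) ≤ -1 := by exact_mod_cast (by omega : u.re - n.re ≤ -1)
      rcases ha with rfl | rfl <;> linarith
    · rw [h'] at hre
      push_cast at hre him
      rcases le_total t (1 / 2) with h2 | h2
      · linarith
      · have : r / 2 ≤ t * r := by nlinarith
        rcases ha with rfl | rfl <;> linarith
    · have : (1 : ℝ) ≤ ((u.re - n.re : ℤ) : ℝ) := by exact_mod_cast (by omega : 1 ≤ u.re - n.re)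
      rcases ha with rfl | rfl <;> linarith
  · have : (1 : ℝ) ≤ ((u.im - n.im : ℤ) : ℝ) := by exact_mod_cast (by omega : 1 ≤ u.im - n.im)
    linarith

theorem circ (u n : GI) {η : ℂ} {r : ℝ} (hη : ‖η‖ = r) (hr' : r ≤ 1 / 4) :
    r / 4 ≤ ‖((u : ℂ) + η) - n‖ := by
  have r0 : 0 ≤ r := hη ▸ norm_nonneg η
  by_cases h : u = n
  · subst h; rw [add_sub_cancel_left, hη]; linarith
  · have h1 : 1 ≤ ‖((u - n : GI) : ℂ)‖ := by
      have h2 : (u - n).norm ≠ 0 := fun h0 => h (sub_eq_zero.1 (GaussianInt.norm_eq_zero.1 h0))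
      have h3 := GaussianInt.norm_nonneg (u - n)
      have h4 : (1 : ℝ) ≤ ((u - n).norm : ℝ) := by exact_mod_cast (by omega : 1 ≤ (u - n).norm)
      rw [GaussianInt.intCast_real_norm, normSq_eq_norm_sq] at h4
      nlinarith [norm_nonneg ((u - n : GI) : ℂ)]
    have h5 := norm_sub_le (((u : ℂ) + η) - n) η
    rw [show (u : ℂ) + η - n - η = ((u - n : GI) : ℂ) by rw [GaussianInt.toComplex_sub]; ring,
      hη] at h5
    linarith

/-- The segment across the neck stays in the annulus. -/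
theorem across {T V V' W W' : ℂ} {Q R R' : ℝ} (hQ : 0 < Q) (hR' : 0 < R')
    (hT : ‖T + Q‖ ≤ Q / 100) (hV : ‖V - W‖ ≤ ‖W‖ / 100) (hV' : ‖V' - W'‖ ≤ ‖W'‖ / 100)
    (hW : ‖W‖ = R) (hW' : ‖W'‖ = R') (hang : 7 / 10 * (R * R') ≤ -(W * W').re)
    (hs : Q ≤ R * R' / 2) : V' ≠ 0 ∧ ∀ t ∈ Icc (0 : ℝ) 1,
      T / V' + t * (V - T / V') ≠ 0 ∧ ‖T / V' + t * (V - T / V')‖ ≤ 18 / 10 * R ∧
      ‖T / (T / V' + t * (V - T / V'))‖ ≤ 18 / 10 * R' := by
  rw [hW] at hV
  rw [hW'] at hV'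
  have R0 : 0 ≤ R := hW ▸ norm_nonneg W
  have n1 : 99 / 100 * R' ≤ ‖V'‖ := by
    have := norm_sub_le V' (V' - W')
    rw [sub_sub_cancel, hW'] at this
    linarith
  have v0 : V' ≠ 0 := norm_pos_iff.1 (by linarith)
  have n2 : ‖T‖ ≤ 101 / 100 * Q := by
    have := norm_sub_le (T + Q) Q
    rw [add_sub_cancel_right, norm_real, Real.norm_of_nonneg hQ.le] at this
    linarith
  have n3 : ‖V‖ ≤ 101 / 100 * R := by
    have := norm_add_le (V - W) W
    rw [sub_add_cancel, hW] at this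
    linarith
  refine ⟨v0, fun t ht => ?_⟩
  obtain ⟨t0, t1⟩ := ht
  set y0 := T / V' with hy0
  have e0 : y0 * V' = T := div_mul_cancel₀ T v0
  have n4 : ‖y0‖ * R' ≤ 103 / 100 * Q := by
    have := congrArg norm e0
    rw [norm_mul] at this
    nlinarith [norm_nonneg y0]
  have r0 : 97 / 100 * Q ≤ -(W' * y0).re := by
    have e : -(W' * y0) = Q - (T + Q) + (V' - W') * y0 := by rw [← e0]; ring
    have a1 := (abs_le.1 (abs_re_le_norm (T + Q))).2
    have a2 := (abs_le.1 (abs_re_le_norm ((V' - W') * y0))).1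
    have a3 : ‖(V' - W') * y0‖ ≤ R' / 100 * ‖y0‖ := by rw [norm_mul]; gcongr
    have := congrArg re e
    rw [neg_re, add_re, sub_re, ofReal_re] at this
    nlinarith
  have r1 : 97 / 100 * Q ≤ -(W' * V).re := by
    have e : W' * V = W * W' + W' * (V - W) := by ring
    have a2 := (abs_le.1 (abs_re_le_norm (W' * (V - W)))).2
    have a3 : ‖W' * (V - W)‖ ≤ R' * (R / 100) := by rw [norm_mul, hW']; gcongr
    rw [e, add_re]
    nlinarith
  set y := y0 + t * (V - y0) with hy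
  have r2 : 97 / 100 * Q ≤ -(W' * y).re := by
    have e : W' * y = ((1 - t : ℝ) : ℂ) * (W' * y0) + t * (W' * V) := by
      rw [hy]; push_cast; ring
    rw [e, add_re, re_ofReal_mul, re_ofReal_mul]
    nlinarith
  have r3 : 97 / 100 * Q ≤ R' * ‖y‖ := by
    have := (abs_le.1 (abs_re_le_norm (W' * y))).1
    rw [norm_mul, hW'] at this
    linarith
  have yp : 0 < ‖y‖ := by
    by_contra h
    have : ‖y‖ = 0 := le_antisymm (not_lt.1 h) (norm_nonneg _)
    rw [this] at r3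
    linarith
  refine ⟨norm_pos_iff.1 yp, ?_, ?_⟩
  · have e : y = ((1 - t : ℝ) : ℂ) * y0 + t * V := by rw [hy]; push_cast; ring
    have a := norm_add_le (((1 - t : ℝ) : ℂ) * y0) (t * V)
    rw [← e, norm_mul, norm_mul, norm_real, norm_real, Real.norm_of_nonneg t0,
      Real.norm_of_nonneg (by linarith)] at a
    have b : ‖y0‖ ≤ R := by
      by_contra h
      nlinarith [not_le.1 h]
    nlinarith
  · rw [norm_div, div_le_iff₀ yp]
    nlinarith

end Pool.Agent.P.MP_cc4a10_gt.Cont3P
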