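import Pool.Agent.P.MP_cc4a10_gt.St

/-!
Convergence of the Cousin series.
-/

open Set Filter Topology Complex Metric
open scoped ComplexConjugate Real

noncomputable section

namespace Pool.Agent.P.MP_cc4a10_gt

namespace Cou1P

variable {E : Ell} {S : Sys} {x : Cfg}

/-- Partial sums of the series. -/
def ps (E : Ell) (S : Sys) (x : Cfg) (n : ℕ) : Fam :=
  fun K u z => ∑ i ∈ Finset.range n, inc E S x i K u z

lemma hs (a : ℝ) (n : ℕ) : HasSum (fun i : ℕ => a / 2 ^ (i + n)) (2 * a / 2 ^ n) := by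
  have h := hasSum_geometric_two.mul_left (a / 2 ^ n)
  have e : (fun i : ℕ => a / 2 ^ (i + n)) = fun i : ℕ => a / 2 ^ n * (1 / 2) ^ i := by
    ext i
    rw [pow_add, one_div, inv_pow]
    field_simp
  rw [e, show 2 * a / 2 ^ n = a / 2 ^ n * 2 by ring]
  exact h

lemma summ {a : ℝ} (h : ∀ n, FamOK S x (a / 2 ^ n) (inc E S x n)) {K : ℤ} {u : GI}
    (hu : u ∈ Nk (lvF S K)) {z : ℂ} (hz : ‖z - pK S x K u‖ ≤ rho (mK S K) * (3 / 4)) :
    Summable fun n => inc E S x n K u z :=
  Summable.of_norm_bounded (hs a 0).summable fun n => (h n K u hu).2.1 z hz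

lemma ok_ps_aux {a : ℝ} (h : ∀ n, FamOK S x (a / 2 ^ n) (inc E S x n)) (n : ℕ) :
    FamOK S x (∑ i ∈ Finset.range n, a / 2 ^ i) (ps E S x n) := by
  intro K u hu
  refine ⟨DifferentiableOn.fun_sum fun i _ => (h i K u hu).1, fun z hz => ?_, fun z => ?_,
    fun w z => ?_⟩
  · exact norm_sum_le_of_le _ fun i _ => (h i K u hu).2.1 z hz
  · exact Finset.sum_congr rfl fun i _ => (h i K u hu).2.2.1 z
  · exact Finset.sum_congr rfl fun i _ => (h i K u hu).2.2.2 w z

lemma ok_MM {a : ℝ} (h : ∀ n, FamOK S x (a / 2 ^ n) (inc E S x n)) :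
    FamOK S x (2 * a) (MM E S x) := by
  intro K u hu
  refine ⟨?_, fun z hz => ?_, fun z => ?_, fun w z => ?_⟩
  · refine differentiableOn_tsum_of_summable_norm (hs a 0).summable (fun i => (h i K u hu).1)
      isOpen_ball fun i w hw => (h i K u hu).2.1 w ?_
    rw [mem_ball, dist_eq_norm] at hw
    exact hw.le
  · have := tsum_of_norm_bounded (hs a 0) fun i => (h i K u hu).2.1 z hz
    simpa [MM] using this
  · exact tsum_congr fun i => (h i K u hu).2.2.1 z
  · exact tsum_congr fun i => (h i K u hu).2.2.2 w z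

lemma ok_tail {a : ℝ} (h : ∀ n, FamOK S x (a / 2 ^ n) (inc E S x n)) (n : ℕ) :
    FamOK S x (2 * a / 2 ^ n) (MM E S x - ps E S x n) := by
  intro K u hu
  have h1 := ok_MM h K u hu
  have h2 := ok_ps_aux h n K u hu
  refine ⟨h1.1.sub h2.1, fun z hz => ?_, fun z => ?_, fun w z => ?_⟩
  · have e := (summ h hu hz).sum_add_tsum_nat_add n
    have e' : (MM E S x - ps E S x n) K u z = ∑' i, inc E S x (i + n) K u z := by
      simp only [Pi.sub_apply, MM, ps]
      rw [← e]
      ring
    rw [e']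
    exact tsum_of_norm_bounded (hs a n) fun i => (h (i + n) K u hu).2.1 z hz
  · simp only [Pi.sub_apply]
    rw [h1.2.2.1, h2.2.2.1]
  · simp only [Pi.sub_apply]
    rw [h1.2.2.2, h2.2.2.2]

lemma rho_pos {m : ℕ} (h : 1 ≤ m) : 0 < rho m :=
  div_pos (dd_pos m) (by exact_mod_cast h)

end Cou1P

open Cou1P in
theorem pCou1 (hFo : S_Fo) (hVt : S_Vt) (hPar : S_Par) (hFlip : S_Flip) (hDip : S_Dip) :
    S_Cou1 := by
  intro E
  obtain ⟨C, j1, hC, hF⟩ := hFo E
  obtain ⟨C2, m0, hC2, hV⟩ := hVt E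
  obtain ⟨m1, hm1⟩ := exists_pow_mul_tt_le 0 (η := 1 / 4000) (by norm_num)
  obtain ⟨m2, hm2⟩ := exists_nat_ge (4000 * C2)
  refine ⟨C, j1 + 10 + m0 + m1 + m2, hC, fun S x hS hB hX => ?_⟩
  have hB1 : Big S j1 := fun k => le_trans (by omega) (hB k)
  have hB2 : Big S 10 := fun k => le_trans (by omega) (hB k)
  have hm : ∀ K, j1 + 10 + m0 + m1 + m2 ≤ mK S K := fun K => by
    have a := hB (K - 1)
    have b := hB K
    simp only [mK, jl]
    omega
  have hG : ∀ K, LG (lvF S K) (ls S x K) (bK S x K) := fun K => (hFlip E S hS K).2 x hB2 hX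
  have hF' := hF S x hS hB1 hX
  have i0 : FamOK S x (1 / 2000) (inc E S x 0) := by
    intro K u hu
    have r := rho_pos (m := mK S K) (by have := hm K; omega)
    obtain ⟨-, v2, -, -, -, v6, v7, v8⟩ :=
      hV _ _ _ (hG K) (by have := hm K; change m0 ≤ mK S K; omega) u hu
    refine ⟨(differentiableOn_const _).sub (v2.mono (ball_subset_ball ?_)), fun z hz => ?_,
      fun z => ?_, fun w z => ?_⟩
    · change rho (mK S K) * (3 / 4) ≤ 3 * rho (mK S K)
      linarith
    · have a := (v6 z (by change ‖z - pK S x K u‖ < 3 * rho (mK S K); linarith)).2.1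
      have b := hX.lb K
      have c := hm1 (mK S K) (by have := hm K; omega)
      have d : tt (mK S K) ^ 30 ≤ tt (mK S K) :=
        pow_le_of_le_one (tt_pos _).le (tt_le_one _) (by norm_num)
      have e : C2 / (mK S K : ℝ) ≤ 1 / 4000 := by
        have : (m2 : ℝ) ≤ mK S K := by exact_mod_cast (by have := hm K; omega)
        have p : (0 : ℝ) < mK S K := by exact_mod_cast (by have := hm K; omega)
        rw [div_le_iff₀ p]
        linarith
      rw [pow_zero, one_mul] at c
      refine (norm_sub_le _ _).trans ?_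
      change _ ≤ C2 / (mK S K : ℝ) at a
      linarith
    · exact congrArg (x.l K - ·) (v7 z).2
    · exact congrArg (x.l K - ·) (v8 w z).2
  have hi : ∀ n, FamOK S x (1 / 2000 / 2 ^ n) (inc E S x n) := by
    intro n
    induction n with
    | zero => simpa using i0
    | succ n ih =>
      have := (hF' _ _ ih).1
      rw [div_div, ← pow_succ] at this
      exact this
  have hM := ok_MM hi
  obtain ⟨-, hK⟩ := hF' _ _ hM
  intro K u hu
  obtain ⟨k1, k2, k3, k4, k5, k6, k7, k8⟩ := (hK K).1 u hu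
  obtain ⟨p1, -, -, -, -, p6, -⟩ := hPar S hS K
  obtain ⟨q1, -, -, -, -, q6, -, -, q9, -⟩ := p6 u hu
  obtain ⟨-, -, d3, d4, -⟩ := hDip _ p1
  have hu' : par S K u ∈ Nk (lvF S (ot S K u)) := by
    change q0 (lvT S (ot S K u)) (par S K u) ≠ 0
    rw [q1]
    exact neg_ne_zero.2 hu
  have k5' := ((hK (ot S K u)).1 _ hu').2.2.2.2.1
  refine ⟨fun n z hz => ((hi n K u hu).2.1 z hz).trans ?_, (hM K u hu).1, k7, fun z hz => ⟨?_, ?_⟩,
    fun z => ⟨(hM K u hu).2.2.1 z, ((hK K).2 u z).1, ?_⟩,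
    fun w z => ⟨(hM K u hu).2.2.2 w z, ((hK K).2 u z).2.1 w, ?_⟩, k1, k2,
    fun y hy => (k3 y hy).trans (by norm_num), k4, k6⟩
  · rw [one_div_pow]
    gcongr
    norm_num
  · have sm := summ hi hu hz
    have key : ∀ n, So E S x K (fo E S x (ps E S x n) K) (rho (mK S K)) z
        = ∑ i ∈ Finset.range n, inc E S x (i + 1) K u z := by
      intro n
      induction n with
      | zero =>
        have := ((((hF' _ _ (ok_ps_aux hi 0)).2 K).1 u hu).2.2.2.2.2.2.2 z hz).1
        simpa using this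
      | succ n ih =>
        have := ((((hF' _ _ (ok_ps_aux hi (n + 1))).2 K).1 u hu).2.2.2.2.2.2.2 z hz).2 _ _ (hi n)
        have e : ps E S x (n + 1) - inc E S x n = ps E S x n := by
          ext K u z
          simp [ps, Finset.sum_range_succ]
        rw [e, ih] at this
        rw [Finset.sum_range_succ, this]
        simp [inc]
    have t1 : Tendsto (fun n => ∑ i ∈ Finset.range n, inc E S x (i + 1) K u z) atTop
        (𝓝 (∑' i, inc E S x (i + 1) K u z)) :=
      ((summable_nat_add_iff 1).2 sm).hasSum.tendsto_sum_nat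
    have t2 : Tendsto (fun n => ∑ i ∈ Finset.range n, inc E S x (i + 1) K u z) atTop
        (𝓝 (Mt E S x K z)) := by
      rw [tendsto_iff_norm_sub_tendsto_zero]
      refine squeeze_zero (fun _ => norm_nonneg _) (fun n => ?_)
        (tendsto_pow_atTop_nhds_zero_of_lt_one (r := 1 / 2) (by norm_num) (by norm_num))
      have a := (k8 z hz).2 _ _ (ok_ps_aux hi n)
      have b := ((hF' _ _ (ok_tail hi n)).1 K u hu).2.1 z hz
      beta_reduce at b
      rw [a, key] at b
      rw [norm_sub_rev]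
      refine b.trans ?_
      rw [one_div_pow, div_right_comm]
      gcongr
      norm_num
    rw [← tendsto_nhds_unique t1 t2]
    exact sm.tsum_eq_zero_add
  · refine (k8 z hz).1.trans ?_
    have := dd_pos (mK S K)
    gcongr
    linarith
  · have e1 : ot S K (-u) = ot S K u := by simp only [ot, (d4 u).1]
    have e2 : tn S x K (-u) = tn S x K u := by
      have a : q0 (lvF S K) (-u) = q0 (lvF S K) u := (d4 u).1
      simp only [tn, qK, qq, a, (hG K).evn u, hX.se K u]
    have e3 := (k5' 0).1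
    rw [neg_zero] at e3
    simp only [Nf, e1, e2, q6, div_neg, (k5 z).1, (k5' _).1, e3]
  · obtain ⟨w', hw'⟩ := q9 w
    have a : q0 (lvT S K) (u + om ^ mK S K * w) = q0 (lvT S K) u := d3 u w
    have e1 : ot S K (u + om ^ mK S K * w) = ot S K u := by simp only [ot, a]
    have e2 : tn S x K (u + om ^ mK S K * w) = tn S x K u := by
      have a' : q0 (lvF S K) (u + om ^ mK S K * w) = q0 (lvF S K) u := a
      have b : (ls S x K).σ (u + om ^ mK S K * w) = (ls S x K).σ u := (hG K).lv.ps u w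
      simp only [tn, qK, qq, a', b, hX.sp K u w]
    simp only [Nf, e1, e2, hw', (k5 z).2, (k5' _).2]

end Pool.Agent.P.MP_cc4a10_gt
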