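import Pool.Agent.P.MP_cc4a10_gt.Cou2C

/-!
Package Cou2: fine bounds for the Cousin solution.
-/

open Set Filter Topology Complex Metric
open scoped ComplexConjugate Real

noncomputable section

namespace Pool.Agent.P.MP_cc4a10_gt

namespace Cou2P

theorem n6 {C C2 d m s δ k X : ℝ} (hC : 0 < C) (hC2 : 0 < C2) (hd : 0 < d) (hm : 1 ≤ m)
    (hs : 0 ≤ s) (hk : 0 < k) (hδ : d / m / k ≤ δ) (hX : X ≤ (C2 * d ^ 2 * s / m) ^ 2) :
    C * (C2 * d * s / m / δ + √m * √X / d ^ 2) ≤ C * C2 * (k + 1) * s := by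
  have hm0 : 0 < m := by linarith
  have h1 : C2 * d * s / m / δ ≤ C2 * k * s := by
    calc C2 * d * s / m / δ ≤ C2 * d * s / m / (d / m / k) := by gcongr
      _ = _ := by field_simp
  have h2 : √X ≤ C2 * d ^ 2 * s / m := Real.sqrt_le_iff.2 ⟨by positivity, hX⟩
  have h3 : √m ≤ m := Real.sqrt_le_iff.2 ⟨hm0.le, by nlinarith⟩
  have h4 : √m * √X / d ^ 2 ≤ C2 * s := by
    calc √m * √X / d ^ 2 ≤ m * (C2 * d ^ 2 * s / m) / d ^ 2 := by gcongr
      _ = _ := by field_simp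
  calc C * (C2 * d * s / m / δ + √m * √X / d ^ 2) ≤ C * (C2 * k * s + C2 * s) := by gcongr
    _ = _ := by ring

theorem n7 {t m b : ℝ} (ht : 0 < t) (ht1 : t ≤ 1) (hm : 1 ≤ m) (hb : b ≤ 9) :
    (2 / t + 1) * (m ^ 2 * t ^ 16 * b + m ^ 4 * (t ^ 16) ^ 2) ≤ 30 * (m ^ 4 * t) := by
  have h1 : 2 / t + 1 ≤ 3 / t := by
    have : 1 ≤ 1 / t := by rw [le_div_iff₀ ht]; linarith
    have e : 3 / t = 2 / t + 1 / t := by ring
    linarith
  have h2 : m ^ 2 ≤ m ^ 4 := pow_le_pow_right₀ hm (by norm_num)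
  have h3 : t ^ 16 ≤ t ^ 2 := pow_le_pow_of_le_one ht.le ht1 (by norm_num)
  have h4 : (t ^ 16) ^ 2 ≤ t ^ 2 := by
    rw [← pow_mul]; exact pow_le_pow_of_le_one ht.le ht1 (by norm_num)
  have h5 : m ^ 2 * t ^ 16 * b ≤ m ^ 4 * t ^ 2 * 9 :=
    calc m ^ 2 * t ^ 16 * b ≤ m ^ 2 * t ^ 16 * 9 := by gcongr
      _ ≤ _ := by gcongr
  have h6 : m ^ 4 * (t ^ 16) ^ 2 ≤ m ^ 4 * t ^ 2 := by gcongr
  calc (2 / t + 1) * (m ^ 2 * t ^ 16 * b + m ^ 4 * (t ^ 16) ^ 2)
      ≤ (2 / t + 1) * (10 * (m ^ 4 * t ^ 2)) := by gcongr; linarith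
    _ ≤ (3 / t) * (10 * (m ^ 4 * t ^ 2)) := by gcongr
    _ = _ := by field_simp; ring

end Cou2P

open Cou2P in
theorem pCou2 (hCou1 : S_Cou1) (hSo : S_So) (hFrc : S_Frc) (hVt : S_Vt) (hInv : S_Inv)
    (hLev : S_Lev) (hPar : S_Par) (hFlip : S_Flip) (hDip : S_Dip) (hBox : S_Box) : S_Cou2 := by
  intro E
  obtain ⟨C2, j2, hC2, h2⟩ := majorant hCou1 hFrc hLev hVt hInv hDip hPar hFlip hBox E
  obtain ⟨C3, m3, hC3, h3⟩ := levF hLev hVt hInv hDip E
  obtain ⟨C4, j4, hC4, h4⟩ := hCou1 E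
  obtain ⟨C6, m6, hC6, h6⟩ := hSo E
  obtain ⟨m7, h7⟩ := exists_pow_mul_tt_le 4
    (by positivity : (0 : ℝ) < 1 / 1000 / (30 * (C6 * C2) + 1))
  refine ⟨C2 + 21 * (C6 * C2), max (max (max j2 m3) (max j4 m6)) (max m7 10), by positivity,
    fun S x hS hB hX K => ?_⟩
  have hB10 : Big S 10 := Big.mono hB (by omega)
  have hG : ∀ L, LG (lvF S L) (ls S x L) (bK S x L) := fun L => (hFlip E S hS L).2 x hB10 hX
  have hmK := mK_ge hB K
  obtain ⟨-, hsep, -, hq0, hq0n⟩ := h3 _ _ _ (hG K) (by change m3 ≤ mK S K; omega)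
  change ∀ u u', u ≠ u' → dd (mK S K) * (99 / 100) ≤ ‖pK S x K u - pK S x K u'‖ at hsep
  change Per (mK S K) (q0 (lvT S K)) at hq0
  change ∀ u, q0 (lvT S K) (-u) = q0 (lvT S K) u at hq0n
  obtain ⟨A, hA1, hA2, hA3, hA4⟩ := h2 S x hS (Big.mono hB (by omega)) hX K
  have hc := h4 S x hS (Big.mono hB (by omega)) hX K
  have hd := dd_pos (mK S K)
  have ht := tt_pos (mK S K)
  have ht1 := tt_le_one (mK S K)
  have hm1 : (12 : ℝ) ≤ mK S K := by exact_mod_cast (by omega : 12 ≤ mK S K)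
  have hm0 : (0 : ℝ) < mK S K := by linarith
  have hCC : 0 < C6 * C2 := by positivity
  have hs4 := h7 (mK S K) (by omega)
  have hs5 : (30 * (C6 * C2) + 1) * ((mK S K : ℝ) ^ 4 * tt (mK S K)) ≤ 1 / 1000 := by
    rw [le_div_iff₀ (by positivity)] at hs4; linarith
  have hs6 : (mK S K : ℝ) * tt (mK S K) ≤ (mK S K : ℝ) ^ 4 * tt (mK S K) := by
    gcongr; exact le_self_pow₀ (by linarith) (by norm_num)
  have hs7 : 0 ≤ (mK S K : ℝ) ^ 4 * tt (mK S K) := by positivity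
  have hs : (mK S K : ℝ) * tt (mK S K) ≤ 1 / 1000 := by
    have := mul_nonneg hCC.le hs7
    linarith
  have hρ : 0 < rho (mK S K) := div_pos hd hm0
  have hρ1 : 0 < rho1 (mK S K) := mul_pos hd ht
  have hρρ : rho1 (mK S K) ≤ rho (mK S K) / 1000 := by
    rw [rho1, rho, div_div, le_div_iff₀ (by positivity)]
    calc dd (mK S K) * tt (mK S K) * (mK S K * 1000)
        = dd (mK S K) * (1000 * (mK S K * tt (mK S K))) := by ring
      _ ≤ dd (mK S K) * 1 := by gcongr; linarith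
      _ = _ := mul_one _
  have hρd : rho (mK S K) * 12 ≤ dd (mK S K) := by
    rw [rho, div_mul_eq_mul_div, div_le_iff₀ hm0]; gcongr
  have hb : ∀ L, 0 ≤ bK S x L ∧ bK S x L ≤ 3 := fun L => ⟨(hG L).b0, (hG L).bs.trans (by
    have : tt (lvF S L).m ^ 20 ≤ 1 := pow_le_one₀ (tt_pos _).le (tt_le_one _)
    linarith)⟩
  have hb3 : 0 ≤ b3 S x K ∧ b3 S x K ≤ 9 := by
    have a1 := hb (K - 1)
    have a2 := hb K
    have a3 := hb (K + 1)
    unfold b3; constructor <;> linarith [a1.1, a1.2, a2.1, a2.2, a3.1, a3.2]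
  have hsm : 0 ≤ sm S x K := by
    have := hb3.1
    unfold sm; positivity
  obtain ⟨hS1, hS2, hS3⟩ := h6 (lvF S K) (ls S x K) _ (hG K) (by change m6 ≤ mK S K; omega)
    (fo E S x (MM E S x) K) A (C2 * dd (mK S K) * sm S x K / mK S K)
    (fun u hu => by
      have : q0 (lvT S K) u = 0 := not_not.1 hu
      funext ξ; simp [fo, this])
    (fun u hu => (hc u hu).2.2.2.2.2.2.2.2.2.2)
    (fun u ξ => by
      by_cases hu : q0 (lvT S K) u = 0
      · simp [fo, hu, hq0n]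
      · exact ((hc u hu).2.2.2.2.1 ξ).2.1)
    (fun u w ξ => by
      by_cases hu : q0 (lvT S K) u = 0
      · have : q0 (lvT S K) (u + om ^ (lvF S K).m * w) = 0 := (hq0 u w).trans hu
        simp [fo, hu, this]
      · exact ((hc u hu).2.2.2.2.2.1 w ξ).2.1)
    hA2 hA1 hA4
  have hbd : ∀ r, rho1 (mK S K) / 2 ≤ r → r ≤ rho (mK S K) → ∀ z δ k, 0 < k →
      rho (mK S K) / k ≤ δ → (∀ u ∈ Nk (lvF S K), δ ≤ |‖z - pK S x K u‖ - r|) →
      ‖So E S x K (fo E S x (MM E S x) K) r z‖ ≤ C6 * C2 * (k + 1) * sm S x K :=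
    fun r hr1 hr2 z δ k hk hδ hz =>
      ((hS1 r hr1 hr2).2.2 z δ (lt_of_lt_of_le (by positivity) hδ) hz).trans
        (n6 hC6 hC2 hd (by linarith) hsm hk hδ hA3)
  have hr2 : rho1 (mK S K) / 2 ≤ rho (mK S K) := by linarith
  have hCs : 0 ≤ C2 * sm S x K := by positivity
  have hCCs : 0 ≤ C6 * C2 * sm S x K := by positivity
  refine ⟨⟨A, fun u => ⟨(hA1 u).1, (hA1 u).2.trans (by gcongr; linarith)⟩, hA2,
    hA3.trans (by gcongr; linarith), hA4⟩, fun u hu z hz => ?_, ?_, fun z hz => ?_,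
    fun z hz => ?_, fun z hz => ?_, fun u hu z hz1 hz2 => ?_, fun z => ?_⟩
  · refine (hbd _ hr2 le_rfl z (rho (mK S K) / 4) 4 (by norm_num) le_rfl fun u' _ => ?_).trans
      (by linarith)
    by_cases e : u' = u
    · rw [e, abs_sub_comm]; exact le_trans (by linarith) (le_abs_self _)
    · have a1 := hsep u u' (Ne.symm e)
      have a2 : ‖pK S x K u - pK S x K u'‖ ≤ ‖z - pK S x K u‖ + ‖z - pK S x K u'‖ := by
        rw [norm_sub_rev z (pK S x K u)]; exact norm_sub_le_norm_sub_add_norm_sub _ _ _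
      exact le_trans (by linarith) (le_abs_self _)
  · refine hS3.trans ?_
    change (C6 * (mK S K : ℝ) ^ 2 / dd (mK S K) ^ 2) ^ 2 * msq (mK S K) (fun u => (A u : ℂ)) ≤ _
    calc (C6 * (mK S K : ℝ) ^ 2 / dd (mK S K) ^ 2) ^ 2 * msq (mK S K) (fun u => (A u : ℂ))
        ≤ (C6 * (mK S K : ℝ) ^ 2 / dd (mK S K) ^ 2) ^ 2
          * (C2 * dd (mK S K) ^ 2 * sm S x K / mK S K) ^ 2 := by gcongr
      _ = (C6 * C2 * mK S K * sm S x K) ^ 2 := by field_simp
      _ ≤ _ := by gcongr; linarith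
  · have := (hS1 _ le_rfl hr2).2.1 z (fun u hu => (hz u hu).ne')
    exact (this.const_add (x.l K)).differentiableWithinAt
  · have e : lam E S x K z - x.l K
        = So E S x K (fo E S x (MM E S x) K) (rho1 (mK S K) / 2) z := by unfold lam; ring
    rw [e]
    refine (hbd _ le_rfl hr2 z (rho (mK S K) / 20) 20 (by norm_num) le_rfl fun u hu => ?_).trans
      (by linarith)
    have := hz u hu
    exact le_trans (by linarith) (le_abs_self _)
  · have a1 := hbd _ le_rfl hr2 z (rho1 (mK S K) / 2) (2 / tt (mK S K)) (by positivity) (by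
      rw [rho, rho1, div_div_eq_mul_div, div_mul_eq_mul_div]
      gcongr
      exact div_le_self (by positivity) (by linarith)) (fun u hu => by
        have := hz u hu
        exact le_trans (by linarith) (le_abs_self _))
    have a2 := n7 ht ht1 (by linarith : (1 : ℝ) ≤ mK S K) hb3.2
    rw [tt_pow_16] at a2
    have a3 : C6 * C2 * (2 / tt (mK S K) + 1) * sm S x K
        ≤ C6 * C2 * (30 * ((mK S K : ℝ) ^ 4 * tt (mK S K))) := by
      rw [mul_assoc]; exact mul_le_mul_of_nonneg_left a2 hCC.le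
    have a4 : ‖x.l K‖ ≤ (mK S K : ℝ) ^ 4 * tt (mK S K) := by
      refine (hX.lb K).trans (le_trans ?_ hs6)
      have b1 : tt (mK S K) ^ 30 ≤ tt (mK S K) := pow_le_of_le_one ht.le ht1 (by norm_num)
      have b2 : tt (mK S K) ≤ mK S K * tt (mK S K) := le_mul_of_one_le_left ht.le (by linarith)
      linarith
    have a5 := norm_add_le (x.l K) (So E S x K (fo E S x (MM E S x) K) (rho1 (mK S K) / 2) z)
    unfold lam
    linarith
  · have := hS2 u hu z hz1 hz2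
    change Mt E S x K z = So E S x K (fo E S x (MM E S x) K) (rho1 (mK S K) / 2) z
      + fo E S x (MM E S x) K u z at this
    unfold lam
    rw [this]; ring
  · have := (hS1 _ le_rfl hr2).1 z
    exact ⟨congrArg (x.l K + ·) this.1, fun w => congrArg (x.l K + ·) (this.2 w)⟩

end Pool.Agent.P.MP_cc4a10_gt
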