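import Pool.Agent.P.MP_cc4a10_gt.St

/-!
Package Cou2, part A: Schwarz type estimates and elementary facts on one good level.
-/

open Set Filter Topology Complex Metric
open scoped ComplexConjugate Real

noncomputable section

namespace Pool.Agent.P.MP_cc4a10_gt.Cou2P

theorem schw1 {f : ℂ → ℂ} {p z : ℂ} {R B : ℝ} (hd : DifferentiableOn ℂ f (ball p R))
    (hB : ∀ w ∈ ball p R, ‖f w‖ ≤ B) (hz : z ∈ ball p R) :
    ‖f z - f p‖ ≤ 2 * B / R * ‖z - p‖ := by
  have hR : 0 < R := pos_of_mem_ball hz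
  have h := dist_le_div_mul_dist_of_mapsTo_ball hd (R₂ := 2 * B) (fun w hw => by
    rw [mem_closedBall, dist_eq_norm]
    have h1 := hB w hw
    have h2 := hB p (mem_ball_self hR)
    have h3 := norm_sub_le (f w) (f p)
    linarith) hz
  simpa only [dist_eq_norm] using h

theorem schw2 {f : ℂ → ℂ} {p z : ℂ} {R B : ℝ} (hd : DifferentiableOn ℂ f (ball p R))
    (hB : ∀ w ∈ ball p R, ‖f w‖ ≤ B) (h0 : f p = 0) (hz : z ∈ ball p R) :
    ‖f z‖ ≤ ‖deriv f p‖ * ‖z - p‖ + 2 * B / R ^ 2 * ‖z - p‖ ^ 2 := by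
  have hR : 0 < R := pos_of_mem_ball hz
  have hg : DifferentiableOn ℂ (dslope f p) (ball p R) :=
    (differentiableOn_dslope (ball_mem_nhds p hR)).2 hd
  have hgB : ∀ w ∈ ball p R, ‖dslope f p w‖ ≤ B / R := fun w hw =>
    norm_dslope_le_div_of_mapsTo_ball hd (fun w hw => by
      rw [mem_closedBall, dist_eq_norm, h0, sub_zero]; exact hB w hw) hw
  have h1 := schw1 hg hgB hz
  have h2 : f z = (z - p) * dslope f p z := by
    have := sub_smul_dslope f p z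
    rw [smul_eq_mul, h0, sub_zero] at this
    exact this.symm
  rw [dslope_same] at h1
  have h3 : ‖dslope f p z‖ ≤ ‖deriv f p‖ + 2 * (B / R) / R * ‖z - p‖ := by
    have := norm_add_le (deriv f p) (dslope f p z - deriv f p)
    rw [add_sub_cancel] at this
    linarith
  rw [h2, norm_mul]
  calc ‖z - p‖ * ‖dslope f p z‖ ≤ ‖z - p‖ * (‖deriv f p‖ + 2 * (B / R) / R * ‖z - p‖) := by
        gcongr
    _ = _ := by field_simp

theorem dd_sq_le {m n : ℕ} (h : n ≤ m + 1) : dd m ^ 2 ≤ 2 * dd n ^ 2 := by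
  have h1 : dd m ^ 2 = 2 * dd (m + 1) ^ 2 := by
    rw [dd_sq, dd_sq, pow_succ]; field_simp
  have h2 := dd_anti h
  have h3 := dd_pos (m + 1)
  rw [h1]; gcongr

theorem dd_le_two {m n : ℕ} (h : n ≤ m + 1) : dd m ≤ 2 * dd n := by
  have h1 := dd_sq_le h
  have h2 := dd_pos m
  have h3 := dd_pos n
  nlinarith

theorem RR_pos (E : Ell) (l : Lv) (s : Ls) (u : GI) :
    RR E l s u (pos l s u) = psi E l s (pos l s u) := by
  simp [RR]

/-- Facts on one good level. -/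
def LevF (E : Ell) (l : Lv) (s : Ls) (C : ℝ) : Prop :=
  (∀ u ∈ Nk l, dd l.m ^ 2 * (199 / 100) ≤ |qq l s u| ∧ |qq l s u| ≤ dd l.m ^ 2 * (4004 / 1000) ∧
    (∀ ξ, ‖ξ - pos l s u‖ < 3 * rho l.m → ‖ξ - pos l s u‖ * (99 / 100) ≤ ‖vt E l s u ξ‖) ∧
    (∀ y, ‖y‖ < 2 * rho l.m → ∃ z, ‖z - pos l s u‖ * (99 / 100) ≤ ‖y‖ ∧ vt E l s u z = y) ∧
    vt E l s u (pos l s u) = 0 ∧ lv E l s u (pos l s u) = 0 ∧
    ∀ z, ‖z - pos l s u‖ < 3 * rho l.m → ‖lv E l s u z‖ ≤
      2 * ‖RR E l s u (pos l s u)‖ / dd l.m ^ 2 * ‖z - pos l s u‖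
        + C * l.m / dd l.m ^ 2 * ‖z - pos l s u‖ ^ 2) ∧
  (∀ u u', u ≠ u' → dd l.m * (99 / 100) ≤ ‖pos l s u - pos l s u'‖) ∧
  Per l.m (nkr l (fun u => RR E l s u (pos l s u))) ∧ Per l.m (q0 l) ∧ ∀ u, q0 l (-u) = q0 l u

theorem one_le_norm_gi {u : GI} (h : u ≠ 0) : 1 ≤ ‖(u : ℂ)‖ := by
  have h1 : (1 : ℝ) ≤ ‖(u : ℂ)‖ ^ 2 := by
    rw [← Complex.normSq_eq_norm_sq, ← GaussianInt.intCast_real_norm]
    exact_mod_cast GaussianInt.norm_pos.2 h
  nlinarith [norm_nonneg (u : ℂ)]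

theorem levF (hLev : S_Lev) (hVt : S_Vt) (hInv : S_Inv) (hDip : S_Dip) (E : Ell) :
    ∃ (C : ℝ) (m0 : ℕ), 0 < C ∧ ∀ (l : Lv) (s : Ls) (b : ℝ), LG l s b → m0 ≤ l.m →
      LevF E l s C := by
  obtain ⟨C1, m1, hC1, h1⟩ := hLev E
  obtain ⟨C2, m2, hC2, h2⟩ := hVt E
  refine ⟨C2, max (max m1 m2) (⌈100 * C2⌉₊ + 1), hC2, fun l s b hG hm => ?_⟩
  have hm1 : m1 ≤ l.m := le_trans (le_trans (le_max_left _ _) (le_max_left _ _)) hm
  have hm2 : m2 ≤ l.m := le_trans (le_trans (le_max_right _ _) (le_max_left _ _)) hm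
  have hm3 : ⌈100 * C2⌉₊ + 1 ≤ l.m := le_trans (le_max_right _ _) hm
  have hmpos : (0 : ℝ) < l.m := by exact_mod_cast (by omega : 0 < l.m)
  have hm4 : 100 * C2 ≤ l.m := (Nat.le_ceil _).trans (by exact_mod_cast (by omega))
  have hCm : C2 / l.m ≤ 1 / 100 := by rw [div_le_iff₀ hmpos]; linarith
  obtain ⟨hes, -, -, hsep, -, hshift, -, hps, -, -⟩ := h1 l s b hG hm1
  obtain ⟨-, -, hq0p, hq0s, -, hq0l, hq0u, hc, ⟨w0, hw0, -⟩, -⟩ := hDip l hG.ok
  have hd := dd_pos l.m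
  have hρ : 0 < rho l.m := div_pos hd hmpos
  refine ⟨fun u hu => ?_, fun u u' hne => ?_, fun u w => ?_, hq0p, fun u => (hq0s u).1⟩
  · obtain ⟨hv, hl, hv0, hl0, hld, hb, -, -⟩ := h2 l s b hG hm2 u hu
    have hσ := (hes u).2.2.2
    have hσ' := abs_le.1 hσ
    have ha : |qq l s u| = |q0 l u| * (1 + s.σ u) := by
      rw [qq, abs_mul, abs_of_pos (by linarith : 0 < 1 + s.σ u)]
    have hq1 := hq0l u hu
    have hq2 := hq0u u
    have hd2 : 0 < dd l.m ^ 2 := by positivity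
    have hql : dd l.m ^ 2 * (199 / 100) ≤ |qq l s u| := by rw [ha]; nlinarith
    obtain ⟨hI1, hI2, -, -⟩ := hInv (vt E l s u) (pos l s u) (3 * rho l.m) (by positivity) hv hv0
      (fun z hz => ((hb z (by rwa [mem_ball, dist_eq_norm] at hz)).1).trans hCm)
    have hlow : ∀ ξ, ‖ξ - pos l s u‖ < 3 * rho l.m →
        ‖ξ - pos l s u‖ * (99 / 100) ≤ ‖vt E l s u ξ‖ := fun ξ hξ => by
      have h := hI1 ξ (by rwa [mem_ball, dist_eq_norm]) (pos l s u) (mem_ball_self (by positivity))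
      rw [hv0, sub_zero] at h
      have h' := norm_sub_norm_le (ξ - pos l s u) (vt E l s u ξ)
      rw [norm_sub_rev] at h
      linarith
    refine ⟨hql, by rw [ha]; nlinarith [abs_nonneg (q0 l u)], hlow, fun y hy => ?_, hv0, hl0,
      fun z hz => ?_⟩
    · obtain ⟨z, hz, hzy⟩ := hI2 y (by linarith)
      refine ⟨z, ?_, hzy⟩
      rw [← hzy]
      exact hlow z (by rwa [mem_ball, dist_eq_norm] at hz)
    · have h := schw2 hl (B := C2 / l.m)
        (fun w hw => (hb w (by rwa [mem_ball, dist_eq_norm] at hw)).2.1) hl0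
        (by rwa [mem_ball, dist_eq_norm] : z ∈ ball (pos l s u) (3 * rho l.m))
      rw [hld.deriv] at h
      refine h.trans (add_le_add ?_ ?_)
      · gcongr
        rw [norm_div, norm_mul, Complex.norm_real, Real.norm_eq_abs, Complex.norm_two]
        gcongr
        linarith
      · refine mul_le_mul_of_nonneg_right ?_ (by positivity)
        rw [rho, div_le_div_iff₀ (by positivity) (by positivity)]
        have : C2 * l.m * (3 * (dd l.m / l.m)) ^ 2 = 9 * (C2 / l.m) * dd l.m ^ 2 := by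
          field_simp; norm_num
        rw [this]
        have : 0 ≤ C2 / l.m * dd l.m ^ 2 := by positivity
        linarith
  · have h := hsep u u'
    have h1 := one_le_norm_gi (sub_ne_zero.2 hne)
    have h2 := norm_sub_norm_le (l.c * ((u - u' : GI) : ℂ)) (pos l s u - pos l s u')
    rw [norm_sub_rev] at h
    rw [norm_mul, hc] at h2
    nlinarith
  · simp only [nkr, hq0p u w, RR_pos]
    congr 1
    rw [hshift u w]
    have : l.c * ((om ^ l.m * w : GI) : ℂ) = ((w0 * w : GI) : ℂ) := by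
      rw [GaussianInt.toComplex_mul, GaussianInt.toComplex_mul, ← hw0, mul_assoc]
    rw [this]
    exact ((hps _).2.2 _).1

end Pool.Agent.P.MP_cc4a10_gt.Cou2P
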