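import Pool.Agent.P.MP_cc4a10_gt.Cou2A

/-!
Package Cou2, part B: the pointwise bound for the jump function.
-/

open Set Filter Topology Complex Metric
open scoped ComplexConjugate Real

noncomputable section

namespace Pool.Agent.P.MP_cc4a10_gt.Cou2P

theorem num1 {d t d' m m' r η R C3 C4 : ℝ} (hd : 0 < d) (hd' : 0 < d') (hdt : d ≤ t)
    (hdd : d ^ 2 ≤ 2 * d' ^ 2) (hm : 1 ≤ m) (hm' : 0 < m') (hmm : m' ≤ 2 * m)
    (hr : d * t / 4 < r) (hη0 : 0 ≤ η) (hη : η ≤ 17 * d ^ 4 / r) (hR : 0 ≤ R) (h3 : 0 ≤ C3)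
    (h4 : 0 ≤ C4) :
    2 * R / d' ^ 2 * η + C3 * m' / d' ^ 2 * η ^ 2 + 2 * (C4 * m' ^ 2 * d') / (d' / m' * (3 / 4)) * η
      ≤ (68 + 5000 * C3 + 400 * C4) * (d ^ 2 * R + d ^ 4 * m ^ 3) / r := by
  have ht : 0 < t := hd.trans_le hdt
  have hr0 : 0 < r := lt_trans (by positivity) hr
  have hi : 1 / d' ^ 2 ≤ 2 / d ^ 2 := by
    rw [div_le_div_iff₀ (by positivity) (by positivity)]; linarith
  have hη2 : η ≤ 68 * d ^ 2 := by
    refine hη.trans ?_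
    rw [div_le_iff₀ hr0]
    have : d * d / 4 ≤ r := le_trans (by gcongr) hr.le
    nlinarith [sq_nonneg d]
  have t1 : 2 * R / d' ^ 2 * η ≤ 68 * (d ^ 2 * R) / r := by
    calc 2 * R / d' ^ 2 * η = 2 * R * (1 / d' ^ 2) * η := by ring
      _ ≤ 2 * R * (2 / d ^ 2) * (17 * d ^ 4 / r) := by gcongr
      _ = _ := by field_simp; ring
  have hm3 : m ≤ m ^ 3 := le_self_pow₀ hm (by norm_num)
  have t2 : C3 * m' / d' ^ 2 * η ^ 2 ≤ 5000 * C3 * (d ^ 4 * m ^ 3) / r := by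
    calc C3 * m' / d' ^ 2 * η ^ 2 = C3 * m' * (1 / d' ^ 2) * η * η := by ring
      _ ≤ C3 * (2 * m ^ 3) * (2 / d ^ 2) * (68 * d ^ 2) * (17 * d ^ 4 / r) := by
        gcongr; linarith
      _ = 4624 * C3 * (d ^ 4 * m ^ 3) / r := by field_simp; ring
      _ ≤ _ := by gcongr; norm_num
  have t3 : 2 * (C4 * m' ^ 2 * d') / (d' / m' * (3 / 4)) * η ≤ 400 * C4 * (d ^ 4 * m ^ 3) / r := by
    calc 2 * (C4 * m' ^ 2 * d') / (d' / m' * (3 / 4)) * η = 8 / 3 * C4 * m' ^ 3 * η := by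
          field_simp; ring
      _ ≤ 8 / 3 * C4 * (2 * m) ^ 3 * (17 * d ^ 4 / r) := by gcongr
      _ = 1088 / 3 * C4 * (d ^ 4 * m ^ 3) / r := by field_simp; ring
      _ ≤ _ := by gcongr; norm_num
  have hA : 0 ≤ d ^ 2 * R := by positivity
  have hB : 0 ≤ d ^ 4 * m ^ 3 := by positivity
  refine (add_le_add (add_le_add t1 t2) t3).trans ?_
  rw [← add_div, ← add_div]
  gcongr
  nlinarith [mul_nonneg h3 hA, mul_nonneg h4 hA]

theorem num2 {d t d' m m' r η : ℝ} (hd : 0 < d) (_hd' : 0 < d') (hdt : d ≤ t ^ 2) (ht : 0 < t)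
    (hdd : d ≤ 2 * d') (hm : 1 ≤ m) (hm' : 0 < m') (hmm : m' ≤ 2 * m) (hs : m * t ≤ 1 / 1000)
    (hr : d * t / 4 < r) (hη : η ≤ 17 * d ^ 4 / r) : η < d' / m' * (45 / 100) := by
  have hr0 : 0 < r := lt_trans (by positivity) hr
  have ht1 : t ≤ 1 / 1000 := by nlinarith
  have hd1 : d ≤ 1 := by nlinarith
  have h1 : η ≤ 68 * d * t := by
    refine hη.trans ?_
    rw [div_le_iff₀ hr0]
    calc 17 * d ^ 4 = 17 * d ^ 2 * d * d := by ring
      _ ≤ 17 * d ^ 2 * t ^ 2 * 1 := by gcongr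
      _ = 68 * d * t * (d * t / 4) := by ring
      _ ≤ _ := by gcongr
  have h2 : d / (4 * m) ≤ d' / m' := by
    rw [div_le_div_iff₀ (by positivity) hm']; nlinarith
  have h3 : 68 * d * t < d / (4 * m) * (45 / 100) := by
    rw [div_mul_eq_mul_div, lt_div_iff₀ (by positivity)]; nlinarith
  nlinarith

theorem mK_ge {S : Sys} {j : ℕ} (h : Big S j) (K : ℤ) : j + 2 ≤ mK S K := by
  have h1 := h (K - 1)
  have h2 := h K
  unfold mK jl; omega

theorem Big.mono {S : Sys} {j j' : ℕ} (h : Big S j) (hj : j' ≤ j) : Big S j' :=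
  fun k => hj.trans (h k)

theorem mK_ot (hPar : S_Par) {S : Sys} (hS : S.ok) (K : ℤ) (u : GI) :
    mK S (ot S K u) ≤ mK S K + 1 ∧ mK S K ≤ mK S (ot S K u) + 1 := by
  obtain ⟨-, -, h1, h2, -⟩ := hPar S hS K
  obtain ⟨-, -, h3, h4, -⟩ := hPar S hS (K - 1)
  rw [sub_add_cancel] at h3 h4
  unfold ot; split_ifs <;> exact ⟨by assumption, by assumption⟩

theorem dd_le_tt_sq (m : ℕ) : dd m ≤ tt m ^ 2 := by
  rw [← tt_pow_16]; exact pow_le_pow_of_le_one (tt_pos m).le (tt_le_one m) (by norm_num)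

theorem dd_le_tt (m : ℕ) : dd m ≤ tt m := by
  rw [← tt_pow_16]; exact pow_le_of_le_one (tt_pos m).le (tt_le_one m) (by norm_num)

/-- The force at the necks of level `K`. -/
def RK (E : Ell) (S : Sys) (x : Cfg) (K : ℤ) : GI → ℂ :=
  nkr (lvF S K) (fun u => RR E (lvF S K) (ls S x K) u (pos (lvF S K) (ls S x K) u))

theorem fo_bound (hCou1 : S_Cou1) (hLev : S_Lev) (hVt : S_Vt) (hInv : S_Inv) (hDip : S_Dip)
    (hPar : S_Par) (hFlip : S_Flip) (E : Ell) :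
    ∃ (C : ℝ) (j1 : ℕ), 0 < C ∧ ∀ (S : Sys) (x : Cfg), S.ok → Big S j1 → XX S x → ∀ K u,
      q0 (lvT S K) u ≠ 0 → ∀ ξ, rho1 (mK S K) / 4 < ‖ξ - pK S x K u‖ →
      ‖ξ - pK S x K u‖ < 2 * rho (mK S K) →
      ‖fo E S x (MM E S x) K u ξ‖ ≤ C * (dd (mK S K) ^ 2 * ‖RK E S x (ot S K u) (par S K u)‖
        + dd (mK S K) ^ 4 * (mK S K : ℝ) ^ 3) / ‖ξ - pK S x K u‖ := by
  obtain ⟨C3, m3, hC3, h3⟩ := levF hLev hVt hInv hDip E
  obtain ⟨C4, j4, hC4, h4⟩ := hCou1 E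
  obtain ⟨m5, h5⟩ := exists_pow_mul_tt_le 1 (by norm_num : (0 : ℝ) < 1 / 1000)
  refine ⟨68 + 5000 * C3 + 400 * C4, max (max m3 j4) (max m5 10), by positivity,
    fun S x hS hB hX K u hu ξ hξ1 hξ2 => ?_⟩
  have hB10 : Big S 10 := Big.mono hB (by omega)
  have hBj : Big S j4 := Big.mono hB (by omega)
  have hL : ∀ L, LevF E (lvF S L) (ls S x L) C3 := fun L =>
    h3 _ _ _ ((hFlip E S hS L).2 x hB10 hX) (by
      have := mK_ge hB L
      change m3 ≤ mK S L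
      omega)
  obtain ⟨hmo1, hmo2⟩ := mK_ot hPar hS K u
  have hu' : par S K u ∈ Nk (lvF S (ot S K u)) := by
    have := ((hPar S hS K).2.2.2.2.2.1 u hu).1
    change q0 (lvT S (ot S K u)) (par S K u) ≠ 0
    rw [this]; exact neg_ne_zero.2 hu
  have hmK := mK_ge hB K
  have hmK' := mK_ge hB (ot S K u)
  obtain ⟨-, hq, hlow, -⟩ := (hL K).1 u hu
  obtain ⟨-, -, -, hsur, hv0, hl0, hlv⟩ := (hL (ot S K u)).1 _ hu'
  obtain ⟨-, -, -, -, -, -, htn, -⟩ := h4 S x hS hBj hX K u hu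
  obtain ⟨-, -, hMd, hMM, -, -, -, -, -, hmm, -⟩ := h4 S x hS hBj hX (ot S K u) _ hu'
  change |qK S x K u| ≤ dd (mK S K) ^ 2 * (4004 / 1000) at hq
  change ∀ ξ, ‖ξ - pK S x K u‖ < 3 * rho (mK S K) →
    ‖ξ - pK S x K u‖ * (99 / 100) ≤ ‖vK E S x K u ξ‖ at hlow
  set K' := ot S K u with hK'
  set u' := par S K u with hu''
  change ∀ y, ‖y‖ < 2 * rho (mK S K') →
    ∃ z, ‖z - pK S x K' u'‖ * (99 / 100) ≤ ‖y‖ ∧ vK E S x K' u' z = y at hsur
  change vK E S x K' u' (pK S x K' u') = 0 at hv0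
  change lv E (lvF S K') (ls S x K') u' (pK S x K' u') = 0 at hl0
  change ∀ z, ‖z - pK S x K' u'‖ < 3 * rho (mK S K') → ‖lv E (lvF S K') (ls S x K') u' z‖ ≤
    2 * ‖RR E (lvF S K') (ls S x K') u' (pK S x K' u')‖ / dd (mK S K') ^ 2 * ‖z - pK S x K' u'‖
      + C3 * (mK S K') / dd (mK S K') ^ 2 * ‖z - pK S x K' u'‖ ^ 2 at hlv
  have hRK : RK E S x K' u' = RR E (lvF S K') (ls S x K') u' (pK S x K' u') := by
    unfold RK nkr; exact if_neg hu'
  have hd := dd_pos (mK S K)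
  have hd' := dd_pos (mK S K')
  have ht := tt_pos (mK S K)
  have hm1 : (1 : ℝ) ≤ mK S K := by exact_mod_cast (by omega : 1 ≤ mK S K)
  have hm' : (0 : ℝ) < mK S K' := by exact_mod_cast (by omega : 0 < mK S K')
  have hmm2 : (mK S K' : ℝ) ≤ 2 * mK S K := by exact_mod_cast (by omega : mK S K' ≤ 2 * mK S K)
  have hs : (mK S K : ℝ) * tt (mK S K) ≤ 1 / 1000 := by
    simpa using h5 (mK S K) (by omega)
  have hρ : 0 < rho (mK S K) := div_pos hd (by linarith)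
  have hρ' : 0 < rho (mK S K') := div_pos hd' hm'
  set r := ‖ξ - pK S x K u‖ with hr
  have hr1 : dd (mK S K) * tt (mK S K) / 4 < r := hξ1
  have hr0 : 0 < r := lt_trans (by positivity) hr1
  have htn' : ‖tn S x K u‖ ≤ 162 / 10 * dd (mK S K) ^ 4 := by
    have e1 := norm_sub_le (tn S x K u + (qK S x K u : ℂ) ^ 2) ((qK S x K u : ℂ) ^ 2)
    rw [add_sub_cancel_right, norm_pow, Complex.norm_real, Real.norm_eq_abs, sq_abs] at e1
    have e2 : qK S x K u ^ 2 ≤ (dd (mK S K) ^ 2 * (4004 / 1000)) ^ 2 := by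
      rw [← sq_abs]; gcongr
    have e3 : 0 ≤ dd (mK S K) ^ 4 := by positivity
    nlinarith
  set y := tn S x K u / vK E S x K u ξ with hy
  have hy1 : ‖y‖ ≤ 17 * dd (mK S K) ^ 4 / r * (99 / 100) := by
    have e1 := hlow ξ (by linarith)
    rw [hy, norm_div]
    calc ‖tn S x K u‖ / ‖vK E S x K u ξ‖ ≤ 162 / 10 * dd (mK S K) ^ 4 / (r * (99 / 100)) := by
          gcongr
      _ = 1620 / 99 * (dd (mK S K) ^ 4 / r) := by field_simp; ring
      _ ≤ 17 * (99 / 100) * (dd (mK S K) ^ 4 / r) := by gcongr; norm_num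
      _ = _ := by ring
  have hn2 : ∀ η, η ≤ 17 * dd (mK S K) ^ 4 / r → η < rho (mK S K') * (45 / 100) := fun η hη =>
    num2 hd hd' (dd_le_tt_sq _) ht (dd_le_two hmo1) hm1 hm' hmm2 hs hr1 hη
  have hp : 0 < 17 * dd (mK S K) ^ 4 / r := by positivity
  obtain ⟨z, hz1, hz2⟩ := hsur y (by linarith [hn2 ‖y‖ (by linarith)])
  have hη : ‖z - pK S x K' u'‖ ≤ 17 * dd (mK S K) ^ 4 / r := by linarith
  have hz3 := hn2 _ hη
  have e1 : fo E S x (MM E S x) K u ξ = -lv E (lvF S K') (ls S x K') u' z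
      + (Mt E S x K' z - Mt E S x K' (pK S x K' u')) := by
    have a1 := hmm z hz3
    have a2 := hmm (pK S x K' u') (by rw [sub_self, norm_zero]; positivity)
    have a3 := (hMM z (by linarith)).1
    have a4 := (hMM (pK S x K' u') (by rw [sub_self, norm_zero]; positivity)).1
    rw [hz2] at a1
    rw [hv0] at a2
    rw [fo, if_neg hu, ← hK', ← hu'', ← hy, a1, a2, a3, a4, hl0]
    ring
  have e2 := schw1 (hMd.mono (ball_subset_ball (by linarith :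
      rho (mK S K') * (3 / 4) ≤ rho (mK S K')))) (B := C4 * (mK S K' : ℝ) ^ 2 * dd (mK S K'))
    (fun w hw => (hMM w (by rw [mem_ball, dist_eq_norm] at hw; exact hw.le)).2)
    (by rw [mem_ball, dist_eq_norm]; linarith : z ∈ ball (pK S x K' u') (rho (mK S K') * (3 / 4)))
  have e3 := hlv z (by linarith)
  rw [e1, hRK]
  refine (norm_add_le _ _).trans ?_
  rw [norm_neg]
  refine (add_le_add e3 e2).trans ?_
  exact num1 hd hd' (dd_le_tt _) (dd_sq_le hmo1) hm1 hm' hmm2 hr1 (norm_nonneg _) hη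
    (norm_nonneg _) hC3.le hC4.le

end Pool.Agent.P.MP_cc4a10_gt.Cou2P
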