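import Pool.Agent.P.MP_cc4a10_gt.Cou2B

/-!
Package Cou2, part C: the majorant of the jump function.
-/

open Set Filter Topology Complex Metric
open scoped ComplexConjugate Real

noncomputable section

namespace Pool.Agent.P.MP_cc4a10_gt.Cou2P

theorem ts_eq_msq (m : ℕ) (F : GI → ℂ) : ts m (fun u => ‖F u‖ ^ 2) = msq m F / dd m ^ 2 := by
  rw [ts_eq_av, dd_sq, msq, smul_eq_mul]; field_simp

theorem av_eq_ts (m : ℕ) (F : GI → ℝ) : av m F = dd m ^ 2 * ts m F := by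
  rw [av, dd_sq, smul_eq_mul]

theorem n1 {C a b a' b' : ℝ} (hC : 0 < C) (ha : 0 ≤ a) (hb : 0 ≤ b) (h1 : a' ≤ 2 * C * a)
    (h2 : b' ≤ b) : a' + b' ≤ (3 * C + 2) * (a + b) := by
  nlinarith [mul_nonneg hC.le ha, mul_nonneg hC.le hb]

theorem n2 {a b c : ℝ} (ha : 0 ≤ a) (hb : 0 ≤ b) (hc : 0 ≤ c) : a ^ 2 + c ^ 2 ≤ (a + b + c) ^ 2 := by
  nlinarith [mul_nonneg ha hb, mul_nonneg ha hc, mul_nonneg hb hc]

theorem n3' {C d R b : ℝ} : (C * (d ^ 2 * R + b)) ^ 2 ≤ 2 * C ^ 2 * d ^ 4 * R ^ 2 + 2 * C ^ 2 * b ^ 2 := by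
  nlinarith [mul_nonneg (sq_nonneg C) (sq_nonneg (d ^ 2 * R - b))]

theorem n4 {C a b : ℝ} (hC : 0 < C) (ha : 0 ≤ a) (hb : 0 ≤ b) :
    8 * C ^ 2 * a ^ 2 + 2 * b ^ 2 ≤ ((3 * C + 2) * (a + b)) ^ 2 := by
  have f1 : 8 * C ^ 2 ≤ (3 * C + 2) ^ 2 := by nlinarith
  have f2 : 2 ≤ (3 * C + 2) ^ 2 := by nlinarith
  have f3 : 8 * C ^ 2 * a ^ 2 ≤ (3 * C + 2) ^ 2 * a ^ 2 := by gcongr
  have f4 : 2 * b ^ 2 ≤ (3 * C + 2) ^ 2 * b ^ 2 := by gcongr
  have f5 : 0 ≤ (3 * C + 2) ^ 2 * (a * b) := by positivity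
  nlinarith

theorem n5 {C m a c b G X Y : ℝ} (h0 : G ≤ X + Y) (h1 : X ≤ (C * (2 * m) * a) ^ 2)
    (h2 : Y ≤ (C * (2 * m) * c) ^ 2) (h3 : a ^ 2 + c ^ 2 ≤ b ^ 2) :
    G ≤ 4 * C ^ 2 * m ^ 2 * b ^ 2 := by
  have : 4 * C ^ 2 * m ^ 2 * (a ^ 2 + c ^ 2) ≤ 4 * C ^ 2 * m ^ 2 * b ^ 2 := by gcongr
  nlinarith

theorem majorant (hCou1 : S_Cou1) (hFrc : S_Frc) (hLev : S_Lev) (hVt : S_Vt) (hInv : S_Inv)
    (hDip : S_Dip) (hPar : S_Par) (hFlip : S_Flip) (hBox : S_Box) (E : Ell) :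
    ∃ (C : ℝ) (j1 : ℕ), 0 < C ∧ ∀ (S : Sys) (x : Cfg), S.ok → Big S j1 → XX S x → ∀ K,
      ∃ A : GI → ℝ, (∀ u, 0 ≤ A u ∧ A u ≤ C * dd (mK S K) * sm S x K / mK S K) ∧
        Per (mK S K) A ∧
        msq (mK S K) (fun u => (A u : ℂ)) ≤ (C * dd (mK S K) ^ 2 * sm S x K / mK S K) ^ 2 ∧
        ∀ u ξ, rho1 (mK S K) / 4 < ‖ξ - pK S x K u‖ → ‖ξ - pK S x K u‖ < 2 * rho (mK S K) →
          ‖fo E S x (MM E S x) K u ξ‖ ≤ A u / ‖ξ - pK S x K u‖ := by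
  obtain ⟨C1, j1, hC1, h1⟩ := fo_bound hCou1 hLev hVt hInv hDip hPar hFlip E
  obtain ⟨C3, m3, hC3, h3⟩ := levF hLev hVt hInv hDip E
  obtain ⟨C5, m5, hC5, h5⟩ := hFrc E
  refine ⟨C1 * (3 * C5 + 2), max (max j1 m3) (max m5 10), by positivity, fun S x hS hB hX K => ?_⟩
  have hB10 : Big S 10 := Big.mono hB (by omega)
  have hBj : Big S j1 := Big.mono hB (by omega)
  have hG : ∀ L, LG (lvF S L) (ls S x L) (bK S x L) := fun L => (hFlip E S hS L).2 x hB10 hX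
  have hL : ∀ L, LevF E (lvF S L) (ls S x L) C3 := fun L =>
    h3 _ _ _ (hG L) (by
      have := mK_ge hB L
      change m3 ≤ mK S L
      omega)
  have hP : ∀ L, Per (mK S L) (RK E S x L) := fun L => (hL L).2.2.1
  have hq0 : Per (mK S K) (q0 (lvT S K)) := (hL K).2.2.2.1
  have hF : ∀ L, msq (mK S L) (RK E S x L) / dd (mK S L) ^ 2 ≤ (C5 * mK S L * bK S x L) ^ 2 :=
    fun L => by
      have h : msq (mK S L) (RK E S x L) ≤ (C5 * mK S L * dd (mK S L) * bK S x L) ^ 2 :=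
        h5 _ _ _ (hG L) (by
          have := mK_ge hB L
          change m5 ≤ mK S L
          omega)
      have := dd_pos (mK S L)
      rw [div_le_iff₀ (by positivity)]
      exact h.trans_eq (by ring)
  have hb0 : ∀ L, 0 ≤ bK S x L := fun L => (hG L).b0
  have hsup : ∀ L u, ‖RK E S x L u‖ ≤ C5 * mK S L * bK S x L := fun L u => by
    have h := ((hBox (mK S L)).2.2.2.2.2.2.2 _ (hP L) u).trans (hF L)
    have := hb0 L
    exact (pow_le_pow_iff_left₀ (norm_nonneg _) (by positivity) two_ne_zero).1 h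
  have hd := dd_pos (mK S K)
  have hd1 := dd_le_one (mK S K)
  have hmK := mK_ge hB K
  have hm1 : (1 : ℝ) ≤ mK S K := by exact_mod_cast (by omega : 1 ≤ mK S K)
  have hb1 := hb0 (K - 1)
  have hb2 := hb0 K
  have hb3 := hb0 (K + 1)
  have hb : b3 S x K = bK S x (K - 1) + bK S x K + bK S x (K + 1) := rfl
  have hb30 : 0 ≤ b3 S x K := by linarith
  refine ⟨fun u => if q0 (lvT S K) u = 0 then 0 else C1 * (dd (mK S K) ^ 2 *
    ‖RK E S x (ot S K u) (par S K u)‖ + dd (mK S K) ^ 4 * (mK S K : ℝ) ^ 3), fun u => ⟨?_, ?_⟩,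
    fun u w => ?_, ?_, fun u ξ hξ1 hξ2 => ?_⟩
  · beta_reduce
    split_ifs <;> positivity
  · have e : C1 * (3 * C5 + 2) * dd (mK S K) * sm S x K / mK S K = C1 * ((3 * C5 + 2) *
        (dd (mK S K) ^ 2 * (mK S K * b3 S x K) + dd (mK S K) ^ 3 * (mK S K : ℝ) ^ 3)) := by
      unfold sm; field_simp
    rw [e]
    beta_reduce
    split_ifs with hu
    · positivity
    · have e1 := hsup (ot S K u) (par S K u)
      have e2 : (mK S (ot S K u) : ℝ) ≤ 2 * mK S K := by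
        have := (mK_ot hPar hS K u).1
        exact_mod_cast (by omega : mK S (ot S K u) ≤ 2 * mK S K)
      have e3 : bK S x (ot S K u) ≤ b3 S x K := by
        unfold ot; split_ifs <;> linarith
      have e4 : ‖RK E S x (ot S K u) (par S K u)‖ ≤ 2 * C5 * (mK S K * b3 S x K) := by
        refine e1.trans ?_
        have := hb0 (ot S K u)
        calc C5 * mK S (ot S K u) * bK S x (ot S K u) ≤ C5 * (2 * mK S K) * b3 S x K := by gcongr
          _ = _ := by ring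
      have e5 : dd (mK S K) ^ 4 ≤ dd (mK S K) ^ 3 := pow_le_pow_of_le_one hd.le hd1 (by norm_num)
      have e6 : 0 ≤ dd (mK S K) ^ 2 * (mK S K * b3 S x K) := by positivity
      have e7 : 0 ≤ dd (mK S K) ^ 3 * (mK S K : ℝ) ^ 3 := by positivity
      have e8 : dd (mK S K) ^ 2 * ‖RK E S x (ot S K u) (par S K u)‖
          ≤ dd (mK S K) ^ 2 * (2 * C5 * (mK S K * b3 S x K)) := by gcongr
      have e9 : dd (mK S K) ^ 4 * (mK S K : ℝ) ^ 3 ≤ dd (mK S K) ^ 3 * (mK S K : ℝ) ^ 3 := by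
        gcongr
      exact mul_le_mul_of_nonneg_left (n1 hC5 e6 e7 (e8.trans_eq (by ring)) e9) hC1.le
  · simp only [hq0 u w]
    split_ifs with hu
    · rfl
    · obtain ⟨w', hw'⟩ := ((hPar S hS K).2.2.2.2.2.1 u hu).2.2.2.2.2.2.2.2.1 w
      have e : ot S K (u + om ^ mK S K * w) = ot S K u := by unfold ot; rw [hq0 u w]
      rw [e, hw', hP _ _ _]
  · obtain ⟨-, -, a1, a2, -, -, -, -, hg, -⟩ := hPar S hS K
    obtain ⟨-, -, a3, a4, -⟩ := hPar S hS (K - 1)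
    rw [sub_add_cancel] at a3 a4
    have e0 := hg (fun L u => ‖RK E S x L u‖ ^ 2) (fun L u w => by simp only [hP L u w])
      (fun L u => sq_nonneg _)
    rw [ts_eq_msq, ts_eq_msq] at e0
    have e1 := hF (K - 1)
    have e2 := hF (K + 1)
    have a5 : (mK S (K - 1) : ℝ) ≤ 2 * mK S K := by
      exact_mod_cast (by omega : mK S (K - 1) ≤ 2 * mK S K)
    have a6 : (mK S (K + 1) : ℝ) ≤ 2 * mK S K := by
      exact_mod_cast (by omega : mK S (K + 1) ≤ 2 * mK S K)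
    have e3 : (C5 * mK S (K - 1) * bK S x (K - 1)) ^ 2
        ≤ (C5 * (2 * mK S K) * bK S x (K - 1)) ^ 2 := by gcongr
    have e4 : (C5 * mK S (K + 1) * bK S x (K + 1)) ^ 2
        ≤ (C5 * (2 * mK S K) * bK S x (K + 1)) ^ 2 := by gcongr
    have e5 : bK S x (K - 1) ^ 2 + bK S x (K + 1) ^ 2 ≤ b3 S x K ^ 2 := by
      rw [hb]; exact n2 hb1 hb2 hb3
    set G := ts (mK S K) (fun u => if q0 (lvT S K) u = 0 then (0 : ℝ) else
      ‖RK E S x (ot S K u) (par S K u)‖ ^ 2) with hGd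
    have e6 : G ≤ 4 * C5 ^ 2 * (mK S K : ℝ) ^ 2 * b3 S x K ^ 2 :=
      n5 e0 (e1.trans e3) (e2.trans e4) e5
    have e7 : msq (mK S K) (fun u => ((if q0 (lvT S K) u = 0 then 0 else C1 * (dd (mK S K) ^ 2 *
        ‖RK E S x (ot S K u) (par S K u)‖ + dd (mK S K) ^ 4 * (mK S K : ℝ) ^ 3) : ℝ) : ℂ))
        ≤ av (mK S K) (fun u => (2 * C1 ^ 2 * dd (mK S K) ^ 4) *
          (if q0 (lvT S K) u = 0 then (0 : ℝ) else ‖RK E S x (ot S K u) (par S K u)‖ ^ 2)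
          + 2 * C1 ^ 2 * (dd (mK S K) ^ 4 * (mK S K : ℝ) ^ 3) ^ 2) := by
      refine av_mono _ fun u => ?_
      rw [Complex.norm_real, Real.norm_eq_abs, sq_abs]
      split_ifs
      · simp only [ne_eq, OfNat.ofNat_ne_zero, not_false_eq_true, zero_pow, mul_zero, zero_add]
        positivity
      · exact n3'
    rw [av_add, av_const, av_eq_ts, ts_mul_left_real, ← hGd] at e7
    refine e7.trans ?_
    have e : C1 * (3 * C5 + 2) * dd (mK S K) ^ 2 * sm S x K / mK S K = C1 * ((3 * C5 + 2) *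
        (dd (mK S K) ^ 3 * (mK S K * b3 S x K) + dd (mK S K) ^ 4 * (mK S K : ℝ) ^ 3)) := by
      unfold sm; field_simp
    rw [e]
    set a := dd (mK S K) ^ 3 * (mK S K * b3 S x K) with ha
    set b := dd (mK S K) ^ 4 * (mK S K : ℝ) ^ 3 with hbb
    have ha0 : 0 ≤ a := by positivity
    have hb0' : 0 ≤ b := by positivity
    have e8 : dd (mK S K) ^ 2 * (2 * C1 ^ 2 * dd (mK S K) ^ 4 * G) ≤ C1 ^ 2 * (8 * C5 ^ 2 * a ^ 2) := by
      calc dd (mK S K) ^ 2 * (2 * C1 ^ 2 * dd (mK S K) ^ 4 * G) ≤ dd (mK S K) ^ 2 *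
            (2 * C1 ^ 2 * dd (mK S K) ^ 4 * (4 * C5 ^ 2 * (mK S K : ℝ) ^ 2 * b3 S x K ^ 2)) := by
            gcongr
        _ = _ := by rw [ha]; ring
    have e9 : 8 * C5 ^ 2 * a ^ 2 + 2 * b ^ 2 ≤ ((3 * C5 + 2) * (a + b)) ^ 2 := n4 hC5 ha0 hb0'
    have e10 : C1 ^ 2 * (8 * C5 ^ 2 * a ^ 2 + 2 * b ^ 2)
        ≤ C1 ^ 2 * ((3 * C5 + 2) * (a + b)) ^ 2 := by gcongr
    rw [mul_pow C1]
    linarith
  · by_cases hu : q0 (lvT S K) u = 0
    · simp [fo, hu]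
    · simp only [if_neg hu]
      exact h1 S x hS hBj hX K u hu ξ hξ1 hξ2

end Pool.Agent.P.MP_cc4a10_gt.Cou2P
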