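import Pool.Agent.P.MP_cc4a10_gt.St

/-! The set of configurations is compact and convex. -/

open Set Filter Topology Complex Metric

namespace Pool.Agent.P.MP_cc4a10_gt

namespace CptP

theorem cont_ts {X V : Type*} [TopologicalSpace X] [NormedAddCommGroup V] [NormedSpace ℝ V] (m : ℕ)
    {F : X → GI → V} (h : ∀ u, Continuous fun x => F x u) : Continuous fun x => ts m (F x) :=
  (continuous_finsetSum _ fun _ _ => continuous_finsetSum _ fun _ _ => h _).const_smul _

theorem cont_msq {X : Type*} [TopologicalSpace X] (m : ℕ) {F : X → GI → ℂ}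
    (h : ∀ u, Continuous fun x => F x u) : Continuous fun x => msq m (F x) :=
  (cont_ts m (F := fun x u => ‖F x u‖ ^ 2) fun u => (h u).norm.pow 2).const_smul
    ((2 : ℝ) ^ m)⁻¹

theorem cont_g2 {X : Type*} [TopologicalSpace X] (m : ℕ) {F : X → GI → ℂ}
    (h : ∀ u, Continuous fun x => F x u) : Continuous fun x => g2 m (F x) :=
  (cont_msq m (F := fun x u => F x (u + 1) - F x u) fun u => (h _).sub (h u)).add
    (cont_msq m (F := fun x u => F x (u + gi) - F x u) fun u => (h _).sub (h u))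

theorem cont_dn (hD : S_Dn) {X : Type*} [TopologicalSpace X] {m : ℕ} (hm : 2 ≤ m)
    {ρ : X → GI → ℝ} (h : ∀ u, Continuous fun x => ρ x u) {A : Set X}
    (hA : ∀ x ∈ A, Per m (ρ x) ∧ ts m (ρ x) = 0) : ContinuousOn (fun x => dn m (ρ x)) A := by
  obtain ⟨C, hC, hD⟩ := hD
  let g : X → X → ℝ := fun x y => C * √(msq m fun u => ((ρ x u - ρ y u : ℝ) : ℂ)) / dd m
  have g0 : ∀ x y, 0 ≤ g x y := fun x y => by
    have := dd_pos m
    positivity
  have h1 : ∀ x ∈ A, ∀ y ∈ A, dn m (ρ x) ≤ g x y + dn m (ρ y) := fun x hx y hy => by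
    have a1 : Per m fun u => ρ x u - ρ y u := fun u w => by
      simp only [(hA x hx).1 u w, (hA y hy).1 u w]
    have a2 : ts m (fun u => ρ x u - ρ y u) = 0 := by
      rw [ts_sub, (hA x hx).2, (hA y hy).2, sub_zero]
    obtain ⟨-, -, -, a3, -, a4, -⟩ := hD m _ hm a1 a2
    have a5 := a4 _ (hA y hy).1 (hA y hy).2
    simp only [sub_add_cancel] at a5
    exact a5.trans (add_le_add_left a3 _)
  intro y hy
  have c1 : Continuous fun x => g x y + g y x := by
    refine Continuous.add (Continuous.div_const (continuous_const.mul (Continuous.sqrt ?_)) _)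
      (Continuous.div_const (continuous_const.mul (Continuous.sqrt ?_)) _)
    · exact cont_msq m fun u => continuous_ofReal.comp ((h u).sub continuous_const)
    · exact cont_msq m fun u => continuous_ofReal.comp (continuous_const.sub (h u))
  have c2 : g y y + g y y = 0 := by simp [g, msq, av]
  refine tendsto_iff_dist_tendsto_zero.2 (squeeze_zero' (Eventually.of_forall fun _ => dist_nonneg)
    (eventually_mem_nhdsWithin.mono fun x hx => ?_)
    (c2 ▸ (c1.tendsto y).mono_left nhdsWithin_le_nhds))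
  rw [Real.dist_eq, abs_le]
  constructor <;> linarith [h1 x hx y hy, h1 y hy x hx, g0 x y, g0 y x]

variable {a b : ℝ}

theorem sq_conv (ha : 0 ≤ a) (hb : 0 ≤ b) (hab : a + b = 1) {x y z : ℝ} (hz : 0 ≤ z)
    (h : z ≤ a * x + b * y) : z ^ 2 ≤ a * x ^ 2 + b * y ^ 2 := by
  have h1 := pow_le_pow_left₀ hz h 2
  have h2 := mul_nonneg (mul_nonneg ha hb) (sq_nonneg (x - y))
  obtain rfl : b = 1 - a := by linarith
  nlinarith

theorem norm_conv (ha : 0 ≤ a) (hb : 0 ≤ b) (x y : ℂ) : ‖a • x + b • y‖ ≤ a * ‖x‖ + b * ‖y‖ := by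
  refine (norm_add_le _ _).trans (le_of_eq ?_)
  rw [norm_smul, norm_smul, Real.norm_of_nonneg ha, Real.norm_of_nonneg hb]

theorem ball_conv (ha : 0 ≤ a) (hb : 0 ≤ b) (hab : a + b = 1) {x y : ℂ} {r : ℝ} (hx : ‖x‖ ≤ r)
    (hy : ‖y‖ ≤ r) : ‖a • x + b • y‖ ≤ r := by
  have h1 := mul_le_mul_of_nonneg_left hx ha
  have h2 := mul_le_mul_of_nonneg_left hy hb
  have h3 : a * r + b * r = r := by rw [← add_mul, hab, one_mul]
  linarith [norm_conv ha hb x y]

theorem msq_conv (ha : 0 ≤ a) (hb : 0 ≤ b) (hab : a + b = 1) (m : ℕ) (F G : GI → ℂ) :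
    msq m (fun u => a • F u + b • G u) ≤ a * msq m F + b * msq m G := by
  have h2 := av_mono m (F := fun u => ‖a • F u + b • G u‖ ^ 2)
    (G := fun u => a * ‖F u‖ ^ 2 + b * ‖G u‖ ^ 2) fun u =>
      sq_conv ha hb hab (norm_nonneg _) (norm_conv ha hb _ _)
  refine h2.trans (le_of_eq ?_)
  simp only [av, ts_add, ts_mul_left_real, smul_eq_mul, msq]
  ring

theorem g2_conv (ha : 0 ≤ a) (hb : 0 ≤ b) (hab : a + b = 1) (m : ℕ) (F G : GI → ℂ) :
    g2 m (fun u => a • F u + b • G u) ≤ a * g2 m F + b * g2 m G := by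
  have h : ∀ g : GI, (fun u => a • F (u + g) + b • G (u + g) - (a • F u + b • G u)) =
      fun u => a • (F (u + g) - F u) + b • (G (u + g) - G u) := fun g => funext fun u => by
    simp only [smul_sub]
    abel
  have h1 := msq_conv ha hb hab m (fun u => F (u + 1) - F u) fun u => G (u + 1) - G u
  have h2 := msq_conv ha hb hab m (fun u => F (u + gi) - F u) fun u => G (u + gi) - G u
  simp only [g2, h]
  linarith

theorem dens {l : Lv} (hq : Per l.m (q0 l)) {ε : GI → ℂ} {σ : GI → ℝ} (h : LV l ε σ) (c : ℝ) :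
    Per l.m (fun u => c * (q0 l u * σ u / dd l.m ^ 2)) ∧
      ts l.m (fun u => c * (q0 l u * σ u / dd l.m ^ 2)) = 0 := by
  refine ⟨fun u w => by simp only [hq u w, h.ps u w], ?_⟩
  have : (fun u => c * (q0 l u * σ u / dd l.m ^ 2)) =
      fun u => c / dd l.m ^ 2 * (q0 l u * σ u) := funext fun u => by ring
  rw [this, ts_mul_left_real, h.neu, mul_zero]

theorem dens1 {l : Lv} (hq : Per l.m (q0 l)) {ε : GI → ℂ} {σ : GI → ℝ} (h : LV l ε σ) :
    Per l.m (fun u => q0 l u * σ u / dd l.m ^ 2) ∧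
      ts l.m (fun u => q0 l u * σ u / dd l.m ^ 2) = 0 := by
  simpa only [one_mul] using dens hq h 1

theorem nb2_conv (hD : S_Dn) (ha : 0 ≤ a) (hb : 0 ≤ b) (hab : a + b = 1) {l : Lv} (hm : 2 ≤ l.m)
    (hq : Per l.m (q0 l)) {ε ε' : GI → ℂ} {σ σ' : GI → ℝ} (h : LV l ε σ) (h' : LV l ε' σ') :
    nb2 l (fun u => a • ε u + b • ε' u) (fun u => a * σ u + b * σ' u) ≤
      a * nb2 l ε σ + b * nb2 l ε' σ' := by
  obtain ⟨C, -, hD⟩ := hD
  have h1 := div_le_div_of_nonneg_right (g2_conv ha hb hab l.m ε ε') (sq_nonneg (dd l.m))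
  have h2 := mul_le_mul_of_nonneg_left
    (msq_conv ha hb hab l.m (fun u => (σ u : ℂ)) fun u => (σ' u : ℂ)) (Nat.cast_nonneg l.m)
  have h3 : (fun u => ((a * σ u + b * σ' u : ℝ) : ℂ)) =
      fun u => a • (σ u : ℂ) + b • (σ' u : ℂ) := funext fun u => by simp
  have h4 : (fun u => q0 l u * (a * σ u + b * σ' u) / dd l.m ^ 2) = fun u =>
      a * (q0 l u * σ u / dd l.m ^ 2) + b * (q0 l u * σ' u / dd l.m ^ 2) := funext fun u => by ring
  have d1 := dens hq h a
  have d2 := dens hq h' b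
  have h5 := (hD _ _ hm d1.1 d1.2).2.2.2.2.2.1 _ d2.1 d2.2
  rw [(hD _ _ hm (dens1 hq h).1 (dens1 hq h).2).2.2.2.2.1,
    (hD _ _ hm (dens1 hq h').1 (dens1 hq h').2).2.2.2.2.1, abs_of_nonneg ha,
    abs_of_nonneg hb] at h5
  have h6 := (hD l.m (fun u => a * (q0 l u * σ u / dd l.m ^ 2) + b * (q0 l u * σ' u / dd l.m ^ 2))
    hm (fun u w => by simp only [hq u w, h.ps u w, h'.ps u w])
    (by rw [ts_add, d1.2, d2.2, add_zero])).1
  have h7 := sq_conv ha hb hab h6 h5
  simp only [nb2, h3, h4]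
  rw [add_div, mul_div_assoc, mul_div_assoc] at h1
  nlinarith

theorem convex (h1 : S_Par) (h3 : S_Dn) (h5 : S_Dip) (S : Sys) (hS : S.ok) :
    Convex ℝ {x | XX S x} := by
  intro x hx y hy a b ha hb hab
  replace hx : XX S x := hx
  replace hy : XX S y := hy
  have e1 : ∀ k z, (a • x + b • y).v.1 k z = a • x.v.1 k z + b • y.v.1 k z := fun _ _ => rfl
  have e2 : ∀ k z, (a • x + b • y).v.2 k z = a • x.v.2 k z + b • y.v.2 k z := fun _ _ => rfl
  have e3 : ∀ k z, (a • x + b • y).ξ k z = a • x.ξ k z + b • y.ξ k z := fun _ _ => rfl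
  have e4 : ∀ k z, (a • x + b • y).s k z = a • x.s k z + b • y.s k z := fun _ _ => rfl
  refine ⟨⟨fun k z h => ?_, fun k z w => ?_, fun k => ?_, fun k => ?_⟩, fun k z => ?_, fun T => ?_,
    fun K u w => ?_, fun K u => ?_, fun K => ?_, fun K u w => ?_, fun K u => ?_,
    fun K u => ball_conv ha hb hab (hx.sb K u) (hy.sb K u),
    fun K => ball_conv ha hb hab (hx.mb K) (hy.mb K),
    fun K => ball_conv ha hb hab (hx.lb K) (hy.lb K)⟩
  · simp [hx.adm.off k z h, hy.adm.off k z h]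
  · simp only [e1, e2, hx.adm.per k z w, hy.adm.per k z w, and_self]
  · simp only [e1, ts_add, ts_smul, hx.adm.m1, hy.adm.m1, smul_zero, add_zero]
  · simp only [e2, ts_add, ts_smul, hx.adm.m2, hy.adm.m2, smul_zero, add_zero]
  · simp only [e1, e2, hx.sym k z, hy.sym k z, smul_neg, neg_add, and_self]
  · have c1 : ∀ K, nT S (a • x + b • y).v K ≤ a * nT S x.v K + b * nT S y.v K := fun K => by
      have c2 : sT S (a • x + b • y).v K = fun u => a * sT S x.v K u + b * sT S y.v K u :=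
        funext fun u => by
          simp only [sT, e2]
          split_ifs <;> simp
      have c3 := h1 S hS K
      rw [nT, c2]
      exact nb2_conv h3 ha hb hab c3.1.1 (h5 _ c3.1).2.2.1 (c3.2.2.2.2.2.2.2.2.2 _ hx.adm).1
        (c3.2.2.2.2.2.2.2.2.2 _ hy.adm).1
    have c2 := mul_le_mul_of_nonneg_left (hx.nb T) ha
    have c3 := mul_le_mul_of_nonneg_left (hy.nb T) hb
    rw [Finset.mul_sum] at c2 c3
    refine (Finset.sum_le_sum (g := fun K => a * (nT S x.v K / tt (mK S K) ^ 40) +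
      b * (nT S y.v K / tt (mK S K) ^ 40)) fun K _ => ?_).trans ?_
    · rw [← mul_div_assoc, ← mul_div_assoc, ← add_div]
      exact div_le_div_of_nonneg_right (c1 K) (pow_pos (tt_pos _) _).le
    · rw [Finset.sum_add_distrib]
      linarith
  · simp only [e3, hx.xp K u w, hy.xp K u w]
  · simp only [e3, hx.xo K u, hy.xo K u, smul_neg, neg_add]
  · have c1 := g2_conv ha hb hab (mK S K) (x.ξ K) (y.ξ K)
    have c2 := mul_le_mul_of_nonneg_left (hx.xb K) ha
    have c3 := mul_le_mul_of_nonneg_left (hy.xb K) hb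
    refine c1.trans ((add_le_add c2 c3).trans (le_of_eq ?_))
    rw [← add_mul, hab, one_mul]
  · simp only [e4, hx.sp K u w, hy.sp K u w]
  · simp only [e4, hx.se K u, hy.se K u]

theorem zero (h3 : S_Dn) (S : Sys) : XX S 0 := by
  obtain ⟨C, -, hD⟩ := h3
  have t0 := fun K => (tt_pos (mK S K)).le
  refine ⟨⟨fun _ _ _ => ⟨rfl, rfl⟩, fun _ _ _ => ⟨rfl, rfl⟩, fun _ => ts_zero _, fun _ => ts_zero _⟩,
    fun _ _ => ⟨neg_zero.symm, rfl⟩, fun T => ?_, fun _ _ _ => rfl, fun _ _ => neg_zero.symm,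
    fun K => ?_, fun _ _ _ => rfl, fun _ _ => rfl, fun K _ => ?_, fun K => ?_, fun K => ?_⟩
  · refine (Finset.sum_eq_zero fun K _ => ?_).trans_le zero_le_one
    have c1 : sT S (0 : Cfg).v K = fun _ => 0 := funext fun u => by simp [sT]
    have c2 : eT S (0 : Cfg).v K = fun _ => 0 := rfl
    have c3 := (hD (lvT S K).m (fun _ => 0) (Nat.le_add_left _ _) (fun _ _ => rfl)
      (ts_zero _)).2.2.2.2.1 0
    rw [nT, c1, c2]
    simp only [zero_mul, abs_zero] at c3
    simp [nb2, g2, msq, av, c3]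
  · refine le_trans (le_of_eq ?_) (sq_nonneg _)
    change g2 _ (fun _ => 0) = 0
    simp [g2, msq, av]
  all_goals exact norm_zero.trans_le (pow_nonneg (t0 K) _)

theorem closed (h1 : S_Par) (h3 : S_Dn) (h5 : S_Dip) (S : Sys) (hS : S.ok) :
    IsClosed {x | XX S x} := by
  have v1 : ∀ k z, Continuous fun x : Cfg => x.v.1 k z := fun k z => by fun_prop
  have v2 : ∀ k z, Continuous fun x : Cfg => x.v.2 k z := fun k z => by fun_prop
  have v3 : ∀ k z, Continuous fun x : Cfg => x.ξ k z := fun k z => by fun_prop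
  have v4 : ∀ k z, Continuous fun x : Cfg => x.s k z := fun k z => by fun_prop
  have v5 : ∀ k, Continuous fun x : Cfg => x.μ k := fun k => by fun_prop
  have v6 : ∀ k, Continuous fun x : Cfg => x.l k := fun k => by fun_prop
  have all : ∀ {ι : Type} {p : ι → Cfg → Prop}, (∀ i, IsClosed {x | p i x}) →
      IsClosed {x | ∀ i, p i x} := fun h => by
    rw [ofPred_forall]
    exact isClosed_iInter h
  have a1 : IsClosed {x : Cfg | Adm S x.v} := by
    have : {x : Cfg | Adm S x.v} = {x | (∀ k, ∀ z : {z // ∀ w, z ≠ lp S k w},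
        x.v.1 k z = 0 ∧ x.v.2 k z = 0) ∧
        (∀ k z (w : GI), x.v.1 k (z + w) = x.v.1 k z ∧ x.v.2 k (z + w) = x.v.2 k z) ∧
        (∀ k, ts (S.st k) (fun w => x.v.1 k (lp S k w)) = 0) ∧
        ∀ k, ts (S.st k) (fun w => x.v.2 k (lp S k w)) = 0} :=
      Set.ext fun x => ⟨fun h => ⟨fun k z => h.off k z z.2, h.per, h.m1, h.m2⟩,
        fun h => ⟨fun k z hz => h.1 k ⟨z, hz⟩, h.2.1, h.2.2.1, h.2.2.2⟩⟩
    rw [this]
    exact (all fun k => all fun z => (isClosed_eq (v1 _ _) continuous_const).and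
      (isClosed_eq (v2 _ _) continuous_const)).and ((all fun k => all fun z => all fun w =>
      (isClosed_eq (v1 _ _) (v1 _ _)).and (isClosed_eq (v2 _ _) (v2 _ _))).and
      ((all fun k => isClosed_eq (cont_ts _ fun w => v1 _ _) continuous_const).and
      (all fun k => isClosed_eq (cont_ts _ fun w => v2 _ _) continuous_const)))
  have a2 : ∀ K, ContinuousOn (fun x : Cfg => nT S x.v K) {x | Adm S x.v} := fun K => by
    have c1 : ∀ u, Continuous fun x : Cfg => sT S x.v K u := fun u => by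
      unfold sT
      split_ifs
      exacts [continuous_const, v2 _ _]
    have c3 := h1 S hS K
    refine (((cont_g2 _ (F := fun x : Cfg => eT S x.v K) fun u => v1 _ _).div_const _).add
      (continuous_const.mul (cont_msq _ fun u => continuous_ofReal.comp (c1 u)))).continuousOn.add
      ((cont_dn h3 c3.1.1 (fun u => (continuous_const.mul (c1 u)).div_const _)
        fun x hx => ?_).pow 2)
    exact dens1 (h5 _ c3.1).2.2.1 (c3.2.2.2.2.2.2.2.2.2 _ hx).1
  have : {x | XX S x} = {x | (∀ T : Finset ℤ, Adm S x.v ∧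
      ∑ K ∈ T, nT S x.v K / tt (mK S K) ^ 40 ≤ 1) ∧
      (∀ k z, x.v.1 k (-z) = -x.v.1 k z ∧ x.v.2 k (-z) = x.v.2 k z) ∧
      (∀ K u w, x.ξ K (u + om ^ mK S K * w) = x.ξ K u) ∧ (∀ K u, x.ξ K (-u) = -x.ξ K u) ∧
      (∀ K, g2 (mK S K) (x.ξ K) ≤ (dd (mK S K) * tt (mK S K) ^ 29) ^ 2) ∧
      (∀ K u w, x.s K (u + om ^ mK S K * w) = x.s K u) ∧ (∀ K u, x.s K (-u) = x.s K u) ∧
      (∀ K u, ‖x.s K u‖ ≤ tt (mK S K) ^ 29) ∧ (∀ K, ‖x.μ K‖ ≤ tt (mK S K) ^ 30) ∧
      ∀ K, ‖x.l K‖ ≤ tt (mK S K) ^ 30} :=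
    Set.ext fun x => ⟨fun h => ⟨fun T => ⟨h.adm, h.nb T⟩, h.sym, h.xp, h.xo, h.xb, h.sp, h.se, h.sb,
      h.mb, h.lb⟩, fun ⟨b1, b2, b3, b4, b5, b6, b7, b8, b9, b10⟩ =>
      ⟨(b1 ∅).1, b2, fun T => (b1 T).2, b3, b4, b5, b6, b7, b8, b9, b10⟩⟩
  rw [this]
  exact (all fun T => a1.isClosed_le
      (continuousOn_finsetSum _ fun K _ => (a2 K).div_const _) continuousOn_const).and
    ((all fun k => all fun z => (isClosed_eq (v1 _ _) (v1 _ _).neg).and
      (isClosed_eq (v2 _ _) (v2 _ _))).and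
    ((all fun K => all fun u => all fun w => isClosed_eq (v3 _ _) (v3 _ _)).and
    ((all fun K => all fun u => isClosed_eq (v3 _ _) (v3 _ _).neg).and
    ((all fun K => isClosed_le (cont_g2 _ (v3 K)) continuous_const).and
    ((all fun K => all fun u => all fun w => isClosed_eq (v4 _ _) (v4 _ _)).and
    ((all fun K => all fun u => isClosed_eq (v4 _ _) (v4 _ _)).and
    ((all fun K => all fun u => isClosed_le (v4 _ _).norm continuous_const).and
    ((all fun K => isClosed_le (v5 _).norm continuous_const).and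
    (all fun K => isClosed_le (v6 _).norm continuous_const)))))))))

theorem bounds (h1 : S_Par) (h4 : S_Box) {C : ℝ} (hC : 0 < C)
    (h2 : ∀ (m : ℕ) (ε : GI → ℂ), 2 ≤ m → Per m ε →
      (∀ u w, ‖ε u - ε w‖ ≤ C * m * √(g2 m ε) / dd m) ∧
      (ts m (fun u => if Odd u.im ∧ Odd u.re then ε u else 0) = 0 →
        ∀ u, ‖ε u‖ ≤ C * m * √(g2 m ε) / dd m))
    (S : Sys) (hS : S.ok) {x : Cfg} (hx : XX S x) (K : ℤ) :
    (∀ z, ‖x.v.1 K z‖ ≤ C * mK S K ∧ ‖x.v.2 K z‖ ≤ 1 / dd (mK S K)) ∧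
      ∀ u, ‖x.ξ K u‖ ≤ C * mK S K := by
  have hd := dd_pos (mK S K)
  have hm : 2 ≤ mK S K := Nat.le_add_left _ _
  have hm' : (2 : ℝ) ≤ mK S K := by exact_mod_cast hm
  have t1 : ∀ n, tt (mK S K) ^ n ≤ 1 := fun n => pow_le_one₀ (tt_pos _).le (tt_le_one _)
  have key : ∀ {y : ℝ} {ε : GI → ℂ}, g2 (mK S K) ε ≤ dd (mK S K) ^ 2 →
      y ≤ C * mK S K * √(g2 (mK S K) ε) / dd (mK S K) → y ≤ C * mK S K := fun h h' => by
    refine h'.trans ?_
    rw [div_le_iff₀ hd]
    exact mul_le_mul_of_nonneg_left (Real.sqrt_le_iff.2 ⟨hd.le, h⟩) (by positivity)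
  refine ⟨fun z => ?_, fun u => ?_⟩
  · by_cases hz : ∀ w, z ≠ lp S K w
    · rw [(hx.adm.off K z hz).1, (hx.adm.off K z hz).2, norm_zero, norm_zero]
      exact ⟨by positivity, by positivity⟩
    · push Not at hz
      obtain ⟨w, rfl⟩ := hz
      obtain ⟨-, -, -, -, -, -, -, c1, -, c2⟩ := h1 S hS K
      obtain ⟨-, u, c3, c4⟩ := c1 w
      obtain ⟨c5, c6, -⟩ := c2 _ hx.adm
      have d1 : nbr (lvT S K).τ u = u := if_neg fun h => c3.ne (by rw [q0, h, mul_zero])
      have d2 : lk S K u = K := if_neg c3.not_gt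
      have d3 : eT S x.v K u = x.v.1 K (lp S K w) := by rw [eT, d1, d2, c4]
      have d4 : sT S x.v K u = x.v.2 K (lp S K w) := by rw [sT, if_neg c3.ne, d2, c4]
      have d5 := hx.nb {K}
      rw [Finset.sum_singleton, div_le_one (pow_pos (tt_pos _) _)] at d5
      have d6 : g2 (mK S K) (eT S x.v K) / dd (mK S K) ^ 2 +
          mK S K * msq (mK S K) (fun u => (sT S x.v K u : ℂ)) ≤ 1 :=
        (le_add_of_nonneg_right (sq_nonneg _)).trans (d5.trans (t1 40))
      have d7 := msq_nonneg (mK S K) fun u => (sT S x.v K u : ℂ)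
      have d8 := div_nonneg (g2_nonneg (mK S K) (eT S x.v K)) (sq_nonneg (dd (mK S K)))
      constructor
      · rw [← d3]
        refine key ((div_le_one (pow_pos hd 2)).1 ?_) ((h2 _ _ hm c5.pe).2 c6 u)
        nlinarith
      · have d9 := (h4 (mK S K)).2.2.2.2.2.2.2 (fun u => (sT S x.v K u : ℂ))
          (fun u w => congrArg ofReal (c5.ps u w)) u
        rw [← d4, ← norm_real]
        refine le_of_sq_le_sq (d9.trans ?_) (by positivity)
        rw [div_pow, one_pow]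
        exact div_le_div_of_nonneg_right (by nlinarith) (sq_nonneg _)
  · have d1 : x.ξ K 0 = 0 := by
      have := hx.xo K 0
      rw [neg_zero] at this
      exact self_eq_neg.1 this
    have d2 := (h2 _ _ hm (hx.xp K)).1 u 0
    rw [d1, sub_zero] at d2
    refine key ((hx.xb K).trans ?_) d2
    exact pow_le_pow_left₀ (mul_pos hd (pow_pos (tt_pos _) _)).le
      (mul_le_of_le_one_right hd.le (t1 29)) 2

end CptP

open CptP

theorem pCpt (h1 : S_Par) (h2 : S_Poin) (h3 : S_Dn) (h4 : S_Box) (h5 : S_Dip) : S_Cpt := by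
  intro S hS
  refine ⟨?_, convex h1 h3 h5 S hS, zero h3 S⟩
  obtain ⟨C, hC, h2⟩ := h2
  have b1 := fun x hx => bounds h1 h4 hC
    (fun m ε hm hε => ⟨(h2 m ε hm hε).2.1, fun h => ((h2 m ε hm hε).2.2 h).2⟩) S hS (x := x) hx
  refine IsCompact.of_isClosed_subset
    (((isCompact_univ_pi fun K : ℤ => isCompact_univ_pi fun _ : ℂ =>
        isCompact_closedBall (0 : ℂ) (C * mK S K)).prod
      (isCompact_univ_pi fun K : ℤ => isCompact_univ_pi fun _ : ℂ =>
        isCompact_closedBall (0 : ℝ) (1 / dd (mK S K)))).prod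
    ((isCompact_univ_pi fun K : ℤ => isCompact_univ_pi fun _ : GI =>
        isCompact_closedBall (0 : ℂ) (C * mK S K)).prod
    ((isCompact_univ_pi fun K : ℤ => isCompact_univ_pi fun _ : GI =>
        isCompact_closedBall (0 : ℂ) (tt (mK S K) ^ 29)).prod
    ((isCompact_univ_pi fun K : ℤ => isCompact_closedBall (0 : ℂ) (tt (mK S K) ^ 30)).prod
      (isCompact_univ_pi fun K : ℤ => isCompact_closedBall (0 : ℂ) (tt (mK S K) ^ 30))))))
    (closed h1 h3 h5 S hS) fun x hx => ?_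
  replace hx : XX S x := hx
  exact ⟨⟨fun K _ z _ => mem_closedBall_zero_iff.2 ((b1 x hx K).1 z).1,
    fun K _ z _ => mem_closedBall_zero_iff.2 ((b1 x hx K).1 z).2⟩,
    fun K _ u _ => mem_closedBall_zero_iff.2 ((b1 x hx K).2 u),
    fun K _ u _ => mem_closedBall_zero_iff.2 (hx.sb K u),
    fun K _ => mem_closedBall_zero_iff.2 (hx.mb K), fun K _ => mem_closedBall_zero_iff.2 (hx.lb K)⟩

end Pool.Agent.P.MP_cc4a10_gt
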