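import Pool.Agent.P.MP_cc4a10_gt.St

/-!
Cutting off a vector along the levels.
-/

open Set Filter Topology Complex
open scoped ComplexConjugate Real

noncomputable section

namespace Pool.Agent.P.MP_cc4a10_gt

namespace CutP

variable {S : Sys} {K : ℤ} {v : Vec} {χ : ℤ → ℝ} {l : Lv} {ε ε' ε₁ : GI → ℂ} {σ σ' σ₁ : GI → ℝ}

theorem adm (hv : Adm S v) (χ : ℤ → ℝ) : Adm S (cut χ v) := by
  refine ⟨fun k z h => ?_, fun k z w => ?_, fun k => ?_, fun k => ?_⟩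
  · simp [cut, (hv.off k z h).1, (hv.off k z h).2]
  · simp [cut, (hv.per k z w).1, (hv.per k z w).2]
  · simp only [cut]; rw [ts_mul_left, hv.m1, mul_zero]
  · simp only [cut]; rw [ts_mul_left_real, hv.m2, mul_zero]

/-- The indicator of layer `K`. -/
def id1 (K : ℤ) (k : ℤ) : ℝ := if k = K then 1 else 0

theorem chi_lk (χ : ℤ → ℝ) (u : GI) :
    χ (lk S K u) = χ (K - 1) + (χ K - χ (K - 1)) * id1 K (lk S K u) := by
  unfold lk id1
  split_ifs with h1 h2 h2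
  · omega
  · ring
  · ring
  · exact absurd rfl h2

theorem eT_cut (χ : ℤ → ℝ) : eT S (cut χ v) K = fun u => (χ (K - 1) : ℂ) * eT S v K u +
    ((χ K - χ (K - 1) : ℝ) : ℂ) * eT S (cut (id1 K) v) K u := funext fun u => by
  simp only [eT, cut]; rw [chi_lk χ]; push_cast; ring

theorem sT_cut (χ : ℤ → ℝ) : sT S (cut χ v) K = fun u => χ (K - 1) * sT S v K u +
    (χ K - χ (K - 1)) * sT S (cut (id1 K) v) K u := funext fun u => by
  simp only [sT, cut]; split_ifs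
  · ring
  · rw [chi_lk χ]; ring

theorem BL_left (E : Ell) (a b : ℝ) :
    BL E l (fun u => (a : ℂ) * ε u + (b : ℂ) * ε₁ u) (fun u => a * σ u + b * σ₁ u) ε' σ' =
      a * BL E l ε σ ε' σ' + b * BL E l ε₁ σ₁ ε' σ' := by
  have h1 : ∀ u, Rlin E l (fun u => (a : ℂ) * ε u + (b : ℂ) * ε₁ u) (fun u => a * σ u + b * σ₁ u) u =
      a * Rlin E l ε σ u + b * Rlin E l ε₁ σ₁ u := fun u => by
    simp only [Rlin, ← ts_mul_left, ← ts_add]
    refine congrArg _ (funext fun w => ?_)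
    simp only [map_sub, map_add, map_mul, conj_ofReal]
    push_cast; ring
  have h2 : ∀ u, hlin E l (fun u => (a : ℂ) * ε u + (b : ℂ) * ε₁ u) (fun u => a * σ u + b * σ₁ u) u =
      a * hlin E l ε σ u + b * hlin E l ε₁ σ₁ u := fun u => by
    simp only [hlin, ← ts_mul_left_real, ← ts_add]
    refine congrArg _ (funext fun w => ?_)
    simp only [mul_re, sub_re, sub_im, add_re, add_im, mul_im, ofReal_re, ofReal_im]
    ring
  simp only [BL, pair, Flin, Glin, h1, h2, ← ts_mul_left_real, ← ts_add]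
  refine congrArg _ (funext fun w => ?_)
  simp only [mul_re, add_re, add_im, mul_im, ofReal_re, ofReal_im]
  ring

theorem BL_right (E : Ell) (a b : ℝ) :
    BL E l ε' σ' (fun u => (a : ℂ) * ε u + (b : ℂ) * ε₁ u) (fun u => a * σ u + b * σ₁ u) =
      a * BL E l ε' σ' ε σ + b * BL E l ε' σ' ε₁ σ₁ := by
  simp only [BL, pair, ← ts_mul_left_real, ← ts_add]
  refine congrArg _ (funext fun w => ?_)
  simp only [mul_re, add_re, add_im, mul_im, ofReal_re, ofReal_im]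
  ring

theorem msq_lin (m : ℕ) (a b : ℝ) (f g : GI → ℂ) :
    msq m (fun u => (a : ℂ) * f u + (b : ℂ) * g u) ≤ 2 * a ^ 2 * msq m f + 2 * b ^ 2 * msq m g := by
  refine (msq_add_le m _ _).trans_eq ?_
  rw [msq_mul, msq_mul, norm_real, norm_real, Real.norm_eq_abs, Real.norm_eq_abs, sq_abs, sq_abs]
  ring

theorem rho_ok (hq : Per l.m (q0 l)) (h : LV l ε σ) :
    Per l.m (fun u => q0 l u * σ u / dd l.m ^ 2) ∧
      ts l.m (fun u => q0 l u * σ u / dd l.m ^ 2) = 0 := by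
  refine ⟨fun u w => by simp only [hq u w, h.ps u w], ?_⟩
  simp only [div_eq_inv_mul]
  rw [ts_mul_left_real, h.neu, mul_zero]

theorem nb2_nonneg (l : Lv) (ε : GI → ℂ) (σ : GI → ℝ) : 0 ≤ nb2 l ε σ :=
  add_nonneg (add_nonneg (div_nonneg (g2_nonneg _ _) (sq_nonneg _))
    (mul_nonneg (Nat.cast_nonneg _) (msq_nonneg _ _))) (sq_nonneg _)

theorem nb2_lin (hN : S_Dn) (hm : 2 ≤ l.m) (hq : Per l.m (q0 l)) (h : LV l ε σ) (h₁ : LV l ε₁ σ₁)
    (a b : ℝ) : nb2 l (fun u => (a : ℂ) * ε u + (b : ℂ) * ε₁ u) (fun u => a * σ u + b * σ₁ u) ≤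
      2 * a ^ 2 * nb2 l ε σ + 2 * b ^ 2 * nb2 l ε₁ σ₁ := by
  obtain ⟨C, -, hN⟩ := hN
  obtain ⟨p1, p2⟩ := rho_ok hq h
  obtain ⟨p3, p4⟩ := rho_ok hq h₁
  have h1 : g2 l.m (fun u => (a : ℂ) * ε u + (b : ℂ) * ε₁ u) ≤
      2 * a ^ 2 * g2 l.m ε + 2 * b ^ 2 * g2 l.m ε₁ := by
    have e : ∀ g, msq l.m (fun u => (a : ℂ) * ε (u + g) + (b : ℂ) * ε₁ (u + g) -
        ((a : ℂ) * ε u + (b : ℂ) * ε₁ u)) ≤ _ := fun g => (congrArg _ (funext fun u => by ring)).trans_le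
      (msq_lin l.m a b (fun u => ε (u + g) - ε u) fun u => ε₁ (u + g) - ε₁ u)
    unfold g2
    linarith [e 1, e gi]
  have h2 : msq l.m (fun u => ((a * σ u + b * σ₁ u : ℝ) : ℂ)) ≤ _ :=
    (congrArg _ (funext fun u => by push_cast; rfl)).trans_le
      (msq_lin l.m a b (fun u => σ u) fun u => σ₁ u)
  have q1 : ∀ (c : ℝ) (ρ : GI → ℝ), Per l.m ρ → Per l.m fun u => c * ρ u := fun c ρ h u w => by
    simp only [h u w]
  have q2 : ∀ (c : ℝ) (ρ : GI → ℝ), ts l.m ρ = 0 → ts l.m (fun u => c * ρ u) = 0 := fun c ρ h => by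
    rw [ts_mul_left_real, h, mul_zero]
  have h3 := (hN _ _ hm (q1 a _ p1) (q2 a _ p2)).2.2.2.2.2.1 _ (q1 b _ p3) (q2 b _ p4)
  rw [(hN _ _ hm p1 p2).2.2.2.2.1, (hN _ _ hm p3 p4).2.2.2.2.1] at h3
  have h4 := (hN _ (fun u => a * (q0 l u * σ u / dd l.m ^ 2) + b * (q0 l u * σ₁ u / dd l.m ^ 2)) hm
    (fun u w => congrArg₂ (· + ·) (q1 a _ p1 u w) (q1 b _ p3 u w))
    (by rw [ts_add, q2 a _ p2, q2 b _ p4, add_zero])).1
  have h5 := pow_le_pow_left₀ h4 h3 2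
  unfold nb2
  rw [show (fun u => q0 l u * (a * σ u + b * σ₁ u) / dd l.m ^ 2) = fun u =>
    a * (q0 l u * σ u / dd l.m ^ 2) + b * (q0 l u * σ₁ u / dd l.m ^ 2) from funext fun u => by ring,
    ← sq_abs a, ← sq_abs b]
  rw [← sq_abs a, ← sq_abs b] at h1 h2
  have h6 := div_le_div_of_nonneg_right h1 (sq_nonneg (dd l.m))
  have h7 := mul_le_mul_of_nonneg_left h2 (Nat.cast_nonneg (α := ℝ) l.m)
  rw [add_div, mul_div_assoc, mul_div_assoc] at h6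
  nlinarith [sq_nonneg (|a| * dn l.m (fun u => q0 l u * σ u / dd l.m ^ 2) -
    |b| * dn l.m fun u => q0 l u * σ₁ u / dd l.m ^ 2)]

theorem nb2_part (hP : S_Poin) (hN : S_Dn) (hD : S_Dip) : ∃ C : ℝ, 0 < C ∧ ∀ (l : Lv)
    (ε ε₁ : GI → ℂ) (σ σ₁ : GI → ℝ), l.ok → LV l ε σ → LV l ε₁ σ₁ → M0 l ε →
    (∀ u, ‖ε₁ u‖ ≤ ‖ε u‖) → (∀ u, |σ₁ u| ≤ |σ u|) → nb2 l ε₁ σ₁ ≤ C ^ 2 * nb2 l ε σ / dd l.m ^ 2 := by
  obtain ⟨A, hA, hP⟩ := hP
  obtain ⟨B, hB, hN⟩ := hN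
  refine ⟨3 * A + 4 * B + 1, by positivity, fun l ε ε₁ σ σ₁ hl h h₁ h0 e1 e2 => ?_⟩
  obtain ⟨-, -, hq, -, -, -, hq4, -⟩ := hD l hl
  obtain ⟨p1, p2⟩ := rho_ok hq h₁
  have d0 := dd_pos l.m
  have d1 : dd l.m ^ 2 ≤ 1 := pow_le_one₀ d0.le (dd_le_one _)
  have m1 : (1 : ℝ) ≤ l.m := by exact_mod_cast le_trans one_le_two hl.1
  have h1 : g2 l.m ε₁ ≤ 8 * (A ^ 2 * g2 l.m ε / dd l.m ^ 2) := by
    have e : ∀ g, msq l.m (fun u => ε₁ (u + g) - ε₁ u) ≤ 4 * msq l.m ε₁ := fun g => by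
      have := msq_lin l.m 1 (-1) (fun u => ε₁ (u + g)) ε₁
      rw [msq_shift h₁.pe] at this
      simp only [ofReal_one, one_mul, ofReal_neg, neg_mul, ← sub_eq_add_neg] at this
      linarith
    unfold g2 at *
    linarith [e 1, e gi, msq_mono l.m e1, ((hP l.m ε hl.1 h.pe).2.2 h0).1]
  have h2 : msq l.m (fun u => (σ₁ u : ℂ)) ≤ msq l.m (fun u => (σ u : ℂ)) :=
    msq_mono _ fun u => by simpa using e2 u
  have s0 := msq_nonneg l.m fun u => (σ u : ℂ)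
  have h3 : dn l.m (fun u => q0 l u * σ₁ u / dd l.m ^ 2) ^ 2 ≤
      B ^ 2 * (16 * msq l.m (fun u => (σ u : ℂ))) / dd l.m ^ 2 := by
    refine (pow_le_pow_left₀ (hN _ _ hl.1 p1 p2).1 (hN _ _ hl.1 p1 p2).2.2.2.1 2).trans ?_
    rw [div_pow, mul_pow, Real.sq_sqrt (msq_nonneg _ _)]
    gcongr
    refine (msq_mono _ (G := fun u => (4 : ℂ) * σ u) fun u => ?_).trans_eq
      ((msq_mul _ _ _).trans (by norm_num))
    rw [norm_real, norm_mul, norm_real, Real.norm_eq_abs, Real.norm_eq_abs, abs_div, abs_mul,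
      abs_of_pos (pow_pos d0 2), div_le_iff₀ (pow_pos d0 2), norm_ofNat]
    nlinarith [mul_le_mul (hq4 u) (e2 u) (abs_nonneg _) (by positivity)]
  have g0 : 0 ≤ g2 l.m ε / dd l.m ^ 2 := div_nonneg (g2_nonneg _ _) (sq_nonneg _)
  have h4 : l.m * msq l.m (fun u => (σ₁ u : ℂ)) ≤ l.m * msq l.m (fun u => (σ u : ℂ)) / dd l.m ^ 2 :=
    (mul_le_mul_of_nonneg_left h2 (by linarith)).trans (le_div_self (by positivity) (pow_pos d0 2) d1)
  unfold nb2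
  refine (add_le_add (add_le_add (div_le_div_of_nonneg_right h1 (sq_nonneg _)) h4) h3).trans ?_
  rw [← add_div, ← add_div, mul_div_assoc]
  refine div_le_div_of_nonneg_right ?_ (sq_nonneg _)
  have h5 : msq l.m (fun u => (σ u : ℂ)) ≤ l.m * msq l.m (fun u => (σ u : ℂ)) :=
    le_mul_of_one_le_left s0 m1
  have c1 : 8 * A ^ 2 ≤ (3 * A + 4 * B + 1) ^ 2 := by nlinarith [mul_pos hA hB]
  have c2 : 16 * B ^ 2 + 1 ≤ (3 * A + 4 * B + 1) ^ 2 := by nlinarith [mul_pos hA hB]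
  nlinarith [mul_le_mul_of_nonneg_right c1 g0, mul_le_mul_of_nonneg_right c2 (s0.trans h5),
    mul_le_mul_of_nonneg_left h5 (sq_nonneg B),
    mul_nonneg (sq_nonneg (3 * A + 4 * B + 1)) (sq_nonneg (dn l.m fun u => q0 l u * σ u / dd l.m ^ 2))]

theorem id1_le (K k : ℤ) : |id1 K k| ≤ 1 := by unfold id1; split_ifs <;> simp

end CutP

open CutP in
theorem pCut (hP : S_Par) (hB : S_Bdd) (hPo : S_Poin) (hN : S_Dn) (hD : S_Dip) : S_Cut := by
  intro E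
  obtain ⟨B, m0, hB0, hB⟩ := hB E
  obtain ⟨A, hA, hA'⟩ := nb2_part hPo hN hD
  refine ⟨2 + 2 * A ^ 2 + 2 * B * A, m0, by positivity, fun S χ v hS hb hv =>
    ⟨adm hv χ, fun K h c1 c2 c3 c4 => ?_⟩⟩
  obtain ⟨hl, -, -, -, -, -, -, -, -, hV⟩ := hP S hS K
  have hq := (hD _ hl).2.2.1
  have d0 := dd_pos (mK S K)
  have hm : m0 ≤ (lvT S K).m := by
    have := hb (K - 1)
    have := hb K
    simp only [lvT, jl]; omega
  have h1 : ∀ w, Adm S w → nT S (cut (id1 K) w) K ≤ A ^ 2 * nT S w K / dd (mK S K) ^ 2 := fun w hw =>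
    hA' _ _ _ _ _ hl (hV w hw).1 (hV _ (adm hw _)).1 (hV w hw).2.1 (fun u => by
      simp only [eT, cut, norm_mul, norm_real]
      exact mul_le_of_le_one_left (norm_nonneg _) (id1_le _ _)) fun u => by
      simp only [sT, cut]
      split_ifs
      · rfl
      · rw [abs_mul]; exact mul_le_of_le_one_left (abs_nonneg _) (id1_le _ _)
  have h2 := nb2_lin hN hl.1 hq (hV v hv).1 (hV _ (adm hv (id1 K))).1 (χ (K - 1)) (χ K - χ (K - 1))
  rw [← eT_cut, ← sT_cut] at h2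
  have n0 : ∀ w, 0 ≤ nT S w K := fun w => nb2_nonneg _ _ _
  refine ⟨h2.trans ?_, fun e1 e2 => ?_, fun e1 e2 => ⟨le_antisymm (h2.trans_eq ?_) (n0 _), fun v' => ?_⟩,
    fun v' hv' => ?_⟩
  · have a1 : χ (K - 1) ^ 2 ≤ 1 := (sq_le_one_iff_abs_le_one _).2 c2
    have a2 : (χ K - χ (K - 1)) ^ 2 ≤ dd (mK S K) ^ 2 := sq_le_sq' (by
      linarith [(abs_le.1 (c3.trans c4)).1]) (abs_le.1 (c3.trans c4)).2
    have a3 := mul_le_mul a2 (h1 v hv) (n0 _) (sq_nonneg _)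
    rw [mul_div_cancel₀ _ (pow_pos d0 2).ne'] at a3
    change 2 * _ * nT S v K + 2 * _ * nT S (cut (id1 K) v) K ≤ _
    nlinarith [mul_le_mul_of_nonneg_right a1 (n0 v), mul_nonneg (mul_pos hB0 hA).le (n0 v)]
  · simp [nT, eT_cut χ, sT_cut χ, e1, e2]
  · simp [e1, e2]
  · rw [BT, BT, eT_cut χ, sT_cut χ, BL_left, BL_right, e1, e2]
    simp
  have h3 : ∀ w, Adm S w → √(nT S (cut (id1 K) w) K) ≤ A * √(nT S w K) / dd (mK S K) := fun w hw =>
    Real.sqrt_le_iff.2 ⟨by positivity, by rw [div_pow, mul_pow, Real.sq_sqrt (n0 w)]; exact h1 w hw⟩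
  have h4 := hB _ hl hm _ _ _ _ (hV _ (adm hv (id1 K))).1 (hV v' hv').1
  have h5 := hB _ hl hm _ _ _ _ (hV v hv).1 (hV _ (adm hv' (id1 K))).1
  rw [BT, BT, eT_cut χ, sT_cut χ, eT_cut χ, sT_cut χ, BL_left, BL_right, add_sub_add_left_eq_sub,
    ← mul_sub, abs_mul]
  have h0 : 0 ≤ h := (abs_nonneg _).trans c3
  calc _ ≤ h * (B * mK S K * dd (mK S K) ^ 2 * (A * √(nT S v K) / dd (mK S K) * √(nT S v' K)) +
        B * mK S K * dd (mK S K) ^ 2 * (√(nT S v K) * (A * √(nT S v' K) / dd (mK S K)))) :=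
        mul_le_mul c3 ((abs_sub _ _).trans (add_le_add
          (h4.trans (mul_le_mul_of_nonneg_left (mul_le_mul_of_nonneg_right (h3 v hv)
            (Real.sqrt_nonneg _)) (by positivity)))
          (h5.trans (mul_le_mul_of_nonneg_left (mul_le_mul_of_nonneg_left (h3 v' hv')
            (Real.sqrt_nonneg _)) (by positivity))))) (abs_nonneg _) h0
    _ = 2 * B * A * mK S K * dd (mK S K) * h * (√(nT S v K) * √(nT S v' K)) := by field_simp; ring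
    _ ≤ _ := by gcongr; exact le_add_of_nonneg_left (by positivity)

end Pool.Agent.P.MP_cc4a10_gt
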