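import Pool.Agent.P.MP_cc4a10_gt.Geo

/-!
Definitions for the construction: lattice sums, elliptic kernels, one level, the layered system,
the Cousin series and the fixed point map.
-/

open Set Filter Topology Complex
open scoped ComplexConjugate Real

noncomputable section

namespace Pool.Agent.P.MP_cc4a10_gt

abbrev GI := GaussianInt

/-- The Gaussian integer `i`. -/
def gi : GI := ⟨0, 1⟩
/-- The Gaussian integer `1 + i`. -/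
def om : GI := ⟨1, 1⟩

/-- Sum over the Gaussian integers modulo `(1+i)^m`, for functions with that period. -/
def ts {V : Type*} [AddCommGroup V] [Module ℝ V] (m : ℕ) (F : GI → V) : V :=
  ((2 : ℝ) ^ m)⁻¹ • ∑ a ∈ Finset.range (2 ^ m), ∑ b ∈ Finset.range (2 ^ m), F ⟨a, b⟩
/-- Mean value. -/
def av {V : Type*} [AddCommGroup V] [Module ℝ V] (m : ℕ) (F : GI → V) : V :=
  ((2 : ℝ) ^ m)⁻¹ • ts m F
def Per {V : Type*} (m : ℕ) (F : GI → V) : Prop := ∀ u w, F (u + om ^ m * w) = F u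
def msq (m : ℕ) (F : GI → ℂ) : ℝ := av m (fun u => ‖F u‖ ^ 2)
def g2 (m : ℕ) (F : GI → ℂ) : ℝ :=
  msq m (fun u => F (u + 1) - F u) + msq m (fun u => F (u + gi) - F u)
/-- Dual norm of a neutral density. -/
def dn (m : ℕ) (ρ : GI → ℝ) : ℝ :=
  sSup {x | ∃ f : GI → ℂ, Per m f ∧ g2 m f ≤ 1 ∧ x = ‖av m (fun u => (ρ u : ℂ) * f u)‖}
/-- Short representative modulo the period and the weight built from it. -/
def mr (m : ℕ) (u : GI) : GI := u % om ^ m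
def Hh (m : ℕ) (u : GI) : ℝ := 1 + ‖((mr m u : GI) : ℂ)‖

def dd (m : ℕ) : ℝ := (2 : ℝ) ^ (-(m : ℝ) / 2)
def tt (m : ℕ) : ℝ := (2 : ℝ) ^ (-(m : ℝ) / 32)
def rho (m : ℕ) : ℝ := dd m / m
def rho1 (m : ℕ) : ℝ := dd m * tt m

def Lm (μ z : ℂ) : ℂ := z + μ * conj z
def bE (μ : ℂ) : ℝ := π / (1 - ‖μ‖ ^ 2)

/-- Periodic kernels of the lattices `Lm μ (Z[i])`. -/
structure Ell where
  F : ℂ → ℂ → ℂ
  Z : ℂ → ℂ → ℂ
  Gr : ℂ → ℂ → ℝ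
  wp : ℂ → ℂ
  CF : ℝ
  hol : ∀ μ, ‖μ‖ ≤ 1 / 100 → DifferentiableOn ℂ (F μ) (Metric.ball 0 (19 / 20))
  bd : ∀ μ, ‖μ‖ ≤ 1 / 100 → ∀ w, ‖w‖ < 19 / 20 → ‖F μ w‖ ≤ CF
  lip : ∀ μ ν, ‖μ‖ ≤ 1 / 100 → ‖ν‖ ≤ 1 / 100 → ∀ w, ‖w‖ < 19 / 20 →
    ‖F μ w - F ν w‖ ≤ CF * ‖μ - ν‖
  even : ∀ μ w, F μ (-w) = F μ w
  zero : ∀ μ, F μ 0 = 0
  rot : ∀ w, F 0 (I * w) = F 0 w
  cj : ∀ w, F 0 (conj w) = conj (F 0 w)
  Zloc : ∀ μ, ‖μ‖ ≤ 1 / 100 → ∀ w, ‖w‖ < 9 / 10 →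
    Z μ w = w⁻¹ + deriv (F μ) w - bE μ * conj w
  Gloc : ∀ μ, ‖μ‖ ≤ 1 / 100 → ∀ w, ‖w‖ < 9 / 10 →
    Gr μ w = Real.log ‖w‖ + (F μ w).re - bE μ * ‖w‖ ^ 2 / 2
  Wloc : ∀ w, ‖w‖ < 9 / 10 → wp w = w⁻¹ ^ 2 - deriv (deriv (F 0)) w
  Zper : ∀ μ, ‖μ‖ ≤ 1 / 100 → ∀ w (u : GI), Z μ (w + Lm μ u) = Z μ w
  Gper : ∀ μ, ‖μ‖ ≤ 1 / 100 → ∀ w (u : GI), Gr μ (w + Lm μ u) = Gr μ w
  Wper : ∀ w (u : GI), wp (w + u) = wp w

/-! ### One level -/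

/-- Charge pattern on the cells. -/
def pat (τ : ℝ) (u : GI) : ℝ :=
  if Odd u.im then (if Odd u.re then 1 else -(1 - τ)) else (if Odd u.re then -τ else 0)
/-- A cell that carries a neck, next to `u`. -/
def nbr (τ : ℝ) (u : GI) : GI := if pat τ u = 0 then u + gi else u

structure Lv where
  m : ℕ
  c : ℂ
  sg : ℝ
  τ : ℝ

def Lv.ok (l : Lv) : Prop :=
  2 ≤ l.m ∧ (l.c * (1 + I) ^ l.m) ^ 4 = 1 ∧ (l.sg = 1 ∨ l.sg = -1) ∧ (l.τ = 0 ∨ l.τ = 1 / 2)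

def q0 (l : Lv) (u : GI) : ℝ := l.sg * (4 * dd l.m ^ 2) * pat l.τ u

structure Ls where
  μ : ℂ
  ε : GI → ℂ
  σ : GI → ℝ

def pos (l : Lv) (s : Ls) (u : GI) : ℂ := Lm s.μ (l.c * u) + s.ε u
def qq (l : Lv) (s : Ls) (u : GI) : ℝ := q0 l u * (1 + s.σ u)
def psi (E : Ell) (l : Lv) (s : Ls) (z : ℂ) : ℂ :=
  ts l.m (fun u => (qq l s u : ℂ) * E.Z s.μ (z - pos l s u))
def ht (E : Ell) (l : Lv) (s : Ls) (z : ℂ) : ℝ :=
  ts l.m (fun u => qq l s u * E.Gr s.μ (z - pos l s u))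
def RR (E : Ell) (l : Lv) (s : Ls) (u : GI) (z : ℂ) : ℂ :=
  psi E l s z - (qq l s u : ℂ) / (z - pos l s u)
/-- Neck coordinate: `psi dz = q dv / v`. -/
def vt (E : Ell) (l : Lv) (s : Ls) (u : GI) (z : ℂ) : ℂ :=
  (z - pos l s u) * exp ((z - pos l s u) *
    (∫ x in (0 : ℝ)..1, RR E l s u (pos l s u + x * (z - pos l s u))) / (qq l s u : ℂ))
def lv (E : Ell) (l : Lv) (s : Ls) (u : GI) (z : ℂ) : ℂ := log (deriv (vt E l s u) z)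

/-- Linearised force and potential. -/
def Rlin (E : Ell) (l : Lv) (ε : GI → ℂ) (σ : GI → ℝ) (u : GI) : ℂ :=
  ts l.m (fun w => (q0 l w : ℂ) *
      (-E.wp (l.c * ((u - w : GI) : ℂ)) * (ε u - ε w) - π * conj (ε u - ε w))
    + ((q0 l w * σ w : ℝ) : ℂ) * E.Z 0 (l.c * ((u - w : GI) : ℂ)))
def hlin (E : Ell) (l : Lv) (ε : GI → ℂ) (σ : GI → ℝ) (u : GI) : ℝ :=
  ts l.m (fun w => q0 l w * (E.Z 0 (l.c * ((u - w : GI) : ℂ)) * (ε u - ε w)).re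
    + q0 l w * σ w * E.Gr 0 (l.c * ((u - w : GI) : ℂ)))
def Flin (E : Ell) (l : Lv) (ε : GI → ℂ) (σ : GI → ℝ) (u : GI) : ℂ :=
  (q0 l u : ℂ) * Rlin E l ε σ u
def Glin (E : Ell) (l : Lv) (ε : GI → ℂ) (σ : GI → ℝ) (u : GI) : ℝ :=
  q0 l u * hlin E l ε σ u + q0 l u ^ 2 * (Real.log |q0 l u| + 1) * σ u
def pair (l : Lv) (F : GI → ℂ) (G : GI → ℝ) (ε' : GI → ℂ) (σ' : GI → ℝ) : ℝ :=
  ts l.m (fun u => (F u * ε' u).re + G u * σ' u)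
def BL (E : Ell) (l : Lv) (ε : GI → ℂ) (σ : GI → ℝ) (ε' : GI → ℂ) (σ' : GI → ℝ) : ℝ :=
  pair l (Flin E l ε σ) (Glin E l ε σ) ε' σ'
/-- Square of the level norm. -/
def nb2 (l : Lv) (ε : GI → ℂ) (σ : GI → ℝ) : ℝ :=
  g2 l.m ε / dd l.m ^ 2 + l.m * msq l.m (fun u => (σ u : ℂ))
    + dn l.m (fun u => q0 l u * σ u / dd l.m ^ 2) ^ 2
/-- Level vectors: periodic, neutral. -/
structure LV (l : Lv) (ε : GI → ℂ) (σ : GI → ℝ) : Prop where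
  pe : Per l.m ε
  ps : Per l.m σ
  neu : ts l.m (fun u => q0 l u * σ u) = 0
/-- Mean zero on the class of `1 + i`. -/
def M0 (l : Lv) (ε : GI → ℂ) : Prop :=
  ts l.m (fun u => if Odd u.im ∧ Odd u.re then ε u else 0) = 0
/-- Good level state of size `b`. -/
structure LG (l : Lv) (s : Ls) (b : ℝ) : Prop where
  ok : l.ok
  lv : LV l s.ε s.σ
  m0 : M0 l s.ε
  odd : ∀ u, q0 l u ≠ 0 → s.ε (-u) = -s.ε u
  evn : ∀ u, s.σ (-u) = s.σ u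
  b0 : 0 ≤ b
  nb : nb2 l s.ε s.σ ≤ b ^ 2
  bs : b ≤ 3 * tt l.m ^ 20
  mu : ‖s.μ‖ ≤ tt l.m ^ 30

/-! ### The layered system -/

def al : ℂ := (1 + I) / 2
def oo (b : Bool) : ℂ := if b then (1 + I) / 2 else I / 2

structure Sys where
  st : ℤ → ℕ
  hh : ℤ → Bool

def Sys.ok (S : Sys) : Prop := ∀ k,
  (S.st k = S.st (k + 1) ∧ S.hh k ≠ S.hh (k + 1)) ∨
  ((S.st k + 1 = S.st (k + 1) ∨ S.st k = S.st (k + 1) + 1) ∧ S.hh k = true ∧ S.hh (k + 1) = true)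

/-- Point number `w` of layer `k`. -/
def lp (S : Sys) (k : ℤ) (w : GI) : ℂ := al ^ S.st k * (oo (S.hh k) + w)
def jl (S : Sys) (K : ℤ) : ℕ := min (S.st (K - 1)) (S.st K)
def low (S : Sys) (K : ℤ) : Bool :=
  if S.st (K - 1) = S.st K then S.hh (K - 1) else decide (S.st (K - 1) < S.st K)
/-- Level `K` in the true frame. -/
def lvT (S : Sys) (K : ℤ) : Lv :=
  ⟨jl S K + 2, al ^ jl S K / 2, if low S K then 1 else -1,
    if S.st (K - 1) = S.st K then 0 else 1 / 2⟩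
def io (K : ℤ) (z : ℂ) : ℂ := if Even K then z else -conj z
/-- Level `K` in its own conformal frame. -/
def lvF (S : Sys) (K : ℤ) : Lv := { lvT S K with c := io K (lvT S K).c }
def mK (S : Sys) (K : ℤ) : ℕ := jl S K + 2
/-- Layer of the neck in cell `u` of level `K`, the level on its other side, the cell there. -/
def lk (S : Sys) (K : ℤ) (u : GI) : ℤ := if 0 < q0 (lvT S K) u then K - 1 else K
def ot (S : Sys) (K : ℤ) (u : GI) : ℤ := if 0 < q0 (lvT S K) u then K - 1 else K + 1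
def par (S : Sys) (K : ℤ) (u : GI) : GI :=
  ⟨round (io (ot S K u) (io K ((lvF S K).c * u)) / (lvF S (ot S K u)).c).re,
   round (io (ot S K u) (io K ((lvF S K).c * u)) / (lvF S (ot S K u)).c).im⟩

/-- Displacements and relative size changes of the necks. -/
abbrev Vec := (ℤ → ℂ → ℂ) × (ℤ → ℂ → ℝ)

def eT (S : Sys) (v : Vec) (K : ℤ) (u : GI) : ℂ :=
  v.1 (lk S K (nbr (lvT S K).τ u)) ((lvT S K).c * (nbr (lvT S K).τ u : GI))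
def sT (S : Sys) (v : Vec) (K : ℤ) (u : GI) : ℝ :=
  if q0 (lvT S K) u = 0 then 0 else v.2 (lk S K u) ((lvT S K).c * u)
def flC (K : ℤ) (f : GI → ℂ) (u : GI) : ℂ := if Even K then f u else -conj (f (star u))
def flR (K : ℤ) (f : GI → ℝ) (u : GI) : ℝ := if Even K then f u else f (star u)

structure Adm (S : Sys) (v : Vec) : Prop where
  off : ∀ k z, (∀ w, z ≠ lp S k w) → v.1 k z = 0 ∧ v.2 k z = 0
  per : ∀ k z (w : GI), v.1 k (z + w) = v.1 k z ∧ v.2 k (z + w) = v.2 k z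
  m1 : ∀ k, ts (S.st k) (fun w => v.1 k (lp S k w)) = 0
  m2 : ∀ k, ts (S.st k) (fun w => v.2 k (lp S k w)) = 0
def Sym (v : Vec) : Prop := ∀ k z, v.1 k (-z) = -v.1 k z ∧ v.2 k (-z) = v.2 k z
def Supp (a b : ℤ) (v : Vec) : Prop := ∀ k, k < a ∨ b < k → v.1 k = 0 ∧ v.2 k = 0

def BT (E : Ell) (S : Sys) (v v' : Vec) (K : ℤ) : ℝ :=
  BL E (lvT S K) (eT S v K) (sT S v K) (eT S v' K) (sT S v' K)
def nT (S : Sys) (v : Vec) (K : ℤ) : ℝ := nb2 (lvT S K) (eT S v K) (sT S v K)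
def pT (S : Sys) (F : ℤ → GI → ℂ) (G : ℤ → GI → ℝ) (v' : Vec) (K : ℤ) : ℝ :=
  pair (lvT S K) (F K) (G K) (eT S v' K) (sT S v' K)

def cut (χ : ℤ → ℝ) (v : Vec) : Vec :=
  (fun k z => (χ k : ℂ) * v.1 k z, fun k z => χ k * v.2 k z)
def Big (S : Sys) (j : ℕ) : Prop := ∀ k, j ≤ S.st k
/-- Restriction of a function on the cells to the cells that carry a neck. -/
def nkr (l : Lv) (f : GI → ℂ) (u : GI) : ℂ := if q0 l u = 0 then 0 else f u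
def Nk (l : Lv) : Set GI := {u | q0 l u ≠ 0}
def An (r1 r2 : ℝ) : Set ℂ := {v | r1 < ‖v‖ ∧ ‖v‖ < r2}
def Out (nk : Set GI) (p : GI → ℂ) (r : ℝ) : Set ℂ := {z | ∀ u ∈ nk, r < ‖z - p u‖}

/-- The stages. -/
def len (j : ℕ) : ℕ := 2 ^ (17 * j / 32)
def bb (j0 : ℕ) : ℕ → ℕ
  | 0 => 2 * len j0 + j0 % 2
  | i + 1 => bb j0 i + 2 * len (j0 + i + 1) + 1
def stg (j0 : ℕ) (k : ℤ) : ℕ :=
  j0 + ((Finset.range k.natAbs).filter (fun i => bb j0 i < k.natAbs)).card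
def SS (j0 : ℕ) : Sys := ⟨stg j0, fun k => decide (Even (k.natAbs + stg j0 k))⟩
def NN (j0 i : ℕ) : ℕ := bb j0 i + len (j0 + i + 1)

/-! ### Configurations, the Cousin series, the fixed point map -/

/-- Unknowns: `v`, then `ξ`, `s`, `μ`, `λ`. -/
abbrev Cfg := Vec × (ℤ → GI → ℂ) × (ℤ → GI → ℂ) × (ℤ → ℂ) × (ℤ → ℂ)
abbrev Cfg.v (x : Cfg) : Vec := x.1
abbrev Cfg.ξ (x : Cfg) : ℤ → GI → ℂ := x.2.1
abbrev Cfg.s (x : Cfg) : ℤ → GI → ℂ := x.2.2.1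
abbrev Cfg.μ (x : Cfg) : ℤ → ℂ := x.2.2.2.1
abbrev Cfg.l (x : Cfg) : ℤ → ℂ := x.2.2.2.2

def ls (S : Sys) (x : Cfg) (K : ℤ) : Ls :=
  ⟨x.μ K, fun u => flC K (eT S x.v K) u - x.ξ K u, flR K (sT S x.v K)⟩

structure XX (S : Sys) (x : Cfg) : Prop where
  adm : Adm S x.v
  sym : Sym x.v
  nb : ∀ T : Finset ℤ, ∑ K ∈ T, nT S x.v K / tt (mK S K) ^ 40 ≤ 1
  xp : ∀ K, Per (mK S K) (x.ξ K)
  xo : ∀ K u, x.ξ K (-u) = -x.ξ K u
  xb : ∀ K, g2 (mK S K) (x.ξ K) ≤ (dd (mK S K) * tt (mK S K) ^ 29) ^ 2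
  sp : ∀ K, Per (mK S K) (x.s K)
  se : ∀ K u, x.s K (-u) = x.s K u
  sb : ∀ K u, ‖x.s K u‖ ≤ tt (mK S K) ^ 29
  mb : ∀ K, ‖x.μ K‖ ≤ tt (mK S K) ^ 30
  lb : ∀ K, ‖x.l K‖ ≤ tt (mK S K) ^ 30

/-- Size of level `K`. -/
def bK (S : Sys) (x : Cfg) (K : ℤ) : ℝ := √(nT S x.v K) * 2 + tt (mK S K) ^ 29 * 2
/-- Size of level `K` and of its two neighbours. -/
def b3 (S : Sys) (x : Cfg) (K : ℤ) : ℝ := bK S x (K - 1) + bK S x K + bK S x (K + 1)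

def cint (p : ℂ) (r : ℝ) (f : ℂ → ℂ) : ℂ := (2 * π * I)⁻¹ * ∮ z in C(p, r), f z
def seg (f : ℂ → ℂ) (a b : ℂ) : ℂ := (b - a) * ∫ x in (0 : ℝ)..1, f (a + x * (b - a))

/-- Solution operator of the additive Cousin problem on one level. -/
def SoL (E : Ell) (l : Lv) (s : Ls) (f : GI → ℂ → ℂ) (r : ℝ) (z : ℂ) : ℂ :=
  ts l.m (fun u => cint (pos l s u) r
    (fun ξ => f u ξ * (E.Z s.μ (ξ - z) + bE s.μ * conj (ξ - pos l s u))))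

abbrev Fam := ℤ → GI → ℂ → ℂ

section
variable (E : Ell) (S : Sys) (x : Cfg)

def pK (K : ℤ) (u : GI) : ℂ := pos (lvF S K) (ls S x K) u
def qK (K : ℤ) (u : GI) : ℝ := qq (lvF S K) (ls S x K) u
def vK (K : ℤ) (u : GI) : ℂ → ℂ := vt E (lvF S K) (ls S x K) u
def psK (K : ℤ) : ℂ → ℂ := psi E (lvF S K) (ls S x K)
def tn (K : ℤ) (u : GI) : ℂ := -(qK S x K u : ℂ) ^ 2 * exp (-x.s K u)
def mm (M : Fam) (K : ℤ) (u : GI) (y : ℂ) : ℂ :=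
  cint (pK S x K u) (rho (mK S K) / 2)
    (fun ξ => M K u ξ * deriv (vK E S x K u) ξ / (vK E S x K u ξ - y))
def fo (M : Fam) (K : ℤ) (u : GI) (ξ : ℂ) : ℂ :=
  if q0 (lvT S K) u = 0 then 0 else
    mm E S x M (ot S K u) (par S K u) (tn S x K u / vK E S x K u ξ)
      - mm E S x M (ot S K u) (par S K u) 0
def So (K : ℤ) (f : GI → ℂ → ℂ) (r : ℝ) (z : ℂ) : ℂ := SoL E (lvF S K) (ls S x K) f r z
def inc : ℕ → Fam
  | 0 => fun K u z => x.l K - lv E (lvF S K) (ls S x K) u z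
  | n + 1 => fun K _ z => So E S x K (fo E S x (inc n) K) (rho (mK S K)) z
def MM : Fam := fun K u z => ∑' n, inc E S x n K u z
def Mt (K : ℤ) : ℂ → ℂ := So E S x K (fo E S x (MM E S x) K) (rho (mK S K))
def lam (K : ℤ) (z : ℂ) : ℂ := x.l K + So E S x K (fo E S x (MM E S x) K) (rho1 (mK S K) / 2) z
def F1 (K : ℤ) (z : ℂ) : ℂ := exp (lam E S x K z)
def F2 (K : ℤ) (z : ℂ) : ℂ := psK E S x K z ^ 2 * exp (-lam E S x K z)
def Th (K : ℤ) (a b : ℂ) : ℂ := seg (F1 E S x K) a b - conj (seg (F2 E S x K) a b)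
def VV (K : ℤ) (u : GI) : ℂ := Lm (x.μ K) ((lvF S K).c * (u + (1 + I) / 2))
def I1 (K : ℤ) (u : GI) : ℂ := Th E S x K (VV S x K u) (VV S x K (u + 1)) - (lvF S K).c
def I2 (K : ℤ) (u : GI) : ℂ := Th E S x K (VV S x K u) (VV S x K (u + gi)) - I * (lvF S K).c
def lamN (K : ℤ) : ℂ :=
  x.l K - (av (mK S K) (I1 E S x K) - I * av (mK S K) (I2 E S x K)) / (2 * (lvF S K).c)
def muN (K : ℤ) : ℂ :=
  x.μ K - (av (mK S K) (I1 E S x K) + I * av (mK S K) (I2 E S x K)) / (2 * conj (lvF S K).c)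
def zP (K : ℤ) (u : GI) (a : ℝ) : ℂ :=
  pK S x K u + ((a * rho (mK S K) / 4 / dd (mK S K) : ℝ) : ℂ) * (lvF S K).c
def Nf (K : ℤ) (u : GI) (y : ℂ) : ℂ :=
  mm E S x (MM E S x) K u y - (mm E S x (MM E S x) (ot S K u) (par S K u) (tn S x K u / y)
    - mm E S x (MM E S x) (ot S K u) (par S K u) 0)
def II (K : ℤ) (u : GI) (a : ℝ) : ℂ :=
  seg (fun y => exp (Nf E S x K u y))
    (tn S x K u / vK E S x (ot S K u) (par S K u) (zP S x (ot S K u) (par S K u) a))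
    (vK E S x K u (zP S x K u a))
def sN (K : ℤ) (u : GI) : ℂ :=
  if q0 (lvT S K) u = 0 then 0 else
    MM E S x K u (pK S x K u) + MM E S x (ot S K u) (par S K u) (pK S x (ot S K u) (par S K u))
def Phi (K : ℤ) (u : GI) : ℂ := cint (pK S x K u) (rho (mK S K) / 4) (F2 E S x K)
def fres (K : ℤ) (u : GI) : ℂ :=
  if q0 (lvT S K) u = 0 then 0 else Phi E S x K u / (2 * (1 + (ls S x K).σ u))
def gres (K : ℤ) (u : GI) : ℝ :=
  q0 (lvT S K) u * ht E (lvF S K) (ls S x K) (pK S x K u) + |q0 (lvT S K) u| *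
    (|qK S x K u| * Real.log |qK S x K u| - |qK S x K u| * (x.s K u).re / 2)
/-- The part of the new `ξ` that does not come from the vertex potential. -/
def xi1 (K : ℤ) (u : GI) : ℂ :=
  if q0 (lvT S K) u = 0 then 0 else
    (lvF S K).c * ((1 + I) / 2) - (ls S x K).ε u
      + ((Th E S x K (VV S x K u) (zP S x K u 1) - II E S x K u 1)
        + (Th E S x K (VV S x K u) (zP S x K u (-1)) - II E S x K u (-1))) / 2
end

/-- Least squares potential of edge data. -/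
structure LSop where
  Y : ℕ → (GI → ℂ) → (GI → ℂ) → GI → ℂ
  per : ∀ m a b, Per m (Y m a b)
  cont : ∀ m u, Continuous (fun p : (GI → ℂ) × (GI → ℂ) => Y m p.1 p.2 u)
  bd : ∀ m a b, Per m a → Per m b → g2 m (Y m a b) ≤ msq m a + msq m b
  ex : ∀ m a b f, Per m f → (∀ u, a u = f (u + 1) - f u) → (∀ u, b u = f (u + gi) - f u) →
    ∃ κ, ∀ u, Y m a b u = f u + κ

def xi0 (E : Ell) (L : LSop) (S : Sys) (x : Cfg) (K : ℤ) (u : GI) : ℂ :=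
  L.Y (mK S K) (I1 E S x K) (I2 E S x K) u + xi1 E S x K u
def xiN (E : Ell) (L : LSop) (S : Sys) (x : Cfg) (K : ℤ) (u : GI) : ℂ :=
  (xi0 E L S x K u - xi0 E L S x K (-u)) / 2

/-- Solver of the truncated linear system. -/
structure Solv (E : Ell) (S : Sys) (N : ℕ) where
  f : (ℤ → GI → ℂ) × (ℤ → GI → ℝ) → Vec
  cont : Continuous f
  adm : ∀ p, Adm S (f p)
  supp : ∀ p, Supp (-N) N (f p)
  eq : ∀ p v', Adm S v' → Supp (-N) N v' →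
    ∑ K ∈ Finset.Icc (-N : ℤ) (N + 1), BT E S (f p) v' K
      = ∑ K ∈ Finset.Icc (-N : ℤ) (N + 1), pT S p.1 p.2 v' K
  sym : ∀ p, (∀ K, Per (mK S K) (p.1 K) ∧ Per (mK S K) (p.2 K)) →
    (∀ K u, p.1 K (-u) = -p.1 K u ∧ p.2 K (-u) = p.2 K u) →
    (∀ K u, q0 (lvT S K) u = 0 → p.1 K u = 0) → Sym (f p)

def FF (E : Ell) (S : Sys) (x : Cfg) (K : ℤ) (u : GI) : ℂ :=
  Flin E (lvT S K) (eT S x.v K) (sT S x.v K) u - flC K (fres E S x K) u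
def GG (E : Ell) (S : Sys) (x : Cfg) (K : ℤ) (u : GI) : ℝ :=
  Glin E (lvT S K) (eT S x.v K) (sT S x.v K) u - flR K (gres E S x K) u

def TN (E : Ell) (L : LSop) (S : Sys) {N : ℕ} (sv : Solv E S N) (x : Cfg) : Cfg :=
  (sv.f (FF E S x, GG E S x), xiN E L S x, sN E S x, muN E S x, lamN E S x)

def Aux (E : Ell) (L : LSop) (S : Sys) (x : Cfg) : Prop :=
  x.ξ = xiN E L S x ∧ x.s = sN E S x ∧ x.μ = muN E S x ∧ x.l = lamN E S x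
def Eqn (E : Ell) (S : Sys) (N : ℕ) (x : Cfg) : Prop :=
  ∀ v', Adm S v' → Supp (-N) N v' → ∑ K ∈ Finset.Icc (-N : ℤ) (N + 1),
    pT S (fun K => flC K (fres E S x K)) (fun K => flR K (gres E S x K)) v' K = 0

end Pool.Agent.P.MP_cc4a10_gt
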