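import Pool.Agent.P.MP_cc4a10_gt.St

/-!
The charge pattern is a discrete divergence; symmetric sums vanish.
-/

open Set Filter Topology Complex Metric
open scoped ComplexConjugate Real

noncomputable section

namespace Pool.Agent.P.MP_cc4a10_gt.DipP

theorem odd_two (a b : ℤ) : Odd (a + 2 * b) ↔ Odd a := by
  simp only [Int.odd_iff]; omega
theorem odd_succ (a : ℤ) : Odd (a + 1) ↔ ¬Odd a := by
  simp only [Int.odd_iff]; omega
theorem odd_pred (a : ℤ) : Odd (a + -1) ↔ ¬Odd a := by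
  simp only [Int.odd_iff]; omega

theorem re_two (u w : GI) : Odd (u + 2 * w).re ↔ Odd u.re := by
  rw [show (u + 2 * w).re = u.re + 2 * w.re by simp, odd_two]
theorem im_two (u w : GI) : Odd (u + 2 * w).im ↔ Odd u.im := by
  rw [show (u + 2 * w).im = u.im + 2 * w.im by simp, odd_two]

theorem om_sq : om ^ 2 = 2 * gi := by decide

theorem per_of_two {V : Type*} {m : ℕ} (hm : 2 ≤ m) {F : GI → V}
    (h : ∀ u w, F (u + 2 * w) = F u) : Per m F := fun u w => by
  obtain ⟨k, rfl⟩ := Nat.exists_eq_add_of_le hm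
  rw [pow_add, om_sq, mul_assoc, mul_assoc, h]

theorem pat_two (τ : ℝ) (u w : GI) : pat τ (u + 2 * w) = pat τ u := by
  simp only [pat, re_two, im_two]
theorem pat_neg (τ : ℝ) (u : GI) : pat τ (-u) = pat τ u := by
  simp only [pat, Zsqrtd.re_neg, Zsqrtd.im_neg, odd_neg]
theorem pat_star (τ : ℝ) (u : GI) : pat τ (star u) = pat τ u := by
  simp only [pat, Zsqrtd.re_star, Zsqrtd.im_star, odd_neg]

/-- The two edge fields. -/
def e1 (τ : ℝ) (u : GI) : ℝ := if Odd u.im ∧ ¬Odd u.re then 1 - τ else 0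
def e2 (τ : ℝ) (u : GI) : ℝ := if ¬Odd u.im ∧ Odd u.re then τ else 0

theorem e1_two (τ : ℝ) (u w : GI) : e1 τ (u + 2 * w) = e1 τ u := by
  simp only [e1, re_two, im_two]
theorem e2_two (τ : ℝ) (u w : GI) : e2 τ (u + 2 * w) = e2 τ u := by
  simp only [e2, re_two, im_two]

theorem pat_div (τ : ℝ) (u : GI) :
    pat τ u = e1 τ (u + -1) - e1 τ u + (e2 τ (u + -gi) - e2 τ u) := by
  have h1 : (u + -1).re = u.re + -1 := by simp
  have h2 : (u + -1).im = u.im := by simp
  have h3 : (u + -gi).re = u.re := by simp [gi]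
  have h4 : (u + -gi).im = u.im + -1 := by simp [gi]
  simp only [pat, e1, e2, h1, h2, h3, h4, odd_pred]
  by_cases a : Odd u.im <;> by_cases b : Odd u.re <;> simp [a, b]

theorem by_parts {m : ℕ} {β : GI → ℝ} {Ψ : GI → ℂ} (hβ : Per m β) (hΨ : Per m Ψ) (g : GI) :
    ts m (fun u => (β u : ℂ) * (Ψ (u + g) - Ψ u))
      = ts m (fun u => ((β (u + -g) - β u : ℝ) : ℂ) * Ψ u) := by
  have h := ts_shift (m := m) (F := fun u => (β (u + -g) : ℂ) * Ψ u)
    (fun u w => by simp only [hβ.shift (-g) u w, hΨ u w]) g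
  simp only [add_neg_cancel_right] at h
  simp only [mul_sub, ofReal_sub, sub_mul, ts_sub, h]

variable {l : Lv}

theorem sg_abs (h : l.ok) : |l.sg| = 1 := by rcases h.2.2.1 with e | e <;> simp [e]

theorem abs_mul_eq (h : l.ok) (x : ℝ) :
    |l.sg * (4 * dd l.m ^ 2) * x| = 4 * dd l.m ^ 2 * |x| := by
  rw [abs_mul, abs_mul, sg_abs h, one_mul, abs_of_nonneg (by positivity)]

theorem pre_ne (h : l.ok) : l.sg * (4 * dd l.m ^ 2) ≠ 0 := by
  have := dd_pos l.m
  rcases h.2.2.1 with e | e <;> rw [e] <;> simp [this.ne']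

theorem per_q0 (h : l.ok) : Per l.m (q0 l) :=
  per_of_two h.1 fun u w => by simp only [q0, pat_two]

theorem part1 (h : l.ok) : ∃ β1 β2 : GI → ℝ, Per l.m β1 ∧ Per l.m β2 ∧
    (∀ u, |β1 u| ≤ 4 * dd l.m ^ 2 ∧ |β2 u| ≤ 4 * dd l.m ^ 2) ∧
    (∀ u, β1 u ≠ 0 → q0 l u ≠ 0 ∧ q0 l (u + 1) ≠ 0) ∧
    (∀ u, β2 u ≠ 0 → q0 l u ≠ 0 ∧ q0 l (u + gi) ≠ 0) ∧
    ∀ Ψ : GI → ℂ, Per l.m Ψ → ts l.m (fun u => (q0 l u : ℂ) * Ψ u) =
      ts l.m (fun u => (β1 u : ℂ) * (Ψ (u + 1) - Ψ u) + (β2 u : ℂ) * (Ψ (u + gi) - Ψ u)) := by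
  have p1 : Per l.m (fun u => l.sg * (4 * dd l.m ^ 2) * e1 l.τ u) :=
    per_of_two h.1 fun u w => by simp only [e1_two]
  have p2 : Per l.m (fun u => l.sg * (4 * dd l.m ^ 2) * e2 l.τ u) :=
    per_of_two h.1 fun u w => by simp only [e2_two]
  have hd : 0 ≤ 4 * dd l.m ^ 2 := by positivity
  refine ⟨_, _, p1, p2, fun u => ⟨?_, ?_⟩, fun u hu => ?_, fun u hu => ?_, fun Ψ hΨ => ?_⟩
  · rw [abs_mul_eq h]
    refine mul_le_of_le_one_right hd ?_
    unfold e1
    rcases h.2.2.2 with e | e <;> rw [e] <;> split_ifs <;> norm_num [abs_le]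
  · rw [abs_mul_eq h]
    refine mul_le_of_le_one_right hd ?_
    unfold e2
    rcases h.2.2.2 with e | e <;> rw [e] <;> split_ifs <;> norm_num [abs_le]
  · have h1 := right_ne_zero_of_mul hu
    have h2 : (u + 1).re = u.re + 1 := by simp
    have h3 : (u + 1).im = u.im := by simp
    unfold e1 at h1
    split_ifs at h1 with c
    · refine ⟨mul_ne_zero (pre_ne h) ?_, mul_ne_zero (pre_ne h) ?_⟩
      · simp only [pat, c.1, c.2, if_true, if_false]; exact neg_ne_zero.2 h1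
      · simp only [pat, h2, h3, odd_succ, c.1, c.2, if_true, not_false_eq_true]; exact one_ne_zero
    · exact absurd rfl h1
  · have h1 := right_ne_zero_of_mul hu
    have h2 : (u + gi).re = u.re := by simp [gi]
    have h3 : (u + gi).im = u.im + 1 := by simp [gi]
    unfold e2 at h1
    split_ifs at h1 with c
    · refine ⟨mul_ne_zero (pre_ne h) ?_, mul_ne_zero (pre_ne h) ?_⟩
      · simp only [pat, c.1, c.2, if_true, if_false]; exact neg_ne_zero.2 h1
      · simp only [pat, h2, h3, odd_succ, c.1, c.2, if_true, not_false_eq_true]; exact one_ne_zero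
    · exact absurd rfl h1
  · rw [ts_add, by_parts p1 hΨ, by_parts p2 hΨ, ← ts_add]
    congr 1; funext u
    rw [q0, pat_div]; push_cast; ring

theorem odd_ker (h : l.ok) (k : GI → ℂ) (u : GI) (hk : Per l.m k) (ho : ∀ x, k (-x) = -k x) :
    ts l.m (fun w => (q0 l w : ℂ) * k (u - w)) = 0 := by
  have h1 := ts_sub_left (m := l.m) (F := fun w => (q0 l w : ℂ) * k (u - w))
    (fun a b => by simp only [per_q0 h a b, hk.sub_left u a b]) (2 * u)
  have h2 : ∀ w, (q0 l (2 * u - w) : ℂ) * k (u - (2 * u - w)) = -((q0 l w : ℂ) * k (u - w)) :=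
    fun w => by
      rw [show u - (2 * u - w) = -(u - w) by ring, ho, show 2 * u - w = -w + 2 * u by ring]
      simp only [q0, pat_two, pat_neg, mul_neg]
  simp only [h2, ts_neg] at h1
  linear_combination (-1 / 2 : ℂ) * h1

theorem ts_q0 (h : l.ok) : ts l.m (q0 l) = 0 := by
  obtain ⟨β1, β2, -, -, -, -, -, h1⟩ := part1 h
  have h2 := h1 (fun _ => 1) fun _ _ => rfl
  simp only [mul_one, sub_self, mul_zero, add_zero, ts_zero] at h2
  rw [← ts_ofReal] at h2
  exact_mod_cast h2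

theorem q0_lo (h : l.ok) (u : GI) (hu : q0 l u ≠ 0) : 2 * dd l.m ^ 2 ≤ |q0 l u| := by
  have h1 := right_ne_zero_of_mul hu
  have h2 : 1 / 2 ≤ |pat l.τ u| := by
    unfold pat at h1 ⊢
    revert h1
    rcases h.2.2.2 with e | e <;> rw [e] <;> split_ifs <;> norm_num [le_abs]
  rw [q0, abs_mul_eq h]
  nlinarith [sq_nonneg (dd l.m)]

theorem q0_hi (h : l.ok) (u : GI) : |q0 l u| ≤ 4 * dd l.m ^ 2 := by
  rw [q0, abs_mul_eq h]
  refine mul_le_of_le_one_right (by positivity) ?_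
  unfold pat
  rcases h.2.2.2 with e | e <;> rw [e] <;> split_ifs <;> norm_num [abs_le]

theorem norm_c (h : l.ok) : ‖l.c‖ = dd l.m := by
  have h1 := congrArg norm h.2.1
  rw [norm_pow, norm_one, pow_eq_one_iff_of_nonneg (norm_nonneg _) (by norm_num), norm_mul,
    norm_pow] at h1
  have h2 : ‖(1 + I : ℂ)‖ ^ 2 = 2 := by
    rw [Complex.sq_norm, normSq_apply]; simp; norm_num
  have h3 : ‖l.c‖ ^ 2 * 2 ^ l.m = 1 := by
    rw [← h2, ← pow_mul, mul_comm 2 l.m, pow_mul, ← mul_pow, h1, one_pow]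
  refine (pow_left_inj₀ (norm_nonneg _) (dd_pos _).le two_ne_zero).1 ?_
  rw [dd_sq]; exact eq_inv_of_mul_eq_one_left h3

theorem unit_c (h : l.ok) : ∃ w0 : GI, l.c * ((om ^ l.m : GI) : ℂ) = w0 ∧ IsUnit w0 := by
  have h1 := h.2.1
  rw [map_pow, coe_om]
  set z := l.c * (1 + I) ^ l.m
  have h2 : (z - 1) * ((z + 1) * ((z - I) * (z + I))) = 0 := by
    linear_combination h1 - (z ^ 2 - 1) * I_mul_I
  have ug : IsUnit gi := IsUnit.of_mul_eq_one (-gi) (by decide)
  simp only [mul_eq_zero] at h2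
  rcases h2 with e | e | e | e
  · exact ⟨1, by rw [map_one]; linear_combination e, isUnit_one⟩
  · exact ⟨-1, by rw [map_neg, map_one]; linear_combination e, isUnit_one.neg⟩
  · exact ⟨gi, by rw [coe_gi]; linear_combination e, ug⟩
  · exact ⟨-gi, by rw [map_neg, coe_gi]; linear_combination e, ug.neg⟩

theorem per_nbr (h : l.ok) {f : GI → ℂ} (hf : Per l.m f) : Per l.m (fun u => f (nbr l.τ u)) :=
  fun u w => by
    have h1 : pat l.τ (u + om ^ l.m * w) = pat l.τ u := per_of_two h.1 (pat_two l.τ) u w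
    simp only [nbr, h1]
    split_ifs
    exacts [hf.shift gi u w, hf u w]

theorem g2_nbr (h : l.ok) {f : GI → ℂ} (hf : Per l.m f) :
    g2 l.m (fun u => f (nbr l.τ u)) ≤ 20 * g2 l.m f := by
  set e : GI → ℂ := fun u => f (nbr l.τ u) - f u with he
  have pe : Per l.m e := fun u w => by simp only [he, per_nbr h hf u w, hf u w]
  have h1 : msq l.m e ≤ msq l.m (fun u => f (u + gi) - f u) := msq_mono _ fun u => by
    simp only [he, nbr]; split_ifs <;> simp
  have h2 : ∀ g, msq l.m (fun u => f (nbr l.τ (u + g)) - f (nbr l.τ u))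
      ≤ 2 * msq l.m (fun u => f (u + g) - f u) + 8 * msq l.m e := fun g => by
    have h3 := msq_add_le l.m (fun u => f (u + g) - f u) (fun u => e (u + g) + -e u)
    have h4 := msq_add_le l.m (fun u => e (u + g)) (fun u => -e u)
    have h5 : msq l.m (fun u => -e u) = msq l.m e := by simp only [msq, norm_neg]
    rw [msq_shift pe, h5] at h4
    have h6 : (fun u => f (nbr l.τ (u + g)) - f (nbr l.τ u))
        = fun u => f (u + g) - f u + (e (u + g) + -e u) := by
      funext u; simp only [he]; ring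
    rw [h6]; linarith
  have h3 := msq_nonneg l.m (fun u => f (u + 1) - f u)
  have h4 := msq_nonneg l.m (fun u => f (u + gi) - f u)
  simp only [g2]
  linarith [h2 1, h2 gi]

end Pool.Agent.P.MP_cc4a10_gt.DipP

namespace Pool.Agent.P.MP_cc4a10_gt

open DipP in
theorem pDip : S_Dip := fun l h =>
  ⟨part1 h, odd_ker h, per_q0 h, fun u => ⟨by simp only [q0, pat_neg], by simp only [q0, pat_star]⟩,
    ts_q0 h, q0_lo h, q0_hi h, norm_c h, unit_c h, fun _ hf => ⟨per_nbr h hf, g2_nbr h hf⟩⟩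

end Pool.Agent.P.MP_cc4a10_gt
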