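import Pool.Agent.P.MP_cc4a10_gt.St

/-!
The dual norm and the field of a neutral density.
-/

open Set Filter Topology Complex Metric
open scoped ComplexConjugate Real

noncomputable section

namespace Pool.Agent.P.MP_cc4a10_gt

namespace DnP

theorem av_mul_left (m : ℕ) (a : ℂ) (F : GI → ℂ) : av m (fun u => a * F u) = a * av m F := by
  rw [av, av, ts_mul_left, mul_smul_comm]

theorem g2_mul (m : ℕ) (a : ℂ) (f : GI → ℂ) : g2 m (fun u => a * f u) = ‖a‖ ^ 2 * g2 m f := by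
  simp only [g2, ← mul_sub, msq_mul, mul_add]

theorem msq_back {m : ℕ} {f : GI → ℂ} (h : Per m f) (g : GI) :
    msq m (fun u => f (u - g) - f u) = msq m (fun u => f (u + g) - f u) := by
  have p : Per m (fun u => f (u - g) - f u) := fun u w => by
    simp only [h u w, add_sub_right_comm, h (u - g) w]
  rw [← msq_shift p g]
  simp only [msq, add_sub_cancel_right, norm_sub_rev]

theorem msq_neg {m : ℕ} {f : GI → ℂ} (h : Per m f) : msq m (fun u => f (-u)) = msq m f := by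
  unfold msq av
  rw [ts_neg_arg (F := fun u => ‖f u‖ ^ 2) fun u w => by simp only [h u w]]

theorem msq_star {m : ℕ} {f : GI → ℂ} (h : Per m f) : msq m (fun u => f (star u)) = msq m f := by
  unfold msq av
  rw [ts_star (F := fun u => ‖f u‖ ^ 2) fun u w => by simp only [h u w]]

theorem per_back {m : ℕ} {f : GI → ℂ} (h : Per m f) (g : GI) :
    Per m (fun u => f (u - g) - f u) := fun u w => by
  simp only [h u w, add_sub_right_comm, h (u - g) w]

theorem g2_neg {m : ℕ} {f : GI → ℂ} (h : Per m f) : g2 m (fun u => f (-u)) = g2 m f := by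
  rw [g2, g2, ← msq_back h, ← msq_back h, ← msq_neg (per_back h 1), ← msq_neg (per_back h gi)]
  simp only [neg_add']

theorem g2_star {m : ℕ} {f : GI → ℂ} (h : Per m f) : g2 m (fun u => f (star u)) = g2 m f := by
  have e : star gi = -gi := by decide
  have p : Per m (fun u => f (u + 1) - f u) := fun u w => by simp only [h u w, h.shift 1 u w]
  rw [g2, g2, ← msq_back h gi, ← msq_star p, ← msq_star (per_back h gi)]
  simp only [star_add, star_one, e, sub_eq_add_neg]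

theorem dn_nonneg (m : ℕ) (ρ : GI → ℝ) : 0 ≤ dn m ρ :=
  Real.sSup_nonneg (by rintro _ ⟨f, -, -, rfl⟩; exact norm_nonneg _)

theorem dn_le {m : ℕ} {ρ : GI → ℝ} {b : ℝ} (hb : 0 ≤ b) (h : ∀ f : GI → ℂ, Per m f →
    ‖av m (fun u => (ρ u : ℂ) * f u)‖ ≤ b * √(g2 m f)) : dn m ρ ≤ b := by
  refine Real.sSup_le ?_ hb
  rintro _ ⟨f, h1, h2, rfl⟩
  exact (h f h1).trans (mul_le_of_le_one_right hb (Real.sqrt_le_one.2 h2))

theorem le_dn {m : ℕ} {ρ : GI → ℝ} {b : ℝ} (hb : 0 ≤ b) (h : ∀ f : GI → ℂ, Per m f →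
    ‖av m (fun u => (ρ u : ℂ) * f u)‖ ≤ b * √(g2 m f)) (f : GI → ℂ) (hf : Per m f) :
    ‖av m (fun u => (ρ u : ℂ) * f u)‖ ≤ dn m ρ * √(g2 m f) := by
  rcases (Real.sqrt_nonneg (g2 m f)).eq_or_lt with h0 | h0
  · have := h f hf
    rwa [← h0, mul_zero, ← mul_zero (dn m ρ), h0] at this
  · have h1 : ‖((√(g2 m f))⁻¹ : ℂ)‖ = (√(g2 m f))⁻¹ := by
      rw [norm_inv, norm_real, Real.norm_of_nonneg h0.le]
    have h2 : ‖av m (fun u => (ρ u : ℂ) * (((√(g2 m f))⁻¹ : ℂ) * f u))‖ ≤ dn m ρ := by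
      refine le_csSup ⟨b, ?_⟩ ⟨fun u => ((√(g2 m f))⁻¹ : ℂ) * f u,
        fun u w => by simp only [hf u w], ?_, rfl⟩
      · rintro _ ⟨f, h1, h2, rfl⟩
        exact (h f h1).trans (mul_le_of_le_one_right hb (Real.sqrt_le_one.2 h2))
      · rw [g2_mul, h1, inv_pow, Real.sq_sqrt (g2_nonneg m f),
          inv_mul_cancel₀ (Real.sqrt_pos.1 h0).ne']
    simp only [mul_left_comm _ ((√(g2 m f))⁻¹ : ℂ)] at h2
    rwa [av_mul_left, norm_mul, h1, inv_mul_le_iff₀ h0, mul_comm] at h2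

theorem crude {m : ℕ} {ρ : GI → ℝ} {C : ℝ} (hC : 0 < C) (h0 : ts m ρ = 0) {f : GI → ℂ}
    (h : msq m (fun u => f u - av m f) ≤ C ^ 2 * g2 m f / dd m ^ 2) :
    ‖av m (fun u => (ρ u : ℂ) * f u)‖ ≤ C * √(msq m (fun u => (ρ u : ℂ))) / dd m * √(g2 m f) := by
  have hd := dd_pos m
  have e1 : av m (fun u => (ρ u : ℂ) * f u) = av m (fun u => (ρ u : ℂ) * (f u - av m f)) := by
    have e2 : av m (fun u => (ρ u : ℂ) * av m f) = 0 := by
      simp only [mul_comm _ (av m f)]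
      rw [av_mul_left, av.eq_1 m (fun u => (ρ u : ℂ)), ← ts_ofReal, h0]
      simp
    simp only [mul_sub]
    rw [av_sub, e2, sub_zero]
  have h1 : √(msq m (fun u => f u - av m f)) ≤ C * √(g2 m f) / dd m := by
    refine Real.sqrt_le_iff.2 ⟨by positivity, ?_⟩
    rwa [div_pow, mul_pow, Real.sq_sqrt (g2_nonneg m f)]
  rw [e1]
  refine (norm_av_le _ _).trans ?_
  simp only [norm_mul]
  refine (av_mul_le _ _ _).trans
    ((mul_le_mul_of_nonneg_left h1 (Real.sqrt_nonneg _)).trans (le_of_eq ?_))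
  ring

end DnP

open DnP in
theorem pDn (h1 : S_Poin) : S_Dn := by
  obtain ⟨C, hC, hP⟩ := h1
  refine ⟨C, hC, fun m ρ hm hρ h0 => ?_⟩
  have hd := dd_pos m
  have A : ∀ ρ : GI → ℝ, ts m ρ = 0 → ∀ f : GI → ℂ, Per m f → ‖av m (fun u => (ρ u : ℂ) * f u)‖
      ≤ C * √(msq m (fun u => (ρ u : ℂ))) / dd m * √(g2 m f) :=
    fun ρ h0 f hf => crude hC h0 (hP m f hm hf).1
  have B : ∀ ρ : GI → ℝ, ts m ρ = 0 → ∀ f : GI → ℂ, Per m f →
      ‖av m (fun u => (ρ u : ℂ) * f u)‖ ≤ dn m ρ * √(g2 m f) :=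
    fun ρ h0 => le_dn (by positivity) (A ρ h0)
  have D : ∀ ρ : GI → ℝ, ts m ρ = 0 → ∀ a : ℝ, dn m (fun u => a * ρ u) ≤ |a| * dn m ρ := by
    intro ρ h0 a
    refine dn_le (mul_nonneg (abs_nonneg a) (dn_nonneg m ρ)) fun f hf => ?_
    simp only [ofReal_mul, mul_assoc]
    rw [av_mul_left, norm_mul, norm_real, Real.norm_eq_abs]
    exact mul_le_mul_of_nonneg_left (B ρ h0 f hf) (abs_nonneg a)
  have N : ∀ ρ : GI → ℝ, Per m ρ → ts m ρ = 0 → dn m (fun u => ρ (-u)) ≤ dn m ρ := by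
    intro ρ hρ h0
    refine dn_le (dn_nonneg m ρ) fun f hf => ?_
    have := B ρ h0 _ hf.neg
    rw [g2_neg hf, av, ← ts_neg_arg (F := fun u => (ρ u : ℂ) * f (-u))
      fun u w => by simp only [hρ u w, hf.neg u w]] at this
    simpa only [neg_neg, av] using this
  have T : ∀ ρ : GI → ℝ, Per m ρ → ts m ρ = 0 → dn m (fun u => ρ (star u)) ≤ dn m ρ := by
    intro ρ hρ h0
    refine dn_le (dn_nonneg m ρ) fun f hf => ?_
    have := B ρ h0 _ hf.star
    rw [g2_star hf, av, ← ts_star (F := fun u => (ρ u : ℂ) * f (star u))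
      fun u w => by simp only [hρ u w, hf.star u w]] at this
    simpa only [star_star, av] using this
  refine ⟨dn_nonneg m ρ, B ρ h0, fun b hb h => dn_le hb h, dn_le (by positivity) (A ρ h0),
    fun a => le_antisymm (D ρ h0 a) ?_, fun ρ' _ h0' => ?_, le_antisymm (N ρ hρ h0) ?_,
    le_antisymm (T ρ hρ h0) ?_⟩
  · rcases eq_or_ne a 0 with rfl | ha
    · rw [abs_zero, zero_mul]
      exact dn_nonneg _ _
    · have := D (fun u => a * ρ u) (by rw [ts_mul_left_real, h0, mul_zero]) a⁻¹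
      simp only [inv_mul_cancel_left₀ ha] at this
      rwa [abs_inv, le_inv_mul_iff₀ (abs_pos.2 ha)] at this
  · refine dn_le (add_nonneg (dn_nonneg m ρ) (dn_nonneg m ρ')) fun f hf => ?_
    simp only [ofReal_add, add_mul]
    rw [av_add]
    exact norm_add_le_of_le (B ρ h0 f hf) (B ρ' h0' f hf)
  · simpa only [neg_neg] using N _ hρ.neg ((ts_neg_arg hρ).trans h0)
  · simpa only [star_star] using T _ hρ.star ((ts_star hρ).trans h0)

open DnP in
theorem pDual (h1 : S_Dn) (h2 : S_Young) : S_Dual := by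
  intro m ρ k B hm hρ h0 hk b1 b2
  obtain ⟨C, -, hD⟩ := h1
  obtain ⟨-, d1, -⟩ := hD m ρ hm hρ h0
  set y : GI → ℂ := fun u => ts m (fun w => (ρ w : ℂ) * k (u - w)) with hy
  have py : Per m y := fun u v => by simp only [hy, add_sub_right_comm, hk _ v]
  let f : GI → ℂ := fun w => ts m (fun u => conj (y u) * k (u - w))
  have pf : Per m f := fun w v => by simp only [f, (hk.sub_left _) w v]
  have e1 : ((msq m y : ℝ) : ℂ) = av m (fun w => (ρ w : ℂ) * f w) := by
    have e2 : ∀ u, ((‖y u‖ ^ 2 : ℝ) : ℂ) = ts m (fun w => (ρ w : ℂ) * (conj (y u) * k (u - w))) := by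
      intro u
      simp only [mul_left_comm _ (conj (y u))]
      rw [ts_mul_left, ofReal_pow, ← conj_mul']
    rw [msq, av, av, smul_eq_mul, ofReal_mul, ts_ofReal, real_smul]
    simp only [e2, f, ← ts_mul_left]
    exact ts_comm _ _ _
  have G : ∀ g : GI, ts m (fun x => ‖k (x + g) - k x‖) ≤ B →
      msq m (fun w => f (w + g) - f w) ≤ B ^ 2 * msq m y := by
    intro g hg
    have p1 : Per m (fun x => ‖k (x - g) - k x‖) := fun u w => congrArg norm (per_back hk g u w)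
    have e3 : ts m (fun x => ‖k (-x - g) - k (-x)‖) = ts m (fun x => ‖k (x + g) - k x‖) := by
      rw [ts_neg_arg p1, ← ts_shift p1 g]
      simp only [add_sub_cancel_right, norm_sub_rev]
    have := (h2 m _ p1.neg fun _ => norm_nonneg _).1 y
      (fun w u => conj (y u) * k (u - (w + g)) - conj (y u) * k (u - w)) py fun w u => by
        rw [← mul_sub, norm_mul, norm_conj, mul_comm, neg_sub, sub_sub]
    simp only [ts_sub] at this
    refine this.trans (mul_le_mul_of_nonneg_right ?_ (msq_nonneg _ _))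
    rw [e3]
    exact pow_le_pow_left₀ (ts_nonneg m fun _ => norm_nonneg _) hg 2
  have g1 : g2 m f ≤ 2 * B ^ 2 * msq m y := by
    rw [g2]
    linarith [G 1 b1, G gi b2]
  have g3 := d1 f pf
  have hY := msq_nonneg m y
  rw [← e1, norm_real, Real.norm_of_nonneg hY] at g3
  have g4 : msq m y ^ 2 ≤ dn m ρ ^ 2 * (2 * B ^ 2 * msq m y) := by
    refine (pow_le_pow_left₀ hY g3 2).trans ?_
    rw [mul_pow, Real.sq_sqrt (g2_nonneg m f)]
    exact mul_le_mul_of_nonneg_left g1 (sq_nonneg _)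
  rcases hY.eq_or_lt with h | h
  · rw [← h]
    positivity
  · exact le_of_mul_le_mul_right (by linarith) h

end Pool.Agent.P.MP_cc4a10_gt
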