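import Pool.Agent.P.MP_cc4a10_gt.EllB

/-!
Existence of the periodic kernels.
-/

open Set Filter Topology Complex Metric
open scoped ComplexConjugate Real

noncomputable section

namespace Pool.Agent.P.MP_cc4a10_gt

namespace EllC

theorem hl_apply (a h : ℂ) : hl a h = (a * h).re := rfl

theorem sq_der (w : ℂ) : HasFDerivAt (fun v : ℂ => ‖v‖ ^ 2) (hl (2 * conj w)) w := by
  refine (hasStrictFDerivAt_norm_sq w).hasFDerivAt.congr_fderiv
    (ContinuousLinearMap.ext fun h => ?_)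
  simp [hl_apply]
  ring

theorem log_der {w : ℂ} (h0 : w ≠ 0) : HasFDerivAt (fun v : ℂ => Real.log ‖v‖) (hl w⁻¹) w := by
  have h1 : ‖w‖ ^ 2 ≠ 0 := pow_ne_zero 2 (norm_ne_zero_iff.2 h0)
  have h2 := ((sq_der w).log h1).const_mul (1 / 2 : ℝ)
  have h3 : (fun v : ℂ => Real.log ‖v‖) = fun v : ℂ => 1 / 2 * Real.log (‖v‖ ^ 2) := by
    funext v
    rw [Real.log_pow]
    push_cast
    ring
  rw [h3]
  refine h2.congr_fderiv (ContinuousLinearMap.ext fun h => ?_)
  simp [hl_apply, normSq_eq_norm_sq]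
  field_simp
  ring

theorem re_der {f : ℂ → ℂ} {w a : ℂ} (h : HasDerivAt f a w) :
    HasFDerivAt (fun v => (f v).re) (hl a) w := by
  refine (reCLM.hasFDerivAt.comp w (h.hasFDerivAt.restrictScalars ℝ)).congr_fderiv
    (ContinuousLinearMap.ext fun h => ?_)
  simp [hl_apply, mul_comm]

theorem ball_nhds {w : ℂ} (hw : ‖w‖ < 19 / 20) : ball (0 : ℂ) (19 / 20) ∈ 𝓝 w :=
  isOpen_ball.mem_nhds (mem_ball_zero_iff.2 hw)

theorem Gr_der {μ w : ℂ} (h : ‖μ‖ < 1 / 80) (hw : ‖w‖ < 19 / 20) (h0 : w ≠ 0) :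
    HasFDerivAt (Gr μ) (hl (w⁻¹ + deriv (F μ) w - bE μ * conj w)) w := by
  have h1 := ((log_der h0).add
    (re_der ((F_hol h).differentiableAt (ball_nhds hw)).hasDerivAt)).sub
    ((sq_der w).const_mul (bE μ / 2))
  refine HasFDerivAt.congr_of_eventuallyEq (f := fun v =>
    Real.log ‖v‖ + (F μ v).re - bE μ / 2 * ‖v‖ ^ 2) ?_ ?_
  · refine h1.congr_fderiv (ContinuousLinearMap.ext fun h => ?_)
    simp [hl_apply]
    ring
  · filter_upwards [ball_nhds hw] with v hv
    rw [Gr_loc h (mem_ball_zero_iff.1 hv)]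
    ring

open Classical in
/-- The periodic force kernel. -/
def Z (μ w : ℂ) : ℂ :=
  if La μ w then 0 else (fderiv ℝ (Gr μ) w 1 : ℝ) - I * (fderiv ℝ (Gr μ) w I : ℝ)

theorem Z_per {μ : ℂ} (h : ‖μ‖ < 1 / 80) (w : ℂ) (u : GI) : Z μ (w + Lm μ u) = Z μ w := by
  rw [Z, Z, propext (La_add μ w u), ← fderiv_comp_add_right]
  simp only [Gr_per h]

theorem dF_zero (μ : ℂ) : deriv (F μ) 0 = 0 := by
  have h := deriv_comp_neg (F μ) 0
  simp only [F_even, neg_zero] at h
  linear_combination h / 2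

theorem Z_loc {μ w : ℂ} (h : ‖μ‖ < 1 / 80) (hw : ‖w‖ < 19 / 20) :
    Z μ w = w⁻¹ + deriv (F μ) w - bE μ * conj w := by
  by_cases h0 : w = 0
  · subst h0
    rw [Z, if_pos ⟨0, by simp [Lm]⟩, dF_zero]
    simp
  · rw [Z, if_neg (not_La h hw h0), (Gr_der h hw h0).fderiv, hl_apply, hl_apply]
    generalize w⁻¹ + deriv (F μ) w - bE μ * conj w = c
    apply Complex.ext <;> simp

theorem h00 : ‖(0 : ℂ)‖ < 1 / 80 := by norm_num

theorem Lm0 (z : ℂ) : Lm 0 z = z := by simp [Lm]

theorem bE0 : bE 0 = π := by simp [bE]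

theorem Z_per0 (w : ℂ) (u : GI) : Z 0 (w + u) = Z 0 w := by
  simpa only [Lm0] using Z_per h00 w u

open Classical in
/-- The elliptic function of the square lattice. -/
def wp (w : ℂ) : ℂ :=
  if La 0 w then -deriv (deriv (F 0)) 0 else -deriv (fun v => Z 0 v + π * conj v) w

theorem wp_per (w : ℂ) (u : GI) : wp (w + u) = wp w := by
  have h := La_add 0 w u
  rw [Lm0] at h
  rw [wp, wp, propext h, ← deriv_comp_add_const]
  simp only [Z_per0, map_add, mul_add, ← add_assoc, deriv_add_const]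

theorem dF_hol : DifferentiableOn ℂ (deriv (F 0)) (ball 0 (19 / 20)) :=
  (F_hol h00).deriv isOpen_ball

theorem wp_loc {w : ℂ} (hw : ‖w‖ < 19 / 20) : wp w = w⁻¹ ^ 2 - deriv (deriv (F 0)) w := by
  by_cases h0 : w = 0
  · subst h0
    rw [wp, if_pos ⟨0, by simp [Lm]⟩]
    simp
  · have h1 : (fun v => Z 0 v + π * conj v) =ᶠ[𝓝 w] fun v => v⁻¹ + deriv (F 0) v := by
      filter_upwards [ball_nhds hw] with v hv
      rw [Z_loc h00 (mem_ball_zero_iff.1 hv), bE0, sub_add_cancel]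
    have h2 := (hasDerivAt_inv h0).add (dF_hol.differentiableAt (ball_nhds hw)).hasDerivAt
    rw [wp, if_neg (not_La h00 hw h0), h1.deriv_eq]
    refine (congrArg Neg.neg h2.deriv).trans ?_
    rw [inv_pow]
    ring

theorem near (w : ℂ) : ∃ u : GI, ‖w - u‖ ≤ 3 / 4 := by
  refine ⟨⟨round w.re, round w.im⟩, ?_⟩
  have h1 := abs_le.1 (abs_sub_round w.re)
  have h2 := abs_le.1 (abs_sub_round w.im)
  refine abs_le_of_sq_le_sq' ?_ (by norm_num) |>.2
  rw [← normSq_eq_norm_sq, normSq_apply, sub_re, sub_im, GaussianInt.re_toComplex,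
    GaussianInt.im_toComplex]
  nlinarith

theorem dF_rot {w : ℂ} (hw : ‖w‖ < 19 / 20) : I * deriv (F 0) (I * w) - deriv (F 0) w = 0 := by
  let D : ℂ → ℂ := fun v => I * Z 0 (I * v) - Z 0 v
  let D0 : ℂ → ℂ := fun v => I * deriv (F 0) (I * v) - deriv (F 0) v
  have hI : ∀ v : ℂ, ‖I * v‖ = ‖v‖ := fun v => by rw [norm_mul, norm_I, one_mul]
  have h1 : ∀ v, ‖v‖ < 19 / 20 → D v = D0 v := fun v hv => by
    simp only [D, D0]
    rw [Z_loc h00 hv, Z_loc h00 (by rwa [hI]), mul_inv, inv_I, map_mul, conj_I]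
    linear_combination (bE 0 * conj v - v⁻¹) * I_mul_I
  have h2 : ∀ v (u : GI), D (v + u) = D v := fun v u => by
    have e : I * (v + u) = I * v + ((gi * u : GI) : ℂ) := by
      rw [GaussianInt.toComplex_mul, GaussianInt.toComplex_def gi]
      simp [mul_add, gi]
    simp only [D]
    rw [e, Z_per0, Z_per0]
  have h3 : DifferentiableOn ℂ D0 (ball 0 (19 / 20)) :=
    ((dF_hol.comp (by fun_prop) fun v hv => mem_ball_zero_iff.2
      (by rw [hI]; exact mem_ball_zero_iff.1 hv)).const_mul I).sub dF_hol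
  have h4 : Differentiable ℂ D := fun v => by
    obtain ⟨u, hu⟩ := near v
    have h5 : ball (0 : ℂ) (19 / 20) ∈ 𝓝 (v - u) := ball_nhds (by linarith)
    have h6 : DifferentiableAt ℂ (fun y => D0 (y - u)) v :=
      DifferentiableAt.comp (g := D0) (f := fun y => y - (u : ℂ)) v (h3.differentiableAt h5)
        (by fun_prop)
    refine h6.congr_of_eventuallyEq ?_
    have h7 : ContinuousAt (fun y : ℂ => y - (u : ℂ)) v := by fun_prop
    filter_upwards [h7.preimage_mem_nhds h5] with y hy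
    rw [← h1 (y - u) (mem_ball_zero_iff.1 hy), ← h2 (y - u) u, sub_add_cancel]
  have h5 : Bornology.IsBounded (range D) := by
    refine ((isCompact_closedBall (0 : ℂ) (3 / 4)).image h4.continuous).isBounded.subset ?_
    rintro _ ⟨v, rfl⟩
    obtain ⟨u, hu⟩ := near v
    exact ⟨v - u, mem_closedBall_zero_iff.2 hu, by rw [← h2 _ u, sub_add_cancel]⟩
  have h6 := h4.apply_eq_apply_of_bounded h5 w 0
  rw [h1 w hw, h1 0 (by norm_num)] at h6
  simpa [D0, dF_zero] using h6

theorem F_rot (w : ℂ) : F 0 (I * w) = F 0 w := by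
  have hI : ∀ v : ℂ, ‖I * v‖ = ‖v‖ := fun v => by rw [norm_mul, norm_I, one_mul]
  by_cases hw : ‖w‖ < 19 / 20
  · have h1 : ∀ v ∈ ball (0 : ℂ) (19 / 20), HasDerivAt (fun y => F 0 (I * y) - F 0 y) 0 v := by
      intro v hv
      have hv' := mem_ball_zero_iff.1 hv
      have h2 := ((F_hol h00).differentiableAt (ball_nhds hv')).hasDerivAt
      have h3 := ((F_hol h00).differentiableAt (ball_nhds (w := I * v) (by rwa [hI]))).hasDerivAt
      have h4 := (h3.comp v ((hasDerivAt_id v).const_mul I)).sub h2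
      refine h4.congr_deriv ?_
      linear_combination dF_rot hv'
    have h2 := isOpen_ball.is_const_of_deriv_eq_zero (convex_ball (0 : ℂ) (19 / 20)).isPreconnected
      (fun v hv => (h1 v hv).differentiableAt.differentiableWithinAt)
      (fun v hv => (h1 v hv).deriv) (mem_ball_zero_iff.2 hw) (mem_ball_self (by norm_num))
    rw [mul_zero, sub_self] at h2
    exact sub_eq_zero.1 h2
  · rw [F, F, if_neg hw, if_neg (by rwa [hI])]

end EllC

open EllC in
theorem pEll : S_Ell :=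
  ⟨{ F := F, Z := Z, Gr := Gr, wp := wp, CF := 1600 * MF
     hol := fun _ h => F_hol (by linarith)
     bd := fun _ h _ hw => F_bd (by linarith) hw
     lip := fun _ _ h h' _ hw => F_lip h h' hw
     even := F_even
     zero := F_zero
     rot := F_rot
     cj := F_cj
     Zloc := fun _ h _ hw => Z_loc (by linarith) (by linarith)
     Gloc := fun _ h _ hw => Gr_loc (by linarith) (by linarith)
     Wloc := fun _ hw => wp_loc (by linarith)
     Zper := fun _ h => Z_per (by linarith)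
     Gper := fun _ h => Gr_per (by linarith)
     Wper := wp_per }⟩

end Pool.Agent.P.MP_cc4a10_gt
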