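import Pool.Agent.P.MP_cc4a10_gt.StA

/-!
The series from which the periodic kernels are built.
-/

open Set Filter Topology Complex Metric
open scoped ComplexConjugate Real

noncomputable section

namespace Pool.Agent.P.MP_cc4a10_gt

namespace EllC

theorem log_bd {x : ℂ} (h : ‖x‖ ≤ 95 / 100) : ‖log (1 - x)‖ ≤ 11 * ‖x‖ := by
  have h1 := norm_log_one_add_le (z := -x) (by rw [norm_neg]; linarith)
  rw [norm_neg, ← sub_eq_add_neg] at h1
  have h2 : (1 - ‖x‖)⁻¹ ≤ 20 := by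
    rw [inv_le_comm₀ (by linarith) (by norm_num)]
    linarith
  have h3 := norm_nonneg x
  have h4 : ‖x‖ ^ 2 * (1 - ‖x‖)⁻¹ ≤ ‖x‖ ^ 2 * 20 := mul_le_mul_of_nonneg_left h2 (sq_nonneg _)
  nlinarith

theorem slit {x : ℂ} (h : ‖x‖ ≤ 95 / 100) : 1 - x ∈ slitPlane := by
  rw [sub_eq_add_neg]
  exact mem_slitPlane_of_norm_lt_one (by rw [norm_neg]; linarith)

theorem log_cj {x : ℂ} (h : ‖x‖ ≤ 95 / 100) : log (1 - conj x) = conj (log (1 - x)) := by
  rw [← log_conj _ (slitPlane_arg_ne_pi (slit h))]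
  simp

/-- Logarithm of the sine quotient. -/
def S (z : ℂ) : ℂ := ∑' n : ℕ, log (1 - z ^ 2 / ((n : ℂ) + 1) ^ 2)

theorem S_tm {z : ℂ} (hz : ‖z‖ < 97 / 100) (n : ℕ) :
    ‖z ^ 2 / ((n : ℂ) + 1) ^ 2‖ ≤ 95 / 100 ∧
      ‖z ^ 2 / ((n : ℂ) + 1) ^ 2‖ ≤ 1 / ((n : ℝ) + 1) ^ 2 := by
  have h1 : ‖((n : ℂ) + 1)‖ = (n : ℝ) + 1 := by
    rw [← Nat.cast_succ, Complex.norm_natCast, Nat.cast_succ]
  have h2 : ‖z‖ ^ 2 ≤ 95 / 100 := by nlinarith [norm_nonneg z]
  have h3 : (1 : ℝ) ≤ ((n : ℝ) + 1) ^ 2 := by nlinarith [Nat.cast_nonneg (α := ℝ) n]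
  rw [norm_div, norm_pow, norm_pow, h1]
  constructor
  · exact (div_le_self (sq_nonneg _) h3).trans h2
  · exact div_le_div_of_nonneg_right (by linarith) (by linarith)

theorem sum_sq : Summable fun n : ℕ => 11 * (1 / ((n : ℝ) + 1) ^ 2) := by
  refine Summable.mul_left _ ?_
  have := (summable_nat_add_iff 1).2 (Real.summable_one_div_nat_pow.2 one_lt_two)
  simpa using this

theorem S_le {z : ℂ} (hz : ‖z‖ < 97 / 100) (n : ℕ) :
    ‖log (1 - z ^ 2 / ((n : ℂ) + 1) ^ 2)‖ ≤ 11 * (1 / ((n : ℝ) + 1) ^ 2) :=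
  (log_bd (S_tm hz n).1).trans (mul_le_mul_of_nonneg_left (S_tm hz n).2 (by norm_num))

theorem S_diff : DifferentiableOn ℂ S (ball 0 (97 / 100)) :=
  differentiableOn_tsum_of_summable_norm sum_sq (fun n => DifferentiableOn.clog (by fun_prop)
    fun z hz => slit (S_tm (mem_ball_zero_iff.1 hz) n).1) isOpen_ball
    fun n z hz => S_le (mem_ball_zero_iff.1 hz) n

/-- Bound for the series. -/
def M1 : ℝ := ∑' n : ℕ, 11 * (1 / ((n : ℝ) + 1) ^ 2)

theorem S_bd {z : ℂ} (hz : ‖z‖ < 97 / 100) : ‖S z‖ ≤ M1 :=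
  tsum_of_norm_bounded sum_sq.hasSum (S_le hz)

theorem S_cj {z : ℂ} (hz : ‖z‖ < 97 / 100) : S (conj z) = conj (S z) := by
  rw [S, S, conj_tsum]
  refine tsum_congr fun n => ?_
  rw [← log_cj (S_tm hz n).1]
  simp

theorem S_sin {z : ℂ} (hz : ‖z‖ < 97 / 100) : π * z * exp (S z) = sin (π * z) := by
  refine tendsto_nhds_unique ?_ (tendsto_euler_sin_prod z)
  have h1 : Summable fun n : ℕ => log (1 - z ^ 2 / ((n : ℂ) + 1) ^ 2) :=
    Summable.of_norm_bounded sum_sq (S_le hz)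
  have h2 := ((continuous_exp.tendsto _).comp h1.hasSum.tendsto_sum_nat).const_mul (π * z)
  refine h2.congr fun n => ?_
  rw [Function.comp_apply, exp_sum]
  exact congrArg _ (Finset.prod_congr rfl fun j _ =>
    exp_log (slitPlane_ne_zero (slit (S_tm hz j).1)))

/-- The exponentials of the lattice rows. -/
def X (τ : ℂ) (n : ℕ) (z : ℂ) : ℂ := exp (2 * π * I * (n * τ + z))

theorem X_norm (τ : ℂ) (n : ℕ) (z : ℂ) : ‖X τ n z‖ = Real.exp (-(2 * π * (n * τ.im + z.im))) := by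
  rw [X, norm_exp]
  congr 1
  simp

theorem X_sum {τ : ℂ} (hτ : 0 < τ.im) (z : ℂ) : Summable fun n => X τ n z := by
  refine Summable.of_norm ?_
  have h1 : ∀ n : ℕ, ‖X τ n z‖ = Real.exp (-(2 * π * τ.im)) ^ n * Real.exp (-(2 * π * z.im)) := by
    intro n
    rw [X_norm, ← Real.exp_nat_mul, ← Real.exp_add]
    congr 1
    ring
  simp only [h1]
  refine (summable_geometric_of_lt_one (Real.exp_pos _).le ?_).mul_right _
  exact Real.exp_lt_one_iff.2 (neg_lt_zero.2 (by positivity))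

/-- Real logarithms of the row factors. -/
def a (τ : ℂ) (n : ℕ) (z : ℂ) : ℝ := Real.log ‖1 - X τ n z‖

theorem l_sum {τ : ℂ} (hτ : 0 < τ.im) (z : ℂ) : Summable fun n => log (1 - X τ n z) := by
  simpa [sub_eq_add_neg] using summable_log_one_add_of_summable (X_sum hτ z).neg

theorem a_sum {τ : ℂ} (hτ : 0 < τ.im) (z : ℂ) : Summable fun n => a τ n z := by
  simpa [log_re, a] using reCLM.summable (l_sum hτ z)

/-- Sum over the rows. -/
def T (τ z : ℂ) : ℂ := ∑' n : ℕ, log (1 - X τ (n + 1) z)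

theorem T_re {τ : ℂ} (hτ : 0 < τ.im) (z : ℂ) : (T τ z).re = ∑' n, a τ (n + 1) z := by
  rw [T, re_tsum ((summable_nat_add_iff 1).2 (l_sum hτ z))]
  simp [log_re, a]

/-- The periodic potential. -/
def Gz (τ z : ℂ) : ℝ :=
  ∑' n, a τ n z + ∑' n, a τ (n + 1) (-z) + π * z.im - π * z.im ^ 2 / τ.im

theorem X_one (τ : ℂ) (n : ℕ) (z : ℂ) : X τ n (z + 1) = X τ n z ∧ X τ n (-(z + 1)) = X τ n (-z) := by
  constructor
  · rw [X, X, ← exp_periodic (2 * π * I * (n * τ + z))]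
    congr 1
    ring
  · rw [X, X, ← exp_periodic (2 * π * I * (n * τ + -(z + 1)))]
    congr 1
    ring

theorem Gz_one (τ z : ℂ) : Gz τ (z + 1) = Gz τ z := by
  simp only [Gz, a, (X_one τ _ z).1, (X_one τ _ z).2]
  simp

theorem Gz_tau {τ : ℂ} (hτ : 0 < τ.im) {z : ℂ} (hz : ∀ k : ℤ, z ≠ k) : Gz τ (z + τ) = Gz τ z := by
  have h1 : ∀ n, a τ n (z + τ) = a τ (n + 1) z := fun n => by
    simp only [a, X]
    congr 4
    push_cast
    ring
  have h2 : ∀ n, a τ (n + 1) (-(z + τ)) = a τ n (-z) := fun n => by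
    simp only [a, X]
    congr 4
    push_cast
    ring
  have h3 : 1 - X τ 0 z ≠ 0 := by
    intro h
    obtain ⟨k, hk⟩ := exp_eq_one_iff.1 (sub_eq_zero.1 h).symm
    refine hz k (mul_left_cancel₀ two_pi_I_ne_zero ?_)
    rw [mul_comm _ (k : ℂ), ← hk]
    simp
  have h4 : 1 - X τ 0 (-z) = -X τ 0 (-z) * (1 - X τ 0 z) := by
    have : X τ 0 (-z) * X τ 0 z = 1 := by
      rw [X, X, ← exp_add]
      simp
    linear_combination -this
  have h5 : a τ 0 (-z) = a τ 0 z + 2 * π * z.im := by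
    rw [a, h4, norm_mul, norm_neg, X_norm, Real.log_mul (Real.exp_pos _).ne' (norm_ne_zero_iff.2 h3),
      Real.log_exp, a]
    simp
    ring
  simp only [Gz, h1, h2]
  rw [(a_sum hτ z).tsum_eq_zero_add, (a_sum hτ (-z)).tsum_eq_zero_add, h5, add_im]
  field_simp
  ring

theorem a_zero (τ : ℂ) {z : ℂ} (hz : ‖z‖ < 97 / 100) (h0 : z ≠ 0) :
    a τ 0 z + π * z.im = Real.log (2 * π) + Real.log ‖z‖ + (S z).re := by
  have h1 : 1 - X τ 0 z = -2 * I * exp (π * z * I) * (π * z * exp (S z)) := by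
    rw [S_sin hz, Complex.sin, X]
    have e1 : exp (π * z * I) * exp (-(π * z) * I) = 1 := by
      rw [← exp_add]
      simp
    have e2 : exp (π * z * I) * exp (π * z * I) = exp (2 * π * I * (((0 : ℕ) : ℂ) * τ + z)) := by
      rw [← exp_add]
      congr 1
      push_cast
      ring
    linear_combination -e1 + e2 +
      (exp (π * z * I) * (exp (-(π * z) * I) - exp (π * z * I))) * I_mul_I
  have h2 : ‖1 - X τ 0 z‖ = 2 * π * ‖z‖ * Real.exp ((S z).re - π * z.im) := by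
    rw [h1]
    simp only [norm_mul, norm_neg, norm_exp, norm_I, norm_real, Real.norm_eq_abs,
      abs_of_pos Real.pi_pos, Complex.norm_ofNat]
    rw [sub_eq_add_neg, Real.exp_add]
    simp
    ring
  have h3 : 0 < ‖z‖ := norm_pos_iff.2 h0
  rw [a, h2, Real.log_mul (by positivity) (Real.exp_pos _).ne', Real.log_exp,
    Real.log_mul (by positivity) h3.ne']
  ring

theorem Gz_loc {τ : ℂ} (hτ : 0 < τ.im) {z : ℂ} (hz : ‖z‖ < 97 / 100) (h0 : z ≠ 0) :
    Gz τ z = Real.log (2 * π) + Real.log ‖z‖ + (S z + (T τ z + T τ (-z))).re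
      - π * z.im ^ 2 / τ.im := by
  rw [Gz, (a_sum hτ z).tsum_eq_zero_add, add_re, add_re, T_re hτ, T_re hτ]
  linarith [a_zero τ hz h0]

/-- The rows are geometrically small. -/
def Sm (τ z : ℂ) : Prop := ∀ n : ℕ, ‖X τ (n + 1) z‖ ≤ (94 / 100) ^ (n + 1)

theorem Sm.le {τ z : ℂ} (h : Sm τ z) (n : ℕ) : ‖X τ (n + 1) z‖ ≤ 95 / 100 := by
  refine (h n).trans ?_
  rw [pow_succ]
  have : (94 / 100 : ℝ) ^ n ≤ 1 := pow_le_one₀ (by norm_num) (by norm_num)
  linarith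

theorem sum_ge : Summable fun n : ℕ => 11 * (94 / 100 : ℝ) ^ (n + 1) :=
  ((summable_nat_add_iff 1).2
    (summable_geometric_of_lt_one (by norm_num) (by norm_num))).mul_left _

theorem T_le {τ z : ℂ} (h : Sm τ z) (n : ℕ) :
    ‖log (1 - X τ (n + 1) z)‖ ≤ 11 * (94 / 100 : ℝ) ^ (n + 1) :=
  (log_bd (h.le n)).trans (mul_le_mul_of_nonneg_left (h n) (by norm_num))

/-- Bound for the row series. -/
def M2 : ℝ := ∑' n : ℕ, 11 * (94 / 100 : ℝ) ^ (n + 1)

theorem T_bd {τ z : ℂ} (h : Sm τ z) : ‖T τ z‖ ≤ M2 :=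
  tsum_of_norm_bounded sum_ge.hasSum (T_le h)

theorem T_diff {τ z : ℂ → ℂ} {U : Set ℂ} (hU : IsOpen U) (h1 : DifferentiableOn ℂ τ U)
    (h2 : DifferentiableOn ℂ z U) (h : ∀ s ∈ U, Sm (τ s) (z s)) :
    DifferentiableOn ℂ (fun s => T (τ s) (z s)) U :=
  differentiableOn_tsum_of_summable_norm sum_ge (fun n =>
    DifferentiableOn.clog (by unfold X; fun_prop) fun s hs => slit ((h s hs).le n)) hU
    fun n s hs => T_le (h s hs) n

theorem T_cj {z : ℂ} (h : Sm I z) : T I (-conj z) = conj (T I z) := by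
  rw [T, T, conj_tsum]
  refine tsum_congr fun n => ?_
  rw [← log_cj (h.le n), X, X, ← exp_conj]
  congr 3
  simp [map_ofNat]
  ring

end EllC

end Pool.Agent.P.MP_cc4a10_gt
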