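import Pool.Agent.P.MP_cc4a10_gt.EllA

/-!
The holomorphic part of the periodic kernels and the periodic potential.
-/

open Set Filter Topology Complex Metric
open scoped ComplexConjugate Real

noncomputable section

namespace Pool.Agent.P.MP_cc4a10_gt

namespace EllC

/-- Ratio of the periods. -/
def tau (μ : ℂ) : ℂ := I * (1 - μ) / (1 + μ)

theorem om_ge {μ : ℂ} (h : ‖μ‖ < 1 / 80) : 79 / 80 ≤ ‖1 + μ‖ := by
  have := norm_sub_le (1 + μ) μ
  rw [add_sub_cancel_right, norm_one] at this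
  linarith

theorem om_ne {μ : ℂ} (h : ‖μ‖ < 1 / 80) : 1 + μ ≠ 0 :=
  norm_pos_iff.1 (by linarith [om_ge h])

theorem z_lt {μ w : ℂ} (h : ‖μ‖ < 1 / 80) (hw : ‖w‖ < 19 / 20) : ‖w / (1 + μ)‖ < 97 / 100 := by
  have := om_ge h
  rw [norm_div, div_lt_iff₀ (by linarith)]
  linarith

theorem tau_im {μ : ℂ} (h : ‖μ‖ < 1 / 80) : (tau μ).im * ‖1 + μ‖ ^ 2 = 1 - ‖μ‖ ^ 2 := by
  have h1 : normSq (1 + μ) ≠ 0 := fun h' => om_ne h (normSq_eq_zero.1 h')
  rw [tau, div_im, ← normSq_eq_norm_sq, ← normSq_eq_norm_sq]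
  field_simp
  simp [normSq_apply]
  ring

theorem area_pos {μ : ℂ} (h : ‖μ‖ < 1 / 80) : 99 / 100 ≤ 1 - ‖μ‖ ^ 2 := by
  nlinarith [norm_nonneg μ]

theorem tau_pos {μ : ℂ} (h : ‖μ‖ < 1 / 80) : 0 < (tau μ).im := by
  have h1 := tau_im h
  have h2 := area_pos h
  by_contra h3
  nlinarith [sq_nonneg ‖1 + μ‖, not_lt.1 h3]

theorem sm {μ w : ℂ} (h : ‖μ‖ < 1 / 80) (hw : ‖w‖ < 19 / 20) : Sm (tau μ) (w / (1 + μ)) := by
  intro n
  set N : ℝ := n + 1 with hN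
  have hN1 : 1 ≤ N := by
    have : (0 : ℝ) ≤ n := Nat.cast_nonneg n
    linarith
  have h0 := om_ge h
  have h1 : (N : ℂ) * tau μ + w / (1 + μ) = N * I + (w - 2 * N * I * μ) / (1 + μ) := by
    have := om_ne h
    unfold tau
    field_simp
    ring
  have h2 : ‖(w - 2 * N * I * μ) / (1 + μ)‖ ≤ N * (78 / 79) := by
    rw [norm_div, div_le_iff₀ (by linarith)]
    have h3 : ‖2 * (N : ℂ) * I * μ‖ = 2 * N * ‖μ‖ := by
      simp [abs_of_pos (show 0 < N by linarith)]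
    have h4 := norm_sub_le w (2 * N * I * μ)
    nlinarith
  have h3 : N / 80 ≤ N * (tau μ).im + (w / (1 + μ)).im := by
    have h4 := congrArg im h1
    have h5 := (abs_le.1 (abs_im_le_norm ((w - 2 * N * I * μ) / (1 + μ)))).1
    simp only [add_im, mul_im, ofReal_re, ofReal_im, I_re, I_im, zero_mul, add_zero, mul_one,
      mul_zero] at h4
    linarith
  have h4 : Real.exp (-(3 / 40)) ≤ 94 / 100 := by
    have := Real.add_one_le_exp (3 / 40)
    rw [Real.exp_neg, inv_le_comm₀ (Real.exp_pos _) (by norm_num)]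
    linarith
  rw [X_norm]
  refine le_trans ?_ (pow_le_pow_left₀ (Real.exp_pos _).le h4 (n + 1))
  rw [← Real.exp_nat_mul, Real.exp_le_exp]
  push_cast
  rw [← hN]
  nlinarith [Real.pi_gt_three]

theorem sm' {μ w : ℂ} (h : ‖μ‖ < 1 / 80) (hw : ‖w‖ < 19 / 20) : Sm (tau μ) (-(w / (1 + μ))) := by
  rw [← neg_div]
  exact sm h (by rwa [norm_neg])

theorem sm0 {μ : ℂ} (h : ‖μ‖ < 1 / 80) : Sm (tau μ) 0 := by
  simpa using sm (w := 0) h (by norm_num)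

/-- Coefficient of the quadratic term. -/
def cc (μ ν : ℂ) : ℂ := π * (1 + ν) / ((1 - μ * ν) * (1 + μ)) / 2

theorem mul_ge {μ ν : ℂ} (h : ‖μ‖ < 1 / 80) (h' : ‖ν‖ < 1 / 80) : 99 / 100 ≤ ‖1 - μ * ν‖ := by
  have h1 := norm_sub_norm_le (1 : ℂ) (μ * ν)
  rw [norm_one, norm_mul] at h1
  nlinarith [norm_nonneg μ, norm_nonneg ν]

theorem cc_bd {μ ν : ℂ} (h : ‖μ‖ < 1 / 80) (h' : ‖ν‖ < 1 / 80) : ‖cc μ ν‖ ≤ 4 := by
  have h1 := mul_ge h h'
  have h2 := om_ge h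
  have h3 : ‖1 + ν‖ ≤ 81 / 80 := (norm_add_le _ _).trans (by rw [norm_one]; linarith)
  have h4 : 9 / 10 ≤ ‖1 - μ * ν‖ * ‖1 + μ‖ := by nlinarith
  rw [cc, norm_div, norm_div, norm_mul, norm_mul, norm_real, Real.norm_eq_abs,
    abs_of_pos Real.pi_pos, Complex.norm_ofNat, div_le_iff₀ (by norm_num),
    div_le_iff₀ (by linarith)]
  nlinarith [Real.pi_le_four, Real.pi_pos, norm_nonneg (1 + ν)]

/-- The holomorphic part, as a function of three variables. -/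
def F0 (μ ν w : ℂ) : ℂ :=
  S (w / (1 + μ)) + (T (tau μ) (w / (1 + μ)) + T (tau μ) (-(w / (1 + μ)))) - 2 * T (tau μ) 0
    + cc μ ν * w ^ 2

/-- Its bound. -/
def MF : ℝ := M1 + 4 * M2 + 4

theorem F0_bd {μ ν w : ℂ} (h : ‖μ‖ < 1 / 80) (h' : ‖ν‖ < 1 / 80) (hw : ‖w‖ < 19 / 20) :
    ‖F0 μ ν w‖ ≤ MF := by
  have h1 := S_bd (z_lt h hw)
  have h2 := T_bd (sm h hw)
  have h3 := T_bd (sm' h hw)
  have h4 := T_bd (sm0 h)
  have h5 : ‖cc μ ν * w ^ 2‖ ≤ 4 := by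
    rw [norm_mul, norm_pow]
    have : ‖w‖ ^ 2 ≤ 1 := by nlinarith [norm_nonneg w]
    nlinarith [cc_bd h h', norm_nonneg (cc μ ν)]
  have h6 : ‖2 * T (tau μ) 0‖ = 2 * ‖T (tau μ) 0‖ := by simp
  unfold F0 MF
  refine (norm_add_le _ _).trans ?_
  have h7 := norm_sub_le (S (w / (1 + μ)) + (T (tau μ) (w / (1 + μ)) + T (tau μ) (-(w / (1 + μ)))))
    (2 * T (tau μ) 0)
  have h8 := norm_add_le (S (w / (1 + μ))) (T (tau μ) (w / (1 + μ)) + T (tau μ) (-(w / (1 + μ))))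
  have h9 := norm_add_le (T (tau μ) (w / (1 + μ))) (T (tau μ) (-(w / (1 + μ))))
  linarith

theorem F0_diff {μ ν w : ℂ → ℂ} {U : Set ℂ} (hU : IsOpen U) (h1 : DifferentiableOn ℂ μ U)
    (h2 : DifferentiableOn ℂ ν U) (h3 : DifferentiableOn ℂ w U)
    (h : ∀ s ∈ U, ‖μ s‖ < 1 / 80 ∧ ‖ν s‖ < 1 / 80 ∧ ‖w s‖ < 19 / 20) :
    DifferentiableOn ℂ (fun s => F0 (μ s) (ν s) (w s)) U := by
  have a0 : ∀ s ∈ U, 1 + μ s ≠ 0 := fun s hs => om_ne (h s hs).1
  have a1 : DifferentiableOn ℂ (fun s => 1 + μ s) U := by fun_prop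
  have a2 : DifferentiableOn ℂ (fun s => w s / (1 + μ s)) U := h3.div a1 a0
  have a3 : DifferentiableOn ℂ (fun s => tau (μ s)) U :=
    DifferentiableOn.div (by fun_prop) a1 a0
  have a4 : DifferentiableOn ℂ (fun s => cc (μ s) (ν s)) U := by
    refine DifferentiableOn.div_const (DifferentiableOn.div (by fun_prop) (by fun_prop)
      fun s hs => mul_ne_zero ?_ (a0 s hs)) _
    exact norm_pos_iff.1 (by linarith [mul_ge (h s hs).1 (h s hs).2.1])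
  have a5 : DifferentiableOn ℂ (fun s => S (w s / (1 + μ s))) U :=
    S_diff.comp a2 fun s hs => mem_ball_zero_iff.2 (z_lt (h s hs).1 (h s hs).2.2)
  have a6 := T_diff hU a3 a2 fun s hs => sm (h s hs).1 (h s hs).2.2
  have a7 := T_diff hU a3 a2.neg fun s hs => sm' (h s hs).1 (h s hs).2.2
  have a8 := T_diff hU a3 (differentiableOn_const 0) fun s hs => sm0 (h s hs).1
  exact ((a5.add (a6.add a7)).sub (a8.const_mul 2)).add (a4.mul (h3.pow 2))

theorem lip {f : ℂ → ℂ} {M : ℝ} (hd : DifferentiableOn ℂ f (ball 0 (1 / 80)))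
    (hb : ∀ s, ‖s‖ < 1 / 80 → ‖f s‖ ≤ M) {a b : ℂ} (ha : ‖a‖ ≤ 1 / 100) (hb' : ‖b‖ ≤ 1 / 100) :
    ‖f a - f b‖ ≤ 800 * M * ‖a - b‖ := by
  have h0 : 0 ≤ M := (norm_nonneg _).trans (hb 0 (by norm_num))
  have h1 : ∀ s, ‖s‖ < 1 / 80 → ‖f s - f b‖ ≤ 2 * M := fun s hs => by
    linarith [norm_sub_le (f s) (f b), hb s hs, hb b (by linarith)]
  by_cases h : ‖a - b‖ < 1 / 400
  · have h2 : ball b (1 / 400) ⊆ ball 0 (1 / 80) := fun s hs => by
      rw [mem_ball_iff_norm] at hs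
      rw [mem_ball_zero_iff]
      linarith [norm_le_norm_add_norm_sub' s b]
    have h3 := dist_le_div_mul_dist_of_mapsTo_ball (R₂ := 2 * M) (hd.mono h2)
      (fun s hs => mem_closedBall_iff_norm.2 (h1 s (mem_ball_zero_iff.1 (h2 hs))))
      (mem_ball_iff_norm.2 h)
    rw [dist_eq_norm, dist_eq_norm] at h3
    linarith
  · nlinarith [h1 a (by linarith), not_lt.1 h]

/-- The holomorphic part. -/
def F (μ w : ℂ) : ℂ := if ‖w‖ < 19 / 20 then F0 μ (conj μ) w else 0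

theorem MF_nonneg : 0 ≤ MF :=
  (norm_nonneg _).trans (F0_bd (μ := 0) (ν := 0) (w := 0) (by norm_num) (by norm_num) (by norm_num))

theorem F_hol {μ : ℂ} (h : ‖μ‖ < 1 / 80) : DifferentiableOn ℂ (F μ) (ball 0 (19 / 20)) :=
  (F0_diff isOpen_ball (differentiableOn_const μ) (differentiableOn_const (conj μ))
    differentiableOn_id fun s hs => ⟨h, by rwa [norm_conj], mem_ball_zero_iff.1 hs⟩).congr
    fun s hs => if_pos (mem_ball_zero_iff.1 hs)

theorem F_bd {μ w : ℂ} (h : ‖μ‖ < 1 / 80) (hw : ‖w‖ < 19 / 20) : ‖F μ w‖ ≤ 1600 * MF := by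
  rw [F, if_pos hw]
  linarith [F0_bd h (show ‖conj μ‖ < 1 / 80 by rwa [norm_conj]) hw, MF_nonneg]

theorem F_lip {μ ν w : ℂ} (h : ‖μ‖ ≤ 1 / 100) (h' : ‖ν‖ ≤ 1 / 100) (hw : ‖w‖ < 19 / 20) :
    ‖F μ w - F ν w‖ ≤ 1600 * MF * ‖μ - ν‖ := by
  have c1 : ‖conj μ‖ ≤ 1 / 100 := by rwa [norm_conj]
  have c2 : ‖conj ν‖ ≤ 1 / 100 := by rwa [norm_conj]
  have h1 := lip (f := fun s => F0 s (conj μ) w) (F0_diff isOpen_ball differentiableOn_id
    (differentiableOn_const _) (differentiableOn_const _)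
    fun s hs => ⟨mem_ball_zero_iff.1 hs, by linarith, hw⟩)
    (fun s hs => F0_bd hs (by linarith) hw) h h'
  have h2 := lip (f := fun s => F0 ν s w) (F0_diff isOpen_ball (differentiableOn_const _)
    differentiableOn_id (differentiableOn_const _)
    fun s hs => ⟨by linarith, mem_ball_zero_iff.1 hs, hw⟩)
    (fun s hs => F0_bd (by linarith) hs hw) c1 c2
  rw [← map_sub, norm_conj] at h2
  rw [F, F, if_pos hw, if_pos hw]
  linarith [norm_sub_le_norm_sub_add_norm_sub (F0 μ (conj μ) w) (F0 ν (conj μ) w) (F0 ν (conj ν) w)]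

theorem F_even (μ w : ℂ) : F μ (-w) = F μ w := by
  simp only [F, F0, norm_neg, neg_div, neg_neg, S, even_two, Even.neg_pow, add_comm]

theorem F_zero (μ : ℂ) : F μ 0 = 0 := by
  rw [F, if_pos (by norm_num), F0, zero_div, neg_zero]
  simp [S, two_mul]

theorem F_cj (w : ℂ) : F 0 (conj w) = conj (F 0 w) := by
  by_cases hw : ‖w‖ < 19 / 20
  · have h0 : ‖(0 : ℂ)‖ < 1 / 80 := by norm_num
    have h1 := sm h0 hw
    have h2 := sm' h0 hw
    have h3 := sm0 h0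
    have h4 : tau 0 = I := by simp [tau]
    rw [h4] at h1 h2 h3
    rw [add_zero, div_one] at h1 h2
    have e1 := T_cj h1
    have e2 := T_cj h2
    have e3 := T_cj h3
    rw [map_neg, neg_neg] at e2
    rw [map_zero, neg_zero] at e3
    rw [F, F, if_pos hw, if_pos (by rwa [norm_conj]), F0, F0, h4]
    simp only [add_zero, div_one, map_zero, map_add, map_sub, map_mul, map_pow, map_ofNat]
    rw [S_cj (by linarith), e1, e2, ← e3, add_comm (conj (T I w))]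
    simp [cc, map_ofNat]
  · rw [F, F, if_neg hw, if_neg (by rwa [norm_conj]), map_zero]

theorem Lm_eq (μ : ℂ) (u : GI) : Lm μ u = u.re * (1 + μ) + u.im * (I * (1 - μ)) := by
  rw [Lm, GaussianInt.toComplex_def]
  simp
  ring

/-- The lattice. -/
def La (μ w : ℂ) : Prop := ∃ u : GI, w = Lm μ u

theorem La_add (μ w : ℂ) (u : GI) : La μ (w + Lm μ u) ↔ La μ w := by
  constructor
  · rintro ⟨v, hv⟩
    refine ⟨v - u, ?_⟩
    rw [eq_sub_of_add_eq hv]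
    simp [Lm]
    ring
  · rintro ⟨v, rfl⟩
    refine ⟨v + u, ?_⟩
    simp [Lm]
    ring

theorem not_La {μ w : ℂ} (h : ‖μ‖ < 1 / 80) (hw : ‖w‖ < 19 / 20) (h0 : w ≠ 0) : ¬La μ w := by
  rintro ⟨u, rfl⟩
  have h1 : u ≠ 0 := by
    rintro rfl
    exact h0 (by simp [Lm])
  have h2 : 1 ≤ ‖(u : ℂ)‖ := by
    have h3 : (1 : ℝ) ≤ normSq (u : ℂ) := by
      rw [← GaussianInt.intCast_real_norm]
      exact_mod_cast GaussianInt.norm_pos.2 h1
    rw [normSq_eq_norm_sq] at h3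
    nlinarith [norm_nonneg (u : ℂ)]
  have h3 := norm_sub_le (Lm μ u) (μ * conj (u : ℂ))
  rw [Lm, add_sub_cancel_right, norm_mul, norm_conj, ← Lm] at h3
  nlinarith

/-- Normalising constant. -/
def ka (μ : ℂ) : ℝ := Real.log ‖1 + μ‖ - Real.log (2 * π) - 2 * (T (tau μ) 0).re

open Classical in
/-- The periodic potential. -/
def Gr (μ w : ℂ) : ℝ := if La μ w then 0 else Gz (tau μ) (w / (1 + μ)) + ka μ

theorem Gr_per {μ : ℂ} (h : ‖μ‖ < 1 / 80) (w : ℂ) (u : GI) : Gr μ (w + Lm μ u) = Gr μ w := by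
  have h0 := om_ne h
  have h1 : Function.Periodic (Gr μ) (1 + μ) := fun w => by
    have e : 1 + μ = Lm μ ((1 : GI) : ℂ) := by simp [Lm]
    have e' : La μ (w + (1 + μ)) ↔ La μ w := by
      rw [e]
      exact La_add μ w 1
    rw [Gr, Gr, add_div, div_self h0, Gz_one, propext e']
  have h2 : Function.Periodic (Gr μ) (I * (1 - μ)) := fun w => by
    have e : I * (1 - μ) = Lm μ (gi : ℂ) := by simp [Lm_eq, gi]
    have e' : La μ (w + I * (1 - μ)) ↔ La μ w := by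
      rw [e]
      exact La_add μ w gi
    by_cases hw : La μ w
    · rw [Gr, Gr, if_pos hw, if_pos (e'.2 hw)]
    · rw [Gr, Gr, if_neg hw, if_neg (mt e'.1 hw), add_div, ← tau, Gz_tau (tau_pos h)]
      intro k hk
      refine hw ⟨⟨k, 0⟩, ?_⟩
      rw [Lm_eq, (div_eq_iff h0).1 hk]
      simp
  rw [Lm_eq, ← add_assoc, h2.int_mul, h1.int_mul]

theorem Gr_loc {μ w : ℂ} (h : ‖μ‖ < 1 / 80) (hw : ‖w‖ < 19 / 20) :
    Gr μ w = Real.log ‖w‖ + (F μ w).re - bE μ * ‖w‖ ^ 2 / 2 := by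
  by_cases h0 : w = 0
  · subst h0
    rw [Gr, if_pos ⟨0, by simp [Lm]⟩, F_zero]
    simp
  have h1 := om_ne h
  obtain ⟨z, rfl⟩ : ∃ z, w = z * (1 + μ) := ⟨w / (1 + μ), (div_mul_cancel₀ w h1).symm⟩
  have hz : z ≠ 0 := left_ne_zero_of_mul h0
  have h2 := z_lt h hw
  have h3 := area_pos h
  have h4 : cc μ (conj μ) * (z * (1 + μ)) ^ 2 = (bE μ * ‖1 + μ‖ ^ 2 / 2 : ℝ) * z ^ 2 := by
    have e1 : ((‖1 + μ‖ : ℂ)) ^ 2 = (1 + μ) * (1 + conj μ) := by
      rw [← mul_conj', map_add, map_one]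
    have e2 : (1 : ℂ) - (‖μ‖ : ℂ) ^ 2 ≠ 0 := by
      exact_mod_cast (show (1 : ℝ) - ‖μ‖ ^ 2 ≠ 0 by linarith)
    rw [cc, bE, mul_conj']
    push_cast
    rw [e1]
    field_simp
  have h5 : π / (tau μ).im = bE μ * ‖1 + μ‖ ^ 2 := by
    rw [bE, ← tau_im h]
    have := (tau_pos h).ne'
    have := norm_ne_zero_iff.2 h1
    field_simp
  rw [mul_div_cancel_right₀ _ h1] at h2
  rw [Gr, if_neg (not_La h hw h0), F, if_pos hw, F0, mul_div_cancel_right₀ _ h1,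
    Gz_loc (tau_pos h) h2 hz, h4, ka, norm_mul,
    Real.log_mul (norm_ne_zero_iff.2 hz) (norm_ne_zero_iff.2 h1), mul_div_right_comm, h5,
    add_re (_ - _), sub_re, re_ofReal_mul, mul_pow, ← normSq_eq_norm_sq z, normSq_apply, sq z]
  simp
  ring

end EllC

end Pool.Agent.P.MP_cc4a10_gt
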