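import Pool.Agent.P.MP_cc4a10_gt.EqsA

/-!
Package Eqs: the equations at a solution.
-/

open Set Filter Topology Complex Metric
open scoped ComplexConjugate Real

noncomputable section

namespace Pool.Agent.P.MP_cc4a10_gt.EqsP

theorem per_flC (K : ℤ) {m : ℕ} {f : GI → ℂ} (h : Per m f) : Per m (flC K f) := by
  intro u w
  unfold flC
  have := h.star u w
  simp only at this
  rw [h u w, this]

theorem per_flR (K : ℤ) {m : ℕ} {f : GI → ℝ} (h : Per m f) : Per m (flR K f) := by
  intro u w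
  unfold flR
  have := h.star u w
  simp only at this
  rw [h u w, this]

theorem odd_flC (K : ℤ) {f : GI → ℂ} (h : ∀ u, f (-u) = -f u) (u : GI) :
    flC K f (-u) = -flC K f u := by
  unfold flC
  split_ifs
  · exact h u
  · rw [star_neg, h, map_neg]

/-- The cell in the true frame. -/
def tr (K : ℤ) (u : GI) : GI := if Even K then u else star u

theorem io_cF (S : Sys) (K : ℤ) (u : GI) : io K ((lvF S K).c * u) = (lvT S K).c * tr K u := by
  show io K (io K (lvT S K).c * u) = _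
  unfold io tr
  split_ifs
  · rfl
  · simp [GaussianInt.toComplex_star]

theorem flC_tr (K : ℤ) (f : GI → ℂ) (u : GI) : flC K f (tr K u) = io K (f u) := by
  unfold flC tr io
  split_ifs
  · rfl
  · rw [star_star]

theorem flR_tr (K : ℤ) (f : GI → ℝ) (u : GI) : flR K f (tr K u) = f u := by
  unfold flR tr
  split_ifs
  · rfl
  · rw [star_star]

theorem q0_tr (hD : S_Dip) {l : Lv} (hl : l.ok) (K : ℤ) (u : GI) : q0 l (tr K u) = q0 l u := by
  obtain ⟨-, -, -, h, -⟩ := hD l hl
  unfold tr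
  split_ifs
  · rfl
  · exact (h u).2

/-- The two cells of a neck lie over the same point of a layer. -/
theorem neck (hP : S_Par) (hD : S_Dip) {S : Sys} (hS : S.ok) (K : ℤ) {u : GI}
    (hu : q0 (lvT S K) u ≠ 0) : ∃ w, (lvT S K).c * tr K u = lp S (lk S K u) w ∧
      (lvT S (ot S K u)).c * tr (ot S K u) (par S K u) = lp S (lk S K u) w := by
  obtain ⟨hok, -, -, -, -, hp, -⟩ := hP S hS K
  obtain ⟨-, -, -, -, h5, -⟩ := hp u hu
  obtain ⟨-, -, -, -, -, -, -, ⟨w, hw⟩, -⟩ := hp (tr K u) (by rwa [q0_tr hD hok])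
  have e : lk S K (tr K u) = lk S K u := by simp only [lk, q0_tr hD hok]
  rw [e] at hw
  refine ⟨w, hw, ?_⟩
  rw [← io_cF, h5, io_cF, hw]

theorem sides (S : Sys) (K : ℤ) (u : GI) :
    (0 < q0 (lvT S K) u ∧ K = lk S K u + 1 ∧ ot S K u = lk S K u) ∨
    (q0 (lvT S K) u ≤ 0 ∧ K = lk S K u ∧ ot S K u = lk S K u + 1) := by
  by_cases h : 0 < q0 (lvT S K) u
  · left; simp [lk, ot, h]
  · right; simp [lk, ot, h, not_lt.1 h]

theorem neckC (hP : S_Par) (hD : S_Dip) {S : Sys} (hS : S.ok) {f : ℤ → GI → ℂ}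
    (h : ∀ k w, lift (lvT S (k + 1)).c (flC (k + 1) (f (k + 1))) (lp S k w)
      + lift (lvT S k).c (flC k (f k)) (lp S k w) = 0) (K : ℤ) {u : GI}
    (hu : q0 (lvT S K) u ≠ 0) : f (ot S K u) (par S K u) = conj (f K u) := by
  obtain ⟨w, h1, h2⟩ := neck hP hD hS K hu
  have e1 : lift (lvT S K).c (flC K (f K)) (lp S (lk S K u) w) = io K (f K u) := by
    rw [← h1, lift_eq (c_ne (hP S hS _).1), flC_tr]
  have e2 : lift (lvT S (ot S K u)).c (flC (ot S K u) (f (ot S K u))) (lp S (lk S K u) w)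
      = io (ot S K u) (f (ot S K u) (par S K u)) := by
    rw [← h2, lift_eq (c_ne (hP S hS _).1), flC_tr]
  have e3 : io K (f K u) + io (ot S K u) (f (ot S K u) (par S K u)) = 0 := by
    have := h (lk S K u) w
    rcases sides S K u with ⟨-, a, b⟩ | ⟨-, a, b⟩
    · rw [← a] at this
      rw [← e1, ← e2, b, this]
    · rw [← b] at this
      rw [← a] at this e1 e2
      rw [← e1, ← e2, add_comm, this]
  have e4 : Even (ot S K u) ↔ ¬Even K := by
    unfold ot
    split_ifs
    · exact Int.even_sub_one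
    · exact Int.even_add_one
  unfold io at e3
  by_cases hK : Even K
  · rw [if_pos hK, if_neg (fun h => e4.1 h hK)] at e3
    have := congrArg conj e3
    simp only [map_add, map_neg, conj_conj, map_zero] at this
    linear_combination -this
  · rw [if_neg hK, if_pos (e4.2 hK)] at e3
    linear_combination e3

theorem neckR (hP : S_Par) (hD : S_Dip) {S : Sys} (hS : S.ok) {g : ℤ → GI → ℝ} {γ : ℤ → ℝ}
    (h : ∀ k w, lift (lvT S (k + 1)).c (flR (k + 1) (g (k + 1))) (lp S k w)
      + lift (lvT S k).c (flR k (g k)) (lp S k w) = γ k) (K : ℤ) {u : GI}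
    (hu : q0 (lvT S K) u ≠ 0) : g K u + g (ot S K u) (par S K u) = γ (lk S K u) := by
  obtain ⟨w, h1, h2⟩ := neck hP hD hS K hu
  have e1 : lift (lvT S K).c (flR K (g K)) (lp S (lk S K u) w) = g K u := by
    rw [← h1, lift_eq (c_ne (hP S hS _).1), flR_tr]
  have e2 : lift (lvT S (ot S K u)).c (flR (ot S K u) (g (ot S K u))) (lp S (lk S K u) w)
      = g (ot S K u) (par S K u) := by
    rw [← h2, lift_eq (c_ne (hP S hS _).1), flR_tr]
  have := h (lk S K u) w
  rcases sides S K u with ⟨-, a, b⟩ | ⟨-, a, b⟩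
  · rw [← a] at this
    rw [← e1, ← e2, b, this]
  · rw [← b] at this
    rw [← a] at this e1 e2 ⊢
    rw [← e1, ← e2, add_comm, this]

end Pool.Agent.P.MP_cc4a10_gt.EqsP

namespace Pool.Agent.P.MP_cc4a10_gt

open EqsP

theorem pEqs (hP : S_Par) (hFl : S_Flip) (hPhi : S_Phi) (hD : S_Dip) (hLev : S_Lev) : S_Eqs := by
  intro E L
  obtain ⟨C, j1, -, hΦ⟩ := hPhi E
  obtain ⟨C', m0, -, hL⟩ := hLev E
  refine ⟨max 10 (max j1 m0), fun S x hS hB hX hA hE => ?_⟩
  have hB1 : Big S 10 := fun k => le_trans (le_max_left _ _) (hB k)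
  have hB2 : Big S j1 := fun k => le_trans ((le_max_left _ _).trans (le_max_right _ _)) (hB k)
  have hB3 : ∀ k, m0 ≤ S.st k := fun k =>
    le_trans ((le_max_right _ _).trans (le_max_right _ _)) (hB k)
  have hσ : ∀ K u, 0 < 1 + (ls S x K).σ u := by
    intro K u
    have hm : m0 ≤ (lvF S K).m := by
      show m0 ≤ jl S K + 2
      have := le_min (hB3 (K - 1)) (hB3 K)
      unfold jl
      omega
    have := ((hL _ _ _ ((hFl E S hS K).2 x hB1 hX) hm).1 u).2.2.2
    have := (abs_le.1 this).1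
    linarith
  have hF : ∀ K, Per (mK S K) (flC K (fres E S x K)) := fun K =>
    per_flC K (hΦ S x hS hB2 hX K).2.1
  have hG : ∀ K, Per (mK S K) (flR K (gres E S x K)) := fun K =>
    per_flR K (hΦ S x hS hB2 hX K).2.2.1
  have hF0 : ∀ K u, q0 (lvT S K) u = 0 → flC K (fres E S x K) u = 0 := by
    intro K u hu
    obtain ⟨-, -, -, h, -⟩ := hD _ (hP S hS K).1
    unfold flC fres
    simp [hu, (h u).2]
  have hodd : ∀ K u, flC K (fres E S x K) (-u) = -flC K (fres E S x K) u := fun K =>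
    odd_flC K fun u => ((hΦ S x hS hB2 hX K).2.2.2.2 u).1
  have hC := layerC hP hD hS hF hG hF0 hodd hE
  choose γ hγ using layerR hP hD hS hF hG hF0 hE
  have hσe : ∀ K u, q0 (lvT S K) u ≠ 0 →
      (ls S x (ot S K u)).σ (par S K u) = (ls S x K).σ u := by
    intro K u hu
    obtain ⟨h1, -, -, h4, h5, -, -, -, -, h10⟩ := (hP S hS K).2.2.2.2.2.1 u hu
    have hu' : q0 (lvT S (ot S K u)) (par S K u) ≠ 0 := by rw [h1]; exact neg_ne_zero.2 hu
    obtain ⟨-, -, -, -, -, -, -, -, -, h10'⟩ := (hP S hS (ot S K u)).2.2.2.2.2.1 _ hu'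
    show flR _ _ _ = flR _ _ _
    rw [(h10 x.v).2, (h10' x.v).2, h4, h5]
  have hq : ∀ K u, q0 (lvT S K) u ≠ 0 → qK S x (ot S K u) (par S K u) = -qK S x K u := by
    intro K u hu
    have h1 := ((hP S hS K).2.2.2.2.2.1 u hu).1
    show q0 (lvT S (ot S K u)) _ * _ = -(q0 (lvT S K) u * _)
    rw [h1, hσe K u hu, neg_mul]
  have hs : ∀ K u, q0 (lvT S K) u ≠ 0 → x.s (ot S K u) (par S K u) = x.s K u := by
    intro K u hu
    obtain ⟨h1, h2, h3, -⟩ := (hP S hS K).2.2.2.2.2.1 u hu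
    have hu' : q0 (lvT S (ot S K u)) (par S K u) ≠ 0 := by rw [h1]; exact neg_ne_zero.2 hu
    rw [hA.2.1]
    unfold sN
    rw [if_neg hu, if_neg hu', h2, h3, add_comm]
  refine ⟨fun K => ?_, fun K u hu => ⟨hq K u hu, ?_, ?_⟩, ?_⟩
  · have hc : (lvF S K).c ≠ 0 := c_ne (hP S hS K).2.1
    have hc' : conj (lvF S K).c ≠ 0 := (map_ne_zero _).2 hc
    have h1 := congrFun hA.2.2.2 K
    have h2 := congrFun hA.2.2.1 K
    unfold lamN at h1
    unfold muN at h2
    rw [eq_comm, sub_eq_self, div_eq_zero_iff] at h1 h2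
    have h3 := h1.resolve_right (mul_ne_zero two_ne_zero hc)
    have h4 := h2.resolve_right (mul_ne_zero two_ne_zero hc')
    constructor
    · linear_combination (1 / 2 : ℂ) * h3 + (1 / 2 : ℂ) * h4
    · linear_combination (I / 2 : ℂ) * h3 - (I / 2 : ℂ) * h4
        + av (mK S K) (I2 E S x K) * I_mul_I
  · unfold tn
    rw [hq K u hu, hs K u hu]
    push_cast
    ring
  · have hu0 : q0 (lvT S K) u ≠ 0 := hu
    have h1 := ((hP S hS K).2.2.2.2.2.1 u hu0).1
    have hu' : q0 (lvT S (ot S K u)) (par S K u) ≠ 0 := by rw [h1]; exact neg_ne_zero.2 hu0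
    have h := neckC hP hD hS hC K hu0
    unfold fres at h
    rw [if_neg hu0, if_neg hu', hσe K u hu0, map_div₀] at h
    have hne : (2 * (1 + ((ls S x K).σ u : ℂ))) ≠ 0 := by
      have := (hσ K u).ne'
      exact mul_ne_zero two_ne_zero (by exact_mod_cast this)
    have hcj : conj (2 * (1 + ((ls S x K).σ u : ℂ))) = 2 * (1 + ((ls S x K).σ u : ℂ)) := by
      simp only [map_mul, map_add, map_one, conj_ofReal, map_ofNat]
    rw [hcj] at h
    exact (div_left_inj' hne).1 h
  · obtain ⟨H, hH⟩ := exists_H (fun k => -2 * γ k * 2 ^ S.st k)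
    refine ⟨H, fun K u hu => ?_⟩
    have hu0 : q0 (lvT S K) u ≠ 0 := hu
    obtain ⟨h1, -, -, -, -, -, h7, -⟩ := (hP S hS K).2.2.2.2.2.1 u hu0
    have h := neckR hP hD hS hγ K hu0
    unfold gres at h
    rw [h1, hq K u hu0, hs K u hu0, abs_neg, abs_neg] at h
    have hqq : qK S x K u = q0 (lvT S K) u * (1 + (ls S x K).σ u) := rfl
    have hq0 : qK S x K u ≠ 0 := by rw [hqq]; exact mul_ne_zero hu0 (hσ K u).ne'
    have habs : |q0 (lvT S K) u| * |qK S x K u| = q0 (lvT S K) u * qK S x K u := by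
      rw [← abs_mul, abs_of_nonneg]
      rw [hqq, ← mul_assoc]
      exact mul_nonneg (mul_self_nonneg _) (hσ K u).le
    have hlog : Real.log ‖tn S x K u‖ = 2 * Real.log |qK S x K u| - (x.s K u).re := by
      unfold tn
      rw [norm_mul, norm_neg, norm_pow, norm_real, norm_exp, Real.norm_eq_abs,
        Real.log_mul (pow_ne_zero _ (abs_ne_zero.2 hq0)) (Real.exp_ne_zero _), Real.log_pow,
        Real.log_exp, neg_re]
      push_cast
      ring
    have h2 : q0 (lvT S K) u * (ht E (lvF S K) (ls S x K) (pK S x K u)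
        - ht E (lvF S (ot S K u)) (ls S x (ot S K u)) (pK S x (ot S K u) (par S K u))
        + qK S x K u * Real.log ‖tn S x K u‖) = γ (lk S K u) := by
      rw [hlog, ← h]
      linear_combination (-(2 * Real.log |qK S x K u| - (x.s K u).re)) * habs
    have hp : (0 : ℝ) < 2 ^ S.st (lk S K u) := by positivity
    have hk := hH (lk S K u)
    rcases sides S K u with ⟨a0, a, b⟩ | ⟨a0, a, b⟩
    · rw [abs_of_pos a0] at h7
      have h8 : q0 (lvT S K) u * 2 ^ S.st (lk S K u) = 1 := by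
        rw [h7]; exact inv_mul_cancel₀ hp.ne'
      rw [← a, ← b] at hk
      rw [← b] at h2 h8
      rw [hk, ← h2]
      linear_combination (-2 * (ht E (lvF S K) (ls S x K) (pK S x K u)
        - ht E (lvF S (ot S K u)) (ls S x (ot S K u)) (pK S x (ot S K u) (par S K u))
        + qK S x K u * Real.log ‖tn S x K u‖)) * h8
    · rw [abs_of_nonpos a0] at h7
      have h8 : -q0 (lvT S K) u * 2 ^ S.st (lk S K u) = 1 := by
        rw [h7]; exact inv_mul_cancel₀ hp.ne'
      rw [← b, ← a] at hk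
      rw [← a] at h2 h8
      rw [hk, ← h2]
      linear_combination (-2 * (ht E (lvF S K) (ls S x K) (pK S x K u)
        - ht E (lvF S (ot S K u)) (ls S x (ot S K u)) (pK S x (ot S K u) (par S K u))
        + qK S x K u * Real.log ‖tn S x K u‖)) * h8

end Pool.Agent.P.MP_cc4a10_gt
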