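import Pool.Agent.P.MP_cc4a10_gt.St

/-!
Tools for the package Eqs: fields on a layer and test vectors supported on one layer.
-/

open Set Filter Topology Complex Metric
open scoped ComplexConjugate Real

noncomputable section

namespace Pool.Agent.P.MP_cc4a10_gt.EqsP

open Classical in
/-- A function on the cells, read as a function of the point. -/
def lift {V : Type} [Zero V] (c : ℂ) (F : GI → V) (z : ℂ) : V :=
  if h : ∃ u : GI, c * u = z then F h.choose else 0

theorem lift_eq {V : Type} [Zero V] {c : ℂ} (hc : c ≠ 0) (F : GI → V) (u : GI) :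
    lift c F (c * u) = F u := by
  have h : ∃ u' : GI, c * u' = c * u := ⟨u, rfl⟩
  rw [lift, dif_pos h]
  congr 1
  exact GaussianInt.toComplex_inj.1 (mul_left_cancel₀ hc h.choose_spec)

theorem lift_per {V : Type} [Zero V] {c : ℂ} (hc : c ≠ 0) {m : ℕ}
    (hw : ∃ w0 : GI, c * ((om ^ m : GI) : ℂ) = w0 ∧ IsUnit w0) {F : GI → V} (hF : Per m F)
    (z : ℂ) (w : GI) : lift c F (z + w) = lift c F z := by
  obtain ⟨w0, h0, hu⟩ := hw
  obtain ⟨w1, h1⟩ := hu.exists_right_inv
  have e : (w : ℂ) = c * ((om ^ m * (w1 * w) : GI) : ℂ) := by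
    rw [map_mul, ← mul_assoc, h0, ← map_mul, ← mul_assoc, h1, one_mul]
  by_cases h : ∃ u : GI, c * u = z
  · obtain ⟨u, rfl⟩ := h
    rw [e, ← mul_add, ← map_add, lift_eq hc, lift_eq hc, hF]
  · have h' : ¬∃ u : GI, c * u = z + w := by
      rintro ⟨u, hu⟩
      refine h ⟨u - om ^ m * (w1 * w), ?_⟩
      rw [map_sub, mul_sub, hu, ← e, add_sub_cancel_right]
    rw [lift, lift, dif_neg h, dif_neg h']

theorem lift_odd {c : ℂ} (hc : c ≠ 0) {F : GI → ℂ} (hF : ∀ u, F (-u) = -F u) (z : ℂ) :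
    lift c F (-z) = -lift c F z := by
  by_cases h : ∃ u : GI, c * u = z
  · obtain ⟨u, rfl⟩ := h
    rw [← mul_neg, ← map_neg, lift_eq hc, lift_eq hc, hF]
  · have h' : ¬∃ u : GI, c * u = -z := by
      rintro ⟨u, hu⟩
      refine h ⟨-u, ?_⟩
      rw [map_neg, mul_neg, hu, neg_neg]
    rw [lift, lift, dif_neg h, dif_neg h', neg_zero]

theorem c_ne {l : Lv} (h : l.ok) : l.c ≠ 0 := by
  intro h0
  have := h.2.1
  rw [h0] at this
  simp at this

theorem eq_zero_of_ts {m : ℕ} {F : GI → ℝ} (hF : Per m F) (h0 : ∀ u, 0 ≤ F u) (h : ts m F = 0)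
    (u : GI) : F u = 0 := by
  rw [← ts_shift hF u] at h
  unfold ts at h
  rw [smul_eq_zero] at h
  have hp : 0 ∈ Finset.range (2 ^ m) := Finset.mem_range.2 (by positivity)
  rcases h with h | h
  · exact absurd h (by positivity)
  · rw [Finset.sum_eq_zero_iff_of_nonneg (fun a _ => Finset.sum_nonneg fun b _ => h0 _)] at h
    have h2 := h 0 hp
    rw [Finset.sum_eq_zero_iff_of_nonneg (fun b _ => h0 _)] at h2
    have h3 := h2 0 hp
    have e : (⟨((0 : ℕ) : ℤ), ((0 : ℕ) : ℤ)⟩ : GI) + u = u := by ext <;> simp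
    simpa only [e] using h3

theorem ts_sub_av {V : Type} [AddCommGroup V] [Module ℝ V] (m : ℕ) (F : GI → V) :
    ts m (fun u => F u - av m F) = 0 := by
  rw [ts_sub, ts_const, ← ts_eq_av, sub_self]

theorem constC {m : ℕ} {F : GI → ℂ} (hF : Per m F)
    (h : ts m (fun u => (F u * conj (F u - av m F)).re) = 0) (u : GI) : F u = av m F := by
  have h1 : ts m (fun u => (av m F * conj (F u - av m F)).re) = 0 := by
    rw [← ts_re, ts_mul_left, ← ts_conj, ts_sub_av]; simp
  have h2 : ts m (fun u => normSq (F u - av m F)) = 0 := by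
    have : (fun u => normSq (F u - av m F)) = fun u => (F u * conj (F u - av m F)).re
        - (av m F * conj (F u - av m F)).re := by
      funext u
      rw [← sub_re, ← sub_mul, mul_conj, ofReal_re]
    rw [this, ts_sub, h, h1, sub_self]
  have h3 := eq_zero_of_ts (F := fun u => normSq (F u - av m F))
    (fun u w => by simp only [hF u w]) (fun u => normSq_nonneg _) h2 u
  exact sub_eq_zero.1 (normSq_eq_zero.1 h3)

theorem constR {m : ℕ} {F : GI → ℝ} (hF : Per m F)
    (h : ts m (fun u => F u * (F u - av m F)) = 0) (u : GI) : F u = av m F := by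
  have h1 : ts m (fun u => av m F * (F u - av m F)) = 0 := by
    rw [ts_mul_left_real, ts_sub_av]; simp
  have h2 : ts m (fun u => (F u - av m F) ^ 2) = 0 := by
    have : (fun u => (F u - av m F) ^ 2) = fun u => F u * (F u - av m F)
        - av m F * (F u - av m F) := by
      funext u; ring
    rw [this, ts_sub, h, h1, sub_self]
  have h3 := eq_zero_of_ts (F := fun u => (F u - av m F) ^ 2)
    (fun u w => by simp only [hF u w]) (fun u => sq_nonneg _) h2 u
  exact sub_eq_zero.1 (pow_eq_zero_iff two_ne_zero |>.1 h3)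

theorem al_mul_om : al * ((om : GI) : ℂ) = ((gi : GI) : ℂ) := by
  rw [coe_om, coe_gi, al]
  linear_combination (1 / 2 : ℂ) * I_mul_I

theorem al_mul_star : al * ((star om : GI) : ℂ) = 1 := by
  rw [star_om, map_mul, ← mul_assoc, al_mul_om, ← map_mul, mul_neg, gi_mul_gi, neg_neg, map_one]

theorem lp_add (S : Sys) (k : ℤ) (u w : GI) :
    lp S k (u + om ^ S.st k * w) = lp S k u + ((gi ^ S.st k * w : GI) : ℂ) := by
  simp only [lp, map_add, map_mul, map_pow, ← al_mul_om, mul_pow]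
  ring

theorem lp_add' (S : Sys) (k : ℤ) (u w : GI) :
    lp S k (u + star om ^ S.st k * w) = lp S k u + w := by
  have : al ^ S.st k * ((star om : GI) : ℂ) ^ S.st k = 1 := by
    rw [← mul_pow, al_mul_star, one_pow]
  simp only [lp, map_add, map_mul, map_pow]
  linear_combination (w : ℂ) * this

theorem lp_neg (S : Sys) (k : ℤ) (u : GI) : ∃ u', lp S k u' = -lp S k u := by
  cases h : S.hh k
  · refine ⟨-u - gi, ?_⟩
    simp only [lp, h, oo, map_sub, map_neg, coe_gi]
    simp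
    ring
  · refine ⟨-u - om, ?_⟩
    simp only [lp, h, oo, map_sub, map_neg, coe_om]
    simp
    ring

theorem per_lp {V : Type} (S : Sys) (k : ℤ) {f : ℂ → V} (hf : ∀ z (w : GI), f (z + w) = f z) :
    Per (S.st k) (fun w => f (lp S k w)) := fun u w => by
  simp only [lp_add, hf]

theorem mem_lp (S : Sys) (k : ℤ) (z : ℂ) (w : GI) :
    z + w ∈ range (lp S k) ↔ z ∈ range (lp S k) := by
  constructor
  · rintro ⟨u, hu⟩
    refine ⟨u + star om ^ S.st k * (-w), ?_⟩
    rw [lp_add', hu, map_neg, add_neg_cancel_right]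
  · rintro ⟨u, rfl⟩
    exact ⟨_, lp_add' S k u w⟩

open Classical in
/-- Test vector supported on one layer. -/
def tv (S : Sys) (k : ℤ) (a : ℂ → ℂ) (b : ℂ → ℝ) : Vec :=
  (fun k' z => if k' = k ∧ z ∈ range (lp S k) then a z else 0,
   fun k' z => if k' = k ∧ z ∈ range (lp S k) then b z else 0)

theorem tv_ne (S : Sys) {k k' : ℤ} (h : k' ≠ k) (a : ℂ → ℂ) (b : ℂ → ℝ) :
    (tv S k a b).1 k' = 0 ∧ (tv S k a b).2 k' = 0 := by
  constructor <;> funext z <;> simp [tv, h]

theorem tv_lp (S : Sys) (k : ℤ) (a : ℂ → ℂ) (b : ℂ → ℝ) (w : GI) :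
    (tv S k a b).1 k (lp S k w) = a (lp S k w) ∧ (tv S k a b).2 k (lp S k w) = b (lp S k w) := by
  constructor <;> simp [tv]

theorem tv_supp (S : Sys) (k : ℤ) (a : ℂ → ℂ) (b : ℂ → ℝ) :
    Supp (-(k.natAbs : ℕ)) (k.natAbs : ℕ) (tv S k a b) := by
  intro k' hk'
  exact tv_ne S (by omega) a b

theorem tv_adm (S : Sys) (k : ℤ) {a : ℂ → ℂ} {b : ℂ → ℝ} (ha : ∀ z (w : GI), a (z + w) = a z)
    (hb : ∀ z (w : GI), b (z + w) = b z) (h1 : ts (S.st k) (fun w => a (lp S k w)) = 0)
    (h2 : ts (S.st k) (fun w => b (lp S k w)) = 0) : Adm S (tv S k a b) where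
  off := by
    intro k' z hz
    by_cases h : k' = k
    · subst h
      have : z ∉ range (lp S k') := by
        rintro ⟨w, hw⟩; exact hz w hw.symm
      constructor <;> simp only [tv, this, and_false, if_false]
    · simp [(tv_ne S h a b).1, (tv_ne S h a b).2]
  per := by
    intro k' z w
    have e := mem_lp S k z w
    by_cases h : k' = k ∧ z ∈ range (lp S k)
    · have h' : k' = k ∧ z + w ∈ range (lp S k) := ⟨h.1, e.2 h.2⟩
      simp only [tv, if_pos h, if_pos h', ha, hb, and_self]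
    · have h' : ¬(k' = k ∧ z + w ∈ range (lp S k)) := fun h' => h ⟨h'.1, e.1 h'.2⟩
      simp only [tv, if_neg h, if_neg h', and_self]
  m1 := by
    intro k'
    by_cases h : k' = k
    · subst h
      simpa only [(tv_lp S k' a b _).1] using h1
    · simp [(tv_ne S h a b).1]
  m2 := by
    intro k'
    by_cases h : k' = k
    · subst h
      simpa only [(tv_lp S k' a b _).2] using h2
    · simp [(tv_ne S h a b).2]

/-- The integrand of the pairing, as a function of the point. -/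
def ig (S : Sys) (F : ℤ → GI → ℂ) (G : ℤ → GI → ℝ) (v : Vec) (K k : ℤ) (z : ℂ) : ℝ :=
  (lift (lvT S K).c (F K) z * v.1 k z).re + lift (lvT S K).c (G K) z * v.2 k z

theorem nbr_eq {l : Lv} {u : GI} (h : q0 l u ≠ 0) : nbr l.τ u = u := by
  have : pat l.τ u ≠ 0 := by
    intro h0; exact h (by simp [q0, h0])
  simp [nbr, this]

theorem pT_eq (hP : S_Par) (hD : S_Dip) {S : Sys} (hS : S.ok) {F : ℤ → GI → ℂ}
    {G : ℤ → GI → ℝ} (K : ℤ) (hF : Per (mK S K) (F K)) (hG : Per (mK S K) (G K))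
    (hF0 : ∀ u, q0 (lvT S K) u = 0 → F K u = 0) {v : Vec} (hv : Adm S v) :
    pT S F G v K = ts (S.st (K - 1)) (fun w => ig S F G v K (K - 1) (lp S (K - 1) w))
      + ts (S.st K) (fun w => ig S F G v K K (lp S K w)) := by
  obtain ⟨hok, -, -, -, -, -, hf, -⟩ := hP S hS K
  obtain ⟨-, -, -, -, -, -, -, -, hw, -⟩ := hD _ hok
  have hc := c_ne hok
  have hper : ∀ k z (w : GI), ((ig S F G v K k (z + w) : ℝ) : ℂ) = ig S F G v K k z := by
    intro k z w
    simp only [ig, lift_per hc hw hF, lift_per hc hw hG, (hv.per k z w).1, (hv.per k z w).2]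
  have h1 := (hf (fun z => (ig S F G v K (K - 1) z : ℝ)) (hper _)).1
  have h2 := (hf (fun z => (ig S F G v K K z : ℝ)) (hper _)).2
  apply ofReal_injective
  rw [ofReal_add, ts_ofReal, ts_ofReal, ← h1, ← h2, ← ts_add, pT, pair, ts_ofReal]
  refine congrArg (ts (mK S K)) (funext fun u => ?_)
  rcases lt_trichotomy (q0 (lvT S K) u) 0 with h | h | h
  · have hl : lk S K u = K := by simp [lk, h.le]
    simp only [h, h.not_gt, if_true, if_false, zero_add, ig, lift_eq hc, eT, sT, nbr_eq h.ne,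
      h.ne, hl]
  · simp [h, hF0 u h, sT]
  · have hl : lk S K u = K - 1 := by simp [lk, h]
    simp only [h, h.not_gt, if_true, if_false, add_zero, ig, lift_eq hc, eT, sT, nbr_eq h.ne',
      h.ne', hl]

theorem layer (hP : S_Par) (hD : S_Dip) {S : Sys} (hS : S.ok) {F : ℤ → GI → ℂ}
    {G : ℤ → GI → ℝ} (hF : ∀ K, Per (mK S K) (F K)) (hG : ∀ K, Per (mK S K) (G K))
    (hF0 : ∀ K u, q0 (lvT S K) u = 0 → F K u = 0)
    (hE : ∀ (N : ℕ) (v : Vec), Adm S v → Supp (-N) N v →
      ∑ K ∈ Finset.Icc (-N : ℤ) (N + 1), pT S F G v K = 0)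
    (k : ℤ) {a : ℂ → ℂ} {b : ℂ → ℝ} (ha : ∀ z (w : GI), a (z + w) = a z)
    (hb : ∀ z (w : GI), b (z + w) = b z) (h1 : ts (S.st k) (fun w => a (lp S k w)) = 0)
    (h2 : ts (S.st k) (fun w => b (lp S k w)) = 0) :
    ts (S.st k) (fun w =>
      ((lift (lvT S (k + 1)).c (F (k + 1)) (lp S k w) + lift (lvT S k).c (F k) (lp S k w))
        * a (lp S k w)).re
      + (lift (lvT S (k + 1)).c (G (k + 1)) (lp S k w) + lift (lvT S k).c (G k) (lp S k w))
        * b (lp S k w)) = 0 := by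
  have hv := tv_adm S k ha hb h1 h2
  have h := hE k.natAbs _ hv (tv_supp S k a b)
  simp only [pT_eq hP hD hS _ (hF _) (hG _) (hF0 _) hv, Finset.sum_add_distrib] at h
  rw [Finset.sum_eq_single (k + 1), Finset.sum_eq_single k] at h
  · simp only [add_sub_cancel_right, ← ts_add, ig, (tv_lp S k a b _).1, (tv_lp S k a b _).2] at h
    rw [← h]
    refine congrArg (ts (S.st k)) (funext fun w => ?_)
    simp only [add_mul, add_re]
    ring
  · intro K _ hK
    simp [ig, (tv_ne S hK a b).1, (tv_ne S hK a b).2]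
  · intro hk
    exact absurd (Finset.mem_Icc.2 (by omega)) hk
  · intro K _ hK
    have hK' : K - 1 ≠ k := by omega
    simp [ig, (tv_ne S hK' a b).1, (tv_ne S hK' a b).2]
  · intro hk
    exact absurd (Finset.mem_Icc.2 (by omega)) hk

theorem layerC (hP : S_Par) (hD : S_Dip) {S : Sys} (hS : S.ok) {F : ℤ → GI → ℂ}
    {G : ℤ → GI → ℝ} (hF : ∀ K, Per (mK S K) (F K)) (hG : ∀ K, Per (mK S K) (G K))
    (hF0 : ∀ K u, q0 (lvT S K) u = 0 → F K u = 0) (hodd : ∀ K u, F K (-u) = -F K u)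
    (hE : ∀ (N : ℕ) (v : Vec), Adm S v → Supp (-N) N v →
      ∑ K ∈ Finset.Icc (-N : ℤ) (N + 1), pT S F G v K = 0) (k : ℤ) (w : GI) :
    lift (lvT S (k + 1)).c (F (k + 1)) (lp S k w) + lift (lvT S k).c (F k) (lp S k w) = 0 := by
  set f : ℂ → ℂ := fun z => lift (lvT S (k + 1)).c (F (k + 1)) z + lift (lvT S k).c (F k) z
    with hf
  have hl : ∀ K z (w : GI), lift (lvT S K).c (F K) (z + w) = lift (lvT S K).c (F K) z := by
    intro K z w
    obtain ⟨hok, -⟩ := hP S hS K
    obtain ⟨-, -, -, -, -, -, -, -, hw, -⟩ := hD _ hok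
    exact lift_per (c_ne hok) hw (hF K) z w
  have hfp : ∀ z (w : GI), f (z + w) = f z := fun z w => by simp only [hf, hl]
  have hfo : ∀ z, f (-z) = -f z := fun z => by
    simp only [hf, lift_odd (c_ne (hP S hS _).1) (hodd _)]
    ring
  have h := layer hP hD hS hF hG hF0 hE k
    (a := fun z => conj (f z - av (S.st k) (fun w => f (lp S k w)))) (b := fun _ => 0)
    (fun z w => by simp only [hfp]) (fun _ _ => rfl)
    (by rw [← ts_conj, ts_sub_av (S.st k) (fun w => f (lp S k w)), map_zero]) (by simp)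
  simp only [mul_zero, add_zero] at h
  have hc := constC (per_lp S k hfp) h
  obtain ⟨w', hw'⟩ := lp_neg S k w
  have e1 := hc w
  have e2 := hc w'
  simp only [hw', hfo] at e1 e2
  show f (lp S k w) = 0
  linear_combination (1 / 2 : ℂ) * e1 - (1 / 2 : ℂ) * e2

theorem layerR (hP : S_Par) (hD : S_Dip) {S : Sys} (hS : S.ok) {F : ℤ → GI → ℂ}
    {G : ℤ → GI → ℝ} (hF : ∀ K, Per (mK S K) (F K)) (hG : ∀ K, Per (mK S K) (G K))
    (hF0 : ∀ K u, q0 (lvT S K) u = 0 → F K u = 0)
    (hE : ∀ (N : ℕ) (v : Vec), Adm S v → Supp (-N) N v →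
      ∑ K ∈ Finset.Icc (-N : ℤ) (N + 1), pT S F G v K = 0) (k : ℤ) : ∃ γ : ℝ, ∀ w : GI,
    lift (lvT S (k + 1)).c (G (k + 1)) (lp S k w) + lift (lvT S k).c (G k) (lp S k w) = γ := by
  set g : ℂ → ℝ := fun z => lift (lvT S (k + 1)).c (G (k + 1)) z + lift (lvT S k).c (G k) z
    with hg
  have hl : ∀ K z (w : GI), lift (lvT S K).c (G K) (z + w) = lift (lvT S K).c (G K) z := by
    intro K z w
    obtain ⟨hok, -⟩ := hP S hS K
    obtain ⟨-, -, -, -, -, -, -, -, hw, -⟩ := hD _ hok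
    exact lift_per (c_ne hok) hw (hG K) z w
  have hgp : ∀ z (w : GI), g (z + w) = g z := fun z w => by simp only [hg, hl]
  have h := layer hP hD hS hF hG hF0 hE k (a := fun _ => 0)
    (b := fun z => g z - av (S.st k) (fun w => g (lp S k w))) (fun _ _ => rfl)
    (fun z w => by simp only [hgp]) (by simp) (ts_sub_av (S.st k) (fun w => g (lp S k w)))
  simp only [mul_zero, zero_re, zero_add] at h
  exact ⟨_, constR (per_lp S k hgp) h⟩

theorem exists_H (δ : ℤ → ℝ) : ∃ H : ℤ → ℝ, ∀ k, H (k + 1) = H k + δ k := by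
  refine ⟨fun k => ∑ i ∈ Finset.range k.toNat, δ i
    - ∑ i ∈ Finset.range (-k).toNat, δ (-(i + 1)), fun k => ?_⟩
  rcases le_or_gt 0 k with h | h
  · obtain ⟨n, rfl⟩ := Int.eq_ofNat_of_zero_le h
    have e1 : ((n : ℤ) + 1).toNat = n + 1 := by omega
    have e2 : (-((n : ℤ) + 1)).toNat = 0 := by omega
    have e3 : (-(n : ℤ)).toNat = 0 := by omega
    simp only [e1, e2, e3, Int.toNat_natCast, Finset.sum_range_succ]
    ring
  · obtain ⟨n, rfl⟩ : ∃ n : ℕ, k = -((n : ℤ) + 1) := ⟨(-k - 1).toNat, by omega⟩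
    have e1 : (-((n : ℤ) + 1) + 1).toNat = 0 := by omega
    have e2 : (-(-((n : ℤ) + 1) + 1)).toNat = n := by omega
    have e3 : (-((n : ℤ) + 1)).toNat = 0 := by omega
    have e4 : (-(-((n : ℤ) + 1))).toNat = n + 1 := by omega
    simp only [e1, e2, e3, e4, Finset.sum_range_succ]
    ring

end Pool.Agent.P.MP_cc4a10_gt.EqsP
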