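import Pool.Agent.P.MP_cc4a10_gt.St

/-!
The error of the linearisation on one level of the system.
-/

open Set Filter Topology Complex Metric
open scoped ComplexConjugate Real

noncomputable section

namespace Pool.Agent.P.MP_cc4a10_gt.ErrP

theorem flC_flC (K : ℤ) (f : GI → ℂ) : flC K (flC K f) = f := by
  funext u; unfold flC; split_ifs <;> simp
theorem flR_flR (K : ℤ) (f : GI → ℝ) : flR K (flR K f) = f := by
  funext u; unfold flR; split_ifs <;> simp
theorem flC_sub (K : ℤ) (f g : GI → ℂ) :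
    flC K (fun u => f u - g u) = fun u => flC K f u - flC K g u := by
  funext u; unfold flC; split_ifs
  · rfl
  · rw [map_sub]; ring
theorem flR_sub (K : ℤ) (f g : GI → ℝ) :
    flR K (fun u => f u - g u) = fun u => flR K f u - flR K g u := by
  funext u; unfold flR; split_ifs <;> rfl
theorem per_flC {m : ℕ} (K : ℤ) {f : GI → ℂ} (h : Per m f) : Per m (flC K f) := fun u w => by
  unfold flC; split_ifs
  · exact h u w
  · have := h.star u w; simp only at this; rw [this]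
theorem per_flR {m : ℕ} (K : ℤ) {f : GI → ℝ} (h : Per m f) : Per m (flR K f) := fun u w => by
  unfold flR; split_ifs
  · exact h u w
  · exact h.star u w

theorem Flin_split (E : Ell) (l : Lv) (ε ξ : GI → ℂ) (σ : GI → ℝ) (u : GI) :
    Flin E l ε σ u = Flin E l (fun u => ε u - ξ u) σ u + Flin E l ξ 0 u := by
  unfold Flin Rlin
  rw [← mul_add, ← ts_add]
  congr 2; funext w
  simp only [map_sub, Pi.zero_apply, mul_zero, ofReal_zero, zero_mul, add_zero]; ring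

theorem Glin_split (E : Ell) (l : Lv) (ε ξ : GI → ℂ) (σ : GI → ℝ) (u : GI) :
    Glin E l ε σ u = Glin E l (fun u => ε u - ξ u) σ u + Glin E l ξ 0 u := by
  have h : hlin E l ε σ u = hlin E l (fun u => ε u - ξ u) σ u + hlin E l ξ 0 u := by
    unfold hlin
    rw [← ts_add]
    congr 1; funext w
    simp only [Pi.zero_apply, mul_zero, zero_mul, add_zero, mul_re, sub_re, sub_im]; ring
  unfold Glin
  rw [h]; simp only [Pi.zero_apply, mul_zero, add_zero]; ring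

theorem dn_zero (m : ℕ) : dn m (fun _ => 0) = 0 := by
  unfold dn
  have : {x | ∃ f : GI → ℂ, Per m f ∧ g2 m f ≤ 1 ∧ x = ‖av m (fun u => ((0 : ℝ) : ℂ) * f u)‖}
      = {0} := by
    ext x
    simp only [ofReal_zero, zero_mul, av_const, norm_zero, mem_ofPred_eq, mem_singleton_iff]
    refine ⟨fun ⟨_, _, _, h⟩ => h, fun h => ⟨fun _ => 0, fun _ _ => rfl, ?_, h⟩⟩
    simp [g2, msq, av_const]
  rw [this, csSup_singleton]

theorem nb2_fst (l : Lv) (ξ : GI → ℂ) : nb2 l ξ 0 = g2 l.m ξ / dd l.m ^ 2 := by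
  simp [nb2, msq, av_const, dn_zero]

theorem nb2_snd_le (l : Lv) (ε : GI → ℂ) (σ : GI → ℝ) : nb2 l 0 σ ≤ nb2 l ε σ := by
  have h : g2 l.m 0 = 0 := by simp [g2, msq, av_const]
  have := g2_nonneg l.m ε
  unfold nb2; rw [h]; gcongr

theorem g2_le (l : Lv) (ε : GI → ℂ) (σ : GI → ℝ) : g2 l.m ε / dd l.m ^ 2 ≤ nb2 l ε σ := by
  have := msq_nonneg l.m (fun u => (σ u : ℂ))
  unfold nb2
  rw [add_assoc]; exact le_add_of_nonneg_right (by positivity)

theorem msq_le (l : Lv) (hm : 1 ≤ l.m) (ε : GI → ℂ) (σ : GI → ℝ) :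
    msq l.m (fun u => (σ u : ℂ)) ≤ nb2 l ε σ := by
  have h1 := msq_nonneg l.m (fun u => (σ u : ℂ))
  have h2 : (1 : ℝ) ≤ l.m := by exact_mod_cast hm
  have h3 : 0 ≤ g2 l.m ε / dd l.m ^ 2 := div_nonneg (g2_nonneg _ _) (sq_nonneg _)
  unfold nb2
  nlinarith [sq_nonneg (dn l.m fun u => q0 l u * σ u / dd l.m ^ 2)]

theorem abs_ts_le (m : ℕ) (F : GI → ℝ) (a b : GI → ℂ) (h : ∀ u, |F u| ≤ ‖a u‖ * ‖b u‖) :
    |ts m F| ≤ √(msq m a) * √(msq m b) / dd m ^ 2 := by
  have h1 := (norm_ts_le m F).trans (ts_mono m h)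
  rw [ts_eq_av m (fun u => ‖a u‖ * ‖b u‖), smul_eq_mul] at h1
  rw [dd_sq, div_inv_eq_mul, mul_comm]
  refine h1.trans ?_
  gcongr
  exact av_mul_le m a b

theorem eT_neg {S : Sys} {v : Vec} {K : ℤ} (hv : Sym v)
    (hq : ∀ u, q0 (lvT S K) (-u) = q0 (lvT S K) u) :
    (∀ u, q0 (lvT S K) u ≠ 0 → eT S v K (-u) = -eT S v K u) ∧
      ∀ u, sT S v K (-u) = sT S v K u := by
  have hn : ∀ u, q0 (lvT S K) u ≠ 0 → nbr (lvT S K).τ u = u := fun u hu =>
    if_neg fun h => hu (by rw [q0, h, mul_zero])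
  have hl : ∀ u, lk S K (-u) = lk S K u := fun u => by simp only [lk, hq]
  refine ⟨fun u hu => ?_, fun u => ?_⟩
  · simp only [eT, hn u hu, hn (-u) (by rwa [hq]), hl, map_neg, mul_neg, (hv _ _).1]
  · simp only [sT, hq, hl, map_neg, mul_neg, (hv _ _).2]

end ErrP

open ErrP in
theorem pErr (h1 : S_Flip) (h2 : S_Par) (h3 : S_Bdd) (h4 : S_ErrF) (h5 : S_ErrH) (h6 : S_Phi)
    (h7 : S_Poin) (h8 : S_Dip) (h9 : S_Lev) : S_Err := by
  intro E
  obtain ⟨Cb, mb, hCb, hb⟩ := h3 E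
  obtain ⟨Cf, mf, hCf, hf⟩ := h4 E
  obtain ⟨Ch, mh, hCh, hh⟩ := h5 E
  obtain ⟨Cp, jp, hCp, hp⟩ := h6 E
  obtain ⟨Co, hCo, ho⟩ := h7
  obtain ⟨Cl, ml, -, hl⟩ := h9 E
  obtain ⟨mt, hmt⟩ := exists_pow_mul_tt_le 3 (η := 1) one_pos
  refine ⟨Cb + 2 * Cf + 3 * Ch + 19 * (Cp * Co) + 16, mb + mf + mh + jp + ml + mt + 10,
    by positivity, fun S x hS hB hX K => ?_⟩
  have hB10 : Big S 10 := fun k => le_trans (by omega) (hB k)
  have hBp : Big S jp := fun k => le_trans (by omega) (hB k)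
  have hm : mb + mf + mh + jp + ml + mt + 10 ≤ (lvF S K).m := by
    have a := hB (K - 1)
    have b := hB K
    change _ ≤ min (S.st (K - 1)) (S.st K) + 2
    omega
  obtain ⟨fl, fG⟩ := h1 E S hS K
  have hG := fG x hB10 hX
  obtain ⟨okT, okF, p1, -, -, -, -, -, -, pA⟩ := h2 S hS K
  have p2 : mK S K ≤ mK S (K - 1) + 1 := by
    have := (h2 S hS (K - 1)).2.2.2.1
    rwa [sub_add_cancel] at this
  obtain ⟨ph1, ph2, ph3, -, ph5⟩ := hp S x hS hBp hX K
  obtain ⟨-, -, -, d2, -, -, d3, -⟩ := h8 _ okT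
  obtain ⟨-, -, -, -, f5, f6, ⟨f7, f8⟩, f9, -⟩ := fl _ _ (pA x.v hX.adm).1
  refine ⟨fun v' hv' => ?_, ⟨fun u w => ?_, fun u w => ?_⟩, fun u => ?_, fun u hu => ?_⟩
  rotate_left
  · simp only [FF, f7 u w, per_flC K ph2 u w]
  · simp only [GG, f8 u w, per_flR K ph3 u w]
  · obtain ⟨a1, a2⟩ := eT_neg (K := K) hX.sym fun u => (d2 u).1
    obtain ⟨b1, b2⟩ := f9 a1 a2 u
    simp only [FF, GG, b1, b2, flC, flR, star_neg, (ph5 _).1, (ph5 _).2, map_neg]
    refine ⟨?_, trivial⟩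
    split_ifs <;> ring
  · simp only [FF, Flin, flC, fres, hu, (d2 u).2, if_true, map_zero, neg_zero, ite_self,
      ofReal_zero, zero_mul, sub_zero]
  obtain ⟨pv1, pv2, pv3⟩ := pA v' hv'
  obtain ⟨g1, g2', g3, g4, -, -, -, -, g9⟩ := fl _ _ pv1
  replace g3 := g3 pv2
  replace g4 := g4 pv3
  set l := lvF S K with hl'
  set s := ls S x K with hs
  set ε' := flC K (eT S v' K) with hε'
  set σ' := flR K (sT S v' K) with hσ'
  set ε0 := flC K (eT S x.v K) with hε0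
  have eF : FF E S x K = flC K (fun u => Flin E l ε0 s.σ u - fres E S x K u) := by
    rw [flC_sub]; funext u
    have : Flin E l ε0 s.σ = _ := f5
    rw [this, flC_flC]; rfl
  have eG : GG E S x K = flR K (fun u => Glin E l ε0 s.σ u - gres E S x K u) := by
    rw [flR_sub]; funext u
    have : Glin E l ε0 s.σ = _ := f6
    rw [this, flR_flR]; rfl
  have pF : Per (mK S K) (fun u => Flin E l ε0 s.σ u - fres E S x K u) := fun u w => by
    have : Flin E l ε0 s.σ = _ := f5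
    simp only [this, per_flC K f7 u w, ph2 u w]
  have pG : Per (mK S K) (fun u => Glin E l ε0 s.σ u - gres E S x K u) := fun u w => by
    have : Glin E l ε0 s.σ = _ := f6
    simp only [this, per_flR K f8 u w, ph3 u w]
  have e0 : pT S (FF E S x) (GG E S x) v' K = BL E l (x.ξ K) 0 ε' σ'
      - pair l (fun u => (q0 l u : ℂ) * RR E l s u (pos l s u) - Flin E l s.ε s.σ u) 0 ε' 0
      - pair l 0 (fun u => q0 l u * ht E l s (pos l s u)
        + |q0 l u| * (|qq l s u| * Real.log |qq l s u|) - Glin E l s.ε s.σ u) 0 σ'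
      + ts l.m (fun u => (((q0 l u : ℂ) * RR E l s u (pos l s u) - fres E S x K u) * ε' u).re)
      + ts l.m (fun u => |q0 l u| * (|qq l s u| * (x.s K u).re / 2) * σ' u) := by
    rw [pT, eF, eG, g9 _ _ pF pG]
    unfold BL pair
    rw [← ts_sub, ← ts_sub, ← ts_add, ← ts_add]
    congr 1; funext u
    have a1 : Flin E l ε0 s.σ u = Flin E l s.ε s.σ u + Flin E l (x.ξ K) 0 u :=
      Flin_split E l ε0 (x.ξ K) s.σ u
    have a2 : Glin E l ε0 s.σ u = Glin E l s.ε s.σ u + Glin E l (x.ξ K) 0 u :=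
      Glin_split E l ε0 (x.ξ K) s.σ u
    have a3 : gres E S x K u = q0 l u * ht E l s (pos l s u) + |q0 l u| *
      (|qq l s u| * Real.log |qq l s u| - |qq l s u| * (x.s K u).re / 2) := rfl
    beta_reduce
    rw [a1, a2, a3]
    simp only [Pi.zero_apply, mul_zero, zero_mul, add_zero, zero_re, zero_add, sub_mul, add_mul,
      sub_re, add_re]
    ring
  have em : mK S K = l.m := rfl
  have eN : nT S v' K = nb2 l ε' σ' := g2'.symm
  rw [e0, eN]
  simp only [em] at ph1 p1 p2 ⊢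
  set N := √(nb2 l ε' σ') with hN
  have hN0 : 0 ≤ N := Real.sqrt_nonneg _
  have hd := dd_pos l.m
  have ht0 := tt_pos l.m
  have ht1 := tt_le_one l.m
  have hm1 : (1 : ℝ) ≤ l.m := by exact_mod_cast (by omega : 1 ≤ l.m)
  have hm3 : (l.m : ℝ) ^ 3 * tt l.m ≤ 1 := hmt l.m (by omega)
  have hm2 : (l.m : ℝ) ^ 2 * tt l.m ≤ 1 := le_trans (by gcongr; norm_num) hm3
  set n := n3 S x.v K with hn
  have s1 := Real.sqrt_nonneg (nT S x.v (K - 1))
  have s2 := Real.sqrt_nonneg (nT S x.v K)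
  have s3 := Real.sqrt_nonneg (nT S x.v (K + 1))
  have hn0 : 0 ≤ n := by rw [hn, n3]; positivity
  have hb1 : bK S x K ≤ 2 * n + 2 * tt l.m ^ 29 := by rw [hn, n3, bK, em]; linarith
  have hb3 : b3 S x K ≤ 2 * n + 18 * tt l.m ^ 29 := by
    have a1 := tt_pow_le p1 (k := 29) (by norm_num)
    have a2 := tt_pow_le p2 (k := 29) (by norm_num)
    simp only [hn, n3, b3, bK, em]; linarith
  set t := tt l.m with ht'
  set d := dd l.m with hd'
  set Y := l.m * t ^ 29 + t ^ 3 * n with hY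
  have y1 : t ^ 29 ≤ l.m * t ^ 29 := le_mul_of_one_le_left (by positivity) hm1
  have y2 : 0 ≤ t ^ 3 * n := by positivity
  have y3 : t ^ 3 * t ^ 29 ≤ t ^ 29 := mul_le_of_le_one_left (by positivity) (pow_le_one₀ ht0.le ht1)
  have y4 : t ^ 3 * bK S x K ≤ 2 * Y :=
    (mul_le_mul_of_nonneg_left hb1 (by positivity)).trans (by rw [hY]; linarith)
  have y5 : ∀ a : ℝ, a * t ≤ 1 → a * t ^ 4 * bK S x K ≤ 2 * Y := fun a ha =>
    calc a * t ^ 4 * bK S x K = (a * t) * (t ^ 3 * bK S x K) := by ring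
      _ ≤ 1 * (t ^ 3 * bK S x K) := by gcongr; exact mul_nonneg (by positivity) hG.b0
      _ ≤ 2 * Y := by rw [one_mul]; exact y4
  have hg : √(g2 l.m ε') ≤ d * N := by
    refine Real.sqrt_le_iff.2 ⟨by positivity, ?_⟩
    have a := g2_le l ε' σ'
    have a0 : 0 ≤ nb2 l ε' σ' := le_trans (div_nonneg (g2_nonneg _ _) (sq_nonneg _)) a
    rw [mul_pow, hN, Real.sq_sqrt a0, mul_comm, ← div_le_iff₀ (by positivity)]; exact a
  have t1 : |BL E l (x.ξ K) 0 ε' σ'| ≤ d ^ 2 * (Cb * Y) * N := by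
    refine (hb l okF (by omega) _ _ _ _ ⟨hX.xp K, fun _ _ => rfl, by simp⟩ g1).trans ?_
    have a : √(nb2 l (x.ξ K) 0) ≤ t ^ 29 := by
      refine Real.sqrt_le_iff.2 ⟨by positivity, ?_⟩
      rw [nb2_fst, div_le_iff₀ (by positivity)]
      exact (hX.xb K).trans_eq (by rw [em]; ring)
    calc _ ≤ Cb * l.m * d ^ 2 * (t ^ 29 * N) := by gcongr
      _ = d ^ 2 * (Cb * (l.m * t ^ 29)) * N := by ring
      _ ≤ _ := by gcongr; rw [hY]; linarith
  have t2 : |pair l (fun u => (q0 l u : ℂ) * RR E l s u (pos l s u) - Flin E l s.ε s.σ u) 0 ε' 0|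
      ≤ d ^ 2 * (2 * Cf * Y) * N := by
    refine (hf l s _ hG (by omega) ε' g1.pe g3).trans ?_
    have := hG.b0
    calc _ ≤ Cf * (l.m : ℝ) ^ 2 * t ^ 4 * bK S x K * (d * (d * N)) := by gcongr
      _ = d ^ 2 * (Cf * ((l.m : ℝ) ^ 2 * t ^ 4 * bK S x K)) * N := by ring
      _ ≤ d ^ 2 * (Cf * (2 * Y)) * N := by have := y5 _ hm2; gcongr
      _ = _ := by ring
  have t3 : |pair l 0 (fun u => q0 l u * ht E l s (pos l s u)
      + |q0 l u| * (|qq l s u| * Real.log |qq l s u|) - Glin E l s.ε s.σ u) 0 σ'|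
      ≤ d ^ 2 * (3 * Ch * Y) * N := by
    refine (hh l s _ hG (by omega) σ' ⟨fun _ _ => rfl, g1.ps, g1.neu⟩ g4).trans ?_
    have a1 : √(nb2 l 0 σ') ≤ N := Real.sqrt_le_sqrt (nb2_snd_le l ε' σ')
    have a2 : t ^ 30 ≤ t ^ 29 := pow_le_pow_of_le_one ht0.le ht1 (by norm_num)
    have a3 : (l.m : ℝ) ^ 3 * t ^ 4 * bK S x K + t ^ 30 ≤ 3 * Y := by
      have := y5 _ hm3
      rw [hY] at this ⊢; linarith
    calc _ ≤ Ch * (3 * Y) * (d ^ 2 * N) := by gcongr
      _ = _ := by ring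
  have t4 : |ts l.m (fun u =>
      (((q0 l u : ℂ) * RR E l s u (pos l s u) - fres E S x K u) * ε' u).re)|
      ≤ d ^ 2 * (19 * (Cp * Co) * Y) * N := by
    refine (abs_ts_le l.m _ (fun u => (q0 l u : ℂ) * RR E l s u (pos l s u) - fres E S x K u) ε'
      fun u => by rw [← norm_mul]; exact abs_re_le_norm _).trans ?_
    have b0 : 0 ≤ b3 S x K := by
      have := tt_pos (mK S (K - 1))
      have := tt_pos (mK S (K + 1))
      simp only [b3, bK, em]; positivity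
    have a1 : √(msq l.m fun u => (q0 l u : ℂ) * RR E l s u (pos l s u) - fres E S x K u)
        ≤ Cp * d ^ 4 * (t ^ 4 * b3 S x K + t ^ 29) := Real.sqrt_le_iff.2 ⟨by positivity, ph1⟩
    have a2 : √(msq l.m ε') ≤ Co * N := by
      refine Real.sqrt_le_iff.2 ⟨by positivity, ?_⟩
      have a := g2_le l ε' σ'
      have a0 : 0 ≤ nb2 l ε' σ' := le_trans (div_nonneg (g2_nonneg _ _) (sq_nonneg _)) a
      refine ((ho l.m ε' (by omega) g1.pe).2.2 g3).1.trans ?_
      rw [mul_pow, hN, Real.sq_sqrt a0, mul_div_assoc]; gcongr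
    have a3 : t ^ 4 * b3 S x K + t ^ 29 ≤ 19 * Y := by
      have c1 : t ^ 4 * b3 S x K ≤ t ^ 3 * (2 * n + 18 * t ^ 29) := by
        have : t ^ 4 ≤ t ^ 3 := pow_le_pow_of_le_one ht0.le ht1 (by norm_num)
        exact mul_le_mul this hb3 b0 (by positivity)
      rw [hY]; linarith
    have a4 := a1.trans (mul_le_mul_of_nonneg_left a3 (by positivity))
    calc _ ≤ Cp * d ^ 4 * (19 * Y) * (Co * N) / d ^ 2 := by gcongr
      _ = _ := by field_simp
  have t5 : |ts l.m (fun u => |q0 l u| * (|qq l s u| * (x.s K u).re / 2) * σ' u)|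
      ≤ d ^ 2 * (16 * Y) * N := by
    refine (abs_ts_le l.m _ (fun _ => ((16 * d ^ 4 * t ^ 29 : ℝ) : ℂ)) (fun u => (σ' u : ℂ))
      fun u => ?_).trans ?_
    · have a1 : |q0 l u| ≤ 4 * d ^ 2 := d3 u
      have a2 : |s.σ u| ≤ 1 / 1000 := ((hl l s _ hG (by omega)).1 u).2.2.2
      have a3 : |qq l s u| ≤ 4 * d ^ 2 * 2 := by
        rw [qq, abs_mul]; gcongr
        exact (abs_add_le _ _).trans (by rw [abs_one]; linarith)
      have a4 : |(x.s K u).re| ≤ t ^ 29 := (abs_re_le_norm _).trans (hX.sb K u)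
      rw [norm_real, norm_real, Real.norm_of_nonneg (by positivity), Real.norm_eq_abs, abs_mul,
        abs_mul, abs_div, abs_mul, abs_abs, abs_abs, abs_two]
      calc _ ≤ 4 * d ^ 2 * (4 * d ^ 2 * 2 * t ^ 29 / 2) * |σ' u| := by gcongr
        _ = _ := by ring
    · have a1 : √(msq l.m fun _ => ((16 * d ^ 4 * t ^ 29 : ℝ) : ℂ)) ≤ 16 * d ^ 4 * t ^ 29 :=
        Real.sqrt_le_iff.2 ⟨by positivity, msq_le_of_le _ fun _ => by
          rw [norm_real, Real.norm_of_nonneg (by positivity)]⟩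
      have a2 : √(msq l.m fun u => (σ' u : ℂ)) ≤ N :=
        Real.sqrt_le_sqrt (msq_le l (by omega) ε' σ')
      calc _ ≤ 16 * d ^ 4 * t ^ 29 * N / d ^ 2 := by gcongr
        _ = d ^ 2 * (16 * t ^ 29) * N := by field_simp
        _ ≤ _ := by gcongr; rw [hY]; linarith
  have := abs_le.1 t1
  have := abs_le.1 t2
  have := abs_le.1 t3
  have := abs_le.1 t4
  have := abs_le.1 t5
  rw [abs_le]
  constructor <;> linarith

end Pool.Agent.P.MP_cc4a10_gt
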