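import Pool.Agent.P.MP_cc4a10_gt.St

/-!
Package ErrF: the error of the linearised force.
-/

open Set Filter Topology Complex Metric
open scoped ComplexConjugate Real

noncomputable section

namespace Pool.Agent.P.MP_cc4a10_gt.ErrFP

theorem Lm_add (μ a b : ℂ) : Lm μ (a + b) = Lm μ a + Lm μ b := by
  simp only [Lm, map_add]; ring
theorem Lm_sub (μ a b : ℂ) : Lm μ (a - b) = Lm μ a - Lm μ b := by
  simp only [Lm, map_sub]; ring
theorem Lm_neg (μ a : ℂ) : Lm μ (-a) = -Lm μ a := by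
  simp only [Lm, map_neg]; ring

theorem c_shift {c : ℂ} {m : ℕ} {w0 : GI} (hw : c * ((om ^ m : GI) : ℂ) = w0) (x w : GI) :
    c * ((x + om ^ m * w : GI) : ℂ) = c * x + ((w0 * w : GI) : ℂ) := by
  rw [map_add, map_mul, map_mul, ← hw]; ring

theorem perZ (E : Ell) {c μ : ℂ} {m : ℕ} (hμ : ‖μ‖ ≤ 1 / 100) {w0 : GI}
    (hw : c * ((om ^ m : GI) : ℂ) = w0) (e : ℂ) (x w : GI) :
    E.Z μ (Lm μ (c * ((x + om ^ m * w : GI) : ℂ)) + e) = E.Z μ (Lm μ (c * x) + e) := by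
  rw [c_shift hw, Lm_add, add_right_comm, E.Zper μ hμ]

theorem perKZ (E : Ell) {c μ : ℂ} {m : ℕ} (hμ : ‖μ‖ ≤ 1 / 100) {w0 : GI}
    (hw : c * ((om ^ m : GI) : ℂ) = w0) (e : ℂ) (x w : GI) :
    KZ E c μ (x + om ^ m * w) e = KZ E c μ x e := by
  have h0 := perZ E hμ hw 0 x w
  simp only [add_zero] at h0
  unfold KZ
  rw [perZ E hμ hw, h0, c_shift hw, E.Wper]

theorem av_mul_left_real (m : ℕ) (a : ℝ) (F : GI → ℝ) :
    av m (fun u => a * F u) = a * av m F := by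
  simp only [av, ts_mul_left_real, smul_eq_mul]; ring

/-- Convolution against a function of the second variable. -/
theorem av_ts_conv {m : ℕ} {k : GI → ℝ} (hk : Per m k) (f : GI → ℝ) :
    av m (fun u => ts m (fun w => k (u - w) * f w)) = ts m k * av m f := by
  unfold av
  rw [ts_comm]
  have h : ∀ w, ts m (fun u => k (u - w) * f w) = ts m k * f w := fun w => by
    simp only [mul_comm _ (f w), ts_mul_left_real, sub_eq_add_neg]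
    rw [ts_shift hk]
  simp only [h, ts_mul_left_real, smul_eq_mul]; ring

theorem step (hY : S_Young) {m : ℕ} {ε ε' : GI → ℂ} (hε : Per m ε) (hε' : Per m ε')
    (hH : Per m (Hh m)) (hH1 : ∀ u, 1 ≤ Hh m u) (g : GI) {S a1 a2 K : ℝ}
    (hS : ∀ u, ‖ε' u‖ ≤ S) (ha1 : 0 ≤ a1) (ha2 : 0 ≤ a2)
    (hK : ts m (fun u => 1 / Hh m u ^ 2) ≤ K)
    (hD : msq m (fun w => ε (w + g) - ε w) ≤ g2 m ε) (Δ : GI → GI → ℂ)
    (hΔ : ∀ u w, ‖Δ u w‖ ≤ a1 * (‖ε u - ε w‖ / Hh m (u - w) ^ 3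
        + ‖ε (w + g) - ε w‖ / Hh m (u - w) ^ 2)
      + a2 * (‖ε u - ε w‖ ^ 2 / Hh m (u - w) ^ 4
        + ‖ε u - ε w‖ * ‖ε (w + g) - ε w‖ / Hh m (u - w) ^ 3
        + ‖ε (w + g) - ε w‖ ^ 2 / Hh m (u - w) ^ 3)) :
    av m (fun u => ts m (fun w => ‖ε' u‖ * ‖Δ u w‖))
      ≤ a1 * (3 * K * (√(g2 m ε) * √(msq m ε'))) + a2 * S * (5 * K * g2 m ε) := by
  have hp : ∀ u, 0 < Hh m u := fun u => lt_of_lt_of_le one_pos (hH1 u)
  have hk : ∀ n : ℕ, Per m (fun x => 1 / Hh m x ^ n) := fun n u w => by simp only [hH u w]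
  have hk0 : ∀ (n : ℕ) u, 0 ≤ 1 / Hh m u ^ n := fun n u => by have := hp u; positivity
  set D : GI → ℂ := fun w => ε (w + g) - ε w with hDdef
  have hDp : Per m D := fun u w => by
    simp only [hDdef]; rw [hε u w, add_right_comm u, hε]
  have hS0 : 0 ≤ S := (norm_nonneg _).trans (hS 0)
  have hK0 : 0 ≤ K := (ts_nonneg m (hk0 2)).trans hK
  have hG := g2_nonneg m ε
  have hsD : √(msq m D) ≤ √(g2 m ε) := Real.sqrt_le_sqrt hD
  have e3 : ts m (fun x => 1 / Hh m x ^ 3 * Hh m x) = ts m (fun x => 1 / Hh m x ^ 2) := by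
    congr 1; funext x; have := hp x; field_simp
  have e4 : ts m (fun x => 1 / Hh m x ^ 4 * Hh m x ^ 2) = ts m (fun x => 1 / Hh m x ^ 2) := by
    congr 1; funext x; have := hp x; field_simp
  have hK3 : ts m (fun x => 1 / Hh m x ^ 3) ≤ K := by
    refine (ts_mono m fun x => ?_).trans hK
    exact one_div_le_one_div_of_le (pow_pos (hp x) 2)
      (pow_le_pow_right₀ (hH1 x) (by norm_num))
  have y1 := ((hY m _ (hk 3) (hk0 3)).2.2.2.2.2 ε ε' hε hε').2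
  have y2 := (hY m _ (hk 2) (hk0 2)).2.2.2.1 ε' D hε' hDp
  have y3 := (hY m _ (hk 4) (hk0 4)).2.2.2.2.1 ε ε hε hε
  have y4 := ((hY m _ (hk 3) (hk0 3)).2.2.2.2.2 ε D hε hDp).1
  have y5 := av_ts_conv (hk 3) (fun w => ‖D w‖ ^ 2)
  rw [e3] at y1 y4
  rw [e4, Real.mul_self_sqrt hG] at y3
  have hs1 := Real.sqrt_nonneg (g2 m ε)
  have hs2 := Real.sqrt_nonneg (msq m ε')
  have z1 : 2 * ts m (fun x => 1 / Hh m x ^ 2) * (√(g2 m ε) * √(msq m ε'))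
      ≤ 2 * K * (√(g2 m ε) * √(msq m ε')) := by gcongr
  have z2 : ts m (fun x => 1 / Hh m x ^ 2) * (√(msq m ε') * √(msq m D))
      ≤ K * (√(msq m ε') * √(g2 m ε)) := by gcongr
  have z3 : 2 * ts m (fun x => 1 / Hh m x ^ 2) * g2 m ε ≤ 2 * K * g2 m ε := by gcongr
  have z4 : 2 * ts m (fun x => 1 / Hh m x ^ 2) * (√(g2 m ε) * √(msq m D))
      ≤ 2 * K * (√(g2 m ε) * √(g2 m ε)) := by gcongr
  rw [Real.mul_self_sqrt hG] at z4
  have z5 : ts m (fun x => 1 / Hh m x ^ 3) * av m (fun w => ‖D w‖ ^ 2) ≤ K * g2 m ε :=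
    mul_le_mul hK3 hD (msq_nonneg m D) hK0
  have main : av m (fun u => ts m (fun w => ‖ε' u‖ * ‖Δ u w‖)) ≤
      av m (fun u => ts m (fun w =>
        a1 * (1 / Hh m (u - w) ^ 3 * (‖ε u - ε w‖ * ‖ε' u‖)
          + 1 / Hh m (u - w) ^ 2 * (‖ε' u‖ * ‖D w‖))
        + a2 * S * (1 / Hh m (u - w) ^ 4 * (‖ε u - ε w‖ * ‖ε u - ε w‖)
          + 1 / Hh m (u - w) ^ 3 * (‖ε u - ε w‖ * ‖D w‖)
          + 1 / Hh m (u - w) ^ 3 * ‖D w‖ ^ 2))) := by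
    refine av_mono m fun u => ts_mono m fun w => ?_
    have h0 := hp (u - w)
    have hq : 0 ≤ ‖ε u - ε w‖ ^ 2 / Hh m (u - w) ^ 4
        + ‖ε u - ε w‖ * ‖D w‖ / Hh m (u - w) ^ 3 + ‖D w‖ ^ 2 / Hh m (u - w) ^ 3 := by positivity
    calc ‖ε' u‖ * ‖Δ u w‖
        ≤ ‖ε' u‖ * (a1 * (‖ε u - ε w‖ / Hh m (u - w) ^ 3 + ‖D w‖ / Hh m (u - w) ^ 2)
          + a2 * (‖ε u - ε w‖ ^ 2 / Hh m (u - w) ^ 4
          + ‖ε u - ε w‖ * ‖D w‖ / Hh m (u - w) ^ 3 + ‖D w‖ ^ 2 / Hh m (u - w) ^ 3)) :=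
          mul_le_mul_of_nonneg_left (hΔ u w) (norm_nonneg _)
      _ = ‖ε' u‖ * (a1 * (‖ε u - ε w‖ / Hh m (u - w) ^ 3 + ‖D w‖ / Hh m (u - w) ^ 2))
          + ‖ε' u‖ * (a2 * (‖ε u - ε w‖ ^ 2 / Hh m (u - w) ^ 4
          + ‖ε u - ε w‖ * ‖D w‖ / Hh m (u - w) ^ 3 + ‖D w‖ ^ 2 / Hh m (u - w) ^ 3)) := by ring
      _ ≤ ‖ε' u‖ * (a1 * (‖ε u - ε w‖ / Hh m (u - w) ^ 3 + ‖D w‖ / Hh m (u - w) ^ 2))
          + S * (a2 * (‖ε u - ε w‖ ^ 2 / Hh m (u - w) ^ 4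
          + ‖ε u - ε w‖ * ‖D w‖ / Hh m (u - w) ^ 3 + ‖D w‖ ^ 2 / Hh m (u - w) ^ 3)) := by
          gcongr; exact hS u
      _ = _ := by ring
  simp only [ts_add, ts_mul_left_real m a1, ts_mul_left_real m (a2 * S), av_add,
    av_mul_left_real] at main
  refine main.trans (add_le_add ?_ ?_)
  · refine mul_le_mul_of_nonneg_left ?_ ha1
    nlinarith
  · refine mul_le_mul_of_nonneg_left ?_ (mul_nonneg ha2 hS0)
    nlinarith

/-- The decomposition of the error. -/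
theorem decomp (E : Ell) {l : Lv} {s : Ls} (u : GI)
    (h0 : ts l.m (fun w => (q0 l w : ℂ) * E.Z s.μ (Lm s.μ (l.c * ((u - w : GI) : ℂ)))) = 0) :
    RR E l s u (pos l s u) - Rlin E l s.ε s.σ u =
      ts l.m (fun w => (q0 l w : ℂ) * KZ E l.c s.μ (u - w) (s.ε u - s.ε w))
      + ts l.m (fun w => ((q0 l w * s.σ w : ℝ) : ℂ) *
        (E.Z s.μ (Lm s.μ (l.c * ((u - w : GI) : ℂ)) + (s.ε u - s.ε w))
          - E.Z 0 (l.c * ((u - w : GI) : ℂ)))) := by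
  have hp : ∀ w, pos l s u - pos l s w
      = Lm s.μ (l.c * ((u - w : GI) : ℂ)) + (s.ε u - s.ε w) := fun w => by
    simp only [pos, map_sub, mul_sub, Lm_sub]; ring
  have e1 : RR E l s u (pos l s u) = psi E l s (pos l s u) - ts l.m (fun w => (q0 l w : ℂ) *
      E.Z s.μ (Lm s.μ (l.c * ((u - w : GI) : ℂ)))) := by rw [h0]; simp [RR]
  rw [e1, psi, Rlin, ← ts_sub, ← ts_sub, ← ts_add]
  congr 1; funext w
  rw [hp w]
  simp only [qq, KZ]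
  push_cast
  ring

theorem first (hY : S_Young) {l : Lv} {ε ε' : GI → ℂ} (hε : Per l.m ε) (hε' : Per l.m ε')
    (hH : Per l.m (Hh l.m)) (hH1 : ∀ u, 1 ≤ Hh l.m u) {S a1 a2 K : ℝ}
    (hS : ∀ u, ‖ε' u‖ ≤ S) (ha1 : 0 ≤ a1) (ha2 : 0 ≤ a2)
    (hK : ts l.m (fun u => 1 / Hh l.m u ^ 2) ≤ K) (Ψ : GI → GI → ℂ) {β1 β2 : GI → ℝ}
    (hβ : ∀ u, |β1 u| ≤ 4 * dd l.m ^ 2 ∧ |β2 u| ≤ 4 * dd l.m ^ 2)
    (hq : ∀ u, |q0 l u| ≤ 4 * dd l.m ^ 2)
    (hdip : ∀ u, ts l.m (fun w => (q0 l w : ℂ) * Ψ u w) =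
      ts l.m (fun w => (β1 w : ℂ) * (Ψ u (w + 1) - Ψ u w) + (β2 w : ℂ) * (Ψ u (w + gi) - Ψ u w)))
    (hΔ : ∀ g, g = 1 ∨ g = gi → ∀ u w, ‖Ψ u (w + g) - Ψ u w‖ ≤
      a1 * (‖ε u - ε w‖ / Hh l.m (u - w) ^ 3 + ‖ε (w + g) - ε w‖ / Hh l.m (u - w) ^ 2)
      + a2 * (‖ε u - ε w‖ ^ 2 / Hh l.m (u - w) ^ 4
        + ‖ε u - ε w‖ * ‖ε (w + g) - ε w‖ / Hh l.m (u - w) ^ 3
        + ‖ε (w + g) - ε w‖ ^ 2 / Hh l.m (u - w) ^ 3)) :
    ‖ts l.m (fun u => (q0 l u : ℂ) * ε' u * ts l.m (fun w => (q0 l w : ℂ) * Ψ u w))‖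
      ≤ 32 * dd l.m ^ 2 * (a1 * (3 * K * (√(g2 l.m ε) * √(msq l.m ε')))
        + a2 * S * (5 * K * g2 l.m ε)) := by
  have hd := dd_pos l.m
  have s1 := step hY hε hε' hH hH1 1 hS ha1 ha2 hK
    (le_add_of_nonneg_right (msq_nonneg _ _)) (fun u w => Ψ u (w + 1) - Ψ u w) (hΔ 1 (Or.inl rfl))
  have s2 := step hY hε hε' hH hH1 gi hS ha1 ha2 hK
    (le_add_of_nonneg_left (msq_nonneg _ _)) (fun u w => Ψ u (w + gi) - Ψ u w)
    (hΔ gi (Or.inr rfl))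
  have pt : ∀ u, ‖(q0 l u : ℂ) * ε' u * ts l.m (fun w => (q0 l w : ℂ) * Ψ u w)‖ ≤
      16 * dd l.m ^ 4 * (ts l.m (fun w => ‖ε' u‖ * ‖Ψ u (w + 1) - Ψ u w‖)
        + ts l.m (fun w => ‖ε' u‖ * ‖Ψ u (w + gi) - Ψ u w‖)) := by
    intro u
    have b1 : ‖ts l.m (fun w => (q0 l w : ℂ) * Ψ u w)‖ ≤
        ts l.m (fun w => 4 * dd l.m ^ 2 * (‖Ψ u (w + 1) - Ψ u w‖ + ‖Ψ u (w + gi) - Ψ u w‖)) := by
      rw [hdip u]
      refine (norm_ts_le _ _).trans (ts_mono _ fun w => ?_)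
      refine (norm_add_le _ _).trans ?_
      rw [norm_mul, norm_mul, Complex.norm_real, Complex.norm_real, Real.norm_eq_abs,
        Real.norm_eq_abs, mul_add]
      gcongr
      exacts [(hβ w).1, (hβ w).2]
    rw [ts_mul_left_real, ts_add] at b1
    rw [norm_mul, norm_mul, Complex.norm_real, Real.norm_eq_abs, ts_mul_left_real,
      ts_mul_left_real]
    calc |q0 l u| * ‖ε' u‖ * ‖ts l.m (fun w => (q0 l w : ℂ) * Ψ u w)‖
        ≤ 4 * dd l.m ^ 2 * ‖ε' u‖ * (4 * dd l.m ^ 2 * (ts l.m (fun w => ‖Ψ u (w + 1) - Ψ u w‖)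
          + ts l.m (fun w => ‖Ψ u (w + gi) - Ψ u w‖))) := by gcongr; exact hq u
      _ = _ := by ring
  refine ((norm_ts_le _ _).trans (ts_mono _ pt)).trans ?_
  rw [ts_mul_left_real, ts_eq_av, av_add, smul_eq_mul]
  have e : (2 : ℝ) ^ l.m * dd l.m ^ 2 = 1 := by rw [dd_sq]; field_simp
  calc 16 * dd l.m ^ 4 * ((2 : ℝ) ^ l.m *
        (av l.m (fun u => ts l.m (fun w => ‖ε' u‖ * ‖Ψ u (w + 1) - Ψ u w‖))
        + av l.m (fun u => ts l.m (fun w => ‖ε' u‖ * ‖Ψ u (w + gi) - Ψ u w‖))))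
      = 16 * dd l.m ^ 2 * ((2 : ℝ) ^ l.m * dd l.m ^ 2) *
        (av l.m (fun u => ts l.m (fun w => ‖ε' u‖ * ‖Ψ u (w + 1) - Ψ u w‖))
        + av l.m (fun u => ts l.m (fun w => ‖ε' u‖ * ‖Ψ u (w + gi) - Ψ u w‖))) := by ring
    _ ≤ 16 * dd l.m ^ 2 * 1 * ((a1 * (3 * K * (√(g2 l.m ε) * √(msq l.m ε')))
        + a2 * S * (5 * K * g2 l.m ε)) + (a1 * (3 * K * (√(g2 l.m ε) * √(msq l.m ε')))
        + a2 * S * (5 * K * g2 l.m ε))) := by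
        rw [e]; gcongr
    _ = _ := by ring

/-- The final arithmetic. -/
theorem arith {CK CS CP m t d b g g' r μ : ℝ} (hCK : 0 < CK) (hCS : 0 < CS) (hCP : 0 < CP)
    (hm : 1 ≤ m) (ht : 0 < t) (ht1 : t ≤ 1) (hd : t ^ 16 = d) (hb : 0 ≤ b) (hbs : b ≤ 3 * t ^ 20)
    (hg0 : 0 ≤ g) (hg : g ≤ d * b) (hg' : 0 ≤ g') (hr0 : 0 ≤ r) (hr : r ≤ CP * g' / d)
    (hμ0 : 0 ≤ μ) (hμ : μ ≤ t ^ 30) :
    32 * d ^ 2 * (CK * μ / d ^ 2 * (3 * (CS * m) * (g * r))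
        + CK / d ^ 3 * (CP * m * g' / d) * (5 * (CS * m) * g ^ 2))
      ≤ 576 * CK * CS * CP * m ^ 2 * t ^ 4 * b * (d * g') := by
  have hd0 : 0 < d := by rw [← hd]; positivity
  have hm0 : 0 < m := by linarith
  have h30 : μ ≤ t ^ 20 := hμ.trans (pow_le_pow_of_le_one ht.le ht1 (by norm_num))
  have hmm : m ≤ m ^ 2 := by nlinarith
  have a1 : 32 * d ^ 2 * (CK * μ / d ^ 2 * (3 * (CS * m) * (g * r)))
      ≤ 96 * CK * CS * CP * m ^ 2 * t ^ 20 * b * g' := by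
    calc 32 * d ^ 2 * (CK * μ / d ^ 2 * (3 * (CS * m) * (g * r)))
        = 96 * CK * CS * m * μ * (g * r) := by field_simp; ring
      _ ≤ 96 * CK * CS * m ^ 2 * t ^ 20 * ((d * b) * (CP * g' / d)) := by gcongr
      _ = _ := by field_simp
  have a2 : 32 * d ^ 2 * (CK / d ^ 3 * (CP * m * g' / d) * (5 * (CS * m) * g ^ 2))
      ≤ 480 * CK * CS * CP * m ^ 2 * t ^ 20 * b * g' := by
    calc 32 * d ^ 2 * (CK / d ^ 3 * (CP * m * g' / d) * (5 * (CS * m) * g ^ 2))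
        ≤ 32 * d ^ 2 * (CK / d ^ 3 * (CP * m * g' / d) * (5 * (CS * m) * (d * b) ^ 2)) := by
          gcongr
      _ = 160 * CK * CS * CP * m ^ 2 * b * b * g' := by field_simp; ring
      _ ≤ 160 * CK * CS * CP * m ^ 2 * (3 * t ^ 20) * b * g' := by gcongr
      _ = _ := by ring
  have e : 576 * CK * CS * CP * m ^ 2 * t ^ 4 * b * (d * g')
      = 96 * CK * CS * CP * m ^ 2 * t ^ 20 * b * g'
        + 480 * CK * CS * CP * m ^ 2 * t ^ 20 * b * g' := by rw [← hd]; ring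
  rw [e, mul_add]
  exact add_le_add a1 a2

end Pool.Agent.P.MP_cc4a10_gt.ErrFP

namespace Pool.Agent.P.MP_cc4a10_gt

open ErrFP

theorem pErrF (hF2 : S_ErrF2) (hBox : S_Box) (hSum : S_Sum) (hY : S_Young) (hPoin : S_Poin)
    (hDip : S_Dip) (hK0 : S_Ker0) (hKZ : S_KerZ) (hLev : S_Lev) : S_ErrF := by
  intro E
  obtain ⟨C2, m2, hC2, hF2⟩ := hF2 E
  obtain ⟨CS, hCS, hSum⟩ := hSum
  obtain ⟨CP, hCP, hPoin⟩ := hPoin
  obtain ⟨C0, -, hK0⟩ := hK0 E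
  obtain ⟨CK, mk, hCK, hKZ⟩ := hKZ E
  obtain ⟨CL, mL, -, hLev⟩ := hLev E
  obtain ⟨mt, hmt⟩ := exists_pow_mul_tt_le 0 (η := 1 / 100) (by norm_num)
  refine ⟨576 * CK * CS * CP + C2, max (max m2 mk) (max mL mt), by positivity, ?_⟩
  intro l s b hG hm ε' hε' hM
  have hm2 : m2 ≤ l.m := le_trans (le_trans (le_max_left _ _) (le_max_left _ _)) hm
  have hmk : mk ≤ l.m := le_trans (le_trans (le_max_right _ _) (le_max_left _ _)) hm
  have hmL : mL ≤ l.m := le_trans (le_trans (le_max_left _ _) (le_max_right _ _)) hm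
  have hmt' : mt ≤ l.m := le_trans (le_trans (le_max_right _ _) (le_max_right _ _)) hm
  have h2m : 2 ≤ l.m := hG.ok.1
  have hm1 : (1 : ℝ) ≤ l.m := by exact_mod_cast (by omega : 1 ≤ l.m)
  have hd := dd_pos l.m
  have ht := tt_pos l.m
  have ht1 := tt_le_one l.m
  have hμ : ‖s.μ‖ ≤ 1 / 100 := by
    have h1 := hmt l.m hmt'
    rw [pow_zero, one_mul] at h1
    refine hG.mu.trans (le_trans ?_ h1)
    simpa using pow_le_pow_of_le_one ht.le ht1 (by norm_num : 1 ≤ 30)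
  obtain ⟨hb1, -, hH, -, hb5, -⟩ := hBox l.m
  obtain ⟨⟨β1, β2, -, -, hβ, -, -, hdip⟩, hodd, -, -, -, -, hq, -, ⟨w0, hw0, -⟩, -⟩ :=
    hDip l hG.ok
  have hε := hG.lv.pe
  have hsm : ∀ u w, ‖s.ε u - s.ε w‖ ≤ dd l.m / 10 := by
    intro u w
    have h1 := ((hLev l s b hG hmL).1 u).2.1
    have h2 := ((hLev l s b hG hmL).1 w).2.1
    have h3 : rho l.m ≤ dd l.m := div_le_self hd.le hm1
    have := norm_sub_le (s.ε u) (s.ε w)
    linarith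
  have hz : ∀ u w, mr l.m (u - w) = 0 → s.ε u - s.ε w = 0 := fun u w h =>
    sub_eq_zero.2 (hε.of_dvd ((hb1 _).2.2.2.1 h))
  have h0 : ∀ u, ts l.m (fun w => (q0 l w : ℂ) *
      E.Z s.μ (Lm s.μ (l.c * ((u - w : GI) : ℂ)))) = 0 := fun u => by
    refine hodd (fun x => E.Z s.μ (Lm s.μ (l.c * x))) u (fun x w => ?_) (fun x => ?_)
    · simpa using perZ E hμ hw0 0 x w
    · rw [map_neg, mul_neg, Lm_neg, ((hK0 s.μ hμ).2.2.2.2.1 _).1]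
  have hG2 : g2 l.m s.ε ≤ (dd l.m * b) ^ 2 := by
    have h1 := hG.nb
    unfold nb2 at h1
    have h2 : 0 ≤ (l.m : ℝ) * msq l.m (fun u => (s.σ u : ℂ)) :=
      mul_nonneg (by positivity) (msq_nonneg _ _)
    have h3 := sq_nonneg (dn l.m (fun u => q0 l u * s.σ u / dd l.m ^ 2))
    have h4 : g2 l.m s.ε / dd l.m ^ 2 ≤ b ^ 2 := by linarith
    rw [div_le_iff₀ (by positivity)] at h4
    nlinarith
  have hg : √(g2 l.m s.ε) ≤ dd l.m * b :=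
    Real.sqrt_le_iff.2 ⟨mul_nonneg hd.le hG.b0, hG2⟩
  obtain ⟨hP1, hP2⟩ := (hPoin l.m ε' h2m hε').2.2 hM
  have hr : √(msq l.m ε') ≤ CP * √(g2 l.m ε') / dd l.m := by
    refine Real.sqrt_le_iff.2 ⟨by positivity, hP1.trans (le_of_eq ?_)⟩
    rw [div_pow, mul_pow, Real.sq_sqrt (g2_nonneg _ _)]
  have hfirst := first hY hε hε' hH (fun u => (hb5 u).1) hP2
    (a1 := CK * ‖s.μ‖ / dd l.m ^ 2) (a2 := CK / dd l.m ^ 3) (by positivity) (by positivity)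
    (hSum l.m (by omega)).2.1 (fun u w => KZ E l.c s.μ (u - w) (s.ε u - s.ε w)) hβ hq
    (fun u => hdip _ (fun w v => by
      show KZ E l.c s.μ (u - (w + om ^ l.m * v)) (s.ε u - s.ε (w + om ^ l.m * v)) = _
      rw [hε w v, show u - (w + om ^ l.m * v) = u - w + om ^ l.m * (-v) by ring,
        perKZ E hμ hw0]))
    (fun g hg u w => by
      have hSt : St (-g) := by
        rcases hg with rfl | rfl
        · exact Or.inr (Or.inl rfl)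
        · exact Or.inr (Or.inr (Or.inr rfl))
      have e1 : u - (w + g) = u - w + -g := by ring
      have k := ((hKZ l s.μ hG.ok hmk hμ (u - w) (-g) (-g) hSt hSt).1 (s.ε u - s.ε w)
        (hsm u w) (hz u w)).2.2 (s.ε u - s.ε (w + g)) (hsm _ _) (by rw [← e1]; exact hz u (w + g))
      have e2 : ‖s.ε u - s.ε (w + g) - (s.ε u - s.ε w)‖ = ‖s.ε (w + g) - s.ε w‖ := by
        rw [← norm_neg]; congr 1; ring
      rw [e2, ← e1] at k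
      refine k.trans (le_of_eq ?_)
      ring)
  have har := arith (CK := CK) (CS := CS) (CP := CP) (μ := ‖s.μ‖) hCK hCS hCP hm1 ht ht1
    (tt_pow_16 l.m) hG.b0 hG.bs (Real.sqrt_nonneg _) hg (Real.sqrt_nonneg (g2 l.m ε'))
    (Real.sqrt_nonneg _) hr (norm_nonneg _) hG.mu
  rw [Real.sq_sqrt (g2_nonneg _ _)] at har
  have hsec := hF2 l s b hG hm2 ε' hε' hM
  have e : pair l (fun u => (q0 l u : ℂ) * RR E l s u (pos l s u) - Flin E l s.ε s.σ u) 0 ε' 0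
      = (ts l.m (fun u => (q0 l u : ℂ) * ε' u *
          ts l.m (fun w => (q0 l w : ℂ) * KZ E l.c s.μ (u - w) (s.ε u - s.ε w)))
        + ts l.m (fun u => (q0 l u : ℂ) * ε' u * ts l.m (fun w => ((q0 l w * s.σ w : ℝ) : ℂ) *
          (E.Z s.μ (Lm s.μ (l.c * ((u - w : GI) : ℂ)) + (s.ε u - s.ε w))
            - E.Z 0 (l.c * ((u - w : GI) : ℂ)))))).re := by
    rw [← ts_add, ts_re, pair]
    congr 1; funext u
    simp only [Pi.zero_apply, mul_zero, add_zero]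
    rw [Flin, ← mul_sub, decomp E u (h0 u)]
    congr 1; ring
  rw [e]
  refine (Complex.abs_re_le_norm _).trans ((norm_add_le _ _).trans ?_)
  refine (add_le_add (hfirst.trans har) hsec).trans (le_of_eq ?_)
  ring

end Pool.Agent.P.MP_cc4a10_gt
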