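import Pool.Agent.P.MP_cc4a10_gt.St

/-!
The part of the force error that is linear in the size changes.
-/

open Set Filter Topology Complex Metric
open scoped ComplexConjugate Real

noncomputable section

namespace Pool.Agent.P.MP_cc4a10_gt

namespace ErrF2P

theorem real1 {C d H μ e δ : ℝ} (hC : 0 < C) (hd : 0 < d) (hH : 1 ≤ H) (hdH : H * d ≤ 2)
    (hμ : μ ≤ 1) (he0 : 0 ≤ e) (he : e ≤ d) (hδ0 : 0 ≤ δ) (hδ : δ ≤ d) :
    C * (μ * (e / H ^ 3 + δ / H ^ 2) / d ^ 2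
        + (e ^ 2 / H ^ 4 + e * δ / H ^ 3 + δ ^ 2 / H ^ 3) / d ^ 3)
      + C / (d ^ 2 * H ^ 3) * (e + δ) + C / (d * H) ^ 2 * δ + π * δ
      ≤ (4 * C + 16) * ((e / H ^ 3 + δ / H ^ 2) / d ^ 2) := by
  have hH0 : 0 < H := by linarith
  set P := e / H ^ 3 / d ^ 2 with hP
  set Q := δ / H ^ 2 / d ^ 2 with hQ
  have hP0 : 0 ≤ P := by positivity
  have hQ0 : 0 ≤ Q := by positivity
  have h1 : e / d ≤ 1 := (div_le_one hd).2 he
  have h2 : δ / d ≤ 1 := (div_le_one hd).2 hδ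
  have h3 : 1 / H ≤ 1 := (div_le_one hH0).2 hH
  have a1 : μ * (P + Q) ≤ P + Q := mul_le_of_le_one_left (by positivity) hμ
  have a2 : P * (e / d * (1 / H)) ≤ P :=
    mul_le_of_le_one_right hP0 (mul_le_one₀ h1 (by positivity) h3)
  have a3 : P * (δ / d) ≤ P := mul_le_of_le_one_right hP0 h2
  have a4 : Q * (δ / d * (1 / H)) ≤ Q :=
    mul_le_of_le_one_right hQ0 (mul_le_one₀ h2 (by positivity) h3)
  have a5 : Q * (1 / H) ≤ Q := mul_le_of_le_one_right hQ0 h3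
  have a6 : π * δ ≤ 16 * Q := by
    have b1 : δ = Q * (H * d) ^ 2 := by
      rw [hQ]
      field_simp
    have b2 : (H * d) ^ 2 ≤ 4 := by nlinarith [mul_pos hH0 hd]
    nlinarith [Real.pi_le_four, mul_le_mul_of_nonneg_left b2 hQ0]
  have e1 : C * (μ * (e / H ^ 3 + δ / H ^ 2) / d ^ 2
        + (e ^ 2 / H ^ 4 + e * δ / H ^ 3 + δ ^ 2 / H ^ 3) / d ^ 3)
      + C / (d ^ 2 * H ^ 3) * (e + δ) + C / (d * H) ^ 2 * δ
      = C * (μ * (P + Q) + P * (e / d * (1 / H)) + P * (δ / d) + Q * (δ / d * (1 / H))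
        + P + Q * (1 / H) + Q) := by
    rw [hP, hQ]
    field_simp
    ring
  have e2 : (e / H ^ 3 + δ / H ^ 2) / d ^ 2 = P + Q := by rw [add_div]
  rw [e1, e2]
  nlinarith

/-- The kernel. -/
def K (E : Ell) (c μ : ℂ) (x : GI) (e : ℂ) : ℂ := E.Z μ (Lm μ (c * x) + e) - E.Z 0 (c * x)

theorem K_per (E : Ell) {c μ : ℂ} {m : ℕ} {w0 : GI} (hc : c * ((om ^ m : GI) : ℂ) = w0)
    (hμ : ‖μ‖ ≤ 1 / 100) (x v : GI) (e : ℂ) : K E c μ (x + om ^ m * v) e = K E c μ x e := by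
  have h1 : c * ((x + om ^ m * v : GI) : ℂ) = c * x + ((w0 * v : GI) : ℂ) := by
    rw [GaussianInt.toComplex_add, GaussianInt.toComplex_mul, GaussianInt.toComplex_mul, ← hc]
    ring
  have h2 : Lm μ (c * x + ((w0 * v : GI) : ℂ)) + e = Lm μ (c * x) + e + Lm μ ((w0 * v : GI) : ℂ) := by
    simp only [Lm, map_add]
    ring
  have h3 := E.Zper 0 (by norm_num) (c * x) (w0 * v)
  rw [show Lm 0 ((w0 * v : GI) : ℂ) = ((w0 * v : GI) : ℂ) by simp [Lm]] at h3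
  rw [K, K, h1, h2, E.Zper μ hμ, h3]

theorem K_bd (h5 : S_Box) (h6 : S_KerZ) (E : Ell) : ∃ (C : ℝ) (m0 : ℕ), 0 < C ∧
    ∀ (l : Lv) (μ : ℂ), l.ok → m0 ≤ l.m → ‖μ‖ ≤ 1 / 100 → ∀ (x g : GI), St g → ∀ e e' : ℂ,
      ‖e‖ ≤ dd l.m / 10 → ‖e'‖ ≤ dd l.m / 10 → (mr l.m x = 0 → e = 0) →
      (mr l.m (x + g) = 0 → e' = 0) →
      ‖K E l.c μ x e‖ ≤ C * (‖e‖ / (dd l.m * Hh l.m x) ^ 2 + ‖μ‖ / (dd l.m * Hh l.m x)) ∧
      ‖K E l.c μ (x + g) e' - K E l.c μ x e‖ ≤ C * ((‖e‖ / Hh l.m x ^ 3 + ‖e' - e‖ / Hh l.m x ^ 2)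
        / dd l.m ^ 2 + ‖μ‖ / (dd l.m * Hh l.m x ^ 2)) := by
  obtain ⟨C, m0, hC, h⟩ := h6 E
  refine ⟨4 * C + 16, m0, by positivity, fun l μ hl hm hμ x g hg e e' he he' h0 h0' => ?_⟩
  obtain ⟨a1, a2, a3, -, -, a4, a5, -⟩ := h l μ hl hm hμ x g g hg hg
  obtain ⟨-, a6, a7⟩ := a1 e he h0
  have a8 := a7 e' he' h0'
  obtain ⟨b1, b2, -⟩ := (h5 l.m).2.2.2.2.1 x
  have hd := dd_pos l.m
  have hH : 0 < Hh l.m x := by linarith
  constructor
  · have e1 : K E l.c μ x e = (E.Z μ (Lm μ (l.c * x) + e) - E.Z μ (Lm μ (l.c * x)))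
        + (E.Z μ (Lm μ (l.c * x)) - E.Z 0 (l.c * x)) := by
      rw [K]
      ring
    rw [e1]
    refine (norm_add_le_of_le a6 a2).trans ?_
    rw [mul_div_assoc, mul_div_assoc, ← mul_add]
    exact mul_le_mul_of_nonneg_right (by linarith) (by positivity)
  · have e1 : K E l.c μ (x + g) e' - K E l.c μ x e =
        (KZ E l.c μ (x + g) e' - KZ E l.c μ x e)
          - (E.wp (l.c * (x + g : GI)) - E.wp (l.c * x)) * (e + (e' - e))
          - E.wp (l.c * x) * (e' - e) - π * conj (e' - e)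
          + ((E.Z μ (Lm μ (l.c * (x + g : GI))) - E.Z 0 (l.c * (x + g : GI)))
            - (E.Z μ (Lm μ (l.c * x)) - E.Z 0 (l.c * x))) := by
      simp only [K, KZ, map_sub]
      ring
    have c1 : ‖(E.wp (l.c * (x + g : GI)) - E.wp (l.c * x)) * (e + (e' - e))‖
        ≤ C / (dd l.m ^ 2 * Hh l.m x ^ 3) * (‖e‖ + ‖e' - e‖) := by
      rw [norm_mul]
      exact mul_le_mul a5 (norm_add_le _ _) (norm_nonneg _) (by positivity)
    have c2 : ‖E.wp (l.c * x) * (e' - e)‖ ≤ C / (dd l.m * Hh l.m x) ^ 2 * ‖e' - e‖ := by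
      rw [norm_mul]
      exact mul_le_mul_of_nonneg_right a4 (norm_nonneg _)
    have c3 : ‖(π : ℂ) * conj (e' - e)‖ ≤ π * ‖e' - e‖ := by
      rw [norm_mul, norm_conj, norm_real, Real.norm_of_nonneg Real.pi_pos.le]
    have c4 := real1 (μ := ‖μ‖) hC hd b1 b2 (by linarith) (norm_nonneg e) (by linarith)
      (norm_nonneg (e' - e)) (by linarith [norm_sub_le e' e])
    rw [e1]
    refine (norm_add_le_of_le ((norm_sub_le_of_le (norm_sub_le_of_le (norm_sub_le_of_le a8 c1) c2)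
      c3).trans c4) a3).trans ?_
    rw [mul_add, mul_div_assoc]
    gcongr
    linarith

theorem ts_ts (m : ℕ) (A : GI → GI → ℝ) :
    ts m (fun w => ts m (fun u => A u w)) = av m (fun u => ts m (A u)) / dd m ^ 2 := by
  rw [← ts_comm, ts_eq_av, dd_sq, smul_eq_mul, div_inv_eq_mul, mul_comm]

theorem av5 (m : ℕ) (a1 a2 a3 a4 a5 : ℝ) (A1 A2 A3 A4 A5 : GI → GI → ℝ) :
    av m (fun u => ts m (fun w => a1 * A1 u w + a2 * A2 u w + a3 * A3 u w + a4 * A4 u w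
      + a5 * A5 u w)) = a1 * av m (fun u => ts m (A1 u)) + a2 * av m (fun u => ts m (A2 u))
      + a3 * av m (fun u => ts m (A3 u)) + a4 * av m (fun u => ts m (A4 u))
      + a5 * av m (fun u => ts m (A5 u)) := by
  simp only [av, ts_add, ts_mul_left_real, smul_eq_mul]
  ring

/-- One direction of the summation by parts. -/
theorem step (h2 : S_Young) {m : ℕ} {C CS S r n b g' : ℝ} {ε ε' : GI → ℂ} {σ ρ β : GI → ℝ}
    {A : GI → GI → ℂ} {g : GI} (hC : 0 < C) (hCS : 0 < CS) (hH : Per m (Hh m))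
    (hH1 : ∀ x, 1 ≤ Hh m x) (s1 : ts m (fun u => 1 / Hh m u) ≤ CS / dd m)
    (s2 : ts m (fun u => 1 / Hh m u ^ 2) ≤ CS * m) (pε : Per m ε) (pε' : Per m ε') (pσ : Per m σ)
    (hr : 0 ≤ r) (hn : 0 ≤ n) (hb : 0 ≤ b) (hS : ∀ u, ‖ε' u‖ ≤ S)
    (hρ : ∀ w, |ρ w| ≤ 4 * dd m ^ 2 * |σ w|) (hβ : ∀ u, |β u| ≤ 4 * dd m ^ 2)
    (hA : ∀ u w, ‖A u w‖ ≤ C * (r / (dd m * Hh m (u - w)) ^ 2 + n / (dd m * Hh m (u - w))))
    (hA' : ∀ u w, ‖A (u + g) w - A u w‖ ≤ C * ((‖ε u - ε w‖ / Hh m (u - w) ^ 3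
      + ‖ε (u + g) - ε u‖ / Hh m (u - w) ^ 2) / dd m ^ 2 + n / (dd m * Hh m (u - w) ^ 2)))
    (m1 : √(msq m fun u => (σ u : ℂ)) ≤ b) (m2 : √(g2 m ε) ≤ dd m * b)
    (m3 : √(msq m fun u => ε (u + g) - ε u) ≤ dd m * b)
    (m4 : √(msq m fun u => ε' (u + g) - ε' u) ≤ g') :
    ‖ts m (fun w => (ρ w : ℂ) * ts m (fun u =>
      (β u : ℂ) * (ε' (u + g) * A (u + g) w - ε' u * A u w)))‖
      ≤ 16 * C * CS * b * (g' * (m * r + n) + S * dd m * m * (3 * b + n)) := by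
  have hd := dd_pos m
  have hS0 : 0 ≤ S := (norm_nonneg _).trans (hS 0)
  have hg0 : 0 ≤ g' := (Real.sqrt_nonneg _).trans m4
  have hH0 : ∀ x, 0 < Hh m x := fun x => by linarith [hH1 x]
  have pk : ∀ j : ℕ, Per m (fun x => 1 / Hh m x ^ j) := fun j u w => by simp only [hH u w]
  have k0 : ∀ (j : ℕ) (x : GI), 0 ≤ 1 / Hh m x ^ j := fun j x => by
    have := hH0 x
    positivity
  have pσ' : Per m (fun u => (σ u : ℂ)) := fun u w => by simp only [pσ u w]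
  have pg : ∀ f : GI → ℂ, Per m f → Per m (fun u => f (u + g) - f u) := fun f hf u w => by
    simp only [hf u w, hf.shift g u w]
  have s1' : ts m (fun u => 1 / Hh m u ^ 1) ≤ CS / dd m := by simpa only [pow_one] using s1
  have s3 : ts m (fun x => 1 / Hh m x ^ 3 * Hh m x) ≤ CS * m := by
    refine le_trans (le_of_eq (congrArg _ (funext fun x => ?_))) s2
    have := hH0 x
    field_simp
  have y1 := ((h2 m _ (pk 2) (k0 2)).2.2.2.1 _ _ (pg ε' pε') pσ').trans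
    (mul_le_mul s2 (mul_le_mul m4 m1 (Real.sqrt_nonneg _) hg0) (by positivity) (by positivity))
  have y2 := ((h2 m _ (pk 1) (k0 1)).2.2.2.1 _ _ (pg ε' pε') pσ').trans
    (mul_le_mul s1' (mul_le_mul m4 m1 (Real.sqrt_nonneg _) hg0) (by positivity) (by positivity))
  have y3 := ((h2 m _ (pk 3) (k0 3)).2.2.2.2.2 _ _ pε pσ').1.trans
    (mul_le_mul (mul_le_mul_of_nonneg_left s3 zero_le_two)
      (mul_le_mul m2 m1 (Real.sqrt_nonneg _) (by positivity)) (by positivity) (by positivity))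
  have y4 := ((h2 m _ (pk 2) (k0 2)).2.2.2.1 _ _ (pg ε pε) pσ').trans
    (mul_le_mul s2 (mul_le_mul m3 m1 (Real.sqrt_nonneg _) (by positivity)) (by positivity)
      (by positivity))
  have m5 : √(msq m fun _ => (1 : ℂ)) ≤ 1 :=
    Real.sqrt_le_one.2 ((msq_le_of_le m (b := 1) fun _ => by simp).trans (by norm_num))
  have y5 := ((h2 m _ (pk 2) (k0 2)).2.2.2.1 (fun _ => 1) _ (fun _ _ => rfl) pσ').trans
    (mul_le_mul s2 (mul_le_mul m5 m1 (Real.sqrt_nonneg _) zero_le_one) (by positivity)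
      (by positivity))
  have key : ∀ u w, ‖(ρ w : ℂ) * ((β u : ℂ) * (ε' (u + g) * A (u + g) w - ε' u * A u w))‖ ≤
      (16 * C * dd m ^ 2 * r) * (1 / Hh m (u - w) ^ 2 * (‖ε' (u + g) - ε' u‖ * ‖(σ w : ℂ)‖))
      + (16 * C * dd m ^ 3 * n) * (1 / Hh m (u - w) ^ 1 * (‖ε' (u + g) - ε' u‖ * ‖(σ w : ℂ)‖))
      + (16 * C * dd m ^ 2 * S) * (1 / Hh m (u - w) ^ 3 * (‖ε u - ε w‖ * ‖(σ w : ℂ)‖))
      + (16 * C * dd m ^ 2 * S) * (1 / Hh m (u - w) ^ 2 * (‖ε (u + g) - ε u‖ * ‖(σ w : ℂ)‖))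
      + (16 * C * dd m ^ 3 * n * S) * (1 / Hh m (u - w) ^ 2 * (‖(1 : ℂ)‖ * ‖(σ w : ℂ)‖)) := by
    intro u w
    have := hH0 (u - w)
    have e1 : ε' (u + g) * A (u + g) w - ε' u * A u w
        = (ε' (u + g) - ε' u) * A u w + ε' (u + g) * (A (u + g) w - A u w) := by ring
    have c1 := mul_le_mul_of_nonneg_left (hA u w) (norm_nonneg (ε' (u + g) - ε' u))
    have c2 := mul_le_mul (hS (u + g)) (hA' u w) (norm_nonneg _) hS0
    rw [← norm_mul] at c1 c2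
    rw [e1, norm_mul, norm_mul, norm_real, norm_real, norm_real, Real.norm_eq_abs,
      Real.norm_eq_abs, Real.norm_eq_abs, norm_one]
    refine (mul_le_mul (hρ w) (mul_le_mul (hβ u) (norm_add_le_of_le c1 c2) (norm_nonneg _)
      (by positivity)) (by positivity) (by positivity)).trans (le_of_eq ?_)
    field_simp
    ring
  have fin := ts_mono m fun w => (norm_ts_le m _).trans (ts_mono m fun u => key u w)
  rw [ts_ts, av5] at fin
  simp only [← ts_mul_left]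
  refine ((norm_ts_le _ _).trans fin).trans ?_
  refine (div_le_div_of_nonneg_right (add_le_add (add_le_add (add_le_add (add_le_add
    (mul_le_mul_of_nonneg_left y1 (by positivity)) (mul_le_mul_of_nonneg_left y2 (by positivity)))
    (mul_le_mul_of_nonneg_left y3 (by positivity))) (mul_le_mul_of_nonneg_left y4 (by positivity)))
    (mul_le_mul_of_nonneg_left y5 (by positivity))) (by positivity)).trans (le_of_eq ?_)
  field_simp
  ring

end ErrF2P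

open ErrF2P in
theorem pErrF2 (h1 : S_Sum) (h2 : S_Young) (h3 : S_Poin) (h4 : S_Dip) (h5 : S_Box) (h6 : S_KerZ)
    (h7 : S_Lev) : S_ErrF2 := by
  intro E
  obtain ⟨CS, hCS, hS⟩ := h1
  obtain ⟨CP, hCP, hP⟩ := h3
  obtain ⟨C, m1, hC, hK⟩ := K_bd h5 h6 E
  obtain ⟨CL, m2, hCL, hL⟩ := h7 E
  obtain ⟨m3, hm3⟩ := exists_pow_mul_tt_le 0 (show (0 : ℝ) < 1 / 100 by norm_num)
  refine ⟨32 * C * CS * (6 * CL + 1 + 10 * CP), max m1 (max m2 m3), by positivity,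
    fun l s b hG hm ε' pε' h0 => ?_⟩
  obtain ⟨hm1, hm2, hm3'⟩ : m1 ≤ l.m ∧ m2 ≤ l.m ∧ m3 ≤ l.m := by omega
  have hm0 : 2 ≤ l.m := hG.ok.1
  have hm0' : (1 : ℝ) ≤ l.m := by exact_mod_cast (by omega : 1 ≤ l.m)
  have hd := dd_pos l.m
  have ht := tt_pos l.m
  have ht1 := tt_le_one l.m
  have hb := hG.b0
  have hμ20 : ‖s.μ‖ ≤ tt l.m ^ 20 := hG.mu.trans (pow_le_pow_of_le_one ht.le ht1 (by norm_num))
  have hμ : ‖s.μ‖ ≤ 1 / 100 := by
    have a1 := hm3 l.m hm3'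
    rw [pow_zero, one_mul] at a1
    exact (hG.mu.trans (pow_le_of_le_one ht.le ht1 (by norm_num))).trans a1
  obtain ⟨⟨β1, β2, -, -, hβ, -, -, hD⟩, -, -, -, -, -, hq, -, ⟨w0, hw0, -⟩, -⟩ := h4 l hG.ok
  obtain ⟨hB1, -, hB2, -, hB3, -⟩ := h5 l.m
  obtain ⟨s1, s2, -⟩ := hS l.m (by omega)
  have hε := (hL l s b hG hm2).1
  have pε := hG.lv.pe
  have hS' := ((hP l.m ε' hm0 pε').2.2 h0).2
  have e1 : ∀ u w, ‖s.ε u - s.ε w‖ ≤ dd l.m / 10 := fun u w => by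
    have a1 : rho l.m ≤ dd l.m := div_le_self hd.le hm0'
    linarith [norm_sub_le (s.ε u) (s.ε w), (hε u).2.1, (hε w).2.1]
  have e2 : ∀ u w, mr l.m (u - w) = 0 → s.ε u - s.ε w = 0 := fun u w h =>
    sub_eq_zero.2 (pε.of_dvd ((hB1 _).2.2.2.1 h))
  have n1 := div_nonneg (g2_nonneg l.m s.ε) (sq_nonneg (dd l.m))
  have n2 := msq_nonneg l.m (fun u => (s.σ u : ℂ))
  have n3 := sq_nonneg (dn l.m (fun u => q0 l u * s.σ u / dd l.m ^ 2))
  have n4 := hG.nb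
  rw [nb2] at n4
  have r1 : √(msq l.m fun u => (s.σ u : ℂ)) ≤ b := Real.sqrt_le_iff.2 ⟨hb, by nlinarith⟩
  have r2 : g2 l.m s.ε ≤ (dd l.m * b) ^ 2 := by
    have : g2 l.m s.ε / dd l.m ^ 2 ≤ b ^ 2 := by nlinarith
    rw [div_le_iff₀ (by positivity)] at this
    linarith
  let A : GI → GI → ℂ := fun u w => K E l.c s.μ (u - w) (s.ε u - s.ε w)
  have pA : ∀ w, Per l.m (fun u => ε' u * A u w) := fun w u v => by
    simp only [A]
    rw [pε' u v, pε u v, add_sub_right_comm, K_per E hw0 hμ]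
  have one : ∀ (g : GI) (β : GI → ℝ), St g → (∀ u, |β u| ≤ 4 * dd l.m ^ 2) →
      (∀ f : GI → ℂ, msq l.m (fun u => f (u + g) - f u) ≤ g2 l.m f) →
      ‖ts l.m (fun w => ((q0 l w * s.σ w : ℝ) : ℂ) * ts l.m (fun u =>
        (β u : ℂ) * (ε' (u + g) * A (u + g) w - ε' u * A u w)))‖ ≤
        16 * C * CS * (6 * CL + 1 + 10 * CP) * (l.m : ℝ) ^ 2 * tt l.m ^ 4 * b
          * (dd l.m * √(g2 l.m ε')) := by
    intro g β hg hβ' hg2
    have k1 : ∀ u w, _ := fun u w => hK l s.μ hG.ok hm1 hμ (u - w) g hg (s.ε u - s.ε w)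
      (s.ε (u + g) - s.ε w) (e1 _ _) (e1 _ _) (e2 _ _)
      (by rw [← add_sub_right_comm]; exact e2 _ _)
    refine (step h2 (r := 2 * (CL * l.m * b)) (n := ‖s.μ‖) (ε := s.ε) (σ := s.σ) hC hCS hB2
      (fun x => (hB3 x).1) s1 s2 pε pε' hG.lv.ps (by positivity) (norm_nonneg _) hb hS'
      (fun w => ?_) hβ' (fun u w => (k1 u w).1.trans ?_) (fun u w => ?_) r1
      (Real.sqrt_le_iff.2 ⟨by positivity, r2⟩)
      (Real.sqrt_le_iff.2 ⟨by positivity, (hg2 _).trans r2⟩)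
      (Real.sqrt_le_sqrt (hg2 _))).trans ?_
    · rw [abs_mul]
      exact mul_le_mul_of_nonneg_right (hq w) (abs_nonneg _)
    · gcongr
      linarith [norm_sub_le (s.ε u) (s.ε w), (hε u).1, (hε w).1]
    · have := (k1 u w).2
      rwa [sub_sub_sub_cancel_right, ← add_sub_right_comm] at this
    · have hg0 := Real.sqrt_nonneg (g2 l.m ε')
      have hb3 := hG.bs
      have t0 : 0 < tt l.m ^ 20 := by positivity
      have t1 : tt l.m ^ 4 * dd l.m = tt l.m ^ 20 := by rw [← tt_pow_16]; ring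
      have m2 : (1 : ℝ) ≤ (l.m : ℝ) ^ 2 := one_le_pow₀ hm0'
      have a1 : l.m * (2 * (CL * l.m * b)) + ‖s.μ‖ ≤ (6 * CL + 1) * (l.m : ℝ) ^ 2 * tt l.m ^ 20 := by
        have := mul_le_mul_of_nonneg_left hb3 (show 0 ≤ 2 * CL * (l.m : ℝ) ^ 2 by positivity)
        nlinarith
      have a2 : 3 * b + ‖s.μ‖ ≤ 10 * tt l.m ^ 20 := by linarith
      calc _ ≤ 16 * C * CS * b * (√(g2 l.m ε') * ((6 * CL + 1) * (l.m : ℝ) ^ 2 * tt l.m ^ 20)
            + CP * l.m * √(g2 l.m ε') / dd l.m * dd l.m * l.m * (10 * tt l.m ^ 20)) := by gcongr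
        _ = _ := by
          rw [← t1]
          field_simp
  have e3 : ts l.m (fun u => (q0 l u : ℂ) * ε' u * ts l.m (fun w => ((q0 l w * s.σ w : ℝ) : ℂ) *
      (E.Z s.μ (Lm s.μ (l.c * ((u - w : GI) : ℂ)) + (s.ε u - s.ε w))
        - E.Z 0 (l.c * ((u - w : GI) : ℂ))))) =
      ts l.m (fun w => ((q0 l w * s.σ w : ℝ) : ℂ) * ts l.m (fun u =>
        (β1 u : ℂ) * (ε' (u + 1) * A (u + 1) w - ε' u * A u w))) +
      ts l.m (fun w => ((q0 l w * s.σ w : ℝ) : ℂ) * ts l.m (fun u =>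
        (β2 u : ℂ) * (ε' (u + gi) * A (u + gi) w - ε' u * A u w))) := by
    have e4 : ∀ w, ts l.m (fun u => (β1 u : ℂ) * (ε' (u + 1) * A (u + 1) w - ε' u * A u w)
        + (β2 u : ℂ) * (ε' (u + gi) * A (u + gi) w - ε' u * A u w))
        = ts l.m (fun u => (q0 l u : ℂ) * (ε' u * A u w)) := fun w => (hD _ (pA w)).symm
    simp only [← ts_add, ← mul_add, e4]
    simp only [← ts_mul_left]
    rw [ts_comm]
    refine congrArg _ (funext fun w => congrArg _ (funext fun u => ?_))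
    simp only [A, K]
    ring
  rw [e3]
  refine (norm_add_le_of_le
    (one 1 β1 (Or.inl rfl) (fun u => (hβ u).1) fun f => le_add_of_nonneg_right (msq_nonneg _ _))
    (one gi β2 (Or.inr (Or.inr (Or.inl rfl))) (fun u => (hβ u).2)
      fun f => le_add_of_nonneg_left (msq_nonneg _ _))).trans (le_of_eq ?_)
  ring

end Pool.Agent.P.MP_cc4a10_gt
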