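import Pool.Agent.P.MP_cc4a10_gt.St

/-!
Package ErrH: the error of the height equation on one level.
-/

open Set Filter Topology Complex Metric
open scoped ComplexConjugate Real

noncomputable section

namespace Pool.Agent.P.MP_cc4a10_gt.ErrHP

theorem lm_sub (μ c : ℂ) (u w : GI) :
    Lm μ (c * u) - Lm μ (c * w) = Lm μ (c * ((u - w : GI) : ℂ)) := by
  simp only [Lm, map_sub, mul_sub, map_mul]; ring

theorem q0_h (l : Lv) {u : GI} (h : Odd u.im ∧ Odd u.re) : q0 l u = l.sg * (4 * dd l.m ^ 2) := by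
  simp [q0, pat, h.1, h.2]

theorem q0_other (l : Lv) (hl : l.ok) {u : GI} (h : ¬(Odd u.im ∧ Odd u.re)) (h0 : q0 l u ≠ 0) :
    q0 l u = -(l.sg * (4 * dd l.m ^ 2)) * (1 - l.τ) := by
  obtain ⟨-, -, -, hτ⟩ := hl
  unfold q0 pat at *
  by_cases h1 : Odd u.im
  · have h2 : ¬ Odd u.re := fun h2 => h ⟨h1, h2⟩
    simp only [h1, h2, if_true, if_false]; ring
  · by_cases h2 : Odd u.re
    · simp only [h1, h2, if_true, if_false] at h0 ⊢
      rcases hτ with hτ | hτ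
      · simp [hτ] at h0
      · rw [hτ]; ring
    · simp [h1, h2] at h0

/-- Functions constant on both classes of necks pair to zero. -/
theorem const0 (l : Lv) {σ' : GI → ℝ} (hn : ts l.m (fun u => q0 l u * σ' u) = 0)
    (hm : M0 l (fun u => (σ' u : ℂ))) (k1 k2 : ℝ) :
    ts l.m (fun u => q0 l u * σ' u * (if Odd u.im ∧ Odd u.re then k1 else k2)) = 0 := by
  have h1 : ts l.m (fun u => if Odd u.im ∧ Odd u.re then σ' u else 0) = 0 := by
    have := congrArg Complex.re hm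
    rw [ts_re] at this
    simpa [apply_ite Complex.re] using this
  have e : (fun u => q0 l u * σ' u * (if Odd u.im ∧ Odd u.re then k1 else k2))
      = fun u => k2 * (q0 l u * σ' u) + ((k1 - k2) * (l.sg * (4 * dd l.m ^ 2))) *
        (if Odd u.im ∧ Odd u.re then σ' u else 0) := by
    funext u
    by_cases h : Odd u.im ∧ Odd u.re
    · simp only [if_pos h, q0_h l h]; ring
    · simp only [if_neg h]; ring
  rw [e, ts_add, ts_mul_left_real, ts_mul_left_real, hn, h1]; simp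

theorem phi_bd {s : ℝ} (h : |s| ≤ 1 / 1000) : |(1 + s) * Real.log (1 + s) - s| ≤ s ^ 2 := by
  obtain ⟨h1, h2⟩ := abs_le.1 h
  have hp : 0 < 1 + s := by linarith
  have a1 := Real.log_le_sub_one_of_pos hp
  have a2 := Real.one_sub_inv_le_log_of_pos hp
  have a3 : (1 + s) * (1 - (1 + s)⁻¹) = s := by field_simp; ring
  have a4 : (1 + s) * (1 - (1 + s)⁻¹) ≤ (1 + s) * Real.log (1 + s) :=
    mul_le_mul_of_nonneg_left a2 hp.le
  have a5 : (1 + s) * Real.log (1 + s) ≤ (1 + s) * (1 + s - 1) :=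
    mul_le_mul_of_nonneg_left a1 hp.le
  rw [abs_le]; constructor <;> nlinarith [sq_nonneg s]

theorem abs_ts_le (m : ℕ) {F : GI → ℝ} (a : ℝ) (x y : GI → ℂ)
    (h : ∀ u, |F u| ≤ a * (‖x u‖ * ‖y u‖)) (ha : 0 ≤ a) :
    |ts m F| ≤ a / dd m ^ 2 * (√(msq m x) * √(msq m y)) := by
  have h1 : |ts m F| ≤ ts m (fun u => a * (‖x u‖ * ‖y u‖)) :=
    (norm_ts_le m F).trans (ts_mono m h)
  rw [ts_mul_left_real, ts_eq_av m (fun u => ‖x u‖ * ‖y u‖), smul_eq_mul] at h1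
  have h2 := av_mul_le m x y
  rw [dd_sq, div_inv_eq_mul, mul_assoc]
  refine h1.trans ?_
  gcongr

theorem msq_le_nb2 (l : Lv) (hm : 1 ≤ l.m) (ε : GI → ℂ) (σ : GI → ℝ) :
    msq l.m (fun u => (σ u : ℂ)) ≤ nb2 l ε σ := by
  unfold nb2
  have h1 : 0 ≤ g2 l.m ε / dd l.m ^ 2 := div_nonneg (g2_nonneg _ _) (sq_nonneg _)
  have h2 := msq_nonneg l.m (fun u => (σ u : ℂ))
  have h3 : (1 : ℝ) ≤ l.m := by exact_mod_cast hm
  nlinarith [sq_nonneg (dn l.m (fun u => q0 l u * σ u / dd l.m ^ 2))]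

theorem ht_split (E : Ell) (l : Lv) (s : Ls) (u : GI) :
    ht E l s (pos l s u) - hlin E l s.ε s.σ u = ht E l ⟨s.μ, 0, 0⟩ (Lm s.μ (l.c * u))
      + ts l.m (fun w => q0 l w * KG E l.c s.μ (u - w) (s.ε u - s.ε w))
      + ts l.m (fun w => q0 l w * s.σ w *
        (E.Gr s.μ (Lm s.μ (l.c * ((u - w : GI) : ℂ)) + (s.ε u - s.ε w))
          - E.Gr 0 (l.c * ((u - w : GI) : ℂ)))) := by
  unfold ht hlin
  rw [← ts_sub, ← ts_add, ← ts_add]
  congr 1
  funext w
  have e1 : pos l s u - pos l s w = Lm s.μ (l.c * ((u - w : GI) : ℂ)) + (s.ε u - s.ε w) := by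
    rw [← lm_sub]; unfold pos; ring
  have e2 : Lm s.μ (l.c * u) - pos l ⟨s.μ, 0, 0⟩ w = Lm s.μ (l.c * ((u - w : GI) : ℂ)) := by
    rw [← lm_sub]; simp [pos]
  simp only [e1, e2, qq, KG, Pi.zero_apply]
  ring

theorem diag (l : Lv) (s : Ls) (u : GI) (h : |s.σ u| ≤ 1 / 1000) :
    |q0 l u| * (|qq l s u| * Real.log |qq l s u|)
      - q0 l u ^ 2 * (Real.log |q0 l u| + 1) * s.σ u
    = q0 l u * (q0 l u * Real.log |q0 l u|)
      + q0 l u ^ 2 * ((1 + s.σ u) * Real.log (1 + s.σ u) - s.σ u) := by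
  by_cases h0 : q0 l u = 0
  · simp [h0]
  have hp : 0 < 1 + s.σ u := by linarith [(abs_le.1 h).1]
  have e : |qq l s u| = |q0 l u| * (1 + s.σ u) := by rw [qq, abs_mul, abs_of_pos hp]
  have e2 : |q0 l u| * |q0 l u| = q0 l u ^ 2 := by rw [← sq, sq_abs]
  rw [e, Real.log_mul (abs_ne_zero.2 h0) hp.ne']
  linear_combination ((1 + s.σ u) * (Real.log |q0 l u| + Real.log (1 + s.σ u))) * e2

end Pool.Agent.P.MP_cc4a10_gt.ErrHP

namespace Pool.Agent.P.MP_cc4a10_gt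

open ErrHP

theorem pErrH (h2 : S_ErrH2) (h3 : S_ErrH3) (hR : S_Ref) (hD : S_Dip) (hL : S_Lev) :
    S_ErrH := by
  intro E
  obtain ⟨C2, m2, hC2, H2⟩ := h2 E
  obtain ⟨C3, m3, hC3, H3⟩ := h3 E
  obtain ⟨CR, hCR, HR⟩ := hR E
  obtain ⟨CL, mL, hCL, HL⟩ := hL E
  obtain ⟨m4, H4⟩ := exists_pow_mul_tt_le 0 (η := 1 / 100) (by norm_num)
  refine ⟨4 * CR + 4 * C2 + C3 + 48 * CL, max (max m2 m3) (max mL m4), by positivity, ?_⟩
  intro l s b hG hm σ' hV hM
  have hm2 : m2 ≤ l.m := le_trans (le_trans (le_max_left _ _) (le_max_left _ _)) hm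
  have hm3 : m3 ≤ l.m := le_trans (le_trans (le_max_right _ _) (le_max_left _ _)) hm
  have hmL : mL ≤ l.m := le_trans (le_trans (le_max_left _ _) (le_max_right _ _)) hm
  have hm4 : m4 ≤ l.m := le_trans (le_trans (le_max_right _ _) (le_max_right _ _)) hm
  have hm1 : 1 ≤ l.m := le_trans (by norm_num) hG.ok.1
  have hm1' : (1 : ℝ) ≤ l.m := by exact_mod_cast hm1
  have ht0 := tt_pos l.m
  have ht1 := tt_le_one l.m
  have hd0 := dd_pos l.m
  have hb := hG.b0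
  have hμ : ‖s.μ‖ ≤ 1 / 100 := by
    have a := H4 l.m hm4
    rw [pow_zero, one_mul] at a
    have a2 : tt l.m ^ 30 ≤ tt l.m ^ 1 := pow_le_pow_of_le_one ht0.le ht1 (by norm_num)
    linarith [hG.mu]
  obtain ⟨κ, κ1, κ2, -, -, -, R1, R2⟩ := HR l s.μ hG.ok hμ
  obtain ⟨L1, -⟩ := HL l s b hG hmL
  obtain ⟨-, -, -, -, -, -, D1, -⟩ := hD l hG.ok
  have A2 := H2 l s b hG hm2
  have A3 := H3 l s b hG hm3 σ' hV
  set N := √(nb2 l 0 σ') with hN
  have hN0 : 0 ≤ N := Real.sqrt_nonneg _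
  have hs' : √(msq l.m (fun u => (σ' u : ℂ))) ≤ N := Real.sqrt_le_sqrt (msq_le_nb2 l hm1 _ _)
  have hs : √(msq l.m (fun u => (s.σ u : ℂ))) ≤ b :=
    Real.sqrt_le_iff.2 ⟨hb, (msq_le_nb2 l hm1 s.ε s.σ).trans hG.nb⟩
  set A : GI → ℝ := fun u => ts l.m (fun w => q0 l w * KG E l.c s.μ (u - w) (s.ε u - s.ε w))
    with hA
  set B : GI → ℝ := fun u => ts l.m (fun w => q0 l w * s.σ w *
        (E.Gr s.μ (Lm s.μ (l.c * ((u - w : GI) : ℂ)) + (s.ε u - s.ε w))
          - E.Gr 0 (l.c * ((u - w : GI) : ℂ)))) with hB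
  set a1 : ℝ := l.sg * (4 * dd l.m ^ 2) with ha1
  set a2 : ℝ := -(l.sg * (4 * dd l.m ^ 2)) * (1 - l.τ) with ha2
  set F1 : GI → ℝ := fun u => q0 l u * σ' u * (ht E l ⟨s.μ, 0, 0⟩ (Lm s.μ (l.c * u))
    - (if Odd u.im ∧ Odd u.re then κ1 else κ2)) with hF1
  set F4 : GI → ℝ := fun u => q0 l u ^ 2 * ((1 + s.σ u) * Real.log (1 + s.σ u) - s.σ u) * σ' u
    with hF4
  have key : pair l 0 (fun u => q0 l u * ht E l s (pos l s u)
      + |q0 l u| * (|qq l s u| * Real.log |qq l s u|) - Glin E l s.ε s.σ u) 0 σ'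
      = ts l.m F1 + ts l.m (fun u => q0 l u * σ' u * A u) + ts l.m (fun u => q0 l u * σ' u * B u)
        + ts l.m F4 := by
    have z := const0 l hV.neu hM (κ1 + a1 * Real.log |a1|) (κ2 + a2 * Real.log |a2|)
    rw [← add_zero (ts l.m F4), ← z, ← ts_add, ← ts_add, ← ts_add, ← ts_add]
    unfold pair
    congr 1
    funext u
    have e1 := ht_split E l s u
    have e2 := diag l s u (L1 u).2.2.2
    have e3 : q0 l u * (q0 l u * Real.log |q0 l u|)
        = q0 l u * ((if Odd u.im ∧ Odd u.re then κ1 + a1 * Real.log |a1|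
          else κ2 + a2 * Real.log |a2|) - (if Odd u.im ∧ Odd u.re then κ1 else κ2)) := by
      by_cases h : Odd u.im ∧ Odd u.re
      · simp only [if_pos h, q0_h l h, ha1]; ring
      · by_cases h0 : q0 l u = 0
        · simp [h0]
        · simp only [if_neg h]
          rw [ha2, ← q0_other l hG.ok h h0]; ring
    simp only [Pi.zero_apply, mul_zero, zero_re, zero_add, Glin, hF1, hF4, hA, hB]
    linear_combination (q0 l u * σ' u) * e1 + σ' u * e2 + σ' u * e3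
  rw [key]
  have hdd : dd l.m ^ 2 ≠ 0 := by positivity
  have b1 : |ts l.m F1| ≤ 4 * CR * tt l.m ^ 30 * (dd l.m ^ 2 * N) := by
    have h := abs_ts_le l.m (F := F1) (4 * dd l.m ^ 2 * (CR * tt l.m ^ 30 * dd l.m ^ 2))
      (fun u => (σ' u : ℂ)) (fun _ => 1) (fun u => by
        simp only [hF1, norm_real, Real.norm_eq_abs, norm_one, mul_one]
        by_cases h0 : q0 l u = 0
        · simp only [h0, zero_mul, abs_zero]; positivity
        have k : |ht E l ⟨s.μ, 0, 0⟩ (Lm s.μ (l.c * u))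
            - (if Odd u.im ∧ Odd u.re then κ1 else κ2)| ≤ CR * tt l.m ^ 30 * dd l.m ^ 2 := by
          by_cases h : Odd u.im ∧ Odd u.re
          · rw [if_pos h, R1 u h, sub_self, abs_zero]; positivity
          · rw [if_neg h]
            refine (R2 u h0 h).trans ?_
            gcongr; exact hG.mu
        rw [abs_mul, abs_mul]
        calc _ ≤ (4 * dd l.m ^ 2) * |σ' u| * (CR * tt l.m ^ 30 * dd l.m ^ 2) := by
              gcongr; exact D1 u
          _ = _ := by ring) (by positivity)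
    have e : √(msq l.m (fun _ => (1 : ℂ))) = 1 := by simp [msq, av_const]
    rw [e, mul_one] at h
    refine h.trans ?_
    calc _ = 4 * CR * tt l.m ^ 30 * (dd l.m ^ 2 * √(msq l.m (fun u => (σ' u : ℂ)))) := by
          field_simp
      _ ≤ _ := by gcongr
  have b2 : |ts l.m (fun u => q0 l u * σ' u * A u)|
      ≤ 4 * C2 * ((l.m : ℝ) ^ 3 * tt l.m ^ 4 * b) * (dd l.m ^ 2 * N) := by
    have h := abs_ts_le l.m (F := fun u => q0 l u * σ' u * A u) (4 * dd l.m ^ 2)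
      (fun u => (σ' u : ℂ)) (fun u => (A u : ℂ)) (fun u => by
        simp only [norm_real, Real.norm_eq_abs]
        rw [mul_assoc, abs_mul, abs_mul]
        gcongr; exact D1 u) (by positivity)
    have k : √(msq l.m (fun u => (A u : ℂ))) ≤ C2 * (l.m : ℝ) ^ 3 * tt l.m ^ 4 * b * dd l.m ^ 2 := by
      refine (Real.sqrt_le_iff.2 ⟨by positivity, A2⟩).trans ?_
      gcongr
      norm_num
    refine h.trans ?_
    rw [mul_div_assoc, div_self hdd, mul_one]
    calc _ ≤ 4 * (N * (C2 * (l.m : ℝ) ^ 3 * tt l.m ^ 4 * b * dd l.m ^ 2)) := by gcongr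
      _ = _ := by ring
  have b4 : |ts l.m F4| ≤ 48 * CL * ((l.m : ℝ) ^ 3 * tt l.m ^ 4 * b) * (dd l.m ^ 2 * N) := by
    have hσ : ∀ u, |s.σ u| ≤ 3 * CL * tt l.m ^ 4 := fun u => by
      refine (L1 u).2.2.1.trans ?_
      rw [div_le_iff₀ hd0, ← tt_pow_16]
      calc CL * b ≤ CL * (3 * tt l.m ^ 20) := by gcongr; exact hG.bs
        _ = _ := by ring
    have h := abs_ts_le l.m (F := F4) ((4 * dd l.m ^ 2) ^ 2 * (3 * CL * tt l.m ^ 4))
      (fun u => (s.σ u : ℂ)) (fun u => (σ' u : ℂ)) (fun u => by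
        simp only [hF4, norm_real, Real.norm_eq_abs]
        rw [abs_mul, abs_mul, abs_pow]
        have k := phi_bd (L1 u).2.2.2
        rw [← sq_abs, sq] at k
        calc _ ≤ (4 * dd l.m ^ 2) ^ 2 * (|s.σ u| * |s.σ u|) * |σ' u| := by
              gcongr; exact D1 u
          _ ≤ (4 * dd l.m ^ 2) ^ 2 * ((3 * CL * tt l.m ^ 4) * |s.σ u|) * |σ' u| := by
              gcongr; exact hσ u
          _ = _ := by ring) (by positivity)
    refine h.trans ?_
    have m3' : (1 : ℝ) ≤ (l.m : ℝ) ^ 3 := one_le_pow₀ hm1'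
    calc _ = 48 * CL * (1 * tt l.m ^ 4 * √(msq l.m (fun u => (s.σ u : ℂ))))
          * (dd l.m ^ 2 * √(msq l.m (fun u => (σ' u : ℂ)))) := by field_simp; ring
      _ ≤ _ := by gcongr
  have hX : 0 ≤ (l.m : ℝ) ^ 3 * tt l.m ^ 4 * b := by positivity
  have hY : 0 ≤ tt l.m ^ 30 := by positivity
  have hZ : 0 ≤ dd l.m ^ 2 * N := by positivity
  have t1 := abs_add_le (ts l.m F1 + ts l.m (fun u => q0 l u * σ' u * A u)
    + ts l.m (fun u => q0 l u * σ' u * B u)) (ts l.m F4)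
  have t2 := abs_add_le (ts l.m F1 + ts l.m (fun u => q0 l u * σ' u * A u))
    (ts l.m (fun u => q0 l u * σ' u * B u))
  have t3 := abs_add_le (ts l.m F1) (ts l.m (fun u => q0 l u * σ' u * A u))
  have b3 : |ts l.m (fun u => q0 l u * σ' u * B u)|
      ≤ C3 * ((l.m : ℝ) ^ 3 * tt l.m ^ 4 * b) * (dd l.m ^ 2 * N) := by
    refine A3.trans_eq ?_; ring
  generalize (l.m : ℝ) ^ 3 * tt l.m ^ 4 * b = X at *
  generalize tt l.m ^ 30 = Y at *
  generalize dd l.m ^ 2 * N = Z at *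
  have p1 := mul_nonneg hX hZ
  have p2 := mul_nonneg hY hZ
  nlinarith [mul_nonneg hCR.le p1, mul_nonneg hC2.le p2, mul_nonneg hC3.le p2,
    mul_nonneg hCL.le p2]

end Pool.Agent.P.MP_cc4a10_gt
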