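import Pool.Agent.P.MP_cc4a10_gt.St

/-!
The remainder of the potential kernel summed against the charge pattern, in mean square.
-/

open Set Filter Topology Complex Metric
open scoped ComplexConjugate Real

noncomputable section

namespace Pool.Agent.P.MP_cc4a10_gt.ErrH2P

theorem Lm_add (μ a b : ℂ) : Lm μ (a + b) = Lm μ a + Lm μ b := by
  simp only [Lm, map_add]; ring

theorem KG_per (E : Ell) {m : ℕ} {c μ : ℂ} (hμ : ‖μ‖ ≤ 1 / 100) {w0 : GI}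
    (h : c * ((om ^ m : GI) : ℂ) = w0) (x y : GI) (e : ℂ) :
    KG E c μ (x + om ^ m * y) e = KG E c μ x e := by
  have e1 : c * ((x + om ^ m * y : GI) : ℂ) = c * x + ((w0 * y : GI) : ℂ) := by
    rw [map_add, map_mul, map_mul, ← h]; ring
  have e2 : E.Z 0 (c * x + ((w0 * y : GI) : ℂ)) = E.Z 0 (c * x) := by
    have := E.Zper 0 (by norm_num) (c * x) (w0 * y)
    simpa only [Lm, zero_mul, add_zero] using this
  unfold KG
  rw [e1, e2, Lm_add, add_right_comm, E.Gper μ hμ, E.Gper μ hμ]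

/-- Two Young inequalities at once. -/
theorem split (hY : S_Young) {m : ℕ} {k1 k2 : GI → ℝ} (p1 : Per m k1) (p2 : Per m k2)
    (n1 : ∀ u, 0 ≤ k1 u) (n2 : ∀ u, 0 ≤ k2 u) {ε y : GI → ℂ} (pe : Per m ε) (py : Per m y)
    {A : GI → GI → ℂ}
    (hA : ∀ u w, ‖A u w‖ ≤ k1 (u - w) * ‖ε u - ε w‖ + k2 (u - w) * ‖y w‖) :
    msq m (fun u => ts m (A u)) ≤
      4 * ts m (fun x => k1 x * Hh m x) ^ 2 * g2 m ε + 2 * ts m k2 ^ 2 * msq m y := by
  have h1 := (hY m k1 p1 n1).2.2.1 ε (fun u w => ((k1 (u - w) * ‖ε u - ε w‖ : ℝ) : ℂ)) pe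
    (fun u w => by
      rw [Complex.norm_real, Real.norm_of_nonneg (mul_nonneg (n1 _) (norm_nonneg _))])
  have h2 := (hY m k2 p2 n2).1 y (fun u w => ((k2 (u - w) * ‖y w‖ : ℝ) : ℂ)) py
    (fun u w => by
      rw [Complex.norm_real, Real.norm_of_nonneg (mul_nonneg (n2 _) (norm_nonneg _))])
  have h3 := msq_add_le m (fun u => ts m (fun w => ((k1 (u - w) * ‖ε u - ε w‖ : ℝ) : ℂ)))
    (fun u => ts m (fun w => ((k2 (u - w) * ‖y w‖ : ℝ) : ℂ)))
  have h4 := msq_mono m (F := fun u => ts m (A u))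
    (G := fun u => ts m (fun w => ((k1 (u - w) * ‖ε u - ε w‖ : ℝ) : ℂ))
      + ts m (fun w => ((k2 (u - w) * ‖y w‖ : ℝ) : ℂ))) (fun u => by
      rw [← ts_ofReal, ← ts_ofReal, ← Complex.ofReal_add, ← ts_add, Complex.norm_real]
      exact ((norm_ts_le m _).trans (ts_mono m (hA u))).trans (le_abs_self _))
  linarith

/-- The pointwise bound, as an inequality of real numbers. -/
theorem ptw {C μ d H M e y β D : ℝ} (hC : 0 ≤ C) (hμ : 0 ≤ μ) (hd : 0 < d) (hH : 0 < H)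
    (he0 : 0 ≤ e) (hy0 : 0 ≤ y) (he : e ≤ M) (hy : y ≤ M) (hβ0 : 0 ≤ β) (hβ : β ≤ 4 * d ^ 2)
    (hD : D ≤ C * (μ * (e / H ^ 2 + y / H) / d
      + (e ^ 2 / H ^ 3 + e * y / H ^ 2 + y ^ 2 / H ^ 2) / d ^ 2)) :
    β * D ≤ 4 * C * (μ * d * (1 / H ^ 2) + M * (1 / H ^ 3)) * e
      + 4 * C * (μ * d * (1 / H) + 2 * M * (1 / H ^ 2)) * y := by
  have hM : 0 ≤ M := he0.trans he
  have h1 : e ^ 2 / H ^ 3 + e * y / H ^ 2 + y ^ 2 / H ^ 2
      ≤ M * e / H ^ 3 + M * y / H ^ 2 + M * y / H ^ 2 := by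
    rw [sq e, sq y]; gcongr
  calc β * D ≤ β * (C * (μ * (e / H ^ 2 + y / H) / d
      + (M * e / H ^ 3 + M * y / H ^ 2 + M * y / H ^ 2) / d ^ 2)) := by
        refine mul_le_mul_of_nonneg_left (hD.trans ?_) hβ0
        gcongr
    _ ≤ (4 * d ^ 2) * (C * (μ * (e / H ^ 2 + y / H) / d
      + (M * e / H ^ 3 + M * y / H ^ 2 + M * y / H ^ 2) / d ^ 2)) := by gcongr
    _ = _ := by field_simp; ring

end Pool.Agent.P.MP_cc4a10_gt.ErrH2P

namespace Pool.Agent.P.MP_cc4a10_gt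

open ErrH2P

theorem pErrH2 (hB : S_Box) (hS : S_Sum) (hY : S_Young) (hD : S_Dip) (hK : S_KerG)
    (hL : S_Lev) : S_ErrH2 := by
  intro E
  obtain ⟨CS, hCS, hS⟩ := hS
  obtain ⟨CK, m1, hCK, hK⟩ := hK E
  obtain ⟨CL, m2, hCL, hL⟩ := hL E
  obtain ⟨m3, h3⟩ := exists_pow_mul_tt_le 0 (η := 1 / 100) (by norm_num)
  refine ⟨5 * (4 * CK * CS * (1 + 12 * CL)), max m1 (max m2 m3), by positivity,
    fun l s b hG hm => ?_⟩
  simp only [max_le_iff] at hm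
  have hm2 : 2 ≤ l.m := hG.ok.1
  have hm1 : (1 : ℝ) ≤ l.m := by exact_mod_cast (by omega : 1 ≤ l.m)
  have hd := dd_pos l.m
  have ht := tt_pos l.m
  have ht1 := tt_le_one l.m
  have hb0 := hG.b0
  have pe := hG.lv.pe
  obtain ⟨hS1, hS2, -⟩ := hS l.m (by omega)
  obtain ⟨hB1, -, pH, -, hH, -⟩ := hB l.m
  obtain ⟨⟨β1, β2, -, -, hβ, -, -, hdiv⟩, -, -, -, -, -, -, -, ⟨w0, hw0, -⟩, -⟩ := hD l hG.ok
  obtain ⟨hε, -⟩ := hL l s b hG hm.2.1
  have hμ30 := hG.mu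
  have hμ : ‖s.μ‖ ≤ 1 / 100 := by
    have h1 : tt l.m ^ 30 ≤ tt l.m ^ 1 := pow_le_pow_of_le_one ht.le ht1 (by norm_num)
    have h2 := h3 l.m hm.2.2
    simp only [pow_zero, one_mul, pow_one] at h1 h2
    linarith
  have hHp : ∀ x, 0 < Hh l.m x := fun x => one_pos.trans_le (hH x).1
  set M : ℝ := 2 * (CL * l.m * b) with hM
  have hM0 : 0 ≤ M := by positivity
  have hdM : ∀ u w, ‖s.ε u - s.ε w‖ ≤ M := fun u w => by
    have := norm_sub_le (s.ε u) (s.ε w)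
    linarith [(hε u).1, (hε w).1]
  have hd10 : ∀ u w, ‖s.ε u - s.ε w‖ ≤ dd l.m / 10 := fun u w => by
    have h1 := norm_sub_le (s.ε u) (s.ε w)
    have h2 : rho l.m ≤ dd l.m := div_le_self hd.le hm1
    linarith [(hε u).2.1, (hε w).2.1]
  have hz : ∀ u w, mr l.m (u - w) = 0 → s.ε u - s.ε w = 0 := fun u w h =>
    sub_eq_zero.2 (pe.of_dvd ((hB1 _).2.2.2.1 h))
  set K : ℝ := 4 * CK * CS * (1 + 12 * CL) * (l.m : ℝ) ^ 2 * tt l.m ^ 20 with hKd
  have hK0 : 0 ≤ K := by positivity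
  have hKK : 4 * CK * (‖s.μ‖ * CS + 2 * M * (CS * l.m)) ≤ K := by
    have h1 : tt l.m ^ 30 ≤ tt l.m ^ 20 := pow_le_pow_of_le_one ht.le ht1 (by norm_num)
    have h2 : ‖s.μ‖ ≤ (l.m : ℝ) ^ 2 * tt l.m ^ 20 :=
      (hμ30.trans h1).trans (le_mul_of_one_le_left (by positivity) (one_le_pow₀ hm1))
    have h4 := hG.bs
    calc 4 * CK * (‖s.μ‖ * CS + 2 * M * (CS * l.m))
        ≤ 4 * CK * ((l.m : ℝ) ^ 2 * tt l.m ^ 20 * CS
          + 2 * (2 * (CL * l.m * (3 * tt l.m ^ 20))) * (CS * l.m)) := by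
          rw [hM]; gcongr
      _ = K := by rw [hKd]; ring
  -- the two kernels
  set k1 : GI → ℝ := fun x =>
    4 * CK * (‖s.μ‖ * dd l.m * (1 / Hh l.m x ^ 2) + M * (1 / Hh l.m x ^ 3)) with hk1
  set k2 : GI → ℝ := fun x =>
    4 * CK * (‖s.μ‖ * dd l.m * (1 / Hh l.m x) + 2 * M * (1 / Hh l.m x ^ 2)) with hk2
  have p1 : Per l.m k1 := fun u w => by simp only [hk1, pH u w]
  have p2 : Per l.m k2 := fun u w => by simp only [hk2, pH u w]
  have n1 : ∀ u, 0 ≤ k1 u := fun u => by have := hHp u; simp only [hk1]; positivity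
  have n2 : ∀ u, 0 ≤ k2 u := fun u => by have := hHp u; simp only [hk2]; positivity
  have t2 : ts l.m k2 ≤ K := by
    refine le_trans ?_ hKK
    simp only [hk2, ts_mul_left_real, ts_add]
    have : ‖s.μ‖ * dd l.m * ts l.m (fun u => 1 / Hh l.m u) ≤ ‖s.μ‖ * CS := by
      rw [mul_assoc]
      gcongr
      rwa [mul_comm, ← le_div_iff₀ hd]
    gcongr
  have t1 : ts l.m (fun x => k1 x * Hh l.m x) ≤ K := by
    refine le_trans (ts_mono _ fun x => ?_) t2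
    have := hHp x
    have e : k1 x * Hh l.m x
        = 4 * CK * (‖s.μ‖ * dd l.m * (1 / Hh l.m x) + M * (1 / Hh l.m x ^ 2)) := by
      simp only [hk1]; field_simp
    rw [e]
    simp only [hk2]
    gcongr
    linarith
  have t10 : 0 ≤ ts l.m (fun x => k1 x * Hh l.m x) :=
    ts_nonneg _ fun x => mul_nonneg (n1 x) (hHp x).le
  have t20 : 0 ≤ ts l.m k2 := ts_nonneg _ n2
  have hg0 := g2_nonneg l.m s.ε
  have hg : g2 l.m s.ε ≤ (dd l.m * b) ^ 2 := by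
    have h1 := hG.nb
    unfold nb2 at h1
    have h2 := msq_nonneg l.m (fun u => (s.σ u : ℂ))
    have h4 : g2 l.m s.ε / dd l.m ^ 2 ≤ b ^ 2 := by
      nlinarith [sq_nonneg (dn l.m (fun u => q0 l u * s.σ u / dd l.m ^ 2)),
        mul_nonneg (le_trans zero_le_one hm1) h2]
    rw [div_le_iff₀ (by positivity)] at h4
    nlinarith
  set Ψ : GI → GI → ℂ := fun u w => ((KG E l.c s.μ (u - w) (s.ε u - s.ε w) : ℝ) : ℂ) with hΨ
  have pΨ : ∀ u, Per l.m (Ψ u) := fun u w y => by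
    simp only [hΨ]
    rw [pe w y, show u - (w + om ^ l.m * y) = u - w + om ^ l.m * (-y) by ring,
      KG_per E hμ hw0]
  -- one direction
  have key : ∀ (g : GI) (β : GI → ℝ), St (-g) → (∀ u, |β u| ≤ 4 * dd l.m ^ 2) →
      msq l.m (fun u => s.ε (u + g) - s.ε u) ≤ g2 l.m s.ε →
      msq l.m (fun u => ts l.m (fun w => (β w : ℂ) * (Ψ u (w + g) - Ψ u w)))
        ≤ 6 * K ^ 2 * g2 l.m s.ε := by
    intro g β hg' hβ' hy
    have py : Per l.m (fun u => s.ε (u + g) - s.ε u) := fun u w => by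
      simp only [pe u w, (pe.shift g) u w]
    have h := split hY p1 p2 n1 n2 pe py
      (A := fun u w => (β w : ℂ) * (Ψ u (w + g) - Ψ u w)) (fun u w => by
        have e1 : u - (w + g) = u - w + -g := by ring
        have h1 := (((hK l s.μ hG.ok hm.1 hμ (u - w) (-g) (-g) hg' hg').1 (s.ε u - s.ε w)
          (hd10 u w) (hz u w)).2 (s.ε u - s.ε (w + g)) (hd10 _ _)
          (fun h => hz _ _ (by rwa [e1])))
        have e2 : ‖s.ε u - s.ε (w + g) - (s.ε u - s.ε w)‖ = ‖s.ε (w + g) - s.ε w‖ := by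
          rw [← norm_neg]; congr 1; ring
        rw [e2] at h1
        simp only [hΨ]
        rw [norm_mul, ← Complex.ofReal_sub, Complex.norm_real, Complex.norm_real, e1,
          Real.norm_eq_abs, Real.norm_eq_abs]
        exact ptw hCK.le (norm_nonneg _) hd (hHp _) (norm_nonneg _) (norm_nonneg _) (hdM _ _)
          (hdM _ _) (abs_nonneg _) (hβ' w) h1)
    have a1 : ts l.m (fun x => k1 x * Hh l.m x) ^ 2 * g2 l.m s.ε ≤ K ^ 2 * g2 l.m s.ε := by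
      gcongr
    have a2 : ts l.m k2 ^ 2 * msq l.m (fun u => s.ε (u + g) - s.ε u) ≤ K ^ 2 * g2 l.m s.ε := by
      have := msq_nonneg l.m (fun u => s.ε (u + g) - s.ε u)
      gcongr
    linarith
  have k1' := key 1 β1 (Or.inr (Or.inl rfl)) (fun u => (hβ u).1)
    (le_add_of_nonneg_right (msq_nonneg _ _))
  have k2' := key gi β2 (Or.inr (Or.inr (Or.inr rfl))) (fun u => (hβ u).2)
    (le_add_of_nonneg_left (msq_nonneg _ _))
  have e : (fun u => ((ts l.m (fun w => q0 l w * KG E l.c s.μ (u - w) (s.ε u - s.ε w)) : ℝ) : ℂ))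
      = fun u => ts l.m (fun w => (β1 w : ℂ) * (Ψ u (w + 1) - Ψ u w))
        + ts l.m (fun w => (β2 w : ℂ) * (Ψ u (w + gi) - Ψ u w)) := by
    funext u
    rw [← ts_add, ← hdiv (Ψ u) (pΨ u), ts_ofReal]
    simp only [hΨ, Complex.ofReal_mul]
  rw [e]
  refine (msq_add_le _ _ _).trans ?_
  have e3 : (5 * (4 * CK * CS * (1 + 12 * CL)) * (l.m : ℝ) ^ 2 * tt l.m ^ 4 * b * dd l.m ^ 2) ^ 2
      = 25 * (K ^ 2 * (dd l.m * b) ^ 2) := by
    rw [hKd, ← tt_pow_16]; ring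
  have a3 : K ^ 2 * g2 l.m s.ε ≤ K ^ 2 * (dd l.m * b) ^ 2 := by gcongr
  have a4 : 0 ≤ K ^ 2 * g2 l.m s.ε := by positivity
  rw [e3]
  linarith

end Pool.Agent.P.MP_cc4a10_gt
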