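import Pool.Agent.P.MP_cc4a10_gt.Bdd

/-!
The part of the potential error that is linear in the size changes.
-/

open Set Filter Topology Complex Metric
open scoped ComplexConjugate Real

noncomputable section

namespace Pool.Agent.P.MP_cc4a10_gt.ErrH3P

theorem split (m : ℕ) (ρ ρ' : GI → ℝ) (ε k : GI → ℂ) (A : GI → GI → ℝ) (M : GI → ℝ)
    (hk : ∀ x, k (-x) = -k x) :
    ts m (fun u => ρ' u * ts m (fun w => ρ w *
      (A u w + (k (u - w) * (ε u - ε w)).re + M (u - w))))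
    = ts m (fun u => ts m (fun w => ρ' u * ρ w * A u w))
      + (ts m (fun u => (ρ' u : ℂ) * (ε u * ts m (fun w => (ρ w : ℂ) * k (u - w))))).re
      + (ts m (fun w => (ρ w : ℂ) * (ε w * ts m (fun u => (ρ' u : ℂ) * k (w - u))))).re
      + (ts m (fun u => (ρ' u : ℂ) * ts m (fun w => (ρ w : ℂ) * (M (u - w) : ℂ)))).re := by
  simp only [← ts_mul_left, ← ts_mul_left_real, ts_re]
  rw [ts_comm m m (fun w u => ((ρ w : ℂ) * (ε w * ((ρ' u : ℂ) * k (w - u)))).re)]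
  simp only [← ts_add]
  congr 1
  funext u
  congr 1
  funext w
  rw [show w - u = -(u - w) by ring, hk]
  simp only [mul_re, mul_im, ofReal_re, ofReal_im, sub_re, sub_im, neg_re, neg_im]
  ring

theorem dd_two (m : ℕ) : dd m ^ 2 * 2 ^ m = 1 := by rw [dd_sq]; field_simp

theorem pairing (m : ℕ) {ρ σ : GI → ℝ} {ε : GI → ℂ} (f : GI → ℂ) {S : ℝ}
    (hρ : ∀ u, |ρ u| ≤ 4 * dd m ^ 2 * |σ u|) (hε : ∀ u, ‖ε u‖ ≤ S) :
    |(ts m (fun u => (ρ u : ℂ) * (ε u * f u))).re| ≤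
      4 * S * (√(msq m fun u => (σ u : ℂ)) * √(msq m f)) := by
  have hd := dd_pos m
  have hS : 0 ≤ S := (norm_nonneg _).trans (hε 0)
  have a2 : ts m (fun u => ‖(ρ u : ℂ) * (ε u * f u)‖)
      ≤ ts m (fun u => (4 * dd m ^ 2 * S) * (‖(σ u : ℂ)‖ * ‖f u‖)) := by
    refine ts_mono _ fun u => ?_
    rw [norm_mul, norm_mul, norm_real, norm_real, Real.norm_eq_abs, Real.norm_eq_abs]
    calc _ ≤ (4 * dd m ^ 2 * |σ u|) * (S * ‖f u‖) := by gcongr; exacts [hρ u, hε u]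
      _ = _ := by ring
  rw [ts_mul_left_real, ts_eq_av m (fun u => ‖(σ u : ℂ)‖ * ‖f u‖), smul_eq_mul] at a2
  have a3 := av_mul_le m (fun u => (σ u : ℂ)) f
  refine (abs_re_le_norm _).trans ((norm_ts_le _ _).trans (a2.trans ?_))
  calc 4 * dd m ^ 2 * S * (2 ^ m * av m fun u => ‖(σ u : ℂ)‖ * ‖f u‖)
      = 4 * S * (dd m ^ 2 * 2 ^ m) * av m fun u => ‖(σ u : ℂ)‖ * ‖f u‖ := by ring
    _ ≤ _ := by rw [dd_two, mul_one]; gcongr

theorem quad (hY : S_Young) {m : ℕ} {ρ σ ρ' σ' : GI → ℝ} {A : GI → GI → ℝ} {K s : ℝ}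
    (hH : Per m (Hh m)) (hK : 0 ≤ K) (pσ : Per m σ) (pσ' : Per m σ')
    (hρ : ∀ u, |ρ u| ≤ 4 * dd m ^ 2 * |σ u|) (hρ' : ∀ u, |ρ' u| ≤ 4 * dd m ^ 2 * |σ' u|)
    (hA : ∀ u w, |A u w| ≤ K / dd m ^ 2 * (1 / Hh m (u - w) ^ 2))
    (hs : ts m (fun u => 1 / Hh m u ^ 2) ≤ s) :
    |ts m (fun u => ts m (fun w => ρ' u * ρ w * A u w))| ≤
      16 * K * s * (√(msq m fun u => (σ' u : ℂ)) * √(msq m fun u => (σ u : ℂ))) := by
  have hd := dd_pos m
  have y := (hY m (fun x => 1 / Hh m x ^ 2) (fun u w => by simp only [hH u w])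
    (fun u => by positivity)).2.2.2.1 (fun u => (σ' u : ℂ)) (fun u => (σ u : ℂ))
    (fun u w => by simp only [pσ' u w]) (fun u w => by simp only [pσ u w])
  have key : ∀ u w, ‖ρ' u * ρ w * A u w‖ ≤ (16 * K * dd m ^ 2) *
      (1 / Hh m (u - w) ^ 2 * (‖(σ' u : ℂ)‖ * ‖(σ w : ℂ)‖)) := by
    intro u w
    rw [norm_mul, norm_mul, norm_real, norm_real]
    simp only [Real.norm_eq_abs]
    calc _ ≤ (4 * dd m ^ 2 * |σ' u|) * (4 * dd m ^ 2 * |σ w|) *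
          (K / dd m ^ 2 * (1 / Hh m (u - w) ^ 2)) := by
          gcongr; exacts [hρ' u, hρ w, hA u w]
      _ = _ := by field_simp; ring
  have fin := ts_mono m fun u => (norm_ts_le m _).trans (ts_mono m fun w => key u w)
  simp only [ts_mul_left_real m (16 * K * dd m ^ 2)] at fin
  rw [ts_eq_av m (fun u => ts m fun w => 1 / Hh m (u - w) ^ 2 * (‖(σ' u : ℂ)‖ * ‖(σ w : ℂ)‖)),
    smul_eq_mul] at fin
  rw [← Real.norm_eq_abs]
  refine (norm_ts_le _ _).trans (fin.trans ?_)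
  calc _ = 16 * K * (dd m ^ 2 * 2 ^ m) * av m (fun u => ts m fun w =>
        1 / Hh m (u - w) ^ 2 * (‖(σ' u : ℂ)‖ * ‖(σ w : ℂ)‖)) := by ring
    _ ≤ 16 * K * (s * (√(msq m fun u => (σ' u : ℂ)) * √(msq m fun u => (σ u : ℂ)))) := by
        rw [dd_two, mul_one]
        gcongr
        exact y.trans (by gcongr)
    _ = _ := by ring

theorem grad (hY : S_Young) {m : ℕ} {ρ σ M : GI → ℝ} {K s : ℝ}
    (hH : Per m (Hh m)) (hH1 : ∀ u, 1 ≤ Hh m u) (hK : 0 ≤ K) (hs0 : 0 ≤ s) (pσ : Per m σ)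
    (hρ : ∀ u, |ρ u| ≤ 4 * dd m ^ 2 * |σ u|)
    (hM : ∀ g, St g → ∀ x, |M (x + g) - M x| ≤ K / Hh m x)
    (hs : ts m (fun u => 1 / Hh m u) ≤ s) :
    √(g2 m (fun u => ts m (fun w => (ρ w : ℂ) * (M (u - w) : ℂ)))) ≤
      8 * dd m ^ 2 * K * s * √(msq m fun u => (σ u : ℂ)) := by
  have hd := dd_pos m
  have hH0 : ∀ u, 0 < Hh m u := fun u => by linarith [hH1 u]
  have key : ∀ g, St g → msq m (fun u => ts m (fun w => (ρ w : ℂ) * (M (u + g - w) : ℂ))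
      - ts m (fun w => (ρ w : ℂ) * (M (u - w) : ℂ))) ≤
      (4 * dd m ^ 2 * K * s) ^ 2 * msq m fun u => (σ u : ℂ) := by
    intro g hg
    simp only [← ts_sub]
    have y := (hY m (fun x => 4 * dd m ^ 2 * K * (1 / Hh m x)) (fun u w => by simp only [hH u w])
      (fun u => by have := hH0 u; positivity)).1 (fun u => (σ u : ℂ))
      (fun u w => (ρ w : ℂ) * (M (u + g - w) : ℂ) - (ρ w : ℂ) * (M (u - w) : ℂ))
      (fun u w => by simp only [pσ u w]) (fun u w => by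
        rw [← mul_sub, ← ofReal_sub, norm_mul, norm_real, norm_real, norm_real,
          show u + g - w = u - w + g by ring]
        simp only [Real.norm_eq_abs]
        have := hH0 (u - w)
        calc _ ≤ (4 * dd m ^ 2 * |σ w|) * (K / Hh m (u - w)) := by
              gcongr; exacts [hρ w, hM g hg _]
          _ = _ := by ring)
    refine y.trans ?_
    rw [ts_mul_left_real]
    have h0 : 0 ≤ ts m (fun u => 1 / Hh m u) := ts_nonneg m fun u => by have := hH0 u; positivity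
    have h1 := msq_nonneg m fun u => (σ u : ℂ)
    gcongr
  have k1 := key 1 (Or.inl rfl)
  have k2 := key gi (Or.inr (Or.inr (Or.inl rfl)))
  refine Real.sqrt_le_iff.2 ⟨by positivity, ?_⟩
  have h1 := msq_nonneg m fun u => (σ u : ℂ)
  rw [mul_pow, Real.sq_sqrt h1]
  unfold g2
  have h2 : 0 ≤ (dd m ^ 2 * K * s) ^ 2 * msq m fun u => (σ u : ℂ) := by positivity
  nlinarith

theorem arg_per {c μ : ℂ} {m : ℕ} {w0 : GI} (hc : c * ((om ^ m : GI) : ℂ) = w0) (x v : GI) :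
    Lm μ (c * ((x + om ^ m * v : GI) : ℂ)) = Lm μ (c * x) + Lm μ ((w0 * v : GI) : ℂ) := by
  rw [GaussianInt.toComplex_add, GaussianInt.toComplex_mul, GaussianInt.toComplex_mul, ← hc]
  simp only [Lm, map_add, map_mul, mul_add]
  ring

end Pool.Agent.P.MP_cc4a10_gt.ErrH3P

namespace Pool.Agent.P.MP_cc4a10_gt

open ErrH3P

theorem pErrH3 (hBox : S_Box) (hSum : S_Sum) (hY : S_Young) (hDn : S_Dn) (hDual : S_Dual)
    (hDip : S_Dip) (hK0 : S_Ker0) (hKZ : S_KerZ) (hKG : S_KerG) (hLev : S_Lev) : S_ErrH3 := by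
  intro E
  obtain ⟨CS, hCS, hSum⟩ := hSum
  obtain ⟨_, -, hDn⟩ := hDn
  obtain ⟨_, -, hK0⟩ := hK0 E
  obtain ⟨CZ, m1, hCZ, hKZ⟩ := hKZ E
  obtain ⟨CG, m2, hCG, hKG⟩ := hKG E
  obtain ⟨CL, m3, hCL, hLev⟩ := hLev E
  obtain ⟨m4, hm4⟩ := exists_pow_mul_tt_le 0 (η := 1 / 100) (by norm_num)
  refine ⟨576 * CG * CL ^ 2 * CS + 48 * CL * CZ * CS + 48 * CL * CZ * CS + 8 * CG * CS,
    max (max m1 m2) (max m3 m4), by positivity, ?_⟩
  intro l s b hG hm σ' hv'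
  simp only [max_le_iff] at hm
  obtain ⟨⟨hm1, hm2⟩, hm3, hm4'⟩ := hm
  have h2m : 2 ≤ l.m := hG.ok.1
  have hm1r : (1 : ℝ) ≤ l.m := by exact_mod_cast (by omega : 1 ≤ l.m)
  have hd := dd_pos l.m
  have ht := tt_pos l.m
  have ht1 := tt_le_one l.m
  have hb := hG.b0
  have hμ : ‖s.μ‖ ≤ 1 / 100 := by
    have h1 := hm4 l.m hm4'
    rw [pow_zero, one_mul] at h1
    exact hG.mu.trans ((pow_le_of_le_one ht.le ht1 (by norm_num)).trans h1)
  obtain ⟨-, -, hq, -, -, -, hq2, -, ⟨w0, hw0, -⟩, -⟩ := hDip l hG.ok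
  obtain ⟨hmr, -, hH, -, hHb, -⟩ := hBox l.m
  obtain ⟨s1, s2, -⟩ := hSum l.m (by omega)
  obtain ⟨hε, -⟩ := hLev l s b hG hm3
  have hH1 : ∀ u, 1 ≤ Hh l.m u := fun u => (hHb u).1
  have hH0 : ∀ u, 0 < Hh l.m u := fun u => by linarith [hH1 u]
  have st1 : St 1 := Or.inl rfl
  have sti : St gi := Or.inr (Or.inr (Or.inl rfl))
  set ρ : GI → ℝ := fun u => q0 l u * s.σ u with hρdef
  set ρ' : GI → ℝ := fun u => q0 l u * σ' u with hρdef'
  have pρ : Per l.m ρ := fun u w => by simp only [hρdef, hq u w, hG.lv.ps u w]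
  have pρ' : Per l.m ρ' := fun u w => by simp only [hρdef', hq u w, hv'.ps u w]
  have bρ : ∀ u, |ρ u| ≤ 4 * dd l.m ^ 2 * |s.σ u| := fun u => by
    rw [hρdef, abs_mul]; gcongr; exact hq2 u
  have bρ' : ∀ u, |ρ' u| ≤ 4 * dd l.m ^ 2 * |σ' u| := fun u => by
    rw [hρdef', abs_mul]; gcongr; exact hq2 u
  obtain ⟨d0, -, -, -, d2, -⟩ := hDn l.m ρ h2m pρ hG.lv.neu
  obtain ⟨d0', d1', -, -, d2', -⟩ := hDn l.m ρ' h2m pρ' hv'.neu
  set N := √(nb2 l 0 σ') with hN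
  have hN0 : 0 ≤ N := Real.sqrt_nonneg _
  have hnb : √(nb2 l s.ε s.σ) ≤ b := Real.sqrt_le_iff.2 ⟨hb, hG.nb⟩
  have n1 : dn l.m ρ ≤ dd l.m ^ 2 * b := (BddP.dn_le l s.ε s.σ d2).trans (by gcongr)
  have n1' : dn l.m ρ' ≤ dd l.m ^ 2 * N := BddP.dn_le l 0 σ' d2'
  have n2 : √(msq l.m fun u => (s.σ u : ℂ)) ≤ b :=
    (BddP.sqrt_msq_le l (by omega) s.ε s.σ).trans hnb
  have n2' : √(msq l.m fun u => (σ' u : ℂ)) ≤ N := BddP.sqrt_msq_le l (by omega) 0 σ'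
  let k : GI → ℂ := fun x => E.Z s.μ (Lm s.μ (l.c * x))
  let M : GI → ℝ := fun x => E.Gr s.μ (Lm s.μ (l.c * x)) - E.Gr 0 (l.c * x)
  let A : GI → GI → ℝ := fun u w =>
    E.Gr s.μ (Lm s.μ (l.c * ((u - w : GI) : ℂ)) + (s.ε u - s.ε w))
      - E.Gr s.μ (Lm s.μ (l.c * ((u - w : GI) : ℂ))) - (k (u - w) * (s.ε u - s.ε w)).re
  have kodd : ∀ x, k (-x) = -k x := fun x => by
    have h1 : Lm s.μ (l.c * ((-x : GI) : ℂ)) = -Lm s.μ (l.c * x) := by
      simp only [Lm, map_neg, mul_neg]; ring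
    simp only [k, h1]
    exact ((hK0 s.μ hμ).2.2.2.2.1 _).1
  have pk : Per l.m k := fun x v => by
    simp only [k, arg_per hw0]
    exact E.Zper s.μ hμ _ _
  have pM : Per l.m M := fun x v => by
    have h1 := BddP.G_per E l hw0 x v
    simp only at h1
    simp only [M, arg_per hw0, h1, E.Gper s.μ hμ]
  have e0 : (fun u => q0 l u * σ' u * ts l.m (fun w => q0 l w * s.σ w *
      (E.Gr s.μ (Lm s.μ (l.c * ((u - w : GI) : ℂ)) + (s.ε u - s.ε w))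
        - E.Gr 0 (l.c * ((u - w : GI) : ℂ))))) = fun u => ρ' u * ts l.m (fun w => ρ w *
      (A u w + (k (u - w) * (s.ε u - s.ε w)).re + M (u - w))) := by
    funext u
    congr 2
    funext w
    simp only [A, M, hρdef]
    ring
  rw [e0, split l.m ρ ρ' s.ε k A M kodd]
  have hA : ∀ u w, |A u w| ≤ CG * (2 * (CL * l.m * b)) ^ 2 / dd l.m ^ 2 *
      (1 / Hh l.m (u - w) ^ 2) := by
    intro u w
    have h1 : ‖s.ε u - s.ε w‖ ≤ dd l.m / 10 := by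
      have a1 := (hε u).2.1
      have a2 := (hε w).2.1
      have a3 : rho l.m ≤ dd l.m := div_le_self hd.le hm1r
      linarith [norm_sub_le (s.ε u) (s.ε w)]
    have h2 : mr l.m (u - w) = 0 → s.ε u - s.ε w = 0 := fun h =>
      sub_eq_zero.2 (hG.lv.pe.of_dvd ((hmr _).2.2.2.1 h))
    have h3 := ((hKG l s.μ hG.ok hm2 hμ (u - w) 1 1 st1 st1).1 _ h1 h2).1
    have h4 : ‖s.ε u - s.ε w‖ ≤ 2 * (CL * l.m * b) := by
      linarith [norm_sub_le (s.ε u) (s.ε w), (hε u).1, (hε w).1]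
    have := hH0 (u - w)
    refine h3.trans ?_
    calc _ ≤ CG * (2 * (CL * l.m * b)) ^ 2 / (dd l.m * Hh l.m (u - w)) ^ 2 := by gcongr
      _ = _ := by field_simp
  have hB : ∀ g, St g → ts l.m (fun x => ‖k (x + g) - k x‖) ≤ 2 * CZ * CS * l.m / dd l.m := by
    intro g hg
    have a1 := ts_mono l.m (F := fun x => ‖k (x + g) - k x‖)
      (G := fun x => 2 * CZ / dd l.m * (1 / Hh l.m x ^ 2)) fun x => by
        obtain ⟨-, -, b1, b2, -⟩ := hKZ l s.μ hG.ok hm1 hμ x g g hg hg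
        have := hH0 x
        have b3 : CZ * ‖s.μ‖ / (dd l.m * Hh l.m x ^ 2) ≤ CZ * 1 / (dd l.m * Hh l.m x ^ 2) := by
          gcongr; linarith
        have b4 := norm_add_le_of_le (b1.trans b3) b2
        refine le_trans (le_of_eq ?_) (b4.trans (le_of_eq ?_))
        · simp only [k]; congr 1; ring
        · field_simp; ring
    rw [ts_mul_left_real] at a1
    refine a1.trans ?_
    calc _ ≤ 2 * CZ / dd l.m * (CS * l.m) := by gcongr
      _ = _ := by ring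
  have fld : ∀ (r : GI → ℝ) (D : ℝ), Per l.m r → ts l.m r = 0 → 0 ≤ dn l.m r → 0 ≤ D →
      dn l.m r ≤ dd l.m ^ 2 * D → √(msq l.m (fun u => ts l.m (fun w => (r w : ℂ) * k (u - w))))
        ≤ 4 * CZ * CS * l.m * dd l.m * D := by
    intro r D pr nr h0 hD h1
    refine Real.sqrt_le_iff.2 ⟨by positivity, (hDual l.m r k _ h2m pr nr pk (hB 1 st1)
      (hB gi sti)).trans ?_⟩
    calc _ ≤ 4 * (2 * CZ * CS * l.m / dd l.m) ^ 2 * (dd l.m ^ 2 * D) ^ 2 := by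
          gcongr; norm_num
      _ = _ := by field_simp; ring
  have f1 := fld ρ b pρ hG.lv.neu d0 hb n1
  have f2 := fld ρ' N pρ' hv'.neu d0' hN0 n1'
  have hbd : b ≤ 3 * tt l.m ^ 4 * dd l.m := by
    rw [← tt_pow_16]; exact hG.bs.trans (le_of_eq (by ring))
  have ht4 : tt l.m ^ 4 ≤ 1 := pow_le_one₀ ht.le ht1
  have hμd : ‖s.μ‖ ≤ tt l.m ^ 4 * dd l.m := by
    rw [← tt_pow_16, ← pow_add]
    exact hG.mu.trans (pow_le_pow_of_le_one ht.le ht1 (by norm_num))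
  have hm2' : (l.m : ℝ) ^ 2 ≤ (l.m : ℝ) ^ 3 := pow_le_pow_right₀ hm1r (by norm_num)
  have hm0' : (1 : ℝ) ≤ (l.m : ℝ) ^ 3 := one_le_pow₀ hm1r
  set P : ℝ := (l.m : ℝ) ^ 3 * tt l.m ^ 4 * b * (dd l.m ^ 2 * N) with hP
  have t1 : |ts l.m (fun u => ts l.m (fun w => ρ' u * ρ w * A u w))| ≤
      576 * CG * CL ^ 2 * CS * P := by
    refine (quad hY hH (by positivity) hG.lv.ps hv'.ps bρ bρ' hA s2).trans ?_
    calc _ ≤ 16 * (CG * (2 * (CL * l.m * (3 * tt l.m ^ 4 * dd l.m))) ^ 2) * (CS * l.m) *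
          (N * b) := by gcongr
      _ = 576 * CG * CL ^ 2 * CS * P * tt l.m ^ 4 := by rw [hP]; ring
      _ ≤ _ := mul_le_of_le_one_right (by positivity) ht4
  have t2 : |(ts l.m (fun u => (ρ' u : ℂ) * (s.ε u *
      ts l.m (fun w => (ρ w : ℂ) * k (u - w))))).re| ≤ 48 * CL * CZ * CS * P := by
    refine (pairing l.m _ bρ' fun u => (hε u).1).trans ?_
    calc _ ≤ 4 * (CL * l.m * (3 * tt l.m ^ 4 * dd l.m)) *
          (N * (4 * CZ * CS * l.m * dd l.m * b)) := by gcongr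
      _ = 48 * CL * CZ * CS * ((l.m : ℝ) ^ 2 * tt l.m ^ 4 * b * (dd l.m ^ 2 * N)) := by ring
      _ ≤ _ := by rw [hP]; gcongr
  have t3 : |(ts l.m (fun w => (ρ w : ℂ) * (s.ε w *
      ts l.m (fun u => (ρ' u : ℂ) * k (w - u))))).re| ≤ 48 * CL * CZ * CS * P := by
    refine (pairing l.m _ bρ fun u => (hε u).1).trans ?_
    calc _ ≤ 4 * (CL * l.m * (3 * tt l.m ^ 4 * dd l.m)) *
          (b * (4 * CZ * CS * l.m * dd l.m * N)) := by gcongr
      _ = 48 * CL * CZ * CS * ((l.m : ℝ) ^ 2 * tt l.m ^ 4 * b * (dd l.m ^ 2 * N)) := by ring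
      _ ≤ _ := by rw [hP]; gcongr
  have t4 : |(ts l.m (fun u => (ρ' u : ℂ) *
      ts l.m (fun w => (ρ w : ℂ) * (M (u - w) : ℂ)))).re| ≤ 8 * CG * CS * P := by
    have pF : Per l.m (fun u => ts l.m (fun w => (ρ w : ℂ) * (M (u - w) : ℂ))) := fun u v => by
      refine congrArg (ts l.m) (funext fun w => ?_)
      rw [show u + om ^ l.m * v - w = u - w + om ^ l.m * v by ring, pM]
    have g1 := grad hY (M := M) (K := CG * ‖s.μ‖) hH hH1 (by positivity) (by positivity) hG.lv.ps bρ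
      (fun g hg x => (hKG l s.μ hG.ok hm2 hμ x g g hg hg).2.1) s1
    refine (BddP.re_ts_le l.m _ _ (d1' _ pF)).trans ?_
    rw [div_le_iff₀ (by positivity)]
    calc _ ≤ (dd l.m ^ 2 * N) * (8 * dd l.m ^ 2 * (CG * (tt l.m ^ 4 * dd l.m)) *
          (CS / dd l.m) * b) := by
          gcongr
          exact g1.trans (by gcongr)
      _ = 8 * CG * CS * (1 * tt l.m ^ 4 * b * (dd l.m ^ 2 * N)) * dd l.m ^ 2 := by field_simp
      _ ≤ _ := by rw [hP]; gcongr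
  have e1 : (576 * CG * CL ^ 2 * CS + 48 * CL * CZ * CS + 48 * CL * CZ * CS + 8 * CG * CS) *
      (l.m : ℝ) ^ 3 * tt l.m ^ 4 * b * (dd l.m ^ 2 * N) = 576 * CG * CL ^ 2 * CS * P
        + 48 * CL * CZ * CS * P + 48 * CL * CZ * CS * P + 8 * CG * CS * P := by rw [hP]; ring
  rw [e1]
  rw [abs_le] at t1 t2 t3 t4 ⊢
  constructor <;> linarith [t1.1, t1.2, t2.1, t2.2, t3.1, t3.2, t4.1, t4.2]

end Pool.Agent.P.MP_cc4a10_gt
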