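import Pool.Agent.P.MP_cc4a10_gt.St

/-!
Explicit series for a Bloch function.
-/

open Set Filter Topology Complex Metric
open scoped ComplexConjugate Real

noncomputable section

namespace Pool.Agent.P.MP_cc4a10_gt.ExP

lemma U_bound (w : ℂ) (h : 1 ≤ w.re) : ‖UU w‖ ≤ 2 * Real.exp (-w.re) := by
  have h1 : 2 ≤ Real.exp w.re := by linarith [Real.add_one_le_exp w.re]
  have h2 : Real.exp w.re - 1 ≤ ‖exp w - 1‖ := by
    have := norm_sub_norm_le (exp w) 1
    rwa [Complex.norm_exp, norm_one] at this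
  have h3 : 0 < Real.exp w.re := Real.exp_pos _
  rw [UU, norm_inv, Real.exp_neg]
  calc ‖exp w - 1‖⁻¹ ≤ (Real.exp w.re / 2)⁻¹ := inv_anti₀ (by positivity) (by linarith)
    _ = 2 * (Real.exp w.re)⁻¹ := by field_simp

lemma exp_ne_one (w : ℂ) (h : 1 ≤ w.re) : exp w ≠ 1 := by
  intro h1
  have := congrArg norm h1
  rw [Complex.norm_exp, norm_one, Real.exp_eq_one_iff] at this
  linarith

lemma U_id (w : ℂ) (h : exp w ≠ 1) : exp w * UU w = 1 + UU w := by
  have : exp w - 1 ≠ 0 := sub_ne_zero.2 h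
  unfold UU
  field_simp
  ring

lemma re_m (θ : ℂ) (k : ℕ) : (2 * π * (k + 1) - θ : ℂ).re = 2 * π * (k + 1) - θ.re := by simp
lemma re_p (θ : ℂ) (k : ℕ) : (2 * π * (k + 1) + θ : ℂ).re = 2 * π * (k + 1) + θ.re := by simp

lemma one_le_m {θ : ℂ} (h : |θ.re| ≤ π) (k : ℕ) : 1 ≤ (2 * π * (k + 1) - θ : ℂ).re := by
  rw [re_m]
  have := (abs_le.1 h).2
  have h3 := Real.pi_gt_three
  have : (0 : ℝ) ≤ k := k.cast_nonneg
  nlinarith

lemma one_le_p {θ : ℂ} (h : |θ.re| ≤ π) (k : ℕ) : 1 ≤ (2 * π * (k + 1) + θ : ℂ).re := by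
  rw [re_p]
  have := (abs_le.1 h).1
  have h3 := Real.pi_gt_three
  have : (0 : ℝ) ≤ k := k.cast_nonneg
  nlinarith

/-- One term of the series. -/
def T (θ : ℂ) (k : ℕ) (z : ℂ) : ℂ :=
  exp (-2 * π * I * (k + 1) * z) * UU (2 * π * (k + 1) - θ)
      - exp (2 * π * I * (k + 1) * z) * UU (2 * π * (k + 1) + θ)

def R (θ z : ℂ) : ℂ := ∑' k : ℕ, T θ k z
def R0 (θ z : ℂ) : ℂ := -(π * I * cth (θ / 2)) + 2 * π * I * R θ z

lemma fE_eq (θ z : ℂ) : fE θ z = exp (I * θ.re * z) * (π * cot (π * z) + R0 θ z) := by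
  unfold fE R0 R T
  ring

lemma T_bound {θ : ℂ} (h : |θ.re| ≤ π) (k : ℕ) {r : ℝ} {z : ℂ} (hz : |z.im| ≤ r) :
    ‖T θ k z‖ ≤ 4 * Real.exp π * Real.exp (-(2 * π * (1 - r))) ^ (k + 1) := by
  have hk : (0 : ℝ) ≤ 2 * π * (k + 1) := by positivity
  have hz' := abs_le.1 hz
  have hθ := abs_le.1 h
  have e : Real.exp π * Real.exp (-(2 * π * (1 - r))) ^ (k + 1)
      = Real.exp (π - 2 * π * (k + 1) * (1 - r)) := by
    rw [← Real.exp_nat_mul, ← Real.exp_add]
    push_cast
    ring_nf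
  have a1 : ‖exp (-2 * π * I * (k + 1) * z) * UU (2 * π * (k + 1) - θ)‖
      ≤ 2 * Real.exp (π - 2 * π * (k + 1) * (1 - r)) := by
    rw [norm_mul, Complex.norm_exp]
    have hb := U_bound _ (one_le_m h k)
    rw [re_m] at hb
    have e1 : (-2 * π * I * (k + 1) * z : ℂ).re = 2 * π * (k + 1) * z.im := by simp
    rw [e1]
    calc _ ≤ Real.exp (2 * π * (k + 1) * z.im) * (2 * Real.exp (-(2 * π * (k + 1) - θ.re))) := by
          gcongr
      _ = 2 * Real.exp (2 * π * (k + 1) * z.im + -(2 * π * (k + 1) - θ.re)) := by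
          rw [Real.exp_add]; ring
      _ ≤ _ := by
          gcongr
          nlinarith [mul_le_mul_of_nonneg_left hz'.2 hk]
  have a2 : ‖exp (2 * π * I * (k + 1) * z) * UU (2 * π * (k + 1) + θ)‖
      ≤ 2 * Real.exp (π - 2 * π * (k + 1) * (1 - r)) := by
    rw [norm_mul, Complex.norm_exp]
    have hb := U_bound _ (one_le_p h k)
    rw [re_p] at hb
    have e1 : (2 * π * I * (k + 1) * z : ℂ).re = -(2 * π * (k + 1) * z.im) := by simp
    rw [e1]
    calc _ ≤ Real.exp (-(2 * π * (k + 1) * z.im))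
            * (2 * Real.exp (-(2 * π * (k + 1) + θ.re))) := by
          gcongr
      _ = 2 * Real.exp (-(2 * π * (k + 1) * z.im) + -(2 * π * (k + 1) + θ.re)) := by
          rw [Real.exp_add]; ring
      _ ≤ _ := by
          gcongr
          nlinarith [mul_le_mul_of_nonneg_left hz'.1 hk]
  rw [mul_assoc, e]
  have := norm_sub_le (exp (-2 * π * I * (k + 1) * z) * UU (2 * π * (k + 1) - θ))
    (exp (2 * π * I * (k + 1) * z) * UU (2 * π * (k + 1) + θ))
  unfold T
  linarith

lemma maj_summable {r : ℝ} (hr : r < 1) :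
    Summable fun k : ℕ => 4 * Real.exp π * Real.exp (-(2 * π * (1 - r))) ^ (k + 1) := by
  have h1 : Real.exp (-(2 * π * (1 - r))) < 1 := by
    rw [Real.exp_lt_one_iff]
    have := Real.pi_pos
    nlinarith
  have := summable_geometric_of_lt_one (Real.exp_pos _).le h1
  exact ((summable_nat_add_iff 1).2 this).mul_left _

lemma T_summable {θ : ℂ} (h : |θ.re| ≤ π) {z : ℂ} (hz : |z.im| < 1) :
    Summable fun k => T θ k z :=
  Summable.of_norm_bounded (maj_summable hz) fun k => T_bound h k le_rfl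

lemma T_deriv (θ : ℂ) (k : ℕ) (z : ℂ) : HasDerivAt (T θ k)
    (exp (-2 * π * I * (k + 1) * z) * (-2 * π * I * (k + 1)) * UU (2 * π * (k + 1) - θ)
      - exp (2 * π * I * (k + 1) * z) * (2 * π * I * (k + 1)) * UU (2 * π * (k + 1) + θ)) z := by
  have a1 := (((hasDerivAt_id z).const_mul (-2 * π * I * (k + 1) : ℂ)).cexp).mul_const
    (UU (2 * π * (k + 1) - θ))
  have a2 := (((hasDerivAt_id z).const_mul (2 * π * I * (k + 1) : ℂ)).cexp).mul_const
    (UU (2 * π * (k + 1) + θ))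
  have := a1.sub a2
  simp only [id, mul_one] at this
  exact this

lemma strip_open (r : ℝ) : IsOpen {z : ℂ | |z.im| < r} :=
  isOpen_lt (by fun_prop) continuous_const

lemma R_deriv {θ : ℂ} (h : |θ.re| ≤ π) {z : ℂ} (hz : |z.im| < 1) :
    DifferentiableAt ℂ (R θ) z ∧ HasSum (fun k => deriv (T θ k) z) (deriv (R θ) z) := by
  obtain ⟨r, h1, h2⟩ := exists_between hz
  have hd : ∀ k, DifferentiableOn ℂ (T θ k) {z : ℂ | |z.im| < r} := fun k w _ =>
    (T_deriv θ k w).differentiableAt.differentiableWithinAt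
  have hb : ∀ (k : ℕ) (w : ℂ), w ∈ {z : ℂ | |z.im| < r} →
      ‖T θ k w‖ ≤ 4 * Real.exp π * Real.exp (-(2 * π * (1 - r))) ^ (k + 1) :=
    fun k w hw => T_bound h k (le_of_lt hw)
  exact ⟨(differentiableOn_tsum_of_summable_norm (maj_summable h2) hd (strip_open r)
      hb).differentiableAt ((strip_open r).mem_nhds h1),
    hasSum_deriv_of_summable_norm (maj_summable h2) hd (strip_open r) hb h1⟩

lemma hs_congr {f g : ℕ → ℂ} {a : ℂ} (h : HasSum f a) (e : ∀ k, g k = f k) : HasSum g a := by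
  rwa [funext e]

/-- The combination of value and derivative at a point where the exponentials are a sign. -/
lemma R_comb {θ : ℂ} (h : |θ.re| ≤ π) {z : ℂ} (hz : |z.im| < 1) (s : ℕ → ℂ)
    (h1 : ∀ k : ℕ, exp (-2 * π * I * (k + 1) * z) = s k)
    (h2 : ∀ k : ℕ, exp (2 * π * I * (k + 1) * z) = s k) :
    ∑' k, s k * hk k θ = -θ.re * R θ z + I * deriv (R θ) z := by
  have a := ((T_summable h hz).hasSum.mul_left (-θ.re : ℂ)).add ((R_deriv h hz).2.mul_left I)
  refine HasSum.tsum_eq (hs_congr a fun k => ?_)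
  rw [(T_deriv θ k z).deriv]
  unfold T hk
  rw [h1, h2]
  linear_combination (s k * (2 * π * (k + 1)) * (UU (2 * π * (k + 1) - θ)
    + UU (2 * π * (k + 1) + θ))) * I_mul_I

lemma R0_deriv {θ : ℂ} (h : |θ.re| ≤ π) {z : ℂ} (hz : |z.im| < 1) :
    HasDerivAt (R0 θ) (2 * π * I * deriv (R θ) z) z :=
  ((R_deriv h hz).1.hasDerivAt.const_mul (2 * π * I : ℂ)).const_add _

lemma exp_theta {θ : ℂ} (h : NP θ) : exp θ ≠ 1 := by
  intro h1
  obtain ⟨n, hn⟩ := exp_eq_one_iff.1 h1
  apply h ⟨0, n⟩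
  rw [hn, GaussianInt.toComplex_def']
  simp
  ring

lemma cth_eq {θ : ℂ} (h : exp θ ≠ 1) : cth (θ / 2) = 1 + 2 * UU θ := by
  have e : exp θ = exp (θ / 2) * exp (θ / 2) := by rw [← exp_add]; ring_nf
  have e0 : exp (θ / 2) ≠ 0 := exp_ne_zero _
  have h1 : exp (θ / 2) * exp (θ / 2) - 1 ≠ 0 := by rw [← e]; exact sub_ne_zero.2 h
  have h2 : exp (θ / 2) ^ 2 - 1 ≠ 0 := by rwa [sq]
  unfold cth UU Complex.cosh Complex.sinh
  rw [exp_neg, e]
  field_simp
  ring

lemma geo (x : ℂ) (hx : ‖x‖ < 1) : HasSum (fun k : ℕ => x ^ (k + 1)) (x / (1 - x)) := by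
  exact hs_congr ((hasSum_geometric_of_norm_lt_one hx).mul_left x) fun k => by ring

lemma one_sub_ne {x : ℂ} (hx : ‖x‖ < 1) : 1 - x ≠ 0 := by
  intro h
  have : x = 1 := by linear_combination -h
  rw [this, norm_one] at hx
  exact lt_irrefl _ hx

lemma R_shift {θ : ℂ} (h : |θ.re| ≤ π) {z : ℂ} (h1 : -1 < z.im) (h2 : z.im < 0) :
    R θ (z + I) = exp θ * R θ z
      + exp θ * (exp (-(2 * π * I * z)) / (1 - exp (-(2 * π * I * z))))
      + exp (2 * π * I * (z + I)) / (1 - exp (2 * π * I * (z + I))) := by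
  have hp := Real.pi_pos
  have n1 : ‖exp (-(2 * π * I * z))‖ < 1 := by
    rw [Complex.norm_exp, Real.exp_lt_one_iff]
    simp
    nlinarith
  have n2 : ‖exp (2 * π * I * (z + I))‖ < 1 := by
    rw [Complex.norm_exp, Real.exp_lt_one_iff]
    simp
    nlinarith
  have a := (((T_summable h (z := z) (abs_lt.2 ⟨h1, by linarith⟩)).hasSum.mul_left (exp θ)).add
    ((geo _ n1).mul_left (exp θ))).add (geo _ n2)
  refine HasSum.tsum_eq (hs_congr a fun k => ?_)
  have u1 := U_id _ (exp_ne_one _ (one_le_m h k))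
  have u2 := U_id _ (exp_ne_one _ (one_le_p h k))
  have e1 : exp (-2 * π * I * (k + 1) * (z + I))
      = exp θ * exp (-2 * π * I * (k + 1) * z) * exp (2 * π * (k + 1) - θ) := by
    rw [← exp_add, ← exp_add]
    congr 1
    linear_combination (-2 * π * (k + 1) : ℂ) * I_mul_I
  have e2 : exp θ * exp (2 * π * I * (k + 1) * z)
      = exp (2 * π * I * (k + 1) * (z + I)) * exp (2 * π * (k + 1) + θ) := by
    rw [← exp_add, ← exp_add]
    congr 1
    linear_combination (-2 * π * (k + 1) : ℂ) * I_mul_I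
  have e3 : exp (-(2 * π * I * z)) ^ (k + 1) = exp (-2 * π * I * (k + 1) * z) := by
    rw [← exp_nat_mul]
    congr 1
    push_cast
    ring
  have e4 : exp (2 * π * I * (z + I)) ^ (k + 1) = exp (2 * π * I * (k + 1) * (z + I)) := by
    rw [← exp_nat_mul]
    congr 1
    push_cast
    ring
  unfold T
  rw [e3, e4, e1]
  linear_combination (exp θ * exp (-2 * π * I * (k + 1) * z)) * u1
    + UU (2 * π * (k + 1) + θ) * e2 + exp (2 * π * I * (k + 1) * (z + I)) * u2

lemma fE_shift_I {θ : ℂ} (hN : NP θ) (h : |θ.re| ≤ π) {z : ℂ} (h1 : -1 < z.im) (h2 : z.im < 0) :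
    fE θ (z + I) = exp (I * θ.im) * fE θ z := by
  have hp := Real.pi_pos
  have n1 : ‖exp (-(2 * π * I * z))‖ < 1 := by
    rw [Complex.norm_exp, Real.exp_lt_one_iff]
    simp
    nlinarith
  have n2 : ‖exp (2 * π * I * (z + I))‖ < 1 := by
    rw [Complex.norm_exp, Real.exp_lt_one_iff]
    simp
    nlinarith
  have m1 := one_sub_ne n1
  have m2 := one_sub_ne n2
  have c1 : cot (π * z)
      = I + 2 * I * (exp (-(2 * π * I * z)) / (1 - exp (-(2 * π * I * z)))) := by
    have e : exp (2 * π * I * z) = (exp (-(2 * π * I * z)))⁻¹ := by rw [← exp_neg, neg_neg]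
    have e0 := exp_ne_zero (-(2 * π * I * z))
    have m3 : exp (-(2 * π * I * z)) - 1 ≠ 0 := fun h => m1 (by linear_combination -h)
    rw [cot_pi_eq_exp_ratio, e]
    generalize exp (-(2 * π * I * z)) = F at *
    field_simp
    linear_combination (1 - F) * (1 + F) * I_mul_I
  have c2 : cot (π * (z + I))
      = -I - 2 * I * (exp (2 * π * I * (z + I)) / (1 - exp (2 * π * I * (z + I)))) := by
    rw [cot_pi_eq_exp_ratio]
    generalize exp (2 * π * I * (z + I)) = F at *
    field_simp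
    linear_combination (1 + F) * I_mul_I
  have e : exp (I * θ.re * (z + I)) * exp θ = exp (I * θ.im) * exp (I * θ.re * z) := by
    rw [← exp_add, ← exp_add]
    congr 1
    linear_combination (θ.re : ℂ) * I_mul_I - re_add_im θ
  have hU := U_id θ (exp_theta hN)
  have B : π * cot (π * (z + I)) + R0 θ (z + I) = exp θ * (π * cot (π * z) + R0 θ z) := by
    unfold R0
    rw [c1, c2, R_shift h h1 h2, cth_eq (exp_theta hN)]
    linear_combination (2 * π * I : ℂ) * hU
  rw [fE_eq, fE_eq, B, ← mul_assoc, e, mul_assoc]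

lemma fE_shift_one (θ z : ℂ) : fE θ (z + 1) = exp (I * θ.re) * fE θ z := by
  have c : cot (π * (z + 1)) = cot (π * z) := by
    rw [cot_pi_eq_exp_ratio, cot_pi_eq_exp_ratio, mul_add, mul_one, exp_add, exp_two_pi_mul_I,
      mul_one]
  have t : ∀ k, T θ k (z + 1) = T θ k z := by
    intro k
    have e1 : exp (2 * π * I * (k + 1) * (z + 1)) = exp (2 * π * I * (k + 1) * z) := by
      have := exp_nat_mul_two_pi_mul_I (k + 1)
      rw [mul_add, exp_add, mul_one, mul_comm (2 * π * I : ℂ) (k + 1)]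
      push_cast at this
      rw [this, mul_one]
    have e2 : exp (-2 * π * I * (k + 1) * (z + 1)) = exp (-2 * π * I * (k + 1) * z) := by
      have a : ∀ w : ℂ, (-2 * π * I * (k + 1) * w : ℂ) = -(2 * π * I * (k + 1) * w) :=
        fun w => by ring
      rw [a, a, exp_neg, exp_neg, e1]
    unfold T
    rw [e1, e2]
  have r : R0 θ (z + 1) = R0 θ z := by
    unfold R0 R
    simp only [t]
  rw [fE_eq, fE_eq, c, r, mul_add (I * θ.re : ℂ), mul_one, exp_add]
  ring

lemma exp3 : ∃ e : ℂ → ℂ, ContinuousAt e 0 ∧ e 0 = 1 / 6 ∧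
    ∀ w, exp w = 1 + w + w ^ 2 / 2 + w ^ 3 * e w := by
  classical
  refine ⟨fun w => if w = 0 then 1 / 6 else (exp w - 1 - w - w ^ 2 / 2) / w ^ 3, ?_, by simp, ?_⟩
  · rw [ContinuousAt, if_pos rfl, tendsto_iff_norm_sub_tendsto_zero]
    refine squeeze_zero' (Eventually.of_forall fun _ => norm_nonneg _) ?_
      (continuous_norm.tendsto' (0 : ℂ) 0 norm_zero)
    filter_upwards [closedBall_mem_nhds (0 : ℂ) one_pos] with w hw
    by_cases h0 : w = 0
    · simp [h0]
    · rw [if_neg h0]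
      have hb := Complex.exp_bound (x := w) (by simpa using hw) (n := 4) (by norm_num)
      have e : (exp w - 1 - w - w ^ 2 / 2) / w ^ 3 - 1 / 6
          = (exp w - ∑ m ∈ Finset.range 4, w ^ m / m.factorial) / w ^ 3 := by
        simp [Finset.sum_range_succ, Nat.factorial]
        field_simp
        ring
      have hp : 0 < ‖w‖ := norm_pos_iff.2 h0
      rw [e, norm_div, norm_pow, div_le_iff₀ (by positivity)]
      refine hb.trans ?_
      have : (((4 : ℕ).succ : ℝ) * (((4 : ℕ).factorial : ℝ) * (4 : ℕ))⁻¹) ≤ 1 := by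
        simp [Nat.factorial]
        norm_num
      calc _ ≤ ‖w‖ ^ 4 * 1 := by gcongr
        _ = _ := by ring
  · intro w
    by_cases h0 : w = 0
    · simp [h0]
    · simp only [if_neg h0]
      field_simp
      ring

lemma exp2_ne {z : ℂ} (h0 : z ≠ 0) (h1 : ‖z‖ < 1) : exp (2 * π * I * z) ≠ 1 := by
  intro h
  obtain ⟨n, hn⟩ := exp_eq_one_iff.1 h
  have e : z = n := by
    have : (2 * π * I : ℂ) ≠ 0 := two_pi_I_ne_zero
    apply mul_left_cancel₀ this
    rw [hn, mul_comm]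
  rw [e, Complex.norm_intCast] at h1
  have : |n| < 1 := by exact_mod_cast h1
  rw [Int.abs_lt_one_iff.1 this] at e
  exact h0 (by simpa using e)

lemma cot_exp : ∃ c : ℂ → ℂ, ContinuousAt c 0 ∧ c 0 = -(π ^ 2 / 3) ∧
    ∀ z : ℂ, z ≠ 0 → ‖z‖ < 1 → π * cot (π * z) = z⁻¹ + z * c z := by
  obtain ⟨e, ec, e0, he⟩ := exp3
  have ec' : ContinuousAt (fun z : ℂ => e (2 * π * I * z)) 0 :=
    ContinuousAt.comp (g := e) (by simpa using ec) (by fun_prop)
  refine ⟨fun z => π * I * (2 * π * I) * (1 / 2 - 2 * e (2 * π * I * z)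
    + 2 * π * I * z * e (2 * π * I * z))
      / (1 + 2 * π * I * z / 2 + (2 * π * I * z) ^ 2 * e (2 * π * I * z)), ?_, ?_, ?_⟩
  · have l : ContinuousAt (fun z : ℂ => 2 * π * I * z) 0 := by fun_prop
    exact ContinuousAt.div (continuousAt_const.mul
      ((continuousAt_const.sub (continuousAt_const.mul ec')).add (l.mul ec')))
      ((continuousAt_const.add (l.div_const 2)).add ((l.pow 2).mul ec')) (by simp)
  · simp only [mul_zero, e0]
    simp
    linear_combination (π ^ 2 / 3 : ℂ) * I_mul_I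
  · intro z h0 h1
    have hE := exp2_ne h0 h1
    rw [cot_pi_eq_exp_ratio]
    have hw := he (2 * π * I * z)
    beta_reduce
    generalize e (2 * π * I * z) = ε at *
    have ha : 1 + 2 * π * I * z / 2 + (2 * π * I * z) ^ 2 * ε ≠ 0 := by
      intro ha
      apply hE
      rw [hw]
      linear_combination (2 * π * I * z) * ha
    have e1 : 1 - exp (2 * π * I * z)
        = -(2 * π * I * z) * (1 + 2 * π * I * z / 2 + (2 * π * I * z) ^ 2 * ε) := by
      rw [hw]; ring
    have e2 : exp (2 * π * I * z) + 1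
        = 2 + (2 * π * I * z) * (1 + 2 * π * I * z / 2 + (2 * π * I * z) ^ 2 * ε) := by
      rw [hw]; ring
    have e3 : π * I * (2 * π * I) * (1 / 2 - 2 * ε + 2 * π * I * z * ε) * z ^ 2
        = 1 + π * I * z * (1 + 2 * π * I * z / 2 + (2 * π * I * z) ^ 2 * ε)
          - (1 + 2 * π * I * z / 2 + (2 * π * I * z) ^ 2 * ε) := by ring
    rw [e1, e2]
    generalize 1 + 2 * π * I * z / 2 + (2 * π * I * z) ^ 2 * ε = a at *
    generalize π * I * (2 * π * I) * (1 / 2 - 2 * ε + 2 * π * I * z * ε) = n at *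
    have hπ : (π : ℂ) ≠ 0 := ofReal_ne_zero.2 Real.pi_ne_zero
    have e4 : n = (1 + π * I * z * a - a) / z ^ 2 := by rw [← e3]; field_simp
    rw [e4]
    have e5 : I * (-(2 * π * I * z) * a) = 2 * π * z * a := by
      linear_combination (-2 * π * z * a) * I_mul_I
    rw [e5]
    field_simp
    ring

lemma deriv_mul_cont {c : ℂ → ℂ} (h : ContinuousAt c 0) : HasDerivAt (fun z => z * c z) (c 0) 0 := by
  rw [hasDerivAt_iff_tendsto_slope_zero]
  refine (h.tendsto.mono_left nhdsWithin_le_nhds).congr' ?_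
  filter_upwards [self_mem_nhdsWithin] with t ht
  have : t ≠ 0 := ht
  simp
  field_simp

/-- The regular part of the series at the origin. -/
lemma reg_part {θ : ℂ} (h : |θ.re| ≤ π) : ∃ G : ℂ → ℂ, HasDerivAt G (-pE θ) 0 ∧
    ∀ z : ℂ, z ≠ 0 → ‖z‖ < 1 → fE θ z = z⁻¹ + G z := by
  obtain ⟨e, ec, e0, he⟩ := exp3
  obtain ⟨c, cc, c0, hc⟩ := cot_exp
  have ec' : ContinuousAt (fun z : ℂ => e (I * θ.re * z)) 0 :=
    ContinuousAt.comp (g := e) (by simpa using ec) (by fun_prop)
  refine ⟨fun z => I * θ.re + z * ((I * θ.re) ^ 2 / 2 + z * (I * θ.re) ^ 3 * e (I * θ.re * z))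
    + exp (I * θ.re * z) * (z * c z + R0 θ z), ?_, ?_⟩
  · have a1 := deriv_mul_cont
      (c := fun z => (I * θ.re) ^ 2 / 2 + z * (I * θ.re) ^ 3 * e (I * θ.re * z))
      (continuousAt_const.add ((continuousAt_id.mul continuousAt_const).mul ec'))
    have a2 := ((hasDerivAt_id (0 : ℂ)).const_mul (I * θ.re : ℂ)).cexp
    have a3 := (deriv_mul_cont cc).add (R0_deriv h (z := 0) (by simp))
    have a4 := (a1.const_add (I * θ.re : ℂ)).add (a2.mul a3)
    have k := R_comb h (z := 0) (by simp) (fun _ => 1) (by simp) (by simp)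
    simp only [one_mul] at k
    refine HasDerivAt.congr_deriv a4 ?_
    simp only [id, mul_zero, zero_mul, exp_zero, Pi.add_apply, c0, pE, k, R0]
    linear_combination (θ.re ^ 2 / 2 - π * θ.re * cth (θ / 2) + 2 * π * θ.re * R θ 0) * I_mul_I
  · intro z h0 h1
    rw [fE_eq, hc z h0 h1]
    have := he (I * θ.re * z)
    have e2 : exp (I * θ.re * z) * z⁻¹ = z⁻¹ + I * θ.re
        + z * ((I * θ.re) ^ 2 / 2 + z * (I * θ.re) ^ 3 * e (I * θ.re * z)) := by
      rw [this]
      field_simp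
      ring
    linear_combination e2

lemma sin_ne {z : ℂ} (h : NL z) : sin (π * z) ≠ 0 := by
  intro h1
  obtain ⟨k, hk⟩ := Complex.sin_eq_zero_iff.1 h1
  have hπ : (π : ℂ) ≠ 0 := ofReal_ne_zero.2 Real.pi_ne_zero
  apply h (k : GI)
  have : z = k := mul_left_cancel₀ hπ (by rw [hk, mul_comm])
  simpa using this

lemma cot_deriv {z : ℂ} (h : sin (π * z) ≠ 0) :
    HasDerivAt (fun z : ℂ => π * cot (π * z)) (-(π ^ 2 / sin (π * z) ^ 2)) z := by
  have a := (hasDerivAt_id z).const_mul (π : ℂ)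
  have := ((a.ccos).div (a.csin) h).const_mul (π : ℂ)
  simp only [cot_eq_cos_div_sin]
  refine HasDerivAt.congr_deriv this ?_
  simp only [id]
  field_simp
  linear_combination (-1 : ℂ) * sin_sq_add_cos_sq (π * z)

lemma fE_deriv {θ : ℂ} (h : |θ.re| ≤ π) {z : ℂ} (hz : NL z) (h1 : |z.im| < 1) :
    HasDerivAt (fE θ) (exp (I * θ.re * z) * (I * θ.re * (π * cot (π * z) + R0 θ z)
      + (-(π ^ 2 / sin (π * z) ^ 2) + 2 * π * I * deriv (R θ) z))) z := by
  have a2 := ((hasDerivAt_id z).const_mul (I * θ.re : ℂ)).cexp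
  have a3 := a2.mul ((cot_deriv (sin_ne hz)).add (R0_deriv h h1))
  have e : fE θ = fun z => exp (I * θ.re * z) * (π * cot (π * z) + R0 θ z) := funext (fE_eq θ)
  rw [e]
  refine HasDerivAt.congr_deriv a3 ?_
  simp only [id, Pi.add_apply]
  ring

lemma NL_half {z : ℂ} (h : ‖z - 1 / 2‖ < 1 / 2) : NL z := by
  rintro w rfl
  have h1 := (abs_re_le_norm _).trans_lt h
  have e : ((w : ℂ) - 1 / 2).re = (w.re : ℝ) - 1 / 2 := by simp
  rw [e, abs_lt] at h1
  have a : (0 : ℝ) < w.re := by linarith [h1.1]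
  have b : (w.re : ℝ) < 1 := by linarith [h1.2]
  have a' : 0 < w.re := by exact_mod_cast a
  have b' : w.re < 1 := by exact_mod_cast b
  omega

lemma NL_small {z : ℂ} (h0 : z ≠ 0) (h : ‖z‖ < 1) : NL z := by
  rintro w rfl
  have h1 := (abs_re_le_norm _).trans_lt h
  have h2 := (abs_im_le_norm _).trans_lt h
  rw [← GaussianInt.intCast_re] at h1
  rw [← GaussianInt.intCast_im] at h2
  have a : |w.re| < 1 := by exact_mod_cast h1
  have b : |w.im| < 1 := by exact_mod_cast h2
  apply h0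
  rw [GaussianInt.toComplex_def, Int.abs_lt_one_iff.1 a, Int.abs_lt_one_iff.1 b]
  simp

lemma f_eq (hS : S_Strip) {θ : ℂ} (b : BD θ) (hN : NP θ) (h : |θ.re| ≤ π) :
    ∀ z, NL z → |z.im| < 1 → b.f z = fE θ z := by
  have s1 : ∀ z, b.f (z + 1) - fE θ (z + 1) = exp (I * θ.re) * (b.f z - fE θ z) := by
    intro z
    have := b.bl z 1
    simp only [map_one, dot, mul_one, conj_re] at this
    rw [this, fE_shift_one]
    ring
  have s2 : ∀ z : ℂ, -1 < z.im → z.im < 0 →
      b.f (z + I) - fE θ (z + I) = exp (I * θ.im) * (b.f z - fE θ z) := by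
    intro z h1 h2
    have := b.bl z gi
    have e : ((gi : GI) : ℂ) = I := by simp [gi, GaussianInt.toComplex_def']
    have e' : dot θ I = θ.im := by simp [dot]
    rw [e, e'] at this
    rw [this, fE_shift_I hN h h1 h2]
    ring
  obtain ⟨G, hG, hf⟩ := reg_part h
  have gc : ContinuousAt b.g 0 :=
    (b.hg.differentiableAt (ball_mem_nhds _ (by norm_num))).continuousAt
  obtain ⟨κ, hκ⟩ := hS (exp (I * θ.re)) (exp (I * θ.im)) (fun z => b.f z - fE θ z)
    (by rw [Complex.norm_exp]; simp) (by rw [Complex.norm_exp]; simp)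
    (fun z hz h1 => (b.df z hz).sub (fE_deriv h hz h1).differentiableAt)
    (fun z _ _ => s1 z) s2 (by
      have c : ContinuousAt (fun z => z * (b.g z - G z)) 0 :=
        continuousAt_id.mul (gc.sub hG.continuousAt)
      have t := c.tendsto.mono_left (nhdsWithin_le_nhds (s := {0}ᶜ))
      simp only [zero_mul] at t
      refine t.congr' ?_
      filter_upwards [self_mem_nhdsWithin,
        mem_nhdsWithin_of_mem_nhds (ball_mem_nhds (0 : ℂ) (by norm_num : (0 : ℝ) < 9 / 10))]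
        with z h0 h1
      have h1' : ‖z‖ < 9 / 10 := by simpa using h1
      rw [b.loc z h1' h0, hf z h0 (by linarith)]
      ring)
  have k0 : κ = 0 := by
    by_contra hk
    have nl : ∀ z : ℂ, |z.im| = 1 / 2 → NL z := by
      rintro z hz w rfl
      rw [← GaussianInt.intCast_im] at hz
      have : |2 * w.im| = 1 := by
        have : |(2 * w.im : ℝ)| = 1 := by rw [abs_mul, hz]; norm_num
        exact_mod_cast this
      rcases (abs_eq zero_le_one).1 this with h1 | h1 <;> omega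
    have q0 := hκ (-I / 2) (nl _ (by norm_num [abs_of_neg])) (by norm_num [abs_lt])
    have q1 := hκ (-I / 2 + 1) (nl _ (by norm_num [abs_of_neg])) (by norm_num [abs_lt])
    have q2 := hκ (-I / 2 + I) (nl _ (by norm_num [abs_of_pos])) (by norm_num [abs_lt])
    rw [s1, q0] at q1
    rw [s2 _ (by norm_num) (by norm_num), q0] at q2
    obtain ⟨m, hm⟩ := exp_eq_one_iff.1 (mul_left_eq_self₀.1 q1 |>.resolve_right hk)
    obtain ⟨n, hn⟩ := exp_eq_one_iff.1 (mul_left_eq_self₀.1 q2 |>.resolve_right hk)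
    apply hN ⟨m, n⟩
    rw [GaussianInt.toComplex_def']
    linear_combination (-I) * hm + hn - re_add_im θ + (θ.re - 2 * π * m : ℂ) * I_mul_I
  intro z hz h1
  exact sub_eq_zero.1 ((hκ z hz h1).trans k0)

end Pool.Agent.P.MP_cc4a10_gt.ExP

namespace Pool.Agent.P.MP_cc4a10_gt

open ExP

theorem pEx (hS : S_Strip) : S_Ex := by
  intro θ b hN h
  have hf := f_eq hS b hN h
  refine ⟨hf, ?_, ?_⟩
  · obtain ⟨G, hG, hfG⟩ := reg_part h
    have gc : ContinuousAt b.g 0 :=
      (b.hg.differentiableAt (ball_mem_nhds _ (by norm_num))).continuousAt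
    have key : ∀ z : ℂ, z ≠ 0 → ‖z‖ < 9 / 10 → b.g z = G z := by
      intro z h0 h1
      have a := hf z (NL_small h0 (by linarith)) ((abs_im_le_norm z).trans_lt (by linarith))
      rw [b.loc z h1 h0, hfG z h0 (by linarith)] at a
      exact add_left_cancel a
    have ev : b.g =ᶠ[𝓝[≠] 0] G := by
      filter_upwards [self_mem_nhdsWithin,
        mem_nhdsWithin_of_mem_nhds (ball_mem_nhds (0 : ℂ) (by norm_num : (0 : ℝ) < 9 / 10))]
        with z h0 h1
      exact key z h0 (by simpa using h1)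
    have g0 : b.g 0 = G 0 := tendsto_nhds_unique_of_eventuallyEq
      (gc.tendsto.mono_left nhdsWithin_le_nhds)
      (hG.continuousAt.tendsto.mono_left nhdsWithin_le_nhds) ev
    have ev' : b.g =ᶠ[𝓝 0] G := by
      filter_upwards [ball_mem_nhds (0 : ℂ) (by norm_num : (0 : ℝ) < 9 / 10)] with z h1
      by_cases h0 : z = 0
      · rw [h0, g0]
      · exact key z h0 (by simpa using h1)
    change -deriv b.g 0 = _
    rw [ev'.deriv_eq, hG.deriv, neg_neg]
  · have ev : b.f =ᶠ[𝓝 (1 / 2)] fE θ := by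
      filter_upwards [ball_mem_nhds (1 / 2 : ℂ) (by norm_num : (0 : ℝ) < 1 / 2)] with z h1
      rw [mem_ball, dist_eq_norm] at h1
      refine hf z (NL_half h1) ?_
      have := (abs_im_le_norm _).trans_lt h1
      have e : (z - 1 / 2).im = z.im := by simp
      rw [e] at this
      linarith
    have d := fE_deriv h (z := 1 / 2) (NL_half (by simp)) (by simp)
    have x1 : ∀ k : ℕ, exp (2 * π * I * (k + 1) * (1 / 2)) = (-1) ^ (k + 1) := by
      intro k
      rw [← exp_pi_mul_I, ← exp_nat_mul]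
      congr 1
      push_cast
      ring
    have x2 : ∀ k : ℕ, exp (-2 * π * I * (k + 1) * (1 / 2)) = (-1) ^ (k + 1) := by
      intro k
      rw [← exp_neg_pi_mul_I, ← exp_nat_mul]
      congr 1
      push_cast
      ring
    have k := R_comb h (z := 1 / 2) (by simp) (fun k => (-1) ^ (k + 1)) x2 x1
    have k' : ∑' k : ℕ, (-1) ^ k * hk k θ = -∑' k : ℕ, (-1) ^ (k + 1) * hk k θ := by
      rw [← tsum_neg]
      exact tsum_congr fun k => by ring
    have e1 : (π * (1 / 2) : ℂ) = π / 2 := by ring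
    have e2 : exp (I * θ.re * (1 / 2)) * ex θ (1 / 2) = 1 := by
      have : dot θ (1 / 2) = θ.re / 2 := by simp [dot]; ring
      rw [ex, this, ← exp_add]
      refine Eq.trans ?_ exp_zero
      congr 1
      push_cast
      ring
    change -deriv b.f (1 / 2) * ex θ (1 / 2) = _
    rw [ev.deriv_eq, d.deriv, cE, k', k, cot_eq_cos_div_sin, e1, cos_pi_div_two, sin_pi_div_two, R0]
    linear_combination (-(I * θ.re * (-(π * I * cth (θ / 2)) + 2 * π * I * R θ (1 / 2))
      + (-(π ^ 2) + 2 * π * I * deriv (R θ) (1 / 2)))) * e2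
      + (π * θ.re * cth (θ / 2) - 2 * π * θ.re * R θ (1 / 2)) * I_mul_I

end Pool.Agent.P.MP_cc4a10_gt
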