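import Pool.Agent.P.MP_cc4a10_gt.Ex0B

/-!
Package Ex0: the value of the Weierstrass function at one half.
-/

open Set Filter Topology Complex Metric
open scoped ComplexConjugate Real

noncomputable section

namespace Pool.Agent.P.MP_cc4a10_gt.Ex0P

theorem tend_r : Tendsto (fun w : ℂ => (w - sin w) / w ^ 3) (𝓝[≠] 0) (𝓝 (1 / 6)) := by
  rw [tendsto_iff_norm_sub_tendsto_zero]
  have h0 : Tendsto (fun w : ℂ => ‖w‖ ^ 2 / 100) (𝓝[≠] 0) (𝓝 0) := by
    have : Continuous (fun w : ℂ => ‖w‖ ^ 2 / 100) := by fun_prop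
    simpa using (this.tendsto 0).mono_left nhdsWithin_le_nhds
  refine squeeze_zero' (Eventually.of_forall fun w => norm_nonneg _) ?_ h0
  have h1 : ∀ᶠ w : ℂ in 𝓝[≠] 0, ‖w‖ ≤ 1 :=
    mem_nhdsWithin_of_mem_nhds (by
      filter_upwards [closedBall_mem_nhds (0 : ℂ) one_pos] with w hw
      simpa using hw)
  filter_upwards [h1, self_mem_nhdsWithin] with w hw hw0
  have hw0' : w ≠ 0 := hw0
  have hn : 0 < ‖w‖ := norm_pos_iff.2 hw0'
  have e : (w - sin w) / w ^ 3 - 1 / 6 = -(sin w - (w - w ^ 3 / 6)) / w ^ 3 := by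
    field_simp; ring
  rw [e, norm_div, norm_neg, norm_pow, div_le_iff₀ (by positivity)]
  calc _ ≤ ‖w‖ ^ 5 / 100 := sin_bound hw
    _ = _ := by ring

theorem tend_s : Tendsto (fun w : ℂ => sin w / w) (𝓝[≠] 0) (𝓝 1) := by
  have h0 : Tendsto (fun w : ℂ => w ^ 2) (𝓝[≠] 0) (𝓝 0) := by
    have : Continuous (fun w : ℂ => w ^ 2) := by fun_prop
    simpa using (this.tendsto 0).mono_left nhdsWithin_le_nhds
  have h1 := (tendsto_const_nhds (x := (1 : ℂ))).sub (h0.mul tend_r)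
  simp only [zero_mul, sub_zero] at h1
  refine h1.congr' ?_
  filter_upwards [self_mem_nhdsWithin] with w hw0
  have hw0' : w ≠ 0 := hw0
  field_simp; ring

theorem tend_pi : Tendsto (fun z : ℂ => π * z) (𝓝[≠] 0) (𝓝[≠] 0) := by
  have hp : (π : ℂ) ≠ 0 := ofReal_ne_zero.2 Real.pi_ne_zero
  refine tendsto_nhdsWithin_iff.2 ⟨?_, ?_⟩
  · have : Continuous (fun z : ℂ => π * z) := by fun_prop
    simpa using (this.tendsto 0).mono_left nhdsWithin_le_nhds
  · filter_upwards [self_mem_nhdsWithin] with w hw0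
    exact mul_ne_zero hp hw0

theorem NL_of_small {z : ℂ} (h0 : z ≠ 0) (h1 : ‖z‖ < 1) : NL z := by
  intro w hw
  have hw0 : w ≠ 0 := by
    rintro rfl
    exact h0 (by simpa using hw)
  have h2 : (1 : ℝ) ≤ normSq (w : ℂ) := by
    rw [← GaussianInt.intCast_real_norm]
    exact_mod_cast GaussianInt.norm_pos.2 hw0
  rw [← hw, normSq_eq_norm_sq] at h2
  nlinarith [norm_nonneg z]

theorem ev_small : ∀ᶠ z : ℂ in 𝓝[≠] 0, z ≠ 0 ∧ ‖z‖ < 9 / 10 := by
  have h1 : ∀ᶠ w : ℂ in 𝓝[≠] 0, ‖w‖ < 9 / 10 :=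
    mem_nhdsWithin_of_mem_nhds (by
      filter_upwards [ball_mem_nhds (0 : ℂ) (show (0 : ℝ) < 9 / 10 by norm_num)] with w hw
      simpa using hw)
  filter_upwards [h1, self_mem_nhdsWithin] with w hw hw0
  exact ⟨hw0, hw⟩

theorem tend_cot : Tendsto (fun z : ℂ => z * (π * cot (π * z))) (𝓝[≠] 0) (𝓝 1) := by
  have hp : (π : ℂ) ≠ 0 := ofReal_ne_zero.2 Real.pi_ne_zero
  have h0 : Tendsto (fun z : ℂ => cos (π * z)) (𝓝[≠] 0) (𝓝 1) := by
    have : Continuous (fun z : ℂ => cos (π * z)) := by fun_prop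
    simpa using (this.tendsto 0).mono_left nhdsWithin_le_nhds
  have h1 := h0.div (tend_s.comp tend_pi) one_ne_zero
  rw [div_one] at h1
  refine h1.congr' ?_
  filter_upwards [ev_small] with z hz
  have hs := sin_ne (NL_of_small hz.1 (by linarith [hz.2]))
  have hz0 := hz.1
  simp only [Pi.div_apply, Function.comp, cot_eq_cos_div_sin]
  field_simp

theorem tend_csc : Tendsto (fun z : ℂ => π ^ 2 / sin (π * z) ^ 2 - z⁻¹ ^ 2) (𝓝[≠] 0)
    (𝓝 (π ^ 2 / 3)) := by
  have hp : (π : ℂ) ≠ 0 := ofReal_ne_zero.2 Real.pi_ne_zero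
  have hr := tend_r.comp tend_pi
  have hs := tend_s.comp tend_pi
  have h1 := ((hr.mul ((tendsto_const_nhds (x := (1 : ℂ))).add hs)).div (hs.pow 2)
    (by norm_num)).const_mul ((π : ℂ) ^ 2)
  have e : (π : ℂ) ^ 2 * (1 / 6 * (1 + 1) / 1 ^ 2) = π ^ 2 / 3 := by ring
  rw [e] at h1
  refine h1.congr' ?_
  filter_upwards [ev_small] with z hz
  have hs := sin_ne (NL_of_small hz.1 (by linarith [hz.2]))
  have hz0 := hz.1
  simp only [Pi.div_apply, Function.comp]
  field_simp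
  ring

theorem NL_ev {z : ℂ} (hz : NL z) : ∀ᶠ w in 𝓝 z, NL w := by
  have hc : IsClosed (range (fun w : GI => (w : ℂ))) := by
    refine Metric.isClosed_of_pairwise_le_dist (ε := 1) one_pos ?_
    rintro _ ⟨a, rfl⟩ _ ⟨b, rfl⟩ hab
    by_contra h
    have h1 : ‖((a - b : GI) : ℂ)‖ < 1 := by
      rw [map_sub]; simpa [dist_eq_norm] using h
    have h2 : ((a - b : GI) : ℂ) ≠ 0 := by
      rw [map_sub]; exact sub_ne_zero.2 hab
    exact NL_of_small h2 h1 _ rfl
  have : z ∈ (range (fun w : GI => (w : ℂ)))ᶜ := by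
    rintro ⟨w, hw⟩; exact hz w hw.symm
  filter_upwards [hc.isOpen_compl.mem_nhds this] with w hw u hu
  exact hw ⟨u, hu.symm⟩

theorem F_an (E : Ell) : AnalyticAt ℂ (E.F 0) 0 :=
  (E.hol 0 (by simp)).analyticAt (ball_mem_nhds _ (by norm_num))

theorem F2_zero (E : Ell) : deriv (deriv (E.F 0)) 0 = 0 := by
  have h1 : ∀ w, deriv (E.F 0) w = I * deriv (E.F 0) (I * w) := by
    intro w
    have : (fun w => E.F 0 (I * w)) = E.F 0 := funext E.rot
    conv_lhs => rw [← this]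
    simpa using deriv_comp_mul_left I (E.F 0) w
  have h2 : deriv (deriv (E.F 0)) 0 = I * (I * deriv (deriv (E.F 0)) (I * 0)) := by
    have : deriv (E.F 0) = fun w => I * deriv (E.F 0) (I * w) := funext h1
    conv_lhs => rw [this]
    rw [deriv_const_mul_field]
    congr 1
    simpa using deriv_comp_mul_left I (deriv (E.F 0)) 0
  rw [mul_zero] at h2
  linear_combination (1 / 2 : ℂ) * h2 + (1 / 2 * deriv (deriv (E.F 0)) 0) * I_mul_I

theorem Lm_zero (z : ℂ) : Lm 0 z = z := by simp [Lm]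

theorem key (h1 : S_Strip) (h2 : S_Ker0) (E : Ell) {z : ℂ} (hz : NL z) (h : |z.im| < 1) :
    -E.wp z = -(π ^ 2 / sin (π * z) ^ 2) + -(2 * π * I) * deriv SS z + π := by
  obtain ⟨C, -, hC⟩ := h2 E
  obtain ⟨-, -, -, -, -, -, -, -, -, -, hD⟩ := hC 0 (by simp)
  obtain ⟨κ, hκ⟩ := h1 1 1 (fun w => E.Z 0 w + π * conj w - GG w) norm_one norm_one
    (fun w hw hw' => ((hD w hw).1.sub (hasDerivAt_GG hw hw')).differentiableAt)
    (fun w _ _ => by
      have := E.Zper 0 (by simp) w 1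
      rw [Lm_zero, map_one] at this
      simp only [this, GG_add_one, map_add, map_one]
      ring)
    (fun w hw hw' => by
      have := E.Zper 0 (by simp) w gi
      rw [Lm_zero, coe_gi] at this
      simp only [this, GG_add_I hw hw', map_add, conj_I]
      ring)
    (by
      have t0 : Tendsto (fun w : ℂ => w) (𝓝[≠] 0) (𝓝 0) := tendsto_id.mono_left nhdsWithin_le_nhds
      have t1 : Tendsto (deriv (E.F 0)) (𝓝[≠] 0) (𝓝 (deriv (E.F 0) 0)) :=
        (F_an E).deriv.continuousAt.tendsto.mono_left nhdsWithin_le_nhds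
      have t2 : Tendsto SS (𝓝[≠] 0) (𝓝 (SS 0)) :=
        (diffAt_SS (by simp)).continuousAt.tendsto.mono_left nhdsWithin_le_nhds
      have t3 := (((tendsto_const_nhds (x := (1 : ℂ))).sub tend_cot).add
        (t0.mul ((t1.add (t2.const_mul (2 * π * I : ℂ))).sub (t0.const_mul (π : ℂ)))))
      simp only [sub_self, zero_mul, add_zero] at t3
      refine t3.congr' ?_
      filter_upwards [ev_small] with w hw
      have hw0 := hw.1
      rw [E.Zloc 0 (by simp) w hw.2]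
      simp only [bE, GG, norm_zero]
      push_cast
      field_simp
      ring)
  have e1 : (fun w => E.Z 0 w + π * conj w) =ᶠ[𝓝 z] fun w => GG w + κ := by
    filter_upwards [NL_ev hz, (isOpen_strip 1).mem_nhds h] with w hw hw'
    have := hκ w hw hw'
    linear_combination this
  exact (hD z hz).1.unique (((hasDerivAt_GG hz h).add_const κ).congr_of_eventuallyEq e1)

theorem item2 (h1 : S_Strip) (h2 : S_Ker0) (E : Ell) :
    π ^ 2 / 3 - 8 * π ^ 2 * ∑' k, aa k = π := by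
  have t1 : Tendsto (deriv (deriv (E.F 0))) (𝓝[≠] 0) (𝓝 0) := by
    have := (F_an E).deriv.deriv.continuousAt.tendsto.mono_left
      (nhdsWithin_le_nhds (s := {0}ᶜ))
    rwa [F2_zero] at this
  have t2 : Tendsto (deriv SS) (𝓝[≠] 0) (𝓝 (deriv SS 0)) :=
    cont_deriv_SS.tendsto.mono_left nhdsWithin_le_nhds
  have t3 := (tend_csc.neg.add (t2.const_mul (-(2 * π * I) : ℂ))).add_const (π : ℂ)
  have t4 := t3.congr' (f₂ := deriv (deriv (E.F 0))) (by
    filter_upwards [ev_small] with w hw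
    have hi : |w.im| < 1 := (abs_im_le_norm w).trans_lt (by linarith [hw.2])
    have := key h1 h2 E (NL_of_small hw.1 (by linarith [hw.2])) hi
    rw [E.Wloc w hw.2] at this
    linear_combination -this)
  have e := tendsto_nhds_unique t4 t1
  rw [deriv_SS_zero] at e
  have e' : ((π ^ 2 / 3 - 8 * π ^ 2 * ∑' k, aa k : ℝ) : ℂ) = (π : ℝ) := by
    rw [ofReal_sub]
    push_cast at e ⊢
    linear_combination -e
  exact_mod_cast e'

theorem item1 (h1 : S_Strip) (h2 : S_Ker0) (E : Ell) : ee E = eE := by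
  have hn : NL (1 / 2) := NL_of_small (by norm_num) (by norm_num)
  have h := key h1 h2 E hn (by simp)
  have hs : sin (π * (1 / 2) : ℂ) = 1 := by
    rw [mul_one_div, sin_pi_div_two]
  rw [deriv_SS_half, hs] at h
  have e : E.wp (1 / 2) = ((π ^ 2 - (8 * π ^ 2 * (∑' k, aa k) - 16 * π ^ 2 * ∑' j, aa (2 * j))
      - π : ℝ) : ℂ) := by
    rw [ofReal_sub, ofReal_sub, ofReal_pow]
    linear_combination -h
  unfold ee
  rw [e, ofReal_re, eE_eq]
  linear_combination item2 h1 h2 E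

end Pool.Agent.P.MP_cc4a10_gt.Ex0P

namespace Pool.Agent.P.MP_cc4a10_gt

theorem pEx0 (h1 : S_Strip) (h2 : S_Ker0) : S_Ex0 := fun E =>
  ⟨Ex0P.item1 h1 h2 E, Ex0P.item2 h1 h2 E, Ex0P.eE_bounds⟩

end Pool.Agent.P.MP_cc4a10_gt
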