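import Pool.Agent.P.MP_cc4a10_gt.St

/-!
Real series and numerical bounds for the package Ex0.
-/

open Set Filter Topology Metric
open scoped Real

noncomputable section

namespace Pool.Agent.P.MP_cc4a10_gt.Ex0P

/-- The weights `1 / (exp (2 π (k+1)) - 1)`. -/
def uu (k : ℕ) : ℝ := (Real.exp (2 * π * (k + 1)) - 1)⁻¹

theorem exp_lo : (534.5 : ℝ) ≤ Real.exp (2 * π) := by
  have h1 : (6 : ℝ) + 0.283184 ≤ 2 * π := by have := Real.pi_gt_d6; linarith
  have h2 : Real.exp (6 + 0.283184) ≤ Real.exp (2 * π) := Real.exp_le_exp.2 h1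
  have h3 : Real.exp (6 : ℝ) = Real.exp 1 ^ 6 := by
    rw [← Real.exp_nat_mul]; norm_num
  have h4 : (2.718281 : ℝ) ^ 6 ≤ Real.exp 1 ^ 6 :=
    pow_le_pow_left₀ (by norm_num) (by have := Real.exp_one_gt_d9; linarith) 6
  have h5 : (1.327 : ℝ) ≤ Real.exp 0.283184 := by
    refine le_trans ?_ (Real.sum_le_exp_of_nonneg (by norm_num) 5)
    simp only [Finset.sum_range_succ, Finset.sum_range_zero, Nat.factorial]
    norm_num
  rw [Real.exp_add, h3] at h2
  have h6 : (2.718281 : ℝ) ^ 6 * 1.327 ≤ Real.exp 1 ^ 6 * Real.exp 0.283184 :=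
    mul_le_mul h4 h5 (by norm_num) (by positivity)
  have h7 : (534.5 : ℝ) ≤ (2.718281 : ℝ) ^ 6 * 1.327 := by norm_num
  linarith

theorem exp_hi : Real.exp (2 * π) ≤ 535.6 := by
  have h1 : 2 * π ≤ (6 : ℝ) + 0.283186 := by have := Real.pi_lt_d6; linarith
  have h2 : Real.exp (2 * π) ≤ Real.exp (6 + 0.283186) := Real.exp_le_exp.2 h1
  have h3 : Real.exp (6 : ℝ) = Real.exp 1 ^ 6 := by
    rw [← Real.exp_nat_mul]; norm_num
  have h4 : Real.exp 1 ^ 6 ≤ (2.718282 : ℝ) ^ 6 :=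
    pow_le_pow_left₀ (by positivity) (by have := Real.exp_one_lt_d9; linarith) 6
  have h5 : Real.exp 0.283186 ≤ (1.3274 : ℝ) := by
    refine le_trans (Real.exp_bound' (by norm_num) (by norm_num) (n := 5) (by norm_num)) ?_
    simp only [Finset.sum_range_succ, Finset.sum_range_zero, Nat.factorial]
    norm_num
  rw [Real.exp_add, h3] at h2
  have h6 : Real.exp 1 ^ 6 * Real.exp 0.283186 ≤ (2.718282 : ℝ) ^ 6 * 1.3274 :=
    mul_le_mul h4 h5 (by positivity) (by norm_num)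
  have h7 : (2.718282 : ℝ) ^ 6 * 1.3274 ≤ 535.6 := by norm_num
  linarith

theorem exp_succ_eq (k : ℕ) : Real.exp (2 * π * (k + 1)) = Real.exp (2 * π) ^ (k + 1) := by
  rw [← Real.exp_nat_mul]; push_cast; ring_nf

theorem two_le_exp (k : ℕ) : 2 ≤ Real.exp (2 * π * (k + 1)) := by
  rw [exp_succ_eq]
  have h := exp_lo
  calc (2 : ℝ) ≤ Real.exp (2 * π) ^ 1 := by linarith
    _ ≤ Real.exp (2 * π) ^ (k + 1) := pow_le_pow_right₀ (by linarith) (by omega)

theorem uu_pos (k : ℕ) : 0 < uu k := by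
  have := two_le_exp k
  unfold uu
  exact inv_pos.2 (by linarith)

theorem uu_le (k : ℕ) : uu k ≤ 2 * Real.exp (-(2 * π * (k + 1))) := by
  have h := two_le_exp k
  unfold uu
  rw [Real.exp_neg, ← div_eq_mul_inv, inv_eq_one_div, div_le_div_iff₀ (by linarith) (by linarith)]
  linarith

theorem uu_mul (k : ℕ) : uu k * (Real.exp (2 * π * (k + 1)) - 1) = 1 := by
  have h := two_le_exp k
  unfold uu
  exact inv_mul_cancel₀ (by linarith)

/-- The terms of the series. -/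
def aa (k : ℕ) : ℝ := ((k : ℝ) + 1) / (Real.exp (2 * π * (k + 1)) - 1)

theorem aa_eq (k : ℕ) : aa k = ((k : ℝ) + 1) * uu k := by
  unfold aa uu; rw [div_eq_mul_inv]

theorem aa_nonneg (k : ℕ) : 0 ≤ aa k := by
  rw [aa_eq]; have := uu_pos k; positivity

theorem aa_le (k : ℕ) : aa k ≤ 2 * (1 / 267 : ℝ) ^ (k + 1) := by
  rw [aa_eq]
  have h1 : ((k : ℝ) + 1) ≤ 2 ^ (k + 1) := by
    have : k + 1 ≤ 2 ^ (k + 1) := (Nat.lt_two_pow_self).le
    exact_mod_cast this
  have h2 : Real.exp (-(2 * π * (k + 1))) ≤ (1 / 534 : ℝ) ^ (k + 1) := by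
    rw [Real.exp_neg, exp_succ_eq, ← inv_pow]
    refine pow_le_pow_left₀ (by positivity) ?_ _
    rw [inv_eq_one_div]
    exact one_div_le_one_div_of_le (by norm_num) (by have := exp_lo; linarith)
  have h3 := uu_le k
  calc ((k : ℝ) + 1) * uu k ≤ 2 ^ (k + 1) * (2 * (1 / 534 : ℝ) ^ (k + 1)) :=
        mul_le_mul h1 (by linarith) (uu_pos k).le (by positivity)
    _ = 2 * ((2 : ℝ) * (1 / 534)) ^ (k + 1) := by rw [mul_pow]; ring
    _ = 2 * (1 / 267 : ℝ) ^ (k + 1) := by norm_num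

theorem aa_summable : Summable aa := by
  refine Summable.of_nonneg_of_le aa_nonneg aa_le ?_
  refine Summable.mul_left 2 ?_
  exact (summable_nat_add_iff 1).2 (summable_geometric_of_lt_one (by norm_num) (by norm_num))

theorem aa_even_summable : Summable (fun j => aa (2 * j)) :=
  aa_summable.comp_injective (fun a b h => by simpa using h)

theorem eE_eq : eE = 2 * π ^ 2 / 3 + 16 * π ^ 2 * ∑' j : ℕ, aa (2 * j) := by
  unfold eE aa
  congr 2
  refine tsum_congr fun j => ?_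
  push_cast
  rfl

theorem tail_le : ∑' j : ℕ, aa (2 * (j + 1)) ≤ 1 / 1000000 := by
  have hs : HasSum (fun j : ℕ => (1 / 2000000 : ℝ) * (1 / 2) ^ j) (1 / 2000000 * 2) :=
    hasSum_geometric_two.mul_left _
  have h1 : ∀ j : ℕ, aa (2 * (j + 1)) ≤ (1 / 2000000 : ℝ) * (1 / 2) ^ j := by
    intro j
    refine (aa_le _).trans ?_
    have : (1 / 267 : ℝ) ^ (2 * (j + 1) + 1) = (1 / 267) ^ 3 * ((1 / 267) ^ 2) ^ j := by
      rw [← pow_mul, ← pow_add]; congr 1; ring
    rw [this]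
    have h2 : (((1 / 267 : ℝ)) ^ 2) ^ j ≤ (1 / 2) ^ j :=
      pow_le_pow_left₀ (by positivity) (by norm_num) j
    have h3 : (0 : ℝ) ≤ (1 / 2) ^ j := by positivity
    nlinarith
  have := ((summable_nat_add_iff 1).2 aa_even_summable).tsum_le_tsum h1 hs.summable
  rw [hs.tsum_eq] at this
  linarith

theorem eE_bounds : 6875 / 1000 ≤ eE ∧ eE ≤ 6876 / 1000 := by
  rw [eE_eq, aa_even_summable.tsum_eq_zero_add]
  have h0 : 0 ≤ ∑' j : ℕ, aa (2 * (j + 1)) := tsum_nonneg fun j => aa_nonneg _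
  have h1 := tail_le
  have ha : aa (2 * 0) = 1 / (Real.exp (2 * π) - 1) := by simp [aa]
  have hl := exp_lo
  have hh := exp_hi
  have ha1 : 1 / 534.6 ≤ aa (2 * 0) := by
    rw [ha]; exact one_div_le_one_div_of_le (by linarith) (by linarith)
  have ha2 : aa (2 * 0) ≤ 1 / 533.5 := by
    rw [ha]; exact one_div_le_one_div_of_le (by linarith) (by linarith)
  have hp1 : (9.8696 : ℝ) ≤ π ^ 2 := by have := Real.pi_gt_d6; nlinarith
  have hp2 : π ^ 2 ≤ (9.86961 : ℝ) := by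
    have := Real.pi_lt_d6; have := Real.pi_pos; nlinarith
  set s := aa (2 * 0) + ∑' j : ℕ, aa (2 * (j + 1)) with hs
  have hs1 : 1 / 534.6 ≤ s := by linarith
  have hs2 : s ≤ 1 / 533.5 + 1 / 1000000 := by linarith
  have e : 2 * π ^ 2 / 3 + 16 * π ^ 2 * s = π ^ 2 * (2 / 3 + 16 * s) := by ring
  rw [e]
  constructor
  · calc (6875 / 1000 : ℝ) ≤ 9.8696 * (2 / 3 + 16 * (1 / 534.6)) := by norm_num
      _ ≤ π ^ 2 * (2 / 3 + 16 * s) := mul_le_mul hp1 (by linarith) (by norm_num) (by positivity)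
  · calc π ^ 2 * (2 / 3 + 16 * s) ≤ 9.86961 * (2 / 3 + 16 * (1 / 533.5 + 1 / 1000000)) :=
        mul_le_mul hp2 (by linarith) (by linarith) (by norm_num)
      _ ≤ 6876 / 1000 := by norm_num

/-- The alternating series. -/
theorem alt_hasSum : HasSum (fun k : ℕ => (1 + (-1) ^ k) * aa k) (2 * ∑' j : ℕ, aa (2 * j)) := by
  have h1 : HasSum (fun j : ℕ => (1 + (-1) ^ (2 * j)) * aa (2 * j)) (2 * ∑' j : ℕ, aa (2 * j)) := by
    have e : (fun j : ℕ => (1 + (-1) ^ (2 * j)) * aa (2 * j)) = fun j => 2 * aa (2 * j) := by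
      funext j; rw [pow_mul]; norm_num
    rw [e]
    exact aa_even_summable.hasSum.mul_left 2
  have h2 : HasSum (fun j : ℕ => (1 + (-1) ^ (2 * j + 1)) * aa (2 * j + 1)) 0 := by
    have e : (fun j : ℕ => (1 + (-1) ^ (2 * j + 1)) * aa (2 * j + 1)) = fun _ => 0 := by
      funext j; rw [pow_succ, pow_mul]; norm_num
    rw [e]
    exact hasSum_zero
  simpa using HasSum.even_add_odd (f := fun k : ℕ => (1 + (-1) ^ k) * aa k) h1 h2

end Pool.Agent.P.MP_cc4a10_gt.Ex0P
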