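import Pool.Agent.P.MP_cc4a10_gt.Ex0A

/-!
The explicit series on the strip, for the package Ex0.
-/

open Set Filter Topology Complex Metric
open scoped ComplexConjugate Real

noncomputable section

namespace Pool.Agent.P.MP_cc4a10_gt.Ex0P

/-- One term of the series. -/
def TT (k : ℕ) (z : ℂ) : ℂ :=
  (exp (2 * π * I * (k + 1) * z) - exp (-(2 * π * I * (k + 1) * z))) * (uu k : ℂ)
/-- The series. -/
def SS (z : ℂ) : ℂ := ∑' k, TT k z
/-- The explicit function. -/
def GG (z : ℂ) : ℂ := π * cot (π * z) - 2 * π * I * SS z + π * z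

theorem re_arg (k : ℕ) (z : ℂ) : (2 * π * I * (k + 1) * z).re = -(2 * π * (k + 1) * z.im) := by
  have : (2 * π * I * (k + 1) * z : ℂ) = ((2 * π * (k + 1) : ℝ) : ℂ) * (I * z) := by
    push_cast; ring
  rw [this, re_ofReal_mul]
  simp

theorem norm_TT (k : ℕ) {r : ℝ} {z : ℂ} (hz : |z.im| < r) :
    ‖TT k z‖ ≤ 4 * Real.exp (-(2 * π * (1 - r))) ^ (k + 1) := by
  have hk : (0 : ℝ) < 2 * π * (k + 1) := by have := Real.pi_pos; positivity
  obtain ⟨h1, h2⟩ := abs_lt.1 hz
  have e1 : ‖exp (2 * π * I * (k + 1) * z)‖ ≤ Real.exp (2 * π * (k + 1) * r) := by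
    rw [norm_exp, re_arg]
    exact Real.exp_le_exp.2 (by nlinarith)
  have e2 : ‖exp (-(2 * π * I * (k + 1) * z))‖ ≤ Real.exp (2 * π * (k + 1) * r) := by
    rw [norm_exp, neg_re, re_arg]
    exact Real.exp_le_exp.2 (by nlinarith)
  have e3 : Real.exp (-(2 * π * (1 - r))) ^ (k + 1)
      = Real.exp (2 * π * (k + 1) * r) * Real.exp (-(2 * π * (k + 1))) := by
    rw [← Real.exp_nat_mul, ← Real.exp_add]; push_cast; ring_nf
  unfold TT
  rw [norm_mul, norm_real, Real.norm_of_nonneg (uu_pos k).le, e3]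
  have e4 := norm_sub_le (exp (2 * π * I * (k + 1) * z)) (exp (-(2 * π * I * (k + 1) * z)))
  calc _ ≤ (2 * Real.exp (2 * π * (k + 1) * r)) * (2 * Real.exp (-(2 * π * (k + 1)))) :=
        mul_le_mul (by linarith) (uu_le k) (uu_pos k).le (by positivity)
    _ = _ := by ring

theorem sum_bd {r : ℝ} (hr : r < 1) :
    Summable (fun k : ℕ => 4 * Real.exp (-(2 * π * (1 - r))) ^ (k + 1)) := by
  refine Summable.mul_left 4 ((summable_nat_add_iff 1).2 (summable_geometric_of_lt_one
    (Real.exp_pos _).le ?_))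
  have := Real.pi_pos
  exact Real.exp_lt_one_iff.2 (by nlinarith)

theorem hasDerivAt_TT (k : ℕ) (z : ℂ) : HasDerivAt (TT k)
    (2 * π * I * (k + 1) * (exp (2 * π * I * (k + 1) * z) + exp (-(2 * π * I * (k + 1) * z)))
      * (uu k : ℂ)) z := by
  have h1 : HasDerivAt (fun w : ℂ => 2 * π * I * (k + 1) * w) (2 * π * I * (k + 1)) z := by
    simpa using (hasDerivAt_id z).const_mul (2 * π * I * (k + 1) : ℂ)
  have h2 := (h1.cexp.sub h1.neg.cexp).mul_const (uu k : ℂ)
  refine (h2.congr_deriv ?_)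
  simp only [Pi.neg_apply]
  ring

theorem isOpen_strip (r : ℝ) : IsOpen {z : ℂ | |z.im| < r} :=
  isOpen_lt (continuous_abs.comp continuous_im) continuous_const

theorem summable_TT {z : ℂ} (hz : |z.im| < 1) : Summable (fun k => TT k z) := by
  obtain ⟨r, h1, h2⟩ := exists_between hz
  exact Summable.of_norm_bounded (sum_bd h2) (fun k => norm_TT k h1)

theorem diffOn_SS {r : ℝ} (hr : r < 1) : DifferentiableOn ℂ SS {z : ℂ | |z.im| < r} :=
  differentiableOn_tsum_of_summable_norm (sum_bd hr)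
    (fun k z _ => (hasDerivAt_TT k z).differentiableAt.differentiableWithinAt) (isOpen_strip r)
    (fun k _ hw => norm_TT k hw)

theorem diffAt_SS {z : ℂ} (hz : |z.im| < 1) : DifferentiableAt ℂ SS z := by
  obtain ⟨r, h1, h2⟩ := exists_between hz
  exact (diffOn_SS h2).differentiableAt ((isOpen_strip r).mem_nhds h1)

theorem hasSum_deriv_SS {z : ℂ} (hz : |z.im| < 1) : HasSum (fun k : ℕ =>
    (2 * π * I * (k + 1) * (exp (2 * π * I * (k + 1) * z) + exp (-(2 * π * I * (k + 1) * z)))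
      * (uu k : ℂ))) (deriv SS z) := by
  obtain ⟨r, h1, h2⟩ := exists_between hz
  have := hasSum_deriv_of_summable_norm (F := TT) (sum_bd h2)
    (fun k z _ => (hasDerivAt_TT k z).differentiableAt.differentiableWithinAt) (isOpen_strip r)
    (fun k _ hw => norm_TT k hw) h1
  simp only [(hasDerivAt_TT _ z).deriv] at this
  exact this

theorem cont_deriv_SS : ContinuousAt (deriv SS) 0 := by
  have h := ((diffOn_SS (r := 1 / 2) (by norm_num)).deriv (isOpen_strip _)).differentiableAt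
    ((isOpen_strip _).mem_nhds (show (0 : ℂ) ∈ {z : ℂ | |z.im| < 1 / 2} by simp))
  exact h.continuousAt

theorem deriv_SS_zero : -(2 * π * I) * deriv SS 0 = ((8 * π ^ 2 * ∑' k, aa k : ℝ) : ℂ) := by
  have h1 := (hasSum_deriv_SS (z := 0) (by simp)).mul_left (-(2 * π * I))
  have h2 := hasSum_ofReal.2 (aa_summable.hasSum.mul_left (8 * π ^ 2))
  refine h1.unique ?_
  have e : (fun k : ℕ => -(2 * π * I) * (2 * π * I * (k + 1) *
      (exp (2 * π * I * (k + 1) * 0) + exp (-(2 * π * I * (k + 1) * 0))) * (uu k : ℂ)))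
      = fun k => ((8 * π ^ 2 * aa k : ℝ) : ℂ) := by
    funext k
    rw [aa_eq]
    simp only [mul_zero, neg_zero, exp_zero]
    push_cast
    linear_combination (-(8 * π ^ 2 * (k + 1) * uu k) : ℂ) * I_mul_I
  rw [e]
  exact h2

theorem deriv_SS_half : -(2 * π * I) * deriv SS (1 / 2)
    = ((8 * π ^ 2 * (∑' k, aa k) - 16 * π ^ 2 * ∑' j, aa (2 * j) : ℝ) : ℂ) := by
  have h1 := (hasSum_deriv_SS (z := 1 / 2) (by simp)).mul_left (-(2 * π * I))
  have h2 := hasSum_ofReal.2 ((aa_summable.hasSum.sub alt_hasSum).mul_left (8 * π ^ 2))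
  refine h1.unique ?_
  have e : (fun k : ℕ => -(2 * π * I) * (2 * π * I * (k + 1) *
      (exp (2 * π * I * (k + 1) * (1 / 2)) + exp (-(2 * π * I * (k + 1) * (1 / 2))))
        * (uu k : ℂ)))
      = fun k => ((8 * π ^ 2 * (aa k - (1 + (-1) ^ k) * aa k) : ℝ) : ℂ) := by
    funext k
    have e1 : exp (2 * π * I * (k + 1) * (1 / 2)) = (-1) ^ (k + 1) := by
      rw [← exp_pi_mul_I, ← exp_nat_mul]; push_cast; ring_nf
    have e2 : exp (-(2 * π * I * (k + 1) * (1 / 2))) = (-1) ^ (k + 1) := by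
      rw [exp_neg, e1, ← inv_pow]; norm_num
    rw [aa_eq, e1, e2]
    push_cast
    linear_combination (-(8 * π ^ 2 * (k + 1) * uu k * (-1) ^ (k + 1)) : ℂ) * I_mul_I
  rw [e]
  have e' : 8 * π ^ 2 * (∑' k, aa k) - 16 * π ^ 2 * ∑' j, aa (2 * j)
      = 8 * π ^ 2 * (∑' k, aa k - 2 * ∑' j, aa (2 * j)) := by ring
  rw [e']
  exact h2

theorem SS_add_one (z : ℂ) : SS (z + 1) = SS z := by
  unfold SS TT
  refine tsum_congr fun k => ?_
  have e : exp (2 * π * I * (k + 1) * (z + 1)) = exp (2 * π * I * (k + 1) * z) := by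
    have : (2 * π * I * (k + 1) * (z + 1) : ℂ)
        = 2 * π * I * (k + 1) * z + ((k + 1 : ℕ) : ℂ) * (2 * π * I) := by push_cast; ring
    rw [this, exp_add, exp_nat_mul_two_pi_mul_I, mul_one]
  rw [exp_neg, exp_neg, e]

theorem GG_add_one (z : ℂ) : GG (z + 1) = GG z + π := by
  unfold GG
  have e : exp (2 * π * I * (z + 1)) = exp (2 * π * I * z) := by
    rw [mul_add, mul_one, exp_add, exp_two_pi_mul_I, mul_one]
  rw [SS_add_one, cot_pi_eq_exp_ratio, cot_pi_eq_exp_ratio, e]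
  ring

theorem TT_add_I (k : ℕ) (z : ℂ) : TT k (z + I) - TT k z
    = -(exp (2 * π * I * (z + I)) ^ (k + 1) + (exp (2 * π * I * z))⁻¹ ^ (k + 1)) := by
  have hu : (uu k : ℂ) * (exp (2 * π * (k + 1)) - 1) = 1 := by
    have := congrArg (fun x : ℝ => (x : ℂ)) (uu_mul k)
    push_cast at this
    exact this
  set a := exp (2 * π * I * (k + 1) * z) with ha
  set Q := exp (2 * π * (k + 1) : ℂ) with hQ
  have ha0 : a ≠ 0 := exp_ne_zero _
  have hQ0 : Q ≠ 0 := exp_ne_zero _
  have e1 : exp (2 * π * I * (k + 1) * (z + I)) = a / Q := by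
    rw [ha, hQ, ← exp_sub]
    congr 1
    linear_combination (2 * π * (k + 1) : ℂ) * I_mul_I
  have e2 : exp (2 * π * I * (z + I)) ^ (k + 1) = a / Q := by
    rw [← e1, ← exp_nat_mul]; push_cast; ring_nf
  have e3 : (exp (2 * π * I * z))⁻¹ ^ (k + 1) = a⁻¹ := by
    rw [inv_pow, ← exp_nat_mul, ha]; push_cast; ring_nf
  unfold TT
  rw [e2, e3, exp_neg, exp_neg, e1, ← ha]
  field_simp
  linear_combination (-(a ^ 2 + Q)) * hu

theorem hasSum_geom {q : ℂ} (hq : ‖q‖ < 1) : HasSum (fun k : ℕ => q ^ (k + 1)) (q / (1 - q)) := by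
  have := (hasSum_geometric_of_norm_lt_one hq).mul_left q
  simp only [← pow_succ'] at this
  exact this

theorem GG_add_I {z : ℂ} (h1 : -1 < z.im) (h2 : z.im < 0) : GG (z + I) = GG z - π * I := by
  have hp := Real.pi_pos
  have n1 : ‖exp (2 * π * I * (z + I))‖ < 1 := by
    have := re_arg 0 (z + I)
    simp only [Nat.cast_zero, zero_add, mul_one, add_im, I_im] at this
    rw [norm_exp, this]
    exact Real.exp_lt_one_iff.2 (by nlinarith)
  have n2 : ‖(exp (2 * π * I * z))⁻¹‖ < 1 := by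
    have := re_arg 0 z
    simp only [Nat.cast_zero, zero_add, mul_one] at this
    rw [← exp_neg, norm_exp, neg_re, this]
    exact Real.exp_lt_one_iff.2 (by nlinarith)
  have s1 : Summable (fun k => TT k (z + I)) :=
    summable_TT (by rw [add_im, I_im, abs_lt]; constructor <;> linarith)
  have s2 : Summable (fun k => TT k z) := summable_TT (by rw [abs_lt]; constructor <;> linarith)
  have s3 := s1.hasSum.sub s2.hasSum
  simp only [TT_add_I] at s3
  have s4 := s3.unique ((hasSum_geom n1).add (hasSum_geom n2)).neg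
  unfold GG SS
  rw [cot_pi_eq_exp_ratio, cot_pi_eq_exp_ratio]
  set b := exp (2 * π * I * (z + I)) with hb
  set a := exp (2 * π * I * z) with ha
  have ha0 : a ≠ 0 := exp_ne_zero _
  have hb1 : 1 - b ≠ 0 := by
    intro h
    have : b = 1 := by linear_combination -h
    rw [this] at n1; simp at n1
  have ha1 : 1 - a ≠ 0 := by
    intro h
    have : a = 1 := by linear_combination -h
    rw [this] at n2; simp at n2
  have ha2 : a⁻¹ / (1 - a⁻¹) = -(1 - a)⁻¹ := by
    have : a - 1 ≠ 0 := fun h => ha1 (by linear_combination -h)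
    field_simp
    ring
  have c1 : (b + 1) / (I * (1 - b)) = -I * (1 + 2 * (b / (1 - b))) := by
    field_simp
    linear_combination (b + 1) * I_mul_I
  have c2 : (a + 1) / (I * (1 - a)) = -I * (-1 + 2 * (1 - a)⁻¹) := by
    field_simp
    linear_combination (a + 1) * I_mul_I
  rw [ha2] at s4
  rw [c1, c2]
  linear_combination (-(2 * π * I)) * s4

theorem hasDerivAt_cot {z : ℂ} (hz : sin (π * z) ≠ 0) :
    HasDerivAt (fun w : ℂ => π * cot (π * w)) (-(π ^ 2 / sin (π * z) ^ 2)) z := by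
  have h1 : HasDerivAt (fun w : ℂ => π * w) π z := by
    simpa using (hasDerivAt_id z).const_mul (π : ℂ)
  have h2 := (h1.ccos.div h1.csin hz).const_mul (π : ℂ)
  refine (h2.congr_deriv ?_)
  field_simp
  linear_combination (-1 : ℂ) * sin_sq_add_cos_sq (π * z)

theorem sin_ne {z : ℂ} (hz : NL z) : sin (π * z) ≠ 0 := by
  rw [Ne, sin_eq_zero_iff]
  rintro ⟨k, hk⟩
  have hp : (π : ℂ) ≠ 0 := ofReal_ne_zero.2 Real.pi_ne_zero
  refine hz (k : GI) ?_
  have : z = k := by
    apply mul_left_cancel₀ hp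
    rw [hk, mul_comm]
  simpa using this

theorem hasDerivAt_GG {z : ℂ} (hz : NL z) (h : |z.im| < 1) :
    HasDerivAt GG (-(π ^ 2 / sin (π * z) ^ 2) + -(2 * π * I) * deriv SS z + π) z := by
  have h1 : HasDerivAt (fun w : ℂ => π * w) π z := by
    simpa using (hasDerivAt_id z).const_mul (π : ℂ)
  have h2 := ((hasDerivAt_cot (sin_ne hz)).sub
    ((diffAt_SS h).hasDerivAt.const_mul (2 * π * I : ℂ))).add h1
  refine (h2.congr_deriv ?_)
  ring

end Pool.Agent.P.MP_cc4a10_gt.Ex0P
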