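import Pool.Agent.P.MP_cc4a10_gt.FT2

/-!
Fourier form of a transition level.
-/

open Set Filter Topology Complex
open scoped ComplexConjugate Real

noncomputable section

namespace Pool.Agent.P.MP_cc4a10_gt

namespace FTP

theorem Dg_eq (n : ℕ) : (Dg n : ℂ) = ((2 : ℂ) ^ n)⁻¹ * (1 - n * (Real.log 2 : ℝ)) := by
  rw [Dg, Real.log_inv, Real.log_pow]; push_cast; ring

theorem oo_true : oo true = hf := rfl

theorem coarse_pt (j : ℕ) (w : GI) :
    al ^ j * (hf + w) = al ^ (j + 1) * (hf + (hf + ((star om * w - gi : GI) : ℂ))) := by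
  rw [map_sub, map_mul, coe_som, coe_gi, pow_succ, mul_assoc]; congr 1
  have ha : al = hf := rfl
  have hh : hf = (1 + I) / 2 := rfl
  linear_combination (-(w : ℂ)) * al_som - ha - 2 * al * hh

def Fa (E : Ell) (v : Vec) (k k' : ℤ) (n n' : ℕ) (P : ℂ) : ℂ :=
  Cv n hf E.wp (v.1 k) P - Cv n' hf E.wp (v.1 k') P
    + (Cv n hf (E.Z 0) (fun z => v.2 k z) P - Cv n' hf (E.Z 0) (fun z => v.2 k' z) P)
def Fb (E : Ell) (v : Vec) (k k' : ℤ) (n n' : ℕ) (P : ℂ) : ℂ :=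
  Cv n hf (fun z => conj (E.wp z)) (fun z => conj (v.1 k z)) P
    - Cv n' hf (fun z => conj (E.wp z)) (fun z => conj (v.1 k' z)) P
    + (Cv n hf (fun z => conj (E.Z 0 z)) (fun z => v.2 k z) P
      - Cv n' hf (fun z => conj (E.Z 0 z)) (fun z => v.2 k' z) P)
def Ga (E : Ell) (v : Vec) (k k' : ℤ) (n n' : ℕ) (P : ℂ) : ℂ :=
  (-1 / 2) * (Cv n hf (E.Z 0) (v.1 k) P
      + Cv n hf (fun z => conj (E.Z 0 z)) (fun z => conj (v.1 k z)) P)
    + Cv n hf (fun z => E.Gr 0 z) (fun z => v.2 k z) P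
    - ((-1 / 2) * (Cv n' hf (E.Z 0) (v.1 k') P
      + Cv n' hf (fun z => conj (E.Z 0 z)) (fun z => conj (v.1 k' z)) P)
    + Cv n' hf (fun z => E.Gr 0 z) (fun z => v.2 k' z) P)
    + Dg n * v.2 k P

theorem conj_Fa (E : Ell) (v : Vec) (k k' : ℤ) (n n' : ℕ) (P : ℂ) :
    conj (Fa E v k k' n n' P) = Fb E v k k' n n' P := by
  simp only [Fa, Fb, map_add, map_sub, conj_Cv, conj_ofReal]

section
variable (hT : S_Tor0) (hK : S_Ker0) (hB : S_Box) (E : Ell) {S : Sys} {v : Vec} (h : Adm S v)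
  {c f : ℤ} {j : ℕ} (hc : S.st c = j) (hf1 : S.st f = j + 1) (hc' : S.hh c = true)
  (hf' : S.hh f = true)

include hK in
theorem ker : E.wp 0 = 0 ∧ (∀ z, E.wp (-z) = E.wp z) ∧ (∀ z, E.Z 0 (-z) = -E.Z 0 z) := by
  obtain ⟨C, -, h⟩ := hK E
  obtain ⟨-, -, -, -, h5, -, -, h8, h9, -⟩ := h 0 (by simp)
  exact ⟨h8, fun z => (h9 z).1, fun z => (h5 z).1⟩

include hK in
theorem Z_one (n : ℕ) (y : ℂ) (g : GI) (e : (y - hf) + (y - hf) = g) :
    Cv n hf (E.Z 0) (fun _ => 1) (al ^ n * y) = 0 := by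
  rw [Cv_one _ _ (pc_Z E)]; exact A_odd (pc_Z E) (ker hK E).2.2 g e

include hT hK h hc hf1 hc' hf' in
theorem FF_c (w : GI) :
    FF E S v c f (al ^ j * (hf + w)) = Fa E v c f j (j + 1) (al ^ j * (hf + w)) := by
  have h1 : Cv j hf E.wp (fun _ => 1) (al ^ j * (hf + w)) = 0 := by
    rw [Cv_wp hT, add_sub_cancel_left, ← zero_add (w : ℂ), E.Wper, (ker hK E).1, mul_zero]
  have h2 : Cv (j + 1) hf E.wp (fun _ => 1) (al ^ j * (hf + w)) = 0 := by
    rw [coarse_pt, Cv_wp hT, add_sub_cancel_left, E.Wper, (hT E).2.2.1, mul_zero]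
  rw [FF, Rk_eq E h, Rk_eq E h, hc, hf1, hc', hf', oo_true, h1, h2, Fa]; ring

include hT hK h hc hf1 hc' hf' in
theorem FF_f (w : GI) : FF E S v f c (al ^ (j + 1) * (hf + w)) =
    Fa E v f c (j + 1) j (al ^ (j + 1) * (hf + w))
    + ((2 : ℂ) ^ j)⁻¹ * (al ^ j)⁻¹ ^ 2 * ee E *
      (chi (om ^ j) (al ^ (j + 1) * (hf + w)) * v.1 f (al ^ (j + 1) * (hf + w))) := by
  have h1 : Cv (j + 1) hf E.wp (fun _ => 1) (al ^ (j + 1) * (hf + w)) = 0 := by
    rw [Cv_wp hT, add_sub_cancel_left, ← zero_add (w : ℂ), E.Wper, (ker hK E).1, mul_zero]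
  have h2 : Cv j hf E.wp (fun _ => 1) (al ^ (j + 1) * (hf + w)) = ((2 : ℂ) ^ j)⁻¹ *
      (al ^ j)⁻¹ ^ 2 * (ee E * chi (om ^ j) (al ^ (j + 1) * (hf + w))) := by
    rcases fine_cases j w with ⟨x, h3, h4⟩ | ⟨x, h3, h4⟩
    · rw [h4, pow_succ al, mul_assoc, Cv_wp hT, h3, E.Wper, (hT E).1, mul_one]
    · rw [h4, pow_succ al, mul_assoc, Cv_wp hT, h3, E.Wper, (hT E).2.1, mul_neg_one]
  rw [FF, Rk_eq E h, Rk_eq E h, hc, hf1, hc', hf', oo_true, h1, h2, Fa]; ring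

include hK hc hf1 hc' hf' in
theorem GG_c (w : GI) :
    GG E S v c f (al ^ j * (hf + w)) = Ga E v c f j (j + 1) (al ^ j * (hf + w)) := by
  rw [GG, Gk_eq, Gk_eq, hc, hf1, hc', hf', oo_true, Ga]
  · rw [hf1, hf', oo_true, coarse_pt]
    exact Z_one hK E _ _ (om + 2 * (star om * w - gi))
      (by rw [map_add, ← hf_add, map_mul, map_ofNat]; ring)
  · rw [hc, hc', oo_true]
    exact Z_one hK E _ _ (2 * w) (by rw [map_mul, map_ofNat]; ring)

include hK hc hf1 hc' hf' in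
theorem GG_f (w : GI) : GG E S v f c (al ^ (j + 1) * (hf + w)) =
    Ga E v f c (j + 1) j (al ^ (j + 1) * (hf + w)) := by
  rw [GG, Gk_eq, Gk_eq, hc, hf1, hc', hf', oo_true, Ga]
  · rw [hc, hc', oo_true, pow_succ al, mul_assoc]
    rcases fine_cases j w with ⟨x, h3, -⟩ | ⟨x, h3, -⟩
    · exact Z_one hK E _ _ (1 + 2 * x) (by rw [h3, map_add, map_one, map_mul, map_ofNat]; ring)
    · exact Z_one hK E _ _ (gi + 2 * x) (by rw [h3, map_add, coe_gi, map_mul, map_ofNat]; ring)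
  · rw [hf1, hf', oo_true]
    exact Z_one hK E _ _ (2 * w) (by rw [map_mul, map_ofNat]; ring)

include hK in
theorem H_cwp (n : ℕ) (κ : GI) :
    H n 0 (fun z => conj (E.wp z)) κ = conj (H n 0 E.wp κ) ∧
    H n hf (fun z => conj (E.wp z)) κ = conj (H n hf E.wp κ) ∧
    H n 0 (fun z => conj (E.Z 0 z)) κ = -conj (H n 0 (E.Z 0) κ) ∧
    H n hf (fun z => conj (E.Z 0 z)) κ = -conj (H n hf (E.Z 0) κ) := by
  obtain ⟨-, h1, h2⟩ := ker hK E
  refine ⟨?_, ?_, ?_, ?_⟩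
  · rw [H_conj (pc_wp E) 1 (fun z => by rw [h1, one_mul]) 0 (by simp), one_mul]
  · rw [H_conj (pc_wp E) 1 (fun z => by rw [h1, one_mul]) om hf_add, one_mul]
  · rw [H_conj (pc_Z E) (-1) (fun z => by rw [h2, map_neg, neg_one_mul]) 0 (by simp), neg_one_mul]
  · rw [H_conj (pc_Z E) (-1) (fun z => by rw [h2, map_neg, neg_one_mul]) om hf_add, neg_one_mul]

theorem hat_eq (J : ℕ) (k : ℤ) (κ : GI) : hat S J v k κ =
    ⟨H (S.st k) (oo (S.hh k)) (v.1 k) κ / al ^ J,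
      H (S.st k) (oo (S.hh k)) (fun z => conj (v.1 k z)) κ / conj al ^ J,
      H (S.st k) (oo (S.hh k)) (fun z => v.2 k z) κ⟩ := rfl

include hT hK hB h hc hf1 hc' hf' in
theorem mode (κ : GI) (A' B' C' : T3) :
    tp A' (al ^ j * H j hf (FF E S v c f) κ)
      (conj al ^ j * H j hf (fun z => conj (FF E S v c f z)) κ) (H j hf (GG E S v c f) κ)
    + (tp B' (al ^ j * H (j + 1) hf (FF E S v f c) κ)
      (conj al ^ j * H (j + 1) hf (fun z => conj (FF E S v f c z)) κ)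
      (H (j + 1) hf (GG E S v f c) κ)
    + tp C' (al ^ j * H (j + 1) hf (FF E S v f c) (κ + om ^ j))
      (conj al ^ j * H (j + 1) hf (fun z => conj (FF E S v f c z)) (κ + om ^ j))
      (H (j + 1) hf (GG E S v f c) (κ + om ^ j)))
    = ((2 : ℂ) ^ j)⁻¹ * bT (ee E) (LL j) (LL (j + 1)) (syT E j κ) (syT E (j + 1) κ)
      (syT E (j + 1) (κ + om ^ j)) (hat S j v c κ) (hat S j v f κ) (hat S j v f (κ + om ^ j))
      A' B' C' := by
  have e1 := fun κ => H_congr (G := Fa E v c f j (j + 1)) (FF_c hT hK E h hc hf1 hc' hf') κ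
  have e2 := fun κ => H_congr (F := fun z => conj (FF E S v c f z)) (G := Fb E v c f j (j + 1))
    (fun w => by rw [FF_c hT hK E h hc hf1 hc' hf' w, conj_Fa]) κ
  have e3 := fun κ => H_congr (G := Ga E v c f j (j + 1)) (GG_c hK E hc hf1 hc' hf') κ
  have e4 := fun κ => H_congr (G := fun P => Fa E v f c (j + 1) j P
    + ((2 : ℂ) ^ j)⁻¹ * (al ^ j)⁻¹ ^ 2 * ee E * (chi (om ^ j) P * v.1 f P))
    (FF_f hT hK E h hc hf1 hc' hf') κ
  have e5 := fun κ => H_congr (F := fun z => conj (FF E S v f c z))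
    (G := fun P => Fb E v f c (j + 1) j P
      + conj (((2 : ℂ) ^ j)⁻¹ * (al ^ j)⁻¹ ^ 2 * ee E) * (chi (om ^ j) P * conj (v.1 f P)))
    (fun w => by
      rw [FF_f hT hK E h hc hf1 hc' hf' w, map_add, conj_Fa, map_mul _ _ (_ * _),
        map_mul _ (chi _ _)]
      rcases fine_cases j w with ⟨-, -, h4⟩ | ⟨-, -, h4⟩ <;> simp only [h4, map_one, map_neg]) κ
  have e6 := fun κ => H_congr (G := Ga E v f c (j + 1) j) (GG_f hK E hc hf1 hc' hf') κ
  have p1 := pc_wp E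
  have p2 := pc_Z E
  have p3 := pc_G E
  have p4 := pc_d h c
  have p5 := pc_s h c
  rw [e1, e2, e3, e4, e4, e5, e5, e6, e6]
  unfold Fa Fb Ga
  simp only [H_add, H_sub, H_mul, (H_nu_f j _ κ).1, (H_nu_f j _ κ).2, H_same _ p1, H_same _ p2,
    H_same _ p3, H_same _ p1.conj, H_same _ p2.conj, H_cf hB j p1, H_cf hB j p2, H_cf hB j p3,
    H_cf hB j p1.conj, H_cf hB j p2.conj, H_fc hB j p1 p4, H_fc hB j p2 p4, H_fc hB j p2 p5,
    H_fc hB j p3 p5, H_fc hB j p1.conj p4.conj, H_fc hB j p2.conj p4.conj,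
    H_fc hB j p2.conj p5, H_nu_c, (H_cwp hK E _ _).1, (H_cwp hK E _ _).2.1,
    (H_cwp hK E _ _).2.2.1, (H_cwp hK E _ _).2.2.2, H_wp', H_Z', H_G']
  simp only [H_wp, H_Z, H_G, hat_eq, hc, hf1, hc', hf', oo_true, bT, tp, syT, LL, Dg_eq, map_mul,
    map_neg, map_pow, map_inv₀, conj_ofNat, conj_ofReal, conj_I]
  have h1 := pow_ne_zero j al_ne
  have h2 : conj al ^ j ≠ 0 := pow_ne_zero j ((map_ne_zero _).2 al_ne)
  generalize al ^ j = α at h1 ⊢
  generalize conj al ^ j = β at h2 ⊢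
  push_cast
  field_simp
  ring

end

end FTP

open FTP in
theorem pFT (hP : S_Par) (hT : S_Tor0) (hK : S_Ker0) (hC : S_Char) (hB : S_Box) : S_FT := by
  intro E S K c f j R v a hS hk hc hf1 hR hR2 h
  have h1 := hS (K - 1)
  rw [sub_add_cancel] at h1
  have h2 : S.hh (K - 1) = true ∧ S.hh K = true := by
    rcases h1 with h1 | h1
    · rcases hk with ⟨rfl, rfl⟩ | ⟨rfl, rfl⟩ <;> omega
    · exact h1.2
  have h3 : S.hh c = true ∧ S.hh f = true ∧ BT E S v (syn S j R a) K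
      = (TT E S v j (R c) (a c) c f).re + (TT E S v j (R f) (a f) f c).re := by
    rw [BT_eq hP E hS h]
    rcases hk with ⟨rfl, rfl⟩ | ⟨rfl, rfl⟩
    exacts [⟨h2.1, h2.2, rfl⟩, ⟨h2.2, h2.1, add_comm _ _⟩]
  obtain ⟨hc', hf', h3⟩ := h3
  rw [h3, TT, TT, AV, AV, pair_eq _ _ _ _ (GG_im E S v c f), pair_eq _ _ _ _ (GG_im E S v f c),
    hR2, (hC.2.1 j _ hR).2, ← Finset.sum_add_distrib, Finset.mul_sum, hc, hf1, hc', hf', oo_true]
  refine Finset.sum_congr rfl fun κ _ => ?_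
  rw [← add_re, ← add_re, mode hT hK hB E h hc hf1 hc' hf', ← re_ofReal_mul]
  push_cast; rfl

end Pool.Agent.P.MP_cc4a10_gt
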