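import Pool.Agent.P.MP_cc4a10_gt.St

/-!
Means over layers, characters and convolutions.
-/

open Set Filter Topology Complex
open scoped ComplexConjugate Real

noncomputable section

namespace Pool.Agent.P.MP_cc4a10_gt.FTP

/-- Periodic under the Gaussian integers. -/
def PC (f : ℂ → ℂ) : Prop := ∀ z (w : GI), f (z + w) = f z

/-- Mean over the points `al ^ n (o + w)`. -/
def A (n : ℕ) (o : ℂ) (G : ℂ → ℂ) : ℂ := av n (fun w => G (al ^ n * (o + w)))

/-- Convolution. -/
def Cv (n : ℕ) (o : ℂ) (k f : ℂ → ℂ) (P : ℂ) : ℂ := A n o (fun Q => k (P - Q) * f Q)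

/-- Fourier coefficient. -/
def H (n : ℕ) (o : ℂ) (f : ℂ → ℂ) (κ : GI) : ℂ := A n o (fun P => f P * conj (chi κ P))

theorem al_om : al * (1 + I) = I := by
  unfold al; linear_combination (1 / 2 : ℂ) * I_sq
theorem al_som : al * (1 - I) = 1 := by
  unfold al; linear_combination (-1 / 2 : ℂ) * I_sq
theorem al_ne : al ≠ 0 := left_ne_zero_of_mul_eq_one al_som
theorem coe_som : ((star om : GI) : ℂ) = 1 - I := by
  rw [GaussianInt.toComplex_star, coe_om]; simp [sub_eq_add_neg]

theorem A_eq (n : ℕ) (o : ℂ) (G : ℂ → ℂ) :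
    A n o G = ((2 : ℂ) ^ n)⁻¹ * ts n (fun w => G (al ^ n * (o + w))) := by
  simp [A, av]

theorem PC.per {f : ℂ → ℂ} (h : PC f) (n : ℕ) (o : ℂ) :
    Per n (fun w : GI => f (al ^ n * (o + w))) := fun u w => by
  have : al ^ n * (o + ((u + om ^ n * w : GI) : ℂ))
      = al ^ n * (o + u) + ((gi ^ n * w : GI) : ℂ) := by
    simp only [map_add, map_mul, map_pow, coe_om, coe_gi]
    rw [← al_om, mul_pow, al_om]; ring
  simp only [this, h _ _]

theorem PC.mul {f g : ℂ → ℂ} (h : PC f) (h' : PC g) : PC (fun z => f z * g z) :=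
  fun z w => by simp only [h z w, h' z w]
theorem PC.conj {f : ℂ → ℂ} (h : PC f) : PC (fun z => conj (f z)) :=
  fun z w => by simp only [h z w]
theorem PC.sub_left {f : ℂ → ℂ} (h : PC f) (P : ℂ) : PC (fun z => f (P - z)) := fun z w => by
  have := h (P - z) (-w)
  simp only [map_neg] at this
  simp only [← this]; congr 1; ring
theorem PC.sub_right {f : ℂ → ℂ} (h : PC f) (Q : ℂ) : PC (fun z => f (z - Q)) := fun z w => by
  simp only [← h (z - Q) w]; congr 1; ring
theorem PC.const (a : ℂ) : PC (fun _ => a) := fun _ _ => rfl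

theorem A_congr {n : ℕ} {o : ℂ} {F G : ℂ → ℂ}
    (h : ∀ w : GI, F (al ^ n * (o + w)) = G (al ^ n * (o + w))) : A n o F = A n o G := by
  simp only [A, h]
theorem A_add (n : ℕ) (o : ℂ) (F G : ℂ → ℂ) : A n o (fun z => F z + G z) = A n o F + A n o G :=
  av_add _ _ _
theorem A_sub (n : ℕ) (o : ℂ) (F G : ℂ → ℂ) : A n o (fun z => F z - G z) = A n o F - A n o G :=
  av_sub _ _ _
theorem A_mul (n : ℕ) (o a : ℂ) (F : ℂ → ℂ) : A n o (fun z => a * F z) = a * A n o F := by
  simp only [A_eq, ts_mul_left]; ring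
theorem A_const (n : ℕ) (o a : ℂ) : A n o (fun _ => a) = a := av_const _ _
theorem A_conj (n : ℕ) (o : ℂ) (F : ℂ → ℂ) : conj (A n o F) = A n o (fun z => conj (F z)) := by
  simp only [A_eq, map_mul, ts_conj, map_inv₀, map_pow, conj_ofNat]
theorem A_sum {ι : Type*} (n : ℕ) (o : ℂ) (T : Finset ι) (F : ι → ℂ → ℂ) :
    A n o (fun z => ∑ i ∈ T, F i z) = ∑ i ∈ T, A n o (F i) := by
  simp only [A_eq, ts_sum, Finset.mul_sum]
theorem A_comm (n n' : ℕ) (o o' : ℂ) (F : ℂ → ℂ → ℂ) :
    A n o (fun P => A n' o' (fun Q => F P Q)) = A n' o' (fun Q => A n o (fun P => F P Q)) := by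
  simp only [A_eq, ts_mul_left]
  rw [ts_comm n n' (fun u w => F (al ^ n * (o + u)) (al ^ n' * (o' + w)))]; ring
theorem A_re (n : ℕ) (o : ℂ) (F : ℂ → ℂ) : (A n o F).re = (A n o (fun z => (F z).re)).re := by
  simp only [A, av, smul_re, ts_re, ofReal_re]

theorem A_shift {n : ℕ} {o o' : ℂ} {F : ℂ → ℂ} (h : PC F) (g : GI) (e : o = o' + g) :
    A n o F = A n o' F := by
  simp only [A_eq]
  rw [← ts_shift (h.per n o') g]
  congr 2; funext w; congr 2; rw [e, map_add]; ring

theorem A_neg {n : ℕ} (o : ℂ) {F : ℂ → ℂ} (h : PC F) :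
    A n o (fun z => F (-z)) = A n (-o) F := by
  simp only [A_eq]
  rw [← ts_neg_arg (h.per n (-o))]
  congr 2; funext w; congr 1; rw [map_neg]; ring

theorem A_trans (n : ℕ) (o y : ℂ) (F : ℂ → ℂ) :
    A n o (fun z => F (z + al ^ n * y)) = A n (o + y) F := by
  simp only [A]; congr 1; funext w; congr 1; ring

/-! ### characters -/

theorem chi_add (κ : GI) (z z' : ℂ) : chi κ (z + z') = chi κ z * chi κ z' := by
  simp only [chi, dot, mul_add, add_re, ofReal_add, exp_add]
theorem chi_add' (κ κ' : GI) (z : ℂ) : chi (κ + κ') z = chi κ z * chi κ' z := by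
  simp only [chi, dot, map_add, add_mul, add_re, ofReal_add, mul_add, exp_add]
theorem chi_int (κ w : GI) : chi κ w = 1 := by
  have : dot κ w = ((κ.re * w.re + κ.im * w.im : ℤ) : ℝ) := by
    simp [dot, GaussianInt.toComplex_def']
  rw [chi, this, ofReal_intCast, mul_comm]
  exact exp_int_mul_two_pi_mul_I _
theorem chi_pc (κ : GI) : PC (chi κ) := fun z w => by rw [chi_add, chi_int, mul_one]
theorem chi_neg (κ : GI) (z : ℂ) : chi κ (-z) = conj (chi κ z) := by
  simp only [chi, dot, ← exp_conj, map_mul, conj_ofReal, conj_I, conj_ofNat, mul_neg, neg_re,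
    ofReal_neg, neg_mul]
theorem chi_zero (z : ℂ) : chi 0 z = 1 := by simp [chi, dot]
theorem conj_chi (n : ℕ) (κ : GI) (z : ℂ) : conj (chi κ (al ^ n * z)) = ex (thq n κ) z := by
  have : dot (thq n κ) z = 2 * π * dot κ (al ^ n * z) := by
    have : conj (thq n κ) * z = ((2 * π : ℝ) : ℂ) * (conj (κ : ℂ) * (al ^ n * z)) := by
      simp only [thq, map_mul, map_pow, conj_conj, conj_ofReal, conj_ofNat]; push_cast; ring
    rw [dot, this, re_ofReal_mul, dot]
  rw [ex, this, chi, ← exp_conj]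
  simp only [map_mul, conj_ofReal, conj_I, conj_ofNat]; push_cast; congr 1; ring
theorem chi_nu (j : ℕ) (y : ℂ) : chi (om ^ j) (al ^ j * y) = exp (2 * π * I * y.re) := by
  have : conj ((om ^ j : GI) : ℂ) * (al ^ j * y) = y := by
    rw [map_pow, coe_om, map_pow, ← mul_assoc, ← mul_pow]
    simp only [map_add, map_one, conj_I]
    rw [← sub_eq_add_neg, mul_comm _ al, al_som, one_pow, one_mul]
  rw [chi, dot, this]
theorem chi_nu_int (j : ℕ) (y : ℂ) (a : ℤ) (h : y.re = a) : chi (om ^ j) (al ^ j * y) = 1 := by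
  rw [chi_nu, h, ofReal_intCast, mul_comm]; exact exp_int_mul_two_pi_mul_I _
theorem chi_nu_half (j : ℕ) (y : ℂ) (a : ℤ) (h : y.re = a + 1 / 2) :
    chi (om ^ j) (al ^ j * y) = -1 := by
  rw [chi_nu, h]
  push_cast
  rw [show (2 * π * I * (a + 1 / 2) : ℂ) = a * (2 * π * I) + π * I by ring, exp_add,
    exp_int_mul_two_pi_mul_I, exp_pi_mul_I, one_mul]

/-! ### convolutions -/

theorem PC.cv {k : ℂ → ℂ} (h : PC k) (n : ℕ) (o : ℂ) (f : ℂ → ℂ) : PC (Cv n o k f) :=
  fun z w => by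
    unfold Cv; congr 1; funext Q
    rw [← h (z - Q) w]; congr 2; ring

theorem conj_Cv (n : ℕ) (o : ℂ) (k f : ℂ → ℂ) (P : ℂ) :
    conj (Cv n o k f P) = Cv n o (fun z => conj (k z)) (fun z => conj (f z)) P := by
  simp only [Cv, A_conj, map_mul]

theorem H_Cv {n : ℕ} {o o' o'' : ℂ} {k : ℂ → ℂ} (hk : PC k) (f : ℂ → ℂ) (g : GI)
    (e : o = o' + o'' + g) (κ : GI) : H n o (Cv n o' k f) κ = H n o'' k κ * H n o' f κ := by
  unfold H Cv
  have e1 : ∀ P, A n o' (fun Q => k (P - Q) * f Q) * conj (chi κ P)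
      = A n o' (fun Q => conj (chi κ P) * (k (P - Q) * f Q)) := fun P => by
    rw [A_mul, mul_comm]
  simp only [e1]
  rw [A_comm, ← A_mul]
  refine A_congr fun w => ?_
  have h1 := A_trans n o (-(o' + w)) (fun z => k z * conj (chi κ z))
  rw [A_shift (o' := o'') (hk.mul (chi_pc κ).conj) (g - w) (by rw [e, map_sub]; ring)] at h1
  rw [← h1, mul_comm (A n o _), ← A_mul]
  refine A_congr fun u => ?_
  have h2 : chi κ (al ^ n * (o + u)) = chi κ (al ^ n * (o' + w)) *
      chi κ (al ^ n * (o + u) + al ^ n * -(o' + w)) := by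
    rw [← chi_add]; congr 1; ring
  rw [h2, map_mul, show al ^ n * (o + u) + al ^ n * -(o' + w)
    = al ^ n * (o + u) - al ^ n * (o' + w) by ring]
  ring

theorem H_conj {n : ℕ} {o : ℂ} {k : ℂ → ℂ} (hk : PC k) (s : ℂ)
    (hs : ∀ z, conj (k (-z)) = s * conj (k z)) (g : GI) (e : o + o = g) (κ : GI) :
    H n o (fun z => conj (k z)) κ = s * conj (H n o k κ) := by
  unfold H
  rw [A_conj, A_shift (o' := -o) (hk.conj.mul (chi_pc κ).conj) g (by rw [← e]; ring),
    ← A_neg o (hk.conj.mul (chi_pc κ).conj), ← A_mul]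
  refine A_congr fun w => ?_
  simp only [hs, chi_neg, map_mul]; ring

theorem A_odd {n : ℕ} {o : ℂ} {k : ℂ → ℂ} (hk : PC k) (hs : ∀ z, k (-z) = -k z) (g : GI)
    (e : o + o = g) : A n o k = 0 := by
  have h1 := A_neg (n := n) o hk
  rw [← A_shift (o := o) hk g (by rw [← e]; ring)] at h1
  simp only [hs] at h1
  have h2 := A_mul n o (-1) k
  simp only [neg_one_mul] at h2
  linear_combination (1 / 2 : ℂ) * (h2 - h1)

theorem Cv_one {n : ℕ} (o y : ℂ) {k : ℂ → ℂ} (hk : PC k) :
    Cv n o k (fun _ => 1) (al ^ n * y) = A n (y - o) k := by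
  unfold Cv
  have h1 := A_neg (n := n) (o - y) hk
  rw [neg_sub] at h1
  rw [← h1, sub_eq_add_neg o y, ← A_trans n o (-y) (fun z => k (-z))]
  refine A_congr fun w => ?_
  rw [mul_one]; congr 1; ring

/-! ### the coarse layer inside the finer lattice -/

theorem par_cases (n : GI) : (∃ w, n = star om * w) ∨ ∃ w, n = 1 + star om * w := by
  rcases Int.even_or_odd' (n.re + n.im) with ⟨a, h | h⟩
  · exact Or.inl ⟨⟨a - n.im, a⟩, by ext <;> (simp [om]; try omega)⟩
  · exact Or.inr ⟨⟨a - n.im, a⟩, by ext <;> (simp [om]; try omega)⟩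

theorem not_par (w w' : GI) : star om * w ≠ 1 + star om * w' := fun h => by
  have h1 := congrArg Zsqrtd.re h
  have h2 := congrArg Zsqrtd.im h
  simp [om] at h1 h2
  omega

theorem dvd_som (j : ℕ) (x : GI) : om ^ (j + 1) ∣ star om * x ↔ om ^ j ∣ x := by
  rw [star_om, pow_succ', mul_assoc, mul_dvd_mul_iff_left om_ne_zero]
  exact IsUnit.dvd_mul_left (IsUnit.of_mul_eq_one gi (by decide))

theorem A_coarse (hB : S_Box) (j : ℕ) {G : ℂ → ℂ} (h : PC G) :
    A j hf G = A (j + 1) 0 (fun P => (1 - chi (om ^ j) P) * G P) := by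
  classical
  have h1 := fun u => ((hB (j + 1)).2.2.2.2.2.1 ℂ _ (h.per (j + 1) 0)).1 u
  have h2 : ∀ w : GI, G (al ^ j * (hf + w)) = ts (j + 1) (fun n =>
      if om ^ (j + 1) ∣ n - (1 + star om * w) then G (al ^ (j + 1) * (0 + n)) else 0) := by
    intro w
    rw [h1]; congr 1
    simp only [map_add, map_one, map_mul, coe_som]
    rw [pow_succ, mul_assoc]; congr 1
    have ha : al = hf := rfl
    linear_combination (-(w : ℂ)) * al_som - ha
  simp only [A_eq, h2]
  rw [ts_comm j (j + 1) (fun w n =>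
      if om ^ (j + 1) ∣ n - (1 + star om * w) then G (al ^ (j + 1) * (0 + n)) else 0)]
  have h3 : ∀ n : GI, (1 - chi (om ^ j) (al ^ (j + 1) * (0 + n))) * G (al ^ (j + 1) * (0 + n))
      = 2 * ts j (fun w => if om ^ (j + 1) ∣ n - (1 + star om * w)
        then G (al ^ (j + 1) * (0 + n)) else 0) := by
    intro n
    rcases par_cases n with ⟨x, hx⟩ | ⟨x, hx⟩
    · have e : al ^ (j + 1) * (0 + (n : ℂ)) = al ^ j * x := by
        rw [hx, map_mul, coe_som, pow_succ]; linear_combination al ^ j * (x : ℂ) * al_som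
      have h4 : ∀ w, ¬ om ^ (j + 1) ∣ n - (1 + star om * w) := by
        rintro w ⟨y, hy⟩
        refine not_par x (w + om ^ j * gi * y) ?_
        rw [← hx, star_om]
        rw [star_om] at hy
        linear_combination hy + om ^ (j + 1) * y * gi_mul_gi
      rw [e, chi_nu_int j x x.re (by simp)]
      simp [h4]
    · have e : al ^ (j + 1) * (0 + (n : ℂ)) = al ^ j * (al + x) := by
        rw [hx, map_add, map_mul, coe_som, pow_succ, map_one]
        linear_combination al ^ j * (x : ℂ) * al_som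
      have h4 : ∀ w, om ^ (j + 1) ∣ n - (1 + star om * w) ↔ om ^ j ∣ w - x := by
        intro w
        rw [← dvd_neg, ← dvd_som j (w - x), hx,
          show -(1 + star om * x - (1 + star om * w)) = star om * (w - x) by ring]
      simp only [h4]
      rw [((hB j).2.2.2.2.2.1 ℂ (fun _ => G (al ^ (j + 1) * (0 + n))) (fun _ _ => rfl)).1 x, e,
        chi_nu_half j (al + x) x.re (by simp [al]; ring)]
      ring
  simp only [h3, ts_mul_left]
  rw [pow_succ (2 : ℂ)]; field_simp

end Pool.Agent.P.MP_cc4a10_gt.FTP
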