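import Pool.Agent.P.MP_cc4a10_gt.FT0

/-!
The form of a level as a sum over its two layers.
-/

open Set Filter Topology Complex
open scoped ComplexConjugate Real

noncomputable section

namespace Pool.Agent.P.MP_cc4a10_gt.FTP

/-- Mean over layer `k`. -/
def AV (S : Sys) (k : ℤ) (G : ℂ → ℂ) : ℂ := A (S.st k) (oo (S.hh k)) G

theorem Lm_zero (z : ℂ) : Lm 0 z = z := by simp [Lm]
theorem pc_wp (E : Ell) : PC E.wp := E.Wper
theorem pc_Z (E : Ell) : PC (E.Z 0) := fun z w => by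
  simpa only [Lm_zero] using E.Zper 0 (by simp) z w
theorem pc_G (E : Ell) : PC (fun z => (E.Gr 0 z : ℂ)) := fun z w => by
  have := E.Gper 0 (by simp) z w
  rw [Lm_zero] at this
  simp only [this]
theorem pc_d {S : Sys} {v : Vec} (h : Adm S v) (k : ℤ) : PC (v.1 k) := fun z w => (h.per k z w).1
theorem pc_s {S : Sys} {v : Vec} (h : Adm S v) (k : ℤ) : PC (fun z => (v.2 k z : ℂ)) :=
  fun z w => by simp only [(h.per k z w).2]

theorem PC.sr {f : ℂ → ℂ} (h : PC f) (Q z : ℂ) (w : GI) : f (z + w - Q) = f (z - Q) :=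
  h.sub_right Q z w
theorem PC.sl {f : ℂ → ℂ} (h : PC f) (P z : ℂ) (w : GI) : f (P - (z + w)) = f (P - z) :=
  h.sub_left P z w
theorem G_sr (E : Ell) (Q z : ℂ) (w : GI) : (E.Gr 0 (z + w - Q) : ℂ) = E.Gr 0 (z - Q) :=
  (pc_G E).sub_right Q z w
theorem G_sl (E : Ell) (P z : ℂ) (w : GI) : (E.Gr 0 (P - (z + w)) : ℂ) = E.Gr 0 (P - z) :=
  (pc_G E).sub_left P z w

theorem split (hP : S_Par) {S : Sys} (hS : S.ok) (K : ℤ) {F : GI → ℂ} {Φ : ℤ → ℂ → ℂ}
    (hΦ : ∀ k, PC (Φ k)) (h0 : ∀ u, q0 (lvT S K) u = 0 → F u = 0)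
    (h1 : ∀ u, q0 (lvT S K) u ≠ 0 → F u = q0 (lvT S K) u * Φ (lk S K u) ((lvT S K).c * u)) :
    ts (mK S K) F = AV S (K - 1) (Φ (K - 1)) - AV S K (Φ K) := by
  obtain ⟨-, -, -, -, -, h6, h7, -⟩ := hP S hS K
  have e : F = fun u => ((2 : ℂ) ^ S.st (K - 1))⁻¹ *
      (if 0 < q0 (lvT S K) u then Φ (K - 1) ((lvT S K).c * u) else 0) - ((2 : ℂ) ^ S.st K)⁻¹ *
      (if q0 (lvT S K) u < 0 then Φ K ((lvT S K).c * u) else 0) := by
    funext u
    rcases lt_trichotomy (q0 (lvT S K) u) 0 with h | h | h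
    · have h2 := (h6 u h.ne).2.2.2.2.2.2.1
      have h3 : lk S K u = K := if_neg h.not_gt
      rw [abs_of_neg h, neg_eq_iff_eq_neg, h3] at h2
      rw [h1 u h.ne, if_neg h.not_gt, if_pos h, h3, h2]; push_cast; ring
    · rw [h0 u h, h]; simp
    · have h2 := (h6 u h.ne').2.2.2.2.2.2.1
      have h3 : lk S K u = K - 1 := if_pos h
      rw [abs_of_pos h, h3] at h2
      rw [h1 u h.ne', if_neg h.not_gt, if_pos h, h3, h2]; push_cast; ring
  rw [e, ts_sub, ts_mul_left, ts_mul_left, (h7 _ (hΦ (K - 1))).1, (h7 _ (hΦ K)).2]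
  simp only [AV, A_eq, lp]

theorem eT_eq {S : Sys} (v : Vec) {K : ℤ} {u : GI} (h : q0 (lvT S K) u ≠ 0) :
    eT S v K u = v.1 (lk S K u) ((lvT S K).c * u) ∧
      sT S v K u = v.2 (lk S K u) ((lvT S K).c * u) := by
  have h1 : nbr (lvT S K).τ u = u := if_neg fun h2 => h (by rw [q0, h2, mul_zero])
  exact ⟨by rw [eT, h1], by rw [sT, if_neg h]⟩

/-- Force and potential at a point of layer `k` from layer `k'`. -/
def Rk (E : Ell) (S : Sys) (v : Vec) (k k' : ℤ) (P : ℂ) : ℂ :=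
  AV S k' (fun Q => -E.wp (P - Q) * (v.1 k P - v.1 k' Q) - π * conj (v.1 k P - v.1 k' Q)
    + v.2 k' Q * E.Z 0 (P - Q))
def Gk (E : Ell) (S : Sys) (v : Vec) (k k' : ℤ) (P : ℂ) : ℂ :=
  AV S k' (fun Q => ((E.Z 0 (P - Q) * (v.1 k P - v.1 k' Q)).re : ℝ)
    + v.2 k' Q * (E.Gr 0 (P - Q) : ℂ))
def Dg (n : ℕ) : ℝ := ((2 : ℝ) ^ n)⁻¹ * (Real.log ((2 : ℝ) ^ n)⁻¹ + 1)
def FF (E : Ell) (S : Sys) (v : Vec) (k k' : ℤ) (P : ℂ) : ℂ := Rk E S v k k P - Rk E S v k k' P
def GG (E : Ell) (S : Sys) (v : Vec) (k k' : ℤ) (P : ℂ) : ℂ :=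
  Gk E S v k k P - Gk E S v k k' P + Dg (S.st k) * v.2 k P

/-- The test vector on layer `k`. -/
def dS (J : ℕ) (R : Finset GI) (a : GI → T3) (z : ℂ) : ℂ :=
  al ^ J / 2 * ∑ κ ∈ R, ((a κ).x * chi κ z + conj (a κ).X * conj (chi κ z))
def sS (R : Finset GI) (a : GI → T3) (z : ℂ) : ℝ := (∑ κ ∈ R, (a κ).s * chi κ z).re

theorem pc_Rk (E : Ell) {S : Sys} {v : Vec} (h : Adm S v) (k k' : ℤ) : PC (Rk E S v k k') :=
  fun z w => by
    unfold Rk; congr 1; funext Q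
    rw [pc_d h k, (pc_wp E).sr, (pc_Z E).sr]
theorem pc_Gk (E : Ell) {S : Sys} {v : Vec} (h : Adm S v) (k k' : ℤ) : PC (Gk E S v k k') :=
  fun z w => by
    unfold Gk; congr 1; funext Q
    rw [pc_d h k, G_sr, (pc_Z E).sr]

theorem Gk_im (E : Ell) (S : Sys) (v : Vec) (k k' : ℤ) (P : ℂ) :
    conj (Gk E S v k k' P) = Gk E S v k k' P := by
  simp only [Gk, AV, A_conj, map_add, map_mul, conj_ofReal]
theorem GG_im (E : Ell) (S : Sys) (v : Vec) (k k' : ℤ) (P : ℂ) :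
    conj (GG E S v k k' P) = GG E S v k k' P := by
  simp only [GG, Gk_im, map_add, map_sub, map_mul, conj_ofReal]

theorem Rlin_eq (hP : S_Par) (E : Ell) {S : Sys} (hS : S.ok) {v : Vec} (h : Adm S v) (K : ℤ)
    {u : GI} (hu : q0 (lvT S K) u ≠ 0) :
    Rlin E (lvT S K) (eT S v K) (sT S v K) u = Rk E S v (lk S K u) (K - 1) ((lvT S K).c * u)
      - Rk E S v (lk S K u) K ((lvT S K).c * u) := by
  refine split hP hS K (Φ := fun k' Q => -E.wp ((lvT S K).c * u - Q) *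
    (v.1 (lk S K u) ((lvT S K).c * u) - v.1 k' Q)
    - π * conj (v.1 (lk S K u) ((lvT S K).c * u) - v.1 k' Q)
    + v.2 k' Q * E.Z 0 ((lvT S K).c * u - Q)) (fun k z w => ?_) (fun w hw => by simp [hw])
    fun w hw => ?_
  · beta_reduce
    rw [pc_d h k, (pc_wp E).sl, (pc_Z E).sl, (h.per k z w).2]
  · rw [(eT_eq v hu).1, (eT_eq v hw).1, (eT_eq v hw).2, map_sub GaussianInt.toComplex,
      mul_sub (lvT S K).c]
    push_cast; ring

theorem hlin_eq (hP : S_Par) (E : Ell) {S : Sys} (hS : S.ok) {v : Vec} (h : Adm S v) (K : ℤ)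
    {u : GI} (hu : q0 (lvT S K) u ≠ 0) :
    (hlin E (lvT S K) (eT S v K) (sT S v K) u : ℂ)
      = Gk E S v (lk S K u) (K - 1) ((lvT S K).c * u)
      - Gk E S v (lk S K u) K ((lvT S K).c * u) := by
  rw [hlin, ts_ofReal]
  refine split hP hS K (Φ := fun k' Q => ((E.Z 0 ((lvT S K).c * u - Q) *
    (v.1 (lk S K u) ((lvT S K).c * u) - v.1 k' Q)).re : ℝ)
    + v.2 k' Q * (E.Gr 0 ((lvT S K).c * u - Q) : ℂ)) (fun k z w => ?_) (fun w hw => by simp [hw])
    fun w hw => ?_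
  · beta_reduce
    rw [pc_d h k, G_sl, (pc_Z E).sl, (h.per k z w).2]
  · rw [(eT_eq v hu).1, (eT_eq v hw).1, (eT_eq v hw).2, map_sub GaussianInt.toComplex,
      mul_sub (lvT S K).c]
    push_cast; ring

/-- The part of the form carried by layer `k`. -/
def TT (E : Ell) (S : Sys) (v : Vec) (J : ℕ) (R : Finset GI) (a : GI → T3) (k k' : ℤ) : ℂ :=
  AV S k (fun P => FF E S v k k' P * dS J R a P + GG E S v k k' P * sS R a P)

theorem BT_eq (hP : S_Par) (E : Ell) {S : Sys} (hS : S.ok) {v : Vec} (h : Adm S v) (K : ℤ)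
    (J : ℕ) (R : ℤ → Finset GI) (a : ℤ → GI → T3) :
    BT E S v (syn S J R a) K = (TT E S v J (R (K - 1)) (a (K - 1)) (K - 1) K).re
      + (TT E S v J (R K) (a K) K (K - 1)).re := by
  have e1 : BT E S v (syn S J R a) K = (ts (mK S K) (fun u =>
      Flin E (lvT S K) (eT S v K) (sT S v K) u * eT S (syn S J R a) K u
      + (Glin E (lvT S K) (eT S v K) (sT S v K) u : ℂ) * (sT S (syn S J R a) K u : ℂ))).re := by
    rw [ts_re]; simp only [add_re, ← ofReal_mul, ofReal_re]; rfl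
  rw [e1, split hP hS K (Φ := fun k P => (Rk E S v k (K - 1) P - Rk E S v k K P) * dS J (R k) (a k) P
    + (Gk E S v k (K - 1) P - Gk E S v k K P
      + (if k = K then -1 else 1) * Dg (S.st k) * v.2 k P) * sS (R k) (a k) P)
    (fun k z w => ?_) (fun u hu => by simp [Flin, Glin, hu]) fun u hu => ?_]
  · rw [← add_re]; congr 1
    unfold TT AV
    rw [sub_eq_add_neg, ← neg_one_mul (A (S.st K) _ _), ← A_mul]
    congr 1
    · refine A_congr fun w => ?_
      rw [if_neg (by omega)]; unfold FF GG; ring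
    · refine A_congr fun w => ?_
      rw [if_pos rfl]; unfold FF GG; ring
  · beta_reduce
    rw [pc_Rk E h, pc_Rk E h, pc_Gk E h, pc_Gk E h, (h.per k z w).2]
    simp only [dS, sS, chi_pc _ z w]
  · obtain ⟨-, -, -, -, -, h6, -⟩ := hP S hS K
    obtain ⟨-, -, -, -, -, -, h2, h3, -⟩ := h6 u hu
    rw [Flin, Glin, (eT_eq (syn S J R a) hu).1, (eT_eq (syn S J R a) hu).2, (eT_eq v hu).2,
      Rlin_eq hP E hS h K hu]
    push_cast
    rw [hlin_eq hP E hS h K hu, h2]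
    simp only [syn, if_pos h3]
    have h4 : (q0 (lvT S K) u : ℂ) = (if lk S K u = K then -1 else 1) *
        ((2 : ℂ) ^ S.st (lk S K u))⁻¹ := by
      rcases lt_or_gt_of_ne hu with h5 | h5
      · have h3 : lk S K u = K := if_neg h5.not_gt
        rw [abs_of_neg h5, neg_eq_iff_eq_neg] at h2
        rw [if_pos h3, h2]; push_cast; ring
      · have h3 : lk S K u = K - 1 := if_pos h5
        rw [abs_of_pos h5] at h2
        rw [if_neg (by omega), h2]; push_cast; ring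
    unfold dS sS Dg
    push_cast
    rw [sq, mul_assoc (q0 (lvT S K) u : ℂ) (q0 (lvT S K) u : ℂ)]
    nth_rewrite 4 [h4]
    ring

theorem re_A (n : ℕ) (o : ℂ) {F G : ℂ → ℂ} (h : ∀ z, (F z).re = (G z).re) :
    (A n o F).re = (A n o G).re := by
  rw [A_re n o F, A_re n o G]; simp only [h]

theorem pair_eq (n : ℕ) (o : ℂ) (F G : ℂ → ℂ) (hG : ∀ z, conj (G z) = G z) (J : ℕ)
    (R : Finset GI) (a : GI → T3) :
    (A n o (fun P => F P * dS J R a P + G P * sS R a P)).re = ∑ κ ∈ R,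
      (tp (a κ) (al ^ J * H n o F κ) (conj al ^ J * H n o (fun z => conj (F z)) κ)
        (H n o G κ)).re := by
  have e : ∀ κ, tp (a κ) (al ^ J * H n o F κ) (conj al ^ J * H n o (fun z => conj (F z)) κ)
      (H n o G κ) = A n o (fun P => conj (a κ).X * al ^ J / 2 * (F P * conj (chi κ P))
        + conj (a κ).x * conj al ^ J / 2 * (conj (F P) * conj (chi κ P))
        + conj (a κ).s * (G P * conj (chi κ P))) := fun κ => by
    simp only [A_add, A_mul, tp, H]; ring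
  simp only [e]
  rw [← re_sum, ← A_sum]
  refine re_A n o fun z => ?_
  obtain ⟨g, hg⟩ := conj_eq_iff_real.1 (hG z)
  rw [dS, sS, hg, ← ofReal_mul, add_re, ofReal_re, Finset.mul_sum, Finset.mul_sum, re_sum, re_sum,
    Finset.mul_sum, ← Finset.sum_add_distrib, re_sum]
  refine Finset.sum_congr rfl fun κ _ => ?_
  have h1 : (conj (a κ).x * conj al ^ J / 2 * (conj (F z) * conj (chi κ z))).re
      = ((a κ).x * al ^ J / 2 * (F z * chi κ z)).re := by
    rw [← conj_re]; simp only [map_mul, map_div₀, map_pow, conj_conj, conj_ofNat]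
  have h2 : (conj (a κ).s * ((g : ℂ) * conj (chi κ z))).re = g * ((a κ).s * chi κ z).re := by
    rw [← conj_re, ← re_ofReal_mul]; simp only [map_mul, conj_conj, conj_ofReal]; congr 1; ring
  rw [add_re, add_re, h1, h2, ← add_re]
  congr 2; ring

end Pool.Agent.P.MP_cc4a10_gt.FTP
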