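import Pool.Agent.P.MP_cc4a10_gt.FT1

/-!
Fourier coefficients of the force and of the potential.
-/

open Set Filter Topology Complex
open scoped ComplexConjugate Real

noncomputable section

namespace Pool.Agent.P.MP_cc4a10_gt.FTP

theorem H_congr {n : ℕ} {o : ℂ} {F G : ℂ → ℂ}
    (h : ∀ w : GI, F (al ^ n * (o + w)) = G (al ^ n * (o + w))) (κ : GI) :
    H n o F κ = H n o G κ := A_congr fun w => by simp only [h]
theorem H_add (n : ℕ) (o : ℂ) (F G : ℂ → ℂ) (κ : GI) :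
    H n o (fun z => F z + G z) κ = H n o F κ + H n o G κ := by
  simp only [H, add_mul, A_add]
theorem H_sub (n : ℕ) (o : ℂ) (F G : ℂ → ℂ) (κ : GI) :
    H n o (fun z => F z - G z) κ = H n o F κ - H n o G κ := by
  simp only [H, sub_mul, A_sub]
theorem H_mul (n : ℕ) (o a : ℂ) (F : ℂ → ℂ) (κ : GI) :
    H n o (fun z => a * F z) κ = a * H n o F κ := by
  simp only [H, mul_assoc, A_mul]

theorem Rk_eq (E : Ell) {S : Sys} {v : Vec} (h : Adm S v) (k k' : ℤ) (P : ℂ) :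
    Rk E S v k k' P = -v.1 k P * Cv (S.st k') (oo (S.hh k')) E.wp (fun _ => 1) P
      + Cv (S.st k') (oo (S.hh k')) E.wp (v.1 k') P - π * conj (v.1 k P)
      + Cv (S.st k') (oo (S.hh k')) (E.Z 0) (fun z => v.2 k' z) P := by
  have h0 : A (S.st k') (oo (S.hh k')) (fun z => conj (v.1 k' z)) = 0 := by
    rw [← A_conj, A_eq]
    have := h.m1 k'
    unfold lp at this
    rw [this]; simp
  unfold Rk AV Cv
  rw [A_congr (G := fun Q => -v.1 k P * (E.wp (P - Q) * 1) + E.wp (P - Q) * v.1 k' Q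
    - π * conj (v.1 k P) + E.Z 0 (P - Q) * v.2 k' Q + π * conj (v.1 k' Q))
    fun w => by rw [map_sub]; ring]
  simp only [A_add, A_sub, A_mul, A_const, h0, mul_zero, add_zero]

theorem Gk_eq (E : Ell) (S : Sys) (v : Vec) (k k' : ℤ) (P : ℂ)
    (h0 : Cv (S.st k') (oo (S.hh k')) (E.Z 0) (fun _ => 1) P = 0) :
    Gk E S v k k' P = (-1 / 2) * (Cv (S.st k') (oo (S.hh k')) (E.Z 0) (v.1 k') P
      + Cv (S.st k') (oo (S.hh k')) (fun z => conj (E.Z 0 z)) (fun z => conj (v.1 k' z)) P)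
      + Cv (S.st k') (oo (S.hh k')) (fun z => E.Gr 0 z) (fun z => v.2 k' z) P := by
  have h1 := congrArg conj h0
  rw [conj_Cv, map_zero] at h1
  unfold Gk AV
  unfold Cv at *
  rw [A_congr (G := fun Q => v.1 k P / 2 * (E.Z 0 (P - Q) * 1)
    + conj (v.1 k P) / 2 * (conj (E.Z 0 (P - Q)) * conj 1)
    + (-1 / 2) * (E.Z 0 (P - Q) * v.1 k' Q + conj (E.Z 0 (P - Q)) * conj (v.1 k' Q))
    + E.Gr 0 (P - Q) * v.2 k' Q)
    fun w => by rw [re_eq_add_conj]; simp only [map_sub, map_mul, map_one]; ring]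
  simp only [A_add, A_mul, h0, h1, mul_zero, zero_add]

theorem hf_add : hf + hf = ((om : GI) : ℂ) := by rw [coe_om, hf]; ring

theorem H_same (n : ℕ) {k : ℂ → ℂ} (hk : PC k) (f : ℂ → ℂ) (κ : GI) :
    H n hf (Cv n hf k f) κ = H n 0 k κ * H n hf f κ := H_Cv hk f 0 (by simp) κ

theorem nu_int (j : ℕ) (w : GI) : conj (chi (om ^ j) (al ^ (j + 1) * (0 + w)))
    = chi (om ^ j) (al ^ (j + 1) * (0 + w)) := by
  rcases par_cases w with ⟨x, hx⟩ | ⟨x, hx⟩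
  · have e : al ^ (j + 1) * (0 + (w : ℂ)) = al ^ j * x := by
      rw [hx, map_mul, coe_som, pow_succ]; linear_combination al ^ j * (x : ℂ) * al_som
    rw [e, chi_nu_int j x x.re (by simp), map_one]
  · have e : al ^ (j + 1) * (0 + (w : ℂ)) = al ^ j * (al + x) := by
      rw [hx, map_add, map_mul, coe_som, pow_succ, map_one]
      linear_combination al ^ j * (x : ℂ) * al_som
    rw [e, chi_nu_half j (al + x) x.re (by simp [al]; ring), map_neg, map_one]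

theorem H_cf (hB : S_Box) (j : ℕ) {k : ℂ → ℂ} (hk : PC k) (f : ℂ → ℂ) (κ : GI) :
    H j hf (Cv (j + 1) hf k f) κ = H (j + 1) hf k κ * H (j + 1) hf f κ
      - H (j + 1) hf k (κ + om ^ j) * H (j + 1) hf f (κ + om ^ j) := by
  have e : (0 : ℂ) = hf + hf + ((-om : GI) : ℂ) := by rw [hf_add, map_neg]; ring
  rw [← H_Cv hk f _ e, ← H_Cv hk f _ e, H, A_coarse hB j ((hk.cv _ _ _).mul (chi_pc κ).conj), H, H,
    ← A_sub]
  refine A_congr fun w => ?_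
  rw [chi_add', map_mul, nu_int]; ring

theorem H_fc (hB : S_Box) (j : ℕ) {k f : ℂ → ℂ} (hk : PC k) (hf' : PC f) (κ : GI) :
    H (j + 1) hf (Cv j hf k f) κ = H (j + 1) hf k κ * H j hf f κ := by
  have e : Cv j hf k f = Cv (j + 1) 0 k (fun P => (1 - chi (om ^ j) P) * f P) := by
    funext P
    rw [Cv, A_coarse hB j ((hk.sub_left P).mul hf'), Cv]
    exact A_congr fun w => by ring
  rw [e, H_Cv (o'' := hf) hk _ 0 (by simp), H, H, H, A_coarse hB j (hf'.mul (chi_pc κ).conj)]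
  congr 1
  exact A_congr fun w => by ring

theorem H_nu_c (j : ℕ) (f : ℂ → ℂ) (κ : GI) : H j hf f (κ + om ^ j) = -H j hf f κ := by
  rw [← neg_one_mul (H j hf f κ), H, H, ← A_mul]
  refine A_congr fun w => ?_
  rw [chi_add', chi_nu_half j (hf + w) w.re (by simp [hf]; ring)]; simp

/-- The fine points in the units of the coarse stage. -/
theorem fine_cases (j : ℕ) (w : GI) :
    (∃ x : GI, al * (hf + w) - hf = 1 / 2 + x ∧ chi (om ^ j) (al ^ (j + 1) * (hf + w)) = 1) ∨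
    (∃ x : GI, al * (hf + w) - hf = I / 2 + x ∧ chi (om ^ j) (al ^ (j + 1) * (hf + w)) = -1) := by
  have ha : al = (1 + I) / 2 := rfl
  have hh : hf = (1 + I) / 2 := rfl
  rw [pow_succ al, mul_assoc]
  rcases par_cases w with ⟨x, hx⟩ | ⟨x, hx⟩
  · have e : al * (hf + w) = I / 2 + x := by
      rw [hx, map_mul, coe_som, hh]
      linear_combination (x : ℂ) * al_som + (1 / 2 : ℂ) * al_om
    refine Or.inl ⟨x - 1, ?_, ?_⟩
    · rw [e, map_sub, map_one, hh]; ring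
    · rw [e, chi_nu_int j _ x.re (by simp)]
  · have e : al * (hf + w) = I / 2 + hf + x := by
      rw [hx, map_add, map_one, map_mul, coe_som, hh]
      linear_combination (x : ℂ) * al_som + (1 / 2 : ℂ) * al_om + ha
    refine Or.inr ⟨x, ?_, ?_⟩
    · rw [e]; ring
    · rw [e, chi_nu_half j _ x.re (by simp [hh]; ring)]

theorem H_nu_f (j : ℕ) (f : ℂ → ℂ) (κ : GI) :
    H (j + 1) hf (fun P => chi (om ^ j) P * f P) κ = H (j + 1) hf f (κ + om ^ j) ∧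
    H (j + 1) hf (fun P => chi (om ^ j) P * f P) (κ + om ^ j) = H (j + 1) hf f κ := by
  constructor <;> refine A_congr fun w => ?_ <;>
    rcases fine_cases j w with ⟨-, -, h⟩ | ⟨-, -, h⟩ <;> simp [chi_add', h]

/-! ### symbols -/

theorem H_wp (E : Ell) (n : ℕ) (o : ℂ) (κ : GI) :
    H n o E.wp κ = ((2 : ℂ) ^ n)⁻¹ * (al ^ n)⁻¹ ^ 2 * sW E n κ o := by
  have := pow_ne_zero n al_ne
  simp only [H, A_eq, conj_chi, sW, pow_mul']; field_simp
theorem H_Z (E : Ell) (n : ℕ) (o : ℂ) (κ : GI) :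
    H n o (E.Z 0) κ = ((2 : ℂ) ^ n)⁻¹ * (al ^ n)⁻¹ * sZ E n κ o := by
  have := pow_ne_zero n al_ne
  simp only [H, A_eq, conj_chi, sZ]; field_simp
theorem H_G (E : Ell) (n : ℕ) (o : ℂ) (κ : GI) :
    H n o (fun z => E.Gr 0 z) κ = ((2 : ℂ) ^ n)⁻¹ * sG E n κ o := by
  simp only [H, A_eq, conj_chi, sG]
theorem al_inv (j : ℕ) : (al ^ (j + 1))⁻¹ = (al ^ j)⁻¹ * (1 - I) := by
  rw [pow_succ, mul_inv, inv_eq_of_mul_eq_one_right al_som]
theorem H_wp' (E : Ell) (n : ℕ) (o : ℂ) (κ : GI) :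
    H (n + 1) o E.wp κ = ((2 : ℂ) ^ n)⁻¹ * (al ^ n)⁻¹ ^ 2 * (-I * sW E (n + 1) κ o) := by
  rw [H_wp, al_inv, pow_succ (2 : ℂ), mul_inv]
  linear_combination ((2 : ℂ) ^ n)⁻¹ * (al ^ n)⁻¹ ^ 2 * sW E (n + 1) κ o / 2 * I_sq
theorem H_Z' (E : Ell) (n : ℕ) (o : ℂ) (κ : GI) :
    H (n + 1) o (E.Z 0) κ = ((2 : ℂ) ^ n)⁻¹ * (al ^ n)⁻¹ * (kp * sZ E (n + 1) κ o) := by
  rw [H_Z, al_inv, pow_succ (2 : ℂ), mul_inv, kp]; ring
theorem H_G' (E : Ell) (n : ℕ) (o : ℂ) (κ : GI) :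
    H (n + 1) o (fun z => E.Gr 0 z) κ = ((2 : ℂ) ^ n)⁻¹ * (sG E (n + 1) κ o / 2) := by
  rw [H_G, pow_succ (2 : ℂ), mul_inv]; ring

theorem Cv_wp (hT : S_Tor0) (E : Ell) (n : ℕ) (o y : ℂ) :
    Cv n o E.wp (fun _ => 1) (al ^ n * y) = ((2 : ℂ) ^ n)⁻¹ * (al ^ n)⁻¹ ^ 2 * E.wp (y - o) := by
  rw [Cv_one o y (pc_wp E), ← (hT E).2.2.2 n (y - o), ← H_wp]
  simp [H, chi_zero]

end Pool.Agent.P.MP_cc4a10_gt.FTP
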