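import Pool.Agent.P.MP_cc4a10_gt.FU0

/-!
The bilinear form of a uniform level in Fourier coefficients.
-/

open Set Filter Topology Complex
open scoped ComplexConjugate Real

noncomputable section

namespace Pool.Agent.P.MP_cc4a10_gt.FUP

/-- Force kernel at `P` with displacement `δ`, source at `z`. -/
def kF (E : Ell) (y : ℂ → ℂ) (s : ℂ → ℝ) (P δ z : ℂ) : ℂ :=
  -E.wp (P - z) * (δ - y z) - π * conj (δ - y z) + (s z : ℂ) * E.Z 0 (P - z)
/-- Potential kernel. -/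
def kG (E : Ell) (y : ℂ → ℂ) (s : ℂ → ℝ) (P δ z : ℂ) : ℝ :=
  (E.Z 0 (P - z) * (δ - y z)).re + s z * E.Gr 0 (P - z)
/-- Force on a layer with data `x, s` and offset `o`, the other layer being `y, t, o'`. -/
def FX (E : Ell) (j : ℕ) (o o' : ℂ) (x y : ℂ → ℂ) (s t : ℂ → ℝ) (P : ℂ) : ℂ :=
  (((2 : ℝ) ^ j)⁻¹ ^ 2 : ℝ) * (ts j (fun w => kF E x s P (x P) (al ^ j * (o + w)))
    - ts j (fun w => kF E y t P (x P) (al ^ j * (o' + w))))
/-- Potential on a layer. -/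
def GX (E : Ell) (j : ℕ) (o o' : ℂ) (x y : ℂ → ℂ) (s t : ℂ → ℝ) (P : ℂ) : ℝ :=
  ((2 : ℝ) ^ j)⁻¹ ^ 2 * (ts j (fun w => kG E x s P (x P) (al ^ j * (o + w)))
    - ts j (fun w => kG E y t P (x P) (al ^ j * (o' + w))))
    + ((2 : ℝ) ^ j)⁻¹ ^ 2 * (Real.log ((2 : ℝ) ^ j)⁻¹ + 1) * s P

theorem wp_pp (E : Ell) : PP E.wp := E.Wper
theorem Z_pp (E : Ell) : PP (E.Z 0) := fun z w => by
  simpa [Lm] using E.Zper 0 (by simp) z w
theorem Gr_pp (E : Ell) : PP (E.Gr 0) := fun z w => by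
  simpa [Lm] using E.Gper 0 (by simp) z w

theorem PP.map {V W : Type*} {f : ℂ → V} (h : PP f) (g : V → W) : PP (fun z => g (f z)) :=
  fun z w => congrArg g (h z w)

theorem ts_kF (E : Ell) (j : ℕ) (o o' δ : ℂ) (y : ℂ → ℂ) (t : ℂ → ℝ) (w : GI)
    (hy : ts j (fun w => y (al ^ j * (o' + w))) = 0) :
    ts j (fun w' => kF E y t (al ^ j * (o + w)) δ (al ^ j * (o' + w')))
      = -H j E.wp (o - o') 0 * δ + cv j E.wp y o' (al ^ j * (o + w)) - π * (2 ^ j * conj δ)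
        + cv j (E.Z 0) (fun z => (t z : ℂ)) o' (al ^ j * (o + w)) := by
  have h1 : ts j (fun w' => conj (y (al ^ j * (o' + w')))) = 0 := by rw [← ts_conj, hy, map_zero]
  have h2 : ts j (fun _ => conj δ) = 2 ^ j * conj δ := by
    rw [ts_const, real_smul]
    push_cast
    rfl
  have h3 : ∀ w' : GI, kF E y t (al ^ j * (o + w)) δ (al ^ j * (o' + w'))
      = (-δ) * E.wp (al ^ j * (o + w) - al ^ j * (o' + w'))
        + E.wp (al ^ j * (o + w) - al ^ j * (o' + w')) * y (al ^ j * (o' + w'))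
        - (π * conj δ - π * conj (y (al ^ j * (o' + w'))))
        + E.Z 0 (al ^ j * (o + w) - al ^ j * (o' + w')) * (t (al ^ j * (o' + w')) : ℂ) :=
    fun w' => by
      rw [kF, map_sub]
      ring
  simp only [h3, ts_add, ts_sub, ts_mul_left, h1, h2, ts_left (wp_pp E), cv]
  ring

theorem ts_kG (E : Ell) (j : ℕ) (o o' δ : ℂ) (y : ℂ → ℂ) (t : ℂ → ℝ) (w : GI)
    (hz : H j (E.Z 0) (o - o') 0 = 0) :
    ((ts j (fun w' => kG E y t (al ^ j * (o + w)) δ (al ^ j * (o' + w'))) : ℝ) : ℂ)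
      = (-1 / 2) * (cv j (E.Z 0) y o' (al ^ j * (o + w))
          + cv j (fun z => conj (E.Z 0 z)) (fun z => conj (y z)) o' (al ^ j * (o + w)))
        + cv j (fun z => (E.Gr 0 z : ℂ)) (fun z => (t z : ℂ)) o' (al ^ j * (o + w)) := by
  have h1 := ts_left (Z_pp E) j o o' w
  rw [hz] at h1
  have h2 : ts j (fun w' => conj (E.Z 0 (al ^ j * (o + w) - al ^ j * (o' + w')))) = 0 := by
    rw [← ts_conj, h1, map_zero]
  have h3 : ∀ w' : GI, ((kG E y t (al ^ j * (o + w)) δ (al ^ j * (o' + w')) : ℝ) : ℂ)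
      = (δ / 2) * E.Z 0 (al ^ j * (o + w) - al ^ j * (o' + w'))
        + (conj δ / 2) * conj (E.Z 0 (al ^ j * (o + w) - al ^ j * (o' + w')))
        + (-1 / 2) * (E.Z 0 (al ^ j * (o + w) - al ^ j * (o' + w')) * y (al ^ j * (o' + w'))
          + conj (E.Z 0 (al ^ j * (o + w) - al ^ j * (o' + w'))) * conj (y (al ^ j * (o' + w'))))
        + (E.Gr 0 (al ^ j * (o + w) - al ^ j * (o' + w')) : ℂ) * (t (al ^ j * (o' + w')) : ℂ) :=
    fun w' => by
      rw [kG, ofReal_add, re_eq_add_conj, map_mul, map_sub]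
      push_cast
      ring
  simp only [ts_ofReal, h3, ts_add, ts_mul_left, h1, h2, cv]
  ring

theorem H_av (j : ℕ) (f : ℂ → ℂ) (o : ℂ) (κ : GI) :
    H j f o κ = 2 ^ j * av j (fun w => f (al ^ j * (o + w)) * conj (chi κ (al ^ j * (o + w)))) := by
  rw [H, ts_eq_av, real_smul]
  push_cast
  rfl

theorem sW_eq (E : Ell) (j : ℕ) (κ : GI) (o : ℂ) :
    H j E.wp o κ = sW E j κ o / (al ^ j) ^ 2 := by
  have := pow_ne_zero j al_ne
  simp only [sW, ex_eq, H, pow_mul']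
  field_simp

theorem sZ_eq (E : Ell) (j : ℕ) (κ : GI) (o : ℂ) : H j (E.Z 0) o κ = sZ E j κ o / al ^ j := by
  have := pow_ne_zero j al_ne
  simp only [sZ, ex_eq, H]
  field_simp

theorem sG_eq (E : Ell) (j : ℕ) (κ : GI) (o : ℂ) :
    H j (fun z => (E.Gr 0 z : ℂ)) o κ = sG E j κ o := by
  simp only [sG, ex_eq, H]

theorem H_half {k : ℂ → ℂ} (hk : PP k) (j : ℕ) (κ : GI) :
    H j k (-(1 / 2)) κ = H j k (1 / 2) κ := by
  rw [← H_shift hk j (-(1 / 2)) 1 κ, map_one]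
  congr 1
  ring

/-- Fourier coefficients of a layer in the units `b`. -/
def hT (j : ℕ) (b o : ℂ) (x : ℂ → ℂ) (s : ℂ → ℝ) (κ : GI) : T3 :=
  ⟨av j (fun w => x (al ^ j * (o + w)) * conj (chi κ (al ^ j * (o + w)))) / b,
   av j (fun w => conj (x (al ^ j * (o + w))) * conj (chi κ (al ^ j * (o + w)))) / conj b,
   av j (fun w => (s (al ^ j * (o + w)) : ℂ) * conj (chi κ (al ^ j * (o + w))))⟩

theorem layer (h0 : S_Ker0) (hT0 : S_Tor0) (E : Ell) (j : ℕ) (o o' l : ℂ) (hl : l ≠ 0)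
    (ho : o - o' = 1 / 2 ∨ o - o' = -(1 / 2)) (x y : ℂ → ℂ) (s t : ℂ → ℝ)
    (hx : ts j (fun w => x (al ^ j * (o + w))) = 0)
    (hy : ts j (fun w => y (al ^ j * (o' + w))) = 0) (κ : GI) (A' : T3) :
    tp A' (l * al ^ j * H j (FX E j o o' x y s t) o κ)
      (conj (l * al ^ j) * H j (fun z => conj (FX E j o o' x y s t z)) o κ)
      (H j (fun z => (GX E j o o' x y s t z : ℂ)) o κ)
    = (((2 : ℝ) ^ j)⁻¹ : ℝ) * bU1 (l ^ 2 * (ee E + sW E j κ 0)) (l ^ 2 * sW E j κ (1 / 2))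
      (l * sZ E j κ 0) (l * sZ E j κ (1 / 2))
      (sG E j κ 0 - ((j : ℝ) / 2 * Real.log 2 : ℝ) - LL j) (sG E j κ (1 / 2))
      (hT j (l * al ^ j) o x s κ) (hT j (l * al ^ j) o' y t κ) A' := by
  obtain ⟨C, -, hK⟩ := h0 E
  obtain ⟨-, -, -, -, k1, -, -, k2, k3, -⟩ := hK 0 (by simp)
  obtain ⟨t1, -, -, t2⟩ := hT0 E
  have hw := wp_pp E
  have hZ := Z_pp E
  have hs : ∀ k : ℂ → ℂ, PP k → ∀ κ, H j k (o - o') κ = H j k (1 / 2) κ := fun k hk κ => by
    rcases ho with h | h <;> rw [h]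
    exact H_half hk j κ
  have ew : (fun z => E.wp (-z)) = E.wp := funext fun z => (k3 z).1
  have ez : (fun z => E.Z 0 (-z)) = fun z => (-1) * E.Z 0 z := funext fun z => by
    rw [(k1 z).1]
    ring
  have z0 : H j (E.Z 0) (o - o) 0 = 0 := by
    have := H_neg0 hZ j 0
    rw [ez, H_mul, neg_zero] at this
    rw [sub_self]
    linear_combination this / 2
  have z1 : H j (E.Z 0) (o - o') 0 = 0 := by
    have := H_neg0 hZ j (1 / 2)
    rw [ez, H_mul, H_half hZ] at this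
    rw [hs _ hZ]
    linear_combination this / 2
  have w0 : H j E.wp (o - o) 0 = 0 := by rw [sub_self, sW_eq, t2, k2, zero_div]
  have w1 : H j E.wp (o - o') 0 = ee E / (al ^ j) ^ 2 := by rw [hs _ hw, sW_eq, t2, t1]
  have cw0 : H j (fun z => conj (E.wp z)) 0 κ = conj (sW E j κ 0 / (al ^ j) ^ 2) := by
    rw [H_conj hw, ew, neg_zero, sW_eq]
  have cw1 : H j (fun z => conj (E.wp z)) (1 / 2) κ = conj (sW E j κ (1 / 2) / (al ^ j) ^ 2) := by
    rw [H_conj hw, ew, H_half hw, sW_eq]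
  have cz0 : H j (fun z => conj (E.Z 0 z)) 0 κ = -conj (sZ E j κ 0 / al ^ j) := by
    rw [H_conj hZ, ez, neg_zero, H_mul, sZ_eq, neg_one_mul, map_neg]
  have cz1 : H j (fun z => conj (E.Z 0 z)) (1 / 2) κ = -conj (sZ E j κ (1 / 2) / al ^ j) := by
    rw [H_conj hZ, ez, H_mul, H_half hZ, sZ_eq, neg_one_mul, map_neg]
  obtain ⟨a, ha⟩ : ∃ a : ℂ, a = (((2 : ℝ) ^ j)⁻¹ : ℝ) := ⟨_, rfl⟩
  rw [← ha]
  have hF : ∀ w : GI, FX E j o o' x y s t (al ^ j * (o + w)) = (fun P =>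
      a ^ 2 * (ee E / (al ^ j) ^ 2 * x P + (cv j E.wp x o P - cv j E.wp y o' P)
        + (cv j (E.Z 0) (fun z => (s z : ℂ)) o P - cv j (E.Z 0) (fun z => (t z : ℂ)) o' P)))
      (al ^ j * (o + w)) := fun w => by
    rw [FX, ts_kF E j o o _ x s w hx, ts_kF E j o o' _ y t w hy, w0, w1, ofReal_pow, ← ha]
    ring
  have f1 : H j (FX E j o o' x y s t) o κ = H j (fun P =>
      a ^ 2 * (ee E / (al ^ j) ^ 2 * x P + (cv j E.wp x o P - cv j E.wp y o' P)
        + (cv j (E.Z 0) (fun z => (s z : ℂ)) o P - cv j (E.Z 0) (fun z => (t z : ℂ)) o' P))) o κ :=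
    H_congr hF κ
  have f2 : H j (fun z => conj (FX E j o o' x y s t z)) o κ = H j (fun P =>
      a ^ 2 * (conj (ee E / (al ^ j) ^ 2) * conj (x P)
        + (cv j (fun z => conj (E.wp z)) (fun z => conj (x z)) o P
          - cv j (fun z => conj (E.wp z)) (fun z => conj (y z)) o' P)
        + (cv j (fun z => conj (E.Z 0 z)) (fun z => (s z : ℂ)) o P
          - cv j (fun z => conj (E.Z 0 z)) (fun z => (t z : ℂ)) o' P))) o κ :=
    H_congr (fun w => by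
      rw [hF]
      simp only [map_mul, map_add, map_sub, conj_cv, map_pow, ha, conj_ofReal]) κ
  have f3 : H j (fun z => (GX E j o o' x y s t z : ℂ)) o κ = H j (fun P =>
      a ^ 2 * ((-1 / 2) * ((cv j (E.Z 0) x o P - cv j (E.Z 0) y o' P)
        + (cv j (fun z => conj (E.Z 0 z)) (fun z => conj (x z)) o P
          - cv j (fun z => conj (E.Z 0 z)) (fun z => conj (y z)) o' P))
        + (cv j (fun z => (E.Gr 0 z : ℂ)) (fun z => (s z : ℂ)) o P
          - cv j (fun z => (E.Gr 0 z : ℂ)) (fun z => (t z : ℂ)) o' P)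
        + (-((j : ℝ) / 2 * Real.log 2 : ℝ) - LL j) * s P)) o κ :=
    H_congr (fun w => by
      rw [GX, ofReal_add, ofReal_mul, ofReal_sub, ts_kG E j o o _ x s w z0,
        ts_kG E j o o' _ y t w z1, Real.log_inv, Real.log_pow, LL]
      simp only [ha]
      push_cast
      ring) κ
  have hGr : PP (fun z => (E.Gr 0 z : ℂ)) := (Gr_pp E).map _
  rw [f1, f2, f3]
  simp only [H_mul, H_add, H_sub, H_cv hw, H_cv hZ, H_cv (hw.map conj), H_cv (hZ.map conj),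
    H_cv hGr, sub_self, hs _ hw, hs _ hZ, hs _ (hw.map conj), hs _ (hZ.map conj), hs _ hGr,
    cw0, cw1, cz0, cz1, sW_eq, sZ_eq, sG_eq]
  have e1 : a = (2 ^ j)⁻¹ := by
    rw [ha]
    push_cast
    rfl
  have e2 : al ^ j ≠ 0 := pow_ne_zero j al_ne
  have e3 : conj (al ^ j) ≠ 0 := (map_ne_zero _).2 e2
  have e4 : conj l ≠ 0 := (map_ne_zero _).2 hl
  simp only [H_av, e1, tp, bU1, hT, map_mul, map_add, map_div₀, conj_ofReal, sq]
  generalize al ^ j = u at *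
  field_simp
  ring

theorem kF_pp (E : Ell) {y : ℂ → ℂ} {t : ℂ → ℝ} (hy : PP y) (ht : PP t) (P δ : ℂ) :
    PP (kF E y t P δ) := fun z w => by
  simp only [kF, hy z w, ht z w, (wp_pp E).left P z w, (Z_pp E).left P z w]

theorem kG_pp (E : Ell) {y : ℂ → ℂ} {t : ℂ → ℝ} (hy : PP y) (ht : PP t) (P δ : ℂ) :
    PP (kG E y t P δ) := fun z w => by
  simp only [kG, hy z w, ht z w, (Gr_pp E).left P z w, (Z_pp E).left P z w]

theorem FX_pp (E : Ell) (j : ℕ) (o o' : ℂ) {x : ℂ → ℂ} (hx : PP x) (y : ℂ → ℂ) (s t : ℂ → ℝ) :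
    PP (FX E j o o' x y s t) := fun z w => by
  simp only [FX, kF, hx z w, (wp_pp E).right _ z w, (Z_pp E).right _ z w]

theorem GX_pp (E : Ell) (j : ℕ) (o o' : ℂ) {x : ℂ → ℂ} (hx : PP x) (y : ℂ → ℂ) {s : ℂ → ℝ}
    (hs : PP s) (t : ℂ → ℝ) : PP (GX E j o o' x y s t) := fun z w => by
  simp only [GX, kG, hx z w, hs z w, (Gr_pp E).right _ z w, (Z_pp E).right _ z w]

theorem lp_add (S : Sys) (k : ℤ) (u w : GI) :
    lp S k (u + star om ^ S.st k * w) = lp S k u + w := by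
  have h : al ^ S.st k * ((star om : GI) : ℂ) ^ S.st k = 1 := by
    rw [← mul_pow, al_mul_star, one_pow]
  simp only [lp, map_add, map_mul, map_pow]
  linear_combination (w : ℂ) * h

theorem syn_pp (S : Sys) (J : ℕ) (R : ℤ → Finset GI) (a : ℤ → GI → T3) (k : ℤ) :
    PP ((syn S J R a).1 k) ∧ PP ((syn S J R a).2 k) := by
  have h : ∀ z (w : GI), (∃ u, z + w = lp S k u) ↔ ∃ u, z = lp S k u := fun z w =>
    ⟨fun ⟨u, hu⟩ => ⟨u + star om ^ S.st k * (-w), by rw [lp_add, ← hu, map_neg]; ring⟩,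
      fun ⟨u, hu⟩ => ⟨u + star om ^ S.st k * w, by rw [lp_add, hu]⟩⟩
  classical
  constructor <;> intro z w <;> simp only [syn, chi_pp _ z w] <;> exact if_congr (h z w) rfl rfl

theorem vals (hP : S_Par) {S : Sys} (hS : S.ok) (K : ℤ) (v : Vec) (u : GI) :
    (0 < q0 (lvT S K) u → q0 (lvT S K) u = ((2 : ℝ) ^ S.st (K - 1))⁻¹ ∧
      eT S v K u = v.1 (K - 1) ((lvT S K).c * u) ∧ sT S v K u = v.2 (K - 1) ((lvT S K).c * u)) ∧
    (q0 (lvT S K) u < 0 → q0 (lvT S K) u = -((2 : ℝ) ^ S.st K)⁻¹ ∧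
      eT S v K u = v.1 K ((lvT S K).c * u) ∧ sT S v K u = v.2 K ((lvT S K).c * u)) := by
  obtain ⟨-, -, -, -, -, h, -⟩ := hP S hS K
  have hn : q0 (lvT S K) u ≠ 0 → nbr (lvT S K).τ u = u := fun h =>
    if_neg fun h' => h (by rw [q0, h', mul_zero])
  constructor <;> intro hu
  · obtain ⟨-, -, -, -, -, -, h1, -⟩ := h u hu.ne'
    have h2 : lk S K u = K - 1 := if_pos hu
    rw [h2, abs_of_pos hu] at h1
    exact ⟨h1, by rw [eT, hn hu.ne', h2], by rw [sT, if_neg hu.ne', h2]⟩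
  · obtain ⟨-, -, -, -, -, -, h1, -⟩ := h u hu.ne
    have h2 : lk S K u = K := if_neg hu.not_gt
    rw [h2, abs_of_neg hu] at h1
    exact ⟨by rw [← h1, neg_neg], by rw [eT, hn hu.ne, h2], by rw [sT, if_neg hu.ne, h2]⟩

theorem split (hP : S_Par) {S : Sys} (hS : S.ok) (K : ℤ) (Φ : GI → ℂ) {f g : ℂ → ℂ} (hf : PP f)
    (hg : PP g) (h1 : ∀ u, 0 < q0 (lvT S K) u → Φ u = f ((lvT S K).c * u))
    (h2 : ∀ u, q0 (lvT S K) u < 0 → Φ u = g ((lvT S K).c * u))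
    (h3 : ∀ u, q0 (lvT S K) u = 0 → Φ u = 0) :
    ts (lvT S K).m Φ = ts (S.st (K - 1)) (fun w => f (lp S (K - 1) w))
      + ts (S.st K) (fun w => g (lp S K w)) := by
  obtain ⟨-, -, -, -, -, -, h, -⟩ := hP S hS K
  rw [← (h f hf).1, ← (h g hg).2, ← ts_add]
  refine congrArg (ts (mK S K)) (funext fun u => ?_)
  rcases lt_trichotomy (q0 (lvT S K) u) 0 with hu | hu | hu
  · rw [if_neg hu.not_gt, if_pos hu, h2 u hu, zero_add]
  · rw [if_neg hu.not_gt, if_neg hu.not_lt, h3 u hu, zero_add]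
  · rw [if_pos hu, if_neg hu.not_gt, h1 u hu, add_zero]

theorem splitR (hP : S_Par) {S : Sys} (hS : S.ok) (K : ℤ) (Φ : GI → ℝ) {f g : ℂ → ℝ} (hf : PP f)
    (hg : PP g) (h1 : ∀ u, 0 < q0 (lvT S K) u → Φ u = f ((lvT S K).c * u))
    (h2 : ∀ u, q0 (lvT S K) u < 0 → Φ u = g ((lvT S K).c * u))
    (h3 : ∀ u, q0 (lvT S K) u = 0 → Φ u = 0) :
    ts (lvT S K).m Φ = ts (S.st (K - 1)) (fun w => f (lp S (K - 1) w))
      + ts (S.st K) (fun w => g (lp S K w)) := by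
  have h := split hP hS K (fun u => (Φ u : ℂ)) (hf.map ofReal) (hg.map ofReal)
    (fun u hu => by rw [h1 u hu]) (fun u hu => by rw [h2 u hu])
    fun u hu => by rw [h3 u hu, ofReal_zero]
  simp only [← ts_ofReal] at h
  exact_mod_cast h

theorem bridge (hP : S_Par) (E : Ell) {S : Sys} (hS : S.ok) {K : ℤ} {j : ℕ}
    (j1 : S.st (K - 1) = j) (j2 : S.st K = j) {v v' : Vec} (hv : Adm S v)
    (hv' : ∀ k, PP (v'.1 k) ∧ PP (v'.2 k)) :
    BT E S v v' K = ts j (fun w => (FX E j (oo (S.hh (K - 1))) (oo (S.hh K)) (v.1 (K - 1)) (v.1 K)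
          (v.2 (K - 1)) (v.2 K) (lp S (K - 1) w) * v'.1 (K - 1) (lp S (K - 1) w)).re
        + GX E j (oo (S.hh (K - 1))) (oo (S.hh K)) (v.1 (K - 1)) (v.1 K)
          (v.2 (K - 1)) (v.2 K) (lp S (K - 1) w) * v'.2 (K - 1) (lp S (K - 1) w))
      + ts j (fun w => (FX E j (oo (S.hh K)) (oo (S.hh (K - 1))) (v.1 K) (v.1 (K - 1))
          (v.2 K) (v.2 (K - 1)) (lp S K w) * v'.1 K (lp S K w)).re
        + GX E j (oo (S.hh K)) (oo (S.hh (K - 1))) (v.1 K) (v.1 (K - 1))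
          (v.2 K) (v.2 (K - 1)) (lp S K w) * v'.2 K (lp S K w)) := by
  have p1 : ∀ k, PP (v.1 k) := fun k z w => (hv.per k z w).1
  have p2 : ∀ k, PP (v.2 k) := fun k z w => (hv.per k z w).2
  have hc : ∀ u w : GI, (lvT S K).c * ((u - w : GI) : ℂ) = (lvT S K).c * u - (lvT S K).c * w :=
    fun u w => by rw [map_sub, mul_sub]
  obtain ⟨a, ha⟩ : ∃ a : ℝ, a = ((2 : ℝ) ^ j)⁻¹ := ⟨_, rfl⟩
  have ha0 : 0 < a := by rw [ha]; positivity
  have hV := vals hP hS K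
  rw [j1, j2, ← ha] at hV
  have hR : ∀ u, Rlin E (lvT S K) (eT S v K) (sT S v K) u
      = a * ts j (fun w => kF E (v.1 (K - 1)) (v.2 (K - 1)) ((lvT S K).c * u) (eT S v K u)
          (al ^ j * (oo (S.hh (K - 1)) + w)))
        - a * ts j (fun w => kF E (v.1 K) (v.2 K) ((lvT S K).c * u) (eT S v K u)
          (al ^ j * (oo (S.hh K) + w))) := fun u => by
    rw [Rlin, split hP hS K _ ((kF_pp E (p1 (K - 1)) (p2 (K - 1)) ((lvT S K).c * u)
      (eT S v K u)).map fun y => (a : ℂ) * y) ((kF_pp E (p1 K) (p2 K) ((lvT S K).c * u)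
      (eT S v K u)).map fun y => -(a : ℂ) * y)]
    · simp only [ts_mul_left, lp, j1, j2]
      ring
    · intro w hw
      obtain ⟨e1, e2, e3⟩ := (hV v w).1 hw
      rw [e1, e2, e3, hc, kF]
      push_cast
      ring
    · intro w hw
      obtain ⟨e1, e2, e3⟩ := (hV v w).2 hw
      rw [e1, e2, e3, hc, kF]
      push_cast
      ring
    · intro w hw
      simp [hw]
  have hH : ∀ u, hlin E (lvT S K) (eT S v K) (sT S v K) u
      = a * ts j (fun w => kG E (v.1 (K - 1)) (v.2 (K - 1)) ((lvT S K).c * u) (eT S v K u)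
          (al ^ j * (oo (S.hh (K - 1)) + w)))
        - a * ts j (fun w => kG E (v.1 K) (v.2 K) ((lvT S K).c * u) (eT S v K u)
          (al ^ j * (oo (S.hh K) + w))) := fun u => by
    rw [hlin, splitR hP hS K _ ((kG_pp E (p1 (K - 1)) (p2 (K - 1)) ((lvT S K).c * u)
      (eT S v K u)).map fun y => a * y) ((kG_pp E (p1 K) (p2 K) ((lvT S K).c * u)
      (eT S v K u)).map fun y => -a * y)]
    · simp only [ts_mul_left_real, lp, j1, j2]
      ring
    · intro w hw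
      obtain ⟨e1, e2, e3⟩ := (hV v w).1 hw
      rw [e1, e2, e3, hc, kG]
      ring
    · intro w hw
      obtain ⟨e1, e2, e3⟩ := (hV v w).2 hw
      rw [e1, e2, e3, hc, kG]
      ring
    · intro w hw
      simp [hw]
  have hp : ∀ (o o' : ℂ) (k k' : ℤ), PP (fun P => (FX E j o o' (v.1 k) (v.1 k') (v.2 k) (v.2 k') P
      * v'.1 k P).re + GX E j o o' (v.1 k) (v.1 k') (v.2 k) (v.2 k') P * v'.2 k P) :=
    fun o o' k k' z w => by
      beta_reduce
      rw [FX_pp E j o o' (p1 k) _ _ _ z w, GX_pp E j o o' (p1 k) _ (p2 k) _ z w,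
        (hv' k).1 z w, (hv' k).2 z w]
  rw [BT, BL, pair, splitR hP hS K _ (hp (oo (S.hh (K - 1))) (oo (S.hh K)) (K - 1) K)
    (hp (oo (S.hh K)) (oo (S.hh (K - 1))) K (K - 1)), j1, j2]
  · intro u hu
    obtain ⟨e1, e2, e3⟩ := (hV v u).1 hu
    obtain ⟨-, e4, e5⟩ := (hV v' u).1 hu
    have f1 : Flin E (lvT S K) (eT S v K) (sT S v K) u = FX E j (oo (S.hh (K - 1))) (oo (S.hh K))
        (v.1 (K - 1)) (v.1 K) (v.2 (K - 1)) (v.2 K) ((lvT S K).c * u) := by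
      rw [Flin, hR, e1, e2, FX, ← ha]
      push_cast
      ring
    have f2 : Glin E (lvT S K) (eT S v K) (sT S v K) u = GX E j (oo (S.hh (K - 1))) (oo (S.hh K))
        (v.1 (K - 1)) (v.1 K) (v.2 (K - 1)) (v.2 K) ((lvT S K).c * u) := by
      rw [Glin, hH, e1, e2, e3, GX, ← ha, abs_of_pos ha0]
      ring
    rw [f1, f2, e4, e5]
  · intro u hu
    obtain ⟨e1, e2, e3⟩ := (hV v u).2 hu
    obtain ⟨-, e4, e5⟩ := (hV v' u).2 hu
    have f1 : Flin E (lvT S K) (eT S v K) (sT S v K) u = FX E j (oo (S.hh K)) (oo (S.hh (K - 1)))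
        (v.1 K) (v.1 (K - 1)) (v.2 K) (v.2 (K - 1)) ((lvT S K).c * u) := by
      rw [Flin, hR, e1, e2, FX, ← ha]
      push_cast
      ring
    have f2 : Glin E (lvT S K) (eT S v K) (sT S v K) u = GX E j (oo (S.hh K)) (oo (S.hh (K - 1)))
        (v.1 K) (v.1 (K - 1)) (v.2 K) (v.2 (K - 1)) ((lvT S K).c * u) := by
      rw [Glin, hH, e1, e2, e3, GX, ← ha, abs_neg, abs_of_pos ha0]
      ring
    rw [f1, f2, e4, e5]
  · intro u hu
    simp [Flin, Glin, hu]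

theorem main (hP : S_Par) (h0 : S_Ker0) (hT0 : S_Tor0) (E : Ell) {S : Sys} (hS : S.ok) {K : ℤ}
    {j : ℕ} (j1 : S.st (K - 1) = j) (j2 : S.st K = j) {R : ℤ → Finset GI} (hR : R (K - 1) = R K)
    {v : Vec} (hv : Adm S v) (a : ℤ → GI → T3) (J : ℕ) (l : ℂ) (hl : al ^ J = l * al ^ j) :
    BT E S v (syn S J R a) K = ∑ κ ∈ R K, ((((2 : ℝ) ^ j)⁻¹ : ℝ) *
      bU (l ^ 2 * (ee E + sW E j κ 0)) (l ^ 2 * sW E j κ (1 / 2))
        (l * sZ E j κ 0) (l * sZ E j κ (1 / 2))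
        (sG E j κ 0 - ((j : ℝ) / 2 * Real.log 2 : ℝ) - LL j) (sG E j κ (1 / 2))
        (hat S J v (K - 1) κ) (hat S J v K κ) (a (K - 1) κ) (a K κ)).re := by
  have hl0 : l ≠ 0 := left_ne_zero_of_mul (hl ▸ pow_ne_zero J al_ne)
  have hh : S.hh (K - 1) ≠ S.hh K := by
    have := hS (K - 1)
    rw [sub_add_cancel, j1, j2] at this
    rcases this with h | h
    · exact h.2
    · omega
  have ho : ∀ b b' : Bool, b ≠ b' → oo b - oo b' = 1 / 2 ∨ oo b - oo b' = -(1 / 2) := by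
    intro b b' h
    cases b <;> cases b' <;> simp only [oo, ne_eq, not_true, Bool.false_eq_true, if_true,
      if_false] at h ⊢
    · right
      ring
    · left
      ring
  have m1 := hv.m1 (K - 1)
  have m2 := hv.m1 K
  simp only [lp, j1, j2] at m1 m2
  have hs : ∀ k w, (syn S J R a).1 k (lp S k w) = al ^ J / 2 * ∑ κ ∈ R k,
      ((a k κ).x * chi κ (lp S k w) + conj (a k κ).X * conj (chi κ (lp S k w))) ∧
      (syn S J R a).2 k (lp S k w) = (∑ κ ∈ R k, (a k κ).s * chi κ (lp S k w)).re :=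
    fun k w => ⟨if_pos ⟨w, rfl⟩, if_pos ⟨w, rfl⟩⟩
  rw [bridge hP E hS j1 j2 hv (syn_pp S J R a)]
  simp only [hs]
  have ht : ∀ k, S.st k = j → ∀ κ, hat S J v k κ
      = hT j (l * al ^ j) (oo (S.hh k)) (v.1 k) (v.2 k) κ := fun k hk κ => by
    simp only [hat, hT, lp, hk, ← hl, map_pow]
  simp only [lp, j1, j2, pair_syn, hR, hl, layer h0 hT0 E j _ _ l hl0 (ho _ _ hh) _ _ _ _ m1 m2,
    layer h0 hT0 E j _ _ l hl0 (ho _ _ hh.symm) _ _ _ _ m2 m1, ht _ j1, ht _ j2]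
  rw [← Finset.sum_add_distrib]
  refine Finset.sum_congr rfl fun κ _ => ?_
  rw [bU, mul_add (((((2 : ℝ) ^ j)⁻¹ : ℝ)) : ℂ), add_re]

end Pool.Agent.P.MP_cc4a10_gt.FUP

namespace Pool.Agent.P.MP_cc4a10_gt

theorem pFU (hP : S_Par) (h0 : S_Ker0) (hT0 : S_Tor0) : S_FU := by
  intro E S K j R v a hS j1 j2 hR _ hv
  constructor
  · rw [FUP.main hP h0 hT0 E hS j1 j2 hR hv a j 1 (one_mul _).symm, Finset.mul_sum]
    refine Finset.sum_congr rfl fun κ _ => ?_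
    simp only [re_ofReal_mul, bP, syT, one_pow, one_mul]
  · rintro J rfl
    have hl : al ^ J = 2 * kp * al ^ (J + 1) := by
      rw [pow_succ, al, kp]
      linear_combination (((1 + I) / 2) ^ J / 2) * I_mul_I
    rw [FUP.main hP h0 hT0 E hS j1 j2 hR hv a J _ hl, Finset.mul_sum]
    refine Finset.sum_congr rfl fun κ _ => ?_
    rw [← re_ofReal_mul]
    congr 1
    have hk : (2 * kp) ^ 2 = 2 * -I := by
      rw [kp]
      linear_combination I_mul_I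
    simp only [hk, bC, syT, bU, bU1, tp, map_mul, map_ofNat]
    push_cast
    field_simp
    ring

end Pool.Agent.P.MP_cc4a10_gt
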