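import Pool.Agent.P.MP_cc4a10_gt.St

/-!
Fourier coefficients on one layer: convolutions, conjugation, pairing with a synthesised vector.
-/

open Set Filter Topology Complex
open scoped ComplexConjugate Real

noncomputable section

namespace Pool.Agent.P.MP_cc4a10_gt.FUP

/-- Periodic under the Gaussian integers. -/
def PP {V : Type*} (f : ℂ → V) : Prop := ∀ z (w : GI), f (z + w) = f z

/-- Fourier sum over the coset `al ^ j * (o + Z[i])`. -/
def H (j : ℕ) (k : ℂ → ℂ) (o : ℂ) (κ : GI) : ℂ :=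
  ts j (fun w => k (al ^ j * (o + w)) * conj (chi κ (al ^ j * (o + w))))

/-- Convolution over the coset. -/
def cv (j : ℕ) (k g : ℂ → ℂ) (o P : ℂ) : ℂ :=
  ts j (fun w => k (P - al ^ j * (o + w)) * g (al ^ j * (o + w)))

theorem al_ne : al ≠ 0 := by
  intro h
  have := congrArg Complex.re h
  simp [al] at this

theorem al_mul_om : al * ((om : GI) : ℂ) = ((gi : GI) : ℂ) := by
  rw [coe_om, coe_gi, al]
  linear_combination (1 / 2 : ℂ) * I_mul_I

theorem al_mul_star : al * ((star om : GI) : ℂ) = 1 := by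
  rw [GaussianInt.toComplex_star, coe_om, al]
  simp only [map_add, map_one, conj_I]
  linear_combination (-1 / 2 : ℂ) * I_mul_I

theorem PP.per {V : Type*} {f : ℂ → V} (h : PP f) (j : ℕ) (o : ℂ) :
    Per j (fun w => f (al ^ j * (o + w))) := fun u w => by
  have : al ^ j * (o + ((u + om ^ j * w : GI) : ℂ))
      = al ^ j * (o + u) + ((gi ^ j * w : GI) : ℂ) := by
    simp only [map_add, map_mul, map_pow, ← al_mul_om]
    ring
  simp only [this, h _ _]

theorem PP.sub {V : Type*} {f : ℂ → V} (h : PP f) (z : ℂ) (w : GI) : f (z - w) = f z := by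
  rw [← h z (-w), map_neg, sub_eq_add_neg]

theorem PP.left {V : Type*} {f : ℂ → V} (h : PP f) (P : ℂ) : PP (fun z => f (P - z)) :=
  fun z w => by
    show f (P - (z + w)) = f (P - z)
    rw [← h.sub (P - z) w, sub_sub]

theorem PP.right {V : Type*} {f : ℂ → V} (h : PP f) (P : ℂ) : PP (fun z => f (z - P)) :=
  fun z w => by
    show f (z + w - P) = f (z - P)
    rw [← h (z - P) w, add_sub_right_comm]

theorem PP.neg {V : Type*} {f : ℂ → V} (h : PP f) : PP (fun z => f (-z)) := by
  simpa using h.left 0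

theorem chi_add (κ : GI) (z z' : ℂ) : chi κ (z + z') = chi κ z * chi κ z' := by
  simp only [chi, dot, mul_add, add_re, ofReal_add, Complex.exp_add]

theorem chi_neg (κ : GI) (z : ℂ) : chi κ (-z) = conj (chi κ z) := by
  simp only [chi, dot, ← exp_conj, map_mul, conj_ofReal, conj_I, map_ofNat, mul_neg, neg_re,
    ofReal_neg, neg_mul]

theorem chi_zero (z : ℂ) : chi 0 z = 1 := by simp [chi, dot]

theorem chi_pp (κ : GI) : PP (chi κ) := fun z w => by
  have h : (dot κ w : ℂ) = ((star κ * w).re : ℤ) := by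
    rw [dot, ← GaussianInt.toComplex_star, ← map_mul, ← GaussianInt.intCast_re, ofReal_intCast]
  rw [chi_add, chi, chi, h, mul_comm _ (((star κ * w).re : ℤ) : ℂ), exp_int_mul_two_pi_mul_I,
    mul_one]

theorem ex_eq (j : ℕ) (κ : GI) (z : ℂ) : ex (thq j κ) z = conj (chi κ (al ^ j * z)) := by
  rw [← chi_neg, ex, chi]
  congr 1
  have : conj (thq j κ) * z = ((2 * π : ℝ) : ℂ) * (conj (κ : ℂ) * (al ^ j * z)) := by
    simp only [thq, map_mul, map_pow, conj_conj, conj_ofReal, map_ofNat]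
    push_cast
    ring
  simp only [dot, this, re_ofReal_mul, mul_neg, neg_re]
  push_cast
  ring

theorem H_per {k : ℂ → ℂ} (hk : PP k) (j : ℕ) (o : ℂ) (κ : GI) :
    Per j (fun w => k (al ^ j * (o + w)) * conj (chi κ (al ^ j * (o + w)))) :=
  PP.per (f := fun z => k z * conj (chi κ z)) (fun z w => by simp only [hk z w, chi_pp κ z w]) j o

theorem H_shift {k : ℂ → ℂ} (hk : PP k) (j : ℕ) (o : ℂ) (x κ : GI) :
    H j k (o + x) κ = H j k o κ := by
  rw [H, H, ← ts_shift (H_per hk j o κ) x]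
  simp only [map_add, add_assoc, add_comm (x : ℂ)]

theorem H_conj {k : ℂ → ℂ} (hk : PP k) (j : ℕ) (o : ℂ) (κ : GI) :
    H j (fun z => conj (k z)) o κ = conj (H j (fun z => k (-z)) (-o) κ) := by
  rw [H, H, ← ts_neg_arg (H_per hk.neg j (-o) κ), ts_conj]
  refine congrArg _ (funext fun w => ?_)
  have : al ^ j * (-o + ((-w : GI) : ℂ)) = -(al ^ j * (o + w)) := by
    rw [map_neg]
    ring
  simp only [this, neg_neg, chi_neg, map_mul, conj_conj]

theorem H_neg0 {k : ℂ → ℂ} (hk : PP k) (j : ℕ) (o : ℂ) :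
    H j k o 0 = H j (fun z => k (-z)) (-o) 0 := by
  rw [H, H, ← ts_neg_arg (H_per hk.neg j (-o) 0)]
  refine congrArg _ (funext fun w => ?_)
  have : al ^ j * (-o + ((-w : GI) : ℂ)) = -(al ^ j * (o + w)) := by
    rw [map_neg]
    ring
  simp only [this, neg_neg, chi_zero]

theorem H_cv {k : ℂ → ℂ} (hk : PP k) (g : ℂ → ℂ) (j : ℕ) (o o' : ℂ) (κ : GI) :
    H j (cv j k g o') o κ = H j k (o - o') κ * H j g o' κ := by
  have h1 : ∀ w : GI, cv j k g o' (al ^ j * (o + w)) * conj (chi κ (al ^ j * (o + w)))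
      = ts j (fun w' => (g (al ^ j * (o' + w'))) * (k (al ^ j * (o + w) - al ^ j * (o' + w'))
        * conj (chi κ (al ^ j * (o + w))))) := fun w => by
    rw [cv, mul_comm, ← ts_mul_left]
    refine congrArg _ (funext fun w' => ?_)
    ring
  rw [H, funext h1, ts_comm, H, H, ← ts_mul_left]
  refine congrArg _ (funext fun w' => ?_)
  rw [ts_mul_left, ← ts_shift (H_per (hk.right (al ^ j * (o' + w'))) j o κ) w', mul_comm (ts j _),
    mul_assoc, ← ts_mul_left (a := conj _)]
  congr 1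
  refine congrArg _ (funext fun w => ?_)
  have e1 : al ^ j * (o + ((w + w' : GI) : ℂ)) - al ^ j * (o' + w') = al ^ j * (o - o' + w) := by
    rw [map_add]
    ring
  have e2 : al ^ j * (o + ((w + w' : GI) : ℂ)) = al ^ j * (o - o' + w) + al ^ j * (o' + w') := by
    rw [map_add]
    ring
  rw [e1, e2, chi_add, map_mul]
  ring

theorem ts_left {k : ℂ → ℂ} (hk : PP k) (j : ℕ) (o o' : ℂ) (w : GI) :
    ts j (fun w' => k (al ^ j * (o + w) - al ^ j * (o' + w'))) = H j k (o - o') 0 := by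
  rw [H, ← ts_sub_left (H_per hk j (o - o') 0) w]
  refine congrArg _ (funext fun w' => ?_)
  rw [chi_zero, map_one, mul_one, map_sub]
  congr 1
  ring

theorem H_add (j : ℕ) (f g : ℂ → ℂ) (o : ℂ) (κ : GI) :
    H j (fun z => f z + g z) o κ = H j f o κ + H j g o κ := by
  simp only [H, add_mul, ts_add]

theorem H_sub (j : ℕ) (f g : ℂ → ℂ) (o : ℂ) (κ : GI) :
    H j (fun z => f z - g z) o κ = H j f o κ - H j g o κ := by
  simp only [H, sub_mul, ts_sub]

theorem H_mul (j : ℕ) (a : ℂ) (f : ℂ → ℂ) (o : ℂ) (κ : GI) :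
    H j (fun z => a * f z) o κ = a * H j f o κ := by
  simp only [H, mul_assoc, ts_mul_left]

theorem H_congr {j : ℕ} {f g : ℂ → ℂ} {o : ℂ}
    (h : ∀ w : GI, f (al ^ j * (o + w)) = g (al ^ j * (o + w))) (κ : GI) :
    H j f o κ = H j g o κ := by
  simp only [H, h]

theorem conj_cv (j : ℕ) (k g : ℂ → ℂ) (o P : ℂ) :
    conj (cv j k g o P) = cv j (fun z => conj (k z)) (fun z => conj (g z)) o P := by
  simp only [cv, ts_conj, map_mul]

/-- Pairing with a synthesised vector on one layer. -/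
theorem pair_syn (j : ℕ) (o b : ℂ) (R : Finset GI) (a : GI → T3) (F : ℂ → ℂ) (G : ℂ → ℝ) :
    ts j (fun w => (F (al ^ j * (o + w)) * (b / 2 * ∑ κ ∈ R, ((a κ).x * chi κ (al ^ j * (o + w))
        + conj (a κ).X * conj (chi κ (al ^ j * (o + w)))))).re
      + G (al ^ j * (o + w)) * (∑ κ ∈ R, (a κ).s * chi κ (al ^ j * (o + w))).re)
    = ∑ κ ∈ R, (tp (a κ) (b * H j F o κ) (conj b * H j (fun z => conj (F z)) o κ)
      (H j (fun z => (G z : ℂ)) o κ)).re := by
  have h1 : ∀ κ, tp (a κ) (b * H j F o κ) (conj b * H j (fun z => conj (F z)) o κ)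
      (H j (fun z => (G z : ℂ)) o κ) = ts j (fun w =>
        conj (a κ).X * b / 2 * (F (al ^ j * (o + w)) * conj (chi κ (al ^ j * (o + w))))
        + conj (a κ).x * conj b / 2
          * (conj (F (al ^ j * (o + w))) * conj (chi κ (al ^ j * (o + w))))
        + conj (a κ).s * (G (al ^ j * (o + w)) * conj (chi κ (al ^ j * (o + w))))) := fun κ => by
    simp only [ts_add, ts_mul_left, tp, H]
    ring
  simp only [h1, ts_re]
  rw [← ts_sum]
  refine congrArg _ (funext fun w => ?_)
  simp only [Finset.mul_sum, re_sum, ← Finset.sum_add_distrib]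
  refine Finset.sum_congr rfl fun κ _ => ?_
  simp only [add_re, mul_re, mul_im, add_im, conj_re, conj_im, div_ofNat_re, div_ofNat_im,
    ofReal_re, ofReal_im]
  ring

end Pool.Agent.P.MP_cc4a10_gt.FUP
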