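import Pool.Agent.P.MP_cc4a10_gt.St

/-!
The fixed point and the passage to the limit.
-/

open Set Filter Topology Complex Metric
open scoped ComplexConjugate Real

noncomputable section

namespace Pool.Agent.P.MP_cc4a10_gt.FixP

theorem ts_cont {V : Type} [NormedAddCommGroup V] [NormedSpace ℝ V] (m : ℕ) {X : Set Cfg}
    {F : Cfg → GI → V} (h : ∀ u, ContinuousOn (fun x => F x u) X) :
    ContinuousOn (fun x => ts m (F x)) X := by
  unfold ts
  exact (continuousOn_finsetSum _ fun a _ => continuousOn_finsetSum _ fun b _ => h _).const_smul _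

theorem av_cont (m : ℕ) {X : Set Cfg} {F : Cfg → GI → ℂ}
    (h : ∀ u, ContinuousOn (fun x => F x u) X) : ContinuousOn (fun x => av m (F x)) X :=
  (ts_cont m h).const_smul _

theorem pair_cont (l : Lv) {X : Set Cfg} {F : Cfg → GI → ℂ} {G : Cfg → GI → ℝ}
    (h1 : ∀ u, ContinuousOn (fun x => F x u) X) (h2 : ∀ u, ContinuousOn (fun x => G x u) X)
    (ε : GI → ℂ) (σ : GI → ℝ) : ContinuousOn (fun x => pair l (F x) (G x) ε σ) X :=
  ts_cont (F := fun x u => (F x u * ε u).re + G x u * σ u) l.m fun u =>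
    (continuous_re.comp_continuousOn ((h1 u).mul continuousOn_const)).add
      ((h2 u).mul continuousOn_const)

theorem nT_nonneg (S : Sys) (v : Vec) (K : ℤ) : 0 ≤ nT S v K := by
  have h1 := g2_nonneg (lvT S K).m (eT S v K)
  have h2 := msq_nonneg (lvT S K).m (fun u => (sT S v K u : ℂ))
  unfold nT nb2; positivity

theorem pT_far (S : Sys) (F : ℤ → GI → ℂ) (G : ℤ → GI → ℝ) {N : ℕ} {v : Vec}
    (hv : Supp (-N) N v) {K : ℤ} (hK : K ∉ Finset.Icc (-N : ℤ) (N + 1)) : pT S F G v K = 0 := by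
  rw [Finset.mem_Icc] at hK
  have h : ∀ u, v.1 (lk S K u) = 0 ∧ v.2 (lk S K u) = 0 := fun u =>
    hv _ (by unfold lk; split_ifs <;> omega)
  simp [pT, pair, eT, sT, h]

theorem Eqn.mono {E : Ell} {S : Sys} {N N' : ℕ} (h : N ≤ N') {x : Cfg} (hx : Eqn E S N' x) :
    Eqn E S N x := fun v' h1 h2 => by
  rw [← hx v' h1 fun k hk => h2 k (by omega)]
  refine Finset.sum_subset (Finset.Icc_subset_Icc (by omega) (by omega)) fun K _ hK => ?_
  exact pT_far S _ _ h2 hK

theorem pT_FF (E : Ell) (S : Sys) (x : Cfg) (v' : Vec) (K : ℤ) :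
    pT S (FF E S x) (GG E S x) v' K = BT E S x.v v' K
      - pT S (fun K => flC K (fres E S x K)) (fun K => flR K (gres E S x K)) v' K := by
  unfold pT BT BL pair
  rw [← ts_sub]
  congr 1; funext u
  simp only [FF, GG, sub_mul, sub_re]; ring

/-- The auxiliary part of the map. -/
def GA (E : Ell) (L : LSop) (S : Sys) (x : Cfg) :
    (ℤ → GI → ℂ) × (ℤ → GI → ℂ) × (ℤ → ℂ) × (ℤ → ℂ) :=
  (xiN E L S x, sN E S x, muN E S x, lamN E S x)

theorem GA_cont (E : Ell) (L : LSop) (S : Sys) {X : Set Cfg}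
    (h1 : ∀ K u, ContinuousOn (fun x => I1 E S x K u) X)
    (h2 : ∀ K u, ContinuousOn (fun x => I2 E S x K u) X)
    (h3 : ∀ K u, ContinuousOn (fun x => xi1 E S x K u) X)
    (h4 : ∀ K u, ContinuousOn (fun x => sN E S x K u) X) : ContinuousOn (GA E L S) X := by
  have h0 : ∀ K u, ContinuousOn (fun x => xi0 E L S x K u) X := fun K u =>
    ((L.cont (mK S K) u).comp_continuousOn (f := fun x => (I1 E S x K, I2 E S x K))
      ((continuousOn_pi.2 (h1 K)).prodMk (continuousOn_pi.2 (h2 K)))).add (h3 K u)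
  refine ContinuousOn.prodMk ?_ (ContinuousOn.prodMk ?_ (ContinuousOn.prodMk ?_ ?_))
  · exact continuousOn_pi.2 fun K => continuousOn_pi.2 fun u =>
      ((h0 K u).sub (h0 K (-u))).div_const _
  · exact continuousOn_pi.2 fun K => continuousOn_pi.2 (h4 K)
  · refine continuousOn_pi.2 fun K => ContinuousOn.sub (Continuous.continuousOn ?_)
      (((av_cont _ (h1 K)).add (continuousOn_const.mul (av_cont _ (h2 K)))).div_const _)
    exact (continuous_apply K).comp continuous_snd.snd.snd.fst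
  · refine continuousOn_pi.2 fun K => ContinuousOn.sub (Continuous.continuousOn ?_)
      (((av_cont _ (h1 K)).sub (continuousOn_const.mul (av_cont _ (h2 K)))).div_const _)
    exact (continuous_apply K).comp continuous_snd.snd.snd.snd

theorem pT_cont (E : Ell) (S : Sys) {X : Set Cfg}
    (h1 : ∀ K u, ContinuousOn (fun x => fres E S x K u) X)
    (h2 : ∀ K u, ContinuousOn (fun x => gres E S x K u) X) (v' : Vec) (K : ℤ) :
    ContinuousOn (fun x => pT S (fun K => flC K (fres E S x K)) (fun K => flR K (gres E S x K))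
      v' K) X := by
  have a1 : ∀ u, ContinuousOn (fun x => flC K (fres E S x K) u) X := fun u => by
    unfold flC; split_ifs
    · exact h1 K u
    · exact (continuous_conj.comp_continuousOn (h1 K _)).neg
  have a2 : ∀ u, ContinuousOn (fun x => flR K (gres E S x K) u) X := fun u => by
    unfold flR; split_ifs
    · exact h2 K u
    · exact h2 K _
  exact pair_cont (F := fun x => flC K (fres E S x K)) (G := fun x => flR K (gres E S x K))
    (lvT S K) a1 a2 (eT S v' K) (sT S v' K)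

end FixP

open FixP in
theorem pFix (h1 : S_Tych) (h2 : S_Cpt) (h3 : S_Map) (h4 : S_Cont3) (h5 : S_Solv) (h6 : S_LT)
    (h7 : S_Stage) : S_Fix := by
  intro E L
  obtain ⟨jm, hm⟩ := h3 E L
  obtain ⟨jc, hc⟩ := h4 E
  obtain ⟨C, jl, -, hl⟩ := h6 E
  refine ⟨jm + jc + jl, fun j0 hj => ?_⟩
  obtain ⟨ok, big, -, -, -, -, mono, -⟩ := h7.1 j0
  set S := SS j0 with hS
  obtain ⟨cp, cv, x0⟩ := h2 S ok
  have hc' := hc S ok fun k => le_trans (by omega) (big k)
  have cG := GA_cont E L S (fun K u => (hc' K u).2.2.2.2.1) (fun K u => (hc' K u).2.2.2.2.2.1)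
    (fun K u => (hc' K u).2.2.2.2.2.2.1) fun K u => (hc' K u).2.2.2.2.2.2.2
  have cP := pT_cont E S (fun K u => (hc' K u).2.2.1) fun K u => (hc' K u).2.2.2.1
  set t : ℕ → Set Cfg := fun i =>
    {x ∈ {x | XX S x} | x.2 = GA E L S x} ∩ {x ∈ {x | XX S x} | Eqn E S (NN j0 i) x} with ht
  have tc : ∀ i, IsClosed (t i) := fun i => by
    refine (cp.isClosed.isClosed_eq continuous_snd.continuousOn cG).inter ?_
    have e : {x ∈ {x | XX S x} | Eqn E S (NN j0 i) x} = {x | XX S x} ∩
        ⋂ v', ⋂ _ : Adm S v', ⋂ _ : Supp (-NN j0 i) (NN j0 i) v', {x ∈ {x | XX S x} |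
          ∑ K ∈ Finset.Icc (-NN j0 i : ℤ) (NN j0 i + 1), pT S (fun K => flC K (fres E S x K))
            (fun K => flR K (gres E S x K)) v' K = 0} := by
      ext x
      simp only [mem_inter_iff, mem_iInter, mem_ofPred_eq]
      exact ⟨fun h => ⟨h.1, fun v' a b => ⟨h.1, h.2 v' a b⟩⟩,
        fun h => ⟨h.1, fun v' a b => (h.2 v' a b).2⟩⟩
    rw [e]
    exact cp.isClosed.inter (isClosed_iInter fun v' => isClosed_iInter fun _ =>
      isClosed_iInter fun _ => cp.isClosed.isClosed_eq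
        (continuousOn_finsetSum _ fun K _ => cP v' K) continuousOn_const)
  have tn : ∀ i, (t i).Nonempty := fun i => by
    obtain ⟨sv⟩ := h5 E S (NN j0 i) ok fun v a b c K hK => by
      have h := hl j0 i (by omega) v (fun _ => 0) ⟨a, b, fun _ => le_rfl, fun v' a' b' => by
        rw [c v' a' b']; simp⟩
      simp only [ne_eq, OfNat.ofNat_ne_zero, not_false_eq_true, zero_pow, zero_div,
        Finset.sum_const_zero, mul_zero] at h
      have h0 : ∀ K ∈ Finset.Icc (-NN j0 i : ℤ) (NN j0 i + 1),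
          0 ≤ nT S v K / tt (mK S K) ^ 40 := fun K _ =>
        div_nonneg (nT_nonneg S v K) (pow_pos (tt_pos _) _).le
      have h' := (Finset.sum_eq_zero_iff_of_nonneg h0).1 (le_antisymm h (Finset.sum_nonneg h0)) K hK
      exact (div_eq_zero_iff.1 h').resolve_right (pow_pos (tt_pos _) _).ne'
    have cT : ContinuousOn (TN E L S sv) {x | XX S x} :=
      (sv.cont.comp_continuousOn (f := fun x => (FF E S x, GG E S x))
        ((continuousOn_pi.2 fun K => continuousOn_pi.2 fun u => (hc' K u).1).prodMk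
          (continuousOn_pi.2 fun K => continuousOn_pi.2 fun u => (hc' K u).2.1))).prodMk cG
    obtain ⟨x, hx, fx⟩ := h1 Cfg {x | XX S x} (TN E L S sv) cp cv ⟨0, x0⟩ cT
      fun x hx => hm j0 i (by omega) sv x hx
    refine ⟨x, ⟨hx, (congrArg Prod.snd fx).symm⟩, hx, fun v' a b => ?_⟩
    have e1 : sv.f (FF E S x, GG E S x) = x.v := congrArg Prod.fst fx
    have e2 := sv.eq (FF E S x, GG E S x) v' a b
    rw [e1] at e2
    simp only [pT_FF, Finset.sum_sub_distrib] at e2
    linarith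
  obtain ⟨x, hx⟩ := IsCompact.nonempty_iInter_of_sequence_nonempty_isCompact_isClosed t
    (fun i x hx => ⟨hx.1, hx.2.1, Eqn.mono (mono.monotone (Nat.le_succ i)) hx.2.2⟩) tn
    (cp.of_isClosed_subset (tc 0) fun x hx => hx.1.1) tc
  rw [mem_iInter] at hx
  have e := (hx 0).1.2
  exact ⟨x, (hx 0).1.1, ⟨congrArg Prod.fst e, congrArg (fun p => p.2.1) e,
    congrArg (fun p => p.2.2.1) e, congrArg (fun p => p.2.2.2) e⟩,
    fun N => Eqn.mono (mono.le_apply) (hx N).2.2⟩

end Pool.Agent.P.MP_cc4a10_gt
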