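import Pool.Agent.P.MP_cc4a10_gt.Fo3

/-!
Package Fo: one step of the Cousin iteration.
-/

open Set Filter Topology Complex Metric
open scoped ComplexConjugate Real

noncomputable section

namespace Pool.Agent.P.MP_cc4a10_gt

namespace FoP

variable {E : Ell} {S : Sys} {x : Cfg} {K : ℤ} {u : GI} {a a' : ℝ} {M M' : Fam}

theorem rho1_le (hG : Gd E S x K) : rho1 (mK S K) / 2 ≤ rho (mK S K) := by
  have hd := dd_pos (mK S K)
  have hm := hG.m10
  have hs := hG.sm
  unfold rho1 rho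
  rw [div_le_div_iff₀ (by norm_num) (by linarith)]
  nlinarith

theorem far (hG : Gd E S x K) {u u' : GI} (h : u' ≠ u) {z : ℂ}
    (hz : ‖z - pK S x K u‖ ≤ rho (mK S K)) : 8 * rho (mK S K) ≤ ‖z - pK S x K u'‖ := by
  have h1 := hG.sep u' u h
  have h2 := rho_le hG.m10
  have h3 : ‖pK S x K u' - pK S x K u‖ ≤ ‖z - pK S x K u'‖ + ‖z - pK S x K u‖ := by
    calc _ = ‖(z - pK S x K u) - (z - pK S x K u')‖ := by congr 1; ring
      _ ≤ _ := by rw [add_comm]; exact norm_sub_le _ _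
  have := dd_pos (mK S K)
  linarith

theorem ker_cont (hK : S_Ker0) (hG : Gd E S x K) (hu : u ∈ Nk (lvF S K)) {z : ℂ}
    (hz : ‖z - pK S x K u‖ ≤ rho (mK S K) * (3 / 4)) (u' : GI) :
    ContinuousOn (fun ξ => E.Z (x.μ K) (ξ - z) + bE (x.μ K) * conj (ξ - pK S x K u'))
      (sphere (pK S x K u') (rho (mK S K))) := by
  have hρ := (hG.co u hu).pos
  obtain ⟨C, -, hC⟩ := hK E
  have hZ := (hC _ hG.mu).2.2.2.2.2.2.2.2.2.1
  intro ξ hξ
  rw [mem_sphere_iff_norm] at hξ
  have hn : ∀ g : GI, ξ - z ≠ Lm (x.μ K) g := by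
    intro g e
    obtain ⟨w, hw⟩ := hG.lat' g
    have h1 : ‖ξ - pK S x K (u + om ^ mK S K * w)‖ ≤ rho (mK S K) * (3 / 4) := by
      rw [hG.pper, hw, ← e]
      convert hz using 2
      ring
    by_cases h : u' = u + om ^ mK S K * w
    · rw [← h, hξ] at h1; linarith
    · have := far hG h (z := ξ) (by linarith)
      linarith
  have h1 : ContinuousAt (fun w => E.Z (x.μ K) w + bE (x.μ K) * conj w) (ξ - z) :=
    (hZ _ hn).2.continuousAt
  have h2 : ContinuousAt (fun ξ : ℂ => E.Z (x.μ K) (ξ - z) + bE (x.μ K) * conj (ξ - z)) ξ :=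
    ContinuousAt.comp (f := fun ξ : ℂ => ξ - z) h1 (by fun_prop)
  have h3 := h2.add (continuousAt_const (y := (bE (x.μ K) : ℂ) * conj (z - pK S x K u')))
  refine ContinuousAt.continuousWithinAt ?_
  convert h3 using 2 with ξ
  simp only [Pi.add_apply, map_sub]
  ring

theorem So_sub (hI : S_Inv) (hPar : S_Par) (hK : S_Ker0) (hS : S.ok) (hG : ∀ K, Gd E S x K)
    (hM : FamOK S x a M) (hM' : FamOK S x a' M') (hu : u ∈ Nk (lvF S K)) {z : ℂ}
    (hz : ‖z - pK S x K u‖ ≤ rho (mK S K) * (3 / 4)) :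
    So E S x K (fo E S x (M - M') K) (rho (mK S K)) z
      = So E S x K (fo E S x M K) (rho (mK S K)) z
        - So E S x K (fo E S x M' K) (rho (mK S K)) z := by
  have hρ := ((hG K).co u hu).pos
  have hρ1 := rho1_le (hG K)
  unfold So SoL
  rw [← ts_sub]
  congr 1
  funext u'
  by_cases hu' : u' ∈ Nk (lvF S K)
  swap
  · simp [fo_zero hu', cint, circleIntegral]
  have hs : sphere (pK S x K u') (rho (mK S K)) ⊆
      {ξ | rho1 (mK S K) / 4 < ‖ξ - pK S x K u'‖ ∧ ‖ξ - pK S x K u'‖ < 2 * rho (mK S K)} := by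
    intro ξ hξ
    rw [mem_sphere_iff_norm] at hξ
    constructor <;> rw [hξ] <;> linarith
  have hk := ker_cont hK (hG K) hu hz u'
  have h1 := ((fo_hol hI hPar hS hG hM hu').continuousOn.mono hs).mul hk
  have h2 := ((fo_hol hI hPar hS hG hM' hu').continuousOn.mono hs).mul hk
  refine Eq.trans ?_ (cint_sub hρ.le h1 h2)
  refine cint_congr hρ.le fun ξ hξ => ?_
  beta_reduce
  rw [fo_sub hI hPar hS hG hM hM' hu' (hs hξ).1 (hs hξ).2, sub_mul]

end FoP

open FoP in
theorem pFo (hPar : S_Par) (hFlip : S_Flip) (hLev : S_Lev) (hVt : S_Vt) (hI : S_Inv)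
    (hSo : S_So) (hDip : S_Dip) (hK : S_Ker0) : S_Fo := by
  intro E
  obtain ⟨j0, hj0⟩ := exists_gd hFlip hLev hVt hDip E
  obtain ⟨CS, mS, hCS, hSo⟩ := hSo E
  have hC : 0 < 1080 + 5400 * CS := by positivity
  obtain ⟨m2, hm2⟩ := exists_pow_mul_tt_le 2 (η := 1 / (2 * (1080 + 5400 * CS))) (by positivity)
  refine ⟨1080 + 5400 * CS, j0 + mS + m2, hC, fun S x hS hB hX a M hM => ?_⟩
  have hG := hj0 S x hS (fun k => le_trans (by omega) (hB k)) hX
  have hm : ∀ K, j0 + mS + m2 ≤ mK S K := by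
    intro K
    have h1 := hB (K - 1)
    have h2 := hB K
    unfold mK jl
    omega
  have ha := FamOK.nonneg (hG 0) hM
  have key : ∀ K, (∀ z, So E S x K (fo E S x M K) (rho (mK S K)) (-z)
        = So E S x K (fo E S x M K) (rho (mK S K)) z ∧ ∀ w,
        So E S x K (fo E S x M K) (rho (mK S K)) (z + prd S x K w)
        = So E S x K (fo E S x M K) (rho (mK S K)) z) ∧ ∀ u ∈ Nk (lvF S K),
      DifferentiableOn ℂ (So E S x K (fo E S x M K) (rho (mK S K)))
        (ball (pK S x K u) (rho (mK S K))) ∧ ∀ z, ‖z - pK S x K u‖ ≤ rho (mK S K) * (3 / 4) →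
      ‖So E S x K (fo E S x M K) (rho (mK S K)) z‖
        ≤ (1080 + 5400 * CS) * a * (mK S K : ℝ) ^ 2 * dd (mK S K) := by
    intro K
    have hd := dd_pos (mK S K)
    have h10 := (hG K).m10
    have hA : 0 ≤ 1080 * a * mK S K * dd (mK S K) ^ 3 := by positivity
    have h := (hSo _ _ _ (hG K).lg (le_trans (by omega) (hm K)) (fo E S x M K)
      (fun _ => 1080 * a * mK S K * dd (mK S K) ^ 3) (1080 * a * mK S K * dd (mK S K) ^ 3)
      (fun u hu => fo_zero hu) (fun u hu => fo_hol hI hPar hS hG hM hu)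
      (fun u ξ => fo_neg hPar hS hG hM u ξ) (fun u w ξ => fo_per hPar hS hG hM u w ξ)
      (fun _ _ => rfl) (fun _ => ⟨hA, le_rfl⟩)
      (fun u ξ h1 h2 => fo_bd hI hPar hS hG hM u h1 h2)).1 (rho (mK S K)) (rho1_le (hG K)) le_rfl
    refine ⟨fun z => ⟨(h.1 z).1, fun w => ?_⟩, fun u hu => ⟨fun z hz => ?_, fun z hz => ?_⟩⟩
    · obtain ⟨w', e⟩ := (hG K).lat w
      rw [e]
      exact (h.1 z).2 w'
    · have hρ := ((hG K).co u hu).pos
      rw [mem_ball_iff_norm] at hz
      refine (h.2.1 z fun u' _ => ?_).differentiableWithinAt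
      by_cases e : u' = u
      · rw [e]; exact hz.ne
      · have := far (hG K) e hz.le
        exact ne_of_gt (lt_of_lt_of_le (by linarith) this)
    · have hρ := ((hG K).co u hu).pos
      refine (h.2.2 z (rho (mK S K) / 4) (by positivity) fun u' _ => ?_).trans ?_
      · by_cases e : u' = u
        · rw [e]
          refine le_abs.2 (Or.inr ?_)
          have : ‖z - pos (lvF S K) (ls S x K) u‖ ≤ rho (mK S K) * (3 / 4) := hz
          linarith
        · have : 8 * rho (mK S K) ≤ ‖z - pos (lvF S K) (ls S x K) u'‖ :=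
            far (hG K) e (z := z) (by linarith)
          exact le_abs.2 (Or.inl (by linarith))
      · have em : (lvF S K).m = mK S K := rfl
        rw [em]
        have h1 : √(msq (mK S K) fun _ => ((1080 * a * mK S K * dd (mK S K) ^ 3 : ℝ) : ℂ))
            ≤ 1080 * a * mK S K * dd (mK S K) ^ 3 := by
          refine Real.sqrt_le_iff.2 ⟨hA, msq_le_of_le _ fun _ => ?_⟩
          rw [Complex.norm_real, Real.norm_of_nonneg hA]
        have h2 : √(mK S K : ℝ) ≤ mK S K := Real.sqrt_le_iff.2 ⟨by positivity, by nlinarith⟩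
        have h3 := dd_le_one (mK S K)
        unfold rho
        set d := dd (mK S K)
        set m : ℝ := ((mK S K : ℕ) : ℝ)
        have h4 : 1080 * a * m * d ^ 3 / (d / m / 4) = 4320 * (a * m ^ 2 * d) * d := by
          field_simp; ring
        have h5 : m * (1080 * a * m * d ^ 3) / d ^ 2 = 1080 * (a * m ^ 2 * d) := by
          field_simp
        have h6 : 0 ≤ a * m ^ 2 * d := by positivity
        calc _ ≤ CS * (1080 * a * m * d ^ 3 / (d / m / 4) + m * (1080 * a * m * d ^ 3) / d ^ 2) := by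
              gcongr
          _ ≤ CS * (4320 * (a * m ^ 2 * d) * 1 + 1080 * (a * m ^ 2 * d)) := by
              rw [h4, h5]; gcongr
          _ ≤ _ := by nlinarith
  refine ⟨fun K u hu => ⟨?_, fun z hz => ?_, fun z => ((key K).1 z).1,
    fun w z => ((key K).1 z).2 w⟩, fun K => ⟨fun u hu => ?_, fun u ξ => ⟨fo_neg hPar hS hG hM u ξ,
      fun w => fo_per hPar hS hG hM u w ξ, fun h1 h2 => ?_⟩⟩⟩
  · have hρ := ((hG K).co u hu).pos
    exact ((key K).2 u hu).1.mono (ball_subset_ball (by linarith))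
  · refine (((key K).2 u hu).2 z hz).trans ?_
    have h1 := hm2 (mK S K) (le_trans (by omega) (hm K))
    have h2 : dd (mK S K) ≤ tt (mK S K) := by
      rw [← tt_pow_16]
      exact pow_le_of_le_one (tt_pos _).le (tt_le_one _) (by norm_num)
    rw [le_div_iff₀ (by positivity)] at h1
    calc _ ≤ (1080 + 5400 * CS) * a * (mK S K : ℝ) ^ 2 * tt (mK S K) := by gcongr
      _ = a / 2 * ((mK S K : ℝ) ^ 2 * tt (mK S K) * (2 * (1080 + 5400 * CS))) := by ring
      _ ≤ a / 2 * 1 := by gcongr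
      _ = _ := mul_one _
  · have hc := (hG K).co u hu
    exact ⟨(hG K).tnb u, (hc.inv hI (hM K u hu).1).1,
      fun y hy => hc.bd hI (hM K u hu).1 (hM K u hu).2.1 hy,
      fun z hz => hc.back hI (hM K u hu).1 hz,
      fun y => ⟨mm_neg (hG K) hM hu y, fun w => mm_per (hG K) hM hu w y⟩,
      fo_hol hI hPar hS hG hM hu, ((key K).2 u hu).1,
      fun z hz => ⟨((key K).2 u hu).2 z hz, fun a' M' hM' => So_sub hI hPar hK hS hG hM hM' hu hz⟩⟩
  · refine (fo_bd hI hPar hS hG hM u h1 h2).trans ?_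
    have hd := dd_pos (mK S K)
    gcongr
    linarith

end Pool.Agent.P.MP_cc4a10_gt
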