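import Pool.Agent.P.MP_cc4a10_gt.St

/-!
The force at the necks in mean square.
-/

open Set Filter Topology Complex Metric
open scoped ComplexConjugate Real

noncomputable section

namespace Pool.Agent.P.MP_cc4a10_gt.FrcP

theorem Lm_add (μ z w : ℂ) : Lm μ (z + w) = Lm μ z + Lm μ w := by
  simp only [Lm, map_add]; ring
theorem Lm_neg (μ z : ℂ) : Lm μ (-z) = -Lm μ z := by
  simp only [Lm, map_neg]; ring
theorem Lm_sub (μ z w : ℂ) : Lm μ (z - w) = Lm μ z - Lm μ w := by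
  simp only [Lm, map_sub]; ring

theorem N_le_add (m : ℕ) {T F G : GI → ℂ} (h : ∀ u, ‖T u‖ ≤ ‖F u‖ + ‖G u‖) :
    √(msq m T) ≤ √(msq m F) + √(msq m G) := by
  have e : ∀ F : GI → ℂ, msq m (fun u => ((‖F u‖ : ℝ) : ℂ)) = msq m F := fun F => by
    simp only [msq, Complex.norm_real, norm_norm]
  rw [← e F, ← e G]
  refine le_trans (Real.sqrt_le_sqrt (msq_mono m fun u => ?_)) (sqrt_msq_add_le m _ _)
  rw [← Complex.ofReal_add, Complex.norm_real, Real.norm_of_nonneg (by positivity)]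
  exact h u

theorem sqrt_le_of {x y : ℝ} (hy : 0 ≤ y) (h : x ≤ y ^ 2) : √x ≤ y :=
  Real.sqrt_le_iff.2 ⟨hy, h⟩

/-- The shifted kernel. -/
def GZ (E : Ell) (c μ : ℂ) (x : GI) (e : ℂ) : ℂ := E.Z μ (Lm μ (c * x) + e)

theorem GZ_per (E : Ell) {m : ℕ} {c μ : ℂ} (hμ : ‖μ‖ ≤ 1 / 100) {w0 : GI}
    (hw : c * ((om ^ m : GI) : ℂ) = w0) (e : ℂ) : Per m (fun x => GZ E c μ x e) := by
  intro x w
  have h1 : c * ((x + om ^ m * w : GI) : ℂ) = c * x + ((w0 * w : GI) : ℂ) := by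
    rw [map_add, map_mul, map_mul, ← hw]; ring
  simp only [GZ]
  rw [h1, Lm_add, add_right_comm]
  exact E.Zper μ hμ _ _

/-- Pure inequality behind the gradient bound. -/
theorem grad_ineq {C d H a δ μ X Y : ℝ} (hC : 0 < C) (hd : 0 < d) (hH : 1 ≤ H) (hdH : H * d ≤ 2)
    (ha : 0 ≤ a) (had : a ≤ d) (hδ : 0 ≤ δ) (hδd : δ ≤ d) (hμ : μ ≤ 1)
    (hX : X ≤ C * (μ * (a / H ^ 3 + δ / H ^ 2) / d ^ 2
      + (a ^ 2 / H ^ 4 + a * δ / H ^ 3 + δ ^ 2 / H ^ 3) / d ^ 3))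
    (hY : Y ≤ C / (d ^ 2 * H ^ 3) * (a + δ) + C / (d * H) ^ 2 * δ + 4 * δ) :
    4 * d ^ 2 * (X + Y) ≤ (20 * C + 64) * (1 / H ^ 3 * a) + (20 * C + 64) * (1 / H ^ 2 * δ) := by
  have hH0 : 0 < H := by linarith
  set A := a / H ^ 3 with hA
  set D := δ / H ^ 2 with hD
  have hA0 : 0 ≤ A := by positivity
  have hD0 : 0 ≤ D := by positivity
  have e1 : a ^ 2 / H ^ 4 ≤ d * A := by
    rw [hA, ← mul_div_assoc, div_le_div_iff₀ (by positivity) (by positivity)]
    have : a * 1 ≤ d * H := by gcongr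
    have h3 : 0 ≤ a * H ^ 3 := by positivity
    nlinarith [mul_le_mul_of_nonneg_left this h3]
  have e2 : a * δ / H ^ 3 ≤ d * D := by
    rw [hD, ← mul_div_assoc, div_le_div_iff₀ (by positivity) (by positivity)]
    have : a * 1 ≤ d * H := by gcongr
    have h3 : 0 ≤ δ * H ^ 2 := by positivity
    nlinarith [mul_le_mul_of_nonneg_left this h3]
  have e3 : δ ^ 2 / H ^ 3 ≤ d * D := by
    rw [hD, ← mul_div_assoc, div_le_div_iff₀ (by positivity) (by positivity)]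
    have : δ * 1 ≤ d * H := by gcongr
    have h3 : 0 ≤ δ * H ^ 2 := by positivity
    nlinarith [mul_le_mul_of_nonneg_left this h3]
  have e4 : δ / H ^ 3 ≤ D := by
    rw [hD]; gcongr; norm_num
  have e5 : d ^ 2 * δ ≤ 4 * D := by
    rw [hD, ← mul_div_assoc, le_div_iff₀ (by positivity)]
    have : (H * d) ^ 2 ≤ 2 ^ 2 := by gcongr
    nlinarith [mul_le_mul_of_nonneg_left this hδ]
  have x1 : d ^ 2 * X ≤ C * (2 * A + 3 * D) := by
    have f1 : μ * (A + D) / d ^ 2 ≤ (A + D) / d ^ 2 := by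
      gcongr; nlinarith
    have f2 : (a ^ 2 / H ^ 4 + a * δ / H ^ 3 + δ ^ 2 / H ^ 3) / d ^ 3 ≤ (A + 2 * D) / d ^ 2 := by
      rw [div_le_div_iff₀ (by positivity) (by positivity)]
      have : a ^ 2 / H ^ 4 + a * δ / H ^ 3 + δ ^ 2 / H ^ 3 ≤ d * (A + 2 * D) := by linarith
      nlinarith [mul_le_mul_of_nonneg_right this (by positivity : 0 ≤ d ^ 2)]
    have f3 : X ≤ C * ((2 * A + 3 * D) / d ^ 2) := by
      refine hX.trans ?_
      have : (2 * A + 3 * D) / d ^ 2 = (A + D) / d ^ 2 + (A + 2 * D) / d ^ 2 := by ring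
      rw [this]; gcongr
    calc d ^ 2 * X ≤ d ^ 2 * (C * ((2 * A + 3 * D) / d ^ 2)) := by gcongr
      _ = C * (2 * A + 3 * D) := by field_simp
  have y1 : d ^ 2 * Y ≤ C * (A + 2 * D) + 16 * D := by
    have g1 : d ^ 2 * (C / (d ^ 2 * H ^ 3) * (a + δ)) = C * (A + δ / H ^ 3) := by
      rw [hA]; field_simp
    have g2 : d ^ 2 * (C / (d * H) ^ 2 * δ) = C * D := by
      rw [hD]; field_simp
    have g3 : d ^ 2 * Y ≤ d ^ 2 * (C / (d ^ 2 * H ^ 3) * (a + δ) + C / (d * H) ^ 2 * δ + 4 * δ) := by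
      gcongr
    rw [mul_add, mul_add, g1, g2] at g3
    nlinarith [mul_le_mul_of_nonneg_left e4 hC.le]
  have z1 : 1 / H ^ 3 * a = A := by rw [hA]; ring
  have z2 : 1 / H ^ 2 * δ = D := by rw [hD]; ring
  rw [z1, z2]
  nlinarith [mul_nonneg hC.le hA0, mul_nonneg hC.le hD0]

theorem St_neg {g : GI} (h : St g) : St (-g) := by
  rcases h with h | h | h | h <;> subst h <;> simp [St]

end Pool.Agent.P.MP_cc4a10_gt.FrcP

namespace Pool.Agent.P.MP_cc4a10_gt

open FrcP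

theorem pFrc (hBox : S_Box) (hSum : S_Sum) (hY : S_Young) (hDn : S_Dn) (hDual : S_Dual)
    (hDip : S_Dip) (hK0 : S_Ker0) (hKZ : S_KerZ) (hLev : S_Lev) : S_Frc := by
  intro E
  obtain ⟨Cs, hCs, hS⟩ := hSum
  obtain ⟨_, -, hDn⟩ := hDn
  obtain ⟨_, -, hK0⟩ := hK0 E
  obtain ⟨C, m1, hC, hKZ⟩ := hKZ E
  obtain ⟨_, m2, -, hLev⟩ := hLev E
  obtain ⟨m3, hm3⟩ := exists_pow_mul_tt_le 0 (η := 1 / 100) (by norm_num)
  set K : ℝ := 20 * C + 64 with hK
  have hK0' : 0 < K := by positivity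
  refine ⟨6 * K * Cs + 4 * C * Cs + 4 * C * Cs, max m1 (max m2 m3), by positivity, ?_⟩
  intro l s b hG hm
  have hm1 : m1 ≤ l.m := le_trans (le_max_left _ _) hm
  have hm2 : m2 ≤ l.m := le_trans ((le_max_left _ _).trans (le_max_right _ _)) hm
  have hm3' : m3 ≤ l.m := le_trans ((le_max_right _ _).trans (le_max_right _ _)) hm
  have h2m : 2 ≤ l.m := hG.ok.1
  have hmr : (1 : ℝ) ≤ l.m := by exact_mod_cast (by omega : 1 ≤ l.m)
  have hd := dd_pos l.m
  have hb := hG.b0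
  have hμ : ‖s.μ‖ ≤ 1 / 100 := by
    have h1 : tt l.m ≤ 1 / 100 := by simpa using hm3 l.m hm3'
    have h2 : tt l.m ^ 30 ≤ tt l.m :=
      pow_le_of_le_one (tt_pos _).le (tt_le_one _) (by norm_num)
    exact hG.mu.trans (h2.trans h1)
  obtain ⟨hmr0, -, hHp, -, hH, -, -, -⟩ := hBox l.m
  obtain ⟨-, hS2, -⟩ := hS l.m (by omega)
  obtain ⟨⟨β1, β2, -, -, hβ, -, -, hβΨ⟩, hodd, hqp, -, -, -, hq4, -, ⟨w0, hw0, -⟩, -⟩ :=
    hDip l hG.ok
  obtain ⟨hsup, -⟩ := hLev l s b hG hm2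
  obtain ⟨-, -, -, -, hZo, -⟩ := hK0 s.μ hμ
  have hKZ := hKZ l s.μ hG.ok hm1 hμ
  have hpe := hG.lv.pe
  have hps := hG.lv.ps
  -- sizes of the state
  have hnb := hG.nb
  unfold nb2 at hnb
  have hg0 := g2_nonneg l.m s.ε
  have hσ0 := msq_nonneg l.m (fun u => (s.σ u : ℂ))
  have hg2 : g2 l.m s.ε ≤ (dd l.m * b) ^ 2 := by
    have : g2 l.m s.ε / dd l.m ^ 2 ≤ b ^ 2 := by
      nlinarith [sq_nonneg (dn l.m fun u => q0 l u * s.σ u / dd l.m ^ 2)]
    rw [div_le_iff₀ (by positivity)] at this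
    linarith
  have hσ2 : msq l.m (fun u => (s.σ u : ℂ)) ≤ b ^ 2 := by
    have : 0 ≤ g2 l.m s.ε / dd l.m ^ 2 := by positivity
    nlinarith [sq_nonneg (dn l.m fun u => q0 l u * s.σ u / dd l.m ^ 2)]
  have hρp : Per l.m (fun u => q0 l u * s.σ u) := fun u w => by
    simp only [hqp u w, hps u w]
  have hdn : dn l.m (fun u => q0 l u * s.σ u) ^ 2 ≤ (dd l.m ^ 2 * b) ^ 2 := by
    have hp' : Per l.m (fun u => q0 l u * s.σ u / dd l.m ^ 2) := fun u w => by
      simp only [hqp u w, hps u w]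
    have hz' : ts l.m (fun u => q0 l u * s.σ u / dd l.m ^ 2) = 0 := by
      have := ts_mul_left_real l.m (dd l.m ^ 2)⁻¹ (fun u => q0 l u * s.σ u)
      rw [hG.lv.neu, mul_zero] at this
      rw [← this]; congr 1; funext u; ring
    obtain ⟨-, -, -, -, hh, -⟩ := hDn l.m _ h2m hp' hz'
    have e : (fun u => q0 l u * s.σ u)
        = fun u => dd l.m ^ 2 * (q0 l u * s.σ u / dd l.m ^ 2) := by
      funext u; field_simp
    rw [e, hh, abs_of_pos (by positivity), mul_pow, mul_pow]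
    have : 0 ≤ g2 l.m s.ε / dd l.m ^ 2 := by positivity
    have h3 : 0 ≤ (l.m : ℝ) * msq l.m (fun u => (s.σ u : ℂ)) := by positivity
    exact mul_le_mul_of_nonneg_left (by linarith) (by positivity)
  have he : ∀ u w, ‖s.ε u - s.ε w‖ ≤ dd l.m / 10 := fun u w => by
    have h1 := (hsup u).2.1
    have h2 := (hsup w).2.1
    have h3 : rho l.m ≤ dd l.m := div_le_self hd.le hmr
    have := norm_sub_le (s.ε u) (s.ε w)
    linarith
  have he0 : ∀ u w, mr l.m (u - w) = 0 → s.ε u - s.ε w = 0 := fun u w h =>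
    sub_eq_zero.2 (hpe.of_dvd ((hmr0 _).2.2.2.1 h))
  -- kernels
  set k : GI → ℂ := fun x => GZ E l.c s.μ x 0 with hk
  have hk' : ∀ x, k x = E.Z s.μ (Lm s.μ (l.c * x)) := fun x => by simp [hk, GZ]
  have hkp : Per l.m k := GZ_per E hμ hw0 0
  have hko : ∀ x, k (-x) = -k x := fun x => by
    rw [hk', hk', map_neg, mul_neg, Lm_neg, (hZo _).1]
  set Ψ : GI → GI → ℂ := fun u w => GZ E l.c s.μ (u - w) (s.ε u - s.ε w) - k (u - w) with hΨ
  have hΨp : ∀ u, Per l.m (Ψ u) := fun u w v => by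
    simp only [hΨ, hpe w v]
    exact congrArg₂ (· - ·) (((GZ_per E hμ hw0 (s.ε u - s.ε w)).sub_left u) w v)
      ((hkp.sub_left u) w v)
  have hΨK : ∀ u w, Ψ u w = KZ E l.c s.μ (u - w) (s.ε u - s.ε w)
      + (-E.wp (l.c * ((u - w : GI) : ℂ)) * (s.ε u - s.ε w) - π * conj (s.ε u - s.ε w)) :=
    fun u w => by simp only [hΨ, hk', GZ, KZ]; ring
  -- the splitting
  have hsplit : ∀ u, RR E l s u (pos l s u) =
      (ts l.m (fun w => (β1 w : ℂ) * (Ψ u (w + 1) - Ψ u w))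
        + ts l.m (fun w => (β2 w : ℂ) * (Ψ u (w + gi) - Ψ u w)))
      + (ts l.m (fun w => ((q0 l w * s.σ w : ℝ) : ℂ) * Ψ u w)
        + ts l.m (fun w => ((q0 l w * s.σ w : ℝ) : ℂ) * k (u - w))) := fun u => by
    rw [← ts_add, ← hβΨ _ (hΨp u), ← ts_add, ← add_zero (ts l.m fun w => (q0 l w : ℂ) * Ψ u w),
      ← hodd k u hkp hko, ← ts_add, ← ts_add]
    simp only [RR, sub_self, div_zero, sub_zero, psi]
    congr 1; funext w
    have : pos l s u - pos l s w = Lm s.μ (l.c * ((u - w : GI) : ℂ)) + (s.ε u - s.ε w) := by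
      simp only [pos, map_sub, mul_sub, Lm_sub]; ring
    rw [this]
    simp only [hΨ, GZ, qq]; push_cast; ring
  -- gradient of the kernel
  have hgrad : ∀ (g : GI) (β : GI → ℝ), St g → (∀ w, |β w| ≤ 4 * dd l.m ^ 2) → ∀ u w,
      ‖(β w : ℂ) * (Ψ u (w + g) - Ψ u w)‖ ≤ K * (1 / Hh l.m (u - w) ^ 3 * ‖s.ε u - s.ε w‖)
        + K * (1 / Hh l.m (u - w) ^ 2 * ‖s.ε (w + g) - s.ε w‖) := by
    intro g β hg hβ u w
    obtain ⟨h1, -, -, -, -, h6, h7, -⟩ := hKZ (u - w) (-g) (-g) (St_neg hg) (St_neg hg)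
    have ex : u - w + -g = u - (w + g) := by ring
    obtain ⟨-, -, h1⟩ := h1 _ (he u w) (he0 u w)
    have h1 := h1 _ (he u (w + g)) (by rw [ex]; exact he0 u (w + g))
    rw [ex] at h1 h7
    have ed : ‖s.ε u - s.ε (w + g) - (s.ε u - s.ε w)‖ = ‖s.ε (w + g) - s.ε w‖ := by
      rw [← norm_neg]; congr 1; ring
    rw [ed] at h1
    set e := s.ε u - s.ε w with hee
    set δ := s.ε (w + g) - s.ε w with hδ
    have e' : s.ε u - s.ε (w + g) = e - δ := by rw [hee, hδ]; ring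
    set W := E.wp (l.c * ((u - w : GI) : ℂ))
    set W' := E.wp (l.c * ((u - (w + g) : GI) : ℂ))
    have hy : ‖(-W' * (e - δ) - π * conj (e - δ)) - (-W * e - π * conj e)‖
        ≤ C / (dd l.m ^ 2 * Hh l.m (u - w) ^ 3) * (‖e‖ + ‖δ‖)
          + C / (dd l.m * Hh l.m (u - w)) ^ 2 * ‖δ‖ + 4 * ‖δ‖ := by
      have : (-W' * (e - δ) - π * conj (e - δ)) - (-W * e - π * conj e)
          = -((W' - W) * (e - δ)) + W * δ + π * conj δ := by rw [map_sub]; ring
      rw [this]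
      refine (norm_add₃_le).trans ?_
      rw [norm_neg, norm_mul, norm_mul, norm_mul, Complex.norm_conj, Complex.norm_real,
        Real.norm_of_nonneg Real.pi_pos.le]
      have hp : (π : ℝ) ≤ 4 := Real.pi_le_four
      have hHu := lt_of_lt_of_le one_pos (hH (u - w)).1
      gcongr
      exact norm_sub_le _ _
    have hHu := hH (u - w)
    have key := grad_ineq hC hd hHu.1 hHu.2.1 (norm_nonneg e) ((he u w).trans (by linarith))
      (norm_nonneg δ) ((he (w + g) w).trans (by linarith)) 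
      (hμ.trans (by norm_num)) h1 hy
    refine le_trans ?_ key
    rw [norm_mul, Complex.norm_real, Real.norm_eq_abs]
    gcongr
    · exact hβ w
    · rw [hΨK, hΨK, e']
      refine le_trans (le_of_eq ?_) (norm_add_le _ _)
      congr 1; ring
  have hHpos : ∀ x, 0 < Hh l.m x := fun x => lt_of_lt_of_le one_pos (hH x).1
  have hkH : ∀ (a : ℝ) (n : ℕ), Per l.m (fun x => a * (1 / Hh l.m x ^ n)) := fun a n u w => by
    simp only [hHp u w]
  have hts2 : ∀ a : ℝ, 0 ≤ a → ts l.m (fun x => a * (1 / Hh l.m x ^ 2)) ≤ a * (Cs * l.m) :=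
    fun a ha => by rw [ts_mul_left_real]; gcongr
  have hts0 : ∀ a : ℝ, 0 ≤ a → 0 ≤ ts l.m (fun x => a * (1 / Hh l.m x ^ 2)) :=
    fun a ha => ts_nonneg _ fun x => by have := hHpos x; positivity
  -- Young for a weight and a periodic function
  have hY1 : ∀ (a : ℝ) (y : GI → ℂ) (A : GI → GI → ℂ) (B : ℝ), 0 ≤ a → 0 ≤ B → Per l.m y →
      msq l.m y ≤ B ^ 2 → (∀ u w, ‖A u w‖ ≤ a * (1 / Hh l.m (u - w) ^ 2) * ‖y w‖) →
      √(msq l.m (fun u => ts l.m (A u))) ≤ a * (Cs * l.m) * B := by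
    intro a y A B ha hB hy hyB hA
    have h := (hY l.m _ (hkH a 2) (fun x => by have := hHpos x; positivity)).1 y A hy hA
    refine sqrt_le_of (by positivity) (h.trans ?_)
    rw [mul_pow]
    gcongr
    · exact msq_nonneg _ _
    · exact hts0 a ha
    · exact hts2 a ha
  have hA : ∀ (g : GI) (β : GI → ℝ), St g → (∀ w, |β w| ≤ 4 * dd l.m ^ 2) →
      msq l.m (fun w => s.ε (w + g) - s.ε w) ≤ g2 l.m s.ε →
      √(msq l.m (fun u => ts l.m (fun w => (β w : ℂ) * (Ψ u (w + g) - Ψ u w))))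
        ≤ 3 * K * Cs * l.m * dd l.m * b := by
    intro g β hg hβ hgm
    have n1 : ∀ u w, 0 ≤ K * (1 / Hh l.m (u - w) ^ 3 * ‖s.ε u - s.ε w‖) := fun u w => by
      have := hHpos (u - w); positivity
    have n2 : ∀ u w, 0 ≤ K * (1 / Hh l.m (u - w) ^ 2 * ‖s.ε (w + g) - s.ε w‖) := fun u w => by
      have := hHpos (u - w); positivity
    have s1 := N_le_add l.m
      (T := fun u => ts l.m (fun w => (β w : ℂ) * (Ψ u (w + g) - Ψ u w)))
      (F := fun u => ts l.m (fun w =>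
        ((K * (1 / Hh l.m (u - w) ^ 3 * ‖s.ε u - s.ε w‖) : ℝ) : ℂ)))
      (G := fun u => ts l.m (fun w =>
        ((K * (1 / Hh l.m (u - w) ^ 2 * ‖s.ε (w + g) - s.ε w‖) : ℝ) : ℂ))) fun u => by
      rw [← ts_ofReal, ← ts_ofReal, Complex.norm_real, Complex.norm_real,
        Real.norm_of_nonneg (ts_nonneg _ (n1 u)), Real.norm_of_nonneg (ts_nonneg _ (n2 u)),
        ← ts_add]
      exact (norm_ts_le _ _).trans (ts_mono _ (hgrad g β hg hβ u))
    have s2 := hY1 K (fun w => s.ε (w + g) - s.ε w) (fun u w =>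
        ((K * (1 / Hh l.m (u - w) ^ 2 * ‖s.ε (w + g) - s.ε w‖) : ℝ) : ℂ)) (dd l.m * b) hK0'.le
        (by positivity) (fun u w => by simp only [(hpe.shift g) u w, hpe u w]) (hgm.trans hg2)
        fun u w => by
          rw [Complex.norm_real, Real.norm_of_nonneg (n2 u w)]; exact le_of_eq (by ring)
    have s3 := (hY l.m _ (hkH K 3) (fun x => by have := hHpos x; positivity)).2.2.1 s.ε
      (fun u w => ((K * (1 / Hh l.m (u - w) ^ 3 * ‖s.ε u - s.ε w‖) : ℝ) : ℂ)) hpe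
        fun u w => by
          rw [Complex.norm_real, Real.norm_of_nonneg (n1 u w)]; exact le_of_eq (by ring)
    have e3 : (fun x => K * (1 / Hh l.m x ^ 3) * Hh l.m x)
        = fun x => K * (1 / Hh l.m x ^ 2) := by
      funext x; have := hHpos x; field_simp
    rw [e3] at s3
    have s4 := sqrt_le_of (y := 2 * (K * (Cs * l.m)) * (dd l.m * b)) (by positivity)
      (s3.trans (by
        have t1 : ts l.m (fun x => K * (1 / Hh l.m x ^ 2)) ^ 2 ≤ (K * (Cs * l.m)) ^ 2 := by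
          gcongr; exacts [hts0 K hK0'.le, hts2 K hK0'.le]
        calc 2 * ts l.m (fun x => K * (1 / Hh l.m x ^ 2)) ^ 2 * g2 l.m s.ε
            ≤ 4 * (K * (Cs * l.m)) ^ 2 * (dd l.m * b) ^ 2 := by gcongr; norm_num
          _ = _ := by ring))
    refine s1.trans ?_
    linarith
  have hA1 := hA 1 β1 (Or.inl rfl) (fun w => (hβ w).1)
    (le_add_of_nonneg_right (msq_nonneg _ _))
  have hA2 := hA gi β2 (Or.inr (Or.inr (Or.inl rfl))) (fun w => (hβ w).2)
    (le_add_of_nonneg_left (msq_nonneg _ _))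
  -- the cross term
  have hB := hY1 (4 * C * dd l.m) (fun w => (s.σ w : ℂ))
    (fun u w => ((q0 l w * s.σ w : ℝ) : ℂ) * Ψ u w) b (by positivity) hb
    (fun u w => by simp only [hps u w]) hσ2 fun u w => by
      obtain ⟨h1, -⟩ := hKZ (u - w) 1 1 (Or.inl rfl) (Or.inl rfl)
      obtain ⟨-, h1, -⟩ := h1 _ (he u w) (he0 u w)
      have h2 : ‖Ψ u w‖ ≤ C * dd l.m / (dd l.m * Hh l.m (u - w)) ^ 2 := by
        simp only [hΨ, hk', GZ]
        refine h1.trans ?_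
        gcongr
        exact (he u w).trans (by linarith)
      have := hHpos (u - w)
      rw [norm_mul, Complex.norm_real, Complex.norm_real, Real.norm_eq_abs, Real.norm_eq_abs,
        abs_mul]
      calc |q0 l w| * |s.σ w| * ‖Ψ u w‖
          ≤ 4 * dd l.m ^ 2 * |s.σ w| * (C * dd l.m / (dd l.m * Hh l.m (u - w)) ^ 2) := by
            gcongr; exact hq4 w
        _ = _ := by field_simp
  -- the field of the density
  have hkg : ∀ g, St g → ts l.m (fun x => ‖k (x + g) - k x‖) ≤ 2 * C / dd l.m * (Cs * l.m) := by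
    intro g hg
    refine le_trans (ts_mono _ fun x => ?_) (hts2 _ (by positivity))
    obtain ⟨-, -, h3, h4, -⟩ := hKZ x g g hg hg
    have := hHpos x
    have h5 : C * ‖s.μ‖ / (dd l.m * Hh l.m x ^ 2) ≤ C * 1 / (dd l.m * Hh l.m x ^ 2) := by
      gcongr; exact hμ.trans (by norm_num)
    rw [hk', hk']
    calc _ = ‖((E.Z s.μ (Lm s.μ (l.c * (x + g : GI))) - E.Z 0 (l.c * (x + g : GI)))
            - (E.Z s.μ (Lm s.μ (l.c * x)) - E.Z 0 (l.c * x)))
            + (E.Z 0 (l.c * (x + g : GI)) - E.Z 0 (l.c * x))‖ := by congr 1; ring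
      _ ≤ C * 1 / (dd l.m * Hh l.m x ^ 2) + C / (dd l.m * Hh l.m x ^ 2) :=
          (norm_add_le _ _).trans (add_le_add (h3.trans h5) h4)
      _ = _ := by field_simp; norm_num
  have hD := hDual l.m _ k _ h2m hρp hG.lv.neu hkp (hkg 1 (Or.inl rfl))
    (hkg gi (Or.inr (Or.inr (Or.inl rfl))))
  have hD' := sqrt_le_of (y := 4 * C * Cs * l.m * dd l.m * b) (by positivity) (hD.trans (by
    calc 2 * (2 * C / dd l.m * (Cs * l.m)) ^ 2 * dn l.m (fun u => q0 l u * s.σ u) ^ 2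
        ≤ 4 * (2 * C / dd l.m * (Cs * l.m)) ^ 2 * (dd l.m ^ 2 * b) ^ 2 := by gcongr; norm_num
      _ = _ := by field_simp; norm_num))
  -- assembly
  have f1 : msq l.m (nkr l (fun u => RR E l s u (pos l s u)))
      ≤ msq l.m (fun u => RR E l s u (pos l s u)) := msq_mono _ fun u => by
    unfold nkr; split_ifs <;> simp
  refine f1.trans ?_
  simp only [hsplit]
  have f2 := sqrt_msq_add_le l.m
    (fun u => ts l.m (fun w => (β1 w : ℂ) * (Ψ u (w + 1) - Ψ u w))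
        + ts l.m (fun w => (β2 w : ℂ) * (Ψ u (w + gi) - Ψ u w)))
    (fun u => ts l.m (fun w => ((q0 l w * s.σ w : ℝ) : ℂ) * Ψ u w)
        + ts l.m (fun w => ((q0 l w * s.σ w : ℝ) : ℂ) * k (u - w)))
  have f3 := sqrt_msq_add_le l.m
    (fun u => ts l.m (fun w => (β1 w : ℂ) * (Ψ u (w + 1) - Ψ u w)))
    (fun u => ts l.m (fun w => (β2 w : ℂ) * (Ψ u (w + gi) - Ψ u w)))
  have f4 := sqrt_msq_add_le l.m
    (fun u => ts l.m (fun w => ((q0 l w * s.σ w : ℝ) : ℂ) * Ψ u w))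
    (fun u => ts l.m (fun w => ((q0 l w * s.σ w : ℝ) : ℂ) * k (u - w)))
  refine (Real.sqrt_le_iff.1 (f2.trans ?_)).2
  linarith

end Pool.Agent.P.MP_cc4a10_gt
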