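import Pool.Agent.P.MP_cc4a10_gt.Fo3

/-!
Package Glue: gluing across a neck and the vanishing of the periods around it.
-/

open Set Filter Topology Complex Metric
open scoped ComplexConjugate Real

noncomputable section

namespace Pool.Agent.P.MP_cc4a10_gt.GlueP

open FoP

/-- Inversion of the neck coordinate changes the sign of the residue. -/
theorem cint_inv (hAnn : S_Ann) {F F' : ℂ → ℂ} {t Q : ℂ} {a b r r' : ℝ} (ha : 0 ≤ a)
    (h1 : a < r') (h2 : r' < b) (hr : 0 < r) (ht : t ≠ 0)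
    (hd : DifferentiableOn ℂ (fun w => Q / (F' w * w ^ 2)) (An a b))
    (hc : ContinuousOn F (sphere 0 r))
    (h : ∀ y ∈ sphere (0 : ℂ) r, t / y ∈ An a b ∧ F' (t / y) ≠ 0 ∧ F y * F' (t / y) * -t = Q) :
    cint 0 r F = -cint 0 r' (fun w => Q / (F' w * w ^ 2)) := by
  obtain ⟨G, hG⟩ := hAnn (fun w => Q / (F' w * w ^ 2)) 0 a b r' ha h1 h2
    (by simpa [An] using hd)
  set c := cint 0 r' (fun w => Q / (F' w * w ^ 2)) with hcd
  have hy0 : ∀ y ∈ sphere (0 : ℂ) r, y ≠ 0 := fun y hy e => by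
    rw [e, mem_sphere_zero_iff_norm, norm_zero] at hy
    exact hr.ne hy
  have key : ∀ y ∈ sphere (0 : ℂ) r,
      HasDerivWithinAt (fun y => G (t / y)) (F y + c * (y - 0)⁻¹) (sphere 0 r) y := by
    intro y hy
    obtain ⟨e1, e2, e3⟩ := h y hy
    have y0 := hy0 y hy
    have d1 := hG (t / y) (by simpa using e1.1) (by simpa using e1.2)
    have d2 : HasDerivAt (fun y : ℂ => t / y) (-t / y ^ 2) y := by
      have := (hasDerivAt_inv y0).const_mul t
      exact this.congr_deriv (by ring)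
    have d3 : HasDerivAt (fun y => G (t / y)) _ y := d1.comp y d2
    refine (d3.congr_deriv ?_).hasDerivWithinAt
    rw [← e3, sub_zero, sub_zero]
    field_simp
    ring
  have hz := circleIntegral.integral_eq_zero_of_hasDerivWithinAt hr.le key
  have i1 : CircleIntegrable F 0 r := hc.circleIntegrable hr.le
  have i2 : CircleIntegrable (fun y : ℂ => c * (y - 0)⁻¹) 0 r := by
    refine ContinuousOn.circleIntegrable hr.le ?_
    refine continuousOn_const.mul (ContinuousOn.inv₀ (by fun_prop) fun y hy => ?_)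
    simpa using hy0 y hy
  rw [circleIntegral.integral_add i1 i2, circleIntegral.integral_const_mul,
    circleIntegral.integral_sub_center_inv 0 hr.ne'] at hz
  have e : (∮ z in C(0, r), F z) = -(c * (2 * π * I)) := eq_neg_of_add_eq_zero_left hz
  unfold cint
  rw [e]
  have : (2 * π * I : ℂ) ≠ 0 := Complex.two_pi_I_ne_zero
  field_simp

variable {E : Ell} {S : Sys} {x : Cfg} {K : ℤ} {u : GI}

/-- The inner radius of the neck annulus is small. -/
theorem inner_small (hPar : S_Par) (hS : S.ok) (hG : ∀ K, Gd E S x K)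
    (hu : u ∈ Nk (lvF S K)) :
    ‖tn S x K u‖ / (rho (mK S (ot S K u)) * (44 / 100)) < rho (mK S K) / 10 := by
  have hd := dd_pos (mK S K)
  have ht := tt_pos (mK S K)
  have h3 := (hG K).tns u
  have h5 := rho_ge (hG K).m10 (hG (ot S K u)).m10 (par_facts hPar hS hu).2.1
  have hm := (hG K).m10
  have hs := (hG K).sm
  have h6 : dd (mK S K) ≤ tt (mK S K) := by
    rw [← tt_pow_16]
    calc tt (mK S K) ^ 16 ≤ tt (mK S K) ^ 1 :=
          pow_le_pow_of_le_one ht.le (tt_le_one _) (by norm_num)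
      _ = _ := pow_one _
  have hρ' : 0 < rho (mK S (ot S K u)) := lt_of_lt_of_le (by positivity) h5
  rw [div_lt_iff₀ (by positivity)]
  have e : rho (mK S K) = dd (mK S K) / mK S K := rfl
  rw [e]
  set d := dd (mK S K)
  set t := tt (mK S K)
  set m : ℝ := ((mK S K : ℕ) : ℝ)
  have hm0 : 0 < m := by linarith
  have h7 : d * m ≤ 1 / 100000 := by nlinarith
  have h8 : 0 < d * m := by positivity
  calc _ ≤ 26 * d ^ 4 := h3
    _ < d / m / 10 * (d / (8 * m) * (44 / 100)) := by
        have : d / m / 10 * (d / (8 * m) * (44 / 100)) = d ^ 2 * (44 / 8000) / m ^ 2 := by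
          field_simp; ring
        rw [this, lt_div_iff₀ (by positivity)]
        have h9 : (d * m) ^ 2 ≤ (1 / 100000) ^ 2 := by gcongr
        have h10 : 0 < d ^ 2 := by positivity
        nlinarith
    _ ≤ _ := by gcongr

theorem rho1_small (hG : Gd E S x K) : 0 < rho1 (mK S K) ∧ rho1 (mK S K) < rho (mK S K) / 4 := by
  have hd := dd_pos (mK S K)
  have ht := tt_pos (mK S K)
  have hm := hG.m10
  have hs := hG.sm
  unfold rho1 rho
  refine ⟨by positivity, ?_⟩
  rw [div_div, lt_div_iff₀ (by positivity)]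
  nlinarith

/-- Facts about one side of a neck. -/
structure Side (E : Ell) (S : Sys) (x : Cfg) (K : ℤ) (u : GI) : Prop where
  t0 : tn S x K u ≠ 0
  hol : DifferentiableOn ℂ (Nf E S x K u)
    (An (‖tn S x K u‖ / (rho (mK S (ot S K u)) * (44 / 100))) (rho (mK S K) * (44 / 100)))
  bd : ∀ y ∈ An (‖tn S x K u‖ / (rho (mK S (ot S K u)) * (44 / 100))) (rho (mK S K) * (44 / 100)),
    ‖exp (Nf E S x K u y) - 1‖ ≤ 1 / 100
  ctr : mm E S x (MM E S x) K u 0 = MM E S x K u (pK S x K u)
  lm : ∀ z, rho1 (mK S K) < ‖z - pK S x K u‖ → ‖z - pK S x K u‖ < rho (mK S K) * (42 / 100) →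
    exp (lam E S x K z) = exp (Nf E S x K u (vK E S x K u z)) * deriv (vK E S x K u) z
  hol2 : DifferentiableOn ℂ (fun y => (qK S x K u : ℂ) ^ 2 / (exp (Nf E S x K u y) * y ^ 2))
    (An (‖tn S x K u‖ / (rho (mK S (ot S K u)) * (44 / 100))) (rho (mK S K) * (44 / 100)))
  f1 : cint (pK S x K u) (rho (mK S K) / 4) (F1 E S x K)
    = cint 0 (rho (mK S K) / 4) (fun y => exp (Nf E S x K u y))
  f2 : Phi E S x K u = cint 0 (rho (mK S K) / 4)
    (fun y => (qK S x K u : ℂ) ^ 2 / (exp (Nf E S x K u y) * y ^ 2))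

theorem exists_side (hCou1 : S_Cou1) (hCou2 : S_Cou2) (hVt : S_Vt) (hInv : S_Inv) (hPar : S_Par)
    (hFlip : S_Flip) (hLev : S_Lev) (hDip : S_Dip) (E : Ell) :
    ∃ j1 : ℕ, ∀ (S : Sys) (x : Cfg), S.ok → Big S j1 → XX S x →
      (∀ K, Gd E S x K) ∧ ∀ K, ∀ u ∈ Nk (lvF S K), Side E S x K u := by
  obtain ⟨j0, h0⟩ := exists_gd hFlip hLev hVt hDip E
  obtain ⟨C1, j1, -, h1⟩ := hCou1 E
  obtain ⟨C2, j2, -, h2⟩ := hCou2 E
  obtain ⟨CV, mV, -, hV⟩ := hVt E
  obtain ⟨CL, mL, -, hL⟩ := hLev E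
  refine ⟨j0 + j1 + j2 + mV + mL, fun S x hS hB hX => ?_⟩
  have hG : ∀ K, Gd E S x K := h0 S x hS (fun k => le_trans (by omega) (hB k)) hX
  have hC1 := h1 S x hS (fun k => le_trans (by omega) (hB k)) hX
  have hC2 := h2 S x hS (fun k => le_trans (by omega) (hB k)) hX
  refine ⟨hG, fun K u hu => ?_⟩
  have hm : j0 + j1 + j2 + mV + mL ≤ mK S K := by
    have h1 := hB (K - 1)
    have h2 := hB K
    unfold mK jl
    omega
  have em : (lvF S K).m = mK S K := rfl
  have hL' := (hL _ _ _ (hG K).lg (by rw [em]; omega)).1 u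
  have hV' := (hV _ _ _ (hG K).lg (by rw [em]; omega) u hu).2.2.2.2.2.1
  rw [em] at hV'
  have hu' := (par_facts hPar hS hu).1
  have hco := (hG K).co u hu
  have hρ := hco.pos
  have hρ' := ((hG _).co _ hu').pos
  have hq : qK S x K u ≠ 0 := by
    unfold qK qq
    refine mul_ne_zero hu ?_
    have := abs_le.1 hL'.2.2.2
    linarith
  have ht : tn S x K u ≠ 0 := by
    unfold tn
    exact mul_ne_zero (neg_ne_zero.2 (pow_ne_zero _ (by exact_mod_cast hq))) (exp_ne_zero _)
  have hin := inner_small hPar hS hG hu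
  obtain ⟨hr0, hr1⟩ := rho1_small (hG K)
  obtain ⟨-, -, -, A4, -, -, -, A8, A9, A10, -⟩ := hC1 K u hu
  obtain ⟨-, -, -, -, -, -, -, B8, B9, -, -⟩ := hC1 _ _ hu'
  have ha0 : 0 ≤ ‖tn S x K u‖ / (rho (mK S (ot S K u)) * (44 / 100)) := by positivity
  have hAn : ∀ y ∈ An (‖tn S x K u‖ / (rho (mK S (ot S K u)) * (44 / 100)))
      (rho (mK S K) * (44 / 100)), y ≠ 0 ∧
        ‖tn S x K u / y‖ < rho (mK S (ot S K u)) * (44 / 100) := by
    intro y hy
    have hy0 : 0 < ‖y‖ := lt_of_le_of_lt ha0 hy.1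
    refine ⟨norm_pos_iff.1 hy0, ?_⟩
    have := hy.1
    rw [div_lt_iff₀ (by positivity)] at this
    rw [norm_div, div_lt_iff₀ hy0]
    linarith
  have hol : DifferentiableOn ℂ (Nf E S x K u)
      (An (‖tn S x K u‖ / (rho (mK S (ot S K u)) * (44 / 100))) (rho (mK S K) * (44 / 100))) := by
    intro y hy
    obtain ⟨y0, y1⟩ := hAn y hy
    have d1 : DifferentiableAt ℂ (mm E S x (MM E S x) K u) y :=
      A8.differentiableAt (isOpen_ball.mem_nhds (mem_ball_zero_iff.2 (by linarith [hy.2])))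
    have d2 : DifferentiableAt ℂ (mm E S x (MM E S x) (ot S K u) (par S K u)) (tn S x K u / y) :=
      B8.differentiableAt (isOpen_ball.mem_nhds (mem_ball_zero_iff.2 (by linarith)))
    have d3 : DifferentiableAt ℂ (fun y : ℂ => tn S x K u / y) y :=
      (differentiableAt_const _).div differentiableAt_id y0
    exact (d1.sub ((d2.comp y d3).sub (differentiableAt_const _))).differentiableWithinAt
  have hlm : ∀ z, rho1 (mK S K) < ‖z - pK S x K u‖ →
      ‖z - pK S x K u‖ < rho (mK S K) * (42 / 100) →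
      exp (lam E S x K z) = exp (Nf E S x K u (vK E S x K u z)) * deriv (vK E S x K u) z := by
    intro z z1 z2
    have e1 := (hC2 K).2.2.2.2.2.2.1 u hu z (by linarith) (by linarith)
    have e2 := (A4 z (by linarith)).1
    have e3 := A10 z (by linarith)
    have e4 := (hV' z (by unfold pK at z2; linarith)).2.2.1
    have e5 : lam E S x K z = Nf E S x K u (vK E S x K u z) + lv E (lvF S K) (ls S x K) u z := by
      rw [e1, fo_eq hu]
      unfold Nf
      rw [e3, e2]
      ring
    rw [e5, Complex.exp_add, e4]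
    rfl
  have hol2 : DifferentiableOn ℂ
      (fun y => (qK S x K u : ℂ) ^ 2 / (exp (Nf E S x K u y) * y ^ 2))
      (An (‖tn S x K u‖ / (rho (mK S (ot S K u)) * (44 / 100))) (rho (mK S K) * (44 / 100))) := by
    refine (differentiableOn_const _).div (hol.cexp.mul (differentiableOn_id.pow 2)) ?_
    intro y hy
    exact mul_ne_zero (exp_ne_zero _) (pow_ne_zero _ (hAn y hy).1)
  have hI := (hInv _ _ (3 * rho (mK S K)) (by positivity) hco.hol hco.zero hco.der).2.2.2
  refine ⟨ht, hol, fun y hy => ?_, ?_, hlm, hol2, ?_, ?_⟩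
  · obtain ⟨y0, y1⟩ := hAn y hy
    have b1 := A9 y (by linarith [hy.2])
    have b2 := B9 _ (show ‖tn S x K u / y‖ ≤ _ by linarith)
    have b3 := B9 0 (by rw [norm_zero]; positivity)
    have b4 : ‖Nf E S x K u y‖ ≤ 3 / 1000 := by
      unfold Nf
      refine (norm_sub_le _ _).trans ?_
      have := norm_sub_le (mm E S x (MM E S x) (ot S K u) (par S K u) (tn S x K u / y))
        (mm E S x (MM E S x) (ot S K u) (par S K u) 0)
      linarith
    have := Complex.norm_exp_sub_one_le (x := Nf E S x K u y) (by linarith)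
    linarith
  · have := A10 (pK S x K u) (by rw [sub_self, norm_zero]; positivity)
    rwa [hco.zero] at this
  · rw [← hI _ _ _ (rho (mK S K) / 4) (rho (mK S K) / 4) ha0 hol.cexp (by linarith) (by linarith)
      (by linarith) (by linarith) (by linarith)]
    refine cint_congr (by positivity) fun z hz => ?_
    have hz' : ‖z - pK S x K u‖ = rho (mK S K) / 4 := mem_sphere_iff_norm.1 hz
    exact hlm z (by linarith) (by linarith)
  · rw [← hI _ _ _ (rho (mK S K) / 4) (rho (mK S K) / 4) ha0 hol2 (by linarith) (by linarith)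
      (by linarith) (by linarith) (by linarith)]
    refine cint_congr (by positivity) fun z hz => ?_
    have hz' : ‖z - pK S x K u‖ = rho (mK S K) / 4 := mem_sphere_iff_norm.1 hz
    have e1 := hlm z (by linarith) (by linarith)
    have hzp : z ≠ pK S x K u := fun e => by
      rw [e, sub_self, norm_zero] at hz'; linarith
    have e2 := ((hV' z (by unfold pK at hz'; linarith)).2.2.2 hzp).1
    have e3 : deriv (vK E S x K u) z ≠ 0 := fun e => by
      have := hco.der z (mem_ball_iff_norm.2 (by linarith))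
      rw [e] at this
      norm_num at this
    have e4 : vK E S x K u z ≠ 0 := by
      have := (hco.near hInv (z := z) (by linarith)).1
      exact norm_pos_iff.1 (by linarith)
    have e5 : psK E S x K z = qK S x K u * deriv (vK E S x K u) z / vK E S x K u z := e2
    show F2 E S x K z = _
    unfold F2
    rw [Complex.exp_neg, e1, e5]
    have := exp_ne_zero (Nf E S x K u (vK E S x K u z))
    field_simp

end Pool.Agent.P.MP_cc4a10_gt.GlueP

namespace Pool.Agent.P.MP_cc4a10_gt

open FoP GlueP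

theorem pGlue (hCou1 : S_Cou1) (hCou2 : S_Cou2) (hVt : S_Vt) (hInv : S_Inv) (hAnn : S_Ann)
    (hPar : S_Par) (hFlip : S_Flip) (hLev : S_Lev) (hDip : S_Dip) : S_Glue := by
  intro E L
  obtain ⟨j1, h⟩ := exists_side hCou1 hCou2 hVt hInv hPar hFlip hLev hDip E
  refine ⟨j1, fun S x hS hB hX hA hE K u hu => ?_⟩
  obtain ⟨hG, hs⟩ := h S x hS hB hX
  have hu' := (par_facts hPar hS hu).1
  have s1 := hs K u hu
  have s2 := hs _ _ hu'
  obtain ⟨-, p2, p3, -⟩ := (hPar S hS K).2.2.2.2.2.1 u hu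
  obtain ⟨q1, q2, q3⟩ := hE.2.1 K u hu
  have hρ := ((hG K).co u hu).pos
  have hρ' := ((hG _).co _ hu').pos
  have hin := inner_small hPar hS hG hu
  have hin' := inner_small hPar hS hG hu'
  have ha0 : 0 ≤ ‖tn S x K u‖ / (rho (mK S (ot S K u)) * (44 / 100)) := by positivity
  have hprod : ∀ y, y ≠ 0 → exp (Nf E S x K u y) *
      exp (Nf E S x (ot S K u) (par S K u) (tn S x K u / y)) * -tn S x K u = qK S x K u ^ 2 := by
    intro y y0
    have e1 : Nf E S x K u y + Nf E S x (ot S K u) (par S K u) (tn S x K u / y) = x.s K u := by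
      have e2 : tn S x K u / (tn S x K u / y) = y := by
        have := s1.t0
        field_simp
      have e3 : x.s K u = sN E S x K u := by rw [← hA.2.1]
      rw [e3]
      unfold sN
      rw [if_neg (mem_Nk.1 hu), ← s1.ctr, ← s2.ctr]
      unfold Nf
      rw [p2, p3, q2, e2]
      ring
    rw [← Complex.exp_add, e1]
    unfold tn
    rw [Complex.exp_neg]
    have := exp_ne_zero (x.s K u)
    field_simp
  have h4 : cint 0 (rho (mK S K) / 4) (fun y => exp (Nf E S x K u y))
      = -conj (cint 0 (rho (mK S K) / 4)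
        (fun y => qK S x K u ^ 2 / (exp (Nf E S x K u y) * y ^ 2))) := by
    rw [← s1.f2, ← q3, s2.f2]
    have hn : 0 < ‖tn S x K u‖ := norm_pos_iff.2 s1.t0
    refine cint_inv hAnn (F' := fun y => exp (Nf E S x (ot S K u) (par S K u) y))
      (by rw [p2]; positivity) (by linarith) (by linarith) (by positivity) s1.t0 s2.hol2 ?_ ?_
    · refine s1.hol.cexp.continuousOn.mono fun y hy => ?_
      have hy' : ‖y‖ = rho (mK S K) / 4 := mem_sphere_zero_iff_norm.1 hy
      exact ⟨by linarith, by linarith⟩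
    · intro y hy
      have hy' : ‖y‖ = rho (mK S K) / 4 := mem_sphere_zero_iff_norm.1 hy
      have y0 : y ≠ 0 := norm_pos_iff.1 (by linarith)
      refine ⟨⟨?_, ?_⟩, exp_ne_zero _, ?_⟩
      · rw [p2, q2, norm_div, hy']
        exact div_lt_div_of_pos_left hn (by positivity) (by linarith)
      · rw [div_lt_iff₀ (by positivity)] at hin
        rw [norm_div, hy', div_lt_iff₀ (by positivity)]
        nlinarith
      · rw [hprod y y0, q1]
        push_cast
        ring
  refine ⟨s1.hol, fun y hy => ⟨s1.bd y hy, hprod y (norm_pos_iff.1 (lt_of_le_of_lt ha0 hy.1))⟩,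
    s1.lm, h4, ?_⟩
  rw [s1.f1, h4, ← s1.f2]
  rfl

end Pool.Agent.P.MP_cc4a10_gt
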