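import Pool.Agent.P.MP_cc4a10_gt.St

/-!
Package Graph: mean value inequality and connectedness for the plane minus separated discs.
-/

open Set Filter Topology Complex Metric
open scoped ComplexConjugate Real

noncomputable section

namespace Pool.Agent.P.MP_cc4a10_gt.GraphP

/-- Mean value inequality along a path. -/
theorem path_le {U : Set ℂ} {f : ℂ → ℂ} {η : ℝ}
    (hf : ∀ z ∈ U, ∃ A : ℂ →L[ℝ] ℂ, HasFDerivAt f A z ∧ ‖A‖ ≤ η) {γ γ' : ℝ → ℂ} {a b L : ℝ}
    (hab : a ≤ b) (hγ : ∀ t, HasDerivAt γ (γ' t) t) (hL : ∀ t, ‖γ' t‖ ≤ L)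
    (hU : ∀ t ∈ Icc a b, γ t ∈ U) : ‖f (γ b) - f (γ a)‖ ≤ η * L * (b - a) := by
  classical
  choose! A hA hA' using hf
  refine norm_image_sub_le_of_norm_deriv_le_segment' (f := fun t => f (γ t))
    (f' := fun t => A (γ t) (γ' t)) (fun t ht => ?_) (fun t ht => ?_) b ⟨hab, le_rfl⟩
  · exact ((hA _ (hU t ht)).comp_hasDerivAt t (hγ t)).hasDerivWithinAt
  · have h := hA' _ (hU t ⟨ht.1, ht.2.le⟩)
    exact ((A (γ t)).le_opNorm _).trans
      (mul_le_mul h (hL t) (norm_nonneg _) ((norm_nonneg _).trans h))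

/-- Two points of a circle that lies in the domain. -/
theorem arc_le {U : Set ℂ} {f : ℂ → ℂ} {η : ℝ} (hη : 0 ≤ η)
    (hf : ∀ z ∈ U, ∃ A : ℂ →L[ℝ] ℂ, HasFDerivAt f A z ∧ ‖A‖ ≤ η) {p w w' : ℂ} {ρ : ℝ}
    (hρ : 0 < ρ) (hU : ∀ z, ‖z - p‖ = ρ → z ∈ U) (hw : ‖w - p‖ = ρ) (hw' : ‖w' - p‖ = ρ) :
    ‖f w' - f w‖ ≤ 2 * η * ‖w' - w‖ := by
  have h0 : w - p ≠ 0 := fun h => by rw [h, norm_zero] at hw; linarith
  set q : ℂ := (w' - p) / (w - p) with hq
  have hq1 : ‖q‖ = 1 := by rw [hq, norm_div, hw, hw', div_self hρ.ne']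
  set φ : ℝ := arg q with hφ
  have he : exp (φ * I) = q := by
    have := norm_mul_exp_arg_mul_I q
    rwa [hq1, ofReal_one, one_mul] at this
  have hn : ∀ t : ℝ, ‖exp (t * (φ * I))‖ = 1 := fun t => by
    rw [← mul_assoc, ← ofReal_mul, norm_exp_ofReal_mul_I]
  have key := path_le hf (γ := fun t : ℝ => p + (w - p) * exp (t * (φ * I)))
    (γ' := fun t : ℝ => (w - p) * (exp (t * (φ * I)) * (φ * I))) (L := ρ * |φ|) zero_le_one
    (fun t => by
      have h1 : HasDerivAt (fun t : ℝ => (t : ℂ) * (φ * I)) (φ * I) t := by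
        simpa using (ofRealCLM.hasDerivAt (x := t)).mul_const (φ * I : ℂ)
      exact (h1.cexp.const_mul (w - p)).const_add p)
    (fun t => by rw [norm_mul, norm_mul, hn, hw]; simp)
    (fun t _ => hU _ (by rw [add_sub_cancel_left, norm_mul, hn, hw, mul_one]))
  simp only [ofReal_one, one_mul, he, ofReal_zero, zero_mul, exp_zero, mul_one, sub_zero,
    add_sub_cancel] at key
  have e1 : p + (w - p) * q = w' := by rw [hq]; field_simp; ring
  rw [e1] at key
  have e2 : ‖w' - w‖ = ρ * (2 * |Real.sin (φ / 2)|) := by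
    have : w' - w = (w - p) * (exp (I * φ) - 1) := by
      rw [mul_comm I, he, ← e1]; ring
    rw [this, norm_mul, hw, norm_exp_I_mul_ofReal_sub_one, Real.norm_eq_abs, abs_mul, abs_two]
  have h3 : 2 / π * |φ / 2| ≤ |Real.sin (φ / 2)| := by
    refine Real.mul_abs_le_abs_sin ?_
    rw [abs_div, abs_two]; linarith [abs_arg_le_pi q]
  have h4 : |φ| ≤ 4 * |Real.sin (φ / 2)| := by
    rw [abs_div, abs_two, div_mul_div_comm, div_le_iff₀ (by positivity)] at h3
    nlinarith [Real.pi_le_four, abs_nonneg (Real.sin (φ / 2))]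
  refine key.trans ?_
  rw [e2]
  calc η * (ρ * |φ|) ≤ η * (ρ * (4 * |Real.sin (φ / 2)|)) := by gcongr
    _ = _ := by ring

theorem exists_rad {nk : Set GI} {p : GI → ℂ} {r : ℝ} (hr : 0 < r) (hs : Sep nk p (4 * r))
    {z : ℂ} (hz : z ∈ Out nk p r) : ∃ ρ, r < ρ ∧ ρ ≤ 2 * r ∧ ∀ u ∈ nk, ρ ≤ ‖z - p u‖ := by
  by_cases h : ∃ u ∈ nk, ‖z - p u‖ < 2 * r
  · obtain ⟨u, hu, h1⟩ := h
    refine ⟨‖z - p u‖, hz u hu, h1.le, fun u' hu' => ?_⟩
    by_cases e : u = u'
    · rw [e]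
    · have h2 := hs u hu u' hu' e
      have h3 : ‖p u - p u'‖ ≤ ‖z - p u‖ + ‖z - p u'‖ := by
        rw [show p u - p u' = -(z - p u) + (z - p u') by ring]
        exact (norm_add_le _ _).trans (by rw [norm_neg])
      linarith
  · push Not at h
    exact ⟨2 * r, by linarith, le_rfl, h⟩

theorem finite_near {nk : Set GI} {p : GI → ℂ} {r : ℝ} (hr : 0 < r) (hs : Sep nk p (4 * r))
    (z : ℂ) (R : ℝ) : {u | u ∈ nk ∧ p u ∈ closedBall z R}.Finite := by
  obtain ⟨t, ht, hc⟩ := Metric.totallyBounded_iff.1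
    (isCompact_closedBall z R).totallyBounded (2 * r) (by positivity)
  refine (ht.biUnion (t := fun y => {u | u ∈ nk ∧ p u ∈ ball y (2 * r)})
    fun y _ => Set.Subsingleton.finite fun u hu u' hu' => ?_).subset ?_
  · by_contra e
    have h1 := hs u hu.1 u' hu'.1 e
    have h2 := dist_triangle_right (p u) (p u') y
    rw [dist_eq_norm] at h2
    have h3 := mem_ball.1 hu.2
    have h4 := mem_ball.1 hu'.2
    linarith
  · intro u hu
    obtain ⟨y, hy, h⟩ := mem_iUnion₂.1 (hc hu.2)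
    exact mem_iUnion₂.2 ⟨y, hy, hu.1, h⟩

theorem line_le {nk : Set GI} {p : GI → ℂ} {r ρ : ℝ} (hr : 0 < r) (hs : Sep nk p (4 * r))
    (h1 : r < ρ) (h2 : ρ ≤ 2 * r) {f : ℂ → ℂ} {η : ℝ} (hη : 0 ≤ η)
    (hf : ∀ z ∈ Out nk p r, ∃ A : ℂ →L[ℝ] ℂ, HasFDerivAt f A z ∧ ‖A‖ ≤ η) (z v : ℂ)
    (T : Finset GI) : ∀ a b : ℝ, a ≤ b → (∀ u ∈ nk, ρ ≤ ‖z + a * v - p u‖) →
      (∀ u ∈ nk, ρ ≤ ‖z + b * v - p u‖) →
      (∀ u ∈ nk, u ∉ T → ∀ t ∈ Icc a b, ρ ≤ ‖z + t * v - p u‖) →
      ‖f (z + b * v) - f (z + a * v)‖ ≤ 2 * η * ‖v‖ * (b - a) := by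
  classical
  have hcirc : ∀ u ∈ nk, ∀ w, ‖w - p u‖ = ρ → ∀ u' ∈ nk, ρ ≤ ‖w - p u'‖ := by
    intro u hu w hw u' hu'
    by_cases e : u = u'
    · rw [← e, hw]
    · have h3 := hs u hu u' hu' e
      have h4 : ‖p u - p u'‖ ≤ ‖w - p u‖ + ‖w - p u'‖ := by
        rw [show p u - p u' = -(w - p u) + (w - p u') by ring]
        exact (norm_add_le _ _).trans (by rw [norm_neg])
      linarith
  induction T using Finset.induction_on with
  | empty =>
    intro a b hab _ _ h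
    have key := path_le hf (γ := fun t : ℝ => z + t * v) (γ' := fun _ => v) (L := ‖v‖) hab
      (fun t => by simpa using ((ofRealCLM.hasDerivAt (x := t)).mul_const v).const_add z)
      (fun _ => le_rfl) (fun t ht u hu => h1.trans_le (h u hu (by simp) t ht))
    refine key.trans ?_
    have : 0 ≤ η * ‖v‖ * (b - a) := mul_nonneg (mul_nonneg hη (norm_nonneg _)) (by linarith)
    linarith
  | insert u T _ ih =>
    intro a b hab ha hb h
    by_cases hc : u ∈ nk ∧ ∃ t ∈ Icc a b, ‖z + t * v - p u‖ < ρ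
    swap
    · refine ih a b hab ha hb fun u' hu' hT t ht => ?_
      by_cases e : u' = u
      · subst e
        by_contra h3
        exact hc ⟨hu', t, ht, not_le.1 h3⟩
      · exact h u' hu' (by simp [e, hT]) t ht
    obtain ⟨hu, t0, ht0, h0⟩ := hc
    have hcont : Continuous (fun t : ℝ => ‖z + t * v - p u‖) := by fun_prop
    obtain ⟨t1, ht1, e1⟩ := intermediate_value_Icc' ht0.1 hcont.continuousOn
      (show ρ ∈ Icc _ _ from ⟨h0.le, ha u hu⟩)
    obtain ⟨t2, ht2, e2⟩ := intermediate_value_Icc ht0.2 hcont.continuousOn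
      (show ρ ∈ Icc _ _ from ⟨h0.le, hb u hu⟩)
    have hconv : OrdConnected {t : ℝ | ‖z + t * v - p u‖ < ρ} := by
      have hc := (convex_ball (p u) ρ).affine_preimage (AffineMap.lineMap (k := ℝ) z (z + v))
      have : {t : ℝ | ‖z + t * v - p u‖ < ρ}
          = (AffineMap.lineMap (k := ℝ) z (z + v)) ⁻¹' ball (p u) ρ := by
        ext t
        simp only [mem_ofPred_eq, mem_preimage, mem_ball, dist_eq_norm, AffineMap.lineMap_apply,
          vsub_eq_sub, vadd_eq_add, add_sub_cancel_right, real_smul, add_comm z]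
      rw [this]; exact hc.ordConnected
    have i1 := ih a t1 ht1.1 ha (hcirc u hu _ e1) fun u' hu' hT t ht => by
      by_cases e : u' = u
      · subst e
        by_contra h3
        have h4 : ‖z + t1 * v - p u'‖ < ρ := hconv.out (not_le.1 h3) h0 ⟨ht.2, ht1.2⟩
        exact h4.ne e1
      · exact h u' hu' (by simp [e, hT]) t ⟨ht.1, ht.2.trans (ht1.2.trans ht0.2)⟩
    have i2 := ih t2 b ht2.2 (hcirc u hu _ e2) hb fun u' hu' hT t ht => by
      by_cases e : u' = u
      · subst e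
        by_contra h3
        have h4 : ‖z + t2 * v - p u'‖ < ρ := hconv.out h0 (not_le.1 h3) ⟨ht2.1, ht.1⟩
        exact h4.ne e2
      · exact h u' hu' (by simp [e, hT]) t ⟨(ht0.1.trans ht2.1).trans ht.1, ht.2⟩
    have i3 := arc_le hη hf (hr.trans h1)
      (fun w hw u' hu' => h1.trans_le (hcirc u hu w hw u' hu')) e1 e2
    have e3 : ‖z + t2 * v - (z + t1 * v)‖ = ‖v‖ * (t2 - t1) := by
      rw [show z + t2 * v - (z + t1 * v) = ((t2 - t1 : ℝ) : ℂ) * v by push_cast; ring, norm_mul,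
        norm_real, Real.norm_of_nonneg (by linarith [ht1.2, ht2.1]), mul_comm]
    rw [e3] at i3
    have i4 : ‖f (z + b * v) - f (z + a * v)‖ ≤ ‖f (z + b * v) - f (z + t2 * v)‖
        + ‖f (z + t2 * v) - f (z + t1 * v)‖ + ‖f (z + t1 * v) - f (z + a * v)‖ := by
      rw [show f (z + b * v) - f (z + a * v) = (f (z + b * v) - f (z + t2 * v))
        + (f (z + t2 * v) - f (z + t1 * v)) + (f (z + t1 * v) - f (z + a * v)) by ring]
      exact norm_add₃_le
    linarith

theorem mvi {nk : Set GI} {p : GI → ℂ} {r : ℝ} (hr : 0 < r) (hs : Sep nk p (4 * r))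
    (f : ℂ → ℂ) (η : ℝ)
    (hf : ∀ z ∈ Out nk p r, ∃ A : ℂ →L[ℝ] ℂ, HasFDerivAt f A z ∧ ‖A‖ ≤ η) :
    ∀ z ∈ Out nk p r, ∀ z' ∈ Out nk p r, ‖f z - f z'‖ ≤ 4 * η * ‖z - z'‖ := by
  intro z hz z' hz'
  have hη : 0 ≤ η := by
    obtain ⟨A, -, hA⟩ := hf z hz
    exact (norm_nonneg _).trans hA
  obtain ⟨ρ1, a1, a2, a3⟩ := exists_rad hr hs hz
  obtain ⟨ρ2, b1, -, b3⟩ := exists_rad hr hs hz'
  have key := line_le hr hs (lt_min a1 b1) ((min_le_left _ _).trans a2) hη hf z' (z - z')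
    (finite_near hr hs z' (‖z - z'‖ + 2 * r)).toFinset 0 1 zero_le_one
    (fun u hu => by simpa using Or.inr (b3 u hu))
    (fun u hu => by simpa using Or.inl (a3 u hu))
    (fun u hu hT t ht => by
      have h1 : ‖z - z'‖ + 2 * r < ‖z' - p u‖ := by
        by_contra h
        refine hT ((Set.Finite.mem_toFinset _).2 ⟨hu, ?_⟩)
        rw [mem_closedBall, dist_comm, dist_eq_norm]; exact not_lt.1 h
      have h2 : ‖z' - p u‖ ≤ ‖z' + t * (z - z') - p u‖ + ‖(t : ℂ) * (z - z')‖ := by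
        rw [show z' - p u = (z' + t * (z - z') - p u) - t * (z - z') by ring]
        simpa only [show z' + t * (z - z') - p u - t * (z - z') + t * (z - z')
          = z' + t * (z - z') - p u by ring] using norm_sub_le _ _
      have h3 : ‖(t : ℂ) * (z - z')‖ ≤ ‖z - z'‖ := by
        rw [norm_mul, norm_real, Real.norm_of_nonneg ht.1]
        exact mul_le_of_le_one_left (norm_nonneg _) ht.2
      have h4 := (min_le_left ρ1 ρ2).trans a2
      linarith)
  simp only [ofReal_one, one_mul, add_sub_cancel, ofReal_zero, zero_mul, add_zero, sub_zero,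
    mul_one] at key
  have : 0 ≤ η * ‖z - z'‖ := mul_nonneg hη (norm_nonneg _)
  linarith

theorem isOpen_out {nk : Set GI} {p : GI → ℂ} {r : ℝ} (hr : 0 < r) (hs : Sep nk p (4 * r)) :
    IsOpen (Out nk p r) := by
  refine Metric.isOpen_iff.2 fun z hz => ?_
  obtain ⟨ρ, h1, -, h3⟩ := exists_rad hr hs hz
  refine ⟨ρ - r, by linarith, fun w hw u hu => ?_⟩
  have h4 := h3 u hu
  have h5 := dist_triangle_left z (p u) w
  rw [mem_ball] at hw
  rw [dist_eq_norm z, dist_eq_norm w (p u)] at h5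
  linarith

end Pool.Agent.P.MP_cc4a10_gt.GraphP

namespace Pool.Agent.P.MP_cc4a10_gt

open GraphP

theorem pGraph : S_Graph := by
  intro nk p r hr hs
  refine ⟨isOpen_out hr hs, ?_, ?_, mvi hr hs⟩
  · refine isPreconnected_of_forall_constant fun g hg z hz z' hz' => ?_
    have key := mvi hr hs (fun w => if g w then 1 else 0) 0 (fun w hw => by
      refine ⟨0, ?_, by simp⟩
      have h1 : ContinuousAt g w := hg.continuousAt ((isOpen_out hr hs).mem_nhds hw)
      have h2 : ∀ᶠ y in 𝓝 w, g y = g w := h1.eventually (isOpen_discrete {g w} |>.mem_nhds rfl)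
      refine (hasFDerivAt_const (if g w then (1 : ℂ) else 0) w).congr_of_eventuallyEq ?_
      filter_upwards [h2] with y hy
      rw [hy]) z hz z' hz'
    simp only [mul_zero, zero_mul, norm_le_zero_iff, sub_eq_zero] at key
    cases h1 : g z <;> cases h2 : g z' <;> simp_all
  · simp only [ofPred_forall]
    exact isClosed_iInter fun u => isClosed_iInter fun _ =>
      isClosed_le continuous_const (by fun_prop)

end Pool.Agent.P.MP_cc4a10_gt
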