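import Pool.Agent.P.MP_cc4a10_gt.High2

/-!
High frequencies: gap and determinant bounds for the symbols of Bloch functions.
-/

open Set Filter Topology Complex Metric
open scoped ComplexConjugate Real

noncomputable section

namespace Pool.Agent.P.MP_cc4a10_gt

namespace HighP

/-- Distance to the lattice `2 π Z[i]` is at least `ρ`. -/
def Far (ρ : ℝ) (θ : ℂ) : Prop := ∀ w : GI, ρ ≤ ‖θ - 2 * π * w‖

lemma Far.np {ρ : ℝ} {θ : ℂ} (h : Far ρ θ) (hρ : 0 < ρ) : NP θ := by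
  intro w hw
  have := h w
  rw [hw, sub_self, norm_zero] at this
  linarith

lemma transport {θ θ' : ℂ} (h : θ = θ') (b : BD θ) : ∃ b' : BD θ', b'.sy = b.sy := by
  subst h; exact ⟨b, rfl⟩

lemma re_lat (θ : ℂ) (w : GI) : (θ - 2 * π * w).re = θ.re - 2 * π * w.re := by
  simp [← GaussianInt.intCast_re]

lemma im_lat (θ : ℂ) (w : GI) : (θ - 2 * π * w).im = θ.im - 2 * π * w.im := by
  simp [← GaussianInt.intCast_im]

lemma coord_far (x : ℝ) (n : ℤ) (hx : |x| ≤ π) (hn : n ≠ 0) : π ≤ |x - 2 * π * n| := by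
  have h1 : (1 : ℝ) ≤ |(n : ℝ)| := by exact_mod_cast Int.one_le_abs hn
  have h2 : |2 * π * n| = 2 * π * |(n : ℝ)| := by
    rw [abs_mul, abs_of_pos (by positivity : 0 < 2 * π)]
  have h3 := abs_sub_abs_le_abs_sub (2 * π * n) x
  rw [abs_sub_comm] at h3
  nlinarith [Real.pi_pos]

lemma far_of_sq {ρ : ℝ} {θ : ℂ} (hs : Sq θ) (h1 : ρ ≤ ‖θ‖) (h2 : ρ ≤ 1) : Far ρ θ := by
  intro w
  have hπ := Real.pi_gt_three
  by_cases ha : w.re = 0
  · by_cases hb : w.im = 0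
    · have : w = 0 := Zsqrtd.ext ha hb
      simpa [this] using h1
    · have e1 := coord_far θ.im w.im hs.2.2 hb
      have e2 := abs_im_le_norm (θ - 2 * π * w)
      rw [im_lat] at e2
      linarith
  · have e1 := coord_far θ.re w.re hs.2.1 ha
    have e2 := abs_re_le_norm (θ - 2 * π * w)
    rw [re_lat] at e2
    linarith

lemma odd_far (n : ℤ) : π ≤ |π - 2 * π * n| := by
  have h1 : (1 : ℝ) ≤ |((1 - 2 * n : ℤ) : ℝ)| := by
    exact_mod_cast Int.one_le_abs (by omega)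
  have h2 : π - 2 * π * n = π * ((1 - 2 * n : ℤ) : ℝ) := by push_cast; ring
  rw [h2, abs_mul, abs_of_pos Real.pi_pos]
  nlinarith [Real.pi_pos]

lemma far_second {ρ : ℝ} {θ : ℂ} (hs : |θ.re| + |θ.im| ≤ π) (h2 : ρ ≤ 1) :
    Far ρ (θ + π * (1 - I)) := by
  intro w
  have hπ := Real.pi_gt_three
  have e1 := abs_re_le_norm (θ + π * (1 - I) - 2 * π * w)
  have e2 := abs_im_le_norm (θ + π * (1 - I) - 2 * π * w)
  rw [re_lat] at e1
  rw [im_lat] at e2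
  have e3 : (θ + π * (1 - I)).re - 2 * π * w.re = (π - 2 * π * w.re) - -θ.re := by simp; ring
  have e4 : (θ + π * (1 - I)).im - 2 * π * w.im
      = -((π - 2 * π * ((-w.im : ℤ) : ℝ)) - θ.im) := by simp; ring
  rw [e3] at e1
  rw [e4, abs_neg] at e2
  have e5 := abs_sub_abs_le_abs_sub (π - 2 * π * w.re) (-θ.re)
  have e6 := abs_sub_abs_le_abs_sub (π - 2 * π * ((-w.im : ℤ) : ℝ)) θ.im
  rw [abs_neg] at e5
  have e7 := odd_far w.re
  have e8 := odd_far (-w.im)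
  linarith

lemma round_close (x : ℝ) : |x - 2 * π * round (x / (2 * π))| ≤ π := by
  have h := abs_sub_round (x / (2 * π))
  have hp : 0 < 2 * π := by positivity
  have e : x - 2 * π * round (x / (2 * π)) = 2 * π * (x / (2 * π) - round (x / (2 * π))) := by
    field_simp
  rw [e, abs_mul, abs_of_pos hp]
  nlinarith

lemma shift (hI : S_Id) (hU : S_Uni) (E : Ell) {θ : ℂ} (b : BD θ) (hn : NP θ) (w : GI) :
    ∃ b' : BD (θ + 2 * π * w), b'.sy.p = b.sy.p ∧ Om (ee E) b'.sy = Om (ee E) b.sy := by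
  obtain ⟨b', -⟩ := (hU θ b hn).2.2.1 w
  exact ⟨b', ((hI E).1 θ b hn).2.2 w b'⟩

lemma secG (hSec : S_Sec) (hI : S_Id) (hU : S_Uni) (E : Ell) {ρ : ℝ} {θ : ℂ} (b : BD θ)
    (hρ : 0 < ρ) (hf : Far ρ θ) :
    ρ ^ 2 / 200 ≤ (Om (ee E) b.sy).re ∧ 2 * |(Om (ee E) b.sy).im| ≤ (Om (ee E) b.sy).re ∧
      ‖b.sy.p‖ ≤ 38 / 10 := by
  set w : GI := ⟨round (θ.re / (2 * π)), round (θ.im / (2 * π))⟩ with hw
  obtain ⟨b', hp, hO⟩ := shift hI hU E b (hf.np hρ) (-w)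
  have e : θ + 2 * π * ((-w : GI) : ℂ) = θ - 2 * π * w := by
    rw [GaussianInt.toComplex_neg]; ring
  have hρ' : ρ ≤ ‖θ + 2 * π * ((-w : GI) : ℂ)‖ := by rw [e]; exact hf w
  have hsq : Sq (θ + 2 * π * ((-w : GI) : ℂ)) := by
    refine ⟨?_, ?_, ?_⟩
    · intro h0
      rw [h0, norm_zero] at hρ'
      linarith
    · rw [e, re_lat]; exact round_close _
    · rw [e, im_lat]; exact round_close _
  obtain ⟨h1, h2, h3⟩ := hSec E _ b' hsq
  rw [hO] at h1 h2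
  rw [hp] at h3
  refine ⟨le_trans ?_ h1, h2, h3⟩
  have := pow_le_pow_left₀ hρ.le hρ' 2
  linarith

lemma Bd_mono {C C' : ℝ} {s : Sy} (h : Bd C s) (hC : C ≤ C') : Bd C' s := by
  obtain ⟨h1, h2, h3, h4, h5, h6, h7, h8, h9⟩ := h
  exact ⟨h1.trans hC, h2.trans hC, h3.trans hC, h4.trans hC, h5.trans hC, h6.trans hC,
    h7.trans hC, h8.trans hC, h9.trans hC⟩

lemma kp_re (θ : ℂ) : (θ * kp).re = (θ.re + θ.im) / 2 := by simp [kp]; ring
lemma kp_im (θ : ℂ) : (θ * kp).im = (θ.im - θ.re) / 2 := by simp [kp]; ring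

lemma kp_norm (θ : ℂ) : ‖θ‖ ^ 2 = 2 * ‖θ * kp‖ ^ 2 := by
  rw [Complex.sq_norm, Complex.sq_norm, normSq_apply, normSq_apply, kp_re, kp_im]; ring

lemma kp_l1 {θ : ℂ} (hs : Sq θ) : |(θ * kp).re| + |(θ * kp).im| ≤ π := by
  rw [kp_re, kp_im]
  have h1 := abs_le.1 hs.2.1
  have h2 := abs_le.1 hs.2.2
  rcases abs_cases ((θ.re + θ.im) / 2) with h | h <;>
    rcases abs_cases ((θ.im - θ.re) / 2) with h' | h' <;> linarith

lemma OmE_eq (hX : S_Ex) (hX0 : S_Ex0) (E : Ell) {θ : ℂ} (b : BD θ) (hn : NP θ)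
    (hr : |θ.re| ≤ π) : b.sy.p = pE θ ∧ Om (ee E) b.sy = OmE θ := by
  obtain ⟨-, h1, h2⟩ := hX θ b hn hr
  exact ⟨h1, by rw [Om, OmE, h1, h2, (hX0 E).1]⟩

lemma G_lower (hX : S_Ex) (hX0 : S_Ex0) (hI : S_Id) (hU : S_Uni) (hS : S_NumS) (hG : S_NumG)
    (E : Ell) {ρ : ℝ} (hρ : 0 < ρ) (hρ1 : ρ ≤ 1) {θ : ℂ} (hs : Sq θ) (b : BD θ)
    (b1 : BD (θ * kp)) (b2 : BD (θ * kp + π * (1 - I))) (hn : NP θ) (hn1 : NP (θ * kp))
    (Z z1 z2 : ℂ) (hZ : Z ^ 2 = Om (ee E) b.sy) (hz1 : z1 ^ 2 = Om (ee E) b1.sy)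
    (hz2 : z2 ^ 2 = Om (ee E) b2.sy) (hx : ρ / 15 ≤ Z.re) (hy : 4 * |Z.im| ≤ Z.re)
    (hx1 : 0 < z1.re) (hy1 : 4 * |z1.im| ≤ z1.re) (hx2 : 0 < z2.re) :
    ρ / 40 ≤ ‖(z2 - b1.sy.p) * (z1 - b2.sy.p) + I * Z * (z2 - b1.sy.p + (z1 - b2.sy.p))‖ := by
  have hl := kp_l1 hs
  have hn2 : NP (θ * kp + π * (1 - I)) := (far_second hl hρ1).np hρ
  obtain ⟨-, i2, -, i4, -⟩ := (hI E).2 θ b b1 b2 hn
  have hr1 : |(θ * kp).re| ≤ π := by linarith [abs_nonneg (θ * kp).im]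
  obtain ⟨x1, x2⟩ := OmE_eq hX hX0 E b1 hn1 hr1
  obtain ⟨he, -, he1, he2⟩ := hX0 E
  rcases le_total (6 / 10) ‖θ * kp‖ with hbig | hsm
  · refine le_trans (by linarith : ρ / 40 ≤ 1 / 10) ?_
    have hr1' := abs_le.1 hr1
    rcases le_total 0 (θ * kp).re with h0 | h0
    · obtain ⟨b', hp, hO⟩ := shift hI hU E b2 hn2 (-1)
      have e : θ * kp + π * (1 - I) + 2 * π * ((-1 : GI) : ℂ) = θ * kp - π * (1 + I) := by
        rw [GaussianInt.toComplex_neg, GaussianInt.toComplex_one]; ring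
      obtain ⟨b'', hb⟩ := transport e b'
      have hn3 : NP (θ * kp - π * (1 + I)) := by
        intro w hw
        apply hn2 (w + 1)
        rw [GaussianInt.toComplex_add, GaussianInt.toComplex_one]
        linear_combination hw
      have hr3 : |(θ * kp - π * (1 + I)).re| ≤ π := by
        have : (θ * kp - π * (1 + I)).re = (θ * kp).re - π := by
          rw [sub_re]; congr 1; simp
        rw [this, abs_le]; constructor <;> linarith
      obtain ⟨y1, y2⟩ := OmE_eq hX hX0 E b'' hn3 hr3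
      rw [hb, hp] at y1
      rw [hb, hO] at y2
      rw [x1, y1]
      exact hG _ _ z1 z2 Z hl hbig (Or.inl ⟨h0, rfl⟩) hx1 hx2 (by linarith) (hz1.trans x2)
        (hz2.trans y2) (by rw [hZ, i2, x1, y1])
    · have hr3 : |(θ * kp + π * (1 - I)).re| ≤ π := by
        have : (θ * kp + π * (1 - I)).re = (θ * kp).re + π := by
          rw [add_re]; congr 1; simp
        rw [this, abs_le]; constructor <;> linarith
      obtain ⟨y1, y2⟩ := OmE_eq hX hX0 E b2 hn2 hr3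
      rw [x1, y1]
      exact hG _ _ z1 z2 Z hl hbig (Or.inr ⟨h0, rfl⟩) hx1 hx2 (by linarith) (hz1.trans x2)
        (hz2.trans y2) (by rw [hZ, i2, x1, y1])
  · have hs1 : ‖θ * kp‖ ^ 2 ≤ 36 / 100 := by
      have := pow_le_pow_left₀ (norm_nonneg _) hsm 2
      linarith
    have hk := kp_norm θ
    have h10 : θ * kp ≠ 0 := fun h => hn1 0 (by simp [h])
    obtain ⟨a1, a2, a3⟩ := Om_small hS he1 he2 (θ * kp) h10 (by linarith)
    obtain ⟨a4, -, -⟩ := Om_small hS he1 he2 θ hs.1 (by linarith)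
    obtain ⟨-, y2⟩ := OmE_eq hX hX0 E b hn hs.2.1
    have hπ1 := Real.pi_gt_d4
    have hπ2 := Real.pi_lt_d4
    have := G_small (ee E) b1.sy.p b2.sy.p Z z1 z2 (by rw [he]; exact he1) (hZ.trans i2)
      (by rw [hz1, hz2, i4]) (by rw [x1]; linarith) (by rw [x1]; linarith)
      (by rw [← norm_pow, hz1, x2]; linarith) (by rw [← norm_pow, hZ, y2]; linarith)
      hy hy1 hx2.le
    have := re_le_norm Z
    linarith

lemma p_zero (hI : S_Id) (hU : S_Uni) (E : Ell) (b : BD (0 * kp + π * (1 - I)))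
    (hn : NP (0 * kp + π * (1 - I))) : b.sy.p = 0 := by
  obtain ⟨b', -⟩ := (hU _ b hn).2.1
  have h1 := (((hI E).1 _ b hn).2.1 b').1
  have e : I * (0 * kp + π * (1 - I)) = 0 * kp + π * (1 - I) + 2 * π * ((gi : GI) : ℂ) := by
    have : ((gi : GI) : ℂ) = I := by
      rw [gi, GaussianInt.toComplex_def']; simp
    rw [this]
    linear_combination (-π : ℂ) * I_sq
  obtain ⟨b'', hb⟩ := transport e b'
  have h2 := (((hI E).1 _ b hn).2.2 gi b'').1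
  rw [hb, h1] at h2
  linear_combination -h2 / 2

end HighP

open HighP in
theorem pHigh (hSec : S_Sec) (hX : S_Ex) (hX0 : S_Ex0) (hI : S_Id) (hA : S_Asy) (hU : S_Uni)
    (hS : S_NumS) (hG : S_NumG) : S_High := by
  intro E r0 hr0
  obtain ⟨ρ, hρ, hρ1, hρ2⟩ : ∃ ρ : ℝ, 0 < ρ ∧ ρ ≤ 1 ∧ ρ ≤ r0 / 2 :=
    ⟨min 1 (r0 / 2), by positivity, min_le_left _ _, min_le_right _ _⟩
  obtain ⟨C, hC, hBd⟩ := hA.2 ρ hρ
  obtain ⟨he, -, he1, he2⟩ := hX0 E
  rw [← he] at he1 he2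
  set η : ℝ := ρ / (40 * (22 + C) ^ 2) with hη
  have hη0 : 0 < η := by positivity
  have hηe : η * (22 + C) ^ 2 = ρ / 40 := by rw [hη]; field_simp
  have hq : 22 + C ≤ (22 + C) ^ 2 := by nlinarith
  have hη1 : η * (22 + C) ≤ ρ / 40 := by nlinarith
  have hη2 : η ≤ ρ / 40 := by nlinarith
  have hηC : C ≤ 1 / η := by rw [le_div_iff₀ hη0]; nlinarith
  have key : ∀ (θ : ℂ) (b : BD θ), Far ρ θ → Bd (1 / η) b.sy ∧ ‖b.sy.p‖ ≤ 38 / 10 ∧
      ∃ Z, Gap η (ee E) b.sy Z ∧ ρ / 15 ≤ Z.re ∧ 4 * |Z.im| ≤ Z.re ∧ ‖Z‖ ≤ 11 + C := by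
    intro θ b hf
    have hb := hBd θ b hf
    obtain ⟨s1, s2, s3⟩ := secG hSec hI hU E b hρ hf
    obtain ⟨Z, z1, z2, z3⟩ := exists_root _ ρ hρ s1 s2
    exact ⟨Bd_mono hb hηC, s3, Z, gap_of _ C ρ η _ Z he1 (by linarith) z1 s3 hb.2.1 hρ z2 z3 hη0
      (by linarith) (by linarith), z2, z3,
      root_le _ C _ Z (by linarith) (by linarith) z1 s3 hb.2.1⟩
  refine ⟨η, hη0, by linarith, by linarith, fun θ b hs hr => ?_, fun b2 => ?_⟩
  · have hf : Far ρ θ := far_of_sq hs (by linarith) hρ1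
    obtain ⟨k1, k2, Z, k3, k4, k5, -⟩ := key θ b hf
    refine ⟨⟨k1, Z, k3⟩, fun b1 b2 => ?_⟩
    have hl := kp_l1 hs
    have hn1 : ρ ≤ ‖θ * kp‖ := by
      apply le_of_sq_le (norm_nonneg _)
      have h1 := kp_norm θ
      have h2 : (2 * ρ) ^ 2 ≤ ‖θ‖ ^ 2 := pow_le_pow_left₀ (by positivity) (by linarith) 2
      nlinarith
    have hs1 : Sq (θ * kp) := by
      refine ⟨fun h => ?_, by linarith [abs_nonneg (θ * kp).im],
        by linarith [abs_nonneg (θ * kp).re]⟩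
      rw [h, norm_zero] at hn1
      linarith
    have hf1 : Far ρ (θ * kp) := far_of_sq hs1 hn1 hρ1
    have hf2 : Far ρ (θ * kp + π * (1 - I)) := far_second hl hρ1
    obtain ⟨l1, l2, z1, l3, l4, l5, l6⟩ := key _ b1 hf1
    obtain ⟨m1, m2, z2, m3, m4, m5, m6⟩ := key _ b2 hf2
    refine ⟨l1, m1, Z, z1, z2, k3, l3, m3, ?_⟩
    have hg := G_lower hX hX0 hI hU hS hG E hρ hρ1 hs b b1 b2 (hf.np hρ) (hf1.np hρ) Z z1 z2
      k3.1 l3.1 m3.1 k4 k5 (by linarith) l5 (by linarith)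
    obtain ⟨i1, -, i3, i4, -⟩ := (hI E).2 θ b b1 b2 (hf.np hρ)
    have hd := det_lower (ee E) (11 + C) (ρ / 40) b.sy b1.sy b2.sy Z z1 z2 he1
      (((hI E).1 _ b1 (hf1.np hρ)).1.trans l3.1.symm)
      (((hI E).1 _ b2 (hf2.np hρ)).1.trans m3.1.symm) i3 i1 (by rw [l3.1, m3.1, i4])
      k2 l2 m2 (by linarith) (by linarith) l6 m6 (by positivity) hg
    have h1 : (11 + C + 4) ^ 2 ≤ (22 + C) ^ 2 := by nlinarith
    have h2 := mul_le_mul_of_nonneg_right h1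
      (norm_nonneg (det3 (ee E) b.sy b1.sy b2.sy Z z1 z2))
    have h3 : (22 + C) ^ 2 * η ≤ (22 + C) ^ 2 * ‖det3 (ee E) b.sy b1.sy b2.sy Z z1 z2‖ := by
      linarith
    exact le_of_mul_le_mul_left h3 (by positivity)
  · have hf : Far ρ (0 * kp + π * (1 - I)) :=
      far_second (by simpa using Real.pi_pos.le) hρ1
    obtain ⟨k1, -, Z, k3, k4, -, -⟩ := key _ b2 hf
    refine ⟨k1, Z, k3, ?_⟩
    rw [p_zero hI hU E b2 (hf.np hρ), add_zero]
    have := re_le_norm Z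
    linarith

end Pool.Agent.P.MP_cc4a10_gt
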