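import Pool.Agent.P.MP_cc4a10_gt.St

/-! Identities between the symbols of Bloch functions. -/

open Set Filter Topology Complex Metric
open scoped ComplexConjugate Real

noncomputable section

namespace Pool.Agent.P.MP_cc4a10_gt

namespace IdP

theorem isOpen_NL : IsOpen {z : ℂ | NL z} := by
  have h : {z : ℂ | NL z} =
      (re ⁻¹' range ((↑) : ℤ → ℝ) ∩ im ⁻¹' range ((↑) : ℤ → ℝ))ᶜ := by
    ext z
    simp only [NL, mem_ofPred_eq, mem_compl_iff, mem_inter_iff, mem_preimage, mem_range]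
    constructor
    · rintro h ⟨⟨a, ha⟩, ⟨b, hb⟩⟩
      refine h ⟨a, b⟩ ?_
      apply Complex.ext <;> simp [GaussianInt.toComplex_def', ha, hb]
    · intro h w hw
      exact h ⟨⟨w.re, by simp [hw]⟩, ⟨w.im, by simp [hw]⟩⟩
  rw [h]
  have hc : IsClosed (range ((↑) : ℤ → ℝ)) := Int.isClosedEmbedding_coe_real.isClosed_range
  exact ((hc.preimage continuous_re).inter (hc.preimage continuous_im)).isOpen_compl

theorem NL_small {z : ℂ} (h0 : z ≠ 0) (h1 : ‖z‖ < 1) : NL z := by
  intro w hw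
  have h2 : |z.re| < 1 := (abs_re_le_norm z).trans_lt h1
  have h3 : |z.im| < 1 := (abs_im_le_norm z).trans_lt h1
  have e1 : z.re = (w.re : ℝ) := by simp [hw]
  have e2 : z.im = (w.im : ℝ) := by simp [hw]
  rw [e1] at h2
  rw [e2] at h3
  have h4 : |w.re| < 1 := by exact_mod_cast h2
  have h5 : |w.im| < 1 := by exact_mod_cast h3
  have h6 : w.re = 0 := Int.abs_lt_one_iff.mp h4
  have h7 : w.im = 0 := Int.abs_lt_one_iff.mp h5
  apply h0
  apply Complex.ext <;> simp [e1, e2, h6, h7]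

theorem NL_neg {z : ℂ} (h : NL z) : NL (-z) := by
  intro w hw
  refine h (-w) ?_
  rw [map_neg, ← hw, neg_neg]

theorem NL_add {z : ℂ} (h : NL z) (u : GI) : NL (z + u) := by
  intro w hw
  refine h (w - u) ?_
  rw [map_sub, ← hw]; ring

theorem norm_hf : ‖hf‖ < 1 := by
  have : ‖hf‖ ^ 2 = 1 / 2 := by
    rw [Complex.sq_norm, normSq_apply]; simp [hf]; norm_num
  nlinarith [norm_nonneg hf]

theorem NL_hf : NL hf := NL_small (by
  intro h
  have := congrArg re h
  simp [hf] at this) norm_hf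

theorem NL_half : NL (1 / 2) := NL_small (by norm_num) (by simp; norm_num)

theorem NL_ihalf : NL (I / 2) := NL_small (by simp) (by simp; norm_num)

theorem dot_add (θ z w : ℂ) : dot θ (z + w) = dot θ z + dot θ w := by
  simp [dot, mul_add]

theorem ex_add (θ z w : ℂ) : ex θ (z + w) = ex θ z * ex θ w := by
  rw [ex, ex, ex, ← Complex.exp_add, dot_add]; push_cast; ring_nf

theorem chi_mul_ex (θ w : ℂ) : exp (I * dot θ w) * ex θ w = 1 := by
  rw [ex, ← Complex.exp_add]; simp

theorem chi_neg (θ w : ℂ) : exp (I * dot θ (-w)) = ex θ w := by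
  rw [ex]; congr 1; simp [dot]; ring

theorem norm_chi (θ w : ℂ) : ‖exp (I * dot θ w)‖ = 1 := by
  rw [mul_comm]; exact norm_exp_ofReal_mul_I _

variable {θ : ℂ}

theorem dbl (b : BD θ) (z : ℂ) (w : GI) :
    deriv b.f (z + w) = exp (I * dot θ w) * deriv b.f z := by
  have h : (fun z => b.f (z + w)) = fun z => exp (I * dot θ w) * b.f z := funext fun z => b.bl z w
  rw [← deriv_comp_add_const, h, deriv_const_mul_field]

theorem uper (b : BD θ) (z : ℂ) (w : GI) :
    b.f (z + w) * ex θ (z + w) = b.f z * ex θ z := by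
  rw [b.bl, ex_add]
  linear_combination b.f z * ex θ z * chi_mul_ex θ w

theorem dper (b : BD θ) (z : ℂ) (w : GI) :
    deriv b.f (z + w) * ex θ (z + w) = deriv b.f z * ex θ z := by
  rw [dbl, ex_add]
  linear_combination deriv b.f z * ex θ z * chi_mul_ex θ w

theorem an_f (b : BD θ) {z : ℂ} (h : NL z) : AnalyticAt ℂ b.f z :=
  DifferentiableOn.analyticAt (s := {z | NL z})
    (fun w hw => (b.df w hw).differentiableWithinAt) (isOpen_NL.mem_nhds h)

theorem an_g (b : BD θ) {z : ℂ} (h : ‖z‖ < 9 / 10) : AnalyticAt ℂ b.g z :=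
  b.hg.analyticAt (isOpen_ball.mem_nhds (by simpa using h))

theorem ev_small {z : ℂ} (h0 : z ≠ 0) (h : ‖z‖ < 9 / 10) :
    ∀ᶠ w in 𝓝 z, ‖w‖ < 9 / 10 ∧ w ≠ 0 :=
  Eventually.and ((isOpen_lt continuous_norm continuous_const).mem_nhds h) (isOpen_ne.mem_nhds h0)

theorem dloc (b : BD θ) {z : ℂ} (h0 : z ≠ 0) (h : ‖z‖ < 9 / 10) :
    deriv b.f z = -(z⁻¹ ^ 2) + deriv b.g z := by
  have he : b.f =ᶠ[𝓝 z] fun w => w⁻¹ + b.g w := by
    filter_upwards [ev_small h0 h] with w hw using b.loc w hw.1 hw.2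
  rw [he.deriv_eq]
  have h1 := (hasDerivAt_inv h0).add (an_g b h).differentiableAt.hasDerivAt
  rw [show (fun w => w⁻¹ + b.g w) = (fun y : ℂ => y⁻¹) + b.g from rfl, h1.deriv, inv_pow]

/-- Twice a half period. -/
theorem sq_half (b : BD θ) (z : ℂ) (w : GI) (hw : (w : ℂ) = 2 * z) :
    deriv b.f z * deriv b.f (-z) = (deriv b.f z * ex θ z) ^ 2 := by
  have h1 : -z = z + ((-w : GI) : ℂ) := by rw [map_neg, hw]; ring
  have h2 : exp (I * dot θ ((-w : GI) : ℂ)) = ex θ z * ex θ z := by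
    rw [map_neg, chi_neg, hw, two_mul, ex_add]
  rw [h1, dbl, h2]; ring

theorem link0 (hU : S_Uni) (hK : S_Ker0) (E : Ell) (b : BD θ) (hθ : NP θ) :
    ∃ κ, ∀ z, NL z → deriv b.f z * deriv b.f (-z) - (E.wp z + b.sy.p) ^ 2 = κ := by
  obtain ⟨C, -, hC⟩ := hK E
  obtain ⟨-, -, -, -, -, -, -, hw0, hsym, -, hwd⟩ := hC 0 (by simp)
  refine (hU θ b hθ).2.2.2 (fun _ => 1) _ (by simp) (fun z hz => ?_) (fun z w _ => ?_) ?_
  · have h1 := (an_f b hz).deriv.differentiableAt
    have h2 : DifferentiableAt ℂ (fun z => deriv b.f (-z)) z :=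
      (an_f b (NL_neg hz)).deriv.differentiableAt.comp z (by fun_prop)
    exact (h1.mul h2).sub (((hwd z hz).2.add_const _).pow 2)
  · have h1 : -(z + w) = -z + ((-w : GI) : ℂ) := by rw [map_neg]; ring
    rw [h1, dbl, dbl, E.Wper, map_neg, chi_neg]
    linear_combination deriv b.f z * deriv b.f (-z) * chi_mul_ex θ w
  · set φ : ℂ → ℂ := fun z => E.wp z - z⁻¹ ^ 2 with hφ
    have hF : AnalyticAt ℂ (E.F 0) 0 :=
      (E.hol 0 (by simp)).analyticAt (isOpen_ball.mem_nhds (by simp))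
    have hφe : φ =ᶠ[𝓝 0] fun z => -deriv (deriv (E.F 0)) z := by
      filter_upwards [(isOpen_lt continuous_norm continuous_const).mem_nhds
        (show ‖(0 : ℂ)‖ < 9 / 10 by simp)] with w hw
      simp only [hφ]
      rw [E.Wloc w hw]; ring
    have hφd : DifferentiableAt ℂ φ 0 :=
      hF.deriv.deriv.differentiableAt.neg.congr_of_eventuallyEq hφe
    have hφ0 : φ 0 = 0 := by simp [hφ, hw0]
    have hg : DifferentiableAt ℂ (deriv b.g) 0 := (an_g b (by simp)).deriv.differentiableAt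
    have hg' : DifferentiableAt ℂ (fun z => deriv b.g (-z)) 0 :=
      DifferentiableAt.comp (0 : ℂ) (g := deriv b.g) (by simpa using hg) (by fun_prop)
    set k : ℂ → ℂ := fun z => deriv b.g z + deriv b.g (-z) + 2 * φ z + 2 * b.sy.p with hk
    have hkd : DifferentiableAt ℂ k 0 := ((hg.add hg').add (hφd.const_mul 2)).add_const _
    have hke : (fun z => k (-z)) = k := by
      funext z
      simp only [hk, hφ, neg_neg, (hsym z).1, inv_neg, neg_sq]
      ring
    have hk1 : deriv k 0 = 0 := by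
      have h1 := deriv_comp_neg k 0
      rw [hke, neg_zero] at h1
      linear_combination h1 / 2
    have hk0 : k 0 = 0 := by
      simp only [hk, hφ0, neg_zero, BD.sy]; ring
    have h1 : Tendsto (fun t => t⁻¹ * k t) (𝓝[≠] 0) (𝓝 0) := by
      have h2 := hasDerivAt_iff_tendsto_slope_zero.mp hkd.hasDerivAt
      simpa [hk0, hk1] using h2
    have h2 : Tendsto (fun z => z * (deriv b.g z * deriv b.g (-z) - (φ z + b.sy.p) ^ 2))
        (𝓝[≠] 0) (𝓝 0) := by
      have h3 : ContinuousAt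
          (fun z => z * (deriv b.g z * deriv b.g (-z) - (φ z + b.sy.p) ^ 2)) 0 :=
        continuousAt_id.mul ((hg.continuousAt.mul hg'.continuousAt).sub
          ((hφd.continuousAt.add continuousAt_const).pow 2))
      have h4 := h3.tendsto.mono_left (nhdsWithin_le_nhds (s := {0}ᶜ))
      simpa using h4
    have h3 := h2.sub h1
    rw [sub_zero] at h3
    refine h3.congr' ?_
    filter_upwards [self_mem_nhdsWithin, nhdsWithin_le_nhds
      ((isOpen_lt continuous_norm continuous_const).mem_nhds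
        (show ‖(0 : ℂ)‖ < 9 / 10 by simp))] with z hz0 hz
    have hz0' : z ≠ 0 := hz0
    have hz' : ‖z‖ < 9 / 10 := hz
    rw [dloc b hz0' hz', dloc b (neg_ne_zero.mpr hz0') (by simpa using hz')]
    simp only [hk, hφ, inv_neg, neg_sq]
    field_simp
    ring

/-- The value of the derivative at `i / 2`. -/
def ci (b : BD θ) : ℂ := -deriv b.f (I / 2) * ex θ (I / 2)

theorem link (hU : S_Uni) (hK : S_Ker0) (hT : S_Tor0) (E : Ell) (b : BD θ) (hθ : NP θ) :
    b.sy.p ^ 2 - b.sy.ch ^ 2 = Om (ee E) b.sy ∧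
      (b.sy.p - ee E) ^ 2 - ci b ^ 2 = Om (ee E) b.sy := by
  obtain ⟨κ, hκ⟩ := link0 hU hK E b hθ
  obtain ⟨h1, h2, h3, -⟩ := hT E
  have e1 := hκ _ NL_half
  have e2 := hκ _ NL_ihalf
  have e3 := hκ _ NL_hf
  rw [sq_half b _ 1 (by simp), h1] at e1
  rw [sq_half b _ gi (by rw [coe_gi]; ring), h2] at e2
  rw [sq_half b _ om (by rw [coe_om, hf]; ring), h3] at e3
  have c1 : b.sy.c = -deriv b.f (1 / 2) * ex θ (1 / 2) := rfl
  have c2 : b.sy.ch = -deriv b.f hf * ex θ hf := rfl
  rw [Om, c1, c2, ci]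
  constructor
  · linear_combination e1 - e3
  · linear_combination e1 - e2

theorem same (hU : S_Uni) (b b' : BD θ) (hθ : NP θ) :
    deriv b'.g 0 = deriv b.g 0 ∧ ∀ z, NL z → deriv b'.f z = deriv b.f z := by
  obtain ⟨h1, h2⟩ := (hU θ b hθ).1 b'
  constructor
  · apply EventuallyEq.deriv_eq
    filter_upwards [(isOpen_lt continuous_norm continuous_const).mem_nhds
        (show ‖(0 : ℂ)‖ < 9 / 10 by simp)] with w hw using h2 w hw
  · intro z hz
    apply EventuallyEq.deriv_eq
    filter_upwards [isOpen_NL.mem_nhds hz] with w hw using h1 w hw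

theorem NP_I (h : NP θ) : NP (I * θ) := by
  intro w hw
  refine h (-gi * w) ?_
  rw [map_mul, map_neg, coe_gi]
  linear_combination (-I) * hw + θ * I_mul_I

theorem NP_add (h : NP θ) (u : GI) : NP (θ + 2 * π * u) := by
  intro w hw
  refine h (w - u) ?_
  rw [map_sub]
  linear_combination hw

theorem NP_1 (h : NP θ) : NP (θ * kp) := by
  intro w hw
  refine h (om * w) ?_
  rw [map_mul, coe_om]
  rw [kp] at hw
  linear_combination (1 + I) * hw + θ / 2 * I_mul_I

theorem NP_2 (h : NP θ) : NP (θ * kp + π * (1 - I)) := by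
  intro w hw
  refine h (om * w - 1) ?_
  rw [map_sub, map_mul, coe_om, map_one]
  rw [kp] at hw
  linear_combination (1 + I) * hw + (θ / 2 + π) * I_mul_I

theorem deriv_rot {f f' : ℂ → ℂ} (h : ∀ z, f' (I * z) = -I * f z) (z : ℂ) :
    deriv f' (I * z) = -deriv f z := by
  have h1 : (fun z => f' (I * z)) = fun z => -I * f z := funext h
  have h2 := deriv_comp_mul_left I f' z
  rw [h1, deriv_const_mul_field, smul_eq_mul] at h2
  linear_combination I * h2 + (deriv f' (I * z) + deriv f z) * I_mul_I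

theorem rot (hU : S_Uni) (b : BD θ) (hθ : NP θ) (b' : BD (I * θ)) :
    b'.sy.p = -b.sy.p ∧ b'.sy.ch = -b.sy.ch := by
  obtain ⟨b2, h1, h2, -⟩ := (hU θ b hθ).2.1
  obtain ⟨e1, e2⟩ := same hU b2 b' (NP_I hθ)
  constructor
  · change -deriv b'.g 0 = - -deriv b.g 0
    have h3 := deriv_rot h2 0
    rw [mul_zero] at h3
    rw [e1, h3]
  · change -deriv b'.f hf * ex (I * θ) hf = -(-deriv b.f hf * ex θ hf)
    have h3 : hf = I * (hf + ((-gi : GI) : ℂ)) := by
      rw [map_neg, coe_gi, hf]; linear_combination (1 / 2 : ℂ) * I_mul_I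
    have h4 : ex (I * θ) hf = ex θ (hf + ((-gi : GI) : ℂ)) := by
      rw [map_neg, coe_gi, ex, ex]
      congr 3
      simp [dot, hf]
      ring
    have h5 := deriv_rot h1 (hf + ((-gi : GI) : ℂ))
    rw [← h3] at h5
    rw [e2 _ NL_hf, h4, h5]
    linear_combination dper b hf (-gi)

theorem shift (hU : S_Uni) (e : ℝ) (b : BD θ) (hθ : NP θ) (w : GI) (b' : BD (θ + 2 * π * w)) :
    b'.sy.p = b.sy.p ∧ Om e b'.sy = Om e b.sy := by
  obtain ⟨b2, h1, h2, -⟩ := (hU θ b hθ).2.2.1 w
  obtain ⟨e1, e2⟩ := same hU b2 b' (NP_add hθ w)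
  have hp : b'.sy.p = b.sy.p := by
    change -deriv b'.g 0 = -deriv b.g 0
    rw [e1, h2]
  refine ⟨hp, ?_⟩
  have c1 : b.sy.c = -deriv b.f (1 / 2) * ex θ (1 / 2) := rfl
  have c2 : b'.sy.c = -deriv b'.f (1 / 2) * ex (θ + 2 * π * w) (1 / 2) := rfl
  have h3 : ex (θ + 2 * π * w) (1 / 2) ^ 2 = ex θ (1 / 2) ^ 2 := by
    rw [ex, ex, ← Complex.exp_nat_mul, ← Complex.exp_nat_mul, Complex.exp_eq_exp_iff_exists_int]
    refine ⟨-w.re, ?_⟩
    have h4 : dot (θ + 2 * π * w) (1 / 2) = dot θ (1 / 2) + π * w.re := by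
      simp [dot]; ring
    rw [h4]; push_cast; ring
  rw [Om, Om, hp, c1, c2, e2 _ NL_half, h1, mul_pow, mul_pow, h3]

theorem const_zero (hθ : NP θ) {κ : ℂ} (h : ∀ w : GI, κ = exp (I * dot θ w) * κ) : κ = 0 := by
  by_contra h0
  have h1 : ∀ w : GI, ∃ n : ℤ, dot θ w = 2 * π * n := by
    intro w
    have h2 : exp (I * dot θ w) = 1 := by
      have := h w
      exact mul_right_cancel₀ h0 (by rw [one_mul]; exact this.symm)
    obtain ⟨n, hn⟩ := Complex.exp_eq_one_iff.mp h2
    refine ⟨n, ?_⟩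
    have h3 : ((dot θ w : ℝ) : ℂ) = ((2 * π * n : ℝ) : ℂ) := by
      push_cast
      linear_combination (-I) * hn + ((dot θ w : ℝ) - 2 * π * n : ℂ) * I_mul_I
    exact_mod_cast h3
  obtain ⟨a, ha⟩ := h1 1
  obtain ⟨c, hc⟩ := h1 gi
  rw [coe_gi] at hc
  simp [dot] at ha hc
  refine hθ ⟨a, c⟩ ?_
  apply Complex.ext <;> simp [GaussianInt.toComplex_def', ha, hc]

theorem al_par (w : GI) : (∃ u : GI, al * w = u ∧ Even (w.re - w.im)) ∨
    ∃ u : GI, al * w = hf + u ∧ Odd (w.re - w.im) := by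
  rcases Int.even_or_odd' (w.re - w.im) with ⟨k, hk | hk⟩
  · refine Or.inl ⟨⟨k, k + w.im⟩, ?_, ⟨k, by omega⟩⟩
    have h : (w.re : ℂ) = 2 * k + w.im := by exact_mod_cast (by omega : w.re = 2 * k + w.im)
    rw [GaussianInt.toComplex_def w, GaussianInt.toComplex_def', h, al]
    push_cast
    linear_combination ((w.im : ℂ) / 2) * I_mul_I
  · refine Or.inr ⟨⟨k, k + w.im⟩, ?_, ⟨k, hk⟩⟩
    have h : (w.re : ℂ) = 2 * k + 1 + w.im := by
      exact_mod_cast (by omega : w.re = 2 * k + 1 + w.im)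
    rw [GaussianInt.toComplex_def w, GaussianInt.toComplex_def', h, al, hf]
    push_cast
    linear_combination ((w.im : ℂ) / 2) * I_mul_I

theorem dot_al (θ z : ℂ) : dot θ (al * z) = dot (θ * kp) z := by
  have h : conj kp = al := by
    simp [al, kp, map_ofNat]
  rw [dot, dot, map_mul, h, mul_assoc]

theorem NL_al {z : ℂ} (h : NL z) : NL (al * z) ∧ NL (al * z + hf) := by
  constructor
  · intro w hw
    refine h (star om * w) ?_
    rw [star_om, map_mul, map_mul, map_neg, coe_om, coe_gi, ← hw, al]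
    linear_combination (z * (I + 2) / 2) * I_mul_I
  · intro w hw
    refine h (star om * w - 1) ?_
    rw [star_om, map_sub, map_mul, map_mul, map_neg, coe_om, coe_gi, ← hw, al, hf, map_one]
    linear_combination ((z + 1) * (I + 2) / 2) * I_mul_I

/-- The distribution relation, for one child. -/
theorem child (hU : S_Uni) (b : BD θ) {θ' : ℂ} (b' : BD θ') (hθ' : NP θ') (s : ℂ)
    (hs : ∀ w : GI, (Even (w.re - w.im) → exp (I * dot θ' w) = exp (I * dot (θ * kp) w)) ∧
      (Odd (w.re - w.im) → exp (I * dot θ' w) = s * exp (I * dot (θ * kp) w))) (hs2 : s * s = 1) :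
    ∀ z, NL z → kp * b'.f z = (b.f (al * z) + s * ex θ hf * b.f (al * z + hf)) / 2 := by
  have hbl : ∀ z (w : GI),
      (b.f (al * (z + w)) + s * ex θ hf * b.f (al * (z + w) + hf)) / 2 - kp * b'.f (z + w)
      = exp (I * dot θ' w) *
        ((b.f (al * z) + s * ex θ hf * b.f (al * z + hf)) / 2 - kp * b'.f z) := by
    intro z w
    rw [b'.bl]
    rcases al_par w with ⟨u, hu, he⟩ | ⟨u, hu, ho⟩
    · have h1 : al * (z + w) = al * z + u := by rw [mul_add, hu]
      have h2 : al * z + u + hf = al * z + hf + u := by ring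
      rw [h1, h2, b.bl, b.bl, (hs w).1 he, ← dot_al, hu]
      ring
    · have h1 : al * (z + w) = al * z + hf + u := by rw [mul_add, hu]; ring
      have h2 : al * z + hf + u + hf = al * z + ((om + u : GI) : ℂ) := by
        rw [map_add, coe_om, hf]; ring
      have h3 : exp (I * dot θ ((om + u : GI) : ℂ)) * ex θ hf = exp (I * dot θ (hf + u)) := by
        rw [ex, ← Complex.exp_add]
        have h4 : ((om + u : GI) : ℂ) = hf + u + hf := by rw [map_add, coe_om, hf]; ring
        rw [h4, dot_add]; push_cast; ring_nf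
      have h5 : exp (I * dot θ (hf + u)) * ex θ hf = exp (I * dot θ u) := by
        rw [ex, ← Complex.exp_add, dot_add]; push_cast; ring_nf
      rw [h1, h2, b.bl, b.bl, (hs w).2 ho, ← dot_al, hu]
      linear_combination (s * b.f (al * z) / 2) * h3 - (b.f (al * z + hf) / 2) * h5
        - (exp (I * dot θ (hf + u)) * ex θ hf * b.f (al * z + hf) / 2) * hs2
  obtain ⟨κ, hκ⟩ := (hU θ' b' hθ').2.2.2 (fun w => exp (I * dot θ' w))
    (fun z => (b.f (al * z) + s * ex θ hf * b.f (al * z + hf)) / 2 - kp * b'.f z)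
    (fun w => norm_chi _ _) (fun z hz => by
      have h1 : DifferentiableAt ℂ (fun z => b.f (al * z)) z :=
        (b.df _ (NL_al hz).1).comp z (by fun_prop)
      have h2 : DifferentiableAt ℂ (fun z => b.f (al * z + hf)) z :=
        (b.df _ (NL_al hz).2).comp z (by fun_prop)
      exact ((h1.add (h2.const_mul _)).div_const 2).sub ((b'.df z hz).const_mul _))
    (fun z w _ => hbl z w) (by
      have h1 : ContinuousAt (fun z => b.g (al * z)) 0 :=
        ContinuousAt.comp (g := b.g) (by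
          rw [mul_zero]; exact (an_g b (by simp)).continuousAt) (by fun_prop)
      have h2 : ContinuousAt (fun z => b.f (al * z + hf)) 0 :=
        ContinuousAt.comp (g := b.f) (by
          rw [mul_zero, zero_add]; exact (b.df _ NL_hf).continuousAt) (by fun_prop)
      have h3 : ContinuousAt (fun z => z * ((b.g (al * z) + s * ex θ hf * b.f (al * z + hf)) / 2
          - kp * b'.g z)) 0 :=
        continuousAt_id.mul (((h1.add (continuousAt_const.mul h2)).div_const 2).sub
          (continuousAt_const.mul (an_g b' (by simp)).continuousAt))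
      have h4 := h3.tendsto.mono_left (nhdsWithin_le_nhds (s := {0}ᶜ))
      rw [zero_mul] at h4
      refine h4.congr' ?_
      filter_upwards [self_mem_nhdsWithin, nhdsWithin_le_nhds
        ((isOpen_lt continuous_norm continuous_const).mem_nhds
          (show ‖(0 : ℂ)‖ < 9 / 10 by simp))] with z hz0 hz
      have hz0' : z ≠ 0 := hz0
      have hz' : ‖z‖ < 9 / 10 := hz
      have ha : al ≠ 0 := fun h => NL_hf 0 (by rw [map_zero]; exact h)
      have hn : ‖al * z‖ < 9 / 10 := by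
        rw [norm_mul]
        have : ‖al‖ < 1 := norm_hf
        nlinarith [norm_nonneg z, norm_nonneg al]
      have hk : kp = (2 * al)⁻¹ := by
        refine eq_inv_of_mul_eq_one_left ?_
        rw [kp, al]; linear_combination (-1 / 2 : ℂ) * I_mul_I
      rw [b.loc _ hn (mul_ne_zero ha hz0'), b'.loc z hz' hz0', hk]
      field_simp
      ring)
  have h0 : κ = 0 := const_zero hθ' fun w => by
    have h1 := hκ _ (NL_add NL_hf w)
    have h2 := hκ _ NL_hf
    have h3 := hbl hf w
    rw [h1, h2] at h3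
    exact h3
  intro z hz
  have h1 := hκ z hz
  linear_combination -h1 - h0

theorem child_sy (b : BD θ) {θ' : ℂ} (b' : BD θ') (s : ℂ) (hx : ex θ' hf = ex θ (I / 2))
    (h : ∀ z, NL z → kp * b'.f z = (b.f (al * z) + s * ex θ hf * b.f (al * z + hf)) / 2) :
    b'.sy.p = I * (b.sy.p + s * b.sy.ch) / 2 ∧ b'.sy.ch = I * (ci b + s * b.sy.c) / 2 ∧
      kp * b'.sy.zh = (b.f (I / 2) * ex θ (I / 2) + s * b.sy.z1) / 2 := by
  have ha : al ≠ 0 := fun h => NL_hf 0 (by rw [map_zero]; exact h)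
  have hk : kp ≠ 0 := by
    intro h
    have := congrArg re h
    simp [kp] at this
  have hak : al = I * kp := by rw [kp, al]; linear_combination (1 / 2 : ℂ) * I_mul_I
  have hk2 : kp = (2 * al)⁻¹ := by
    refine eq_inv_of_mul_eq_one_left ?_
    rw [kp, al]; linear_combination (-1 / 2 : ℂ) * I_mul_I
  have q1 : al * hf = I / 2 := by rw [al, hf]; linear_combination (1 / 4 : ℂ) * I_mul_I
  have q2 : I / 2 + hf = 1 / 2 + ((gi : GI) : ℂ) := by rw [coe_gi, hf]; ring
  have q3 : ex θ hf * ex θ (I / 2) = ex θ (1 / 2 + ((gi : GI) : ℂ)) := by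
    rw [← ex_add, add_comm, q2]
  have hd : ∀ (u : ℂ → ℂ) (z c : ℂ), DifferentiableAt ℂ u (al * z + c) →
      HasDerivAt (fun z => u (al * z + c)) (deriv u (al * z + c) * al) z := by
    intro u z c hu
    have h1 : HasDerivAt (fun z => al * z + c) al z := by
      simpa using ((hasDerivAt_id z).const_mul al).add_const c
    exact hu.hasDerivAt.comp z h1
  refine ⟨?_, ?_, ?_⟩
  · have hg1 := hd b.g 0 0 (by simpa using (an_g b (by simp)).differentiableAt)
    have hg2 := hd b.f 0 hf (by simpa using b.df _ NL_hf)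
    simp only [add_zero, mul_zero, zero_add] at hg1 hg2
    have hR := (hg1.add (hg2.const_mul (s * ex θ hf))).div_const 2
    have hL := (an_g b' (z := 0) (by simp)).differentiableAt.hasDerivAt.const_mul kp
    have he : (fun z => kp * b'.g z) =ᶠ[𝓝[≠] 0]
        fun z => (b.g (al * z) + s * ex θ hf * b.f (al * z + hf)) / 2 := by
      filter_upwards [self_mem_nhdsWithin, nhdsWithin_le_nhds
        ((isOpen_lt continuous_norm continuous_const).mem_nhds
          (show ‖(0 : ℂ)‖ < 9 / 10 by simp))] with z hz0 hz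
      have hz0' : z ≠ 0 := hz0
      have hz' : ‖z‖ < 9 / 10 := hz
      have hn : ‖al * z‖ < 9 / 10 := by
        rw [norm_mul]
        have : ‖al‖ < 1 := norm_hf
        nlinarith [norm_nonneg z, norm_nonneg al]
      have h1 := h z (NL_small hz0' (by linarith))
      rw [b.loc _ hn (mul_ne_zero ha hz0'), b'.loc z hz' hz0'] at h1
      have h2 : kp * z⁻¹ = (al * z)⁻¹ / 2 := by rw [hk2]; field_simp
      linear_combination h1 - h2
    have h00 : kp * b'.g 0 = (b.g (al * 0) + s * ex θ hf * b.f (al * 0 + hf)) / 2 :=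
      tendsto_nhds_unique_of_eventuallyEq
        (hL.continuousAt.tendsto.mono_left nhdsWithin_le_nhds)
        (hR.continuousAt.tendsto.mono_left nhdsWithin_le_nhds) he
    have he' : (fun z => kp * b'.g z) =ᶠ[𝓝 0]
        fun z => (b.g (al * z) + s * ex θ hf * b.f (al * z + hf)) / 2 := by
      rw [EventuallyEq, ← nhdsNE_sup_pure, eventually_sup]
      exact ⟨he, by simpa using h00⟩
    have h1 := hL.unique (hR.congr_of_eventuallyEq he')
    change -deriv b'.g 0 = I * (-deriv b.g 0 + s * (-deriv b.f hf * ex θ hf)) / 2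
    apply mul_left_cancel₀ hk
    rw [hak] at h1
    linear_combination -h1
  · have hg1 := hd b.f hf 0 (by rw [add_zero, q1]; exact b.df _ NL_ihalf)
    have hg2 := hd b.f hf hf (b.df _ (NL_al NL_hf).2)
    simp only [add_zero] at hg1
    have hR := (hg1.add (hg2.const_mul (s * ex θ hf))).div_const 2
    have hL := (b'.df _ NL_hf).hasDerivAt.const_mul kp
    have he : (fun z => kp * b'.f z) =ᶠ[𝓝 hf]
        fun z => (b.f (al * z) + s * ex θ hf * b.f (al * z + hf)) / 2 := by
      filter_upwards [isOpen_NL.mem_nhds NL_hf] with z hz using h z hz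
    have h1 := hL.unique (hR.congr_of_eventuallyEq he)
    rw [q1, q2] at h1
    have h2 := dper b (1 / 2) gi
    rw [← q3] at h2
    change -deriv b'.f hf * ex θ' hf
      = I * (-deriv b.f (I / 2) * ex θ (I / 2) + s * (-deriv b.f (1 / 2) * ex θ (1 / 2))) / 2
    apply mul_left_cancel₀ hk
    rw [hak] at h1
    rw [hx]
    linear_combination (-ex θ (I / 2)) * h1 - (s * I * kp / 2) * h2
  · have h1 := h _ NL_hf
    rw [q1, q2] at h1
    have h2 := uper b (1 / 2) gi
    rw [← q3] at h2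
    change kp * (b'.f hf * ex θ' hf)
      = (b.f (I / 2) * ex θ (I / 2) + s * (b.f (1 / 2) * ex θ (1 / 2))) / 2
    rw [hx]
    linear_combination ex θ (I / 2) * h1 + (s / 2) * h2

end IdP

open IdP in
theorem pId (hU : S_Uni) (hK : S_Ker0) (hT : S_Tor0) : S_Id := by
  intro E
  refine ⟨fun θ b hθ => ⟨(link hU hK hT E b hθ).1, fun b' => ?_,
    fun w b' => shift hU _ b hθ w b'⟩, fun θ b b1 b2 hθ => ?_⟩
  · obtain ⟨h1, h2⟩ := rot hU b hθ b'
    refine ⟨h1, ?_⟩
    rw [← (link hU hK hT E b hθ).1, ← (link hU hK hT E b' (NP_I hθ)).1, h1, h2]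
    ring
  · have q1 : al * hf = I / 2 := by rw [al, hf]; linear_combination (1 / 4 : ℂ) * I_mul_I
    have x1 : ex (θ * kp) hf = ex θ (I / 2) := by rw [ex, ex, ← dot_al, q1]
    have x2 : ex (θ * kp + π * (1 - I)) hf = ex θ (I / 2) := by
      rw [← x1, ex, ex]
      congr 3
      simp [dot, hf]
      ring
    have hd : ∀ w : GI, exp (I * dot (θ * kp + π * (1 - I)) w)
        = exp (π * I) ^ (w.re - w.im) * exp (I * dot (θ * kp) w) := by
      intro w
      have h1 : dot (θ * kp + π * (1 - I)) w = π * (w.re - w.im) + dot (θ * kp) w := by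
        simp [dot]; ring
      rw [← Complex.exp_int_mul, ← Complex.exp_add, h1]
      push_cast; ring_nf
    obtain ⟨a1, a2, a3⟩ := child_sy b b1 1 x1
      (child hU b b1 (NP_1 hθ) 1 (fun w => ⟨fun _ => rfl, fun _ => (one_mul _).symm⟩) (one_mul 1))
    obtain ⟨c1, c2, c3⟩ := child_sy b b2 (-1) x2
      (child hU b b2 (NP_2 hθ) (-1) (fun w => ⟨fun h => by
        rw [hd, exp_pi_mul_I, h.neg_one_zpow, one_mul], fun h => by
        rw [hd, exp_pi_mul_I, h.neg_one_zpow]⟩) (by ring))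
    obtain ⟨l1, l2⟩ := link hU hK hT E b hθ
    have l3 := (link hU hK hT E b1 (NP_1 hθ)).1
    have l4 := (link hU hK hT E b2 (NP_2 hθ)).1
    have l0 : Om (ee E) b.sy = (ee E + b.sy.p) ^ 2 - b.sy.c ^ 2 := rfl
    rw [← l3, ← l4, a1, a2, c1, c2]
    refine ⟨?_, ?_, ?_, ?_, ?_⟩
    · linear_combination b.sy.p * I_mul_I
    · linear_combination -l1 + (b.sy.p ^ 2 - b.sy.ch ^ 2) * I_mul_I
    · linear_combination (l2 + l0) / 4 + (ci b ^ 2 - b.sy.c ^ 2) / 4 * I_mul_I
    · linear_combination l1 - (l2 - l0) / 2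
        + (b.sy.ch ^ 2 - (ci b ^ 2 + b.sy.c ^ 2) / 2) * I_mul_I
    · linear_combination c3 - a3

end Pool.Agent.P.MP_cc4a10_gt
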