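import Pool.Agent.P.MP_cc4a10_gt.St

/-! A coordinate close to the identity. -/

open Set Filter Topology Complex Metric MeasureTheory
open scoped Real

namespace Pool.Agent.P.MP_cc4a10_gt

namespace InvP

/-- holomorphy of a Cauchy type integral in the parameter -/
theorem diff_cint (f v : ℂ → ℂ) (p : ℂ) (r a b : ℝ) (hr : 0 ≤ r) (hab : a < b)
    (hf : ContinuousOn f (sphere p r)) (hv : ContinuousOn v (sphere p r))
    (hb : ∀ z ∈ sphere p r, b ≤ ‖v z‖) :
    DifferentiableOn ℂ (fun y => cint p r (fun ξ => f ξ / (v ξ - y))) (ball 0 a) := by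
  intro y₀ hy₀
  have hm : ∀ θ, circleMap p r θ ∈ sphere p r := circleMap_mem_sphere p hr
  have hfc : Continuous fun θ => deriv (circleMap p r) θ * f (circleMap p r θ) := by
    refine Continuous.mul ?_ (hf.comp_continuous (continuous_circleMap p r) hm)
    rw [funext (deriv_circleMap p r)]
    fun_prop
  have hvc : Continuous fun θ => v (circleMap p r θ) :=
    hv.comp_continuous (continuous_circleMap p r) hm
  have hl : ∀ θ, ∀ y ∈ ball (0 : ℂ) a, b - a ≤ ‖v (circleMap p r θ) - y‖ := fun θ y hy => by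
    have h1 := norm_sub_norm_le (v (circleMap p r θ)) y
    have h2 := hb _ (hm θ)
    have h3 := mem_ball_zero_iff.1 hy
    linarith
  have hn : ∀ θ, ∀ y ∈ ball (0 : ℂ) a, v (circleMap p r θ) - y ≠ 0 := fun θ y hy =>
    norm_pos_iff.1 ((sub_pos.2 hab).trans_le (hl θ y hy))
  have hc : ∀ n : ℕ, ∀ y ∈ ball (0 : ℂ) a, Continuous fun θ =>
      deriv (circleMap p r) θ * f (circleMap p r θ) / (v (circleMap p r θ) - y) ^ n :=
    fun n y hy => hfc.div ((hvc.sub continuous_const).pow n) fun θ => pow_ne_zero _ (hn θ y hy)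
  have h := intervalIntegral.hasDerivAt_integral_of_dominated_loc_of_deriv_le (μ := volume)
    (a := 0) (b := 2 * π) (x₀ := y₀)
    (F := fun y θ =>
      deriv (circleMap p r) θ * f (circleMap p r θ) / (v (circleMap p r θ) - y) ^ 1)
    (F' := fun y θ =>
      deriv (circleMap p r) θ * f (circleMap p r θ) / (v (circleMap p r θ) - y) ^ 2)
    (bound := fun θ => ‖deriv (circleMap p r) θ * f (circleMap p r θ)‖ / (b - a) ^ 2)
    (isOpen_ball.mem_nhds hy₀)
    (by
      filter_upwards [isOpen_ball.mem_nhds hy₀] with y hy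
      exact (hc 1 y hy).aestronglyMeasurable)
    ((hc 1 y₀ hy₀).intervalIntegrable _ _) (hc 2 y₀ hy₀).aestronglyMeasurable
    (Eventually.of_forall fun θ _ y hy => by
      rw [norm_div, norm_pow]
      have := hl θ y hy
      have := sub_pos.2 hab
      gcongr)
    ((hfc.norm.div_const _).intervalIntegrable _ _)
    (Eventually.of_forall fun θ _ y hy => by
      have h1 := (((hasDerivAt_id y).const_sub (v (circleMap p r θ))).inv (hn θ y hy)).const_mul
        (deriv (circleMap p r) θ * f (circleMap p r θ))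
      simp only [pow_one, div_eq_mul_inv]
      refine h1.congr_deriv ?_
      simp [div_eq_mul_inv])
  refine (h.2.differentiableAt.const_mul (2 * π * I)⁻¹).differentiableWithinAt.congr
    (fun y _ => ?_) ?_ <;> simp [cint, circleIntegral, mul_div_assoc]

end InvP

theorem pInv (hA : S_Ann) : S_Inv := by
  intro v p R hR hv h0 hd
  have hv' : DifferentiableOn ℂ (deriv v) (ball p R) := hv.deriv isOpen_ball
  have hva : ∀ z ∈ ball p R, DifferentiableAt ℂ v z := fun z hz =>
    hv.differentiableAt (isOpen_ball.mem_nhds hz)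
  have h1 : ∀ z ∈ ball p R, ∀ z' ∈ ball p R, ‖v z - v z' - (z - z')‖ ≤ ‖z - z'‖ / 100 := by
    intro z hz z' hz'
    have h2 := (convex_ball p R).norm_image_sub_le_of_norm_deriv_le (f := fun z => v z - z)
      (C := 1 / 100) (fun x hx => (hva x hx).sub differentiableAt_id)
      (fun x hx => by
        rw [((hva x hx).hasDerivAt.fun_sub (hasDerivAt_id' x)).deriv]
        exact hd x hx) hz' hz
    calc _ = ‖v z - z - (v z' - z')‖ := by congr 1; ring
      _ ≤ _ := h2.trans_eq (by ring)
  have h2 : ∀ z ∈ ball p R, ∀ z' ∈ ball p R, ‖z - z'‖ * (99 / 100) ≤ ‖v z - v z'‖ ∧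
      ‖v z - v z'‖ ≤ ‖z - z'‖ * (101 / 100) := by
    intro z hz z' hz'
    have h3 := h1 z hz z' hz'
    have h4 := abs_le.1 (abs_norm_sub_norm_le (v z - v z') (z - z'))
    constructor <;> linarith [h4.1, h4.2]
  have h3 : ∀ (M : ℂ → ℂ) (r : ℝ), 0 < r → r < R → DifferentiableOn ℂ M (ball p R) →
      ∀ z ∈ ball p r, cint p r (fun ξ => M ξ * deriv v ξ / (v ξ - v z)) = M z := by
    intro M r hr hrR hM z hz
    have hzR : z ∈ ball p R := ball_subset_ball hrR.le hz
    have hs : DifferentiableOn ℂ (dslope v z) (ball p R) :=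
      (differentiableOn_dslope (isOpen_ball.mem_nhds hzR)).2 hv
    have hz0 : deriv v z ≠ 0 := fun h => by
      have := hd z hzR
      rw [h] at this
      norm_num at this
    have hn : ∀ ξ ∈ ball p R, dslope v z ξ ≠ 0 := by
      intro ξ hξ h
      by_cases e : ξ = z
      · rw [e, dslope_same] at h
        exact hz0 h
      · have h4 := sub_smul_dslope v z ξ
        rw [h, smul_zero] at h4
        have h5 := (h2 ξ hξ z hzR).1
        rw [← h4, norm_zero] at h5
        have := norm_pos_iff.2 (sub_ne_zero.2 e)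
        linarith
    have h4 := (((hM.mul hv').div hs hn).mono
      (closedBall_subset_ball hrR)).circleIntegral_sub_inv_smul hz
    rw [cint, circleIntegral.integral_congr hr.le
      (g := fun ξ => (ξ - z)⁻¹ • (M * deriv v / dslope v z) ξ) fun ξ _ => ?_, h4]
    · simp only [Pi.div_apply, Pi.mul_apply, dslope_same, smul_eq_mul]
      rw [inv_mul_cancel_left₀ two_pi_I_ne_zero, mul_div_cancel_right₀ _ hz0]
    · simp only [Pi.div_apply, Pi.mul_apply, smul_eq_mul]
      rw [← sub_smul_dslope v z ξ, smul_eq_mul, div_mul_eq_div_div_swap, div_eq_inv_mul]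
  have h4 : ∀ r, r < R → ∀ z ∈ sphere p r, z ∈ ball p R ∧ r * (99 / 100) ≤ ‖v z‖ ∧
      ‖v z‖ ≤ r * (101 / 100) := by
    intro r hr z hz
    have hz' : z ∈ ball p R := sphere_subset_ball hr hz
    have h5 := h2 z hz' p (mem_ball_self hR)
    rw [h0, sub_zero, mem_sphere_iff_norm.1 hz] at h5
    exact ⟨hz', h5⟩
  refine ⟨h1, fun y hy => ?_, fun M r hr hrR hM => ⟨?_, fun z hz _ => h3 M r hr hrR hM z hz⟩,
    fun Ψ r1 r2 r r' g1 hΨ hrR g2 g3 g4 g5 => ?_⟩
  · have ha : ApproximatesLinearOn v (ContinuousLinearMap.id ℂ ℂ) (ball p R) (1 / 100) :=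
      fun z hz z' hz' => (h1 z hz z' hz').trans_eq (by push_cast; ring)
    obtain ⟨z, hz, e⟩ := ha.surjOn_closedBall_of_nonlinearRightInverse
      ⟨id, 1, fun y => by simp, fun _ => rfl⟩ (ε := R * (995 / 1000)) (b := p) (by positivity)
      (closedBall_subset_ball (by linarith)) (show y ∈ _ by
        rw [h0, mem_closedBall_zero_iff]
        push_cast
        linarith)
    exact ⟨z, closedBall_subset_ball (by linarith) hz, e⟩
  · exact InvP.diff_cint (fun ξ => M ξ * deriv v ξ) v p r _ (r * (99 / 100)) hr.le (by linarith)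
      ((hM.mul hv').continuousOn.mono (sphere_subset_ball hrR))
      (hv.continuousOn.mono (sphere_subset_ball hrR)) fun z hz => (h4 r hrR z hz).2.1
  · have hr : 0 < r := by linarith
    obtain ⟨G, hG⟩ := hA Ψ 0 r1 r2 r' g1 g4 g5 (by simpa [An] using hΨ)
    simp only [sub_zero] at hG
    have h5 : ∀ z ∈ sphere p r, r1 < ‖v z‖ ∧ ‖v z‖ < r2 := fun z hz =>
      ⟨by linarith [(h4 r hrR z hz).2.1], by linarith [(h4 r hrR z hz).2.2]⟩
    have h6 := circleIntegral.integral_eq_zero_of_hasDerivWithinAt (f := fun z => G (v z))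
      (c := p) hr.le fun z hz => ((hG _ (h5 z hz).1 (h5 z hz).2).comp z
        (hva z (h4 r hrR z hz).1).hasDerivAt).hasDerivWithinAt
    have h7 := h3 (fun _ => cint 0 r' Ψ) r hr hrR (differentiableOn_const _) p (mem_ball_self hr)
    have c1 : ContinuousOn v (sphere p r) := hv.continuousOn.mono (sphere_subset_ball hrR)
    have c2 : ContinuousOn (deriv v) (sphere p r) :=
      hv'.continuousOn.mono (sphere_subset_ball hrR)
    have i1 : CircleIntegrable (fun z => Ψ (v z) * deriv v z) p r :=
      ((hΨ.continuousOn.comp c1 h5).mul c2).circleIntegrable hr.le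
    have i2 : CircleIntegrable (fun z => cint 0 r' Ψ * deriv v z / (v z - v p)) p r := by
      refine ((continuousOn_const.mul c2).div (c1.sub continuousOn_const)
        fun z hz => ?_).circleIntegrable hr.le
      change v z - v p ≠ 0
      rw [h0, sub_zero]
      exact norm_pos_iff.1 (g1.trans_lt (h5 z hz).1)
    have h8 := circleIntegral.integral_sub i1 i2
    have h9 : (fun z => Ψ (v z) * deriv v z - cint 0 r' Ψ * deriv v z / (v z - v p)) =
        fun z => (Ψ (v z) - cint 0 r' Ψ / v z) * deriv v z := by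
      funext z
      rw [h0, sub_zero]
      ring
    rw [h9, h6] at h8
    rw [← h7, cint, cint, sub_eq_zero.1 h8.symm]

end Pool.Agent.P.MP_cc4a10_gt
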