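import Pool.Agent.P.MP_cc4a10_gt.St

/-! Basic properties of the periodic kernels. -/

open Set Filter Topology Complex Metric
open scoped ComplexConjugate Real

noncomputable section

namespace Pool.Agent.P.MP_cc4a10_gt.Ker0P

theorem cauchy {f : ℂ → ℂ} {B : ℝ} (hf : DifferentiableOn ℂ f (ball 0 (19 / 20)))
    (hB : ∀ w, ‖w‖ < 19 / 20 → ‖f w‖ ≤ B) {k : ℕ} (hk : k ≤ 4) {w : ℂ} (hw : ‖w‖ ≤ 9 / 10) :
    ‖iteratedDeriv k f w‖ ≤ 24 * 25 ^ 4 * B := by
  have hsub : closedBall w (1 / 25) ⊆ ball 0 (19 / 20) := fun z hz => by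
    rw [mem_closedBall, dist_eq_norm] at hz
    rw [mem_ball_zero_iff]
    have := norm_add_le (z - w) w
    rw [sub_add_cancel] at this
    linarith
  have hB0 : 0 ≤ B := (norm_nonneg _).trans (hB 0 (by norm_num))
  have h := norm_iteratedDeriv_le_of_forall_mem_sphere_norm_le (f := f) (c := w) (R := 1 / 25)
    (C := B) k (by norm_num) (hf.diffContOnCl_ball hsub)
    fun z hz => hB z (mem_ball_zero_iff.1 (hsub (sphere_subset_closedBall hz)))
  refine h.trans ?_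
  interval_cases k <;> simp [Nat.factorial] <;> linarith

theorem Lm_add (μ a b : ℂ) : Lm μ (a + b) = Lm μ a + Lm μ b := by simp [Lm]; ring

theorem Lm_neg (μ a : ℂ) : Lm μ (-a) = -Lm μ a := by simp [Lm]; ring

theorem Lm_zero (a : ℂ) : Lm 0 a = a := by simp [Lm]

theorem near {μ : ℂ} (hμ : ‖μ‖ ≤ 1 / 100) (z : ℂ) : ∃ u : GI, ‖z - Lm μ u‖ ≤ 72 / 100 := by
  have h0 : 0 < 1 - ‖μ‖ ^ 2 := by nlinarith [norm_nonneg μ]
  have h1 : ((1 - ‖μ‖ ^ 2 : ℝ) : ℂ) ≠ 0 := by exact_mod_cast h0.ne'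
  set y : ℂ := (z - μ * conj z) / ((1 - ‖μ‖ ^ 2 : ℝ) : ℂ) with hy
  have hz : z = Lm μ y := by
    have e : μ * conj μ = ((‖μ‖ ^ 2 : ℝ) : ℂ) := by rw [mul_conj']; push_cast; rfl
    simp only [Lm, hy, map_div₀, map_sub, map_mul, conj_conj, conj_ofReal]
    field_simp
    push_cast at e ⊢
    linear_combination z * e
  refine ⟨⟨round y.re, round y.im⟩, ?_⟩
  set v : ℂ := y - ((⟨round y.re, round y.im⟩ : GI) : ℂ) with hv
  have e : z - Lm μ ((⟨round y.re, round y.im⟩ : GI) : ℂ) = Lm μ v := by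
    rw [hv, sub_eq_add_neg y, Lm_add, Lm_neg, ← hz, sub_eq_add_neg]
  have h2 : ‖v‖ ≤ 7072 / 10000 := by
    have a1 : |v.re| ≤ 1 / 2 := by
      simpa [hv, GaussianInt.toComplex_def'] using abs_sub_round y.re
    have a2 : |v.im| ≤ 1 / 2 := by
      simpa [hv, GaussianInt.toComplex_def'] using abs_sub_round y.im
    have a3 : ‖v‖ ^ 2 = v.re ^ 2 + v.im ^ 2 := by rw [Complex.sq_norm, normSq_apply]; ring
    have a4 := abs_le.1 a1
    have a5 := abs_le.1 a2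
    nlinarith [norm_nonneg v]
  rw [e, Lm]
  refine (norm_add_le _ _).trans ?_
  rw [norm_mul, RCLike.norm_conj]
  nlinarith [norm_nonneg v, norm_nonneg μ]

variable (E : Ell)

theorem d_neg (μ w : ℂ) : deriv (E.F μ) (-w) = -deriv (E.F μ) w := by
  have h := deriv_comp_neg (f := E.F μ) (x := w)
  simp only [E.even] at h
  rw [h, neg_neg]

theorem d_rot (w : ℂ) : deriv (E.F 0) (I * w) = -I * deriv (E.F 0) w := by
  have h := deriv_comp_mul_left I (E.F 0) w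
  simp only [E.rot, smul_eq_mul] at h
  rw [h, ← mul_assoc, neg_mul, I_mul_I, neg_neg, one_mul]

theorem d_cj (w : ℂ) : deriv (E.F 0) (conj w) = conj (deriv (E.F 0) w) := by
  have h : conj ∘ E.F 0 ∘ conj = E.F 0 := by funext z; simp [E.cj]
  have h2 := congrFun (deriv_conj_conj (f := E.F 0)) (conj w)
  rw [h] at h2
  simpa using h2

theorem dd_neg (w : ℂ) : deriv (deriv (E.F 0)) (-w) = deriv (deriv (E.F 0)) w := by
  have h := deriv_comp_neg (f := deriv (E.F 0)) (x := w)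
  simp only [d_neg, deriv.fun_neg, neg_inj] at h
  exact h.symm

theorem dd_rot (w : ℂ) : deriv (deriv (E.F 0)) (I * w) = -deriv (deriv (E.F 0)) w := by
  have h := deriv_comp_mul_left I (deriv (E.F 0)) w
  simp only [d_rot, smul_eq_mul, deriv_const_mul_field'] at h
  refine mul_left_cancel₀ I_ne_zero ?_
  rw [← h]; ring

theorem dd_cj (w : ℂ) : deriv (deriv (E.F 0)) (conj w) = conj (deriv (deriv (E.F 0)) w) := by
  have h : conj ∘ deriv (E.F 0) ∘ conj = deriv (E.F 0) := by funext z; simp [d_cj]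
  have h2 := congrFun (deriv_conj_conj (f := deriv (E.F 0))) (conj w)
  rw [h] at h2
  simpa using h2

theorem an {μ : ℂ} (hμ : ‖μ‖ ≤ 1 / 100) {w : ℂ} (hw : ‖w‖ ≤ 72 / 100) : AnalyticAt ℂ (E.F μ) w :=
  (E.hol μ hμ).analyticOnNhd isOpen_ball w (mem_ball_zero_iff.2 (by linarith))

theorem ev {z a : ℂ} (h : ‖z - a‖ ≤ 72 / 100) : ∀ᶠ y in 𝓝 z, ‖y - a‖ < 9 / 10 :=
  (continuous_id.sub continuous_const).norm.continuousAt.eventually_lt continuousAt_const
    (lt_of_le_of_lt h (by norm_num))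

theorem Z_eq {μ : ℂ} (hμ : ‖μ‖ ≤ 1 / 100) (u : GI) (y : ℂ) : E.Z μ y = E.Z μ (y - Lm μ u) := by
  rw [← E.Zper μ hμ (y - Lm μ u) u, sub_add_cancel]

theorem G_eq {μ : ℂ} (hμ : ‖μ‖ ≤ 1 / 100) (u : GI) (y : ℂ) : E.Gr μ y = E.Gr μ (y - Lm μ u) := by
  rw [← E.Gper μ hμ (y - Lm μ u) u, sub_add_cancel]

theorem W_eq (u : GI) (y : ℂ) : E.wp y = E.wp (y - u) := by
  rw [← E.Wper (y - u) u, sub_add_cancel]

theorem loc_fderiv {f : ℂ → ℂ} {w : ℂ} (hf : DifferentiableAt ℂ f w) (hw : w ≠ 0) (b : ℝ) :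
    HasFDerivAt (fun y : ℂ => Real.log ‖y‖ + (f y).re - b * ‖y‖ ^ 2 / 2)
      (hl (w⁻¹ + deriv f w - b * conj w)) w := by
  have h1 : HasFDerivAt (fun y : ℂ => ‖y‖ ^ 2) (2 • innerSL ℝ w) w :=
    (hasStrictFDerivAt_norm_sq w).hasFDerivAt
  have hn : ‖w‖ ^ 2 ≠ 0 := pow_ne_zero _ (norm_ne_zero_iff.2 hw)
  have h2 := (h1.log hn).const_mul (1 / 2 : ℝ)
  have h3 := reCLM.hasFDerivAt.comp w (hf.hasDerivAt.hasFDerivAt.restrictScalars ℝ)
  have h4 := (h2.add h3).sub ((h1.const_mul b).mul_const (1 / 2 : ℝ))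
  have e : (fun y : ℂ => Real.log ‖y‖ + (f y).re - b * ‖y‖ ^ 2 / 2) =
      ((fun y : ℂ => 1 / 2 * Real.log (‖y‖ ^ 2)) + reCLM ∘ f - fun y : ℂ => b * ‖y‖ ^ 2 * (1 / 2)) := by
    funext y; simp [Real.log_pow]; ring
  rw [e]
  refine h4.congr_fderiv ?_
  ext1 h
  have hn2 : normSq w ≠ 0 := by rwa [← Complex.sq_norm]
  simp [hl, Complex.sq_norm, Complex.inner, mul_re, add_mul, sub_mul]
  field_simp
  ring

end Pool.Agent.P.MP_cc4a10_gt.Ker0P

namespace Pool.Agent.P.MP_cc4a10_gt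

open Ker0P

theorem pKer0 : S_Ker0 := by
  intro E
  have h00 : ‖(0 : ℂ)‖ ≤ 1 / 100 := by norm_num
  have hC : 0 ≤ E.CF := (norm_nonneg _).trans (E.bd 0 h00 0 (by norm_num))
  have b0 : bE 0 = π := by simp [bE]
  refine ⟨24 * 25 ^ 4 * E.CF + 1, by positivity, fun μ hμ => ⟨fun k hk w hw => ⟨?_, fun ν hν => ?_⟩,
    ?_, near hμ, fun u => ?_, fun z => ?_, ?_, ?_, ?_, fun z => ?_, fun z hz => ?_,
    fun z hz => ?_⟩⟩
  · linarith [cauchy (E.hol μ hμ) (E.bd μ hμ) hk hw]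
  · have hw' : w ∈ ball (0 : ℂ) (19 / 20) := mem_ball_zero_iff.2 (by linarith)
    have h := cauchy ((E.hol μ hμ).sub (E.hol ν hν)) (E.lip μ ν hμ hν) hk hw
    rw [iteratedDeriv_sub ((E.hol μ hμ).analyticOnNhd isOpen_ball w hw').contDiffAt
      ((E.hol ν hν).analyticOnNhd isOpen_ball w hw').contDiffAt] at h
    nlinarith [norm_nonneg (μ - ν)]
  · have h0 : 0 < 1 - ‖μ‖ ^ 2 := by nlinarith [norm_nonneg μ]
    have e : bE μ - π = π * ‖μ‖ ^ 2 / (1 - ‖μ‖ ^ 2) := by rw [bE]; field_simp; ring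
    have h1 : π * ‖μ‖ ^ 2 / (1 - ‖μ‖ ^ 2) ≤ ‖μ‖ := by
      rw [div_le_iff₀ h0]
      have := Real.pi_le_four
      have h2 := norm_nonneg μ
      have h3 : π * ‖μ‖ ≤ 1 - ‖μ‖ ^ 2 := by nlinarith
      nlinarith
    rw [e, abs_of_nonneg (by positivity)]
    have := norm_nonneg μ
    nlinarith [show 0 ≤ 24 * 25 ^ 4 * E.CF * ‖μ‖ by positivity]
  · have h := norm_sub_norm_le (u : ℂ) (-(μ * conj (u : ℂ)))
    rw [sub_neg_eq_add, norm_neg, norm_mul, RCLike.norm_conj] at h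
    rw [Lm]
    nlinarith [norm_nonneg (u : ℂ)]
  · obtain ⟨u, hu⟩ := near hμ z
    have e : -z - Lm μ ((-u : GI) : ℂ) = -(z - Lm μ u) := by rw [map_neg, Lm_neg]; ring
    have h1 : ‖z - Lm μ u‖ < 9 / 10 := by linarith
    have h2 : ‖-(z - Lm μ u)‖ < 9 / 10 := by rwa [norm_neg]
    rw [Z_eq E hμ (-u) (-z), Z_eq E hμ u z, G_eq E hμ (-u) (-z), G_eq E hμ u z, e,
      E.Zloc μ hμ _ h1, E.Zloc μ hμ _ h2, E.Gloc μ hμ _ h1, E.Gloc μ hμ _ h2, d_neg, E.even,
      norm_neg, inv_neg, map_neg]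
    exact ⟨by ring, rfl⟩
  · have h := d_neg E μ 0
    rw [neg_zero] at h
    rw [E.Zloc μ hμ 0 (by norm_num), self_eq_neg.1 h]; simp
  · rw [E.Gloc μ hμ 0 (by norm_num), E.zero]; simp
  · have h := dd_rot E 0
    rw [mul_zero] at h
    rw [E.Wloc 0 (by norm_num), self_eq_neg.1 h]; simp
  · obtain ⟨u, hu⟩ := near h00 z
    rw [Lm_zero] at hu
    have h1 : ‖z - u‖ < 9 / 10 := by linarith
    have e1 : -z - ((-u : GI) : ℂ) = -(z - u) := by rw [map_neg]; ring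
    have e2 : I * z - ((gi * u : GI) : ℂ) = I * (z - u) := by rw [map_mul, coe_gi]; ring
    have e3 : conj z - ((star u : GI) : ℂ) = conj (z - u) := by
      rw [GaussianInt.toComplex_star, map_sub]
    have n1 : ‖-(z - u)‖ < 9 / 10 := by rwa [norm_neg]
    have n2 : ‖I * (z - u)‖ < 9 / 10 := by rwa [norm_mul, norm_I, one_mul]
    have n3 : ‖conj (z - u)‖ < 9 / 10 := by rwa [RCLike.norm_conj]
    rw [W_eq E (-u) (-z), W_eq E (gi * u) (I * z), W_eq E (star u) (conj z), W_eq E u z,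
      Z_eq E h00 (gi * u) (I * z), Z_eq E h00 (star u) (conj z), Z_eq E h00 u z,
      G_eq E h00 (gi * u) (I * z), G_eq E h00 (star u) (conj z), G_eq E h00 u z]
    simp only [Lm_zero]
    rw [e1, e2, e3, E.Wloc _ h1, E.Wloc _ n1, E.Wloc _ n2, E.Wloc _ n3, E.Zloc 0 h00 _ h1,
      E.Zloc 0 h00 _ n2, E.Zloc 0 h00 _ n3, E.Gloc 0 h00 _ h1, E.Gloc 0 h00 _ n2,
      E.Gloc 0 h00 _ n3, dd_neg, dd_rot, dd_cj, d_rot, d_cj, E.rot, E.cj]
    generalize z - u = w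
    refine ⟨by rw [inv_neg, neg_sq], ?_, by simp, ?_, by simp, by simp, by simp⟩
    · rw [mul_inv, inv_I, mul_pow, neg_sq, I_sq]; ring
    · rw [mul_inv, inv_I, map_mul, conj_I]; ring
  · obtain ⟨u, hu⟩ := near hμ z
    have h0 : z - Lm μ u ≠ 0 := sub_ne_zero.2 (hz u)
    have ha := an E hμ hu
    constructor
    · have h1 := (loc_fderiv ha.differentiableAt h0 (bE μ)).comp z
        ((hasFDerivAt_id z).sub_const (Lm μ u))
      rw [ContinuousLinearMap.comp_id, ← E.Zloc μ hμ _ (by linarith), ← Z_eq E hμ] at h1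
      refine h1.congr_of_eventuallyEq ?_
      filter_upwards [ev hu] with y hy
      rw [G_eq E hμ u y, E.Gloc μ hμ _ hy]; rfl
    · have h1 : DifferentiableAt ℂ (fun y => (y - Lm μ u)⁻¹ + deriv (E.F μ) (y - Lm μ u) +
          bE μ * conj (Lm μ u)) z :=
        ((((hasDerivAt_inv h0).add ha.deriv.differentiableAt.hasDerivAt).comp_sub_const
          z (Lm μ u)).add_const _).differentiableAt
      refine h1.congr_of_eventuallyEq ?_
      filter_upwards [ev hu] with y hy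
      rw [Z_eq E hμ u y, E.Zloc μ hμ _ hy, map_sub]; ring
  · obtain ⟨u, hu⟩ := near h00 z
    rw [Lm_zero] at hu
    have h0 : z - u ≠ 0 := sub_ne_zero.2 (hz u)
    have ha := an E h00 hu
    constructor
    · have h1 := (((hasDerivAt_inv h0).add ha.deriv.differentiableAt.hasDerivAt).comp_sub_const
        z (u : ℂ)).add_const (π * conj (u : ℂ))
      have e : -E.wp z = -((z - u) ^ 2)⁻¹ + deriv (deriv (E.F 0)) (z - u) := by
        rw [W_eq E u z, E.Wloc _ (by linarith), inv_pow]; ring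
      rw [e]
      refine h1.congr_of_eventuallyEq ?_
      filter_upwards [ev hu] with y hy
      rw [Z_eq E h00 u y, Lm_zero, E.Zloc 0 h00 _ hy, map_sub, b0]
      simp only [Pi.add_apply]; ring
    · have h1 : DifferentiableAt ℂ
          (fun y : ℂ => (y - u)⁻¹ ^ 2 - deriv (deriv (E.F 0)) (y - u)) z :=
        ((((hasDerivAt_inv h0).pow 2).sub ha.deriv.deriv.differentiableAt.hasDerivAt).comp_sub_const
          z (u : ℂ)).differentiableAt
      refine h1.congr_of_eventuallyEq ?_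
      filter_upwards [ev hu] with y hy
      rw [W_eq E u y, E.Wloc _ hy]

end Pool.Agent.P.MP_cc4a10_gt
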