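import Pool.Agent.P.MP_cc4a10_gt.KerG2

/-!
Package KerG: estimates for the potential kernel on the cells of a level.
-/

open Set Filter Topology Complex Metric
open scoped ComplexConjugate Real

noncomputable section

namespace Pool.Agent.P.MP_cc4a10_gt

namespace KerGP

theorem per_arg (E : Ell) {c : ℂ} {m : ℕ} {w0 : GI} (hw : c * ((om ^ m : GI) : ℂ) = w0)
    {ν : ℂ} (hν : ‖ν‖ ≤ 1 / 100) (u w : GI) (e : ℂ) :
    E.Gr ν (Lm ν (c * ((u + om ^ m * w : GI) : ℂ)) + e) = E.Gr ν (Lm ν (c * u) + e) ∧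
    E.Z ν (Lm ν (c * ((u + om ^ m * w : GI) : ℂ)) + e) = E.Z ν (Lm ν (c * u) + e) := by
  have h : c * ((u + om ^ m * w : GI) : ℂ) = c * u + ((w0 * w : GI) : ℂ) := by
    rw [GaussianInt.toComplex_add, GaussianInt.toComplex_mul, GaussianInt.toComplex_mul, ← hw]
    ring
  rw [h, Lm_add, add_right_comm]
  exact ⟨E.Gper ν hν _ _, E.Zper ν hν _ _⟩

theorem Rm_per (E : Ell) {c : ℂ} {m : ℕ} {w0 : GI} (hw : c * ((om ^ m : GI) : ℂ) = w0)
    {ν : ℂ} (hν : ‖ν‖ ≤ 1 / 100) (u w : GI) (e : ℂ) :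
    Rm E ν (Lm ν (c * ((u + om ^ m * w : GI) : ℂ))) e = Rm E ν (Lm ν (c * u)) e := by
  have h1 := (per_arg E hw hν u w e).1
  have h2 := per_arg E hw hν u w 0
  simp only [add_zero] at h2
  simp only [Rm, h1, h2.1, h2.2]

theorem small_case {K a b a' d H H' R R' : ℝ} (hK : 0 ≤ K) (ha : 0 ≤ a) (hb : 0 ≤ b) (ha' : 0 ≤ a')
    (h : a' ≤ a + b) (hd : 0 < d) (hH : 1 ≤ H) (hH1 : H ≤ 11) (hH' : 1 ≤ H')
    (hR : |R| ≤ K * a ^ 2 / (d * H) ^ 2) (hR' : |R'| ≤ K * a' ^ 2 / (d * H') ^ 2) :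
    |R' - R| ≤ 2662 * K * ((a ^ 2 / H ^ 3 + a * b / H ^ 2 + b ^ 2 / H ^ 2) / d ^ 2) := by
  have h1 : K * a ^ 2 / (d * H) ^ 2 ≤ K * a ^ 2 / d ^ 2 := by
    gcongr; exact le_mul_of_one_le_right hd.le hH
  have h2 : K * a' ^ 2 / (d * H') ^ 2 ≤ K * (a + b) ^ 2 / d ^ 2 := by
    gcongr; exact le_mul_of_one_le_right hd.le hH'
  have h3 : a ^ 2 / 11 ^ 3 ≤ a ^ 2 / H ^ 3 := by gcongr
  have h4 : a * b / 11 ^ 2 ≤ a * b / H ^ 2 := by gcongr
  have h5 : b ^ 2 / 11 ^ 2 ≤ b ^ 2 / H ^ 2 := by gcongr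
  have h6 : a ^ 2 + (a + b) ^ 2 ≤ 2662 * (a ^ 2 / H ^ 3 + a * b / H ^ 2 + b ^ 2 / H ^ 2) := by
    nlinarith [mul_nonneg ha hb, sq_nonneg b]
  calc |R' - R| ≤ |R'| + |R| := abs_sub _ _
    _ ≤ K * (a + b) ^ 2 / d ^ 2 + K * a ^ 2 / d ^ 2 := by linarith
    _ = K * (a ^ 2 + (a + b) ^ 2) / d ^ 2 := by ring
    _ ≤ K * (2662 * (a ^ 2 / H ^ 3 + a * b / H ^ 2 + b ^ 2 / H ^ 2)) / d ^ 2 := by gcongr
    _ = _ := by ring

theorem large_case {K a b d H P s R : ℝ} (hK : 0 ≤ K) (ha : 0 ≤ a) (hb : 0 ≤ b)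
    (hd : 0 < d) (hH : 1 ≤ H) (hP : d * H / 3 ≤ P) (hs : s ≤ 2 * d)
    (hR : R ≤ K * ((a * b + b ^ 2) / P ^ 2 + a ^ 2 * s / P ^ 3)) :
    R ≤ 54 * K * ((a ^ 2 / H ^ 3 + a * b / H ^ 2 + b ^ 2 / H ^ 2) / d ^ 2) := by
  have h0 : 0 < d * H / 3 := by positivity
  have h1 : (a * b + b ^ 2) / P ^ 2 ≤ (a * b + b ^ 2) / (d * H / 3) ^ 2 := by gcongr
  have h2 : a ^ 2 * s / P ^ 3 ≤ a ^ 2 * (2 * d) / (d * H / 3) ^ 3 := by gcongr
  have h3 : (a * b + b ^ 2) / (d * H / 3) ^ 2 = 9 * ((a * b / H ^ 2 + b ^ 2 / H ^ 2) / d ^ 2) := by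
    field_simp; norm_num
  have h4 : a ^ 2 * (2 * d) / (d * H / 3) ^ 3 = 54 * (a ^ 2 / H ^ 3 / d ^ 2) := by
    field_simp; ring
  have h5 : 0 ≤ (a * b / H ^ 2 + b ^ 2 / H ^ 2) / d ^ 2 := by positivity
  have h6 : (a * b + b ^ 2) / P ^ 2 + a ^ 2 * s / P ^ 3
      ≤ 54 * ((a ^ 2 / H ^ 3 + a * b / H ^ 2 + b ^ 2 / H ^ 2) / d ^ 2) := by
    rw [add_assoc, add_div (a ^ 2 / H ^ 3)]; linarith
  calc R ≤ _ := hR
    _ ≤ K * (54 * ((a ^ 2 / H ^ 3 + a * b / H ^ 2 + b ^ 2 / H ^ 2) / d ^ 2)) := by gcongr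
    _ = _ := by ring

end KerGP

open KerGP in
theorem pKerG (hBox : S_Box) (hK : S_Ker0) (hD : S_Dip) (hZ : S_KerZ) : S_KerG := by
  intro E
  obtain ⟨C0, hC0, hK⟩ := hK E
  obtain ⟨CZ, mZ, hCZ, hZ⟩ := hZ E
  refine ⟨24000 * (8 + C0) + 2 * CZ, max mZ 7, by positivity, fun l μ hl hm hμ x g g' hg hg' => ?_⟩
  have hm7 : 7 ≤ l.m := (le_max_right _ _).trans hm
  have hZ' := hZ l μ hl ((le_max_left _ _).trans hm) hμ
  obtain ⟨hb1, -, -, -, hb5, -⟩ := hBox l.m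
  obtain ⟨-, -, -, -, -, -, -, hc, ⟨w0, hw0, -⟩, -⟩ := hD l hl
  have h0 : ‖(0 : ℂ)‖ ≤ 1 / 100 := by simp
  have hF : ∀ ν : ℂ, ‖ν‖ ≤ 1 / 100 → ∀ k ≤ 4, ∀ w : ℂ, ‖w‖ ≤ 9 / 10 →
      ‖iteratedDeriv k (E.F ν) w‖ ≤ C0 := fun ν hν k hk w hw => ((hK ν hν).1 k hk w hw).1
  have hd := dd_pos l.m
  have hd1 := dd_small hm7
  set d := dd l.m with hdd
  set m := l.m with hmm
  set c := l.c with hcc
  have hcy : ∀ y : GI, ‖c * y‖ = d * ‖(y : ℂ)‖ := fun y => by rw [norm_mul, hc]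
  -- second order remainder at an arbitrary cell
  have A1 : ∀ (x : GI) (e : ℂ), ‖e‖ ≤ d / 10 → (mr m x = 0 → e = 0) →
      |Rm E μ (Lm μ (c * x)) e| ≤ 9 * (6 + C0) * ‖e‖ ^ 2 / (d * Hh m x) ^ 2 := by
    intro x e he h
    obtain ⟨⟨w, hw⟩, hy, -, -⟩ := hb1 x
    have hH := (hb5 x).1
    have hHe : Hh m x = 1 + ‖((mr m x : GI) : ℂ)‖ := rfl
    generalize mr m x = y at *
    by_cases hy0 : y = 0
    · rw [h hy0]; simp [Rm]
    · have h1 := one_le_norm_gi hy0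
      have h2 := le_norm_Lm hμ (c * y)
      have h3 := norm_Lm_le hμ (c * y)
      rw [hcy] at h2 h3
      have h4 : d * Hh m x / 3 ≤ ‖Lm μ (c * y)‖ := by rw [hHe]; nlinarith
      have h5 : 0 < d * Hh m x / 3 := by positivity
      have e1 : Rm E μ (Lm μ (c * x)) e = Rm E μ (Lm μ (c * y)) e := by
        conv_lhs => rw [hw]
        exact Rm_per E hw0 hμ y w e
      rw [e1]
      refine (Rm_le E hμ (hF μ hμ) (norm_pos_iff.1 (by linarith)) (by nlinarith)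
        (by nlinarith)).trans ?_
      calc (6 + C0) * ‖e‖ ^ 2 / ‖Lm μ (c * y)‖ ^ 2
          ≤ (6 + C0) * ‖e‖ ^ 2 / (d * Hh m x / 3) ^ 2 := by gcongr
        _ = _ := by field_simp; norm_num
  have crude : ∀ x : GI, |E.Gr 0 (c * x)| ≤ (3 + C0) * m := by
    intro x
    obtain ⟨⟨w, hw⟩, hy, -, -⟩ := hb1 x
    generalize mr m x = y at *
    have e1 := (per_arg E hw0 h0 y w 0).1
    simp only [add_zero, Lm_zero] at e1
    rw [hw, e1]
    refine Gr_crude E (hF 0 h0) (by omega) (by rw [hcy]; linarith) ?_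
    by_cases hy0 : y = 0
    · left; simp [hy0]
    · right; rw [hcy]; exact le_mul_of_one_le_right hd.le (one_le_norm_gi hy0)
  obtain ⟨⟨w, hw⟩, hy, -, -⟩ := hb1 x
  obtain ⟨hH, hHd, -, -⟩ := hb5 x
  have hH' := (hb5 (x + g)).1
  have hHH : Hh m x ≤ 2 * Hh m (x + g) := by
    have := (hb5 (x + g)).2.2.2 (-g)
    rw [add_neg_cancel_right, St.norm (St.neg hg)] at this
    linarith
  have hHe : Hh m x = 1 + ‖((mr m x : GI) : ℂ)‖ := rfl
  have hA := A1 x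
  have hA' := A1 (x + g)
  have hZ1 := (hZ' (x + g) g g' hg hg').2.1
  have hZ2 := (hZ' x g g' hg hg').2.2.1
  have ng := St.norm hg
  have ng' := St.norm hg'
  have n0 := norm_nonneg μ
  generalize hyy : mr m x = y at *
  set H := Hh m x with hHx
  have hsh : ∀ a : GI, x + a = (y + a) + om ^ m * w := fun a => by rw [hw]; ring
  have ny := norm_nonneg (y : ℂ)
  refine ⟨fun e he h => ⟨?_, fun e' he' h' => ?_⟩, ?_, ?_⟩
  · refine (hA e he h).trans ?_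
    gcongr; linarith
  · have ne := norm_nonneg e
    have nd := norm_nonneg (e' - e)
    have hR : |Rm E μ (Lm μ (c * ((x + g : GI) : ℂ))) e' - Rm E μ (Lm μ (c * x)) e|
        ≤ 24000 * (8 + C0) * ((‖e‖ ^ 2 / H ^ 3 + ‖e‖ * ‖e' - e‖ / H ^ 2 + ‖e' - e‖ ^ 2 / H ^ 2)
          / d ^ 2) := by
      by_cases hs : ‖(y : ℂ)‖ ≤ 10
      · have t1 : ‖e'‖ ≤ ‖e‖ + ‖e' - e‖ := by
          have := norm_add_le e (e' - e); rwa [add_sub_cancel] at this
        refine (small_case (by positivity) ne nd (norm_nonneg _) t1 hd hH (by linarith) hH'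
          (hA e he h) (hA' e' he' h')).trans ?_
        gcongr ?_ * _; linarith
      · push Not at hs
        have h2 := le_norm_Lm hμ (c * y)
        have h3 := norm_Lm_le hμ (c * y)
        rw [hcy] at h2 h3
        have h4 : d * H / 3 ≤ ‖Lm μ (c * y)‖ := by rw [hHe]; nlinarith
        have h5 : 0 < d * H / 3 := by positivity
        have h6 : ‖Lm μ (c * ((y + g : GI) : ℂ)) - Lm μ (c * y)‖ ≤ d * (101 / 100) := by
          rw [GaussianInt.toComplex_add, mul_add, Lm_add, add_sub_cancel_left]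
          have := norm_Lm_le hμ (c * g)
          rwa [hcy, ng, mul_one] at this
        have h7 : d * 10 ≤ d * ‖(y : ℂ)‖ := by gcongr
        have e1 : Rm E μ (Lm μ (c * x)) e = Rm E μ (Lm μ (c * y)) e := by
          conv_lhs => rw [hw]
          exact Rm_per E hw0 hμ y w e
        rw [e1, hsh g, Rm_per E hw0 hμ (y + g) w e']
        refine (large_case (by positivity) ne nd hd hH h4 (by linarith)
          (Rm_sub_le E hμ (hF μ hμ) (norm_pos_iff.1 (by linarith)) (by linarith) (by linarith)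
            (by linarith))).trans ?_
        gcongr ?_ * _; linarith
    set D' := E.Z μ (Lm μ (c * ((x + g : GI) : ℂ))) - E.Z 0 (c * ((x + g : GI) : ℂ)) with hD'
    set D := E.Z μ (Lm μ (c * x)) - E.Z 0 (c * x) with hD0
    have e2 : KG E c μ (x + g) e' - KG E c μ x e
        = (Rm E μ (Lm μ (c * ((x + g : GI) : ℂ))) e' - Rm E μ (Lm μ (c * x)) e)
          + (D' * (e' - e) + (D' - D) * e).re := by
      simp only [KG, Rm, hD', hD0, mul_sub, sub_mul, add_re, sub_re]; ring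
    have h8 : ‖D'‖ ≤ 2 * CZ * ‖μ‖ / (d * H) := by
      refine hZ1.trans ?_
      rw [div_le_div_iff₀ (by positivity) (by positivity)]
      have : 0 ≤ CZ * ‖μ‖ * d := by positivity
      nlinarith
    have h9 : |(D' * (e' - e) + (D' - D) * e).re|
        ≤ 2 * CZ * (‖μ‖ * (‖e‖ / H ^ 2 + ‖e' - e‖ / H) / d) := by
      refine (abs_re_le_norm _).trans ((norm_add_le _ _).trans ?_)
      rw [norm_mul, norm_mul]
      calc ‖D'‖ * ‖e' - e‖ + ‖D' - D‖ * ‖e‖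
          ≤ 2 * CZ * ‖μ‖ / (d * H) * ‖e' - e‖ + 2 * (CZ * ‖μ‖ / (d * H ^ 2)) * ‖e‖ := by
            gcongr
            have : 0 ≤ CZ * ‖μ‖ / (d * H ^ 2) := by positivity
            linarith
        _ = _ := by field_simp; ring
    rw [e2]
    refine (abs_add_le _ _).trans ((add_le_add hR h9).trans ?_)
    have p1 : 0 ≤ ‖μ‖ * (‖e‖ / H ^ 2 + ‖e' - e‖ / H) / d := by positivity
    have p2 : 0 ≤ (‖e‖ ^ 2 / H ^ 3 + ‖e‖ * ‖e' - e‖ / H ^ 2 + ‖e' - e‖ ^ 2 / H ^ 2) / d ^ 2 := by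
      positivity
    nlinarith [mul_nonneg hC0.le p1, mul_nonneg hCZ.le p2]
  · have e1 := (per_arg E hw0 hμ y w 0).1
    have e2 := (per_arg E hw0 h0 y w 0).1
    have e3 := (per_arg E hw0 hμ (y + g) w 0).1
    have e4 := (per_arg E hw0 h0 (y + g) w 0).1
    simp only [add_zero, Lm_zero] at e1 e2 e3 e4
    rw [← hsh g] at e3 e4
    rw [← hw] at e1 e2
    rw [e1, e2, e3, e4, GaussianInt.toComplex_add, mul_add]
    have hγ : ‖c * g‖ = d := by rw [hcy, ng, mul_one]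
    have hL : ∀ w : ℂ, ‖w‖ ≤ 9 / 10 →
        ‖iteratedDeriv 1 (E.F μ) w - iteratedDeriv 1 (E.F 0) w‖ ≤ C0 * ‖μ‖ := fun w hw => by
      simpa using ((hK μ hμ).1 1 (by norm_num) w hw).2 0 h0
    refine (Gr_mu E hμ (hF μ hμ) hL (hK μ hμ).2.1 (by rw [hcy]; linarith) (by linarith)).trans ?_
    have h1 : ‖om2 (c * y + c * g) - om2 (c * y)‖ ≤ 4 / H := by
      rw [le_div_iff₀ (by linarith)]
      by_cases hs : ‖(y : ℂ)‖ ≤ 1
      · have := norm_sub_le (om2 (c * y + c * g)) (om2 (c * y))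
        have h1 := norm_om2_le (c * y + c * g)
        have h2 := norm_om2_le (c * y)
        nlinarith [norm_nonneg (om2 (c * y + c * g) - om2 (c * y))]
      · push Not at hs
        have h1 : d < ‖c * y‖ := by rw [hcy]; exact lt_mul_of_one_lt_right hd hs
        have h2 : c * y + c * g ≠ 0 := fun h => by
          rw [eq_neg_of_add_eq_zero_left h, norm_neg, hγ] at h1; exact lt_irrefl _ h1
        have h3 := om2_sub_le (norm_pos_iff.1 (hd.trans h1)) h2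
        rw [hγ, hcy, le_div_iff₀ (by positivity)] at h3
        have h4 : ‖om2 (c * y + c * g) - om2 (c * y)‖ * ‖(y : ℂ)‖ ≤ 2 := by
          apply le_of_mul_le_mul_left _ hd; linarith
        nlinarith [norm_nonneg (om2 (c * y + c * g) - om2 (c * y))]
    have h2 : d ≤ 2 / H := by rw [le_div_iff₀ (by linarith)]; linarith
    rw [hγ]
    calc ‖μ‖ * (2 * ‖om2 (c * y + c * g) - om2 (c * y)‖ + (8 + 5 * C0) * d)
        ≤ ‖μ‖ * (2 * (4 / H) + (8 + 5 * C0) * (2 / H)) := by gcongr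
      _ = (24 + 10 * C0) * ‖μ‖ / H := by ring
      _ ≤ _ := by gcongr ?_ * _ / _; linarith
  · have p1 : 0 ≤ 1 / H ^ 2 := by positivity
    have p2 : 0 ≤ (m : ℝ) / H ^ 3 := by positivity
    by_cases hs : ‖(y : ℂ)‖ ≤ 10
    · have c1 := abs_le.1 (crude (x + g + g'))
      have c2 := abs_le.1 (crude (x + g))
      have c3 := abs_le.1 (crude (x + g'))
      have c4 := abs_le.1 (crude x)
      have h1 : (m : ℝ) / 11 ^ 3 ≤ m / H ^ 3 := by gcongr; linarith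
      have h2 : 4 * ((3 + C0) * m) ≤ (24000 * (8 + C0) + 2 * CZ) * (1 / H ^ 2 + m / H ^ 3) := by
        calc 4 * ((3 + C0) * m) = 5324 * (3 + C0) * ((m : ℝ) / 11 ^ 3) := by ring
          _ ≤ 5324 * (3 + C0) * (0 + (m : ℝ) / H ^ 3) := by rw [zero_add]; gcongr
          _ ≤ _ := by gcongr; linarith
      exact abs_le.2 ⟨by linarith, by linarith⟩
    · push Not at hs
      have e1 := (per_arg E hw0 h0 y w 0).1
      have e2 := (per_arg E hw0 h0 (y + g) w 0).1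
      have e3 := (per_arg E hw0 h0 (y + g') w 0).1
      have e4 := (per_arg E hw0 h0 (y + (g + g')) w 0).1
      simp only [add_zero, Lm_zero] at e1 e2 e3 e4
      rw [← hsh] at e2 e3 e4
      rw [← hw] at e1
      rw [add_assoc x g g', e1, e2, e3, e4]
      simp only [GaussianInt.toComplex_add, mul_add, ← add_assoc]
      have hγ : ‖c * g‖ = d := by rw [hcy, ng, mul_one]
      have hγ' : ‖c * g'‖ = d := by rw [hcy, ng', mul_one]
      have h7 : d * 10 ≤ d * ‖(y : ℂ)‖ := by gcongr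
      refine (Gr_ddiff E h0 (hF 0 h0) (p := c * y) (norm_pos_iff.1 (by rw [hcy]; linarith))
        (by rw [hcy]; linarith) (by rw [hγ, hγ', hcy]; linarith)).trans ?_
      rw [hγ, hγ', hcy]
      have h1 : H / 2 ≤ ‖(y : ℂ)‖ := by linarith
      calc (8 + C0) * (d * d) / (d * ‖(y : ℂ)‖) ^ 2 ≤ (8 + C0) * (d * d) / (d * (H / 2)) ^ 2 := by
            gcongr
        _ = 4 * (8 + C0) * (1 / H ^ 2) := by field_simp; ring
        _ ≤ _ := by
            rw [← mul_add]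
            refine mul_le_mul ?_ (le_add_of_nonneg_right p2) p1 ?_
            · linarith
            · positivity

end Pool.Agent.P.MP_cc4a10_gt

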