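import Pool.Agent.P.MP_cc4a10_gt.KerZ2

/-!
Difference estimates for the force kernel.
-/

open Set Filter Topology Complex Metric
open scoped ComplexConjugate Real

noncomputable section

namespace Pool.Agent.P.MP_cc4a10_gt

namespace KerZP

theorem Lm_add (μ x y : ℂ) : Lm μ (x + y) = Lm μ x + Lm μ y := by simp [Lm]; ring
theorem Lm_zero (x : ℂ) : Lm 0 x = x := by simp [Lm]
theorem Lm_sub (μ x : ℂ) : ‖Lm μ x - x‖ = ‖μ‖ * ‖x‖ := by simp [Lm]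
theorem bE_zero : bE 0 = π := by simp [bE]

theorem lat {c : ℂ} {d : ℝ} (hc : ‖c‖ = d) (z : GI) : c * z = 0 ∨ d ≤ ‖c * (z : ℂ)‖ := by
  by_cases hz : z = 0
  · left; simp [hz]
  · right
    have h1 : (1 : ℝ) ≤ normSq (z : ℂ) := by
      rw [← GaussianInt.intCast_real_norm]
      exact_mod_cast GaussianInt.norm_pos.2 hz
    rw [normSq_eq_norm_sq] at h1
    have h2 : 1 ≤ ‖(z : ℂ)‖ := by nlinarith [norm_nonneg (z : ℂ)]
    rw [norm_mul, hc]
    have : 0 ≤ d := hc ▸ norm_nonneg c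
    nlinarith

theorem St.norm {g : GI} (h : St g) : ‖(g : ℂ)‖ = 1 := by
  rcases h with rfl | rfl | rfl | rfl <;> simp [coe_gi]

theorem tw_F (E : Ell) {μ p : ℂ} (hμ : ‖μ‖ ≤ 1 / 100) {C R t : ℝ} (hC : 0 ≤ C) (ht : 1 ≤ t)
    (hR : ‖p‖ + R ≤ 9 / 10)
    (hb : ∀ k ≤ 4, ∀ w : ℂ, ‖w‖ ≤ 9 / 10 → ‖iteratedDeriv k (E.F μ) w‖ ≤ C) :
    Tw p R (fun k => iteratedDeriv (k + 1) (E.F μ)) C t := by
  intro k hk w hw
  have h1 : ‖w‖ ≤ 9 / 10 := by
    have := norm_add_le (w - p) p; rw [sub_add_cancel] at this; linarith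
  refine ⟨fun _ => ?_, (hb (k + 1) (by omega) w h1).trans ?_⟩
  · have ha : AnalyticOnNhd ℂ (E.F μ) (ball 0 (19 / 20)) := (E.hol μ hμ).analyticOnNhd isOpen_ball
    have hd := (ha.iterated_deriv (k + 1) w (by simp; linarith)).differentiableAt
    rw [← iteratedDeriv_eq_iterate] at hd
    have := hd.hasDerivAt
    rwa [← iteratedDeriv_succ] at this
  · exact le_mul_of_one_le_right hC (one_le_pow₀ ht)

end KerZP

open KerZP in
theorem pKerZ (hBox : S_Box) (hK : S_Ker0) (hDip : S_Dip) : S_KerZ := by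
  intro E
  obtain ⟨C0, hC0, hE⟩ := hK E
  obtain ⟨m0, hm0⟩ := exists_pow_mul_tt_le 0 (η := 1 / 100) (by norm_num)
  refine ⟨3 * 65536 + 3 * C0 + (4 + 2 * C0), m0, by positivity, ?_⟩
  intro l μ hl hm hμ x g g' hg hg'
  have z1 : ‖(0 : ℂ)‖ ≤ 1 / 100 := by simp
  obtain ⟨hF, hb, -⟩ := hE μ hμ
  obtain ⟨hF0, -⟩ := hE 0 z1
  obtain ⟨hb1, -, -, -, -⟩ := hBox l.m
  obtain ⟨⟨w, hw⟩, hy, -, -⟩ := hb1 x
  have hdv := (hb1 (x + g)).2.2.2
  obtain ⟨-, -, -, -, -, -, -, hc, ⟨w0, hw0, -⟩, -⟩ := hDip l hl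
  have hd := dd_pos l.m
  have hd1 : dd l.m ≤ 1 / 100 := by
    have h1 := hm0 l.m hm
    rw [pow_zero, one_mul] at h1
    rw [← tt_pow_16]
    exact (pow_le_of_le_one (tt_pos _).le (tt_le_one _) (by norm_num)).trans h1
  obtain ⟨y, hyd⟩ : ∃ y, y = mr l.m x := ⟨_, rfl⟩
  have hH : Hh l.m x = 1 + ‖(y : ℂ)‖ := by rw [hyd]; rfl
  rw [← hyd] at hw hy ⊢
  obtain ⟨H, hHd⟩ : ∃ H, H = Hh l.m x := ⟨_, rfl⟩
  rw [← hHd] at hH ⊢
  obtain ⟨d, hdd⟩ : ∃ d, d = dd l.m := ⟨_, rfl⟩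
  rw [← hdd] at hd hd1 hc hy ⊢
  have H0 : 0 < H := by rw [hH]; positivity
  obtain ⟨p, hp⟩ : ∃ p, p = l.c * y := ⟨_, rfl⟩
  obtain ⟨δ, hδ⟩ : ∃ δ, δ = l.c * g := ⟨_, rfl⟩
  obtain ⟨δ', hδ'⟩ : ∃ δ', δ' = l.c * g' := ⟨_, rfl⟩
  have np : ‖p‖ = d * ‖(y : ℂ)‖ := by rw [hp, norm_mul, hc]
  have np1 : ‖p‖ ≤ 7072 / 10000 := by rw [np, mul_comm]; exact hy
  have nδ : ‖δ‖ = d := by rw [hδ, norm_mul, hc, St.norm hg, mul_one]
  have nδ' : ‖δ'‖ = d := by rw [hδ', norm_mul, hc, St.norm hg', mul_one]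
  have G : Geo ‖μ‖ d (d * H)⁻¹ p δ δ' (Lm μ p) (Lm μ (p + δ)) :=
    ⟨norm_nonneg _, hμ, hd, by positivity, by rw [np, hH]; field_simp; ring, nδ, nδ',
      (Lm_sub _ _).le, (Lm_sub _ _).le, by
        rw [Lm_add, add_sub_cancel_left, Lm_sub, nδ]⟩
  have t1 : 1 ≤ (d * H)⁻¹ := by have := G.td; have := G.t0; nlinarith [norm_nonneg p]
  have hR : ‖p‖ + (‖p‖ / 100 + 3 * d) ≤ 9 / 10 := by linarith
  have e1 : p + δ = l.c * ((y + g : GI) : ℂ) := by rw [hp, hδ, map_add, mul_add]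
  have e2 : p + δ' = l.c * ((y + g' : GI) : ℂ) := by rw [hp, hδ', map_add, mul_add]
  have e3 : p + δ + δ' = l.c * ((y + g + g' : GI) : ℂ) := by
    rw [hp, hδ, hδ', map_add, map_add, mul_add, mul_add]
  have G1 := good_iv G (by rw [hp]; exact lat hc y) (by rw [e1]; exact lat hc _)
    (by rw [e2]; exact lat hc _) (by rw [e3]; exact lat hc _)
  have G2 := good_tower G hC0.le (tw_F E hμ hC0.le t1 hR fun k hk w hw => (hF k hk w hw).1)
    (tw_F E z1 hC0.le t1 hR fun k hk w hw => (hF0 k hk w hw).1) fun k hk v hv => by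
      have h1 : ‖v‖ ≤ 9 / 10 := by
        have := norm_add_le (v - p) p; rw [sub_add_cancel] at this; linarith
      have h2 := (hF (k + 1) (by omega) v h1).2 0 z1
      rw [sub_zero] at h2
      exact h2.trans (le_mul_of_one_le_right (by positivity) (one_le_pow₀ t1))
  have G3 := good_conj G hC0.le hb (by linarith) hd1
  have GG := (G1.add G2).add G3
  clear G1 G2 G3
  have hx : l.c * (x : ℂ) = p + ((w0 * w : GI) : ℂ) := by
    rw [hw, hp, map_add, map_mul, map_mul, ← hw0]; ring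
  have hx1 : l.c * ((x + g : GI) : ℂ) = p + δ + ((w0 * w : GI) : ℂ) := by
    rw [map_add, mul_add, hx, hδ]; ring
  have hx2 : l.c * ((x + g' : GI) : ℂ) = p + δ' + ((w0 * w : GI) : ℂ) := by
    rw [map_add, mul_add, hx, hδ']; ring
  have hx3 : l.c * ((x + g + g' : GI) : ℂ) = p + δ + δ' + ((w0 * w : GI) : ℂ) := by
    rw [map_add, mul_add, hx1, hδ']; ring
  have i0 : ∀ w, iv 0 w = w⁻¹ := fun w => by simp [iv]
  have i1 : ∀ w, iv 1 w = -w⁻¹ ^ 2 := fun w => by simp [iv]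
  have hZ : ∀ q e : ℂ, ‖q‖ ≤ 4 / 5 → ‖e‖ ≤ d / 10 →
      E.Z μ (Lm μ (q + ((w0 * w : GI) : ℂ)) + e) = iv 0 (Lm μ q + e)
        + iteratedDeriv (0 + 1) (E.F μ) (Lm μ q + e) + -(bE μ * conj (Lm μ q + e)) := by
    intro q e hq he
    have h1 : ‖Lm μ q + e‖ < 9 / 10 := by
      have := norm_add₃_le (a := Lm μ q - q) (b := q) (c := e)
      rw [sub_add_cancel, Lm_sub] at this
      nlinarith [norm_nonneg μ, norm_nonneg q]
    rw [Lm_add, add_right_comm, E.Zper μ hμ, E.Zloc μ hμ _ h1, i0]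
    simp [sub_eq_add_neg]
  have hZ' : ∀ q : ℂ, ‖q‖ ≤ 4 / 5 →
      E.Z μ (Lm μ (q + ((w0 * w : GI) : ℂ))) = iv 0 (Lm μ q)
        + iteratedDeriv (0 + 1) (E.F μ) (Lm μ q) + -(bE μ * conj (Lm μ q)) := fun q hq => by
    simpa only [add_zero] using hZ q 0 hq (by simp; positivity)
  have hZ0 : ∀ q : ℂ, ‖q‖ ≤ 4 / 5 →
      E.Z 0 (q + ((w0 * w : GI) : ℂ)) = iv 0 q
        + iteratedDeriv (0 + 1) (E.F 0) q + -(π * conj q) := fun q hq => by
    have h := E.Zper 0 z1 q (w0 * w)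
    rw [Lm_zero] at h
    rw [h, E.Zloc 0 z1 _ (by linarith), i0, bE_zero]
    simp [sub_eq_add_neg]
  have hW : ∀ q : ℂ, ‖q‖ ≤ 4 / 5 →
      E.wp (q + ((w0 * w : GI) : ℂ)) = -(iv 1 q + iteratedDeriv (1 + 1) (E.F 0) q + 0) :=
    fun q hq => by
      rw [E.Wper, E.Wloc _ (by linarith), i1, iteratedDeriv_succ, iteratedDeriv_one]; ring
  have n0 : ‖p‖ ≤ 4 / 5 := by linarith
  have n1 : ‖p + δ‖ ≤ 4 / 5 := (norm_add_le _ _).trans (by linarith)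
  have n2 : ‖p + δ'‖ ≤ 4 / 5 := (norm_add_le _ _).trans (by linarith)
  have n3 : ‖p + δ + δ'‖ ≤ 4 / 5 := norm_add₃_le.trans (by linarith)
  have hc0 : l.c ≠ 0 := by rw [← norm_pos_iff, hc]; exact hd
  obtain ⟨a1, a2, a3, a4, a5, a6, a7, a8⟩ := GG
  simp only [KZ, hx, hx1, hx2, hx3, hZ' _ n0, hZ' _ n1, hZ0 _ n0, hZ0 _ n1, hZ0 _ n2, hZ0 _ n3,
    hW _ n0, hW _ n1, hW _ n2, hW _ n3]
  refine ⟨fun e he h0 => ?_, a2.trans (le_of_eq (by field_simp)),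
    a3.trans (le_of_eq (by field_simp)), a4.trans (le_of_eq (by field_simp)),
    a5.trans (le_of_eq (by field_simp)), ?_, ?_, ?_⟩
  · obtain ⟨b1, b2, b3⟩ := a1 e he fun h => h0 (by
      rw [hp, mul_eq_zero] at h
      exact GaussianInt.toComplex_eq_zero.1 (h.resolve_left hc0))
    rw [hZ _ _ n0 he]
    refine ⟨b1.trans (le_of_eq (by field_simp)), b2.trans (le_of_eq (by field_simp)),
      fun e' he' h0' => ?_⟩
    have b4 := b3 e' he' fun h => h0' (hdv.2 ⟨w, by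
      rw [e1, mul_eq_zero] at h
      have := GaussianInt.toComplex_eq_zero.1 (h.resolve_left hc0)
      rw [hw, add_right_comm, this, zero_add]⟩)
    rw [hZ _ _ n1 he']
    refine le_trans (le_of_eq ?_) (b4.trans (le_of_eq (by field_simp)))
    congr 1; ring
  · rw [norm_neg]; exact a6.trans (le_of_eq (by field_simp))
  · refine le_trans (le_of_eq ?_) (a7.trans (le_of_eq (by field_simp)))
    rw [← norm_neg]; congr 1; ring
  · refine le_trans (le_of_eq ?_) (a8.trans (le_of_eq (by field_simp)))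
    rw [← norm_neg]; congr 1; ring

end Pool.Agent.P.MP_cc4a10_gt
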