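import Pool.Agent.P.MP_cc4a10_gt.St

/-!
The least squares potential of edge data.
-/

open Set Filter Topology Complex Metric
open scoped ComplexConjugate Real

noncomputable section

namespace Pool.Agent.P.MP_cc4a10_gt

namespace LSP

abbrev Ix (m : ℕ) := Bool × Fin (2 ^ m) × Fin (2 ^ m)
abbrev Eu (m : ℕ) := EuclideanSpace ℂ (Ix m)

def pt {m : ℕ} (i : Ix m) : GI := ⟨((i.2.1 : ℕ) : ℤ), ((i.2.2 : ℕ) : ℤ)⟩

/-- Values of a pair of functions on the box. -/
def ev (m : ℕ) : ((GI → ℂ) × (GI → ℂ)) →ₗ[ℂ] Eu m where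
  toFun p := WithLp.toLp 2 (fun i => if i.1 then p.1 (pt i) else p.2 (pt i))
  map_add' p q := by
    ext i; by_cases h : i.1 <;> simp [h]
  map_smul' c p := by
    ext i; by_cases h : i.1 <;> simp [h]

lemma ev_cont (m : ℕ) : Continuous (ev m) := by
  refine (PiLp.continuous_toLp 2 _).comp (continuous_pi fun i => ?_)
  by_cases h : i.1
  · simp only [h, if_true]; fun_prop
  · simp only [h, Bool.false_eq_true, if_false]; fun_prop

lemma ev_norm (m : ℕ) (a b : GI → ℂ) :
    msq m a + msq m b = ((2 : ℝ) ^ m)⁻¹ * ((2 : ℝ) ^ m)⁻¹ * ‖ev m (a, b)‖ ^ 2 := by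
  rw [EuclideanSpace.norm_sq_eq, Fintype.sum_prod_type, Fintype.sum_bool]
  simp only [msq, av, ts, smul_eq_mul, Finset.sum_range, Fintype.sum_prod_type]
  simp only [ev, pt, LinearMap.coe_mk, AddHom.coe_mk, if_true, Bool.false_eq_true, if_false]
  ring

/-- Periodic functions. -/
def W (m : ℕ) : Submodule ℂ (GI → ℂ) where
  carrier := {f | Per m f}
  add_mem' {f g} hf hg u w := by simp only [Pi.add_apply, hf u w, hg u w]
  zero_mem' _ _ := rfl
  smul_mem' c f hf u w := by simp only [Pi.smul_apply, hf u w]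

def dif : (GI → ℂ) →ₗ[ℂ] ((GI → ℂ) × (GI → ℂ)) where
  toFun f := (fun u => f (u + 1) - f u, fun u => f (u + gi) - f u)
  map_add' f g := by ext u <;> simp <;> ring
  map_smul' c f := by ext u <;> simp <;> ring

def grad (m : ℕ) : W m →ₗ[ℂ] Eu m := (ev m).comp (dif.comp (W m).subtype)

lemma exists_box (m : ℕ) (u : GI) (s : Bool) : ∃ (i : Ix m) (w : GI), i.1 = s ∧
    u = pt i + 2 ^ m * w := by
  have hN : (0 : ℤ) < ((2 ^ m : ℕ) : ℤ) := by positivity
  have h : ∀ a : ℤ, (a % ((2 ^ m : ℕ) : ℤ)).toNat < 2 ^ m := fun a => by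
    have := Int.emod_lt_of_pos a hN
    have := Int.emod_nonneg a hN.ne'
    omega
  refine ⟨(s, ⟨_, h u.re⟩, ⟨_, h u.im⟩),
    ⟨u.re / ((2 ^ m : ℕ) : ℤ), u.im / ((2 ^ m : ℕ) : ℤ)⟩, rfl, ?_⟩
  rw [two_pow_mk]
  have e1 := Int.toNat_of_nonneg (Int.emod_nonneg u.re hN.ne')
  have e2 := Int.toNat_of_nonneg (Int.emod_nonneg u.im hN.ne')
  ext
  · simp only [pt, Zsqrtd.re_add, Zsqrtd.re_mul, e1]
    have := Int.emod_add_mul_ediv u.re ((2 ^ m : ℕ) : ℤ)
    linarith
  · simp only [pt, Zsqrtd.im_add, Zsqrtd.im_mul, e2]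
    have := Int.emod_add_mul_ediv u.im ((2 ^ m : ℕ) : ℤ)
    linarith

lemma const_of_dif (f : GI → ℂ) (h1 : ∀ u, f (u + 1) = f u) (h2 : ∀ u, f (u + gi) = f u)
    (u : GI) : f u = f 0 := by
  have step : ∀ g : GI, (∀ u, f (u + g) = f u) → ∀ (n : ℤ) (u : GI), f (u + n * g) = f u := by
    intro g hg n
    induction n using Int.induction_on with
    | zero => simp
    | succ n ih => intro u; rw [← ih u, ← hg (u + ((n : ℤ) : GI) * g)]
                   congr 1; push_cast; ring
    | pred n ih => intro u; rw [← ih u, ← hg (u + ((-(n : ℤ) - 1 : ℤ) : GI) * g)]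
                   congr 1; push_cast; ring
  have e : u = 0 + (u.re : GI) * 1 + (u.im : GI) * gi := by
    ext <;> simp [gi]
  rw [e, step gi h2, step 1 h1]

lemma const_of_grad (m : ℕ) (f : W m) (h : grad m f = 0) (u : GI) : f.1 u = f.1 0 := by
  have hf : Per m f.1 := f.2
  have key : ∀ i : Ix m, (if i.1 then f.1 (pt i + 1) - f.1 (pt i)
      else f.1 (pt i + gi) - f.1 (pt i)) = 0 := fun i => congrArg (fun x : Eu m => x i) h
  apply const_of_dif
  · intro u
    obtain ⟨i, w, hi, rfl⟩ := exists_box m u true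
    have := key i
    rw [hi, if_pos rfl] at this
    rw [add_right_comm, hf.two, hf.two]
    exact sub_eq_zero.1 this
  · intro u
    obtain ⟨i, w, hi, rfl⟩ := exists_box m u false
    have := key i
    rw [hi, if_neg (by simp)] at this
    rw [add_right_comm, hf.two, hf.two]
    exact sub_eq_zero.1 this

lemma exists_sol (m : ℕ) : ∃ T : Eu m →ₗ[ℂ] W m,
    ∀ x, grad m (T x) = (LinearMap.range (grad m)).starProjection x := by
  obtain ⟨σ, hσ⟩ := (grad m).rangeRestrict.exists_rightInverse_of_surjective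
    (LinearMap.range_rangeRestrict _)
  refine ⟨σ.comp (LinearMap.range (grad m)).orthogonalProjectionOnto.toLinearMap, fun x => ?_⟩
  have := congrArg Subtype.val (LinearMap.congr_fun hσ
    ((LinearMap.range (grad m)).orthogonalProjectionOnto x))
  exact this

end LSP

open LSP in
theorem pLS : S_LS := by
  choose T hT using exists_sol
  refine ⟨⟨fun m a b => (T m (ev m (a, b))).1, fun m a b => (T m (ev m (a, b))).2,
    fun m u => ?_, fun m a b _ _ => ?_, fun m a b f hf ha hb => ?_⟩⟩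
  · have : Continuous ((LinearMap.proj u : (GI → ℂ) →ₗ[ℂ] ℂ).comp ((W m).subtype.comp (T m))) :=
      LinearMap.continuous_of_finiteDimensional _
    exact this.comp (ev_cont m)
  · rw [g2, ev_norm, ev_norm]
    refine mul_le_mul_of_nonneg_left (pow_le_pow_left₀ (norm_nonneg _) ?_ 2) (by positivity)
    have := hT m (ev m (a, b))
    change ‖grad m (T m (ev m (a, b)))‖ ≤ _
    rw [this]
    exact Submodule.norm_starProjection_apply_le _ _
  · have e : ev m (a, b) = grad m ⟨f, hf⟩ := by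
      rw [show a = _ from funext ha, show b = _ from funext hb]; rfl
    have h1 : grad m (T m (ev m (a, b)) - ⟨f, hf⟩) = 0 := by
      rw [map_sub, hT, e, Submodule.starProjection_eq_self_iff.2 (LinearMap.mem_range_self _ _),
        sub_self]
    refine ⟨(T m (ev m (a, b))).1 0 - f 0, fun u => ?_⟩
    have := const_of_grad m _ h1 u
    simp only [Submodule.coe_sub, Pi.sub_apply] at this
    linear_combination this

end Pool.Agent.P.MP_cc4a10_gt
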