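import Pool.Agent.P.MP_cc4a10_gt.St

/-!
Structure of a good level.
-/

open Set Filter Topology Complex Metric
open scoped ComplexConjugate Real

noncomputable section

namespace Pool.Agent.P.MP_cc4a10_gt

namespace LevP

theorem Lm_add (μ a b : ℂ) : Lm μ (a + b) = Lm μ a + Lm μ b := by simp only [Lm, map_add]; ring
theorem Lm_neg (μ a : ℂ) : Lm μ (-a) = -Lm μ a := by simp only [Lm, map_neg]; ring
theorem Lm_sub (μ a b : ℂ) : Lm μ (a - b) = Lm μ a - Lm μ b := by simp only [Lm, map_sub]; ring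
theorem norm_Lm_le (μ a : ℂ) : ‖Lm μ a‖ ≤ (1 + ‖μ‖) * ‖a‖ := by
  refine (norm_add_le _ _).trans (le_of_eq ?_)
  rw [norm_mul, norm_conj]; ring

theorem Lm_surj {μ : ℂ} (h : ‖μ‖ < 1) (z : ℂ) : ∃ w, Lm μ w = z := by
  have h1 : (1 - ‖μ‖ ^ 2 : ℝ) ≠ 0 := by nlinarith [norm_nonneg μ]
  have h2 : ((1 - ‖μ‖ ^ 2 : ℝ) : ℂ) ≠ 0 := ofReal_ne_zero.2 h1
  refine ⟨(z - μ * conj z) / ((1 - ‖μ‖ ^ 2 : ℝ) : ℂ), ?_⟩
  have h3 : ((1 - ‖μ‖ ^ 2 : ℝ) : ℂ) = 1 - μ * conj μ := by rw [mul_conj']; push_cast; ring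
  simp only [Lm, map_div₀, conj_ofReal, map_sub, map_mul, conj_conj]
  field_simp
  rw [h3]; ring

theorem exists_round (y : ℂ) : ∃ u : GI, ‖y - u‖ ≤ 7072 / 10000 := by
  refine ⟨⟨round y.re, round y.im⟩, ?_⟩
  have h1 := abs_sub_round y.re
  have h2 := abs_sub_round y.im
  refine (sq_le_sq₀ (norm_nonneg _) (by norm_num)).1 ?_
  rw [Complex.sq_norm, normSq_apply]
  simp only [sub_re, sub_im, GaussianInt.re_toComplex, GaussianInt.im_toComplex]
  have h3 := abs_le.1 h1
  have h4 := abs_le.1 h2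
  nlinarith

theorem one_le_norm {u : GI} (h : u ≠ 0) : 1 ≤ ‖(u : ℂ)‖ := by
  have h1 : 1 ≤ u.norm := GaussianInt.norm_pos.2 h
  have h2 : (1 : ℝ) ≤ normSq (u : ℂ) := by
    rw [← GaussianInt.intCast_real_norm]; exact_mod_cast h1
  rw [← Complex.sq_norm] at h2
  nlinarith [norm_nonneg (u : ℂ)]

theorem diffAt_ts (m : ℕ) {F : GI → ℂ → ℂ} {z : ℂ} (h : ∀ u, DifferentiableAt ℂ (F u) z) :
    DifferentiableAt ℂ (fun z => ts m (fun u => F u z)) z := by
  unfold ts
  exact (DifferentiableAt.fun_sum fun a _ => DifferentiableAt.fun_sum fun b _ => h _).const_smul _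

theorem contAt_ts (m : ℕ) {F : GI → ℂ → ℝ} {z : ℂ} (h : ∀ u, ContinuousAt (F u) z) :
    ContinuousAt (fun z => ts m (fun u => F u z)) z := by
  unfold ts
  exact (tendsto_finsetSum _ fun a _ => tendsto_finsetSum _ fun b _ => h _).const_smul _

theorem hasF_ts (m : ℕ) {F : GI → ℂ → ℝ} {a : GI → ℂ} {z : ℂ}
    (h : ∀ u, HasFDerivAt (F u) (hl (a u)) z) :
    HasFDerivAt (fun z => ts m (fun u => F u z)) (hl (ts m a)) z := by
  have h1 : HasFDerivAt (fun z => ts m (fun u => F u z)) (ts m (fun u => hl (a u))) z := by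
    unfold ts
    exact (HasFDerivAt.fun_sum fun a _ => HasFDerivAt.fun_sum fun b _ => h _).const_smul
      ((2 : ℝ) ^ m)⁻¹
  refine h1.congr_fderiv (ContinuousLinearMap.ext fun x => ?_)
  have h2 := ts_map (ContinuousLinearMap.apply ℝ ℝ x).toLinearMap m (fun u => hl (a u))
  refine h2.trans ?_
  change ts m (fun u => (a u * x).re) = (ts m a * x).re
  rw [← ts_re, mul_comm, ← ts_mul_left]
  simp only [mul_comm]

theorem ts_split {V : Type} [AddCommGroup V] [Module ℝ V] (hB : S_Box) {m : ℕ} {F : GI → V}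
    (h : Per m F) (u : GI) :
    ts m F = F u + ts m (fun w => by classical exact if om ^ m ∣ w - u then 0 else F w) := by
  rw [← ((hB m).2.2.2.2.2.1 V F h).1 u, ← ts_add]
  congr 1
  funext w
  split_ifs <;> simp

end LevP

open LevP in
theorem pLev (hB : S_Box) (hP : S_Poin) (hK : S_Ker0) (hD : S_Dip) : S_Lev := by
  classical
  intro E
  obtain ⟨C, hC, hP⟩ := hP
  obtain ⟨CK, -, hK⟩ := hK E
  obtain ⟨m1, hm1⟩ := exists_pow_mul_tt_le 2 (η := 1 / (3000 * (C + 1))) (by positivity)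
  refine ⟨C + 1, m1, by positivity, fun l s b hG hm => ?_⟩
  obtain ⟨-, -, hq0, hq1, hq2, -, -, hc, ⟨w0, hw0, hw0u⟩, -⟩ := hD l hG.ok
  have hm2 : 2 ≤ l.m := hG.ok.1
  have hmr : (2 : ℝ) ≤ l.m := by exact_mod_cast hm2
  have hd := dd_pos l.m
  have ht0 := tt_pos l.m
  have ht1 := tt_le_one l.m
  have hb := hG.b0
  have hsm : (l.m : ℝ) ^ 2 * tt l.m * (3000 * (C + 1)) ≤ 1 := by
    have := hm1 l.m hm
    rwa [le_div_iff₀ (by positivity)] at this
  have ht2 : tt l.m ≤ 1 / 12000 := by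
    have h1 : 4 * tt l.m * (3000 * 1) ≤ (l.m : ℝ) ^ 2 * tt l.m * (3000 * (C + 1)) := by
      gcongr <;> nlinarith
    linarith
  have hμ : ‖s.μ‖ ≤ 1 / 12000 :=
    hG.mu.trans ((pow_le_of_le_one ht0.le ht1 (by norm_num)).trans ht2)
  have hbd : b ≤ 3 * tt l.m * dd l.m := by
    refine hG.bs.trans ?_
    rw [← tt_pow_16, show 20 = 4 + 16 by rfl, pow_add, ← mul_assoc]
    gcongr
    exact pow_le_of_le_one ht0.le ht1 (by norm_num)
  have hn := hG.nb
  unfold nb2 at hn
  have hg0 := div_nonneg (g2_nonneg l.m s.ε) (sq_nonneg (dd l.m))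
  have hs0 := msq_nonneg l.m (fun u => (s.σ u : ℂ))
  have hn0 := sq_nonneg (dn l.m (fun u => q0 l u * s.σ u / dd l.m ^ 2))
  have hg : g2 l.m s.ε / dd l.m ^ 2 ≤ b ^ 2 := by nlinarith
  have hs : msq l.m (fun u => (s.σ u : ℂ)) ≤ b ^ 2 := by nlinarith
  have hg' : √(g2 l.m s.ε) ≤ b * dd l.m := by
    refine Real.sqrt_le_iff.2 ⟨by positivity, ?_⟩
    rwa [div_le_iff₀ (by positivity), ← mul_pow] at hg
  obtain ⟨hP1, hP2⟩ := (hP l.m s.ε hm2 hG.lv.pe).2.2 hG.m0
  have he1 : ∀ u, ‖s.ε u‖ ≤ (C + 1) * l.m * b := fun u => by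
    refine (hP2 u).trans ?_
    rw [div_le_iff₀ hd, mul_assoc _ b]
    gcongr
    linarith
  have he2 : ∀ u, ‖s.ε u‖ ≤ rho l.m / 1000 := fun u => by
    refine (he1 u).trans ?_
    rw [rho, div_div, le_div_iff₀ (by positivity)]
    calc (C + 1) * l.m * b * (l.m * 1000)
        ≤ (C + 1) * l.m * (3 * tt l.m * dd l.m) * (l.m * 1000) := by gcongr
      _ = (l.m : ℝ) ^ 2 * tt l.m * (3000 * (C + 1)) * dd l.m := by ring
      _ ≤ 1 * dd l.m := by gcongr
      _ = dd l.m := one_mul _
  have he3 : ∀ u, ‖s.ε u‖ ≤ dd l.m / 2000 := fun u => by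
    refine (he2 u).trans ?_
    rw [rho, div_div]
    gcongr
    linarith
  have hs1 : ∀ u, |s.σ u| ≤ b / dd l.m := fun u => by
    have h1 := (hB l.m).2.2.2.2.2.2.2 (fun u => (s.σ u : ℂ))
      (fun u w => by simp only [hG.lv.ps u w]) u
    rw [norm_real, Real.norm_eq_abs] at h1
    refine (sq_le_sq₀ (abs_nonneg _) (by positivity)).1 (h1.trans ?_)
    rw [div_pow]
    gcongr
  have hqq : ts l.m (qq l s) = 0 := by
    have : qq l s = fun u => q0 l u + q0 l u * s.σ u := by funext u; simp only [qq]; ring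
    rw [this, ts_add, hq2, hG.lv.neu, add_zero]
  have hsep : ∀ u u' : GI, ‖pos l s u - pos l s u' - l.c * ((u - u' : GI) : ℂ)‖
      ≤ dd l.m * ‖((u - u' : GI) : ℂ)‖ / 200 := by
    intro u u'
    by_cases h : u = u'
    · subst h; simp
    have h1 := one_le_norm (sub_ne_zero.2 h)
    have e : pos l s u - pos l s u' - l.c * ((u - u' : GI) : ℂ)
        = s.μ * conj (l.c * ((u - u' : GI) : ℂ)) + (s.ε u - s.ε u') := by
      simp only [pos, Lm, map_sub, map_mul]; ring
    rw [e]
    refine (norm_add_le _ _).trans ?_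
    rw [norm_mul, norm_conj, norm_mul, hc]
    have h2 := norm_sub_le (s.ε u) (s.ε u')
    have h3 := he3 u
    have h4 := he3 u'
    have h5 : dd l.m * 1 ≤ dd l.m * ‖((u - u' : GI) : ℂ)‖ := by gcongr
    have h6 : ‖s.μ‖ * (dd l.m * ‖((u - u' : GI) : ℂ)‖)
        ≤ 1 / 12000 * (dd l.m * ‖((u - u' : GI) : ℂ)‖) := by gcongr
    linarith
  have hper : ∀ u w, pos l s (u + om ^ l.m * w)
      = pos l s u + Lm s.μ (l.c * ((om ^ l.m * w : GI) : ℂ)) := fun u w => by
    simp only [pos, hG.lv.pe u w, map_add, mul_add, Lm_add]; ring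
  have hper' : ∀ u w z, z - pos l s (u + om ^ l.m * w)
      = z - pos l s u + Lm s.μ ((-(w0 * w) : GI) : ℂ) := fun u w z => by
    rw [hper, map_mul, ← mul_assoc, hw0, map_neg, map_mul, Lm_neg]; ring
  have hneg : ∀ u ∈ Nk l, pos l s (-u) = -pos l s u := fun u hu => by
    simp only [pos, hG.odd u hu, map_neg, mul_neg, Lm_neg]; ring
  have hμ' : ‖s.μ‖ ≤ 1 / 100 := hμ.trans (by norm_num)
  obtain ⟨-, -, -, -, hK1, -, -, -, -, hK2, -⟩ := hK s.μ hμ'
  have hqp : Per l.m (qq l s) := fun u w => by simp only [qq, hq0 u w, hG.lv.ps u w]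
  have hZp : ∀ z, Per l.m (fun u => (qq l s u : ℂ) * E.Z s.μ (z - pos l s u)) := fun z u w => by
    simp only [hqp u w, hper', E.Zper s.μ hμ']
  have hGp : ∀ z, Per l.m (fun u => qq l s u * E.Gr s.μ (z - pos l s u)) := fun z u w => by
    simp only [hqp u w, hper', E.Gper s.μ hμ']
  have hqn : ∀ u, qq l s (-u) = qq l s u := fun u => by simp only [qq, (hq1 u).1, hG.evn u]
  have hqz : ∀ u, u ∉ Nk l → qq l s u = 0 := fun u hu => by
    have : q0 l u = 0 := by simpa [Nk] using hu
    simp only [qq, this, zero_mul]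
  have hoff : ∀ z w, (∀ w', z ≠ pos l s (w + om ^ l.m * w')) →
      ∀ x : GI, z - pos l s w ≠ Lm s.μ x := by
    intro z w h x hx
    obtain ⟨y, rfl⟩ := hw0u.dvd (a := x)
    refine h y (sub_eq_zero.1 ?_)
    rw [hper', hx, map_neg, Lm_neg, add_neg_cancel]
  have hZd : ∀ z w, (∀ w', z ≠ pos l s (w + om ^ l.m * w')) → DifferentiableAt ℂ
      (fun z => (qq l s w : ℂ) * (E.Z s.μ (z - pos l s w) + bE s.μ * conj (z - pos l s w))) z :=
    fun z w h => ((hK2 _ (hoff z w h)).2.comp z
      (differentiableAt_id.sub_const _)).const_mul _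
  have hGd : ∀ z w, (∀ w', z ≠ pos l s (w + om ^ l.m * w')) → HasFDerivAt
      (fun z => qq l s w * E.Gr s.μ (z - pos l s w))
      (hl ((qq l s w : ℂ) * E.Z s.μ (z - pos l s w))) z := fun z w h => by
    have h1 := ((hK2 _ (hoff z w h)).1.comp z
      ((hasFDerivAt_id z).sub_const (pos l s w))).const_mul (qq l s w)
    refine h1.congr_fderiv (ContinuousLinearMap.ext fun x => ?_)
    simp [hl]
    ring
  have hqc : ts l.m (fun u => (qq l s u : ℂ)) = 0 := by rw [← ts_ofReal, hqq, ofReal_zero]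
  refine ⟨fun u => ⟨he1 u, he2 u, (hs1 u).trans ?_, (hs1 u).trans ?_⟩, hP1.trans ?_, hqq, hsep,
    fun z => ?_, hper, hneg, fun z => ⟨?_, ?_, fun w => ⟨?_, ?_⟩⟩, fun z hz => ?_, fun u hu => ?_⟩
  · gcongr; nlinarith
  · rw [div_le_iff₀ hd]; nlinarith
  · rw [mul_div_assoc, mul_pow]; gcongr; linarith
  · obtain ⟨w, rfl⟩ := Lm_surj (hμ'.trans_lt (by norm_num)) z
    have hc0 : l.c ≠ 0 := norm_pos_iff.1 (hc ▸ hd)
    obtain ⟨u, hu⟩ := exists_round (w / l.c)
    refine ⟨u, ?_⟩
    have e : Lm s.μ w - pos l s u = Lm s.μ (l.c * (w / l.c - u)) - s.ε u := by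
      rw [mul_sub, mul_div_cancel₀ _ hc0, Lm_sub, pos]; ring
    rw [e]
    refine (norm_sub_le _ _).trans ?_
    have h1 := norm_Lm_le s.μ (l.c * (w / l.c - u))
    rw [norm_mul, hc] at h1
    have h2 : (1 + ‖s.μ‖) * (dd l.m * ‖w / l.c - u‖)
        ≤ (1 + 1 / 12000) * (dd l.m * (7072 / 10000)) := by gcongr
    have h3 := he3 u
    linarith
  · rw [psi, ← ts_neg_arg (hZp (-z)), psi, ← ts_neg]
    congr 1; funext u
    by_cases hu : u ∈ Nk l
    · rw [hqn, hneg u hu, ← mul_neg, ← (hK1 _).1]; congr 2; ring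
    · simp only [hqn, hqz u hu, ofReal_zero, zero_mul, neg_zero]
  · rw [ht, ← ts_neg_arg (hGp (-z)), ht]
    congr 1; funext u
    by_cases hu : u ∈ Nk l
    · rw [hqn, hneg u hu, ← (hK1 (z - pos l s u)).2]; congr 2; ring
    · simp only [hqn, hqz u hu, zero_mul]
  · simp only [psi, add_sub_right_comm, E.Zper s.μ hμ']
  · simp only [ht, add_sub_right_comm, E.Gper s.μ hμ']
  · have h1 : ∀ w ∈ Nk l, ∀ w', z ≠ pos l s (w + om ^ l.m * w') := fun w hw w' h => by
      have := hz (w + om ^ l.m * w') (by simpa only [Nk, mem_ofPred_eq, hq0 w w'] using hw)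
      rw [← h, sub_self, norm_zero] at this
      exact lt_irrefl _ this
    constructor
    · have e : psi E l s = fun z => ts l.m (fun w => (qq l s w : ℂ) *
          (E.Z s.μ (z - pos l s w) + bE s.μ * conj (z - pos l s w)))
          + ts l.m (fun w => (qq l s w : ℂ) * (bE s.μ * conj (pos l s w))) := by
        funext z
        rw [psi, ← ts_add, ← add_zero (ts _ _), ← mul_zero (bE s.μ * conj z), ← hqc,
          ← ts_mul_left, ← ts_add]
        congr 1; funext w
        rw [map_sub]; ring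
      rw [e]
      refine (diffAt_ts _ fun w => ?_).add_const _
      by_cases hw : w ∈ Nk l
      · exact hZd z w (h1 w hw)
      · simp only [hqz w hw, ofReal_zero, zero_mul, differentiableAt_const]
    · refine hasF_ts _ fun w => ?_
      by_cases hw : w ∈ Nk l
      · exact hGd z w (h1 w hw)
      · simp only [hqz w hw, ofReal_zero, zero_mul]
        exact (hasFDerivAt_const (0 : ℝ) z).congr_fderiv (by ext1 x; simp [hl])
  · have hd1 := dd_le_one l.m
    have h1 : ∀ z ∈ ball (pos l s u) (dd l.m / 2), ∀ w, ¬om ^ l.m ∣ w - u →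
        ∀ w', z ≠ pos l s (w + om ^ l.m * w') := by
      intro z hz w hw w' h
      have h2 : w + om ^ l.m * w' - u ≠ 0 := fun h0 => hw ⟨-w', by linear_combination h0⟩
      have h3 := one_le_norm h2
      have h4 := hsep (w + om ^ l.m * w') u
      have h5 := norm_sub_norm_le (l.c * ((w + om ^ l.m * w' - u : GI) : ℂ))
        (pos l s (w + om ^ l.m * w') - pos l s u)
      rw [norm_sub_rev (l.c * _), norm_mul, hc] at h5
      rw [mem_ball, dist_eq_norm, h] at hz
      have h6 : dd l.m * 1 ≤ dd l.m * ‖((w + om ^ l.m * w' - u : GI) : ℂ)‖ := by gcongr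
      linarith
    have hF := E.hol s.μ hμ'
    have hin : ∀ z ∈ ball (pos l s u) (dd l.m / 2), ‖z - pos l s u‖ < 9 / 10 := fun z hz => by
      rw [mem_ball, dist_eq_norm] at hz; linarith
    constructor
    · have hq3 : (qq l s u : ℂ) + ts l.m (fun w => if om ^ l.m ∣ w - u then 0
          else (qq l s w : ℂ)) = 0 := by
        exact (ts_split hB (F := fun u => (qq l s u : ℂ))
          (fun u w => by simp only [hqp u w]) u).symm.trans hqc
      refine DifferentiableOn.congr (f := fun z => (qq l s u : ℂ) * deriv (E.F s.μ) (z - pos l s u)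
        + ts l.m (fun w => if om ^ l.m ∣ w - u then 0 else (qq l s w : ℂ) *
          (E.Z s.μ (z - pos l s w) + bE s.μ * conj (z - pos l s w)))
        + ((qq l s u : ℂ) * (bE s.μ * conj (pos l s u)) + ts l.m (fun w => if om ^ l.m ∣ w - u
          then 0 else (qq l s w : ℂ) * (bE s.μ * conj (pos l s w))))) (fun z hz => ?_)
        fun z hz => ?_
      · refine (DifferentiableAt.add_const _ (DifferentiableAt.add ?_
          (diffAt_ts _ fun w => ?_))).differentiableWithinAt
        · refine (((hF.deriv isOpen_ball).differentiableAt (isOpen_ball.mem_nhds ?_)).comp z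
            (differentiableAt_id.sub_const _)).const_mul _
          rw [mem_ball_zero_iff]
          exact (hin z hz).trans (by norm_num)
        · split_ifs with hw
          · exact differentiableAt_const _
          · exact hZd z w (h1 z hz w hw)
      · have e : ts l.m (fun w => if om ^ l.m ∣ w - u then 0 else (qq l s w : ℂ) *
            (E.Z s.μ (z - pos l s w) + bE s.μ * conj (z - pos l s w)))
            + ts l.m (fun w => if om ^ l.m ∣ w - u
              then 0 else (qq l s w : ℂ) * (bE s.μ * conj (pos l s w)))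
            = ts l.m (fun w => if om ^ l.m ∣ w - u then 0
                else (qq l s w : ℂ) * E.Z s.μ (z - pos l s w))
              + bE s.μ * conj z * ts l.m (fun w => if om ^ l.m ∣ w - u then 0
                else (qq l s w : ℂ)) := by
          rw [← ts_mul_left, ← ts_add, ← ts_add]
          congr 1; funext w
          split_ifs
          · simp
          · rw [map_sub]; ring
        rw [RR, psi, ts_split hB (hZp z) u, E.Zloc s.μ hμ' _ (hin z hz), map_sub]
        linear_combination -e - bE s.μ * conj z * hq3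
    · have h0 : pos l s u ∈ ball (pos l s u) (dd l.m / 2) := mem_ball_self (by positivity)
      refine ContinuousAt.congr (f := fun z => qq l s u * ((E.F s.μ (z - pos l s u)).re
        - bE s.μ * ‖z - pos l s u‖ ^ 2 / 2) + ts l.m (fun w => if om ^ l.m ∣ w - u then 0
          else qq l s w * E.Gr s.μ (z - pos l s w))) ?_ ?_
      · refine ContinuousAt.add (ContinuousAt.const_mul (ContinuousAt.sub ?_ (by fun_prop)) _)
          (contAt_ts _ fun w => ?_)
        · refine continuous_re.continuousAt.comp (ContinuousAt.comp ?_ (by fun_prop))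
          refine (hF.differentiableAt (isOpen_ball.mem_nhds ?_)).continuousAt
          simp
        · split_ifs with hw
          · exact continuousAt_const
          · exact (hGd _ w (h1 _ h0 w hw)).continuousAt
      · filter_upwards [isOpen_ball.mem_nhds h0] with z hz
        rw [ht, ts_split hB (hGp z) u, E.Gloc s.μ hμ' _ (hin z hz)]
        ring

end Pool.Agent.P.MP_cc4a10_gt
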