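import Pool.Agent.P.MP_cc4a10_gt.St

/-!
The local a priori estimate inside one stage.
-/

open Set Filter Topology Complex
open scoped ComplexConjugate Real

noncomputable section

namespace Pool.Agent.P.MP_cc4a10_gt

namespace Loc1P

@[simp] theorem z_x : (0 : T3).x = 0 := rfl
@[simp] theorem z_X : (0 : T3).X = 0 := rfl
@[simp] theorem z_s : (0 : T3).s = 0 := rfl

theorem hat_zero (S : Sys) (J : ℕ) {v : Vec} {k : ℤ} (h : v.1 k = 0 ∧ v.2 k = 0) (κ : GI) :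
    hat S J v k κ = 0 := by
  change _ = (⟨0, 0, 0⟩ : T3)
  simp [hat, h.1, h.2, av]

theorem syn_zero (S : Sys) (J : ℕ) (R : ℤ → Finset GI) {a : ℤ → GI → T3} {k : ℤ}
    (h : ∀ κ, a k κ = 0) : (syn S J R a).1 k = 0 ∧ (syn S J R a).2 k = 0 := by
  constructor <;> funext z <;> simp [syn, h]

theorem nT_congr (S : Sys) {v w : Vec} {K : ℤ} (h1 : v.1 (K - 1) = w.1 (K - 1))
    (h2 : v.2 (K - 1) = w.2 (K - 1)) (h3 : v.1 K = w.1 K) (h4 : v.2 K = w.2 K) :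
    nT S v K = nT S w K := by
  have e1 : eT S v K = eT S w K := by
    funext u; simp only [eT, lk]; split_ifs <;> simp only [h1, h3]
  have e2 : sT S v K = sT S w K := by
    funext u; simp only [sT, lk]; split_ifs <;> simp only [h2, h4]
  simp only [nT, e1, e2]

theorem bP_symm (e L : ℝ) (s : Sy) (A B A' B' : T3) :
    bP e L s A B A' B' = bP e L s B A B' A' := add_comm _ _

theorem bP_zero (e L : ℝ) (s : Sy) (A B : T3) : bP e L s A B 0 0 = 0 := by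
  simp [bP, bU, bU1, tp]

theorem nU_symm (r L : ℝ) (A B : T3) : nU r L A B = nU r L B A := by
  simp only [nU, norm_sub_rev A.x, norm_sub_rev A.X, norm_sub_rev A.s]; ring

theorem nU_zero (r L : ℝ) : nU r L 0 0 = 0 := by simp [nU]

theorem nU_nonneg (r : ℝ) {L : ℝ} (h : 0 ≤ L) (A B : T3) : 0 ≤ nU r L A B := by
  unfold nU; positivity

theorem nU_le (r : ℝ) {L L' : ℝ} (h : L' ≤ 4 * L) (A B : T3) :
    nU r L' A B ≤ 4 * nU r L A B := by
  unfold nU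
  have h1 : 0 ≤ ‖A.x - B.x‖ ^ 2 + ‖A.X - B.X‖ ^ 2
    + r ^ 2 * (‖A.x‖ ^ 2 + ‖A.X‖ ^ 2 + ‖B.x‖ ^ 2 + ‖B.X‖ ^ 2) + ‖A.s - B.s‖ ^ 2 / r ^ 2 := by
    positivity
  have h2 := mul_le_mul_of_nonneg_right h (by positivity : 0 ≤ ‖A.s‖ ^ 2 + ‖B.s‖ ^ 2)
  linarith

theorem abs_le_abs_sub {x : ℝ} (h : |x| ≤ π) (n : ℤ) : |x| ≤ |x - 2 * π * n| := by
  rcases eq_or_ne n 0 with rfl | hn
  · simp
  have h1 : (1 : ℝ) ≤ |(n : ℝ)| := by exact_mod_cast Int.one_le_abs hn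
  have h2 : |2 * π * n| = 2 * π * |(n : ℝ)| := by
    rw [abs_mul, abs_of_pos Real.two_pi_pos]
  have h3 := abs_sub_abs_le_abs_sub (2 * π * n) x
  rw [abs_sub_comm] at h3
  nlinarith [Real.pi_pos]

theorem norm_le_of_sq {θ : ℂ} (h : Sq θ) (w : GI) : ‖θ‖ ≤ ‖θ - 2 * π * w‖ := by
  have h1 := abs_le_abs_sub h.2.1 w.re
  have h2 := abs_le_abs_sub h.2.2 w.im
  have e1 : (θ - 2 * π * w).re = θ.re - 2 * π * w.re := by simp
  have e2 : (θ - 2 * π * w).im = θ.im - 2 * π * w.im := by simp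
  rw [← sq_le_sq₀ (norm_nonneg _) (norm_nonneg _), Complex.sq_norm, Complex.sq_norm,
    normSq_apply, normSq_apply, e1, e2]
  have h3 := sq_le_sq.2 h1
  have h4 := sq_le_sq.2 h2
  nlinarith

theorem fin_alg {c B C A n t : ℝ} (hc : 0 < c) (hC : 0 ≤ C) (hn : 0 ≤ n) (h1 : c * n ≤ B)
    (h2 : |B| ≤ A * √t) (h3 : t ≤ C * n) (hA : 0 ≤ A) : n * c ^ 2 ≤ C * A ^ 2 := by
  rcases hn.eq_or_lt with rfl | hn
  · simp only [zero_mul]; positivity
  have h4 : c * n ≤ A * √(C * n) :=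
    h1.trans ((le_abs_self _).trans (h2.trans (by gcongr)))
  have h5 : (c * n) ^ 2 ≤ (A * √(C * n)) ^ 2 := by gcongr
  rw [mul_pow A, Real.sq_sqrt (by positivity)] at h5
  refine le_of_mul_le_mul_right ?_ hn
  nlinarith

/-- The estimate for an abstract enumeration of the layers and levels of a window. -/
theorem core (hC : S_Char) (hU : S_FU) (E : Ell) {c1 C1 C2 : ℝ} (hc1 : 0 < c1) (hC1 : 0 < C1)
    (hC2 : 0 < C2) (S : Sys) (hS : S.ok) (j : ℕ) (hL : (j + 2 : ℝ) ≤ 4 * LL j)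
    (hM : ∀ κ, Sq (thq j κ) → St1 c1 C1 (ee E) ‖thq j κ‖ (LL j) (syT E j κ))
    (hN : ∀ (K : ℤ) (R : ℤ → Finset GI) (a : ℤ → GI → T3) (r : GI → ℝ), S.st (K - 1) = j →
      S.st K = j → R (K - 1) = R K → Rep j (R K) →
      (∀ κ ∈ R K, (a (K - 1) κ = 0 ∧ a K κ = 0) ∨ (0 < r κ ∧ ‖thq j κ‖ ≤ 10 * r κ ∧
        ∀ w : GI, r κ ≤ 10 * ‖thq j κ - 2 * π * w‖)) →
      nT S (syn S j R a) K ≤ C2 * ∑ κ ∈ R K, nU (r κ) (j + 2) (a (K - 1) κ) (a K κ))
    (a b a' b' : ℤ) (N : ℕ) (lay lev : ℕ → ℤ) (idx : ℤ → ℕ)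
    (hsum : ∀ f : ℤ → ℝ, ∑ K ∈ Finset.Icc a' (b' + 1), f K = ∑ n ∈ Finset.range (N + 1), f (lev n))
    (hlev : ∀ n, (lev n - 1 = lay n ∧ lev n = lay (n + 1)) ∨
      (lev n = lay n ∧ lev n - 1 = lay (n + 1)))
    (hidx : ∀ n, idx (lay n) = n) (hst : ∀ n, n ≤ N + 1 → S.st (lay n) = j)
    (h0 : ∀ n, n = 0 ∨ N ≤ n → lay n < a ∨ b < lay n)
    (hsp : ∀ k, k < a' ∨ b' < k → idx k = 0 ∨ N + 1 ≤ idx k)
    (hin : ∀ k, a' ≤ k → k ≤ b' → S.st k = j) :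
    Loc E S (16 * C2 ^ 2 * C1 / c1 ^ 2) j a b a' b' := by
  classical
  intro v A hv hs hA hB
  obtain ⟨R, hR, hR0, hRs⟩ := hC.1 j
  have hL0 : 0 ≤ LL j := by have : (0 : ℝ) ≤ j := Nat.cast_nonneg j; linarith
  set x : GI → ℕ → T3 := fun κ n => hat S j v (lay n) κ with hx
  have hx0 : ∀ κ n, n = 0 ∨ N ≤ n → x κ n = 0 := fun κ n h => hat_zero S j (hs _ (h0 n h)) κ
  have hxz : ∀ n, x 0 n = 0 := fun n => ((hC.2.2.2.2 S j fun _ => R).1 v hv).1 _ 0 (dvd_zero _)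
  have key : ∀ κ, ∃ y : ℕ → T3, Fs (N + 1) y ∧ y 0 = 0 ∧ (κ = 0 → ∀ n, y n = 0) ∧ (κ ∈ R →
      c1 * nM1 ‖thq j κ‖ (LL j) (N + 2) (x κ)
        ≤ (bM1 (ee E) (LL j) (syT E j κ) (N + 2) (x κ) y).re ∧
      nM1 ‖thq j κ‖ (LL j) (N + 2) y ≤ C1 * nM1 ‖thq j κ‖ (LL j) (N + 2) (x κ)) := by
    intro κ
    by_cases hκ : κ ∈ R ∧ κ ≠ 0
    · obtain ⟨y, h1, h2, h3⟩ := hM κ (hRs κ hκ.1 hκ.2) N (x κ)
        (fun n hn => hx0 κ n (Or.inr hn)) (hx0 κ 0 (Or.inl rfl))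
      exact ⟨y, h1, h2, fun h => absurd h hκ.2, fun _ => h3⟩
    · refine ⟨fun _ => 0, fun _ _ => rfl, rfl, fun _ _ => rfl, fun h => ?_⟩
      obtain rfl : κ = 0 := by by_contra h'; exact hκ ⟨h, h'⟩
      simp [nM1, bM1, hxz, nU_zero, bP_zero]
  choose y hy1 hy2 hy3 hy4 using key
  set α : ℤ → GI → T3 := fun k κ => y κ (idx k) with hα
  have hα0 : ∀ k, k < a' ∨ b' < k → ∀ κ, α k κ = 0 := fun k hk κ => by
    rcases hsp k hk with h | h
    · simp only [hα, h, hy2]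
    · exact hy1 κ _ h
  have hαl : ∀ n κ, α (lay n) κ = y κ n := fun n κ => by simp only [hα, hidx]
  have hadm : Adm S (syn S j (fun _ => R) α) := by
    refine (hC.2.2.2.2 S j fun _ => R).2 α fun k κ hκ hd => ?_
    by_cases hk : k < a' ∨ b' < k
    · exact hα0 k hk κ
    · push Not at hk
      rw [hin k hk.1 hk.2] at hd
      exact hy3 κ (hR.1 κ hκ 0 hR0 (by simpa using hd)) _
  have hst' : ∀ n ∈ Finset.range (N + 1), S.st (lev n - 1) = j ∧ S.st (lev n) = j := by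
    intro n hn
    have hn' := Finset.mem_range.1 hn
    rcases hlev n with h | h
    · rw [h.1]; exact ⟨hst n (by omega), by rw [h.2]; exact hst _ (by omega)⟩
    · rw [h.2]; exact ⟨hst _ (by omega), by rw [h.1]; exact hst n (by omega)⟩
  -- norms of synthesised vectors
  have hnorm : ∀ (β : ℤ → GI → T3) (z : GI → ℕ → T3), (∀ n κ, β (lay n) κ = z κ n) →
      (∀ n, z 0 n = 0) → ∑ n ∈ Finset.range (N + 1), nT S (syn S j (fun _ => R) β) (lev n)
        ≤ 4 * C2 * ∑ κ ∈ R, nM1 ‖thq j κ‖ (LL j) (N + 2) (z κ) := by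
    intro β z hβ hz
    have h1 : ∀ n ∈ Finset.range (N + 1), nT S (syn S j (fun _ => R) β) (lev n)
        ≤ 4 * C2 * ∑ κ ∈ R, nU ‖thq j κ‖ (LL j) (z κ n) (z κ (n + 1)) := by
      intro n hn
      refine (hN (lev n) (fun _ => R) β (fun κ => ‖thq j κ‖) (hst' n hn).1 (hst' n hn).2 rfl hR
        fun κ hκ => ?_).trans ?_
      · by_cases h : κ = 0
        · subst h
          left
          rcases hlev n with h | h
          · rw [h.1, hβ, hz]; exact ⟨rfl, by rw [h.2, hβ, hz]⟩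
          · rw [h.2, hβ, hz]; exact ⟨rfl, by rw [h.1, hβ, hz]⟩
        · have hq := hRs κ hκ h
          have hp := norm_pos_iff.2 hq.1
          refine Or.inr ⟨hp, by linarith, fun w => ?_⟩
          have := norm_le_of_sq hq w
          linarith
      · rw [mul_comm 4 C2, mul_assoc, Finset.mul_sum _ _ 4]
        refine mul_le_mul_of_nonneg_left (Finset.sum_le_sum fun κ _ => ?_) hC2.le
        refine (nU_le _ hL _ _).trans (le_of_eq ?_)
        rcases hlev n with h | h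
        · rw [h.1, hβ]; conv_lhs => rw [h.2, hβ]
        · rw [h.2, hβ, nU_symm]; conv_lhs => rw [h.1, hβ]
    refine (Finset.sum_le_sum h1).trans ?_
    rw [← Finset.mul_sum, Finset.sum_comm]
    refine mul_le_mul_of_nonneg_left (Finset.sum_le_sum fun κ _ => ?_) (by positivity)
    rw [nM1, Finset.sum_range_succ _ (N + 1)]
    exact le_add_of_nonneg_right (nU_nonneg _ hL0 _ _)
  set n0 : ℝ := ∑ κ ∈ R, nM1 ‖thq j κ‖ (LL j) (N + 2) (x κ) with hn0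
  have hn0' : 0 ≤ n0 := Finset.sum_nonneg fun κ _ =>
    Finset.sum_nonneg fun n _ => nU_nonneg _ hL0 _ _
  have hv1 : ∑ K ∈ Finset.Icc a' (b' + 1), nT S v K ≤ 4 * C2 * n0 := by
    rw [hsum]
    refine le_of_eq_of_le (Finset.sum_congr rfl fun n hn => ?_)
      (hnorm (hat S j v) x (fun _ _ => rfl) hxz)
    have h := ((hC.2.2.2.2 S j fun _ => R).1 v hv).2
    have h1 := h (lev n - 1) (by rw [(hst' n hn).1]; exact hR)
    have h2 := h (lev n) (by rw [(hst' n hn).2]; exact hR)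
    exact (nT_congr S h1.1 h1.2 h2.1 h2.2).symm
  have hv2 : ∑ K ∈ Finset.Icc a' (b' + 1), nT S (syn S j (fun _ => R) α) K
      ≤ 4 * C2 * C1 * n0 := by
    rw [hsum]
    refine (hnorm α y hαl fun n => hy3 0 rfl n).trans ?_
    rw [mul_assoc (4 * C2), hn0, Finset.mul_sum _ _ C1]
    exact mul_le_mul_of_nonneg_left (Finset.sum_le_sum fun κ hκ => (hy4 κ hκ).2) (by positivity)
  have hv3 : ((2 : ℝ) ^ j)⁻¹ * c1 * n0
      ≤ ∑ K ∈ Finset.Icc a' (b' + 1), BT E S v (syn S j (fun _ => R) α) K := by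
    rw [hsum]
    have h1 : ∀ n ∈ Finset.range (N + 1), BT E S v (syn S j (fun _ => R) α) (lev n)
        = ((2 : ℝ) ^ j)⁻¹ * ∑ κ ∈ R, (bP (ee E) (LL j) (syT E j κ) (x κ n) (x κ (n + 1))
          (y κ n) (y κ (n + 1))).re := by
      intro n hn
      rw [(hU E S (lev n) j (fun _ => R) v α hS (hst' n hn).1 (hst' n hn).2 rfl hR hv).1]
      congr 1
      refine Finset.sum_congr rfl fun κ _ => ?_
      rcases hlev n with h | h
      · rw [h.1, hαl]; conv_lhs => rw [h.2, hαl]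
      · rw [h.2, hαl, bP_symm]; conv_lhs => rw [h.1, hαl]
    rw [Finset.sum_congr rfl h1, ← Finset.mul_sum, Finset.sum_comm, mul_assoc, hn0,
      Finset.mul_sum _ _ c1]
    refine mul_le_mul_of_nonneg_left (Finset.sum_le_sum fun κ hκ => ?_) (by positivity)
    refine (hy4 κ hκ).1.trans (le_of_eq ?_)
    rw [bM1, Finset.sum_range_succ _ (N + 1), hy1 κ (N + 1) le_rfl, hy1 κ (N + 1 + 1) (by omega),
      bP_zero, add_zero, re_sum]
  have hfin := fin_alg (by positivity) (by positivity) hn0' hv3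
    (hB _ hadm fun k hk => syn_zero S j _ (hα0 k hk)) hv2 hA
  have hd : dd j ^ 4 = (((2 : ℝ) ^ j)⁻¹) ^ 2 := by rw [← dd_sq]; ring
  rw [hd, div_mul_eq_mul_div, le_div_iff₀ (by positivity)]
  calc (∑ K ∈ Finset.Icc a' (b' + 1), nT S v K) * (((2 : ℝ) ^ j)⁻¹) ^ 2 * c1 ^ 2
      ≤ (4 * C2 * n0) * (((2 : ℝ) ^ j)⁻¹) ^ 2 * c1 ^ 2 := by gcongr
    _ = 4 * C2 * (n0 * (((2 : ℝ) ^ j)⁻¹ * c1) ^ 2) := by ring
    _ ≤ 4 * C2 * (4 * C2 * C1 * A ^ 2) := by gcongr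
    _ = 16 * C2 ^ 2 * C1 * A ^ 2 := by ring

theorem sum_up (a : ℤ) (N : ℕ) (f : ℤ → ℝ) :
    ∑ K ∈ Finset.Icc a (a + N), f K = ∑ n ∈ Finset.range (N + 1), f (a + n) := by
  rw [Int.Icc_eq_finset_map, Finset.sum_map]
  have : (a + N + 1 - a).toNat = N + 1 := by omega
  rw [this]; rfl

theorem sum_down (b : ℤ) (N : ℕ) (f : ℤ → ℝ) :
    ∑ K ∈ Finset.Icc (b - N) b, f K = ∑ n ∈ Finset.range (N + 1), f (b - n) := by
  have := sum_up (b - N) N f
  rw [sub_add_cancel] at this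
  rw [this, ← Finset.sum_range_reflect]
  refine Finset.sum_congr rfl fun n hn => ?_
  have := Finset.mem_range.1 hn
  congr 1; omega

end Loc1P

open Loc1P in
theorem pLoc1 (hM : S_Modes) (hU : S_FU) (hN : S_NU) (hC : S_Char) : S_Loc1 := by
  intro E
  obtain ⟨c1, C1, j1, hc1, hC1, hM⟩ := hM E
  obtain ⟨C2, hC2, hN⟩ := hN
  refine ⟨16 * C2 ^ 2 * C1 / c1 ^ 2, j1, by positivity, fun S j a b hS hj hab hst => ?_⟩
  obtain ⟨hL, -, hM1, -⟩ := hM j hj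
  obtain ⟨N, hNe⟩ : ∃ N : ℕ, (N : ℤ) = b - a + 2 := ⟨(b - a + 2).toNat, by omega⟩
  constructor
  · refine core hC hU E hc1 hC1 hC2 S hS j hL (fun κ h => (hM1 κ h).1)
      (fun K R α r h1 h2 => hN S K j j R α r hS h1 h2 (Or.inl rfl)) a b (a - 1) b N
      (fun n => b + 1 - n) (fun n => b + 1 - n) (fun k => (b + 1 - k).toNat) (fun f => ?_)
      (fun n => Or.inr ⟨rfl, by push_cast; ring⟩) (fun n => by simp)
      (fun n hn => hst _ (by omega) (by omega)) (fun n hn => by omega) (fun k hk => by omega)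
      fun k h1 h2 => hst _ (by omega) (by omega)
    rw [← sum_down, show b + 1 - N = a - 1 by omega]
  · refine core hC hU E hc1 hC1 hC2 S hS j hL (fun κ h => (hM1 κ h).1)
      (fun K R α r h1 h2 => hN S K j j R α r hS h1 h2 (Or.inl rfl)) a b a (b + 1) N
      (fun n => a - 1 + n) (fun n => a + n) (fun k => (k - (a - 1)).toNat) (fun f => ?_)
      (fun n => Or.inl ⟨by ring, by push_cast; ring⟩) (fun n => by simp)
      (fun n hn => hst _ (by omega) (by omega)) (fun n hn => by omega) (fun k hk => by omega)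
      fun k h1 h2 => hst _ (by omega) (by omega)
    rw [← sum_up, show a + N = b + 1 + 1 by omega]

end Pool.Agent.P.MP_cc4a10_gt
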