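import Pool.Agent.P.MP_cc4a10_gt.Loc3A

/-!
Package Loc3: the a priori estimate in a window that contains one transition.
-/

open Set Filter Topology Complex Metric
open scoped ComplexConjugate Real

noncomputable section

namespace Pool.Agent.P.MP_cc4a10_gt.Loc3P

variable {S : Sys} {j : ℕ} {a b : ℤ}

/-- Frequencies used on layer `k`. -/
def Rk (W : Win3 S j a b) (R : Finset GI) (k : ℤ) : Finset GI := if W.isC k then R else R2 j R

theorem Rk_c (W : Win3 S j a b) (R : Finset GI) (n : ℕ) : Rk W R (W.kc n) = R := by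
  simp [Rk, (W.cC n).1]
theorem Rk_f (W : Win3 S j a b) (R : Finset GI) (n : ℕ) : Rk W R (W.kf n) = R2 j R := by
  simp [Rk, (W.cF n).1]

theorem sum_cut {f : ℕ → ℝ} {M N : ℕ} (h : M ≤ N) (hf : ∀ n, M ≤ n → f n = 0) :
    ∑ n ∈ Finset.range M, f n = ∑ n ∈ Finset.range N, f n :=
  Finset.sum_subset (Finset.range_mono h) fun n _ hn => hf n (by simpa using hn)

theorem sum_grow {f : ℕ → ℝ} {M N : ℕ} (h : M ≤ N) (hf : ∀ n, 0 ≤ f n) :
    ∑ n ∈ Finset.range M, f n ≤ ∑ n ∈ Finset.range N, f n :=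
  Finset.sum_le_sum_of_subset_of_nonneg (Finset.range_mono h) fun n _ _ => hf n

/-- The form in terms of the modes. -/
theorem form_eq (hFU : S_FU) (hFT : S_FT) (hCh : S_Char) (E : Ell) (hS : S.ok)
    (W : Win3 S j a b) {R : Finset GI} (hR : Rep j R) {v : Vec} (hv : Adm S v)
    (hs : Supp a b v) (t : ℤ → GI → T3) {N : ℕ} (hNa : W.Na ≤ N) (hNb : W.Nb ≤ N) :
    ∑ K ∈ Finset.Icc (a - 1) (b + 1 + 1), BT E S v (syn S j (Rk W R) t) K =
      ((2 : ℝ) ^ j)⁻¹ * ∑ κ ∈ R, (bM3 (ee E) (LL j) (LL (j + 1)) (syT E j κ) (syT E (j + 1) κ)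
        (syT E (j + 1) (κ + om ^ j)) (N + 2)
        (fun n => hat S j v (W.kc n) κ) (fun n => hat S j v (W.kf n) κ)
        (fun n => hat S j v (W.kf n) (κ + om ^ j))
        (fun n => t (W.kc n) κ) (fun n => t (W.kf n) κ)
        (fun n => t (W.kf n) (κ + om ^ j))).re := by
  have hR2 := hCh.2.1 j R hR
  have zc : ∀ n, W.Na ≤ n → ∀ κ, hat S j v (W.kc n) κ = 0 := fun n hn κ =>
    hat_zero S j v _ (hs _ (W.outc n hn)).1 (hs _ (W.outc n hn)).2 κ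
  have zf : ∀ n, W.Nb ≤ n → ∀ κ, hat S j v (W.kf n) κ = 0 := fun n hn κ =>
    hat_zero S j v _ (hs _ (W.outf n hn)).1 (hs _ (W.outf n hn)).2 κ
  have hc : ∀ n ∈ Finset.range (W.Na + 1), BT E S v (syn S j (Rk W R) t) (W.Lc n) =
      ((2 : ℝ) ^ j)⁻¹ * ∑ κ ∈ R, (bP (ee E) (LL j) (syT E j κ) (hat S j v (W.kc n) κ)
        (hat S j v (W.kc (n + 1)) κ) (t (W.kc n) κ) (t (W.kc (n + 1)) κ)).re := by
    intro n hn
    have hn' : n ≤ W.Na := by simpa [Nat.lt_succ_iff] using hn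
    have s1 := W.stc n (by omega)
    have s2 := W.stc (n + 1) (by omega)
    have r1 := Rk_c W R n
    have r2 := Rk_c W R (n + 1)
    rcases W.hLc n with ⟨e1, e2⟩ | ⟨e1, e2⟩
    · rw [e1] at s1 r1; rw [e2] at s2 r2
      rw [(hFU E S (W.Lc n) j (Rk W R) v t hS s2 s1 (by rw [r1, r2]) (by rw [r1]; exact hR) hv).1,
        r1, e1, e2]
      simp only [bP, bU_symm _ _ _ _ _ _ (hat S j v (W.Lc n) _)]
    · rw [e1] at s1 r1; rw [e2] at s2 r2
      rw [(hFU E S (W.Lc n) j (Rk W R) v t hS s1 s2 (by rw [r1, r2]) (by rw [r2]; exact hR) hv).1,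
        r2, e1, e2]
  have hf : ∀ n ∈ Finset.range (W.Nb + 1), BT E S v (syn S j (Rk W R) t) (W.Lf n) =
      ((2 : ℝ) ^ j)⁻¹ * ∑ κ ∈ R, (bC (ee E) (LL (j + 1)) (syT E (j + 1) κ) (hat S j v (W.kf n) κ)
        (hat S j v (W.kf (n + 1)) κ) (t (W.kf n) κ) (t (W.kf (n + 1)) κ)
        + bC (ee E) (LL (j + 1)) (syT E (j + 1) (κ + om ^ j)) (hat S j v (W.kf n) (κ + om ^ j))
        (hat S j v (W.kf (n + 1)) (κ + om ^ j)) (t (W.kf n) (κ + om ^ j))
        (t (W.kf (n + 1)) (κ + om ^ j))).re := by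
    intro n hn
    have hn' : n ≤ W.Nb := by simpa [Nat.lt_succ_iff] using hn
    have s1 := W.stf n (by omega)
    have s2 := W.stf (n + 1) (by omega)
    have r1 := Rk_f W R n
    have r2 := Rk_f W R (n + 1)
    simp only [add_re]
    rw [← hR2.2 (fun κ => (bC (ee E) (LL (j + 1)) (syT E (j + 1) κ) (hat S j v (W.kf n) κ)
        (hat S j v (W.kf (n + 1)) κ) (t (W.kf n) κ) (t (W.kf (n + 1)) κ)).re)]
    rcases W.hLf n with ⟨e1, e2⟩ | ⟨e1, e2⟩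
    · rw [e1] at s1 r1; rw [e2] at s2 r2
      rw [(hFU E S (W.Lf n) (j + 1) (Rk W R) v t hS s2 s1 (by rw [r1, r2])
        (by rw [r1]; exact hR2.1) hv).2 j rfl, r1, e1, e2]
      simp only [bC, bU_symm _ _ _ _ _ _ (hat S j v (W.Lf n) _)]
    · rw [e1] at s1 r1; rw [e2] at s2 r2
      rw [(hFU E S (W.Lf n) (j + 1) (Rk W R) v t hS s1 s2 (by rw [r1, r2])
        (by rw [r2]; exact hR2.1) hv).2 j rfl, r2, e1, e2]
  have ht := hFT E S W.Kt (W.kc 0) (W.kf 0) j (Rk W R) v t hS W.hKt (W.stc 0 (by omega))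
    (W.stf 0 (by omega)) (by rw [Rk_c]; exact hR) (by rw [Rk_c, Rk_f]) hv
  rw [Rk_c] at ht
  rw [W.hsum, Finset.sum_congr rfl hc, Finset.sum_congr rfl hf, ht, ← Finset.mul_sum,
    ← Finset.mul_sum, ← mul_add, ← mul_add, Finset.sum_comm, Finset.sum_comm (s := Finset.range _),
    ← Finset.sum_add_distrib, ← Finset.sum_add_distrib]
  congr 1
  refine Finset.sum_congr rfl fun κ _ => ?_
  simp only [bM3, bM1, add_re, re_sum]
  rw [sum_cut (show W.Na + 1 ≤ N + 2 by omega), sum_cut (show W.Nb + 1 ≤ N + 2 by omega)]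
  · intro n hn
    rw [zf n (by omega), zf (n + 1) (by omega), zf n (by omega), zf (n + 1) (by omega)]
    simp [bC, bU_zero]
  · intro n hn
    rw [zc n (by omega), zc (n + 1) (by omega)]
    simp [bP, bU_zero]

theorem nM3_nonneg (r : ℝ) {L : ℝ} (hL : 0 ≤ L) (N : ℕ) (x y z : ℕ → T3) :
    0 ≤ nM3 r L N x y z := by
  unfold nM3 nM1
  have h1 := Finset.sum_nonneg (s := Finset.range N)
    fun n _ => nU_nonneg r hL (x n) (x (n + 1))
  have h2 := Finset.sum_nonneg (s := Finset.range N)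
    fun n _ => nU_nonneg r hL (y n) (y (n + 1))
  have h3 := Finset.sum_nonneg (s := Finset.range (N + 1)) fun n _ => n1_nonneg hL (z n)
  have h4 := nU_nonneg r hL (x 0) (y 0)
  positivity

/-- One mode family: the level norms against the mode norm. -/
theorem mode_le (r : ℝ) {L : ℝ} (hL : (j + 2 : ℝ) ≤ 4 * L) {Na Nb N : ℕ} (hNa : Na ≤ N)
    (hNb : Nb ≤ N) (x y z : ℕ → T3) :
    ∑ n ∈ Finset.range (Na + 1), nU r (j + 2) (x n) (x (n + 1))
      + (nU r (j + 2) (x 0) (y 0) + n1 (j + 2) (z 0))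
      + ∑ n ∈ Finset.range (Nb + 1), (nU r ((j + 1 : ℕ) + 2) (y n) (y (n + 1))
        + nU 1 ((j + 1 : ℕ) + 2) (z n) (z (n + 1)))
      ≤ 24 * nM3 r L (N + 2) x y z := by
  have hj : (0 : ℝ) ≤ j := Nat.cast_nonneg j
  have hL0 : 0 ≤ L := by linarith
  have h1 : ∑ n ∈ Finset.range (Na + 1), nU r (j + 2) (x n) (x (n + 1))
      ≤ 4 * nM1 r L (N + 2) x := by
    unfold nM1
    rw [Finset.mul_sum]
    refine (Finset.sum_le_sum fun n _ => nU_le r (by norm_num) hL _ _).trans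
      (sum_grow (by omega) fun n => ?_)
    have := nU_nonneg r hL0 (x n) (x (n + 1)); positivity
  have h2 := nU_le r (by norm_num) hL (x 0) (y 0)
  have h3 := n1_le (by norm_num) hL (z 0)
  have h4 : ∑ n ∈ Finset.range (Nb + 1), nU r ((j + 1 : ℕ) + 2) (y n) (y (n + 1))
      ≤ 6 * nM1 r L (N + 2) y := by
    unfold nM1
    rw [Finset.mul_sum]
    refine (Finset.sum_le_sum fun n _ => nU_le r (by norm_num) (by push_cast; linarith) _ _).trans
      (sum_grow (by omega) fun n => ?_)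
    have := nU_nonneg r hL0 (y n) (y (n + 1)); positivity
  have h5 : ∑ n ∈ Finset.range (Nb + 1), nU 1 ((j + 1 : ℕ) + 2) (z n) (z (n + 1))
      ≤ 10 * (∑ n ∈ Finset.range (Nb + 1), n1 L (z n)
        + ∑ n ∈ Finset.range (Nb + 1), n1 L (z (n + 1))) := by
    rw [← Finset.sum_add_distrib, Finset.mul_sum]
    exact Finset.sum_le_sum fun n _ => nU_one_le (by push_cast; linarith) _ _
  have h6 : ∑ n ∈ Finset.range (Nb + 1), n1 L (z n)
      ≤ ∑ n ∈ Finset.range (N + 2 + 1), n1 L (z n) :=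
    sum_grow (by omega) fun n => n1_nonneg hL0 _
  have h7 : ∑ n ∈ Finset.range (Nb + 1), n1 L (z (n + 1)) + n1 L (z 0)
      ≤ ∑ n ∈ Finset.range (N + 2 + 1), n1 L (z n) := by
    rw [← Finset.sum_range_succ' (fun n => n1 L (z n))]
    exact sum_grow (by omega) fun n => n1_nonneg hL0 _
  have p1 : 0 ≤ nM1 r L (N + 2) x := Finset.sum_nonneg fun n _ => nU_nonneg r hL0 _ _
  have p2 : 0 ≤ nM1 r L (N + 2) y := Finset.sum_nonneg fun n _ => nU_nonneg r hL0 _ _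
  have p3 := nU_nonneg r hL0 (x 0) (y 0)
  have p4 := n1_nonneg hL0 (z 0)
  have p5 : 0 ≤ ∑ n ∈ Finset.range (N + 2 + 1), n1 L (z n) :=
    Finset.sum_nonneg fun n _ => n1_nonneg hL0 _
  rw [Finset.sum_add_distrib]
  unfold nM3
  linarith

/-- The norm in terms of the modes. -/
theorem norm_le (hNU : S_NU) (hNT : S_NT) (hCh : S_Char) : ∃ C : ℝ, 0 < C ∧
    ∀ (S : Sys) (j : ℕ) (a b : ℤ) (W : Win3 S j a b) (R : Finset GI) (t : ℤ → GI → T3) (N : ℕ),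
    S.ok → RepS j R → (j + 2 : ℝ) ≤ 4 * LL j → W.Na ≤ N → W.Nb ≤ N → (∀ k, t k 0 = 0) →
    ∑ K ∈ Finset.Icc (a - 1) (b + 1 + 1), nT S (syn S j (Rk W R) t) K ≤
      C * ∑ κ ∈ R, nM3 ‖thq j κ‖ (LL j) (N + 2) (fun n => t (W.kc n) κ) (fun n => t (W.kf n) κ)
        (fun n => t (W.kf n) (κ + om ^ j)) := by
  obtain ⟨C1, hC1, hU⟩ := hNU
  obtain ⟨C2, hC2, hT⟩ := hNT
  refine ⟨(C1 + C2) * 24, by positivity, fun S j a b W R t N hS hR hL hNa hNb h0 => ?_⟩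
  have hR2 := hCh.2.1 j R hR.1
  have hj : (0 : ℝ) ≤ j := Nat.cast_nonneg j
  have sq : ∀ κ ∈ R, |(thq j κ).re| ≤ π ∧ |(thq j κ).im| ≤ π := fun κ hκ => by
    rcases eq_or_ne κ 0 with rfl | h
    · simp [thq_zero, Real.pi_pos.le]
    · exact (hR.2.2 κ hκ h).2
  have hc : ∀ n ∈ Finset.range (W.Na + 1), nT S (syn S j (Rk W R) t) (W.Lc n) ≤
      (C1 + C2) * ∑ κ ∈ R, nU ‖thq j κ‖ (j + 2) (t (W.kc n) κ) (t (W.kc (n + 1)) κ) := by
    intro n hn
    have hn' : n ≤ W.Na := by simpa [Nat.lt_succ_iff] using hn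
    have s1 := W.stc n (by omega)
    have s2 := W.stc (n + 1) (by omega)
    have r1 := Rk_c W R n
    have r2 := Rk_c W R (n + 1)
    have hr : ∀ K, ∀ κ ∈ R, (t (K - 1) κ = 0 ∧ t K κ = 0) ∨ (0 < ‖thq j κ‖ ∧
        ‖thq j κ‖ ≤ 10 * ‖thq j κ‖ ∧ ∀ w : GI, ‖thq j κ‖ ≤ 10 * ‖thq j κ - 2 * π * w‖) := by
      intro K κ hκ
      rcases eq_or_ne κ 0 with rfl | h
      · exact Or.inl ⟨h0 _, h0 _⟩
      · refine Or.inr ⟨norm_pos_iff.2 (hR.2.2 κ hκ h).1, by linarith [norm_nonneg (thq j κ)],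
          fun w => ?_⟩
        have := norm_le_norm_sub _ (sq κ hκ).1 (sq κ hκ).2 w
        linarith [norm_nonneg (thq j κ)]
    have hp : 0 ≤ ∑ κ ∈ R, nU ‖thq j κ‖ (j + 2) (t (W.kc n) κ) (t (W.kc (n + 1)) κ) :=
      Finset.sum_nonneg fun κ _ => nU_nonneg _ (by linarith) _ _
    refine le_trans ?_ (mul_le_mul_of_nonneg_right (le_add_of_nonneg_right hC2.le) hp)
    rcases W.hLc n with ⟨e1, e2⟩ | ⟨e1, e2⟩
    · rw [e1] at s1 r1; rw [e2] at s2 r2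
      have := hU S (W.Lc n) j j (Rk W R) t (fun κ => ‖thq j κ‖) hS s2 s1 (Or.inl rfl)
        (by rw [r1, r2]) (by rw [r1]; exact hR.1) (by rw [r1]; exact hr _)
      rw [r1] at this
      rw [e1, e2]
      simpa only [nU_symm _ _ (t (W.Lc n) _)] using this
    · rw [e1] at s1 r1; rw [e2] at s2 r2
      have := hU S (W.Lc n) j j (Rk W R) t (fun κ => ‖thq j κ‖) hS s1 s2 (Or.inl rfl)
        (by rw [r1, r2]) (by rw [r2]; exact hR.1) (by rw [r2]; exact hr _)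
      rw [r2] at this
      rw [e1, e2]
      exact this
  have hf : ∀ n ∈ Finset.range (W.Nb + 1), nT S (syn S j (Rk W R) t) (W.Lf n) ≤
      (C1 + C2) * ∑ κ ∈ R, (nU ‖thq j κ‖ ((j + 1 : ℕ) + 2) (t (W.kf n) κ) (t (W.kf (n + 1)) κ)
        + nU 1 ((j + 1 : ℕ) + 2) (t (W.kf n) (κ + om ^ j)) (t (W.kf (n + 1)) (κ + om ^ j))) := by
    intro n hn
    have hn' : n ≤ W.Nb := by simpa [Nat.lt_succ_iff] using hn
    have s1 := W.stf n (by omega)
    have s2 := W.stf (n + 1) (by omega)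
    have r1 := Rk_f W R n
    have r2 := Rk_f W R (n + 1)
    let r : GI → ℝ := fun κ => if κ ∈ R then ‖thq j κ‖ else 1
    have hr : ∀ K, ∀ κ ∈ R2 j R, (t (K - 1) κ = 0 ∧ t K κ = 0) ∨ (0 < r κ ∧
        ‖thq (j + 1) κ‖ ≤ 10 * r κ ∧ ∀ w : GI, r κ ≤ 10 * ‖thq (j + 1) κ - 2 * π * w‖) := by
      intro K κ hκ
      rcases Finset.mem_union.1 hκ with hκ | hκ
      · rcases eq_or_ne κ 0 with rfl | h
        · exact Or.inl ⟨h0 _, h0 _⟩
        · right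
          simp only [r, if_pos hκ, (hCh.2.2.1 j κ).2.1]
          exact ⟨norm_pos_iff.2 (hR.2.2 κ hκ h).1, child1 _ (sq κ hκ).1 (sq κ hκ).2⟩
      · obtain ⟨κ', hκ', rfl⟩ := Finset.mem_image.1 hκ
        right
        simp only [r, if_neg (not_mem_shift hR.1 hκ'), (hCh.2.2.1 j κ').2.2]
        exact ⟨one_pos, child2 _ (sq κ' hκ').1 (sq κ' hκ').2⟩
    have he : ∑ κ ∈ R2 j R, nU (r κ) ((j + 1 : ℕ) + 2) (t (W.kf n) κ) (t (W.kf (n + 1)) κ)
        = ∑ κ ∈ R, (nU ‖thq j κ‖ ((j + 1 : ℕ) + 2) (t (W.kf n) κ) (t (W.kf (n + 1)) κ)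
        + nU 1 ((j + 1 : ℕ) + 2) (t (W.kf n) (κ + om ^ j)) (t (W.kf (n + 1)) (κ + om ^ j))) := by
      rw [hR2.2]
      refine Finset.sum_congr rfl fun κ hκ => ?_
      simp only [r, if_pos hκ, if_neg (not_mem_shift hR.1 hκ)]
    rw [← he]
    have hp : 0 ≤ ∑ κ ∈ R2 j R, nU (r κ) ((j + 1 : ℕ) + 2) (t (W.kf n) κ) (t (W.kf (n + 1)) κ) :=
      Finset.sum_nonneg fun κ _ => nU_nonneg _ (by positivity) _ _
    refine le_trans ?_ (mul_le_mul_of_nonneg_right (le_add_of_nonneg_right hC2.le) hp)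
    rcases W.hLf n with ⟨e1, e2⟩ | ⟨e1, e2⟩
    · rw [e1] at s1 r1; rw [e2] at s2 r2
      have := hU S (W.Lf n) (j + 1) j (Rk W R) t r hS s2 s1 (Or.inr rfl)
        (by rw [r1, r2]) (by rw [r1]; exact hR2.1) (by rw [r1]; exact hr _)
      rw [r1] at this
      rw [e1, e2]
      simpa only [nU_symm _ _ (t (W.Lf n) _)] using this
    · rw [e1] at s1 r1; rw [e2] at s2 r2
      have := hU S (W.Lf n) (j + 1) j (Rk W R) t r hS s1 s2 (Or.inr rfl)
        (by rw [r1, r2]) (by rw [r2]; exact hR2.1) (by rw [r2]; exact hr _)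
      rw [r2] at this
      rw [e1, e2]
      exact this
  have ht := hT S W.Kt (W.kc 0) (W.kf 0) j (Rk W R) t hS W.hKt (W.stc 0 (by omega))
    (W.stf 0 (by omega)) (by rw [Rk_c]; exact hR) (by rw [Rk_c, Rk_f]) (h0 _) (h0 _)
  rw [Rk_c] at ht
  have hp : 0 ≤ ∑ κ ∈ R, (nU ‖thq j κ‖ (j + 2) (t (W.kc 0) κ) (t (W.kf 0) κ)
      + n1 (j + 2) (t (W.kf 0) (κ + om ^ j))) :=
    Finset.sum_nonneg fun κ _ => add_nonneg (nU_nonneg _ (by linarith) _ _)
      (n1_nonneg (by linarith) _)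
  have ht' := ht.trans (mul_le_mul_of_nonneg_right (le_add_of_nonneg_left hC1.le) hp)
  rw [W.hsum]
  refine (add_le_add (add_le_add (Finset.sum_le_sum hc) ht') (Finset.sum_le_sum hf)).trans ?_
  rw [← Finset.mul_sum, ← Finset.mul_sum, ← mul_add, ← mul_add, mul_assoc, Finset.sum_comm,
    Finset.sum_comm (s := Finset.range _), ← Finset.sum_add_distrib, ← Finset.sum_add_distrib,
    Finset.mul_sum R _ 24]
  refine mul_le_mul_of_nonneg_left (Finset.sum_le_sum fun κ _ => ?_) (by positivity)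
  exact mode_le ‖thq j κ‖ hL hNa hNb (fun n => t (W.kc n) κ) (fun n => t (W.kf n) κ)
    (fun n => t (W.kf n) (κ + om ^ j))

theorem final_ineq {c C C1 A x X Y d : ℝ} (hc : 0 < c) (hC : 0 < C) (hC1 : 0 < C1) (hX : 0 ≤ X)
    (hd : 0 ≤ d) (hA : 0 ≤ A) (h1 : x ≤ C * X) (h2 : Y ≤ C * (C1 * X))
    (h3 : d * (c * X) ≤ A * √Y) : x * d ^ 2 ≤ C ^ 2 * C1 / c ^ 2 * A ^ 2 := by
  rcases hX.eq_or_lt with h | h
  · have : x * d ^ 2 ≤ 0 := mul_nonpos_of_nonpos_of_nonneg (by rw [← h] at h1; linarith)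
      (by positivity)
    exact this.trans (by positivity)
  have h4 : (d * (c * X)) ^ 2 ≤ A ^ 2 * (C * (C1 * X)) := by
    calc (d * (c * X)) ^ 2 ≤ (A * √(C * (C1 * X))) ^ 2 := by
          apply pow_le_pow_left₀ (by positivity)
          exact h3.trans (mul_le_mul_of_nonneg_left (Real.sqrt_le_sqrt h2) hA)
      _ = _ := by rw [mul_pow, Real.sq_sqrt (by positivity)]
  have h5 : X * d ^ 2 * c ^ 2 ≤ A ^ 2 * (C * C1) := by
    apply le_of_mul_le_mul_right _ h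
    nlinarith
  calc x * d ^ 2 ≤ C * X * d ^ 2 := by gcongr
    _ = C * (X * d ^ 2 * c ^ 2) / c ^ 2 := by field_simp
    _ ≤ C * (A ^ 2 * (C * C1)) / c ^ 2 := by gcongr
    _ = _ := by ring

end Pool.Agent.P.MP_cc4a10_gt.Loc3P

namespace Pool.Agent.P.MP_cc4a10_gt

open Loc3P

theorem pLoc3 (hM : S_Modes) (hFU : S_FU) (hFT : S_FT) (hNU : S_NU) (hNT : S_NT)
    (hCh : S_Char) : S_Loc3 := by
  intro E
  obtain ⟨c1, C1, j1, hc1, hC1, hM⟩ := hM E
  obtain ⟨C, hC, hN⟩ := norm_le hNU hNT hCh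
  refine ⟨C ^ 2 * C1 / c1 ^ 2, j1, by positivity, fun S j a b k0 hS hj h1 h2 hst => ?_⟩
  obtain ⟨W⟩ := exists_win S j a b k0 h1 h2 hst
  obtain ⟨R, hR⟩ := hCh.1 j
  obtain ⟨hL, -, hSt, hSt0⟩ := hM j hj
  have hR2 := hCh.2.1 j R hR.1
  have hL0 : 0 ≤ LL j := by linarith [(Nat.cast_nonneg j : (0 : ℝ) ≤ j)]
  intro v A hv hs hA hB
  obtain ⟨hh0, hinv⟩ := (hCh.2.2.2.2 S j (Rk W R)).1 v hv
  set N := max W.Na W.Nb with hNdef
  have hNa : W.Na ≤ N := le_max_left _ _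
  have hNb : W.Nb ≤ N := le_max_right _ _
  have zc : ∀ κ, Fs W.Na fun n => hat S j v (W.kc n) κ := fun κ n hn =>
    hat_zero S j v _ (hs _ (W.outc n hn)).1 (hs _ (W.outc n hn)).2 κ
  have zf : ∀ κ, Fs W.Nb fun n => hat S j v (W.kf n) κ := fun κ n hn =>
    hat_zero S j v _ (hs _ (W.outf n hn)).1 (hs _ (W.outf n hn)).2 κ
  have key : ∀ κ : GI, ∃ a' b' c' : ℕ → T3, Fs (W.Na + 1) a' ∧ Fs (W.Nb + 1) b' ∧
      Fs (W.Nb + 1) c' ∧ (κ = 0 → a' = 0 ∧ b' = 0) ∧ (κ ∈ R →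
      c1 * nM3 ‖thq j κ‖ (LL j) (N + 2) (fun n => hat S j v (W.kc n) κ)
          (fun n => hat S j v (W.kf n) κ) (fun n => hat S j v (W.kf n) (κ + om ^ j))
        ≤ (bM3 (ee E) (LL j) (LL (j + 1)) (syT E j κ) (syT E (j + 1) κ)
          (syT E (j + 1) (κ + om ^ j)) (N + 2) (fun n => hat S j v (W.kc n) κ)
          (fun n => hat S j v (W.kf n) κ) (fun n => hat S j v (W.kf n) (κ + om ^ j))
          a' b' c').re ∧
      nM3 ‖thq j κ‖ (LL j) (N + 2) a' b' c' ≤ C1 * nM3 ‖thq j κ‖ (LL j) (N + 2)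
        (fun n => hat S j v (W.kc n) κ) (fun n => hat S j v (W.kf n) κ)
        (fun n => hat S j v (W.kf n) (κ + om ^ j))) := by
    intro κ
    rcases eq_or_ne κ 0 with rfl | h0
    · obtain ⟨c', f3, i1, i2⟩ := hSt0 N W.Nb _ hNb (zf (0 + om ^ j))
      have e1 : (fun n => hat S j v (W.kc n) 0) = 0 := funext fun n => hh0 _ _ (dvd_zero _)
      have e2 : (fun n => hat S j v (W.kf n) 0) = 0 := funext fun n => hh0 _ _ (dvd_zero _)
      refine ⟨0, 0, c', fun _ _ => rfl, fun _ _ => rfl, f3, fun _ => ⟨rfl, rfl⟩, fun _ => ?_⟩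
      rw [e1, e2, thq_zero, norm_zero]
      exact ⟨i1, i2⟩
    · by_cases hκ : κ ∈ R
      · obtain ⟨a', b', c', f1, f2, f3, i1, i2⟩ := (hSt κ (hR.2.2 κ hκ h0)).2 N W.Na W.Nb _ _ _
          hNa hNb (zc κ) (zf κ) (zf (κ + om ^ j))
        exact ⟨a', b', c', f1, f2, f3, fun h => absurd h h0, fun _ => ⟨i1, i2⟩⟩
      · exact ⟨0, 0, 0, fun _ _ => rfl, fun _ _ => rfl, fun _ _ => rfl, fun _ => ⟨rfl, rfl⟩,
          fun h => absurd h hκ⟩
  choose a' b' c' f1 f2 f3 f0 hi using key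
  let t : ℤ → GI → T3 := fun k κ => if W.isC k then a' κ (W.idx k)
    else if κ ∈ R then b' κ (W.idx k) else c' (κ - om ^ j) (W.idx k)
  have tc : ∀ n κ, t (W.kc n) κ = a' κ n := fun n κ => by simp [t, W.cC n]
  have tf : ∀ n, ∀ κ ∈ R, t (W.kf n) κ = b' κ n := fun n κ hκ => by simp [t, W.cF n, hκ]
  have tg : ∀ n, ∀ κ ∈ R, t (W.kf n) (κ + om ^ j) = c' κ n := fun n κ hκ => by
    simp [t, W.cF n, not_mem_shift hR.1 hκ]
  have t0 : ∀ k, t k 0 = 0 := fun k => by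
    rcases W.cov k with ⟨n, rfl⟩ | ⟨n, rfl⟩
    · rw [tc, (f0 0 rfl).1]; rfl
    · rw [tf n 0 hR.2.1, (f0 0 rfl).2]; rfl
  have oc : ∀ n, W.Na + 1 ≤ n → ∀ κ, t (W.kc n) κ = 0 := fun n hn κ => by
    rw [tc]; exact f1 κ n hn
  have of : ∀ n, W.Nb + 1 ≤ n → ∀ κ, t (W.kf n) κ = 0 := fun n hn κ => by
    simp only [t, W.cF n, Bool.false_eq_true, if_false]
    split_ifs
    · exact f2 κ n hn
    · exact f3 _ n hn
  have hadm : Adm S (syn S j (Rk W R) t) := by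
    refine (hCh.2.2.2.2 S j (Rk W R)).2 t fun k κ hκ hd => ?_
    rcases W.cov k with ⟨n, rfl⟩ | ⟨n, rfl⟩
    · by_cases hn : n ≤ W.Na
      · rw [Rk_c] at hκ
        rw [W.stc n (by omega)] at hd
        rw [hR.1.1 κ hκ 0 hR.2.1 (by simpa using hd)]; exact t0 _
      · exact oc n (by omega) κ
    · by_cases hn : n ≤ W.Nb
      · rw [Rk_f] at hκ
        rw [W.stf n (by omega)] at hd
        rw [hR2.1.1 κ hκ 0 (Finset.mem_union_left _ hR.2.1) (by simpa using hd)]; exact t0 _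
      · exact of n (by omega) κ
  have hsupp : Supp (a - 1) (b + 1) (syn S j (Rk W R) t) := by
    intro k hk
    apply syn_zero
    rcases W.cov k with ⟨n, rfl⟩ | ⟨n, rfl⟩
    · refine oc n ?_
      by_contra hn
      have := W.inc n (by omega); omega
    · refine of n ?_
      by_contra hn
      have := W.inf n (by omega); omega
  have hB1 := (le_abs_self _).trans (hB _ hadm hsupp)
  rw [form_eq hFU hFT hCh E hS W hR.1 hv hs t hNa hNb] at hB1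
  have hN1 := hN S j a b W R t N hS hR hL hNa hNb t0
  have hN2 := hN S j a b W R (hat S j v) N hS hR hL hNa hNb fun k => hh0 k 0 (dvd_zero _)
  have inv : ∀ k, ((∃ n, n ≤ W.Na + 1 ∧ k = W.kc n) ∨ ∃ n, n ≤ W.Nb + 1 ∧ k = W.kf n) →
      (syn S j (Rk W R) (hat S j v)).1 k = v.1 k ∧ (syn S j (Rk W R) (hat S j v)).2 k = v.2 k := by
    rintro k (⟨n, hn, rfl⟩ | ⟨n, hn, rfl⟩)
    · exact hinv _ (by rw [Rk_c, W.stc n hn]; exact hR.1)
    · exact hinv _ (by rw [Rk_f, W.stf n hn]; exact hR2.1)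
  have lev : ∀ K, ((∃ n, n ≤ W.Na + 1 ∧ K - 1 = W.kc n) ∨ ∃ n, n ≤ W.Nb + 1 ∧ K - 1 = W.kf n) →
      ((∃ n, n ≤ W.Na + 1 ∧ K = W.kc n) ∨ ∃ n, n ≤ W.Nb + 1 ∧ K = W.kf n) →
      nT S (syn S j (Rk W R) (hat S j v)) K = nT S v K := fun K p q =>
    nT_congr S _ _ K (inv _ p).1 (inv _ q).1 (inv _ p).2 (inv _ q).2
  have heq : ∑ K ∈ Finset.Icc (a - 1) (b + 1 + 1), nT S (syn S j (Rk W R) (hat S j v)) K
      = ∑ K ∈ Finset.Icc (a - 1) (b + 1 + 1), nT S v K := by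
    rw [W.hsum, W.hsum]
    congr 1
    · congr 1
      · refine Finset.sum_congr rfl fun n hn => ?_
        have hn' : n ≤ W.Na := by simpa [Nat.lt_succ_iff] using hn
        rcases W.hLc n with ⟨e1, e2⟩ | ⟨e1, e2⟩
        · exact lev _ (Or.inl ⟨n + 1, by omega, e2.symm⟩) (Or.inl ⟨n, by omega, e1.symm⟩)
        · exact lev _ (Or.inl ⟨n, by omega, e1.symm⟩) (Or.inl ⟨n + 1, by omega, e2.symm⟩)
      · rcases W.hKt with ⟨e1, e2⟩ | ⟨e1, e2⟩
        · exact lev _ (Or.inl ⟨0, by omega, e1.symm⟩) (Or.inr ⟨0, by omega, e2.symm⟩)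
        · exact lev _ (Or.inr ⟨0, by omega, e2.symm⟩) (Or.inl ⟨0, by omega, e1.symm⟩)
    · refine Finset.sum_congr rfl fun n hn => ?_
      have hn' : n ≤ W.Nb := by simpa [Nat.lt_succ_iff] using hn
      rcases W.hLf n with ⟨e1, e2⟩ | ⟨e1, e2⟩
      · exact lev _ (Or.inr ⟨n + 1, by omega, e2.symm⟩) (Or.inr ⟨n, by omega, e1.symm⟩)
      · exact lev _ (Or.inr ⟨n, by omega, e1.symm⟩) (Or.inr ⟨n + 1, by omega, e2.symm⟩)
  rw [heq] at hN2
  have ea : ∀ κ, (fun n => t (W.kc n) κ) = a' κ := fun κ => funext fun n => tc n κ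
  have eb : ∀ κ ∈ R, (fun n => t (W.kf n) κ) = b' κ := fun κ hκ => funext fun n => tf n κ hκ
  have ec : ∀ κ ∈ R, (fun n => t (W.kf n) (κ + om ^ j)) = c' κ :=
    fun κ hκ => funext fun n => tg n κ hκ
  rw [show dd j ^ 4 = (((2 : ℝ) ^ j)⁻¹) ^ 2 by rw [← dd_sq]; ring]
  refine final_ineq hc1 hC hC1 (Finset.sum_nonneg fun κ _ => nM3_nonneg _ hL0 _ _ _ _)
    (by positivity) hA hN2 (hN1.trans ?_) (le_trans ?_ hB1)
  · refine mul_le_mul_of_nonneg_left ?_ hC.le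
    rw [Finset.mul_sum]
    refine Finset.sum_le_sum fun κ hκ => ?_
    rw [ea, eb κ hκ, ec κ hκ]; exact (hi κ hκ).2
  · refine mul_le_mul_of_nonneg_left ?_ (by positivity)
    rw [Finset.mul_sum]
    refine Finset.sum_le_sum fun κ hκ => ?_
    rw [ea, eb κ hκ, ec κ hκ]; exact (hi κ hκ).1

end Pool.Agent.P.MP_cc4a10_gt
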