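import Pool.Agent.P.MP_cc4a10_gt.St

/-!
Low frequency bounds for the symbols.
-/

open Set Filter Topology Complex Metric
open scoped ComplexConjugate Real

noncomputable section

namespace Pool.Agent.P.MP_cc4a10_gt.LowPk

open Pool.Agent.P.MP_cc4a10_gt

theorem norm_kp_sq : ‖kp‖ ^ 2 = 1 / 2 := by
  rw [Complex.sq_norm, Complex.normSq_apply]
  simp [kp]
  norm_num

theorem norm_kp_le : ‖kp‖ ≤ 1 := by
  nlinarith [norm_kp_sq, norm_nonneg kp]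

theorem half_le_norm_kp : 1 / 2 ≤ ‖kp‖ := by
  nlinarith [norm_kp_sq, norm_nonneg kp]

theorem kp_ne : kp ≠ 0 := by
  intro h
  have := half_le_norm_kp
  rw [h, norm_zero] at this
  linarith

theorem wq_eq : wq = ((√2 / 2 : ℝ) : ℂ) + ((√2 / 2 : ℝ) : ℂ) * I := by
  have h : (π / 4 : ℂ) = ((π / 4 : ℝ) : ℂ) := by push_cast; ring
  rw [wq, h, Complex.exp_mul_I, ← Complex.ofReal_cos, ← Complex.ofReal_sin, Real.cos_pi_div_four,
    Real.sin_pi_div_four]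

theorem wq_re : wq.re = √2 / 2 := by rw [wq_eq]; simp

theorem norm_wq : ‖wq‖ = 1 := by
  have h : (π / 4 : ℂ) = ((π / 4 : ℝ) : ℂ) := by push_cast; ring
  rw [wq, h, Complex.norm_exp_ofReal_mul_I]

theorem np_of_small {θ : ℂ} (h0 : θ ≠ 0) (h1 : ‖θ‖ ≤ 1) : NP θ := by
  intro w hw
  have hw0 : w ≠ 0 := by
    rintro rfl
    apply h0
    simpa using hw
  have h2 : (1 : ℝ) ≤ ‖(w : ℂ)‖ := by
    have h3 : (1 : ℤ) ≤ w.norm := by
      have := (GaussianInt.norm_pos (x := w)).2 hw0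
      omega
    have h4 : (1 : ℝ) ≤ Complex.normSq (w : ℂ) := by
      rw [← GaussianInt.intCast_real_norm]
      exact_mod_cast h3
    rw [Complex.normSq_eq_norm_sq] at h4
    nlinarith [norm_nonneg (w : ℂ)]
  have h5 : ‖θ‖ = 2 * π * ‖(w : ℂ)‖ := by
    rw [hw, norm_mul, norm_mul]
    simp [abs_of_pos Real.pi_pos]
  nlinarith [Real.pi_gt_three]

theorem sq_of_small {θ : ℂ} (h0 : θ ≠ 0) (h1 : ‖θ‖ ≤ 1) : Sq θ :=
  ⟨h0, (Complex.abs_re_le_norm θ).trans (by linarith [Real.pi_gt_three]),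
    (Complex.abs_im_le_norm θ).trans (by linarith [Real.pi_gt_three])⟩

theorem norm_beta {θ : ℂ} (h0 : θ ≠ 0) : ‖(π : ℂ) * conj θ / θ‖ = π := by
  rw [norm_div, norm_mul, Complex.norm_conj]
  have : ‖θ‖ ≠ 0 := norm_ne_zero_iff.2 h0
  simp [abs_of_pos Real.pi_pos]
  field_simp

theorem lo_aux {θ B w : ℂ} (hw : ‖w‖ = 1) (hre : w.re = √2 / 2) (h1 : ‖θ‖ ≤ 1 / 10)
    (hB : ‖B - (2735 / 10000 * ‖θ‖ ^ 2 + conj θ ^ 2 / 8)‖ ≤ (1 / 100 + ‖θ‖ ^ 2 / 40) * ‖θ‖ ^ 2) :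
    1 / 20 * ‖θ‖ ^ 2 ≤ (w * B).re := by
  have e1 : w * B = w * (B - (2735 / 10000 * ‖θ‖ ^ 2 + conj θ ^ 2 / 8))
      + ((2735 / 10000 * ‖θ‖ ^ 2 : ℝ) : ℂ) * w + w * (conj θ ^ 2 / 8) := by
    push_cast; ring
  have e2 : |(w * (B - (2735 / 10000 * ‖θ‖ ^ 2 + conj θ ^ 2 / 8))).re|
      ≤ (1 / 100 + ‖θ‖ ^ 2 / 40) * ‖θ‖ ^ 2 := by
    refine (Complex.abs_re_le_norm _).trans ?_
    rw [norm_mul, hw, one_mul]
    exact hB
  have e3 : |(w * (conj θ ^ 2 / 8)).re| ≤ ‖θ‖ ^ 2 / 8 := by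
    refine (Complex.abs_re_le_norm _).trans ?_
    rw [norm_mul, hw, one_mul, norm_div, norm_pow, Complex.norm_conj]
    simp
  have e4 : (((2735 / 10000 * ‖θ‖ ^ 2 : ℝ) : ℂ) * w).re = 2735 / 10000 * ‖θ‖ ^ 2 * (√2 / 2) := by
    rw [Complex.re_ofReal_mul, hre]
  have e5 : (141 / 100 : ℝ) ≤ √2 := Real.le_sqrt_of_sq_le (by norm_num)
  rw [e1, Complex.add_re, Complex.add_re, e4]
  have e6 := (abs_le.1 e2).1
  have e7 := (abs_le.1 e3).1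
  have e8 : ‖θ‖ ^ 2 ≤ 1 / 100 := by nlinarith [norm_nonneg θ]
  have e9 : 0 ≤ ‖θ‖ ^ 2 := sq_nonneg _
  nlinarith [mul_le_mul_of_nonneg_left e5 e9, mul_le_mul_of_nonneg_left e8 e9]

/-- Bounds for one small frequency. -/
theorem one (hEx : S_Ex) (hNumS : S_NumS) {e CZ : ℝ} (he : e = eE) (he7 : e ≤ 7) (he6 : 6 ≤ e)
    {θ : ℂ} (b : BD θ) (h0 : θ ≠ 0) (h1 : ‖θ‖ ≤ 1 / 10) (hC : CZ * ‖θ‖ ≤ 1)
    (hch : ‖b.sy.ch + π * conj θ / θ‖ ≤ CZ * ‖θ‖)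
    (hId : b.sy.p ^ 2 - b.sy.ch ^ 2 = Om e b.sy) :
    ‖b.sy.p + π * conj θ / θ‖ ≤ ‖θ‖ ∧ ‖b.sy.c - e + π * conj θ / θ‖ ≤ ‖θ‖ ∧
    ‖b.sy.p - b.sy.ch‖ ≤ 12 * ‖θ‖ ^ 2 ∧ ‖e + b.sy.p - b.sy.c‖ ≤ ‖θ‖ ^ 2 ∧
    1 / 20 * ‖θ‖ ^ 2 ≤ (wq * (e + b.sy.p - b.sy.c)).re ∧
    1 / 20 * ‖θ‖ ^ 2 ≤ (conj wq * (e + b.sy.p - b.sy.c)).re ∧
    ‖Om e b.sy‖ ≤ 12 * ‖θ‖ ^ 2 ∧ 2 ≤ ‖b.sy.p‖ ∧ ‖b.sy.p‖ ≤ 4 ∧ 2 ≤ ‖b.sy.ch‖ := by
  have hsq := sq_of_small h0 (h1.trans (by norm_num))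
  obtain ⟨-, hp, hc⟩ := hEx θ b (np_of_small h0 (h1.trans (by norm_num))) hsq.2.1
  obtain ⟨n1, n2⟩ := hNumS θ h0 (h1.trans (by norm_num))
  rw [← hp] at n1
  rw [← hp, ← hc, ← he] at n2
  have hβ := norm_beta h0
  set β : ℂ := π * conj θ / θ with hβd
  set p := b.sy.p
  set c := b.sy.c
  set ch := b.sy.ch
  have r0 := norm_nonneg θ
  have r2 : ‖θ‖ ^ 2 ≤ ‖θ‖ / 10 := by nlinarith
  have r3 : ‖θ‖ ^ 2 ≤ 1 / 100 := by nlinarith
  have r4 : 0 ≤ ‖θ‖ ^ 2 := sq_nonneg _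
  have pi3 := Real.pi_gt_three
  have pi4 := Real.pi_lt_d2
  have hB : ‖(e : ℂ) + p - c‖ ≤ ‖θ‖ ^ 2 / 2 := by
    have t1 : ‖((2735 / 10000 * ‖θ‖ ^ 2 + conj θ ^ 2 / 8 : ℂ))‖
        ≤ 2735 / 10000 * ‖θ‖ ^ 2 + ‖θ‖ ^ 2 / 8 := by
      refine (norm_add_le _ _).trans (le_of_eq ?_)
      rw [norm_mul, norm_pow, norm_div, norm_div, norm_pow, Complex.norm_conj]
      simp
    have t2 := norm_add_le ((e : ℂ) + p - c - (2735 / 10000 * ‖θ‖ ^ 2 + conj θ ^ 2 / 8))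
      (2735 / 10000 * ‖θ‖ ^ 2 + conj θ ^ 2 / 8)
    rw [sub_add_cancel] at t2
    nlinarith [mul_le_mul_of_nonneg_left r3 r4]
  have hp4 : ‖p‖ ≤ 4 := by
    have t := norm_sub_le (p + β) β
    rw [add_sub_cancel_right] at t
    linarith
  have hp2 : 2 ≤ ‖p‖ := by
    have t := norm_sub_le (p + β) p
    rw [add_sub_cancel_left] at t
    linarith
  have hch2 : 2 ≤ ‖ch‖ := by
    have t := norm_sub_le (ch + β) ch
    rw [add_sub_cancel_left] at t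
    linarith
  have hne : ‖(e : ℂ)‖ ≤ 7 := by
    rw [Complex.norm_real, Real.norm_eq_abs, abs_of_nonneg (by linarith)]
    exact he7
  have hA : ‖(e : ℂ) + p + c‖ ≤ 23 := by
    have t : (e : ℂ) + p + c = (e + p) + (e + p) - (e + p - c) := by ring
    rw [t]
    have t1 := norm_sub_le (((e : ℂ) + p) + (e + p)) (e + p - c)
    have t2 := norm_add_le ((e : ℂ) + p) (e + p)
    have t3 := norm_add_le (e : ℂ) p
    linarith
  have hOm : ‖Om e b.sy‖ ≤ 12 * ‖θ‖ ^ 2 := by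
    have t : Om e b.sy = ((e : ℂ) + p + c) * (e + p - c) := by
      simp only [Om, p, c]; ring
    rw [t, norm_mul]
    have := mul_le_mul hA hB (norm_nonneg _) (by norm_num)
    linarith
  have hS : 1 ≤ ‖p + ch‖ := by
    have t : (2 : ℂ) * β = (p + β) + (ch + β) - (p + ch) := by ring
    have t1 := norm_sub_le ((p + β) + (ch + β)) (p + ch)
    have t2 := norm_add_le (p + β) (ch + β)
    rw [← t, norm_mul, hβ] at t1
    simp only [Complex.norm_ofNat] at t1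
    linarith
  have hD : ‖p - ch‖ ≤ 12 * ‖θ‖ ^ 2 := by
    have t : (p - ch) * (p + ch) = Om e b.sy := by rw [← hId]; ring
    have t1 : ‖p - ch‖ * ‖p + ch‖ ≤ 12 * ‖θ‖ ^ 2 := by rw [← norm_mul, t]; exact hOm
    nlinarith [norm_nonneg (p - ch)]
  refine ⟨by linarith, ?_, hD, by linarith, lo_aux norm_wq wq_re h1 n2,
    lo_aux (by rw [Complex.norm_conj, norm_wq]) (by rw [Complex.conj_re, wq_re]) h1 n2,
    hOm, hp2, hp4, hch2⟩
  have t : c - e + β = (p + β) - (e + p - c) := by ring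
  rw [t]
  have t1 := norm_sub_le (p + β) (e + p - c)
  linarith

theorem asy_mono {C C' : ℝ} {θ : ℂ} {s : Sy} (h : Asy C θ s) (hC : C ≤ C') : Asy C' θ s := by
  have t : C * ‖θ‖ ≤ C' * ‖θ‖ := mul_le_mul_of_nonneg_right hC (norm_nonneg _)
  exact ⟨h.z0.trans t, h.z1.trans t, h.zh.trans t, h.g0.trans hC, h.g1.trans hC, h.gh.trans hC⟩

theorem bd_mono {C C' : ℝ} {s : Sy} (h : Bd C s) (hC : C ≤ C') : Bd C' s := by
  obtain ⟨a1, a2, a3, a4, a5, a6, a7, a8, a9⟩ := h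
  exact ⟨a1.trans hC, a2.trans hC, a3.trans hC, a4.trans hC, a5.trans hC, a6.trans hC,
    a7.trans hC, a8.trans hC, a9.trans hC⟩

theorem far {θ : ℂ} (h1 : ‖θ‖ ≤ 1) (w : GI) : 1 ≤ ‖θ + π * (1 - I) - 2 * π * w‖ := by
  have t1 : |((π : ℂ) * (1 - I) - 2 * π * w).re| = π * |((1 - 2 * w.re : ℤ) : ℝ)| := by
    have : ((π : ℂ) * (1 - I) - 2 * π * w).re = π * ((1 - 2 * w.re : ℤ) : ℝ) := by
      have hw : ((w : GI) : ℂ).re = w.re := (GaussianInt.intCast_re w).symm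
      simp only [Complex.sub_re, Complex.mul_re, Complex.ofReal_re, Complex.ofReal_im,
        Complex.one_re, Complex.I_re, Complex.re_ofNat, Complex.im_ofNat, Complex.mul_im, hw]
      push_cast
      ring
    rw [this, abs_mul, abs_of_pos Real.pi_pos]
  have t2 : (1 : ℝ) ≤ |((1 - 2 * w.re : ℤ) : ℝ)| := by
    rw [← Int.cast_abs]
    have : (1 : ℤ) ≤ |1 - 2 * w.re| := Int.one_le_abs (by omega)
    exact_mod_cast this
  have t3 := Complex.abs_re_le_norm ((π : ℂ) * (1 - I) - 2 * π * w)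
  have t4 := norm_sub_le (θ + π * (1 - I) - 2 * π * w) θ
  have t5 : θ + π * (1 - I) - 2 * π * w - θ = (π : ℂ) * (1 - I) - 2 * π * w := by ring
  rw [t5] at t4
  nlinarith [Real.pi_gt_three]

end Pool.Agent.P.MP_cc4a10_gt.LowPk

namespace Pool.Agent.P.MP_cc4a10_gt

open LowPk

theorem pLow (hEx : S_Ex) (hEx0 : S_Ex0) (hNumS : S_NumS) (hAsy : S_Asy) (hAsyZ : S_AsyZ)
    (hId : S_Id) : S_Low := by
  intro E
  obtain ⟨he, -, he6, he7⟩ := hEx0 E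
  obtain ⟨⟨CA, hCA, hA⟩, hB⟩ := hAsy
  obtain ⟨CB, hCB, hB⟩ := hB 1 one_pos
  obtain ⟨CZ, hCZ, hZ⟩ := hAsyZ
  obtain ⟨hId1, hId2⟩ := hId E
  have he7' : ee E ≤ 7 := by rw [he]; linarith
  have he6' : 6 ≤ ee E := by rw [he]; linarith
  refine ⟨3 * CA + CB + 20, 1 / 20, min (1 / 10) (1 / CZ), by positivity, by norm_num,
    by positivity, ?_⟩
  intro θ b h0 hr
  have key : ∀ (φ : ℂ) (a : BD φ), φ ≠ 0 → ‖φ‖ ≤ min (1 / 10) (1 / CZ) → _ := fun φ a g0 gr =>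
    one hEx hNumS he he7' he6' a g0 (gr.trans (min_le_left _ _))
      (by
        have := gr.trans (min_le_right _ _)
        rw [le_div_iff₀ hCZ] at this
        linarith)
      (hZ φ a (sq_of_small g0 ((gr.trans (min_le_left _ _)).trans (by norm_num)))).2.2.2.1
      (hId1 φ a (np_of_small g0 ((gr.trans (min_le_left _ _)).trans (by norm_num)))).1
  have h1 : ‖θ‖ ≤ 1 / 10 := hr.trans (min_le_left _ _)
  have r0 := norm_nonneg θ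
  have r2 : ‖θ‖ ^ 2 ≤ ‖θ‖ / 10 := by nlinarith
  have r3 : ‖θ‖ ^ 2 ≤ 1 / 100 := by nlinarith
  have r4 : 0 ≤ ‖θ‖ ^ 2 := sq_nonneg _
  have hC1 : 20 * ‖θ‖ ≤ (3 * CA + CB + 20) * ‖θ‖ :=
    mul_le_mul_of_nonneg_right (by linarith) r0
  have hC2 : 20 * ‖θ‖ ^ 2 ≤ (3 * CA + CB + 20) * ‖θ‖ ^ 2 :=
    mul_le_mul_of_nonneg_right (by linarith) r4
  obtain ⟨a1, a2, a3, a4, a5, a6, a7, a8, a9, a10⟩ := key θ b h0 hr
  have hAs := hA θ b (sq_of_small h0 (h1.trans (by norm_num)))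
  refine ⟨⟨asy_mono hAs (by linarith), by linarith, by linarith, by linarith, by linarith,
    a5, a6⟩, ?_⟩
  intro b1 b2
  have h01 : θ * kp ≠ 0 := mul_ne_zero h0 kp_ne
  have hn1 : ‖θ * kp‖ ≤ ‖θ‖ := by
    rw [norm_mul]
    exact mul_le_of_le_one_right r0 norm_kp_le
  have hn2 : ‖θ * kp‖ ^ 2 ≤ ‖θ‖ ^ 2 := pow_le_pow_left₀ (norm_nonneg _) hn1 2
  obtain ⟨-, -, c3, -, -, -, c7, c8, c9, c10⟩ := key (θ * kp) b1 h01 (hn1.trans hr)
  have hAs1 := hA (θ * kp) b1 (sq_of_small h01 (hn1.trans (h1.trans (by norm_num))))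
  obtain ⟨i1, i2, i3, i4, i5⟩ := hId2 θ b b1 b2 (np_of_small h0 (h1.trans (by norm_num)))
  have hne : ‖((ee E : ℝ) : ℂ)‖ ≤ 7 := by
    rw [Complex.norm_real, Real.norm_eq_abs, abs_of_nonneg (by linarith)]
    exact he7'
  have hp2 : ‖b2.sy.p‖ ≤ 2 * ‖θ‖ ^ 2 := by
    rw [i2, norm_mul, norm_mul] at a7
    simp only [norm_neg, Complex.norm_ofNat] at a7
    nlinarith [norm_nonneg b2.sy.p]
  have hd : ‖b1.sy.ch - b1.sy.p - b2.sy.p‖ ≤ 14 * ‖θ‖ ^ 2 := by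
    have t := norm_sub_le (b1.sy.ch - b1.sy.p) b2.sy.p
    rw [norm_sub_rev b1.sy.ch] at t
    linarith
  refine ⟨bd_mono (hB _ b2 (far (hn1.trans (h1.trans (by norm_num))))) (by linarith),
    by linarith, ?_, ?_, ?_, ?_⟩
  · have t : b2.sy.c ^ 2 = 2 * (ee E : ℂ) * b2.sy.p + b2.sy.p * b2.sy.p
        - 2 * b1.sy.p * b2.sy.p + Om (ee E) b1.sy := by
      have u : Om (ee E) b2.sy = ((ee E : ℂ) + b2.sy.p) ^ 2 - b2.sy.c ^ 2 := rfl
      linear_combination u - i4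
    have t1 : ‖2 * (ee E : ℂ) * b2.sy.p‖ ≤ 28 * ‖θ‖ ^ 2 := by
      rw [norm_mul, norm_mul]
      simp only [Complex.norm_ofNat]
      have := mul_le_mul hne hp2 (norm_nonneg _) (by norm_num)
      linarith
    have t2 : ‖b2.sy.p * b2.sy.p‖ ≤ ‖θ‖ ^ 2 := by
      rw [norm_mul]
      have : ‖b2.sy.p‖ ≤ 1 / 2 := by linarith
      have := mul_le_mul this hp2 (norm_nonneg _) (by norm_num)
      linarith
    have t3 : ‖2 * b1.sy.p * b2.sy.p‖ ≤ 16 * ‖θ‖ ^ 2 := by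
      rw [norm_mul, norm_mul]
      simp only [Complex.norm_ofNat]
      have := mul_le_mul c9 hp2 (norm_nonneg _) (by norm_num)
      linarith
    have t4 : ‖b2.sy.c‖ ^ 2 ≤ (8 * ‖θ‖) ^ 2 := by
      rw [← norm_pow, t]
      have u1 := norm_add_le (2 * (ee E : ℂ) * b2.sy.p + b2.sy.p * b2.sy.p
        - 2 * b1.sy.p * b2.sy.p) (Om (ee E) b1.sy)
      have u2 := norm_sub_le (2 * (ee E : ℂ) * b2.sy.p + b2.sy.p * b2.sy.p)
        (2 * b1.sy.p * b2.sy.p)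
      have u3 := norm_add_le (2 * (ee E : ℂ) * b2.sy.p) (b2.sy.p * b2.sy.p)
      nlinarith
    have t5 : ‖b2.sy.c‖ ≤ 8 * ‖θ‖ := abs_le_of_sq_le_sq' t4 (by positivity) |>.2
    linarith
  · have t : ((ee E : ℂ) - I * b2.sy.ch) * b1.sy.ch
        = ee E * (b1.sy.ch - b1.sy.p - b2.sy.p) := by
      linear_combination (-I) * i3 + (-I * ee E) * i1
        + (ee E * (b1.sy.p + b2.sy.p)) * I_mul_I
    have t1 : ‖(ee E : ℂ) - I * b2.sy.ch‖ * ‖b1.sy.ch‖ ≤ 7 * (14 * ‖θ‖ ^ 2) := by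
      rw [← norm_mul, t, norm_mul]
      exact mul_le_mul hne hd (norm_nonneg _) (by norm_num)
    nlinarith [norm_nonneg ((ee E : ℂ) - I * b2.sy.ch)]
  · have t : kp * b2.sy.zh = kp * (b1.sy.zh + 2 * π * I / (θ * kp))
        - (b.sy.z1 + 2 * π * I / θ) := by
      have u : kp * (2 * π * I / (θ * kp)) = 2 * π * I / θ := by
        have := kp_ne
        field_simp
      linear_combination i5 - u
    have t1 : ‖kp‖ * ‖b2.sy.zh‖ ≤ ‖kp‖ * (CA * ‖θ‖) + CA * ‖θ‖ := by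
      rw [← norm_mul, t]
      refine (norm_sub_le _ _).trans (add_le_add ?_ hAs.z1)
      rw [norm_mul]
      exact mul_le_mul_of_nonneg_left (hAs1.zh.trans (mul_le_mul_of_nonneg_left hn1 hCA.le))
        (norm_nonneg _)
    have t2 : 0 ≤ CA * ‖θ‖ := by positivity
    have t3 : ‖b2.sy.zh‖ ≤ 3 * (CA * ‖θ‖) := by
      by_contra hcon
      rw [not_le] at hcon
      nlinarith [half_le_norm_kp]
    have t4 : 0 ≤ (CB + 20) * ‖θ‖ := by positivity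
    nlinarith
  · have t : b.sy.p + I * b1.sy.ch = I * (b1.sy.ch - b1.sy.p - b2.sy.p) := by
      linear_combination i1
    rw [t, norm_mul, Complex.norm_I, one_mul]
    linarith

end Pool.Agent.P.MP_cc4a10_gt
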