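import Pool.Agent.P.MP_cc4a10_gt.St

/-!
Low frequency coercivity of one uniform level and of one chain.
-/

open Set Filter Topology Complex Metric
open scoped ComplexConjugate Real

noncomputable section

namespace Pool.Agent.P.MP_cc4a10_gt

namespace LvlP

lemma norm_wq : ‖wq‖ = 1 := by
  have := norm_exp_ofReal_mul_I (π / 4)
  simpa [wq] using this

lemma wq_re : wq.re = √2 / 2 := by
  have := exp_ofReal_mul_I_re (π / 4)
  rw [Real.cos_pi_div_four] at this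
  simpa [wq] using this

lemma wq_im : wq.im = √2 / 2 := by
  have := exp_ofReal_mul_I_im (π / 4)
  rw [Real.sin_pi_div_four] at this
  simpa [wq] using this

/-- Cross term. -/
def cr (w z u s : ℂ) : ℂ := w * z * conj u * s + z * conj s * u
/-- Error term. -/
def er (w d u s : ℂ) : ℂ := d / 2 * (w * conj u * s + conj s * u)

lemma cr_le (w z u s : ℂ) : |(cr w z u s).re| ≤ ‖w * z + conj z‖ * (‖u‖ * ‖s‖) := by
  have e : (cr w z u s).re = ((w * z + conj z) * (conj u * s)).re := by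
    simp [cr]
    ring
  rw [e]
  refine (abs_re_le_norm _).trans ?_
  simp

lemma er_le {w : ℂ} (hw : ‖w‖ = 1) (d u s : ℂ) : |(er w d u s).re| ≤ ‖d‖ * (‖u‖ * ‖s‖) := by
  refine (abs_re_le_norm _).trans ?_
  have h : ‖w * conj u * s + conj s * u‖ ≤ 2 * (‖u‖ * ‖s‖) := by
    refine (norm_add_le _ _).trans (le_of_eq ?_)
    simp [hw]
    ring
  rw [er, norm_mul, norm_div]
  simp only [Complex.norm_ofNat]
  nlinarith [norm_nonneg d]

lemma re_sq (w z : ℂ) : (w * (z * conj z)).re = w.re * ‖z‖ ^ 2 := by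
  rw [mul_conj', ← ofReal_pow, re_mul_ofReal]

lemma expand (D c z0 z1 g g1 : ℂ) (A B : T3) :
    bU D c z0 z1 g g1 A B (TL A) (TL B) =
      wq * c / 2 * ((A.x - B.x) * conj (A.x - B.x))
      + conj (wq * c / 2) * ((A.X - B.X) * conj (A.X - B.X))
      + wq * (D - c) / 2 * (A.x * conj A.x) + wq * (D - c) / 2 * (B.x * conj B.x)
      + conj (wq * (D - c) / 2) * (A.X * conj A.X) + conj (wq * (D - c) / 2) * (B.X * conj B.X)
      - g1 * ((A.s - B.s) * conj (A.s - B.s))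
      - (g - g1) * (A.s * conj A.s) - (g - g1) * (B.s * conj B.s)
      + cr wq z1 (A.x - B.x) (A.s - B.s) / 2
      - cr (conj wq) (conj z1) (A.X - B.X) (A.s - B.s) / 2
      + er wq (z0 - z1) A.x A.s + er wq (z0 - z1) B.x B.s
      - er (conj wq) (conj (z0 - z1)) A.X A.s - er (conj wq) (conj (z0 - z1)) B.X B.s := by
  simp only [bU, bU1, tp, TL, cr, er, map_mul, map_sub, map_neg, map_div₀, conj_conj, map_ofNat]
  ring

lemma lower (D c z0 z1 g g1 : ℂ) (A B : T3) :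
    (wq * c).re / 2 * (‖A.x - B.x‖ ^ 2 + ‖A.X - B.X‖ ^ 2)
      + (wq * (D - c)).re / 2 * (‖A.x‖ ^ 2 + ‖A.X‖ ^ 2 + ‖B.x‖ ^ 2 + ‖B.X‖ ^ 2)
      - g1.re * ‖A.s - B.s‖ ^ 2 - (g - g1).re * (‖A.s‖ ^ 2 + ‖B.s‖ ^ 2)
      - ‖wq * z1 + conj z1‖ * (‖A.x - B.x‖ * ‖A.s - B.s‖) / 2
      - ‖wq * z1 + conj z1‖ * (‖A.X - B.X‖ * ‖A.s - B.s‖) / 2
      - ‖z0 - z1‖ * (‖A.x‖ * ‖A.s‖ + ‖B.x‖ * ‖B.s‖ + ‖A.X‖ * ‖A.s‖ + ‖B.X‖ * ‖B.s‖)
      ≤ (bU D c z0 z1 g g1 A B (TL A) (TL B)).re := by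
  have n2 : ‖conj wq‖ = 1 := by rw [norm_conj, norm_wq]
  have c1 := abs_le.1 (cr_le wq z1 (A.x - B.x) (A.s - B.s))
  have c2 := abs_le.1 (cr_le (conj wq) (conj z1) (A.X - B.X) (A.s - B.s))
  rw [← map_mul, ← map_add, norm_conj] at c2
  have e1 := abs_le.1 (er_le norm_wq (z0 - z1) A.x A.s)
  have e2 := abs_le.1 (er_le norm_wq (z0 - z1) B.x B.s)
  have e3 := abs_le.1 (er_le n2 (conj (z0 - z1)) A.X A.s)
  have e4 := abs_le.1 (er_le n2 (conj (z0 - z1)) B.X B.s)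
  rw [norm_conj] at e3 e4
  rw [expand]
  simp only [add_re, sub_re (_ + _), sub_re (_ - _ * _), sub_re (_ - er _ _ _ _), re_sq, conj_re,
    div_ofNat_re]
  nlinarith [c1.1, c2.2, e1.1, e2.1, e3.2, e4.2]

lemma kap {θ : ℂ} (h : θ ≠ 0) :
    (‖wq * (-(2 * π * I / θ)) + conj (-(2 * π * I / θ))‖ * ‖θ‖) ^ 2
      = 8 * π ^ 2 * (1 - (wq * (conj θ / θ)).re) := by
  have hc : conj θ ≠ 0 := by simpa using h
  have n : ‖wq * (conj θ / θ)‖ = 1 := by
    rw [norm_mul, norm_wq, norm_div, norm_conj, div_self (norm_ne_zero_iff.2 h), one_mul]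
  have e : (wq * (-(2 * π * I / θ)) + conj (-(2 * π * I / θ))) * conj θ
      = (2 * π * I) * (1 - wq * (conj θ / θ)) := by
    simp only [map_neg, map_div₀, map_mul, conj_ofReal, conj_I, map_ofNat]
    field_simp
    ring
  rw [← norm_conj θ, ← norm_mul, e, norm_mul, mul_pow]
  have a : ‖(2 * π * I : ℂ)‖ ^ 2 = 4 * π ^ 2 := by
    simp [mul_pow]
    norm_num
  rw [a]
  generalize wq * (conj θ / θ) = y at n
  have b : ‖y‖ ^ 2 = 1 := by rw [n, one_pow]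
  rw [Complex.sq_norm, normSq_apply] at b ⊢
  simp only [sub_re, one_re, sub_im, one_im]
  linear_combination 4 * π ^ 2 * b

lemma quad {a k γ P Q S : ℝ} (ha : 1 / 5 + k ^ 2 / 48 ≤ a) (hγ : 1 / 5 + 6 ≤ γ) :
    1 / 5 * (P ^ 2 + Q ^ 2 + S ^ 2)
      ≤ a * (P ^ 2 + Q ^ 2) + γ * S ^ 2 - k * (P * S) / 2 - k * (Q * S) / 2 := by
  nlinarith [sq_nonneg (k * P - 12 * S), sq_nonneg (k * Q - 12 * S),
    mul_nonneg (sub_nonneg.2 ha) (add_nonneg (sq_nonneg P) (sq_nonneg Q)),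
    mul_nonneg (sub_nonneg.2 hγ) (sq_nonneg S)]

lemma amgm {C δ r μ u s : ℝ} (hδ : 0 < δ) (hμ : μ ≤ 2 * C * r) (hu : 0 ≤ u) (hs : 0 ≤ s) :
    μ * (u * s) ≤ δ * r ^ 2 * u ^ 2 + C ^ 2 / δ * s ^ 2 := by
  have h : δ * r ^ 2 * u ^ 2 + C ^ 2 / δ * s ^ 2 - 2 * C * r * (u * s)
      = (δ * r * u - C * s) ^ 2 / δ := by
    field_simp
    ring
  have h2 : 0 ≤ (δ * r * u - C * s) ^ 2 / δ := by positivity
  nlinarith [mul_le_mul_of_nonneg_right hμ (mul_nonneg hu hs)]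

end LvlP

open LvlP in
theorem pLvl : S_Lvl := by
  intro C e δ hC he _ hδ
  refine ⟨min 1 (1 / (100 * C)), 4 * C + 4 * (C ^ 2 / δ), 1 / 5, by positivity, by norm_num, ?_⟩
  intro θ ε D c z0 z1 g g1 L h0 hr hε hc hz0 hz1 hg hg1 hL A B
  have r0 : 0 < ‖θ‖ := norm_pos_iff.2 h0
  have r1 : ‖θ‖ ≤ 1 := hr.trans (min_le_left _ _)
  have r2 : C * ‖θ‖ ≤ 1 / 100 := by
    have := hr.trans (min_le_right _ _)
    rw [le_div_iff₀ (by positivity)] at this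
    linarith
  have r3 : C * ‖θ‖ * ‖θ‖ ≤ 1 / 100 := by nlinarith [mul_pos hC r0]
  refine le_trans ?_ (lower D c z0 z1 g g1 A B)
  have p1 := Real.pi_gt_d4
  have p2 := Real.pi_lt_d4
  have s2 : 1.414 < √2 := Real.lt_sqrt_of_sq_lt (by norm_num)
  set t := (wq * (conj θ / θ)).re with ht
  have t1 : |t| ≤ 1 := by
    refine (abs_re_le_norm _).trans ?_
    rw [norm_mul, norm_wq, norm_div, norm_conj, div_self r0.ne', one_mul]
  rw [abs_le] at t1
  -- the coefficient of the differences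
  have ha : e * (√2 / 2) - π * t - 1 / 100 ≤ (wq * c).re := by
    have a := (abs_le.1 (abs_re_le_norm (wq * (c - (ε * e - π * conj θ / θ))))).1
    rw [norm_mul, norm_wq, one_mul] at a
    have b : (wq * (c - (ε * e - π * conj θ / θ))).re
        = (wq * c).re - (wq * ε).re * e + π * t := by
      rw [ht, ← re_mul_ofReal, ← re_ofReal_mul, ← sub_re, ← add_re]
      congr 1
      ring
    have d : (wq * ε).re = √2 / 2 := by
      rcases hε with rfl | rfl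
      · rw [mul_one, wq_re]
      · simp [wq_im]
    rw [b, d] at a
    linarith
  -- the cross coefficient
  set k0 := ‖wq * (-(2 * π * I / θ)) + conj (-(2 * π * I / θ))‖ * ‖θ‖ with hk0
  have k1 : k0 ^ 2 = 8 * π ^ 2 * (1 - t) := kap h0
  have k2 : 0 ≤ k0 := by positivity
  have k3 : k0 ≤ 13 := by
    refine le_of_sq_le_sq (a := k0) ?_ (by norm_num)
    rw [k1]
    nlinarith
  set k := ‖wq * z1 + conj z1‖ * ‖θ‖ with hk
  have k4 : k ≤ k0 + 2 / 100 := by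
    have e1 : wq * z1 + conj z1 = (wq * (-(2 * π * I / θ)) + conj (-(2 * π * I / θ)))
        + (wq * (z1 + 2 * π * I / θ) + conj (z1 + 2 * π * I / θ)) := by
      rw [map_add, map_neg]
      ring
    have e2 : ‖wq * (z1 + 2 * π * I / θ) + conj (z1 + 2 * π * I / θ)‖ ≤ 2 * (C * ‖θ‖) := by
      refine (norm_add_le _ _).trans ?_
      rw [norm_mul, norm_wq, norm_conj]
      linarith
    have e3 := norm_add_le (wq * (-(2 * π * I / θ)) + conj (-(2 * π * I / θ)))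
      (wq * (z1 + 2 * π * I / θ) + conj (z1 + 2 * π * I / θ))
    rw [← e1] at e3
    rw [hk, hk0]
    nlinarith
  have k5 : 0 ≤ k := by positivity
  have k6 : k ^ 2 ≤ k0 ^ 2 + 53 / 100 := by nlinarith
  have hγ : 1 / 5 + 6 ≤ -g1.re * ‖θ‖ ^ 2 := by
    have a := (abs_le.1 ((abs_re_le_norm _).trans hg1)).2
    have b : (g1 + 2 * π / (‖θ‖ : ℂ) ^ 2).re = g1.re + 2 * π / ‖θ‖ ^ 2 := by
      rw [add_re]
      congr 1
      norm_cast
    rw [b] at a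
    have d : 2 * π / ‖θ‖ ^ 2 * ‖θ‖ ^ 2 = 2 * π := by field_simp
    nlinarith [mul_le_mul_of_nonneg_right a (sq_nonneg ‖θ‖)]
  have hl : L - 2 * C ≤ -(g - g1).re := by
    have a : ‖(g + L + 2 * π / (‖θ‖ : ℂ) ^ 2) - (g1 + 2 * π / (‖θ‖ : ℂ) ^ 2)‖ ≤ 2 * C :=
      (norm_sub_le _ _).trans (by linarith)
    have b := (abs_le.1 ((abs_re_le_norm _).trans a)).2
    have d : (g + L + 2 * π / (‖θ‖ : ℂ) ^ 2) - (g1 + 2 * π / (‖θ‖ : ℂ) ^ 2) = g - g1 + L := by ring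
    rw [d, add_re, ofReal_re] at b
    linarith
  have hμ : ‖z0 - z1‖ ≤ 2 * C * ‖θ‖ := by
    have : z0 - z1 = (z0 + 2 * π * I / θ) - (z1 + 2 * π * I / θ) := by ring
    rw [this]
    exact (norm_sub_le _ _).trans (by linarith)
  have u1 : 3.1415 * (1 - t) ≤ π * (1 - t) := mul_le_mul_of_nonneg_right p1.le (by linarith [t1.2])
  have u2 : π ^ 2 * (1 - t) ≤ 9.87 * (1 - t) :=
    mul_le_mul_of_nonneg_right (by nlinarith) (by linarith [t1.2])
  have u3 : 6 * 1.414 ≤ e * √2 := mul_le_mul he s2.le (by norm_num) (by linarith)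
  have q := quad (a := (wq * c).re / 2) (k := k) (P := ‖A.x - B.x‖) (Q := ‖A.X - B.X‖)
    (S := ‖A.s - B.s‖ / ‖θ‖) (by linarith [t1.1]) hγ
  have q1 : -g1.re * ‖θ‖ ^ 2 * (‖A.s - B.s‖ / ‖θ‖) ^ 2 = -g1.re * ‖A.s - B.s‖ ^ 2 := by
    field_simp
  have q2 : ∀ P : ℝ, k * (P * (‖A.s - B.s‖ / ‖θ‖)) = ‖wq * z1 + conj z1‖ * (P * ‖A.s - B.s‖) := by
    intro P
    rw [hk]
    field_simp
  rw [q1, q2, q2, div_pow] at q
  have m1 := amgm hδ hμ (norm_nonneg A.x) (norm_nonneg A.s)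
  have m2 := amgm hδ hμ (norm_nonneg B.x) (norm_nonneg B.s)
  have m3 := amgm hδ hμ (norm_nonneg A.X) (norm_nonneg A.s)
  have m4 := amgm hδ hμ (norm_nonneg B.X) (norm_nonneg B.s)
  have hcd : 0 ≤ C ^ 2 / δ := by positivity
  have m5 : (1 / 5 * L + 2 * (C ^ 2 / δ)) * (‖A.s‖ ^ 2 + ‖B.s‖ ^ 2)
      ≤ -(g - g1).re * (‖A.s‖ ^ 2 + ‖B.s‖ ^ 2) :=
    mul_le_mul_of_nonneg_right (by linarith) (by positivity)
  linarith

namespace LvlP

lemma TL_zero : TL 0 = 0 := by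
  change (⟨wq * 0, conj wq * 0, -0⟩ : T3) = ⟨0, 0, 0⟩
  simp

lemma nU_TL (r L : ℝ) (A B : T3) : nU r L (TL A) (TL B) = nU r L A B := by
  simp only [nU, TL, ← mul_sub, norm_mul, norm_conj, norm_wq, one_mul, norm_neg, neg_sub_neg,
    norm_sub_rev B.s]
  ring

end LvlP

open LvlP in
theorem pML1 : S_ML1 := by
  intro C c0 e hC hc0 he he'
  obtain ⟨r0, L0, c1, hr, hc1, h⟩ := pLvl C e (c0 / 4) hC he he' (by positivity)
  refine ⟨r0, max L0 0, min c1 (c0 / 4), 1, hr, by positivity, one_pos, ?_⟩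
  intro θ s L h0 hθ hs hL N a hN ha
  have L1 : 0 ≤ L := (le_max_right _ _).trans hL
  refine ⟨fun n => TL (a n), fun n hn => ?_, ?_, ?_, ?_⟩
  · simp only [hN n (by omega), TL_zero]
  · simp only [ha, TL_zero]
  · rw [nM1, bM1, re_sum, Finset.mul_sum]
    refine Finset.sum_le_sum fun n _ => le_trans ?_
      (h θ 1 (e + s.p) s.c s.z0 s.z1 (s.g0 - L) s.g1 L h0 hθ (Or.inl rfl) ?_ hs.z0 hs.z1 ?_ hs.g1
        ((le_max_left _ _).trans hL) (a n) (a (n + 1)))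
    · have a1 := min_le_left c1 (c0 / 4)
      have a2 := min_le_right c1 (c0 / 4)
      have a3 := hs.lo1
      have b1 := mul_le_mul_of_nonneg_right a1
        (show 0 ≤ ‖(a n).x - (a (n + 1)).x‖ ^ 2 + ‖(a n).X - (a (n + 1)).X‖ ^ 2
          + L * (‖(a n).s‖ ^ 2 + ‖(a (n + 1)).s‖ ^ 2) + ‖(a n).s - (a (n + 1)).s‖ ^ 2 / ‖θ‖ ^ 2
          by positivity)
      have b2 := mul_le_mul_of_nonneg_right
        (show min c1 (c0 / 4) * ‖θ‖ ^ 2 ≤ (wq * (e + s.p - s.c)).re / 2 - c0 / 4 * ‖θ‖ ^ 2 by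
          nlinarith [sq_nonneg ‖θ‖])
        (show 0 ≤ ‖(a n).x‖ ^ 2 + ‖(a n).X‖ ^ 2 + ‖(a (n + 1)).x‖ ^ 2 + ‖(a (n + 1)).X‖ ^ 2
          by positivity)
      rw [nU]
      linarith
    · have := hs.c
      rwa [show s.c - (1 * e - π * conj θ / θ) = s.c - e + π * conj θ / θ by ring]
    · have := hs.g0
      rwa [show s.g0 - L + L = s.g0 by ring]
  · simp only [nM1, nU_TL, one_mul, le_refl]

end Pool.Agent.P.MP_cc4a10_gt
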