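import Pool.Agent.P.MP_cc4a10_gt.MH1A

/-! Stability of one chain at high frequency, and of the zero mode family. -/

open Complex Finset
open scoped ComplexConjugate

noncomputable section

namespace Pool.Agent.P.MP_cc4a10_gt

namespace MH1P

def q2 (A : T3) : ℝ := ‖A.x‖ ^ 2 + ‖A.X‖ ^ 2
def ww (A : T3) : ℝ := ‖A.s‖ ^ 2

lemma q2_nonneg (A : T3) : 0 ≤ q2 A := by unfold q2; positivity
lemma ww_nonneg (A : T3) : 0 ≤ ww A := by unfold ww; positivity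
@[simp] lemma zx : (0 : T3).x = 0 := rfl
@[simp] lemma zX : (0 : T3).X = 0 := rfl
@[simp] lemma zs : (0 : T3).s = 0 := rfl
@[simp] lemma q2_zero : q2 0 = 0 := by simp [q2]
@[simp] lemma ww_zero : ww 0 = 0 := by simp [ww]
@[simp] lemma tp_zero (a b c : ℂ) : tp 0 a b c = 0 := by simp [tp]
@[simp] lemma bU1_zero (D c z0 z1 g g1 : ℂ) (A B : T3) : bU1 D c z0 z1 g g1 A B 0 = 0 := by
  simp [bU1]

/-- The test vector at a site with centre `A` and neighbours `B`, `B'`. -/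
def tst (D c : ℂ) (A B B' : T3) : T3 :=
  ⟨conj D * A.X - conj c * (B.X + B'.X), D * A.x - c * (B.x + B'.x), -A.s⟩

lemma re_mul_ge (E u : ℂ) : ‖E‖ ^ 2 / 4 - ‖u‖ ^ 2 / 4 ≤ (conj E * (E + u) / 2).re := by
  have h1 : (conj E * (E + u) / 2).re = (‖E‖ ^ 2 + (conj E * u).re) / 2 := by
    rw [mul_add, conj_mul', div_ofNat_re, add_re, ← ofReal_pow, ofReal_re]
  have h2 : -(‖E‖ * ‖u‖) ≤ (conj E * u).re := by
    have := (abs_le.1 (abs_re_le_norm (conj E * u))).1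
    rwa [norm_mul, norm_conj] at this
  rw [h1]
  nlinarith [sq_nonneg (‖E‖ - ‖u‖)]

lemma re_s_ge (s v : ℂ) (l : ℝ) :
    l * ‖s‖ ^ 2 - ‖s‖ * ‖v‖ ≤ (conj (-s) * (v - l * s)).re := by
  have h1 : conj (-s) * (v - l * s) = l * (conj s * s) - conj s * v := by
    rw [map_neg]; ring
  have h2 : (conj s * v).re ≤ ‖s‖ * ‖v‖ := by
    have := re_le_norm (conj s * v)
    rwa [norm_mul, norm_conj] at this
  rw [h1, conj_mul', sub_re, ← ofReal_pow, ← ofReal_mul, ofReal_re]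
  linarith

lemma n3 {m k : ℝ} {a b x y z : ℂ} (ha : ‖a‖ ≤ k * m) (hb : ‖b‖ ≤ m) :
    ‖a * x - b * (y + z)‖ ≤ m * (k * ‖x‖ + ‖y‖ + ‖z‖) := by
  have h1 := norm_sub_le (a * x) (b * (y + z))
  rw [norm_mul, norm_mul] at h1
  have h2 := mul_le_mul_of_nonneg_right ha (norm_nonneg x)
  have h3 := mul_le_mul hb (norm_add_le y z) (norm_nonneg _) ((norm_nonneg b).trans hb)
  nlinarith

lemma n3sq {m k : ℝ} {a b x y z : ℂ} (ha : ‖a‖ ≤ k * m) (hb : ‖b‖ ≤ m) :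
    ‖a * x - b * (y + z)‖ ^ 2 ≤ (k ^ 2 + 2) * m ^ 2 * (‖x‖ ^ 2 + ‖y‖ ^ 2 + ‖z‖ ^ 2) := by
  refine (pow_le_pow_left₀ (norm_nonneg _) (n3 ha hb) 2).trans ?_
  have : (k * ‖x‖ + ‖y‖ + ‖z‖) ^ 2 ≤ (k ^ 2 + 2) * (‖x‖ ^ 2 + ‖y‖ ^ 2 + ‖z‖ ^ 2) := by
    nlinarith [sq_nonneg (‖x‖ - k * ‖y‖), sq_nonneg (‖x‖ - k * ‖z‖), sq_nonneg (‖y‖ - ‖z‖)]
  rw [mul_pow]
  nlinarith [mul_le_mul_of_nonneg_left this (sq_nonneg m)]

lemma q2_tst {m : ℝ} {D c : ℂ} (hD : ‖D‖ ≤ 4 * m) (hc : ‖c‖ ≤ m) (A B B' : T3) :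
    q2 (tst D c A B B') ≤ 18 * m ^ 2 * (q2 A + q2 B + q2 B') := by
  have h1 := n3sq (x := A.x) (y := B.x) (z := B'.x) hD hc
  have h2 := n3sq (a := conj D) (b := conj c) (x := A.X) (y := B.X) (z := B'.X)
    (by rwa [norm_conj]) (by rwa [norm_conj])
  simp only [q2, tst]
  nlinarith

/-- Coercivity at one site. -/
lemma site {m δ l : ℝ} {D1 D2 c z0 z1 g0 g1 : ℂ} (hm : 1 ≤ m) (hδ : 0 < δ) (h0 : ‖z0‖ ≤ m)
    (h1 : ‖z1‖ ≤ m) (hg0 : ‖g0‖ ≤ m) (hg1 : ‖g1‖ ≤ m) (A B B' : T3) :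
    q2 (tst (D1 + D2) c A B B') / 4 + 2 * l * ww A
        - (7 * m ^ 2 + m ^ 2 / δ) * (ww A + ww B + ww B') - δ * (q2 A + q2 B + q2 B')
      ≤ (bU1 D1 c z0 z1 (g0 - l) g1 A B (tst (D1 + D2) c A B B')
        + bU1 D2 c z0 z1 (g0 - l) g1 A B' (tst (D1 + D2) c A B B')).re := by
  set T := tst (D1 + D2) c A B B' with hT
  have c2 : ∀ {z : ℂ}, ‖z‖ ≤ m → ‖2 * z‖ ≤ 2 * m := fun h => by
    rw [norm_mul, Complex.norm_two]; linarith
  have cj : ∀ {z : ℂ}, ‖z‖ ≤ m → ‖conj z‖ ≤ m := fun h => by rwa [norm_conj]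
  set u := 2 * z0 * A.s - z1 * (B.s + B'.s) with hu
  set u' := 2 * conj z0 * A.s - conj z1 * (B.s + B'.s) with hu'
  set v1 := 2 * z0 * A.x - z1 * (B.x + B'.x) with hv1
  set v2 := 2 * conj z0 * A.X - conj z1 * (B.X + B'.X) with hv2
  set v3 := 2 * g0 * A.s - g1 * (B.s + B'.s) with hv3
  have e : bU1 D1 c z0 z1 (g0 - l) g1 A B T + bU1 D2 c z0 z1 (g0 - l) g1 A B' T
      = conj T.X * (T.X + u) / 2 + conj T.x * (T.x + -u') / 2
        + conj (-A.s) * ((-v1 / 2 + v2 / 2 + v3) - ((2 * l : ℝ) : ℂ) * A.s) := by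
    simp only [bU1, tp, hT, tst, hu, hu', hv1, hv2, hv3, map_add (starRingEnd ℂ) D1 D2]
    push_cast
    ring
  rw [e, add_re, add_re]
  have a1 := re_mul_ge T.X u
  have a2 := re_mul_ge T.x (-u')
  have a3 := re_s_ge A.s (-v1 / 2 + v2 / 2 + v3) (2 * l)
  rw [norm_neg] at a2
  have b1 : ‖u‖ ^ 2 ≤ _ := n3sq (c2 h0) h1
  have b2 : ‖u'‖ ^ 2 ≤ _ := n3sq (c2 (cj h0)) (cj h1)
  have b3 : ‖v1‖ ^ 2 ≤ _ := n3sq (c2 h0) h1
  have b4 : ‖v2‖ ^ 2 ≤ _ := n3sq (c2 (cj h0)) (cj h1)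
  have b5 : ‖v3‖ ≤ _ := n3 (c2 hg0) hg1
  have d1 : ‖-v1 / 2 + v2 / 2 + v3‖ ≤ ‖v1‖ / 2 + ‖v2‖ / 2 + ‖v3‖ := by
    refine (norm_add_le _ _).trans (add_le_add_left ((norm_add_le _ _).trans (le_of_eq ?_)) _)
    rw [norm_div, norm_div, norm_neg, Complex.norm_two]
  have d2 := mul_le_mul_of_nonneg_left d1 (norm_nonneg A.s)
  have hm0 : 0 < m := by linarith
  have am : ∀ t : ℝ, ‖A.s‖ * t / 2 ≤ m ^ 2 / δ * ‖A.s‖ ^ 2 / 2 + δ / m ^ 2 * t ^ 2 / 8 := by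
    intro t
    obtain ⟨k, hk, hk0⟩ : ∃ k : ℝ, m ^ 2 / δ = k ∧ 0 < k := ⟨_, rfl, by positivity⟩
    have h2 : δ / m ^ 2 = 1 / k := by rw [← hk]; field_simp
    rw [hk, h2]
    obtain ⟨s, rfl⟩ : ∃ s, t = k * s := ⟨t / k, by field_simp⟩
    have h3 : 1 / k * (k * s) ^ 2 = k * s ^ 2 := by field_simp
    rw [h3]
    nlinarith [mul_nonneg hk0.le (sq_nonneg (‖A.s‖ - s / 2))]
  have sc : ∀ t S : ℝ, t ^ 2 ≤ (2 ^ 2 + 2) * m ^ 2 * S → δ / m ^ 2 * t ^ 2 ≤ 6 * δ * S := by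
    intro t S h
    refine (mul_le_mul_of_nonneg_left h (by positivity)).trans (le_of_eq ?_)
    field_simp
    ring
  have e1 := am ‖v1‖
  have e2 := am ‖v2‖
  have f1 := sc _ _ b3
  have f2 := sc _ _ b4
  have d3 : ‖A.s‖ * ‖v3‖ ≤ 4 * m ^ 2 * (‖A.s‖ ^ 2 + ‖B.s‖ ^ 2 + ‖B'.s‖ ^ 2) := by
    refine (mul_le_mul_of_nonneg_left b5 (norm_nonneg _)).trans ?_
    have h2 : ‖A.s‖ * (2 * ‖A.s‖ + ‖B.s‖ + ‖B'.s‖)
        ≤ 4 * (‖A.s‖ ^ 2 + ‖B.s‖ ^ 2 + ‖B'.s‖ ^ 2) := by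
      nlinarith [sq_nonneg (‖A.s‖ - ‖B.s‖), sq_nonneg (‖A.s‖ - ‖B'.s‖), sq_nonneg ‖A.s‖,
        sq_nonneg ‖B.s‖, sq_nonneg ‖B'.s‖]
    have h3 := mul_le_mul_of_nonneg_left h2 hm0.le
    have h4 : m * (‖A.s‖ ^ 2 + ‖B.s‖ ^ 2 + ‖B'.s‖ ^ 2)
        ≤ m ^ 2 * (‖A.s‖ ^ 2 + ‖B.s‖ ^ 2 + ‖B'.s‖ ^ 2) :=
      mul_le_mul_of_nonneg_right (by nlinarith) (by positivity)
    nlinarith
  have p1 : 0 ≤ m ^ 2 / δ * ‖B.s‖ ^ 2 := by positivity
  have p2 : 0 ≤ m ^ 2 / δ * ‖B'.s‖ ^ 2 := by positivity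
  have p3 : 0 ≤ δ * (‖A.x‖ ^ 2 + ‖B.x‖ ^ 2 + ‖B'.x‖ ^ 2) := by positivity
  have p4 : 0 ≤ δ * (‖A.X‖ ^ 2 + ‖B.X‖ ^ 2 + ‖B'.X‖ ^ 2) := by positivity
  simp only [q2, ww]
  linarith

/-- The constant comparing the chain with its rows. -/
def C2 (C m : ℝ) : ℝ := C * (2 * m ^ 2 * (1 + C) + 1)

/-- One chain with a prescribed test vector at the boundary. -/
lemma chain {C m l : ℝ} {D P c z0 z1 g0 g1 : ℂ} (hC : 0 < C) (hm : 1 ≤ m) (hD : ‖D‖ ≤ 2 * m)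
    (hc : ‖c‖ ≤ m) (h0 : ‖z0‖ ≤ m) (h1 : ‖z1‖ ≤ m) (hg0 : ‖g0‖ ≤ m) (hg1 : ‖g1‖ ≤ m)
    {N Nb : ℕ} (hN : Nb ≤ N) {a : ℕ → T3} (ha : Fs Nb a) (T0 : T3)
    (hs : ww T0 = ww (a 0)) (hq : q2 T0 ≤ 18 * m ^ 2 * (q2 (a 0) + q2 (a 1)))
    (hb : ∀ δ, 0 < δ → q2 T0 / 4 + 2 * l * ww (a 0)
      - (7 * m ^ 2 + m ^ 2 / δ) * (ww (a 0) + ww (a 1)) - δ * (q2 (a 0) + q2 (a 1))
      ≤ (bU1 D c z0 z1 (g0 - l) g1 (a 0) (a 1) T0 + bU1 P c z0 z1 (g0 - l) g1 (a 0) 0 T0).re)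
    (hr : q2 (a 0) ≤ 2 * m ^ 2 * (q2 T0 +
      C * ∑ n ∈ range (N + 2), q2 (tst (D + D) c (a (n + 1)) (a (n + 2)) (a n))))
    (hH : ∑ n ∈ range (N + 2), q2 (a n) ≤ C * (q2 (a 0) +
      ∑ n ∈ range (N + 2), q2 (tst (D + D) c (a (n + 1)) (a (n + 2)) (a n)))) :
    ∃ a', Fs (Nb + 1) a' ∧ a' 0 = T0 ∧
      (∑ n ∈ range (N + 2), q2 (a n)) / (8 * C2 C m)
        + (2 * l - 5 * (7 * m ^ 2 + 40 * m ^ 2 * C2 C m)) * ∑ n ∈ range (N + 2), ww (a n)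
        ≤ (bU1 P c z0 z1 (g0 - l) g1 (a 0) 0 T0 + ∑ n ∈ range (N + 2),
          bU D c z0 z1 (g0 - l) g1 (a n) (a (n + 1)) (a' n) (a' (n + 1))).re ∧
      ∑ n ∈ range (N + 2), q2 (a' n) ≤ 90 * m ^ 2 * ∑ n ∈ range (N + 2), q2 (a n) ∧
      ∀ n, ww (a' n) = ww (a n) := by
  set t : ℕ → T3 := fun n => tst (D + D) c (a (n + 1)) (a (n + 2)) (a n) with ht
  set a' : ℕ → T3 := fun n => Nat.rec T0 (fun k _ => t k) n with ha'
  have t0 : ∀ n, Nb ≤ n → t n = 0 := fun n hn => by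
    simp only [ht, tst]
    rw [ha n hn, ha (n + 1) (by omega), ha (n + 2) (by omega)]
    simp only [zx, zX, zs, mul_zero, add_zero, sub_zero, neg_zero]
    rfl
  have hq0 : ∀ n, N + 2 ≤ n → q2 (a n) = 0 := fun n hn => by rw [ha n (by omega), q2_zero]
  have hw0 : ∀ n, N + 2 ≤ n → ww (a n) = 0 := fun n hn => by rw [ha n (by omega), ww_zero]
  have sq := sum_sh (f := fun n => q2 (a n)) (fun n => q2_nonneg _) hq0
  have sw := sum_sh (f := fun n => ww (a n)) (fun n => ww_nonneg _) hw0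
  set Tq := ∑ n ∈ range (N + 2), q2 (a n) with hTq
  set Tw := ∑ n ∈ range (N + 2), ww (a n) with hTw
  set SE := ∑ n ∈ range (N + 2), q2 (t n) with hSE
  have q01 : q2 (a 0) + q2 (a 1) ≤ 2 * Tq := by
    have i0 := sq 1 0
    have i1 := sq 1 1
    simp only [range_one, sum_singleton, zero_add] at i0 i1
    linarith
  have w01 : ww (a 0) + ww (a 1) ≤ 2 * Tw := by
    have i0 := sw 1 0
    have i1 := sw 1 1
    simp only [range_one, sum_singleton, zero_add] at i0 i1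
    linarith
  have q3 : ∑ n ∈ range (N + 2), (q2 (a (n + 1)) + q2 (a (n + 2)) + q2 (a n)) ≤ 3 * Tq := by
    rw [sum_add_distrib, sum_add_distrib]
    linarith [sq (N + 2) 1, sq (N + 2) 2]
  have w3 : ∑ n ∈ range (N + 2), (ww (a (n + 1)) + ww (a (n + 2)) + ww (a n)) ≤ 3 * Tw := by
    rw [sum_add_distrib, sum_add_distrib]
    linarith [sw (N + 2) 1, sw (N + 2) 2]
  have hSE0 : 0 ≤ SE := sum_nonneg fun n _ => q2_nonneg _
  have hm2 : 0 < m ^ 2 := by positivity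
  refine ⟨a', fun n hn => ?_, rfl, ?_, ?_, fun n => ?_⟩
  · obtain ⟨k, rfl⟩ : ∃ k, n = k + 1 := ⟨n - 1, by omega⟩
    exact t0 k (by omega)
  · have hC2 : 0 < C2 C m := by unfold C2; positivity
    have hδ : 0 < 1 / (40 * C2 C m) := by positivity
    have hK : m ^ 2 / (1 / (40 * C2 C m)) = 40 * m ^ 2 * C2 C m := by field_simp
    have e : ∑ n ∈ range (N + 2), bU D c z0 z1 (g0 - l) g1 (a n) (a (n + 1)) (a' n) (a' (n + 1))
        = bU1 D c z0 z1 (g0 - l) g1 (a 0) (a 1) T0 + ∑ n ∈ range (N + 2),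
          (bU1 D c z0 z1 (g0 - l) g1 (a (n + 1)) (a (n + 2)) (t n)
            + bU1 D c z0 z1 (g0 - l) g1 (a (n + 1)) (a n) (t n)) := by
      simp only [bU, sum_add_distrib]
      rw [sum_range_succ' (fun n => bU1 D c z0 z1 (g0 - l) g1 (a n) (a (n + 1)) (a' n)),
        sum_range_succ (fun n => bU1 D c z0 z1 (g0 - l) g1 (a (n + 1)) (a (n + 2)) (t n)) (N + 1),
        t0 (N + 1) (by omega), bU1_zero, add_zero]
      simp only [ha', Nat.rec_zero]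
      ring
    have s1 := sum_le_sum fun n (_ : n ∈ range (N + 2)) =>
      site (D1 := D) (D2 := D) (c := c) (l := l) hm hδ h0 h1 hg0 hg1 (a (n + 1)) (a (n + 2)) (a n)
    rw [← re_sum, sum_sub_distrib, sum_sub_distrib, sum_add_distrib, ← mul_sum, ← mul_sum,
      ← mul_sum, ← sum_div, hK] at s1
    have s2 := hb _ hδ
    rw [hK] at s2
    have s3 := sum_eq (f := fun n => ww (a n)) hw0 (Nat.le_succ (N + 2))
    rw [sum_range_succ'] at s3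
    have s4 : Tq ≤ C2 C m * (q2 T0 + SE) := by
      have i1 := mul_le_mul_of_nonneg_left hr hC.le
      have i2 : 0 ≤ C * (2 * m ^ 2 * C + 1) * q2 T0 := mul_nonneg (by positivity) (q2_nonneg _)
      have i3 : 0 ≤ C * (2 * m ^ 2) * SE := by positivity
      unfold C2
      nlinarith
    have s5 : Tq / (8 * C2 C m) ≤ (q2 T0 + SE) / 8 := by
      rw [div_le_iff₀ (by positivity)]
      linarith
    have s6 : 1 / (40 * C2 C m) * (5 * Tq) = Tq / (8 * C2 C m) := by field_simp; ring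
    have hKp : 0 ≤ 7 * m ^ 2 + 40 * m ^ 2 * C2 C m := by positivity
    have j1 := mul_le_mul_of_nonneg_left q01 hδ.le
    have j2 := mul_le_mul_of_nonneg_left q3 hδ.le
    have j3 := mul_le_mul_of_nonneg_left w01 hKp
    have j4 := mul_le_mul_of_nonneg_left w3 hKp
    have j5 : 2 * l * ∑ n ∈ range (N + 2), ww (a (n + 1)) + 2 * l * ww (a 0) = 2 * l * Tw := by
      rw [← mul_add, s3]
    rw [e, ← add_assoc, add_re, add_comm (bU1 P _ _ _ _ _ _ _ _)]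
    linarith
  · have hD' : ‖D + D‖ ≤ 4 * m := (norm_add_le _ _).trans (by linarith)
    have s1 := sum_le_sum fun n (_ : n ∈ range (N + 2)) =>
      q2_tst hD' hc (a (n + 1)) (a (n + 2)) (a n)
    rw [← mul_sum] at s1
    have s2 : ∑ n ∈ range (N + 2), q2 (a' n) ≤ q2 T0 + SE := by
      rw [sum_range_succ', hSE, sum_range_succ (fun n => q2 (t n)) (N + 1)]
      have := q2_nonneg (t (N + 1))
      simp only [ha', Nat.rec_zero]
      linarith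
    have j1 := mul_le_mul_of_nonneg_left q01 (by positivity : 0 ≤ 18 * m ^ 2)
    have j2 := mul_le_mul_of_nonneg_left q3 (by positivity : 0 ≤ 18 * m ^ 2)
    linarith
  · rcases n with _ | n
    · exact hs
    · simp [ha', ht, tst, ww]

/-- The half line estimates for both components. -/
lemma half2 {η C : ℝ} (hH : ∀ (D c Z : ℂ) (x : ℕ → ℂ) (N : ℕ),
    Z ^ 2 = D ^ 2 - c ^ 2 → ‖c‖ ≤ (1 - η) * ‖D + Z‖ → η ≤ ‖D + Z‖ → ‖D + Z‖ ≤ 10 / η →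
    (∀ n, N ≤ n → x n = 0) →
    ‖D * x 0 - c * x 1 - Z * x 0‖ ^ 2
      ≤ C * ∑ n ∈ Finset.range (N + 1), ‖2 * D * x (n + 1) - c * (x n + x (n + 2))‖ ^ 2 ∧
    ∑ n ∈ Finset.range (N + 1), ‖x n‖ ^ 2 ≤ C * (‖x 0‖ ^ 2 +
      ∑ n ∈ Finset.range (N + 1), ‖2 * D * x (n + 1) - c * (x n + x (n + 2))‖ ^ 2))
    {D c Z : ℂ} (h1 : Z ^ 2 = D ^ 2 - c ^ 2) (h2 : ‖c‖ ≤ (1 - η) * ‖D + Z‖) (h3 : η ≤ ‖D + Z‖)
    (h4 : ‖D + Z‖ ≤ 10 / η) {N Nb : ℕ} (hN : Nb ≤ N) {a : ℕ → T3} (ha : Fs Nb a) :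
    ‖D * (a 0).x - c * (a 1).x - Z * (a 0).x‖ ^ 2
        + ‖conj D * (a 0).X - conj c * (a 1).X - conj Z * (a 0).X‖ ^ 2
      ≤ C * ∑ n ∈ range (N + 2), q2 (tst (D + D) c (a (n + 1)) (a (n + 2)) (a n)) ∧
    ∑ n ∈ range (N + 2), q2 (a n) ≤ C * (q2 (a 0) +
      ∑ n ∈ range (N + 2), q2 (tst (D + D) c (a (n + 1)) (a (n + 2)) (a n))) := by
  have e0 : ‖conj D + conj Z‖ = ‖D + Z‖ := by rw [← map_add, norm_conj]
  obtain ⟨x1, x2⟩ := hH D c Z (fun n => (a n).x) (N + 1) h1 h2 h3 h4 fun n hn => by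
    rw [ha n (by omega), zx]
  obtain ⟨y1, y2⟩ := hH (conj D) (conj c) (conj Z) (fun n => (a n).X) (N + 1)
    (by rw [← map_pow, h1, map_sub, map_pow, map_pow]) (by rwa [e0, norm_conj]) (by rwa [e0])
    (by rwa [e0]) fun n hn => by rw [ha n (by omega), zX]
  have e : ∑ n ∈ range (N + 2), q2 (tst (D + D) c (a (n + 1)) (a (n + 2)) (a n))
      = ∑ n ∈ range (N + 1 + 1),
          ‖2 * D * (a (n + 1)).x - c * ((a n).x + (a (n + 2)).x)‖ ^ 2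
        + ∑ n ∈ range (N + 1 + 1),
          ‖2 * conj D * (a (n + 1)).X - conj c * ((a n).X + (a (n + 2)).X)‖ ^ 2 := by
    rw [← sum_add_distrib]
    refine sum_congr rfl fun n _ => ?_
    simp only [q2, tst, map_add]
    simp only [← two_mul, add_comm (a n).x, add_comm (a n).X]
    ring
  rw [e]
  refine ⟨by linarith, ?_⟩
  simp only [q2, sum_add_distrib]
  linarith

lemma nU_le {r L m : ℝ} (hm : 1 ≤ m) (hr : 1 / m ≤ r) (hr' : r ≤ 5) (hL : 2 * m ^ 2 ≤ L)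
    (A B : T3) : nU r L A B ≤ 27 * (q2 A + q2 B) + 2 * L * (ww A + ww B) := by
  have d : ∀ x y : ℂ, ‖x - y‖ ^ 2 ≤ 2 * (‖x‖ ^ 2 + ‖y‖ ^ 2) := fun x y => by
    refine (pow_le_pow_left₀ (norm_nonneg _) (norm_sub_le x y) 2).trans ?_
    nlinarith [sq_nonneg (‖x‖ - ‖y‖)]
  have hm0 : 0 < m := by linarith
  have hr0 : 0 < r := lt_of_lt_of_le (by positivity) hr
  have h1 : 1 ≤ r * m := by rwa [div_le_iff₀ hm0] at hr
  have h2 : ‖A.s - B.s‖ ^ 2 / r ^ 2 ≤ L * (‖A.s‖ ^ 2 + ‖B.s‖ ^ 2) := by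
    rw [div_le_iff₀ (by positivity)]
    refine (d _ _).trans ?_
    have h3 : 2 ≤ L * r ^ 2 := by nlinarith [mul_le_mul_of_nonneg_right hL (sq_nonneg r)]
    nlinarith [mul_le_mul_of_nonneg_right h3
      (by positivity : 0 ≤ ‖A.s‖ ^ 2 + ‖B.s‖ ^ 2)]
  have h4 : r ^ 2 * (‖A.x‖ ^ 2 + ‖A.X‖ ^ 2 + ‖B.x‖ ^ 2 + ‖B.X‖ ^ 2)
      ≤ 25 * (‖A.x‖ ^ 2 + ‖A.X‖ ^ 2 + ‖B.x‖ ^ 2 + ‖B.X‖ ^ 2) :=
    mul_le_mul_of_nonneg_right (by nlinarith) (by positivity)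
  simp only [nU, q2, ww]
  linarith [d A.x B.x, d A.X B.X]

lemma nM1_le {r L m : ℝ} (hm : 1 ≤ m) (hr : 1 / m ≤ r) (hr' : r ≤ 5) (hL : 2 * m ^ 2 ≤ L)
    {N : ℕ} {a : ℕ → T3} (ha : Fs (N + 1) a) :
    nM1 r L (N + 2) a ≤ 54 * ∑ n ∈ range (N + 2), q2 (a n)
      + 4 * L * ∑ n ∈ range (N + 2), ww (a n) := by
  have hq0 : ∀ n, N + 2 ≤ n → q2 (a n) = 0 := fun n hn => by rw [ha n (by omega), q2_zero]
  have hw0 : ∀ n, N + 2 ≤ n → ww (a n) = 0 := fun n hn => by rw [ha n (by omega), ww_zero]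
  have sq := sum_sh (f := fun n => q2 (a n)) (fun n => q2_nonneg _) hq0 (N + 2) 1
  have sw := sum_sh (f := fun n => ww (a n)) (fun n => ww_nonneg _) hw0 (N + 2) 1
  have hL0 : 0 ≤ 2 * L := by nlinarith
  have := mul_le_mul_of_nonneg_left sw hL0
  refine (sum_le_sum fun n _ => nU_le hm hr hr' hL (a n) (a (n + 1))).trans ?_
  rw [sum_add_distrib, ← mul_sum, ← mul_sum, sum_add_distrib, sum_add_distrib]
  linarith

lemma nM1_ge {r L : ℝ} (hL : 0 ≤ L) (N : ℕ) (a : ℕ → T3) :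
    r ^ 2 * ∑ n ∈ range N, q2 (a n) + L * ∑ n ∈ range N, ww (a n) ≤ nM1 r L N a := by
  rw [mul_sum, mul_sum, ← sum_add_distrib]
  refine sum_le_sum fun n _ => ?_
  simp only [nU, q2, ww]
  have h1 : 0 ≤ r ^ 2 * (‖(a (n + 1)).x‖ ^ 2 + ‖(a (n + 1)).X‖ ^ 2) := by positivity
  have h2 : 0 ≤ L * ‖(a (n + 1)).s‖ ^ 2 := by positivity
  have h3 : 0 ≤ ‖(a n).s - (a (n + 1)).s‖ ^ 2 / r ^ 2 := by positivity
  nlinarith [sq_nonneg ‖(a n).x - (a (n + 1)).x‖, sq_nonneg ‖(a n).X - (a (n + 1)).X‖]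

lemma nM3_eq (L : ℝ) {N : ℕ} {c : ℕ → T3} (hc : Fs (N + 1) c) :
    nM3 0 L (N + 2) 0 0 c
      = ∑ n ∈ range (N + 2), q2 (c n) + L * ∑ n ∈ range (N + 2), ww (c n) := by
  rw [mul_sum, ← sum_add_distrib]
  simp only [nM3, nM1, nU, Pi.zero_apply, zx, zX, zs]
  rw [sum_range_succ _ (N + 2), hc (N + 2) (by omega)]
  simp [n1, q2, ww]

lemma norm_kp : ‖kp‖ ≤ 1 := by
  unfold kp
  rw [norm_div, Complex.norm_two]
  have := norm_sub_le (1 : ℂ) I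
  rw [norm_one, norm_I] at this
  linarith

end MH1P

open MH1P in
theorem pMH1 : S_MH1 := by
  intro η e hη hη' he
  obtain ⟨C, hC, hH⟩ := pHalf η hη
  obtain ⟨m, hm⟩ : ∃ m, m = 1 / η := ⟨_, rfl⟩
  have hm10 : 10 ≤ m := by rw [hm, le_div_iff₀ hη]; linarith
  have hm1 : 1 ≤ m := by linarith
  have hηm : η * m = 1 := by rw [hm]; field_simp
  have hη2 : η = 1 / m := by rw [hm]; field_simp
  have hC2 : 0 < C2 C m := by unfold C2; positivity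
  obtain ⟨K, hK⟩ : ∃ K, K = 7 * m ^ 2 + 40 * m ^ 2 * C2 C m := ⟨_, rfl⟩
  have hK2 : 7 * m ^ 2 ≤ K := by
    have : 0 ≤ 40 * m ^ 2 * C2 C m := by positivity
    linarith
  have hm2 : 100 ≤ m ^ 2 := by nlinarith
  obtain ⟨c1, hc1, hc2, hc3⟩ : ∃ c1 : ℝ, 0 < c1 ∧ c1 ≤ 1 / 4 ∧ 54 * c1 ≤ 1 / (8 * C2 C m) := by
    refine ⟨min (1 / 4) (1 / (8 * C2 C m) / 54), by positivity, min_le_left _ _, ?_⟩
    linarith [min_le_right (1 / 4 : ℝ) (1 / (8 * C2 C m) / 54)]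
  refine ⟨10 * K + 2, c1, 4860 * m ^ 4 + 4, hc1, by positivity,
    fun s Z L hB hG hL => ?_⟩
  rw [← hm] at hB
  obtain ⟨bp, bc, -, b0, b1, -, bg0, bg1, -⟩ := hB
  obtain ⟨g1, g2, g3⟩ := hG
  have hD : ‖(e : ℂ) + s.p‖ ≤ 2 * m := by
    refine (norm_add_le _ _).trans ?_
    rw [norm_real, Real.norm_eq_abs]
    linarith
  have hZ : ‖Z‖ ≤ 3 * m := by
    have h1 : ‖Z‖ ^ 2 ≤ ‖(e : ℂ) + s.p‖ ^ 2 + ‖s.c‖ ^ 2 := by
      rw [← norm_pow, g1, Om, ← norm_pow, ← norm_pow]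
      exact norm_sub_le _ _
    have h2 := pow_le_pow_left₀ (norm_nonneg _) hD 2
    have h3 := pow_le_pow_left₀ (norm_nonneg _) bc 2
    exact (pow_le_pow_iff_left₀ (norm_nonneg _) (by positivity) two_ne_zero).1 (by nlinarith)
  have g4 : ‖(e : ℂ) + s.p + Z‖ ≤ 10 / η := by
    refine (norm_add_le _ _).trans ?_
    have : 10 / η = 10 * m := by rw [hm]; ring
    linarith
  have hL0 : 0 ≤ L := by linarith
  have dv : ∀ T : ℝ, T / (8 * C2 C m) = 1 / (8 * C2 C m) * T := fun T => by ring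
  refine ⟨fun r hr hr' N a ha ha0 => ?_, fun hP L' s0 s1 hL' N Nb a hN ha => ?_⟩
  · obtain ⟨-, x2⟩ := half2 hH g1 g2 g3 g4 le_rfl ha
    have hS : 0 ≤ ∑ n ∈ range (N + 2),
        q2 (tst (e + s.p + (e + s.p)) s.c (a (n + 1)) (a (n + 2)) (a n)) :=
      sum_nonneg fun n _ => q2_nonneg _
    obtain ⟨a', f1, f2, f3, f4, f5⟩ := chain (l := L) (P := 0) hC hm1 hD bc b0 b1 bg0 bg1 le_rfl
      ha 0 (by rw [ha0]) (by have := q2_nonneg (a 1); rw [ha0, q2_zero]; positivity)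
      (fun δ hδ => by
        have := q2_nonneg (a 1)
        have := ww_nonneg (a 1)
        have h1 : 0 ≤ (7 * m ^ 2 + m ^ 2 / δ) * ww (a 1) := by positivity
        have h2 : 0 ≤ δ * q2 (a 1) := by positivity
        rw [ha0]
        simp only [q2_zero, ww_zero, bU1_zero, add_zero, zero_add, zero_re]
        linarith)
      (by rw [ha0, q2_zero]; positivity) x2
    rw [bU1_zero, zero_add, ← hK, dv] at f3
    have hq : 0 ≤ ∑ n ∈ range (N + 2), q2 (a n) := sum_nonneg fun n _ => q2_nonneg _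
    have hw : 0 ≤ ∑ n ∈ range (N + 2), ww (a n) := sum_nonneg fun n _ => ww_nonneg _
    have hr1 : 1 / m ≤ r := by rwa [← hη2]
    have hL2 : 2 * m ^ 2 ≤ L := by linarith
    refine ⟨a', f1, f2, ?_, ?_⟩
    · have n1 := nM1_le hm1 hr1 hr' hL2 (a := a) (N := N) fun n hn => ha n (by omega)
      have n2 := mul_le_mul_of_nonneg_left n1 hc1.le
      have n3 := mul_le_mul_of_nonneg_right hc3 hq
      have n4 := mul_le_mul_of_nonneg_right hc2 (mul_nonneg hL0 hw)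
      have n5 := mul_le_mul_of_nonneg_right (by linarith : L ≤ 2 * L - 5 * K) hw
      refine le_trans ?_ f3
      linarith
    · have n1 := nM1_le hm1 hr1 hr' hL2 f1
      simp only [f5] at n1
      have n2 := nM1_ge (r := r) hL0 (N + 2) a
      have n3 : 1 ≤ m ^ 2 * r ^ 2 := by
        have : 1 ≤ r * m := by rwa [div_le_iff₀ (by linarith)] at hr1
        nlinarith
      have n4 := mul_le_mul_of_nonneg_right n3 (mul_nonneg (sq_nonneg m) hq)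
      have n5 := mul_le_mul_of_nonneg_left n2 (by positivity : 0 ≤ 4860 * m ^ 4 + 4)
      have n6 : 0 ≤ r ^ 2 * ∑ n ∈ range (N + 2), q2 (a n) := by positivity
      have n7 : 0 ≤ m ^ 4 * (L * ∑ n ∈ range (N + 2), ww (a n)) := by positivity
      nlinarith
  · have nI : ∀ z : ℂ, ‖-I * z‖ = ‖z‖ := fun z => by rw [norm_mul, norm_neg, norm_I, one_mul]
    have nk : ∀ {z : ℂ}, ‖z‖ ≤ m → ‖kp * z‖ ≤ m := fun {z} h => by
      rw [norm_mul]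
      nlinarith [norm_kp, norm_nonneg z, norm_nonneg kp]
    have nh : ∀ {z : ℂ}, ‖z‖ ≤ m → ‖z / 2‖ ≤ m := fun {z} h => by
      rw [norm_div, Complex.norm_two]
      linarith
    have e0 : ‖-I * (e + s.p) + -I * Z‖ = ‖(e : ℂ) + s.p + Z‖ := by rw [← mul_add, nI]
    obtain ⟨x1, x2⟩ := half2 hH (D := -I * (e + s.p)) (c := -I * s.c) (Z := -I * Z)
      (by rw [Om] at g1; linear_combination (I ^ 2) * g1) (by rwa [e0, nI]) (by rwa [e0])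
      (by rwa [e0]) hN ha
    have hD' : ‖-I * (e + s.p)‖ ≤ 2 * m := by rwa [nI]
    have hc' : ‖-I * s.c‖ ≤ m := by rwa [nI]
    have hDP : ‖-I * (e + s.p) + -I * s.p‖ ≤ 4 * m := by
      refine (norm_add_le _ _).trans ?_
      rw [nI s.p]
      linarith
    obtain ⟨a', f1, f2, f3, f4, f5⟩ := chain (l := L' / 2) (P := -I * s.p) hC hm1 hD' hc' (nk b0)
      (nk b1) (nh bg0) (nh bg1) hN ha
      (tst (-I * (e + s.p) + -I * s.p) (-I * s.c) (a 0) (a 1) 0) (by simp [ww, tst])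
      (by simpa using q2_tst hDP hc' (a 0) (a 1) 0)
      (fun δ hδ => by
        simpa using site (D1 := -I * (e + s.p)) (D2 := -I * s.p) (c := -I * s.c) (l := L' / 2)
          hm1 hδ (nk b0) (nk b1) (nh bg0) (nh bg1) (a 0) (a 1) 0)
      (by
        have k : ∀ W x R Y : ℂ, η ≤ ‖W‖ → W * x = R - Y →
            ‖x‖ ^ 2 ≤ 2 * m ^ 2 * (‖R‖ ^ 2 + ‖Y‖ ^ 2) := fun W x R Y h1 h2 => by
          have h3 : ‖W‖ * ‖x‖ ≤ ‖R‖ + ‖Y‖ := by
            rw [← norm_mul, h2]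
            exact norm_sub_le _ _
          have h4 : η * ‖x‖ ≤ ‖R‖ + ‖Y‖ :=
            (mul_le_mul_of_nonneg_right h1 (norm_nonneg x)).trans h3
          have h5 : ‖x‖ ≤ m * (‖R‖ + ‖Y‖) := by
            have := mul_le_mul_of_nonneg_left h4 (by linarith : 0 ≤ m)
            rwa [← mul_assoc, mul_comm m, hηm, one_mul] at this
          refine (pow_le_pow_left₀ (norm_nonneg _) h5 2).trans ?_
          nlinarith [mul_nonneg (sq_nonneg m) (sq_nonneg (‖R‖ - ‖Y‖))]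
        have k1 := k (-I * (Z + s.p)) (a 0).x
          (tst (-I * (e + s.p) + -I * s.p) (-I * s.c) (a 0) (a 1) 0).X _ (by rwa [nI])
          (by
            show _ = _ - (-I * (e + s.p) * (a 0).x - -I * s.c * (a 1).x - -I * Z * (a 0).x)
            simp only [tst, zx]
            ring)
        have k2 := k (conj (-I * (Z + s.p))) (a 0).X
          (tst (-I * (e + s.p) + -I * s.p) (-I * s.c) (a 0) (a 1) 0).x _
          (by rwa [norm_conj, nI])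
          (by
            show _ = _ - (conj (-I * (e + s.p)) * (a 0).X - conj (-I * s.c) * (a 1).X
              - conj (-I * Z) * (a 0).X)
            simp only [tst, zX, map_add, map_mul]
            ring)
        have k3 := mul_le_mul_of_nonneg_left x1 (by positivity : 0 ≤ 2 * m ^ 2)
        simp only [q2] at *
        linarith) x2
    rw [← hK, dv] at f3
    have hq : 0 ≤ ∑ n ∈ range (N + 2), q2 (a n) := sum_nonneg fun n _ => q2_nonneg _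
    have hw : 0 ≤ ∑ n ∈ range (N + 2), ww (a n) := sum_nonneg fun n _ => ww_nonneg _
    have ha1 : Fs (N + 1) a := fun n hn => ha n (by omega)
    have ha2 : Fs (N + 1) a' := fun n hn => f1 n (by omega)
    have eB : bM3 e L L' s0 s1 s (N + 2) 0 0 a 0 0 a'
        = bU1 (-I * s.p) (-I * s.c) (kp * s.z0) (kp * s.z1) (s.g0 / 2 - (L' / 2 : ℝ)) (s.g1 / 2)
            (a 0) 0 (a' 0) + ∑ n ∈ range (N + 2),
          bU (-I * (e + s.p)) (-I * s.c) (kp * s.z0) (kp * s.z1) (s.g0 / 2 - (L' / 2 : ℝ))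
            (s.g1 / 2) (a n) (a (n + 1)) (a' n) (a' (n + 1)) := by
      have e1 : s.g0 / 2 - ((L' / 2 : ℝ) : ℂ) = (s.g0 - L') / 2 := by push_cast; ring
      rw [e1]
      simp only [bM3, bM1, bP, bC, bU, bT, Pi.zero_apply, bU1_zero, tp_zero, add_zero, zero_add,
        sum_const_zero]
      congr 1
      simp only [bU1, tp, zx, zX, zs]
      ring
    refine ⟨a', f1, ?_, ?_⟩
    · rw [eB, f2, nM3_eq L ha1]
      refine le_trans ?_ f3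
      have n3 := mul_le_mul_of_nonneg_right hc3 hq
      have n4 := mul_le_mul_of_nonneg_right hc2 (mul_nonneg hL0 hw)
      have n5 := mul_le_mul_of_nonneg_right
        (by linarith [(abs_le.1 hL').1] : L / 4 ≤ 2 * (L' / 2) - 5 * K) hw
      have n6 := mul_nonneg hc1.le hq
      linarith
    · rw [nM3_eq L ha1, nM3_eq L ha2]
      simp only [f5]
      have n1 : 90 * m ^ 2 ≤ 4860 * m ^ 4 + 4 := by nlinarith
      have n2 := mul_le_mul_of_nonneg_right n1 hq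
      have n7 : 0 ≤ m ^ 4 * (L * ∑ n ∈ range (N + 2), ww (a n)) := by positivity
      have n8 := mul_nonneg hL0 hw
      linarith

end Pool.Agent.P.MP_cc4a10_gt
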