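import Pool.Agent.P.MP_cc4a10_gt.St

/-! Half line estimates for a three term recurrence. -/

open Complex Finset
open scoped ComplexConjugate

namespace Pool.Agent.P.MP_cc4a10_gt

namespace MH1P

lemma cvx {η ρ a b : ℝ} (hη : 0 < η) (hρ : 0 ≤ ρ) (h : ρ ≤ 1 - η) (ha : 0 ≤ a) (hb : 0 ≤ b) :
    (a + ρ * b) ^ 2 ≤ a ^ 2 / η + (1 - η) * b ^ 2 := by
  have h1 : (a + ρ * b) ^ 2 ≤ (a + (1 - η) * b) ^ 2 := by
    have : ρ * b ≤ (1 - η) * b := mul_le_mul_of_nonneg_right h hb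
    have : 0 ≤ ρ * b := mul_nonneg hρ hb
    nlinarith
  refine h1.trans ?_
  obtain ⟨u, rfl⟩ : ∃ u, a = η * u := ⟨a / η, by field_simp⟩
  have h2 : (η * u) ^ 2 / η = η * u ^ 2 := by field_simp
  rw [h2]
  have h3 : 0 ≤ η * (1 - η) * (u - b) ^ 2 :=
    mul_nonneg (mul_nonneg hη.le (hρ.trans h)) (sq_nonneg _)
  nlinarith

lemma sum_eq {f : ℕ → ℝ} {N M : ℕ} (hN : ∀ n, N ≤ n → f n = 0) (h : N ≤ M) :
    ∑ n ∈ range M, f n = ∑ n ∈ range N, f n := by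
  symm
  refine sum_subset (range_subset_range.2 h) fun n _ hn => hN n ?_
  simpa using hn

lemma sum_sh {f : ℕ → ℝ} {N : ℕ} (h0 : ∀ n, 0 ≤ f n) (hN : ∀ n, N ≤ n → f n = 0) (M k : ℕ) :
    ∑ n ∈ range M, f (n + k) ≤ ∑ n ∈ range N, f n := by
  have h1 : ∑ n ∈ range M, f (n + k) ≤ ∑ n ∈ range (k + M), f n := by
    rw [sum_range_add]
    have : 0 ≤ ∑ n ∈ range k, f n := sum_nonneg fun n _ => h0 n
    simp only [add_comm k]
    linarith
  refine h1.trans ?_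
  rcases le_total (k + M) N with h | h
  · exact sum_le_sum_of_subset_of_nonneg (range_subset_range.2 h) fun n _ _ => h0 n
  · exact (sum_eq hN h).le

lemma nsq {η : ℝ} {u v ζ : ℂ} (hη : 0 < η) (h : ‖ζ‖ ≤ 1 - η) :
    ‖u + ζ * v‖ ^ 2 ≤ ‖u‖ ^ 2 / η + (1 - η) * ‖v‖ ^ 2 := by
  refine le_trans ?_ (cvx hη (norm_nonneg ζ) h (norm_nonneg u) (norm_nonneg v))
  refine pow_le_pow_left₀ (norm_nonneg _) ((norm_add_le _ _).trans ?_) 2
  rw [norm_mul]

end MH1P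

open MH1P in
theorem pHalf : S_Half := by
  intro η hη
  refine ⟨100 / η ^ 6, by positivity, fun D c Z x N hZ hc hW hW' hx => ?_⟩
  set W := D + Z with hWd
  have hW0 : 0 < ‖W‖ := hη.trans_le hW
  have hWn : W ≠ 0 := norm_pos_iff.1 hW0
  obtain ⟨ζ, rfl⟩ : ∃ ζ, c = ζ * W := ⟨c / W, by field_simp⟩
  have hζ : ‖ζ‖ ≤ 1 - η := by
    rw [norm_mul] at hc
    exact le_of_mul_le_mul_right hc hW0
  have hη1 : η ≤ 1 := by linarith [norm_nonneg ζ]
  have hDZ : D - Z = ζ ^ 2 * W := by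
    apply mul_right_cancel₀ hWn
    rw [hWd] at hZ ⊢
    linear_combination -hZ
  have hD : 2 * D = W + ζ ^ 2 * W := by rw [← hDZ, hWd]; ring
  set y : ℕ → ℂ := fun n => x (n + 1) - ζ * x n with hy
  set E : ℕ → ℂ := fun n => 2 * D * x (n + 1) - ζ * W * (x n + x (n + 2)) with hE
  have hyE : ∀ n, y n = E n / W + ζ * y (n + 1) := fun n => by
    simp only [hy, hE, hD]
    field_simp
    ring
  have hy0 : ∀ n, N + 1 ≤ n → ‖y n‖ ^ 2 = 0 := fun n hn => by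
    simp only [hy]
    rw [hx n (by omega), hx (n + 1) (by omega)]
    simp
  have hx0 : ∀ n, N + 1 ≤ n → ‖x n‖ ^ 2 = 0 := fun n hn => by
    rw [hx n (by omega)]
    simp
  set SE := ∑ n ∈ range (N + 1), ‖E n‖ ^ 2 with hSE
  set Y := ∑ n ∈ range (N + 1), ‖y n‖ ^ 2 with hY
  set X := ∑ n ∈ range (N + 1), ‖x n‖ ^ 2 with hX
  have hSE0 : 0 ≤ SE := sum_nonneg fun n _ => sq_nonneg _
  have hY1 : Y ≤ SE / η ^ 3 + (1 - η) * Y := by
    have h1 : ∀ n ∈ range (N + 1),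
        ‖y n‖ ^ 2 ≤ ‖E n‖ ^ 2 / η ^ 3 + (1 - η) * ‖y (n + 1)‖ ^ 2 := fun n _ => by
      rw [hyE n]
      refine (nsq hη hζ).trans (add_le_add_left ?_ _)
      rw [norm_div, div_pow, div_div]
      refine div_le_div_of_nonneg_left (sq_nonneg _) (by positivity) ?_
      have : η ^ 2 ≤ ‖W‖ ^ 2 := pow_le_pow_left₀ hη.le hW 2
      nlinarith
    refine (sum_le_sum h1).trans ?_
    rw [sum_add_distrib, ← sum_div, ← mul_sum]
    have h2 := sum_sh (f := fun n => ‖y n‖ ^ 2) (fun n => sq_nonneg _) hy0 (N + 1) 1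
    exact add_le_add_right (mul_le_mul_of_nonneg_left h2 (by linarith)) _
  have hY2 : Y ≤ SE / η ^ 4 := by
    have : η * Y ≤ SE / η ^ 3 := by linarith
    rw [le_div_iff₀ (by positivity)] at this ⊢
    linarith
  have hX1 : X ≤ ‖x 0‖ ^ 2 + Y / η + (1 - η) * X := by
    have h1 : ∀ n ∈ range (N + 1),
        ‖x (n + 1)‖ ^ 2 ≤ ‖y n‖ ^ 2 / η + (1 - η) * ‖x n‖ ^ 2 := fun n _ => by
      have : x (n + 1) = y n + ζ * x n := by simp only [hy]; ring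
      rw [this]
      exact nsq hη hζ
    have h2 := sum_le_sum h1
    rw [sum_add_distrib, ← sum_div, ← mul_sum] at h2
    have h3 := sum_eq (f := fun n => ‖x n‖ ^ 2) hx0 (Nat.le_succ (N + 1))
    rw [sum_range_succ'] at h3
    linarith
  have h6 : 0 < η ^ 6 := by positivity
  constructor
  · have h1 : D * x 0 - ζ * W * x 1 - Z * x 0 = -(ζ * W) * y 0 := by
      simp only [hy]
      linear_combination (x 0) * hDZ
    have h2 : ‖y 0‖ ^ 2 ≤ Y :=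
      single_le_sum (f := fun n => ‖y n‖ ^ 2) (fun n _ => sq_nonneg _) (mem_range.2 (by omega))
    have h3 : ‖ζ * W‖ ≤ 10 / η := by
      rw [norm_mul]
      nlinarith [norm_nonneg ζ]
    have h4 : ‖ζ * W‖ ^ 2 ≤ (10 / η) ^ 2 := pow_le_pow_left₀ (norm_nonneg _) h3 2
    rw [h1, norm_mul, norm_neg, mul_pow]
    calc ‖ζ * W‖ ^ 2 * ‖y 0‖ ^ 2 ≤ (10 / η) ^ 2 * (SE / η ^ 4) :=
          mul_le_mul h4 (h2.trans hY2) (sq_nonneg _) (sq_nonneg _)
      _ = 100 / η ^ 6 * SE := by field_simp; ring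
  · have h1 : η * X ≤ ‖x 0‖ ^ 2 + SE / η ^ 5 := by
      have : Y / η ≤ SE / η ^ 4 / η := div_le_div_of_nonneg_right hY2 hη.le
      have h5 : SE / η ^ 4 / η = SE / η ^ 5 := by field_simp
      linarith
    have h2 : η ^ 5 ≤ 1 := pow_le_one₀ hη.le hη1
    have h3 : η ^ 5 * (η * X) ≤ η ^ 5 * ‖x 0‖ ^ 2 + SE := by
      have := mul_le_mul_of_nonneg_left h1 (by positivity : (0 : ℝ) ≤ η ^ 5)
      have h5 : η ^ 5 * (SE / η ^ 5) = SE := by field_simp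
      nlinarith
    rw [div_mul_eq_mul_div, le_div_iff₀ h6]
    nlinarith [sq_nonneg ‖x 0‖]

end Pool.Agent.P.MP_cc4a10_gt
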