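import Pool.Agent.P.MP_cc4a10_gt.MH3b

/-! High frequency stability of three chains. -/

open Set Filter Topology Complex Metric
open scoped ComplexConjugate Real

noncomputable section

namespace Pool.Agent.P.MP_cc4a10_gt

namespace MH3P

theorem gap_hg {η e : ℝ} (hη : 0 < η) (hη1 : η ≤ 1 / 10) (he : |e| ≤ 7) {s : Sy} {Z : ℂ}
    (hb : Bd (1 / η) s) (hg : Gap η e s Z) :
    HG η (e + s.p) s.c Z ∧ HG η (-I * (e + s.p)) (-I * s.c) (-I * Z) ∧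
      ‖(e : ℂ) + s.p‖ ≤ 2 * (1 / η) ∧ ‖Z + s.p‖ ≤ 4 * (1 / η) := by
  have hM : 10 ≤ 1 / η := by rw [le_div_iff₀ hη]; linarith
  have h1 : ‖(e : ℂ) + s.p‖ ≤ 2 * (1 / η) := by
    have := norm_add_le (e : ℂ) s.p
    rw [Complex.norm_real, Real.norm_eq_abs] at this
    linarith [hb.1]
  have h2 : ‖Z‖ ≤ 3 * (1 / η) := by
    have a1 : ‖Z‖ ^ 2 ≤ ‖(e : ℂ) + s.p‖ ^ 2 + ‖s.c‖ ^ 2 := by
      rw [← norm_pow, hg.1, Om, ← norm_pow, ← norm_pow]
      exact norm_sub_le _ _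
    have a2 := pow_le_pow_left₀ (norm_nonneg _) h1 2
    have a3 := pow_le_pow_left₀ (norm_nonneg _) hb.2.1 2
    exact (abs_le_of_sq_le_sq' (by nlinarith) (by linarith)).2
  have h3 : ‖(e : ℂ) + s.p + Z‖ ≤ 10 / η := by
    have := norm_add_le ((e : ℂ) + s.p) Z
    have h4 : 10 / η = 10 * (1 / η) := by ring
    linarith
  have h4 : ‖-I * (e + s.p) + -I * Z‖ = ‖(e : ℂ) + s.p + Z‖ := by
    rw [← mul_add, norm_mul, norm_neg, norm_I, one_mul]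
  refine ⟨⟨hg.1, hg.2.1, hg.2.2, h3⟩, ⟨?_, ?_, ?_, ?_⟩, h1, ?_⟩
  · have h5 : Z ^ 2 = (e + s.p) ^ 2 - s.c ^ 2 := hg.1
    linear_combination (-I) ^ 2 * h5
  · rw [h4, norm_mul, norm_neg, norm_I, one_mul]; exact hg.2.1
  · rw [h4]; exact hg.2.2
  · rw [h4]; exact h3
  · linarith [norm_add_le Z s.p, hb.1]

theorem sum_short (f : ℕ → ℝ) (N : ℕ) (h1 : f (N + 1) = 0) (h2 : f (N + 2) = 0) :
    ∑ n ∈ Finset.range (N + 3), f n = ∑ n ∈ Finset.range (N + 1), f n := by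
  rw [Finset.sum_range_succ, Finset.sum_range_succ, h1, h2, add_zero, add_zero]

theorem sx_short {a : ℕ → T3} {N : ℕ} (h : Fs N a) :
    sx a N = ∑ n ∈ Finset.range (N + 1), ‖cx a n‖ ^ 2 :=
  sum_short _ N (by simp [h (N + 1) (by omega)]) (by simp [h (N + 2) (by omega)])

theorem sX_conj (a : ℕ → T3) (N : ℕ) : sX a N = ∑ n ∈ Finset.range (N + 3), ‖cX a n‖ ^ 2 := by
  simp [sX, cX]

theorem sX_short {a : ℕ → T3} {N : ℕ} (h : Fs N a) :
    sX a N = ∑ n ∈ Finset.range (N + 1), ‖cX a n‖ ^ 2 := by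
  rw [sX_conj]
  exact sum_short _ N (by simp [cX, h (N + 1) (by omega)]) (by simp [cX, h (N + 2) (by omega)])

/-- Upper bound for the rows of one chain. -/
theorem rows_le {M : ℝ} {D c P m m' : ℂ} (hD : ‖D‖ ≤ 2 * M) (hc : ‖c‖ ≤ M) (hP : ‖P‖ ≤ M)
    (hm : ‖m‖ ≤ M) (hm' : ‖m'‖ ≤ M) (x y w : ℕ → ℂ) (N : ℕ) :
    ‖D * x 0 - c * x 1 + (P * x 0 + m * y 0 + m' * w 0)‖ ^ 2 + II D c x N
      ≤ 180 * M ^ 2 * (∑ n ∈ Finset.range (N + 3), ‖x n‖ ^ 2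
        + ∑ n ∈ Finset.range (N + 3), ‖y n‖ ^ 2 + ∑ n ∈ Finset.range (N + 3), ‖w n‖ ^ 2) := by
  have h1 := e0_le hD hc hP hm hm' (x 0) (x 1) (y 0) (w 0)
  have h2 := II_le hD hc x N
  have a1 := sh01 (fun n => ‖x n‖ ^ 2) (fun _ => sq_nonneg _) N
  have a2 := sh01 (fun n => ‖y n‖ ^ 2) (fun _ => sq_nonneg _) N
  have a3 := sh01 (fun n => ‖w n‖ ^ 2) (fun _ => sq_nonneg _) N
  have b1 : ‖x 0‖ ^ 2 + ‖x 1‖ ^ 2 + ‖y 0‖ ^ 2 + ‖w 0‖ ^ 2 ≤ ∑ n ∈ Finset.range (N + 3), ‖x n‖ ^ 2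
      + ∑ n ∈ Finset.range (N + 3), ‖y n‖ ^ 2 + ∑ n ∈ Finset.range (N + 3), ‖w n‖ ^ 2 := by
    linarith [sq_nonneg ‖y 1‖, sq_nonneg ‖w 1‖]
  have b2 : 0 ≤ ∑ n ∈ Finset.range (N + 3), ‖y n‖ ^ 2 + ∑ n ∈ Finset.range (N + 3), ‖w n‖ ^ 2 := by
    positivity
  linarith only [h1, h2, mul_le_mul_of_nonneg_left b1 (sq_nonneg M), mul_nonneg (sq_nonneg M) b2]

theorem fs_mono {a : ℕ → T3} {N N' : ℕ} (h : N ≤ N') (ha : Fs N a) : Fs N' a :=
  fun n hn => ha n (h.trans hn)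

theorem T_sq (a b c : ℕ → T3) (N : ℕ) :
    (‖(a 0).s‖ + ‖(b 0).s‖ + ‖(c 0).s‖) ^ 2 ≤ 3 * (ss a N + ss b N + ss c N) ∧
    (mm (a 0) + mm (b 0) + mm (c 0)) ^ 2 ≤ 9 * (sx a N + sX a N + sx b N + sX b N + sx c N + sX c N
      + (ss a N + ss b N + ss c N)) := by
  have p : ∀ a : ℕ → T3, ‖(a 0).s‖ ^ 2 ≤ ss a N := fun a => by
    have p1 : ‖(a 0).s‖ ^ 2 + ‖(a 1).s‖ ^ 2 ≤ ss a N :=
      sh01 (fun n => ‖(a n).s‖ ^ 2) (fun _ => sq_nonneg _) N
    linarith [sq_nonneg ‖(a 1).s‖]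
  have q : ∀ a : ℕ → T3, mm (a 0) ^ 2 ≤ 3 * (sx a N + sX a N + ss a N) := fun a => by
    have p2 := sh01 (fun n => hh (a n)) (fun _ => hh_nonneg _) N
    rw [sum_hh] at p2
    linarith [mm_sq (a 0), hh_nonneg (a 1)]
  constructor
  · linarith [sq3 ‖(a 0).s‖ ‖(b 0).s‖ ‖(c 0).s‖, p a, p b, p c]
  · linarith [sq3 (mm (a 0)) (mm (b 0)) (mm (c 0)), q a, q b, q c]

end MH3P

open MH3P in
theorem pMH3 (hH : S_Half) : S_MH3 := by
  intro η e hη hη1 he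
  obtain ⟨C, hC1, hC⟩ := xsys hH hη (4 * (1 / η))
  obtain ⟨M, hM⟩ : ∃ M, M = 1 / η := ⟨_, rfl⟩
  have hM10 : 10 ≤ M := by rw [hM, le_div_iff₀ hη]; linarith
  obtain ⟨K, hK⟩ : ∃ K, K = 100 * M ^ 2 := ⟨_, rfl⟩
  have K0 : 0 < K := by rw [hK]; positivity
  obtain ⟨δ, hδ⟩ : ∃ δ, δ = 1 / (224 * K * C) := ⟨_, rfl⟩
  have C0 : 0 < C := by linarith
  have δ0 : 0 < δ := by rw [hδ]; positivity
  have hδK : δ * K = 1 / (224 * C) := by rw [hδ]; field_simp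
  obtain ⟨U, hU⟩ : ∃ U, U = 3 * (28 + 2 / η ^ 2) := ⟨_, rfl⟩
  have U0 : 0 < U := by rw [hU]; positivity
  refine ⟨2 * (2 + 1 / δ + 10 * K), 1 / (8 * C * U), U * (540 * M ^ 2) / η ^ 2, by positivity,
    by positivity, ?_⟩
  intro s s1 s2 Z Z1 Z2 r L L' b0' b1 b2 g0 g1 g2 hdet hr hr5 hL hL' N Na Nb a b c hNa hNb fa fb fc
  obtain ⟨ga, -, Da, Za⟩ := gap_hg hη hη1 he b0' g0
  obtain ⟨-, gb, Db, Zb⟩ := gap_hg hη hη1 he b1 g1
  obtain ⟨-, gc, Dc, Zc⟩ := gap_hg hη hη1 he b2 g2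
  rw [← hM] at b0' b1 b2 Da Db Dc Za Zb Zc hC
  obtain ⟨ap, ac, -, az0, az1, -, ag0, ag1, -⟩ := b0'
  obtain ⟨bp, bc', bch, bz0, bz1, bzh, bg0, bg1, bgh⟩ := b1
  obtain ⟨cp, cc, cch, cz0, cz1, czh, cg0, cg1, cgh⟩ := b2
  have eM : ‖(e : ℂ)‖ ≤ M := by rw [Complex.norm_real, Real.norm_eq_abs]; linarith
  have fa' := fs_mono hNa fa
  have fb' := fs_mono hNb fb
  have fc' := fs_mono hNb fc
  have δ1 : 0 < 1 / δ := by positivity
  have L1 : 1 ≤ L := by linarith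
  have hdet' : η ≤ ‖Matrix.det !![Z + s.p, I * s1.ch, -I * s2.ch;
      I * s1.ch, -I * Z1 + -I * s1.p, e; -I * s2.ch, e, -I * Z2 + -I * s2.p]‖ := by
    rw [← mul_add, ← mul_add]; exact hdet
  have up : ∀ {z : ℂ}, ‖z‖ ≤ M → ‖z‖ ≤ 4 * M := fun h => h.trans (by linarith)
  have hsys := fun (x y w : ℕ → ℂ) => hC (e + s.p) s.c Z s.p (-I * (e + s1.p)) (-I * s1.c) (-I * Z1)
    (-I * s1.p) (-I * (e + s2.p)) (-I * s2.c) (-I * Z2) (-I * s2.p) (I * s1.ch) (-I * s2.ch) e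
    x y w N ga gb gc Za (by rw [← mul_add]; exact bj Zb) (by rw [← mul_add]; exact bj Zc)
    (up (bi bch)) (up (bj cch)) (up eM) hdet'
  have hx := hsys (cx a) (cx b) (cx c) (fun n hn => by simp [cx, fa' n hn])
    (fun n hn => by simp [cx, fb' n hn]) (fun n hn => by simp [cx, fc' n hn])
  have hX := hsys (cX a) (cX b) (cX c) (fun n hn => by simp [cX, fa' n hn])
    (fun n hn => by simp [cX, fb' n hn]) (fun n hn => by simp [cX, fc' n hn])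
  rw [← sx_short fa', ← sx_short fb', ← sx_short fc'] at hx
  rw [← sX_short fa', ← sX_short fb', ← sX_short fc'] at hX
  have ua := fun x y w => rows_le Da ac ap (bi bch) (bj cch) x y w N
  have ub := fun x y w => rows_le (bj Db) (bj bc') (bj bp) eM (bi bch) x y w N
  have uc := fun x y w => rows_le (bj Dc) (bj cc) (bj cp) eM (bj cch) x y w N
  have ua1 := ua (cx a) (cx b) (cx c)
  have ub1 := ub (cx b) (cx c) (cx a)
  have uc1 := uc (cx c) (cx b) (cx a)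
  have ua2 := ua (cX a) (cX b) (cX c)
  have ub2 := ub (cX b) (cX c) (cX a)
  have uc2 := uc (cX c) (cX b) (cX a)
  rw [← sX_conj, ← sX_conj, ← sX_conj] at ua2 ub2 uc2
  change _ ≤ _ * (sx a N + sx b N + sx c N) at ua1
  change _ ≤ _ * (sx b N + sx c N + sx a N) at ub1
  change _ ≤ _ * (sx c N + sx b N + sx a N) at uc1
  have ca := chain (l := L) (g := s.g0 - L) δ0 (e + s.p) s.c az0 az1 (by simpa using ag0) ag1 a N fa'
    (aT := s.p * (a 0).x + I * s1.ch * (b 0).x - I * s2.ch * (c 0).x + s.z0 * (a 0).s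
        - kp * (s1.zh * (b 0).s - s2.zh * (c 0).s))
    (bT := conj s.p * (a 0).X + conj (I * s1.ch) * (b 0).X - conj (I * s2.ch) * (c 0).X
        - (conj s.z0 * (a 0).s - (conj (kp * s1.zh) * (b 0).s - conj (kp * s2.zh) * (c 0).s)))
    (cT := -(s.z0 * (a 0).x - conj s.z0 * (a 0).X) / 2 + (kp * (s1.zh * (b 0).x - s2.zh * (c 0).x)
        - (conj (kp * s1.zh) * (b 0).X - conj (kp * s2.zh) * (c 0).X)) / 2
        + (s.g0 - L) * (a 0).s - (s1.gh * (b 0).s - s2.gh * (c 0).s) / 2)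
    (s.p * cx a 0 + I * s1.ch * cx b 0 + -I * s2.ch * cx c 0)
    (s.p * cX a 0 + I * s1.ch * cX b 0 + -I * s2.ch * cX c 0)
    (lin3 az0 (bn (bk bzh)) (bk czh) (a 0).s (b 0).s (c 0).s (by simp only [cx]; ring))
    (lin3 (bn (bc az0)) (bc (bk bzh)) (bn (bc (bk czh))) (a 0).s (b 0).s (c 0).s
      (by simp only [cX, map_add, map_mul, map_neg, conj_conj]; ring))
    (lin9 (bh (bn az0)) (bh (bc az0)) ag0 (bh (bk bzh)) (bh (bn (bc (bk bzh)))) (bh (bn bgh))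
      (bh (bn (bk czh))) (bh (bc (bk czh))) (bh cgh) (a 0) (b 0) (c 0) (by ring)) rfl rfl
  have cb := chain (l := L' / 2) (g := (s1.g0 - L') / 2) δ0 (-I * (e + s1.p)) (-I * s1.c) (bk bz0)
    (bk bz1) ((congrArg norm (by push_cast; ring)).trans_le (bh bg0)) (bh bg1) b N fb'
    (aT := -I * s1.p * (b 0).x + e * (c 0).x + I * s1.ch * (a 0).x + kp * s1.z0 * (b 0).s
      - kp * s1.zh * (a 0).s)
    (bT := conj (-I * s1.p) * (b 0).X + e * (c 0).X + conj (I * s1.ch) * (a 0).X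
        - (conj (kp * s1.z0) * (b 0).s - conj (kp * s1.zh) * (a 0).s))
    (cT := -(kp * s1.z0 * (b 0).x - conj (kp * s1.z0) * (b 0).X) / 2
        + (kp * s1.zh * (a 0).x - conj (kp * s1.zh) * (a 0).X) / 2
        + (s1.g0 - L') / 2 * (b 0).s - s1.gh / 2 * (a 0).s)
    (-I * s1.p * cx b 0 + e * cx c 0 + I * s1.ch * cx a 0)
    (-I * s1.p * cX b 0 + e * cX c 0 + I * s1.ch * cX a 0)
    (lin3 (bn (bk bzh)) (bk bz0) (b0 eM) (a 0).s (b 0).s (c 0).s (by simp only [cx]; ring))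
    (lin3 (bc (bk bzh)) (bn (bc (bk bz0))) (b0 eM) (a 0).s (b 0).s (c 0).s
      (by simp only [cX, map_add, map_mul, map_neg, conj_conj, conj_ofReal]; ring))
    (lin9 (bh (bk bzh)) (bh (bn (bc (bk bzh)))) (bn (bh bgh)) (bh (bn (bk bz0))) (bh (bc (bk bz0)))
      (bh bg0) (b0 eM) (b0 eM) (b0 eM) (a 0) (b 0) (c 0) (by push_cast; ring)) rfl rfl
  have cc' := chain (l := L' / 2) (g := (s2.g0 - L') / 2) δ0 (-I * (e + s2.p)) (-I * s2.c) (bk cz0)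
    (bk cz1) ((congrArg norm (by push_cast; ring)).trans_le (bh cg0)) (bh cg1) c N fc'
    (aT := -I * s2.p * (c 0).x + e * (b 0).x - I * s2.ch * (a 0).x + kp * s2.z0 * (c 0).s
      + kp * s2.zh * (a 0).s)
    (bT := conj (-I * s2.p) * (c 0).X + e * (b 0).X - conj (I * s2.ch) * (a 0).X
        - (conj (kp * s2.z0) * (c 0).s + conj (kp * s2.zh) * (a 0).s))
    (cT := -(kp * s2.z0 * (c 0).x - conj (kp * s2.z0) * (c 0).X) / 2
        - (kp * s2.zh * (a 0).x - conj (kp * s2.zh) * (a 0).X) / 2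
        + (s2.g0 - L') / 2 * (c 0).s + s2.gh / 2 * (a 0).s)
    (-I * s2.p * cx c 0 + e * cx b 0 + -I * s2.ch * cx a 0)
    (-I * s2.p * cX c 0 + e * cX b 0 + -I * s2.ch * cX a 0)
    (lin3 (bk czh) (b0 eM) (bk cz0) (a 0).s (b 0).s (c 0).s (by simp only [cx]; ring))
    (lin3 (bn (bc (bk czh))) (b0 eM) (bn (bc (bk cz0))) (a 0).s (b 0).s (c 0).s
      (by simp only [cX, map_add, map_mul, map_neg, conj_conj, conj_ofReal]; ring))
    (lin9 (bh (bn (bk czh))) (bh (bc (bk czh))) (bh cgh) (b0 eM) (b0 eM) (b0 eM)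
      (bh (bn (bk cz0))) (bh (bc (bk cz0))) (bh cg0) (a 0) (b 0) (c 0) (by push_cast; ring)) rfl rfl
  set ea := (e + s.p) * cx a 0 - s.c * cx a 1
    + (s.p * cx a 0 + I * s1.ch * cx b 0 + -I * s2.ch * cx c 0)
  set EA := (e + s.p) * cX a 0 - s.c * cX a 1
    + (s.p * cX a 0 + I * s1.ch * cX b 0 + -I * s2.ch * cX c 0)
  set eb := -I * (e + s1.p) * cx b 0 - -I * s1.c * cx b 1
    + (-I * s1.p * cx b 0 + e * cx c 0 + I * s1.ch * cx a 0)
  set EB := -I * (e + s1.p) * cX b 0 - -I * s1.c * cX b 1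
    + (-I * s1.p * cX b 0 + e * cX c 0 + I * s1.ch * cX a 0)
  set ec := -I * (e + s2.p) * cx c 0 - -I * s2.c * cx c 1
    + (-I * s2.p * cx c 0 + e * cx b 0 + -I * s2.ch * cx a 0)
  set EC := -I * (e + s2.p) * cX c 0 - -I * s2.c * cX c 1
    + (-I * s2.p * cX c 0 + e * cX b 0 + -I * s2.ch * cX a 0)
  refine ⟨tst (e + s.p) s.c a ea EA, tst (-I * (e + s1.p)) (-I * s1.c) b eb EB,
    tst (-I * (e + s2.p)) (-I * s2.c) c ec EC, tst_fs _ _ _ _ fa, tst_fs _ _ _ _ fb,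
    tst_fs _ _ _ _ fc, ?_, ?_⟩
  · have hle := nM3_le hη hr hr5 L1 a b c N
    rw [← hU] at hle
    obtain ⟨t1, t2⟩ := T_sq a b c N
    have hform := add_le_add (add_le_add ca cb) cc'
    rw [← add_re, ← add_re, ← hK] at hform
    refine le_trans ?_ (hform.trans_eq (congrArg re ?_))
    swap
    · simp only [bM3, bM1, bP, bC, bT, Finset.sum_add_distrib]
      ring
    obtain ⟨Q, hQ⟩ : ∃ Q, Q = sx a N + sX a N + sx b N + sX b N + sx c N + sX c N := ⟨_, rfl⟩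
    obtain ⟨S, hS⟩ : ∃ S, S = ss a N + ss b N + ss c N := ⟨_, rfl⟩
    have sa := ss_nonneg a N
    have sb := ss_nonneg b N
    have sc := ss_nonneg c N
    have S0 : 0 ≤ S := by rw [hS]; positivity
    have Q0 : 0 ≤ Q := by
      rw [hQ]
      linarith [sx_nonneg a N, sX_nonneg a N, sx_nonneg b N, sX_nonneg b N, sx_nonneg c N,
        sX_nonneg c N]
    obtain ⟨E, hE⟩ : ∃ E, E = ((‖ea‖ ^ 2 + MH3P.II (e + s.p) s.c (cx a) N)
        + (‖eb‖ ^ 2 + MH3P.II (-I * (e + s1.p)) (-I * s1.c) (cx b) N)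
        + (‖ec‖ ^ 2 + MH3P.II (-I * (e + s2.p)) (-I * s2.c) (cx c) N))
      + ((‖EA‖ ^ 2 + MH3P.II (e + s.p) s.c (cX a) N)
        + (‖EB‖ ^ 2 + MH3P.II (-I * (e + s1.p)) (-I * s1.c) (cX b) N)
        + (‖EC‖ ^ 2 + MH3P.II (-I * (e + s2.p)) (-I * s2.c) (cX c) N)) := ⟨_, rfl⟩
    have hQE : Q ≤ C * E := by rw [hQ, hE, mul_add]; linarith only [hx, hX]
    have hQE' : 1 / C * Q ≤ E := by
      rw [one_div, inv_mul_le_iff₀ C0]; exact hQE
    rw [← hQ, ← hS] at hle t2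
    rw [← hS] at t1
    have l1 := abs_le.mp hL'
    have m1 := mul_le_mul_of_nonneg_right (show L - 1 ≤ 2 * L by linarith) sa
    have m2 := mul_le_mul_of_nonneg_right (show L - 1 ≤ L' by linarith) sb
    have m3 := mul_le_mul_of_nonneg_right (show L - 1 ≤ L' by linarith) sc
    have m4 := mul_le_mul_of_nonneg_left t1 K0.le
    have m5 := mul_le_mul_of_nonneg_left t2 (mul_pos δ0 K0).le
    have m6 := mul_le_mul_of_nonneg_right hL S0
    have iC : 1 / C ≤ 1 := by rw [div_le_one C0]; exact hC1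
    have m7 := mul_le_mul_of_nonneg_right iC S0
    have m8 := mul_le_mul_of_nonneg_right iC (mul_nonneg (zero_le_one.trans L1) S0)
    have m9 : 1 / (8 * C * U) * nM3 r L (N + 2) a b c ≤ 1 / C / 8 * (Q + L * S) := by
      have := mul_le_mul_of_nonneg_left hle (show 0 ≤ 1 / (8 * C * U) by positivity)
      refine this.trans_eq ?_
      field_simp
    have m10 : δ * K * (Q + S) = 1 / C / 224 * (Q + S) := by rw [hδK]; field_simp
    have m11 := mul_nonneg (zero_le_one.trans L1) S0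
    have e1 : (L - 1) * S = (L - 1) * ss a N + (L - 1) * ss b N + (L - 1) * ss c N := by
      rw [hS]; ring
    have e2 : 1 / δ * S = 1 / δ * ss a N + 1 / δ * ss b N + 1 / δ * ss c N := by rw [hS]; ring
    have e3 : K * S = K * ss a N + K * ss b N + K * ss c N := by rw [hS]; ring
    have e4 : δ * K * (Q + S) = δ * K * (sx a N + sX a N + ss a N)
        + δ * K * (sx b N + sX b N + ss b N) + δ * K * (sx c N + sX c N + ss c N) := by
      rw [hQ, hS]; ring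
    linarith only [m1, m2, m3, m4, m5, m6, m7, m8, m9, m10, m11, e1, e2, e3, e4, hE, hQE', S0]
  · have hle := nM3_le hη hr hr5 L1 (tst (e + s.p) s.c a ea EA)
      (tst (-I * (e + s1.p)) (-I * s1.c) b eb EB) (tst (-I * (e + s2.p)) (-I * s2.c) c ec EC) N
    rw [← hU, tst_ss, tst_ss, tst_ss, tst_sx _ _ _ _ fa', tst_sx _ _ _ _ fb', tst_sx _ _ _ _ fc',
      tst_sX _ _ _ _ fa', tst_sX _ _ _ _ fb', tst_sX _ _ _ _ fc'] at hle
    have hge := nM3_ge hη (by linarith) hr L1 c fa' fb'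
    have S0 : 0 ≤ L * (ss a N + ss b N + ss c N) :=
      mul_nonneg (by linarith) (by linarith [ss_nonneg a N, ss_nonneg b N, ss_nonneg c N])
    have M1 : 1 ≤ 540 * M ^ 2 := by nlinarith only [hM10]
    have m1 := mul_le_mul_of_nonneg_right M1 S0
    refine hle.trans ?_
    have m2 := mul_le_mul_of_nonneg_left hge (show 0 ≤ U * (540 * M ^ 2) / η ^ 2 by positivity)
    refine le_trans ?_ m2
    have e1 : ∀ y : ℝ, U * (540 * M ^ 2) / η ^ 2 * (η ^ 2 * y) = U * (540 * M ^ 2 * y) := by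
      intro y; field_simp
    rw [e1]
    refine mul_le_mul_of_nonneg_left ?_ U0.le
    linarith only [ua1, ub1, uc1, ua2, ub2, uc2, m1]

end Pool.Agent.P.MP_cc4a10_gt
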