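import Pool.Agent.P.MP_cc4a10_gt.ML3a

/-! Low frequency stability of three chains. -/

open Complex
open scoped ComplexConjugate Real

namespace Pool.Agent.P.MP_cc4a10_gt

namespace ML3P

theorem tr1 {r : ℝ} (hr : 0 ≤ r) (x y : ℂ) :
    r * ‖x‖ ^ 2 ≤ r * ‖y‖ ^ 2 + (‖x - y‖ ^ 2 + r ^ 2 * (‖x‖ ^ 2 + ‖y‖ ^ 2)) := by
  have h1 : ‖x‖ - ‖y‖ ≤ ‖x - y‖ := norm_sub_norm_le x y
  have h2 : r * ((‖x‖ - ‖y‖) * (‖x‖ + ‖y‖)) ≤ r * (‖x - y‖ * (‖x‖ + ‖y‖)) := by gcongr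
  nlinarith [sq_nonneg (‖x - y‖ - r * (‖x‖ + ‖y‖)), sq_nonneg (r * (‖x‖ - ‖y‖)),
    sq_nonneg ‖x - y‖]

theorem trace {r L : ℝ} (hr : 0 ≤ r) (hL : 0 ≤ L) (a : ℕ → T3) (M : ℕ) :
    r * (‖(a 0).x‖ ^ 2 + ‖(a 0).X‖ ^ 2) ≤ nM1 r L M a + r * (‖(a M).x‖ ^ 2 + ‖(a M).X‖ ^ 2) := by
  induction M with
  | zero => simp [nM1]
  | succ M ih =>
    have h1 := tr1 hr (a M).x (a (M + 1)).x
    have h2 := tr1 hr (a M).X (a (M + 1)).X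
    have h3 : 0 ≤ L * (‖(a M).s‖ ^ 2 + ‖(a (M + 1)).s‖ ^ 2) := by positivity
    have h4 : 0 ≤ ‖(a M).s - (a (M + 1)).s‖ ^ 2 / r ^ 2 := by positivity
    simp only [nM1, Finset.sum_range_succ, nU] at ih ⊢
    linarith

theorem nU_nonneg (r : ℝ) {L : ℝ} (hL : 0 ≤ L) (A B : T3) : 0 ≤ nU r L A B := by
  unfold nU; positivity

theorem n1_nonneg {L : ℝ} (hL : 0 ≤ L) (A : T3) : 0 ≤ n1 L A := by unfold n1; positivity

theorem nU_TL (r L : ℝ) (A B : T3) : nU r L (TL A) (TL B) = nU r L A B := by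
  have h1 : ‖(TL A).x - (TL B).x‖ = ‖A.X - B.X‖ := by simp [TL, ← mul_sub, norm_wq]
  have h2 : ‖(TL A).X - (TL B).X‖ = ‖A.x - B.x‖ := by simp [TL, ← mul_sub, norm_wq]
  have h3 : ‖(TL A).s - (TL B).s‖ = ‖A.s - B.s‖ := by
    simp only [TL, neg_sub_neg, norm_sub_rev]
  simp only [nU, h1, h2, h3, TL_x, TL_X, TL_s]
  ring

theorem n1_TL (L : ℝ) (A : T3) : n1 L (TL A) = n1 L A := by
  simp only [n1, TL_x, TL_X, TL_s]
  ring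

theorem TL_zero : TL 0 = 0 := by
  change TL ⟨0, 0, 0⟩ = ⟨0, 0, 0⟩
  simp [TL]

theorem sq_le {a b c : ℝ} (ha : 0 ≤ a) (h : a ≤ b + c) : a ^ 2 ≤ 2 * b ^ 2 + 2 * c ^ 2 := by
  have := pow_le_pow_left₀ ha h 2
  nlinarith [sq_nonneg (b - c)]

theorem n1_TC {L : ℝ} (hL : 0 ≤ L) (r : ℝ) (A B C : T3) :
    n1 L (TC A B C) ≤ 2 * n1 L C + 8 * nU r L A B := by
  have h1 := sq_le (norm_nonneg _) (TC_x A B C)
  have h2 := sq_le (norm_nonneg _) (TC_X A B C)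
  have h3 : ‖(TC A B C).s‖ = ‖C.s‖ := by simp [TC]
  have h4 : 0 ≤ r ^ 2 * (‖A.x‖ ^ 2 + ‖A.X‖ ^ 2 + ‖B.x‖ ^ 2 + ‖B.X‖ ^ 2) := by positivity
  have h5 : 0 ≤ L * (‖A.s‖ ^ 2 + ‖B.s‖ ^ 2) := by positivity
  have h6 : 0 ≤ ‖A.s - B.s‖ ^ 2 / r ^ 2 := by positivity
  have h7 : 0 ≤ L * ‖C.s‖ ^ 2 := by positivity
  simp only [n1, nU, h3]
  linarith

theorem bs {η L M : ℝ} {u : ℂ} (hη : 0 ≤ η) (h1 : 1 ≤ η ^ 2 * L) (h : L * ‖u‖ ^ 2 ≤ M) :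
    ‖u‖ ≤ η * √M := by
  rw [← Real.sqrt_sq hη, ← Real.sqrt_mul (sq_nonneg η)]
  refine Real.le_sqrt_of_sq_le ?_
  nlinarith [sq_nonneg ‖u‖, sq_nonneg η, mul_le_mul_of_nonneg_left h (sq_nonneg η)]

theorem bn {η L M : ℝ} {A : T3} (hη : 0 ≤ η) (hL : 0 ≤ L) (h1 : 1 ≤ η ^ 2 * L)
    (h : n1 L A ≤ M) : ‖A.x‖ ≤ √M ∧ ‖A.X‖ ≤ √M ∧ ‖A.s‖ ≤ η * √M := by
  have h2 : 0 ≤ L * ‖A.s‖ ^ 2 := by positivity
  unfold n1 at h
  exact ⟨Real.le_sqrt_of_sq_le (by linarith [sq_nonneg ‖A.X‖]),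
    Real.le_sqrt_of_sq_le (by linarith [sq_nonneg ‖A.x‖]),
    bs hη h1 (by linarith [sq_nonneg ‖A.X‖, sq_nonneg ‖A.x‖])⟩

theorem kp_sq : ‖kp‖ ^ 2 = 1 / 2 := by
  rw [Complex.sq_norm, normSq_apply]
  simp [kp]
  norm_num

theorem kp_le : ‖kp‖ ≤ 1 := by nlinarith [kp_sq, norm_nonneg kp]

theorem kp_ne : kp ≠ 0 := fun h => by simpa [h] using kp_sq

theorem kk {z : ℂ} {a : ℝ} (h : ‖z‖ ≤ a) : ‖kp * z‖ ≤ a := by
  simpa using norm_mul_le_of_le kp_le h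

theorem nk_le (θ : ℂ) : ‖θ * kp‖ ≤ ‖θ‖ := by
  rw [mul_comm]
  exact kk le_rfl

theorem nk_sq (θ : ℂ) : ‖θ * kp‖ ^ 2 = ‖θ‖ ^ 2 / 2 := by rw [norm_mul, mul_pow, kp_sq]; ring

theorem kz {z θ : ℂ} {C : ℝ} (hC : 0 ≤ C) (h : ‖z + 2 * π * I / (θ * kp)‖ ≤ C * ‖θ * kp‖) :
    ‖kp * z + 2 * π * I / θ‖ ≤ C * ‖θ‖ := by
  have h1 : kp * z + 2 * π * I / θ = kp * (z + 2 * π * I / (θ * kp)) := by
    rw [mul_add, mul_comm θ, ← div_div, ← mul_div_assoc, mul_div_cancel₀ _ kp_ne]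
  rw [h1]
  exact kk (h.trans (mul_le_mul_of_nonneg_left (nk_le θ) hC))

theorem kg {g θ : ℂ} {C : ℝ} (h : ‖g + 2 * π / ‖θ * kp‖ ^ 2‖ ≤ C) :
    ‖g / 2 + 2 * π / ‖θ‖ ^ 2‖ ≤ C := by
  have h1 : g / 2 + 2 * π / ‖θ‖ ^ 2 = (g + 2 * π / ‖θ * kp‖ ^ 2) / 2 := by
    rw [← ofReal_pow ‖θ * kp‖, nk_sq]
    push_cast
    rw [div_div_eq_mul_div]
    ring
  rw [h1]
  exact hv h

theorem kb (θ : ℂ) : π * conj (θ * kp) / (θ * kp) = I * (π * conj θ / θ) := by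
  have h : conj kp = I * kp := by
    simp only [kp, map_div₀, map_sub, map_one, conj_I, map_ofNat]
    linear_combination (1 / 2) * I_sq
  rw [map_mul, h, ← div_div, show π * (conj θ * (I * kp)) / θ = I * (π * conj θ / θ) * kp by ring,
    mul_div_cancel_right₀ _ kp_ne]

theorem sub_le {u v w : ℂ} {a b : ℝ} (h1 : ‖u + w‖ ≤ a) (h2 : ‖v + w‖ ≤ b) : ‖u - v‖ ≤ a + b := by
  simpa using norm_sub_le_of_le h1 h2

end ML3P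

open ML3P in
theorem pML3 (hL : S_Lvl) : S_ML3 := by
  intro C c0 e hC hc0 he he'
  obtain ⟨r0, L0, c1, hr0, hc1, H⟩ := hL (2 * C) e (c0 / 8) (by positivity) he he' (by positivity)
  obtain ⟨μ, hμ, hμ1, hμ2, hμ3⟩ : ∃ μ : ℝ, 0 < μ ∧ μ ≤ c1 / 4 ∧ μ ≤ c0 / 8 ∧ μ ≤ 1 / 4 :=
    ⟨min (c1 / 4) (min (c0 / 8) (1 / 4)), by positivity, min_le_left _ _,
      (min_le_right _ _).trans (min_le_left _ _), (min_le_right _ _).trans (min_le_right _ _)⟩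
  obtain ⟨η, hη, hη1, hη2⟩ : ∃ η : ℝ, 0 < η ∧ η ≤ 1 ∧ η * (174 * C + c0 + 1) ≤ μ / 2 :=
    ⟨min 1 (μ / 2 / (174 * C + c0 + 1)), by positivity, min_le_left _ _,
      (le_div_iff₀ (by positivity)).1 (min_le_right _ _)⟩
  refine ⟨min r0 (η ^ 2), 2 * |L0| + 2 + 1 / η ^ 2, μ / 2, 9, by positivity, by positivity,
    by norm_num, ?_⟩
  intro θ s s1 s2 L L' hθ hr h0 h1 h2 hL0 hL' N Na Nb a b c hNa hNb ha hb hc
  obtain ⟨hr1, hr2⟩ := le_min_iff.1 hr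
  have hrp : 0 < ‖θ‖ := norm_pos_iff.2 hθ
  obtain ⟨l1, l2⟩ := abs_le.1 hL'
  have l3 := le_abs_self L0
  have l4 := abs_nonneg L0
  have l5 : 0 < 1 / η ^ 2 := by positivity
  have hL1 : 0 ≤ L := by linarith
  have hL2 : 1 ≤ η ^ 2 * L := by
    rw [mul_comm, ← div_le_iff₀ (by positivity)]
    linarith
  have hrη : ‖θ‖ ≤ η := by nlinarith
  have hr3 : ‖θ‖ ≤ 1 := hrη.trans hη1
  have w1 : C * ‖θ‖ ≤ 2 * C * ‖θ‖ := by nlinarith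
  have w2 : C * ‖θ‖ ^ 2 ≤ C * ‖θ‖ := by gcongr; nlinarith
  have w3 : C ≤ 2 * C := by linarith
  have w5 : C * ‖θ‖ ^ 2 ≤ 2 * C * ‖θ‖ ^ 2 := by gcongr
  have w6 : C * (‖θ‖ ^ 2 / 2) ≤ 2 * C * ‖θ‖ ^ 2 := by gcongr; linarith [sq_nonneg ‖θ‖]
  have w7 : μ * L ≤ L' / 2 := by nlinarith
  have w8 : μ ≤ 1 := by linarith
  have w9 : L0 ≤ L' / 2 := by linarith
  have w10 : 0 ≤ L - L' / 2 := by linarith
  -- levels of the parent and of the first child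
  have A1 : ∀ A B : T3, μ * nU ‖θ‖ L A B ≤ (bP e L s A B (TL A) (TL B)).re := by
    intro A B
    refine le_trans ?_ (H θ 1 (e + s.p) s.c s.z0 s.z1 (s.g0 - L) s.g1 L hθ hr1 (Or.inl rfl)
      (le_trans (by rw [← sub_add, one_mul]; exact h0.c) w1) (h0.z0.trans w1) (h0.z1.trans w1)
      (by rw [sub_add_cancel]; exact h0.g0.trans w3) (h0.g1.trans w3) (by linarith) A B)
    have e1 : μ * ‖θ‖ ^ 2 ≤ (wq * (e + s.p - s.c)).re / 2 - c0 / 8 * ‖θ‖ ^ 2 := by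
      nlinarith [h0.lo1, sq_nonneg ‖θ‖]
    have e2 : μ ≤ c1 := by linarith
    calc _ = μ * (‖A.x - B.x‖ ^ 2 + ‖A.X - B.X‖ ^ 2 + L * (‖A.s‖ ^ 2 + ‖B.s‖ ^ 2)
          + ‖A.s - B.s‖ ^ 2 / ‖θ‖ ^ 2)
          + μ * ‖θ‖ ^ 2 * (‖A.x‖ ^ 2 + ‖A.X‖ ^ 2 + ‖B.x‖ ^ 2 + ‖B.X‖ ^ 2) := by unfold nU; ring
      _ ≤ _ := by gcongr
  have g0' : ‖(s1.g0 - L') / 2 + (L' / 2 : ℝ) + 2 * π / ‖θ‖ ^ 2‖ ≤ 2 * C := by
    rw [show (s1.g0 - L') / 2 + (L' / 2 : ℝ) = s1.g0 / 2 by push_cast; ring]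
    exact (kg h1.g0).trans w3
  have A0 : ∀ A B : T3, 4 * μ * (‖A.x - B.x‖ ^ 2 + ‖A.X - B.X‖ ^ 2) +
      μ * (L * (‖A.s‖ ^ 2 + ‖B.s‖ ^ 2) + ‖A.s - B.s‖ ^ 2 / ‖θ‖ ^ 2) ≤
      c1 * (‖A.x - B.x‖ ^ 2 + ‖A.X - B.X‖ ^ 2 + L' / 2 * (‖A.s‖ ^ 2 + ‖B.s‖ ^ 2)
        + ‖A.s - B.s‖ ^ 2 / ‖θ‖ ^ 2) := by
    intro A B
    have e1 : μ * L ≤ c1 * (L' / 2) := by nlinarith
    have e2 : μ ≤ c1 := by linarith
    have e3 : 4 * μ ≤ c1 := by linarith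
    calc _ = 4 * μ * (‖A.x - B.x‖ ^ 2 + ‖A.X - B.X‖ ^ 2) + μ * L * (‖A.s‖ ^ 2 + ‖B.s‖ ^ 2)
          + μ * (‖A.s - B.s‖ ^ 2 / ‖θ‖ ^ 2) := by ring
      _ ≤ c1 * (‖A.x - B.x‖ ^ 2 + ‖A.X - B.X‖ ^ 2) + c1 * (L' / 2) * (‖A.s‖ ^ 2 + ‖B.s‖ ^ 2)
          + c1 * (‖A.s - B.s‖ ^ 2 / ‖θ‖ ^ 2) := by gcongr
      _ = _ := by ring
  have A2 : ∀ A B : T3, μ * nU ‖θ‖ L A B ≤ (bC e L' s1 A B (TL A) (TL B)).re := by
    intro A B
    refine le_trans ?_ (H θ (-I) (-I * (e + s1.p)) (-I * s1.c) (kp * s1.z0) (kp * s1.z1)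
      ((s1.g0 - L') / 2) (s1.g1 / 2) (L' / 2) hθ hr1 (Or.inr rfl) ?_
      ((kz hC.le h1.z0).trans w1) ((kz hC.le h1.z1).trans w1) g0' ((kg h1.g1).trans w3)
      (by linarith) A B)
    · have e1 : μ * ‖θ‖ ^ 2 ≤ (wq * (-I * (e + s1.p) - -I * s1.c)).re / 2 - c0 / 8 * ‖θ‖ ^ 2 := by
        have e2 := h1.lo2
        rw [nk_sq] at e2
        rw [← mul_sub, ← mul_assoc, wq_mul]
        nlinarith [sq_nonneg ‖θ‖]
      have e2 := mul_le_mul_of_nonneg_right e1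
        (show 0 ≤ ‖A.x‖ ^ 2 + ‖A.X‖ ^ 2 + ‖B.x‖ ^ 2 + ‖B.X‖ ^ 2 by positivity)
      have e3 : 0 ≤ μ * (‖A.x - B.x‖ ^ 2 + ‖A.X - B.X‖ ^ 2) := by positivity
      unfold nU
      linarith only [A0 A B, e2, e3]
    · have e1 : -I * s1.c - (-I * e - π * conj θ / θ) =
          -I * (s1.c - e + π * conj (θ * kp) / (θ * kp)) := by
        rw [kb]
        linear_combination (π * conj θ / θ) * I_sq
      rw [e1]
      exact mi ((h1.c.trans (mul_le_mul_of_nonneg_left (nk_le θ) hC.le)).trans w1)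
  -- levels of the second child
  obtain ⟨-, -, -, b0, b1, -, b2, b3, b4⟩ := h2.bd
  have w4 : C * ‖θ‖ ≤ 2 * C * η := by nlinarith
  have A3 : ∀ A B : T3, μ * n1 L A - 20 * C * η * (n1 L A + n1 L B) ≤
      (bU1 (-I * (e + s2.p)) (-I * s2.c) (kp * s2.z0) (kp * s2.z1) ((s2.g0 - L') / 2) (s2.g1 / 2)
        A B (TL A)).re := by
    intro A B
    obtain ⟨x1, x2, x3⟩ := bn hη.le hL1 hL2 (le_add_of_nonneg_right (n1_nonneg hL1 B) : n1 L A ≤ _)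
    obtain ⟨y1, y2, y3⟩ := bn hη.le hL1 hL2 (le_add_of_nonneg_left (n1_nonneg hL1 A) : n1 L B ≤ _)
    have e1 := half (L' := L') he hη1 (h2.p.trans (w2.trans w4)) (h2.c.trans w4)
      (kk (b0.trans w3)) (kk (b1.trans w3)) (b2.trans w3) (b3.trans w3) x1 x2 x3 y1 y2 y3
    rw [Real.sq_sqrt (add_nonneg (n1_nonneg hL1 A) (n1_nonneg hL1 B))] at e1
    have e2 : μ * L * ‖A.s‖ ^ 2 ≤ L' / 2 * ‖A.s‖ ^ 2 := by gcongr
    have e3 : μ * (‖A.x‖ ^ 2 + ‖A.X‖ ^ 2) ≤ 2 * (‖A.x‖ ^ 2 + ‖A.X‖ ^ 2) := by gcongr; linarith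
    have e4 : μ * n1 L A = μ * (‖A.x‖ ^ 2 + ‖A.X‖ ^ 2) + μ * L * ‖A.s‖ ^ 2 := by unfold n1; ring
    linarith only [e1, e2, e3, e4]
  -- the total norm
  obtain ⟨M, hM⟩ : ∃ M, M = nM3 ‖θ‖ L (N + 2) a b c := ⟨_, rfl⟩
  have s1' : ∑ n ∈ Finset.range (N + 2 + 1), n1 L (c n) =
      ∑ n ∈ Finset.range (N + 2), n1 L (c (n + 1)) + n1 L (c 0) := Finset.sum_range_succ' _ _
  have s2' : ∑ n ∈ Finset.range (N + 2 + 1), n1 L (c n) =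
      ∑ n ∈ Finset.range (N + 2), n1 L (c n) + n1 L (c (N + 2)) := Finset.sum_range_succ _ _
  have s3 : n1 L (c 1) ≤ ∑ n ∈ Finset.range (N + 2), n1 L (c (n + 1)) :=
    Finset.single_le_sum (f := fun n => n1 L (c (n + 1))) (fun n _ => n1_nonneg hL1 _)
      (Finset.mem_range.2 (Nat.succ_pos _))
  have p1 : 0 ≤ nM1 ‖θ‖ L (N + 2) a := Finset.sum_nonneg fun n _ => nU_nonneg _ hL1 _ _
  have p2 : 0 ≤ nM1 ‖θ‖ L (N + 2) b := Finset.sum_nonneg fun n _ => nU_nonneg _ hL1 _ _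
  have p3 := nU_nonneg ‖θ‖ hL1 (a 0) (b 0)
  have p4 := n1_nonneg hL1 (c 0)
  have p5 := n1_nonneg hL1 (c 1)
  have p6 := n1_nonneg hL1 (c (N + 2))
  have hM' : M = nM1 ‖θ‖ L (N + 2) a + nU ‖θ‖ L (a 0) (b 0) + nM1 ‖θ‖ L (N + 2) b +
      (∑ n ∈ Finset.range (N + 2), n1 L (c (n + 1)) + n1 L (c 0)) := by rw [hM, nM3, s1']
  have hM0 : 0 ≤ M := by linarith only [hM', p1, p2, p3, p4, p5, s3]
  have t1 : ‖θ‖ * (‖(a 0).x‖ ^ 2 + ‖(a 0).X‖ ^ 2) ≤ nM1 ‖θ‖ L (N + 2) a := by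
    have := trace hrp.le hL1 a (N + 2)
    rw [ha (N + 2) (by omega)] at this
    exact this.trans_eq (by change _ + _ * (‖(0 : ℂ)‖ ^ 2 + ‖(0 : ℂ)‖ ^ 2) = _; simp)
  have t2 : ‖θ‖ * (‖(b 0).x‖ ^ 2 + ‖(b 0).X‖ ^ 2) ≤ nM1 ‖θ‖ L (N + 2) b := by
    have := trace hrp.le hL1 b (N + 2)
    rw [hb (N + 2) (by omega)] at this
    exact this.trans_eq (by change _ + _ * (‖(0 : ℂ)‖ ^ 2 + ‖(0 : ℂ)‖ ^ 2) = _; simp)
  let c' : ℕ → T3 := fun n => Nat.casesOn n (TC (a 0) (b 0) (c 0)) fun k => TL (c (k + 1))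
  refine ⟨fun n => TL (a n), fun n => TL (b n), c',
    fun n hn => by simp only [ha n (by omega), TL_zero],
    fun n hn => by simp only [hb n (by omega), TL_zero], fun n hn => ?_, ?_, ?_⟩
  · obtain ⟨k, rfl⟩ : ∃ k, n = k + 1 := ⟨n - 1, by omega⟩
    simp only [c', hc (k + 1) (by omega), TL_zero]
  · -- the junction
    have hρ : 0 < √‖θ‖ := Real.sqrt_pos.2 hrp
    have r2 : √‖θ‖ ^ 2 = ‖θ‖ := Real.sq_sqrt hrp.le
    have r4 : √‖θ‖ ^ 4 = ‖θ‖ ^ 2 := by rw [← r2]; ring_nf; simp [r2]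
    have bm : ∀ u : ℂ, ‖θ‖ * ‖u‖ ^ 2 ≤ M → ‖u‖ ≤ √M / √‖θ‖ := fun u hu => by
      rw [← Real.sqrt_div hM0]
      exact Real.le_sqrt_of_sq_le ((le_div_iff₀' hrp).2 hu)
    have q1 : 0 ≤ ‖θ‖ * ‖(a 0).x‖ ^ 2 := by positivity
    have q2 : 0 ≤ ‖θ‖ * ‖(a 0).X‖ ^ 2 := by positivity
    have q3 : 0 ≤ ‖θ‖ * ‖(b 0).x‖ ^ 2 := by positivity
    have q4 : 0 ≤ ‖θ‖ * ‖(b 0).X‖ ^ 2 := by positivity
    have q5 : 0 ≤ L * ‖(a 0).s‖ ^ 2 := by positivity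
    have q6 : 0 ≤ L * ‖(b 0).s‖ ^ 2 := by positivity
    have q7 : ‖(a 0).x - (b 0).x‖ ^ 2 + ‖(a 0).X - (b 0).X‖ ^ 2 + L * ‖(a 0).s‖ ^ 2
        + L * ‖(b 0).s‖ ^ 2 ≤ M := by
      have e1 : 0 ≤ ‖θ‖ ^ 2 * (‖(a 0).x‖ ^ 2 + ‖(a 0).X‖ ^ 2 + ‖(b 0).x‖ ^ 2 + ‖(b 0).X‖ ^ 2) := by
        positivity
      have e2 : 0 ≤ ‖(a 0).s - (b 0).s‖ ^ 2 / ‖θ‖ ^ 2 := by positivity
      unfold nU at hM'
      linarith only [hM', e1, e2, p1, p2, p4, p5, s3]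
    have q8 := sq_nonneg ‖(a 0).x - (b 0).x‖
    have q9 := sq_nonneg ‖(a 0).X - (b 0).X‖
    obtain ⟨x1, x2, x3⟩ := bn hη.le hL1 hL2
      (show n1 L (c 0) ≤ M by linarith only [hM', p1, p2, p3, p5, s3])
    obtain ⟨y1, y2, y3⟩ := bn hη.le hL1 hL2
      (show n1 L (c 1) ≤ M by linarith only [hM', p1, p2, p3, p4, s3])
    have t3 : ‖θ‖ * (‖(a 0).x‖ ^ 2 + ‖(a 0).X‖ ^ 2) ≤ M := by
      linarith only [hM', t1, p2, p3, p4, p5, s3]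
    have t4 : ‖θ‖ * (‖(b 0).x‖ ^ 2 + ‖(b 0).X‖ ^ 2) ≤ M := by
      linarith only [hM', t2, p1, p3, p4, p5, s3]
    have J := junc (K := 2 * C) (L := L) (L' := L') (s := s) (s1 := s1) (s2 := s2) (A := a 0)
      (B := b 0) he hη1 hρ.le (Real.sqrt_le_iff.2 ⟨hη.le, hr2⟩) (mul_div_cancel₀ √M hρ.ne')
      (by rw [r4]; exact h2.pc.trans w5) (by rw [r2]; exact h2.ch.trans w1)
      (by rw [r2]; exact (sub_le h0.z0 (kz hC.le h1.zh)).trans_eq (by ring))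
      (by rw [r2]; exact kk (h2.zh.trans w1)) ((sub_le h0.g0 (kg h1.g0)).trans_eq (by ring))
      (by
        rw [r4]
        refine h1.ch.trans ?_
        rw [nk_sq]
        exact w6)
      (by rw [r2]; exact (sub_le (kz hC.le h1.z0) (kz hC.le h1.zh)).trans_eq (by ring))
      (by rw [r2]; exact h2.p.trans (w2.trans w1)) (by rw [r2]; exact h2.c.trans w1)
      (kk (b0.trans w3)) (kk (b1.trans w3)) (b2.trans w3) (b3.trans w3) (b4.trans w3)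
      (bm _ (by linarith only [t3, q2])) (bm _ (by linarith only [t3, q1]))
      (bs hη.le hL2 (by linarith only [q7, q8, q9, q6]))
      (bm _ (by linarith only [t4, q4])) (bm _ (by linarith only [t4, q3]))
      (bs hη.le hL2 (by linarith only [q7, q8, q9, q5])) x1 x2 x3 y1 y2 y3
      (Real.le_sqrt_of_sq_le (by linarith only [q7, q9, q5, q6]))
      (Real.le_sqrt_of_sq_le (by linarith only [q7, q8, q5, q6]))
    rw [Real.sq_sqrt hM0, add_re] at J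
    have J2 := H θ (-I) (-I * e - I * s1.ch) (-I * e - I * s1.ch) (kp * s1.zh) (kp * s1.zh)
      ((s1.g0 - L') / 2) (s1.gh / 2) (L' / 2) hθ hr1 (Or.inr rfl)
      (by
        rw [show -I * e - I * s1.ch - (-I * e - π * conj θ / θ) =
          (s.p + π * conj θ / θ) - (s.p + I * s1.ch) by ring]
        exact (norm_sub_le_of_le h0.p (h2.pc.trans w2)).trans_eq (by ring))
      ((kz hC.le h1.zh).trans w1) ((kz hC.le h1.zh).trans w1) g0' ((kg h1.gh).trans w3)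
      w9 (a 0) (b 0)
    rw [sub_self, mul_zero, zero_re, zero_div, zero_sub] at J2
    have J3 : ‖θ‖ ^ 2 * (‖(a 0).x‖ ^ 2 + ‖(a 0).X‖ ^ 2 + ‖(b 0).x‖ ^ 2 + ‖(b 0).X‖ ^ 2)
        ≤ η * M := by
      calc _ = ‖θ‖ * (‖θ‖ * (‖(a 0).x‖ ^ 2 + ‖(a 0).X‖ ^ 2)
            + ‖θ‖ * (‖(b 0).x‖ ^ 2 + ‖(b 0).X‖ ^ 2)) := by ring
        _ ≤ η * M := by gcongr; linarith only [hM', t1, t2, p3, p4, p5, s3]
    have J4 : ‖(c 0).x‖ ^ 2 ≤ 2 * ‖(c 0).x - I * ((a 0).x - (b 0).x)‖ ^ 2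
        + 2 * ‖(a 0).x - (b 0).x‖ ^ 2 :=
      sq_le (norm_nonneg _) (by simpa using norm_le_norm_sub_add (c 0).x (I * ((a 0).x - (b 0).x)))
    have J5 : ‖(c 0).X‖ ^ 2 ≤ 2 * ‖(c 0).X + I * ((a 0).X - (b 0).X)‖ ^ 2
        + 2 * ‖(a 0).X - (b 0).X‖ ^ 2 :=
      sq_le (norm_nonneg _) (by
        simpa using norm_le_norm_sub_add (c 0).X (-(I * ((a 0).X - (b 0).X))))
    have J6 : μ * nU ‖θ‖ L (a 0) (b 0) + μ * n1 L (c 0) - (94 * C + c0 + 1) * (η * M) ≤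
        (bT e L L' s s1 s2 (a 0) (b 0) (c 0) (TL (a 0)) (TL (b 0)) (TC (a 0) (b 0) (c 0))).re +
        (bU1 (-I * (e + s2.p)) (-I * s2.c) (kp * s2.z0) (kp * s2.z1) ((s2.g0 - L') / 2)
          (s2.g1 / 2) (c 0) (c 1) (TC (a 0) (b 0) (c 0))).re := by
      have e1 := mul_le_mul_of_nonneg_left J4 hμ.le
      have e2 := mul_le_mul_of_nonneg_left J5 hμ.le
      have e3 := mul_le_mul_of_nonneg_left J3 (show 0 ≤ c0 / 8 by positivity)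
      have e4 := mul_le_mul_of_nonneg_left J3 hμ.le
      have e5 : μ * (η * M) ≤ 1 * (η * M) := by gcongr
      have e6 : 0 ≤ c0 * (η * M) := by positivity
      have e7 : 0 ≤ (L - L' / 2) * ‖(a 0).s‖ ^ 2 := mul_nonneg w10 (sq_nonneg _)
      have e8 : μ * L * ‖(c 0).s‖ ^ 2 ≤ L' * ‖(c 0).s‖ ^ 2 := by
        gcongr
        linarith only [w7, mul_nonneg hμ.le hL1]
      have e9 : μ * ‖(c 0).x - I * ((a 0).x - (b 0).x)‖ ^ 2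
          ≤ 1 * ‖(c 0).x - I * ((a 0).x - (b 0).x)‖ ^ 2 := by gcongr
      have e10 : μ * ‖(c 0).X + I * ((a 0).X - (b 0).X)‖ ^ 2
          ≤ 1 * ‖(c 0).X + I * ((a 0).X - (b 0).X)‖ ^ 2 := by gcongr
      have e11 : 0 ≤ μ * (‖(a 0).x - (b 0).x‖ ^ 2 + ‖(a 0).X - (b 0).X‖ ^ 2) := by positivity
      unfold nU n1
      linarith only [A0 (a 0) (b 0), J, J2, e1, e2, e3, e4, e5, e6, e7, e8, e9, e10, e11]
    have S1 : μ * nM1 ‖θ‖ L (N + 2) a ≤ (bM1 e L s (N + 2) a fun n => TL (a n)).re := by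
      rw [nM1, bM1, re_sum, Finset.mul_sum]
      exact Finset.sum_le_sum fun n _ => A1 _ _
    have S2 : ∀ n, μ * nU ‖θ‖ L (b n) (b (n + 1)) + ((if n = 0 then
        (bU1 (-I * (e + s2.p)) (-I * s2.c) (kp * s2.z0) (kp * s2.z1) ((s2.g0 - L') / 2)
          (s2.g1 / 2) (c 0) (c 1) (TC (a 0) (b 0) (c 0))).re else 0) + μ * n1 L (c (n + 1))
          - 40 * C * η * (n1 L (c n) + n1 L (c (n + 1)))) ≤
        (bC e L' s1 (b n) (b (n + 1)) (TL (b n)) (TL (b (n + 1)))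
          + bC e L' s2 (c n) (c (n + 1)) (c' n) (c' (n + 1))).re := by
      intro n
      have e1 := A3 (c (n + 1)) (c n)
      have e2 : 0 ≤ C * η * (n1 L (c n) + n1 L (c (n + 1))) :=
        mul_nonneg (by positivity) (add_nonneg (n1_nonneg hL1 _) (n1_nonneg hL1 _))
      rw [add_re]
      refine add_le_add (A2 _ _) ?_
      rw [bC, bU, add_re]
      rcases n with _ | n
      · rw [show c' (0 + 1) = TL (c (0 + 1)) from rfl]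
        simp only [c', if_true, Nat.rec_zero, zero_add] at e1 e2 ⊢
        linarith only [e1, e2]
      · have e3 := A3 (c (n + 1)) (c (n + 1 + 1))
        have e4 := mul_nonneg hμ.le (n1_nonneg hL1 (c (n + 1)))
        simp only [c', Nat.succ_ne_zero, if_false] at e1 e2 ⊢
        linarith only [e1, e3, e4]
    have S3 := Finset.sum_le_sum fun n (_ : n ∈ Finset.range (N + 2)) => S2 n
    rw [← re_sum] at S3
    simp only [Finset.sum_add_distrib, Finset.sum_sub_distrib, ← Finset.mul_sum,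
      Finset.sum_ite_eq', Finset.mem_range, Nat.succ_pos, if_true] at S3
    have S4 : C * η * (∑ n ∈ Finset.range (N + 2), n1 L (c n) +
        ∑ n ∈ Finset.range (N + 2), n1 L (c (n + 1))) ≤ C * η * (2 * M) := by
      gcongr
      linarith only [hM', p1, p2, p3, p4, p6, s1', s2']
    have S5 := mul_le_mul_of_nonneg_right hη2 hM0
    have S6 : μ * M = μ * nM1 ‖θ‖ L (N + 2) a + μ * nU ‖θ‖ L (a 0) (b 0) +
        μ * (∑ n ∈ Finset.range (N + 2), nU ‖θ‖ L (b n) (b (n + 1))) +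
        (μ * ∑ n ∈ Finset.range (N + 2), n1 L (c (n + 1)) + μ * n1 L (c 0)) := by
      rw [hM', nM1, nM1]; ring
    rw [← hM, bM3, add_re, add_re, Finset.sum_add_distrib]
    simp only [c', Nat.rec_zero] at S3 ⊢
    linarith only [S1, S3, S4, S5, S6, J6]
  · have e1 := n1_TC hL1 ‖θ‖ (a 0) (b 0) (c 0)
    have e2 : nM3 ‖θ‖ L (N + 2) (fun n => TL (a n)) (fun n => TL (b n)) c' =
        nM1 ‖θ‖ L (N + 2) a + nU ‖θ‖ L (a 0) (b 0) + nM1 ‖θ‖ L (N + 2) b +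
        (∑ n ∈ Finset.range (N + 2), n1 L (c (n + 1)) + n1 L (TC (a 0) (b 0) (c 0))) := by
      rw [nM3, Finset.sum_range_succ' (fun n => n1 L (c' n))]
      simp only [nM1, nU_TL, c', n1_TL, Nat.rec_zero]
    rw [e2, ← hM]
    linarith only [hM', e1, p1, p2, p3, p4, p5, s3]

end Pool.Agent.P.MP_cc4a10_gt
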