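import Pool.Agent.P.MP_cc4a10_gt.St

/-!
The fixed point map preserves the set of configurations.
-/

open Set Filter Topology Complex Metric
open scoped ComplexConjugate Real

noncomputable section

namespace Pool.Agent.P.MP_cc4a10_gt

namespace MapP

theorem nT_nonneg (S : Sys) (v : Vec) (K : ℤ) : 0 ≤ nT S v K :=
  add_nonneg (add_nonneg (div_nonneg (g2_nonneg _ _) (sq_nonneg _))
    (mul_nonneg (Nat.cast_nonneg _) (msq_nonneg _ _))) (sq_nonneg _)

theorem dn_zero (m : ℕ) : dn m (fun _ => 0) = 0 := by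
  have : {x | ∃ f : GI → ℂ, Per m f ∧ g2 m f ≤ 1 ∧
      x = ‖av m (fun u => (((fun _ => 0 : GI → ℝ) u : ℝ) : ℂ) * f u)‖} = {0} := by
    ext x
    simp only [ofReal_zero, zero_mul, av, ts_zero, smul_zero, norm_zero, mem_ofPred_eq,
      mem_singleton_iff]
    exact ⟨fun ⟨_, _, _, h⟩ => h, fun h => ⟨0, fun _ _ => rfl, by simp [g2, msq, av], h⟩⟩
  rw [dn, this, csSup_singleton]

theorem nT_zero (S : Sys) {v : Vec} {K : ℤ} (h1 : v.1 (K - 1) = 0 ∧ v.2 (K - 1) = 0)
    (h2 : v.1 K = 0 ∧ v.2 K = 0) : nT S v K = 0 := by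
  have e1 : eT S v K = fun _ => 0 := by
    funext u; simp only [eT, lk]; split_ifs <;> simp [h1.1, h2.1]
  have e2 : sT S v K = fun _ => 0 := by
    funext u; simp only [sT, lk]; split_ifs <;> simp [h1.2, h2.2]
  simp [nT, nb2, e1, e2, g2, msq, av, dn_zero]

theorem msq_neg_arg {m : ℕ} {F : GI → ℂ} (h : Per m F) : msq m (fun u => F (-u)) = msq m F := by
  unfold msq av
  rw [ts_neg_arg (F := fun u => ‖F u‖ ^ 2) (fun u w => by simp only [h u w])]

theorem msq_step_neg {m : ℕ} {F : GI → ℂ} (h : Per m F) (g : GI) :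
    msq m (fun u => F (-(u + g)) - F (-u)) = msq m (fun u => F (u + g) - F u) := by
  have h1 : Per m (fun u => F (u + g) - F u) := fun u w => by
    simp only [h u w, h.shift g u w]
  rw [← msq_neg_arg h1, ← msq_shift h1.neg g]
  simp only [msq, neg_add_rev, add_comm (-g), neg_add_cancel_right, norm_sub_rev]

theorem g2_neg_arg {m : ℕ} {F : GI → ℂ} (h : Per m F) : g2 m (fun u => F (-u)) = g2 m F := by
  simp only [g2, msq_step_neg h]

theorem g2_add_le (m : ℕ) (a b : GI → ℂ) :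
    g2 m (fun u => a u + b u) ≤ 2 * g2 m a + 2 * g2 m b := by
  have h : ∀ g : GI, msq m (fun u => a (u + g) + b (u + g) - (a u + b u))
      ≤ 2 * msq m (fun u => a (u + g) - a u) + 2 * msq m (fun u => b (u + g) - b u) := fun g => by
    simp only [add_sub_add_comm]; exact msq_add_le _ _ _
  have h1 := h 1
  have h2 := h gi
  unfold g2
  linarith

theorem g2_mul (m : ℕ) (c : ℂ) (a : GI → ℂ) : g2 m (fun u => c * a u) = ‖c‖ ^ 2 * g2 m a := by
  simp only [g2, ← mul_sub, msq_mul]; ring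

theorem g2_le_of_le (m : ℕ) {a : GI → ℂ} {b : ℝ} (h : ∀ u, ‖a u‖ ≤ b) : g2 m a ≤ 8 * b ^ 2 := by
  have h0 : ∀ g : GI, msq m (fun u => a (u + g) - a u) ≤ (b + b) ^ 2 := fun g =>
    msq_le_of_le m fun u => (norm_sub_le _ _).trans (add_le_add (h _) (h _))
  have h1 := h0 1
  have h2 := h0 gi
  unfold g2
  linarith

theorem g2_odd_le {m : ℕ} {F : GI → ℂ} (h : Per m F) :
    g2 m (fun u => (F u - F (-u)) / 2) ≤ g2 m F := by
  have e : (fun u => (F u - F (-u)) / 2) = fun u => 1 / 2 * F u + -1 / 2 * F (-u) := by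
    funext u; ring
  rw [e]
  refine (g2_add_le _ _ _).trans (le_of_eq ?_)
  rw [g2_mul, g2_mul m _ (fun u => F (-u)), g2_neg_arg h]
  simp only [norm_div, norm_neg, norm_one, Complex.norm_ofNat]
  ring

theorem exists_tt_le {η : ℝ} (h : 0 < η) : ∃ m0 : ℕ, ∀ m, m0 ≤ m → tt m ≤ η := by
  simpa using exists_pow_mul_tt_le 0 h

theorem sum_shift {f : ℤ → ℝ} (h : ∀ T : Finset ℤ, ∑ K ∈ T, f K ≤ 1) (T : Finset ℤ) (a : ℤ) :
    ∑ K ∈ T, f (K + a) ≤ 1 := by
  have := h (T.map (addRightEmbedding a))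
  rwa [Finset.sum_map] at this

end MapP

open MapP in
theorem pMap (hLT : S_LT) (hErr : S_Err) (hA1 : S_Aux1) (hA2 : S_Aux2) (hSt : S_Stage)
    (hPar : S_Par) : S_Map := by
  intro E L
  obtain ⟨C0, j0, hC0, hLT⟩ := hLT E
  obtain ⟨C, je, hC, hErr⟩ := hErr E
  obtain ⟨C1, j1, hC1, hA1⟩ := hA1 E
  obtain ⟨C2, j2, hC2, hA2⟩ := hA2 E
  obtain ⟨j3, h3⟩ := hSt.2.1 (1 / (4 * C0 * C ^ 2)) (by positivity)
  obtain ⟨j4, h4⟩ := exists_tt_le (η := 1 / (108 * C0 * C ^ 2)) (by positivity)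
  obtain ⟨j5, h5⟩ := exists_tt_le (η := 1 / (4 * C1 ^ 2 + 16 * C2 ^ 2)) (by positivity)
  refine ⟨j0 + je + j1 + j2 + j3 + j4 + j5, fun j i hj sv x hx => ?_⟩
  obtain ⟨hS, hB, -⟩ := hSt.1 j
  have hB' : ∀ j', j' ≤ j → Big (SS j) j' := fun j' h k => h.trans (hB k)
  replace hErr := hErr (SS j) x hS (hB' _ (by omega)) hx
  replace hA1 := hA1 (SS j) x hS (hB' _ (by omega)) hx
  replace hA2 := hA2 (SS j) x hS (hB' _ (by omega)) hx
  have hm : ∀ K, j ≤ mK (SS j) K := fun K => by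
    have h1 := hB (K - 1)
    have h2 := hB K
    simp only [mK, jl]; omega
  refine ⟨sv.adm _, sv.sym _ (fun K => (hErr K).2.1) (fun K => (hErr K).2.2.1)
    fun K => (hErr K).2.2.2, fun T => ?_, fun K u w => ?_, fun K u => ?_, fun K => ?_,
    fun K => (hA1 K).2.2.2.2.1, fun K u => ((hA1 K).2.2.2.2.2 u).2.2.2,
    fun K u => ((hA1 K).2.2.2.2.2 u).2.2.1, fun K => (hA1 K).2.1, fun K => (hA1 K).1⟩
  · change ∑ K ∈ T, nT (SS j) (sv.f (FF E (SS j) x, GG E (SS j) x)) K / _ ≤ 1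
    set v := sv.f (FF E (SS j) x, GG E (SS j) x) with hv
    set e : ℤ → ℝ := fun K => C * (mK (SS j) K * tt (mK (SS j) K) ^ 29
      + tt (mK (SS j) K) ^ 3 * n3 (SS j) x.v K) with he
    have hH : LTH E j i v e := by
      refine ⟨sv.adm _, sv.supp _, fun K => ?_, fun v' h1 h2 => ?_⟩
      · have := tt_pos (mK (SS j) K)
        simp only [he, n3]; positivity
      · rw [hv, sv.eq _ v' h1 h2]
        exact (Finset.abs_sum_le_sum_abs _ _).trans
          (Finset.sum_le_sum fun K _ => (hErr K).1 v' h1)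
    have h6 := hLT j i (by omega) v e hH
    set J := Finset.Icc (-NN j i : ℤ) (NN j i + 1) with hJ
    have h7 : ∑ K ∈ T, nT (SS j) v K / tt (mK (SS j) K) ^ 40
        ≤ ∑ K ∈ J, nT (SS j) v K / tt (mK (SS j) K) ^ 40 := by
      have h0 : ∀ K, 0 ≤ nT (SS j) v K / tt (mK (SS j) K) ^ 40 := fun K =>
        div_nonneg (nT_nonneg _ _ _) (pow_nonneg (tt_pos _).le _)
      refine (Finset.sum_le_sum_of_subset_of_nonneg (Finset.subset_union_left (s₂ := J))
        fun K _ _ => h0 K).trans (le_of_eq (Finset.sum_subset Finset.subset_union_right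
          fun K _ hK => ?_).symm)
      rw [hJ, Finset.mem_Icc] at hK
      rw [nT_zero _ (sv.supp _ _ (by omega)) (sv.supp _ _ (by omega)), zero_div]
    refine h7.trans (h6.trans ?_)
    set f : ℤ → ℝ := fun K => nT (SS j) x.v K / tt (mK (SS j) K) ^ 40 with hf
    have h8 : ∀ K ∈ J, e K ^ 2 / tt (mK (SS j) K) ^ 40
        ≤ 2 * C ^ 2 * ((mK (SS j) K : ℝ) ^ 2 * tt (mK (SS j) K) ^ 18)
          + 6 * C ^ 2 * tt j * (4 * f (K + -1) + f K + 4 * f (K + 1)) := by
      intro K _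
      have ht := tt_pos (mK (SS j) K)
      have hn : ∀ K', mK (SS j) K ≤ mK (SS j) K' + 1 →
          nT (SS j) x.v K' ≤ 4 * f K' * tt (mK (SS j) K) ^ 40 := fun K' h => by
        have h1 := tt_pow_le h (k := 40) (by norm_num)
        have h2 := tt_pos (mK (SS j) K')
        have h3 := nT_nonneg (SS j) x.v K'
        simp only [hf]
        rw [mul_comm 4, mul_assoc, div_mul_eq_mul_div, le_div_iff₀ (by positivity)]
        gcongr
      have a1 := hn (K + -1) (by simpa using (hPar _ hS (K + -1)).2.2.2.1)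
      have a2 : nT (SS j) x.v K = f K * tt (mK (SS j) K) ^ 40 := by
        simp only [hf]; field_simp
      have a3 := hn (K + 1) (hPar _ hS K).2.2.1
      have b1 := Real.sq_sqrt (nT_nonneg (SS j) x.v (K - 1))
      have b2 := Real.sq_sqrt (nT_nonneg (SS j) x.v K)
      have b3 := Real.sq_sqrt (nT_nonneg (SS j) x.v (K + 1))
      rw [← sub_eq_add_neg] at a1 ⊢
      have c1 : n3 (SS j) x.v K ^ 2
          ≤ 3 * ((4 * f (K - 1) + f K + 4 * f (K + 1)) * tt (mK (SS j) K) ^ 40) := by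
        unfold n3
        nlinarith [sq_nonneg (√(nT (SS j) x.v (K - 1)) - √(nT (SS j) x.v K)),
          sq_nonneg (√(nT (SS j) x.v (K - 1)) - √(nT (SS j) x.v (K + 1))),
          sq_nonneg (√(nT (SS j) x.v K) - √(nT (SS j) x.v (K + 1)))]
      have c2 : tt (mK (SS j) K) ^ 6 ≤ tt j :=
        (pow_le_of_le_one ht.le (tt_le_one _) (by norm_num)).trans (tt_anti (hm K))
      have c3 : (tt (mK (SS j) K) ^ 3 * n3 (SS j) x.v K) ^ 2
          ≤ tt j * (3 * ((4 * f (K - 1) + f K + 4 * f (K + 1)) * tt (mK (SS j) K) ^ 40)) := by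
        rw [mul_pow, ← pow_mul]
        exact mul_le_mul c2 c1 (sq_nonneg _) (tt_pos _).le
      rw [div_le_iff₀ (by positivity)]
      simp only [he]
      rw [mul_pow]
      have c4 := add_sq_le (a := mK (SS j) K * tt (mK (SS j) K) ^ 29)
        (b := tt (mK (SS j) K) ^ 3 * n3 (SS j) x.v K)
      calc C ^ 2 * (mK (SS j) K * tt (mK (SS j) K) ^ 29
            + tt (mK (SS j) K) ^ 3 * n3 (SS j) x.v K) ^ 2
          ≤ C ^ 2 * (2 * ((mK (SS j) K * tt (mK (SS j) K) ^ 29) ^ 2 + tt j *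
            (3 * ((4 * f (K - 1) + f K + 4 * f (K + 1)) * tt (mK (SS j) K) ^ 40)))) := by
            gcongr; linarith
        _ = _ := by ring
    have h9 := Finset.sum_le_sum h8
    rw [Finset.sum_add_distrib, ← Finset.mul_sum, ← Finset.mul_sum, Finset.sum_add_distrib,
      Finset.sum_add_distrib, ← Finset.mul_sum, ← Finset.mul_sum] at h9
    have d1 := sum_shift (f := f) hx.nb J (-1)
    have d2 : ∑ K ∈ J, f K ≤ 1 := hx.nb J
    have d3 := sum_shift (f := f) hx.nb J 1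
    have d4 := h3 j (by omega) J
    have d5 := h4 j (by omega)
    have d6 := tt_pos j
    calc C0 * ∑ K ∈ J, e K ^ 2 / tt (mK (SS j) K) ^ 40
        ≤ C0 * (2 * C ^ 2 * (1 / (4 * C0 * C ^ 2))
          + 6 * C ^ 2 * (1 / (108 * C0 * C ^ 2)) * (4 * 1 + 1 + 4 * 1)) := by
          refine mul_le_mul_of_nonneg_left (h9.trans ?_) hC0.le
          refine add_le_add (by gcongr) ?_
          calc _ ≤ 6 * C ^ 2 * tt j * (4 * 1 + 1 + 4 * 1) := by gcongr
            _ ≤ _ := by gcongr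
      _ = 1 := by field_simp; norm_num
  · have hp : Per (mK (SS j) K) (xi0 E L (SS j) x K) := fun u w => by
      simp only [xi0, L.per _ _ _ u w, (hA2 K).1 u w]
    change xiN E L (SS j) x K _ = xiN E L (SS j) x K _
    simp only [xiN, hp u w, hp.neg u w]
  · change xiN E L (SS j) x K _ = -xiN E L (SS j) x K _
    simp only [xiN, neg_neg]; ring
  · have hp : Per (mK (SS j) K) (xi0 E L (SS j) x K) := fun u w => by
      simp only [xi0, L.per _ _ _ u w, (hA2 K).1 u w]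
    refine (g2_odd_le hp).trans ((g2_add_le _ _ _).trans ?_)
    have a1 := L.bd _ _ _ (hA1 K).2.2.1 (hA1 K).2.2.2.1
    have a2 := msq_le_of_le (mK (SS j) K) fun u => ((hA1 K).2.2.2.2.2 u).1
    have a3 := msq_le_of_le (mK (SS j) K) fun u => ((hA1 K).2.2.2.2.2 u).2.1
    have a4 := g2_le_of_le (mK (SS j) K) (hA2 K).2
    have a5 := h5 (mK (SS j) K) (le_trans (by omega) (hm K))
    have ht := tt_pos (mK (SS j) K)
    have ht1 := tt_le_one (mK (SS j) K)
    rw [le_div_iff₀ (by positivity)] at a5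
    have a6 : tt (mK (SS j) K) ^ 2 * (4 * C1 ^ 2 + 16 * C2 ^ 2) ≤ 1 := by
      refine le_trans ?_ a5
      gcongr
      exact pow_le_of_le_one ht.le ht1 (by norm_num)
    calc _ ≤ tt (mK (SS j) K) ^ 2 * (4 * C1 ^ 2 + 16 * C2 ^ 2)
          * (dd (mK (SS j) K) * tt (mK (SS j) K) ^ 29) ^ 2 := by
          linarith
      _ ≤ 1 * (dd (mK (SS j) K) * tt (mK (SS j) K) ^ 29) ^ 2 := by gcongr
      _ = _ := one_mul _

end Pool.Agent.P.MP_cc4a10_gt
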