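import Pool.Agent.P.MP_cc4a10_gt.St

/-!
Package Modes: all modes are stable.
-/

open Set Filter Topology Complex Metric
open scoped ComplexConjugate Real

noncomputable section

namespace Pool.Agent.P.MP_cc4a10_gt.ModesP

theorem nU_nonneg (r : ℝ) {L : ℝ} (hL : 0 ≤ L) (A B : T3) : 0 ≤ nU r L A B := by
  unfold nU; positivity

theorem n1_nonneg {L : ℝ} (hL : 0 ≤ L) (A : T3) : 0 ≤ n1 L A := by
  unfold n1; positivity

theorem nM1_nonneg (r : ℝ) {L : ℝ} (hL : 0 ≤ L) (N : ℕ) (a : ℕ → T3) : 0 ≤ nM1 r L N a :=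
  Finset.sum_nonneg fun _ _ => nU_nonneg r hL _ _

theorem nM3_nonneg (r : ℝ) {L : ℝ} (hL : 0 ≤ L) (N : ℕ) (a b c : ℕ → T3) :
    0 ≤ nM3 r L N a b c :=
  add_nonneg (add_nonneg (add_nonneg (nM1_nonneg r hL _ _) (nU_nonneg r hL _ _))
    (nM1_nonneg r hL _ _)) (Finset.sum_nonneg fun _ _ => n1_nonneg hL _)

theorem St1.mono {c1 C1 c1' C1' e r L : ℝ} {s : Sy} (hL : 0 ≤ L) (hc : c1' ≤ c1) (hC : C1 ≤ C1')
    (h : St1 c1 C1 e r L s) : St1 c1' C1' e r L s := by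
  intro N a ha h0
  obtain ⟨a', h1, h2, h3, h4⟩ := h N a ha h0
  have := nM1_nonneg r hL (N + 2) a
  exact ⟨a', h1, h2, (mul_le_mul_of_nonneg_right hc this).trans h3,
    h4.trans (mul_le_mul_of_nonneg_right hC this)⟩

theorem St3.mono {c1 C1 c1' C1' e r L L' : ℝ} {s s1 s2 : Sy} (hL : 0 ≤ L) (hc : c1' ≤ c1)
    (hC : C1 ≤ C1') (h : St3 c1 C1 e r L L' s s1 s2) : St3 c1' C1' e r L L' s s1 s2 := by
  intro N Na Nb a b c hNa hNb ha hb hc'
  obtain ⟨a', b', c', h1, h2, h3, h4, h5⟩ := h N Na Nb a b c hNa hNb ha hb hc'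
  have := nM3_nonneg r hL (N + 2) a b c
  exact ⟨a', b', c', h1, h2, h3, (mul_le_mul_of_nonneg_right hc this).trans h4,
    h5.trans (mul_le_mul_of_nonneg_right hC this)⟩

theorem St0.mono {c1 C1 c1' C1' e L L' : ℝ} {s s1 s2 : Sy} (hL : 0 ≤ L) (hc : c1' ≤ c1)
    (hC : C1 ≤ C1') (h : St0 c1 C1 e L L' s s1 s2) : St0 c1' C1' e L L' s s1 s2 := by
  intro N Nb c hNb hc'
  obtain ⟨c', h1, h2, h3⟩ := h N Nb c hNb hc'
  have := nM3_nonneg 0 hL (N + 2) 0 0 c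
  exact ⟨c', h1, (mul_le_mul_of_nonneg_right hc this).trans h2,
    h3.trans (mul_le_mul_of_nonneg_right hC this)⟩

theorem transport {θ θ' : ℂ} (h : θ = θ') (b : BD θ) : ∃ b' : BD θ', b'.sy = b.sy := by
  subst h; exact ⟨b, rfl⟩

theorem int_small {n : ℤ} (h : |2 * π * (n : ℝ)| ≤ π) : n = 0 := by
  by_contra hn
  have h1 : (1 : ℝ) ≤ |(n : ℝ)| := by exact_mod_cast Int.one_le_abs hn
  rw [abs_mul, abs_of_pos Real.two_pi_pos] at h
  nlinarith [Real.pi_pos]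

theorem np_of_sq {θ : ℂ} (h : Sq θ) : NP θ := by
  intro w hw
  obtain ⟨h0, h1, h2⟩ := h
  have hre : θ.re = 2 * π * (w.re : ℝ) := by
    rw [hw]; simp
  have him : θ.im = 2 * π * (w.im : ℝ) := by
    rw [hw]; simp
  rw [hre] at h1
  rw [him] at h2
  have e1 := int_small h1
  have e2 := int_small h2
  apply h0
  apply Complex.ext
  · rw [hre, e1]; simp
  · rw [him, e2]; simp

theorem norm_le_five {θ : ℂ} (h : Sq θ) : ‖θ‖ ≤ 5 := by
  obtain ⟨_, h1, h2⟩ := h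
  have hp := Real.pi_lt_d2
  have hp0 := Real.pi_pos
  have e : ‖θ‖ ^ 2 = θ.re ^ 2 + θ.im ^ 2 := by
    rw [Complex.sq_norm, Complex.normSq_apply]; ring
  have a1 : θ.re ^ 2 ≤ π ^ 2 := by
    rw [← sq_abs θ.re]; exact pow_le_pow_left₀ (abs_nonneg _) h1 2
  have a2 : θ.im ^ 2 ≤ π ^ 2 := by
    rw [← sq_abs θ.im]; exact pow_le_pow_left₀ (abs_nonneg _) h2 2
  nlinarith [norm_nonneg θ]

theorem norm_kp_le : ‖kp‖ ≤ 1 := by
  have e : ‖kp‖ ^ 2 = 1 / 2 := by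
    rw [Complex.sq_norm, Complex.normSq_apply]; simp [kp]; norm_num
  nlinarith [norm_nonneg kp]

theorem kp_ne_zero : kp ≠ 0 := by
  intro h
  have := congrArg Complex.re h
  simp [kp] at this

theorem np_zero_child : NP (0 * kp + π * (1 - I)) := by
  intro w hw
  have hre : (π : ℝ) = 2 * π * (w.re : ℝ) := by
    have := congrArg Complex.re hw
    simpa [GaussianInt.toComplex_def'] using this
  have h1 : |2 * π * (w.re : ℝ)| ≤ π := by rw [← hre, abs_of_pos Real.pi_pos]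
  have := int_small h1
  rw [this] at hre
  simp at hre

theorem LL_facts (L0 : ℝ) : ∃ j1 : ℕ, ∀ j, j1 ≤ j → L0 ≤ LL j ∧ 0 ≤ LL j ∧
    (j + 2 : ℝ) ≤ 4 * LL j ∧ LL j ≤ j + 2 ∧ |LL (j + 1) - LL j| ≤ 1 := by
  obtain ⟨n, hn⟩ := exists_nat_ge (4 * L0)
  refine ⟨max n 16, fun j hj => ?_⟩
  have h16 : (16 : ℝ) ≤ j := by exact_mod_cast (le_max_right n 16).trans hj
  have hnj : (n : ℝ) ≤ j := by exact_mod_cast (le_max_left n 16).trans hj
  have l1 := Real.log_two_gt_d9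
  have l2 := Real.log_two_lt_d9
  have h4 : (j + 2 : ℝ) ≤ 4 * LL j := by unfold LL; nlinarith
  refine ⟨by linarith, by linarith, h4, by unfold LL; nlinarith, ?_⟩
  unfold LL
  push_cast
  rw [abs_le]; constructor <;> nlinarith

end Pool.Agent.P.MP_cc4a10_gt.ModesP

namespace Pool.Agent.P.MP_cc4a10_gt

open ModesP

theorem pModes (hTor : S_Tor) (hChar : S_Char) (hEx0 : S_Ex0) (hLow : S_Low) (hHigh : S_High)
    (hML1 : S_ML1) (hML3 : S_ML3) (hMH1 : S_MH1) (hMH3 : S_MH3) : S_Modes := by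
  intro E
  obtain ⟨he, -, he1, he2⟩ := hEx0 E
  have e6 : 6 ≤ ee E := by rw [he]; linarith
  have e7 : ee E ≤ 7 := by rw [he]; linarith
  have ea : |ee E| ≤ 7 := by rw [abs_le]; constructor <;> linarith
  obtain ⟨C, c0, r0, hC, hc0, hr0, hL⟩ := hLow E
  obtain ⟨r1, L1, c1, C1, hr1, hc1, hC1, h1⟩ := hML1 C c0 (ee E) hC hc0 e6 e7
  obtain ⟨r3, L3, c3, C3, hr3, hc3, hC3, h3⟩ := hML3 C c0 (ee E) hC hc0 e6 e7
  set r := min r0 (min r1 r3) with hr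
  have hrp : 0 < r := lt_min hr0 (lt_min hr1 hr3)
  have rr0 : r ≤ r0 := min_le_left _ _
  have rr1 : r ≤ r1 := (min_le_right _ _).trans (min_le_left _ _)
  have rr3 : r ≤ r3 := (min_le_right _ _).trans (min_le_right _ _)
  obtain ⟨η, hη, hηr, hη1, hH, hH0⟩ := hHigh E r hrp
  obtain ⟨L4, c4, C4, hc4, hC4, h4⟩ := hMH1 η (ee E) hη hη1 ea
  obtain ⟨L5, c5, C5, hc5, hC5, h5⟩ := hMH3 η (ee E) hη hη1 ea
  obtain ⟨j1, hj1⟩ := LL_facts (max (max L1 L3) (max L4 L5))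
  set cc := min (min c1 c3) (min c4 c5) with hcc
  set CC := max (max C1 C3) (max C4 C5) with hCC
  have a1 : cc ≤ c1 := (min_le_left _ _).trans (min_le_left _ _)
  have a3 : cc ≤ c3 := (min_le_left _ _).trans (min_le_right _ _)
  have a4 : cc ≤ c4 := (min_le_right _ _).trans (min_le_left _ _)
  have a5 : cc ≤ c5 := (min_le_right _ _).trans (min_le_right _ _)
  have b1 : C1 ≤ CC := (le_max_left _ _).trans (le_max_left _ _)
  have b3 : C3 ≤ CC := (le_max_right _ _).trans (le_max_left _ _)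
  have b4 : C4 ≤ CC := (le_max_left _ _).trans (le_max_right _ _)
  have b5 : C5 ≤ CC := (le_max_right _ _).trans (le_max_right _ _)
  refine ⟨cc, CC, j1, lt_min (lt_min hc1 hc3) (lt_min hc4 hc5), hC1.trans_le b1, fun j hj => ?_⟩
  obtain ⟨l0, lp, l4, l2, ld⟩ := hj1 j hj
  have l1 : L1 ≤ LL j := ((le_max_left _ _).trans (le_max_left _ _)).trans l0
  have l3 : L3 ≤ LL j := ((le_max_right _ _).trans (le_max_left _ _)).trans l0
  have l4' : L4 ≤ LL j := ((le_max_left _ _).trans (le_max_right _ _)).trans l0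
  have l5 : L5 ≤ LL j := ((le_max_right _ _).trans (le_max_right _ _)).trans l0
  have hT := hChar.2.2.1
  refine ⟨l4, l2, fun κ hκ => ?_, ?_⟩
  · have hnp := np_of_sq hκ
    obtain ⟨t1, t2, t3⟩ := hT j κ
    have hnd : ¬om ^ j ∣ κ := t1.1 hnp
    have n1 : NP (thq (j + 1) κ) := by
      refine (hT (j + 1) κ).1.2 fun h => hnd ?_
      exact (pow_dvd_pow om (Nat.le_succ j)).trans h
    have n2 : NP (thq (j + 1) (κ + om ^ j)) := by
      refine (hT (j + 1) _).1.2 fun h => hnd ?_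
      have h' : om ^ j ∣ κ + om ^ j := (pow_dvd_pow om (Nat.le_succ j)).trans h
      exact (dvd_add_left (dvd_refl _)).1 h'
    obtain ⟨b, hb⟩ := hTor E j κ hnp
    obtain ⟨b1', hb1⟩ := hTor E (j + 1) κ n1
    obtain ⟨b2', hb2⟩ := hTor E (j + 1) _ n2
    obtain ⟨β1, hβ1⟩ := transport t2 b1'
    obtain ⟨β2, hβ2⟩ := transport t3 b2'
    rw [hb, hb1, hb2, ← hβ1, ← hβ2]
    rcases le_total ‖thq j κ‖ r with hlo | hhi
    · obtain ⟨q1, q2⟩ := hL _ b hκ.1 (hlo.trans rr0)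
      have hk : ‖thq j κ * kp‖ ≤ r0 := by
        rw [norm_mul]
        have := mul_le_mul_of_nonneg_left norm_kp_le (norm_nonneg (thq j κ))
        linarith
      obtain ⟨q3, -⟩ := hL _ β1 (mul_ne_zero hκ.1 kp_ne_zero) hk
      exact ⟨St1.mono lp a1 b1 (h1 _ _ _ hκ.1 (hlo.trans rr1) q1 l1),
        St3.mono lp a3 b3 (h3 _ _ _ _ _ _ hκ.1 (hlo.trans rr3) q1 q3 (q2 β1 β2) l3 ld)⟩
    · obtain ⟨⟨q1, Z, q2⟩, q3⟩ := hH _ b hκ hhi
      obtain ⟨q4, q5, Z0, Z1, Z2, q6, q7, q8, q9⟩ := q3 β1 β2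
      have u1 : η ≤ ‖thq j κ‖ := hηr.trans hhi
      have u2 := norm_le_five hκ
      exact ⟨St1.mono lp a4 b4 ((h4 _ Z _ q1 q2 l4').1 _ u1 u2),
        St3.mono lp a5 b5 (h5 _ _ _ Z0 Z1 Z2 _ _ _ q1 q4 q5 q6 q7 q8 q9 u1 u2 l5 ld)⟩
  · obtain ⟨-, -, t3⟩ := hT j 0
    have t0 : thq j 0 = 0 := by simp [thq]
    rw [t0] at t3
    have n2 : NP (thq (j + 1) (0 + om ^ j)) := by rw [t3]; exact np_zero_child
    obtain ⟨b2', hb2⟩ := hTor E (j + 1) _ n2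
    obtain ⟨β2, hβ2⟩ := transport t3 b2'
    rw [hb2, ← hβ2]
    obtain ⟨q1, Z2, q2, q3⟩ := hH0 β2
    exact St0.mono lp a4 b4 ((h4 _ Z2 _ q1 q2 l4').2 q3 _ _ _ ld)

end Pool.Agent.P.MP_cc4a10_gt
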