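import Pool.Agent.P.MP_cc4a10_gt.NU3

/-!
Norm of a synthesised vector on a uniform level.
-/

open Set Filter Topology Complex Metric
open scoped ComplexConjugate Real

noncomputable section

namespace Pool.Agent.P.MP_cc4a10_gt
namespace NUP

theorem nU_comm (r L : ℝ) (A B : T3) : nU r L A B = nU r L B A := by
  unfold nU
  rw [norm_sub_rev A.x, norm_sub_rev A.X, norm_sub_rev A.s]; ring

theorem norm_al_sq : ‖al‖ ^ 2 = 1 / 2 := by
  rw [← normSq_eq_norm_sq, al, normSq_apply]; simp; norm_num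

theorem core {j J : ℕ} (hJ : j = J ∨ j = J + 1) {R : Finset GI} (hP : Pv j R) (A B : GI → T3)
    (r : GI → ℝ) (h : ∀ κ ∈ R, (A κ = 0 ∧ B κ = 0) ∨ (0 < r κ ∧ ‖thq j κ‖ ≤ 10 * r κ ∧
      ∀ w : GI, r κ ≤ 10 * ‖thq j κ - 2 * π * w‖)) {s : ℝ} (hs : s = 1 ∨ s = -1) (c : ℂ)
    (ε : GI → ℂ) (σ : GI → ℝ)
    (hε : ε = fun u => al ^ J / 2 * (Ex j R (fun κ => (A κ).x) (fun κ => (B κ).x) u
      + conj (Ex j R (fun κ => (A κ).X) (fun κ => (B κ).X) u)))
    (hσ : σ = fun u => (TS j R (fun u κ => if Odd u.im then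
      (if Odd u.re then (A κ).s else (B κ).s) else 0) u).re) :
    nb2 ⟨j + 2, c, s, 0⟩ ε σ ≤ 313000 * ∑ κ ∈ R, nU (r κ) (j + 2) (A κ) (B κ) := by
  have hL : (2 : ℝ) ≤ (j : ℝ) + 2 := by linarith [Nat.cast_nonneg (α := ℝ) j]
  have hx := g2_Ex hP (fun κ => (A κ).x) (fun κ => (B κ).x) r fun κ hκ =>
    (h κ hκ).imp (fun h => by rw [h.1, h.2]; exact ⟨rfl, rfl⟩) fun h => ⟨h.1, h.2.1⟩
  have hX := g2_Ex hP (fun κ => (A κ).X) (fun κ => (B κ).X) r fun κ hκ =>
    (h κ hκ).imp (fun h => by rw [h.1, h.2]; exact ⟨rfl, rfl⟩) fun h => ⟨h.1, h.2.1⟩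
  have hd := dn_le hP (fun κ => (A κ).s) (fun κ => (B κ).s) r (fun κ hκ =>
    (h κ hκ).imp (fun h => by rw [h.1, h.2]; exact ⟨rfl, rfl⟩) id) hs
  set N := ∑ κ ∈ R, nU (r κ) (j + 2) (A κ) (B κ)
  have t1 : g2 (j + 2) ε / dd (j + 2) ^ 2 ≤ 12800 * N := by
    have a1 := g2_comb (j + 2) (al ^ J / 2) (Ex j R (fun κ => (A κ).x) (fun κ => (B κ).x))
      (Ex j R (fun κ => (A κ).X) (fun κ => (B κ).X))
    rw [← hε] at a1
    have a2 : ‖al ^ J / 2‖ ^ 2 ≤ 2 * dd (j + 2) ^ 2 := by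
      rw [norm_div, div_pow, norm_pow, ← pow_mul, mul_comm J 2, pow_mul, norm_al_sq, dd_sq,
        Complex.norm_ofNat, one_div, inv_pow]
      rcases hJ with rfl | rfl
      · rw [pow_add]; field_simp; norm_num
      · rw [pow_add, pow_add]; field_simp; norm_num
    have a3 : ∑ κ ∈ R, (‖(A κ).x - (B κ).x‖ ^ 2 + r κ ^ 2 * (‖(A κ).x‖ ^ 2 + ‖(B κ).x‖ ^ 2))
        + ∑ κ ∈ R, (‖(A κ).X - (B κ).X‖ ^ 2 + r κ ^ 2 * (‖(A κ).X‖ ^ 2 + ‖(B κ).X‖ ^ 2)) ≤ N := by
      rw [← Finset.sum_add_distrib]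
      refine Finset.sum_le_sum fun κ _ => ?_
      unfold nU
      have : 0 ≤ ((j : ℝ) + 2) * (‖(A κ).s‖ ^ 2 + ‖(B κ).s‖ ^ 2) := by positivity
      have : 0 ≤ ‖(A κ).s - (B κ).s‖ ^ 2 / r κ ^ 2 := by positivity
      linarith
    rw [div_le_iff₀ (pow_pos (dd_pos _) 2)]
    refine a1.trans ?_
    have a4 : 0 ≤ 2 * g2 (j + 2) (Ex j R (fun κ => (A κ).x) (fun κ => (B κ).x))
      + 2 * g2 (j + 2) (Ex j R (fun κ => (A κ).X) (fun κ => (B κ).X)) := by
      linarith [g2_nonneg (j + 2) (Ex j R (fun κ => (A κ).x) (fun κ => (B κ).x)),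
        g2_nonneg (j + 2) (Ex j R (fun κ => (A κ).X) (fun κ => (B κ).X))]
    calc _ ≤ (2 * dd (j + 2) ^ 2) * (6400 * N) :=
          mul_le_mul a2 (by linarith) a4 (by positivity)
      _ = _ := by ring
  have t2 : ((j + 2 : ℕ) : ℝ) * msq (j + 2) (fun u => (σ u : ℂ)) ≤ N := by
    have a1 := msq_TS_le hP (b := fun u κ => if Odd u.im then
      (if Odd u.re then (A κ).s else (B κ).s) else 0)
      (fun u w => by funext κ; simp only [odd_re, odd_im])
      (fun κ => ‖(A κ).s‖ ^ 2 + ‖(B κ).s‖ ^ 2) (fun o κ _ => by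
        split_ifs
        · exact le_add_of_nonneg_right (by positivity)
        · exact le_add_of_nonneg_left (by positivity)
        · simp; positivity)
    have a2 : msq (j + 2) (fun u => (σ u : ℂ)) ≤ ∑ κ ∈ R, (‖(A κ).s‖ ^ 2 + ‖(B κ).s‖ ^ 2) := by
      refine le_trans (msq_mono _ fun u => ?_) a1
      rw [hσ, norm_real, Real.norm_eq_abs]; exact abs_re_le_norm _
    push_cast
    refine (mul_le_mul_of_nonneg_left a2 (by positivity)).trans ?_
    rw [Finset.mul_sum]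
    refine Finset.sum_le_sum fun κ _ => ?_
    unfold nU
    have : 0 ≤ r κ ^ 2 * (‖(A κ).x‖ ^ 2 + ‖(A κ).X‖ ^ 2 + ‖(B κ).x‖ ^ 2 + ‖(B κ).X‖ ^ 2) := by
      positivity
    have : 0 ≤ ‖(A κ).s - (B κ).s‖ ^ 2 / r κ ^ 2 := by positivity
    linarith [sq_nonneg ‖(A κ).x - (B κ).x‖, sq_nonneg ‖(A κ).X - (B κ).X‖]
  have t3 : dn (j + 2) (fun u => q0 ⟨j + 2, c, s, 0⟩ u * σ u / dd (j + 2) ^ 2) ^ 2 ≤ 300000 * N := by
    have e : (fun u => q0 ⟨j + 2, c, s, 0⟩ u * σ u / dd (j + 2) ^ 2)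
        = fun u => s * (TS j R (be (fun κ => (A κ).s) (fun κ => (B κ).s)) u).re := by
      funext u
      have : TS j R (be (fun κ => (A κ).s) (fun κ => (B κ).s)) u = ((4 * pat 0 u : ℝ) : ℂ) *
          TS j R (fun u κ => if Odd u.im then (if Odd u.re then (A κ).s else (B κ).s) else 0) u := by
        unfold TS be
        rw [Finset.mul_sum]
        refine Finset.sum_congr rfl fun κ _ => ?_
        by_cases h1 : Odd u.im
        · simp only [h1, if_true]; push_cast; ring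
        · simp [h1, pat]
      rw [this, re_ofReal_mul, hσ]
      have := (dd_pos (j + 2)).ne'
      simp only [q0]; field_simp
    rw [e]
    refine hd.trans (mul_le_mul_of_nonneg_left (Finset.sum_le_sum fun κ _ => ?_) (by norm_num))
    unfold nU
    have : 0 ≤ r κ ^ 2 * (‖(A κ).x‖ ^ 2 + ‖(A κ).X‖ ^ 2 + ‖(B κ).x‖ ^ 2 + ‖(B κ).X‖ ^ 2) := by
      positivity
    nlinarith [sq_nonneg ‖(A κ).x - (B κ).x‖, sq_nonneg ‖(A κ).X - (B κ).X‖,
      sq_nonneg ‖(A κ).s‖, sq_nonneg ‖(B κ).s‖]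
  have hN : 0 ≤ N := le_trans (mul_nonneg (by positivity) (msq_nonneg _ _)) t2
  unfold nb2
  simp only
  linarith

theorem odd_split {u : GI} (h : Odd u.im) :
    ∃ w : GI, u = (if Odd u.re then 1 + gi else gi) + 2 * w := by
  obtain ⟨b, hb⟩ := h
  by_cases h2 : Odd u.re
  · obtain ⟨a, ha⟩ := id h2
    refine ⟨⟨a, b⟩, ?_⟩
    rw [if_pos h2]; ext <;> simp [gi] <;> omega
  · obtain ⟨a, ha⟩ := Int.not_odd_iff_even.1 h2
    refine ⟨⟨a, b⟩, ?_⟩
    rw [if_neg h2]; ext <;> simp [gi] <;> omega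

/-- Values of a synthesised vector at the necks of a uniform level. -/
theorem syn_neck (S : Sys) (j : ℕ) (kh ki : ℤ)
    (h1 : S.st kh = j) (h2 : S.st ki = j) (h3 : S.hh kh = true) (h4 : S.hh ki = false)
    {u : GI} (hu : Odd u.im) :
    ∃ w, al ^ j / 2 * (u : ℂ) = lp S (if Odd u.re then kh else ki) w := by
  obtain ⟨w, hw⟩ := odd_split hu
  refine ⟨w, ?_⟩
  by_cases h : Odd u.re
  · rw [if_pos h] at hw ⊢
    rw [hw, lp, h1, h3, oo, map_add, map_add, map_mul, coe_gi, map_one, map_ofNat]; simp; ring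
  · rw [if_neg h] at hw ⊢
    rw [hw, lp, h2, h4, oo, map_add, map_mul, coe_gi, map_ofNat]; simp; ring

theorem main (hC : S_Char) (S : Sys) (K kh ki : ℤ) (j J : ℕ) (R : ℤ → Finset GI)
    (a : ℤ → GI → T3) (r : GI → ℝ) (s : ℝ) (hs : s = 1 ∨ s = -1)
    (hl : lvT S K = ⟨j + 2, al ^ j / 2, s, 0⟩)
    (hk : ∀ u : GI, Odd u.im → lk S K u = if Odd u.re then kh else ki)
    (h1 : S.st kh = j) (h2 : S.st ki = j) (h3 : S.hh kh = true) (h4 : S.hh ki = false)
    (hJ : j = J ∨ j = J + 1) (hR : R kh = R ki) (hrep : Rep j (R ki))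
    (h : ∀ κ ∈ R ki, (a kh κ = 0 ∧ a ki κ = 0) ∨ (0 < r κ ∧ ‖thq j κ‖ ≤ 10 * r κ ∧
      ∀ w : GI, r κ ≤ 10 * ‖thq j κ - 2 * π * w‖)) :
    nT S (syn S J R a) K ≤ 313000 * ∑ κ ∈ R ki, nU (r κ) (j + 2) (a kh κ) (a ki κ) := by
  have hP : Pv j (R ki) := fun o =>
    ⟨(hC.2.2.2.1 j _ o hrep).1, fun f hf => ((hC.2.2.2.1 j _ o hrep).2 f hf).2⟩
  unfold nT
  have := core hJ hP (a kh) (a ki) r h hs (al ^ j / 2) (eT S (syn S J R a) K)
    (sT S (syn S J R a) K) ?_ ?_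
  · rwa [hl]
  · funext u
    have ho : Odd (nbr 0 u).im := by
      rw [nbr_zero]; split_ifs with h
      · simpa using h
      · simpa [gi, Int.odd_add] using h
    have hre : (nbr 0 u).re = u.re := by
      rw [nbr_zero]; split_ifs <;> simp [gi]
    have hex := syn_neck S j kh ki h1 h2 h3 h4 ho
    rw [hre] at hex
    unfold eT
    rw [hl]
    simp only [hk _ ho, syn, hre, if_pos hex, Ex, map_sum, map_mul, ← Finset.sum_add_distrib]
    by_cases h : Odd u.re <;> simp only [h, if_true, if_false, hR]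
  · funext u
    unfold sT
    rw [hl]
    by_cases ho : Odd u.im
    · have hq : q0 ⟨j + 2, al ^ j / 2, s, 0⟩ u ≠ 0 := by
        have := (dd_pos (j + 2)).ne'
        simp only [q0, pat, ho, if_true]
        rcases hs with rfl | rfl <;> split_ifs <;> simp [this]
      have hex := syn_neck S j kh ki h1 h2 h3 h4 ho
      simp only [if_neg hq, hk _ ho, syn, if_pos hex, TS, ho, if_true]
      by_cases h : Odd u.re <;> simp only [h, if_true, if_false, hR]
    · have hq : q0 ⟨j + 2, al ^ j / 2, s, 0⟩ u = 0 := by simp [q0, pat, ho]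
      simp [hq, TS, ho]

end NUP

open NUP in
theorem pNU (hC : S_Char) : S_NU := by
  refine ⟨313000, by norm_num, fun S K j J R a r hS h1 h2 hJ hR hrep h => ?_⟩
  have hne : S.hh (K - 1) ≠ S.hh K := by
    have := hS (K - 1)
    rw [sub_add_cancel] at this
    rcases this with h | ⟨h | h, -⟩
    · exact h.2
    · omega
    · omega
  have hd : 0 < 4 * dd (j + 2) ^ 2 := by have := dd_pos (j + 2); positivity
  cases hb : S.hh (K - 1)
  · have hb' : S.hh K = true := by rw [hb] at hne; simpa using hne.symm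
    have hl : lvT S K = ⟨j + 2, al ^ j / 2, -1, 0⟩ := by simp [lvT, jl, low, h1, h2, hb]
    have := main hC S K K (K - 1) j J R a r (-1) (Or.inr rfl) hl (fun u hu => by
      unfold lk; rw [hl]
      by_cases h : Odd u.re
      · rw [if_pos h, if_neg]; simp only [q0, pat, hu, h, if_true]; linarith
      · rw [if_neg h, if_pos]; simp only [q0, pat, hu, h, if_true, if_false]; linarith)
      h2 h1 hb' hb hJ hR.symm (hR ▸ hrep) (fun κ hκ => (h κ (hR ▸ hκ)).imp_left And.symm)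
    rw [hR] at this
    simpa only [nU_comm _ _ (a K _)] using this
  · have hb' : S.hh K = false := by rw [hb] at hne; simpa using hne.symm
    have hl : lvT S K = ⟨j + 2, al ^ j / 2, 1, 0⟩ := by simp [lvT, jl, low, h1, h2, hb]
    exact main hC S K (K - 1) K j J R a r 1 (Or.inl rfl) hl (fun u hu => by
      unfold lk; rw [hl]
      by_cases h : Odd u.re
      · rw [if_pos h, if_pos]; simp only [q0, pat, hu, h, if_true]; linarith
      · rw [if_neg h, if_neg]; simp only [q0, pat, hu, h, if_true, if_false]; linarith)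
      h1 h2 hb hb' hJ hR hrep h

end Pool.Agent.P.MP_cc4a10_gt
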