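import Pool.Agent.P.MP_cc4a10_gt.NeckB

/-!
The horizontal coordinate on a neck.
-/

open Set Filter Topology Complex Metric
open scoped ComplexConjugate Real

noncomputable section

namespace Pool.Agent.P.MP_cc4a10_gt

namespace NeckP

theorem one_le_norm {g : GI} (h : g ≠ 0) : 1 ≤ ‖(g : ℂ)‖ := by
  have h1 : (1 : ℝ) ≤ (g.norm : ℝ) := by exact_mod_cast GaussianInt.norm_pos.2 h
  rw [GaussianInt.intCast_real_norm, normSq_eq_norm_sq] at h1
  nlinarith [norm_nonneg (g : ℂ)]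

theorem m_tt {m : ℕ} (h : 10 ^ 6 ≤ m) : (m : ℝ) * tt m ≤ 1 / 100000 := by
  have hm : (10 : ℝ) ^ 6 ≤ m := by exact_mod_cast h
  have h0 : (0 : ℝ) < m := by linarith
  have e : tt m = (Real.exp (Real.log 2 * (m / 32)))⁻¹ := by
    rw [tt, Real.rpow_def_of_pos (by norm_num), ← Real.exp_neg]
    congr 1
    ring
  have h1 : (m : ℝ) / 50 ≤ Real.log 2 * (m / 32) := by nlinarith [Real.log_two_gt_d9]
  have h2 := Real.pow_div_factorial_le_exp ((m : ℝ) / 50) (by positivity) 3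
  have h3 := Real.exp_le_exp.2 h1
  rw [e, ← div_eq_mul_inv, div_le_iff₀ (Real.exp_pos _)]
  norm_num [Nat.factorial] at h2
  have h4 : (10 : ℝ) ^ 6 * 10 ^ 6 * m ≤ m * m * m := by gcongr
  nlinarith

theorem io_flip {K K' : ℤ} (h : K' = K - 1 ∨ K' = K + 1) (z : ℂ) : io K' z = -conj (io K z) := by
  have e : Even K' ↔ ¬Even K := by
    rcases h with rfl | rfl
    · exact Int.even_sub_one
    · exact Int.even_add_one
  by_cases hK : Even K <;> simp [io, e, hK]

theorem ang_aux (K : ℤ) (a b : ℂ) : (conj (io K a) * io (K + 1) b).re = -(a * b).re := by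
  rw [io_flip (K := K) (Or.inr rfl)]
  by_cases hK : Even K <;> simp [io, hK]

/-- The side of a neck that belongs to level `K`. -/
def sd (W : WD) (K : ℤ) (u : GI) : Side :=
  ⟨rho (W.m K), rho1 (W.m K), dd (W.m K), W.p K u, W.c K, W.v K u, W.Zc K,
    fun y => exp (W.N K u y)⟩

variable (W : WD) {K : ℤ} {u : GI}

theorem q_ne (hu : u ∈ W.nk K) : W.q K u ≠ 0 := by
  have h := (W.qb K u hu).1
  exact abs_pos.1 ((pow_pos (dd_pos _) 2).trans_le h)

theorem ot_cases (hu : u ∈ W.nk K) : W.ot K u = K - 1 ∨ W.ot K u = K + 1 := by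
  rw [(W.inv K u hu).1]
  split_ifs <;> simp

theorem ot_ot (hu : u ∈ W.nk K) : W.ot (W.ot K u) (W.par K u) = K := by
  obtain ⟨h1, h2, -, h3, -⟩ := W.inv K u hu
  rw [(W.inv _ _ h2).1, h3]
  rcases lt_or_gt_of_ne (q_ne W hu) with h | h
  · rw [if_pos (by linarith), h1, if_neg (by linarith)]
    ring
  · rw [if_neg (by linarith), h1, if_pos h]
    ring

theorem m_rel (hu : u ∈ W.nk K) : W.m K ≤ W.m (W.ot K u) + 1 ∧ W.m (W.ot K u) ≤ W.m K + 1 := by
  rcases ot_cases W hu with h | h <;> rw [h]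
  · have := W.big (K - 1)
    rw [sub_add_cancel] at this
    exact ⟨this.2.2, this.2.1⟩
  · exact (W.big K).2

theorem dd_rel {m n : ℕ} (h : n ≤ m + 1) : dd m ≤ 4 * dd n := by
  rw [← tt_pow_16, ← tt_pow_16]
  exact tt_pow_le h (by norm_num)

theorem rho_pos {m : ℕ} (h : 10 ^ 6 ≤ m) : 0 < rho m := by
  have hm : (10 : ℝ) ^ 6 ≤ m := by exact_mod_cast h
  exact div_pos (dd_pos m) (by linarith)

theorem rho_le {m : ℕ} (h : 10 ^ 6 ≤ m) : rho m ≤ dd m / 10 ^ 6 := by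
  have hm : (10 : ℝ) ^ 6 ≤ m := by exact_mod_cast h
  exact div_le_div_of_nonneg_left (dd_pos m).le (by norm_num) hm

theorem rho1_le {m : ℕ} (h : 10 ^ 6 ≤ m) : 1000 * rho1 m ≤ rho m := by
  have hm : (10 : ℝ) ^ 6 ≤ m := by exact_mod_cast h
  rw [rho, rho1, le_div_iff₀ (by linarith)]
  nlinarith [m_tt h, dd_pos m]

theorem mem_out (hu : u ∈ W.nk K) {z : ℂ} (h1 : 2 * rho1 (W.m K) < ‖z - W.p K u‖)
    (h2 : ‖z - W.p K u‖ < rho (W.m K) * (42 / 100)) :
    z ∈ Out (W.nk K) (W.p K) (2 * rho1 (W.m K)) := by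
  intro w hw
  by_cases e : u = w
  · exact e ▸ h1
  have h3 := one_le_norm (sub_ne_zero.2 e)
  have h4 := W.sep K u hu w hw
  have h5 := norm_sub_norm_le (W.c K * ((u - w : GI) : ℂ)) (W.p K u - W.p K w)
  rw [norm_sub_rev (W.c K * _), norm_mul, W.nc] at h5
  have h6 := norm_sub_le (z - W.p K w) (z - W.p K u)
  rw [sub_sub_sub_cancel_left] at h6
  have h7 := mul_le_mul_of_nonneg_left h3 (dd_pos (W.m K)).le
  linarith [rho_le (W.big K).1, rho1_le (W.big K).1, dd_pos (W.m K), rho_pos (W.big K).1]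

theorem ok (hI : S_Inv) (hu : u ∈ W.nk K) :
    OK (sd W K u) (sd W (W.ot K u) (W.par K u)) (W.t K u) (W.q K u ^ 2) := by
  have hb := (W.big K).1
  have hb' := (W.big (W.ot K u)).1
  have hρ := rho_pos hb
  obtain ⟨v1, v2, v3⟩ := W.vv K u hu
  obtain ⟨n1, n2, n3, n4⟩ := W.nN K u hu
  obtain ⟨q1, q2, q3, q4, q5⟩ := W.qb K u hu
  have hd := dd_pos (W.m K)
  have hq := q_ne W hu
  refine ⟨hρ, hd, W.nc K, ?_, by positivity, by simpa using q5, ?_, rho1_le hb,
    fun z hz => ⟨?_, ?_⟩, n1.cexp, fun y hy => ⟨(n2 y hy).1, ?_⟩, fun z h1 h2 => ?_, ?_⟩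
  · simp only [sd]
    rcases ot_cases W hu with h | h <;> rw [h]
    · have h1 := W.ang (K - 1)
      rwa [ang_aux, sub_add_cancel, mul_comm (dd _), mul_comm (W.c _)] at h1
    · have h1 := W.ang K
      rwa [ang_aux] at h1
  · simp only [sd]
    have hm' : (10 : ℝ) ^ 6 ≤ W.m (W.ot K u) := by exact_mod_cast hb'
    have hm : (10 : ℝ) ^ 6 ≤ W.m K := by exact_mod_cast hb
    have h1 : (W.m (W.ot K u) : ℝ) ≤ W.m K + 1 := by exact_mod_cast (m_rel W hu).2
    have h2 := dd_rel (m_rel W hu).2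
    have h3 := m_tt hb
    have h4 := tt_pos (W.m K)
    have h5 : dd (W.m K) ≤ tt (W.m K) := by
      rw [← tt_pow_16]
      exact pow_le_of_le_one h4.le (tt_le_one _) (by norm_num)
    have h6 : W.q K u ^ 2 ≤ (5 * dd (W.m K) ^ 2) ^ 2 := by
      rw [← sq_abs]
      gcongr
    rw [div_le_iff₀ (by have := rho_pos hb'; positivity), rho1, rho]
    set d := dd (W.m K)
    set τ := tt (W.m K)
    set n : ℝ := (W.m (W.ot K u) : ℝ)
    have h7 : n * τ ≤ 2 / 100000 := by nlinarith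
    have h8 : d * τ * (d / 4 / n * (44 / 100))
        ≤ d * τ * (dd (W.m (W.ot K u)) / n * (44 / 100)) := by
      gcongr
      linarith
    refine le_trans ?_ h8
    have h9 : d * τ * (d / 4 / n * (44 / 100)) = d ^ 2 * τ * (11 / 100) / n := by ring
    rw [h9, le_div_iff₀ (by linarith)]
    have h10 : ‖W.t K u‖ * n ≤ 50 * d ^ 2 * τ ^ 2 * n := by
      have h11 : d ^ 2 * d ^ 2 ≤ d ^ 2 * τ ^ 2 := by gcongr
      gcongr
      nlinarith
    have h12 : d ^ 2 * τ * (n * τ) ≤ d ^ 2 * τ * (2 / 100000) := by gcongr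
    have h13 : 0 < d ^ 2 * τ := by positivity
    nlinarith
  · have h1 := (hI (W.v K u) (W.p K u) _ (by linarith) v1 v2
      fun w hw => (v3 w (mem_ball_iff_norm.1 hw)).1).1 z (mem_ball_iff_norm.2 hz) (W.p K u)
      (mem_ball_self (by linarith))
    rwa [v2, sub_zero] at h1
  · exact v1.differentiableAt (isOpen_ball.mem_nhds (mem_ball_iff_norm.2 hz))
  · simpa [sd] using (n2 y hy).2
  · simp only [sd] at h1 h2 ⊢
    have r0 : 0 < rho1 (W.m K) := mul_pos hd (tt_pos _)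
    have h3 := v3 z (by linarith)
    have h4 := (h3.2 fun e => by rw [e, sub_self, norm_zero] at h1; linarith).1
    have h5 := n3 z (by linarith) h2
    have h6 : deriv (W.v K u) z ≠ 0 := fun e => by
      rw [e] at h3
      norm_num at h3
    refine wl_congr (W.dZ K z (mem_out W hu h1 h2)) h5 ?_
    have h7 := exp_ne_zero (W.N K u (W.v K u z))
    rw [h4, exp_neg, h5, E2]
    push_cast
    field_simp
  · have e : E2 (sd W K u) (W.q K u ^ 2) = fun y => W.q K u ^ 2 / (exp (W.N K u y) * y ^ 2) := by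
      funext y
      simp [sd, E2]
    rw [e]
    exact n4

end NeckP

open NeckP in
theorem pNeck (hA : S_Ann) (hI : S_Inv) : S_Neck := by
  intro W K u hu
  obtain ⟨-, i2, i3, i4, i5, i6⟩ := W.inv K u hu
  have h := ok W hI hu
  have h' := ok W hI i2
  have c1 := (W.ce K u hu).1
  have c2 := (W.ce _ _ i2).1
  rw [ot_ot W hu, i3, i4, i5, neg_sq] at h'
  rw [ot_ot W hu, i3, i5, i6, io_flip (ot_cases W hu)] at c2
  have hb := (W.big K).1
  have hb' := (W.big (W.ot K u)).1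
  have hm' : (10 : ℝ) ^ 6 ≤ W.m (W.ot K u) := by exact_mod_cast hb'
  have hm : (10 : ℝ) ^ 6 ≤ W.m K := by exact_mod_cast hb
  have h1 : (W.m K : ℝ) ≤ W.m (W.ot K u) + 1 := by exact_mod_cast (m_rel W hu).1
  have h2 := dd_rel (m_rel W hu).1
  have hd := dd_pos (W.m K)
  have r := rho_pos hb
  have r' := rho_pos hb'
  obtain ⟨P, p1, p2, p3⟩ := h.main hA h' (L := W.m K) c1 c2 (by
    simp only [sd]
    obtain ⟨q1, -, q3, -⟩ := W.qb K u hu
    have h3 : (dd (W.m K) ^ 2) ^ 2 ≤ W.q K u ^ 2 := by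
      rw [← sq_abs (W.q K u)]
      gcongr
    have h4 : (2 : ℝ) ^ W.m K ≤ Real.exp (W.m K) := by
      rw [← Real.exp_one_pow]
      gcongr
      linarith [Real.add_one_le_exp 1]
    have h5 : 1 ≤ dd (W.m K) ^ 2 * Real.exp (W.m K) := by
      rw [dd_sq, inv_mul_eq_div, one_le_div (by positivity)]
      exact h4
    have h6 : (dd (W.m K) ^ 2) ^ 2 / 2 * Real.exp (W.m K) ≤ ‖W.t K u‖ * Real.exp (W.m K) := by
      gcongr
      linarith
    have h7 : rho (W.m K) * rho (W.m (W.ot K u)) ≤ dd (W.m K) * dd (W.m K) := by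
      gcongr <;> linarith [rho_le hb, rho_le hb']
    rw [div_mul_eq_mul_div, le_div_iff₀ (by positivity)]
    nlinarith [mul_le_mul_of_nonneg_left h5 (pow_pos hd 2).le, pow_pos hd 2])
  refine ⟨P, fun y hy => ?_, p2, p3⟩
  have hy' : y ∈ AA (sd W K u) (sd W (W.ot K u) (W.par K u)) (W.t K u) := by
    refine ⟨lt_of_le_of_lt ?_ hy.1, hy.2.trans ?_⟩ <;> simp only [sd]
    · gcongr
      norm_num
    · linarith
  obtain ⟨a1, a2, a3⟩ := p1 y hy'
  refine ⟨by simpa [sd, E2] using a1, a2.trans ?_, a3⟩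
  simp only [sd]
  have h3 : rho (W.m (W.ot K u)) ≤ 5 * rho (W.m K) := by
    rw [rho, rho, ← mul_div_assoc, div_le_div_iff₀ (by linarith) (by linarith)]
    have h4 : dd (W.m (W.ot K u)) * W.m K ≤ 4 * dd (W.m K) * (W.m (W.ot K u) + 1) := by gcongr
    nlinarith
  have h5 : rho (W.m K) * W.m K = dd (W.m K) := by
    rw [rho]
    field_simp
  have h6 : (rho (W.m K) + rho (W.m (W.ot K u))) * (((W.m K : ℝ) + 8) / 200 + 2)
      ≤ 6 * rho (W.m K) * (((W.m K : ℝ) + 8) / 200 + 2) := by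
    gcongr
    linarith
  linarith [rho_le hb]

end Pool.Agent.P.MP_cc4a10_gt
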