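import Pool.Agent.P.MP_cc4a10_gt.St
import Pool.Agent.P.MP_cc4a10_gt.NumAChk1
import Pool.Agent.P.MP_cc4a10_gt.NumAChk2

/-! Interval bounds for `Om` and `p` away from zero. -/

open Complex
open scoped Real

namespace Pool.Agent.P.MP_cc4a10_gt

open NumAP in
theorem pNumA : S_NumA := by
  have key : ∀ θ : ℂ, 0 ≤ θ.re → θ.re ≤ π → |θ.im| ≤ π → 6 / 10 ≤ ‖θ‖ →
      1 / 10 ≤ (OmE θ).re ∧ 2 * |(OmE θ).im| ≤ (OmE θ).re ∧ ‖pE θ‖ ≤ 38 / 10 := by
    intro θ h0 h1 h2 h3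
    rcases root_box h0 h1 h2 with h | h
    · exact run_ok leafA_ok _ _ _ _ θ chkA1 h h0 h1 h2 h3
    · exact run_ok leafA_ok _ _ _ _ θ chkA2 h h0 h1 h2 h3
  intro θ h1 h2 h3
  rw [abs_le] at h1
  rcases le_total 0 θ.re with h | h
  · exact key θ h h1.2 h2 h3
  · have := key (-θ) (by simpa using h) (by rw [neg_re]; linarith) (by simpa using h2)
      (by simpa using h3)
    rwa [(pE_neg θ).1, (pE_neg θ).2] at this

end Pool.Agent.P.MP_cc4a10_gt
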