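import Pool.Agent.P.MP_cc4a10_gt.NumARun

/-! Kernel run of the subdivision checker. -/

namespace Pool.Agent.P.MP_cc4a10_gt.NumAP

theorem chkG2 : run leafG 10 1786706395136 (Int.neg 1786706395136) 1786706395136 = true := by
  decide +kernel

end Pool.Agent.P.MP_cc4a10_gt.NumAP
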