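import Pool.Agent.P.MP_cc4a10_gt.St
import Pool.Agent.P.MP_cc4a10_gt.NumGChk1
import Pool.Agent.P.MP_cc4a10_gt.NumGChk2

/-! Interval bound for the junction determinant away from zero. -/

open Complex
open scoped Real

namespace Pool.Agent.P.MP_cc4a10_gt

open NumAP in
theorem pNumG : S_NumG := by
  have key : ∀ θ : ℂ, 0 ≤ θ.re → θ.re + |θ.im| ≤ π → 6 / 10 ≤ ‖θ‖ → ∀ θ2 z1 z2 Z : ℂ,
      θ2.re = π - θ.re → exp θ2 = -exp π * (exp θ)⁻¹ → 0 < z1.re → 0 < z2.re → 0 < Z.re →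
      z1 ^ 2 = OmE θ → z2 ^ 2 = OmE θ2 → Z ^ 2 = -4 * pE θ * pE θ2 →
      1 / 10 ≤ ‖(z2 - pE θ) * (z1 - pE θ2) + I * Z * (z2 - pE θ + (z1 - pE θ2))‖ := by
    intro θ h0 h1
    rcases root_box h0 (by linarith [abs_nonneg θ.im]) (by linarith) with h | h
    · exact run_ok leafG_ok _ _ _ _ θ chkG1 h h0 h1
    · exact run_ok leafG_ok _ _ _ _ θ chkG2 h h0 h1
  intro θ θ2 z1 z2 Z h1 h2 h3 p1 p2 p3 q1 q2 q3
  rcases h3 with ⟨h, rfl⟩ | ⟨h, rfl⟩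
  · rw [abs_of_nonneg h] at h1
    rw [← (pE_neg (θ - π * (1 + I))).1] at q3 ⊢
    rw [← (pE_neg (θ - π * (1 + I))).2] at q2
    refine key θ h h1 h2 _ z1 z2 Z (by simp) ?_ p1 p2 p3 q1 q2 q3
    rw [show -(θ - π * (1 + I)) = π + π * I + -θ by ring, exp_add, exp_add, exp_pi_mul_I,
      exp_neg]
    ring
  · rw [abs_of_nonpos h] at h1
    rw [← (pE_neg θ).1] at q3 ⊢
    rw [← (pE_neg θ).2] at q1
    refine key (-θ) (by simpa using h) (by simpa using h1) (by simpa using h2) _ z1 z2 Z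
      (by simp [add_comm]) ?_ p1 p2 p3 q1 q2 q3
    rw [show θ + π * (1 - I) = π + -(π * I) + θ by ring, exp_add, exp_add, exp_neg, exp_neg,
      exp_pi_mul_I, inv_inv]
    ring

end Pool.Agent.P.MP_cc4a10_gt
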