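import Pool.Agent.P.MP_cc4a10_gt.St

/-!
Small-angle expansion of the explicit series.
-/

open Set Filter Topology Complex Metric
open scoped ComplexConjugate Real

noncomputable section

namespace Pool.Agent.P.MP_cc4a10_gt.NumSP

lemma cosh_bd {w : ℂ} (h : ‖w‖ ≤ 1) : ‖cosh w - (1 + w ^ 2 / 2)‖ ≤ ‖w‖ ^ 4 * (5 / 96) := by
  have h1 : ‖w * I‖ ≤ 1 := by simpa using h
  have h2 := Complex.cos_bound h1
  rw [cos_mul_I] at h2
  have e : (1 - (w * I) ^ 2 / 2 : ℂ) = 1 + w ^ 2 / 2 := by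
    rw [mul_pow, I_sq]; ring
  rw [e] at h2
  simpa using h2

lemma sinh_bd {w : ℂ} (h : ‖w‖ ≤ 1) : ‖sinh w - (w + w ^ 3 / 6)‖ ≤ ‖w‖ ^ 5 / 100 := by
  have h1 : ‖w * I‖ ≤ 1 := by simpa using h
  have h2 := Complex.sin_bound h1
  rw [sin_mul_I] at h2
  have e : (sinh w * I - (w * I - (w * I) ^ 3 / 6) : ℂ) = (sinh w - (w + w ^ 3 / 6)) * I := by
    rw [mul_pow, I_pow_three]; ring
  rw [e] at h2
  simpa using h2

lemma e2pi : 5352 / 10 ≤ Real.exp (2 * π) ∧ Real.exp (2 * π) ≤ 5356 / 10 := by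
  have h1 := Real.pi_gt_d6
  have h2 := Real.pi_lt_d6
  have e : Real.exp (2 * π) = Real.exp 1 ^ 6 * Real.exp (2 * π - 6) := by
    rw [← Real.exp_nat_mul, ← Real.exp_add]; congr 1; push_cast; ring
  have a1 : (4034287 / 10000 : ℝ) ≤ Real.exp 1 ^ 6 := by
    have := pow_le_pow_left₀ (by norm_num) Real.exp_one_gt_d9.le 6
    refine le_trans (by norm_num) this
  have a2 : Real.exp 1 ^ 6 ≤ (4034288 / 10000 : ℝ) := by
    have := pow_le_pow_left₀ (Real.exp_pos 1).le Real.exp_one_lt_d9.le 6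
    refine le_trans this (by norm_num)
  have b1 : (13270 / 10000 : ℝ) ≤ Real.exp (2 * π - 6) := by
    have m : Real.exp (283184 / 1000000) ≤ Real.exp (2 * π - 6) :=
      Real.exp_le_exp.2 (by linarith)
    have := Real.sum_le_exp_of_nonneg (x := 283184 / 1000000) (by norm_num) 4
    simp only [Finset.sum_range_succ, Finset.sum_range_zero, Nat.factorial] at this
    refine le_trans (le_trans (by norm_num) this) m
  have b2 : Real.exp (2 * π - 6) ≤ (13275 / 10000 : ℝ) := by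
    have m : Real.exp (2 * π - 6) ≤ Real.exp (283186 / 1000000) :=
      Real.exp_le_exp.2 (by linarith)
    have := Real.exp_bound' (x := 283186 / 1000000) (by norm_num) (by norm_num) (n := 4)
      (by norm_num)
    simp only [Finset.sum_range_succ, Finset.sum_range_zero, Nat.factorial] at this
    refine le_trans m (le_trans this (by norm_num))
  rw [e]
  constructor
  · have := mul_le_mul a1 b1 (by norm_num) (by positivity)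
    linarith
  · have := mul_le_mul a2 b2 (by positivity) (by norm_num)
    linarith

lemma alg (a φ X u v : ℂ) (huv : u * v = 1) (h1 : X * u - 1 ≠ 0) (h2 : X * v - 1 ≠ 0)
    (h3 : X - 1 ≠ 0) :
    (a + φ) * (X * u - 1)⁻¹ + (a - φ) * (X * v - 1)⁻¹ - 2 * a / (X - 1)
      = 2 * X / ((X * u - 1) * (X * v - 1))
        * (a * ((X + 1) / (X - 1)) * ((u + v) / 2 - 1) - φ * ((u - v) / 2)) := by
  field_simp
  linear_combination (-2 * a * X ^ 2) * huv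

lemma cosh1 {θ : ℂ} (h : ‖θ‖ ≤ 9 / 10) : ‖cosh θ - 1‖ ≤ 5422 / 10000 * ‖θ‖ ^ 2 := by
  have h1 := cosh_bd (w := θ) (by linarith)
  have e : cosh θ - 1 = (cosh θ - (1 + θ ^ 2 / 2)) + θ ^ 2 / 2 := by ring
  have h2 : ‖θ ^ 2 / 2‖ = ‖θ‖ ^ 2 / 2 := by simp
  have h3 := norm_add_le (cosh θ - (1 + θ ^ 2 / 2)) (θ ^ 2 / 2)
  have h0 := norm_nonneg θ
  have h4 : ‖θ‖ ^ 2 ≤ 81 / 100 := by nlinarith
  have h5 : ‖θ‖ ^ 4 ≤ 81 / 100 * ‖θ‖ ^ 2 := by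
    have : ‖θ‖ ^ 4 = ‖θ‖ ^ 2 * ‖θ‖ ^ 2 := by ring
    rw [this]; exact mul_le_mul_of_nonneg_right h4 (by positivity)
  have h6 : 0 ≤ ‖θ‖ ^ 2 := by positivity
  rw [e]; linarith

lemma sinh1 {θ : ℂ} (h : ‖θ‖ ≤ 9 / 10) : ‖sinh θ - θ‖ ≤ 176 / 1000 * ‖θ‖ ^ 3 := by
  have h1 := sinh_bd (w := θ) (by linarith)
  have e : sinh θ - θ = (sinh θ - (θ + θ ^ 3 / 6)) + θ ^ 3 / 6 := by ring
  have h2 : ‖θ ^ 3 / 6‖ = ‖θ‖ ^ 3 / 6 := by simp
  have h3 := norm_add_le (sinh θ - (θ + θ ^ 3 / 6)) (θ ^ 3 / 6)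
  have h0 := norm_nonneg θ
  have h4 : ‖θ‖ ^ 2 ≤ 81 / 100 := by nlinarith
  have h5 : ‖θ‖ ^ 5 ≤ 81 / 100 * ‖θ‖ ^ 3 := by
    have : ‖θ‖ ^ 5 = ‖θ‖ ^ 2 * ‖θ‖ ^ 3 := by ring
    rw [this]; exact mul_le_mul_of_nonneg_right h4 (by positivity)
  have h6 : 0 ≤ ‖θ‖ ^ 3 := by positivity
  rw [e]; linarith

lemma sinh2 {θ : ℂ} (h : ‖θ‖ ≤ 9 / 10) : ‖sinh θ‖ ≤ 1143 / 1000 * ‖θ‖ := by
  have h1 := sinh1 h
  have e : sinh θ = (sinh θ - θ) + θ := by ring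
  have h3 := norm_add_le (sinh θ - θ) θ
  have h0 := norm_nonneg θ
  have h4 : ‖θ‖ ^ 2 ≤ 81 / 100 := by nlinarith
  have h5 : ‖θ‖ ^ 3 ≤ 81 / 100 * ‖θ‖ := by
    have : ‖θ‖ ^ 3 = ‖θ‖ ^ 2 * ‖θ‖ := by ring
    rw [this]; exact mul_le_mul_of_nonneg_right h4 h0
  rw [e]; linarith

lemma cosh2 {θ : ℂ} (h : ‖θ‖ ≤ 9 / 10) : ‖cosh θ‖ ≤ 144 / 100 := by
  have h1 := cosh1 h
  have e : cosh θ = (cosh θ - 1) + 1 := by ring
  have h3 := norm_add_le (cosh θ - 1) 1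
  have h0 := norm_nonneg θ
  have h4 : ‖θ‖ ^ 2 ≤ 81 / 100 := by nlinarith
  rw [norm_one] at h3
  rw [e]; linarith

/-- The common denominator. -/
def DD (X : ℝ) (θ : ℂ) : ℂ := (X : ℂ) ^ 2 - 2 * X * cosh θ + 1
/-- The bracket. -/
def BB (a X : ℝ) (θ : ℂ) : ℂ :=
  (a : ℂ) * (((X : ℂ) + 1) / (X - 1)) * (cosh θ - 1) - θ.re * sinh θ

lemma DD_near {X : ℝ} {θ : ℂ} (hX : 535 ≤ X) (h : ‖θ‖ ≤ 9 / 10) :
    ‖DD X θ - (X : ℂ) ^ 2‖ ≤ 54 / 10000 * X ^ 2 := by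
  have e : DD X θ - (X : ℂ) ^ 2 = 1 - 2 * X * cosh θ := by unfold DD; ring
  have h1 := norm_sub_le (1 : ℂ) (2 * X * cosh θ)
  have h2 : ‖(2 * X * cosh θ : ℂ)‖ = 2 * X * ‖cosh θ‖ := by
    rw [norm_mul, norm_mul, Complex.norm_real, Real.norm_eq_abs, abs_of_nonneg (by linarith)]
    simp
  have h3 := cosh2 h
  rw [norm_one, h2] at h1
  have h4 : 2 * X * ‖cosh θ‖ ≤ 2 * X * (144 / 100) :=
    mul_le_mul_of_nonneg_left h3 (by linarith)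
  rw [e]; nlinarith

lemma DD_lb {X : ℝ} {θ : ℂ} (hX : 535 ≤ X) (h : ‖θ‖ ≤ 9 / 10) :
    9946 / 10000 * X ^ 2 ≤ ‖DD X θ‖ := by
  have h1 := DD_near hX h
  have h2 := norm_sub_norm_le ((X : ℂ) ^ 2) (DD X θ)
  rw [norm_sub_rev] at h2
  have h3 : ‖(X : ℂ) ^ 2‖ = X ^ 2 := by
    rw [norm_pow, Complex.norm_real, Real.norm_eq_abs, sq_abs]
  linarith

lemma DD_ne {X : ℝ} {θ : ℂ} (hX : 535 ≤ X) (h : ‖θ‖ ≤ 9 / 10) : DD X θ ≠ 0 := by
  intro h0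
  have := DD_lb hX h
  rw [h0, norm_zero] at this
  nlinarith

lemma ratio_bd {X : ℝ} (hX : 535 ≤ X) : ‖(((X : ℂ) + 1) / (X - 1))‖ ≤ 10038 / 10000 := by
  have e : (((X : ℂ) + 1) / (X - 1)) = (((X + 1) / (X - 1) : ℝ) : ℂ) := by push_cast; ring
  rw [e, Complex.norm_real, Real.norm_eq_abs, abs_of_nonneg (div_nonneg (by linarith) (by linarith)),
    div_le_iff₀ (by linarith)]
  linarith

lemma BB_bd {a X : ℝ} {θ : ℂ} (ha : 0 ≤ a) (hX : 535 ≤ X) (h : ‖θ‖ ≤ 9 / 10) :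
    ‖BB a X θ‖ ≤ (5443 / 10000 * a + 1143 / 1000) * ‖θ‖ ^ 2 := by
  have h1 := cosh1 h
  have h2 := sinh2 h
  have h3 := ratio_bd hX
  have h0 := norm_nonneg θ
  have h4 : ‖(a : ℂ) * (((X : ℂ) + 1) / (X - 1)) * (cosh θ - 1)‖
      ≤ a * (10038 / 10000) * (5422 / 10000 * ‖θ‖ ^ 2) := by
    rw [norm_mul, norm_mul, Complex.norm_real, Real.norm_eq_abs, abs_of_nonneg ha]
    gcongr
  have h5 : ‖(θ.re : ℂ) * sinh θ‖ ≤ ‖θ‖ * (1143 / 1000 * ‖θ‖) := by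
    rw [norm_mul, Complex.norm_real, Real.norm_eq_abs]
    have := Complex.abs_re_le_norm θ
    gcongr
  have h6 := norm_sub_le ((a : ℂ) * (((X : ℂ) + 1) / (X - 1)) * (cosh θ - 1)) (θ.re * sinh θ)
  have h7 : 0 ≤ a * ‖θ‖ ^ 2 := by positivity
  unfold BB
  nlinarith

lemma d_eq {a : ℝ} {θ : ℂ} (hX : 535 ≤ Real.exp a) (h : ‖θ‖ ≤ 9 / 10) :
    ((a : ℂ) + θ.re) * UU (a + θ) + (a - θ.re) * UU (a - θ) - 2 * a / ((Real.exp a : ℝ) - 1)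
      = 2 * (Real.exp a : ℝ) / DD (Real.exp a) θ * BB a (Real.exp a) θ := by
  have huv : exp θ * exp (-θ) = 1 := by rw [← exp_add]; simp
  have hD : DD (Real.exp a) θ
      = (((Real.exp a : ℝ) : ℂ) * exp θ - 1) * (((Real.exp a : ℝ) : ℂ) * exp (-θ) - 1) := by
    unfold DD Complex.cosh
    linear_combination (-((Real.exp a : ℝ) : ℂ) ^ 2) * huv
  have hne := DD_ne hX h
  rw [hD] at hne
  have h1 := left_ne_zero_of_mul hne
  have h2 := right_ne_zero_of_mul hne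
  have h3 : ((Real.exp a : ℝ) : ℂ) - 1 ≠ 0 := by
    intro h0
    have : ((Real.exp a - 1 : ℝ) : ℂ) = 0 := by rw [Complex.ofReal_sub]; simpa using h0
    have := Complex.ofReal_eq_zero.1 this
    linarith
  have e1 : UU (a + θ) = (((Real.exp a : ℝ) : ℂ) * exp θ - 1)⁻¹ := by
    unfold UU; rw [exp_add, Complex.ofReal_exp]
  have e2 : UU (a - θ) = (((Real.exp a : ℝ) : ℂ) * exp (-θ) - 1)⁻¹ := by
    unfold UU; rw [sub_eq_add_neg (a : ℂ) θ, exp_add, Complex.ofReal_exp]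
  rw [e1, e2, hD, alg a θ.re _ _ _ huv h1 h2 h3]
  unfold BB Complex.cosh Complex.sinh
  rfl

/-- The terms of the real series. -/
def sk (k : ℕ) : ℝ := ((k : ℝ) + 1) / (Real.exp (2 * π * (k + 1)) - 1)
/-- The variation of the terms. -/
def dk (k : ℕ) (θ : ℂ) : ℂ := hk k θ - 4 * π * sk k

lemma Xk_ge (k : ℕ) : 535 * 535 ^ k ≤ Real.exp (2 * π * (k + 1)) := by
  have e : Real.exp (2 * π * (k + 1)) = Real.exp (2 * π) ^ (k + 1) := by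
    rw [← Real.exp_nat_mul]; congr 1; push_cast; ring
  rw [e, ← pow_succ']
  exact pow_le_pow_left₀ (by norm_num) (by linarith [e2pi.1]) _

lemma Xk_ge' (k : ℕ) : 535 ≤ Real.exp (2 * π * (k + 1)) := by
  have h1 := Xk_ge k
  have h2 : (1 : ℝ) ≤ 535 ^ k := one_le_pow₀ (by norm_num)
  linarith

lemma dk_eq (k : ℕ) {θ : ℂ} (h : ‖θ‖ ≤ 9 / 10) :
    dk k θ = 2 * (Real.exp (2 * π * (k + 1)) : ℝ) / DD (Real.exp (2 * π * (k + 1))) θ
      * BB (2 * π * (k + 1)) (Real.exp (2 * π * (k + 1))) θ := by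
  rw [← d_eq (Xk_ge' k) h]
  unfold dk hk sk
  push_cast
  ring

lemma succ_le (k : ℕ) : (k : ℝ) + 1 ≤ 2 ^ k := by
  have : k + 1 ≤ 2 ^ k := Nat.lt_two_pow_self
  exact_mod_cast this

lemma dk_bd (k : ℕ) {θ : ℂ} (h : ‖θ‖ ≤ 9 / 10) :
    ‖dk k θ‖ ≤ 1 / 50 * ‖θ‖ ^ 2 * (1 / 200) ^ k := by
  rw [dk_eq k h]
  set X := Real.exp (2 * π * (k + 1)) with hXdef
  have hX : 535 ≤ X := Xk_ge' k
  have hX2 : 535 * 535 ^ k ≤ X := Xk_ge k
  have hpi := Real.pi_lt_d4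
  have hpi0 := Real.pi_pos
  have hB := BB_bd (a := 2 * π * (k + 1)) (by positivity) hX h
  have hD := DD_lb hX h
  have hk := succ_le k
  have h2k : (1 : ℝ) ≤ 2 ^ k := one_le_pow₀ (by norm_num)
  have h1 : ‖(2 * (X : ℂ) / DD X θ)‖ ≤ 2 / (9946 / 10000 * X) := by
    rw [norm_div, norm_mul, Complex.norm_real, Real.norm_eq_abs, abs_of_nonneg (by linarith),
      div_le_div_iff₀ (by nlinarith) (by linarith)]
    simp only [Complex.norm_ofNat]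
    nlinarith
  have h2 : (5443 / 10000 * (2 * π * (k + 1)) + 1143 / 1000) ≤ 46 / 10 * 2 ^ k := by
    have : π * (k + 1) ≤ 3.1416 * 2 ^ k := by gcongr
    nlinarith
  have h3 : 2 / (9946 / 10000 * X) ≤ 2 / (9946 / 10000 * (535 * 535 ^ k)) := by gcongr
  have h4 : (2 : ℝ) / (9946 / 10000 * (535 * 535 ^ k)) * (46 / 10 * 2 ^ k)
      ≤ 1 / 50 * (1 / 200) ^ k := by
    have e : (2 : ℝ) / (9946 / 10000 * (535 * 535 ^ k)) * (46 / 10 * 2 ^ k)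
        = 2 / (9946 / 10000 * 535) * (46 / 10) * (2 / 535) ^ k := by
      rw [div_pow]; field_simp
    rw [e]
    have : ((2 : ℝ) / 535) ^ k ≤ (1 / 200) ^ k :=
      pow_le_pow_left₀ (by norm_num) (by norm_num) k
    have h5 : (0 : ℝ) ≤ (2 / 535) ^ k := by positivity
    nlinarith
  rw [norm_mul]
  calc _ ≤ 2 / (9946 / 10000 * (535 * 535 ^ k)) * ((46 / 10 * 2 ^ k) * ‖θ‖ ^ 2) := by
        refine mul_le_mul (h1.trans h3) (hB.trans ?_) (norm_nonneg _) (by positivity)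
        gcongr
    _ = 2 / (9946 / 10000 * (535 * 535 ^ k)) * (46 / 10 * 2 ^ k) * ‖θ‖ ^ 2 := by ring
    _ ≤ 1 / 50 * (1 / 200) ^ k * ‖θ‖ ^ 2 := by gcongr
    _ = _ := by ring

lemma geo (c : ℝ) : HasSum (fun k : ℕ => c * (1 / 200 : ℝ) ^ k) (c * (200 / 199)) := by
  have := (hasSum_geometric_of_lt_one (r := (1 / 200 : ℝ)) (by norm_num) (by norm_num)).mul_left c
  have e : (1 - 1 / 200 : ℝ)⁻¹ = 200 / 199 := by norm_num
  rwa [e] at this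

lemma dk_sum {θ : ℂ} (h : ‖θ‖ ≤ 9 / 10) : Summable fun k => dk k θ :=
  Summable.of_norm_bounded (geo _).summable (fun k => dk_bd k h)

lemma sk_nonneg (k : ℕ) : 0 ≤ sk k :=
  div_nonneg (by positivity) (by linarith [Xk_ge' k])

lemma sk_sum : Summable sk := by
  refine Summable.of_nonneg_of_le sk_nonneg (fun k => ?_) (geo 1).summable
  have h1 := Xk_ge k
  have h2 : (1 : ℝ) ≤ 535 ^ k := one_le_pow₀ (by norm_num)
  have h3 := succ_le k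
  unfold sk
  rw [div_le_iff₀ (by linarith)]
  have h4 : (2 : ℝ) ^ k ≤ (1 / 200) ^ k * 535 ^ k := by
    rw [← mul_pow]; gcongr; norm_num
  have h5 : (0 : ℝ) ≤ (1 / 200) ^ k := by positivity
  have h6 : (535 : ℝ) ^ k ≤ Real.exp (2 * π * (k + 1)) - 1 := by linarith
  have h7 := mul_le_mul_of_nonneg_left h6 h5
  linarith

lemma cth_bd {w : ℂ} (hw : w ≠ 0) (h : ‖w‖ ≤ 45 / 100) :
    ‖cth w - 1 / w - w / 3‖ ≤ 56 / 1000 * ‖w‖ ^ 2 := by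
  have h0 : 0 < ‖w‖ := norm_pos_iff.2 hw
  have h1 := cosh_bd (w := w) (by linarith)
  have h2 := sinh_bd (w := w) (by linarith)
  have h3 := sinh1 (θ := w) (by linarith)
  have h4 : ‖w‖ ^ 2 ≤ 2025 / 10000 := by nlinarith
  have h5 : ‖w‖ ^ 3 ≤ 2025 / 10000 * ‖w‖ := by
    have : ‖w‖ ^ 3 = ‖w‖ ^ 2 * ‖w‖ := by ring
    rw [this]; exact mul_le_mul_of_nonneg_right h4 h0.le
  have h6 : 964 / 1000 * ‖w‖ ≤ ‖sinh w‖ := by
    have := norm_sub_norm_le w (sinh w)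
    rw [norm_sub_rev] at this
    linarith
  have hs : sinh w ≠ 0 := by
    intro e; rw [e, norm_zero] at h6; linarith
  set e1 := cosh w - (1 + w ^ 2 / 2) with he1
  set e2 := sinh w - (w + w ^ 3 / 6) with he2
  have e : cth w - 1 / w - w / 3
      = (w * e1 - e2 - w ^ 5 / 18 - w ^ 2 * e2 / 3) / (w * sinh w) := by
    rw [he1, he2]; unfold cth; field_simp; ring
  have n1 : ‖w * e1‖ ≤ ‖w‖ ^ 5 * (5 / 96) := by
    rw [norm_mul]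
    calc _ ≤ ‖w‖ * (‖w‖ ^ 4 * (5 / 96)) := by gcongr
      _ = _ := by ring
  have n2 : ‖w ^ 5 / 18‖ = ‖w‖ ^ 5 / 18 := by simp
  have n3 : ‖w ^ 2 * e2 / 3‖ ≤ 2025 / 10000 * (‖w‖ ^ 5 / 100) / 3 := by
    rw [norm_div, norm_mul, norm_pow]
    simp only [Complex.norm_ofNat]
    gcongr
  have n4 : ‖w * e1 - e2 - w ^ 5 / 18 - w ^ 2 * e2 / 3‖ ≤ 1184 / 10000 * ‖w‖ ^ 5 := by
    have a1 := norm_sub_le (w * e1 - e2 - w ^ 5 / 18) (w ^ 2 * e2 / 3)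
    have a2 := norm_sub_le (w * e1 - e2) (w ^ 5 / 18)
    have a3 := norm_sub_le (w * e1) e2
    have a4 : 0 ≤ ‖w‖ ^ 5 := by positivity
    linarith
  rw [e, norm_div, norm_mul, div_le_iff₀ (mul_pos h0 (by linarith))]
  have n5 : ‖w‖ ^ 5 ≤ 45 / 100 * ‖w‖ ^ 4 := by
    have : ‖w‖ ^ 5 = ‖w‖ * ‖w‖ ^ 4 := by ring
    rw [this]; gcongr
  have n6 : 56 / 1000 * ‖w‖ ^ 2 * (‖w‖ * (964 / 1000 * ‖w‖))
      ≤ 56 / 1000 * ‖w‖ ^ 2 * (‖w‖ * ‖sinh w‖) := by gcongr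
  have n7 : 0 ≤ ‖w‖ ^ 4 := by positivity
  nlinarith

lemma hk_sum {θ : ℂ} (h : ‖θ‖ ≤ 9 / 10) :
    ∑' k : ℕ, hk k θ = 4 * π * ((∑' k, sk k : ℝ) : ℂ) + ∑' k, dk k θ := by
  have h1 : HasSum (fun k => (4 * π * (sk k : ℂ))) (4 * π * ((∑' k, sk k : ℝ) : ℂ)) :=
    (Complex.hasSum_ofReal.2 sk_sum.hasSum).mul_left _
  have h2 := h1.add (dk_sum h).hasSum
  rw [← h2.tsum_eq]
  congr 1; funext k; unfold dk; ring

lemma dsum_bd {θ : ℂ} (h : ‖θ‖ ≤ 9 / 10) :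
    ‖∑' k, dk k θ‖ ≤ 1 / 50 * ‖θ‖ ^ 2 * (200 / 199) :=
  tsum_of_norm_bounded (geo _) (fun k => dk_bd k h)

lemma part1 (hS : π ^ 2 / 3 - 8 * π ^ 2 * ∑' k, sk k = π) {θ : ℂ} (h0 : θ ≠ 0)
    (h : ‖θ‖ ≤ 9 / 10) : ‖pE θ + π * conj θ / θ‖ ≤ 6 / 10 * ‖θ‖ ^ 2 := by
  have hS' : (π : ℂ) ^ 2 / 3 - 8 * π ^ 2 * ((∑' k, sk k : ℝ) : ℂ) = π := by
    have := congrArg (fun x : ℝ => (x : ℂ)) hS
    simpa only [Complex.ofReal_sub, Complex.ofReal_div, Complex.ofReal_mul, Complex.ofReal_pow,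
      Complex.ofReal_ofNat] using this
  have hc : conj θ = 2 * θ.re - θ := by
    have := Complex.add_conj θ
    push_cast at this
    linear_combination this
  have e : pE θ + π * conj θ / θ = (θ.re : ℂ) * (θ.re - θ) / 2
      + ((1 / 2 - π / 6 : ℝ) : ℂ) * (θ.re * θ)
      - π * θ.re * (cth (θ / 2) - 1 / (θ / 2) - (θ / 2) / 3) - 2 * π * ∑' k, dk k θ := by
    unfold pE
    rw [hk_sum h, hc]
    have e1 : (π : ℂ) * (2 * θ.re - θ) / θ = π * θ.re * (1 / (θ / 2)) - π := by field_simp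
    rw [e1]
    simp only [Complex.ofReal_sub, Complex.ofReal_div, Complex.ofReal_one, Complex.ofReal_ofNat]
    linear_combination hS'
  have hr := norm_nonneg θ
  have hre := Complex.abs_re_le_norm θ
  have hpi := Real.pi_lt_d4
  have hpi0 := Real.pi_gt_d4
  have n1 : ‖(θ.re : ℂ) * (θ.re - θ) / 2‖ ≤ ‖θ‖ ^ 2 / 4 := by
    have a : (θ.re : ℂ) - θ = -(θ.im * I) := by
      linear_combination (Complex.re_add_im θ)
    rw [a, norm_div, norm_mul, norm_neg, norm_mul, Complex.norm_real, Complex.norm_real,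
      Real.norm_eq_abs, Real.norm_eq_abs, Complex.norm_I, Complex.sq_norm, Complex.normSq_apply]
    simp only [Complex.norm_ofNat]
    have b1 := sq_abs θ.re
    have b2 := sq_abs θ.im
    nlinarith [sq_nonneg (|θ.re| - |θ.im|)]
  have n2 : ‖((1 / 2 - π / 6 : ℝ) : ℂ) * (θ.re * θ)‖ ≤ 24 / 1000 * (‖θ‖ * ‖θ‖) := by
    rw [norm_mul, norm_mul, Complex.norm_real, Complex.norm_real, Real.norm_eq_abs,
      Real.norm_eq_abs]
    have : |1 / 2 - π / 6| ≤ 24 / 1000 := by rw [abs_le]; constructor <;> linarith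
    gcongr
  have hh : ‖θ / 2‖ = ‖θ‖ / 2 := by simp
  have n3 : ‖π * θ.re * (cth (θ / 2) - 1 / (θ / 2) - (θ / 2) / 3)‖
      ≤ 3.1416 * (9 / 10) * (56 / 1000 * (‖θ‖ / 2) ^ 2) := by
    have := cth_bd (w := θ / 2) (by simpa using h0) (by rw [hh]; linarith)
    rw [hh] at this
    rw [norm_mul, norm_mul, Complex.norm_real, Complex.norm_real, Real.norm_eq_abs,
      Real.norm_eq_abs, abs_of_pos Real.pi_pos]
    gcongr
    linarith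
  have n4 : ‖2 * π * ∑' k, dk k θ‖ ≤ 2 * 3.1416 * (1 / 50 * ‖θ‖ ^ 2 * (200 / 199)) := by
    have := dsum_bd h
    rw [norm_mul, norm_mul, Complex.norm_real, Real.norm_eq_abs, abs_of_pos Real.pi_pos]
    simp only [Complex.norm_ofNat]
    gcongr
  rw [e]
  have a1 := norm_sub_le ((θ.re : ℂ) * (θ.re - θ) / 2 + ((1 / 2 - π / 6 : ℝ) : ℂ) * (θ.re * θ)
      - π * θ.re * (cth (θ / 2) - 1 / (θ / 2) - (θ / 2) / 3)) (2 * π * ∑' k, dk k θ)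
  have a2 := norm_sub_le ((θ.re : ℂ) * (θ.re - θ) / 2 + ((1 / 2 - π / 6 : ℝ) : ℂ) * (θ.re * θ))
      (π * θ.re * (cth (θ / 2) - 1 / (θ / 2) - (θ / 2) / 3))
  have a3 := norm_add_le ((θ.re : ℂ) * (θ.re - θ) / 2) (((1 / 2 - π / 6 : ℝ) : ℂ) * (θ.re * θ))
  have a4 : 0 ≤ ‖θ‖ ^ 2 := by positivity
  nlinarith

lemma alt_sk : HasSum (fun k : ℕ => (1 + (-1 : ℂ) ^ k) * (sk k : ℂ))
    (2 * ((∑' k, sk (2 * k) : ℝ) : ℂ)) := by
  have hs : Summable fun k => sk (2 * k) :=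
    sk_sum.comp_injective (fun a b hab => by simpa using hab)
  have h1 : HasSum (fun k : ℕ => (1 + (-1 : ℂ) ^ (2 * k)) * (sk (2 * k) : ℂ))
      (2 * ((∑' k, sk (2 * k) : ℝ) : ℂ)) := by
    have := (Complex.hasSum_ofReal.2 hs.hasSum).mul_left 2
    have e : (fun k : ℕ => (1 + (-1 : ℂ) ^ (2 * k)) * (sk (2 * k) : ℂ))
        = fun k => 2 * (sk (2 * k) : ℂ) := by
      funext k; rw [pow_mul]; norm_num
    rw [e]; exact this
  have h2 : HasSum (fun k : ℕ => (1 + (-1 : ℂ) ^ (2 * k + 1)) * (sk (2 * k + 1) : ℂ)) 0 := by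
    have e : (fun k : ℕ => (1 + (-1 : ℂ) ^ (2 * k + 1)) * (sk (2 * k + 1) : ℂ))
        = fun _ => 0 := by
      funext k; rw [pow_succ, pow_mul]; norm_num
    rw [e]; exact hasSum_zero
  have := HasSum.even_add_odd (f := fun k : ℕ => (1 + (-1 : ℂ) ^ k) * (sk k : ℂ)) h1 h2
  simpa only [add_zero] using this

lemma alt_bd (k : ℕ) {θ : ℂ} (h : ‖θ‖ ≤ 9 / 10) :
    ‖(1 + (-1 : ℂ) ^ k) * dk k θ‖ ≤ 1 / 25 * ‖θ‖ ^ 2 * (1 / 200) ^ k := by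
  have h1 : ‖(1 + (-1 : ℂ) ^ k)‖ ≤ 2 := by
    have := norm_add_le (1 : ℂ) ((-1) ^ k)
    rw [norm_pow, norm_neg, norm_one, one_pow] at this
    linarith
  have h2 := dk_bd k h
  rw [norm_mul]
  calc _ ≤ 2 * (1 / 50 * ‖θ‖ ^ 2 * (1 / 200) ^ k) := by gcongr
    _ = _ := by ring

lemma alt_sum {θ : ℂ} (h : ‖θ‖ ≤ 9 / 10) : Summable fun k : ℕ => (1 + (-1 : ℂ) ^ k) * dk k θ :=
  Summable.of_norm_bounded (geo _).summable (fun k => alt_bd k h)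

lemma eE_eq : eE = 2 * π ^ 2 / 3 + 16 * π ^ 2 * ∑' k, sk (2 * k) := by
  unfold eE sk
  congr 3
  funext k
  push_cast
  rfl

lemma B_eq {θ : ℂ} (h : ‖θ‖ ≤ 9 / 10) :
    eE + pE θ - cE θ = (θ.re : ℂ) ^ 2 / 2 - 4 * π * dk 0 θ
      - 2 * π * ∑' k : ℕ, (1 + (-1 : ℂ) ^ (k + 1)) * dk (k + 1) θ := by
  have s1 : Summable fun k => hk k θ := by
    have h1 : Summable (fun k => (4 * π * (sk k : ℂ))) :=
      (Complex.hasSum_ofReal.2 sk_sum.hasSum).summable.mul_left _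
    refine (h1.add (dk_sum h)).congr fun k => ?_
    unfold dk; ring
  have s2 : Summable fun k => (-1 : ℂ) ^ k * hk k θ := by
    refine Summable.of_norm ?_
    refine s1.norm.congr fun k => ?_
    simp
  have h1 := (alt_sk.mul_left (4 * (π : ℂ))).add (alt_sum h).hasSum
  have h2 : ∑' k : ℕ, hk k θ + ∑' k : ℕ, (-1 : ℂ) ^ k * hk k θ
      = 4 * π * (2 * ((∑' k, sk (2 * k) : ℝ) : ℂ)) + ∑' k : ℕ, (1 + (-1 : ℂ) ^ k) * dk k θ := by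
    rw [← h1.tsum_eq, ← s1.tsum_add s2]
    congr 1; funext k; unfold dk; ring
  rw [(alt_sum h).tsum_eq_zero_add] at h2
  rw [eE_eq]
  unfold pE cE
  simp only [Complex.ofReal_add, Complex.ofReal_div, Complex.ofReal_mul, Complex.ofReal_pow,
    Complex.ofReal_ofNat]
  linear_combination (-2 * (π : ℂ)) * h2

lemma tail_bd {θ : ℂ} (h : ‖θ‖ ≤ 9 / 10) :
    ‖∑' k : ℕ, (1 + (-1 : ℂ) ^ (k + 1)) * dk (k + 1) θ‖ ≤ 1 / 5000 * ‖θ‖ ^ 2 * (200 / 199) := by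
  refine tsum_of_norm_bounded (geo _) (fun k => (alt_bd (k + 1) h).trans (le_of_eq ?_))
  ring

lemma part2 {θ : ℂ} (h : ‖θ‖ ≤ 9 / 10) :
    ‖eE + pE θ - cE θ - (2735 / 10000 * ‖θ‖ ^ 2 + conj θ ^ 2 / 8)‖
      ≤ (1 / 100 + ‖θ‖ ^ 2 / 40) * ‖θ‖ ^ 2 := by
  have hd := dk_eq 0 h
  have ea : (2 * π * (((0 : ℕ) : ℝ) + 1)) = 2 * π := by simp
  rw [ea] at hd
  obtain ⟨hX1, hX2⟩ := e2pi
  set X := Real.exp (2 * π) with hXdef
  have hX : 535 ≤ X := by linarith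
  have hp1 := Real.pi_gt_d6
  have hp2 := Real.pi_lt_d6
  have hD := DD_ne hX h
  have hXc : (X : ℂ) ≠ 0 := Complex.ofReal_ne_zero.2 (by linarith)
  obtain ⟨κ, hκ⟩ : ∃ κ : ℝ, κ = 8 * π / X := ⟨_, rfl⟩
  obtain ⟨ρ, hρ⟩ : ∃ ρ : ℝ, ρ = (X + 1) / (X - 1) := ⟨_, rfl⟩
  have k1 : 4692 / 100000 ≤ κ := by rw [hκ, le_div_iff₀ (by linarith)]; linarith
  have k2 : κ ≤ 4696 / 100000 := by rw [hκ, div_le_iff₀ (by linarith)]; linarith
  have r1 : 10037 / 10000 ≤ ρ := by rw [hρ, le_div_iff₀ (by linarith)]; linarith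
  have r2 : ρ ≤ 10038 / 10000 := by rw [hρ, div_le_iff₀ (by linarith)]; linarith
  have hρc : ((X : ℂ) + 1) / (X - 1) = ρ := by rw [hρ]; push_cast; ring
  set ε : ℂ := ((X : ℂ) ^ 2 - DD X θ) / DD X θ with hε
  have nε : ‖ε‖ ≤ 55 / 10000 := by
    have a1 := DD_near hX h
    have a2 := DD_lb hX h
    rw [hε, norm_div, norm_sub_rev, div_le_iff₀ (norm_pos_iff.2 hD)]
    nlinarith
  have hd0 : 4 * π * dk 0 θ = κ * BB (2 * π) X θ + κ * (ε * BB (2 * π) X θ) := by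
    rw [hd, hε, hκ]; push_cast; field_simp; ring
  have hc : (θ.re : ℂ) = (θ + conj θ) / 2 := by
    have := Complex.add_conj θ
    push_cast at this
    linear_combination (-1 / 2 : ℂ) * this
  have hn : ((‖θ‖ : ℝ) : ℂ) ^ 2 = θ * conj θ := by
    rw [Complex.mul_conj, Complex.normSq_eq_norm_sq]; push_cast; ring
  set T := ∑' k : ℕ, (1 + (-1 : ℂ) ^ (k + 1)) * dk (k + 1) θ with hT
  have e : eE + pE θ - cE θ - (2735 / 10000 * ‖θ‖ ^ 2 + conj θ ^ 2 / 8)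
      = ((1 / 8 - κ * (π * ρ - 1 / 2) : ℝ) : ℂ) * θ ^ 2
        + ((κ / 2 - 235 / 10000 : ℝ) : ℂ) * (‖θ‖ : ℝ) ^ 2
        - ((κ * (2 * π * ρ) : ℝ) : ℂ) * (cosh θ - (1 + θ ^ 2 / 2))
        + κ * (θ.re * (sinh θ - θ)) - κ * (ε * BB (2 * π) X θ) - 2 * π * T := by
    rw [B_eq h, hd0, hn]
    have hB : BB (2 * π) X θ = 2 * π * ρ * (cosh θ - 1) - θ.re * sinh θ := by
      unfold BB; rw [hρc]; push_cast; ring
    have h1 : (κ : ℂ) * BB (2 * π) X θ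
        = κ * (2 * π * ρ * (cosh θ - 1) - θ.re * sinh θ) := by rw [hB]
    rw [h1]
    push_cast
    rw [hc]
    ring
  have hr := norm_nonneg θ
  have hre := Complex.abs_re_le_norm θ
  have pr1 : 3.15321 ≤ π * ρ := by nlinarith
  have pr2 : π * ρ ≤ 3.15354 := by nlinarith
  have n1 : ‖((1 / 8 - κ * (π * ρ - 1 / 2) : ℝ) : ℂ) * θ ^ 2‖ ≤ 1 / 1000 * ‖θ‖ ^ 2 := by
    rw [norm_mul, norm_pow, Complex.norm_real, Real.norm_eq_abs]
    have : |1 / 8 - κ * (π * ρ - 1 / 2)| ≤ 1 / 1000 := by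
      rw [abs_le]; constructor <;> nlinarith
    gcongr
  have n2 : ‖((κ / 2 - 235 / 10000 : ℝ) : ℂ) * (‖θ‖ : ℝ) ^ 2‖ ≤ 1 / 1000 * ‖θ‖ ^ 2 := by
    rw [norm_mul, norm_pow, Complex.norm_real, Complex.norm_real, Real.norm_eq_abs, norm_norm]
    have : |κ / 2 - 235 / 10000| ≤ 1 / 1000 := by
      rw [abs_le]; constructor <;> linarith
    gcongr
  have n3 : ‖((κ * (2 * π * ρ) : ℝ) : ℂ) * (cosh θ - (1 + θ ^ 2 / 2))‖
      ≤ 2962 / 10000 * (‖θ‖ ^ 4 * (5 / 96)) := by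
    have := cosh_bd (w := θ) (by linarith)
    rw [norm_mul, Complex.norm_real, Real.norm_eq_abs]
    have : |κ * (2 * π * ρ)| ≤ 2962 / 10000 := by
      rw [abs_le]; constructor <;> nlinarith
    gcongr
  have nκ : ‖(κ : ℂ)‖ ≤ 4696 / 100000 := by
    rw [Complex.norm_real, Real.norm_eq_abs, abs_of_nonneg (by linarith)]; exact k2
  have n4 : ‖(κ : ℂ) * (θ.re * (sinh θ - θ))‖
      ≤ 4696 / 100000 * (‖θ‖ * (176 / 1000 * ‖θ‖ ^ 3)) := by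
    have := sinh1 h
    rw [norm_mul, norm_mul, Complex.norm_real θ.re, Real.norm_eq_abs]
    gcongr
  have n5 : ‖(κ : ℂ) * (ε * BB (2 * π) X θ)‖
      ≤ 4696 / 100000 * (55 / 10000 * (46 / 10 * ‖θ‖ ^ 2)) := by
    have a1 := BB_bd (a := 2 * π) (by positivity) hX h
    have a2 : ‖BB (2 * π) X θ‖ ≤ 46 / 10 * ‖θ‖ ^ 2 := by
      refine a1.trans ?_
      gcongr
      linarith
    rw [norm_mul, norm_mul]
    gcongr
  have n6 : ‖2 * π * T‖ ≤ 2 * 3.1416 * (1 / 5000 * ‖θ‖ ^ 2 * (200 / 199)) := by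
    have := tail_bd h
    rw [norm_mul, norm_mul, Complex.norm_real, Real.norm_eq_abs, abs_of_pos Real.pi_pos]
    simp only [Complex.norm_ofNat]
    gcongr
    linarith
  rw [e]
  have key : ∀ a b c d f g : ℂ, ‖a + b - c + d - f - g‖
      ≤ ‖a‖ + ‖b‖ + ‖c‖ + ‖d‖ + ‖f‖ + ‖g‖ := by
    intro a b c d f g
    have a1 := norm_sub_le (a + b - c + d - f) g
    have a2 := norm_sub_le (a + b - c + d) f
    have a3 := norm_add_le (a + b - c) d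
    have a4 := norm_sub_le (a + b) c
    have a5 := norm_add_le a b
    linarith
  refine (key _ _ _ _ _ _).trans ?_
  have a4 : 0 ≤ ‖θ‖ ^ 2 := by positivity
  have a5 : 0 ≤ ‖θ‖ ^ 4 := by positivity
  have a6 : ‖θ‖ * (176 / 1000 * ‖θ‖ ^ 3) = 176 / 1000 * ‖θ‖ ^ 4 := by ring
  have a7 : (1 / 100 + ‖θ‖ ^ 2 / 40) * ‖θ‖ ^ 2 = 1 / 100 * ‖θ‖ ^ 2 + ‖θ‖ ^ 4 / 40 := by ring
  rw [a6] at n4
  rw [a7]
  linarith

end Pool.Agent.P.MP_cc4a10_gt.NumSP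

namespace Pool.Agent.P.MP_cc4a10_gt

theorem pNumS (hE : S_Ell) (h0 : S_Ex0) : S_NumS := by
  obtain ⟨E⟩ := hE
  intro θ hθ h
  exact ⟨NumSP.part1 (h0 E).2.1 hθ h, NumSP.part2 h⟩

end Pool.Agent.P.MP_cc4a10_gt
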