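import Pool.Agent.P.MP_cc4a10_gt.St

/-!
Combinatorics of levels and layers.
-/

open Set Filter Topology Complex
open scoped ComplexConjugate Real

noncomputable section

namespace Pool.Agent.P.MP_cc4a10_gt

namespace ParP

variable {S : Sys} {K K' k : ℤ} {e : ℝ} {o g u u' : GI}

theorem cls_om (u : GI) : (∃ w, u = om + 2 * w) ↔ Odd u.im ∧ Odd u.re := by
  constructor
  · rintro ⟨w, rfl⟩
    exact ⟨⟨w.im, by simp [om]; ring⟩, ⟨w.re, by simp [om]; ring⟩⟩
  · rintro ⟨⟨a, ha⟩, ⟨b, hb⟩⟩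
    exact ⟨⟨b, a⟩, by ext <;> simp [om] <;> omega⟩

theorem cls_gi (u : GI) : (∃ w, u = gi + 2 * w) ↔ Odd u.im ∧ ¬ Odd u.re := by
  rw [Int.not_odd_iff_even]
  constructor
  · rintro ⟨w, rfl⟩
    exact ⟨⟨w.im, by simp [gi]; ring⟩, ⟨w.re, by simp [gi]; ring⟩⟩
  · rintro ⟨⟨a, ha⟩, ⟨b, hb⟩⟩
    exact ⟨⟨b, a⟩, by ext <;> simp [gi] <;> omega⟩

theorem cls_fine (u : GI) : (∃ w, u = gi + om * w) ↔ (Odd u.im ↔ ¬ Odd u.re) := by
  simp only [Int.odd_iff]
  constructor
  · rintro ⟨w, rfl⟩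
    simp [gi, om]
    omega
  · intro h
    exact ⟨⟨(u.re + u.im - 1) / 2, (u.im - 1 - u.re) / 2⟩, by ext <;> simp [gi, om] <;> omega⟩

theorem four_dd (j : ℕ) : 4 * dd (j + 2) ^ 2 = ((2 : ℝ) ^ j)⁻¹ := by
  rw [dd_sq, pow_add]; field_simp; norm_num

theorem om_sq : om ^ 2 = 2 * gi := by decide

theorem al_om : al * (1 + I) = I := by
  unfold al; ring_nf; rw [I_sq]; ring

theorem c_om (S : Sys) (K : ℤ) : (lvT S K).c * (1 + I) ^ mK S K = I ^ (jl S K + 1) := by
  have h : (1 + I) ^ 2 = 2 * I := by ring_nf; rw [I_sq]; ring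
  change al ^ jl S K / 2 * (1 + I) ^ (jl S K + 2) = _
  rw [pow_add, h, pow_succ I, ← al_om, mul_pow, al_om]; ring

theorem c_ne (S : Sys) (K : ℤ) : (lvT S K).c ≠ 0 := fun h => by
  have := c_om S K
  rw [h, zero_mul] at this
  exact pow_ne_zero _ I_ne_zero this.symm

theorem tau (S : Sys) (K : ℤ) : (lvT S K).τ = 0 ∨ (lvT S K).τ = 1 / 2 := by
  simp only [lvT]; split_ifs <;> simp

theorem okT (S : Sys) (K : ℤ) : (lvT S K).ok := by
  refine ⟨Nat.le_add_left _ _, ?_, by simp only [lvT]; split_ifs <;> simp, tau S K⟩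
  change ((lvT S K).c * (1 + I) ^ mK S K) ^ 4 = 1
  rw [c_om, ← pow_mul, mul_comm, pow_mul, I_pow_four, one_pow]

theorem okF (S : Sys) (K : ℤ) : (lvF S K).ok := by
  refine ⟨(okT S K).1, ?_, (okT S K).2.2⟩
  have h := (okT S K).2.1
  change (io K (lvT S K).c * (1 + I) ^ (lvT S K).m) ^ 4 = 1
  unfold io
  split_ifs
  · exact h
  have h4 : (1 + I) ^ 4 = -4 := by
    rw [show 4 = 2 * 2 from rfl, pow_mul]; ring_nf; rw [I_sq, I_pow_three, I_pow_four]; ring
  have := congrArg conj h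
  rw [mul_pow, ← pow_mul, mul_comm _ 4, pow_mul, h4] at this ⊢
  simpa [Even.neg_pow (show Even 4 by decide), map_ofNat] using this

/-- The cells of level `K` that carry the necks of layer `k`. -/
structure Sd (S : Sys) (K k : ℤ) (e : ℝ) (o g : GI) : Prop where
  lp : ∀ w, (lvT S K).c * ((o + g * w : GI) : ℂ) = lp S k w
  q : ∀ w, q0 (lvT S K) (o + g * w) = e * ((2 : ℝ) ^ S.st k)⁻¹
  all : ∀ u, 0 < e * q0 (lvT S K) u → ∃ w, u = o + g * w
  dv : Associated (g * om ^ S.st k) (om ^ mK S K)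

theorem q0_eq (S : Sys) (K : ℤ) (u : GI) :
    q0 (lvT S K) u = (lvT S K).sg * ((2 : ℝ) ^ jl S K)⁻¹ * pat (lvT S K).τ u := by
  rw [← four_dd]; rfl

theorem as_two (j : ℕ) : Associated (2 * om ^ j) (om ^ (j + 2)) :=
  ⟨⟨gi, -gi, by decide, by decide⟩, by rw [pow_add, om_sq]; simp only; ring⟩

theorem sdA (he : e * e = 1) (h1 : S.st k = jl S K) (h2 : S.hh k = true) (h3 : (lvT S K).sg = e) :
    Sd S K k e om 2 := by
  refine ⟨fun w => ?_, fun w => ?_, fun u hu => (cls_om u).2 ?_, h1 ▸ as_two _⟩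
  · simp only [lvT, Pool.Agent.P.MP_cc4a10_gt.lp, h1, h2, oo, map_add, map_mul, coe_om, map_ofNat,
      if_true]
    ring
  · have := (cls_om _).1 ⟨w, rfl⟩
    rw [q0_eq, h3, h1, pat, if_pos this.1, if_pos this.2, mul_one]
  · rw [q0_eq, h3, ← mul_assoc, ← mul_assoc, he, one_mul, mul_pos_iff_of_pos_left (by positivity)] at hu
    unfold pat at hu
    rcases tau S K with h | h <;> rw [h] at hu <;> split_ifs at hu <;> first | tauto | norm_num at hu

theorem sdB (he : e * e = 1) (h1 : S.st k = jl S K) (h2 : S.hh k = false) (h3 : (lvT S K).sg = -e)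
    (h4 : (lvT S K).τ = 0) : Sd S K k e gi 2 := by
  refine ⟨fun w => ?_, fun w => ?_, fun u hu => (cls_gi u).2 ?_, h1 ▸ as_two _⟩
  · simp only [lvT, Pool.Agent.P.MP_cc4a10_gt.lp, h1, h2, oo, map_add, map_mul, coe_gi, map_ofNat,
      Bool.false_eq_true, if_false]
    ring
  · have := (cls_gi _).1 ⟨w, rfl⟩
    rw [q0_eq, h3, h1, h4, pat, if_pos this.1, if_neg this.2]; ring
  · rw [q0_eq, h3, h4, ← mul_assoc, ← mul_assoc, mul_neg, he, neg_mul, neg_mul, one_mul, ← mul_neg,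
      mul_pos_iff_of_pos_left (by positivity)] at hu
    unfold pat at hu
    split_ifs at hu <;> first | tauto | norm_num at hu

theorem sdC (he : e * e = 1) (h1 : S.st k = jl S K + 1) (h2 : S.hh k = true)
    (h3 : (lvT S K).sg = -e) (h4 : (lvT S K).τ = 1 / 2) : Sd S K k e gi om := by
  refine ⟨fun w => ?_, fun w => ?_, fun u hu => (cls_fine u).2 ?_, ?_⟩
  · simp only [lvT, Pool.Agent.P.MP_cc4a10_gt.lp, h1, h2, oo, map_add, map_mul, coe_gi, coe_om,
      if_true, pow_succ]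
    have h5 : (1 + I) / 2 = al := rfl
    linear_combination (-al ^ jl S K / 2) * al_om + (al ^ jl S K * w) * h5
  · have := (cls_fine _).1 ⟨w, rfl⟩
    rw [q0_eq, h3, h1, h4, pat, pow_succ]
    split_ifs <;> first | tauto | (field_simp; try norm_num)
  · rw [q0_eq, h3, h4, ← mul_assoc, ← mul_assoc, mul_neg, he, neg_mul, neg_mul, one_mul, ← mul_neg,
      mul_pos_iff_of_pos_left (by positivity)] at hu
    unfold pat at hu
    split_ifs at hu <;> first | tauto | norm_num at hu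
  · rw [h1, ← pow_succ']; rfl

theorem sides (hS : S.ok) (K : ℤ) : ∃ o g o' g', Sd S K (K - 1) 1 o g ∧ Sd S K K (-1) o' g' ∧
    ((o = om ∧ g = 2) ∨ (o' = om ∧ g' = 2)) := by
  have h := hS (K - 1)
  rw [sub_add_cancel] at h
  have e1 : (1 : ℝ) * 1 = 1 := one_mul 1
  have e2 : (-1 : ℝ) * -1 = 1 := by norm_num
  rcases h with ⟨h1, h2⟩ | ⟨h1 | h1, h2, h3⟩
  · have j1 : S.st (K - 1) = jl S K := by unfold jl; omega
    have j2 : S.st K = jl S K := by unfold jl; omega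
    cases h3 : S.hh (K - 1)
    · have h4 : S.hh K = true := by simpa [h3] using h2
      exact ⟨_, _, _, _, sdB e1 j1 h3 (by simp [lvT, low, h1, h3]) (by simp [lvT, h1]),
        sdA e2 j2 h4 (by simp [lvT, low, h1, h3]), Or.inr ⟨rfl, rfl⟩⟩
    · have h4 : S.hh K = false := by simpa [h3] using h2
      exact ⟨_, _, _, _, sdA e1 j1 h3 (by simp [lvT, low, h1, h3]),
        sdB e2 j2 h4 (by simp [lvT, low, h1, h3]) (by simp [lvT, h1]), Or.inl ⟨rfl, rfl⟩⟩
  · exact ⟨_, _, _, _, sdA e1 (by unfold jl; omega) h2 (by simp [lvT, low, ← h1]),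
      sdC e2 (by unfold jl; omega) h3 (by simp [lvT, low, ← h1]) (by simp [lvT, ← h1]),
      Or.inl ⟨rfl, rfl⟩⟩
  · exact ⟨_, _, _, _, sdC e1 (by unfold jl; omega) h2 (by simp [lvT, low, h1]) (by simp [lvT, h1]),
      sdA e2 (by unfold jl; omega) h3 (by simp [lvT, low, h1]), Or.inr ⟨rfl, rfl⟩⟩

theorem Sd.iff (h : Sd S K k e o g) (he : e * e = 1) (u : GI) :
    0 < e * q0 (lvT S K) u ↔ ∃ w, u = o + g * w := by
  refine ⟨h.all u, ?_⟩
  rintro ⟨w, rfl⟩
  rw [h.q, ← mul_assoc, he, one_mul]; positivity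

/-- The sum over a class of cells. -/
theorem ts_cls (hB : S_Box) {V : Type} [AddCommGroup V] [Module ℝ V] {m s : ℕ}
    (hd : Associated (g * om ^ s) (om ^ m)) {F : GI → V} (hF : Per m F)
    (h0 : ∀ u, (¬ ∃ w, u = o + g * w) → F u = 0) : ts m F = ts s (fun w => F (o + g * w)) := by
  classical
  obtain ⟨R, hR, -⟩ := (hB s).2.2.2.2.2.2.1
  have g0 : g ≠ 0 := by
    rintro rfl
    rw [zero_mul] at hd
    exact pow_ne_zero m om_ne_zero ((associated_zero_iff_eq_zero _).1 hd.symm)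
  have hP : Per s (fun w => F (o + g * w)) := fun u w => hF.of_dvd (by
    rw [← hd.dvd_iff_dvd_left]; exact ⟨w, by ring⟩)
  rw [((hB s).2.2.2.2.2.1 V _ hP).2 R hR, ← Finset.sum_congr rfl fun κ _ =>
    ((hB m).2.2.2.2.2.1 V F hF).1 (o + g * κ), ← ts_sum]
  refine congrArg _ (funext fun u => ?_)
  by_cases h : ∃ w, u = o + g * w
  · obtain ⟨w, rfl⟩ := h
    have e : ∀ κ, om ^ m ∣ o + g * w - (o + g * κ) ↔ om ^ s ∣ w - κ := fun κ => by
      rw [← hd.dvd_iff_dvd_left, add_sub_add_left_eq_sub, ← mul_sub, mul_dvd_mul_iff_left g0]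
    obtain ⟨κ, h1, h2⟩ := hR.2 w
    rw [Finset.sum_eq_single_of_mem κ h1, if_pos ((e κ).2 h2)]
    intro b hb hne
    refine if_neg fun h3 => hne (hR.1 b hb κ h1 ?_)
    have := dvd_sub h2 ((e b).1 h3)
    rwa [sub_sub_sub_cancel_left] at this
  · simp [h0 u h]

/-- The reflection that belongs to the frame of level `K`. -/
def fl (K : ℤ) (u : GI) : GI := if Even K then u else star u

theorem fl_fl (K : ℤ) (u : GI) : fl K (fl K u) = u := by unfold fl; split_ifs <;> simp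

theorem fl_add (K : ℤ) (u w : GI) : fl K (u + w) = fl K u + fl K w := by
  unfold fl; split_ifs <;> simp

theorem fl_neg (K : ℤ) (u : GI) : fl K (-u) = -fl K u := by unfold fl; split_ifs <;> simp

theorem fl_om (K : ℤ) (m : ℕ) (w : GI) : ∃ w', fl K (om ^ m * w) = om ^ m * w' := by
  unfold fl; split_ifs
  · exact ⟨w, rfl⟩
  · exact ⟨(-gi) ^ m * star w, by rw [star_mul', star_pow, star_om, mul_pow, mul_assoc]⟩

theorem io_c (S : Sys) (K : ℤ) (u : GI) :
    io K ((lvF S K).c * u) = (lvT S K).c * (fl K u : GI) := by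
  simp only [lvF, io, fl]; split_ifs <;> simp

theorem io_div (S : Sys) (K : ℤ) (u : GI) :
    io K ((lvT S K).c * (fl K u : GI)) / (lvF S K).c = u := by
  have := c_ne S K
  have h2 : conj (lvT S K).c ≠ 0 := by simpa using this
  simp only [lvF, io, fl]; split_ifs
  · field_simp
  · simp only [map_mul, GaussianInt.toComplex_star, conj_conj]; field_simp

theorem par_eq (h1 : ot S K u = K') (h : (lvT S K).c * (fl K u : GI) = (lvT S K').c * (fl K' u' : GI)) :
    par S K u = u' := by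
  unfold par
  rw [h1, io_c, h, io_div]
  ext <;> simp [← GaussianInt.intCast_re, ← GaussianInt.intCast_im]

theorem Per.fl {V : Type*} {m : ℕ} {F : GI → V} (h : Per m F) (K : ℤ) :
    Per m (fun u => F (fl K u)) := by
  unfold ParP.fl; split_ifs; exacts [h, h.star]

theorem ts_fl {V : Type*} [AddCommGroup V] [Module ℝ V] {m : ℕ} {F : GI → V} (h : Per m F) (K : ℤ) :
    ts m (fun u => F (fl K u)) = ts m F := by
  unfold fl; split_ifs; exacts [rfl, ts_star h]

theorem c_per (S : Sys) (K : ℤ) (w : GI) :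
    (lvT S K).c * ((om ^ mK S K * w : GI) : ℂ) = ((gi ^ (jl S K + 1) * w : GI) : ℂ) := by
  simp only [map_mul, map_pow, coe_om, coe_gi, ← mul_assoc, c_om]

theorem c_per' (S : Sys) (K : ℤ) (z : GI) : ∃ w, (lvT S K).c * ((om ^ mK S K * w : GI) : ℂ) = z :=
  ⟨(-gi) ^ (jl S K + 1) * z, by
    rw [c_per, ← mul_assoc, ← mul_pow, mul_neg, gi_mul_gi, neg_neg, one_pow, one_mul]⟩

variable (hD : S_Dip)
include hD

theorem q0_per (S : Sys) (K : ℤ) : Per (mK S K) (q0 (lvT S K)) := (hD _ (okT S K)).2.2.1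

theorem q0_neg (S : Sys) (K : ℤ) (u : GI) : q0 (lvT S K) (-u) = q0 (lvT S K) u :=
  ((hD _ (okT S K)).2.2.2.1 u).1

theorem q0_fl (S : Sys) (K L : ℤ) (u : GI) : q0 (lvT S K) (fl L u) = q0 (lvT S K) u := by
  unfold fl; split_ifs; exacts [rfl, ((hD _ (okT S K)).2.2.2.1 u).2]

omit hD in
/-- The data of a neck. -/
theorem neck (hS : S.ok) (h : q0 (lvT S K) u ≠ 0) : ∃ e o g o' g', e * e = 1 ∧
    0 < e * q0 (lvT S K) u ∧ Sd S K (lk S K u) e o g ∧ Sd S (ot S K u) (lk S K u) (-e) o' g' ∧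
    ∀ u', 0 < -e * q0 (lvT S (ot S K u)) u' →
      ot S (ot S K u) u' = K ∧ lk S (ot S K u) u' = lk S K u := by
  obtain ⟨o, g, o', g', h1, h2, -⟩ := sides hS K
  rcases h.lt_or_gt with h | h
  · obtain ⟨o1, g1, -, -, h3, -⟩ := sides hS (K + 1)
    rw [add_sub_cancel_right] at h3
    simp only [lk, ot, if_neg h.not_gt]
    refine ⟨-1, _, _, o1, g1, by norm_num, by linarith, h2, by simpa using h3, fun u' hu => ?_⟩
    rw [neg_neg, one_mul] at hu
    simp [hu]
  · obtain ⟨-, -, o1, g1, -, h3, -⟩ := sides hS (K - 1)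
    simp only [lk, ot, if_pos h]
    refine ⟨1, _, _, o1, g1, by norm_num, by linarith, h1, h3, fun u' hu => ?_⟩
    have : ¬ 0 < q0 (lvT S (K - 1)) u' := by linarith
    simp [this]

theorem par_per (hS : S.ok) (h : q0 (lvT S K) u ≠ 0) (w : GI) :
    ∃ w', par S K (u + om ^ mK S K * w) = par S K u + om ^ mK S (ot S K u) * w' := by
  obtain ⟨e, o, g, o', g', -, h1, h2, h3, -⟩ := neck hS h
  obtain ⟨x, hx⟩ := h2.all (fl K u) (by rwa [q0_fl hD])
  have h4 : (lvT S K).c * (fl K u : GI) =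
      (lvT S (ot S K u)).c * (fl (ot S K u) (fl (ot S K u) (o' + g' * x)) : GI) := by
    rw [fl_fl, hx, h2.lp, h3.lp]
  obtain ⟨w1, h5⟩ := fl_om K (mK S K) w
  obtain ⟨w2, h6⟩ := c_per' S (ot S K u) (gi ^ (jl S K + 1) * w1)
  obtain ⟨w3, h7⟩ := fl_om (ot S K u) (mK S (ot S K u)) w2
  refine ⟨w3, par_eq (K' := ot S K u) (by simp only [ot, q0_per hD S K u w]) ?_⟩
  rw [par_eq rfl h4, ← h7, fl_add, fl_add, map_add, map_add, mul_add, mul_add, h4, h5, c_per, ← h6,
    fl_fl _ (_ * _)]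

omit hD in
theorem f_per {V : Type*} {f : ℂ → V} (hf : ∀ z (w : GI), f (z + w) = f z) (S : Sys) (K : ℤ) :
    Per (mK S K) (fun u => f ((lvT S K).c * u)) := fun u w => by
  simp only [map_add, mul_add, c_per, hf]

theorem Sd.ts (hB : S_Box) {V : Type} [AddCommGroup V] [Module ℝ V] (h : Sd S K k e o g)
    (he : e * e = 1) {f : ℂ → V} (hf : ∀ z (w : GI), f (z + w) = f z) {p : GI → Prop}
    [DecidablePred p] (hp : ∀ u, p u ↔ 0 < e * q0 (lvT S K) u) :
    ts (mK S K) (fun u => if p u then f ((lvT S K).c * u) else 0) =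
      ts (S.st k) (fun w => f (Pool.Agent.P.MP_cc4a10_gt.lp S k w)) := by
  rw [ts_cls hB h.dv (o := o) (fun u w => by
    simp only [hp, q0_per hD S K u w]; exact if_congr Iff.rfl (f_per hf S K u w) rfl)
    fun u hu => if_neg fun h1 => hu (h.all u ((hp u).1 h1))]
  exact congrArg _ (funext fun w => by rw [if_pos ((hp _).2 ((h.iff he _).2 ⟨w, rfl⟩)), h.lp])

theorem g_le (hB : S_Box) (hS : S.ok) {o' g' : GI} (h : Sd S K k e o g) (h' : Sd S K' k (-e) o' g')
    (he : e * e = 1) (hK : ∀ u, 0 < e * q0 (lvT S K) u → ot S K u = K') {G : GI → ℝ}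
    (hG : Per (mK S K') G) (G0 : ∀ u, 0 ≤ G u) :
    ts (mK S K) (fun u => if 0 < e * q0 (lvT S K) u then G (par S K u) else 0) ≤ ts (mK S K') G := by
  have hP : Per (mK S K) (fun u => if 0 < e * q0 (lvT S K) u then G (par S K u) else 0) :=
    fun u w => by
      simp only [q0_per hD S K u w]
      split_ifs with h1
      · obtain ⟨w', h2⟩ := par_per hD hS (right_ne_zero_of_mul h1.ne') w
        rw [h2, hK u h1, hG]
      · rfl
  have hP' : Per (mK S K') (fun u => if 0 < -e * q0 (lvT S K') u then G (fl K' u) else 0) :=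
    fun u w => by simp only [q0_per hD S K' u w]; exact if_congr Iff.rfl (Per.fl hG K' u w) rfl
  have he' : -e * -e = 1 := by rw [neg_mul_neg, he]
  rw [← ts_fl hP K, ← ts_fl hG K', ts_cls hB h.dv (o := o) (Per.fl hP K) fun u hu =>
    if_neg fun h1 => hu (h.all u (by rwa [q0_fl hD] at h1))]
  refine le_trans (le_of_eq ?_) (ts_mono _ (F := fun u =>
    if 0 < -e * q0 (lvT S K') u then G (fl K' u) else 0) fun u => by split_ifs; exacts [le_rfl, G0 _])
  rw [ts_cls hB h'.dv (o := o') hP' fun u hu => if_neg fun h1 => hu (h'.all u h1)]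
  refine congrArg _ (funext fun w => ?_)
  have h1 : 0 < e * q0 (lvT S K) (fl K (o + g * w)) := by
    rw [q0_fl hD]; exact (h.iff he _).2 ⟨w, rfl⟩
  rw [if_pos h1, if_pos ((h'.iff he' _).2 ⟨w, rfl⟩), par_eq (hK _ h1) (u' := fl K' (o' + g' * w))
    (by rw [fl_fl, fl_fl, h.lp, h'.lp])]

omit hD in
theorem nbr_eq (h : q0 (lvT S K) u ≠ 0) : nbr (lvT S K).τ u = u :=
  if_neg fun h1 => h (by rw [q0, h1, mul_zero])

omit hD in
theorem re_le (x y : ℝ) (hx : 0 < x) (h : y ^ 2 = x ^ 2 / 2) :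
    x * y * (7 / 10) ≤ x ^ 2 / 2 := by
  have : y * (7 / 10) ≤ x / 2 := abs_le_of_sq_le_sq' (by nlinarith) (by positivity) |>.2
  nlinarith

omit hD in
theorem conj_c (j : ℕ) : conj (al ^ j / 2) * (al ^ j / 2) = (dd (j + 2) ^ 2 : ℝ) := by
  have h : conj al * al = 1 / 2 := by
    simp only [al, map_div₀, map_add, map_one, conj_I, map_ofNat]; ring_nf; rw [I_sq]; ring
  rw [dd_sq, map_div₀, map_pow, map_ofNat, div_mul_div_comm, ← mul_pow, h]
  push_cast
  rw [pow_add, one_div, inv_pow]; ring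

omit hD in
theorem angle (hS : S.ok) (K : ℤ) : mK S K ≤ mK S (K + 1) + 1 ∧ mK S (K + 1) ≤ mK S K + 1 ∧
    dd (mK S K) * dd (mK S (K + 1)) * (7 / 10) ≤ (conj (lvT S K).c * (lvT S (K + 1)).c).re := by
  have h1 := hS (K - 1)
  have h2 := hS K
  rw [sub_add_cancel] at h1
  have h3 : jl S (K + 1) = jl S K ∨ jl S (K + 1) = jl S K + 1 ∨ jl S K = jl S (K + 1) + 1 := by
    simp only [jl, add_sub_cancel_right]; omega
  have h4 : ∀ m, dd (m + 1) ^ 2 = dd m ^ 2 / 2 := fun m => by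
    rw [dd_sq, dd_sq, pow_succ]; field_simp
  refine ⟨by unfold mK; omega, by unfold mK; omega, ?_⟩
  simp only [lvT, mK]
  rcases h3 with h | h | h <;> rw [h]
  · rw [conj_c, ofReal_re]; nlinarith [dd_pos (jl S K + 2)]
  · rw [pow_succ, mul_div_right_comm, ← mul_assoc, conj_c, re_ofReal_mul]
    exact (re_le _ _ (dd_pos _) (h4 _)).trans_eq (by simp [al]; ring)
  · rw [pow_succ', mul_div_assoc, map_mul, mul_assoc (conj al), conj_c, re_mul_ofReal, conj_re,
      mul_comm (dd (_ + 1 + 2))]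
    exact (re_le _ _ (dd_pos _) (h4 _)).trans_eq (by simp [al]; ring)

end ParP

open ParP in
theorem pPar (hB : S_Box) (hD : S_Dip) : S_Par := by
  intro S hS K
  obtain ⟨o, g, o', g', h1, h2, h3⟩ := sides hS K
  have e1 : (1 : ℝ) * 1 = 1 := one_mul 1
  have e2 : (-1 : ℝ) * -1 = 1 := by norm_num
  have p1 : ∀ u, 0 < q0 (lvT S K) u ↔ 0 < 1 * q0 (lvT S K) u := fun u => by rw [one_mul]
  have p2 : ∀ u, q0 (lvT S K) u < 0 ↔ 0 < -1 * q0 (lvT S K) u := fun u => by simp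
  refine ⟨okT S K, okF S K, (angle hS K).1, (angle hS K).2.1, (angle hS K).2.2, fun u hu => ?_,
    fun f hf => ⟨h1.ts hD hB e1 hf p1, h2.ts hD hB e2 hf p2⟩, fun w =>
      ⟨⟨_, (p1 _).2 ((h1.iff e1 _).2 ⟨w, rfl⟩), h1.lp w⟩,
        _, (p2 _).2 ((h2.iff e2 _).2 ⟨w, rfl⟩), h2.lp w⟩, fun G hG G0 => ?_, fun v hv => ?_⟩
  · obtain ⟨e, o, g, o', g', he, h1, h2, h3, h4⟩ := neck hS hu
    obtain ⟨x, hx⟩ := h2.all (fl K u) (by rwa [q0_fl hD])
    have h5 : (lvT S K).c * (fl K u : GI) =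
        (lvT S (ot S K u)).c * (fl (ot S K u) (fl (ot S K u) (o' + g' * x)) : GI) := by
      rw [fl_fl, hx, h2.lp, h3.lp]
    have h6 := par_eq rfl h5
    rw [← h6] at h5
    have h7 : q0 (lvT S K) u = e * ((2 : ℝ) ^ S.st (lk S K u))⁻¹ := by
      rw [← h2.q x, ← hx, q0_fl hD]
    have h8 : q0 (lvT S (ot S K u)) (par S K u) = -q0 (lvT S K) u := by
      rw [h6, q0_fl hD, h3.q, h7, neg_mul]
    have h9 := h4 (par S K u) (by rw [h8]; linarith)
    have h10 : lk S K (fl K u) = lk S K u := by simp only [lk, q0_fl hD]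
    have h11 : q0 (lvT S K) (fl K u) ≠ 0 := by rwa [q0_fl hD]
    refine ⟨h8, h9.1, par_eq h9.1 h5.symm, h9.2, by rw [io_c, io_c, h5],
      par_eq (K' := ot S K u) (by simp only [ot, q0_neg hD]) (by
        rw [fl_neg, fl_neg, map_neg, map_neg, mul_neg, mul_neg, h5]), ?_, ?_, par_per hD hS hu,
      fun v => ⟨?_, ?_⟩⟩
    · rw [h7, abs_mul, abs_of_pos (a := _⁻¹) (by positivity),
        (abs_eq zero_le_one).2 (mul_self_eq_one_iff.1 he), one_mul]
    · obtain ⟨w, hw⟩ := h2.all u h1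
      exact ⟨w, by rw [← h2.lp, ← hw]⟩
    · rw [io_c, ← h10, ← congrArg (fun z : GI => v.1 (lk S K z) ((lvT S K).c * z)) (nbr_eq h11)]
      simp only [flC, io, fl, eT]
      split_ifs <;> rfl
    · rw [io_c, ← h10, show flR K (sT S v K) u = sT S v K (fl K u) by
        unfold flR fl; split_ifs <;> rfl, sT, if_neg h11]
  · obtain ⟨-, -, o1, g1, -, h4, -⟩ := sides hS (K - 1)
    obtain ⟨o2, g2, -, -, h5, -⟩ := sides hS (K + 1)
    rw [add_sub_cancel_right] at h5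
    refine le_trans (le_of_eq ?_) (add_le_add
      (g_le hD hB hS h1 h4 e1 (fun u hu => if_pos ((p1 u).2 hu)) (hG _) (G0 _))
      (g_le hD hB hS h2 (by simpa using h5) e2 (fun u hu => if_neg ((p2 u).2 hu).not_gt) (hG _) (G0 _)))
    rw [← ts_add]
    refine congrArg _ (funext fun u => ?_)
    simp only [← p1, ← p2, ot]
    rcases lt_trichotomy (q0 (lvT S K) u) 0 with h | h | h
    · simp [h, h.ne, h.not_gt]
    · simp [h]
    · simp [h, h.ne', h.not_gt]
  have l1 : ∀ u w, lk S K (u + om ^ mK S K * w) = lk S K u := fun u w => by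
    simp only [lk, q0_per hD S K u w]
  have m0 : ∀ F : ℤ → ℂ → ℂ, (∀ k z (w : GI), F k (z + w) = F k z) →
      (∀ k, ts (S.st k) (fun w => F k (lp S k w)) = 0) → ∀ ε : GI → ℂ,
      (∀ u, q0 (lvT S K) u ≠ 0 → ε u = F (lk S K u) ((lvT S K).c * u)) → M0 (lvT S K) ε := by
    intro F F1 F2 ε hε
    rcases h3 with ⟨rfl, rfl⟩ | ⟨rfl, rfl⟩
    · have p3 := fun u => (cls_om u).symm.trans (h1.iff e1 u).symm
      refine Eq.trans (congrArg _ (funext fun u => ?_)) ((h1.ts hD hB e1 (F1 (K - 1)) p3).trans (F2 _))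
      split_ifs with h
      · have := (p1 u).2 ((p3 u).1 h)
        rw [hε u this.ne', lk, if_pos this]
      · rfl
    · have p3 := fun u => (cls_om u).symm.trans (h2.iff e2 u).symm
      refine Eq.trans (congrArg _ (funext fun u => ?_)) ((h2.ts hD hB e2 (F1 K) p3).trans (F2 _))
      split_ifs with h
      · have := (p2 u).2 ((p3 u).1 h)
        rw [hε u this.ne, lk, if_neg this.not_gt]
      · rfl
  refine ⟨⟨((hD _ (okT S K)).2.2.2.2.2.2.2.2.2 (fun u => v.1 (lk S K u) ((lvT S K).c * u))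
    fun u w => ?_).1, fun u w => ?_, ?_⟩,
    m0 v.1 (fun k z w => (hv.per k z w).1) hv.m1 _ fun u hu => by rw [eT, nbr_eq hu],
    m0 (fun k z => v.2 k z) (fun k z w => by rw [(hv.per k z w).2])
      (fun k => by rw [← ts_ofReal, hv.m2, ofReal_zero]) _ fun u hu => by rw [sT, if_neg hu]⟩
  · exact (congrArg (fun k => v.1 k _) (l1 u w)).trans
      (f_per (fun z w => (hv.per _ z w).1) S K u w)
  · have := f_per (fun z w => (hv.per (lk S K u) z w).2) S K u w
    change sT S v K (u + om ^ mK S K * w) = _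
    simp only [sT, q0_per hD S K u w, l1] at this ⊢
    rw [this]
  · have a1 := h1.ts hD hB e1 (f := fun z => ((2 : ℝ) ^ S.st (K - 1))⁻¹ * v.2 (K - 1) z)
      (fun z w => by rw [(hv.per _ z w).2]) p1
    have a2 := h2.ts hD hB e2 (f := fun z => -((2 : ℝ) ^ S.st K)⁻¹ * v.2 K z)
      (fun z w => by rw [(hv.per _ z w).2]) p2
    rw [ts_mul_left_real, hv.m2, mul_zero] at a1 a2
    rw [← add_zero (0 : ℝ)]
    refine Eq.trans (congrArg _ (funext fun u => ?_)) ((ts_add _ _ _).trans (congrArg₂ _ a1 a2))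
    rcases lt_trichotomy (q0 (lvT S K) u) 0 with h | h | h
    · obtain ⟨w, hw⟩ := h2.all u ((p2 u).1 h)
      rw [if_neg h.not_gt, if_pos h, sT, if_neg h.ne, lk, if_neg h.not_gt, zero_add, hw, h2.q,
        neg_one_mul]
    · simp [h]
    · obtain ⟨w, hw⟩ := h1.all u ((p1 u).1 h)
      rw [if_pos h, if_neg h.not_gt, sT, if_neg h.ne', lk, if_pos h, add_zero, hw, h1.q, one_mul]

end Pool.Agent.P.MP_cc4a10_gt
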