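import Pool.Agent.P.MP_cc4a10_gt.St

/-!
The force residue.
-/

open Set Filter Topology Complex Metric
open scoped ComplexConjugate Real

noncomputable section

namespace Pool.Agent.P.MP_cc4a10_gt.PhiP

theorem cint_add_center (p P : ℂ) (r : ℝ) (g : ℂ → ℂ) :
    cint (p + P) r g = cint p r (fun ξ => g (ξ + P)) := by
  unfold cint circleIntegral
  congr 1
  refine intervalIntegral.integral_congr fun θ _ => ?_
  simp only [deriv_circleMap]
  congr 2
  simp only [circleMap]; ring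

theorem cint_neg_center (p : ℂ) (r : ℝ) (g : ℂ → ℂ) :
    cint (-p) r g = -cint p r (fun ξ => g (-ξ)) := by
  unfold cint circleIntegral
  have hper : Function.Periodic
      (fun θ : ℝ => deriv (circleMap (-p) r) θ • g (circleMap (-p) r θ)) (2 * π) := by
    intro θ
    simp only [deriv_circleMap, periodic_circleMap _ _ θ]
  have h1 := hper.intervalIntegral_add_eq 0 π
  have h2 := intervalIntegral.integral_comp_add_right (a := 0) (b := 2 * π)
    (fun θ : ℝ => deriv (circleMap (-p) r) θ • g (circleMap (-p) r θ)) π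
  rw [zero_add] at h1 h2
  rw [h1, add_comm π (2 * π), ← h2, ← mul_neg, ← intervalIntegral.integral_neg]
  congr 1
  refine intervalIntegral.integral_congr fun θ _ => ?_
  have e : ∀ c : ℂ, circleMap (-c) r (θ + π) = -circleMap c r θ := fun c => by
    simp only [circleMap]; push_cast
    rw [add_mul, exp_add, exp_pi_mul_I]; ring
  have e0 := e 0
  rw [neg_zero] at e0
  simp only [deriv_circleMap, e, e0, smul_eq_mul]; ring

theorem norm_exp_neg_le {w : ℂ} (h : ‖w‖ ≤ 1) : ‖exp (-w)‖ ≤ 3 := by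
  have h1 := norm_exp_sub_one_le (x := -w) (by rwa [norm_neg])
  have h2 := norm_add_le (exp (-w) - 1) 1
  rw [sub_add_cancel, norm_one] at h2
  rw [norm_neg] at h1
  linarith

theorem core (p : ℂ) {ρ : ℝ} (hρ : 0 < ρ) (R M fo F : ℂ → ℂ) (l q : ℂ) {B A : ℝ}
    (hR : DifferentiableOn ℂ R (ball p ρ)) (hM : DifferentiableOn ℂ M (ball p ρ))
    (hfo : ContinuousOn fo (sphere p (ρ / 4)))
    (hF : ∀ z ∈ sphere p (ρ / 4), F z = (R z + q / (z - p)) ^ 2 * exp (-(l + M z - fo z)))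
    (hB : ∀ z ∈ sphere p (ρ / 4), ‖R z + q / (z - p)‖ ≤ B)
    (hg : ∀ z ∈ sphere p (ρ / 4), ‖l + M z‖ ≤ 1)
    (hA : ∀ z ∈ sphere p (ρ / 4), ‖fo z‖ ≤ A / (ρ / 4)) (hA1 : A / (ρ / 4) ≤ 1) :
    ‖cint p (ρ / 4) F - (2 * q * R p - q ^ 2 * deriv M p) * exp (-(l + M p))‖
      ≤ 6 * B ^ 2 * A := by
  have hr : 0 < ρ / 4 := by positivity
  set h : ℂ → ℂ := fun z => (q + (z - p) * R z) ^ 2 * exp (-(l + M z)) with hh
  have dh : DifferentiableOn ℂ h (ball p ρ) := by
    simp only [hh]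
    fun_prop
  have hsub : closedBall p (ρ / 4) ⊆ ball p ρ := closedBall_subset_ball (by linarith)
  have hsp : sphere p (ρ / 4) ⊆ ball p ρ := sphere_subset_closedBall.trans hsub
  have hne : ∀ z ∈ sphere p (ρ / 4), z - p ≠ 0 := by
    intro z hz h0
    rw [mem_sphere_iff_norm, h0, norm_zero] at hz
    linarith
  have cau := two_pi_I_inv_smul_circleIntegral_sub_sq_inv_smul_of_differentiable isOpen_ball hsub
    dh (mem_ball_self hr)
  have hb : ball p ρ ∈ 𝓝 p := ball_mem_nhds p hρ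
  have dR := (hR.differentiableAt hb).hasDerivAt
  have dM := (hM.differentiableAt hb).hasDerivAt
  have dd : deriv h p = (2 * q * R p - q ^ 2 * deriv M p) * exp (-(l + M p)) := by
    have d1 := ((((hasDerivAt_id p).sub_const p).mul dR).const_add q).pow 2
    have d2 := ((dM.const_add l).neg).cexp
    have d3 := (d1.mul d2).deriv
    refine Eq.trans d3 ?_
    simp
    ring
  set G : ℂ → ℂ := fun z => ((z - p) ^ 2)⁻¹ • h z with hG
  have cG : ContinuousOn G (sphere p (ρ / 4)) := by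
    have c0 : ContinuousOn (fun z : ℂ => (z - p) ^ 2) (sphere p (ρ / 4)) := by fun_prop
    exact (c0.inv₀ fun z hz => pow_ne_zero 2 (hne z hz)).smul (dh.continuousOn.mono hsp)
  have cH : ContinuousOn (fun z => G z * (exp (fo z) - 1)) (sphere p (ρ / 4)) :=
    cG.mul (hfo.cexp.sub continuousOn_const)
  have hGe : ∀ z ∈ sphere p (ρ / 4), G z = (R z + q / (z - p)) ^ 2 * exp (-(l + M z)) := by
    intro z hz
    have := hne z hz
    simp only [hG, hh, smul_eq_mul]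
    field_simp
    ring
  have hsplit : EqOn F (fun z => G z + G z * (exp (fo z) - 1)) (sphere p (ρ / 4)) := by
    intro z hz
    have e : -(l + M z - fo z) = -(l + M z) + fo z := by ring
    simp only
    rw [hF z hz, hGe z hz, e, exp_add]
    ring
  have e1 : cint p (ρ / 4) F = deriv h p
      + (2 * π * I : ℂ)⁻¹ • ∮ z in C(p, ρ / 4), G z * (exp (fo z) - 1) := by
    unfold cint
    rw [circleIntegral.integral_congr hr.le hsplit,
      circleIntegral.integral_add (cG.circleIntegrable hr.le) (cH.circleIntegrable hr.le),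
      mul_add, ← cau]
    rfl
  rw [e1, ← dd, add_sub_cancel_left]
  have hbd := circleIntegral.norm_two_pi_i_inv_smul_integral_le_of_norm_le_const
    (f := fun z => G z * (exp (fo z) - 1)) (c := p) (C := B ^ 2 * 3 * (2 * (A / (ρ / 4)))) hr.le
    (by
      intro z hz
      rw [hGe z hz, norm_mul, norm_mul, norm_pow]
      have h1 := hB z hz
      have h2 := norm_exp_neg_le (hg z hz)
      have h3 := (norm_exp_sub_one_le ((hA z hz).trans hA1)).trans
        (mul_le_mul_of_nonneg_left (hA z hz) (by norm_num))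
      have h0 : 0 ≤ B := (norm_nonneg _).trans h1
      gcongr)
  refine hbd.trans (le_of_eq ?_)
  field_simp
  ring

theorem sqrt_msq_le {m : ℕ} {F : GI → ℂ} {b : ℝ} (hb : 0 ≤ b) (h : msq m F ≤ b ^ 2) :
    √(msq m F) ≤ b := Real.sqrt_le_iff.2 ⟨hb, h⟩

theorem sqrt_msq_mul (m : ℕ) {a : ℝ} (ha : 0 ≤ a) (F : GI → ℂ) :
    √(msq m (fun u => (a : ℂ) * F u)) = a * √(msq m F) := by
  rw [msq_mul, norm_real, Real.norm_eq_abs, abs_of_nonneg ha, Real.sqrt_mul (sq_nonneg a),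
    Real.sqrt_sq ha]

theorem msq_norm (m : ℕ) (F : GI → ℂ) : msq m (fun u => ((‖F u‖ : ℝ) : ℂ)) = msq m F := by
  simp [msq]

theorem msq_three (m : ℕ) {D X Y Z : GI → ℂ} {a b c x y z : ℝ} (ha : 0 ≤ a) (hb : 0 ≤ b)
    (hc : 0 ≤ c) (hx : 0 ≤ x) (hy : 0 ≤ y) (hz : 0 ≤ z)
    (h : ∀ u, ‖D u‖ ≤ a * ‖X u‖ + b * ‖Y u‖ + c * ‖Z u‖)
    (h1 : msq m X ≤ x ^ 2) (h2 : msq m Y ≤ y ^ 2) (h3 : msq m Z ≤ z ^ 2) :
    msq m D ≤ (a * x + b * y + c * z) ^ 2 := by
  have s1 := sqrt_msq_le hx h1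
  have s2 := sqrt_msq_le hy h2
  have s3 := sqrt_msq_le hz h3
  have k : msq m D ≤ msq m (fun u => ((a : ℂ) * ((‖X u‖ : ℝ) : ℂ) + (b : ℂ) * ((‖Y u‖ : ℝ) : ℂ))
      + (c : ℂ) * ((‖Z u‖ : ℝ) : ℂ)) := by
    refine msq_mono m fun u => (h u).trans ?_
    have e : ((a : ℂ) * ((‖X u‖ : ℝ) : ℂ) + (b : ℂ) * ((‖Y u‖ : ℝ) : ℂ))
        + (c : ℂ) * ((‖Z u‖ : ℝ) : ℂ) = ((a * ‖X u‖ + b * ‖Y u‖ + c * ‖Z u‖ : ℝ) : ℂ) := by
      push_cast; ring
    rw [e, norm_real, Real.norm_eq_abs]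
    exact le_abs_self _
  have k1 := sqrt_msq_add_le m
    (fun u => (a : ℂ) * ((‖X u‖ : ℝ) : ℂ) + (b : ℂ) * ((‖Y u‖ : ℝ) : ℂ))
    (fun u => (c : ℂ) * ((‖Z u‖ : ℝ) : ℂ))
  have k2 := sqrt_msq_add_le m (fun u => (a : ℂ) * ((‖X u‖ : ℝ) : ℂ))
    (fun u => (b : ℂ) * ((‖Y u‖ : ℝ) : ℂ))
  rw [sqrt_msq_mul m ha, sqrt_msq_mul m hb, msq_norm, msq_norm] at k2
  rw [sqrt_msq_mul m hc, msq_norm] at k1
  have t1 := mul_le_mul_of_nonneg_left s1 ha
  have t2 := mul_le_mul_of_nonneg_left s2 hb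
  have t3 := mul_le_mul_of_nonneg_left s3 hc
  have k3 := Real.sqrt_le_sqrt k
  have k4 : √(msq m D) ≤ a * x + b * y + c * z := by linarith
  exact (Real.sqrt_le_iff.1 k4).2

/-- Pointwise algebra at one neck. -/
theorem point {q0 σ d ω T : ℝ} {Ph R M' w : ℂ} (hq : |q0| ≤ 4 * d ^ 2) (hσ : |σ| ≤ 1 / 1000)
    (hw : ‖w‖ ≤ ω) (hω : ω ≤ 1)
    (h : ‖Ph - (2 * ((q0 * (1 + σ) : ℝ) : ℂ) * R - ((q0 * (1 + σ) : ℝ) : ℂ) ^ 2 * M') * exp (-w)‖
      ≤ T) :
    ‖(q0 : ℂ) * R - Ph / (2 * (1 + σ))‖ ≤ 8 * d ^ 2 * ω * ‖R‖ + 48 * d ^ 4 * ‖M'‖ + T := by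
  have hσ' := abs_le.1 hσ
  have h1 : (1 + (σ : ℂ)) ≠ 0 := by
    have : ((1 + σ : ℝ) : ℂ) ≠ 0 := ofReal_ne_zero.2 (by linarith [hσ'.1])
    simpa using this
  set X := Ph - (2 * ((q0 * (1 + σ) : ℝ) : ℂ) * R - ((q0 * (1 + σ) : ℝ) : ℂ) ^ 2 * M') * exp (-w)
    with hX
  have e : (q0 : ℂ) * R - Ph / (2 * (1 + σ)) = -((q0 : ℂ) * (exp (-w) - 1) * R)
      + ((q0 ^ 2 * (1 + σ) / 2 : ℝ) : ℂ) * exp (-w) * M' - X / ((2 * (1 + σ) : ℝ) : ℂ) := by
    rw [hX]
    push_cast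
    field_simp
    ring
  rw [e]
  have a1 : ‖-((q0 : ℂ) * (exp (-w) - 1) * R)‖ ≤ 8 * d ^ 2 * ω * ‖R‖ := by
    rw [norm_neg, norm_mul, norm_mul, norm_real, Real.norm_eq_abs]
    have h2 := norm_exp_sub_one_le (x := -w) (by rw [norm_neg]; linarith)
    rw [norm_neg] at h2
    have h3 : ‖exp (-w) - 1‖ ≤ 2 * ω := by linarith
    calc |q0| * ‖exp (-w) - 1‖ * ‖R‖ ≤ 4 * d ^ 2 * (2 * ω) * ‖R‖ := by gcongr
      _ = _ := by ring
  have a2 : ‖((q0 ^ 2 * (1 + σ) / 2 : ℝ) : ℂ) * exp (-w) * M'‖ ≤ 48 * d ^ 4 * ‖M'‖ := by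
    rw [norm_mul, norm_mul, norm_real, Real.norm_eq_abs]
    have h2 := norm_exp_neg_le (hw.trans hω)
    have h3 : q0 ^ 2 ≤ (4 * d ^ 2) ^ 2 := by
      rw [← sq_abs]; gcongr
    have h4 : |q0 ^ 2 * (1 + σ) / 2| ≤ 16 * d ^ 4 := by
      rw [abs_of_nonneg (by have := sq_nonneg q0; have : 0 ≤ 1 + σ := by linarith [hσ'.1]
                            positivity)]
      nlinarith [sq_nonneg q0, hσ'.2]
    calc |q0 ^ 2 * (1 + σ) / 2| * ‖exp (-w)‖ * ‖M'‖ ≤ 16 * d ^ 4 * 3 * ‖M'‖ := by gcongr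
      _ = _ := by ring
  have a3 : ‖X / ((2 * (1 + σ) : ℝ) : ℂ)‖ ≤ T := by
    rw [norm_div, norm_real, Real.norm_eq_abs, abs_of_pos (by linarith [hσ'.1])]
    exact (div_le_self (norm_nonneg _) (by linarith [hσ'.1])).trans h
  exact (norm_sub_le _ _).trans (add_le_add ((norm_add_le _ _).trans (add_le_add a1 a2)) a3)

theorem nums {C2 m t d a b s : ℝ} (hC2 : 0 < C2) (m1 : 2 ≤ m) (t0 : 0 < t) (t1 : t ≤ 1)
    (hd : t ^ 16 = d) (small : m ^ 5 * t ≤ 1 / (40 * (C2 + 1))) (bK0 : 0 ≤ a) (bb : a ≤ b)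
    (b9 : b ≤ 9) (bs : a ≤ 3 * t ^ 20) (hsm : s = m ^ 2 * d * b + m ^ 4 * d ^ 2) :
    0 ≤ s ∧ m * s ≤ t ^ 4 * b + t ^ 29 ∧ C2 * s ≤ 1 / 4 ∧ t ^ 30 ≤ 1 / 40 ∧
      d * t / 2 < d / m / 4 ∧ m * t ^ 30 * a ≤ d * (t ^ 4 * b + t ^ 29) ∧
      m * s * a ≤ 3 * (d * (t ^ 4 * b + t ^ 29)) := by
  have d0 : 0 < d := by rw [← hd]; positivity
  have m0 : 0 < m := by linarith
  have η1 : 1 / (40 * (C2 + 1)) ≤ 1 / 40 :=
    one_div_le_one_div_of_le (by norm_num) (by linarith)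
  have mp : ∀ k, k ≤ 5 → m ^ k * t ≤ 1 / (40 * (C2 + 1)) := fun k hk =>
    (mul_le_mul_of_nonneg_right (pow_le_pow_right₀ (by linarith) hk) t0.le).trans small
  have tp : ∀ k, t ^ k ≤ 1 := fun k => pow_le_one₀ t0.le t1
  have tq : ∀ k, t ^ (k + 1) ≤ t := fun k => by
    rw [pow_succ]; exact mul_le_of_le_one_left t0.le (tp k)
  have mt : ∀ k j, k ≤ 5 → m ^ k * t ^ (j + 1) ≤ 1 := by
    intro k j hk
    have h1 := mp k hk
    have h2 := tp j
    calc m ^ k * t ^ (j + 1) = m ^ k * t * t ^ j := by ring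
      _ ≤ 1 * 1 := by gcongr; linarith
      _ = 1 := by ring
  have bn : 0 ≤ b := bK0.trans bb
  have s0 : 0 ≤ s := by rw [hsm]; positivity
  set e := t ^ 4 * b + t ^ 29 with he
  have e0 : 0 ≤ e := by positivity
  have ms : m * s ≤ e := by
    have h1 := mt 3 11 (by norm_num)
    have h2 := mt 5 2 (by norm_num)
    rw [hsm, ← hd, he]
    calc m * (m ^ 2 * t ^ 16 * b + m ^ 4 * (t ^ 16) ^ 2)
        = (m ^ 3 * t ^ (11 + 1)) * (t ^ 4 * b) + (m ^ 5 * t ^ (2 + 1)) * t ^ 29 := by ring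
      _ ≤ 1 * (t ^ 4 * b) + 1 * t ^ 29 := by gcongr
      _ = _ := by ring
  have tη : t ≤ 1 / (40 * (C2 + 1)) := by simpa using mp 0 (by norm_num)
  have e10 : e ≤ 10 * t := by
    have h1 : t ^ 4 ≤ t := tq 3
    have h2 : t ^ 29 ≤ t := tq 28
    have h3 : t ^ 4 * b ≤ t * 9 := by gcongr
    rw [he]
    linarith
  refine ⟨s0, ms, ?_, ?_, ?_, ?_, ?_⟩
  · have h0 : s ≤ m * s := le_mul_of_one_le_left s0 (by linarith)
    have h1 : s ≤ 10 * (1 / (40 * (C2 + 1))) := by linarith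
    have h2 : C2 * (10 * (1 / (40 * (C2 + 1)))) ≤ 1 / 4 := by
      rw [mul_one_div, ← mul_div_assoc, div_le_div_iff₀ (by positivity) (by norm_num)]
      linarith
    exact (mul_le_mul_of_nonneg_left h1 hC2.le).trans h2
  · have : t ^ 30 ≤ t := tq 29
    linarith
  · have h1 := mp 1 (by norm_num)
    rw [pow_one] at h1
    rw [div_div, div_lt_div_iff₀ (by norm_num) (by positivity)]
    have h2 : d * (m * t) ≤ d * (1 / 40) := by gcongr; linarith
    linarith
  · have h1 := mt 1 9 (by norm_num)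
    rw [pow_one] at h1
    calc m * t ^ 30 * a = (m * t ^ (9 + 1)) * (t ^ 16 * (t ^ 4 * a)) := by ring
      _ ≤ 1 * (t ^ 16 * (t ^ 4 * b)) := by gcongr
      _ ≤ d * e := by
        rw [one_mul, hd, he]
        gcongr
        linarith [pow_pos t0 29]
  · have h1 : a ≤ 3 * d := by
      have h2 : t ^ 16 * t ^ 4 ≤ t ^ 16 := mul_le_of_le_one_right (by positivity) (tp 4)
      rw [← hd]
      calc a ≤ 3 * (t ^ 16 * t ^ 4) := by rw [← pow_add]; exact bs
        _ ≤ _ := by linarith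
    calc m * s * a ≤ e * (3 * d) := by gcongr
      _ = _ := by ring

end Pool.Agent.P.MP_cc4a10_gt.PhiP

namespace Pool.Agent.P.MP_cc4a10_gt

open PhiP in
theorem pPhi (hC1 : S_Cou1) (hC2 : S_Cou2) (hFrc : S_Frc) (hShp : S_Shp) (hLev : S_Lev)
    (hPar : S_Par) (hFlip : S_Flip) (hDip : S_Dip) : S_Phi := by
  intro E
  obtain ⟨C1, j1, -, H1⟩ := hC1 E
  obtain ⟨C2, j2, hC2, H2⟩ := hC2 E
  obtain ⟨Cf, m3, hCf, H3⟩ := hFrc E
  obtain ⟨Cs, m4, hCs, H4⟩ := hShp E
  obtain ⟨Cl, m5, -, H5⟩ := hLev E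
  obtain ⟨m6, H6⟩ := exists_pow_mul_tt_le 5 (η := 1 / (40 * (C2 + 1))) (by positivity)
  refine ⟨8 * Cf * (1 + 3 * C2) + 48 * C2 + 6 * (20 + Cs) ^ 2 * C2,
    j1 + j2 + m3 + m4 + m5 + m6 + 10, by positivity, fun S x hS hB hx K => ?_⟩
  have big : ∀ j, j ≤ j1 + j2 + m3 + m4 + m5 + m6 + 10 → Big S j := fun j hj k => hj.trans (hB k)
  have hm : j1 + j2 + m3 + m4 + m5 + m6 + 10 ≤ mK S K := by
    have h1 := hB (K - 1)
    have h2 := hB K
    unfold mK jl
    omega
  have lg : ∀ L, LG (lvF S L) (ls S x L) (bK S x L) := fun L =>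
    (hFlip E S hS L).2 x (big 10 (by omega)) hx
  have G := lg K
  have c1 := H1 S x hS (big j1 (by omega)) hx K
  obtain ⟨⟨A, hA, -, hAm, hAf⟩, hMt, hMd, -, -, -, hlam, hls⟩ :=
    H2 S x hS (big j2 (by omega)) hx K
  have frc := H3 _ _ _ G (show m3 ≤ mK S K by omega)
  obtain ⟨κ, shp, -⟩ := H4 _ _ _ G (show m4 ≤ mK S K by omega)
  obtain ⟨hε, -, -, -, -, pper, pneg, psym, -, rdf⟩ := H5 _ _ _ G (show m5 ≤ mK S K by omega)
  have small := H6 (mK S K) (by omega)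
  obtain ⟨-, -, qper, qsym, -, -, qup, -, ⟨w0, hw0, -⟩, -⟩ := hDip _ (hPar S hS K).2.1
  have eq0 : ∀ u, q0 (lvT S K) u = q0 (lvF S K) u := fun _ => rfl
  have em : (lvF S K).m = mK S K := rfl
  have eμ : (ls S x K).μ = x.μ K := rfl
  rw [em] at frc shp hε pper rdf qper qup hw0
  -- periodicity and parity
  have hP : ∀ w : GI, (lvF S K).c * ((om ^ mK S K * w : GI) : ℂ) = ((w0 * w : GI) : ℂ) := by
    intro w
    rw [map_mul, map_mul, ← mul_assoc, hw0]
  have pper' : ∀ u w, pK S x K (u + om ^ mK S K * w) = pK S x K u + Lm (x.μ K) (w0 * w : GI) := by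
    intro u w
    have := pper u w
    rw [hP, eμ] at this
    exact this
  have F2per : ∀ z (w : GI), F2 E S x K (z + Lm (x.μ K) w) = F2 E S x K z := by
    intro z w
    unfold F2 psK
    rw [(hls z).2 w, ← eμ, ((psym z).2.2 w).1]
  have F2ev : ∀ z, F2 E S x K (-z) = F2 E S x K z := by
    intro z
    unfold F2 psK
    rw [(hls z).1, (psym z).1, neg_sq]
  have σper := G.lv.ps
  rw [em] at σper
  have qKper : ∀ u w, qK S x K (u + om ^ mK S K * w) = qK S x K u := by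
    intro u w
    unfold qK qq
    rw [qper u w, σper u w]
  have RRp : ∀ u, RR E (lvF S K) (ls S x K) u (pK S x K u) = psK E S x K (pK S x K u) := by
    intro u
    unfold RR pK psK
    simp
  refine ⟨?_, ?_, ?_, ?_, ?_⟩
  rotate_left
  · intro u w
    unfold fres Phi
    rw [eq0, eq0, qper u w, σper u w, pper', cint_add_center]
    simp only [F2per]
  · intro u w
    unfold gres
    rw [eq0, eq0, qper u w, qKper, hx.sp K u w, pper', ← eμ, ((psym _).2.2 _).2]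
  · intro u w
    simp only [RRp]
    rw [qper u w, pper']
    unfold psK
    rw [← eμ, ((psym _).2.2 _).1]
  · intro u
    by_cases h0 : q0 (lvF S K) u = 0
    · have h1 : q0 (lvF S K) (-u) = 0 := by rw [(qsym u).1, h0]
      unfold fres gres
      simp [eq0, h0, h1]
    · have h1 : pK S x K (-u) = -pK S x K u := pneg u h0
      constructor
      · unfold fres Phi
        rw [eq0, eq0, (qsym u).1, if_neg h0, if_neg h0, G.evn, h1, cint_neg_center, neg_div]
        simp only [F2ev]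
      · have h2 : qK S x K (-u) = qK S x K u := by
          unfold qK qq
          rw [(qsym u).1, G.evn]
        unfold gres
        rw [eq0, eq0, (qsym u).1, h2, hx.se, h1, (psym _).2.1]
  -- the estimate
  have b0 : ∀ L, 0 ≤ bK S x L := fun L => (lg L).b0
  have b1 : ∀ L, bK S x L ≤ 3 := fun L => (lg L).bs.trans (by
    have := pow_le_one₀ (n := 20) (tt_pos (lvF S L).m).le (tt_le_one _)
    linarith)
  have bb : bK S x K ≤ b3 S x K := by
    have := b0 (K - 1)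
    have := b0 (K + 1)
    unfold b3; linarith
  have b9 : b3 S x K ≤ 9 := by
    have := b1 (K - 1)
    have := b1 K
    have := b1 (K + 1)
    unfold b3; linarith
  have bs : bK S x K ≤ 3 * tt (mK S K) ^ 20 := G.bs
  have bK0 := b0 K
  have hl := hx.lb K
  have hsm : sm S x K = (mK S K : ℝ) ^ 2 * dd (mK S K) * b3 S x K
    + (mK S K : ℝ) ^ 4 * dd (mK S K) ^ 2 := rfl
  have hρ : rho (mK S K) = dd (mK S K) / mK S K := rfl
  have hρ1 : rho1 (mK S K) = dd (mK S K) * tt (mK S K) := rfl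
  have hd := tt_pow_16 (mK S K)
  have t0 := tt_pos (mK S K)
  have t1 := tt_le_one (mK S K)
  have d0 := dd_pos (mK S K)
  have m1 : (2 : ℝ) ≤ mK S K := by exact_mod_cast (show 2 ≤ mK S K by omega)
  generalize hmm : (mK S K : ℝ) = m at *
  generalize htt : tt (mK S K) = t at *
  generalize hdd : dd (mK S K) = d at *
  generalize hbb : b3 S x K = b at *
  generalize hb1 : bK S x K = a at *
  generalize hss : sm S x K = s at *
  have m0 : 0 < m := by linarith
  obtain ⟨s0, ms, Cs4, t30, ρρ, k1, k2⟩ := nums hC2 m1 t0 t1 hd small bK0 bb b9 bs hsm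
  have bn : 0 ≤ b := bK0.trans bb
  set e := t ^ 4 * b + t ^ 29 with he
  have e0 : 0 ≤ e := by positivity
  rw [← hρ, ← hρ1] at ρρ
  have ρ0 : 0 < rho (mK S K) := by rw [hρ]; positivity
  have ρ10 : 0 < rho1 (mK S K) := by rw [hρ1]; positivity
  have ρd : rho (mK S K) ≤ d / 2 := by
    rw [hρ]; exact div_le_div_of_nonneg_left d0.le (by norm_num) m1
  refine (msq_three (mK S K)
    (X := nkr (lvF S K) (fun u => RR E (lvF S K) (ls S x K) u (pos (lvF S K) (ls S x K) u)))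
    (Y := nkr (lvF S K) (fun u => deriv (Mt E S x K) (pK S x K u)))
    (Z := fun u => (A u : ℂ)) (a := 8 * d ^ 2 * (t ^ 30 + C2 * s)) (b := 48 * d ^ 4)
    (c := 6 * ((20 + Cs) * m * d) ^ 2) (by positivity) (by positivity) (by positivity)
    (by positivity) (by positivity) (by positivity) (fun u => ?_) frc hMd hAm).trans ?_
  · have hAu : ‖(A u : ℂ)‖ = A u := by rw [norm_real, Real.norm_eq_abs, abs_of_nonneg (hA u).1]
    by_cases h0 : q0 (lvF S K) u = 0
    · unfold fres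
      rw [eq0, if_pos h0, h0]
      simp only [ofReal_zero, zero_mul, sub_zero, norm_zero]
      positivity
    · have hu : u ∈ Nk (lvF S K) := h0
      obtain ⟨-, -, dMt, -, -, -, -, -, -, -, dfo⟩ := c1 u hu
      unfold fres nkr
      rw [eq0, if_neg h0, if_neg h0, if_neg h0, hAu]
      have hn : ∀ z ∈ sphere (pK S x K u) (rho (mK S K) / 4),
          ‖z - pK S x K u‖ = rho (mK S K) / 4 := fun z hz => mem_sphere_iff_norm.1 hz
      have hw : ∀ z, ‖z - pK S x K u‖ ≤ rho (mK S K) * (3 / 4) →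
          ‖x.l K + Mt E S x K z‖ ≤ t ^ 30 + C2 * s := fun z hz =>
        (norm_add_le _ _).trans (add_le_add hl (hMt u hu z hz))
      have hσ := (hε u).2.2.2
      refine point (w := x.l K + Mt E S x K (pK S x K u)) (qup u) hσ
        (hw _ (by rw [sub_self, norm_zero]; positivity)) (by linarith) ?_
      refine core (pK S x K u) ρ0 (RR E (lvF S K) (ls S x K) u) (Mt E S x K)
        (fo E S x (MM E S x) K u) (F2 E S x K) (x.l K) _
        ((rdf u hu).1.mono (ball_subset_ball ρd)) dMt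
        (dfo.continuousOn.mono fun z hz => ⟨by rw [hn z hz]; linarith, by rw [hn z hz]; linarith⟩)
        (fun z hz => ?_) (fun z hz => ?_) (fun z hz => ?_) (fun z hz => ?_) ?_
      · unfold F2
        rw [hlam u hu z (by rw [hn z hz]; linarith) (by rw [hn z hz]; linarith)]
        congr 2
        unfold RR psK pK qq
        ring
      · have h1 := shp u hu z (by
          change ‖z - pK S x K u‖ < d / 2
          rw [hn z hz]; linarith)
        have h2 : |q0 (lvF S K) u * (1 + (ls S x K).σ u)| ≤ 5 * d ^ 2 := by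
          rw [abs_mul]
          have h3 : |1 + (ls S x K).σ u| ≤ 5 / 4 := by
            have := abs_add_le 1 ((ls S x K).σ u)
            rw [abs_one] at this
            linarith
          calc _ ≤ 4 * d ^ 2 * (5 / 4) := by gcongr; exact qup u
            _ = _ := by ring
        refine (norm_add_le _ _).trans ?_
        rw [norm_div, hn z hz, norm_real, Real.norm_eq_abs, hρ]
        have h4 : |q0 (lvF S K) u * (1 + (ls S x K).σ u)| / (d / m / 4) ≤ 20 * m * d := by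
          rw [div_le_iff₀ (by positivity)]
          calc _ ≤ 5 * d ^ 2 := h2
            _ = _ := by field_simp; ring
        have h5 : Cs * d ≤ Cs * m * d := by
          have : Cs ≤ Cs * m := le_mul_of_one_le_right hCs.le (by linarith)
          gcongr
        linarith
      · have := hw z (by rw [hn z hz]; linarith)
        linarith
      · have := hAf u z (by rw [hn z hz]; linarith) (by rw [hn z hz]; linarith)
        rwa [hn z hz] at this
      · rw [div_le_one (by positivity), hρ]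
        refine (hA u).2.trans ?_
        rw [div_div, div_le_div_iff₀ m0 (by positivity)]
        calc C2 * d * s * (m * 4) = 4 * (d * m) * (C2 * s) := by ring
          _ ≤ 4 * (d * m) * (1 / 4) := by gcongr
          _ = _ := by ring
  · refine pow_le_pow_left₀ (by positivity) ?_ 2
    have k3 : 8 * d ^ 2 * (t ^ 30 + C2 * s) * (Cf * m * d * a)
        ≤ 8 * Cf * (1 + 3 * C2) * d ^ 4 * e := by
      calc _ = 8 * Cf * d ^ 3 * (m * t ^ 30 * a + C2 * (m * s * a)) := by ring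
        _ ≤ 8 * Cf * d ^ 3 * (d * e + C2 * (3 * (d * e))) := by gcongr
        _ = _ := by ring
    have k4 : 48 * d ^ 4 * (C2 * m * s) ≤ 48 * C2 * d ^ 4 * e := by
      calc _ = 48 * C2 * d ^ 4 * (m * s) := by ring
        _ ≤ _ := by gcongr
    have k5 : 6 * ((20 + Cs) * m * d) ^ 2 * (C2 * d ^ 2 * s / m)
        ≤ 6 * (20 + Cs) ^ 2 * C2 * d ^ 4 * e := by
      calc _ = 6 * (20 + Cs) ^ 2 * C2 * d ^ 4 * (m * s) := by field_simp
        _ ≤ _ := by gcongr
    calc _ ≤ 8 * Cf * (1 + 3 * C2) * d ^ 4 * e + 48 * C2 * d ^ 4 * e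
          + 6 * (20 + Cs) ^ 2 * C2 * d ^ 4 * e := by linarith
      _ = _ := by ring

end Pool.Agent.P.MP_cc4a10_gt
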