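import Pool.Agent.P.MP_cc4a10_gt.PiecesB

/-!
The pieces of the surface from the Weierstrass data.
-/

open Set Filter Topology Complex Metric
open scoped ComplexConjugate Real

noncomputable section

namespace Pool.Agent.P.MP_cc4a10_gt.PiecesP

variable (W : WD) (P : ℤ → GI → ℂ → ℂ)

/-- The properties of the horizontal map of a neck. -/
def NeckP (K : ℤ) (u : GI) (P : ℂ → ℂ) : Prop :=
  (∀ y ∈ An (‖W.t K u‖ / (rho (W.m (W.ot K u)) * (43 / 100))) (rho (W.m K) * (43 / 100)),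
    HasFDerivAt P (wl (exp (W.N K u y)) (W.q K u ^ 2 / (exp (W.N K u y) * y ^ 2))) y ∧
    ‖P y - io K (W.cen K u)‖ ≤ dd (W.m K) / 20 ∧
    ∀ y', ‖y'‖ = ‖y‖ → P y' = P y → y' = y) ∧
  (∀ z, 2 * rho1 (W.m K) < ‖z - W.p K u‖ → ‖z - W.p K u‖ < rho (W.m K) * (42 / 100) →
    P (W.v K u z) = W.Zc K z) ∧
  ∀ z, 2 * rho1 (W.m (W.ot K u)) < ‖z - W.p (W.ot K u) (W.par K u)‖ →
    ‖z - W.p (W.ot K u) (W.par K u)‖ < rho (W.m (W.ot K u)) * (42 / 100) →
    -conj (P (W.t K u / W.v (W.ot K u) (W.par K u) z)) = W.Zc (W.ot K u) z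

def nkk (k : ℤ) : Set GI := {u | u ∈ W.nk (k + 1) ∧ 0 < W.q (k + 1) u}
def YY (k : ℤ) (u : GI) (y : ℂ) : E3 :=
  mkE (io (k + 1) (P (k + 1) u y)) (W.hr (k + 1) u + 2 * W.q (k + 1) u * Real.log ‖y‖)
def XL (K : ℤ) (z : ℂ) : E3 := mkE (io K (W.Zc K z)) (W.h K z)
def r1 (k : ℤ) (u : GI) : ℝ := ‖W.t (k + 1) u‖ / (rho (W.m k) * (41 / 100))
def r2 (k : ℤ) : ℝ := rho (W.m (k + 1)) * (41 / 100)

/-- The neck `(k, u0)` seen from the cell `u` of level `K`. -/
structure Side (K : ℤ) (u : GI) (k : ℤ) (u0 : GI) : Prop where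
  mem : u ∈ W.nk K
  s1 : ∀ y ∈ An (r1 W k u0) (r2 W k), ∃ w : ℂ, w ≠ 0 ∧ ‖w‖ < rho (W.m K) * (41 / 100) ∧
    YY W P k u0 y 2 = W.hr K u + 2 * W.q K u * Real.log ‖w‖ ∧
    ∀ z, 2 * rho1 (W.m K) < ‖z - W.p K u‖ → ‖z - W.p K u‖ < rho (W.m K) * (42 / 100) →
      W.v K u z = w → YY W P k u0 y = XL W K z
  s2 : ∀ z, 2 * rho1 (W.m K) < ‖z - W.p K u‖ → ‖z - W.p K u‖ ≤ rho (W.m K) * (4 / 10) →
    ∃ y ∈ An (r1 W k u0) (r2 W k), YY W P k u0 y = XL W K z

theorem r1_pos {k : ℤ} {u : GI} (hu : u ∈ nkk W k) : 0 < r1 W k u := by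
  have := norm_pos_iff.2 (t_ne W hu.1)
  have := rho_pos (big W k)
  unfold r1; positivity

theorem r1_le {k : ℤ} {u : GI} (hu : u ∈ nkk W k) : r1 W k u ≤ rho1 (W.m (k + 1)) := by
  have h1 := (lowd W hu.1 hu.2).2.2.2.2
  have h2 := rho_pos (big W k)
  have h3 := rho1_le (big W k)
  have h4 := rho1_pos (W.m (k + 1))
  have h5 := rho1_pos (W.m k)
  unfold r1
  rw [div_le_iff₀ (by positivity)]
  nlinarith

theorem h_eq {K : ℤ} {u : GI} (hu : u ∈ W.nk K) {z : ℂ} (h1 : 0 < ‖z - W.p K u‖)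
    (h2 : ‖z - W.p K u‖ ≤ rho (W.m K)) :
    W.h K z = W.hr K u + 2 * W.q K u * Real.log ‖W.v K u z‖ :=
  (((W.vv K u hu).2.2 z (by linarith)).2 (sub_ne_zero.1 (norm_pos_iff.1 h1))).2

variable {W P}

theorem side_up (hI : S_Inv) (hP : ∀ K, ∀ u ∈ W.nk K, NeckP W K u (P K u)) {k : ℤ} {u : GI}
    (hu : u ∈ nkk W k) : Side W P (k + 1) u k u := by
  have hr := rho_pos (big W (k + 1))
  have hr1 := rho1_pos (W.m (k + 1))
  have key : ∀ z, 2 * rho1 (W.m (k + 1)) < ‖z - W.p (k + 1) u‖ →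
      ‖z - W.p (k + 1) u‖ < rho (W.m (k + 1)) * (42 / 100) →
      YY W P k u (W.v (k + 1) u z) = XL W (k + 1) z := by
    intro z h1 h2
    unfold YY XL
    rw [(hP _ u hu.1).2.1 z h1 h2, h_eq W hu.1 (by linarith) (by linarith)]
  refine ⟨hu.1, fun y hy => ⟨y, norm_pos_iff.1 ((r1_pos W hu).trans hy.1), hy.2, mkE_two _ _,
    fun z h1 h2 h3 => h3 ▸ key z h1 h2⟩, fun z h1 h2 => ⟨_, ?_, key z h1 (by linarith)⟩⟩
  have h3 := v_bd W hI hu.1 (z := z) (by linarith)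
  have h4 := r1_le W hu
  exact ⟨by linarith [h3.1], by unfold r2; linarith [h3.2]⟩

theorem side_down (hI : S_Inv) (hP : ∀ K, ∀ u ∈ W.nk K, NeckP W K u (P K u)) {k : ℤ} {u : GI}
    (hu : u ∈ nkk W k) : Side W P k (W.par (k + 1) u) k u := by
  have hr := rho_pos (big W k)
  have hr1 := rho1_pos (W.m k)
  have hr' := rho_pos (big W (k + 1))
  obtain ⟨l1, l2, -, l4, l5⟩ := lowd W hu.1 hu.2
  have ht := t_ne W hu.1
  have ht' := norm_pos_iff.2 ht
  have hh : ∀ y : ℂ, y ≠ 0 → W.hr (k + 1) u + 2 * W.q (k + 1) u * Real.log ‖y‖ =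
      W.hr k (W.par (k + 1) u) + 2 * W.q k (W.par (k + 1) u) * Real.log ‖W.t (k + 1) u / y‖ := by
    intro y hy
    rw [norm_div, Real.log_div ht'.ne' (norm_ne_zero_iff.2 hy), l2, l4]; ring
  have key : ∀ z, 2 * rho1 (W.m k) < ‖z - W.p k (W.par (k + 1) u)‖ →
      ‖z - W.p k (W.par (k + 1) u)‖ < rho (W.m k) * (42 / 100) →
      YY W P k u (W.t (k + 1) u / W.v k (W.par (k + 1) u) z) = XL W k z := by
    intro z h1 h2
    have h3 := (hP _ u hu.1).2.2
    rw [ot_pos W hu.1 hu.2] at h3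
    have h4 := (v_bd W hI l1 (z := z) (by linarith)).1
    have h5 : W.v k (W.par (k + 1) u) z ≠ 0 := norm_pos_iff.1 (by linarith)
    unfold YY XL
    rw [← h3 z h1 h2, io_succ, h_eq W l1 (by linarith) (by linarith), hh _ (div_ne_zero ht h5),
      div_div_cancel₀ ht]
  refine ⟨l1, fun y hy => ?_, fun z h1 h2 => ⟨_, ?_, key z h1 (by linarith)⟩⟩
  · have hy0 : 0 < ‖y‖ := (r1_pos W hu).trans hy.1
    have hy1 := norm_pos_iff.1 hy0
    refine ⟨W.t (k + 1) u / y, div_ne_zero ht hy1, ?_, by rw [← hh y hy1]; exact mkE_two _ _,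
      fun z h1 h2 h3 => ?_⟩
    · have h1 := hy.1
      unfold r1 at h1
      rw [div_lt_iff₀ (by positivity)] at h1
      rw [norm_div, div_lt_iff₀ hy0]; linarith
    · rw [← key z h1 h2, h3, div_div_cancel₀ ht]
  · have h3 := v_bd W hI l1 (z := z) (by linarith)
    have h4 : 0 < ‖W.v k (W.par (k + 1) u) z‖ := by linarith [h3.1]
    have h5 := rho1_le (big W (k + 1))
    have h6 := rho1_pos (W.m (k + 1))
    constructor
    · unfold r1
      rw [norm_div]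
      exact div_lt_div_of_pos_left ht' h4 (by linarith [h3.2])
    · unfold r2
      rw [norm_div, div_lt_iff₀ h4]
      have : rho1 (W.m k) ≤ ‖W.v k (W.par (k + 1) u) z‖ := by linarith [h3.1]
      nlinarith

theorem side_cover (hI : S_Inv) (hP : ∀ K, ∀ u ∈ W.nk K, NeckP W K u (P K u)) {K : ℤ} {u : GI}
    (hu : u ∈ W.nk K) : ∃ k, ∃ u0 ∈ nkk W k, Side W P K u k u0 := by
  rcases lt_or_gt_of_ne (q_ne W hu) with hq | hq
  · obtain ⟨-, h2, h3, h4, -, -⟩ := W.inv _ u hu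
    rw [ot_neg W hu hq] at h2 h3 h4
    have h5 : W.par K u ∈ nkk W K := ⟨h2, by linarith⟩
    have h6 := side_down hI hP h5
    rw [h3] at h6
    exact ⟨K, _, h5, h6⟩
  · obtain ⟨k, rfl⟩ : ∃ k, K = k + 1 := ⟨K - 1, by ring⟩
    exact ⟨k, u, ⟨hu, hq⟩, side_up hI hP ⟨hu, hq⟩⟩

/-- Range of the heights on a neck. -/
theorem neck_height (hI : S_Inv) (hP : ∀ K, ∀ u ∈ W.nk K, NeckP W K u (P K u)) {k : ℤ} {u : GI}
    (hu : u ∈ nkk W k) {y : ℂ} (hy : y ∈ An (r1 W k u) (r2 W k)) :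
    W.hb k - Uh W k / 500 ≤ YY W P k u y 2 ∧
      YY W P k u y 2 ≤ W.hb (k + 1) + Uh W (k + 1) / 500 := by
  constructor
  · obtain ⟨w, h1, h2, h3, -⟩ := (side_down hI hP hu).s1 y hy
    obtain ⟨l1, l2, -⟩ := lowd W hu.1 hu.2
    have h4 := abs_le.1 (h_near W l1)
    have h5 := Real.log_le_log (norm_pos_iff.2 h1) h2.le
    have h6 := hu.2
    rw [h3]; rw [l2] at h4 ⊢
    nlinarith
  · obtain ⟨w, h1, h2, h3, -⟩ := (side_up hI hP hu).s1 y hy
    have h4 := abs_le.1 (h_near W hu.1)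
    have h5 := Real.log_le_log (norm_pos_iff.2 h1) h2.le
    have h6 := hu.2
    rw [h3]
    nlinarith

theorem Side.level (hI : S_Inv) {K k : ℤ} {u u0 : GI} (s : Side W P K u k u0) {y : ℂ}
    (hy : y ∈ An (r1 W k u0) (r2 W k))
    (h : YY W P k u0 y 2 ∈ Ioo (W.hb K - Uh W K / 40) (W.hb K + Uh W K / 40)) :
    ∃ z ∈ Out (W.nk K) (W.p K) (2 * rho1 (W.m K)), YY W P k u0 y = XL W K z := by
  obtain ⟨w, h1, h2, h3, h4⟩ := s.s1 y hy
  rw [h3] at h
  have h5 := h_far' W s.mem (norm_pos_iff.2 h1) h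
  obtain ⟨z, hz, hv⟩ := v_surj W hI s.mem h2
  have hr := rho_pos (big W K)
  have hr1 := rho1_pos (W.m K)
  have h6 := (v_bd W hI s.mem (z := z) (by linarith)).2
  rw [hv] at h6
  have h7 : 2 * rho1 (W.m K) < ‖z - W.p K u‖ := by linarith
  exact ⟨z, mem_Out W s.mem h7 (by linarith), h4 z h7 hz hv⟩

theorem core_height (K : ℤ) {z : ℂ} (hz : z ∈ Out (W.nk K) (W.p K) (rho (W.m K) / 3)) :
    W.hb K - Uh W K / 200 ≤ XL W K z 2 ∧ XL W K z 2 ≤ W.hb K + Uh W K / 200 := by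
  have hr := rho_pos (big W K)
  have h := abs_le.1 (W.hco K z (Out_mono _ _ (by linarith) hz))
  unfold XL Uh
  rw [mkE_two]
  constructor <;> linarith [h.1, h.2]

/-- Monotonicity of the bands. -/
theorem band_lt {K K' : ℤ} (h : K < K') : W.hb K + Uh W K / 40 < W.hb K' - Uh W K' / 40 := by
  have hm : StrictMono (fun k => W.hb k - Uh W k / 40) :=
    strictMono_int_of_lt_succ fun k => by linarith [gap W k, Uh_pos W k]
  exact (gap W K).trans_le (hm.monotone (by omega : K + 1 ≤ K'))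

theorem band_le {K K' : ℤ} (h : K ≤ K') (a : ℝ) (ha : |a| ≤ 1 / 40) :
    W.hb K + a * Uh W K ≤ W.hb K' + a * Uh W K' := by
  rcases h.eq_or_lt with rfl | h
  · exact le_rfl
  · have := band_lt (W := W) h
    have h1 := Uh_pos W K
    have h2 := Uh_pos W K'
    rw [abs_le] at ha
    nlinarith [ha.1, ha.2]

theorem An_sub {k : ℤ} {u : GI} (hu : u ∈ nkk W k) {a : ℝ} (ha : 41 / 100 ≤ a) :
    An (r1 W k u) (r2 W k) ⊆
      An (‖W.t (k + 1) u‖ / (rho (W.m (W.ot (k + 1) u)) * a)) (rho (W.m (k + 1)) * a) := by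
  intro y hy
  have hr := rho_pos (big W k)
  have hr' := rho_pos (big W (k + 1))
  rw [ot_pos W hu.1 hu.2]
  refine ⟨lt_of_le_of_lt ?_ hy.1, hy.2.trans_le ?_⟩
  · unfold r1; gcongr
  · unfold r2; gcongr

theorem minX (hW : S_Weier) (hG : S_Graph) (K : ℤ) :
    IsMinImm (Out (W.nk K) (W.p K) (2 * rho1 (W.m K))) (XL W K) := by
  have hr1 := rho1_pos (W.m K)
  have h1 := rho1_le (big W K)
  have hs : Out (W.nk K) (W.p K) (2 * rho1 (W.m K)) ⊆ Out (W.nk K) (W.p K) (rho1 (W.m K)) :=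
    Out_mono _ _ (by linarith)
  have h2 := (W.hol K).1.mono hs
  have h3 := (W.hol K).2.mono hs
  refine hW _ (fun z => exp (W.lam K z)) (fun z => W.ψ K z ^ 2 * exp (-W.lam K z)) (W.ψ K)
    (W.Zc K) (W.h K) (hG _ _ _ (by positivity) (sep_le W K (by linarith))).1 h3.cexp
    ((h2.pow 2).mul h3.neg.cexp) h2 (fun z hz => ⟨exp_ne_zero _, ?_, W.dZ K z hz,
      (W.sm K z (hs hz)).2.2⟩) K
  rw [exp_neg]; field_simp

theorem grX (hG : S_Graph) (K : ℤ) : ∀ z ∈ Out (W.nk K) (W.p K) (2 * rho1 (W.m K)),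
    ∀ z' ∈ Out (W.nk K) (W.p K) (2 * rho1 (W.m K)),
      ‖z - z'‖ / 2 ≤ ‖hz (XL W K z) - hz (XL W K z')‖ := by
  intro z h z' h'
  have hr1 := rho1_pos (W.m K)
  have h1 := rho1_le (big W K)
  have hs : Out (W.nk K) (W.p K) (2 * rho1 (W.m K)) ⊆ Out (W.nk K) (W.p K) (rho1 (W.m K)) :=
    Out_mono _ _ (by linarith)
  have h2 := (hG _ _ (2 * rho1 (W.m K)) (by positivity) (sep_le W K (by linarith))).2.2.2
    (fun z => W.Zc K z - z) (1 / 50) (fun z hz => ⟨_, (W.dZ K z hz).sub (hasFDerivAt_id z), by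
      have := W.sm K z (hs hz)
      linarith [norm_wl_sub_id (exp (W.lam K z)) (W.ψ K z ^ 2 * exp (-W.lam K z)), this.1,
        this.2.1]⟩) z h z' h'
  unfold XL
  rw [hz_mkE, hz_mkE, norm_io_sub]
  have h3 := norm_sub_le (W.Zc K z - W.Zc K z') (W.Zc K z - z - (W.Zc K z' - z'))
  rw [show W.Zc K z - W.Zc K z' - (W.Zc K z - z - (W.Zc K z' - z')) = z - z' by ring] at h3
  linarith [norm_nonneg (z - z')]

theorem minY (hW : S_Weier) (hP : ∀ K, ∀ u ∈ W.nk K, NeckP W K u (P K u)) {k : ℤ} {u : GI}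
    (hu : u ∈ nkk W k) : IsMinImm (An (r1 W k u) (r2 W k)) (YY W P k u) := by
  have h0 : ∀ y ∈ An (r1 W k u) (r2 W k), y ≠ 0 := fun y hy =>
    norm_pos_iff.1 ((r1_pos W hu).trans hy.1)
  have h1 := (W.nN _ u hu.1).1.mono (An_sub hu (by norm_num))
  refine hW _ (fun y => exp (W.N (k + 1) u y))
    (fun y => W.q (k + 1) u ^ 2 / (exp (W.N (k + 1) u y) * y ^ 2)) (fun y => W.q (k + 1) u / y)
    (P (k + 1) u) (fun y => W.hr (k + 1) u + 2 * W.q (k + 1) u * Real.log ‖y‖) (isOpen_An _ _)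
    h1.cexp ((differentiableOn_const _).div (h1.cexp.mul (differentiableOn_id.pow 2))
      fun y hy => mul_ne_zero (exp_ne_zero _) (pow_ne_zero _ (h0 y hy)))
    ((differentiableOn_const _).div differentiableOn_id h0)
    (fun y hy => ⟨exp_ne_zero _, ?_, ((hP _ u hu.1).1 y (An_sub hu (by norm_num) hy)).1,
      hasFDerivAt_log_norm _ _ (h0 y hy)⟩) (k + 1)
  have := h0 y hy
  field_simp

theorem injY (hP : ∀ K, ∀ u ∈ W.nk K, NeckP W K u (P K u)) {k : ℤ} {u : GI}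
    (hu : u ∈ nkk W k) : InjOn (YY W P k u) (An (r1 W k u) (r2 W k)) := by
  intro y hy y' hy' h
  have h1 : hz (YY W P k u y) = hz (YY W P k u y') := by rw [h]
  have h2 : YY W P k u y 2 = YY W P k u y' 2 := by rw [h]
  unfold YY at h1 h2
  rw [hz_mkE, hz_mkE] at h1
  rw [mkE_two, mkE_two] at h2
  have h3 : P (k + 1) u y = P (k + 1) u y' := by rw [← io_io (k + 1) (P _ u y), h1, io_io]
  have h4 : Real.log ‖y‖ = Real.log ‖y'‖ :=
    mul_left_cancel₀ (mul_ne_zero two_ne_zero hu.2.ne') (add_left_cancel h2)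
  exact ((hP _ u hu.1).1 y' (An_sub hu (by norm_num) hy')).2.2 y
    (Real.log_injOn_pos ((r1_pos W hu).trans hy.1) ((r1_pos W hu).trans hy'.1) h4) h3

theorem Side.meet {K k : ℤ} {u u0 : GI} (s : Side W P K u k u0) :
    (YY W P k u0 '' An (r1 W k u0) (r2 W k) ∩
      XL W K '' Out (W.nk K) (W.p K) (rho (W.m K) / 3)).Nonempty := by
  have hr := rho_pos (big W K)
  have hr1 := rho1_pos (W.m K)
  have h1 := rho1_le (big W K)
  have h2 : ‖W.p K u + ((rho (W.m K) * (4 / 10) : ℝ) : ℂ) - W.p K u‖ = rho (W.m K) * (4 / 10) := by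
    rw [add_sub_cancel_left, Complex.norm_real, Real.norm_of_nonneg (by positivity)]
  obtain ⟨y, hy, h3⟩ := s.s2 (W.p K u + ((rho (W.m K) * (4 / 10) : ℝ) : ℂ))
    (by rw [h2]; linarith) h2.le
  exact ⟨_, ⟨y, hy, rfl⟩, _, mem_Out W s.mem (by rw [h2]; linarith) (by rw [h2]; linarith),
    h3.symm⟩

end Pool.Agent.P.MP_cc4a10_gt.PiecesP

namespace Pool.Agent.P.MP_cc4a10_gt

open PiecesP

theorem pPieces (hW : S_Weier) (hN : S_Neck) (hG : S_Graph) (hI : S_Inv) : S_Pieces := by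
  intro W
  have hN' : ∀ K, ∀ u ∈ W.nk K, ∃ P, NeckP W K u P := hN W
  choose! P hP using hN'
  have hr := fun K => rho_pos (big W K)
  have hr1 := fun K => rho1_pos (W.m K)
  have h1 := fun K => rho1_le (big W K)
  have hU := Uh_pos W
  refine ⟨{
    Ω := fun K => Out (W.nk K) (W.p K) (2 * rho1 (W.m K))
    co := fun K => Out (W.nk K) (W.p K) (rho (W.m K) / 3)
    cl := fun K => {z | ∀ u ∈ W.nk K, 3 * rho1 (W.m K) ≤ ‖z - W.p K u‖}
    X := XL W
    nk := nkk W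
    Y := YY W P
    r1 := r1 W
    r2 := fun k _ => r2 W k
    η := fun k u => W.hr (k + 1) u
    β := fun k u => 2 * W.q (k + 1) u
    cen := fun k u => W.cen (k + 1) u
    a1 := fun K => W.hb K - Uh W K / 40
    a2 := fun K => W.hb K + Uh W K / 40
    b1 := fun k => W.hb k + Uh W k / 100
    b2 := fun k => W.hb (k + 1) - Uh W (k + 1) / 100
    D := fun K => dd (W.m K)
    M := _
    hM := rfl
    ord := fun k => ?_
    bdd := hb_bdd W
    oΩ := fun K => (hG _ _ _ (by linarith [hr1 K]) (sep_le W K (by linarith [h1 K, hr1 K]))).1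
    mX := minX hW hG
    gr := grX hG
    ccl := fun K => ⟨(hG _ _ _ (by linarith [hr1 K])
        (sep_le W K (by linarith [h1 K, hr1 K]))).2.2.1,
      fun z hz u hu => by linarith [hz u hu, hr1 K], fun z hz h u hu => ?_⟩
    cco := fun K => ⟨(hG _ _ _ (by linarith [hr K]) (sep_le W K (by linarith [hr K]))).2.1,
      Out_mono _ _ (by linarith [h1 K, hr1 K]), fun z hz =>
        ⟨by linarith [(core_height K hz).1, hU K], by linarith [(core_height K hz).2, hU K]⟩⟩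
    mY := fun k u hu => ⟨minY hW hP hu, injY hP hu, r1_pos W hu,
      by unfold r2; linarith [r1_le W hu, h1 (k + 1), hr1 (k + 1)], by linarith [hu.2]⟩
    hY := fun k u hu y hy => ⟨mkE_two _ _, ?_⟩
    rY := fun k u hu => ?_
    sep := fun k u hu u' hu' h => cen_sep W hu.1 hu'.1 h
    sep2 := fun k u hu u' hu' => ?_
    hA := fun K => ?_
    hB := fun k => ?_
    meet := fun k u hu => ⟨(side_down hI hP hu).meet, (side_up hI hP hu).meet⟩
    ne := fun k => ?_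
    Dp := fun K => ⟨dd_pos _, dd_le_one _⟩
    up := W.sumu
    dn := W.sumd }⟩
  · simp only [sub_add_cancel]
    refine ⟨?_, ?_, ?_, gap W k⟩ <;> linarith [hU k]
  · by_contra hc
    have h2 := hz u hu
    have h3 : ‖z - W.p K u‖ ≤ rho (W.m K) := by linarith [h1 K, hr1 K]
    have h4 := v_bd W hI hu h3
    unfold XL at h
    rw [mkE_two, h_eq W hu (by linarith [hr1 K]) h3] at h
    have h5 := h_far' W hu (by linarith [h4.1, hr1 K]) h
    linarith [h4.2, hr1 K]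
  · have h2 := ((hP _ u hu.1).1 y (An_sub hu (by norm_num) hy)).2.1
    have h3 := dd_le_two (W.big k).2.1
    have h4 := dd_pos (W.m (k + 1))
    unfold YY
    rw [hz_mkE, ← io_io (k + 1) (W.cen (k + 1) u), norm_io_sub, le_div_iff₀ (by norm_num),
      le_min_iff]
    constructor <;> linarith
  · obtain ⟨l1, l2, -, l4, -⟩ := lowd W hu.1 hu.2
    have h2 := abs_le.1 (h_near W l1)
    have h3 := abs_le.1 (h_near W hu.1)
    have h4 : W.hr (k + 1) u + 2 * W.q (k + 1) u * Real.log (r1 W k u) =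
        W.hr k (W.par (k + 1) u) + 2 * W.q k (W.par (k + 1) u) *
          Real.log (rho (W.m k) * (41 / 100)) := by
      unfold r1
      rw [Real.log_div (norm_ne_zero_iff.2 (t_ne W hu.1)) (by linarith [hr k]), l2, l4]; ring
    rw [h4]
    unfold r2
    refine ⟨?_, ?_, ?_, ?_⟩ <;> linarith [h2.1, h2.2, h3.1, h3.2, hU k, hU (k + 1)]
  · obtain ⟨l1, l2, l3, -⟩ := lowd W hu'.1 hu'.2
    have h2 := hu.1
    have h3 := hu.2
    simp only [sub_add_cancel] at h2 h3 ⊢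
    rw [← l3]
    refine cen_sep W h2 l1 fun h => ?_
    rw [h, l2] at h3
    linarith [hu'.2]
  · ext x
    simp only [mem_inter_iff, mem_union, mem_iUnion, mem_ofPred_eq, mem_image, exists_prop]
    constructor
    · rintro ⟨⟨K', z, hz, rfl⟩ | ⟨k, u, hu, y, hy, rfl⟩, h⟩
      · have h2 := core_height K' hz
        have : K' = K := by
          rcases lt_trichotomy K' K with h3 | h3 | h3
          · linarith [band_lt (W := W) h3, h.1, h2.2, hU K']
          · exact h3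
          · linarith [band_lt (W := W) h3, h.2, h2.1, hU K']
        subst this
        exact ⟨z, ⟨Out_mono _ _ (by linarith [h1 K', hr1 K']) hz, h⟩, rfl⟩
      · have h2 := neck_height hI hP hu hy
        have : K = k ∨ K = k + 1 := by
          by_contra hc
          rcases (by omega : K < k ∨ k + 1 < K) with h3 | h3
          · linarith [band_lt (W := W) h3, h.2, h2.1, hU k]
          · linarith [band_lt (W := W) h3, h.1, h2.2, hU (k + 1)]
        rcases this with rfl | rfl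
        · obtain ⟨z, hz, h3⟩ := (side_down hI hP hu).level hI hy h
          exact ⟨z, ⟨hz, h3 ▸ h⟩, h3.symm⟩
        · obtain ⟨z, hz, h3⟩ := (side_up hI hP hu).level hI hy h
          exact ⟨z, ⟨hz, h3 ▸ h⟩, h3.symm⟩
    · rintro ⟨z, ⟨hz, h⟩, rfl⟩
      refine ⟨?_, h⟩
      by_cases hc : z ∈ Out (W.nk K) (W.p K) (rho (W.m K) / 3)
      · exact Or.inl ⟨K, z, hc, rfl⟩
      · simp only [Out, mem_ofPred_eq, not_forall, not_lt] at hc
        obtain ⟨u, hu, h2⟩ := hc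
        obtain ⟨k, u0, h3, s⟩ := side_cover hI hP hu
        obtain ⟨y, hy, h4⟩ := s.s2 z (hz u hu) (by linarith [hr K])
        exact Or.inr ⟨k, u0, h3, y, hy, h4⟩
  · ext x
    simp only [mem_inter_iff, mem_union, mem_iUnion, mem_ofPred_eq, mem_image, exists_prop]
    constructor
    · rintro ⟨⟨K', z, hz, rfl⟩ | ⟨k', u, hu, y, hy, rfl⟩, h⟩
      · exfalso
        have h2 := core_height K' hz
        rcases (by omega : K' ≤ k ∨ k + 1 ≤ K') with h3 | h3
        · linarith [band_le (W := W) h3 (1 / 100) (by norm_num [abs_le]), h.1, h2.2, hU K']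
        · linarith [band_le (W := W) h3 (-1 / 100) (by norm_num [abs_le]), h.2, h2.1, hU K']
      · have h2 := neck_height hI hP hu hy
        have : k' = k := by
          by_contra hc
          rcases (by omega : k' + 1 ≤ k ∨ k + 1 ≤ k') with h3 | h3
          · linarith [band_le (W := W) h3 (1 / 100) (by norm_num [abs_le]), h.1, h2.2, hU (k' + 1)]
          · linarith [band_le (W := W) h3 (-1 / 100) (by norm_num [abs_le]), h.2, h2.1, hU k']
        subst this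
        exact ⟨u, hu, y, ⟨hy, h⟩, rfl⟩
    · rintro ⟨u, hu, y, ⟨hy, h⟩, rfl⟩
      exact ⟨Or.inr ⟨k, u, hu, y, hy, rfl⟩, h⟩
  · obtain ⟨u, hu, hq, h2⟩ := ne_up W k
    refine ⟨u, ⟨hu, hq⟩, ?_⟩
    have h3 := (W.ce _ u hu).2
    have h4 : ‖W.c (k + 1) * u‖ ≤ 2 := by
      rw [norm_mul, W.nc]
      nlinarith [dd_le_one (W.m (k + 1)), dd_pos (W.m (k + 1)), norm_nonneg (u : ℂ)]
    have h5 := norm_io_sub (k + 1) (W.cen (k + 1) u) 0
    have h6 : io (k + 1) 0 = 0 := by unfold io; simp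
    rw [h6, sub_zero, sub_zero] at h5
    have h7 := norm_sub_norm_le (io (k + 1) (W.cen (k + 1) u)) (W.c (k + 1) * u)
    linarith [dd_le_one (W.m (k + 1))]

end Pool.Agent.P.MP_cc4a10_gt
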