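import Pool.Agent.P.MP_cc4a10_gt.St

/-!
Package Poin: Poincare inequality and the logarithmic sup bound.
-/

open Set Filter Topology Complex Metric
open scoped ComplexConjugate Real

noncomputable section

namespace Pool.Agent.P.MP_cc4a10_gt.PoinP

/-- Mean over a square of side `n`. -/
def M (n : ℕ) (f : GI → ℂ) (u : GI) : ℂ :=
  ((n : ℂ) ^ 2)⁻¹ * ∑ p ∈ Finset.range n ×ˢ Finset.range n, f (u + ⟨p.1, p.2⟩)

theorem not_dvd {m n : ℕ} (h : 2 * n ^ 2 ≤ 2 ^ m) {x : GI} (h0 : x ≠ 0) (h1 : |x.re| < n)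
    (h2 : |x.im| < n) : ¬ om ^ m ∣ x := by
  rintro ⟨w, rfl⟩
  have hw : w ≠ 0 := by rintro rfl; simp at h0
  have e : (om ^ m * w).norm = 2 ^ m * w.norm := by
    rw [Zsqrtd.norm_mul]
    congr 1
    have := map_pow (Zsqrtd.normMonoidHom (d := -1)) om m
    simp only [Zsqrtd.normMonoidHom, MonoidHom.coe_mk, OneHom.coe_mk] at this
    rw [this]; congr 1
  have hp : 0 < w.norm := GaussianInt.norm_pos.2 hw
  have e2 : (om ^ m * w).norm = (om ^ m * w).re ^ 2 + (om ^ m * w).im ^ 2 := by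
    rw [Zsqrtd.norm_def]; ring
  have h' : 2 * (n : ℤ) ^ 2 ≤ 2 ^ m := by exact_mod_cast h
  have a1 := sq_lt_sq' (abs_lt.1 h1).1 (abs_lt.1 h1).2
  have a2 := sq_lt_sq' (abs_lt.1 h2).1 (abs_lt.1 h2).2
  have : (2 : ℤ) ^ m ≤ 2 ^ m * w.norm := le_mul_of_one_le_right (by positivity) hp
  linarith

theorem sum_sq_le (hB : S_Box) {m n : ℕ} (h : 2 * n ^ 2 ≤ 2 ^ m) {F : GI → ℝ} (hF : Per m F)
    (h0 : ∀ u, 0 ≤ F u) (u : GI) :
    ∑ p ∈ Finset.range n ×ˢ Finset.range n, F (u + ⟨p.1, p.2⟩) ≤ ts m F := by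
  classical
  obtain ⟨-, -, -, -, -, H, -⟩ := hB m
  have H1 := (H ℝ F hF).1
  simp only [← H1 (u + _)]
  rw [← ts_sum]
  refine ts_mono m fun w => ?_
  rw [← Finset.sum_filter, Finset.sum_const, nsmul_eq_mul]
  refine mul_le_of_le_one_left (h0 w) ?_
  norm_cast
  refine Finset.card_le_one.2 fun p hp q hq => ?_
  simp only [Finset.mem_filter, Finset.mem_product, Finset.mem_range] at hp hq
  by_contra hne
  have hd := dvd_sub hq.2 hp.2
  refine not_dvd h (x := _) ?_ ?_ ?_ hd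
  · intro e
    apply hne
    have e1 := congrArg Zsqrtd.re e
    have e2 := congrArg Zsqrtd.im e
    simp at e1 e2
    ext <;> omega
  · simp; rw [abs_lt]; constructor <;> omega
  · simp; rw [abs_lt]; constructor <;> omega

theorem M_le (hB : S_Box) {m n : ℕ} (hn : 0 < n) (h : 2 * n ^ 2 ≤ 2 ^ m) {g : GI → ℂ}
    (hg : Per m g) (u : GI) : ‖M n g u‖ ≤ √(msq m g) / dd m / n := by
  have h1 := sum_sq_le hB h (F := fun u => ‖g u‖ ^ 2) (fun u w => by simp only [hg u w])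
    (fun _ => sq_nonneg _) u
  have h2 := sq_sum_le_card_mul_sum_sq (s := Finset.range n ×ˢ Finset.range n)
    (f := fun p : ℕ × ℕ => ‖g (u + ⟨p.1, p.2⟩)‖)
  have h3 := norm_sum_le (Finset.range n ×ˢ Finset.range n)
    (fun p : ℕ × ℕ => g (u + ⟨p.1, p.2⟩))
  have hd := dd_pos m
  have hn' : (0 : ℝ) < n := by exact_mod_cast hn
  have e : ts m (fun u => ‖g u‖ ^ 2) = (√(msq m g) / dd m) ^ 2 := by
    rw [div_pow, Real.sq_sqrt (msq_nonneg _ _), dd_sq, ts_eq_av, msq, smul_eq_mul]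
    field_simp
  rw [Finset.card_product, Finset.card_range] at h2
  push_cast at h2
  have h4 : ∑ p ∈ Finset.range n ×ˢ Finset.range n, ‖g (u + ⟨p.1, p.2⟩)‖
      ≤ n * (√(msq m g) / dd m) := by
    refine le_of_sq_le_sq (h2.trans ?_) (by positivity)
    rw [mul_pow, ← e, ← sq]
    gcongr
  rw [M, norm_mul, norm_inv, norm_pow, Complex.norm_natCast]
  calc _ ≤ ((n : ℝ) ^ 2)⁻¹ * (n * (√(msq m g) / dd m)) := by gcongr; exact h3.trans h4
    _ = _ := by field_simp

theorem M_sub (n : ℕ) (f g : GI → ℂ) (u : GI) :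
    M n (fun u => f u - g u) u = M n f u - M n g u := by
  simp only [M, Finset.sum_sub_distrib, mul_sub]

theorem M_shift (n : ℕ) (f : GI → ℂ) (u x : GI) : M n (fun u => f (u + x)) u = M n f (u + x) := by
  simp only [M, add_right_comm u x]

theorem M_const {n : ℕ} (hn : 0 < n) (a : ℂ) (u : GI) : M n (fun _ => a) u = a := by
  have : (n : ℂ) ≠ 0 := by exact_mod_cast hn.ne'
  simp only [M, Finset.sum_const, Finset.card_product, Finset.card_range, nsmul_eq_mul]
  push_cast; field_simp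

theorem M_one (f : GI → ℂ) (u : GI) : M 1 f u = f u := by
  have : (⟨0, 0⟩ : GI) = 0 := rfl
  simp [M, this]

theorem M_double {n : ℕ} (hn : 0 < n) (f : GI → ℂ) (u : GI) :
    M (n + n) f u = (M n f u + M n f (u + n * gi) + M n f (u + n * 1)
      + M n f (u + n * 1 + n * gi)) / 4 := by
  have : (n : ℂ) ≠ 0 := by exact_mod_cast hn.ne'
  have e1 : ∀ a b : ℕ, u + (⟨(n + a : ℕ), b⟩ : GI) = u + n * 1 + ⟨a, b⟩ := fun a b => by
    ext <;> simp <;> ring
  have e2 : ∀ a b : ℕ, u + (⟨a, (n + b : ℕ)⟩ : GI) = u + n * gi + ⟨a, b⟩ := fun a b => by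
    ext <;> simp [gi] <;> ring
  have e3 : ∀ a b : ℕ, u + (⟨(n + a : ℕ), (n + b : ℕ)⟩ : GI) = u + n * 1 + n * gi + ⟨a, b⟩ :=
    fun a b => by ext <;> simp [gi] <;> ring
  simp only [M, Finset.sum_product, Finset.sum_range_add, Finset.sum_add_distrib]
  simp only [e3]
  simp only [e1, e2]
  push_cast; field_simp; ring

theorem M_step (hB : S_Box) {m n : ℕ} (hn : 0 < n) (h : 2 * n ^ 2 ≤ 2 ^ m) {f : GI → ℂ}
    (hf : Per m f) (g : GI) (u : GI) (j : ℕ) :
    ‖M n f (u + j * g) - M n f u‖ ≤ j * (√(msq m (fun u => f (u + g) - f u)) / dd m / n) := by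
  induction j with
  | zero => simp
  | succ j ih =>
    have h1 := M_le hB hn h (g := fun u => f (u + g) - f u)
      (fun u w => by simp only [hf u w, hf.shift g u w]) (u + j * g)
    rw [M_sub, M_shift] at h1
    have e : u + ((j + 1 : ℕ) : GI) * g = u + j * g + g := by push_cast; ring
    rw [e]
    have := norm_sub_le_norm_sub_add_norm_sub (M n f (u + j * g + g)) (M n f (u + j * g))
      (M n f u)
    push_cast
    linarith

theorem M_dbl_le (hB : S_Box) {m n : ℕ} (hn : 0 < n) (h : 2 * n ^ 2 ≤ 2 ^ m) {f : GI → ℂ}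
    (hf : Per m f) (u : GI) : ‖M (n + n) f u - M n f u‖ ≤ √(g2 m f) / dd m := by
  have hd := dd_pos m
  have hn' : (0 : ℝ) < n := by exact_mod_cast hn
  have k : ∀ g : GI, msq m (fun u => f (u + g) - f u) ≤ g2 m f → ∀ u,
      ‖M n f (u + n * g) - M n f u‖ ≤ √(g2 m f) / dd m := fun g hg u => by
    refine (M_step hB hn h hf g u n).trans ?_
    rw [mul_div_cancel₀ _ hn'.ne']
    gcongr
  have k1 := k 1 (le_add_of_nonneg_right (msq_nonneg _ _))
  have k2 := k gi (le_add_of_nonneg_left (msq_nonneg _ _))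
  have e : M (n + n) f u - M n f u = ((M n f (u + n * gi) - M n f u)
      + (M n f (u + n * 1) - M n f u) + (M n f (u + n * 1) - M n f u)
      + (M n f (u + n * 1 + n * gi) - M n f (u + n * 1))) / 4 := by
    rw [M_double hn]; ring
  rw [e, norm_div, Complex.norm_ofNat, div_le_iff₀ (by norm_num)]
  refine (norm_add_le _ _).trans ?_
  have := norm_add₃_le (a := M n f (u + n * gi) - M n f u) (b := M n f (u + n * 1) - M n f u)
    (c := M n f (u + n * 1) - M n f u)
  linarith [k1 u, k2 u, k2 (u + n * 1)]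

theorem M_pow_le (hB : S_Box) {m : ℕ} {f : GI → ℂ} (hf : Per m f) (u : GI) (k : ℕ)
    (hk : 2 * k + 1 ≤ m) : ‖M (2 ^ k) f u - f u‖ ≤ k * (√(g2 m f) / dd m) := by
  induction k with
  | zero => simp [M_one]
  | succ k ih =>
    have h : 2 * (2 ^ k) ^ 2 ≤ 2 ^ m := by
      rw [← pow_mul, ← pow_succ']; exact Nat.pow_le_pow_right (by norm_num) (by omega)
    have h1 := M_dbl_le hB (n := 2 ^ k) (by positivity) h hf u
    have h2 := ih (by omega)
    rw [pow_succ, mul_two]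
    have := norm_sub_le_norm_sub_add_norm_sub (M (2 ^ k + 2 ^ k) f u) (M (2 ^ k) f u) (f u)
    push_cast
    linarith

theorem item1 (hB : S_Box) (hY : S_Young) {m : ℕ} {ε : GI → ℂ} (hε : Per m ε) :
    msq m (fun u => ε u - av m ε) ≤ 8 * g2 m ε / dd m ^ 2 := by
  obtain ⟨-, -, -, -, H, -⟩ := hB m
  have hd := dd_pos m
  have h := (hY m (fun _ => ((2 : ℝ) ^ m)⁻¹) (fun _ _ => rfl) (fun _ => by positivity)).2.2.1 ε
    (fun u w => ((2 : ℝ) ^ m)⁻¹ • (ε u - ε w)) hε (fun u w => by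
      rw [norm_smul, Real.norm_of_nonneg (by positivity)])
  have e : ∀ u, ts m (fun w => ((2 : ℝ) ^ m)⁻¹ • (ε u - ε w)) = ε u - av m ε := fun u => by
    rw [ts_smul, ← av, av_sub, av_const]
  simp only [e] at h
  refine h.trans ?_
  have h1 : ts m (fun x => ((2 : ℝ) ^ m)⁻¹ * Hh m x) ≤ 2 / dd m := by
    have := av_mono m (F := Hh m) (G := fun _ => 2 / dd m) fun u => by
      rw [le_div_iff₀ hd]; exact (H u).2.1
    rwa [av_const, av, smul_eq_mul, ← ts_mul_left_real] at this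
  have h0 : 0 ≤ ts m (fun x => ((2 : ℝ) ^ m)⁻¹ * Hh m x) :=
    ts_nonneg m fun u => mul_nonneg (by positivity) (le_trans zero_le_one (H u).1)
  have := g2_nonneg m ε
  calc _ ≤ 2 * (2 / dd m) ^ 2 * g2 m ε := by gcongr
    _ = _ := by field_simp; ring

theorem sqrt1 (hB : S_Box) (hY : S_Young) {m : ℕ} {ε : GI → ℂ} (hε : Per m ε) :
    √(msq m (fun u => ε u - av m ε)) ≤ 3 * (√(g2 m ε) / dd m) := by
  have hd := dd_pos m
  refine Real.sqrt_le_iff.2 ⟨by positivity, (item1 hB hY hε).trans ?_⟩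
  rw [mul_pow, div_pow, Real.sq_sqrt (g2_nonneg _ _), mul_div_assoc]
  have := g2_nonneg m ε
  gcongr; norm_num

theorem sup_av (hB : S_Box) (hY : S_Young) {m : ℕ} (hm : 2 ≤ m) {ε : GI → ℂ} (hε : Per m ε)
    (u : GI) : ‖ε u - av m ε‖ ≤ 4 * m * (√(g2 m ε) / dd m) := by
  have hd := dd_pos m
  obtain ⟨k, hk1, hk2⟩ : ∃ k, 2 * k + 1 ≤ m ∧ m ≤ 2 * k + 2 := ⟨(m - 1) / 2, by omega, by omega⟩
  have h1 := M_pow_le hB hε u k hk1
  have h : 2 * (2 ^ k) ^ 2 ≤ 2 ^ m := by
    rw [← pow_mul, ← pow_succ']; exact Nat.pow_le_pow_right (by norm_num) (by omega)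
  have h2 := M_le hB (n := 2 ^ k) (by positivity) h (g := fun u => ε u - av m ε)
    (fun u w => by simp only [hε u w]) u
  rw [M_sub, M_const (by positivity)] at h2
  have h3 := sqrt1 hB hY hε
  have h4 : 1 ≤ 2 * (dd m * ((2 ^ k : ℕ) : ℝ)) := by
    refine le_of_sq_le_sq ?_ (by positivity)
    rw [mul_pow, mul_pow, dd_sq]
    have : (2 : ℝ) ^ m ≤ 2 ^ (2 * k + 2) := pow_le_pow_right₀ (by norm_num) hk2
    push_cast
    rw [← pow_mul, one_pow]
    calc (1 : ℝ) = 2 ^ m * (2 ^ m)⁻¹ := by field_simp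
      _ ≤ 2 ^ (2 * k + 2) * (2 ^ m)⁻¹ := by gcongr
      _ = _ := by ring
  have h5 : √(msq m (fun u => ε u - av m ε)) / dd m / ((2 ^ k : ℕ) : ℝ)
      ≤ 6 * (√(g2 m ε) / dd m) := by
    rw [div_div, div_le_iff₀ (by positivity)]
    have : 0 ≤ √(g2 m ε) / dd m := by positivity
    nlinarith
  have h6 := norm_sub_le_norm_sub_add_norm_sub (ε u) (M (2 ^ k) ε u) (av m ε)
  rw [norm_sub_rev] at h1
  have h7 : (k : ℝ) + 6 ≤ 4 * m := by exact_mod_cast (by omega : k + 6 ≤ 4 * m)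
  have : 0 ≤ √(g2 m ε) / dd m := by positivity
  nlinarith

theorem per_class {m : ℕ} (hm : 2 ≤ m) :
    Per m (fun u : GI => if Odd u.im ∧ Odd u.re then (1 : ℝ) else 0) := by
  intro u w
  obtain ⟨k, rfl⟩ := Nat.exists_eq_add_of_le hm
  have e : om ^ (2 + k) * w = 2 * (gi * om ^ k * w) := by
    rw [pow_add, show om ^ 2 = 2 * gi by decide]; ring
  rw [e]
  generalize gi * om ^ k * w = y
  have e1 : (u + 2 * y).im = u.im + 2 * y.im := by simp
  have e2 : (u + 2 * y).re = u.re + 2 * y.re := by simp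
  simp only [e1, e2, Int.odd_add, even_two, Even.mul_right, iff_true]

theorem av_class {m : ℕ} (hm : 2 ≤ m) :
    av m (fun u : GI => if Odd u.im ∧ Odd u.re then (1 : ℝ) else 0) = 1 / 4 := by
  have hp := per_class hm
  set χ : GI → ℝ := fun u : GI => if Odd u.im ∧ Odd u.re then (1 : ℝ) else 0 with hχ
  have e : ∀ u, χ u + χ (u + 1) + χ (u + gi) + χ (u + om) = 1 := fun u => by
    simp only [hχ, gi, om, Zsqrtd.re_add, Zsqrtd.im_add, Zsqrtd.re_one, Zsqrtd.im_one, add_zero,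
      Int.odd_iff]
    split_ifs <;> first | (exfalso; omega) | norm_num
  have h : av m (fun u => χ u + χ (u + 1) + χ (u + gi) + χ (u + om)) = 1 := by
    simp only [e, av_const]
  have k : ∀ x, av m (fun u => χ (u + x)) = av m χ := fun x => by rw [av, ts_shift hp, av]
  rw [av_add, av_add, av_add, k, k, k] at h
  have e' : av m (fun u => χ u) = av m χ := rfl
  linarith

theorem av_le (hB : S_Box) (hY : S_Young) {m : ℕ} (hm : 2 ≤ m) {ε : GI → ℂ} (hε : Per m ε)
    (h0 : ts m (fun u => if Odd u.im ∧ Odd u.re then ε u else 0) = 0) :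
    ‖av m ε‖ ≤ 12 * (√(g2 m ε) / dd m) := by
  have h1 : av m (fun u => (if Odd u.im ∧ Odd u.re then (1 : ℝ) else 0) • (ε u - av m ε))
      = -((1 / 4 : ℝ) • av m ε) := by
    have e : (fun u : GI => (if Odd u.im ∧ Odd u.re then (1 : ℝ) else 0) • (ε u - av m ε))
        = fun u => (if Odd u.im ∧ Odd u.re then ε u else 0)
          - av m ε * ((if Odd u.im ∧ Odd u.re then (1 : ℝ) else 0 : ℝ) : ℂ) := by
      funext u; split_ifs <;> simp
    rw [e, av_sub, ← av_class hm]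
    simp only [av, h0, smul_zero, zero_sub, ts_mul_left, ← ts_ofReal, real_smul, smul_eq_mul]
    push_cast; ring
  have h2 := norm_av_le m (fun u => (if Odd u.im ∧ Odd u.re then (1 : ℝ) else 0) • (ε u - av m ε))
  have h3 := av_mul_le m (fun u => ε u - av m ε) (fun _ => 1)
  have e : √(msq m (fun _ => (1 : ℂ))) = 1 := by simp [msq, av_const]
  have h4 := av_mono m
    (F := fun u => ‖(if Odd u.im ∧ Odd u.re then (1 : ℝ) else 0) • (ε u - av m ε)‖)
    (G := fun u => ‖ε u - av m ε‖ * ‖(1 : ℂ)‖) fun u => by split_ifs <;> simp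
  rw [h1, norm_neg, norm_smul, Real.norm_of_nonneg (by norm_num)] at h2
  rw [e, mul_one] at h3
  linarith [sqrt1 hB hY hε]

end Pool.Agent.P.MP_cc4a10_gt.PoinP

namespace Pool.Agent.P.MP_cc4a10_gt

open PoinP

theorem pPoin (hB : S_Box) (hY : S_Young) : S_Poin := by
  refine ⟨20, by norm_num, fun m ε hm hε => ?_⟩
  have hd := dd_pos m
  have hg := g2_nonneg m ε
  have hG : 0 ≤ √(g2 m ε) / dd m := by positivity
  have hm' : (2 : ℝ) ≤ m := by exact_mod_cast hm
  have s := sup_av hB hY hm hε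
  refine ⟨(item1 hB hY hε).trans (by gcongr; norm_num), fun u w => ?_, fun h0 => ⟨?_, fun u => ?_⟩⟩
  · have := norm_sub_le_norm_sub_add_norm_sub (ε u) (av m ε) (ε w)
    rw [norm_sub_rev (av m ε)] at this
    rw [mul_div_assoc]
    nlinarith [s u, s w]
  · have h1 := msq_add_le m (fun u => ε u - av m ε) (fun _ => av m ε)
    simp only [sub_add_cancel] at h1
    have h2 := item1 hB hY hε
    have h3 := msq_le_of_le m (F := fun _ => av m ε) fun _ => av_le hB hY hm hε h0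
    rw [mul_pow, div_pow, Real.sq_sqrt hg] at h3
    rw [mul_div_assoc] at h2 ⊢
    have : 0 ≤ g2 m ε / dd m ^ 2 := by positivity
    have e : msq m (fun u => ε u) = msq m ε := rfl
    linarith
  · have h1 := av_le hB hY hm hε h0
    have := norm_add_le (ε u - av m ε) (av m ε)
    rw [sub_add_cancel] at this
    rw [mul_div_assoc]
    nlinarith [s u]

end Pool.Agent.P.MP_cc4a10_gt
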