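import Pool.Agent.P.MP_cc4a10_gt.St

/-!
Global primitive on the plane minus discs.
-/

open Set Filter Topology Complex Metric
open scoped ComplexConjugate Real

noncomputable section

namespace Pool.Agent.P.MP_cc4a10_gt

namespace PrimP

theorem loc_exact (ω : ℂ → ℂ →L[ℝ] ℂ)
    (h : ∀ z, ∃ g : ℂ → ℂ, ContDiffAt ℝ 2 g z ∧ ω =ᶠ[𝓝 z] fderiv ℝ g) :
    ∃ f : ℂ → ℂ, ∀ z, HasFDerivAt f (ω z) z := by
  obtain ⟨f, hf⟩ := (convex_univ (𝕜 := ℝ) (E := ℂ)).exists_forall_hasFDerivAt_of_fderiv_symmetric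
    isOpen_univ (ω := ω) (fun z _ => by
      obtain ⟨g, h1, h2⟩ := h z
      exact (((h1.fderiv_right (m := 1) le_rfl).differentiableAt one_ne_zero).congr_of_eventuallyEq
        h2).differentiableWithinAt) (fun z _ x y => by
      obtain ⟨g, h1, h2⟩ := h z
      rw [h2.fderiv_eq]
      exact h1.isSymmSndFDerivAt (by simp) x y)
  exact ⟨f, fun z => hf z trivial⟩

theorem pair_prim {U : Set ℂ} (hU : IsOpen U) {G1 G2 f1 f2 : ℂ → ℂ}
    (h1 : ∀ z ∈ U, HasDerivAt G1 (f1 z) z) (h2 : ∀ z ∈ U, HasDerivAt G2 (f2 z) z) {z : ℂ}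
    (hz : z ∈ U) : ContDiffAt ℝ 2 (fun z => G1 z - conj (G2 z)) z ∧
      HasFDerivAt (fun z => G1 z - conj (G2 z)) (wl (f1 z) (f2 z)) z := by
  have c1 : ContDiffAt ℝ 2 G1 z := (((DifferentiableOn.contDiffOn
    (fun y hy => (h1 y hy).differentiableAt.differentiableWithinAt) hU).contDiffAt
    (hU.mem_nhds hz))).restrict_scalars ℝ
  have c2 : ContDiffAt ℝ 2 G2 z := (((DifferentiableOn.contDiffOn
    (fun y hy => (h2 y hy).differentiableAt.differentiableWithinAt) hU).contDiffAt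
    (hU.mem_nhds hz))).restrict_scalars ℝ
  refine ⟨c1.sub (conjCLE.contDiff.contDiffAt.comp z c2), ?_⟩
  have d1 := (h1 z hz).hasFDerivAt.restrictScalars ℝ
  have d2 := conjCLE.hasFDerivAt.comp z ((h2 z hz).hasFDerivAt.restrictScalars ℝ)
  refine (d1.sub d2).congr_fderiv ?_
  refine ContinuousLinearMap.ext fun h => ?_
  simp [wl, mul_comm]

theorem ann_prim (hA : S_Ann) {F1 F2 : ℂ → ℂ} {p : ℂ} {r1 r2 r : ℝ} (h0 : 0 ≤ r1) (h1 : r1 < r)
    (h2 : r < r2) (d1 : DifferentiableOn ℂ F1 {z | r1 < ‖z - p‖ ∧ ‖z - p‖ < r2})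
    (d2 : DifferentiableOn ℂ F2 {z | r1 < ‖z - p‖ ∧ ‖z - p‖ < r2})
    (hc : cint p r F1 = -conj (cint p r F2)) :
    ∃ P : ℂ → ℂ, ∀ z, r1 < ‖z - p‖ → ‖z - p‖ < r2 →
      ContDiffAt ℝ 2 P z ∧ HasFDerivAt P (wl (F1 z) (F2 z)) z := by
  obtain ⟨G1, g1⟩ := hA F1 p r1 r2 r h0 h1 h2 d1
  obtain ⟨G2, g2⟩ := hA F2 p r1 r2 r h0 h1 h2 d2
  have hU : IsOpen {z : ℂ | r1 < ‖z - p‖ ∧ ‖z - p‖ < r2} :=
    IsOpen.inter (s := {z : ℂ | r1 < ‖z - p‖}) (t := {z : ℂ | ‖z - p‖ < r2})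
      (isOpen_lt continuous_const (by fun_prop)) (isOpen_lt (by fun_prop) continuous_const)
  refine ⟨fun z => G1 z - conj (G2 z) + cint p r F1 * (Real.log (‖z - p‖ ^ 2) : ℝ),
    fun z hz hz' => ?_⟩
  obtain ⟨a1, a2⟩ := pair_prim hU (fun y hy => g1 y hy.1 hy.2) (fun y hy => g2 y hy.1 hy.2)
    (z := z) ⟨hz, hz'⟩
  have hn : ‖z - p‖ ≠ 0 := (h0.trans_lt hz).ne'
  have b1 : ContDiffAt ℝ 2 (fun z : ℂ => Real.log (‖z - p‖ ^ 2)) z :=
    ((contDiffAt_id.sub contDiffAt_const).norm_sq ℝ).log (pow_ne_zero 2 hn)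
  have b2 := (((hasFDerivAt_id (𝕜 := ℝ) z).sub_const p).norm_sq).log (pow_ne_zero 2 hn)
  refine ⟨a1.add (contDiffAt_const.mul (ofRealCLM.contDiff.contDiffAt.comp z b1)), ?_⟩
  refine (a2.add ((ofRealCLM.hasFDerivAt.comp z b2).const_mul (cint p r F1))).congr_fderiv ?_
  have hz0 : z - p ≠ 0 := norm_ne_zero_iff.1 hn
  have hz1 : conj (z - p) ≠ 0 := (map_ne_zero _).2 hz0
  have key : ∀ h : ℂ, ((((‖z - p‖ ^ 2)⁻¹ * (2 * inner ℝ (z - p) h) : ℝ)) : ℂ)
      = h / (z - p) + conj h / conj (z - p) := by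
    intro h
    rw [Complex.inner, ofReal_mul, ofReal_mul, re_eq_add_conj, ofReal_inv, ← normSq_eq_norm_sq,
      ← mul_conj]
    simp only [map_mul, conj_conj]
    push_cast; field_simp
  refine ContinuousLinearMap.ext fun h => ?_
  have := key h
  simp only [wl, hc, add_apply, sub_apply,
    ContinuousLinearMap.mul_apply', ContinuousLinearMap.comp_apply, smul_apply,
    ofRealCLM_apply, ContinuousLinearEquiv.coe_coe, conjCLE_apply, id, innerSL_apply_apply,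
    ContinuousLinearMap.id_apply, smul_eq_mul, nsmul_eq_mul, Nat.cast_ofNat, this, map_mul,
    map_sub (starRingEnd ℂ) (F2 z), map_div₀]
  ring

end PrimP

open PrimP in
theorem pPrim (hA : S_Ann) : S_Prim := by
  classical
  intro nk p r r0 F1 F2 hr hr0 hs d1 d2 hc
  have far : ∀ u ∈ nk, ∀ u' ∈ nk, ∀ z, ‖z - p u‖ < 2 * r + r0 → u ≠ u' → 2 * r < ‖z - p u'‖ := by
    intro u hu u' hu' z hz hne
    have h1 := hs u hu u' hu' hne
    have h2 : ‖p u - p u'‖ ≤ ‖z - p u'‖ + ‖z - p u‖ := by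
      rw [show p u - p u' = (z - p u') - (z - p u) by ring]; exact norm_sub_le _ _
    linarith
  have sub : ∀ u ∈ nk, {z | r < ‖z - p u‖ ∧ ‖z - p u‖ < 2 * r + r0} ⊆ Out nk p r := by
    intro u hu z hz u' hu'
    by_cases h : u = u'
    · exact h ▸ hz.1
    · linarith [far u hu u' hu' z hz.2 h]
  have hQ : ∀ u ∈ nk, ∃ Q : ℂ → ℂ, ∀ z, ‖z - p u‖ < 2 * r + r0 → ContDiffAt ℝ 2 Q z ∧
      (2 * r ≤ ‖z - p u‖ → fderiv ℝ Q z = wl (F1 z) (F2 z)) := by
    intro u hu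
    obtain ⟨P, hP⟩ := ann_prim hA hr.le hr0 (by linarith) (d1.mono (sub u hu))
      (d2.mono (sub u hu)) (hc u hu)
    let b : ContDiffBump (p u) := ⟨r * (6 / 5), r * (9 / 5), by positivity, by linarith⟩
    refine ⟨fun z => ((1 - b z : ℝ) : ℂ) * P z, fun z hz => ⟨?_, fun h => ?_⟩⟩
    · by_cases h : r < ‖z - p u‖
      · exact (ofRealCLM.contDiff.contDiffAt.comp z
          (contDiffAt_const.sub b.contDiffAt)).mul (hP z h hz).1
      · refine (contDiffAt_const (c := (0 : ℂ))).congr_of_eventuallyEq ?_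
        filter_upwards [b.eventuallyEq_one_of_mem_ball (x := z)
          (by rw [mem_ball, dist_eq_norm]; change _ < r * (6 / 5); linarith)] with y hy
        simp [hy]
    · refine ((hP z (by linarith) hz).2.congr_of_eventuallyEq ?_).fderiv
      have : {y : ℂ | r * (9 / 5) < ‖y - p u‖} ∈ 𝓝 z :=
        (isOpen_lt continuous_const (by fun_prop)).mem_nhds (by rw [mem_ofPred_eq]; linarith)
      filter_upwards [this] with y hy
      rw [b.zero_of_le_dist (by rw [dist_eq_norm]; exact le_of_lt hy)]; simp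
  choose! Q hQ using hQ
  obtain ⟨Z, hZ⟩ := loc_exact (fun z => if h : ∃ u ∈ nk, ‖z - p u‖ < 2 * r
      then fderiv ℝ (Q h.choose) z else wl (F1 z) (F2 z)) fun z => by
    by_cases h : ∃ u ∈ nk, ‖z - p u‖ < 2 * r + r0
    · obtain ⟨u, hu, hz⟩ := h
      refine ⟨Q u, (hQ u hu z hz).1, ?_⟩
      have : {y : ℂ | ‖y - p u‖ < 2 * r + r0} ∈ 𝓝 z :=
        (isOpen_lt (by fun_prop) continuous_const).mem_nhds hz
      filter_upwards [this] with y hy
      split_ifs with h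
      · have h1 : u = h.choose := by
          by_contra h2
          exact (far u hu _ h.choose_spec.1 y hy h2).not_gt h.choose_spec.2
        rw [← h1]
      · exact ((hQ u hu y hy).2 (not_lt.1 fun h1 => h ⟨u, hu, h1⟩)).symm
    · push Not at h
      have h1 : ∀ y ∈ ball z r0, ∀ u ∈ nk, 2 * r < ‖y - p u‖ := by
        intro y hy u hu
        rw [mem_ball, dist_eq_norm] at hy
        have h2 : ‖z - p u‖ ≤ ‖y - p u‖ + ‖y - z‖ := by
          rw [show z - p u = (y - p u) - (y - z) by ring]; exact norm_sub_le _ _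
        linarith [h u hu]
      have h2 : ball z r0 ⊆ Out nk p r := fun y hy u hu => by linarith [h1 y hy u hu]
      obtain ⟨G1, g1⟩ := (d1.mono h2).isExactOn_ball
      obtain ⟨G2, g2⟩ := (d2.mono h2).isExactOn_ball
      have hz : z ∈ ball z r0 := mem_ball_self (by linarith)
      refine ⟨_, (pair_prim isOpen_ball g1 g2 hz).1, ?_⟩
      filter_upwards [isOpen_ball.mem_nhds hz] with y hy
      rw [dif_neg fun ⟨u, hu, h3⟩ => (h1 y hy u hu).not_gt h3,
        (pair_prim isOpen_ball g1 g2 hy).2.fderiv]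
  refine ⟨Z, fun z hz => ?_⟩
  have := hZ z
  rwa [dif_neg fun ⟨u, hu, h3⟩ => (hz u hu).not_gt h3] at this

end Pool.Agent.P.MP_cc4a10_gt
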