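import Pool.Agent.P.MP_cc4a10_gt.Ref2

/-!
Package Ref: bounds for the unperturbed level.
-/

open Set Filter Topology Complex Metric
open scoped ComplexConjugate Real

noncomputable section

namespace Pool.Agent.P.MP_cc4a10_gt

namespace RefP

variable {E : Ell} {C : ℝ} {μ : ℂ} {l : Lv}

theorem norm_sm_le {V : Type} [NormedAddCommGroup V] {f : GI → V} {B : ℝ} (h : ∀ a, ‖f a‖ ≤ B) :
    ‖sm f‖ ≤ 3 * B := by
  have h1 := norm_add₃_le (a := f om) (b := f gi) (c := f 1)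
  unfold sm
  linarith [h om, h gi, h 1]

theorem LF.far (L : LF l) (K' : KF E C (mu' l μ)) (hC : 0 < C) {a : GI} {z : ℂ}
    (h : ∀ w, dd l.m / 10 ≤ ‖z - pp l μ (a + 2 * w)‖) :
    ‖E.Z (mu' l μ) (yy l μ a z)‖ ≤ 24 + 2 * C ∧ |E.Gr (mu' l μ) (yy l μ a z)| ≤ 24 + 2 * C := by
  refine K'.far hC fun w => ?_
  have hd := dd_pos l.m
  rw [L.yy_sub, norm_div, norm_mul, L.nc, Complex.norm_two, le_div_iff₀ (by positivity)]
  linarith [h w]

theorem LF.scale (L : LF l) (a : GI) {x : ℂ} {B : ℝ} (h : ‖x‖ ≤ B) :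
    ‖(q0 l a : ℂ) * ((2 * l.c)⁻¹ * x)‖ ≤ 2 * B * dd l.m := by
  have hd := dd_pos l.m
  rw [norm_mul, norm_mul, norm_inv, norm_mul, L.nc, Complex.norm_two, norm_real, Real.norm_eq_abs]
  calc |q0 l a| * ((2 * dd l.m)⁻¹ * ‖x‖) ≤ 4 * dd l.m ^ 2 * ((2 * dd l.m)⁻¹ * B) := by
        gcongr; exact L.qb a
    _ = 2 * B * dd l.m := by field_simp; ring

theorem LF.scaleR (L : LF l) (a : GI) {x B : ℝ} (h : |x| ≤ B) :
    ‖q0 l a * x‖ ≤ 4 * B * dd l.m ^ 2 := by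
  rw [Real.norm_eq_abs, abs_mul]
  calc |q0 l a| * |x| ≤ 4 * dd l.m ^ 2 * B := by gcongr; exact L.qb a
    _ = _ := by ring

theorem item1 (L : LF l) (K : KF E C μ) (K' : KF E C (mu' l μ)) (hC : 0 < C) (u : GI) (z : ℂ)
    (hz : ‖z - pp l μ u‖ ≤ dd l.m * (6 / 10)) :
    ‖RR E l ⟨μ, 0, 0⟩ u z‖ ≤ 3 * (2 * (24 + 2 * C) * dd l.m) := by
  classical
  have hd := dd_pos l.m
  have hc := L.c0
  have e : RR E l ⟨μ, 0, 0⟩ u z = sm fun a => (q0 l a : ℂ) * ((2 * l.c)⁻¹ *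
      (E.Z (mu' l μ) (yy l μ a z) - ind (mu' l μ) (yy l μ a (pp l μ u)) *
        ((z - pp l μ u) / (2 * l.c))⁻¹)) := by
    have e1 := congrArg (fun x : ℝ => (x : ℂ)) (L.ee_pp K.mu u)
    have e2 : ((z - pp l μ u) / (2 * l.c))⁻¹ = 2 * l.c * (z - pp l μ u)⁻¹ := by
      rw [inv_div, div_eq_mul_inv]
    have e3 : (2 * l.c)⁻¹ * (2 * l.c) = 1 := inv_mul_cancel₀ (mul_ne_zero two_ne_zero hc)
    have e4 : RR E l ⟨μ, 0, 0⟩ u z = RZ E l μ z - q0 l u * (z - pp l μ u)⁻¹ := by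
      rw [RR, psi_eq L K K', div_eq_mul_inv]; simp [qq, pos, pp]
    simp only [ee, sm] at e1
    push_cast at e1
    rw [e4, ← e1, e2]
    simp only [RZ, sm]
    linear_combination ((q0 l om : ℂ) * ind (mu' l μ) (yy l μ om (pp l μ u)) +
      (q0 l gi : ℂ) * ind (mu' l μ) (yy l μ gi (pp l μ u)) +
      (q0 l 1 : ℂ) * ind (mu' l μ) (yy l μ 1 (pp l μ u))) * (z - pp l μ u)⁻¹ * e3
  rw [e]
  refine norm_sm_le fun a => L.scale a ?_
  rw [L.ind_pp K.mu]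
  split_ifs with h
  · obtain ⟨w, hw⟩ := h
    rw [← sub_add_cancel (yy l μ a z) (Lm (mu' l μ) w), E.Zper _ K'.mu, L.yy_sub, ← hw,
      ofReal_one, one_mul]
    refine (K'.near hC ?_).trans (by linarith)
    rw [norm_div, norm_mul, L.nc, Complex.norm_two, div_lt_iff₀ (by positivity)]
    linarith
  · rw [ofReal_zero, zero_mul, sub_zero]
    refine (L.far K' hC fun w => ?_).1
    have h1 := L.sep K.mu (u := u) (w := a + 2 * w) fun e => h ⟨w, e⟩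
    have h2 := norm_sub_le (z - pp l μ (a + 2 * w)) (z - pp l μ u)
    rw [sub_sub_sub_cancel_left] at h2
    linarith

theorem item2 (L : LF l) (K' : KF E C (mu' l μ)) (hC : 0 < C) (z : ℂ)
    (hz : z ∈ Out (Nk l) (pp l μ) (dd l.m / 10)) :
    ‖RZ E l μ z‖ ≤ 3 * (2 * (24 + 2 * C) * dd l.m) ∧
      |RG E l μ z| ≤ 3 * (4 * (24 + 2 * C) * dd l.m ^ 2) ∧ ee l μ z = 0 := by
  have hd := dd_pos l.m
  have h : ∀ a, q0 l a ≠ 0 → ∀ w, dd l.m / 10 ≤ ‖z - pp l μ (a + 2 * w)‖ := fun a ha w =>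
    (hz (a + 2 * w) (by rwa [Nk, mem_ofPred_eq, q0_two])).le
  refine ⟨norm_sm_le fun a => ?_, norm_sm_le (V := ℝ) fun a => ?_, ?_⟩
  · by_cases ha : q0 l a = 0
    · rw [ha, ofReal_zero, zero_mul, norm_zero]; positivity
    · exact L.scale a (L.far K' hC (h a ha)).1
  · by_cases ha : q0 l a = 0
    · rw [ha, zero_mul, norm_zero]; positivity
    · exact L.scaleR a (L.far K' hC (h a ha)).2
  · by_cases h0 : ∃ u, z = pp l μ u
    · obtain ⟨u, rfl⟩ := h0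
      rw [L.ee_pp (L.nmu μ ▸ K'.mu)]
      by_contra hn
      have := hz u hn
      rw [sub_self, norm_zero] at this
      linarith
    · push Not at h0
      exact L.ee_off h0

theorem item3 (L : LF l) (K' : KF E C (mu' l μ)) (hC : 0 < C) (u : GI) :
    |RG E l μ (pp l μ u)| ≤ 3 * (4 * (24 + 2 * C) * dd l.m ^ 2) := by
  have hd := dd_pos l.m
  refine norm_sm_le (V := ℝ) fun a => L.scaleR a ?_
  by_cases h : ∃ w, u = a + 2 * w
  · obtain ⟨w, hw⟩ := h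
    have := E.Gper _ K'.mu 0 w
    rw [zero_add, K'.g0] at this
    rw [(L.yy_eq μ a w _).2 (congrArg _ hw), this, abs_zero]
    positivity
  · refine (L.far K' hC fun w => ?_).2
    have h1 := L.sep (L.nmu μ ▸ K'.mu) (u := u) (w := a + 2 * w) fun e => h ⟨w, e⟩
    linarith

theorem RG_two (L : LF l) (K' : KF E C (mu' l μ)) (a w : GI) :
    RG E l μ (pp l μ (a + 2 * w)) = RG E l μ (pp l μ a) := by
  simp only [RG, pp_add, L.yy_shift, E.Gper _ K'.mu]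

theorem LF.yy_pp (L : LF l) (μ : ℂ) (a u : GI) :
    yy l μ a (pp l μ u) = Lm (mu' l μ) (((u : ℂ) - a) / 2) := by
  have := L.c0
  have e : ((u - a : GI) : ℂ) = ((u : ℂ) - a) / 2 + ((u : ℂ) - a) / 2 := by rw [map_sub]; ring
  rw [yy, ← pp_sub, pp, L.Lm_c, e, Lm_add]
  field_simp
  ring

theorem item5 (L : LF l) (K' : KF E C (mu' l μ)) (K0 : KF E C 0) (hC : 0 < C)
    (h : q0 l 1 = q0 l gi) :
    |RG E l μ (pp l μ 1) - RG E l μ (pp l μ gi)| ≤ 4 * (2 * ((4 + 2 * C) * ‖μ‖)) * dd l.m ^ 2 := by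
  have e1 : ((1 : ℂ) - (1 + I)) / 2 = -(I * (1 / 2)) := by ring
  have e2 : (I - (1 + I)) / 2 = -(1 / 2) := by ring
  have e3 : (I - 1) / 2 = -((1 - I) / 2) := by ring
  have e : RG E l μ (pp l μ 1) - RG E l μ (pp l μ gi) = q0 l om *
      (E.Gr (mu' l μ) (Lm (mu' l μ) (I * (1 / 2))) - E.Gr (mu' l μ) (Lm (mu' l μ) (1 / 2))) := by
    simp only [RG, sm, L.yy_pp, coe_om, coe_gi, map_one, e1, e2, e3, Lm_neg, (K'.odd _).2, h,
      sub_self]
    ring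
  rw [e]
  refine L.scaleR om ?_
  have h1 := K'.half K0 hC (x := I * (1 / 2)) (by simp)
  have h2 := K'.half K0 hC (x := 1 / 2) (by simp)
  rw [K0.rot, L.nmu] at h1
  rw [L.nmu] at h2
  rw [abs_le] at h1 h2 ⊢
  constructor <;> linarith [h1.1, h1.2, h2.1, h2.2]

end RefP

open RefP in
theorem pRef (hB : S_Box) (hK : S_Ker0) (hD : S_Dip) : S_Ref := by
  intro E
  obtain ⟨C, hC, H⟩ := kf_of hK E
  refine ⟨300 + 24 * C, by positivity, fun l μ hl hμ => ?_⟩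
  have L := lf_of hB hD hl
  have K := H μ hμ
  have K' := H (mu' l μ) ((L.nmu μ).trans_le hμ)
  have K0 := H 0 (by norm_num)
  have hd := dd_pos l.m
  have hd2 : 0 < dd l.m ^ 2 := by positivity
  obtain ⟨κ, hκ⟩ := ht_eq L K K'
  have two : ∀ a w, ht E l ⟨μ, 0, 0⟩ (pp l μ (a + 2 * w)) = ht E l ⟨μ, 0, 0⟩ (pp l μ a) :=
    fun a w => by rw [hκ, hκ, RG_two L K', L.ee_pp hμ, L.ee_pp hμ, q0_two]
  refine ⟨κ, ht E l ⟨μ, 0, 0⟩ (pp l μ om), ht E l ⟨μ, 0, 0⟩ (pp l μ gi), fun u _ z hz => ?_,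
    fun z hz => ?_, fun u _ => ?_, fun u hu => ?_, fun u hu hn => ?_⟩
  · exact (item1 L K K' hC u z hz).trans (by nlinarith)
  · obtain ⟨h1, h2, h3⟩ := item2 L K' hC z hz
    rw [psi_eq L K K', hκ, h3, zero_mul, sub_zero, add_sub_cancel_right]
    exact ⟨h1.trans (by nlinarith), h2.trans (by nlinarith)⟩
  · change |ht E l ⟨μ, 0, 0⟩ (pp l μ u) + _ - κ| ≤ _
    have h1 := abs_le.1 (item3 L K' hC u)
    have h2 : |Real.log 2| ≤ 1 := by
      rw [abs_of_nonneg (Real.log_nonneg one_le_two)]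
      linarith [Real.log_le_sub_one_of_pos two_pos]
    have h3 := abs_le.1 (L.scaleR u h2)
    rw [hκ, L.ee_pp hμ, Real.log_mul two_ne_zero hd.ne', abs_le]
    constructor <;> nlinarith [h1.1, h1.2, h3.1, h3.2]
  · obtain ⟨w, rfl⟩ := (cls u om).2 ⟨Int.odd_iff.1 hu.2, Int.odd_iff.1 hu.1⟩
    exact two om w
  · change |ht E l ⟨μ, 0, 0⟩ (pp l μ u) - _| ≤ _
    have hm := norm_nonneg μ
    simp only [Int.odd_iff] at hn
    by_cases h1 : u.im % 2 = 1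
    · obtain ⟨w, rfl⟩ := (cls u gi).2 ⟨by simp only [gi]; omega, h1⟩
      rw [two, sub_self, abs_zero]
      positivity
    · by_cases h2 : u.re % 2 = 1
      · obtain ⟨w, rfl⟩ := (cls u 1).2 ⟨h2, by simp; omega⟩
        have h3 : q0 l 1 ≠ 0 := by rwa [Nk, mem_ofPred_eq, q0_two] at hu
        have h4 : q0 l 1 = q0 l gi := by
          rcases hl.2.2.2 with h | h
          · simp [q0, pat, h] at h3
          · simp [q0, pat, h, gi]; norm_num
        have h5 := item5 L K' K0 hC h4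
        rw [two, hκ, hκ, L.ee_pp hμ, L.ee_pp hμ, h4, add_sub_add_right_eq_sub,
          sub_sub_sub_cancel_right]
        refine h5.trans ?_
        nlinarith [mul_nonneg hm hd2.le, mul_nonneg hC.le (mul_nonneg hm hd2.le)]
      · exact absurd (by simp [q0, pat, Int.odd_iff, h1, h2]) hu

end Pool.Agent.P.MP_cc4a10_gt
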