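import Pool.Agent.P.MP_cc4a10_gt.ShpA

/-!
Package Shp: sharp bounds on a good level.
-/

open Set Filter Topology Complex Metric
open scoped ComplexConjugate Real

noncomputable section

namespace Pool.Agent.P.MP_cc4a10_gt

namespace ShpP

theorem radial {E : Ell} {l : Lv} {s : Ls} {u : GI} {A : ℝ} {z : ℂ}
    (hsep : ∀ u', u' ≠ u → dd l.m * (199 / 200) ≤ ‖pos l s u - pos l s u'‖)
    (hder : ∀ z ∈ Out (Nk l) (pos l s) 0, HasFDerivAt (ht E l s) (hl (psi E l s z)) z)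
    (hc : ContinuousAt (fun z => ht E l s z - qq l s u * Real.log ‖z - pos l s u‖) (pos l s u))
    (hR : ∀ z, ‖z - pos l s u‖ < dd l.m / 2 → ‖RR E l s u z‖ ≤ A)
    (h0 : 0 < ‖z - pos l s u‖) (h1 : ‖z - pos l s u‖ < dd l.m / 2) :
    |ht E l s z - qq l s u * Real.log ‖z - pos l s u‖ - ht E l s (pos l s u)|
      ≤ A * ‖z - pos l s u‖ := by
  have hd := dd_pos l.m
  set p := pos l s u with hp
  set q := qq l s u with hq
  have hzp : z - p ≠ 0 := norm_pos_iff.1 h0
  have hn : ∀ t : ℝ, 0 ≤ t → ‖p + t * (z - p) - p‖ = t * ‖z - p‖ := fun t ht => by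
    rw [add_sub_cancel_left, norm_mul, Complex.norm_real, Real.norm_of_nonneg ht]
  have hlt : ∀ t : ℝ, 0 ≤ t → t ≤ 1 → ‖p + t * (z - p) - p‖ < dd l.m / 2 := fun t h h' => by
    rw [hn t h]; nlinarith
  have hline : ∀ t : ℝ, HasDerivAt (fun t : ℝ => p + (t : ℂ) * (z - p)) (z - p) t := fun t => by
    have := ((Complex.ofRealCLM.hasDerivAt (x := t)).mul_const (z - p)).const_add p
    simpa using this
  have hφ : ∀ t : ℝ, 0 < t → t ≤ 1 → HasDerivAt
      (fun t : ℝ => ht E l s (p + t * (z - p)) - q * Real.log ‖p + t * (z - p) - p‖)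
      (RR E l s u (p + t * (z - p)) * (z - p)).re t := by
    intro t ht0 ht1
    have hout : p + t * (z - p) ∈ Out (Nk l) (pos l s) 0 := by
      intro u' _
      by_cases h : u' = u
      · rw [h, ← hp, hn t ht0.le]; positivity
      · have h2 := hsep u' h
        have h3 := hlt t ht0.le ht1
        have h4 := norm_sub_le (p + t * (z - p) - pos l s u') (p + t * (z - p) - p)
        rw [show p + t * (z - p) - pos l s u' - (p + t * (z - p) - p) = p - pos l s u' by ring]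
          at h4
        linarith
    have d1 := (hder _ hout).comp_hasDerivAt t (hline t)
    have d2 : HasDerivAt (fun t : ℝ => q * (Real.log t + Real.log ‖z - p‖)) (q * t⁻¹) t :=
      ((Real.hasDerivAt_log ht0.ne').add_const _).const_mul q
    have d3 := d1.sub d2
    have e : (RR E l s u (p + t * (z - p)) * (z - p)).re
        = (hl (psi E l s (p + t * (z - p)))) (z - p) - q * t⁻¹ := by
      have ht' : (t : ℂ) ≠ 0 := by exact_mod_cast ht0.ne'
      have e1 : RR E l s u (p + t * (z - p)) * (z - p)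
          = psi E l s (p + t * (z - p)) * (z - p) - ((q * t⁻¹ : ℝ) : ℂ) := by
        unfold RR
        rw [← hp, ← hq, add_sub_cancel_left]
        push_cast
        field_simp
      rw [e1, Complex.sub_re, Complex.ofReal_re]
      simp [hl]
    rw [e]
    refine d3.congr_of_eventuallyEq ?_
    filter_upwards [Ioi_mem_nhds ht0] with x hx
    have hx0 : 0 < x := hx
    simp only [Pi.sub_apply, Function.comp_def]
    rw [hn x hx0.le, Real.log_mul hx0.ne' h0.ne']
  have hcont : ContinuousOn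
      (fun t : ℝ => ht E l s (p + t * (z - p)) - q * Real.log ‖p + t * (z - p) - p‖)
      (Icc 0 1) := by
    intro t htI
    rcases htI.1.eq_or_lt with h | h
    · subst h
      have h2 : ContinuousAt (fun z => ht E l s z - q * Real.log ‖z - p‖)
          (p + ((0 : ℝ) : ℂ) * (z - p)) := by simpa using hc
      exact (ContinuousAt.comp (f := fun t : ℝ => p + (t : ℂ) * (z - p)) h2
        (hline 0).continuousAt).continuousWithinAt
    · exact (hφ t h htI.2).continuousAt.continuousWithinAt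
  obtain ⟨c, hc1, hc2⟩ := exists_hasDerivAt_eq_slope _ _ (zero_lt_one' ℝ) hcont
    (fun t ht => hφ t ht.1 ht.2.le)
  simp only [Complex.ofReal_one, one_mul, Complex.ofReal_zero, zero_mul, sub_zero, div_one,
    add_sub_cancel, add_zero, sub_self, norm_zero, Real.log_zero, mul_zero] at hc2
  rw [← hc2]
  refine (Complex.abs_re_le_norm _).trans ?_
  rw [norm_mul]
  gcongr
  exact hR _ (hlt c hc1.1.le hc1.2.le)

theorem htOut (hB : S_Box) (hS : S_Sum) (hD : S_Dn) (hK : S_Ker0) (hP : S_Dip) (hF : S_Ref)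
    (hL : S_Lev) (E : Ell) : ∃ (C : ℝ) (m0 : ℕ), 0 < C ∧ ∀ (l : Lv) (s : Ls) (b : ℝ),
    LG l s b → m0 ≤ l.m → ∃ κ : ℝ, ∀ z ∈ Out (Nk l) (pos l s) (dd l.m / 5),
      |ht E l s z - κ| ≤ C * dd l.m ^ 2 := by
  obtain ⟨K, hK0, hker⟩ := kerEst hK E
  obtain ⟨CS, hCS, hS⟩ := hS
  obtain ⟨CF, hCF, hF⟩ := hF E
  obtain ⟨CL, m2, hCL, hL⟩ := hL E
  obtain ⟨m3, h3⟩ := exists_pow_mul_tt_le 0 (η := 1 / 100) (by norm_num)
  obtain ⟨m4, h4⟩ := exists_pow_mul_tt_le 2 (η := 1) (by norm_num)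
  refine ⟨CF + 3 * (10000 * K * CL * CS + 275 * K * (1 + CS)), max m2 (max m3 m4),
    by positivity, fun l s b hG hm => ?_⟩
  have hm2 : m2 ≤ l.m := (le_max_left _ _).trans hm
  have hm3 : m3 ≤ l.m := (le_max_left _ _).trans ((le_max_right _ _).trans hm)
  have hm4 : m4 ≤ l.m := (le_max_right _ _).trans ((le_max_right _ _).trans hm)
  have ht0 := tt_pos l.m
  have ht1 := tt_le_one l.m
  have hd := dd_pos l.m
  have htt : tt l.m ≤ 1 / 100 := by simpa using h3 l.m hm3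
  have hm : (2 : ℝ) ≤ l.m := by exact_mod_cast hG.ok.1
  have hpow : ∀ k : ℕ, k ≠ 0 → tt l.m ^ k ≤ 1 / 100 := fun k hk =>
    (pow_le_of_le_one ht0.le ht1 hk).trans htt
  have hμ : ‖s.μ‖ ≤ 1 / 100 := hG.mu.trans (hpow 30 (by norm_num))
  have hd1 : dd l.m ≤ 1 / 100 := by rw [← tt_pow_16]; exact hpow 16 (by norm_num)
  obtain ⟨l1, -, -, l2, l3, -⟩ := hL l s b hG hm2
  obtain ⟨κ, κ1, κ2, -, r2, -⟩ := hF l s.μ hG.ok hμ
  refine ⟨κ, fun z hz => ?_⟩
  obtain ⟨u0, hu0⟩ := l3 z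
  set B := 3 * tt l.m ^ 20 with hBdef
  have hB0 : 0 < B := by positivity
  have hbB : b ^ 2 ≤ B ^ 2 := pow_le_pow_left₀ hG.b0 hG.bs 2
  have hnb := hG.nb.trans hbB
  unfold nb2 at hnb
  have n1 : 0 ≤ g2 l.m s.ε / dd l.m ^ 2 := div_nonneg (g2_nonneg _ _) (by positivity)
  have n2 : 0 ≤ (l.m : ℝ) * msq l.m (fun u => (s.σ u : ℂ)) :=
    mul_nonneg (by positivity) (msq_nonneg _ _)
  have n3 := sq_nonneg (dn l.m (fun u => q0 l u * s.σ u / dd l.m ^ 2))
  have hge : g2 l.m s.ε ≤ dd l.m ^ 2 * B ^ 2 := by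
    have : g2 l.m s.ε / dd l.m ^ 2 ≤ B ^ 2 := by linarith
    rwa [div_le_iff₀ (by positivity), mul_comm] at this
  have hdn : dn l.m (fun u => q0 l u * s.σ u / dd l.m ^ 2) ≤ B :=
    le_of_sq_le_sq (by linarith) hB0.le
  have he : ∀ u, ‖s.ε u‖ ≤ dd l.m / 1000 := fun u => by
    refine (l1 u).2.1.trans ?_
    unfold rho
    gcongr
    exact div_le_self hd.le (by linarith)
  have c : Ctx E l s z u0 K CS (CL * l.m * B) B :=
    ⟨hB, hP, hG.ok, hker, hK0, hCS, hB0, hμ, hd1, hG.lv.pe,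
      fun u => ⟨(l1 u).1.trans (by gcongr; exact hG.bs), he u⟩, l2,
      (hS l.m (by have := hG.ok.1; omega)).2.1, hge, hz, hu0⟩
  have pA := c.partA
  have pB := c.partB hD hG.lv.ps hG.lv.neu hdn
  have hz' : z ∈ Out (Nk l) (fun u => Lm s.μ (l.c * u)) (dd l.m / 10) := by
    intro u hu
    have h5 := hz u hu
    have h6 := norm_sub_le (z - Lm s.μ (l.c * u)) (s.ε u)
    rw [sub_sub] at h6
    have h7 := he u
    unfold pos at h5
    linarith
  have pR := (r2 z hz').2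
  have e : ht E l s z = ts l.m (fun w => q0 l w * Ps E l s z w)
      + ts l.m (fun w => q0 l w * s.σ w * E.Gr s.μ (z - pos l s w)) + ht E l ⟨s.μ, 0, 0⟩ z := by
    unfold ht
    rw [← ts_add, ← ts_add]
    congr 1
    funext w
    simp only [Ps, qq, pos, Pi.zero_apply, add_zero]
    ring
  have hBm : B * (l.m : ℝ) ^ 2 ≤ 3 * dd l.m := by
    have h5 := h4 l.m hm4
    have h6 : tt l.m ^ 3 ≤ 1 := pow_le_one₀ ht0.le ht1
    rw [hBdef, ← tt_pow_16]
    calc 3 * tt l.m ^ 20 * (l.m : ℝ) ^ 2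
        = 3 * tt l.m ^ 16 * (tt l.m ^ 3 * ((l.m : ℝ) ^ 2 * tt l.m)) := by ring
      _ ≤ 3 * tt l.m ^ 16 * (1 * 1) := by gcongr
      _ = _ := by ring
  have hB1 : B * (l.m : ℝ) ≤ 3 * dd l.m := by nlinarith
  have hB2 : B ≤ 3 * dd l.m := by nlinarith
  have a1 : (5000 * K * (CL * l.m * B) * dd l.m) * (CS * l.m)
      ≤ 5000 * K * CL * CS * dd l.m * (3 * dd l.m) := by
    calc _ = 5000 * K * CL * CS * dd l.m * (B * (l.m : ℝ) ^ 2) := by ring
      _ ≤ _ := by gcongr
  have a2 : (100 * K * dd l.m) * (B * (1 + CS * l.m))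
      ≤ 100 * K * dd l.m * (3 * dd l.m + CS * (3 * dd l.m)) := by
    calc _ = 100 * K * dd l.m * (B + CS * (B * l.m)) := by ring
      _ ≤ _ := by gcongr
  have a3 : B * (dd l.m * (75 * K * (1 + CS) * l.m))
      ≤ 75 * K * (1 + CS) * dd l.m * (3 * dd l.m) := by
    calc _ = 75 * K * (1 + CS) * dd l.m * (B * l.m) := by ring
      _ ≤ _ := by gcongr
  rw [e, abs_le]
  rw [abs_le] at pA pB pR
  constructor <;> nlinarith [pA.1, pA.2, pB.1, pB.2, pR.1, pR.2]

end ShpP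

open ShpP in
theorem pShp (hR : S_ShpR) (hB : S_Box) (hS : S_Sum) (hD : S_Dn) (hK : S_Ker0) (hP : S_Dip)
    (hF : S_Ref) (hL : S_Lev) : S_Shp := by
  intro E
  obtain ⟨C2, m1, hC2, h2⟩ := htOut hB hS hD hK hP hF hL E
  obtain ⟨CR, m2, hCR, hR⟩ := hR E
  obtain ⟨CL, m3, -, hL⟩ := hL E
  refine ⟨C2 + 2 * CR + 45, max m1 (max m2 m3), by positivity, fun l s b hG hm => ?_⟩
  have hm1 : m1 ≤ l.m := (le_max_left _ _).trans hm
  have hm2 : m2 ≤ l.m := (le_max_left _ _).trans ((le_max_right _ _).trans hm)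
  have hm3 : m3 ≤ l.m := (le_max_right _ _).trans ((le_max_right _ _).trans hm)
  obtain ⟨κ, hκ⟩ := h2 l s b hG hm1
  obtain ⟨r1, r2⟩ := hR l s b hG hm2
  obtain ⟨l1, -, -, l2, -, -, -, -, l3, l4⟩ := hL l s b hG hm3
  obtain ⟨-, -, -, -, -, -, hq0, hc, -⟩ := hP l hG.ok
  have hd := dd_pos l.m
  have hm : (2 : ℝ) ≤ l.m := by exact_mod_cast hG.ok.1
  have hd2 : 0 < dd l.m ^ 2 := by positivity
  have hq : ∀ u, |qq l s u| ≤ 5 * dd l.m ^ 2 := fun u => by
    unfold qq
    rw [abs_mul]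
    have h1 : |1 + s.σ u| ≤ 1 + 1 / 1000 := by
      have := abs_add_le 1 (s.σ u)
      rw [abs_one] at this
      linarith [(l1 u).2.2.2]
    calc _ ≤ (4 * dd l.m ^ 2) * (1 + 1 / 1000) := by gcongr; exact hq0 u
      _ ≤ _ := by linarith
  have hsep : ∀ u u', u' ≠ u → dd l.m * (199 / 200) ≤ ‖pos l s u - pos l s u'‖ := by
    intro u u' h
    have h1 := l2 u u'
    have h3 := abs_norm_sub_norm_le (pos l s u - pos l s u') (l.c * ((u - u' : GI) : ℂ))
    rw [norm_mul, hc, abs_le] at h3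
    have h4 := one_le_norm_coe (sub_ne_zero.2 h.symm)
    nlinarith [h3.1]
  have rad : ∀ u ∈ Nk l, ∀ z, 0 < ‖z - pos l s u‖ → ‖z - pos l s u‖ < dd l.m / 2 →
      |ht E l s z - qq l s u * Real.log ‖z - pos l s u‖ - ht E l s (pos l s u)|
        ≤ CR * dd l.m ^ 2 := by
    intro u hu z h0 h1
    refine (radial (hsep u) (fun z hz => (l3 z hz).2) (l4 u hu).2 (r1 u hu) h0 h1).trans ?_
    calc CR * dd l.m * ‖z - pos l s u‖ ≤ CR * dd l.m * dd l.m := by gcongr; linarith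
      _ = _ := by ring
  have i3 : ∀ u ∈ Nk l, |ht E l s (pos l s u) + qq l s u * Real.log (dd l.m) - κ|
      ≤ (C2 + CR + 20) * dd l.m ^ 2 := by
    intro u hu
    have hn : ‖pos l s u + ((dd l.m / 4 : ℝ) : ℂ) - pos l s u‖ = dd l.m / 4 := by
      rw [add_sub_cancel_left, Complex.norm_real, Real.norm_of_nonneg (by positivity)]
    have hz : pos l s u + ((dd l.m / 4 : ℝ) : ℂ) ∈ Out (Nk l) (pos l s) (dd l.m / 5) := by
      intro u' _
      by_cases h : u' = u
      · rw [h, hn]; linarith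
      · have h1 := hsep u u' h
        have h4 := norm_sub_le (pos l s u + ((dd l.m / 4 : ℝ) : ℂ) - pos l s u')
          (pos l s u + ((dd l.m / 4 : ℝ) : ℂ) - pos l s u)
        rw [hn, show pos l s u + ((dd l.m / 4 : ℝ) : ℂ) - pos l s u'
          - (pos l s u + ((dd l.m / 4 : ℝ) : ℂ) - pos l s u) = pos l s u - pos l s u' by ring] at h4
        linarith
    have h1 := hκ _ hz
    have h3 := rad u hu _ (by rw [hn]; positivity) (by rw [hn]; linarith)
    rw [hn, Real.log_div hd.ne' (by norm_num)] at h3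
    have h4 : |qq l s u * Real.log 4| ≤ 20 * dd l.m ^ 2 := by
      rw [abs_mul]
      have h5 : |Real.log 4| ≤ 4 := by
        rw [abs_of_nonneg (Real.log_nonneg (by norm_num))]
        exact Real.log_le_self (by norm_num)
      calc _ ≤ (5 * dd l.m ^ 2) * 4 := by gcongr; exact hq u
        _ = _ := by ring
    rw [abs_le] at h1 h3 h4 ⊢
    constructor <;> nlinarith [h1.1, h1.2, h3.1, h3.2, h4.1, h4.2]
  have hs1 : 1 ≤ √(l.m : ℝ) := Real.one_le_sqrt.2 (by linarith)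
  refine ⟨κ, fun u hu z hz => (r1 u hu z hz).trans (by gcongr; linarith), fun z hz =>
    ⟨(r2 z hz).trans (by gcongr; linarith), (hκ z hz).trans (by gcongr; linarith)⟩,
    fun u hu => (i3 u hu).trans (mul_le_mul_of_nonneg_right (by linarith) hd2.le),
    fun z hz => ?_⟩
  by_cases hz' : z ∈ Out (Nk l) (pos l s) (dd l.m / 5)
  · refine (hκ z hz').trans ?_
    calc C2 * dd l.m ^ 2 ≤ (C2 + 2 * CR + 45) * dd l.m ^ 2 * 1 := by
          rw [mul_one]; gcongr; linarith
      _ ≤ _ := by gcongr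
  · simp only [Out, mem_ofPred_eq, not_forall, not_lt] at hz'
    obtain ⟨u, hu, h1⟩ := hz'
    have h3 : rho l.m / 5 < ‖z - pos l s u‖ := hz u hu
    unfold rho at h3
    have h0 : 0 < ‖z - pos l s u‖ := lt_trans (by positivity) h3
    have h4 := rad u hu z h0 (by linarith)
    have h5 := i3 u hu
    have h6 : |Real.log ‖z - pos l s u‖ - Real.log (dd l.m)| ≤ 5 * √(l.m : ℝ) := by
      have a1 : Real.log ‖z - pos l s u‖ ≤ Real.log (dd l.m) := Real.log_le_log h0 (by linarith)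
      rw [abs_sub_comm, abs_of_nonneg (by linarith), ← Real.log_div hd.ne' h0.ne']
      have a2 : dd l.m / ‖z - pos l s u‖ ≤ (5 / 2 * √(l.m : ℝ)) ^ 2 := by
        rw [mul_pow, Real.sq_sqrt (by linarith), div_le_iff₀ h0]
        rw [div_div, div_lt_iff₀ (by positivity)] at h3
        nlinarith
      have a3 := Real.log_le_log (by positivity) a2
      rw [Real.log_pow] at a3
      have a4 := Real.log_le_self (show 0 ≤ 5 / 2 * √(l.m : ℝ) by positivity)
      push_cast at a3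
      linarith
    have h7 : |qq l s u * (Real.log ‖z - pos l s u‖ - Real.log (dd l.m))|
        ≤ 25 * (dd l.m ^ 2 * √(l.m : ℝ)) := by
      rw [abs_mul]
      calc _ ≤ (5 * dd l.m ^ 2) * (5 * √(l.m : ℝ)) :=
            mul_le_mul (hq u) h6 (abs_nonneg _) (by positivity)
        _ = _ := by ring
    have h8 : (C2 + 2 * CR + 20) * dd l.m ^ 2 ≤ (C2 + 2 * CR + 20) * (dd l.m ^ 2 * √(l.m : ℝ)) := by
      gcongr
      exact le_mul_of_one_le_right hd2.le hs1
    rw [abs_le] at h4 h5 h7 ⊢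
    constructor <;> nlinarith [h4.1, h4.2, h5.1, h5.2, h7.1, h7.2]

end Pool.Agent.P.MP_cc4a10_gt
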