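import Pool.Agent.P.MP_cc4a10_gt.St

/-!
Package ShpR: sup bounds for the regular part of the field and for the field on a good level.
-/

open Set Filter Topology Complex Metric
open scoped ComplexConjugate Real

noncomputable section

namespace Pool.Agent.P.MP_cc4a10_gt.ShpRP

theorem Lm_add (μ a b : ℂ) : Lm μ (a + b) = Lm μ a + Lm μ b := by
  simp only [Lm, map_add]; ring

theorem Lm_sub (μ a b : ℂ) : Lm μ (a - b) = Lm μ a - Lm μ b := by
  simp only [Lm, map_sub]; ring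

theorem Lm_low {μ : ℂ} (h : ‖μ‖ ≤ 1 / 100) (y : ℂ) : ‖y‖ * (99 / 100) ≤ ‖Lm μ y‖ := by
  have h1 : ‖y‖ ≤ ‖Lm μ y‖ + ‖μ * conj y‖ := by
    have : y = Lm μ y - μ * conj y := by simp [Lm]
    conv_lhs => rw [this]
    exact norm_sub_le _ _
  rw [norm_mul, Complex.norm_conj] at h1
  have h2 : ‖μ‖ * ‖y‖ ≤ 1 / 100 * ‖y‖ := by gcongr
  linarith

theorem bE_le {μ : ℂ} (h : ‖μ‖ ≤ 1 / 100) : |bE μ| ≤ 4 := by
  have h0 := norm_nonneg μ
  have h1 : ‖μ‖ ^ 2 ≤ 1 / 100 := by nlinarith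
  have hp := Real.pi_pos
  have hp2 := Real.pi_lt_d2
  have h2 : 0 < 1 - ‖μ‖ ^ 2 := by linarith
  unfold bE
  rw [abs_of_pos (by positivity), div_le_iff₀ h2]
  linarith

theorem one_le_norm {x : GI} (h : x ≠ 0) : 1 ≤ ‖(x : ℂ)‖ := by
  have h1 : (x.norm : ℝ) = normSq (x : ℂ) := GaussianInt.intCast_real_norm x
  have h2 : 0 < x.norm := GaussianInt.norm_pos.2 h
  have h3 : (1 : ℝ) ≤ x.norm := by exact_mod_cast h2
  rw [h1, Complex.normSq_eq_norm_sq] at h3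
  nlinarith [norm_nonneg (x : ℂ)]

theorem ker (h : S_Ker0) (E : Ell) : ∃ C : ℝ, 0 < C ∧ ∀ μ : ℂ, ‖μ‖ ≤ 1 / 100 →
    (∀ y : ℂ, ‖y‖ < 9 / 10 → ‖E.Z μ y - y⁻¹‖ ≤ C) ∧
    ∀ (y e : ℂ) (r : ℝ), 0 < r → (∀ v : GI, r ≤ ‖y - Lm μ v‖) → ‖e‖ ≤ r / 2 → ‖e‖ ≤ 1 / 10 →
      ‖E.Z μ (y + e)‖ ≤ C / r ∧ ‖E.Z μ (y + e) - E.Z μ y‖ ≤ C * ‖e‖ / r ^ 2 := by
  obtain ⟨C, hC, H⟩ := h E
  refine ⟨C + 6, by linarith, fun μ hμ => ?_⟩
  obtain ⟨hD, -, hred, -⟩ := H μ hμ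
  have hb := bE_le hμ
  have hreg : ∀ y : ℂ, ‖y‖ < 9 / 10 → ‖E.Z μ y - y⁻¹‖ ≤ C + 4 := by
    intro y hy
    have e1 : E.Z μ y - y⁻¹ = deriv (E.F μ) y - bE μ * conj y := by
      rw [E.Zloc μ hμ y hy]; ring
    have h1 := (hD 1 (by norm_num) y hy.le).1
    rw [iteratedDeriv_one] at h1
    have h2 : ‖(bE μ : ℂ) * conj y‖ ≤ 4 := by
      rw [norm_mul, Complex.norm_conj, Complex.norm_real, Real.norm_eq_abs]
      nlinarith [norm_nonneg y, abs_nonneg (bE μ)]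
    rw [e1]
    exact (norm_sub_le _ _).trans (add_le_add h1 h2)
  refine ⟨fun y hy => (hreg y hy).trans (by linarith), fun y e r hr hy he he' => ?_⟩
  obtain ⟨v, hv⟩ := hred y
  obtain ⟨w, hw⟩ : ∃ w, w = y - Lm μ v := ⟨_, rfl⟩
  have hrw : r ≤ ‖w‖ := hw ▸ hy v
  rw [← hw] at hv
  have e1 : E.Z μ y = E.Z μ w := by
    rw [← E.Zper μ hμ w v, hw]; congr 1; ring
  have e2 : E.Z μ (y + e) = E.Z μ (w + e) := by
    rw [← E.Zper μ hμ (w + e) v, hw]; congr 1; ring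
  have hwe : r / 2 ≤ ‖w + e‖ := by
    have : ‖w‖ ≤ ‖w + e‖ + ‖e‖ := by
      conv_lhs => rw [show w = (w + e) - e by ring]
      exact norm_sub_le _ _
    linarith
  have hwe' : ‖w + e‖ < 9 / 10 := by
    have := norm_add_le w e
    linarith
  have hr1 : r ≤ 1 := by linarith
  have hw0 : w ≠ 0 := norm_pos_iff.1 (by linarith)
  have hwe0 : w + e ≠ 0 := norm_pos_iff.1 (by linarith)
  rw [e1, e2]
  constructor
  · have h1 := hreg _ hwe'
    have h2 : ‖(w + e)⁻¹‖ ≤ 2 / r := by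
      rw [norm_inv, inv_le_comm₀ (by linarith) (by positivity), inv_div]
      exact hwe
    have h3 : ‖E.Z μ (w + e)‖ ≤ ‖E.Z μ (w + e) - (w + e)⁻¹‖ + ‖(w + e)⁻¹‖ := by
      conv_lhs => rw [show E.Z μ (w + e) = (E.Z μ (w + e) - (w + e)⁻¹) + (w + e)⁻¹ by ring]
      exact norm_add_le _ _
    have h4 : C + 4 ≤ (C + 4) / r := by
      rw [le_div_iff₀ hr]; nlinarith
    have h5 : (C + 6) / r = (C + 4) / r + 2 / r := by ring
    linarith
  · have e3 : E.Z μ (w + e) - E.Z μ w = -e / (w * (w + e))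
        + (deriv (E.F μ) (w + e) - deriv (E.F μ) w) - bE μ * conj e := by
      rw [E.Zloc μ hμ _ hwe', E.Zloc μ hμ w (by linarith), map_add]
      field_simp
      ring
    have h1 : ‖-e / (w * (w + e))‖ ≤ 2 * ‖e‖ / r ^ 2 := by
      rw [norm_div, norm_neg, norm_mul, div_le_div_iff₀ (by positivity) (by positivity)]
      have : r * (r / 2) ≤ ‖w‖ * ‖w + e‖ := by gcongr
      nlinarith [norm_nonneg e]
    have hd : DifferentiableOn ℂ (deriv (E.F μ)) (ball 0 (19 / 20)) :=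
      (E.hol μ hμ).deriv isOpen_ball
    have h2 : ‖deriv (E.F μ) (w + e) - deriv (E.F μ) w‖ ≤ C * ‖(w + e) - w‖ := by
      refine Convex.norm_image_sub_le_of_norm_deriv_le (s := closedBall (0 : ℂ) (9 / 10))
        (fun x hx => ?_) (fun x hx => ?_) (convex_closedBall _ _) ?_ ?_
      · refine hd.differentiableAt (isOpen_ball.mem_nhds ?_)
        rw [mem_closedBall_zero_iff] at hx
        rw [mem_ball_zero_iff]; linarith
      · rw [mem_closedBall_zero_iff] at hx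
        have := (hD 2 (by norm_num) x hx).1
        rwa [iteratedDeriv_succ, iteratedDeriv_one] at this
      · rw [mem_closedBall_zero_iff]; linarith
      · rw [mem_closedBall_zero_iff]; linarith
    rw [add_sub_cancel_left] at h2
    have h3 : ‖(bE μ : ℂ) * conj e‖ ≤ 4 * ‖e‖ := by
      rw [norm_mul, Complex.norm_conj, Complex.norm_real, Real.norm_eq_abs]
      gcongr
    have h4 : (C + 4) * ‖e‖ ≤ (C + 4) * ‖e‖ / r ^ 2 := by
      rw [le_div_iff₀ (by positivity)]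
      have : r ^ 2 ≤ 1 := by nlinarith
      have h0 : 0 ≤ (C + 4) * ‖e‖ := by positivity
      nlinarith
    have h5 : (C + 6) * ‖e‖ / r ^ 2 = 2 * ‖e‖ / r ^ 2 + (C + 4) * ‖e‖ / r ^ 2 := by ring
    rw [e3]
    have h6 := norm_sub_le (-e / (w * (w + e)) + (deriv (E.F μ) (w + e) - deriv (E.F μ) w))
      ((bE μ : ℂ) * conj e)
    have h7 := norm_add_le (-e / (w * (w + e))) (deriv (E.F μ) (w + e) - deriv (E.F μ) w)
    linarith

/-- A lattice vector is a period of the cells. -/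
theorem lat {l : Lv} (hu : ∃ w0 : GI, l.c * ((om ^ l.m : GI) : ℂ) = w0 ∧ IsUnit w0) (v : GI) :
    ∃ v' : GI, (v : ℂ) = l.c * ((om ^ l.m * v' : GI) : ℂ) := by
  obtain ⟨w0, h0, u, rfl⟩ := hu
  refine ⟨(↑u⁻¹ : GI) * v, ?_⟩
  rw [map_mul, ← mul_assoc, h0, ← map_mul, ← mul_assoc, Units.mul_inv, one_mul]

theorem perF (E : Ell) {l : Lv} {s : Ls} (hμ : ‖s.μ‖ ≤ 1 / 100)
    (hu : ∃ w0 : GI, l.c * ((om ^ l.m : GI) : ℂ) = w0 ∧ IsUnit w0) (hq : Per l.m (q0 l))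
    (he : Per l.m s.ε) (hs : Per l.m s.σ) (z : ℂ) :
    Per l.m (fun w => (qq l s w : ℂ) * E.Z s.μ (z - pos l s w)) := by
  obtain ⟨w0, h0, -⟩ := hu
  intro u w
  simp only [qq, pos, hq u w, he u w, hs u w]
  congr 1
  rw [← E.Zper s.μ hμ _ (w0 * w)]
  congr 1
  rw [map_add, mul_add, Lm_add, map_mul, ← mul_assoc, h0, ← map_mul]
  ring

/-- Distance to the lattice for the far cells. -/
theorem far (hB : S_Box) {l : Lv} {μ : ℂ} (hμ : ‖μ‖ ≤ 1 / 100) (hc : ‖l.c‖ = dd l.m)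
    (hu : ∃ w0 : GI, l.c * ((om ^ l.m : GI) : ℂ) = w0 ∧ IsUnit w0) {z : ℂ} {u0 w : GI}
    (hz : ‖z - Lm μ (l.c * u0)‖ ≤ dd l.m * (73 / 100)) (hH : 2 ≤ Hh l.m (u0 - w)) (v : GI) :
    dd l.m * Hh l.m (u0 - w) / 20 ≤ ‖z - Lm μ (l.c * w) - Lm μ v‖ := by
  obtain ⟨v', hv'⟩ := lat hu v
  have h1 := ((hB l.m).1 (u0 - w)).2.2.1 (-v')
  have e1 : Lm μ (l.c * ((u0 - w + om ^ l.m * -v' : GI) : ℂ))
      = (z - Lm μ (l.c * w) - Lm μ v) - (z - Lm μ (l.c * u0)) := by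
    rw [hv', mul_neg, ← sub_eq_add_neg, map_sub, map_sub, mul_sub, mul_sub, Lm_sub, Lm_sub]
    ring
  have h2 := Lm_low hμ (l.c * ((u0 - w + om ^ l.m * -v' : GI) : ℂ))
  rw [e1, norm_mul, hc] at h2
  have h3 := norm_sub_le (z - Lm μ (l.c * w) - Lm μ v) (z - Lm μ (l.c * u0))
  have hd := dd_pos l.m
  have h4 : dd l.m * ‖((mr l.m (u0 - w) : GI) : ℂ)‖
      ≤ dd l.m * ‖((u0 - w + om ^ l.m * -v' : GI) : ℂ)‖ := by gcongr
  have h5 : dd l.m * 2 ≤ dd l.m * Hh l.m (u0 - w) := by gcongr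
  unfold Hh at h5 ⊢
  linarith

theorem sum2 (hB : S_Box) {m : ℕ} {C : ℝ} (h : ts m (fun u => 1 / Hh m u ^ 2) ≤ C * m) (u0 : GI) :
    ts m (fun w => 1 / Hh m (u0 - w) ^ 2) ≤ C * m := by
  have hp : Per m (fun u => 1 / Hh m u ^ 2) := fun u w => by simp only [(hB m).2.2.1 u w]
  rw [ts_sub_left hp u0]; exact h

theorem sum1 (hB : S_Box) {m : ℕ} {C b : ℝ} (hC : 0 < C) (hm : 1 ≤ m) (hb : 0 ≤ b)
    (h : ts m (fun u => 1 / Hh m u ^ 2) ≤ C * m) (u0 : GI) (σ : GI → ℝ)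
    (hσ : m * msq m (fun u => (σ u : ℂ)) ≤ b ^ 2) :
    dd m * ts m (fun w => |σ w| / Hh m (u0 - w)) ≤ √C * b := by
  have hd := dd_pos m
  have hm' : (1 : ℝ) ≤ m := by exact_mod_cast hm
  have hH : ∀ u, 0 < Hh m u := fun u => by have := ((hB m).2.2.2.2.1 u).1; linarith
  have h1 := av_mul_le m (fun u => (σ u : ℂ)) (fun w => ((1 / Hh m (u0 - w) : ℝ) : ℂ))
  have e1 : (fun u => ‖(σ u : ℂ)‖ * ‖((1 / Hh m (u0 - u) : ℝ) : ℂ)‖)
      = fun w => |σ w| / Hh m (u0 - w) := by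
    funext w
    rw [Complex.norm_real, Complex.norm_real, Real.norm_eq_abs, Real.norm_eq_abs,
      abs_of_pos (one_div_pos.2 (hH _))]
    ring
  have e2 : msq m (fun w => ((1 / Hh m (u0 - w) : ℝ) : ℂ))
      = dd m ^ 2 * ts m (fun w => 1 / Hh m (u0 - w) ^ 2) := by
    unfold msq av
    rw [dd_sq, smul_eq_mul]
    congr 2
    funext w
    rw [Complex.norm_real, Real.norm_eq_abs, sq_abs]; ring
  rw [e1, e2] at h1
  have h2 := sum2 hB h u0
  have h3 : √(msq m (fun u => (σ u : ℂ))) * √(dd m ^ 2 * ts m (fun w => 1 / Hh m (u0 - w) ^ 2))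
      ≤ dd m * (√C * b) := by
    rw [← Real.sqrt_mul (msq_nonneg _ _)]
    apply Real.sqrt_le_iff.2 ⟨by positivity, ?_⟩
    have h4 := msq_nonneg m (fun u => (σ u : ℂ))
    calc msq m (fun u => (σ u : ℂ)) * (dd m ^ 2 * ts m (fun w => 1 / Hh m (u0 - w) ^ 2))
        ≤ msq m (fun u => (σ u : ℂ)) * (dd m ^ 2 * (C * m)) := by gcongr
      _ = dd m ^ 2 * C * (m * msq m (fun u => (σ u : ℂ))) := by ring
      _ ≤ dd m ^ 2 * C * b ^ 2 := by gcongr
      _ = (dd m * (√C * b)) ^ 2 := by rw [mul_pow, mul_pow, Real.sq_sqrt hC.le]; ring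
  have h5 := h1.trans h3
  unfold av at h5
  rw [← dd_sq, smul_eq_mul] at h5
  have e3 : dd m ^ 2 * ts m (fun w => |σ w| / Hh m (u0 - w))
      = dd m * (dd m * ts m (fun w => |σ w| / Hh m (u0 - w))) := by ring
  rw [e3] at h5
  exact le_of_mul_le_mul_left h5 hd

/-- One term of the comparison with the unperturbed level. -/
theorem term {Z : ℂ → ℂ} {CK d H a q σ : ℝ} {y e : ℂ} (hd : 0 < d) (hH : 1 ≤ H) (hCK : 0 < CK)
    (hq : |q| ≤ 4 * d ^ 2) (he : ‖e‖ ≤ a)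
    (h1 : ‖Z (y + e)‖ ≤ CK / (d * H / 20))
    (h2 : ‖Z (y + e) - Z y‖ ≤ CK * ‖e‖ / (d * H / 20) ^ 2) :
    ‖((q * (1 + σ) : ℝ) : ℂ) * Z (y + e) - ((q * (1 + 0) : ℝ) : ℂ) * Z y‖
      ≤ 1600 * CK * a * (1 / H ^ 2) + 80 * CK * d * (|σ| / H) := by
  have e1 : ((q * (1 + σ) : ℝ) : ℂ) * Z (y + e) - ((q * (1 + 0) : ℝ) : ℂ) * Z y
      = (q : ℂ) * (Z (y + e) - Z y) + (q : ℂ) * ((σ : ℂ) * Z (y + e)) := by
    push_cast; ring
  have hH0 : 0 < H := by linarith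
  have ha : 0 ≤ a := (norm_nonneg _).trans he
  rw [e1]
  refine (norm_add_le _ _).trans (add_le_add ?_ ?_)
  · rw [norm_mul, Complex.norm_real, Real.norm_eq_abs]
    calc |q| * ‖Z (y + e) - Z y‖ ≤ (4 * d ^ 2) * (CK * a / (d * H / 20) ^ 2) := by
          gcongr
          refine h2.trans ?_
          gcongr
      _ = 1600 * CK * a * (1 / H ^ 2) := by field_simp; ring
  · rw [norm_mul, norm_mul, Complex.norm_real, Complex.norm_real, Real.norm_eq_abs,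
      Real.norm_eq_abs]
    calc |q| * (|σ| * ‖Z (y + e)‖) ≤ (4 * d ^ 2) * (|σ| * (CK / (d * H / 20))) := by gcongr
      _ = 80 * CK * d * (|σ| / H) := by field_simp; ring

open Classical in
theorem diff (hB : S_Box) (hS : S_Sum) (hK : S_Ker0) (hD : S_Dip) (hL : S_Lev) (E : Ell) :
    ∃ (C : ℝ) (m0 : ℕ), 0 < C ∧ ∀ (l : Lv) (s : Ls) (b : ℝ), LG l s b → m0 ≤ l.m →
      ‖s.μ‖ ≤ 1 / 100 ∧ dd l.m ≤ 1 / 100 ∧ ∀ (z : ℂ) (u0 : GI) (P : GI → Prop),
      (∀ w, P w → q0 l w ≠ 0 → ∀ v : GI,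
        dd l.m * Hh l.m (u0 - w) / 20 ≤ ‖z - Lm s.μ (l.c * w) - Lm s.μ v‖) →
      ‖ts l.m (fun w => if P w then (qq l s w : ℂ) * E.Z s.μ (z - pos l s w) else 0)
        - ts l.m (fun w => if P w then (qq l ⟨s.μ, 0, 0⟩ w : ℂ)
          * E.Z s.μ (z - pos l ⟨s.μ, 0, 0⟩ w) else 0)‖ ≤ C * dd l.m := by
  obtain ⟨CK, hCK, HK⟩ := ker hK E
  obtain ⟨CS, hCS, HS⟩ := hS
  obtain ⟨CL, mL, hCL, HL⟩ := hL E
  obtain ⟨m1, h1⟩ := exists_pow_mul_tt_le 2 (η := 1) one_pos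
  obtain ⟨m2, h2⟩ := exists_pow_mul_tt_le 0 (η := 1 / 100) (by norm_num)
  refine ⟨1600 * CK * CL * CS * 3 + 80 * CK * √CS * 3, max mL (max m1 m2), by positivity,
    fun l s b hG hm => ?_⟩
  have hmL : mL ≤ l.m := (le_max_left _ _).trans hm
  have hm1 := h1 l.m ((le_max_left _ _).trans ((le_max_right _ _).trans hm))
  have hm2 := h2 l.m ((le_max_right _ _).trans ((le_max_right _ _).trans hm))
  rw [pow_zero, one_mul] at hm2
  have ht := tt_pos l.m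
  have ht1 := tt_le_one l.m
  have hd := dd_pos l.m
  have hpow : ∀ k, k ≠ 0 → tt l.m ^ k ≤ tt l.m := fun k hk => pow_le_of_le_one ht.le ht1 hk
  have hμ : ‖s.μ‖ ≤ 1 / 100 := hG.mu.trans ((hpow 30 (by norm_num)).trans hm2)
  have hd1 : dd l.m ≤ 1 / 100 := by
    rw [← tt_pow_16]; exact (hpow 16 (by norm_num)).trans hm2
  refine ⟨hμ, hd1, fun z u0 P hP => ?_⟩
  have hm' : 1 ≤ l.m := le_trans (by norm_num) hG.ok.1
  have hmR : (1 : ℝ) ≤ l.m := by exact_mod_cast hm'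
  obtain ⟨Hε, -⟩ := HL l s b hG hmL
  obtain ⟨-, -, -, -, -, -, hq, -⟩ := hD l hG.ok
  have hH : ∀ u, 1 ≤ Hh l.m u := fun u => ((hB l.m).2.2.2.2.1 u).1
  have hb0 := hG.b0
  have hεd : ∀ w, ‖s.ε w‖ ≤ dd l.m / 1000 := fun w => by
    refine (Hε w).2.1.trans ?_
    unfold rho
    have : dd l.m / l.m ≤ dd l.m := div_le_self hd.le hmR
    linarith
  rw [← ts_sub]
  refine (norm_ts_le _ _).trans ?_
  have key : ∀ w, ‖(if P w then (qq l s w : ℂ) * E.Z s.μ (z - pos l s w) else 0)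
      - (if P w then (qq l ⟨s.μ, 0, 0⟩ w : ℂ) * E.Z s.μ (z - pos l ⟨s.μ, 0, 0⟩ w) else 0)‖
      ≤ 1600 * CK * (CL * l.m * b) * (1 / Hh l.m (u0 - w) ^ 2)
        + 80 * CK * dd l.m * (|s.σ w| / Hh l.m (u0 - w)) := by
    intro w
    have hHw := hH (u0 - w)
    have hpos : 0 ≤ 1600 * CK * (CL * l.m * b) * (1 / Hh l.m (u0 - w) ^ 2)
        + 80 * CK * dd l.m * (|s.σ w| / Hh l.m (u0 - w)) := by positivity
    by_cases hw : P w
    · by_cases hq0 : q0 l w = 0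
      · simpa [qq, hq0] using hpos
      · simp only [if_pos hw]
        have hdH : dd l.m * 1 ≤ dd l.m * Hh l.m (u0 - w) := by gcongr
        have hn : ‖-s.ε w‖ ≤ dd l.m / 1000 := by rw [norm_neg]; exact hεd w
        obtain ⟨k1, k2⟩ := (HK s.μ hμ).2 (z - Lm s.μ (l.c * w)) (-s.ε w)
          (dd l.m * Hh l.m (u0 - w) / 20) (by positivity) (hP w hw hq0) (by linarith)
          (by linarith)
        have := term (σ := s.σ w) (a := CL * l.m * b) hd hHw hCK (hq w)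
          (by rw [norm_neg]; exact (Hε w).1) k1 k2
        have e1 : z - pos l s w = z - Lm s.μ (l.c * w) + -s.ε w := by unfold pos; ring
        have e2 : z - pos l ⟨s.μ, 0, 0⟩ w = z - Lm s.μ (l.c * w) := by simp [pos]
        rw [e1, e2]
        exact this
    · simpa [if_neg hw] using hpos
  refine (ts_mono _ key).trans ?_
  rw [ts_add, ts_mul_left_real, ts_mul_left_real]
  have s2 := sum2 hB (HS l.m hm').2.1 u0
  have hσ : l.m * msq l.m (fun u => (s.σ u : ℂ)) ≤ b ^ 2 := by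
    have h3 := hG.nb
    unfold nb2 at h3
    have h4 : 0 ≤ g2 l.m s.ε / dd l.m ^ 2 := div_nonneg (g2_nonneg _ _) (by positivity)
    have h5 := sq_nonneg (dn l.m (fun u => q0 l u * s.σ u / dd l.m ^ 2))
    linarith
  have s1 := sum1 hB hCS hm' hb0 (HS l.m hm').2.1 u0 s.σ hσ
  have hb2 : (l.m : ℝ) ^ 2 * b ≤ 3 * dd l.m := by
    have h3 : tt l.m ^ 3 ≤ 1 := pow_le_one₀ ht.le ht1
    calc (l.m : ℝ) ^ 2 * b ≤ (l.m : ℝ) ^ 2 * (3 * tt l.m ^ 20) := by gcongr; exact hG.bs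
      _ = 3 * dd l.m * (((l.m : ℝ) ^ 2 * tt l.m) * tt l.m ^ 3) := by rw [← tt_pow_16]; ring
      _ ≤ 3 * dd l.m * (1 * 1) := by gcongr
      _ = 3 * dd l.m := by ring
  have hb1 : b ≤ 3 * dd l.m := by
    have : 1 * b ≤ (l.m : ℝ) ^ 2 * b := by gcongr; exact one_le_pow₀ hmR
    linarith
  have t1 : 1600 * CK * (CL * l.m * b) * ts l.m (fun w => 1 / Hh l.m (u0 - w) ^ 2)
      ≤ 1600 * CK * CL * CS * 3 * dd l.m :=
    calc 1600 * CK * (CL * l.m * b) * ts l.m (fun w => 1 / Hh l.m (u0 - w) ^ 2)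
        ≤ 1600 * CK * (CL * l.m * b) * (CS * l.m) := by gcongr
      _ = 1600 * CK * CL * CS * ((l.m : ℝ) ^ 2 * b) := by ring
      _ ≤ 1600 * CK * CL * CS * (3 * dd l.m) := by gcongr
      _ = _ := by ring
  have t2 : 80 * CK * dd l.m * ts l.m (fun w => |s.σ w| / Hh l.m (u0 - w))
      ≤ 80 * CK * √CS * 3 * dd l.m :=
    calc 80 * CK * dd l.m * ts l.m (fun w => |s.σ w| / Hh l.m (u0 - w))
        = 80 * CK * (dd l.m * ts l.m (fun w => |s.σ w| / Hh l.m (u0 - w))) := by ring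
      _ ≤ 80 * CK * (√CS * b) := by gcongr
      _ ≤ 80 * CK * (√CS * (3 * dd l.m)) := by gcongr
      _ = _ := by ring
  linarith

open Classical in
theorem split (hB : S_Box) {m : ℕ} {F : GI → ℂ} (hF : Per m F) (u : GI) (P : GI → Prop)
    (hP : ∀ w, P w ↔ ¬ om ^ m ∣ w - u) :
    ts m F = F u + ts m (fun w => if P w then F w else 0) := by
  rw [← (((hB m).2.2.2.2.2.1 ℂ F hF).1 u), ← ts_add]
  congr 1
  funext w
  by_cases h : om ^ m ∣ w - u <;> simp [h, hP]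

end Pool.Agent.P.MP_cc4a10_gt.ShpRP

namespace Pool.Agent.P.MP_cc4a10_gt

open ShpRP

attribute [local irreducible] ts

theorem pShpR (hB : S_Box) (hS : S_Sum) (hK : S_Ker0) (hD : S_Dip) (hR : S_Ref) (hL : S_Lev) :
    S_ShpR := by
  intro E
  obtain ⟨CK, hCK, HK⟩ := ker hK E
  obtain ⟨CD, mD, hCD, HD⟩ := diff hB hS hK hD hL E
  obtain ⟨CR, hCR, HR⟩ := hR E
  obtain ⟨CL, mL, hCL, HL⟩ := hL E
  refine ⟨CD + CR + CK, max mD mL, by positivity, fun l s b hG hm => ?_⟩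
  obtain ⟨hμ, hd1, Hdiff⟩ := HD l s b hG ((le_max_left _ _).trans hm)
  obtain ⟨Hε, -, -, -, Hcov, -⟩ := HL l s b hG ((le_max_right _ _).trans hm)
  obtain ⟨κ, κ1, κ2, R1, R2, -⟩ := HR l s.μ hG.ok hμ
  obtain ⟨-, -, hqp, -, -, -, hq, hc, hu, -⟩ := hD l hG.ok
  have hd := dd_pos l.m
  have hm' : 1 ≤ l.m := le_trans (by norm_num) hG.ok.1
  have hmR : (1 : ℝ) ≤ l.m := by exact_mod_cast hm'
  have hεd : ∀ w, ‖s.ε w‖ ≤ dd l.m / 1000 := fun w => by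
    refine (Hε w).2.1.trans ?_
    unfold rho
    have : dd l.m / l.m ≤ dd l.m := div_le_self hd.le hmR
    linarith
  have hup : ∀ z (w : GI), ‖z - Lm s.μ (l.c * w)‖ ≤ ‖z - pos l s w‖ + dd l.m / 1000 := by
    intro z w
    have e : z - Lm s.μ (l.c * w) = (z - pos l s w) + s.ε w := by unfold pos; ring
    rw [e]
    exact (norm_add_le _ _).trans (by linarith [hεd w])
  have hlo : ∀ z (w : GI), ‖z - pos l s w‖ ≤ ‖z - Lm s.μ (l.c * w)‖ + dd l.m / 1000 := by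
    intro z w
    have e : z - pos l s w = (z - Lm s.μ (l.c * w)) - s.ε w := by unfold pos; ring
    rw [e]
    exact (norm_sub_le _ _).trans (by linarith [hεd w])
  constructor
  · intro u hu' z hz
    have hz' : ‖z - Lm s.μ (l.c * u)‖ ≤ dd l.m * (6 / 10) := by linarith [hup z u]
    obtain ⟨P, hP⟩ : ∃ P : GI → Prop, ∀ w, P w ↔ ¬ om ^ l.m ∣ w - u := ⟨_, fun _ => Iff.rfl⟩
    have h1 := Hdiff z u P (fun w hw _ v => by
      refine far hB hμ hc hu (by linarith) ?_ v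
      have h0 : mr l.m (u - w) ≠ 0 := fun h => (hP w).1 hw (by
        have := ((hB l.m).1 (u - w)).2.2.2.1 h
        rwa [← neg_sub, dvd_neg] at this)
      have := one_le_norm h0
      unfold Hh; linarith)
    have h2 := R1 u hu' z hz'
    have p1 := perF E hμ hu hqp hG.lv.pe hG.lv.ps z
    have p0 := perF E (s := ⟨s.μ, 0, 0⟩) hμ hu hqp (fun _ _ => rfl) (fun _ _ => rfl) z
    have own : ∀ (q : ℝ) (y : ℂ), |q| ≤ 5 * dd l.m ^ 2 → ‖y‖ ≤ dd l.m →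
        ‖(q : ℂ) * E.Z s.μ y - q / y‖ ≤ CK / 2 * dd l.m := by
      intro q y hq' hy
      have h3 := (HK s.μ hμ).1 y (by linarith)
      rw [div_eq_mul_inv, ← mul_sub, norm_mul, Complex.norm_real, Real.norm_eq_abs]
      calc |q| * ‖E.Z s.μ y - y⁻¹‖ ≤ 5 * dd l.m ^ 2 * CK := by gcongr
        _ = CK * dd l.m * (5 * dd l.m) := by ring
        _ ≤ CK * dd l.m * (1 / 2) := by gcongr; linarith
        _ = _ := by ring
    have hd2 : 0 < dd l.m ^ 2 := by positivity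
    have o1 := own (qq l s u) (z - pos l s u) (by
      unfold qq
      rw [abs_mul]
      have h3 : |1 + s.σ u| ≤ 5 / 4 := by
        have := abs_add_le 1 (s.σ u)
        rw [abs_one] at this
        linarith [(Hε u).2.2.2]
      calc |q0 l u| * |1 + s.σ u| ≤ 4 * dd l.m ^ 2 * (5 / 4) := by gcongr; exact hq u
        _ = _ := by ring) (by linarith)
    have e0 : pos l ⟨s.μ, 0, 0⟩ u = Lm s.μ (l.c * u) := by simp [pos]
    have o0 := own (qq l ⟨s.μ, 0, 0⟩ u) (z - pos l ⟨s.μ, 0, 0⟩ u) (by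
      have : qq l ⟨s.μ, 0, 0⟩ u = q0 l u := by simp [qq]
      rw [this]; linarith [hq u]) (by rw [e0]; linarith)
    unfold RR psi at h2 ⊢
    rw [split hB p0 u P hP] at h2
    rw [split hB p1 u P hP]
    have gen : ∀ a1 r1 q1 a0 r0 q0' : ℂ, ‖a1 + r1 - q1‖
        ≤ ‖r1 - r0‖ + ‖a0 + r0 - q0'‖ + (‖a1 - q1‖ + ‖a0 - q0'‖) := by
      intro a1 r1 q1 a0 r0 q0'
      have e : a1 + r1 - q1 = (r1 - r0) + (a0 + r0 - q0') + ((a1 - q1) - (a0 - q0')) := by ring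
      rw [e]
      exact (norm_add_le _ _).trans (add_le_add (norm_add_le _ _) (norm_sub_le _ _))
    refine (gen _ _ _ _ _ _).trans ((add_le_add (add_le_add h1 h2) (add_le_add o1 o0)).trans ?_)
    apply le_of_eq; ring
  · intro z hz
    obtain ⟨u0, hu0⟩ := Hcov z
    have h1 := Hdiff z u0 (fun _ => True) (fun w _ hw v => by
      by_cases hH : 2 ≤ Hh l.m (u0 - w)
      · exact far hB hμ hc hu (by linarith [hup z u0]) hH v
      · obtain ⟨v', hv'⟩ := lat hu v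
        have h3 := hz (w + om ^ l.m * v') (by
          show q0 l _ ≠ 0
          rw [hqp w v']; exact hw)
        have h4 := hlo z (w + om ^ l.m * v')
        have e : z - Lm s.μ (l.c * ((w + om ^ l.m * v' : GI) : ℂ))
            = z - Lm s.μ (l.c * w) - Lm s.μ v := by
          rw [hv', map_add, mul_add, Lm_add]; ring
        rw [e] at h4
        have h5 : dd l.m * Hh l.m (u0 - w) ≤ dd l.m * 2 := by
          gcongr; exact (not_le.1 hH).le
        linarith)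
    simp only [if_true] at h1
    have h2 := (R2 z (fun u hu' => by
      have h3 := hz u hu'
      have h4 := hlo z u
      linarith)).1
    have h3 : ‖psi E l s z‖ ≤ ‖psi E l s z - psi E l ⟨s.μ, 0, 0⟩ z‖ + ‖psi E l ⟨s.μ, 0, 0⟩ z‖ := by
      conv_lhs => rw [← sub_add_cancel (psi E l s z) (psi E l ⟨s.μ, 0, 0⟩ z)]
      exact norm_add_le _ _
    have h4 : ‖psi E l s z - psi E l ⟨s.μ, 0, 0⟩ z‖ ≤ CD * dd l.m := h1
    have h5 : 0 ≤ CK * dd l.m := by positivity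
    linarith

end Pool.Agent.P.MP_cc4a10_gt
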