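import Pool.Agent.P.MP_cc4a10_gt.SoA

/-!
The Cousin operator on one level.
-/

open Set Filter Topology Complex Metric
open scoped ComplexConjugate Real

noncomputable section

namespace Pool.Agent.P.MP_cc4a10_gt.SoP

/-- Facts about the level. -/
structure Ctx (E : Ell) (l : Lv) (s : Ls) (C : ℝ) : Prop where
  m10 : 10 ≤ l.m
  d20 : dd l.m ≤ 1 / 20
  r1 : rho1 l.m ≤ rho l.m
  loc : Loc (E.Z s.μ) (deriv (E.F s.μ)) (bE s.μ) C
  sep : ∀ u u' : GI, ‖pos l s u - pos l s u' - l.c * ((u - u' : GI) : ℂ)‖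
    ≤ dd l.m * ‖((u - u' : GI) : ℂ)‖ / 200
  nc : ‖l.c‖ = dd l.m
  near : ∀ z, ∃ u, ‖z - pos l s u‖ ≤ dd l.m * (72 / 100)
  pper : ∀ u w, pos l s (u + om ^ l.m * w) = pos l s u + Lm s.μ (l.c * ((om ^ l.m * w : GI) : ℂ))
  pneg : ∀ u ∈ Nk l, pos l s (-u) = -pos l s u
  zper : ∀ z (w : GI), E.Z s.μ (z + Lm s.μ w) = E.Z s.μ z
  zper' : ∀ z (w : GI), E.Z s.μ (z + Lm s.μ (l.c * ((om ^ l.m * w : GI) : ℂ))) = E.Z s.μ z
  zneg : ∀ z, E.Z s.μ (-z) = -E.Z s.μ z
  qper : Per l.m (q0 l)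
  qneg : ∀ u, q0 l (-u) = q0 l u

/-- Facts about the data. -/
structure Dat (l : Lv) (s : Ls) (f : GI → ℂ → ℂ) (A : GI → ℝ) : Prop where
  off : ∀ u, u ∉ Nk l → f u = 0
  hol : ∀ u ∈ Nk l, DifferentiableOn ℂ (f u)
    {ξ | rho1 l.m / 4 < ‖ξ - pos l s u‖ ∧ ‖ξ - pos l s u‖ < 2 * rho l.m}
  ev : ∀ u ξ, f (-u) (-ξ) = f u ξ
  per : ∀ u w ξ, f (u + om ^ l.m * w) (ξ + Lm s.μ (l.c * ((om ^ l.m * w : GI) : ℂ))) = f u ξ
  aper : Per l.m A
  a0 : ∀ u, 0 ≤ A u
  bd : ∀ u ξ, rho1 l.m / 4 < ‖ξ - pos l s u‖ → ‖ξ - pos l s u‖ < 2 * rho l.m →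
    ‖f u ξ‖ ≤ A u / ‖ξ - pos l s u‖

/-- One term of the operator and its residue. -/
def TT (E : Ell) (l : Lv) (s : Ls) (f : GI → ℂ → ℂ) (r : ℝ) (u : GI) (z : ℂ) : ℂ :=
  cint (pos l s u) r (fun ξ => f u ξ * (E.Z s.μ (ξ - z) + bE s.μ * conj (ξ - pos l s u)))
def res (l : Lv) (s : Ls) (f : GI → ℂ → ℂ) (r : ℝ) (u : GI) : ℂ := cint (pos l s u) r (f u)

variable {E : Ell} {l : Lv} {s : Ls} {C : ℝ} {f : GI → ℂ → ℂ} {A : GI → ℝ}

theorem SoL_def (r : ℝ) (z : ℂ) : SoL E l s f r z = ts l.m (fun u => TT E l s f r u z) := rfl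

theorem rho1_pos (m : ℕ) : 0 < rho1 m := mul_pos (dd_pos m) (tt_pos m)

theorem Ctx.rho_le (c : Ctx E l s C) : rho l.m ≤ dd l.m / 10 := by
  have h : (10 : ℝ) ≤ l.m := by exact_mod_cast c.m10
  unfold rho
  exact div_le_div_of_nonneg_left (dd_pos _).le (by norm_num) h

theorem Ctx.rho_pos (c : Ctx E l s C) : 0 < rho l.m := by
  have h : (10 : ℝ) ≤ l.m := by exact_mod_cast c.m10
  exact div_pos (dd_pos _) (by linarith)

theorem TT_off (d : Dat l s f A) {u : GI} (hu : u ∉ Nk l) (r : ℝ) (z : ℂ) :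
    TT E l s f r u z = 0 := by
  simp only [TT, d.off u hu, Pi.zero_apply, zero_mul, cint_zero]

theorem res_off (d : Dat l s f A) {u : GI} (hu : u ∉ Nk l) (r : ℝ) : res l s f r u = 0 := by
  rw [res, d.off u hu]; exact cint_zero _ _

theorem TT_per (c : Ctx E l s C) (d : Dat l s f A) (r : ℝ) (z : ℂ) :
    Per l.m (fun u => TT E l s f r u z) := fun u w => by
  simp only [TT, c.pper, cint_add_center, d.per, add_sub_add_right_eq_sub]
  congr 1; funext ξ
  rw [add_sub_right_comm, c.zper']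

theorem res_per (c : Ctx E l s C) (d : Dat l s f A) (r : ℝ) : Per l.m (res l s f r) :=
  fun u w => by simp only [res, c.pper, cint_add_center, d.per]

theorem Ctx.nk_neg (c : Ctx E l s C) {u : GI} : -u ∈ Nk l ↔ u ∈ Nk l := by
  simp only [Nk, mem_ofPred_eq, c.qneg]

theorem TT_neg (c : Ctx E l s C) (d : Dat l s f A) (r : ℝ) (u : GI) (z : ℂ) :
    TT E l s f r (-u) (-z) = TT E l s f r u z := by
  by_cases hu : u ∈ Nk l
  · simp only [TT, c.pneg u hu, cint_neg_center, d.ev]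
    rw [← neg_one_mul, ← cint_mul_const]
    congr 1; funext ξ
    rw [show -ξ - -z = -(ξ - z) by ring, c.zneg, show -ξ - -pos l s u = -(ξ - pos l s u) by ring,
      map_neg]
    ring
  · rw [TT_off d hu, TT_off d (mt c.nk_neg.1 hu)]

theorem res_neg (c : Ctx E l s C) (d : Dat l s f A) (r : ℝ) (u : GI) :
    res l s f r (-u) = -res l s f r u := by
  by_cases hu : u ∈ Nk l
  · simp only [res, c.pneg u hu, cint_neg_center, d.ev]
  · rw [res_off d hu, res_off d (mt c.nk_neg.1 hu), neg_zero]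

theorem ts_res (c : Ctx E l s C) (d : Dat l s f A) (r : ℝ) : ts l.m (res l s f r) = 0 := by
  have h := ts_neg_arg (res_per c d r)
  simp only [res_neg c d, ts_neg] at h
  linear_combination (-1 / 2 : ℂ) * h

theorem SoL_eq (c : Ctx E l s C) (d : Dat l s f A) (r : ℝ) : SoL E l s f r =
    fun z => ts l.m (fun u => TT E l s f r u z - bE s.μ * conj z * res l s f r u) := by
  funext z
  rw [ts_sub, ts_mul_left, ts_res c d, mul_zero, sub_zero, SoL_def]

theorem one_le_norm {g : GI} (h : g ≠ 0) : 1 ≤ ‖(g : ℂ)‖ := by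
  have h1 : 0 < g.norm := GaussianInt.norm_pos.2 h
  have h2 : ((g.norm : ℤ) : ℝ) = Complex.normSq (g : ℂ) := GaussianInt.intCast_real_norm g
  have h3 : (1 : ℝ) ≤ ((g.norm : ℤ) : ℝ) := by exact_mod_cast h1
  rw [h2, Complex.normSq_eq_norm_sq] at h3
  nlinarith [norm_nonneg (g : ℂ)]

/-- Geometry of the near representative. -/
theorem geo (c : Ctx E l s C) (hB : S_Box) {z : ℂ} {u0 : GI}
    (hz : ‖z - pos l s u0‖ ≤ dd l.m * (72 / 100)) (w : GI) {ξ : ℂ}
    (hξ : ‖ξ - pos l s (u0 + mr l.m (w - u0))‖ ≤ rho l.m) :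
    ‖ξ - z‖ ≤ 85 / 100 ∧ (mr l.m (w - u0) ≠ 0 → dd l.m * Hh l.m (w - u0) / 12 ≤ ‖ξ - z‖) := by
  have h1 := c.sep (u0 + mr l.m (w - u0)) u0
  rw [add_sub_cancel_left] at h1
  have h2 := ((hB l.m).1 (w - u0)).2.1
  have h3 := c.rho_le
  have h4 := c.d20
  have h5 := dd_pos l.m
  unfold Hh
  set g : ℂ := ((mr l.m (w - u0) : GI) : ℂ) with hg
  set P := pos l s (u0 + mr l.m (w - u0))
  have h6 : ‖l.c * g‖ = dd l.m * ‖g‖ := by rw [norm_mul, c.nc]
  set e := (ξ - P) + (P - pos l s u0 - l.c * g) - (z - pos l s u0) with he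
  have h7 : ‖e‖ ≤ rho l.m + dd l.m * ‖g‖ / 200 + dd l.m * (72 / 100) :=
    (norm_sub_le _ _).trans (add_le_add ((norm_add_le _ _).trans (add_le_add hξ h1)) hz)
  have e1 : ξ - z = l.c * g + e := by rw [he]; ring
  have e2 : l.c * g = (ξ - z) - e := by rw [he]; ring
  have h8 := norm_add_le (l.c * g) e
  have h9 := norm_sub_le (ξ - z) e
  rw [← e1, h6] at h8
  rw [← e2, h6] at h9
  refine ⟨by nlinarith, fun h0 => ?_⟩
  have := one_le_norm h0
  rw [← hg] at this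
  nlinarith

theorem rep (hB : S_Box) {V : Type*} {m : ℕ} {F : GI → V} (h : Per m F) (u0 w : GI) :
    F w = F (u0 + mr m (w - u0)) := by
  obtain ⟨k, hk⟩ := ((hB m).1 (w - u0)).1
  rw [← h (u0 + mr m (w - u0)) k, add_assoc, ← hk, add_sub_cancel]

theorem Dat.sph (d : Dat l s f A) (c : Ctx E l s C) {r : ℝ} (h1 : rho1 l.m / 2 ≤ r)
    (h2 : r ≤ rho l.m) {u : GI} (hu : u ∈ Nk l) :
    ContinuousOn (f u) (sphere (pos l s u) r) ∧ ∀ ξ ∈ sphere (pos l s u) r, ‖f u ξ‖ ≤ A u / r := by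
  have := rho1_pos l.m
  have := c.rho_pos
  have h : ∀ ξ ∈ sphere (pos l s u) r, ‖ξ - pos l s u‖ = r := fun ξ hξ => by
    rw [← dist_eq_norm, mem_sphere.1 hξ]
  refine ⟨(d.hol u hu).continuousOn.mono fun ξ hξ => ?_, fun ξ hξ => ?_⟩
  · rw [mem_ofPred_eq, h ξ hξ]; constructor <;> linarith
  · rw [← h ξ hξ]; exact d.bd u ξ (by rw [h ξ hξ]; linarith) (by rw [h ξ hξ]; linarith)

open Classical in
/-- Size and derivative of one term. -/
theorem core (c : Ctx E l s C) (d : Dat l s f A) (hB : S_Box) {r : ℝ} (h1 : rho1 l.m / 2 ≤ r)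
    (h2 : r ≤ rho l.m) {z : ℂ} {u0 : GI} (hz : ‖z - pos l s u0‖ ≤ dd l.m * (72 / 100)) {η : ℝ}
    (hη : 0 < η) (hη' : u0 ∈ Nk l → η ≤ |‖z - pos l s u0‖ - r|) (w : GI) :
    ‖TT E l s f r w z‖ ≤ A w * ((if om ^ l.m ∣ w - u0 then 1 / η else 0)
      + (144 + 4 * C) / (dd l.m * Hh l.m (w - u0))) ∧
    ∃ D, HasDerivAt (fun z' => TT E l s f r w z' - bE s.μ * conj z' * res l s f r w) D z ∧
      ‖D‖ ≤ A w * ((if om ^ l.m ∣ w - u0 then 1 / η ^ 2 else 0)
        + (144 + 4 * C) / (dd l.m * Hh l.m (w - u0)) ^ 2) := by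
  have hC : 0 ≤ C := (abs_nonneg _).trans c.loc.bb
  have hd := dd_pos l.m
  obtain ⟨hH1, hH2, -⟩ := (hB l.m).2.2.2.2.1 (w - u0)
  have hA := d.a0 w
  set X := dd l.m * Hh l.m (w - u0) with hX
  have hX0 : 0 < X := by positivity
  have hX2 : X ≤ 2 := by rw [hX, mul_comm]; exact hH2
  by_cases hw : w ∈ Nk l
  swap
  · simp only [TT_off d hw, res_off d hw, mul_zero, sub_zero, norm_zero]
    exact ⟨by positivity, 0, hasDerivAt_const _ _, by rw [norm_zero]; positivity⟩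
  have hr : 0 < r := by linarith [rho1_pos l.m]
  set w' := u0 + mr l.m (w - u0) with hw'
  have hw'N : w' ∈ Nk l := by
    have := rep hB c.qper u0 w
    simpa only [Nk, mem_ofPred_eq, this] using hw
  have eT : ∀ z', TT E l s f r w z' = TT E l s f r w' z' := fun z' => rep hB (TT_per c d r z') u0 w
  have eR : res l s f r w = res l s f r w' := rep hB (res_per c d r) u0 w
  have eA : A w = A w' := rep hB d.aper u0 w
  obtain ⟨s1, s2⟩ := d.sph c h1 h2 hw'N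
  have hg : ∀ ξ ∈ sphere (pos l s w') r, _ := fun ξ hξ =>
    geo c hB hz w (ξ := ξ) (by rw [← dist_eq_norm, mem_sphere.1 hξ]; exact h2)
  have hz1 : ‖z - pos l s w'‖ ≤ 1 := by
    have := (geo c hB hz w (ξ := pos l s w') (by rw [sub_self, norm_zero]; exact c.rho_pos.le)).1
    rw [norm_sub_rev]; linarith
  have k1 : 2 * C ≤ 4 * C / X := by rw [le_div_iff₀ hX0]; nlinarith
  have k2 : C ≤ 4 * C / X ^ 2 := by
    rw [le_div_iff₀ (by positivity)]
    have : X ^ 2 ≤ 4 := by nlinarith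
    nlinarith
  simp only [eT, eR]
  by_cases h0 : mr l.m (w - u0) = 0
  · have hdv : om ^ l.m ∣ w - u0 := ((hB l.m).1 (w - u0)).2.2.2.1 h0
    have e0 : w' = u0 := by rw [hw', h0, add_zero]
    have hh : ∀ ξ ∈ sphere (pos l s w') r, η ≤ ‖ξ - z‖ ∧ ‖ξ - z‖ ≤ 85 / 100 := fun ξ hξ => by
      refine ⟨(hη' (e0 ▸ hw'N)).trans ?_, (hg ξ hξ).1⟩
      have e : r = ‖ξ - pos l s u0‖ := by rw [← dist_eq_norm, ← e0, mem_sphere.1 hξ]
      rw [e, norm_sub_rev ξ z]
      exact (abs_norm_sub_norm_le _ _).trans_eq (by congr 1; ring)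
    obtain ⟨D, hD, hD'⟩ := one_deriv c.loc hr hη s1 s2 hh
    simp only [if_pos hdv]
    refine ⟨(one_norm c.loc hr hη s2 hz1 hh).trans ?_, D, hD, hD'.trans ?_⟩
    · rw [← eA, add_div 144]; gcongr
      have : 0 ≤ 144 / X := by positivity
      linarith
    · rw [← eA, add_div 144]; gcongr
      have : 0 ≤ 144 / X ^ 2 := by positivity
      linarith
  · have hdv : ¬om ^ l.m ∣ w - u0 := mt ((hB l.m).1 (w - u0)).2.2.2.2 h0
    have hh : ∀ ξ ∈ sphere (pos l s w') r, X / 12 ≤ ‖ξ - z‖ ∧ ‖ξ - z‖ ≤ 85 / 100 := fun ξ hξ =>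
      ⟨(hg ξ hξ).2 h0, (hg ξ hξ).1⟩
    have hX12 : 0 < X / 12 := by positivity
    obtain ⟨D, hD, hD'⟩ := one_deriv c.loc hr hX12 s1 s2 hh
    simp only [if_neg hdv, zero_add]
    refine ⟨(one_norm c.loc hr hX12 s2 hz1 hh).trans ?_, D, hD, hD'.trans ?_⟩
    · rw [← eA, add_div 144]
      refine mul_le_mul_of_nonneg_left (add_le_add ?_ k1) hA
      rw [one_div_div]; gcongr; norm_num
    · rw [← eA, add_div 144]
      refine mul_le_mul_of_nonneg_left (add_le_add ?_ k2) hA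
      exact le_of_eq (by field_simp; norm_num)

open Classical in
theorem jump (c : Ctx E l s C) (d : Dat l s f A) (hB : S_Box) {u : GI} (hu : u ∈ Nk l) {z : ℂ}
    (h1 : rho1 l.m / 2 < ‖z - pos l s u‖) (h2 : ‖z - pos l s u‖ < rho l.m) (w : GI) :
    TT E l s f (rho l.m) w z = TT E l s f (rho1 l.m / 2) w z
      + if om ^ l.m ∣ w - u then f u z else 0 := by
  have hr1 := rho1_pos l.m
  have hr := c.rho_pos
  have hz : ‖z - pos l s u‖ ≤ dd l.m * (72 / 100) := by linarith [c.rho_le, dd_pos l.m]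
  set w' := u + mr l.m (w - u) with hw'
  rw [rep hB (TT_per c d (rho l.m) z) u w, rep hB (TT_per c d (rho1 l.m / 2) z) u w, ← hw']
  have hg : ∀ ξ ∈ closedBall (pos l s w') (rho l.m), _ := fun ξ hξ =>
    geo c hB hz w (ξ := ξ) (by rw [← dist_eq_norm]; exact hξ)
  have hf : w' ∈ Nk l → ∀ ξ ∈ closedBall (pos l s w') (rho l.m) \ ball (pos l s w') (rho1 l.m / 2),
      DifferentiableAt ℂ (f w') ξ := fun hw ξ hξ => by
    obtain ⟨a1, a2⟩ := hξ
    rw [mem_closedBall, dist_eq_norm] at a1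
    rw [mem_ball, dist_eq_norm, not_lt] at a2
    refine (d.hol w' hw).differentiableAt (IsOpen.mem_nhds ?_ ⟨by linarith, by linarith⟩)
    have hc : Continuous fun ξ : ℂ => ‖ξ - pos l s w'‖ := by fun_prop
    exact (isOpen_lt continuous_const hc).inter (isOpen_lt hc continuous_const)
  by_cases h0 : mr l.m (w - u) = 0
  · have hdv : om ^ l.m ∣ w - u := ((hB l.m).1 (w - u)).2.2.2.1 h0
    have e0 : w' = u := by rw [hw', h0, add_zero]
    rw [if_pos hdv]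
    rw [e0] at hg hf ⊢
    exact jump_own c.loc (by linarith) h1 h2 (hf hu) fun ξ hξ => by linarith [(hg ξ hξ).1]
  · have hdv : ¬om ^ l.m ∣ w - u := mt ((hB l.m).1 (w - u)).2.2.2.2 h0
    rw [if_neg hdv, add_zero]
    by_cases hw : w' ∈ Nk l
    · refine jump_far c.loc (by linarith) (by linarith) (hf hw) fun ξ hξ =>
        ⟨fun hξz => ?_, by linarith [(hg ξ hξ).1]⟩
      have a1 := (hg ξ hξ).2 h0
      have a2 := ((hB l.m).2.2.2.2.1 (w - u)).1
      have a3 := dd_pos l.m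
      rw [hξz, sub_self, norm_zero] at a1
      nlinarith
    · rw [TT_off d hw, TT_off d hw]

theorem ctx (h4 : S_Ker0) (h5 : S_Dip) (h6 : S_Lev) (E : Ell) : ∃ (C : ℝ) (m0 : ℕ), 0 < C ∧
    ∀ (l : Lv) (s : Ls) (b : ℝ), LG l s b → m0 ≤ l.m → Ctx E l s C := by
  obtain ⟨C, hC, hK⟩ := h4 E
  obtain ⟨C', m1, -, hL⟩ := h6 E
  obtain ⟨m2, hm2⟩ := exists_pow_mul_tt_le 1 (η := 1 / 100) (by norm_num)
  refine ⟨2 * C + 4, max (max m1 m2) 10, by positivity, fun l s b hG hm => ?_⟩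
  have ht1 : l.m * tt l.m ≤ 1 / 100 := by
    simpa using hm2 l.m ((le_max_right _ _).trans ((le_max_left _ _).trans hm))
  have hm10 : (10 : ℝ) ≤ l.m := by exact_mod_cast (le_max_right _ _).trans hm
  have ht0 := tt_pos l.m
  have ht : tt l.m ≤ 1 / 100 := by nlinarith
  have hp : ∀ k : ℕ, k ≠ 0 → tt l.m ^ k ≤ 1 / 100 := fun k hk =>
    (pow_le_of_le_one ht0.le (tt_le_one _) hk).trans ht
  have hμ : ‖s.μ‖ ≤ 1 / 100 := hG.mu.trans (hp 30 (by norm_num))
  obtain ⟨k1, k2, -, -, k5, -⟩ := hK s.μ hμ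
  obtain ⟨-, -, -, l1, l2, l3, l4, -⟩ :=
    hL l s b hG ((le_max_left _ _).trans ((le_max_left _ _).trans hm))
  obtain ⟨-, -, d1, d2, -, -, -, d3, ⟨w0, d4, -⟩, -⟩ := h5 l hG.ok
  refine ⟨(le_max_right _ _).trans hm, ?_, ?_, ⟨E.Zloc s.μ hμ, ?_, fun w hw => ?_, fun w hw => ?_, ?_⟩,
    l1, d3, l2, l3, l4, E.Zper s.μ hμ, fun z w => ?_, fun z => (k5 z).1, d1, fun u => (d2 u).1⟩
  · rw [← tt_pow_16]; linarith [hp 16 (by norm_num)]
  · unfold rho1 rho
    rw [le_div_iff₀ (by linarith), mul_assoc]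
    exact mul_le_of_le_one_right (dd_pos _).le (by linarith)
  · exact ((E.hol s.μ hμ).deriv isOpen_ball).mono (ball_subset_ball (by norm_num))
  · have := (k1 1 (by norm_num) w hw.le).1
    rw [iteratedDeriv_one] at this; linarith
  · have := (k1 2 (by norm_num) w hw.le).1
    rw [iteratedDeriv_succ, iteratedDeriv_one] at this; linarith
  · have a1 : C * ‖s.μ‖ ≤ C * 1 := by gcongr; linarith
    have a2 := abs_sub_abs_le_abs_sub (bE s.μ) π
    rw [abs_of_pos Real.pi_pos] at a2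
    linarith [Real.pi_le_four]
  · rw [← E.Zper s.μ hμ z (w0 * w)]
    congr 3
    rw [map_mul, map_mul, ← d4, mul_assoc]

end SoP

open SoP in
theorem pSo (h1 : S_Box) (h2 : S_Sum) (h3 : S_Young) (h4 : S_Ker0) (h5 : S_Dip) (h6 : S_Lev) :
    S_So := by
  classical
  intro E
  obtain ⟨C, m0, hC, hc⟩ := ctx h4 h5 h6 E
  obtain ⟨Cs, hCs, hS⟩ := h2
  set K := 144 + 4 * C with hK
  have hK0 : 0 < K := by positivity
  refine ⟨1 + K * (Cs + 1), m0, by positivity, fun l s b hG hm f A A0 f1 f2 f3 f4 f5 f6 f7 => ?_⟩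
  have c := hc l s b hG hm
  have d : Dat l s f A := ⟨f1, f2, f3, f4, f5, fun u => (f6 u).1, f7⟩
  have hd := dd_pos l.m
  have hm10 : (10 : ℝ) ≤ l.m := by exact_mod_cast c.m10
  have hS2 := (hS l.m (by linarith [c.m10])).2.1
  obtain ⟨-, -, bH, -, bH', bS, -⟩ := h1 l.m
  have hHs : ∀ u0, ts l.m (fun w => 1 / Hh l.m (w - u0) ^ 2) ≤ Cs * l.m := fun u0 => by
    have := ts_shift (m := l.m) (F := fun u => 1 / Hh l.m u ^ 2)
      (fun u w => by simp only [bH u w]) (-u0)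
    simp only [sub_eq_add_neg]; rw [this]; exact hS2
  refine ⟨fun r r1 r2 => ⟨fun z => ⟨?_, fun w => ?_⟩, fun z hz => ?_, fun z δ hδ hz => ?_⟩,
    fun u hu z z1 z2 => ?_, ?_⟩
  · rw [SoL_def, SoL_def, ← ts_neg_arg (TT_per c d r (-z))]
    simp only [TT_neg c d]
  · rw [SoL_def, SoL_def]
    congr 1; funext u; unfold TT; congr 1; funext ξ
    rw [← c.zper (ξ - (z + Lm s.μ w)) w]; congr 3; ring
  · obtain ⟨u0, hu0⟩ := c.near z
    have : ∃ η, 0 < η ∧ (u0 ∈ Nk l → η ≤ |‖z - pos l s u0‖ - r|) := by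
      by_cases h : u0 ∈ Nk l
      · exact ⟨_, abs_pos.2 (sub_ne_zero.2 (hz u0 h)), fun _ => le_rfl⟩
      · exact ⟨1, one_pos, fun h' => absurd h' h⟩
    obtain ⟨η, η0, η1⟩ := this
    choose D hD _ using fun w => (core c d h1 r1 r2 hu0 η0 η1 w).2
    rw [SoL_eq c d]
    exact (ts_hasDerivAt l.m hD).differentiableAt
  · obtain ⟨u0, hu0⟩ := c.near z
    have a1 := (norm_ts_le l.m _).trans
      (ts_mono l.m fun w => (core c d h1 r1 r2 hu0 hδ (hz u0) w).1)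
    have e1 : ∀ w, A w * ((if om ^ l.m ∣ w - u0 then 1 / δ else 0)
        + K / (dd l.m * Hh l.m (w - u0))) = (if om ^ l.m ∣ w - u0 then A w / δ else 0)
        + K / dd l.m * (‖(A w : ℂ)‖ * ‖((1 / Hh l.m (w - u0) : ℝ) : ℂ)‖) := fun w => by
      have := (bH' (w - u0)).1
      rw [norm_real, norm_real, Real.norm_of_nonneg (f6 w).1, Real.norm_of_nonneg (by positivity)]
      split_ifs <;> field_simp
      ring
    rw [← hK] at a1
    simp only [e1] at a1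
    rw [ts_add, ts_mul_left_real, (bS ℝ (fun w => A w / δ) (fun u w => by simp only [f5 u w])).1 u0,
      ← SoL_def, ts_eq_av, smul_eq_mul] at a1
    have a2 := av_mul_le l.m (fun w => (A w : ℂ)) (fun w => ((1 / Hh l.m (w - u0) : ℝ) : ℂ))
    have a3 : √(msq l.m (fun w => ((1 / Hh l.m (w - u0) : ℝ) : ℂ)))
        ≤ dd l.m * ((Cs + 1) * √(l.m)) := by
      refine Real.sqrt_le_iff.2 ⟨by positivity, ?_⟩
      have e : ∀ w, ‖((1 / Hh l.m (w - u0) : ℝ) : ℂ)‖ ^ 2 = 1 / Hh l.m (w - u0) ^ 2 := fun w => by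
        rw [norm_real, Real.norm_eq_abs, sq_abs, div_pow, one_pow]
      simp only [msq, av, e, smul_eq_mul]
      rw [← dd_sq, mul_pow, mul_pow, Real.sq_sqrt (by positivity)]
      gcongr
      refine (hHs u0).trans ?_
      gcongr; nlinarith
    have e2 : (2 : ℝ) ^ l.m = (dd l.m ^ 2)⁻¹ := by rw [dd_sq, inv_inv]
    set M := √(msq l.m (fun u => (A u : ℂ))) with hM
    have hM0 : 0 ≤ M := Real.sqrt_nonneg _
    have a4 : K / dd l.m * (2 ^ l.m * av l.m fun w =>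
        ‖(A w : ℂ)‖ * ‖((1 / Hh l.m (w - u0) : ℝ) : ℂ)‖)
        ≤ K * (Cs + 1) * (√(l.m) * M / dd l.m ^ 2) := by
      calc _ ≤ K / dd l.m * (2 ^ l.m * (M * (dd l.m * ((Cs + 1) * √(l.m))))) := by
            gcongr; exact a2.trans (by gcongr)
        _ = _ := by rw [e2]; field_simp
    have a5 : A u0 / δ ≤ A0 / δ := by gcongr; exact (f6 u0).2
    have a6 : 0 ≤ A0 / δ := div_nonneg ((f6 u0).1.trans (f6 u0).2) hδ.le
    have a7 : 0 ≤ √(l.m) * M / dd l.m ^ 2 := by positivity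
    have a8 : 0 ≤ K * (Cs + 1) := by positivity
    nlinarith [mul_nonneg a8 a6]
  · rw [SoL_def, SoL_def]
    simp only [jump c d h1 hu z1 z2]
    rw [ts_add, (bS ℂ (fun _ => f u z) (fun _ _ => rfl)).1 u]
  · have hr := c.rho_pos
    have hr1 : rho1 l.m / 2 ≤ rho l.m := by linarith [c.r1]
    have hcore := fun (u w : GI) => (core c d h1 hr1 le_rfl (z := pos l s u) (u0 := u)
      (by rw [sub_self, norm_zero]; positivity) hr
      (fun _ => by rw [sub_self, norm_zero, zero_sub, abs_neg, abs_of_pos hr]) w).2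
    choose D hD hD' using hcore
    set k : GI → ℝ := fun x => (if om ^ l.m ∣ x - 0 then 1 / rho l.m ^ 2 else 0)
      + K / dd l.m ^ 2 * (1 / Hh l.m x ^ 2) with hk
    have kp : Per l.m k := fun u w => by
      simp only [hk, bH u w, sub_zero, dvd_add_left (dvd_mul_right (om ^ l.m) w)]
    have k0 : ∀ u, 0 ≤ k u := fun u => by simp only [hk]; positivity
    have hY := (h3 l.m k kp k0).1 (fun u => (A u : ℂ)) D (fun u w => by simp only [f5 u w])
      (fun u w => by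
        refine (hD' u w).trans_eq ?_
        have e : Hh l.m (u - w) = Hh l.m (w - u) := by rw [← (bH' (w - u)).2.2.1, neg_sub]
        have := (bH' (w - u)).1
        rw [norm_real, Real.norm_of_nonneg (f6 w).1, mul_comm]
        simp only [hk, sub_zero, e, dvd_sub_comm (a := om ^ l.m) (b := u), ← hK]
        congr 2; field_simp)
    have kt : ts l.m k ≤ (1 + K * (Cs + 1)) * (l.m : ℝ) ^ 2 / dd l.m ^ 2 := by
      rw [hk, ts_add, ts_mul_left_real, (bS ℝ (fun _ => 1 / rho l.m ^ 2) (fun _ _ => rfl)).1 0]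
      have a1 : K / dd l.m ^ 2 * ts l.m (fun u => 1 / Hh l.m u ^ 2)
          ≤ K / dd l.m ^ 2 * ((Cs + 1) * (l.m : ℝ) ^ 2) := by
        gcongr; refine hS2.trans ?_; nlinarith [mul_pos hCs (by linarith : (0 : ℝ) < l.m)]
      refine (add_le_add le_rfl a1).trans_eq ?_
      unfold rho; field_simp
    refine le_trans (msq_mono l.m fun u => ?_) (hY.trans ?_)
    · unfold nkr
      split_ifs
      · rw [norm_zero]; exact norm_nonneg _
      · beta_reduce
        rw [SoL_eq c d, (ts_hasDerivAt l.m (hD u)).deriv]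
    · gcongr
      · exact msq_nonneg _ _
      · exact ts_nonneg _ k0

end Pool.Agent.P.MP_cc4a10_gt
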