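import Pool.Agent.P.MP_cc4a10_gt.SolvA

/-!
Package Solv: injectivity of the truncated linear system gives a continuous solver.
-/

open Set Filter Topology Complex Metric
open scoped ComplexConjugate Real

noncomputable section

namespace Pool.Agent.P.MP_cc4a10_gt.SolvP

/-- Admissible vectors with support in `[-N, N]`. -/
def VS (S : Sys) (N : ℕ) : Submodule ℝ Vec where
  carrier := {v | Adm S v ∧ Supp (-N) N v}
  add_mem' := by
    rintro v w ⟨hv, sv⟩ ⟨hw, sw⟩
    refine ⟨⟨fun k z hz => ?_, fun k z x => ?_, fun k => ?_, fun k => ?_⟩, fun k hk => ?_⟩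
    · simp [hv.off k z hz, hw.off k z hz]
    · simp [hv.per k z x, hw.per k z x]
    · simp only [Prod.fst_add, Pi.add_apply]; rw [ts_add, hv.m1, hw.m1, add_zero]
    · simp only [Prod.snd_add, Pi.add_apply]; rw [ts_add, hv.m2, hw.m2, add_zero]
    · simp [sv k hk, sw k hk]
  zero_mem' := ⟨⟨fun _ _ _ => ⟨rfl, rfl⟩, fun _ _ _ => ⟨rfl, rfl⟩, fun k => ts_zero _,
    fun k => ts_zero _⟩, fun _ _ => ⟨rfl, rfl⟩⟩
  smul_mem' := by
    rintro a v ⟨hv, sv⟩
    refine ⟨⟨fun k z hz => ?_, fun k z x => ?_, fun k => ?_, fun k => ?_⟩, fun k hk => ?_⟩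
    · simp [hv.off k z hz]
    · simp [hv.per k z x]
    · simp only [Prod.smul_fst, Pi.smul_apply]; rw [ts_smul, hv.m1, smul_zero]
    · simp only [Prod.smul_snd, Pi.smul_apply]; rw [ts_smul, hv.m2, smul_zero]
    · simp [sv k hk]

theorem eq_zero_of {S : Sys} {N : ℕ} {v : Vec} (hv : v ∈ VS S N)
    (h : ∀ k : ℤ, -(N : ℤ) ≤ k → k ≤ N → ∀ w, v.1 k (lp S k w) = 0 ∧ v.2 k (lp S k w) = 0) :
    v = 0 := by
  have key : ∀ k z, v.1 k z = 0 ∧ v.2 k z = 0 := by
    intro k z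
    by_cases hk : k < -(N : ℤ) ∨ (N : ℤ) < k
    · simp [hv.2 k hk]
    · by_cases hz : ∃ w, z = lp S k w
      · obtain ⟨w, rfl⟩ := hz
        exact h k (by omega) (by omega) w
      · exact hv.1.off k z fun w hw => hz ⟨w, hw⟩
  ext k z
  · exact (key k z).1
  · exact (key k z).2

theorem fin_VS (hB : S_Box) (S : Sys) (N : ℕ) : Module.Finite ℝ (VS S N) := by
  classical
  choose R hR _ using fun m => (hB m).2.2.2.2.2.2.1
  let T : Finset (ℤ × GI) :=
    (Finset.Icc (-N : ℤ) N).biUnion fun k => (R (S.st k)).image fun w => (k, w)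
  let φ : VS S N →ₗ[ℝ] (T → ℂ × ℝ) :=
    { toFun := fun v t => (v.1.1 t.1.1 (lp S t.1.1 t.1.2), v.1.2 t.1.1 (lp S t.1.1 t.1.2))
      map_add' := fun _ _ => rfl
      map_smul' := fun _ _ => rfl }
  refine Module.Finite.of_injective φ ((injective_iff_map_eq_zero φ).2 fun v hv => ?_)
  refine Subtype.ext (eq_zero_of v.2 fun k h1 h2 w => ?_)
  obtain ⟨w', hw', hd⟩ := (hR (S.st k)).2 w
  have hm : (k, w') ∈ T := Finset.mem_biUnion.2
    ⟨k, Finset.mem_Icc.2 ⟨h1, h2⟩, Finset.mem_image.2 ⟨w', hw', rfl⟩⟩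
  have := congrFun hv ⟨(k, w'), hm⟩
  rw [(adm_per v.2.1 k).1.of_dvd hd, (adm_per v.2.1 k).2.of_dvd hd]
  exact ⟨congrArg Prod.fst this, congrArg Prod.snd this⟩

theorem zero_of_nT (hP : S_Par) (hPo : S_Poin) (hB : S_Box) {S : Sys} (hS : S.ok) {N : ℕ}
    {v : Vec} (hv : v ∈ VS S N) (h : ∀ K ∈ Finset.Icc (-N : ℤ) (N + 1), nT S v K = 0) :
    v = 0 := by
  obtain ⟨C, -, hC⟩ := hPo
  refine eq_zero_of hv fun k h1 h2 w => ?_
  obtain ⟨hl, -, -, -, -, -, -, hw, -, hA⟩ := hP S hS k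
  obtain ⟨hL, hM, -⟩ := hA v hv.1
  obtain ⟨-, u, hu, e⟩ := hw w
  have h0 := h k (Finset.mem_Icc.2 ⟨h1, by omega⟩)
  unfold nT nb2 at h0
  have hm : (2 : ℝ) ≤ (lvT S k).m := by exact_mod_cast hl.1
  have hd := dd_pos (lvT S k).m
  have p1 := g2_nonneg (lvT S k).m (eT S v k)
  have p2 := msq_nonneg (lvT S k).m (fun u => (sT S v k u : ℂ))
  have p3 := sq_nonneg (dn (lvT S k).m fun u => q0 (lvT S k) u * sT S v k u / dd (lvT S k).m ^ 2)
  have p4 : 0 ≤ g2 (lvT S k).m (eT S v k) / dd (lvT S k).m ^ 2 := by positivity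
  have p5 : 0 ≤ (lvT S k).m * msq (lvT S k).m (fun u => (sT S v k u : ℂ)) := by positivity
  have g0 : g2 (lvT S k).m (eT S v k) = 0 := by
    have : g2 (lvT S k).m (eT S v k) / dd (lvT S k).m ^ 2 = 0 := by linarith
    exact (div_eq_zero_iff.1 this).resolve_right (by positivity)
  have s0 : msq (lvT S k).m (fun u => (sT S v k u : ℂ)) = 0 := by
    have : (lvT S k).m * msq (lvT S k).m (fun u => (sT S v k u : ℂ)) = 0 := by linarith
    exact (mul_eq_zero.1 this).resolve_left (by linarith)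
  have e1 := ((hC _ _ hl.1 hL.pe).2.2 hM).2 u
  have e2 := (hB (lvT S k).m).2.2.2.2.2.2.2 (fun u => (sT S v k u : ℂ))
    (fun u w => by simp only [hL.ps u w]) u
  rw [g0] at e1
  rw [s0] at e2
  have hk : lk S k u = k := by unfold lk; rw [if_neg (by linarith)]
  simp only [eT, nbr_eq _ hu.ne, hk, e, Real.sqrt_zero, mul_zero, zero_div, norm_le_zero_iff] at e1
  simp only [sT, if_neg hu.ne, hk, e, zero_div] at e2
  refine ⟨e1, ?_⟩
  have := pow_eq_zero_iff (two_ne_zero) |>.1 (le_antisymm e2 (sq_nonneg _))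
  simpa using this

/-- The bilinear form of the truncated system. -/
def BB (E : Ell) (S : Sys) (N : ℕ) : VS S N →ₗ[ℝ] VS S N →ₗ[ℝ] ℝ :=
  LinearMap.mk₂ ℝ (fun v v' => ∑ K ∈ Finset.Icc (-N : ℤ) (N + 1), BT E S v.1 v'.1 K)
    (fun v w v' => by
      simp only [Submodule.coe_add, BT, eT_add, sT_add, BL_add_left, Finset.sum_add_distrib])
    (fun a v v' => by
      simp only [Submodule.coe_smul, BT, eT_smul, sT_smul, BL_smul_left, smul_eq_mul,
        Finset.mul_sum])
    (fun v v' w => by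
      simp only [Submodule.coe_add, BT, BL, eT_add, sT_add, pair_add_right,
        Finset.sum_add_distrib])
    (fun a v v' => by
      simp only [Submodule.coe_smul, BT, BL, eT_smul, sT_smul, pair_smul_right, smul_eq_mul,
        Finset.mul_sum])

/-- The right hand side. -/
def LL (S : Sys) (N : ℕ) (p : (ℤ → GI → ℂ) × (ℤ → GI → ℝ)) : VS S N →ₗ[ℝ] ℝ where
  toFun := fun v' => ∑ K ∈ Finset.Icc (-N : ℤ) (N + 1), pT S p.1 p.2 v'.1 K
  map_add' := fun v w => by
    simp only [Submodule.coe_add, pT, eT_add, sT_add, pair_add_right, Finset.sum_add_distrib]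
  map_smul' := fun a v => by
    simp only [Submodule.coe_smul, pT, eT_smul, sT_smul, pair_smul_right, smul_eq_mul,
      Finset.mul_sum, RingHom.id_apply]

end Pool.Agent.P.MP_cc4a10_gt.SolvP

namespace Pool.Agent.P.MP_cc4a10_gt

open SolvP

theorem pSolv (hP : S_Par) (hF : S_Flip) (hPo : S_Poin) (hD : S_Dip) (hK : S_Ker0)
    (hB : S_Box) : S_Solv := by
  intro E S N hS hinj
  classical
  haveI := fin_VS hB S N
  have inj : Function.Injective (BB E S N) := by
    refine (injective_iff_map_eq_zero _).2 fun v hv => Subtype.ext ?_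
    refine zero_of_nT hP hPo hB hS v.2 (hinj v.1 v.2.1 v.2.2 fun v' h1 h2 => ?_)
    exact congrArg (fun f : VS S N →ₗ[ℝ] ℝ => f ⟨v', h1, h2⟩) hv
  have surj : Function.Surjective (BB E S N) :=
    (LinearMap.injective_iff_surjective_of_finrank_eq_finrank
      (Subspace.dual_finrank_eq (K := ℝ) (V := VS S N)).symm).1 inj
  let e := Module.finBasis ℝ (VS S N)
  choose g hg using fun i => surj (e.coord i)
  let f : (ℤ → GI → ℂ) × (ℤ → GI → ℝ) → VS S N := fun p => ∑ i, SolvP.LL S N p (e i) • g i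
  have hf : ∀ p, BB E S N (f p) = SolvP.LL S N p := fun p => by
    simp only [f, map_sum, map_smul, hg]
    exact e.sum_dual_apply_smul_coord _
  have hf' : ∀ p v', Adm S v' → Supp (-N) N v' →
      ∑ K ∈ Finset.Icc (-N : ℤ) (N + 1), BT E S (f p).1 v' K
        = ∑ K ∈ Finset.Icc (-N : ℤ) (N + 1), pT S p.1 p.2 v' K := fun p v' h1 h2 =>
    congrArg (fun f : VS S N →ₗ[ℝ] ℝ => f ⟨v', h1, h2⟩) (hf p)
  refine ⟨⟨fun p => (f p).1, ?_, fun p => (f p).2.1, fun p => (f p).2.2, hf', ?_⟩⟩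
  · simp only [f, Submodule.coe_sum, Submodule.coe_smul]
    refine continuous_finsetSum _ fun i _ => ?_
    have hc : Continuous fun p => SolvP.LL S N p (e i) :=
      continuous_finsetSum (Finset.Icc (-N : ℤ) (N + 1)) fun K _ =>
        pair_cont (lvT S K) (eT S (e i).1 K) (sT S (e i).1 K) K
    exact hc.smul (continuous_const (y := (g i).1))
  · intro p hper hodd h0
    have hJ : (⟨JJ (f p).1, adm_JJ (f p).2.1, supp_JJ (f p).2.2⟩ : VS S N) = f p := by
      apply inj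
      rw [hf]
      ext v'
      have h1 := hf' p (JJ v'.1) (adm_JJ v'.2.1) (supp_JJ v'.2.2)
      change ∑ K ∈ Finset.Icc (-N : ℤ) (N + 1), BT E S (JJ (f p).1) v'.1 K
        = ∑ K ∈ Finset.Icc (-N : ℤ) (N + 1), pT S p.1 p.2 v'.1 K
      have h2 : ∀ K, BT E S (JJ (f p).1) v'.1 K = BT E S (f p).1 (JJ v'.1) K := fun K => by
        rw [← BT_JJ E hD hP hK hF hS K (f p).2.1 (adm_JJ v'.2.1), JJ_JJ]
      have h3 : ∀ K, pT S p.1 p.2 (JJ v'.1) K = pT S p.1 p.2 v'.1 K := fun K => by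
        have := pT_JJ hD hP hS v'.2.1 (hper K).1 (hper K).2
          (fun u hu => by rw [(hodd K u).1, h0 K u hu, neg_zero])
        simp only [(hodd K _).1, (hodd K _).2, neg_neg] at this
        exact this
      simp only [h2, h1, h3]
    have hJ' : JJ (f p).1 = (f p).1 := congrArg Subtype.val hJ
    intro k z
    have e1 := congrFun (congrFun (congrArg Prod.fst hJ') k) z
    have e2 := congrFun (congrFun (congrArg Prod.snd hJ') k) z
    simp only [JJ] at e1 e2
    exact ⟨by rw [← e1, neg_neg], e2⟩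

end Pool.Agent.P.MP_cc4a10_gt
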