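import Pool.Agent.P.MP_cc4a10_gt.St

/-!
Package Stage: arithmetic of the stages.
-/

open Set Filter Topology Complex Metric
open scoped ComplexConjugate Real

noncomputable section

namespace Pool.Agent.P.MP_cc4a10_gt

namespace StageP

theorem bb_mono (j0 : ℕ) : StrictMono (bb j0) :=
  strictMono_nat_of_lt_succ fun i => by simp only [bb]; omega

theorem bb_even (j0 i : ℕ) : (bb j0 i + j0 + i) % 2 = 0 := by
  induction i with
  | zero => simp only [bb]; omega
  | succ i ih => simp only [bb]; omega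

theorem stg_eq {j0 r : ℕ} {k : ℤ} (h : ∀ i, bb j0 i < k.natAbs ↔ i < r) : stg j0 k = j0 + r := by
  unfold stg
  congr 1
  rw [← Finset.card_range r]
  congr 1
  ext i
  simp only [Finset.mem_filter, Finset.mem_range, ← h]
  exact ⟨fun a => a.2, fun a => ⟨lt_of_le_of_lt ((bb_mono j0).id_le i) a, a⟩⟩

theorem exists_idx (j0 n : ℕ) : ∃ r, ∀ i, bb j0 i < n ↔ i < r := by
  have h : ∃ i, n ≤ bb j0 i := ⟨n, (bb_mono j0).id_le n⟩
  refine ⟨Nat.find h, fun i => ⟨fun a => ?_, fun a => not_le.1 (Nat.find_min h a)⟩⟩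
  by_contra b
  have := (Nat.find_spec h).trans ((bb_mono j0).monotone (not_lt.1 b))
  omega

theorem stg_zero {j0 : ℕ} {k : ℤ} (h : k.natAbs ≤ bb j0 0) : stg j0 k = j0 :=
  stg_eq (r := 0) fun i => by
    have := (bb_mono j0).monotone (Nat.zero_le i)
    omega

theorem stg_mid {j0 i : ℕ} {k : ℤ} (h1 : bb j0 i < k.natAbs) (h2 : k.natAbs ≤ bb j0 (i + 1)) :
    stg j0 k = j0 + i + 1 :=
  stg_eq (r := i + 1) fun i' => by
    constructor
    · intro a
      exact (bb_mono j0).lt_iff_lt.1 (lt_of_lt_of_le a h2)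
    · intro a
      exact lt_of_le_of_lt ((bb_mono j0).monotone (Nat.lt_succ_iff.1 a)) h1

theorem step {j0 : ℕ} {k k' : ℤ} (h : k'.natAbs = k.natAbs + 1) :
    stg j0 k' = stg j0 k ∨ (stg j0 k' = stg j0 k + 1 ∧ (k.natAbs + stg j0 k) % 2 = 0) := by
  obtain ⟨r, hr⟩ := exists_idx j0 k.natAbs
  have e := stg_eq hr
  have h1 : k.natAbs ≤ bb j0 r := not_lt.1 fun a => lt_irrefl _ ((hr r).1 a)
  rcases h1.lt_or_eq with h2 | h2
  · left
    rw [e]
    refine stg_eq fun i => ⟨fun a => ?_, fun a => by have := (hr i).2 a; omega⟩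
    exact (bb_mono j0).lt_iff_lt.1 (by omega)
  · right
    have := bb_even j0 r
    refine ⟨?_, by omega⟩
    rw [e, add_assoc]
    refine stg_eq fun i => ?_
    rw [h, h2, Nat.lt_succ_iff, Nat.lt_succ_iff]
    exact (bb_mono j0).le_iff_le

theorem ok (j0 : ℕ) : (SS j0).ok := by
  intro k
  simp only [SS, ne_eq, decide_eq_decide, decide_eq_true_eq, Nat.even_iff]
  rcases le_or_gt 0 k with h | h
  · have := step (j0 := j0) (k := k) (k' := k + 1) (by omega)
    omega
  · have := step (j0 := j0) (k := k + 1) (k' := k) (by omega)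
    omega

theorem len_tt (j : ℕ) : 1 / 2 ≤ (len j : ℝ) * tt j ^ 17 ∧ (len j : ℝ) * tt j ^ 17 ≤ 1 := by
  have e : (len j : ℝ) * tt j ^ 17 = (2 : ℝ) ^ (((17 * j / 32 : ℕ) : ℝ) - 17 * j / 32) := by
    unfold len tt
    rw [← Real.rpow_natCast _ 17, ← Real.rpow_mul (by norm_num), Nat.cast_pow, Nat.cast_ofNat,
      ← Real.rpow_natCast, ← Real.rpow_add (by norm_num)]
    congr 1
    push_cast
    ring
  have h1 : (32 : ℝ) * ((17 * j / 32 : ℕ) : ℝ) ≤ 17 * j := by
    exact_mod_cast (by omega : 32 * (17 * j / 32) ≤ 17 * j)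
  have h2 : (17 : ℝ) * j ≤ 32 * ((17 * j / 32 : ℕ) : ℝ) + 32 := by
    exact_mod_cast (by omega : 17 * j ≤ 32 * (17 * j / 32) + 32)
  rw [e]
  constructor
  · calc (1 / 2 : ℝ) = 2 ^ (-1 : ℝ) := by rw [Real.rpow_neg_one]; norm_num
      _ ≤ _ := Real.rpow_le_rpow_of_exponent_le (by norm_num) (by linarith)
  · exact Real.rpow_le_one_of_one_le_of_nonpos (by norm_num) (by linarith)

theorem dd_add_two (m : ℕ) : dd (m + 2) = dd m / 2 := by
  unfold dd
  rw [show -((m + 2 : ℕ) : ℝ) / 2 = -(m : ℝ) / 2 - 1 by push_cast; ring,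
    Real.rpow_sub (by norm_num), Real.rpow_one]

theorem half_le (j : ℕ) : 1 / 2 ≤ (len j : ℝ) * dd j * tt j := by
  rw [← tt_pow_16, mul_assoc, ← pow_succ]; exact (len_tt j).1

theorem diverge (j0 : ℕ) (K : ℤ) (R : ℝ) :
    ∃ n : ℕ, R ≤ ∑ i ∈ Finset.range n, dd (stg j0 (K + i) + 2) := by
  have key : ∀ N : ℕ, ∃ n : ℕ, K + n = bb j0 (K.natAbs + N) + 1 ∧
      (N : ℝ) / 2 ≤ ∑ i ∈ Finset.range n, dd (stg j0 (K + i) + 2) := by
    intro N
    induction N with
    | zero =>
      have := (bb_mono j0).id_le K.natAbs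
      refine ⟨(bb j0 K.natAbs + 1 - K).toNat, by simp only [id, add_zero] at this ⊢; omega, ?_⟩
      simpa using Finset.sum_nonneg fun i _ => (dd_pos _).le
    | succ N ih =>
      obtain ⟨n, h1, h2⟩ := ih
      have e : bb j0 (K.natAbs + N + 1)
          = bb j0 (K.natAbs + N) + 2 * len (j0 + (K.natAbs + N) + 1) + 1 := rfl
      refine ⟨n + (2 * len (j0 + (K.natAbs + N) + 1) + 1), by rw [← add_assoc K.natAbs, e]; omega, ?_⟩
      rw [Finset.sum_range_add]
      have h3 : ∀ i ∈ Finset.range (2 * len (j0 + (K.natAbs + N) + 1) + 1),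
          dd (stg j0 (K + (n + i : ℕ)) + 2) = dd (j0 + (K.natAbs + N) + 1) / 2 := by
        intro i hi
        rw [Finset.mem_range] at hi
        rw [stg_mid (i := K.natAbs + N) (by omega) (by omega), dd_add_two]
      rw [Finset.sum_congr rfl h3, Finset.sum_const, Finset.card_range, nsmul_eq_mul]
      have h4 := half_le (j0 + (K.natAbs + N) + 1)
      have h5 := tt_le_one (j0 + (K.natAbs + N) + 1)
      have h6 := dd_pos (j0 + (K.natAbs + N) + 1)
      have h7 : 0 ≤ (len (j0 + (K.natAbs + N) + 1) : ℝ) * dd (j0 + (K.natAbs + N) + 1) := by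
        positivity
      push_cast
      nlinarith
  obtain ⟨N, hN⟩ := exists_nat_ge (2 * R)
  obtain ⟨n, -, h⟩ := key N
  exact ⟨n, by linarith⟩

theorem mK_le (j0 : ℕ) (K : ℤ) : mK (SS j0) K ≤ stg j0 K + 2 ∧ stg j0 K ≤ mK (SS j0) K := by
  have := ok j0 (K - 1)
  rw [sub_add_cancel] at this
  simp only [mK, jl, SS] at this ⊢
  omega

theorem card_le (j0 j : ℕ) (T : Finset ℤ) :
    (T.filter (fun K => stg j0 K = j)).card ≤ 4 * len j + 3 := by
  rcases lt_trichotomy j j0 with h | h | h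
  · rw [Finset.filter_eq_empty_iff.2 fun K _ => by unfold stg; omega]
    simp
  · subst h
    have : T.filter (fun K => stg j K = j) ⊆ Finset.Icc (-bb j 0 : ℤ) (bb j 0) := by
      intro K hK
      obtain ⟨r, hr⟩ := exists_idx j K.natAbs
      have e := stg_eq hr
      have := hr 0
      rw [(Finset.mem_filter.1 hK).2] at e
      rw [Finset.mem_Icc]
      omega
    refine (Finset.card_le_card this).trans ?_
    rw [Int.card_Icc]
    simp only [bb]
    omega
  · obtain ⟨i, rfl⟩ : ∃ i, j = j0 + i + 1 := ⟨j - j0 - 1, by omega⟩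
    have : T.filter (fun K => stg j0 K = j0 + i + 1) ⊆
        Finset.Ioc (bb j0 i : ℤ) (bb j0 (i + 1)) ∪ Finset.Ico (-bb j0 (i + 1) : ℤ) (-bb j0 i) := by
      intro K hK
      obtain ⟨r, hr⟩ := exists_idx j0 K.natAbs
      have e := stg_eq hr
      have a1 := hr i
      have a2 := hr (i + 1)
      rw [(Finset.mem_filter.1 hK).2] at e
      rw [Finset.mem_union, Finset.mem_Ioc, Finset.mem_Ico]
      omega
    refine (Finset.card_le_card this).trans ((Finset.card_union_le _ _).trans ?_)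
    rw [Int.card_Ioc, Int.card_Ico]
    simp only [bb]
    omega

theorem summ : Summable (fun j : ℕ => 7 * ((j : ℝ) + 2) ^ 2 * tt j) := by
  have hr : ‖tt 1‖ < 1 := by
    rw [Real.norm_of_nonneg (tt_pos 1).le]; unfold tt
    exact Real.rpow_lt_one_of_one_lt_of_neg (by norm_num) (by norm_num)
  have e : ∀ m, tt m = tt 1 ^ m := fun m => by
    unfold tt
    rw [← Real.rpow_natCast, ← Real.rpow_mul (by norm_num)]; congr 1; push_cast; ring
  have h := fun k => summable_pow_mul_geometric_of_norm_lt_one k hr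
  refine ((((h 2).mul_left 7).add ((h 1).mul_left 28)).add ((h 0).mul_left 28)).congr fun j => ?_
  rw [e j]; ring

theorem small (η : ℝ) (hη : 0 < η) : ∃ j1, ∀ j0, j1 ≤ j0 → ∀ T : Finset ℤ,
    ∑ K ∈ T, (mK (SS j0) K : ℝ) ^ 2 * tt (mK (SS j0) K) ^ 18 ≤ η := by
  obtain ⟨s, hs⟩ := summable_iff_vanishing_norm.1 summ η hη
  refine ⟨s.sup id + 1, fun j0 hj T => ?_⟩
  have hd : Disjoint (T.image (stg j0)) s := by
    rw [Finset.disjoint_left]
    intro j h1 h2
    obtain ⟨K, -, rfl⟩ := Finset.mem_image.1 h1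
    have := Finset.le_sup (f := id) h2
    simp only [id] at this
    have : j0 ≤ stg j0 K := Nat.le_add_right _ _
    omega
  refine le_trans ?_ ((le_abs_self _).trans (hs _ hd).le)
  rw [← Finset.sum_fiberwise_of_maps_to (g := stg j0) (t := T.image (stg j0))
    fun K hK => Finset.mem_image_of_mem _ hK]
  refine Finset.sum_le_sum fun j _ => ?_
  have ht := tt_pos j
  refine (Finset.sum_le_card_nsmul _ _ (((j : ℝ) + 2) ^ 2 * tt j ^ 18) fun K hK => ?_).trans ?_
  · have e := (Finset.mem_filter.1 hK).2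
    have h := mK_le j0 K
    rw [e] at h
    have h1 : (mK (SS j0) K : ℝ) ≤ j + 2 := by exact_mod_cast h.1
    have h2 := tt_anti h.2
    have h3 := tt_pos (mK (SS j0) K)
    gcongr
  · have h1 : ((T.filter (fun K => stg j0 K = j)).card : ℝ) ≤ 4 * len j + 3 := by
      exact_mod_cast card_le j0 j T
    have h2 := (len_tt j).2
    have h3 : tt j ^ 17 ≤ 1 := pow_le_one₀ ht.le (tt_le_one j)
    rw [nsmul_eq_mul]
    calc _ ≤ (4 * len j + 3) * (((j : ℝ) + 2) ^ 2 * tt j ^ 18) := by gcongr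
      _ = (4 * (len j * tt j ^ 17) + 3 * tt j ^ 17) * (((j : ℝ) + 2) ^ 2 * tt j) := by ring
      _ ≤ (4 * 1 + 3 * 1) * (((j : ℝ) + 2) ^ 2 * tt j) := by gcongr
      _ = _ := by ring

theorem long (η : ℝ) (hη : 0 < η) :
    ∃ j1, ∀ j : ℕ, j1 ≤ j → (j + 3 : ℝ) ≤ η * (len j * dd (j + 3)) := by
  obtain ⟨j1, h⟩ := exists_pow_mul_tt_le 1 (η := η / 32) (by positivity)
  refine ⟨j1 + 1, fun j hj => ?_⟩
  have h1 := h j (by omega)
  have h2 : (1 : ℝ) ≤ j := by exact_mod_cast (by omega : 1 ≤ j)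
  have h3 : dd j / 4 ≤ dd (j + 3) := by
    have := dd_anti (show j + 3 ≤ j + 2 + 2 by omega)
    rw [dd_add_two, dd_add_two] at this
    linarith
  have h4 := half_le j
  have ht := tt_pos j
  have hd := dd_pos j
  rw [pow_one] at h1
  calc (j + 3 : ℝ) ≤ 8 * j * (1 / 2) := by linarith
    _ ≤ 8 * j * (len j * dd j * tt j) := by gcongr
    _ = 32 * (j * tt j) * (len j * (dd j / 4)) := by ring
    _ ≤ 32 * (η / 32) * (len j * dd (j + 3)) := by gcongr
    _ = _ := by ring

end StageP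

open StageP in
theorem pStage : S_Stage := by
  refine ⟨fun j0 => ⟨ok j0, fun k => Nat.le_add_right _ _, fun k => ?_, fun k => stg_zero,
    fun i k => stg_mid, bb_mono j0, strictMono_nat_of_lt_succ fun i => ?_, fun K R => ?_,
    fun K R => ?_⟩, small, long⟩
  · simp only [stg, Int.natAbs_neg]
  · simp only [NN, bb]; omega
  · obtain ⟨n, h⟩ := diverge j0 K R
    exact ⟨n, h.trans (Finset.sum_le_sum fun i _ => dd_anti (mK_le j0 _).1)⟩
  · obtain ⟨n, h⟩ := diverge j0 (-K) R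
    refine ⟨n, h.trans (Finset.sum_le_sum fun i _ => dd_anti ((mK_le j0 _).1.trans_eq ?_))⟩
    rw [show -K + i = -(K - i) by ring]
    simp only [stg, Int.natAbs_neg]

end Pool.Agent.P.MP_cc4a10_gt
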