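import Pool.Agent.P.MP_cc4a10_gt.St

/-! Sums of the weights over the torus. -/

open Finset

namespace Pool.Agent.P.MP_cc4a10_gt

namespace SumP

/-- the shell of a Gaussian integer -/
def sh (k : GI) : ℕ := max k.re.natAbs k.im.natAbs

theorem sh_le (k : GI) : (sh k : ℝ) ≤ ‖(k : ℂ)‖ := by
  have a := Complex.abs_re_le_norm (k : ℂ)
  have b := Complex.abs_im_le_norm (k : ℂ)
  rw [← GaussianInt.intCast_re] at a
  rw [← GaussianInt.intCast_im] at b
  rw [sh, Nat.cast_max, Nat.cast_natAbs, Nat.cast_natAbs, Int.cast_abs, Int.cast_abs]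
  exact max_le a b

theorem card_sh (R : Finset GI) (n : ℕ) : (R.filter fun k => sh k = n).card ≤ 8 * (n + 1) := by
  have h := card_le_card_of_injOn (s := R.filter fun k => sh k = n)
    (t := ({(n : ℤ), -(n : ℤ)} ×ˢ Icc (-(n : ℤ)) n) ∪ (Icc (-(n : ℤ)) n ×ˢ {(n : ℤ), -(n : ℤ)}))
    (fun k => (k.re, k.im)) (fun k hk => by
      have := (mem_filter.1 (mem_coe.1 hk)).2
      simp only [sh] at this
      simp only [coe_union, coe_product, coe_insert, coe_singleton, coe_Icc, Set.mem_union,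
        Set.mem_prod, Set.mem_insert_iff, Set.mem_singleton_iff, Set.mem_Icc]
      omega)
    fun a _ b _ h => Zsqrtd.ext (congrArg Prod.fst h) (congrArg Prod.snd h)
  refine h.trans ((card_union_le _ _).trans ?_)
  rw [card_product, card_product, Int.card_Icc]
  have := card_le_two (a := (n : ℤ)) (b := -(n : ℤ))
  have e : ((n : ℤ) + 1 - -(n : ℤ)).toNat = 2 * n + 1 := by omega
  rw [e]; nlinarith

theorem key (h : S_Box) (m p : ℕ) : ts m (fun u => 1 / Hh m u ^ (p + 1)) ≤
    8 * ∑ n ∈ range (⌊1 / dd m⌋₊ + 1), 1 / ((n : ℝ) + 1) ^ p := by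
  obtain ⟨h1, -, h2, -, -, h3, ⟨R, hR, hR'⟩, -⟩ := h m
  rw [(h3 ℝ _ (fun u w => by rw [h2])).2 R hR, mul_sum,
    ← sum_fiberwise_of_maps_to (g := sh) (t := range (⌊1 / dd m⌋₊ + 1)) fun k hk => by
      have := (h1 k).2.1
      rw [hR' k hk] at this
      refine mem_range.2 (Nat.lt_succ_of_le (Nat.le_floor ((sh_le k).trans ?_)))
      rw [le_div_iff₀ (dd_pos m)]; linarith]
  refine sum_le_sum fun n _ => ?_
  refine (sum_le_card_nsmul _ _ (1 / ((n : ℝ) + 1) ^ (p + 1)) fun k hk => ?_).trans ?_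
  · obtain ⟨a, b⟩ := mem_filter.1 hk
    have := sh_le k
    rw [b] at this
    rw [Hh, hR' k a]
    exact one_div_le_one_div_of_le (by positivity)
      (pow_le_pow_left₀ (by positivity) (by linarith) _)
  · have : ((R.filter fun k => sh k = n).card : ℝ) ≤ 8 * (n + 1) := by exact_mod_cast card_sh R n
    rw [nsmul_eq_mul]
    refine (mul_le_mul_of_nonneg_right this (by positivity)).trans_eq ?_
    field_simp; ring

theorem harm (N : ℕ) : ∑ n ∈ range (N + 1), 1 / ((n : ℝ) + 1) ≤ 1 + Real.log (N + 1) := by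
  induction N with
  | zero => simp
  | succ N ih =>
    rw [sum_range_succ]
    have a := Real.one_sub_inv_le_log_of_pos (x := ((N : ℝ) + 1 + 1) / (N + 1)) (by positivity)
    rw [Real.log_div (by positivity) (by positivity)] at a
    have b : 1 - (((N : ℝ) + 1 + 1) / (N + 1))⁻¹ = 1 / (N + 1 + 1) := by field_simp; ring
    push_cast; linarith

theorem sqs (N : ℕ) :
    ∑ n ∈ range (N + 1), 1 / ((n : ℝ) + 1) ^ 2 ≤ 2 - 1 / ((N : ℝ) + 1) := by
  induction N with
  | zero => norm_num
  | succ N ih =>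
    rw [sum_range_succ]
    have b : 1 / ((N : ℝ) + 1 + 1) ^ 2 ≤ 1 / (N + 1) - 1 / (N + 1 + 1) := by
      rw [div_sub_div _ _ (by positivity) (by positivity), div_le_div_iff₀ (by positivity)
        (by positivity)]
      nlinarith [Nat.cast_nonneg (α := ℝ) N]
    push_cast; linarith

end SumP

open SumP in
theorem pSum (h : S_Box) : S_Sum := by
  refine ⟨24, by norm_num, fun m hm => ?_⟩
  have d0 := dd_pos m
  have d1 : 1 ≤ 1 / dd m := by rw [le_div_iff₀ d0]; linarith [dd_le_one m]
  have f := Nat.floor_le (zero_le_one.trans d1)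
  refine ⟨?_, ?_, ?_⟩
  · have := key h m 0
    simp only [zero_add, pow_one, pow_zero, div_one, sum_const, card_range, nsmul_eq_mul,
      mul_one] at this
    push_cast at this
    rw [div_eq_mul_one_div 24]; linarith
  · have := key h m 1
    simp only [pow_one] at this
    have a := harm ⌊1 / dd m⌋₊
    have b : (1 / dd m) ^ 2 = 2 ^ m := by rw [div_pow, dd_sq]; simp
    have c : (⌊1 / dd m⌋₊ : ℝ) + 1 ≤ 2 ^ (m + 1) := by rw [pow_succ]; nlinarith
    have d := Real.log_le_log (by positivity) c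
    rw [Real.log_pow] at d
    have e : Real.log 2 ≤ 1 := by linarith [Real.log_le_sub_one_of_pos (x := 2) (by norm_num)]
    have g : (1 : ℝ) ≤ m := by exact_mod_cast hm
    push_cast at d
    nlinarith
  · have := key h m 2
    have a := sqs ⌊1 / dd m⌋₊
    have : 0 ≤ 1 / ((⌊1 / dd m⌋₊ : ℝ) + 1) := by positivity
    linarith

end Pool.Agent.P.MP_cc4a10_gt
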