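import Pool.Agent.P.MP_cc4a10_gt.St

/-! The torus sums are the symbols of a Bloch function. -/

open Set Filter Topology Complex Metric
open scoped ComplexConjugate Real

noncomputable section

namespace Pool.Agent.P.MP_cc4a10_gt.TorP

theorem ts_hasDerivAt (m : ℕ) {F : GI → ℂ → ℂ} {F' : GI → ℂ} {z : ℂ}
    (h : ∀ w, HasDerivAt (F w) (F' w) z) :
    HasDerivAt (fun z => ts m (fun w => F w z)) (ts m F') z := by
  unfold ts
  exact (HasDerivAt.fun_sum fun a _ => HasDerivAt.fun_sum fun b _ => h _).fun_const_smul _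

theorem ts_hasFDerivAt (m : ℕ) {F : GI → ℂ → ℂ} {F' : GI → ℂ →L[ℝ] ℂ} {z : ℂ}
    (h : ∀ w, HasFDerivAt (F w) (F' w) z) :
    HasFDerivAt (fun z => ts m (fun w => F w z)) (ts m F') z := by
  unfold ts
  exact (HasFDerivAt.fun_sum fun a _ => HasFDerivAt.fun_sum fun b _ => h _).fun_const_smul _

theorem ts_tendsto (m : ℕ) {F : GI → ℂ → ℂ} {a : GI → ℂ} {l : Filter ℂ}
    (h : ∀ w, Tendsto (F w) l (𝓝 (a w))) :
    Tendsto (fun z => ts m (fun w => F w z)) l (𝓝 (ts m a)) := by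
  unfold ts
  exact (tendsto_finsetSum _ fun a _ => tendsto_finsetSum _ fun b _ => h _).const_smul _

theorem ts_apply (m : ℕ) (F : GI → ℂ →L[ℝ] ℂ) (h : ℂ) : ts m F h = ts m (fun w => F w h) :=
  ts_map (ContinuousLinearMap.apply ℝ ℂ h).toLinearMap m F

theorem ts_mul_right (m : ℕ) (a : ℂ) (F : GI → ℂ) : ts m (fun u => F u * a) = ts m F * a := by
  simp only [mul_comm _ a, ts_mul_left]

theorem al_om (j : ℕ) : al ^ j * ((om ^ j : GI) : ℂ) = ((gi ^ j : GI) : ℂ) := by
  rw [map_pow, map_pow, coe_om, coe_gi, ← mul_pow]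
  congr 1
  unfold al
  linear_combination (1 / 2 : ℂ) * I_mul_I

theorem al_star (j : ℕ) : al ^ j * ((star om ^ j : GI) : ℂ) = 1 := by
  rw [map_pow, ← mul_pow, star_om, map_mul, map_neg, coe_om, coe_gi]
  have : al * ((1 + I) * -I) = 1 := by
    unfold al
    linear_combination (-(1 / 2 : ℂ) * I - 1) * I_mul_I
  rw [this, one_pow]

theorem al_ne (j : ℕ) : al ^ j ≠ 0 := left_ne_zero_of_mul_eq_one (al_star j)

theorem norm_al : ‖al‖ ^ 2 = 1 / 2 := by
  rw [Complex.sq_norm, al, normSq_apply]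
  norm_num

theorem norm_al_pow (j : ℕ) : ‖al ^ j‖ ≤ 1 := by
  rw [norm_pow]
  exact pow_le_one₀ (norm_nonneg _) (by nlinarith [norm_al, norm_nonneg al])

theorem log_al (j : ℕ) : Real.log ‖al ^ j‖ = -((j : ℝ) / 2 * Real.log 2) := by
  have h : 2 * Real.log ‖al‖ = -Real.log 2 := by
    have := congrArg Real.log norm_al
    rw [Real.log_pow, one_div, Real.log_inv] at this
    exact_mod_cast this
  rw [norm_pow, Real.log_pow]
  linear_combination (j : ℝ) / 2 * h

theorem ex_add (θ a b : ℂ) : ex θ (a + b) = ex θ a * ex θ b := by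
  unfold ex dot
  rw [← exp_add, mul_add, add_re]
  push_cast
  congr 1
  ring

theorem ex_zero (θ : ℂ) : ex θ 0 = 1 := by simp [ex, dot]

theorem ex_neg (θ a : ℂ) : ex θ (-a) = exp (I * dot θ a) := by
  unfold ex dot
  rw [mul_neg, neg_re]
  push_cast
  congr 1
  ring

theorem conj_ex (θ a : ℂ) : conj (ex θ a) = ex θ (-a) := by
  rw [ex_neg, ex, ← exp_conj]
  simp

theorem ex_per (j : ℕ) (κ w : GI) : ex (thq j κ) ((om ^ j * w : GI) : ℂ) = 1 := by
  have h : conj (thq j κ) * ((om ^ j * w : GI) : ℂ)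
      = ((2 * π : ℝ) : ℂ) * ((star κ * gi ^ j * w : GI) : ℂ) := by
    rw [map_mul GaussianInt.toComplex, map_mul GaussianInt.toComplex,
      map_mul GaussianInt.toComplex, ← al_om, GaussianInt.toComplex_star, thq]
    simp only [map_mul, map_pow, conj_conj, conj_ofReal, map_ofNat]
    push_cast
    ring
  unfold ex dot
  rw [h, re_ofReal_mul, ← GaussianInt.intCast_re, exp_eq_one_iff]
  exact ⟨-(star κ * gi ^ j * w).re, by push_cast; ring⟩

theorem per_ex (j : ℕ) (κ : GI) : Per j (fun w => ex (thq j κ) w) := fun u w => by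
  simp only [map_add, ex_add, ex_per, mul_one]

theorem ts_ex {j : ℕ} {κ : GI} (h : NP (thq j κ)) : ts j (fun w => ex (thq j κ) w) = 0 := by
  by_contra h0
  have h1 : ∀ x : GI, ex (thq j κ) x = 1 := fun x => by
    have := ts_shift (per_ex j κ) x
    simp only [map_add, ex_add, ts_mul_right] at this
    exact (mul_eq_left₀ h0).1 this
  obtain ⟨a, ha⟩ := exp_eq_one_iff.1 (h1 1)
  obtain ⟨b, hb⟩ := exp_eq_one_iff.1 (h1 gi)
  have ha' := congrArg im ha
  have hb' := congrArg im hb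
  simp [dot, coe_gi] at ha' hb'
  refine h ⟨-a, -b⟩ (Complex.ext ?_ ?_)
  · simp [GaussianInt.toComplex_def']
    linarith
  · simp [GaussianInt.toComplex_def']
    linarith

theorem nl_arg {j : ℕ} {z : ℂ} (hz : NL z) (w : GI) : NL (al ^ j * (z + w)) := fun u hu => by
  refine hz (u * star om ^ j - w) ?_
  rw [map_sub, map_mul, ← hu]
  linear_combination (-(z + w)) * al_star j

theorem nl_arg0 {j : ℕ} {w : GI} (hw : ¬om ^ j ∣ w) : NL (al ^ j * (0 + w)) := fun u hu => by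
  apply hw
  have h1 : gi ^ j * w = om ^ j * u := by
    apply GaussianInt.toComplex_injective
    rw [map_mul, map_mul, ← hu, ← al_om]
    ring
  have h2 : (-gi) ^ j * gi ^ j = 1 := by
    rw [← mul_pow, neg_mul, gi_mul_gi, neg_neg, one_pow]
  exact ⟨(-gi) ^ j * u, by rw [mul_left_comm, ← h1, ← mul_assoc, h2, one_mul]⟩

theorem arg_per (j : ℕ) (z : ℂ) (w u : GI) :
    al ^ j * (z + ((w + om ^ j * u : GI) : ℂ)) = al ^ j * (z + w) + Lm 0 ((gi ^ j * u : GI) : ℂ) := by
  rw [map_add, map_mul, map_mul, ← al_om, Lm]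
  ring

theorem nl_small {z : ℂ} (h : ‖z‖ < 1) (h0 : z ≠ 0) : NL z := fun w hw => by
  subst hw
  have h1 : w ≠ 0 := fun h => h0 (by simp [h])
  have h2 : (1 : ℝ) ≤ (w.norm : ℝ) := by
    exact_mod_cast (GaussianInt.norm_pos.2 h1)
  rw [GaussianInt.intCast_real_norm, normSq_eq_norm_sq] at h2
  nlinarith [norm_nonneg (w : ℂ)]

theorem nl_half : NL (1 / 2) := nl_small (by norm_num) (by norm_num)

theorem nl_hf : NL hf := nl_small (by
  have : ‖hf‖ ^ 2 = 1 / 2 := norm_al
  nlinarith [norm_nonneg hf]) (fun h => al_ne 1 (by rw [pow_one]; exact h))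

variable (E : Ell) (j : ℕ) (κ : GI)

/-- The Bloch function. -/
def fB (z : ℂ) : ℂ := al ^ j * ts j (fun w => E.Z 0 (al ^ j * (z + w)) * ex (thq j κ) w)
/-- Its potential. -/
def gB (z : ℂ) : ℂ := ts j (fun w => (E.Gr 0 (al ^ j * (z + w)) : ℂ) * ex (thq j κ) w)

theorem perZ (z : ℂ) : Per j (fun w => E.Z 0 (al ^ j * (z + w)) * ex (thq j κ) w) := fun u w => by
  have := per_ex j κ u w
  simp only at this ⊢
  rw [this, arg_per, E.Zper 0 (by norm_num)]

theorem perG (z : ℂ) :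
    Per j (fun w => (E.Gr 0 (al ^ j * (z + w)) : ℂ) * ex (thq j κ) w) := fun u w => by
  have := per_ex j κ u w
  simp only at this ⊢
  rw [this, arg_per, E.Gper 0 (by norm_num)]

theorem bloch {j : ℕ} {θ : ℂ} (K : ℂ → ℂ) (z : ℂ) (x : GI)
    (h : Per j (fun w => K (al ^ j * (z + w)) * ex θ w)) :
    ts j (fun w => K (al ^ j * (z + x + w)) * ex θ w)
      = exp (I * dot θ x) * ts j (fun w => K (al ^ j * (z + w)) * ex θ w) := by
  rw [← ts_shift h x, ← ts_mul_left]
  congr 1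
  funext w
  rw [map_add, ex_add, ← ex_neg, show z + x + w = z + (w + x) by ring]
  have : ex θ (-x) * ex θ x = 1 := by rw [← ex_add, neg_add_cancel, ex_zero]
  linear_combination (-K (al ^ j * (z + (w + x))) * ex θ w) * this

variable {j κ}

theorem fB_eq (h : NP (thq j κ)) (z : ℂ) : fB E j κ z = al ^ j * ts j (fun w =>
    (E.Z 0 (al ^ j * (z + w)) + π * conj (al ^ j * z)) * ex (thq j κ) w) := by
  simp only [add_mul, ts_add, ts_mul_left, ts_ex h, mul_zero, add_zero, fB]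

theorem term_deriv (hK : ∀ z, NL z → HasDerivAt (fun w => E.Z 0 w + π * conj w) (-E.wp z) z)
    {z : ℂ} {w : GI} (hz : NL (al ^ j * (z + w))) :
    HasDerivAt (fun z => (E.Z 0 (al ^ j * (z + w)) + π * conj (al ^ j * z)) * ex (thq j κ) w)
      (-(al ^ j * (E.wp (al ^ j * (z + w)) * ex (thq j κ) w))) z := by
  have h1 : HasDerivAt (fun z : ℂ => al ^ j * (z + w)) (al ^ j) z := by
    simpa using ((hasDerivAt_id z).add_const (w : ℂ)).const_mul (al ^ j)
  have h2 := (((hK _ hz).comp z h1).sub_const (π * conj (al ^ j * w))).mul_const (ex (thq j κ) w)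
  refine (h2.congr_deriv (by ring)).congr_of_eventuallyEq (Eventually.of_forall fun y => ?_)
  simp only [Function.comp, mul_add, map_add]
  ring

theorem fB_deriv (hK : ∀ z, NL z → HasDerivAt (fun w => E.Z 0 w + π * conj w) (-E.wp z) z)
    (h : NP (thq j κ)) {z : ℂ} (hz : NL z) : HasDerivAt (fB E j κ)
      (-(al ^ (2 * j) * ts j (fun w => E.wp (al ^ j * (z + w)) * ex (thq j κ) w))) z := by
  rw [funext (fB_eq E h)]
  refine ((ts_hasDerivAt j fun w => term_deriv E (κ := κ) hK (nl_arg hz w)).const_mul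
    (al ^ j)).congr_deriv ?_
  rw [ts_neg, ts_mul_left]
  ring

theorem small_ev (j : ℕ) : ∀ᶠ z : ℂ in 𝓝 0, ‖al ^ j * z‖ < 9 / 10 := by
  filter_upwards [ball_mem_nhds (0 : ℂ) (show (0 : ℝ) < 9 / 10 by norm_num)] with z hz
  rw [norm_mul]
  have := mem_ball_zero_iff.1 hz
  nlinarith [norm_al_pow j, norm_nonneg z, norm_nonneg (al ^ j)]

theorem bE_zero : bE 0 = π := by simp [bE]

theorem F_an : AnalyticAt ℂ (E.F 0) 0 :=
  (E.hol 0 (by norm_num)).analyticAt (ball_mem_nhds _ (by norm_num))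

theorem g_deriv (hB : S_Box)
    (hK : ∀ z, NL z → HasDerivAt (fun w => E.Z 0 w + π * conj w) (-E.wp z) z) (h0 : E.wp 0 = 0)
    (h : NP (thq j κ)) : HasDerivAt (fun z => fB E j κ z - z⁻¹)
      (-(al ^ (2 * j) * ts j (fun w => E.wp (al ^ j * (0 + w)) * ex (thq j κ) w))) 0 := by
  classical
  have e : (fun z => fB E j κ z - z⁻¹) = fun z => al ^ j * ts j (fun w =>
      (E.Z 0 (al ^ j * (z + w)) + π * conj (al ^ j * z)) * ex (thq j κ) w
        - if om ^ j ∣ w - 0 then (al ^ j * z)⁻¹ else 0) := by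
    funext z
    rw [ts_sub, ((hB j).2.2.2.2.2.1 ℂ (fun _ => (al ^ j * z)⁻¹) fun _ _ => rfl).1 0, mul_sub,
      ← fB_eq E h, mul_inv, mul_inv_cancel_left₀ (al_ne j)]
  rw [e]
  have key : ∀ w : GI, HasDerivAt (fun z =>
      (E.Z 0 (al ^ j * (z + w)) + π * conj (al ^ j * z)) * ex (thq j κ) w
        - if om ^ j ∣ w - 0 then (al ^ j * z)⁻¹ else 0)
      (-(al ^ j * (E.wp (al ^ j * (0 + w)) * ex (thq j κ) w))) 0 := by
    intro w
    by_cases hw : om ^ j ∣ w - 0
    · simp only [if_pos hw]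
      obtain ⟨u, rfl⟩ : om ^ j ∣ w := by simpa using hw
      have h1 : ∀ z : ℂ, al ^ j * (z + ((om ^ j * u : GI) : ℂ))
          = al ^ j * z + Lm 0 ((gi ^ j * u : GI) : ℂ) := fun z => by
        simpa using arg_per j z 0 u
      have h2 : E.wp (al ^ j * (0 + ((om ^ j * u : GI) : ℂ))) = 0 := by
        rw [h1, Lm, zero_mul, add_zero, E.Wper, mul_zero, h0]
      have h3 : deriv (deriv (E.F 0)) 0 = 0 := by
        have := E.Wloc 0 (by norm_num)
        simpa [h0] using this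
      have h4 : HasDerivAt (deriv (E.F 0)) 0 (al ^ j * 0) := by
        rw [mul_zero, ← h3]
        simpa [h3] using (F_an E).deriv.differentiableAt.hasDerivAt
      have h5 := h4.comp (0 : ℂ) ((hasDerivAt_id (0 : ℂ)).const_mul (al ^ j))
      rw [h2, zero_mul, mul_zero, neg_zero]
      rw [zero_mul] at h5
      refine h5.congr_of_eventuallyEq ((small_ev j).mono fun z hz => ?_)
      simp only [h1, E.Zper 0 (by norm_num), ex_per, E.Zloc 0 (by norm_num) _ hz, bE_zero,
        Function.comp, id]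
      ring
    · simp only [if_neg hw]
      simp only [sub_zero]
      exact term_deriv E hK (nl_arg0 (by simpa using hw))
  refine ((ts_hasDerivAt j key).const_mul (al ^ j)).congr_deriv ?_
  rw [ts_neg, ts_mul_left]
  ring

theorem gB_fderiv (hG : ∀ z, NL z → HasFDerivAt (E.Gr 0) (hl (E.Z 0 z)) z)
    (ho : ∀ z, E.Z 0 (-z) = -E.Z 0 z) {z : ℂ} (hz : NL z) :
    HasFDerivAt (gB E j κ) (wl (fB E j κ z / 2) (fB E j κ (-z) / 2)) z := by
  have h1 : ∀ w : GI, HasFDerivAt (fun z : ℂ => al ^ j * (z + w))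
      (ContinuousLinearMap.mul ℝ ℂ (al ^ j)) z := fun w => by
    simpa [mul_add] using (ContinuousLinearMap.mul ℝ ℂ (al ^ j)).hasFDerivAt.add_const (al ^ j * w)
  have h2 := ts_hasFDerivAt j fun w : GI =>
    (ofRealCLM.hasFDerivAt.comp z ((hG _ (nl_arg hz w)).comp z (h1 w))).mul_const (ex (thq j κ) w)
  refine h2.congr_fderiv (ContinuousLinearMap.ext fun y => ?_)
  have h3 : fB E j κ (-z)
      = -(al ^ j * ts j (fun w => E.Z 0 (al ^ j * (z + w)) * conj (ex (thq j κ) w))) := by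
    rw [fB, ← ts_neg_arg (perZ E j κ (-z)), ← mul_neg, ← ts_neg]
    congr 2
    funext w
    rw [map_neg, conj_ex, ← neg_add, mul_neg, ho, neg_mul]
  have h4 : ∀ a b : ℂ, wl a b y = a * y - conj (b * y) := fun _ _ => rfl
  rw [ts_apply, h4, h3, fB, div_mul_eq_mul_div, div_mul_eq_mul_div, ← ts_mul_left, ← ts_mul_left,
    ← ts_neg, ← ts_mul_right, ← ts_mul_right, div_eq_mul_inv, div_eq_mul_inv, ← ts_mul_right,
    ← ts_mul_right, ts_conj, ← ts_sub]
  congr 1
  funext w
  simp only [smul_apply, ContinuousLinearMap.comp_apply, hl, ofRealCLM_apply,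
    reCLM_apply, ContinuousLinearMap.mul_apply', smul_eq_mul, re_eq_add_conj, map_mul, map_neg,
    conj_conj, map_inv₀, map_ofNat]
  ring

theorem gB_lim (hB : S_Box) (hG : ∀ z, NL z → HasFDerivAt (E.Gr 0) (hl (E.Z 0 z)) z)
    (h0 : E.Gr 0 0 = 0) : Tendsto (fun z => gB E j κ z - Real.log ‖z‖) (𝓝[≠] 0)
      (𝓝 (gB E j κ 0 - ((j : ℝ) / 2 * Real.log 2 : ℝ))) := by
  classical
  have e : ∀ z a : ℂ, gB E j κ z - a = ts j (fun w =>
      (E.Gr 0 (al ^ j * (z + w)) : ℂ) * ex (thq j κ) w - if om ^ j ∣ w - 0 then a else 0) := by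
    intro z a
    rw [ts_sub, ((hB j).2.2.2.2.2.1 ℂ (fun _ => a) fun _ _ => rfl).1 0, gB]
  simp only [e]
  refine ts_tendsto j fun w => ?_
  by_cases hw : om ^ j ∣ w - 0
  · simp only [if_pos hw]
    obtain ⟨u, rfl⟩ : om ^ j ∣ w := by simpa using hw
    have h1 : ∀ z : ℂ, al ^ j * (z + ((om ^ j * u : GI) : ℂ))
        = al ^ j * z + Lm 0 ((gi ^ j * u : GI) : ℂ) := fun z => by
      simpa using arg_per j z 0 u
    simp only [h1, E.Gper 0 (by norm_num), ex_per, mul_one, mul_zero, h0, ← ofReal_sub]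
    refine (continuous_ofReal.tendsto _).comp ?_
    have h2 : Tendsto (fun z : ℂ => al ^ j * z) (𝓝 0) (𝓝 0) :=
      Continuous.tendsto' (by fun_prop) _ _ (by simp)
    have h3 : Tendsto (fun z : ℂ => Real.log ‖al ^ j‖ + (E.F 0 (al ^ j * z)).re
        - bE 0 * ‖al ^ j * z‖ ^ 2 / 2) (𝓝 0) (𝓝 (Real.log ‖al ^ j‖ + (E.F 0 0).re
        - bE 0 * ‖(0 : ℂ)‖ ^ 2 / 2)) :=
      (tendsto_const_nhds.add ((continuous_re.tendsto _).comp
        ((F_an E).continuousAt.tendsto.comp h2))).sub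
        (((h2.norm.pow 2).const_mul _).div_const _)
    rw [E.zero, log_al] at h3
    simp only [zero_re, add_zero, norm_zero, ne_eq, OfNat.ofNat_ne_zero, not_false_eq_true,
      zero_pow, mul_zero, zero_div, sub_zero] at h3
    rw [zero_sub]
    refine (h3.mono_left nhdsWithin_le_nhds).congr' ?_
    filter_upwards [(small_ev j).filter_mono nhdsWithin_le_nhds, self_mem_nhdsWithin] with z hz hz'
    rw [E.Gloc 0 (by norm_num) _ hz, norm_mul (al ^ j) z,
      Real.log_mul (norm_ne_zero_iff.2 (al_ne j)) (norm_ne_zero_iff.2 hz'), log_al]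
    ring
  · simp only [if_neg hw]
    simp only [sub_zero]
    refine Tendsto.mono_left (Tendsto.mul_const _ ((continuous_ofReal.tendsto _).comp ?_))
      nhdsWithin_le_nhds
    exact (hG _ (nl_arg0 (by simpa using hw))).continuousAt.tendsto.comp
      (Continuous.tendsto (f := fun z : ℂ => al ^ j * (z + w)) (by fun_prop) 0)

theorem ts_ex_add (θ o : ℂ) (K : GI → ℂ) :
    ts j (fun w => K w * ex θ (o + w)) = ts j (fun w => K w * ex θ w) * ex θ o := by
  rw [← ts_mul_right]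
  congr 1
  funext w
  rw [ex_add]
  ring

end TorP

open TorP in
theorem pTor (hK : S_Ker0) (hB : S_Box) : S_Tor := by
  intro E j κ h
  obtain ⟨C, -, hC⟩ := hK E
  obtain ⟨-, -, -, -, ho, -, hg0, hw0, -, hG, hZ⟩ := hC 0 (by norm_num)
  have hZ' := fun z hz => (hZ z hz).1
  have hG' : ∀ z, NL z → HasFDerivAt (E.Gr 0) (hl (E.Z 0 z)) z := fun z hz =>
    (hG z fun u => by simpa [Lm] using hz u).1
  refine ⟨⟨fB E j κ, fun z => fB E j κ z - z⁻¹, gB E j κ,
    gB E j κ 0 - ((j : ℝ) / 2 * Real.log 2 : ℝ),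
    fun z hz => (fB_deriv E hZ' h hz).differentiableAt, fun z w => ?_, fun z hz => ?_,
    fun z _ _ => by ring, fun z hz => gB_fderiv E hG' (fun z => (ho z).1) hz, fun z w => ?_,
    gB_lim E hB hG' hg0⟩, ?_⟩
  · rw [fB, bloch (E.Z 0) z w (perZ E j κ z), fB]
    ring
  · refine DifferentiableAt.differentiableWithinAt ?_
    by_cases h0 : z = 0
    · exact h0 ▸ (g_deriv E hB hZ' hw0 h).differentiableAt
    · exact (fB_deriv E hZ' h (nl_small ((mem_ball_zero_iff.1 hz).trans (by norm_num))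
        h0)).differentiableAt.sub (differentiableAt_inv h0)
  · exact bloch (fun y => (E.Gr 0 y : ℂ)) z w (perG E j κ z)
  · simp only [syT, BD.sy, (g_deriv E hB hZ' hw0 h).deriv, (fB_deriv E hZ' h nl_half).deriv,
      (fB_deriv E hZ' h nl_hf).deriv]
    simp only [sW, sZ, sG, ts_ex_add, ex_zero, fB, gB, neg_neg, mul_one, inv_zero, sub_zero,
      mul_assoc]

end Pool.Agent.P.MP_cc4a10_gt
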