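import Pool.Agent.P.MP_cc4a10_gt.St

/-! Sums of the Weierstrass kernel over the torsion points. -/

open Set Filter Topology Complex
open scoped ComplexConjugate Real

noncomputable section

namespace Pool.Agent.P.MP_cc4a10_gt.Tor0P

theorem al_om (j : ℕ) : al ^ j * ((om ^ j : GI) : ℂ) = ((gi ^ j : GI) : ℂ) := by
  rw [map_pow, map_pow, ← mul_pow, coe_om, coe_gi]
  congr 1
  unfold al
  linear_combination (1 / 2 : ℂ) * I_mul_I

theorem som_al (j : ℕ) : (((star om) ^ j : GI) : ℂ) * al ^ j = 1 := by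
  have h : ((star om : GI) : ℂ) * al = 1 := by
    rw [star_om, map_mul, map_neg, coe_om, coe_gi]
    unfold al
    linear_combination (-1 - I / 2 : ℂ) * I_mul_I
  rw [map_pow, ← mul_pow, h, one_pow]

theorem al_ne : al ≠ 0 := fun h => by simpa [h] using som_al 1

theorem lift {j : ℕ} {x : ℂ} {v : GI} (h : al ^ j * x = v) : x = ((star om) ^ j * v : GI) := by
  rw [map_mul, ← h, ← mul_assoc, som_al, one_mul]

/-- The torus sum of `wp`. -/
def W (E : Ell) (j : ℕ) (z : ℂ) : ℂ := al ^ (2 * j) * ts j (fun w => E.wp (al ^ j * (z + w)))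

theorem sW_eq (E : Ell) (j : ℕ) (z : ℂ) : sW E j 0 z = W E j z := by
  simp [sW, W, thq, ex, dot]

theorem per (E : Ell) (j : ℕ) (z : ℂ) : Per j (fun w : GI => E.wp (al ^ j * (z + w))) := by
  intro u w
  have : al ^ j * (z + ((u + om ^ j * w : GI) : ℂ)) = al ^ j * (z + u) + ((gi ^ j * w : GI) : ℂ) := by
    rw [map_add, map_mul, map_mul, ← al_om]; ring
  simp only [this, E.Wper]

theorem W_per (E : Ell) (j : ℕ) (z : ℂ) (u : GI) : W E j (z + u) = W E j z := by
  unfold W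
  rw [← ts_shift (per E j z) u]
  congr 2
  funext w
  rw [map_add]; congr 2; ring

theorem W_rot (E : Ell) (hr : ∀ z, E.wp (I * z) = -E.wp z) (j : ℕ) (z : ℂ) :
    W E j (I * z) = -W E j z := by
  unfold W
  rw [← ts_gi (per E j (I * z)), ← mul_neg, ← ts_neg]
  congr 2
  funext w
  rw [← hr, map_mul, coe_gi]; congr 1; ring

theorem nl_al {j : ℕ} {z : ℂ} (hz : NL z) (w : GI) : NL (al ^ j * (z + w)) := by
  intro v hv
  refine hz ((star om) ^ j * v - w) ?_
  rw [map_sub, ← lift hv]; ring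

theorem W_diff (E : Ell) (hd : ∀ z, NL z → DifferentiableAt ℂ E.wp z) (j : ℕ) {R : Finset GI}
    (hR : ∀ z, ts j (fun w : GI => E.wp (al ^ j * (z + w))) = ∑ κ ∈ R, E.wp (al ^ j * (z + κ)))
    {z : ℂ} (hz : NL z) : DifferentiableAt ℂ (W E j) z := by
  have : W E j = fun z => al ^ (2 * j) * ∑ κ ∈ R, E.wp (al ^ j * (z + κ)) := by
    funext z; rw [W, hR]
  rw [this]
  refine DifferentiableAt.const_mul (DifferentiableAt.fun_sum fun κ _ => ?_) _
  exact (hd _ (nl_al hz κ)).comp z (f := fun z => al ^ j * (z + κ)) (by fun_prop)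

theorem tend_of_cont {f : ℂ → ℂ} (hf : ContinuousAt f 0) :
    Tendsto (fun z => z * f z) (𝓝[≠] 0) (𝓝 0) := by
  have : ContinuousAt (fun z => z * f z) 0 := continuousAt_id.mul hf
  simpa using this.tendsto.mono_left nhdsWithin_le_nhds

theorem own (E : Ell) (a : ℂ) (ha : a ≠ 0) :
    Tendsto (fun z => z * (a ^ 2 * E.wp (a * z) - E.wp z)) (𝓝[≠] 0) (𝓝 0) := by
  have hF : AnalyticAt ℂ (E.F 0) 0 :=
    (E.hol 0 (by norm_num)).analyticAt (Metric.ball_mem_nhds _ (by norm_num))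
  have hc : ContinuousAt (deriv (deriv (E.F 0))) 0 := hF.deriv.deriv.continuousAt
  have hc2 : ContinuousAt (fun z => deriv (deriv (E.F 0)) (a * z)) 0 :=
    ContinuousAt.comp (g := deriv (deriv (E.F 0))) (f := fun z => a * z) (x := 0)
      (by simpa using hc) (by fun_prop)
  have h1 := tend_of_cont (f := fun z => deriv (deriv (E.F 0)) z -
    a ^ 2 * deriv (deriv (E.F 0)) (a * z)) (hc.sub (hc2.const_mul _))
  refine h1.congr' ?_
  have e1 : ∀ᶠ z in 𝓝 (0 : ℂ), ‖z‖ < 9 / 10 :=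
    (continuous_norm.tendsto' (0 : ℂ) 0 (by simp)).eventually (gt_mem_nhds (by norm_num))
  have e2 : ∀ᶠ z in 𝓝 (0 : ℂ), ‖a * z‖ < 9 / 10 :=
    ((by fun_prop : Continuous fun z : ℂ => ‖a * z‖).tendsto' (0 : ℂ) 0 (by simp)).eventually
      (gt_mem_nhds (by norm_num))
  filter_upwards [e1.filter_mono nhdsWithin_le_nhds, e2.filter_mono nhdsWithin_le_nhds,
    self_mem_nhdsWithin] with z h1 h2 h3
  have h3' : z ≠ 0 := h3
  rw [E.Wloc _ h1, E.Wloc _ h2]
  field_simp
  ring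

theorem W_tend (E : Ell) (hd : ∀ z, NL z → DifferentiableAt ℂ E.wp z) (j : ℕ) {R : Finset GI}
    (hrep : Rep j R)
    (hR : ∀ z, ts j (fun w : GI => E.wp (al ^ j * (z + w))) = ∑ κ ∈ R, E.wp (al ^ j * (z + κ))) :
    Tendsto (fun z => z * (W E j z - E.wp z)) (𝓝[≠] 0) (𝓝 0) := by
  classical
  obtain ⟨κ0, h0, hdv⟩ := hrep.2 0
  have e : ∀ z, z * (W E j z - E.wp z) = z * ((al ^ j) ^ 2 * E.wp (al ^ j * z) - E.wp z) +
      ∑ κ ∈ R.erase κ0, z * (al ^ (2 * j) * E.wp (al ^ j * (z + κ))) := by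
    intro z
    have h1 : E.wp (al ^ j * (z + κ0)) = E.wp (al ^ j * z) := by
      simpa using ((per E j z).of_dvd hdv).symm
    rw [W, hR, ← Finset.add_sum_erase _ _ h0, h1, ← Finset.mul_sum, ← Finset.mul_sum]
    ring
  simp only [e]
  have h2 : Tendsto (fun z => ∑ κ ∈ R.erase κ0, z * (al ^ (2 * j) * E.wp (al ^ j * (z + κ))))
      (𝓝[≠] 0) (𝓝 (∑ κ ∈ R.erase κ0, (0 : ℂ))) := by
    refine tendsto_finset_sum _ fun κ hκ => tend_of_cont (ContinuousAt.const_mul ?_ _)
    obtain ⟨hne, hκR⟩ := Finset.mem_erase.1 hκ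
    have hnl : NL (al ^ j * ((0 : ℂ) + κ)) := by
      intro v hv
      have h3 := lift hv
      rw [zero_add] at h3
      have h4 : κ = star om ^ j * v := GaussianInt.toComplex_inj.1 h3
      refine hne (hrep.1 κ hκR κ0 h0 ?_)
      have h5 : om ^ j ∣ κ := ⟨(-gi) ^ j * v, by rw [h4, star_om, mul_pow, mul_assoc]⟩
      simpa [sub_eq_add_neg] using dvd_add h5 hdv
    exact ContinuousAt.comp (f := fun z => al ^ j * (z + κ)) (hd _ hnl).continuousAt (by fun_prop)
  simpa using (own E (al ^ j) (pow_ne_zero _ al_ne)).add h2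

theorem nl_add {z : ℂ} (hz : NL z) (u : GI) : NL (z + u) := fun v hv =>
  hz (v - u) (by rw [map_sub, ← hv]; ring)

theorem nl_half : NL (1 / 2) := by
  intro v hv
  have := congrArg Complex.re hv
  rw [← GaussianInt.intCast_re, show (1 / 2 : ℂ).re = 1 / 2 by norm_num] at this
  have h2 : (1 : ℝ) = 2 * (v.re : ℝ) := by linarith
  have h3 : (1 : ℤ) = 2 * v.re := by exact_mod_cast h2
  omega

theorem nl_I {z : ℂ} (hz : NL z) : NL (I * z) := fun v hv =>
  hz (-gi * v) (by rw [map_mul, map_neg, coe_gi, ← hv]; linear_combination z * I_mul_I)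

end Pool.Agent.P.MP_cc4a10_gt.Tor0P

namespace Pool.Agent.P.MP_cc4a10_gt

open Tor0P

theorem pTor0 (hK : S_Ker0) (hS : S_Strip) (hB : S_Box) : S_Tor0 := by
  intro E
  obtain ⟨C, -, hC⟩ := hK E
  obtain ⟨-, -, -, -, -, -, -, w0, hsym, -, hdz⟩ := hC 0 (by norm_num)
  have hr : ∀ z, E.wp (I * z) = -E.wp z := fun z => (hsym z).2.1
  have hd : ∀ z, NL z → DifferentiableAt ℂ E.wp z := fun z hz => (hdz z hz).2
  have h1 : E.wp (1 / 2) = ee E := by
    have := (hsym (1 / 2)).2.2.1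
    rw [show conj (1 / 2 : ℂ) = 1 / 2 by simp [map_ofNat]] at this
    exact (conj_eq_iff_re.1 this.symm).symm
  refine ⟨h1, ?_, ?_, fun j z => ?_⟩
  · rw [← h1, ← hr]; congr 1; ring
  · have h2 := hr hf
    have h3 : I * hf = hf + ((-1 : GI) : ℂ) := by
      rw [map_neg, map_one]; unfold hf; linear_combination (1 / 2 : ℂ) * I_mul_I
    rw [h3, E.Wper] at h2
    linear_combination (1 / 2 : ℂ) * h2
  · rw [sW_eq]
    obtain ⟨-, -, -, -, -, hts, ⟨R, hrep, -⟩, -⟩ := hB j
    have hR := fun z => (hts ℂ _ (per E j z)).2 R hrep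
    have hp : ∀ z (u : GI), W E j (z + u) - E.wp (z + u) = W E j z - E.wp z := fun z u => by
      rw [W_per, E.Wper]
    obtain ⟨κ, hκ⟩ := hS 1 1 (fun z => W E j z - E.wp z) (by simp) (by simp)
      (fun z hz _ => (W_diff E hd j hR hz).sub (hd z hz))
      (fun z _ _ => by simpa using hp z 1)
      (fun z _ _ => by simpa [coe_gi] using hp z gi)
      (W_tend E hd j hrep hR)
    have k1 := hκ (1 / 2) nl_half (by norm_num)
    have k2 := hκ (I * (1 / 2)) (nl_I nl_half) (by norm_num [abs_of_pos])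
    simp only [W_rot E hr, hr] at k1 k2
    have k0 : κ = 0 := by linear_combination (-1 / 2 : ℂ) * (k1 + k2)
    by_cases hz : NL z
    · have h4 := hκ (z + ((⟨0, -⌊z.im⌋⟩ : GI) : ℂ)) (nl_add hz _) (by
        have a1 := Int.floor_le z.im
        have a2 := Int.lt_floor_add_one z.im
        rw [add_im, ← GaussianInt.intCast_im, abs_lt]
        push_cast
        constructor <;> linarith)
      simp only [hp, k0] at h4
      exact sub_eq_zero.1 h4
    · simp only [NL, not_forall, not_not] at hz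
      obtain ⟨u, rfl⟩ := hz
      have h5 := hp 0 u
      have h6 := W_rot E hr j 0
      rw [mul_zero] at h6
      rw [zero_add, w0] at h5
      linear_combination h5 + (1 / 2 : ℂ) * h6

end Pool.Agent.P.MP_cc4a10_gt
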