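import Pool.Agent.P.MP_cc4a10_gt.St
import Pool.Agent.Lib.helper5.DegreeB

/-!
The fixed point theorem for compact convex sets in locally convex spaces.
-/

open Set Filter Topology Metric

namespace Pool.Agent.P.MP_cc4a10_gt

namespace TychP

open Pool.Agent.Lib.helper5 in
/-- A continuous self-map of `ι → ℝ` with bounded range has a fixed point. -/
theorem fix_of_bdd {ι : Type} [Fintype ι] [Nonempty ι] (G : (ι → ℝ) → (ι → ℝ))
    (hG : Continuous G) (hb : ∀ t, ‖G t‖ ≤ 1) : ∃ t, G t = t := by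
  have hF : Continuous fun t => t - G t := continuous_id.sub hG
  have h0 : (0 : ι → ℝ) ∈ ball (0 : ι → ℝ) 2 := mem_ball_self (by norm_num)
  have h1 := deg_id_pos isOpen_ball isBounded_ball h0
  have h2 : deg (fun t => t - G t) (ball (0 : ι → ℝ) 2)
      = deg (fun t => t - 0) (ball (0 : ι → ℝ) 2) := by
    refine deg_homotopy hF (by fun_prop) isOpen_ball isBounded_ball fun t ht τ hτ h => ?_
    rw [frontier_ball _ (by norm_num)] at ht
    have ht2 : ‖t‖ = 2 := by simpa using ht
    have e : t = (1 - τ) • G t := by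
      have : (1 - τ) • (t - G t) + τ • (t - 0) = t - (1 - τ) • G t := by module
      rw [this] at h
      exact sub_eq_zero.1 h
    have h3 : ‖t‖ ≤ (1 - τ) * 1 := by
      calc ‖t‖ = ‖(1 - τ) • G t‖ := congrArg _ e
        _ = (1 - τ) * ‖G t‖ := by
          rw [norm_smul, Real.norm_eq_abs, abs_of_nonneg (sub_nonneg.2 hτ.2)]
        _ ≤ (1 - τ) * 1 := mul_le_mul_of_nonneg_left (hb t) (sub_nonneg.2 hτ.2)
    linarith [hτ.1]
  obtain ⟨t, -, ht⟩ := exists_zero_of_deg_ne_zero hF isOpen_ball isBounded_ball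
    (h2 ▸ h1.ne')
  exact ⟨t, (sub_eq_zero.1 ht).symm⟩

/-- Weights of a retraction onto the simplex. -/
theorem exists_weights {ι : Type} [Fintype ι] [Nonempty ι] :
    ∃ a : (ι → ℝ) → ι → ℝ, Continuous a ∧ (∀ t i, 0 ≤ a t i) ∧ (∀ t, ∑ i, a t i = 1) ∧
      ∀ t, (∀ i, 0 ≤ t i) → ∑ i, t i = 1 → a t = t := by
  classical
  obtain ⟨i0⟩ := ‹Nonempty ι›
  refine ⟨fun t i => (max (t i) 0 + if i = i0 then max (1 - ∑ j, max (t j) 0) 0 else 0)
    / max 1 (∑ j, max (t j) 0), ?_, ?_, ?_, ?_⟩
  · refine continuous_pi fun i => Continuous.div ?_ (by fun_prop) fun t => ?_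
    · split_ifs <;> fun_prop
    · exact (lt_of_lt_of_le one_pos (le_max_left _ _)).ne'
  · intro t i
    refine div_nonneg (add_nonneg (le_max_right _ _) ?_) (le_trans zero_le_one (le_max_left _ _))
    split_ifs
    · exact le_max_right _ _
    · exact le_rfl
  · intro t
    rw [← Finset.sum_div, Finset.sum_add_distrib, Finset.sum_ite_eq' Finset.univ i0,
      if_pos (Finset.mem_univ _), div_eq_one_iff_eq
        (lt_of_lt_of_le one_pos (le_max_left _ _)).ne']
    rcases le_total 1 (∑ j, max (t j) 0) with h | h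
    · rw [max_eq_right h, max_eq_right (sub_nonpos.2 h), add_zero]
    · rw [max_eq_left h, max_eq_left (sub_nonneg.2 h)]; ring
  · intro t ht hs
    have e : ∀ j, max (t j) 0 = t j := fun j => max_eq_left (ht j)
    funext i
    simp [e, hs]

end TychP

open TychP in
theorem pTych : S_Tych := by
  intro V _ _ _ _ _ _ _ X T hX hc hne hT hm
  by_contra hno
  push Not at hno
  have hK : IsCompact ((fun x => T x - x) '' X) := hX.image_of_continuousOn
    (hT.sub continuousOn_id)
  have h0 : ((fun x => T x - x) '' X)ᶜ ∈ 𝓝 (0 : V) := by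
    refine hK.isClosed.isOpen_compl.mem_nhds ?_
    rintro ⟨x, hx, h⟩
    exact hno x hx (sub_eq_zero.1 h)
  obtain ⟨W, ⟨hW0, hWc⟩, hWs⟩ := (LocallyConvexSpace.convex_basis_zero ℝ V).mem_iff.1 h0
  have hU0 : (0 : V) ∈ interior W := mem_interior_iff_mem_nhds.2 hW0
  obtain ⟨s, hsX, hs⟩ := hX.elim_nhds_subcover (fun x => {y | y - x ∈ interior W}) fun x _ =>
    (isOpen_interior.preimage (continuous_id.sub continuous_const)).mem_nhds (by simpa using hU0)
  have hsne : Nonempty s := by
    obtain ⟨x, hx⟩ := hne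
    obtain ⟨y, hy, -⟩ := mem_iUnion₂.1 (hs hx)
    exact ⟨⟨y, hy⟩⟩
  have : CompactSpace X := isCompact_iff_compactSpace.1 hX
  obtain ⟨f, hf⟩ := PartitionOfUnity.exists_isSubordinate (ι := s) (X := X) isClosed_univ
    (fun i => {y : X | (y : V) - i ∈ interior W})
    (fun i => isOpen_interior.preimage (continuous_subtype_val.sub continuous_const))
    fun y _ => by
      obtain ⟨z, hz, hy⟩ := mem_iUnion₂.1 (hs y.2)
      exact mem_iUnion.2 ⟨⟨z, hz⟩, hy⟩
  obtain ⟨a, ha, ha0, ha1, haid⟩ := exists_weights (ι := s)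
  have hp : ∀ t : s → ℝ, ∑ i, a t i • (i : V) ∈ X := fun t =>
    hc.sum_mem (fun i _ => ha0 t i) (ha1 t) fun i _ => hsX i i.2
  have hpc : Continuous fun t : s → ℝ => ∑ i, a t i • (i : V) :=
    continuous_finsetSum _ fun i _ => ((continuous_apply i).comp ha).smul continuous_const
  have hTc : Continuous fun t : s → ℝ => (⟨T (∑ i, a t i • (i : V)), hm (hp t)⟩ : X) :=
    (hT.comp_continuous hpc hp).subtype_mk _
  have hsum : ∀ y : X, ∑ i, f i y = 1 := fun y => by
    rw [← finsum_eq_sum_of_fintype]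
    exact f.sum_eq_one (mem_univ y)
  obtain ⟨t, ht⟩ := fix_of_bdd (fun (t : s → ℝ) i => f i ⟨T (∑ i, a t i • (i : V)), hm (hp t)⟩)
    (continuous_pi fun i => (f i).continuous.comp hTc) fun t => by
      refine (pi_norm_le_iff_of_nonneg zero_le_one).2 fun i => ?_
      rw [Real.norm_eq_abs, abs_of_nonneg (f.nonneg i _)]
      exact f.le_one i _
  set y : X := ⟨T (∑ i, a t i • (i : V)), hm (hp t)⟩ with hy
  have hti : ∀ i, t i = f i y := fun i => (congrFun ht i).symm
  have hat : a t = t := haid t (fun i => hti i ▸ f.nonneg i y) (by simp only [hti, hsum])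
  have hmem : ∑ i ∈ Finset.univ.filter (fun i => t i ≠ 0), t i • ((y : V) - i) ∈ W := by
    refine hWc.sum_mem (fun i _ => hti i ▸ f.nonneg i y) ?_ fun i hi => ?_
    · rw [Finset.sum_filter_ne_zero]
      simp only [hti, hsum]
    · have h1 : f i y ≠ 0 := hti i ▸ (Finset.mem_filter.1 hi).2
      exact interior_subset (hf i (subset_tsupport _ h1))
  refine hWs hmem ⟨∑ i, a t i • (i : V), hp t, ?_⟩
  have h2 : ∑ i ∈ Finset.univ.filter (fun i => t i ≠ 0), t i • ((y : V) - i)
      = ∑ i, t i • ((y : V) - i) := by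
    refine Finset.sum_filter_of_ne fun i _ h h0 => h ?_
    rw [h0, zero_smul]
  have h1 : ∑ i, t i = 1 := by simp only [hti, hsum]
  rw [h2]
  simp only [smul_sub, Finset.sum_sub_distrib, ← Finset.sum_smul]
  rw [h1, one_smul]
  change T (∑ i, a t i • (i : V)) - ∑ i, a t i • (i : V) = T (∑ i, a t i • (i : V)) - _
  rw [hat]

end Pool.Agent.P.MP_cc4a10_gt
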