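import Pool.Agent.P.MP_cc4a10_gt.St

/-!
Uniqueness of Bloch functions and the maximum principle on a strip.
-/

open Set Filter Topology Complex Metric
open scoped ComplexConjugate Real

noncomputable section

namespace Pool.Agent.P.MP_cc4a10_gt

namespace UniP

lemma gi_eq_zero {w : GI} (h : ‖(w : ℂ)‖ < 1) : w = 0 := by
  have h1 : |(w : ℂ).re| < 1 := (abs_re_le_norm _).trans_lt h
  have h2 : |(w : ℂ).im| < 1 := (abs_im_le_norm _).trans_lt h
  rw [← GaussianInt.intCast_re] at h1
  rw [← GaussianInt.intCast_im] at h2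
  have a1 : |w.re| < 1 := by exact_mod_cast h1
  have a2 : |w.im| < 1 := by exact_mod_cast h2
  ext
  · exact Int.abs_lt_one_iff.1 a1
  · exact Int.abs_lt_one_iff.1 a2

lemma nl_of_lt {z : ℂ} (h : ‖z‖ < 1) (h0 : z ≠ 0) : NL z := by
  intro w e
  rw [e] at h
  rw [gi_eq_zero h] at e
  exact h0 (by simpa using e)

lemma nl_add {z : ℂ} (h : NL z) (w : GI) : NL (z + w) := by
  intro u e
  apply h (u - w)
  rw [map_sub, ← e]
  ring

lemma nl_int {z : ℂ} (h : NL z) (n : ℤ) : NL (z + n) := by
  simpa using nl_add h (n : GI)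

lemma nl_im {z : ℂ} (h1 : -1 < z.im) (h2 : z.im < 0) : NL z := by
  intro w e
  rw [e, ← GaussianInt.intCast_im] at h1 h2
  have a1 : -1 < w.im := by exact_mod_cast h1
  have a2 : w.im < 0 := by exact_mod_cast h2
  omega

lemma int_of_not_nl {z : ℂ} (h : ¬NL z) (h1 : |z.im| < 1) : ∃ n : ℤ, z = n := by
  simp only [NL, not_forall, not_not] at h
  obtain ⟨w, rfl⟩ := h
  rw [← GaussianInt.intCast_im] at h1
  have a2 : |w.im| < 1 := by exact_mod_cast h1
  refine ⟨w.re, ?_⟩
  rw [GaussianInt.toComplex_def, Int.abs_lt_one_iff.1 a2]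
  simp

/-- Removable singularity at the origin. -/
lemma remov (h : ℂ → ℂ) (hd : ∀ z, ‖z‖ < 1 → z ≠ 0 → DifferentiableAt ℂ h z)
    (hl : Tendsto (fun z => z * h z) (𝓝[≠] 0) (𝓝 0)) :
    ∃ k : ℂ → ℂ, DifferentiableOn ℂ k (ball 0 1) ∧ ∀ z, z ≠ 0 → k z = h z := by
  have hb : ball (0 : ℂ) 1 ∈ 𝓝 (0 : ℂ) := ball_mem_nhds _ one_pos
  have h1 : DifferentiableOn ℂ (fun z => z * h z) (ball 0 1) := by
    rw [← differentiableOn_compl_singleton_and_continuousAt_iff hb]
    refine ⟨fun z hz => ?_, ?_⟩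
    · exact (differentiableAt_id.mul (hd z (by simpa using hz.1) hz.2)).differentiableWithinAt
    · rw [← continuousWithinAt_compl_self, ContinuousWithinAt]
      simpa using hl
  refine ⟨dslope (fun z => z * h z) 0, (differentiableOn_dslope hb).2 h1, fun z hz => ?_⟩
  rw [dslope_of_ne _ hz, slope_def_field]
  field_simp
  ring

lemma shift_int {S : Set ℂ} {H : ℂ → ℂ} {χ : ℂ} (hχ : χ ≠ 0)
    (hS : ∀ z ∈ S, ∀ n : ℤ, z + n ∈ S) (h1 : ∀ z ∈ S, H (z + 1) = χ * H z) (n : ℤ) :
    ∀ z ∈ S, H (z + n) = χ ^ n * H z := by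
  induction n using Int.induction_on with
  | zero => simp
  | succ n ih =>
    intro z hz
    have := h1 _ (hS z hz n)
    rw [ih z hz] at this
    rw [zpow_add_one₀ hχ]
    push_cast at this ⊢
    rw [← add_assoc, this]
    ring
  | pred n ih =>
    intro z hz
    have := h1 _ (hS z hz (-n - 1))
    have e : z + ((-n - 1 : ℤ) : ℂ) + 1 = z + ((-n : ℤ) : ℂ) := by push_cast; ring
    rw [e, ih z hz] at this
    rw [zpow_sub_one₀ hχ]
    apply mul_left_cancel₀ hχ
    rw [← this]
    field_simp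

end UniP

open UniP in
theorem pStrip : S_Strip := by
  classical
  intro χ1 χ2 h n1 n2 hd h1 h2 hl
  have c1 : χ1 ≠ 0 := by intro e; simp [e] at n1
  obtain ⟨k, hk, ek⟩ := remov h
    (fun z hz h0 => hd z (nl_of_lt hz h0) ((abs_im_le_norm z).trans_lt hz)) hl
  have hn : ∀ (n : ℤ) z, NL z → |z.im| < 1 → h (z + n) = χ1 ^ n * h z := fun n z a b =>
    shift_int (S := {z | NL z ∧ |z.im| < 1}) c1
      (fun z hz n => ⟨nl_int hz.1 n, by simpa using hz.2⟩) (fun z hz => h1 z hz.1 hz.2) n z ⟨a, b⟩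
  set H : ℂ → ℂ := fun z => if NL z then h z else χ1 ^ ⌊z.re⌋ * k 0 with hH
  have eH : ∀ z, NL z → H z = h z := fun z hz => if_pos hz
  have eN : ∀ n : ℤ, H n = χ1 ^ n * k 0 := fun n => by
    have : ¬NL (n : ℂ) := fun a => a n (by simp)
    simp [hH, this]
  set S : Set ℂ := {z | |z.im| < 1} with hS
  have oS : IsOpen S := isOpen_lt (by fun_prop) continuous_const
  have cS : Convex ℝ S := by
    have : S = {z : ℂ | -1 < z.im} ∩ {z : ℂ | z.im < 1} := by
      ext z; simp [hS, abs_lt]
    rw [this]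
    exact (convex_halfSpace_im_gt _).inter (convex_halfSpace_im_lt _)
  -- near every integer
  have loc : ∀ (n : ℤ) (z : ℂ), ‖z - n‖ < 1 → H z = χ1 ^ n * k (z - n) := by
    intro n z hz
    by_cases e : z - n = 0
    · rw [e, sub_eq_zero.1 e, eN]
    · have a := nl_of_lt hz e
      have b := nl_int a n
      have c := hn n _ a ((abs_im_le_norm _).trans_lt hz)
      rw [sub_add_cancel] at b c
      rw [eH z b, c, ek _ e]
  have dH : DifferentiableOn ℂ H S := by
    intro z hz
    apply DifferentiableAt.differentiableWithinAt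
    by_cases hn' : ∃ n : ℤ, ‖z - n‖ < 1
    · obtain ⟨n, hn'⟩ := hn'
      have o : IsOpen {z : ℂ | ‖z - n‖ < 1} := isOpen_lt (by fun_prop) continuous_const
      have e : H =ᶠ[𝓝 z] fun z => χ1 ^ n * k (z - n) := by
        filter_upwards [o.mem_nhds hn'] with y hy using loc n y hy
      refine DifferentiableAt.congr_of_eventuallyEq ?_ e
      have : DifferentiableAt ℂ k (z - n) :=
        hk.differentiableAt (isOpen_ball.mem_nhds (by simpa using hn'))
      exact (differentiableAt_const _).mul (this.comp z (by fun_prop))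
    · have far : ∀ y : ℂ, ‖y - z‖ < 1 → |y.im| < 1 → NL y := by
        intro y hy hy'
        by_contra c
        obtain ⟨n, rfl⟩ := int_of_not_nl c hy'
        exact hn' ⟨n, by rwa [norm_sub_rev]⟩
      have e : H =ᶠ[𝓝 z] h := by
        filter_upwards [oS.mem_nhds hz, ball_mem_nhds z one_pos] with y hy hy'
        exact eH y (far y (by simpa [dist_eq_norm] using hy') hy)
      exact (hd z (far z (by simp) hz) hz).congr_of_eventuallyEq e
  have p1 : ∀ z ∈ S, H (z + 1) = χ1 * H z := by
    intro z hz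
    by_cases c : NL z
    · have := nl_int c 1
      push_cast at this
      rw [eH _ this, eH _ c, h1 z c hz]
    · obtain ⟨n, rfl⟩ := int_of_not_nl c hz
      have := eN (n + 1)
      push_cast at this
      rw [this, eN, zpow_add_one₀ c1]
      ring
  have pn : ∀ (n : ℤ), ∀ z ∈ S, ‖H (z + n)‖ = ‖H z‖ := by
    intro n z hz
    rw [shift_int c1 (fun z hz n => by simpa [hS] using hz) p1 n z hz, norm_mul, norm_zpow, n1,
      one_zpow, one_mul]
  have p2 : ∀ z : ℂ, -1 < z.im → z.im < 0 → ‖H (z + I)‖ = ‖H z‖ := by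
    intro z a b
    have c := nl_im a b
    have d := nl_add c gi
    rw [coe_gi] at d
    rw [eH _ d, eH _ c, h2 z a b, norm_mul, n2, one_mul]
  set K : Set ℂ := Icc 0 1 ×ℂ Icc (-(1 / 2)) (1 / 2) with hK
  have kK : IsCompact K := isCompact_Icc.reProdIm isCompact_Icc
  have sK : K ⊆ S := by
    intro z hz
    have := (mem_reProdIm.1 hz).2
    simp only [hS, mem_ofPred_eq, abs_lt]
    constructor <;> linarith [this.1, this.2]
  obtain ⟨z0, hz0, hm⟩ := kK.exists_isMaxOn (f := fun z => ‖H z‖)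
    ⟨0, by simp [hK, mem_reProdIm]⟩ (dH.continuousOn.mono sK).norm
  have mid : ∀ z : ℂ, |z.im| ≤ 1 / 2 → ‖H z‖ ≤ ‖H z0‖ := by
    intro z hz
    have hz' : z ∈ S := by
      simp only [hS, mem_ofPred_eq]
      linarith
    rw [← pn (-⌊z.re⌋) z hz']
    apply hm
    rw [hK, mem_reProdIm]
    constructor
    · have a := Int.floor_le z.re
      have b := Int.lt_floor_add_one z.re
      simp only [Int.cast_neg, add_re, neg_re, intCast_re, mem_Icc]
      constructor <;> linarith
    · simpa [abs_le] using hz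
  have hmax : IsMaxOn (norm ∘ H) S z0 := by
    intro z hz
    simp only [hS, mem_ofPred_eq, abs_lt] at hz
    simp only [mem_ofPred_eq, Function.comp]
    rcases lt_or_ge z.im (-(1 / 2)) with a | a
    · rw [← p2 z hz.1 (by linarith)]
      apply mid
      rw [abs_le, add_im, I_im]
      constructor <;> linarith [hz.1]
    rcases le_or_gt z.im (1 / 2) with b | b
    · exact mid z (abs_le.2 ⟨a, b⟩)
    · have := p2 (z - I) (by simp; linarith) (by simp; linarith [hz.2])
      rw [sub_add_cancel] at this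
      rw [this]
      apply mid
      rw [abs_le, sub_im, I_im]
      constructor <;> linarith [hz.2]
  have := eqOn_of_isPreconnected_of_isMaxOn_norm cS.isPreconnected oS dH (sK hz0) hmax
  exact ⟨H z0, fun z a b => by rw [← eH z a]; exact this b⟩

namespace UniP

lemma last (χ : GI → ℂ) (h : ℂ → ℂ) (hχ : ∀ w, ‖χ w‖ = 1)
    (hd : ∀ z, NL z → DifferentiableAt ℂ h z) (hp : ∀ z (w : GI), NL z → h (z + w) = χ w * h z)
    (hl : Tendsto (fun z => z * h z) (𝓝[≠] 0) (𝓝 0)) : ∃ κ, ∀ z, NL z → h z = κ := by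
  have hI : ∀ z, NL z → h (z + I) = χ gi * h z := fun z a => by rw [← coe_gi]; exact hp z gi a
  obtain ⟨κ, hκ⟩ := pStrip (χ 1) (χ gi) h (hχ _) (hχ _) (fun z a _ => hd z a)
    (fun z a _ => by simpa using hp z 1 a) (fun z a b => hI z (nl_im a b)) hl
  have c2 : χ gi ≠ 0 := by intro e; have := hχ gi; simp [e] at this
  have e2 : χ gi * κ = κ := by
    have a : NL (-(I / 2)) := nl_im (by norm_num) (by norm_num)
    have b := nl_add a gi
    rw [coe_gi] at b
    have := hI _ a
    rw [hκ _ a (by norm_num [abs_lt]), hκ _ b (by norm_num [abs_lt])] at this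
    exact this.symm
  have nI : ∀ z, NL z → ∀ n : ℤ, NL (z + n * I) := fun z a n => by
    have := nl_add a (n * gi)
    rwa [map_mul, coe_gi, map_intCast] at this
  have key : ∀ (n : ℤ) z, NL z → |z.im| < 1 → h (z + n * I) = κ := by
    intro n z a b
    induction n using Int.induction_on with
    | zero => simpa using hκ z a b
    | succ n ih =>
      have := hI _ (nI z a n)
      rw [ih, e2] at this
      rw [← this]
      congr 1
      push_cast
      ring
    | pred n ih =>
      have := hI _ (nI z a (-n - 1))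
      have e : z + ((-n - 1 : ℤ) : ℂ) * I + I = z + ((-n : ℤ) : ℂ) * I := by push_cast; ring
      rw [e, ih] at this
      apply mul_left_cancel₀ c2
      rw [← this, e2]
  refine ⟨κ, fun z a => ?_⟩
  have := key ⌊z.im⌋ (z + (-⌊z.im⌋ : ℤ) * I) (nI z a _) (by
    have a := Int.floor_le z.im
    have b := Int.lt_floor_add_one z.im
    simp only [Int.cast_neg, neg_mul, add_im, neg_im, mul_im, intCast_re, I_im, mul_one,
      intCast_im, I_re, mul_zero, add_zero, abs_lt]
    constructor <;> linarith)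
  rw [← this]
  congr 1
  push_cast
  ring

lemma norm_chi (t : ℝ) : ‖exp (I * t)‖ = 1 := by
  rw [mul_comm]
  exact norm_exp_ofReal_mul_I t

lemma np_chi {θ : ℂ} (h : NP θ) : ∃ w : GI, exp (I * dot θ w) ≠ 1 := by
  by_contra c
  simp only [not_exists, not_not] at c
  obtain ⟨a, ha⟩ := exp_eq_one_iff.1 (c 1)
  obtain ⟨b, hb⟩ := exp_eq_one_iff.1 (c gi)
  have a1 := congrArg im ha
  have b1 := congrArg im hb
  rw [coe_gi] at b1
  simp [dot] at a1 b1
  apply h ⟨a, b⟩
  rw [GaussianInt.toComplex_def']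
  apply Complex.ext <;> simp <;> linarith

lemma uniq {θ : ℂ} (b b' : BD θ) (hθ : NP θ) : ∀ z, NL z → b'.f z = b.f z := by
  have hb : ball (0 : ℂ) (9 / 10) ∈ 𝓝 (0 : ℂ) := ball_mem_nhds _ (by norm_num)
  obtain ⟨κ, hκ⟩ := last (fun w => exp (I * dot θ w)) (fun z => b'.f z - b.f z)
    (fun w => norm_chi _) (fun z a => (b'.df z a).sub (b.df z a))
    (fun z w _ => by rw [b'.bl, b.bl]; ring) (by
      have c : ContinuousAt (fun z => z * (b'.g z - b.g z)) 0 :=
        continuousAt_id.mul
          ((b'.hg.differentiableAt hb).continuousAt.sub (b.hg.differentiableAt hb).continuousAt)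
      have t := c.tendsto.mono_left (nhdsWithin_le_nhds (s := {0}ᶜ))
      rw [zero_mul] at t
      refine t.congr' ?_
      filter_upwards [nhdsWithin_le_nhds hb, self_mem_nhdsWithin] with z a a0
      rw [b'.loc z (by simpa using a) a0, b.loc z (by simpa using a) a0]
      ring)
  obtain ⟨w, hw⟩ := np_chi hθ
  intro z a
  have e1 := hκ z a
  have e2 := hκ _ (nl_add a w)
  rw [b'.bl, b.bl, ← mul_sub, e1] at e2
  have : κ = 0 := by
    by_contra c
    exact hw (mul_right_cancel₀ c (by rw [e2, one_mul]))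
  rw [this] at e1
  exact sub_eq_zero.1 e1

lemma uniq_g {θ : ℂ} (b b' : BD θ) (hθ : NP θ) : ∀ z, ‖z‖ < 9 / 10 → b'.g z = b.g z := by
  have hb : ball (0 : ℂ) (9 / 10) ∈ 𝓝 (0 : ℂ) := ball_mem_nhds _ (by norm_num)
  have ne : ∀ z, ‖z‖ < 9 / 10 → z ≠ 0 → b'.g z = b.g z := fun z a a0 => by
    have := uniq b b' hθ z (nl_of_lt (by linarith) a0)
    rw [b'.loc z a a0, b.loc z a a0] at this
    exact add_left_cancel this
  intro z a
  by_cases a0 : z = 0
  · subst a0
    have t1 := (b'.hg.differentiableAt hb).continuousAt.tendsto.mono_left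
      (nhdsWithin_le_nhds (s := {0}ᶜ))
    have t2 := (b.hg.differentiableAt hb).continuousAt.tendsto.mono_left
      (nhdsWithin_le_nhds (s := {0}ᶜ))
    refine tendsto_nhds_unique_of_eventuallyEq t1 t2 ?_
    filter_upwards [nhdsWithin_le_nhds hb, self_mem_nhdsWithin] with z a a0
    exact ne z (by simpa using a) a0
  · exact ne z a a0

lemma rot_arg (z : ℂ) (w : GI) : -I * (z + w) = -I * z + ((-gi * w : GI) : ℂ) := by
  rw [map_mul, map_neg, coe_gi]
  ring

lemma rot_dot (θ : ℂ) (w : GI) : dot θ ((-gi * w : GI) : ℂ) = dot (I * θ) w := by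
  rw [map_mul, map_neg, coe_gi, dot, dot, map_mul, conj_I]
  congr 1
  ring

lemma nl_rot {z : ℂ} (h : NL z) : NL (-I * z) := by
  intro w e
  apply h (gi * w)
  rw [map_mul, coe_gi, ← e, ← mul_assoc]
  simp

/-- The rotated Bloch function. -/
def rot {θ : ℂ} (b : BD θ) : BD (I * θ) where
  f z := -I * b.f (-I * z)
  g z := -I * b.g (-I * z)
  γ z := b.γ (-I * z)
  g0 := b.g0
  df z a := (differentiableAt_const _).mul ((b.df _ (nl_rot a)).comp z (by fun_prop))
  bl z w := by
    rw [rot_arg, b.bl, rot_dot]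
    ring
  hg := (differentiableOn_const _).mul
    (b.hg.comp (by fun_prop) (fun z hz => by simpa using hz))
  loc z a a0 := by
    rw [b.loc (-I * z) (by simpa using a) (by simpa using a0)]
    field_simp
    ring
  hγ z a := by
    have h1 : HasFDerivAt (fun z : ℂ => -I * z) (ContinuousLinearMap.mul ℝ ℂ (-I)) z :=
      (ContinuousLinearMap.mul ℝ ℂ (-I)).hasFDerivAt
    have h2 := (b.hγ _ (nl_rot a)).comp z h1
    refine HasFDerivAt.congr_fderiv h2 (ContinuousLinearMap.ext fun y => ?_)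
    simp only [wl, ContinuousLinearMap.sub_apply, ContinuousLinearMap.mul_apply',
      ContinuousLinearMap.comp_apply, ContinuousLinearEquiv.coe_coe, conjCLE_apply, mul_neg]
    congr 1
    · ring
    · congr 1
      ring
  blγ z w := by rw [rot_arg, b.blγ, rot_dot]
  lim := by
    have t : Tendsto (fun z : ℂ => -I * z) (𝓝[≠] 0) (𝓝[≠] 0) := by
      refine tendsto_nhdsWithin_of_tendsto_nhds_of_eventually_within _ ?_ ?_
      · have c : ContinuousAt (fun z : ℂ => -I * z) 0 := by fun_prop
        have := c.tendsto.mono_left (nhdsWithin_le_nhds (s := {0}ᶜ))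
        rwa [mul_zero] at this
      · filter_upwards [self_mem_nhdsWithin] with z a
        simpa using a
    refine (b.lim.comp t).congr fun z => ?_
    simp

lemma chi_shift (θ : ℂ) (w u : GI) :
    exp (I * dot (θ + 2 * π * w) u) = exp (I * dot θ u) := by
  have e : dot (θ + 2 * π * w) u = dot θ u + (w.re * u.re + w.im * u.im : ℤ) * (2 * π) := by
    simp [dot]
    ring
  rw [e]
  push_cast
  rw [mul_add, exp_add]
  have := exp_int_mul_two_pi_mul_I (w.re * u.re + w.im * u.im)
  push_cast at this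
  rw [mul_comm I (_ * (2 * (π : ℂ))), mul_assoc _ _ I, this, mul_one]

/-- The same function for a shifted frequency. -/
def shift {θ : ℂ} (b : BD θ) (w : GI) : BD (θ + 2 * π * w) where
  f := b.f
  g := b.g
  γ := b.γ
  g0 := b.g0
  df := b.df
  bl z u := by rw [chi_shift, b.bl]
  hg := b.hg
  loc := b.loc
  hγ := b.hγ
  blγ z u := by rw [chi_shift, b.blγ]
  lim := b.lim

end UniP

open UniP in
theorem pUni : S_Uni := by
  intro θ b hθ
  have e : ∀ z : ℂ, -I * (I * z) = z := fun z => by
    rw [← mul_assoc]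
    simp
  refine ⟨fun b' => ⟨uniq b b' hθ, uniq_g b b' hθ⟩, ⟨rot b, fun z => ?_, fun z => ?_, fun z => ?_,
    rfl⟩, fun w => ⟨shift b w, rfl, rfl, rfl, rfl⟩, last⟩
  · simp only [rot, e]
  · simp only [rot, e]
  · simp only [rot, e]

end Pool.Agent.P.MP_cc4a10_gt
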