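import Pool.Agent.P.MP_cc4a10_gt.St

/-! The neck coordinate. -/

open Set Filter Topology Complex Metric MeasureTheory
open scoped Real

namespace Pool.Agent.P.MP_cc4a10_gt

namespace VtP

/-- radial primitive -/
noncomputable def AA (R : ℂ → ℂ) (p z : ℂ) : ℂ :=
  (z - p) * ∫ x in (0 : ℝ)..1, R (p + x * (z - p))

/-- the coordinate -/
noncomputable def vv (R : ℂ → ℂ) (p : ℂ) (q : ℝ) (z : ℂ) : ℂ := (z - p) * exp (AA R p z / q)

/-- its derivative -/
noncomputable def gg (R : ℂ → ℂ) (p : ℂ) (q : ℝ) (z : ℂ) : ℂ :=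
  exp (AA R p z / q) * (1 + (z - p) * R z / q)

variable {R : ℂ → ℂ} {p : ℂ} {r : ℝ} {q : ℝ}

theorem seg_mem {z : ℂ} (hz : z ∈ ball p r) {x : ℝ} (hx : x ∈ Icc (0 : ℝ) 1) :
    p + x * (z - p) ∈ ball p r := by
  rw [mem_ball, dist_eq_norm] at hz ⊢
  rw [add_sub_cancel_left, norm_mul, norm_real, Real.norm_of_nonneg hx.1]
  exact (mul_le_of_le_one_left (norm_nonneg _) hx.2).trans_lt hz

theorem seg_deriv (p w : ℂ) (x : ℝ) : HasDerivAt (fun y : ℝ => p + y * w) w x := by
  simpa using ((hasDerivAt_id x).ofReal_comp.mul_const w).const_add p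

theorem AA_deriv (hR : DifferentiableOn ℂ R (ball p r)) {z : ℂ} (hz : z ∈ ball p r) :
    HasDerivAt (AA R p) (R z) z := by
  obtain ⟨g, hg⟩ := hR.isExactOn_ball
  have h1 : ∀ y ∈ ball p r, AA R p y = g y - g p := fun y hy => by
    have h2 : ∀ x ∈ uIcc (0 : ℝ) 1,
        HasDerivAt (fun x : ℝ => g (p + x * (y - p))) ((y - p) * R (p + x * (y - p))) x := by
      intro x hx
      rw [uIcc_of_le zero_le_one] at hx
      simpa [smul_eq_mul, Function.comp_def] using
        (hg _ (seg_mem hy hx)).scomp x (seg_deriv p (y - p) x)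
    have h3 : ContinuousOn (fun x : ℝ => (y - p) * R (p + x * (y - p))) (uIcc 0 1) := by
      rw [uIcc_of_le zero_le_one]
      exact continuousOn_const.mul (hR.continuousOn.comp (by fun_prop) fun x hx => seg_mem hy hx)
    have h4 := intervalIntegral.integral_eq_sub_of_hasDerivAt h2 h3.intervalIntegrable
    rw [intervalIntegral.integral_const_mul] at h4
    simpa [AA] using h4
  exact ((hg z hz).sub_const (g p)).congr_of_eventuallyEq
    (eventually_of_mem (isOpen_ball.mem_nhds hz) h1)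

theorem AA_self : AA R p p = 0 := by simp [AA]

theorem AA_le {B : ℝ} (hB : ∀ z ∈ ball p r, ‖R z‖ ≤ B) {z : ℂ} (hz : z ∈ ball p r) :
    ‖AA R p z‖ ≤ ‖z - p‖ * B := by
  rw [AA, norm_mul]
  refine mul_le_mul_of_nonneg_left ?_ (norm_nonneg _)
  have := intervalIntegral.norm_integral_le_of_norm_le_const (a := 0) (b := 1) (C := B)
    (f := fun x : ℝ => R (p + x * (z - p))) fun x hx => hB _ (seg_mem hz (by
      rw [uIoc_of_le zero_le_one] at hx
      exact Ioc_subset_Icc_self hx))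
  simpa using this

theorem vv_deriv (hR : DifferentiableOn ℂ R (ball p r)) {z : ℂ} (hz : z ∈ ball p r) :
    HasDerivAt (vv R p q) (gg R p q z) z := by
  refine (((hasDerivAt_id z).sub_const p).mul ((AA_deriv hR hz).div_const (q : ℂ)).cexp).congr_deriv
    ?_
  simp only [gg, id]
  ring

theorem gg_self : gg R p q p = 1 := by simp [gg, AA_self]

theorem gg_deriv (hR : DifferentiableOn ℂ R (ball p r)) (hr : 0 < r) :
    HasDerivAt (gg R p q) (2 * R p / q) p := by
  have h1 := (hR.differentiableAt (ball_mem_nhds p hr)).hasDerivAt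
  refine (((AA_deriv hR (mem_ball_self hr)).div_const (q : ℂ)).cexp.mul
    (((((hasDerivAt_id p).sub_const p).mul h1).div_const (q : ℂ)).const_add 1)).congr_deriv ?_
  simp [AA_self]
  ring

theorem gg_le {B η : ℝ} (hB : ∀ z ∈ ball p r, ‖R z‖ ≤ B) (hq : q ≠ 0) (h : r * B ≤ η * |q|)
    (hη : η ≤ 1 / 8) {z : ℂ} (hz : z ∈ ball p r) : ‖gg R p q z - 1‖ ≤ 4 * η := by
  have h0 : 0 < |q| := abs_pos.2 hq
  have hB0 : 0 ≤ B := (norm_nonneg _).trans (hB z hz)
  have hz' : ‖z - p‖ * B ≤ η * |q| :=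
    (mul_le_mul_of_nonneg_right (mem_ball_iff_norm.1 hz).le hB0).trans h
  have h1 : ‖AA R p z / q‖ ≤ η := by
    rw [norm_div, norm_real, Real.norm_eq_abs, div_le_iff₀ h0]
    exact (AA_le hB hz).trans hz'
  have h2 : ‖(z - p) * R z / q‖ ≤ η := by
    rw [norm_div, norm_real, Real.norm_eq_abs, div_le_iff₀ h0, norm_mul]
    exact (mul_le_mul_of_nonneg_left (hB z hz) (norm_nonneg _)).trans hz'
  have h3 := Complex.norm_exp_sub_one_le (h1.trans (by linarith : η ≤ 1))
  have h4 : gg R p q z - 1 =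
      (exp (AA R p z / q) - 1) * (1 + (z - p) * R z / q) + (z - p) * R z / q := by
    simp only [gg]
    ring
  have h5 : ‖1 + (z - p) * R z / q‖ ≤ 9 / 8 := by
    refine (norm_add_le _ _).trans ?_
    rw [norm_one]
    linarith
  have h6 : 0 ≤ η := (norm_nonneg _).trans h1
  rw [h4]
  refine (norm_add_le _ _).trans ?_
  rw [norm_mul]
  have h7 := mul_le_mul (h3.trans (by linarith : 2 * ‖AA R p z / q‖ ≤ 2 * η)) h5 (norm_nonneg _)
    (by linarith)
  linarith

theorem height (hR : DifferentiableOn ℂ R (ball p r)) (hq : q ≠ 0) (h : ℂ → ℝ)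
    (h1 : ∀ z ∈ ball p r, z ≠ p → HasFDerivAt h (hl (R z + q / (z - p))) z)
    (h2 : ContinuousAt (fun z => h z - q * Real.log ‖z - p‖) p) {z : ℂ} (hz : z ∈ ball p r)
    (hne : z ≠ p) : h z = h p + q * Real.log ‖vv R p q z‖ := by
  have hw : z - p ≠ 0 := sub_ne_zero.2 hne
  have hA : ∀ x ∈ Icc (0 : ℝ) 1, HasDerivAt (fun x : ℝ => (AA R p (p + x * (z - p))).re)
      (((z - p) * R (p + x * (z - p))).re) x := fun x hx => by
    simpa [smul_eq_mul, Function.comp_def] using reCLM.hasFDerivAt.comp_hasDerivAt x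
      ((AA_deriv hR (seg_mem hz hx)).scomp x (seg_deriv p (z - p) x))
  have hd : ∀ x ∈ Ioc (0 : ℝ) 1, HasDerivAt (fun x : ℝ => h (p + x * (z - p)) -
      q * Real.log ‖p + x * (z - p) - p‖ - (AA R p (p + x * (z - p))).re) 0 x := fun x hx => by
    have hx0 : (x : ℂ) ≠ 0 := ofReal_ne_zero.2 hx.1.ne'
    have a1 := (h1 _ (seg_mem hz (Ioc_subset_Icc_self hx)) (by simp [hx0, hw])).comp_hasDerivAt x
      (seg_deriv p (z - p) x)
    have a2 : HasDerivAt (fun x : ℝ => Real.log ‖p + x * (z - p) - p‖) x⁻¹ x := by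
      refine ((Real.hasDerivAt_log hx.1.ne').add_const (Real.log ‖z - p‖)).congr_of_eventuallyEq
        ((lt_mem_nhds hx.1).mono fun y hy => ?_)
      simp only [add_sub_cancel_left, norm_mul, norm_real]
      rw [Real.log_mul (norm_ne_zero_iff.2 hy.ne') (norm_ne_zero_iff.2 hw), Real.norm_eq_abs,
        Real.log_abs]
    refine ((a1.sub (a2.const_mul q)).sub (hA x (Ioc_subset_Icc_self hx))).congr_deriv ?_
    have a3 : (R (p + x * (z - p)) + q / (p + x * (z - p) - p)) * (z - p) =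
        (z - p) * R (p + x * (z - p)) + ((q * x⁻¹ : ℝ) : ℂ) := by
      rw [add_sub_cancel_left]
      push_cast
      field_simp
    simp only [hl, ContinuousLinearMap.comp_apply, ContinuousLinearMap.mul_apply', reCLM_apply, a3,
      add_re, ofReal_re]
    ring
  obtain ⟨c, -, hc⟩ := exists_hasDerivAt_eq_slope (fun x : ℝ => h (p + x * (z - p)) -
      q * Real.log ‖p + x * (z - p) - p‖ - (AA R p (p + x * (z - p))).re) (fun _ => 0) zero_lt_one
    (fun x hx => by
      rcases hx.1.eq_or_lt with rfl | h0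
      · refine (ContinuousAt.sub ?_ (hA 0 hx).continuousAt).continuousWithinAt
        exact h2.comp_of_eq (seg_deriv p (z - p) 0).continuousAt (by simp)
      · exact (hd x ⟨h0, hx.2⟩).continuousAt.continuousWithinAt)
    fun x hx => hd x (Ioo_subset_Ioc_self hx)
  have a4 : q * Real.log ‖vv R p q z‖ = q * Real.log ‖z - p‖ + (AA R p z).re := by
    rw [vv, norm_mul, Real.log_mul (norm_ne_zero_iff.2 hw) (norm_ne_zero_iff.2 (exp_ne_zero _)),
      norm_exp, Real.log_exp, div_ofReal_re]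
    field_simp
  simp [AA_self] at hc
  linarith

theorem one_le_norm {u : GI} (h : u ≠ 0) : 1 ≤ ‖(u : ℂ)‖ := by
  have h1 : (1 : ℝ) ≤ normSq (u : ℂ) := by
    rw [← GaussianInt.intCast_real_norm]
    exact_mod_cast GaussianInt.norm_pos.2 h
  rw [normSq_eq_norm_sq] at h1
  nlinarith [norm_nonneg (u : ℂ)]

end VtP

open VtP

theorem pVt (h1 : S_Lev) (h2 : S_Shp) (h3 : S_Dip) : S_Vt := by
  intro E
  obtain ⟨C1, m1, -, h1⟩ := h1 E
  obtain ⟨C, m2, hC, h2⟩ := h2 E
  refine ⟨18 * C, max (max m1 m2) (max 6 ⌈24 * C⌉₊), by positivity, fun l s b hl hm u hu => ?_⟩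
  simp only [max_le_iff] at hm
  obtain ⟨a1, -, -, a2, -, a3, a4, a5, a6, a7⟩ := h1 l s b hl hm.1.1
  obtain ⟨κ, b1, -⟩ := h2 l s b hl hm.1.2
  obtain ⟨-, -, c1, c2, -, c3, -, c4, ⟨w0, c5, -⟩, -⟩ := h3 l hl.ok
  have hd := dd_pos l.m
  have m6 : (6 : ℝ) ≤ l.m := by exact_mod_cast hm.2.1
  have m24 : 24 * C ≤ l.m := Nat.ceil_le.1 hm.2.2
  have m0 : (0 : ℝ) < l.m := by linarith
  have hr : 0 < 3 * rho l.m := by unfold rho; positivity
  have hr2 : 3 * rho l.m ≤ dd l.m / 2 := by
    unfold rho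
    rw [← mul_div_assoc, div_le_iff₀ m0]
    nlinarith
  have hq : dd l.m ^ 2 ≤ |qq l s u| := by
    have e1 := abs_le.1 (a1 u).2.2.2
    have e2 := c3 u hu
    rw [qq, abs_mul, abs_of_pos (by linarith : 0 < 1 + s.σ u)]
    nlinarith [sq_nonneg (dd l.m)]
  have hq0 : qq l s u ≠ 0 := abs_pos.1 ((pow_pos hd 2).trans_le hq)
  have hR : DifferentiableOn ℂ (RR E l s u) (ball (pos l s u) (3 * rho l.m)) :=
    (a7 u hu).1.mono (ball_subset_ball hr2)
  have hB : ∀ z ∈ ball (pos l s u) (3 * rho l.m), ‖RR E l s u z‖ ≤ C * dd l.m := fun z hz =>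
    b1 u hu z ((mem_ball_iff_norm.1 hz).trans_le hr2)
  have hv : vt E l s u = vv (RR E l s u) (pos l s u) (qq l s u) := rfl
  have hv' : ∀ z ∈ ball (pos l s u) (3 * rho l.m),
      deriv (vt E l s u) z = gg (RR E l s u) (pos l s u) (qq l s u) z := fun z hz =>
    (vv_deriv hR hz).deriv
  have hη : 3 * C / l.m ≤ 1 / 8 := by
    rw [div_le_iff₀ m0]
    linarith
  have hg : ∀ z ∈ ball (pos l s u) (3 * rho l.m), ‖deriv (vt E l s u) z - 1‖ ≤ 4 * (3 * C / l.m) :=
    fun z hz => by
      rw [hv' z hz]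
      refine gg_le hB hq0 (le_trans (le_of_eq ?_)
        (mul_le_mul_of_nonneg_left hq (by positivity))) hη hz
      unfold rho
      ring
  have hs : ∀ z ∈ ball (pos l s u) (3 * rho l.m), deriv (vt E l s u) z ∈ slitPlane :=
    fun z hz => by
      simpa using mem_slitPlane_of_norm_lt_one ((hg z hz).trans_lt (by linarith))
  have hD : DifferentiableOn ℂ (vt E l s u) (ball (pos l s u) (3 * rho l.m)) := fun z hz =>
    (vv_deriv hR hz).differentiableAt.differentiableWithinAt
  have hout : ∀ z ∈ ball (pos l s u) (3 * rho l.m), z ≠ pos l s u →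
      z ∈ Out (Nk l) (pos l s) 0 := fun z hz hne u' _ => by
    refine norm_pos_iff.2 (sub_ne_zero.2 fun h => ?_)
    have e0 : u' - u ≠ 0 := fun h' => hne (by rw [h, sub_eq_zero.1 h'])
    have e1 := one_le_norm e0
    have e2 := a2 u' u
    have e3 := norm_sub_norm_le (l.c * ((u' - u : GI) : ℂ)) (pos l s u' - pos l s u)
    rw [norm_sub_rev (l.c * _), norm_mul, c4] at e3
    have e4 := mem_ball_iff_norm.1 hz
    rw [h] at e4
    have e5 := mul_le_mul_of_nonneg_left e1 hd.le
    linarith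
  have hp := mem_ball_self (x := pos l s u) hr
  refine ⟨hD, (hD.deriv isOpen_ball).clog hs, by simp [vt], ?_, ?_, fun z hz => ?_, ?_, ?_⟩
  · rw [lv, hv' _ hp, gg_self, log_one]
  · have e1 := (gg_deriv (q := qq l s u) hR hr).clog (by rw [gg_self]; exact one_mem_slitPlane)
    rw [gg_self, div_one] at e1
    exact e1.congr_of_eventuallyEq (eventually_of_mem (ball_mem_nhds _ hr) fun z hz => by
      simp only [lv]
      rw [hv' z hz])
  · have hz' := mem_ball_iff_norm.2 hz
    have e1 := hg z hz'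
    have e2 : 0 ≤ C / l.m := by positivity
    have e3 : 18 * C / l.m = 18 * (C / l.m) := by ring
    have e4 : 3 * C / l.m = 3 * (C / l.m) := by ring
    refine ⟨by linarith, ?_, exp_log (slitPlane_ne_zero (hs z hz')), fun hne => ⟨?_, ?_⟩⟩
    · have e5 := norm_log_one_add_half_le_self (e1.trans (by linarith))
      rw [add_sub_cancel] at e5
      rw [lv]
      linarith
    · have e5 : z - pos l s u ≠ 0 := sub_ne_zero.2 hne
      have e6 : (qq l s u : ℂ) ≠ 0 := ofReal_ne_zero.2 hq0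
      have e7 := exp_ne_zero (AA (RR E l s u) (pos l s u) z / qq l s u)
      have e8 : psi E l s z = RR E l s u z + qq l s u / (z - pos l s u) := by simp [RR]
      rw [hv' z hz', hv, gg, vv, e8]
      field_simp
      ring
    · refine height hR hq0 (ht E l s) (fun y hy hy' => ?_) (a7 u hu).2 hz' hne
      simpa [RR] using (a6 y (hout y hy hy')).2
  · have e1 : qq l s (-u) = qq l s u := by rw [qq, qq, (c2 u).1, hl.evn]
    have e2 : ∀ z, RR E l s (-u) (-z) = -RR E l s u z := fun z => by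
      rw [RR, RR, (a5 z).1, e1, a4 u hu, neg_sub_neg, ← neg_sub z, div_neg]
      ring
    have e3 : ∀ z, vt E l s (-u) (-z) = -vt E l s u z := fun z => by
      have e4 : ∀ x : ℝ, RR E l s (-u) (-pos l s u + x * (-z - -pos l s u)) =
          -RR E l s u (pos l s u + x * (z - pos l s u)) := fun x => by
        rw [← e2]
        congr 1
        ring
      simp only [vt, e1, a4 u hu, e4, intervalIntegral.integral_neg]
      rw [neg_sub_neg, ← neg_sub z, neg_mul_neg, neg_mul]
    refine fun z => ⟨e3 z, ?_⟩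
    have e4 : vt E l s (-u) = fun y => -vt E l s u (-y) := funext fun y => by
      rw [← e3, neg_neg]
    rw [lv, lv, e4, deriv.fun_neg, deriv_comp_neg, neg_neg, neg_neg]
  · intro w
    have e1 : qq l s (u + om ^ l.m * w) = qq l s u := by rw [qq, qq, c1, hl.lv.ps]
    have e0 : l.c * ((om ^ l.m * w : GI) : ℂ) = ((w0 * w : GI) : ℂ) := by
      rw [GaussianInt.toComplex_mul, GaussianInt.toComplex_mul, ← mul_assoc, c5]
    generalize hP : Lm s.μ (l.c * ((om ^ l.m * w : GI) : ℂ)) = P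
    have e5 : pos l s (u + om ^ l.m * w) = pos l s u + P := by rw [a3, hP]
    have e2 : ∀ z, RR E l s (u + om ^ l.m * w) (z + P) = RR E l s u z := fun z => by
      rw [RR, RR, e1, e5, add_sub_add_right_eq_sub, ← hP, e0, ((a5 z).2.2 _).1]
    have e3 : ∀ z, vt E l s (u + om ^ l.m * w) (z + P) = vt E l s u z := fun z => by
      have e4 : ∀ x : ℝ, RR E l s (u + om ^ l.m * w) (pos l s u + P + x * (z - pos l s u)) =
          RR E l s u (pos l s u + x * (z - pos l s u)) := fun x => by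
        rw [← e2]
        congr 1
        ring
      simp only [vt, e1, e5, add_sub_add_right_eq_sub, e4]
    refine fun z => ⟨e3 z, ?_⟩
    have e4 : vt E l s (u + om ^ l.m * w) = fun y => vt E l s u (y - P) := funext fun y => by
      rw [← e3, sub_add_cancel]
    rw [lv, lv, e4, deriv_comp_sub_const, add_sub_cancel_right]

end Pool.Agent.P.MP_cc4a10_gt
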