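import Pool.Agent.P.MP_cc4a10_gt.St

/-!
The Weierstrass representation gives a minimal immersion.
-/

open Set Filter Topology Complex Metric
open scoped ComplexConjugate Real ContDiff RealInnerProductSpace

noncomputable section

namespace Pool.Agent.P.MP_cc4a10_gt

namespace WeierP

def ioL (K : ℤ) : ℂ →L[ℝ] ℂ :=
  if Even K then ContinuousLinearMap.id ℝ ℂ else -(conjCLE : ℂ →L[ℝ] ℂ)

theorem ioL_apply (K : ℤ) (z : ℂ) : ioL K z = io K z := by
  unfold ioL io; split_ifs <;> simp

def mkL : (ℂ × ℝ) →L[ℝ] E3 :=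
  LinearMap.toContinuousLinearMap
    { toFun := fun a => mkE a.1 a.2
      map_add' := fun a b => by
        ext i; fin_cases i <;> simp [mkE]
      map_smul' := fun c a => by
        ext i; fin_cases i <;> simp [mkE] }

theorem mkL_apply (w : ℂ) (x : ℝ) : mkL (w, x) = mkE w x := rfl

/-- The differential as a function of the three coefficients. -/
def AA (K : ℤ) (a b c : ℂ) : E3 := mkL (ioL K (a - conj b), (2 * c).re)

theorem inner_mk (w w' : ℂ) (x x' : ℝ) :
    ⟪mkE w x, mkE w' x'⟫ = w.re * w'.re + w.im * w'.im + x * x' := by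
  simp [mkE, PiLp.inner_apply, Fin.sum_univ_three]; ring

theorem inner_AA (K : ℤ) (a b c a' b' c' : ℂ) : ⟪AA K a b c, AA K a' b' c'⟫ =
    (a.re - b.re) * (a'.re - b'.re) + (a.im + b.im) * (a'.im + b'.im) + 4 * (c.re * c'.re) := by
  unfold AA
  rw [mkL_apply, mkL_apply, inner_mk, ioL_apply, ioL_apply]
  unfold io
  split_ifs <;> simp <;> ring

def AL (K : ℤ) : (ℂ × ℂ × ℂ) →L[ℝ] E3 :=
  mkL.comp (((ioL K).comp (ContinuousLinearMap.fst ℝ ℂ (ℂ × ℂ) - (conjCLE : ℂ →L[ℝ] ℂ).comp
    ((ContinuousLinearMap.fst ℝ ℂ ℂ).comp (ContinuousLinearMap.snd ℝ ℂ (ℂ × ℂ))))).prod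
    ((hl 2).comp ((ContinuousLinearMap.snd ℝ ℂ ℂ).comp (ContinuousLinearMap.snd ℝ ℂ (ℂ × ℂ)))))

theorem AL_apply (K : ℤ) (a b c : ℂ) : AL K (a, b, c) = AA K a b c := by
  simp [AL, AA, hl]

end WeierP

open WeierP in
theorem pWeier : S_Weier := by
  intro U φ1 φ2 φ3 Z h hU h1 h2 h3 H K
  set f : ℂ → E3 := fun z => mkE (io K (Z z)) (h z) with hf
  have hd : ∀ z ∈ U, HasFDerivAt f
      (mkL.comp (((ioL K).comp (wl (φ1 z) (φ2 z))).prod (hl (2 * φ3 z)))) z := by
    intro z hz
    obtain ⟨-, -, hZ, hh⟩ := H z hz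
    have := mkL.hasFDerivAt.comp z (((ioL K).hasFDerivAt.comp z hZ).prodMk hh)
    refine this.congr_of_eventuallyEq (Eventually.of_forall fun w => ?_)
    simp [hf, mkL_apply, ioL_apply]
  have hA : ∀ z ∈ U, ∀ a, fderiv ℝ f z a = AA K (φ1 z * a) (φ2 z * a) (φ3 z * a) := by
    intro z hz a
    rw [(hd z hz).fderiv]
    simp [AA, wl, hl, mul_assoc]
  have sm : ∀ φ : ℂ → ℂ, DifferentiableOn ℂ φ U → ContDiffOn ℝ ∞ φ U := fun φ hφ =>
    ((hφ.analyticOnNhd hU).contDiffOn_of_completeSpace (n := ∞)).restrict_scalars ℝ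
  have hD : ∀ z ∈ U, ∀ a b, D2 f z a b =
      AA K (deriv φ1 z * b * a) (deriv φ2 z * b * a) (deriv φ3 z * b * a) := by
    intro z hz a b
    have hn := hU.mem_nhds hz
    have e : (fun w => fderiv ℝ f w a) =ᶠ[𝓝 z]
        fun w => AL K (φ1 w * a, φ2 w * a, φ3 w * a) := by
      filter_upwards [hn] with w hw
      rw [hA w hw, AL_apply]
    have d : ∀ φ : ℂ → ℂ, DifferentiableOn ℂ φ U → HasFDerivAt (fun w => φ w * a)
        ((ContinuousLinearMap.toSpanSingleton ℂ (deriv φ z * a)).restrictScalars ℝ) z :=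
      fun φ hφ => (((hφ.differentiableAt hn).hasDerivAt.mul_const a).hasFDerivAt).restrictScalars ℝ
    have := (AL K).hasFDerivAt.comp z ((d φ1 h1).prodMk ((d φ2 h2).prodMk (d φ3 h3)))
    unfold D2
    rw [e.fderiv_eq]
    erw [this.fderiv]
    rw [← AL_apply]
    simp only [ContinuousLinearMap.comp_apply, ContinuousLinearMap.prod_apply,
      ContinuousLinearMap.coe_restrictScalars', ContinuousLinearMap.toSpanSingleton_apply,
      smul_eq_mul]
    congr 1
    ext <;> simp <;> ring
  refine ⟨?_, ?_, ?_⟩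
  · rw [contDiffOn_infty_iff_fderiv_of_isOpen hU]
    refine ⟨fun z hz => (hd z hz).differentiableAt.differentiableWithinAt, ?_⟩
    rw [contDiffOn_clm_apply]
    intro a
    have : ContDiffOn ℝ ∞ (fun w => AL K (φ1 w * a, φ2 w * a, φ3 w * a)) U :=
      (AL K).contDiff.comp_contDiffOn (((sm φ1 h1).mul contDiffOn_const).prodMk
        (((sm φ2 h2).mul contDiffOn_const).prodMk ((sm φ3 h3).mul contDiffOn_const)))
    exact this.congr fun w hw => by rw [hA w hw, AL_apply]
  · intro z hz
    obtain ⟨n1, e, -, -⟩ := H z hz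
    rw [injective_iff_map_eq_zero]
    intro a ha
    have h0 : ⟪fderiv ℝ f z a, fderiv ℝ f z a⟫ = 0 := by rw [ha]; simp
    rw [hA z hz, inner_AA] at h0
    have e2 : (φ1 z * a) * (φ2 z * a) = (φ3 z * a) ^ 2 := by rw [mul_pow, ← e]; ring
    have hA0 : φ1 z * a = 0 := by
      generalize φ1 z * a = A at h0 e2 ⊢
      generalize φ2 z * a = B at h0 e2
      generalize φ3 z * a = C at h0 e2
      have er := congrArg Complex.re e2
      simp only [mul_re, pow_two] at er
      have s1 := mul_self_nonneg (A.re - B.re)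
      have s2 := mul_self_nonneg (A.im + B.im)
      have s3 := mul_self_nonneg C.re
      have a1 : A.re - B.re = 0 := mul_self_eq_zero.mp (by linarith)
      have a2 : A.im + B.im = 0 := mul_self_eq_zero.mp (by linarith)
      have a3 : C.re * C.re = 0 := by linarith
      have b1 : B.re = A.re := by linarith
      have b2 : B.im = -A.im := by linarith
      rw [b1, b2, a3] at er
      have s4 := mul_self_nonneg A.re
      have s5 := mul_self_nonneg A.im
      have s6 := mul_self_nonneg C.im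
      exact Complex.ext (mul_self_eq_zero.mp (by linarith)) (mul_self_eq_zero.mp (by linarith))
    exact (mul_eq_zero.mp hA0).resolve_left n1
  · intro z hz n hn
    obtain ⟨-, e, -, -⟩ := H z hz
    have er := congrArg Complex.re e
    have ei := congrArg Complex.im e
    simp only [mul_re, mul_im, pow_two] at er ei
    have hEG : ⟪fderiv ℝ f z I, fderiv ℝ f z I⟫ = ⟪fderiv ℝ f z 1, fderiv ℝ f z 1⟫ := by
      rw [hA z hz, hA z hz, inner_AA, inner_AA]
      simp only [mul_re, mul_im, I_re, I_im, one_re, one_im]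
      linear_combination 4 * er
    have hF : ⟪fderiv ℝ f z 1, fderiv ℝ f z I⟫ = 0 := by
      rw [hA z hz, hA z hz, inner_AA]
      simp only [mul_re, mul_im, I_re, I_im, one_re, one_im]
      linear_combination 2 * ei
    have hL : D2 f z I I = -D2 f z 1 1 := by
      rw [hD z hz, hD z hz, ← AL_apply, ← AL_apply, ← map_neg]
      congr 1
      ext <;> simp [mul_assoc]
    rw [hEG, hF, hL, inner_neg_left]
    ring

end Pool.Agent.P.MP_cc4a10_gt
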