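import Pool.Agent.P.MP_cc4a10_gt.St

/-! The linear estimate in one window. -/

open Finset

noncomputable section

namespace Pool.Agent.P.MP_cc4a10_gt

namespace WinP

theorem len_mono {a b : ℕ} (h : a ≤ b) : len a ≤ len b :=
  Nat.pow_le_pow_right (by norm_num) (by omega)

theorem len_succ (a : ℕ) : len (a + 1) ≤ 2 * len a := by
  unfold len
  rw [← pow_succ']
  exact Nat.pow_le_pow_right (by norm_num) (by omega)

theorem two_len_le (j0 r : ℕ) : 2 * len (j0 + r) ≤ bb j0 r := by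
  rcases r with _ | r
  · simp [bb]
  · rw [bb, ← add_assoc]
    omega

theorem exists_stage {j0 : ℕ} (hb : StrictMono (bb j0)) (n : ℕ) :
    n ≤ bb j0 0 ∨ ∃ r, bb j0 r < n ∧ n ≤ bb j0 (r + 1) := by
  have h : ∃ r, n ≤ bb j0 r := ⟨n, hb.le_apply⟩
  classical
  rcases h0 : Nat.find h with _ | r
  · exact Or.inl (h0 ▸ Nat.find_spec h)
  · exact Or.inr ⟨r, not_le.mp (Nat.find_min h (by omega)), h0 ▸ Nat.find_spec h⟩

/-- A window contains at most one special place. -/
theorem geo (hS : S_Stage) (j0 i : ℕ) (k : ℤ) (hk1 : -(NN j0 i : ℤ) ≤ k) (hk2 : k ≤ NN j0 i + 1) :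
    4 * wid j0 k ≤ NN j0 i ∧
    ((∀ K, k - 3 * wid j0 k ≤ K → K ≤ k + 3 * wid j0 k → stg j0 K = stg j0 k) ∨
      ∃ (j : ℕ) (k0 : ℤ), j0 ≤ j ∧ -(NN j0 i : ℤ) ≤ k - 3 * wid j0 k ∧
        k + 3 * wid j0 k ≤ NN j0 i ∧
        ((∀ K, k - 3 * wid j0 k ≤ K → K ≤ k + 3 * wid j0 k →
          stg j0 K = if K ≤ k0 then j else j + 1) ∨
        ∀ K, k - 3 * wid j0 k ≤ K → K ≤ k + 3 * wid j0 k →
          stg j0 K = if K ≤ k0 then j + 1 else j)) := by
  obtain ⟨-, -, -, h0, h1, hb, hN, -⟩ := hS.1 j0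
  have eb : ∀ r, bb j0 (r + 1) = bb j0 r + 2 * len (j0 + r + 1) + 1 := fun r => rfl
  have eN : ∀ r, NN j0 r = bb j0 r + len (j0 + r + 1) := fun r => rfl
  have lm : ∀ r, len (j0 + r) ≤ len (j0 + r + 1) := fun r => len_mono (Nat.le_succ _)
  have ls : ∀ r, len (j0 + r + 1) ≤ 2 * len (j0 + r) := fun r => len_succ _
  rcases exists_stage hb k.natAbs with hn | ⟨r, hr1, hr2⟩
  · have hw : wid j0 k = len (j0 + 0) / 32 := by rw [wid, h0 k hn, add_zero]
    have e1 := eb 0
    have e2 := eN 0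
    have e3 := lm 0
    have e4 := two_len_le j0 0
    have e5 : NN j0 0 ≤ NN j0 i := hN.monotone (Nat.zero_le i)
    refine ⟨by omega, Or.inr ?_⟩
    by_cases hk : 0 ≤ k
    · refine ⟨j0, bb j0 0, le_rfl, by omega, by omega, Or.inl fun K a b => ?_⟩
      split_ifs with h
      · exact h0 K (by omega)
      · exact h1 0 K (by omega) (by omega)
    · refine ⟨j0, -bb j0 0 - 1, le_rfl, by omega, by omega, Or.inr fun K a b => ?_⟩
      split_ifs with h
      · exact h1 0 K (by omega) (by omega)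
      · exact h0 K (by omega)
  have hw : wid j0 k = len (j0 + r + 1) / 32 := by rw [wid, h1 r k hr1 hr2]
  have e1 := eb r
  have e2 := eb (r + 1)
  have e3 := lm (r + 1)
  have e4 := two_len_le j0 r
  have e5 := ls r
  have e6 := eN r
  have e7 := eN (r + 1)
  have e8 := eb i
  have e9 := eN i
  rw [← add_assoc] at e2 e3 e7
  have hri : r ≤ i := by
    by_contra h
    have := hb.monotone (show i + 1 ≤ r by omega)
    omega
  have e10 : NN j0 r ≤ NN j0 i := hN.monotone hri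
  have hlow : ∀ K : ℤ, K.natAbs ≤ bb j0 r → bb j0 r < K.natAbs + 2 * len (j0 + r) →
      stg j0 K = j0 + r := fun K a b => by
    rcases r with _ | r
    · exact h0 K a
    · have := eb r
      exact h1 r K (by rw [← add_assoc] at b; omega) a
  refine ⟨by omega, ?_⟩
  by_cases hA : k.natAbs ≤ bb j0 r + 3 * wid j0 k
  · refine Or.inr ?_
    by_cases hk : 0 ≤ k
    · refine ⟨j0 + r, bb j0 r, by omega, by omega, by omega, Or.inl fun K a b => ?_⟩
      split_ifs with h
      · exact hlow K (by omega) (by omega)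
      · exact h1 r K (by omega) (by omega)
    · refine ⟨j0 + r, -bb j0 r - 1, by omega, by omega, by omega, Or.inr fun K a b => ?_⟩
      split_ifs with h
      · exact h1 r K (by omega) (by omega)
      · exact hlow K (by omega) (by omega)
  by_cases hB : k.natAbs + 3 * wid j0 k ≤ bb j0 (r + 1)
  · refine Or.inl fun K a b => ?_
    rw [h1 r k hr1 hr2]
    exact h1 r K (by omega) (by omega)
  have hri' : r + 1 ≤ i := by
    by_contra h
    obtain rfl : r = i := by omega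
    omega
  have e11 : NN j0 (r + 1) ≤ NN j0 i := hN.monotone hri'
  refine Or.inr ?_
  by_cases hk : 0 ≤ k
  · refine ⟨j0 + r + 1, bb j0 (r + 1), by omega, by omega, by omega, Or.inl fun K a b => ?_⟩
    split_ifs with h
    · exact h1 r K (by omega) (by omega)
    · exact h1 (r + 1) K (by omega) (by omega)
  · refine ⟨j0 + r + 1, -bb j0 (r + 1) - 1, by omega, by omega, by omega,
      Or.inr fun K a b => ?_⟩
    split_ifs with h
    · exact h1 (r + 1) K (by omega) (by omega)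
    · exact h1 r K (by omega) (by omega)

theorem nT_nonneg (S : Sys) (v : Vec) (K : ℤ) : 0 ≤ nT S v K := by
  unfold nT nb2
  have := g2_nonneg (lvT S K).m (eT S v K)
  have := msq_nonneg (lvT S K).m (fun u => (sT S v K u : ℂ))
  positivity

theorem loc_mono {E : Ell} {S : Sys} {C C' : ℝ} (h : C ≤ C') {j : ℕ} {a b a' b' : ℤ}
    (hL : Loc E S C j a b a' b') : Loc E S C' j a b a' b' := fun v A h1 h2 h3 h4 =>
  (hL v A h1 h2 h3 h4).trans (by gcongr)

/-- The tent. -/
def tent (k : ℤ) (w : ℕ) (K : ℤ) : ℝ :=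
  max 0 (min 1 (min ((K - (k - 2 * w - 1) : ℝ) / w) ((k + 2 * w - K : ℝ) / w)))

theorem tent_abs (k : ℤ) (w : ℕ) (K : ℤ) : |tent k w K| ≤ 1 := by
  rw [abs_of_nonneg (le_max_left _ _)]
  exact max_le zero_le_one (min_le_left _ _)

theorem tent_one {k : ℤ} {w : ℕ} (hw : 0 < w) {K : ℤ} (h1 : k - w - 1 ≤ K) (h2 : K ≤ k + w) :
    tent k w K = 1 := by
  have hw' : (0 : ℝ) < w := by exact_mod_cast hw
  have a1 : (k - w - 1 : ℝ) ≤ K := by exact_mod_cast h1
  have a2 : (K : ℝ) ≤ k + w := by exact_mod_cast h2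
  unfold tent
  rw [min_eq_left (le_min ((one_le_div hw').2 (by linarith)) ((one_le_div hw').2 (by linarith))),
    max_eq_right zero_le_one]

theorem tent_zero {k : ℤ} {w : ℕ} {K : ℤ} (h : K < k - 2 * w ∨ k + 2 * w - 1 < K) :
    tent k w K = 0 := by
  refine max_eq_left ((min_le_right _ _).trans ?_)
  rcases h with h | h
  · have a1 : (K : ℝ) ≤ k - 2 * w - 1 := by exact_mod_cast (by omega : K ≤ k - 2 * w - 1)
    exact (min_le_left _ _).trans (div_nonpos_of_nonpos_of_nonneg (by linarith) (by positivity))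
  · have a1 : (k + 2 * w : ℝ) ≤ K := by exact_mod_cast (by omega : k + 2 * w ≤ K)
    exact (min_le_right _ _).trans (div_nonpos_of_nonpos_of_nonneg (by linarith) (by positivity))

theorem tent_lip (k : ℤ) (w : ℕ) (K : ℤ) : |tent k w K - tent k w (K - 1)| ≤ 1 / w := by
  unfold tent
  rw [max_comm 0, max_comm 0]
  refine (abs_max_sub_max_le_abs _ _ _).trans ((abs_min_sub_min_le_max _ _ _ _).trans
    (max_le (by simp) ((abs_min_sub_min_le_max _ _ _ _).trans (max_le ?_ ?_))))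
  · rw [← sub_div, abs_div, Nat.abs_cast]
    push_cast
    rw [show (K : ℝ) - (k - 2 * w - 1) - (K - 1 - (k - 2 * w - 1)) = 1 by ring, abs_one]
  · rw [← sub_div, abs_div, Nat.abs_cast]
    push_cast
    rw [show (k : ℝ) + 2 * w - K - (k + 2 * w - (K - 1)) = -1 by ring, abs_neg, abs_one]

theorem sum_eq_of_van {f : ℤ → ℝ} {s t : Finset ℤ} (h : s ⊆ t) (h0 : ∀ K, K ∉ s → f K = 0) :
    ∑ K ∈ t, f K = ∑ K ∈ s, f K :=
  (sum_subset h fun K _ hK => h0 K hK).symm

end WinP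

open WinP in
theorem pWin (hL1 : S_Loc1) (hL3 : S_Loc3) (hC : S_Cut) (hS : S_Stage) : S_Win := by
  intro E
  obtain ⟨C1, j1, hC1, H1⟩ := hL1 E
  obtain ⟨C3, j3, hC3, H3⟩ := hL3 E
  obtain ⟨C, jc, hCp, Hc⟩ := hC E
  refine ⟨(C1 + C3) * (2 * C), by positivity, fun η hη => ?_⟩
  obtain ⟨δ, hδ0, hδ1, hδ2⟩ : ∃ δ : ℝ, 0 < δ ∧ δ ≤ 1 ∧ (C1 + C3) * (2 * (C * δ) ^ 2) ≤ η := by
    refine ⟨min 1 (η / ((C1 + C3) * (2 * C ^ 2))), by positivity, min_le_left _ _, ?_⟩
    set δ := min 1 (η / ((C1 + C3) * (2 * C ^ 2)))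
    have a1 : δ ≤ 1 := min_le_left _ _
    have a2 : δ * ((C1 + C3) * (2 * C ^ 2)) ≤ η :=
      (le_div_iff₀ (by positivity)).1 (min_le_right _ _)
    have a3 : 0 < δ := by positivity
    calc _ = δ * (δ * ((C1 + C3) * (2 * C ^ 2))) := by ring
      _ ≤ 1 * η := by gcongr
      _ = η := one_mul _
  obtain ⟨js, Hs⟩ := hS.2.2 (δ / 64) (by positivity)
  refine ⟨j1 + j3 + jc + js, fun j0 i hj v e ⟨hv, hsv, he, hB⟩ k hk => ?_⟩
  rw [mem_Icc] at hk
  obtain ⟨hok, hbig, -⟩ := hS.1 j0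
  have hbig' : ∀ K, j0 ≤ stg j0 K := hbig
  have Hc' := fun χ v => Hc (SS j0) χ v hok (fun K => le_trans (by omega) (hbig K))
  have van : ∀ (u : Vec) (a b : ℤ), Adm (SS j0) u → Supp a b u → ∀ K, K ∉ Icc a (b + 1) →
      nT (SS j0) u K = 0 ∧ ∀ v', BT E (SS j0) u v' K = 0 ∧ BT E (SS j0) v' u K = 0 := by
    intro u a b hu hs K hK
    rw [mem_Icc] at hK
    have h1 : cut (fun L => if L < a ∨ b < L then 0 else 1) u = u := by
      refine Prod.ext (funext fun L => funext fun z => ?_) (funext fun L => funext fun z => ?_)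
      · by_cases h : L < a ∨ b < L
        · simp [cut, (hs L h).1]
        · simp [cut, h]
      · by_cases h : L < a ∨ b < L
        · simp [cut, (hs L h).2]
        · simp [cut, h]
    have a1 : K < a ∨ b < K := by omega
    have a2 : K - 1 < a ∨ b < K - 1 := by omega
    have := ((Hc' (fun L => if L < a ∨ b < L then 0 else 1) u hu).2 K 0 (by simp [a1])
      (by simp only [a2]; simp) (by simp only [a1, a2]; simp) (dd_pos _).le).2.2.1 (by simp [a1])
      (by simp only [a2]; simp)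
    rwa [h1] at this
  have hlen : ∀ j, j0 ≤ j → 192 ≤ len j := fun j h => by
    have h1 := Hs j (by omega)
    have h2 : (len j : ℝ) * dd (j + 3) ≤ len j * 1 := by gcongr; exact dd_le_one _
    have h3 : δ / 64 * (len j * dd (j + 3)) ≤ 1 / 64 * (len j * 1) := by
      have := dd_pos (j + 3)
      gcongr
    have h4 : (192 : ℝ) ≤ len j := by linarith [(Nat.cast_nonneg j : (0 : ℝ) ≤ j)]
    exact_mod_cast h4
  obtain ⟨hwN, hgeo⟩ := geo hS j0 i k hk.1 hk.2
  have hwl : len (stg j0 k) ≤ 64 * wid j0 k ∧ 4 ≤ wid j0 k := by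
    have := hlen _ (hbig' k)
    unfold wid
    omega
  generalize wid j0 k = w at *
  generalize hNN : (NN j0 i : ℤ) = N at *
  have hwN' : 4 * (w : ℤ) ≤ N := by omega
  obtain ⟨a0, ha0⟩ : ∃ a0, a0 = max (k - 2 * w) (-N) := ⟨_, rfl⟩
  obtain ⟨b0, hb0⟩ : ∃ b0, b0 = min (k + 2 * w - 1) N := ⟨_, rfl⟩
  obtain ⟨j, a, b, a', b', hloc, hj0, hst, h1, h2, h3, h4, h5, h6⟩ : ∃ (j : ℕ) (a b a' b' : ℤ),
      Loc E (SS j0) (C1 + C3) j a b a' b' ∧ j0 ≤ j ∧
      (∀ K, k - 2 * w - 1 ≤ K → K ≤ k + 2 * w → j ≤ stg j0 K ∧ stg j0 K ≤ j + 1) ∧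
      a ≤ a0 ∧ b0 ≤ b ∧ a' ≤ a0 ∧ b0 ≤ b' ∧ (a0 ≤ a' ∨ a0 = k - 2 * w) ∧
      (b' ≤ b0 ∨ b0 = k + 2 * w - 1) := by
    have one : (∀ K, k - 2 * w - 2 ≤ K → K ≤ k + 2 * w + 1 → stg j0 K = stg j0 k) →
        ∃ (j : ℕ) (a b a' b' : ℤ), Loc E (SS j0) (C1 + C3) j a b a' b' ∧ j0 ≤ j ∧
        (∀ K, k - 2 * w - 1 ≤ K → K ≤ k + 2 * w → j ≤ stg j0 K ∧ stg j0 K ≤ j + 1) ∧
        a ≤ a0 ∧ b0 ≤ b ∧ a' ≤ a0 ∧ b0 ≤ b' ∧ (a0 ≤ a' ∨ a0 = k - 2 * w) ∧
        (b' ≤ b0 ∨ b0 = k + 2 * w - 1) := fun h => by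
      have hl := H1 (SS j0) (stg j0 k) a0 b0 hok (le_trans (by omega) (hbig' k)) (by omega)
        fun K a b => h K (by omega) (by omega)
      have hs : ∀ K, k - 2 * w - 1 ≤ K → K ≤ k + 2 * w →
          stg j0 k ≤ stg j0 K ∧ stg j0 K ≤ stg j0 k + 1 := fun K a b => by
        rw [h K (by omega) (by omega)]
        omega
      by_cases hc : a0 = k - 2 * w
      · exact ⟨_, _, _, _, _, loc_mono (by linarith) hl.1, hbig' k, hs, le_rfl, le_rfl, by omega,
          le_rfl, Or.inr hc, Or.inl le_rfl⟩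
      · exact ⟨_, _, _, _, _, loc_mono (by linarith) hl.2, hbig' k, hs, le_rfl, le_rfl, le_rfl,
          by omega, Or.inl le_rfl, Or.inr (by omega)⟩
    rcases hgeo with h | ⟨j, k0, hj0, g1, g2, h⟩
    · exact one fun K a b => h K (by omega) (by omega)
    by_cases hc : k - 2 * w - 2 ≤ k0 ∧ k0 ≤ k + 2 * w
    · refine ⟨j, k - 2 * w - 2, k + 2 * w + 2, _, _, loc_mono (by linarith)
        (H3 (SS j0) j _ _ k0 hok (by omega) hc.1 (by omega) ?_), hj0, fun K a b => ?_,
        by omega, by omega, by omega, by omega, Or.inr (by omega), Or.inr (by omega)⟩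
      · exact h.imp (fun h K a b => h K (by omega) (by omega))
          fun h K a b => h K (by omega) (by omega)
      · rcases h with h | h <;> rw [h K (by omega) (by omega)] <;> split_ifs <;> omega
    · refine one fun K a b => ?_
      rcases h with h | h <;> rw [h K (by omega) (by omega), h k (by omega) (by omega)] <;>
        split_ifs <;> omega
  have hw0 : 0 < w := by omega
  have hw0' : (0 : ℝ) < w := by exact_mod_cast hw0
  have hlev : ∀ K ∈ Icc a0 (b0 + 1), dd (mK (SS j0) K) ≤ dd j ∧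
      (mK (SS j0) K : ℝ) * (1 / w) ≤ δ * dd (mK (SS j0) K) ∧ 1 / w ≤ dd (mK (SS j0) K) := by
    intro K hK
    rw [mem_Icc] at hK
    have s1 := hst K (by omega) (by omega)
    have s2 := hst (K - 1) (by omega) (by omega)
    have s3 : mK (SS j0) K = min (stg j0 (K - 1)) (stg j0 K) + 2 := rfl
    have s4 := len_mono (hst k (by omega) (by omega)).1
    have s5 : (len j : ℝ) ≤ 64 * w := by exact_mod_cast s4.trans hwl.1
    have s6 : dd (j + 3) ≤ dd (mK (SS j0) K) := dd_anti (by omega)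
    have s7 : (mK (SS j0) K : ℝ) ≤ j + 3 := by exact_mod_cast (by omega : _ ≤ j + 3)
    have s8 : (1 : ℝ) ≤ mK (SS j0) K := by exact_mod_cast (by omega : 1 ≤ _)
    have s9 := dd_pos (j + 3)
    have s10 : (mK (SS j0) K : ℝ) * (1 / w) ≤ δ * dd (mK (SS j0) K) := by
      rw [mul_one_div, div_le_iff₀ hw0']
      calc _ ≤ δ / 64 * (len j * dd (j + 3)) := s7.trans (Hs j (by omega))
        _ ≤ δ / 64 * (64 * w * dd (mK (SS j0) K)) := by gcongr
        _ = _ := by ring
    refine ⟨dd_anti (by omega), s10, ?_⟩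
    calc 1 / (w : ℝ) = 1 * (1 / w) := (one_mul _).symm
      _ ≤ mK (SS j0) K * (1 / w) := by gcongr
      _ ≤ 1 * dd (mK (SS j0) K) := s10.trans (by gcongr; exact s9.le.trans s6)
      _ = _ := one_mul _
  have cutK := fun u hu K hK => (Hc' (tent k w) u hu).2 K (1 / w) (tent_abs _ _ _) (tent_abs _ _ _)
    (tent_lip _ _ _) (hlev K hK).2.2
  have csupp : ∀ (u : Vec) (p q : ℤ), Supp p q u → (a0 ≤ p ∨ a0 = k - 2 * w) →
      (q ≤ b0 ∨ b0 = k + 2 * w - 1) → Supp a0 b0 (cut (tent k w) u) := by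
    intro u p q hu c1 c2 L hL
    by_cases h : L < p ∨ q < L
    · constructor <;> funext z <;> simp [cut, (hu L h).1, (hu L h).2]
    · have := tent_zero (k := k) (w := w) (K := L) (by omega)
      constructor <;> funext z <;> simp [cut, this]
  have smono : ∀ (u : Vec) (p q : ℤ), p ≤ a0 → b0 ≤ q → Supp a0 b0 u → Supp p q u :=
    fun u p q c1 c2 hu L hL => hu L (by omega)
  have hu := (Hc' (tent k w) v hv).1
  have hsu := csupp v _ _ hsv (by omega) (by omega)
  have sub1 : Icc a0 (b0 + 1) ⊆ Icc a' (b' + 1) := Icc_subset_Icc h3 (by omega)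
  have sub2 : Icc a0 (b0 + 1) ⊆ Icc (-N) (N + 1) := Icc_subset_Icc (by omega) (by omega)
  obtain ⟨g, hg⟩ : ∃ g : ℤ → ℝ, g = fun K => dd (mK (SS j0) K) ^ 2 *
    (e K * √C + C * δ * √(nT (SS j0) v K)) := ⟨_, rfl⟩
  have main := hloc (cut (tent k w) v) (√(∑ K ∈ Icc a0 (b0 + 1), g K ^ 2)) hu
    (smono _ _ _ h1 h2 hsu) (Real.sqrt_nonneg _) fun v' hv' hs' => by
      have hu' := (Hc' (tent k w) v' hv').1
      have hsu' := csupp v' _ _ hs' h5 h6
      have b1 := hB _ hu' (smono _ _ _ (by omega) (by omega) hsu')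
      rw [sum_eq_of_van sub2 fun K hK => ((van _ _ _ hu' hsu' K hK).2 v).2,
        sum_eq_of_van sub2 fun K hK => by rw [(van _ _ _ hu' hsu' K hK).1]; simp] at b1
      rw [sum_eq_of_van sub1 fun K hK => ((van _ _ _ hu hsu K hK).2 v').1]
      have b2 : |∑ K ∈ Icc a0 (b0 + 1), BT E (SS j0) (cut (tent k w) v) v' K
          - ∑ K ∈ Icc a0 (b0 + 1), BT E (SS j0) v (cut (tent k w) v') K| ≤
          ∑ K ∈ Icc a0 (b0 + 1), dd (mK (SS j0) K) ^ 2 * (C * δ * √(nT (SS j0) v K)) *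
            √(nT (SS j0) v' K) := by
        rw [← sum_sub_distrib]
        refine (abs_sum_le_sum_abs _ _).trans (sum_le_sum fun K hK => ?_)
        refine ((cutK v hv K hK).2.2.2 v' hv').trans ?_
        have := dd_pos (mK (SS j0) K)
        calc _ = C * dd (mK (SS j0) K) * (mK (SS j0) K * (1 / w)) *
              (√(nT (SS j0) v K) * √(nT (SS j0) v' K)) := by ring
          _ ≤ C * dd (mK (SS j0) K) * (δ * dd (mK (SS j0) K)) *
              (√(nT (SS j0) v K) * √(nT (SS j0) v' K)) := by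
            gcongr _ * ?_ * _
            exact (hlev K hK).2.1
          _ = _ := by ring
      have b3 : ∑ K ∈ Icc a0 (b0 + 1), dd (mK (SS j0) K) ^ 2 * e K *
          √(nT (SS j0) (cut (tent k w) v') K) ≤ ∑ K ∈ Icc a0 (b0 + 1),
          dd (mK (SS j0) K) ^ 2 * (e K * √C) * √(nT (SS j0) v' K) := by
        refine sum_le_sum fun K hK => ?_
        have := he K
        have h7 := Real.sqrt_le_sqrt (cutK v' hv' K hK).1
        rw [Real.sqrt_mul hCp.le] at h7
        calc _ ≤ dd (mK (SS j0) K) ^ 2 * e K * (√C * √(nT (SS j0) v' K)) := by gcongr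
          _ = _ := by ring
      have b4 := Real.sum_mul_le_sqrt_mul_sqrt (Icc a0 (b0 + 1)) g fun K => √(nT (SS j0) v' K)
      simp only [Real.sq_sqrt (nT_nonneg _ _ _)] at b4
      have b5 : √(∑ K ∈ Icc a0 (b0 + 1), nT (SS j0) v' K) ≤
          √(∑ K ∈ Icc a' (b' + 1), nT (SS j0) v' K) :=
        Real.sqrt_le_sqrt (sum_le_sum_of_subset_of_nonneg sub1 fun K _ _ => nT_nonneg _ _ _)
      refine le_trans ?_ (b4.trans (by gcongr))
      have b6 := (abs_sub_abs_le_abs_sub _ _).trans b2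
      refine (sub_le_iff_le_add.1 b6).trans ((add_le_add le_rfl (b1.trans b3)).trans ?_)
      rw [← sum_add_distrib, hg]
      exact le_of_eq (sum_congr rfl fun K _ => by ring)
  rw [Real.sq_sqrt (sum_nonneg fun K _ => sq_nonneg _),
    sum_eq_of_van sub1 fun K hK => (van _ _ _ hu hsu K hK).1] at main
  have f1 : ∑ K ∈ Icc (k - w) (k + w), nT (SS j0) v K ≤
      ∑ K ∈ Icc a0 (b0 + 1), nT (SS j0) (cut (tent k w) v) K := by
    rw [sum_eq_of_van (s := Icc (k - w) (k + w) ∩ Icc a0 (b0 + 1)) (t := Icc (k - w) (k + w))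
      (f := fun K => if K ∈ Icc (k - w) (k + w) then nT (SS j0) v K else 0) inter_subset_left
      (fun K hK => ?_) |> (sum_congr rfl fun K hK => (if_pos hK).symm).trans]
    · refine le_trans (le_of_eq (sum_congr rfl fun K hK => ?_))
        (sum_le_sum_of_subset_of_nonneg inter_subset_right fun K _ _ => nT_nonneg _ _ _)
      rw [mem_inter] at hK
      rw [if_pos hK.1]
      have := mem_Icc.1 hK.1
      exact ((cutK v hv K hK.2).2.1 (tent_one hw0 (by omega) (by omega))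
        (tent_one hw0 (by omega) (by omega))).symm
    · split_ifs with h
      · refine (van v _ _ hv hsv K fun h' => hK ?_).1
        simp only [mem_inter, mem_Icc] at h h' ⊢
        omega
      · rfl
  have hd := pow_pos (dd_pos j) 4
  have f2 : (C1 + C3) * ∑ K ∈ Icc a0 (b0 + 1), g K ^ 2 ≤ (∑ K ∈ Icc a0 (b0 + 1),
      ((C1 + C3) * (2 * C) * e K ^ 2 + η * nT (SS j0) v K)) * dd j ^ 4 := by
    rw [mul_sum, sum_mul]
    refine sum_le_sum fun K hK => ?_
    have c1 := (hlev K hK).1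
    have c2 := (dd_pos (mK (SS j0) K)).le
    have c3 := Real.sq_sqrt hCp.le
    have c4 := nT_nonneg (SS j0) v K
    have c5 := Real.sq_sqrt c4
    have c6 : (e K * √C + C * δ * √(nT (SS j0) v K)) ^ 2 ≤
        2 * C * e K ^ 2 + 2 * (C * δ) ^ 2 * nT (SS j0) v K := by
      calc _ ≤ 2 * (e K * √C) ^ 2 + 2 * (C * δ * √(nT (SS j0) v K)) ^ 2 := by
            nlinarith [sq_nonneg (e K * √C - C * δ * √(nT (SS j0) v K))]
        _ = _ := by rw [mul_pow, mul_pow (C * δ), c3, c5]; ring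
    calc _ = (C1 + C3) * (e K * √C + C * δ * √(nT (SS j0) v K)) ^ 2 * dd (mK (SS j0) K) ^ 4 := by
          rw [hg]; ring
      _ ≤ (C1 + C3) * (2 * C * e K ^ 2 + 2 * (C * δ) ^ 2 * nT (SS j0) v K) * dd j ^ 4 := by gcongr
      _ = ((C1 + C3) * (2 * C) * e K ^ 2 + (C1 + C3) * (2 * (C * δ) ^ 2) * nT (SS j0) v K) *
          dd j ^ 4 := by ring
      _ ≤ _ := by gcongr
  refine f1.trans ((le_of_mul_le_mul_right (main.trans f2) hd).trans
    (sum_le_sum_of_subset_of_nonneg (subset_inter (Icc_subset_Icc (by omega) (by omega)) sub2)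
      fun K _ _ => ?_))
  have := nT_nonneg (SS j0) v K
  positivity

end Pool.Agent.P.MP_cc4a10_gt
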