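import Pool.Agent.P.MP_cc4a10_gt.St

/-!
Young and Minkowski type inequalities for the lattice sums.
-/

open Set Filter Topology Complex Metric
open scoped ComplexConjugate Real

noncomputable section

namespace Pool.Agent.P.MP_cc4a10_gt.YoungP

theorem bil (m : ℕ) {k : GI → ℝ} (hk : ∀ u, 0 ≤ k u) (a b : GI → GI → ℂ) {A B : GI → ℝ}
    (hA : ∀ x, √(msq m (a x)) ≤ A x) (hB : ∀ x, √(msq m (b x)) ≤ B x) :
    av m (fun u => ts m (fun x => k x * (‖a x u‖ * ‖b x u‖))) ≤ ts m (fun x => k x * (A x * B x)) := by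
  rw [av, ts_comm, ← ts_smul]
  refine ts_mono m fun x => ?_
  rw [ts_mul_left_real, smul_eq_mul, mul_left_comm]
  refine mul_le_mul_of_nonneg_left ((av_mul_le m (a x) (b x)).trans ?_) (hk x)
  exact mul_le_mul (hA x) (hB x) (Real.sqrt_nonneg _) ((Real.sqrt_nonneg _).trans (hA x))

theorem mink (m : ℕ) {k : GI → ℝ} (hk : ∀ u, 0 ≤ k u) (a : GI → GI → ℂ) {A : GI → ℝ}
    (hA : ∀ x, √(msq m (a x)) ≤ A x) (T : GI → ℂ)
    (hT : ∀ u, ‖T u‖ ≤ ts m (fun x => k x * ‖a x u‖)) :
    msq m T ≤ ts m (fun x => k x * A x) ^ 2 := by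
  have h0 : 0 ≤ ts m (fun x => k x * A x) :=
    ts_nonneg m fun x => mul_nonneg (hk x) ((Real.sqrt_nonneg _).trans (hA x))
  have h1 := bil m hk a (fun _ => T) hA (fun _ => le_rfl)
  have h2 : msq m T ≤ av m (fun u => ts m (fun x => k x * (‖a x u‖ * ‖T u‖))) := by
    refine av_mono m fun u => ?_
    have e : (fun x => k x * (‖a x u‖ * ‖T u‖)) = fun x => ‖T u‖ * (k x * ‖a x u‖) := by
      funext x; ring
    rw [e, ts_mul_left_real, sq]
    exact mul_le_mul_of_nonneg_left (hT u) (norm_nonneg _)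
  have e : (fun x => k x * (A x * √(msq m T))) = fun x => √(msq m T) * (k x * A x) := by
    funext x; ring
  rw [e, ts_mul_left_real] at h1
  have h3 := Real.sq_sqrt (msq_nonneg m T)
  have h4 := Real.sqrt_nonneg (msq m T)
  nlinarith [sq_nonneg (√(msq m T) - ts m (fun x => k x * A x))]

theorem reindex {m : ℕ} {k f : GI → ℝ} (hk : Per m k) (hf : Per m f) (u : GI) :
    ts m (fun w => k (u - w) * f w) = ts m (fun x => k x * f (u - x)) := by
  have hp : Per m (fun x => k x * f (u - x)) := fun x w =>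
    congrArg₂ (· * ·) (hk x w) (hf.sub_left u x w)
  rw [← ts_sub_left hp u]
  simp only [sub_sub_cancel]

theorem msq_sub {m : ℕ} {y : GI → ℂ} (hy : Per m y) (x : GI) :
    msq m (fun u => y (u - x)) = msq m y := by
  simp only [sub_eq_add_neg]; exact msq_shift hy (-x)

/-- Mean square size of a difference. -/
def DD (m : ℕ) (ε : GI → ℂ) (x : GI) : ℝ := √(msq m (fun u => ε (u + x) - ε u))

theorem DD_add {m : ℕ} {ε : GI → ℂ} (h : Per m ε) (x y : GI) :
    DD m ε (x + y) ≤ DD m ε x + DD m ε y := by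
  have hp : Per m (fun u => ε (u + x) - ε u) := fun u w =>
    congrArg₂ (· - ·) (h.shift x u w) (h u w)
  have h1 := sqrt_msq_add_le m (fun u => ε (u + y + x) - ε (u + y)) (fun u => ε (u + y) - ε u)
  rw [msq_shift hp y] at h1
  refine le_trans (le_of_eq ?_) h1
  unfold DD
  congr 2; funext u
  rw [show u + (x + y) = u + y + x by ring]; ring

theorem DD_neg {m : ℕ} {ε : GI → ℂ} (h : Per m ε) (x : GI) : DD m ε (-x) = DD m ε x := by
  have hp : Per m (fun u => ε (u + -x) - ε u) := fun u w =>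
    congrArg₂ (· - ·) (h.shift (-x) u w) (h u w)
  unfold DD
  rw [← msq_shift hp x]
  simp only [msq, add_neg_cancel_right]
  congr 2; funext u
  rw [norm_sub_rev]

theorem DD_zero (m : ℕ) (ε : GI → ℂ) : DD m ε 0 = 0 := by
  simp [DD, msq, av]

theorem DD_nat {m : ℕ} {ε : GI → ℂ} (h : Per m ε) (g : GI) (n : ℕ) :
    DD m ε ((n : GI) * g) ≤ n * DD m ε g := by
  induction n with
  | zero => simp [DD_zero]
  | succ n ih =>
    push_cast
    rw [add_mul, one_mul]
    have := DD_add h ((n : GI) * g) g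
    linarith

theorem DD_int {m : ℕ} {ε : GI → ℂ} (h : Per m ε) (g : GI) (n : ℤ) :
    DD m ε ((n : GI) * g) ≤ |(n : ℝ)| * DD m ε g := by
  obtain ⟨k, rfl | rfl⟩ := Int.eq_nat_or_neg n
  · simpa using DD_nat h g k
  · have := DD_nat h g k
    simpa [DD_neg h] using this

theorem DD_le {m : ℕ} {ε : GI → ℂ} (h : Per m ε) (x : GI) :
    DD m ε x ≤ ‖(x : ℂ)‖ * √(g2 m ε) := by
  have e : x = (x.re : GI) * 1 + (x.im : GI) * gi := by ext <;> simp [gi]
  have h1 := DD_add h ((x.re : GI) * 1) ((x.im : GI) * gi)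
  rw [← e] at h1
  have h2 := DD_int h 1 x.re
  have h3 := DD_int h gi x.im
  have h4 : g2 m ε = DD m ε 1 ^ 2 + DD m ε gi ^ 2 := by
    unfold DD
    rw [Real.sq_sqrt (msq_nonneg _ _), Real.sq_sqrt (msq_nonneg _ _), g2]
  have h5 : ‖(x : ℂ)‖ ^ 2 = |(x.re : ℝ)| ^ 2 + |(x.im : ℝ)| ^ 2 := by
    rw [Complex.sq_norm, Complex.normSq_apply, sq_abs, sq_abs, ← GaussianInt.intCast_re,
      ← GaussianInt.intCast_im]; ring
  refine (h1.trans (add_le_add h2 h3)).trans ?_
  rw [← Real.sqrt_sq (norm_nonneg (x : ℂ)), ← Real.sqrt_mul (sq_nonneg _)]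
  apply Real.le_sqrt_of_sq_le
  rw [h4, h5]
  nlinarith [sq_nonneg (|(x.re : ℝ)| * DD m ε gi - |(x.im : ℝ)| * DD m ε 1)]

theorem diff_le {m : ℕ} {ε : GI → ℂ} (h : Per m ε) (x : GI) :
    √(msq m (fun u => ε u - ε (u - x))) ≤ Hh m x * √(g2 m ε) := by
  have e : ∀ u, ε (u - x) = ε (u + -mr m x) := fun u => h.of_dvd ⟨-(x / om ^ m), by
    have := EuclideanDomain.mod_add_div x (om ^ m)
    unfold mr
    linear_combination this⟩
  have h1 : √(msq m (fun u => ε u - ε (u - x))) = DD m ε (-mr m x) := by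
    simp only [DD, msq, e]
    congr 2; funext u
    rw [norm_sub_rev]
  rw [h1, DD_neg h]
  refine (DD_le h _).trans ?_
  gcongr
  unfold Hh; linarith

theorem Hh_pos (m : ℕ) (x : GI) : 0 < Hh m x := by unfold Hh; positivity

end Pool.Agent.P.MP_cc4a10_gt.YoungP

namespace Pool.Agent.P.MP_cc4a10_gt

open YoungP

theorem pYoung : S_Young := by
  intro m k hk hk0
  have pn : ∀ {y : GI → ℂ}, Per m y → Per m (fun w => ‖y w‖) := fun hy u w => by
    simp only [hy u w]
  have pd : ∀ {y : GI → ℂ}, Per m y → ∀ u, Per m (fun w => ‖y u - y w‖) := fun hy _ u w => by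
    simp only [hy u w]
  have pm : ∀ {f g : GI → ℝ}, Per m f → Per m g → Per m (fun w => f w * g w) :=
    fun hf hg u w => by simp only [hf u w, hg u w]
  have two : ∀ (f : GI → ℝ) (c : ℝ), (∀ x, 0 ≤ f x) → 0 ≤ c →
      ts m (fun x => c * f x) ≤ 2 * ts m f * c := fun f c hf hc => by
    rw [ts_mul_left_real]
    nlinarith [mul_nonneg hc (ts_nonneg m hf)]
  have kH : ∀ (n : ℕ) x, 0 ≤ k x * Hh m x ^ n := fun n x =>
    mul_nonneg (hk0 x) (pow_pos (Hh_pos m x) n).le
  have kH1 : ∀ x, 0 ≤ k x * Hh m x := fun x => by simpa using kH 1 x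
  refine ⟨fun y A hy hA => ?_, fun ε x hε => ?_, fun ε A hε hA => ?_, fun a b ha hb => ?_,
    fun ε ε' hε hε' => ?_, fun ε b hε hb => ⟨?_, ?_⟩⟩
  · have h := mink m hk0 (fun x u => y (u - x)) (A := fun _ => √(msq m y))
      (fun x => by rw [msq_sub hy]) (fun u => ts m (A u)) fun u => by
        rw [← reindex hk (pn hy) u]
        exact (norm_ts_le _ _).trans (ts_mono m (hA u))
    have e : (fun x => k x * √(msq m y)) = fun x => √(msq m y) * k x := by funext x; ring
    rw [e, ts_mul_left_real, mul_pow, Real.sq_sqrt (msq_nonneg _ _), mul_comm] at h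
    exact h
  · have h := (Real.sqrt_le_iff.1 (diff_le hε x)).2
    rw [mul_pow, Real.sq_sqrt (g2_nonneg _ _)] at h
    have e : msq m (fun u => ε (u - x) - ε u) = msq m (fun u => ε u - ε (u - x)) := by
      simp only [msq]; congr 1; funext u; rw [norm_sub_rev]
    rw [e]
    nlinarith [mul_nonneg (sq_nonneg (Hh m x)) (g2_nonneg m ε)]
  · have h := mink m hk0 (fun x u => ε u - ε (u - x)) (diff_le hε) (fun u => ts m (A u))
      fun u => by
        rw [← reindex hk (pd hε u) u]
        exact (norm_ts_le _ _).trans (ts_mono m (hA u))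
    have e : (fun x => k x * (Hh m x * √(g2 m ε))) = fun x => √(g2 m ε) * (k x * Hh m x) := by
      funext x; ring
    rw [e, ts_mul_left_real, mul_pow, Real.sq_sqrt (g2_nonneg _ _)] at h
    nlinarith [mul_nonneg (sq_nonneg (ts m fun x => k x * Hh m x)) (g2_nonneg m ε)]
  · have h := bil m hk0 (fun _ => a) (fun x u => b (u - x)) (fun _ => le_rfl)
      (B := fun _ => √(msq m b)) (fun x => by rw [msq_sub hb])
    have e : (fun x => k x * (√(msq m a) * √(msq m b)))
        = fun x => (√(msq m a) * √(msq m b)) * k x := by funext x; ring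
    rw [e, ts_mul_left_real, mul_comm] at h
    refine le_trans (le_of_eq ?_) h
    congr 1; funext u
    exact reindex hk (pm (fun _ _ => rfl) (pn hb)) u
  · have h := bil m hk0 (fun x u => ε u - ε (u - x)) (fun x u => ε' u - ε' (u - x))
      (diff_le hε) (diff_le hε')
    have e : (fun x => k x * (Hh m x * √(g2 m ε) * (Hh m x * √(g2 m ε'))))
        = fun x => (√(g2 m ε) * √(g2 m ε')) * (k x * Hh m x ^ 2) := by funext x; ring
    rw [e] at h
    refine le_trans (le_of_eq ?_) (h.trans (two _ _ (kH 2) (by positivity)))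
    congr 1; funext u
    exact reindex hk (pm (pd hε u) (pd hε' u)) u
  · have h := bil m hk0 (fun x u => ε u - ε (u - x)) (fun x u => b (u - x))
      (diff_le hε) (B := fun _ => √(msq m b)) (fun x => by rw [msq_sub hb])
    have e : (fun x => k x * (Hh m x * √(g2 m ε) * √(msq m b)))
        = fun x => (√(g2 m ε) * √(msq m b)) * (k x * Hh m x) := by funext x; ring
    rw [e] at h
    refine le_trans (le_of_eq ?_) (h.trans (two _ _ kH1 (by positivity)))
    congr 1; funext u
    exact reindex hk (pm (pd hε u) (pn hb)) u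
  · have h := bil m hk0 (fun x u => ε u - ε (u - x)) (fun _ => b)
      (diff_le hε) (fun _ => le_rfl)
    have e : (fun x => k x * (Hh m x * √(g2 m ε) * √(msq m b)))
        = fun x => (√(g2 m ε) * √(msq m b)) * (k x * Hh m x) := by funext x; ring
    rw [e] at h
    refine le_trans (le_of_eq ?_) (h.trans (two _ _ kH1 (by positivity)))
    congr 1; funext u
    exact reindex hk (pm (pd hε u) (fun _ _ => rfl)) u

end Pool.Agent.P.MP_cc4a10_gt
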