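import Pool.Agent.P.MP_cc4a10_gt.St

/-!
The horizontal primitive on each level and the position of the necks.
-/

open Set Filter Topology Complex Metric
open scoped ComplexConjugate Real

noncomputable section

namespace Pool.Agent.P.MP_cc4a10_gt.ZcP

theorem wl_apply (a b h : ℂ) : wl a b h = a * h - conj (b * h) := by
  simp [wl]

/-- Fundamental theorem of calculus on a segment. -/
theorem ftc {U : Set ℂ} {Z F G : ℂ → ℂ} (hF : ContinuousOn F U) (hG : ContinuousOn G U)
    (hZ : ∀ z ∈ U, HasFDerivAt Z (wl (F z) (G z)) z) {a b : ℂ}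
    (hab : ∀ t ∈ Icc (0 : ℝ) 1, a + t * (b - a) ∈ U) :
    seg F a b - conj (seg G a b) = Z b - Z a := by
  have hγ : ∀ t : ℝ, HasDerivAt (fun t : ℝ => a + (t : ℂ) * (b - a)) (b - a) t := fun t => by
    simpa using ((Complex.ofRealCLM.hasDerivAt (x := t)).mul_const (b - a)).const_add a
  have hc : Continuous (fun t : ℝ => a + (t : ℂ) * (b - a)) := by fun_prop
  have hF' : ContinuousOn (fun t : ℝ => F (a + (t : ℂ) * (b - a))) (uIcc 0 1) := by
    rw [uIcc_of_le zero_le_one]; exact hF.comp hc.continuousOn hab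
  have hG' : ContinuousOn (fun t : ℝ => G (a + (t : ℂ) * (b - a))) (uIcc 0 1) := by
    rw [uIcc_of_le zero_le_one]; exact hG.comp hc.continuousOn hab
  have hG'' : ContinuousOn (fun t : ℝ => conj ((b - a) * G (a + (t : ℂ) * (b - a)))) (uIcc 0 1) :=
    continuous_conj.comp_continuousOn (continuousOn_const.mul hG')
  have hF'' : ContinuousOn (fun t : ℝ => (b - a) * F (a + (t : ℂ) * (b - a))) (uIcc 0 1) :=
    continuousOn_const.mul hF'
  have key := intervalIntegral.integral_eq_sub_of_hasDerivAt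
    (f := fun t : ℝ => Z (a + (t : ℂ) * (b - a)))
    (f' := fun t : ℝ => (b - a) * F (a + (t : ℂ) * (b - a))
      - conj ((b - a) * G (a + (t : ℂ) * (b - a)))) (a := 0) (b := 1)
    (fun t ht => by
      rw [uIcc_of_le zero_le_one] at ht
      have := (hZ _ (hab t ht)).comp_hasDerivAt t (hγ t)
      rw [wl_apply, mul_comm (F _) (b - a), mul_comm (G _) (b - a)] at this
      exact this)
    ((hF''.sub hG'').intervalIntegrable)
  rw [intervalIntegral.integral_sub hF''.intervalIntegrable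
    hG''.intervalIntegrable, intervalIntegral.integral_const_mul] at key
  have e : ∫ t in (0 : ℝ)..1, conj ((b - a) * G (a + (t : ℂ) * (b - a)))
      = conj ((b - a) * ∫ t in (0 : ℝ)..1, G (a + (t : ℂ) * (b - a))) := by
    rw [← intervalIntegral.integral_const_mul, intervalIntegral.integral_of_le zero_le_one,
      intervalIntegral.integral_of_le zero_le_one, integral_conj]
  rw [e] at key
  simpa [seg] using key

theorem seg_neg (f : ℂ → ℂ) (a b : ℂ) : seg f (-a) (-b) = -seg (fun y => f (-y)) a b := by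
  unfold seg
  rw [← neg_mul]
  congr 1
  · ring
  · refine intervalIntegral.integral_congr fun t _ => ?_
    simp only
    congr 1
    ring

theorem const_of_steps {g : GI → ℂ} (h1 : ∀ u, g (u + 1) = g u) (h2 : ∀ u, g (u + gi) = g u)
    (u : GI) : g u = g 0 := by
  have k : ∀ (e : GI), (∀ u, g (u + e) = g u) → ∀ (n : ℤ) (u : GI), g (u + n * e) = g u := by
    intro e he n
    induction n using Int.induction_on with
    | zero => simp
    | succ k ih =>
      intro u
      rw [← ih u, ← he (u + ((k : ℤ) : GI) * e)]; congr 1; push_cast; ring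
    | pred k ih =>
      intro u
      rw [← ih u, ← he (u + ((-(k : ℤ) - 1 : ℤ) : GI) * e)]; congr 1; push_cast; ring
  have : u = 0 + (u.re : GI) * 1 + (u.im : GI) * gi := by
    ext <;> simp [gi]
  rw [this, k gi h2, k 1 h1]

theorem per_of_av {m : ℕ} {Y a b : GI → ℂ} (ha : ∀ u, a u = Y (u + 1) - Y u)
    (hb : ∀ u, b u = Y (u + gi) - Y u) (pa : Per m a) (pb : Per m b) (va : av m a = 0)
    (vb : av m b = 0) : Per m Y := by
  have hD : ∀ w u, Y (u + om ^ m * w) - Y u = Y (om ^ m * w) - Y 0 := by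
    intro w u
    have := const_of_steps (g := fun u => Y (u + om ^ m * w) - Y u) (fun u => by
      have := pa u w
      rw [ha, ha, add_right_comm] at this
      linear_combination this) (fun u => by
      have := pb u w
      rw [hb, hb, add_right_comm] at this
      linear_combination this) u
    simpa using this
  have h2 : (2 : GI) ^ m = om ^ m * star om ^ m := by rw [← mul_pow, om_mul_star]
  have hpos : ((2 : ℝ) ^ m) ≠ 0 := by positivity
  have hposc : ((2 : ℂ) ^ m) ≠ 0 := pow_ne_zero _ two_ne_zero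
  have e1 : Y (2 ^ m) - Y 0 = 0 := by
    have t1 : ts m a = 0 := by rw [ts_eq_av, va, smul_zero]
    have s : ∀ y : ℕ, ∑ x ∈ Finset.range (2 ^ m), a ⟨x, y⟩ = Y (2 ^ m) - Y 0 := by
      intro y
      have := Finset.sum_range_sub (fun x : ℕ => Y ⟨x, y⟩) (2 ^ m)
      rw [h2, ← hD (star om ^ m) ⟨0, y⟩, ← h2]
      convert this using 2
      · rw [ha]; congr 2
      · congr 1; rw [two_pow_mk]; ext <;> simp
      · simp
    unfold ts at t1
    rw [Finset.sum_comm] at t1
    simp only [s, Finset.sum_const, Finset.card_range, smul_eq_zero, inv_eq_zero, hpos,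
      false_or] at t1
    rcases t1 with t1 | t1
    · exact absurd t1 (by positivity)
    · exact t1
  have e2 : Y (2 ^ m * gi) - Y 0 = 0 := by
    have t1 : ts m b = 0 := by rw [ts_eq_av, vb, smul_zero]
    have s : ∀ x : ℕ, ∑ y ∈ Finset.range (2 ^ m), b ⟨x, y⟩ = Y (2 ^ m * gi) - Y 0 := by
      intro x
      have := Finset.sum_range_sub (fun y : ℕ => Y ⟨x, y⟩) (2 ^ m)
      rw [h2, mul_assoc, ← hD (star om ^ m * gi) ⟨x, 0⟩, ← mul_assoc, ← h2]
      convert this using 2
      · rw [hb]; congr 2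
      · congr 1; rw [two_pow_mk]; ext <;> simp [gi]
      · simp
    unfold ts at t1
    simp only [s, Finset.sum_const, Finset.card_range, smul_eq_zero, inv_eq_zero, hpos,
      false_or] at t1
    rcases t1 with t1 | t1
    · exact absurd t1 (by positivity)
    · exact t1
  have e3 : ∀ v, Y (2 ^ m * v) = Y 0 := by
    intro v
    have := const_of_steps (g := fun v => Y (2 ^ m * v)) (fun u => by
      have := hD (star om ^ m) (2 ^ m * u)
      rw [← h2, e1] at this
      rw [mul_add, mul_one]; linear_combination this) (fun u => by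
      have := hD (star om ^ m * gi) (2 ^ m * u)
      rw [← mul_assoc, ← h2, e2] at this
      rw [mul_add]; linear_combination this) v
    simpa using this
  intro u w
  have hn : ∀ n : ℕ, Y (n * (om ^ m * w)) - Y 0 = n * (Y (om ^ m * w) - Y 0) := by
    intro n
    induction n with
    | zero => simp
    | succ n ih =>
      have := hD w (n * (om ^ m * w))
      rw [show ((n + 1 : ℕ) : GI) * (om ^ m * w) = n * (om ^ m * w) + om ^ m * w by
        push_cast; ring]
      push_cast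
      linear_combination this + ih
  have := hn (2 ^ m)
  push_cast at this
  rw [e3, sub_self] at this
  have h0 := (mul_eq_zero.1 this.symm).resolve_left hposc
  have := hD w u
  linear_combination this + h0

theorem Lm_add (μ a b : ℂ) : Lm μ (a + b) = Lm μ a + Lm μ b := by
  simp only [Lm, map_add]; ring
theorem Lm_sub (μ a b : ℂ) : Lm μ (a - b) = Lm μ a - Lm μ b := by
  simp only [Lm, map_sub]; ring
theorem Lm_real (μ : ℂ) (t : ℝ) (a : ℂ) : Lm μ (t * a) = t * Lm μ a := by
  simp only [Lm, map_mul, conj_ofReal]; ring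
theorem norm_Lm {μ : ℂ} (hμ : ‖μ‖ ≤ 1 / 100) (a : ℂ) : 99 / 100 * ‖a‖ ≤ ‖Lm μ a‖ := by
  have h1 : ‖a‖ ≤ ‖Lm μ a‖ + ‖μ * conj a‖ := by
    have := norm_sub_le (Lm μ a) (μ * conj a)
    simpa [Lm] using this
  rw [norm_mul, norm_conj] at h1
  nlinarith [norm_nonneg a]

theorem half_le (n : ℤ) (s : ℝ) (hn : n ≠ 0) (h0 : 0 ≤ s) (h1 : s ≤ 1 / 2) :
    1 / 2 ≤ |(n : ℝ) + s| := by
  rcases lt_or_gt_of_ne hn with h | h
  · have : (n : ℝ) ≤ -1 := by exact_mod_cast (by omega : n ≤ -1)
    rw [abs_of_nonpos (by linarith)]; linarith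
  · have : (1 : ℝ) ≤ n := by exact_mod_cast (by omega : 1 ≤ n)
    rw [abs_of_nonneg (by linarith)]; linarith

theorem half_le' (n : ℤ) : 1 / 2 ≤ |(n : ℝ) + 1 / 2| := by
  rcases eq_or_ne n 0 with h | h
  · subst h; norm_num
  · exact half_le n _ h (by norm_num) le_rfl

theorem far1 (u w : GI) (t : ℝ) : 1 / 2 ≤ ‖(u : ℂ) + (1 + I) / 2 + t - w‖ := by
  refine le_trans ?_ (abs_im_le_norm _)
  refine (half_le' (u.im - w.im)).trans (le_of_eq ?_)
  congr 1
  simp
  ring

theorem far2 (u w : GI) (t : ℝ) : 1 / 2 ≤ ‖(u : ℂ) + (1 + I) / 2 + t * I - w‖ := by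
  refine le_trans ?_ (abs_re_le_norm _)
  refine (half_le' (u.re - w.re)).trans (le_of_eq ?_)
  congr 1
  simp
  ring

theorem far3 (u w : GI) (t a r : ℝ) (h0 : 0 ≤ t) (h1 : t ≤ 1) (ha : a = 1 ∨ a = -1) (hr : 0 < r)
    (hr1 : r ≤ 1 / 4) :
    r / 4 ≤ ‖(u : ℂ) + ((1 - t : ℝ) : ℂ) * ((1 + I) / 2) + ((t * a * r : ℝ) : ℂ) - w‖ := by
  set y := (u : ℂ) + ((1 - t : ℝ) : ℂ) * ((1 + I) / 2) + ((t * a * r : ℝ) : ℂ) - w with hy
  have hre : y.re = ((u.re - w.re : ℤ) : ℝ) + (1 - t) / 2 + t * a * r := by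
    simp [hy]; ring
  have him : y.im = ((u.im - w.im : ℤ) : ℝ) + (1 - t) / 2 := by
    simp [hy]; ring
  have k1 := abs_re_le_norm y
  have k2 := abs_im_le_norm y
  have htr : |t * a * r| = t * r := by
    rcases ha with rfl | rfl
    · rw [abs_of_nonneg (by positivity)]; ring
    · rw [show t * -1 * r = -(t * r) by ring, abs_neg, abs_of_nonneg (by positivity)]
  have htr1 : t * r ≤ r := by nlinarith
  rcases eq_or_ne (u.im - w.im) 0 with e2 | e2
  · rcases eq_or_ne (u.re - w.re) 0 with e1 | e1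
    · rw [e1] at hre
      rw [e2] at him
      simp only [Int.cast_zero, zero_add] at hre him
      have k3 : |y.re - y.im| = t * r := by rw [← htr, hre, him]; congr 1; ring
      have k4 := abs_sub y.re y.im
      rw [him, abs_of_nonneg (by linarith)] at k2
      rcases le_total t (1 / 2) with h | h
      · linarith
      · have k2' := abs_im_le_norm y
        nlinarith
    · have := half_le _ ((1 - t) / 2) e1 (by linarith) (by linarith)
      have k5 := abs_sub (y.re) (t * a * r)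
      rw [hre, add_sub_cancel_right, ← hre, htr] at k5
      linarith
  · have := half_le _ ((1 - t) / 2) e2 (by linarith) (by linarith)
    rw [← him] at this
    linarith

/-- Points that are far from all necks. -/
theorem mem_out {l : Lv} {s : Ls} (hm : 1 ≤ l.m) (hc : ‖l.c‖ = dd l.m) (hμ : ‖s.μ‖ ≤ 1 / 100)
    (hε : ∀ u, ‖s.ε u‖ ≤ rho l.m / 1000) (ht : l.m * tt l.m ≤ 1 / 100) (y e : ℂ)
    (hy : ∀ w : GI, 1 / (16 * (l.m : ℝ)) ≤ ‖y - w‖) (he : ‖e‖ ≤ rho l.m / 200) :
    Lm s.μ (l.c * y) + e ∈ Out (Nk l) (pos l s) (2 * rho1 l.m) := by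
  intro w _
  have hm' : (1 : ℝ) ≤ l.m := by exact_mod_cast hm
  have hd := dd_pos l.m
  have h1 := norm_Lm hμ (l.c * (y - w))
  rw [norm_mul, hc] at h1
  have h2 : Lm s.μ (l.c * (y - w)) = (Lm s.μ (l.c * y) + e - pos l s w) - e + s.ε w := by
    rw [mul_sub, Lm_sub, pos]; ring
  have h3 : ‖Lm s.μ (l.c * (y - w))‖ ≤ ‖Lm s.μ (l.c * y) + e - pos l s w‖ + ‖e‖ + ‖s.ε w‖ := by
    rw [h2]
    exact (norm_add_le _ _).trans (by gcongr; exact norm_sub_le _ _)
  have h4 : rho l.m / 16 ≤ dd l.m * ‖y - w‖ := by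
    have : rho l.m / 16 = dd l.m * (1 / (16 * (l.m : ℝ))) := by unfold rho; field_simp
    rw [this]; gcongr; exact hy w
  have h5 : rho1 l.m ≤ rho l.m / 100 := by
    unfold rho1 rho
    rw [div_div, le_div_iff₀ (by positivity)]
    nlinarith
  have h6 : 0 < rho l.m := by unfold rho; positivity
  have := hε w
  linarith

end Pool.Agent.P.MP_cc4a10_gt.ZcP

namespace Pool.Agent.P.MP_cc4a10_gt

open ZcP

theorem pZc (hPrim : S_Prim) (hGlue : S_Glue) (hCou1 : S_Cou1) (hCou2 : S_Cou2)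
    (hAux1 : S_Aux1) (hLev : S_Lev) (hVt : S_Vt) (hPar : S_Par) (hFlip : S_Flip)
    (hDip : S_Dip) : S_Zc := by
  intro E L
  obtain ⟨jG, hG⟩ := hGlue E L
  obtain ⟨C1, j1, -, h1⟩ := hCou1 E
  obtain ⟨C2, j2, -, h2⟩ := hCou2 E
  obtain ⟨CA, jA, -, hA⟩ := hAux1 E
  obtain ⟨CL, mL, -, hL⟩ := hLev E
  obtain ⟨CV, mV, -, hV⟩ := hVt E
  obtain ⟨mt, hmt⟩ := exists_pow_mul_tt_le 1 (η := 1 / 100) (by norm_num)
  refine ⟨jG + j1 + j2 + jA + mL + mV + mt + 10, fun S x hS hB hX hAx hE K => ?_⟩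
  have big : ∀ j, j ≤ jG + j1 + j2 + jA + mL + mV + mt + 10 → Big S j :=
    fun j hj k => hj.trans (hB k)
  have hm : ∀ K, jG + j1 + j2 + jA + mL + mV + mt + 10 ≤ mK S K := fun K => by
    have := hB (K - 1)
    have := hB K
    unfold mK jl; omega
  have hLG : ∀ K, LG (lvF S K) (ls S x K) (bK S x K) := fun K =>
    (hFlip E S hS K).2 x (big 10 (by omega)) hX
  have eM : ∀ K, (lvF S K).m = mK S K := fun K => rfl
  have hLev' := fun K => hL _ _ _ (hLG K) (by rw [eM]; have := hm K; omega)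
  have hVt' := fun K => hV _ _ _ (hLG K) (by rw [eM]; have := hm K; omega)
  have hDip' := fun K => hDip _ (hLG K).ok
  have hc : ∀ K, ‖(lvF S K).c‖ = dd (mK S K) := fun K => (hDip' K).2.2.2.2.2.2.2.1
  have hq0 : ∀ K u, q0 (lvF S K) (-u) = q0 (lvF S K) u := fun K u => ((hDip' K).2.2.2.1 u).1
  have hNk : ∀ K, ∀ u ∈ Nk (lvF S K), -u ∈ Nk (lvF S K) := fun K u hu => by
    show q0 (lvF S K) (-u) ≠ 0
    rw [hq0]; exact hu
  have hpo : ∀ K, ∀ u ∈ Nk (lvF S K), pK S x K (-u) = -pK S x K u := fun K =>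
    (hLev' K).2.2.2.2.2.2.1
  have hzP : ∀ K, ∀ u ∈ Nk (lvF S K), ∀ a : ℝ, zP S x K (-u) (-a) = -zP S x K u a := by
    intro K u hu a
    unfold zP
    rw [hpo K u hu]; push_cast; ring
  obtain ⟨-, -, -, hlam, -, -, -, hle⟩ := h2 S x hS (big _ (by omega)) hX K
  obtain ⟨-, -, pI1, pI2, -, -⟩ := hA S x hS (big _ (by omega)) hX K
  obtain ⟨hε, -, -, hsep, -, -, -, hps, hpd, -⟩ := hLev' K
  have hε' : ∀ u, ‖(ls S x K).ε u‖ ≤ rho (mK S K) / 1000 := fun u => (hε u).2.1
  have hm1 : 10 ≤ mK S K := by have := hm K; omega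
  have hm1' : (10 : ℝ) ≤ mK S K := by exact_mod_cast hm1
  have hmt' : (mK S K : ℝ) * tt (mK S K) ≤ 1 / 100 := by
    simpa using hmt (mK S K) (by have := hm K; omega)
  have hd := dd_pos (mK S K)
  have ht := tt_pos (mK S K)
  have ht1 : tt (mK S K) ≤ 1 / 100 := by nlinarith
  have hμ : ‖x.μ K‖ ≤ 1 / 100 := by
    refine (hX.mb K).trans ((pow_le_of_le_one ht.le (tt_le_one _) (by norm_num)).trans ht1)
  have hr1 : 0 < rho1 (mK S K) := by unfold rho1; positivity
  have hr : 0 < rho (mK S K) := by unfold rho; positivity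
  have hr2 : rho1 (mK S K) ≤ rho (mK S K) / 100 := by
    unfold rho1 rho
    rw [div_div, le_div_iff₀ (by positivity)]
    nlinarith
  have hr3 : rho (mK S K) ≤ dd (mK S K) / 10 := by
    unfold rho; gcongr
  have omono : ∀ {r r' : ℝ}, r ≤ r' →
      Out (Nk (lvF S K)) (pK S x K) r' ⊆ Out (Nk (lvF S K)) (pK S x K) r :=
    fun h z hz u hu => h.trans_lt (hz u hu)
  have dF1 : DifferentiableOn ℂ (F1 E S x K) (Out (Nk (lvF S K)) (pK S x K) (rho1 (mK S K))) :=
    (hlam.mono (omono (by linarith))).cexp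
  have dF2 : DifferentiableOn ℂ (F2 E S x K) (Out (Nk (lvF S K)) (pK S x K) (rho1 (mK S K))) := by
    have d1 : DifferentiableOn ℂ (psK E S x K) (Out (Nk (lvF S K)) (pK S x K) (rho1 (mK S K))) :=
      fun z hz => (hpd z (omono hr1.le hz)).1.differentiableWithinAt
    exact (d1.pow 2).mul (hlam.mono (omono (by linarith))).neg.cexp
  obtain ⟨Z0, hZ0⟩ := hPrim (Nk (lvF S K)) (pK S x K) (rho1 (mK S K)) (rho (mK S K) / 4)
    (F1 E S x K) (F2 E S x K) hr1 (by linarith) (by
      intro u _ u' _ hne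
      have k1 := hsep u u'
      have k2 : (1 : ℝ) ≤ ‖((u - u' : GI) : ℂ)‖ := by
        have h0 : u - u' ≠ 0 := sub_ne_zero.2 hne
        have h3 : (1 : ℤ) ≤ (u - u').norm := GaussianInt.norm_pos.2 h0
        have h4 : (1 : ℝ) ≤ ((u - u').norm : ℝ) := by exact_mod_cast h3
        rw [GaussianInt.intCast_real_norm, Complex.normSq_eq_norm_sq] at h4
        nlinarith [norm_nonneg ((u - u' : GI) : ℂ)]
      have k3 := norm_sub_norm_le ((lvF S K).c * ((u - u' : GI) : ℂ))
        (pos (lvF S K) (ls S x K) u - pos (lvF S K) (ls S x K) u')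
      rw [norm_mul, hc] at k3
      rw [eM, norm_sub_rev] at k1
      show _ ≤ ‖pos (lvF S K) (ls S x K) u - pos (lvF S K) (ls S x K) u'‖
      have k4 : dd (mK S K) * 1 ≤ dd (mK S K) * ‖((u - u' : GI) : ℂ)‖ := by gcongr
      linarith) dF1 dF2
    (fun u hu => (hG S x hS (big _ (by omega)) hX hAx hE K u hu).2.2.2.2)
  have hsym : ∀ z ∈ Out (Nk (lvF S K)) (pK S x K) (2 * rho1 (mK S K)),
      -z ∈ Out (Nk (lvF S K)) (pK S x K) (2 * rho1 (mK S K)) := by
    intro z hz u hu
    have := hz (-u) (hNk K u hu)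
    rwa [hpo K u hu, ← norm_neg, neg_sub', neg_neg] at this
  have eF1 : ∀ z, F1 E S x K (-z) = F1 E S x K z := fun z => by
    unfold F1; rw [(hle z).1]
  have eF2 : ∀ z, F2 E S x K (-z) = F2 E S x K z := fun z => by
    unfold F2 psK; rw [(hle z).1, (hps z).1, neg_sq]
  set Z : ℂ → ℂ := fun z => (1 / 2 : ℝ) • (Z0 z - Z0 (-z)) with hZdef
  have hZ : ∀ z ∈ Out (Nk (lvF S K)) (pK S x K) (2 * rho1 (mK S K)),
      HasFDerivAt Z (wl (F1 E S x K z) (F2 E S x K z)) z := by
    intro z hz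
    have k1 := hZ0 z hz
    have k2 := (hZ0 (-z) (hsym z hz)).comp z (hasFDerivAt_id z).neg
    rw [eF1, eF2] at k2
    refine ((k1.sub k2).const_smul (1 / 2 : ℝ)).congr_fderiv ?_
    ext h
    simp [wl_apply]
    ring
  have oZ : ∀ z, Z (-z) = -Z z := fun z => by
    simp only [hZdef, neg_neg, ← smul_neg, neg_sub]
  refine ⟨Z, hZ, ?_⟩
  have hTh : ∀ a b : ℂ, (∀ t ∈ Icc (0 : ℝ) 1,
      a + t * (b - a) ∈ Out (Nk (lvF S K)) (pK S x K) (2 * rho1 (mK S K))) →
      Th E S x K a b = Z b - Z a := fun a b hab =>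
    ftc (dF1.continuousOn.mono (omono (by linarith)))
      (dF2.continuousOn.mono (omono (by linarith))) hZ hab
  have hout := mem_out (l := lvF S K) (s := ls S x K) (by rw [eM]; omega) (hc K) hμ hε' hmt'
  have h16 : 1 / (16 * (mK S K : ℝ)) ≤ 1 / 2 := by gcongr; linarith
  set c := (lvF S K).c with hcdef
  set Y0 : GI → ℂ := fun u => Z (VV S x K u) - c * (u + (1 + I) / 2) with hY0
  have hI1 : ∀ u, I1 E S x K u = Y0 (u + 1) - Y0 u := by
    intro u
    unfold I1
    rw [hTh]
    · simp only [hY0, map_add, map_one]; ring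
    · intro t _
      have := hout ((u : ℂ) + (1 + I) / 2 + t) 0 (fun w => h16.trans (far1 u w t))
        (by simp only [norm_zero, eM]; positivity)
      refine Eq.mpr (congrArg (· ∈ _) ?_) this
      simp only [VV, ← Lm_sub, ← Lm_real, ← Lm_add, add_zero, map_add, map_one]
      congr 1; ring
  have hI2 : ∀ u, I2 E S x K u = Y0 (u + gi) - Y0 u := by
    intro u
    unfold I2
    rw [hTh]
    · simp only [hY0, map_add, coe_gi]; ring
    · intro t _
      have := hout ((u : ℂ) + (1 + I) / 2 + t * I) 0 (fun w => h16.trans (far2 u w t))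
        (by simp only [norm_zero, eM]; positivity)
      refine Eq.mpr (congrArg (· ∈ _) ?_) this
      simp only [VV, ← Lm_sub, ← Lm_real, ← Lm_add, add_zero, map_add, coe_gi]
      congr 1; ring
  have hrr : ∀ a : ℝ, a * rho (mK S K) / 4 / dd (mK S K) = a * (1 / (4 * (mK S K : ℝ))) := by
    intro a; unfold rho; field_simp
  have hI3 : ∀ u, ∀ a : ℝ, (a = 1 ∨ a = -1) →
      Th E S x K (VV S x K u) (zP S x K u a) = Z (zP S x K u a) - Z (VV S x K u) := by
    intro u a ha
    refine hTh _ _ fun t ht => ?_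
    have k := hout ((u : ℂ) + ((1 - t : ℝ) : ℂ) * ((1 + I) / 2)
        + ((t * a * (1 / (4 * (mK S K : ℝ))) : ℝ) : ℂ))
      (t * (ls S x K).ε u - ((t * a * (1 / (4 * (mK S K : ℝ))) : ℝ) : ℂ) * (x.μ K * conj c))
      (fun w => by
        refine le_trans (le_of_eq ?_) (far3 u w t a _ ht.1 ht.2 ha (by positivity) ?_)
        · rw [eM]; field_simp; norm_num
        · gcongr; linarith)
      (by
        refine (norm_sub_le _ _).trans ?_
        have a1 : |a| = 1 := by rcases ha with rfl | rfl <;> simp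
        rw [norm_mul, norm_mul, norm_mul, norm_conj, hc, Complex.norm_real, Complex.norm_real,
          Real.norm_eq_abs, Real.norm_eq_abs, abs_mul, abs_mul, a1, abs_of_nonneg ht.1,
          abs_of_nonneg (by positivity), eM]
        have e1 : t * ‖(ls S x K).ε u‖ ≤ 1 * (rho (mK S K) / 1000) := by
          gcongr; exacts [ht.2, hε' u]
        have e2 : t * 1 * (1 / (4 * (mK S K : ℝ))) * (‖x.μ K‖ * dd (mK S K))
            ≤ 1 * 1 * (1 / (4 * (mK S K : ℝ))) * (1 / 100 * dd (mK S K)) := by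
          gcongr; exact ht.2
        have e3 : 1 * 1 * (1 / (4 * (mK S K : ℝ))) * (1 / 100 * dd (mK S K))
            = rho (mK S K) / 400 := by unfold rho; field_simp; norm_num
        linarith)
    refine Eq.mpr (congrArg (· ∈ _) ?_) k
    simp only [VV, zP, pK, pos, hrr, Lm, ls, ← hcdef, map_mul, map_add, conj_ofReal, map_div₀,
      map_one, conj_I, map_ofNat]
    push_cast
    ring
  have pY : Per (mK S K) Y0 := per_of_av hI1 hI2 pI1 pI2 (hE.1 K).1 (hE.1 K).2
  obtain ⟨κ, hκ⟩ := L.ex _ _ _ _ pY hI1 hI2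
  set A : GI → ℂ := fun u => ((Z (zP S x K u 1) - II E S x K u 1)
    + (Z (zP S x K u (-1)) - II E S x K u (-1))) / 2 with hAdef
  have hx0 : ∀ u ∈ Nk (lvF S K), xi0 E L S x K u = κ - c * u - (ls S x K).ε u + A u := by
    intro u hu
    have hu' : q0 (lvT S K) u ≠ 0 := hu
    unfold xi0 xi1
    rw [hκ, if_neg hu', hI3 u 1 (Or.inl rfl), hI3 u (-1) (Or.inr rfl)]
    simp only [hY0, hAdef, ← hcdef]
    ring
  have hII : ∀ u ∈ Nk (lvF S K), ∀ a : ℝ, II E S x K (-u) (-a) = -II E S x K u a := by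
    intro u hu a
    obtain ⟨p1, -, -, -, -, p2, -⟩ := (hPar S hS K).2.2.2.2.2.1 u hu
    have hq : q0 (lvT S K) (-u) = q0 (lvT S K) u := hq0 K u
    have eo : ot S K (-u) = ot S K u := by unfold ot; rw [hq]
    have hp : par S K u ∈ Nk (lvF S (ot S K u)) := by
      show q0 (lvT S (ot S K u)) (par S K u) ≠ 0
      rw [p1]; exact neg_ne_zero.2 hu
    have et : tn S x K (-u) = tn S x K u := by
      unfold tn qK qq
      rw [hq0, (hLG K).evn, hX.se]
    have ev : ∀ K, ∀ u ∈ Nk (lvF S K), ∀ z, vK E S x K (-u) (-z) = -vK E S x K u z :=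
      fun K u hu z => ((hVt' K u hu).2.2.2.2.2.2.1 z).1
    unfold II
    rw [eo, p2, et, hzP _ _ hp, hzP _ _ hu, ev _ _ hp, ev _ _ hu, div_neg, seg_neg]
    congr 2
    funext y
    rw [((h1 S x hS (big _ (by omega)) hX K u hu).2.2.2.2.1 y).2.2]
  intro u hu
  have hAo : A (-u) = -A u := by
    have k1 := hII u hu 1
    have k2 := hII u hu (-1)
    have k3 := hzP K u hu 1
    have k4 := hzP K u hu (-1)
    rw [neg_neg] at k2 k4
    simp only [hAdef]
    rw [k1, k2, k3, k4, oZ, oZ]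
    ring
  have k := congrFun (congrFun hAx.1 K) u
  unfold xiN at k
  rw [hx0 u hu, hx0 (-u) (hNk K u hu), hAo, (hLG K).odd u hu] at k
  show A u = _
  simp only [ls, map_neg] at k
  linear_combination -k

end Pool.Agent.P.MP_cc4a10_gt
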