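import Pool.Agent.P.MP_cc4a10_gt.Ann
import Pool.Agent.P.MP_cc4a10_gt.Asm1
import Pool.Agent.P.MP_cc4a10_gt.Asm2
import Pool.Agent.P.MP_cc4a10_gt.Asm3
import Pool.Agent.P.MP_cc4a10_gt.Asy
import Pool.Agent.P.MP_cc4a10_gt.AsyZ
import Pool.Agent.P.MP_cc4a10_gt.Aux1
import Pool.Agent.P.MP_cc4a10_gt.Aux2
import Pool.Agent.P.MP_cc4a10_gt.Bdd
import Pool.Agent.P.MP_cc4a10_gt.BddA
import Pool.Agent.P.MP_cc4a10_gt.BddB
import Pool.Agent.P.MP_cc4a10_gt.Box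
import Pool.Agent.P.MP_cc4a10_gt.Char
import Pool.Agent.P.MP_cc4a10_gt.Cont1
import Pool.Agent.P.MP_cc4a10_gt.Cont2
import Pool.Agent.P.MP_cc4a10_gt.Cont3
import Pool.Agent.P.MP_cc4a10_gt.Cou1
import Pool.Agent.P.MP_cc4a10_gt.Cou2
import Pool.Agent.P.MP_cc4a10_gt.Cpt
import Pool.Agent.P.MP_cc4a10_gt.Cut
import Pool.Agent.P.MP_cc4a10_gt.Dip
import Pool.Agent.P.MP_cc4a10_gt.Dn
import Pool.Agent.P.MP_cc4a10_gt.Ell
import Pool.Agent.P.MP_cc4a10_gt.Eqs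
import Pool.Agent.P.MP_cc4a10_gt.Err
import Pool.Agent.P.MP_cc4a10_gt.ErrF
import Pool.Agent.P.MP_cc4a10_gt.ErrF2
import Pool.Agent.P.MP_cc4a10_gt.ErrH
import Pool.Agent.P.MP_cc4a10_gt.ErrH2
import Pool.Agent.P.MP_cc4a10_gt.ErrH3
import Pool.Agent.P.MP_cc4a10_gt.Ex
import Pool.Agent.P.MP_cc4a10_gt.Ex0
import Pool.Agent.P.MP_cc4a10_gt.FT
import Pool.Agent.P.MP_cc4a10_gt.FU
import Pool.Agent.P.MP_cc4a10_gt.Fix
import Pool.Agent.P.MP_cc4a10_gt.Flip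
import Pool.Agent.P.MP_cc4a10_gt.Fo
import Pool.Agent.P.MP_cc4a10_gt.Frc
import Pool.Agent.P.MP_cc4a10_gt.Glue
import Pool.Agent.P.MP_cc4a10_gt.Graph
import Pool.Agent.P.MP_cc4a10_gt.High
import Pool.Agent.P.MP_cc4a10_gt.Id
import Pool.Agent.P.MP_cc4a10_gt.Inv
import Pool.Agent.P.MP_cc4a10_gt.Ker0
import Pool.Agent.P.MP_cc4a10_gt.KerG
import Pool.Agent.P.MP_cc4a10_gt.KerZ
import Pool.Agent.P.MP_cc4a10_gt.LS
import Pool.Agent.P.MP_cc4a10_gt.LT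
import Pool.Agent.P.MP_cc4a10_gt.Lev
import Pool.Agent.P.MP_cc4a10_gt.Loc1
import Pool.Agent.P.MP_cc4a10_gt.Loc3
import Pool.Agent.P.MP_cc4a10_gt.Low
import Pool.Agent.P.MP_cc4a10_gt.Lvl
import Pool.Agent.P.MP_cc4a10_gt.MH1
import Pool.Agent.P.MP_cc4a10_gt.MH1A
import Pool.Agent.P.MP_cc4a10_gt.MH3
import Pool.Agent.P.MP_cc4a10_gt.ML3
import Pool.Agent.P.MP_cc4a10_gt.Map
import Pool.Agent.P.MP_cc4a10_gt.Modes
import Pool.Agent.P.MP_cc4a10_gt.NT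
import Pool.Agent.P.MP_cc4a10_gt.NU
import Pool.Agent.P.MP_cc4a10_gt.Neck
import Pool.Agent.P.MP_cc4a10_gt.NumA
import Pool.Agent.P.MP_cc4a10_gt.NumG
import Pool.Agent.P.MP_cc4a10_gt.NumS
import Pool.Agent.P.MP_cc4a10_gt.Par
import Pool.Agent.P.MP_cc4a10_gt.Phi
import Pool.Agent.P.MP_cc4a10_gt.Pieces
import Pool.Agent.P.MP_cc4a10_gt.Poin
import Pool.Agent.P.MP_cc4a10_gt.Prim
import Pool.Agent.P.MP_cc4a10_gt.Ref
import Pool.Agent.P.MP_cc4a10_gt.Sec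
import Pool.Agent.P.MP_cc4a10_gt.Shp
import Pool.Agent.P.MP_cc4a10_gt.ShpR
import Pool.Agent.P.MP_cc4a10_gt.So
import Pool.Agent.P.MP_cc4a10_gt.Solv
import Pool.Agent.P.MP_cc4a10_gt.Stage
import Pool.Agent.P.MP_cc4a10_gt.Sum
import Pool.Agent.P.MP_cc4a10_gt.Tor
import Pool.Agent.P.MP_cc4a10_gt.Tor0
import Pool.Agent.P.MP_cc4a10_gt.Tych
import Pool.Agent.P.MP_cc4a10_gt.Uni
import Pool.Agent.P.MP_cc4a10_gt.Vt
import Pool.Agent.P.MP_cc4a10_gt.WD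
import Pool.Agent.P.MP_cc4a10_gt.Weier
import Pool.Agent.P.MP_cc4a10_gt.Win
import Pool.Agent.P.MP_cc4a10_gt.Young
import Pool.Agent.P.MP_cc4a10_gt.Zc

/-! Assembly of all packages. -/

namespace Pool.Agent.P.MP_cc4a10_gt

theorem qAnn : S_Ann := pAnn 
theorem qAsm1 : S_Asm1 := pAsm1 
theorem qAsm2 : S_Asm2 := pAsm2 
theorem qIC : S_IC := pIC 
theorem qAsm3 : S_Asm3 := pAsm3 qAsm1 qIC
theorem qStrip : S_Strip := pStrip 
theorem qEx : S_Ex := pEx qStrip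
theorem qUni : S_Uni := pUni 
theorem qAsyZ : S_AsyZ := pAsyZ qEx qUni
theorem qAsy : S_Asy := pAsy qAsyZ qUni
theorem qBox : S_Box := pBox 
theorem qDip : S_Dip := pDip 
theorem qPar : S_Par := pPar qBox qDip
theorem qYoung : S_Young := pYoung 
theorem qPoin : S_Poin := pPoin qBox qYoung
theorem qDn : S_Dn := pDn qPoin
theorem qKer0 : S_Ker0 := pKer0 
theorem qFlip : S_Flip := pFlip qPar qDip qDn qKer0
theorem qLev : S_Lev := pLev qBox qPoin qKer0 qDip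
theorem qSum : S_Sum := pSum qBox
theorem qRef : S_Ref := pRef qBox qKer0 qDip
theorem qShpR : S_ShpR := pShpR qBox qSum qKer0 qDip qRef qLev
theorem qShp : S_Shp := pShp qShpR qBox qSum qDn qKer0 qDip qRef qLev
theorem qVt : S_Vt := pVt qLev qShp qDip
theorem qInv : S_Inv := pInv qAnn
theorem qSo : S_So := pSo qBox qSum qYoung qKer0 qDip qLev
theorem qFo : S_Fo := pFo qPar qFlip qLev qVt qInv qSo qDip qKer0
theorem qCou1 : S_Cou1 := pCou1 qFo qVt qPar qFlip qDip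
theorem qDual : S_Dual := pDual qDn qYoung
theorem qKerZ : S_KerZ := pKerZ qBox qKer0 qDip
theorem qFrc : S_Frc := pFrc qBox qSum qYoung qDn qDual qDip qKer0 qKerZ qLev
theorem qCou2 : S_Cou2 := pCou2 qCou1 qSo qFrc qVt qInv qLev qPar qFlip qDip qBox
theorem qAux1 : S_Aux1 := pAux1 qCou1 qCou2 qShp qLev qVt qPar qFlip qDip
theorem qAux2 : S_Aux2 := pAux2 qCou1 qCou2 qShp qLev qVt qInv qPar qFlip qDip
theorem qBddA : S_BddA := pBddA qBox qSum qYoung qDip qKer0 qKerZ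
theorem qBddB : S_BddB := pBddB qBox qSum qYoung qDip qKerZ
theorem qKerG : S_KerG := pKerG qBox qKer0 qDip qKerZ
theorem qBdd : S_Bdd := pBdd qBddA qBddB qDn qDual qSum qDip qKer0 qKerG
theorem qChar : S_Char := pChar qBox
theorem qClo : S_Clo := pClo 
theorem qCont1 : S_Cont1 := pCont1 qKer0 qLev qVt qFlip qDip qBox
theorem qCont2 : S_Cont2 := pCont2 qCont1 qCou1 qKer0 qLev qVt qInv qFlip qPar qDip
theorem qCont3 : S_Cont3 := pCont3 qCont1 qCont2 qCou1 qLev qVt qFlip qPar qDip qInv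
theorem qCpt : S_Cpt := pCpt qPar qPoin qDn qBox qDip
theorem qCross : S_Cross := pCross 
theorem qCut : S_Cut := pCut qPar qBdd qPoin qDn qDip
theorem qEll : S_Ell := pEll 
theorem qPhi : S_Phi := pPhi qCou1 qCou2 qFrc qShp qLev qPar qFlip qDip
theorem qEqs : S_Eqs := pEqs qPar qFlip qPhi qDip qLev
theorem qErrF2 : S_ErrF2 := pErrF2 qSum qYoung qPoin qDip qBox qKerZ qLev
theorem qErrF : S_ErrF := pErrF qErrF2 qBox qSum qYoung qPoin qDip qKer0 qKerZ qLev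
theorem qErrH2 : S_ErrH2 := pErrH2 qBox qSum qYoung qDip qKerG qLev
theorem qErrH3 : S_ErrH3 := pErrH3 qBox qSum qYoung qDn qDual qDip qKer0 qKerZ qKerG qLev
theorem qErrH : S_ErrH := pErrH qErrH2 qErrH3 qRef qDip qLev
theorem qErr : S_Err := pErr qFlip qPar qBdd qErrF qErrH qPhi qPoin qDip qLev
theorem qEx0 : S_Ex0 := pEx0 qStrip qKer0
theorem qTor0 : S_Tor0 := pTor0 qKer0 qStrip qBox
theorem qFT : S_FT := pFT qPar qTor0 qKer0 qChar qBox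
theorem qFU : S_FU := pFU qPar qKer0 qTor0
theorem qTych : S_Tych := pTych 
theorem qTor : S_Tor := pTor qKer0 qBox
theorem qNumS : S_NumS := pNumS qEll qEx0
theorem qId : S_Id := pId qUni qKer0 qTor0
theorem qLow : S_Low := pLow qEx qEx0 qNumS qAsy qAsyZ qId
theorem qNumA : S_NumA := pNumA 
theorem qSec : S_Sec := pSec qEx qEx0 qNumS qNumA
theorem qNumG : S_NumG := pNumG 
theorem qHigh : S_High := pHigh qSec qEx qEx0 qId qAsy qUni qNumS qNumG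
theorem qML1 : S_ML1 := pML1 
theorem qLvl : S_Lvl := pLvl 
theorem qML3 : S_ML3 := pML3 qLvl
theorem qMH1 : S_MH1 := pMH1 
theorem qHalf : S_Half := pHalf 
theorem qMH3 : S_MH3 := pMH3 qHalf
theorem qModes : S_Modes := pModes qTor qChar qEx0 qLow qHigh qML1 qML3 qMH1 qMH3
theorem qNU : S_NU := pNU qChar
theorem qLoc1 : S_Loc1 := pLoc1 qModes qFU qNU qChar
theorem qNT : S_NT := pNT 
theorem qLoc3 : S_Loc3 := pLoc3 qModes qFU qFT qNU qNT qChar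
theorem qStage : S_Stage := pStage 
theorem qWin : S_Win := pWin qLoc1 qLoc3 qCut qStage
theorem qLT : S_LT := pLT qWin
theorem qMap : S_Map := pMap qLT qErr qAux1 qAux2 qStage qPar
theorem qSolv : S_Solv := pSolv qPar qFlip qPoin qDip qKer0 qBox
theorem qFix : S_Fix := pFix qTych qCpt qMap qCont3 qSolv qLT qStage
theorem qGlue : S_Glue := pGlue qCou1 qCou2 qVt qInv qAnn qPar qFlip qLev qDip
theorem qGraph : S_Graph := pGraph 
theorem qLS : S_LS := pLS 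
theorem qNeck : S_Neck := pNeck qAnn qInv
theorem qWeier : S_Weier := pWeier 
theorem qPieces : S_Pieces := pPieces qWeier qNeck qGraph qInv
theorem qPrim : S_Prim := pPrim qAnn
theorem qZc : S_Zc := pZc qPrim qGlue qCou1 qCou2 qAux1 qLev qVt qPar qFlip qDip
theorem qWD : S_WD := pWD qEll qLS qFix qEqs qGlue qZc qStage qShp qLev qVt qCou2 qPar qFlip qDip qPoin

theorem qFinal : S_Final := by
  obtain ⟨W⟩ := qWD
  obtain ⟨P⟩ := qPieces W
  exact ⟨P.M, qAsm1 P, (qAsm2 P).1, qAsm3 P, (qAsm2 P).2⟩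

end Pool.Agent.P.MP_cc4a10_gt
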