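import Pool.Agent.P.MP_cc4a10_gt.St

/-!
Passing from the true frame to the conformal frame of a level.
-/

open Set Filter Topology Complex Metric
open scoped ComplexConjugate Real

noncomputable section

namespace Pool.Agent.P.MP_cc4a10_gt.FlipP

def fl (l : Lv) : Lv := { l with c := -conj l.c }
def fC (f : GI → ℂ) (u : GI) : ℂ := -conj (f (star u))
def fR (f : GI → ℝ) (u : GI) : ℝ := f (star u)

lemma par_per {m : ℕ} (hm : 2 ≤ m) (u w : GI) :
    (Odd (u + om ^ m * w).im ∧ Odd (u + om ^ m * w).re) ↔ (Odd u.im ∧ Odd u.re) := by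
  obtain ⟨k, rfl⟩ := Nat.exists_eq_add_of_le hm
  have e : om ^ (2 + k) * w = 2 * (gi * om ^ k * w) := by
    have : om ^ 2 = 2 * gi := by decide
    rw [pow_add, this]
    ring
  rw [e]
  generalize gi * om ^ k * w = y
  have a : (u + 2 * y).im = u.im + 2 * y.im := by rw [two_mul, two_mul]; simp
  have b : (u + 2 * y).re = u.re + 2 * y.re := by rw [two_mul, two_mul]; simp
  rw [a, b]
  simp [Int.odd_add]

lemma cls_per {m : ℕ} (hm : 2 ≤ m) {f : GI → ℂ} (h : Per m f) :
    Per m (fun u => if Odd u.im ∧ Odd u.re then f u else 0) := fun u w => by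
  simp only [par_per hm, h u w]

lemma fC_per {m : ℕ} {f : GI → ℂ} (h : Per m f) : Per m (fC f) := fun u w => by
  have := h.star u w
  simp only [fC] at this ⊢
  rw [this]

lemma msq_star {m : ℕ} {f g : GI → ℂ} (h : Per m f) (e : ∀ u, ‖g u‖ = ‖f (star u)‖) :
    msq m g = msq m f := by
  unfold msq av
  simp only [e]
  rw [ts_star (F := fun u => ‖f u‖ ^ 2) (fun u w => by simp only [h u w])]

lemma diff_per {m : ℕ} {f : GI → ℂ} (h : Per m f) (x : GI) : Per m (fun u => f (u + x) - f u) :=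
  fun u w => by
    have := h.shift x u w
    simp only at this ⊢
    rw [this, h u w]

lemma g2_fC {m : ℕ} {f : GI → ℂ} (h : Per m f) : g2 m (fC f) = g2 m f := by
  have n : ∀ a b : ℂ, ‖-conj a - -conj b‖ = ‖a - b‖ := fun a b => by
    rw [neg_sub_neg, ← map_sub, norm_conj, norm_sub_rev]
  unfold g2
  congr 1
  · exact msq_star (diff_per h 1) fun u => by simp only [fC, n, star_add, star_one]
  · have e : star gi = -gi := by decide
    rw [msq_star (diff_per h (-gi)) fun u => by simp only [fC, n, star_add, e],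
      ← msq_shift (diff_per h (-gi)) gi]
    unfold msq
    simp only [add_neg_cancel_right, norm_sub_rev (f _) (f (_ + gi))]

lemma M0_fC {l : Lv} (hl : l.ok) {f : GI → ℂ} (h : Per l.m f) (h0 : M0 l f) :
    ts l.m (fun u => if Odd u.im ∧ Odd u.re then conj (f (star u)) else 0) = 0 := by
  have a := ts_star (cls_per hl.1 h)
  rw [h0] at a
  have b := congrArg conj a
  rw [ts_conj, map_zero] at b
  refine Eq.trans ?_ b
  congr 1
  funext u
  simp only [Zsqrtd.im_star, Zsqrtd.re_star, odd_neg]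
  split_ifs <;> simp

section
variable (E : Ell) {l : Lv}

/-- Summand of the linearised force. -/
def tR (l : Lv) (ε : GI → ℂ) (σ : GI → ℝ) (u w : GI) : ℂ :=
  (q0 l w : ℂ) * (-E.wp (l.c * ((u - w : GI) : ℂ)) * (ε u - ε w) - π * conj (ε u - ε w))
    + ((q0 l w * σ w : ℝ) : ℂ) * E.Z 0 (l.c * ((u - w : GI) : ℂ))
def tH (l : Lv) (ε : GI → ℂ) (σ : GI → ℝ) (u w : GI) : ℝ :=
  q0 l w * (E.Z 0 (l.c * ((u - w : GI) : ℂ)) * (ε u - ε w)).re
    + q0 l w * σ w * E.Gr 0 (l.c * ((u - w : GI) : ℂ))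

lemma Rlin_eq (ε : GI → ℂ) (σ : GI → ℝ) (u : GI) : Rlin E l ε σ u = ts l.m (tR E l ε σ u) := rfl
lemma hlin_eq (ε : GI → ℂ) (σ : GI → ℝ) (u : GI) : hlin E l ε σ u = ts l.m (tH E l ε σ u) := rfl

lemma ker_per {w0 : GI} (h0 : l.c * ((om ^ l.m : GI) : ℂ) = w0) {x x' : GI} (y : GI)
    (h : x' = x + om ^ l.m * y) : E.wp (l.c * x') = E.wp (l.c * x) ∧
      E.Z 0 (l.c * x') = E.Z 0 (l.c * x) ∧ E.Gr 0 (l.c * x') = E.Gr 0 (l.c * x) := by
  have e : l.c * x' = l.c * x + ((w0 * y : GI) : ℂ) := by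
    rw [h, map_add, map_mul, map_mul, ← h0]
    ring
  have e' : ((w0 * y : GI) : ℂ) = Lm 0 (w0 * y : GI) := by simp [Lm]
  rw [e]
  refine ⟨E.Wper _ _, ?_, ?_⟩
  · rw [e']; exact E.Zper 0 (by norm_num) _ _
  · rw [e']; exact E.Gper 0 (by norm_num) _ _

lemma t_per {w0 : GI} (h0 : l.c * ((om ^ l.m : GI) : ℂ) = w0) (hq : Per l.m (q0 l))
    {ε : GI → ℂ} {σ : GI → ℝ} (h : LV l ε σ) :
    (∀ u, Per l.m (tR E l ε σ u) ∧ Per l.m (tH E l ε σ u)) ∧
    ∀ u y, tR E l ε σ (u + om ^ l.m * y) = tR E l ε σ u ∧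
      tH E l ε σ (u + om ^ l.m * y) = tH E l ε σ u := by
  constructor
  · intro u
    constructor <;> intro w y <;>
      obtain ⟨a, b, c⟩ := ker_per E h0 (x := u - w) (x' := u - (w + om ^ l.m * y)) (-y) (by ring)
    · simp only [tR, a, b, hq w y, h.pe w y, h.ps w y]
    · simp only [tH, b, c, hq w y, h.pe w y, h.ps w y]
  · intro u y
    constructor <;> funext w <;>
      obtain ⟨a, b, c⟩ := ker_per E h0 (x := u - w) (x' := u + om ^ l.m * y - w) y (by ring)
    · simp only [tR, a, b, h.pe u y]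
    · simp only [tH, b, c, h.pe u y]

end

lemma gen (hDip : S_Dip) (hDn : S_Dn) (hK : S_Ker0) (E : Ell) {l : Lv} (hl : l.ok)
    {ε : GI → ℂ} {σ : GI → ℝ} (h : LV l ε σ) :
    (LV (fl l) (fC ε) (fR σ) ∧ nb2 (fl l) (fC ε) (fR σ) = nb2 l ε σ ∧
      (M0 l ε → M0 (fl l) (fC ε)) ∧
      (M0 l (fun u => (σ u : ℂ)) → M0 (fl l) (fun u => (fR σ u : ℂ))) ∧
      Flin E (fl l) (fC ε) (fR σ) = fC (Flin E l ε σ) ∧
      Glin E (fl l) (fC ε) (fR σ) = fR (Glin E l ε σ) ∧
      ∀ F G, Per l.m F → Per l.m G →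
        pair l (fC F) (fR G) ε σ = pair (fl l) F G (fC ε) (fR σ)) ∧
    (Per l.m (Flin E l ε σ) ∧ Per l.m (Glin E l ε σ)) ∧
    ((∀ u, q0 l u ≠ 0 → ε (-u) = -ε u) → (∀ u, σ (-u) = σ u) → ∀ u,
      Flin E l ε σ (-u) = -Flin E l ε σ u ∧ Glin E l ε σ (-u) = Glin E l ε σ u) := by
  obtain ⟨-, -, qp, qs, -, -, -, -, ⟨w0, h0, -⟩, -⟩ := hDip l hl
  obtain ⟨C, -, hC⟩ := hK E
  obtain ⟨-, -, -, -, k1, -, -, -, k2, -⟩ := hC 0 (by norm_num)
  clear hC
  obtain ⟨p1, p2⟩ := t_per E h0 qp h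
  have qf : q0 (fl l) = q0 l := rfl
  have mf : (fl l).m = l.m := rfl
  have sp : Per l.m (fun u => (σ u : ℂ)) := fun u w => by simp only [h.ps u w]
  have cf : ∀ u w : GI, (fl l).c * ((u - w : GI) : ℂ)
      = -conj (l.c * ((star u - star w : GI) : ℂ)) := fun u w => by
    rw [← star_sub, GaussianInt.toComplex_star]
    simp [fl]
  refine ⟨⟨⟨fC_per h.pe, h.ps.star, ?_⟩, ?_, ?_, ?_, ?_, ?_, ?_⟩, ⟨?_, ?_⟩, ?_⟩
  · rw [← h.neu, ← ts_star (F := fun u => q0 l u * σ u) (fun u w => by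
      simp only [qp u w, h.ps u w])]
    simp only [qf, mf, fR, (qs _).2]
  · obtain ⟨C, -, hD⟩ := hDn
    have a := hD l.m (fun u => q0 l u * σ u / dd l.m ^ 2) hl.1
      (fun u w => by simp only [qp u w, h.ps u w]) (by
        have := ts_mul_left_real l.m (dd l.m ^ 2)⁻¹ (fun u => q0 l u * σ u)
        rw [h.neu, mul_zero] at this
        simp only [div_eq_inv_mul, this])
    unfold nb2
    rw [← a.2.2.2.2.2.2.2, mf, g2_fC h.pe, msq_star sp (g := fun u => (fR σ u : ℂ)) fun u => rfl]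
    simp only [qf, fR, (qs _).2]
  · intro m0
    have := congrArg Neg.neg (M0_fC hl h.pe m0)
    rw [← ts_neg, neg_zero] at this
    rw [M0, mf]
    refine Eq.trans ?_ this
    congr 1
    funext u
    simp only [fC]
    split_ifs <;> simp
  · intro m0
    have := M0_fC hl sp m0
    simp only [conj_ofReal] at this
    exact this
  · funext u
    simp only [Flin, fC, Rlin_eq, qf, mf, (qs _).2, map_mul, conj_ofReal]
    rw [← ts_star (p1 (star u)).1, ts_conj, ← mul_neg, ← ts_neg]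
    congr 2
    funext w
    simp only [tR, cf, qf, fC, fR, (qs _).2, (k1 _).1, (k2 _).1, (k2 _).2.2.1, (k2 _).2.2.2.2.1]
    simp only [map_add, map_mul, map_sub, map_neg, conj_ofReal, conj_conj]
    ring
  · funext u
    simp only [Glin, fR, hlin_eq, qf, mf, (qs _).2]
    rw [← ts_star (p1 (star u)).2]
    congr 3
    funext w
    simp only [tH, cf, qf, fC, fR, (qs _).2, (k1 _).1, (k1 _).2, (k2 _).2.2.2.2.1,
      (k2 _).2.2.2.2.2.2]
    rw [neg_sub_neg, neg_mul, ← mul_neg, neg_sub, ← map_sub, ← map_mul, conj_re]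
  · intro F G hF hG
    unfold pair
    rw [mf, ← ts_star (F := fun u => (F u * fC ε u).re + G u * fR σ u) (fun u w => by
      have := h.ps.star u w
      simp only [hF u w, hG u w, fC_per h.pe u w, fR, this] at this ⊢)]
    congr 1
    funext u
    simp only [fC, fR, star_star]
    simp
  · intro u y
    simp only [Flin, Rlin_eq, qp u y, (p2 u y).1]
  · intro u y
    simp only [Glin, hlin_eq, qp u y, (p2 u y).2, h.ps u y]
  · intro ho he u
    by_cases hu : q0 l u = 0
    · simp [Flin, Glin, (qs u).1, hu]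
    have cn : ∀ w : GI, l.c * ((-u - -w : GI) : ℂ) = -(l.c * ((u - w : GI) : ℂ)) := fun w => by
      simp only [map_sub, map_neg]
      ring
    constructor
    · simp only [Flin, Rlin_eq, (qs u).1]
      rw [← ts_neg_arg (p1 (-u)).1, ← mul_neg, ← ts_neg]
      congr 2
      funext w
      by_cases hw : q0 l w = 0
      · simp [tR, (qs w).1, hw]
      simp only [tR, cn, (qs w).1, ho u hu, ho w hw, he, (k1 _).1, (k2 _).1]
      simp only [map_sub, map_neg]
      ring
    · simp only [Glin, hlin_eq, (qs u).1, he]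
      rw [← ts_neg_arg (p1 (-u)).2]
      congr 3
      funext w
      by_cases hw : q0 l w = 0
      · simp [tH, (qs w).1, hw]
      simp only [tH, cn, (qs w).1, ho u hu, ho w hw, he, (k1 _).1, (k1 _).2]
      rw [neg_sub_neg, neg_mul, ← mul_neg, neg_sub]

lemma g2_sub_le (m : ℕ) (a b : GI → ℂ) : g2 m (fun u => a u - b u) ≤ 2 * g2 m a + 2 * g2 m b := by
  have k : ∀ x : GI, msq m (fun u => a (u + x) - b (u + x) - (a u - b u))
      ≤ 2 * msq m (fun u => a (u + x) - a u) + 2 * msq m (fun u => b (u + x) - b u) := fun x => by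
    have h1 := msq_add_le m (fun u => a (u + x) - a u) (fun u => -1 * (b (u + x) - b u))
    rw [msq_mul] at h1
    have e : (fun u => a (u + x) - b (u + x) - (a u - b u))
        = fun u => a (u + x) - a u + -1 * (b (u + x) - b u) := funext fun u => by ring
    rw [e]
    simpa using h1
  unfold g2
  linarith [k 1, k gi]

lemma tt_small {m : ℕ} (hm : 4 ≤ m) : tt m ^ 8 ≤ 1 / 2 := by
  refine le_of_pow_le_pow_left₀ (n := 4) (by norm_num) (by norm_num) ?_
  have e : (tt m ^ 8) ^ 4 = ((2 : ℝ) ^ m)⁻¹ := by rw [← dd_sq, ← tt_pow_16]; ring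
  have : (2 : ℝ) ^ 4 ≤ 2 ^ m := pow_le_pow_right₀ (by norm_num) hm
  rw [e]
  calc _ ≤ ((2 : ℝ) ^ 4)⁻¹ := inv_anti₀ (by norm_num) this
    _ = _ := by norm_num

end Pool.Agent.P.MP_cc4a10_gt.FlipP

namespace Pool.Agent.P.MP_cc4a10_gt

open FlipP

theorem pFlip (hPar : S_Par) (hDip : S_Dip) (hDn : S_Dn) (hK : S_Ker0) : S_Flip := by
  intro E S hS K
  obtain ⟨okT, okF, -, -, -, pu, -, -, -, pv⟩ := hPar S hS K
  have main : ∀ ε σ, LV (lvT S K) ε σ → LV (lvF S K) (flC K ε) (flR K σ) ∧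
      nb2 (lvF S K) (flC K ε) (flR K σ) = nb2 (lvT S K) ε σ ∧
      (M0 (lvT S K) ε → M0 (lvF S K) (flC K ε)) ∧
      (M0 (lvT S K) (fun u => (σ u : ℂ)) → M0 (lvF S K) (fun u => (flR K σ u : ℂ))) ∧
      Flin E (lvF S K) (flC K ε) (flR K σ) = flC K (Flin E (lvT S K) ε σ) ∧
      Glin E (lvF S K) (flC K ε) (flR K σ) = flR K (Glin E (lvT S K) ε σ) ∧
      (Per (mK S K) (Flin E (lvT S K) ε σ) ∧ Per (mK S K) (Glin E (lvT S K) ε σ)) ∧
      ((∀ u, q0 (lvT S K) u ≠ 0 → ε (-u) = -ε u) → (∀ u, σ (-u) = σ u) → ∀ u,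
        Flin E (lvT S K) ε σ (-u) = -Flin E (lvT S K) ε σ u ∧
        Glin E (lvT S K) ε σ (-u) = Glin E (lvT S K) ε σ u) ∧
      ∀ F G, Per (mK S K) F → Per (mK S K) G →
        pair (lvT S K) (flC K F) (flR K G) ε σ = pair (lvF S K) F G (flC K ε) (flR K σ) := by
    intro ε σ h
    obtain ⟨⟨a1, a2, a3, a4, a5, a6, a7⟩, b, c⟩ := gen hDip hDn hK E okT h
    by_cases hE : Even K
    · have e1 : lvF S K = lvT S K := by simp only [lvF, io, if_pos hE]
      have e2 : ∀ f, flC K f = f := fun f => funext fun u => by simp only [flC, if_pos hE]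
      have e3 : ∀ f, flR K f = f := fun f => funext fun u => by simp only [flR, if_pos hE]
      simp only [e1, e2, e3]
      exact ⟨h, trivial, id, id, trivial, trivial, b, c, fun _ _ _ _ => trivial⟩
    · have e1 : lvF S K = fl (lvT S K) := by simp only [lvF, io, if_neg hE, fl]
      have e2 : ∀ f, flC K f = fC f := fun f => funext fun u => by simp only [flC, if_neg hE, fC]
      have e3 : ∀ f, flR K f = fR f := fun f => funext fun u => by simp only [flR, if_neg hE, fR]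
      simp only [e1, e2, e3]
      exact ⟨a1, a2, a3, a4, a5, a6, b, c, a7⟩
  refine ⟨main, fun x hB hx => ?_⟩
  obtain ⟨lv, m1, -⟩ := pv x.v hx.adm
  obtain ⟨a1, a2, a3, -⟩ := main _ _ lv
  obtain ⟨-, -, -, qs, -⟩ := hDip _ okT
  have lkn : ∀ u, lk S K (-u) = lk S K u := fun u => by simp only [lk, (qs u).1]
  have ion : ∀ z, io K (-z) = -io K z := fun z => by
    unfold io
    split_ifs <;> simp
  have mF : (lvF S K).m = mK S K := rfl
  have t0 := tt_pos (mK S K)
  have d0 := dd_pos (mK S K)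
  have n1 : nT S x.v K ≤ tt (mK S K) ^ 40 := by
    have := hx.nb {K}
    rwa [Finset.sum_singleton, div_le_one (by positivity)] at this
  refine ⟨okF, ⟨fun u w => ?_, a1.ps, a1.neu⟩, ?_, fun u hu => ?_, fun u => ?_, ?_, ?_, ?_,
    hx.mb K⟩
  · simp only [ls, a1.pe u w]
    rw [mF, hx.xp K u w]
  · have h1 := ts_neg_arg (cls_per okF.1 (hx.xp K))
    have h2 : ts (mK S K) (fun u => if Odd u.im ∧ Odd u.re then x.ξ K u else 0) = 0 := by
      have h3 : (fun u : GI => if Odd (-u).im ∧ Odd (-u).re then x.ξ K (-u) else 0)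
          = fun u : GI => -if Odd u.im ∧ Odd u.re then x.ξ K u else 0 := by
        funext u
        simp only [Zsqrtd.im_neg, Zsqrtd.re_neg, odd_neg, hx.xo]
        split_ifs <;> simp
      rw [h3, ts_neg, mF] at h1
      linear_combination (-1 / 2 : ℂ) * h1
    have h4 := ts_sub (mK S K) (fun u => if Odd u.im ∧ Odd u.re then flC K (eT S x.v K) u else 0)
      (fun u => if Odd u.im ∧ Odd u.re then x.ξ K u else 0)
    have h5 := a3 m1
    rw [M0, mF] at h5
    rw [h2, h5, sub_zero] at h4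
    rw [M0, mF]
    refine Eq.trans ?_ h4
    congr 1
    funext u
    simp only [ls]
    split_ifs <;> simp
  · have hu' : q0 (lvT S K) (-u) ≠ 0 := by rw [(qs u).1]; exact hu
    simp only [ls]
    rw [((pu _ hu').2.2.2.2.2.2.2.2.2 x.v).1, ((pu _ hu).2.2.2.2.2.2.2.2.2 x.v).1, lkn, hx.xo,
      map_neg, mul_neg, ion, (hx.sym _ _).1, ion]
    ring
  · have : ∀ u, sT S x.v K (-u) = sT S x.v K u := fun u => by
      simp only [sT, (qs u).1, lkn, map_neg, mul_neg, (hx.sym _ _).2]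
    simp only [ls, flR, star_neg, this]
  · unfold bK
    positivity
  · have g := g2_sub_le (mK S K) (flC K (eT S x.v K)) (x.ξ K)
    have xb := hx.xb K
    have e : nb2 (lvF S K) (flC K (eT S x.v K)) (flR K (sT S x.v K)) = nT S x.v K := a2
    have b1 := msq_nonneg (mK S K) (fun u => (flR K (sT S x.v K) u : ℂ))
    have b2 := g2_nonneg (mK S K) (flC K (eT S x.v K))
    have g' : g2 (mK S K) (fun u => flC K (eT S x.v K) u - x.ξ K u) / dd (mK S K) ^ 2
        ≤ 2 * (g2 (mK S K) (flC K (eT S x.v K)) / dd (mK S K) ^ 2)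
          + 2 * (tt (mK S K) ^ 29) ^ 2 := by
      rw [div_le_iff₀ (by positivity), add_mul, mul_assoc, div_mul_cancel₀ _ (by positivity)]
      nlinarith
    unfold nb2 at e ⊢
    simp only [ls, mF] at e ⊢
    have b3 : 0 ≤ (mK S K : ℝ) * msq (mK S K) (fun u => (flR K (sT S x.v K) u : ℂ)) := by
      positivity
    have b4 := sq_nonneg (dn (mK S K)
      (fun u => q0 (lvF S K) u * flR K (sT S x.v K) u / dd (mK S K) ^ 2))
    have b5 : 0 ≤ g2 (mK S K) (flC K (eT S x.v K)) / dd (mK S K) ^ 2 := by positivity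
    have n0 : 0 ≤ nT S x.v K := by linarith
    have s0 := Real.sqrt_nonneg (nT S x.v K)
    have s1 := Real.sq_sqrt n0
    have s2 : 0 ≤ tt (mK S K) ^ 29 := by positivity
    unfold bK
    nlinarith [mul_nonneg s0 s2, sq_nonneg (tt (mK S K) ^ 29)]
  · have s : √(nT S x.v K) ≤ tt (mK S K) ^ 20 := by
      rw [Real.sqrt_le_left (by positivity)]
      calc _ ≤ _ := n1
        _ = _ := by ring
    have m4 : 4 ≤ mK S K := by
      have h1 := hB (K - 1)
      have h2 := hB K
      unfold mK jl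
      omega
    have t8 := tt_small m4
    have t1 := tt_le_one (mK S K)
    have : tt (mK S K) ^ 29 ≤ tt (mK S K) ^ 20 * (1 / 2) := by
      calc tt (mK S K) ^ 29 = tt (mK S K) ^ 20 * (tt (mK S K) ^ 8 * tt (mK S K)) := by ring
        _ ≤ tt (mK S K) ^ 20 * (1 / 2 * 1) := by gcongr
        _ = _ := by ring
    unfold bK
    rw [mF]
    linarith

end Pool.Agent.P.MP_cc4a10_gt
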