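import Pool.Agent.P.MP_cc4a10_gt.St

/-!
Package Fo, part 1: Cauchy integrals in a coordinate close to the identity.
-/

open Set Filter Topology Complex Metric
open scoped ComplexConjugate Real

noncomputable section

namespace Pool.Agent.P.MP_cc4a10_gt.FoP

theorem cint_shift (p a : ℂ) (r : ℝ) (f : ℂ → ℂ) :
    cint (p + a) r (fun ξ => f (ξ - a)) = cint p r f := by
  unfold cint circleIntegral
  congr 2
  funext θ
  simp only [deriv_circleMap]
  congr 2
  simp only [circleMap]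
  ring

theorem cint_neg (p : ℂ) (r : ℝ) (f : ℂ → ℂ) :
    cint (-p) r (fun ξ => -f (-ξ)) = cint p r f := by
  unfold cint circleIntegral
  congr 1
  set g : ℝ → ℂ := fun θ => deriv (circleMap p r) θ • f (circleMap p r θ) with hg
  have hper : Function.Periodic g (2 * π) := by
    intro θ
    simp only [hg, deriv_circleMap, periodic_circleMap _ _ θ]
  have h1 : ∀ θ : ℝ, deriv (circleMap (-p) r) θ • (-f (-circleMap (-p) r θ)) = g (θ + π) := by
    intro θ
    have e : ∀ c : ℂ, circleMap c r (θ + π) = -circleMap (-c) r θ := by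
      intro c
      simp only [circleMap, ofReal_add, add_mul, Complex.exp_add, Complex.exp_pi_mul_I]
      ring
    simp only [hg, deriv_circleMap, e, neg_zero, smul_eq_mul]
    ring
  simp only [h1]
  rw [intervalIntegral.integral_comp_add_right g π]
  have := hper.intervalIntegral_add_eq (0 + π) 0
  rw [zero_add (2 * π)] at this
  rw [← this]
  congr 1
  ring

/-- The Cauchy transform in the coordinate `v`. -/
def ct (v M : ℂ → ℂ) (p : ℂ) (ρ : ℝ) (y : ℂ) : ℂ :=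
  cint p (ρ / 2) (fun ξ => M ξ * deriv v ξ / (v ξ - y))

/-- A coordinate close to the identity on the disc of radius `3 ρ`. -/
structure Co (v : ℂ → ℂ) (p : ℂ) (ρ : ℝ) : Prop where
  pos : 0 < ρ
  hol : DifferentiableOn ℂ v (ball p (3 * ρ))
  zero : v p = 0
  der : ∀ z ∈ ball p (3 * ρ), ‖deriv v z - 1‖ ≤ 1 / 100

variable {v M : ℂ → ℂ} {p : ℂ} {ρ a : ℝ}

theorem Co.near (hI : S_Inv) (h : Co v p ρ) {z : ℂ} (hz : ‖z - p‖ < 3 * ρ) :
    ‖z - p‖ * (99 / 100) ≤ ‖v z‖ ∧ ‖v z‖ ≤ ‖z - p‖ * (101 / 100) := by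
  have hρ := h.pos
  have h1 := (hI v p (3 * ρ) (by positivity) h.hol h.zero h.der).1 z (mem_ball_iff_norm.2 hz) p
    (mem_ball_self (by positivity))
  rw [h.zero, sub_zero] at h1
  have h2 : ‖z - p‖ ≤ ‖v z‖ + ‖v z - (z - p)‖ := by
    calc ‖z - p‖ = ‖v z - (v z - (z - p))‖ := by congr 1; ring
      _ ≤ _ := norm_sub_le _ _
  have h3 : ‖v z‖ ≤ ‖z - p‖ + ‖v z - (z - p)‖ := by
    calc ‖v z‖ = ‖(z - p) + (v z - (z - p))‖ := by congr 1; ring
      _ ≤ _ := norm_add_le _ _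
  constructor <;> linarith

theorem Co.surj (hI : S_Inv) (h : Co v p ρ) {y : ℂ} (hy : ‖y‖ ≤ ρ * (45 / 100)) :
    ∃ z, ‖z - p‖ < ρ / 2 ∧ v z = y := by
  have hρ := h.pos
  obtain ⟨z, hz, e⟩ := (hI v p (3 * ρ) (by positivity) h.hol h.zero h.der).2.1 y (by linarith)
  refine ⟨z, ?_, e⟩
  have := (h.near hI (mem_ball_iff_norm.1 hz)).1
  rw [e] at this
  linarith

theorem Co.inv (hI : S_Inv) (h : Co v p ρ) (hM : DifferentiableOn ℂ M (ball p (ρ * (3 / 4)))) :
    DifferentiableOn ℂ (ct v M p ρ) (ball 0 (ρ * (49 / 100))) ∧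
      ∀ z, ‖z - p‖ < ρ / 2 → ‖v z‖ < ρ * (49 / 100) → ct v M p ρ (v z) = M z := by
  have hρ := h.pos
  have hs : ball p (ρ * (3 / 4)) ⊆ ball p (3 * ρ) := ball_subset_ball (by linarith)
  have := (hI v p (ρ * (3 / 4)) (by positivity) (h.hol.mono hs) h.zero
    (fun z hz => h.der z (hs hz))).2.2.1 M (ρ / 2) (by positivity) (by linarith) hM
  have e : ρ / 2 * (98 / 100) = ρ * (49 / 100) := by ring
  rw [e] at this
  exact ⟨this.1, fun z hz hv => this.2 z (mem_ball_iff_norm.2 hz) hv⟩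

theorem Co.val (hI : S_Inv) (h : Co v p ρ) {y : ℂ} (hy : ‖y‖ ≤ ρ * (45 / 100)) :
    ∃ z, ‖z - p‖ < ρ / 2 ∧ ∀ M : ℂ → ℂ, DifferentiableOn ℂ M (ball p (ρ * (3 / 4))) →
      ct v M p ρ y = M z := by
  have hρ := h.pos
  obtain ⟨z, hz, e⟩ := h.surj hI hy
  refine ⟨z, hz, fun M hM => ?_⟩
  rw [← e]
  exact (h.inv hI hM).2 z hz (by rw [e]; linarith)

theorem Co.bd (hI : S_Inv) (h : Co v p ρ) (hM : DifferentiableOn ℂ M (ball p (ρ * (3 / 4))))
    (hb : ∀ z, ‖z - p‖ ≤ ρ * (3 / 4) → ‖M z‖ ≤ a) {y : ℂ} (hy : ‖y‖ ≤ ρ * (45 / 100)) :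
    ‖ct v M p ρ y‖ ≤ a := by
  have hρ := h.pos
  obtain ⟨z, hz, e⟩ := h.val hI hy
  rw [e M hM]
  exact hb z (by linarith)

theorem Co.back (hI : S_Inv) (h : Co v p ρ) (hM : DifferentiableOn ℂ M (ball p (ρ * (3 / 4))))
    {z : ℂ} (hz : ‖z - p‖ < ρ * (45 / 100)) : ct v M p ρ (v z) = M z := by
  have hρ := h.pos
  have := (h.near hI (z := z) (by linarith)).2
  exact (h.inv hI hM).2 z (by linarith) (by linarith)

theorem Co.schwarz (hI : S_Inv) (h : Co v p ρ)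
    (hM : DifferentiableOn ℂ M (ball p (ρ * (3 / 4))))
    (hb : ∀ z, ‖z - p‖ ≤ ρ * (3 / 4) → ‖M z‖ ≤ a) {y : ℂ} (hy : ‖y‖ < ρ * (45 / 100)) :
    ‖ct v M p ρ y - ct v M p ρ 0‖ ≤ 5 * a * ‖y‖ / ρ := by
  have hρ := h.pos
  have ha : 0 ≤ a := (norm_nonneg _).trans (hb p (by simp; positivity))
  have hd : DifferentiableOn ℂ (ct v M p ρ) (ball 0 (ρ * (45 / 100))) :=
    (h.inv hI hM).1.mono (ball_subset_ball (by linarith))
  have hm : MapsTo (ct v M p ρ) (ball 0 (ρ * (45 / 100))) (closedBall (ct v M p ρ 0) (2 * a)) := by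
    intro w hw
    rw [mem_closedBall_iff_norm]
    have h1 := h.bd hI hM hb (y := w) (mem_ball_zero_iff.1 hw).le
    have h2 := h.bd hI hM hb (y := 0) (by simp; positivity)
    linarith [norm_sub_le (ct v M p ρ w) (ct v M p ρ 0)]
  have := Complex.dist_le_div_mul_dist_of_mapsTo_ball hd hm (mem_ball_zero_iff.2 hy)
  rw [dist_eq_norm, dist_zero_right] at this
  refine this.trans ?_
  rw [div_mul_eq_mul_div, div_le_div_iff₀ (by positivity) hρ]
  have : 0 ≤ a * ‖y‖ * ρ := by positivity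
  nlinarith

theorem ct_neg {v' M' : ℂ → ℂ} (hv : ∀ z, v' (-z) = -v z) (hM : ∀ z, M' (-z) = M z) (y : ℂ) :
    ct v' M' (-p) ρ (-y) = ct v M p ρ y := by
  unfold ct
  rw [← cint_neg p]
  congr 1
  funext ξ
  have e1 : v' = fun z => -v (-z) := by funext z; rw [← hv, neg_neg]
  have e2 : M' ξ = M (-ξ) := by rw [← hM, neg_neg]
  have e3 : deriv v' ξ = deriv v (-ξ) := by
    rw [e1, deriv.fun_neg', ]
    simp only [deriv_comp_neg, neg_neg]
  rw [e2, e3, e1]
  simp only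
  rw [← div_neg]
  congr 1
  ring

theorem ct_shift {v' M' : ℂ → ℂ} {b : ℂ} (hv : ∀ z, v' (z + b) = v z)
    (hM : ∀ z, M' (z + b) = M z) (y : ℂ) : ct v' M' (p + b) ρ y = ct v M p ρ y := by
  unfold ct
  rw [← cint_shift p b]
  congr 1
  funext ξ
  have e1 : v' = fun z => v (z - b) := by funext z; rw [← hv, sub_add_cancel]
  have e2 : M' ξ = M (ξ - b) := by rw [← hM, sub_add_cancel]
  have e3 : deriv v' ξ = deriv v (ξ - b) := by rw [e1, deriv_comp_sub_const]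
  rw [e2, e3, e1]

theorem cint_sub {f g : ℂ → ℂ} {r : ℝ} (hr : 0 ≤ r) (hf : ContinuousOn f (sphere p r))
    (hg : ContinuousOn g (sphere p r)) :
    cint p r (fun ξ => f ξ - g ξ) = cint p r f - cint p r g := by
  unfold cint
  rw [circleIntegral.integral_sub (hf.circleIntegrable hr) (hg.circleIntegrable hr), mul_sub]

theorem cint_congr {f g : ℂ → ℂ} {r : ℝ} (hr : 0 ≤ r) (h : EqOn f g (sphere p r)) :
    cint p r f = cint p r g := by
  unfold cint
  rw [circleIntegral.integral_congr hr h]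

end Pool.Agent.P.MP_cc4a10_gt.FoP
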