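import Pool.Agent.P.MP_cc4a10_gt.Fo1

/-!
Package Fo, part 2: the facts about one level that the Cousin step uses.
-/

open Set Filter Topology Complex Metric
open scoped ComplexConjugate Real

noncomputable section

namespace Pool.Agent.P.MP_cc4a10_gt.FoP

theorem one_le_norm_gi {g : GI} (h : g ≠ 0) : 1 ≤ ‖(g : ℂ)‖ := by
  have h1 : (1 : ℤ) ≤ g.norm := GaussianInt.norm_pos.2 h
  have h2 : (1 : ℝ) ≤ Complex.normSq (g : ℂ) := by
    rw [← GaussianInt.intCast_real_norm]; exact_mod_cast h1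
  rw [Complex.normSq_eq_norm_sq] at h2
  nlinarith [norm_nonneg (g : ℂ)]

/-- Facts about level `K`. -/
structure Gd (E : Ell) (S : Sys) (x : Cfg) (K : ℤ) : Prop where
  m10 : (10 : ℝ) ≤ mK S K
  sm : (mK S K : ℝ) * tt (mK S K) ≤ 1 / 100000
  lg : LG (lvF S K) (ls S x K) (bK S x K)
  co : ∀ u ∈ Nk (lvF S K), Co (vK E S x K u) (pK S x K u) (rho (mK S K))
  vneg : ∀ u ∈ Nk (lvF S K), ∀ z, vK E S x K (-u) (-z) = -vK E S x K u z
  vper : ∀ u ∈ Nk (lvF S K), ∀ w z,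
    vK E S x K (u + om ^ mK S K * w) (z + prd S x K w) = vK E S x K u z
  pneg : ∀ u ∈ Nk (lvF S K), pK S x K (-u) = -pK S x K u
  pper : ∀ u w, pK S x K (u + om ^ mK S K * w) = pK S x K u + prd S x K w
  sep : ∀ u u', u ≠ u' → dd (mK S K) * (99 / 100) ≤ ‖pK S x K u - pK S x K u'‖
  tnb : ∀ u, ‖tn S x K u + qK S x K u ^ 2‖ ≤ qK S x K u ^ 2 / 100
  tns : ∀ u, ‖tn S x K u‖ ≤ 26 * dd (mK S K) ^ 4
  tneg : ∀ u, tn S x K (-u) = tn S x K u
  tper : ∀ u w, tn S x K (u + om ^ mK S K * w) = tn S x K u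
  qneg : ∀ u, q0 (lvT S K) (-u) = q0 (lvT S K) u
  qper : ∀ u w, q0 (lvT S K) (u + om ^ mK S K * w) = q0 (lvT S K) u
  lat : ∀ w, ∃ w' : GI, prd S x K w = Lm (x.μ K) w'
  lat' : ∀ w' : GI, ∃ w, prd S x K w = Lm (x.μ K) w'
  mu : ‖x.μ K‖ ≤ 1 / 100

theorem tt_small {m : ℕ} (h1 : (10 : ℝ) ≤ m) (h2 : (m : ℝ) * tt m ≤ 1 / 100000) (k : ℕ) :
    tt m ^ (k + 1) ≤ 1 / 1000000 := by
  have h0 := tt_pos m
  have h3 : tt m ≤ 1 / 1000000 := by nlinarith
  calc tt m ^ (k + 1) ≤ tt m ^ 1 := pow_le_pow_of_le_one h0.le (tt_le_one m) (by omega)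
    _ ≤ _ := by simpa using h3

theorem exists_gd (hFlip : S_Flip) (hLev : S_Lev) (hVt : S_Vt) (hDip : S_Dip) (E : Ell) :
    ∃ j1 : ℕ, ∀ (S : Sys) (x : Cfg), S.ok → Big S j1 → XX S x → ∀ K, Gd E S x K := by
  obtain ⟨CL, mL, -, hL⟩ := hLev E
  obtain ⟨CV, mV, hCV, hV⟩ := hVt E
  obtain ⟨m1, hm1⟩ := exists_pow_mul_tt_le 1 (η := 1 / 100000) (by norm_num)
  obtain ⟨m2, hm2⟩ := exists_nat_ge (100 * CV)
  refine ⟨10 + mL + mV + m1 + m2, fun S x hS hB hX K => ?_⟩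
  have hm : 10 + mL + mV + m1 + m2 ≤ mK S K := by
    have h1 := hB (K - 1)
    have h2 := hB K
    unfold mK jl
    omega
  have hlg : LG (lvF S K) (ls S x K) (bK S x K) :=
    (hFlip E S hS K).2 x (fun k => le_trans (by omega) (hB k)) hX
  have em : (lvF S K).m = mK S K := rfl
  have hL' := hL _ _ _ hlg (by rw [em]; omega)
  have hV' := hV _ _ _ hlg (by rw [em]; omega)
  have hD := hDip _ hlg.ok
  rw [em] at hL' hV' hD
  obtain ⟨L1, -, -, L4, -, L6, L7, -⟩ := hL'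
  obtain ⟨-, -, D3, D4, -, -, D7, D8, ⟨w0, D9, D10⟩, -⟩ := hD
  have m10 : (10 : ℝ) ≤ mK S K := by exact_mod_cast (by omega : 10 ≤ mK S K)
  have sm : (mK S K : ℝ) * tt (mK S K) ≤ 1 / 100000 := by
    simpa using hm1 (mK S K) (by omega)
  have hd := dd_pos (mK S K)
  have hq : ∀ u, |qK S x K u| ≤ 5 * dd (mK S K) ^ 2 := by
    intro u
    unfold qK qq
    rw [abs_mul]
    have h1 := D7 u
    have h2 := (L1 u).2.2.2
    have h3 : |1 + (ls S x K).σ u| ≤ 5 / 4 := by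
      have := abs_add_le 1 ((ls S x K).σ u)
      rw [abs_one] at this
      linarith
    calc _ ≤ 4 * dd (mK S K) ^ 2 * (5 / 4) := by gcongr
      _ = _ := by ring
  have htn : ∀ u, ‖tn S x K u + qK S x K u ^ 2‖ ≤ qK S x K u ^ 2 / 100 := by
    intro u
    have hs : ‖-x.s K u‖ ≤ 1 / 1000000 := by
      rw [norm_neg]; exact (hX.sb K u).trans (tt_small m10 sm 28)
    have h1 := Complex.norm_exp_sub_one_le (x := -x.s K u) (by linarith)
    have e : tn S x K u + qK S x K u ^ 2 = -(qK S x K u : ℂ) ^ 2 * (exp (-x.s K u) - 1) := by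
      unfold tn; ring
    rw [e, norm_mul, norm_neg, norm_pow, Complex.norm_real, Real.norm_eq_abs, sq_abs]
    have : 0 ≤ qK S x K u ^ 2 := sq_nonneg _
    nlinarith
  have hprd : ∀ w, prd S x K w = Lm (x.μ K) ((w0 * w : GI) : ℂ) := by
    intro w
    unfold prd
    rw [GaussianInt.toComplex_mul, GaussianInt.toComplex_mul, ← mul_assoc, D9]
  refine
    { m10 := m10, sm := sm, lg := hlg
      co := fun u hu => ⟨?_, (hV' u hu).1, (hV' u hu).2.2.1, fun z hz => ?_⟩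
      vneg := fun u hu z => ((hV' u hu).2.2.2.2.2.2.1 z).1
      vper := fun u hu w z => ((hV' u hu).2.2.2.2.2.2.2 w z).1
      pneg := L7, pper := L6, sep := fun u u' h => ?_, tnb := htn, tns := fun u => ?_
      tneg := fun u => ?_, tper := fun u w => ?_, qneg := fun u => (D4 u).1
      qper := fun u w => D3 u w, lat := fun w => ⟨_, hprd w⟩, lat' := fun w' => ?_
      mu := (hX.mb K).trans ((tt_small m10 sm 29).trans (by norm_num)) }
  · unfold rho; positivity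
  · refine ((hV' u hu).2.2.2.2.2.1 z (mem_ball_iff_norm.1 hz)).1.trans ?_
    have : (m2 : ℝ) ≤ mK S K := by exact_mod_cast (by omega : m2 ≤ mK S K)
    rw [div_le_iff₀ (by linarith)]
    linarith
  · have h1 := L4 u u'
    have h2 := one_le_norm_gi (sub_ne_zero.2 h)
    have h3 : ‖(lvF S K).c * ((u - u' : GI) : ℂ)‖ = dd (mK S K) * ‖((u - u' : GI) : ℂ)‖ := by
      rw [norm_mul, D8]
    have h4 := norm_sub_norm_le ((lvF S K).c * ((u - u' : GI) : ℂ))
      (pos (lvF S K) (ls S x K) u - pos (lvF S K) (ls S x K) u')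
    rw [norm_sub_rev] at h1
    unfold pK
    nlinarith
  · have h1 := htn u
    have h2 : ‖tn S x K u‖ ≤ ‖tn S x K u + qK S x K u ^ 2‖ + ‖(qK S x K u : ℂ) ^ 2‖ := by
      calc _ = ‖(tn S x K u + qK S x K u ^ 2) - (qK S x K u : ℂ) ^ 2‖ := by congr 1; ring
        _ ≤ _ := norm_sub_le _ _
    rw [norm_pow, Complex.norm_real, Real.norm_eq_abs, sq_abs] at h2
    have h3 : qK S x K u ^ 2 ≤ (5 * dd (mK S K) ^ 2) ^ 2 := by
      rw [← sq_abs]; gcongr; exact hq u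
    have h4 : 0 ≤ dd (mK S K) ^ 4 := by positivity
    nlinarith
  · unfold tn qK qq
    rw [(D4 u).1, hlg.evn u, hX.se K u]
  · unfold tn qK qq
    rw [D3 u w, hX.sp K u w]
    have := hlg.lv.ps u w
    rw [em] at this
    rw [this]
  · obtain ⟨w1, rfl⟩ := D10
    refine ⟨(w1⁻¹ : GIˣ) * w', ?_⟩
    rw [hprd, ← mul_assoc, Units.mul_inv, one_mul]

end Pool.Agent.P.MP_cc4a10_gt.FoP
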