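import Pool.Agent.P.MP_cc4a10_gt.Fo2

/-!
Package Fo, part 3: the functions `mm` and `fo`.
-/

open Set Filter Topology Complex Metric
open scoped ComplexConjugate Real

noncomputable section

namespace Pool.Agent.P.MP_cc4a10_gt.FoP

variable {E : Ell} {S : Sys} {x : Cfg} {K : ℤ} {u : GI} {a a' : ℝ} {M M' : Fam}

theorem mm_eq (E : Ell) (S : Sys) (x : Cfg) (M : Fam) (K : ℤ) (u : GI) :
    mm E S x M K u = ct (vK E S x K u) (M K u) (pK S x K u) (rho (mK S K)) := rfl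

theorem mem_Nk : u ∈ Nk (lvF S K) ↔ q0 (lvT S K) u ≠ 0 := Iff.rfl

theorem one_mem (h : (lvF S K).ok) : (⟨1, 1⟩ : GI) ∈ Nk (lvF S K) := by
  have hd := dd_pos (lvF S K).m
  have : pat (lvF S K).τ ⟨1, 1⟩ = 1 := by simp [pat]
  show q0 (lvF S K) _ ≠ 0
  unfold q0
  rw [this]
  rcases h.2.2.1 with e | e <;> rw [e] <;> simp [hd.ne']

theorem FamOK.nonneg (hG : Gd E S x K) (hM : FamOK S x a M) : 0 ≤ a := by
  have hu := one_mem hG.lg.ok
  have hρ := (hG.co _ hu).pos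
  exact (norm_nonneg _).trans ((hM K _ hu).2.1 (pK S x K ⟨1, 1⟩) (by simp; positivity))

theorem par_facts (hPar : S_Par) (hS : S.ok) (hu : q0 (lvT S K) u ≠ 0) :
    par S K u ∈ Nk (lvF S (ot S K u)) ∧ mK S (ot S K u) ≤ mK S K + 1 ∧
      mK S K ≤ mK S (ot S K u) + 1 := by
  refine ⟨?_, ?_⟩
  · rw [mem_Nk, ((hPar S hS K).2.2.2.2.2.1 u hu).1]
    exact neg_ne_zero.2 hu
  · have h1 := hPar S hS K
    have h2 := hPar S hS (K - 1)
    rw [sub_add_cancel] at h2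
    unfold ot
    split_ifs
    · exact ⟨h2.2.2.1, h2.2.2.2.1⟩
    · exact ⟨h1.2.2.2.1, h1.2.2.1⟩

theorem rho_ge {m n : ℕ} (hm : (10 : ℝ) ≤ m) (hn : (10 : ℝ) ≤ n) (h1 : n ≤ m + 1) :
    dd m / (8 * m) ≤ rho n := by
  have h2 : dd m ≤ 4 * dd n := by
    rw [← tt_pow_16, ← tt_pow_16]; exact tt_pow_le h1 (by norm_num)
  have h3 : (n : ℝ) ≤ 2 * m := by
    have : (n : ℝ) ≤ m + 1 := by exact_mod_cast h1
    linarith
  have := dd_pos n
  have := dd_pos m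
  unfold rho
  rw [div_le_div_iff₀ (by positivity) (by positivity)]
  nlinarith

theorem rho_le {m : ℕ} (hm : (10 : ℝ) ≤ m) : rho m ≤ dd m / 10 := by
  have := dd_pos m
  unfold rho
  gcongr

theorem mm_neg (hG : Gd E S x K) (hM : FamOK S x a M) (hu : u ∈ Nk (lvF S K)) (y : ℂ) :
    mm E S x M K (-u) (-y) = mm E S x M K u y := by
  rw [mm_eq, mm_eq, hG.pneg u hu]
  exact ct_neg (hG.vneg u hu) (hM K u hu).2.2.1 y

theorem mm_per (hG : Gd E S x K) (hM : FamOK S x a M) (hu : u ∈ Nk (lvF S K)) (w : GI) (y : ℂ) :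
    mm E S x M K (u + om ^ mK S K * w) y = mm E S x M K u y := by
  rw [mm_eq, mm_eq, hG.pper u w]
  exact ct_shift (hG.vper u hu w) ((hM K u hu).2.2.2 w) y

/-- The argument of the function on the other side of the neck is small. -/
theorem arg_small (hI : S_Inv) (hPar : S_Par) (hS : S.ok) (hG : ∀ K, Gd E S x K)
    (hu : u ∈ Nk (lvF S K)) {ξ : ℂ} (h1 : rho1 (mK S K) / 4 < ‖ξ - pK S x K u‖)
    (h2 : ‖ξ - pK S x K u‖ < 2 * rho (mK S K)) :
    vK E S x K u ξ ≠ 0 ∧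
    ‖tn S x K u / vK E S x K u ξ‖ ≤ 27 * dd (mK S K) ^ 4 / ‖ξ - pK S x K u‖ ∧
      ‖tn S x K u / vK E S x K u ξ‖ < rho (mK S (ot S K u)) * (45 / 100) := by
  have hc := (hG K).co u hu
  have hρ := hc.pos
  have hd := dd_pos (mK S K)
  have ht := tt_pos (mK S K)
  have h0 : 0 < ‖ξ - pK S x K u‖ := lt_trans (by unfold rho1; positivity) h1
  have hv := (hc.near hI (z := ξ) (by linarith)).1
  have hv0 : 0 < ‖vK E S x K u ξ‖ := by linarith
  have hb : ‖tn S x K u / vK E S x K u ξ‖ ≤ 27 * dd (mK S K) ^ 4 / ‖ξ - pK S x K u‖ := by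
    rw [norm_div, div_le_div_iff₀ hv0 h0]
    have h3 := (hG K).tns u
    have h4 : 0 < dd (mK S K) ^ 4 := by positivity
    calc _ ≤ 26 * dd (mK S K) ^ 4 * ‖ξ - pK S x K u‖ := by gcongr
      _ ≤ _ := by nlinarith
  refine ⟨norm_pos_iff.1 hv0, hb, lt_of_le_of_lt hb ?_⟩
  have h5 := rho_ge (hG K).m10 (hG (ot S K u)).m10 (par_facts hPar hS hu).2.1
  have hm := (hG K).m10
  have hs := (hG K).sm
  refine lt_of_lt_of_le ?_ (mul_le_mul_of_nonneg_right h5 (by norm_num))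
  rw [div_lt_iff₀ h0]
  refine lt_of_le_of_lt ?_ (mul_lt_mul_of_pos_left h1 (by positivity))
  unfold rho1
  have h6 : dd (mK S K) ^ 2 ≤ tt (mK S K) ^ 2 := by
    rw [← tt_pow_16, ← pow_mul]
    exact pow_le_pow_of_le_one ht.le (tt_le_one _) (by norm_num)
  set d := dd (mK S K)
  set t := tt (mK S K)
  set m : ℝ := ((mK S K : ℕ) : ℝ)
  have h7 : d / (8 * m) * (45 / 100) * (d * t / 4) = d ^ 2 * (45 / 3200 * t / m) := by
    field_simp; ring
  rw [h7, show 27 * d ^ 4 = d ^ 2 * (27 * d ^ 2) by ring]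
  gcongr
  rw [le_div_iff₀ (by linarith)]
  have : 27 * d ^ 2 * m ≤ 27 * t ^ 2 * m := by gcongr
  nlinarith

theorem fo_eq (hu : u ∈ Nk (lvF S K)) (ξ : ℂ) : fo E S x M K u ξ =
    mm E S x M (ot S K u) (par S K u) (tn S x K u / vK E S x K u ξ)
      - mm E S x M (ot S K u) (par S K u) 0 := by
  unfold fo; rw [if_neg (mem_Nk.1 hu)]

theorem fo_zero (hu : u ∉ Nk (lvF S K)) : fo E S x M K u = 0 := by
  funext ξ
  unfold fo; rw [if_pos (by simpa [mem_Nk] using hu)]; rfl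

theorem fo_hol (hI : S_Inv) (hPar : S_Par) (hS : S.ok) (hG : ∀ K, Gd E S x K)
    (hM : FamOK S x a M) (hu : u ∈ Nk (lvF S K)) : DifferentiableOn ℂ (fo E S x M K u)
      {ξ | rho1 (mK S K) / 4 < ‖ξ - pK S x K u‖ ∧ ‖ξ - pK S x K u‖ < 2 * rho (mK S K)} := by
  have hu' := (par_facts hPar hS hu).1
  have hc' := (hG _).co _ hu'
  have hc := (hG K).co u hu
  have hρ := hc.pos
  have hρ' := hc'.pos
  have h1 := (hc'.inv hI (hM _ _ hu').1).1
  rw [funext (fo_eq (E := E) (x := x) (M := M) hu)]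
  refine DifferentiableOn.sub_const ?_ _
  rw [mm_eq]
  refine h1.comp ?_ ?_
  · refine (differentiableOn_const _).div (hc.hol.mono fun ξ h => ?_)
      fun ξ h => (arg_small hI hPar hS hG hu h.1 h.2).1
    exact mem_ball_iff_norm.2 (by linarith [h.2])
  · intro ξ h
    have := (arg_small hI hPar hS hG hu h.1 h.2).2.2
    exact mem_ball_zero_iff.2 (by linarith)

theorem fo_bd (hI : S_Inv) (hPar : S_Par) (hS : S.ok) (hG : ∀ K, Gd E S x K)
    (hM : FamOK S x a M) (u : GI) {ξ : ℂ} (h1 : rho1 (mK S K) / 4 < ‖ξ - pK S x K u‖)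
    (h2 : ‖ξ - pK S x K u‖ < 2 * rho (mK S K)) :
    ‖fo E S x M K u ξ‖ ≤ 1080 * a * mK S K * dd (mK S K) ^ 3 / ‖ξ - pK S x K u‖ := by
  have ha := FamOK.nonneg (hG K) hM
  have hd := dd_pos (mK S K)
  by_cases hu : u ∈ Nk (lvF S K)
  swap
  · rw [fo_zero hu]; simp only [Pi.zero_apply, norm_zero]; positivity
  have hu' := (par_facts hPar hS hu).1
  have hc' := (hG _).co _ hu'
  obtain ⟨-, h3, h4⟩ := arg_small hI hPar hS hG hu h1 h2
  have h5 := rho_ge (hG K).m10 (hG (ot S K u)).m10 (par_facts hPar hS hu).2.1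
  have hm := (hG K).m10
  have ht := tt_pos (mK S K)
  have h0 : 0 < ‖ξ - pK S x K u‖ := lt_trans (by unfold rho1; positivity) h1
  rw [fo_eq hu, mm_eq]
  refine (hc'.schwarz hI (hM _ _ hu').1 (hM _ _ hu').2.1 h4).trans ?_
  calc _ ≤ 5 * a * (27 * dd (mK S K) ^ 4 / ‖ξ - pK S x K u‖) / (dd (mK S K) / (8 * mK S K)) := by
        gcongr
    _ = _ := by field_simp; ring

theorem fo_neg (hPar : S_Par) (hS : S.ok) (hG : ∀ K, Gd E S x K)
    (hM : FamOK S x a M) (u : GI) (ξ : ℂ) : fo E S x M K (-u) (-ξ) = fo E S x M K u ξ := by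
  have hn : -u ∈ Nk (lvF S K) ↔ u ∈ Nk (lvF S K) := by rw [mem_Nk, mem_Nk, (hG K).qneg]
  by_cases hu : u ∈ Nk (lvF S K)
  swap
  · rw [fo_zero hu, fo_zero (mt hn.1 hu)]; rfl
  have hu' := (par_facts hPar hS hu).1
  have e1 : ot S K (-u) = ot S K u := by unfold ot; rw [(hG K).qneg]
  have e2 : par S K (-u) = -par S K u := ((hPar S hS K).2.2.2.2.2.1 u hu).2.2.2.2.2.1
  rw [fo_eq hu, fo_eq (hn.2 hu), e1, e2, (hG K).tneg, (hG K).vneg u hu, div_neg,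
    mm_neg (hG _) hM hu', ← mm_neg (hG _) hM hu' 0, neg_zero]

theorem fo_per (hPar : S_Par) (hS : S.ok) (hG : ∀ K, Gd E S x K)
    (hM : FamOK S x a M) (u w : GI) (ξ : ℂ) :
    fo E S x M K (u + om ^ mK S K * w) (ξ + prd S x K w) = fo E S x M K u ξ := by
  have hn : u + om ^ mK S K * w ∈ Nk (lvF S K) ↔ u ∈ Nk (lvF S K) := by
    rw [mem_Nk, mem_Nk, (hG K).qper]
  by_cases hu : u ∈ Nk (lvF S K)
  swap
  · rw [fo_zero hu, fo_zero (mt hn.1 hu)]; rfl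
  have hu' := (par_facts hPar hS hu).1
  have e1 : ot S K (u + om ^ mK S K * w) = ot S K u := by unfold ot; rw [(hG K).qper]
  obtain ⟨w', e2⟩ := ((hPar S hS K).2.2.2.2.2.1 u hu).2.2.2.2.2.2.2.2.1 w
  rw [fo_eq hu, fo_eq (hn.2 hu), e1, e2, (hG K).tper, (hG K).vper u hu,
    mm_per (hG _) hM hu', mm_per (hG _) hM hu']

theorem fo_sub (hI : S_Inv) (hPar : S_Par) (hS : S.ok) (hG : ∀ K, Gd E S x K)
    (hM : FamOK S x a M) (hM' : FamOK S x a' M') (hu : u ∈ Nk (lvF S K)) {ξ : ℂ}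
    (h1 : rho1 (mK S K) / 4 < ‖ξ - pK S x K u‖) (h2 : ‖ξ - pK S x K u‖ < 2 * rho (mK S K)) :
    fo E S x (M - M') K u ξ = fo E S x M K u ξ - fo E S x M' K u ξ := by
  have hu' := (par_facts hPar hS hu).1
  have hc' := (hG _).co _ hu'
  have hρ' := hc'.pos
  have key : ∀ y, ‖y‖ ≤ rho (mK S (ot S K u)) * (45 / 100) →
      mm E S x (M - M') (ot S K u) (par S K u) y
        = mm E S x M (ot S K u) (par S K u) y - mm E S x M' (ot S K u) (par S K u) y := by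
    intro y hy
    obtain ⟨z, -, hz⟩ := hc'.val hI hy
    rw [mm_eq, mm_eq, mm_eq, hz _ (hM _ _ hu').1, hz _ (hM' _ _ hu').1,
      hz ((M - M') _ _) ((hM _ _ hu').1.sub (hM' _ _ hu').1)]
    rfl
  rw [fo_eq hu, fo_eq hu, fo_eq hu, key _ (arg_small hI hPar hS hG hu h1 h2).2.2.le,
    key 0 (by simp; positivity)]
  ring

end Pool.Agent.P.MP_cc4a10_gt.FoP
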