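import Mathlib

/-!
Definitions used by the final statement: embedded minimal surfaces in Euclidean three-space,
their intrinsic distance and completeness.
-/

open Set Filter Topology
open scoped ContDiff RealInnerProductSpace ENNReal

namespace Pool.Agent.P.MP_cc4a10_gt

/-- Euclidean three-space. -/
abbrev E3 := EuclideanSpace ℝ (Fin 3)

/-- Second derivative of `f` at `z` in the directions `a`, `b` of the parameter plane. -/
noncomputable def D2 (f : ℂ → E3) (z a b : ℂ) : E3 :=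
  fderiv ℝ (fun w => fderiv ℝ f w a) z b

/-- `f` is on `U` a smooth immersion with vanishing mean curvature: with `E, F, G` the first
fundamental form and `L, M, N` the second one for a normal vector, `G L - 2 F M + E N = 0`. -/
structure IsMinImm (U : Set ℂ) (f : ℂ → E3) : Prop where
  smooth : ContDiffOn ℝ ∞ f U
  imm : ∀ z ∈ U, Function.Injective (fderiv ℝ f z)
  mean : ∀ z ∈ U, ∀ n : E3, (∀ a, ⟪fderiv ℝ f z a, n⟫ = 0) →
    ⟪fderiv ℝ f z Complex.I, fderiv ℝ f z Complex.I⟫ * ⟪D2 f z 1 1, n⟫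
      - 2 * ⟪fderiv ℝ f z 1, fderiv ℝ f z Complex.I⟫ * ⟪D2 f z 1 Complex.I, n⟫
      + ⟪fderiv ℝ f z 1, fderiv ℝ f z 1⟫ * ⟪D2 f z Complex.I Complex.I, n⟫ = 0

/-- `M` is an embedded minimal surface: near each of its points it is the image of an open part
of the plane under a minimal immersion that is a topological embedding. -/
def IsMinSurf (M : Set E3) : Prop :=
  ∀ x ∈ M, ∃ (U : Set ℂ) (f : ℂ → E3) (W : Set E3), IsOpen U ∧ IsMinImm U f ∧
    IsEmbedding (U.domRestrict f) ∧ IsOpen W ∧ x ∈ W ∧ f '' U = M ∩ W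

/-- Intrinsic distance: infimum of the lengths of the continuous paths in `M` from `x` to `y`. -/
noncomputable def idist (M : Set E3) (x y : E3) : ℝ≥0∞ :=
  ⨅ (γ : ℝ → E3) (_ : ContinuousOn γ (Icc 0 1) ∧ MapsTo γ (Icc 0 1) M ∧ γ 0 = x ∧ γ 1 = y),
    eVariationOn γ (Icc 0 1)

/-- Every intrinsic Cauchy sequence of `M` converges intrinsically to a point of `M`. -/
def IsIComplete (M : Set E3) : Prop :=
  ∀ x : ℕ → E3, (∀ n, x n ∈ M) →
    (∀ ε : ℝ≥0∞, 0 < ε → ∃ N, ∀ m ≥ N, ∀ n ≥ N, idist M (x m) (x n) < ε) →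
    ∃ y ∈ M, Tendsto (fun n => idist M (x n) y) atTop (𝓝 0)

end Pool.Agent.P.MP_cc4a10_gt
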