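import Pool.Agent.P.MP_cc4a10_gt.St

/-!
High frequencies, algebraic part: roots, gap, determinant.
-/

open Set Filter Topology Complex Metric
open scoped ComplexConjugate Real

noncomputable section

namespace Pool.Agent.P.MP_cc4a10_gt.HighP

lemma exists_root (w : ℂ) (ρ : ℝ) (hρ : 0 < ρ) (h1 : ρ ^ 2 / 200 ≤ w.re)
    (h2 : 2 * |w.im| ≤ w.re) : ∃ Z : ℂ, Z ^ 2 = w ∧ ρ / 15 ≤ Z.re ∧ 4 * |Z.im| ≤ Z.re := by
  obtain ⟨Y, hY⟩ := IsAlgClosed.exists_pow_nat_eq w (n := 2) (by norm_num)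
  obtain ⟨Z, hZ, h0⟩ : ∃ Z : ℂ, Z ^ 2 = w ∧ 0 ≤ Z.re := by
    rcases le_total 0 Y.re with h | h
    · exact ⟨Y, hY, h⟩
    · exact ⟨-Y, by rw [neg_sq, hY], by simpa using h⟩
  have hre : w.re = Z.re ^ 2 - Z.im ^ 2 := by rw [← hZ, sq]; simp [sq]
  have him : w.im = 2 * Z.re * Z.im := by rw [← hZ, sq]; simp; ring
  have hx : ρ / 15 ≤ Z.re := by
    by_contra hc
    push Not at hc
    have : Z.re ^ 2 < (ρ / 15) ^ 2 := by nlinarith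
    nlinarith [sq_nonneg Z.im]
  have hx0 : 0 < Z.re := by linarith
  refine ⟨Z, hZ, hx, ?_⟩
  have h3 : |w.im| = 2 * Z.re * |Z.im| := by
    rw [him, abs_mul, abs_of_pos (by positivity : (0 : ℝ) < 2 * Z.re)]
  have h4 : Z.re * (4 * |Z.im|) ≤ Z.re * Z.re := by nlinarith [sq_nonneg Z.im]
  exact le_of_mul_le_mul_left h4 hx0

lemma root_le (e C : ℝ) (s : Sy) (Z : ℂ) (he0 : 0 ≤ e) (he : e ≤ 7) (hZ : Z ^ 2 = Om e s)
    (hp : ‖s.p‖ ≤ 38 / 10) (hc : ‖s.c‖ ≤ C) : ‖Z‖ ≤ 11 + C := by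
  have hD : ‖(e : ℂ) + s.p‖ ≤ 11 := by
    have := norm_add_le (e : ℂ) s.p
    rw [Complex.norm_real, Real.norm_of_nonneg he0] at this
    linarith
  have h1 : ‖Z‖ ^ 2 ≤ ‖(e : ℂ) + s.p‖ ^ 2 + ‖s.c‖ ^ 2 := by
    rw [← norm_pow, hZ, Om, ← norm_pow, ← norm_pow]
    exact norm_sub_le _ _
  have h0 := norm_nonneg s.c
  have h2 := norm_nonneg ((e : ℂ) + s.p)
  have h3 : ‖Z‖ ^ 2 ≤ (11 + C) ^ 2 := by nlinarith
  exact (pow_le_pow_iff_left₀ (norm_nonneg _) (by linarith) (by norm_num)).1 h3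

lemma gap_of (e C ρ η : ℝ) (s : Sy) (Z : ℂ) (he0 : 6875 / 1000 ≤ e) (he : e ≤ 7)
    (hZ : Z ^ 2 = Om e s) (hp : ‖s.p‖ ≤ 38 / 10) (hc : ‖s.c‖ ≤ C) (hρ : 0 < ρ)
    (hx : ρ / 15 ≤ Z.re) (hy : 4 * |Z.im| ≤ Z.re) (hη : 0 < η) (hη1 : η ≤ 1 / 10)
    (hη2 : η * (22 + C) ^ 2 ≤ ρ / 15) : Gap η e s Z := by
  have hZn := root_le e C s Z (by linarith) he hZ hp hc
  set D : ℂ := (e : ℂ) + s.p with hD
  have hDn : ‖D‖ ≤ 11 := by
    have := norm_add_le (e : ℂ) s.p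
    rw [Complex.norm_real, Real.norm_of_nonneg (by linarith)] at this
    linarith
  have hpr : |s.p.re| ≤ 38 / 10 := (abs_re_le_norm _).trans hp
  have hpi : |s.p.im| ≤ 38 / 10 := (abs_im_le_norm _).trans hp
  have hDr : D.re = e + s.p.re := by simp [hD]
  have hDi : D.im = s.p.im := by simp [hD]
  have hx0 : 0 < Z.re := by linarith
  have hpr' := abs_le.1 hpr
  have hW : ‖D + Z‖ ≤ 22 + C := by have := norm_add_le D Z; linarith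
  have hkey : ‖D - Z‖ ^ 2 + 8 * Z.re ≤ ‖D + Z‖ ^ 2 := by
    rw [Complex.sq_norm, Complex.sq_norm, normSq_apply, normSq_apply]
    simp only [sub_re, sub_im, add_re, add_im, hDr, hDi]
    have h1 : |s.p.im * Z.im| ≤ 38 / 10 * (Z.re / 4) := by
      rw [abs_mul]
      exact mul_le_mul hpi (by linarith) (abs_nonneg _) (by norm_num)
    have h2 := (abs_le.1 h1).1
    nlinarith
  have hc2 : ‖s.c‖ ^ 2 = ‖D + Z‖ * ‖D - Z‖ := by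
    rw [← norm_pow, ← norm_mul]
    congr 1
    have : Z ^ 2 = D ^ 2 - s.c ^ 2 := hZ
    linear_combination this
  have hW0 := norm_nonneg (D + Z)
  have hV0 := norm_nonneg (D - Z)
  have hW2 : η * ‖D + Z‖ ^ 2 ≤ Z.re := by
    have : ‖D + Z‖ ^ 2 ≤ (22 + C) ^ 2 := pow_le_pow_left₀ hW0 hW 2
    nlinarith
  have hV : ‖D - Z‖ ≤ (1 - η) ^ 2 * ‖D + Z‖ := by
    have h1 : 1 - 4 * η ≤ ((1 - η) ^ 2) ^ 2 := by nlinarith [sq_nonneg η, sq_nonneg (η * (2 - η))]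
    have h2 : ‖D - Z‖ ^ 2 ≤ ((1 - η) ^ 2 * ‖D + Z‖) ^ 2 := by
      rw [mul_pow]
      have := mul_le_mul_of_nonneg_right h1 (sq_nonneg ‖D + Z‖)
      nlinarith
    exact (pow_le_pow_iff_left₀ hV0 (by positivity) (by norm_num)).1 h2
  refine ⟨hZ, ?_, ?_⟩
  · have h2 : ‖s.c‖ ^ 2 ≤ ((1 - η) * ‖D + Z‖) ^ 2 := by
      rw [hc2, mul_pow]
      have := mul_le_mul_of_nonneg_left hV hW0
      nlinarith
    exact (pow_le_pow_iff_left₀ (norm_nonneg _) (mul_nonneg (by linarith) hW0)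
      (by norm_num)).1 h2
  · have h1 : (D + Z).re ≤ ‖D + Z‖ := re_le_norm _
    rw [add_re, hDr] at h1
    linarith

lemma det33 (a b c d e f g h k : ℂ) : Matrix.det !![a, b, c; d, e, f; g, h, k]
    = a * e * k - a * f * h - b * d * k + b * f * g + c * d * h - c * e * g := by
  rw [Matrix.det_fin_three]
  simp

lemma det_id (e : ℝ) (s s1 s2 : Sy) (Z z1 z2 : ℂ)
    (h1 : s1.p ^ 2 - s1.ch ^ 2 = z1 ^ 2) (h2 : s2.p ^ 2 - s2.ch ^ 2 = z2 ^ 2)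
    (h3 : s1.ch * s2.ch = e * s.p) (h4 : s.p = -I * (s1.p + s2.p))
    (h5 : z1 ^ 2 + z2 ^ 2 = (e : ℂ) ^ 2 + 2 * s1.p * s2.p) :
    det3 e s s1 s2 Z z1 z2 * ((z2 - s1.p) * (z1 - s2.p) - (z1 + z2) * (z2 - s1.p + (z1 - s2.p)))
      = -I * ((z2 - s1.p) * (z1 - s2.p) + I * Z * (z2 - s1.p + (z1 - s2.p))) * (e : ℂ) ^ 2
        * (s1.p + s2.p + z1 + z2) := by
  have hI : I ^ 2 = -1 := I_sq
  have hd : det3 e s s1 s2 Z z1 z2 = -(Z + s.p) * ((z1 + s1.p) * (z2 + s2.p) + (e : ℂ) ^ 2)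
      - I * (s1.ch ^ 2 * (z2 + s2.p) + s2.ch ^ 2 * (z1 + s1.p)) + 2 * e * (s1.ch * s2.ch) := by
    rw [det3, det33]
    linear_combination ((Z + s.p) * ((z1 + s1.p) * (z2 + s2.p)) + I * s1.ch ^ 2 * (z2 + s2.p)
      - 2 * e * s1.ch * s2.ch + I * s2.ch ^ 2 * (z1 + s1.p)) * hI
  have hc1 : s1.ch ^ 2 = s1.p ^ 2 - z1 ^ 2 := by linear_combination -h1
  have hc2 : s2.ch ^ 2 = s2.p ^ 2 - z2 ^ 2 := by linear_combination -h2
  set N1 := (z1 + s1.p) * (z2 + s2.p) + (e : ℂ) ^ 2 with hN1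
  set N2 := (z1 + s1.p) * (z2 + s2.p) * (z1 + z2) - (e : ℂ) ^ 2 * (s1.p + s2.p) with hN2
  have hd2 : det3 e s s1 s2 Z z1 z2 = -Z * N1 + I * N2 := by
    rw [hd, hc1, hc2, h3, h4, hN1, hN2]
    ring
  have hz : (s1.p ^ 2 - z1 ^ 2) * (s2.p ^ 2 - z2 ^ 2) + (e : ℂ) ^ 2 * (s1.p + s2.p) ^ 2 = 0 := by
    rw [← hc1, ← hc2, ← mul_pow, h3, h4]
    linear_combination ((e : ℂ) ^ 2 * (s1.p + s2.p) ^ 2) * hI
  have hr : N2 * (z2 - s1.p + (z1 - s2.p)) - (z2 - s1.p) * (z1 - s2.p) * N1 = 0 := by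
    rw [hN1, hN2]
    linear_combination hz + (z1 + s1.p) * (z2 + s2.p) * h5
  have hn : N2 - (z1 + z2) * N1 = -(e : ℂ) ^ 2 * (s1.p + s2.p + z1 + z2) := by
    rw [hN1, hN2]; ring
  rw [hd2]
  linear_combination (I * ((z2 - s1.p) * (z1 - s2.p) + I * Z * (z2 - s1.p + (z1 - s2.p)))) * hn
    + (Z - I * (z1 + z2)) * hr
    - (Z * (z2 - s1.p + (z1 - s2.p)) * (N2 - (z1 + z2) * N1)) * hI

end Pool.Agent.P.MP_cc4a10_gt.HighP
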