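import Pool.Agent.P.MP_cc4a10_gt.High1

/-!
High frequencies: lower bound of the determinant, small first child.
-/

open Set Filter Topology Complex Metric
open scoped ComplexConjugate Real

noncomputable section

namespace Pool.Agent.P.MP_cc4a10_gt.HighP

lemma le_of_sq_le {a b : ℝ} (hb : 0 ≤ b) (h : a ^ 2 ≤ b ^ 2) : a ≤ b :=
  (abs_le_of_sq_le_sq' h hb).2

lemma re_sq_le (z : ℂ) : (z ^ 2).re ≤ z.re ^ 2 := by
  rw [sq, mul_re]; nlinarith [mul_self_nonneg z.im]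

lemma det_lower (e M g : ℝ) (s s1 s2 : Sy) (Z z1 z2 : ℂ) (he : 6875 / 1000 ≤ e)
    (h1 : s1.p ^ 2 - s1.ch ^ 2 = z1 ^ 2) (h2 : s2.p ^ 2 - s2.ch ^ 2 = z2 ^ 2)
    (h3 : s1.ch * s2.ch = e * s.p) (h4 : s.p = -I * (s1.p + s2.p))
    (h5 : z1 ^ 2 + z2 ^ 2 = (e : ℂ) ^ 2 + 2 * s1.p * s2.p)
    (hp : ‖s.p‖ ≤ 38 / 10) (hp1 : ‖s1.p‖ ≤ 38 / 10) (hp2 : ‖s2.p‖ ≤ 38 / 10)
    (hx1 : 0 ≤ z1.re) (hx2 : 0 ≤ z2.re) (hM1 : ‖z1‖ ≤ M) (hM2 : ‖z2‖ ≤ M) (hg0 : 0 ≤ g)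
    (hg : g ≤ ‖(z2 - s1.p) * (z1 - s2.p) + I * Z * (z2 - s1.p + (z1 - s2.p))‖) :
    g ≤ (M + 4) ^ 2 * ‖det3 e s s1 s2 Z z1 z2‖ := by
  have hid := congrArg (fun w : ℂ => ‖w‖) (det_id e s s1 s2 Z z1 z2 h1 h2 h3 h4 h5)
  simp only [norm_mul, norm_neg, norm_I, one_mul, norm_pow, Complex.norm_real,
    Real.norm_eq_abs, sq_abs] at hid
  have hM0 : 0 ≤ M := (norm_nonneg _).trans hM1
  have hs : ‖s1.p + s2.p‖ ≤ 38 / 10 := by
    have : ‖s.p‖ = ‖s1.p + s2.p‖ := by rw [h4, norm_mul, norm_neg, norm_I, one_mul]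
    linarith
  have hre : 42 / 10 ≤ z1.re + z2.re := by
    have e1 := congrArg Complex.re h5
    have e2 : ((e : ℂ) ^ 2).re = e ^ 2 := by rw [← ofReal_pow, ofReal_re]
    have e3 : |(2 * s1.p * s2.p).re| ≤ 2 * (38 / 10) * (38 / 10) := by
      refine (abs_re_le_norm _).trans ?_
      rw [norm_mul, norm_mul]
      have : ‖(2 : ℂ)‖ = 2 := by simp
      rw [this]
      exact mul_le_mul (by linarith) hp2 (norm_nonneg _) (by norm_num)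
    rw [add_re, add_re, e2] at e1
    have e4 := re_sq_le z1
    have e5 := re_sq_le z2
    have e6 := (abs_le.1 e3).1
    apply le_of_sq_le (by linarith)
    nlinarith [mul_nonneg hx1 hx2]
  have hlow : 4 / 10 ≤ ‖s1.p + s2.p + z1 + z2‖ := by
    have e1 : (s1.p + s2.p + z1 + z2).re ≤ ‖s1.p + s2.p + z1 + z2‖ := re_le_norm _
    have e2 := (abs_le.1 ((abs_re_le_norm (s1.p + s2.p)).trans hs)).1
    rw [add_re, add_re] at e1
    linarith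
  have ha : ‖z2 - s1.p‖ ≤ M + 4 := by have := norm_sub_le z2 s1.p; linarith
  have hb : ‖z1 - s2.p‖ ≤ M + 4 := by have := norm_sub_le z1 s2.p; linarith
  have hup : ‖(z2 - s1.p) * (z1 - s2.p) - (z1 + z2) * (z2 - s1.p + (z1 - s2.p))‖
      ≤ 5 * (M + 4) ^ 2 := by
    refine (norm_sub_le _ _).trans ?_
    rw [norm_mul, norm_mul]
    have e1 : ‖z2 - s1.p‖ * ‖z1 - s2.p‖ ≤ (M + 4) * (M + 4) :=
      mul_le_mul ha hb (norm_nonneg _) (by linarith)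
    have e2 : ‖z1 + z2‖ * ‖z2 - s1.p + (z1 - s2.p)‖ ≤ (2 * (M + 4)) * (2 * (M + 4)) :=
      mul_le_mul (by have := norm_add_le z1 z2; linarith)
        (by have := norm_add_le (z2 - s1.p) (z1 - s2.p); linarith) (norm_nonneg _) (by linarith)
    nlinarith
  have e1 := mul_le_mul_of_nonneg_left hup (norm_nonneg (det3 e s s1 s2 Z z1 z2))
  have e2 : g * 47 * (4 / 10) ≤
      ‖(z2 - s1.p) * (z1 - s2.p) + I * Z * (z2 - s1.p + (z1 - s2.p))‖ * e ^ 2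
        * ‖s1.p + s2.p + z1 + z2‖ :=
    mul_le_mul (mul_le_mul hg (by nlinarith) (by norm_num) (norm_nonneg _)) hlow (by norm_num)
      (by positivity)
  nlinarith

lemma G_small (e : ℝ) (p1 p2 Z z1 z2 : ℂ) (he : 6875 / 1000 ≤ e)
    (hZ : Z ^ 2 = -4 * p1 * p2) (h5 : z1 ^ 2 + z2 ^ 2 = (e : ℂ) ^ 2 + 2 * p1 * p2)
    (hp1 : 2925 / 1000 ≤ ‖p1‖) (hp1' : ‖p1‖ ≤ 336 / 100)
    (hz1 : ‖z1‖ ^ 2 ≤ 216 / 100) (hZn : ‖Z‖ ^ 2 ≤ 432 / 100)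
    (hy : 4 * |Z.im| ≤ Z.re) (hy1 : 4 * |z1.im| ≤ z1.re) (hx2 : 0 ≤ z2.re) :
    4 / 10 * ‖Z‖ ≤ ‖(z2 - p1) * (z1 - p2) + I * Z * (z2 - p1 + (z1 - p2))‖ := by
  have hZ0 := norm_nonneg Z
  have hZb : ‖Z‖ ≤ 208 / 100 := le_of_sq_le (by norm_num) (by linarith)
  have hzb : ‖z1‖ ≤ 147 / 100 := le_of_sq_le (by norm_num) (by linarith)
  have hpp : ‖Z‖ ^ 2 = 4 * ‖p1‖ * ‖p2‖ := by
    rw [← norm_pow, hZ, norm_mul, norm_mul]; simp
  have hp2 : ‖p2‖ ≤ 178 / 1000 * ‖Z‖ := by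
    have := norm_nonneg p2
    nlinarith
  have hx2' : 655 / 100 ≤ z2.re := by
    have e0 : z2 ^ 2 = (e : ℂ) ^ 2 + (-(Z ^ 2 / 2) - z1 ^ 2) := by
      linear_combination h5 + hZ / 2
    have e1 := congrArg Complex.re e0
    have e2 : ((e : ℂ) ^ 2).re = e ^ 2 := by rw [← ofReal_pow, ofReal_re]
    have e3 : |(-(Z ^ 2 / 2) - z1 ^ 2).re| ≤ ‖Z‖ ^ 2 / 2 + ‖z1‖ ^ 2 := by
      refine (abs_re_le_norm _).trans ((norm_sub_le _ _).trans ?_)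
      rw [norm_neg, norm_div, norm_pow, norm_pow]; simp
    rw [add_re, e2] at e1
    have e4 := re_sq_le z2
    have e6 := (abs_le.1 e3).1
    apply le_of_sq_le hx2
    nlinarith
  have ha : 319 / 100 ≤ ‖z2 - p1‖ := by
    have e1 := re_le_norm z2
    have e2 := norm_sub_norm_le z2 p1
    linarith
  have hw : 882 / 1000 * ‖Z‖ ≤ ‖z1 + I * Z‖ := by
    have e1 : ‖(z1 + I * Z) * (1 - 4 * I)‖ = ‖z1 + I * Z‖ * ‖(1 - 4 * I : ℂ)‖ := norm_mul _ _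
    have e2 : ‖(1 - 4 * I : ℂ)‖ ^ 2 = 17 := by
      rw [Complex.sq_norm, normSq_apply]; simp; norm_num
    have e3 := re_le_norm ((z1 + I * Z) * (1 - 4 * I))
    have e4 : ((z1 + I * Z) * (1 - 4 * I)).re = z1.re - Z.im + 4 * (z1.im + Z.re) := by
      simp; ring
    have e5 : ‖Z‖ ^ 2 = Z.re ^ 2 + |Z.im| ^ 2 := by
      rw [Complex.sq_norm, normSq_apply, sq_abs]; ring
    have e6 := neg_abs_le z1.im
    have e7 := le_abs_self Z.im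
    have e8 := abs_nonneg Z.im
    have e9 : 4 * Z.re - |Z.im| ≤ ‖z1 + I * Z‖ * ‖(1 - 4 * I : ℂ)‖ := by linarith
    have e10 : (4 * Z.re - |Z.im|) ^ 2 ≤ (‖z1 + I * Z‖ * ‖(1 - 4 * I : ℂ)‖) ^ 2 :=
      pow_le_pow_left₀ (by linarith) e9 2
    rw [mul_pow, e2] at e10
    apply le_of_sq_le (norm_nonneg _)
    rw [mul_pow, e5]
    nlinarith [mul_nonneg e8 (sub_nonneg.2 hy), mul_nonneg (by linarith : 0 ≤ Z.re) (sub_nonneg.2 hy)]
  have hG : (z2 - p1) * (z1 - p2) + I * Z * (z2 - p1 + (z1 - p2))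
      = (z2 - p1) * (z1 + I * Z - p2) - -(I * Z * (z1 - p2)) := by ring
  rw [hG]
  refine le_trans ?_ (norm_sub_norm_le _ _)
  rw [norm_neg, norm_mul, norm_mul, norm_mul, norm_I, one_mul]
  have e1 : 704 / 1000 * ‖Z‖ ≤ ‖z1 + I * Z - p2‖ := by
    have := norm_sub_norm_le (z1 + I * Z) p2
    linarith
  have e2 : ‖z1 - p2‖ ≤ 1841 / 1000 := by
    have := norm_sub_le z1 p2
    linarith
  have e3 : 319 / 100 * (704 / 1000 * ‖Z‖) ≤ ‖z2 - p1‖ * ‖z1 + I * Z - p2‖ :=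
    mul_le_mul ha e1 (by positivity) (norm_nonneg _)
  have e4 := mul_le_mul_of_nonneg_left e2 hZ0
  linarith

lemma Om_small (hS : S_NumS) (he1 : 6875 / 1000 ≤ eE) (he : eE ≤ 6876 / 1000) (θ : ℂ) (h0 : θ ≠ 0)
    (hr : ‖θ‖ ^ 2 ≤ 72 / 100) :
    ‖OmE θ‖ ≤ 6 * ‖θ‖ ^ 2 ∧ π - 6 / 10 * ‖θ‖ ^ 2 ≤ ‖pE θ‖ ∧ ‖pE θ‖ ≤ π + 6 / 10 * ‖θ‖ ^ 2 := by
  have he0 : 0 ≤ eE := by linarith
  obtain ⟨h1, h2⟩ := hS θ h0 (le_of_sq_le (by norm_num) (by linarith))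
  set R : ℝ := ‖θ‖ ^ 2 with hR
  have hR0 : 0 ≤ R := by positivity
  set β : ℂ := conj θ / θ with hβ
  have hβn : ‖β‖ = 1 := by
    rw [hβ, norm_div, RCLike.norm_conj, div_self (norm_ne_zero_iff.2 h0)]
  have hc2 : conj θ ^ 2 = β * (R : ℂ) := by
    have : (R : ℂ) = θ * conj θ := by
      rw [hR, Complex.mul_conj, Complex.normSq_eq_norm_sq]
    rw [this, hβ]; field_simp
  have hpb : π * conj θ / θ = π * β := by rw [hβ]; ring
  rw [hpb] at h1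
  have hcast : ((‖θ‖ : ℂ)) ^ 2 = (R : ℂ) := by rw [hR]; push_cast; ring
  rw [hc2, hcast] at h2
  have hπ1 := Real.pi_gt_d4
  have hπ2 := Real.pi_lt_d4
  have hπn : ‖(π : ℂ) * β‖ = π := by
    rw [norm_mul, hβn, Complex.norm_real, Real.norm_of_nonneg Real.pi_pos.le, mul_one]
  have hp1 : π - 6 / 10 * R ≤ ‖pE θ‖ := by
    have := norm_sub_le (pE θ + π * β) (pE θ)
    rw [add_sub_cancel_left, hπn] at this
    linarith
  have hp2 : ‖pE θ‖ ≤ π + 6 / 10 * R := by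
    have := norm_sub_le (pE θ + π * β) (π * β)
    rw [add_sub_cancel_right, hπn] at this
    linarith
  refine ⟨?_, hp1, hp2⟩
  set dp := pE θ + π * β with hdp
  set dB := eE + pE θ - cE θ - (2735 / 10000 * (R : ℂ) + β * R / 8) with hdB
  set B0 : ℂ := 2735 / 10000 + β / 8 with hB0
  set B : ℂ := eE + pE θ - cE θ with hB
  have hBe : B = R * B0 + dB := by rw [hdB, hB0]; ring
  have hOm : OmE θ = R * (2 * (2735 / 10000 * eE + ((eE / 8 - 2735 / 10000 * π : ℝ) : ℂ) * β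
      - π / 8 * β ^ 2)) + 2 * R * B0 * dp + 2 * dB * (eE + pE θ) - B ^ 2 := by
    have : OmE θ = 2 * B * (eE + pE θ) - B ^ 2 := by rw [OmE, hB]; ring
    rw [this]
    have e2 : pE θ = dp - π * β := by rw [hdp]; ring
    have e3 : 2 * B * (eE + pE θ) = 2 * (R * B0) * (eE + (dp - π * β))
        + 2 * dB * (eE + pE θ) := by rw [← e2, hBe]; ring
    rw [e3, hB0]; push_cast; ring
  have hRn : ‖(R : ℂ)‖ = R := by rw [Complex.norm_real, Real.norm_of_nonneg hR0]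
  have hen : ‖(eE : ℂ)‖ = eE := by rw [Complex.norm_real, Real.norm_of_nonneg he0]
  have hB0n : ‖B0‖ ≤ 4 / 10 := by
    have := norm_add_le (2735 / 10000 : ℂ) (β / 8)
    rw [norm_div β, hβn] at this
    have e1 : ‖(2735 / 10000 : ℂ)‖ = 2735 / 10000 := by simp
    have e2 : ‖(8 : ℂ)‖ = 8 := by simp
    rw [e1, e2] at this
    rw [hB0]
    linarith
  have hdBn : ‖dB‖ ≤ 28 / 1000 * R := by
    refine h2.trans (mul_le_mul_of_nonneg_right (by linarith) hR0)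
  have hBn : ‖B‖ ≤ 428 / 1000 * R := by
    have := norm_add_le ((R : ℂ) * B0) dB
    rw [← hBe, norm_mul, hRn] at this
    nlinarith
  have hm : ‖2 * (2735 / 10000 * (eE : ℂ) + ((eE / 8 - 2735 / 10000 * π : ℝ) : ℂ) * β
      - π / 8 * β ^ 2)‖ ≤ 48 / 10 := by
    rw [norm_mul]
    have e2 : ‖(2 : ℂ)‖ = 2 := by simp
    have e3 : ‖2735 / 10000 * (eE : ℂ)‖ = 2735 / 10000 * eE := by rw [norm_mul, hen]; simp
    have e4 : ‖((eE / 8 - 2735 / 10000 * π : ℝ) : ℂ) * β‖ ≤ 1 / 100 := by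
      rw [norm_mul, hβn, mul_one, Complex.norm_real, Real.norm_eq_abs, abs_le]
      constructor <;> linarith
    have e5 : ‖(π : ℂ) / 8 * β ^ 2‖ = π / 8 := by
      rw [norm_mul, norm_pow, hβn, norm_div, Complex.norm_real,
        Real.norm_of_nonneg Real.pi_pos.le]
      simp
    have e6 := norm_sub_le (2735 / 10000 * (eE : ℂ) + ((eE / 8 - 2735 / 10000 * π : ℝ) : ℂ) * β)
      ((π : ℂ) / 8 * β ^ 2)
    have e7 := norm_add_le (2735 / 10000 * (eE : ℂ)) (((eE / 8 - 2735 / 10000 * π : ℝ) : ℂ) * β)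
    rw [e2]
    linarith
  have t1 : ‖(R : ℂ) * (2 * (2735 / 10000 * eE + ((eE / 8 - 2735 / 10000 * π : ℝ) : ℂ) * β
      - π / 8 * β ^ 2))‖ ≤ 48 / 10 * R := by
    rw [norm_mul, hRn]; nlinarith
  have t2 : ‖2 * (R : ℂ) * B0 * dp‖ ≤ 35 / 100 * R := by
    rw [norm_mul, norm_mul, norm_mul, hRn]
    have e2 : ‖(2 : ℂ)‖ = 2 := by simp
    rw [e2]
    have e3 : ‖B0‖ * ‖dp‖ ≤ 4 / 10 * (6 / 10 * (72 / 100)) :=
      mul_le_mul hB0n (by linarith) (norm_nonneg _) (by norm_num)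
    nlinarith
  have t3 : ‖2 * dB * (eE + pE θ)‖ ≤ 6 / 10 * R := by
    rw [norm_mul, norm_mul]
    have e2 : ‖(2 : ℂ)‖ = 2 := by simp
    rw [e2]
    have e3 : ‖(eE : ℂ) + pE θ‖ ≤ 105 / 10 := by
      have := norm_add_le (eE : ℂ) (pE θ)
      linarith
    have e4 : ‖dB‖ * ‖(eE : ℂ) + pE θ‖ ≤ 28 / 1000 * R * (105 / 10) :=
      mul_le_mul hdBn e3 (norm_nonneg _) (by positivity)
    nlinarith
  have t4 : ‖B ^ 2‖ ≤ 14 / 100 * R := by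
    rw [norm_pow]
    have := pow_le_pow_left₀ (norm_nonneg B) hBn 2
    nlinarith
  rw [hOm]
  refine (norm_sub_le _ _).trans ?_
  have := norm_add₃_le (a := (R : ℂ) * (2 * (2735 / 10000 * eE
    + ((eE / 8 - 2735 / 10000 * π : ℝ) : ℂ) * β - π / 8 * β ^ 2))) (b := 2 * (R : ℂ) * B0 * dp)
    (c := 2 * dB * (eE + pE θ))
  linarith

end Pool.Agent.P.MP_cc4a10_gt.HighP
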