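import Pool.Agent.P.MP_cc4a10_gt.St

/-!
Package KerG, part 1: mean value tools and the local holomorphic form of the potential kernel.
-/

open Set Filter Topology Complex Metric
open scoped ComplexConjugate Real

noncomputable section

namespace Pool.Agent.P.MP_cc4a10_gt.KerGP

theorem mv {s : Set ℂ} (hs : Convex ℝ s) {f f' : ℂ → ℂ} (hf : ∀ z ∈ s, HasDerivAt f (f' z) z)
    {M : ℝ} (hM : ∀ z ∈ s, ‖f' z‖ ≤ M) {x y : ℂ} (hx : x ∈ s) (hy : y ∈ s) :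
    ‖f y - f x‖ ≤ M * ‖y - x‖ :=
  hs.norm_image_sub_le_of_norm_hasDerivWithin_le (fun z hz => (hf z hz).hasDerivWithinAt) hM hx hy

/-- Double difference. -/
theorem ddiff {s : Set ℂ} (hs : Convex ℝ s) {f f1 f2 : ℂ → ℂ}
    (hf : ∀ z ∈ s, HasDerivAt f (f1 z) z) (hf1 : ∀ z ∈ s, HasDerivAt f1 (f2 z) z)
    {M : ℝ} (hM : ∀ z ∈ s, ‖f2 z‖ ≤ M) {p q δ : ℂ} (h1 : p ∈ s) (h2 : q ∈ s) (h3 : p + δ ∈ s)
    (h4 : q + δ ∈ s) : ‖(f (q + δ) - f q) - (f (p + δ) - f p)‖ ≤ M * ‖δ‖ * ‖q - p‖ := by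
  refine mv (s := s ∩ (fun z => z + δ) ⁻¹' s) (hs.inter (hs.translate_preimage_left δ))
    (f := fun z => f (z + δ) - f z) (f' := fun z => f1 (z + δ) - f1 z) (fun z hz => ?_)
    (fun z hz => ?_) ⟨h1, h3⟩ ⟨h2, h4⟩
  · exact ((hf _ hz.2).comp_add_const z δ).sub (hf z hz.1)
  · have := mv hs hf1 hM hz.1 hz.2
    simpa using this

/-- Second order remainder, change of the increment. -/
theorem rem_e {s : Set ℂ} (hs : Convex ℝ s) {f f1 f2 : ℂ → ℂ}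
    (hf : ∀ z ∈ s, HasDerivAt f (f1 z) z) (hf1 : ∀ z ∈ s, HasDerivAt f1 (f2 z) z)
    {M : ℝ} (hM : ∀ z ∈ s, ‖f2 z‖ ≤ M) {p e e' : ℂ} {r : ℝ} (h1 : p ∈ s) (h2 : p + e ∈ s)
    (h3 : p + e' ∈ s) (he : ‖e‖ ≤ r) (he' : ‖e'‖ ≤ r) :
    ‖(f (p + e') - f p - f1 p * e') - (f (p + e) - f p - f1 p * e)‖ ≤ M * r * ‖e' - e‖ := by
  have hM0 : 0 ≤ M := (norm_nonneg _).trans (hM p h1)
  have := mv (s := s ∩ closedBall p r) (hs.inter (convex_closedBall p r))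
    (f := fun z => f z - f1 p * z) (f' := fun z => f1 z - f1 p) (M := M * r) (fun z hz => ?_)
    (fun z hz => ?_) (x := p + e) (y := p + e') ⟨h2, by simpa using he⟩ ⟨h3, by simpa using he'⟩
  · have e1 : f (p + e') - f p - f1 p * e' - (f (p + e) - f p - f1 p * e)
        = f (p + e') - f1 p * (p + e') - (f (p + e) - f1 p * (p + e)) := by ring
    rw [e1]; rwa [add_sub_add_left_eq_sub] at this
  · exact ((hf z hz.1).sub ((hasDerivAt_id z).const_mul (f1 p))).congr_deriv (by simp)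
  · refine (mv hs hf1 hM h1 hz.1).trans ?_
    have := mem_closedBall_iff_norm.1 hz.2
    gcongr

/-- Second order remainder. -/
theorem rem {s : Set ℂ} (hs : Convex ℝ s) {f f1 f2 : ℂ → ℂ}
    (hf : ∀ z ∈ s, HasDerivAt f (f1 z) z) (hf1 : ∀ z ∈ s, HasDerivAt f1 (f2 z) z)
    {M : ℝ} (hM : ∀ z ∈ s, ‖f2 z‖ ≤ M) {p e : ℂ} (h1 : p ∈ s) (h2 : p + e ∈ s) :
    ‖f (p + e) - f p - f1 p * e‖ ≤ M * ‖e‖ ^ 2 := by
  have := rem_e hs hf hf1 hM (e := 0) (e' := e) (r := ‖e‖) h1 (by simpa using h1) h2 (by simp)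
    le_rfl
  simpa [sq, mul_assoc] using this

/-- Second order remainder, change of the base point. -/
theorem rem_p {s : Set ℂ} (hs : Convex ℝ s) {f f1 f2 f3 : ℂ → ℂ}
    (hf : ∀ z ∈ s, HasDerivAt f (f1 z) z) (hf1 : ∀ z ∈ s, HasDerivAt f1 (f2 z) z)
    (hf2 : ∀ z ∈ s, HasDerivAt f2 (f3 z) z)
    {M : ℝ} (hM : ∀ z ∈ s, ‖f3 z‖ ≤ M) {p q e : ℂ} (h1 : p ∈ s) (h2 : q ∈ s) (h3 : p + e ∈ s)
    (h4 : q + e ∈ s) :
    ‖(f (q + e) - f q - f1 q * e) - (f (p + e) - f p - f1 p * e)‖ ≤ M * ‖e‖ ^ 2 * ‖q - p‖ := by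
  refine mv (s := s ∩ (fun z => z + e) ⁻¹' s) (hs.inter (hs.translate_preimage_left e))
    (f := fun z => f (z + e) - f z - f1 z * e) (f' := fun z => f1 (z + e) - f1 z - f2 z * e)
    (fun z hz => ?_) (fun z hz => ?_) ⟨h1, h3⟩ ⟨h2, h4⟩
  · exact (((hf _ hz.2).comp_add_const z e).sub (hf z hz.1)).sub ((hf1 z hz.1).mul_const e)
  · exact rem hs hf1 hf2 hM hz.1 hz.2

theorem hasDerivAt_iter (E : Ell) {μ : ℂ} (hμ : ‖μ‖ ≤ 1 / 100) (k : ℕ) {w : ℂ}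
    (hw : ‖w‖ ≤ 9 / 10) :
    HasDerivAt (iteratedDeriv k (E.F μ)) (iteratedDeriv (k + 1) (E.F μ) w) w := by
  have ha : AnalyticAt ℂ (E.F μ) w :=
    (E.hol μ hμ).analyticAt (isOpen_ball.mem_nhds (by simp; linarith))
  rw [iteratedDeriv_succ, iteratedDeriv_eq_iterate]
  exact (ha.iterated_deriv k).differentiableAt.hasDerivAt

theorem bE_bd {μ : ℂ} (hμ : ‖μ‖ ≤ 1 / 100) : 0 ≤ bE μ ∧ bE μ ≤ 4 := by
  have h0 := norm_nonneg μ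
  have h1 : ‖μ‖ ^ 2 ≤ 1 / 10000 := by nlinarith
  have h2 := Real.pi_lt_d2
  have h3 := Real.pi_pos
  unfold bE
  constructor
  · apply div_nonneg h3.le; linarith
  · rw [div_le_iff₀ (by linarith)]; linarith

/-- Local holomorphic form of the kernels near a point `p` that is not the pole. -/
theorem exists_loc (E : Ell) {μ : ℂ} (hμ : ‖μ‖ ≤ 1 / 100) {C : ℝ}
    (hC : ∀ k ≤ 4, ∀ w : ℂ, ‖w‖ ≤ 9 / 10 → ‖iteratedDeriv k (E.F μ) w‖ ≤ C)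
    {p : ℂ} (hp0 : p ≠ 0) (hp : ‖p‖ ≤ 72 / 100) :
    ∃ f f1 f2 f3 : ℂ → ℂ, ∀ z ∈ closedBall p (‖p‖ / 5),
      HasDerivAt f (f1 z) z ∧ HasDerivAt f1 (f2 z) z ∧ HasDerivAt f2 (f3 z) z ∧
      ‖f2 z‖ ≤ (4 + C) / ‖p‖ ^ 2 ∧ ‖f3 z‖ ≤ (4 + C) / ‖p‖ ^ 3 ∧
      E.Gr μ z = Real.log ‖p‖ + (f z).re - bE μ * ‖z‖ ^ 2 / 2 ∧
      E.Z μ z = f1 z - bE μ * conj z := by
  have hP : 0 < ‖p‖ := norm_pos_iff.2 hp0
  have hC0 : 0 ≤ C := (norm_nonneg _).trans (hC 0 (by norm_num) 0 (by norm_num))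
  refine ⟨fun z => log (z / p) + iteratedDeriv 0 (E.F μ) z,
    fun z => z⁻¹ + iteratedDeriv 1 (E.F μ) z, fun z => -(z ^ 2)⁻¹ + iteratedDeriv 2 (E.F μ) z,
    fun z => 2 * (z ^ 3)⁻¹ + iteratedDeriv 3 (E.F μ) z, fun z hz => ?_⟩
  have hzp : ‖z - p‖ ≤ ‖p‖ / 5 := mem_closedBall_iff_norm.1 hz
  have hz1 : ‖z‖ ≤ ‖p‖ * (6 / 5) := by
    have := norm_add_le (z - p) p
    rw [sub_add_cancel] at this; linarith
  have hz2 : ‖p‖ * (4 / 5) ≤ ‖z‖ := by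
    have := norm_sub_le z (z - p)
    rw [sub_sub_cancel] at this; linarith
  have hZ : 0 < ‖z‖ := by linarith
  have hz0 : z ≠ 0 := norm_pos_iff.1 hZ
  have hz9 : ‖z‖ < 9 / 10 := by linarith
  have hsl : z / p ∈ slitPlane := by
    have : z / p = 1 + (z - p) / p := by field_simp; ring
    rw [this]
    apply mem_slitPlane_of_norm_lt_one
    rw [norm_div, div_lt_one hP]; linarith
  have hp1 : ‖p‖ ≤ 1 := by linarith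
  refine ⟨?_, ?_, ?_, ?_, ?_, ?_, ?_⟩
  · refine HasDerivAt.add ?_ (hasDerivAt_iter E hμ 0 hz9.le)
    refine (((hasDerivAt_id' z).div_const p).clog hsl).congr_deriv ?_
    field_simp
  · exact (hasDerivAt_inv hz0).add (hasDerivAt_iter E hμ 1 hz9.le)
  · refine HasDerivAt.add ?_ (hasDerivAt_iter E hμ 2 hz9.le)
    refine (((hasDerivAt_pow 2 z).inv (pow_ne_zero 2 hz0)).neg).congr_deriv ?_
    norm_num; field_simp
  · refine (norm_add_le _ _).trans ?_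
    have h1 := hC 2 (by norm_num) z hz9.le
    have h2 : ‖-(z ^ 2)⁻¹‖ ≤ 4 / ‖p‖ ^ 2 := by
      rw [norm_neg, norm_inv, norm_pow, inv_eq_one_div, div_le_div_iff₀ (by positivity)
        (by positivity)]
      nlinarith
    have h3 : C ≤ C / ‖p‖ ^ 2 := le_div_self hC0 (by positivity) (pow_le_one₀ hP.le hp1)
    rw [add_div]; linarith
  · refine (norm_add_le _ _).trans ?_
    have h1 := hC 3 (by norm_num) z hz9.le
    have h2 : ‖2 * (z ^ 3)⁻¹‖ ≤ 4 / ‖p‖ ^ 3 := by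
      rw [norm_mul, norm_inv, norm_pow, ← div_eq_mul_inv, div_le_div_iff₀ (by positivity)
        (by positivity)]
      have : (‖p‖ * (4 / 5)) ^ 3 ≤ ‖z‖ ^ 3 := by gcongr
      have h4 : 0 < ‖p‖ ^ 3 := by positivity
      simp only [Complex.norm_ofNat]
      nlinarith
    have h3 : C ≤ C / ‖p‖ ^ 3 := le_div_self hC0 (by positivity) (pow_le_one₀ hP.le hp1)
    rw [add_div]; linarith
  · rw [E.Gloc μ hμ z hz9, add_re, log_re, norm_div, Real.log_div hZ.ne' hP.ne']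
    simp only [iteratedDeriv_zero]; ring
  · rw [E.Zloc μ hμ z hz9]; simp

theorem norm_add_sq' (p e : ℂ) : ‖p + e‖ ^ 2 = ‖p‖ ^ 2 + 2 * (conj p * e).re + ‖e‖ ^ 2 := by
  simp only [Complex.sq_norm, normSq_apply, add_re, add_im, mul_re, conj_re, conj_im]; ring

/-- Second order remainder of the potential kernel. -/
def Rm (E : Ell) (μ p e : ℂ) : ℝ := E.Gr μ (p + e) - E.Gr μ p - (E.Z μ p * e).re

theorem Rm_eq {E : Ell} {μ p e : ℂ} {a : ℝ} {f f1 : ℂ → ℂ}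
    (h1 : E.Gr μ p = a + (f p).re - bE μ * ‖p‖ ^ 2 / 2)
    (h2 : E.Gr μ (p + e) = a + (f (p + e)).re - bE μ * ‖p + e‖ ^ 2 / 2)
    (h3 : E.Z μ p = f1 p - bE μ * conj p) :
    Rm E μ p e = (f (p + e) - f p - f1 p * e).re - bE μ * ‖e‖ ^ 2 / 2 := by
  rw [Rm, h1, h2, h3, norm_add_sq', sub_mul, mul_assoc (bE μ : ℂ)]
  simp only [sub_re, re_ofReal_mul]; ring

theorem Rm_le (E : Ell) {μ : ℂ} (hμ : ‖μ‖ ≤ 1 / 100) {C : ℝ}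
    (hC : ∀ k ≤ 4, ∀ w : ℂ, ‖w‖ ≤ 9 / 10 → ‖iteratedDeriv k (E.F μ) w‖ ≤ C)
    {p e : ℂ} (hp0 : p ≠ 0) (hp : ‖p‖ ≤ 72 / 100) (he : ‖e‖ ≤ ‖p‖ / 5) :
    |Rm E μ p e| ≤ (6 + C) * ‖e‖ ^ 2 / ‖p‖ ^ 2 := by
  obtain ⟨f, f1, f2, f3, h⟩ := exists_loc E hμ hC hp0 hp
  have hP : 0 < ‖p‖ := norm_pos_iff.2 hp0
  have m1 : p ∈ closedBall p (‖p‖ / 5) := mem_closedBall_self (by positivity)
  have m2 : p + e ∈ closedBall p (‖p‖ / 5) := by simpa using he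
  rw [Rm_eq (h p m1).2.2.2.2.2.1 (h _ m2).2.2.2.2.2.1 (h p m1).2.2.2.2.2.2]
  have h1 := rem (convex_closedBall _ _) (fun z hz => (h z hz).1) (fun z hz => (h z hz).2.1)
    (fun z hz => (h z hz).2.2.2.1) m1 m2
  have h2 := (abs_re_le_norm _).trans h1
  obtain ⟨b0, b4⟩ := bE_bd hμ
  have h3 : |bE μ * ‖e‖ ^ 2 / 2| ≤ 2 * ‖e‖ ^ 2 / ‖p‖ ^ 2 := by
    rw [abs_of_nonneg (by positivity)]
    refine le_trans ?_ (le_div_self (by positivity) (by positivity)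
      (pow_le_one₀ hP.le (by linarith)))
    nlinarith [sq_nonneg ‖e‖]
  refine (abs_sub _ _).trans ((add_le_add h2 h3).trans (le_of_eq ?_))
  ring

theorem Rm_sub_le (E : Ell) {μ : ℂ} (hμ : ‖μ‖ ≤ 1 / 100) {C : ℝ}
    (hC : ∀ k ≤ 4, ∀ w : ℂ, ‖w‖ ≤ 9 / 10 → ‖iteratedDeriv k (E.F μ) w‖ ≤ C)
    {p q e e' : ℂ} (hp0 : p ≠ 0) (hp : ‖p‖ ≤ 72 / 100) (he : ‖q - p‖ + ‖e‖ ≤ ‖p‖ / 5)
    (he' : ‖q - p‖ + ‖e'‖ ≤ ‖p‖ / 5) :
    |Rm E μ q e' - Rm E μ p e| ≤ (8 + C) * ((‖e‖ * ‖e' - e‖ + ‖e' - e‖ ^ 2) / ‖p‖ ^ 2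
      + ‖e‖ ^ 2 * ‖q - p‖ / ‖p‖ ^ 3) := by
  obtain ⟨f, f1, f2, f3, h⟩ := exists_loc E hμ hC hp0 hp
  have hC0 : 0 ≤ C := (norm_nonneg _).trans (hC 0 (by norm_num) 0 (by norm_num))
  have hP : 0 < ‖p‖ := norm_pos_iff.2 hp0
  have n1 := norm_nonneg (q - p)
  have n2 := norm_nonneg e
  have n3 := norm_nonneg e'
  have n4 := norm_nonneg (e' - e)
  have m1 : p ∈ closedBall p (‖p‖ / 5) := mem_closedBall_self (by positivity)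
  have m2 : p + e ∈ closedBall p (‖p‖ / 5) := by
    rw [mem_closedBall_iff_norm, add_sub_cancel_left]; linarith
  have m3 : q ∈ closedBall p (‖p‖ / 5) := by rw [mem_closedBall_iff_norm]; linarith
  have m4 : ∀ e : ℂ, ‖q - p‖ + ‖e‖ ≤ ‖p‖ / 5 → q + e ∈ closedBall p (‖p‖ / 5) := fun e he => by
    rw [mem_closedBall_iff_norm, add_sub_right_comm]; exact (norm_add_le _ _).trans he
  rw [Rm_eq (h p m1).2.2.2.2.2.1 (h _ m2).2.2.2.2.2.1 (h p m1).2.2.2.2.2.2,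
    Rm_eq (h q m3).2.2.2.2.2.1 (h _ (m4 e' he')).2.2.2.2.2.1 (h q m3).2.2.2.2.2.2]
  have t1 : ‖e'‖ ≤ ‖e‖ + ‖e' - e‖ := by
    have := norm_add_le e (e' - e); rwa [add_sub_cancel] at this
  have t2 : ‖e‖ ≤ ‖e'‖ + ‖e' - e‖ := by
    have := norm_sub_le e' (e' - e); rwa [sub_sub_cancel] at this
  have h1 := rem_e (convex_closedBall _ _) (fun z hz => (h z hz).1) (fun z hz => (h z hz).2.1)
    (fun z hz => (h z hz).2.2.2.1) (r := ‖e‖ + ‖e' - e‖) m3 (m4 e he) (m4 e' he') (by linarith) t1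
  have h2 := rem_p (convex_closedBall _ _) (fun z hz => (h z hz).1) (fun z hz => (h z hz).2.1)
    (fun z hz => (h z hz).2.2.1) (fun z hz => (h z hz).2.2.2.2.1) m1 m3 m2 (m4 e he)
  obtain ⟨b0, b4⟩ := bE_bd hμ
  have h3 : |bE μ * ‖e'‖ ^ 2 / 2 - bE μ * ‖e‖ ^ 2 / 2|
      ≤ 4 * ((‖e‖ * ‖e' - e‖ + ‖e' - e‖ ^ 2) / ‖p‖ ^ 2) := by
    have e1 : bE μ * ‖e'‖ ^ 2 / 2 - bE μ * ‖e‖ ^ 2 / 2
        = bE μ / 2 * ((‖e'‖ - ‖e‖) * (‖e'‖ + ‖e‖)) := by ring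
    have e2 : |‖e'‖ - ‖e‖| ≤ ‖e' - e‖ := abs_norm_sub_norm_le _ _
    rw [e1, abs_mul, abs_mul, abs_of_nonneg (by positivity : 0 ≤ bE μ / 2),
      abs_of_nonneg (by positivity : 0 ≤ ‖e'‖ + ‖e‖)]
    have e3 : (‖e‖ * ‖e' - e‖ + ‖e' - e‖ ^ 2) ≤ (‖e‖ * ‖e' - e‖ + ‖e' - e‖ ^ 2) / ‖p‖ ^ 2 :=
      le_div_self (by positivity) (by positivity) (pow_le_one₀ hP.le (by linarith))
    calc bE μ / 2 * (|‖e'‖ - ‖e‖| * (‖e'‖ + ‖e‖))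
        ≤ 4 / 2 * (‖e' - e‖ * ((‖e‖ + ‖e' - e‖) + ‖e‖)) := by gcongr
      _ ≤ 4 * (‖e‖ * ‖e' - e‖ + ‖e' - e‖ ^ 2) := by nlinarith [sq_nonneg ‖e' - e‖]
      _ ≤ _ := by gcongr
  have h4 := (abs_re_le_norm _).trans ((norm_add_le _ _).trans (add_le_add h1 h2))
  set A := (f (q + e') - f q - f1 q * e')
  set B := (f (p + e) - f p - f1 p * e)
  rw [sub_add_sub_cancel, sub_re] at h4
  have e4 : A.re - bE μ * ‖e'‖ ^ 2 / 2 - (B.re - bE μ * ‖e‖ ^ 2 / 2)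
      = (A.re - B.re) - (bE μ * ‖e'‖ ^ 2 / 2 - bE μ * ‖e‖ ^ 2 / 2) := by ring
  rw [e4]
  refine (abs_sub _ _).trans ((add_le_add h4 h3).trans ?_)
  have p1 : 0 ≤ ‖e‖ ^ 2 * ‖q - p‖ / ‖p‖ ^ 3 := by positivity
  have e5 : (4 + C) / ‖p‖ ^ 2 * (‖e‖ + ‖e' - e‖) * ‖e' - e‖
      = (4 + C) * ((‖e‖ * ‖e' - e‖ + ‖e' - e‖ ^ 2) / ‖p‖ ^ 2) := by ring
  have e6 : (4 + C) / ‖p‖ ^ 3 * ‖e‖ ^ 2 * ‖q - p‖
      = (4 + C) * (‖e‖ ^ 2 * ‖q - p‖ / ‖p‖ ^ 3) := by ring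
  rw [e5, e6]; nlinarith

/-- Double difference of the potential kernel away from the pole. -/
theorem Gr_ddiff (E : Ell) {μ : ℂ} (hμ : ‖μ‖ ≤ 1 / 100) {C : ℝ}
    (hC : ∀ k ≤ 4, ∀ w : ℂ, ‖w‖ ≤ 9 / 10 → ‖iteratedDeriv k (E.F μ) w‖ ≤ C)
    {p γ δ : ℂ} (hp0 : p ≠ 0) (hp : ‖p‖ ≤ 72 / 100) (he : ‖γ‖ + ‖δ‖ ≤ ‖p‖ / 5) :
    |E.Gr μ (p + γ + δ) - E.Gr μ (p + γ) - E.Gr μ (p + δ) + E.Gr μ p|
      ≤ (8 + C) * (‖γ‖ * ‖δ‖) / ‖p‖ ^ 2 := by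
  obtain ⟨f, f1, f2, f3, h⟩ := exists_loc E hμ hC hp0 hp
  have hP : 0 < ‖p‖ := norm_pos_iff.2 hp0
  have n1 := norm_nonneg γ
  have n2 := norm_nonneg δ
  have m1 : p ∈ closedBall p (‖p‖ / 5) := mem_closedBall_self (by positivity)
  have m2 : p + γ ∈ closedBall p (‖p‖ / 5) := by
    rw [mem_closedBall_iff_norm, add_sub_cancel_left]; linarith
  have m3 : p + δ ∈ closedBall p (‖p‖ / 5) := by
    rw [mem_closedBall_iff_norm, add_sub_cancel_left]; linarith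
  have m4 : p + γ + δ ∈ closedBall p (‖p‖ / 5) := by
    rw [mem_closedBall_iff_norm, add_assoc, add_sub_cancel_left]; exact (norm_add_le _ _).trans he
  have h1 := ddiff (convex_closedBall _ _) (fun z hz => (h z hz).1) (fun z hz => (h z hz).2.1)
    (fun z hz => (h z hz).2.2.2.1) m1 m2 m3 m4
  rw [add_sub_cancel_left] at h1
  have h2 := (abs_re_le_norm _).trans h1
  rw [(h _ m1).2.2.2.2.2.1, (h _ m2).2.2.2.2.2.1, (h _ m3).2.2.2.2.2.1, (h _ m4).2.2.2.2.2.1]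
  obtain ⟨b0, b4⟩ := bE_bd hμ
  have h3 : |bE μ * (conj γ * δ).re| ≤ 4 * (‖γ‖ * ‖δ‖) / ‖p‖ ^ 2 := by
    refine le_trans ?_ (le_div_self (by positivity) (by positivity)
      (pow_le_one₀ hP.le (by linarith)))
    have := abs_re_le_norm (conj γ * δ)
    rw [norm_mul, Complex.norm_conj] at this
    rw [abs_mul, abs_of_nonneg b0]; gcongr
  have e1 : ‖p + γ + δ‖ ^ 2 - ‖p + γ‖ ^ 2 - ‖p + δ‖ ^ 2 + ‖p‖ ^ 2 = 2 * (conj γ * δ).re := by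
    rw [norm_add_sq' (p + γ), norm_add_sq' p δ, map_add, add_mul, add_re]; ring
  have e2 : Real.log ‖p‖ + (f (p + γ + δ)).re - bE μ * ‖p + γ + δ‖ ^ 2 / 2 -
        (Real.log ‖p‖ + (f (p + γ)).re - bE μ * ‖p + γ‖ ^ 2 / 2) -
      (Real.log ‖p‖ + (f (p + δ)).re - bE μ * ‖p + δ‖ ^ 2 / 2) +
      (Real.log ‖p‖ + (f p).re - bE μ * ‖p‖ ^ 2 / 2)
      = (f (p + γ + δ) - f (p + γ) - (f (p + δ) - f p)).re - bE μ * (conj γ * δ).re := by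
    simp only [sub_re]; linear_combination (-(bE μ) / 2) * e1
  rw [e2]
  refine (abs_sub _ _).trans ((add_le_add h2 h3).trans (le_of_eq ?_))
  ring

end Pool.Agent.P.MP_cc4a10_gt.KerGP
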