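import Pool.Agent.P.MP_cc4a10_gt.KerG1

/-!
Package KerG, part 2: estimates for the potential kernel on the cells of a level.
-/

open Set Filter Topology Complex Metric
open scoped ComplexConjugate Real

noncomputable section

namespace Pool.Agent.P.MP_cc4a10_gt.KerGP

theorem Lm_zero (z : ℂ) : Lm 0 z = z := by simp [Lm]
theorem Lm_add (μ a b : ℂ) : Lm μ (a + b) = Lm μ a + Lm μ b := by simp [Lm]; ring
theorem bE_zero : bE 0 = π := by simp [bE]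
theorem norm_Lm_sub (μ z : ℂ) : ‖Lm μ z - z‖ = ‖μ‖ * ‖z‖ := by simp [Lm]
theorem norm_Lm_le {μ : ℂ} (hμ : ‖μ‖ ≤ 1 / 100) (z : ℂ) : ‖Lm μ z‖ ≤ ‖z‖ * (101 / 100) := by
  have h := norm_add_le (Lm μ z - z) z
  rw [sub_add_cancel, norm_Lm_sub] at h
  nlinarith [norm_nonneg z]
theorem le_norm_Lm {μ : ℂ} (hμ : ‖μ‖ ≤ 1 / 100) (z : ℂ) : ‖z‖ * (99 / 100) ≤ ‖Lm μ z‖ := by
  have h := norm_sub_le (Lm μ z) (Lm μ z - z)
  rw [sub_sub_cancel, norm_Lm_sub] at h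
  nlinarith [norm_nonneg z]

theorem abs_log_sub_le {a b : ℝ} (ha : 1 / 2 ≤ a) (hb : 1 / 2 ≤ b) :
    |Real.log a - Real.log b| ≤ 2 * |a - b| := by
  have key : ∀ a b : ℝ, 1 / 2 ≤ a → 1 / 2 ≤ b → Real.log a - Real.log b ≤ 2 * |a - b| := by
    intro a b ha hb
    rw [← Real.log_div (by linarith) (by linarith)]
    have h1 := Real.log_le_sub_one_of_pos (show 0 < a / b by apply div_pos <;> linarith)
    have h2 : a / b - 1 = (a - b) / b := by field_simp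
    have h3 : (a - b) / b ≤ 2 * |a - b| := by
      rw [div_le_iff₀ (by linarith)]
      nlinarith [le_abs_self (a - b), abs_nonneg (a - b)]
    linarith
  have h1 := key a b ha hb
  have h2 := key b a hb ha
  rw [abs_sub_comm b a] at h2
  exact abs_le.2 ⟨by linarith, h1⟩

/-- The direction factor. -/
def om2 (a : ℂ) : ℂ := conj a / a

theorem norm_om2_le (a : ℂ) : ‖om2 a‖ ≤ 1 := by
  rw [om2, norm_div, Complex.norm_conj]; exact div_self_le_one _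

theorem log_Lm (μ : ℂ) (hμ : ‖μ‖ ≤ 1 / 100) (a : ℂ) :
    Real.log ‖Lm μ a‖ - Real.log ‖a‖ = Real.log ‖1 + μ * om2 a‖ := by
  by_cases ha : a = 0
  · simp [ha, Lm, om2]
  · have h1 : 0 < ‖a‖ := norm_pos_iff.2 ha
    have h2 := le_norm_Lm hμ a
    rw [← Real.log_div (by linarith) h1.ne', ← norm_div]
    congr 2
    rw [Lm, om2]; field_simp

theorem om2_sub_le {a γ : ℂ} (ha : a ≠ 0) (ha' : a + γ ≠ 0) :
    ‖om2 (a + γ) - om2 a‖ ≤ 2 * ‖γ‖ / ‖a‖ := by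
  have h1 : 0 < ‖a‖ := norm_pos_iff.2 ha
  have h2 : 0 < ‖a + γ‖ := norm_pos_iff.2 ha'
  have e : om2 (a + γ) - om2 a = (conj γ * (a + γ) - conj (a + γ) * γ) / ((a + γ) * a) := by
    simp only [om2, map_add]; field_simp; ring
  rw [e, norm_div, norm_mul, div_le_div_iff₀ (by positivity) h1]
  have h3 := norm_sub_le (conj γ * (a + γ)) (conj (a + γ) * γ)
  simp only [norm_mul, Complex.norm_conj] at h3
  nlinarith

theorem sq_sub_sq (a γ : ℂ) : ‖a + γ‖ ^ 2 - ‖a‖ ^ 2 = (conj (a + (a + γ)) * γ).re := by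
  simp only [Complex.sq_norm, normSq_apply, add_re, add_im, mul_re, conj_re, conj_im]; ring

/-- Dependence on the modulus. -/
theorem Gr_mu (E : Ell) {μ : ℂ} (hμ : ‖μ‖ ≤ 1 / 100) {C : ℝ}
    (hC : ∀ k ≤ 4, ∀ w : ℂ, ‖w‖ ≤ 9 / 10 → ‖iteratedDeriv k (E.F μ) w‖ ≤ C)
    (hL : ∀ w : ℂ, ‖w‖ ≤ 9 / 10 →
      ‖iteratedDeriv 1 (E.F μ) w - iteratedDeriv 1 (E.F 0) w‖ ≤ C * ‖μ‖)
    (hb : |bE μ - π| ≤ C * ‖μ‖) {a γ : ℂ} (ha : ‖a‖ ≤ 72 / 100) (hγ : ‖γ‖ ≤ 1 / 10) :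
    |(E.Gr μ (Lm μ (a + γ)) - E.Gr 0 (a + γ)) - (E.Gr μ (Lm μ a) - E.Gr 0 a)|
      ≤ ‖μ‖ * (2 * ‖om2 (a + γ) - om2 a‖ + (8 + 5 * C) * ‖γ‖) := by
  have h0 : ‖(0 : ℂ)‖ ≤ 1 / 100 := by simp
  have hC0 : 0 ≤ C := (norm_nonneg _).trans (hC 0 (by norm_num) 0 (by norm_num))
  have n0 := norm_nonneg μ
  have n1 := norm_nonneg a
  have n2 := norm_nonneg γ
  have a1 : ‖a + γ‖ ≤ 82 / 100 := (norm_add_le _ _).trans (by linarith)
  have a2 : ‖Lm μ a‖ ≤ 73 / 100 := (norm_Lm_le hμ a).trans (by linarith)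
  have a3 : ‖Lm μ (a + γ)‖ ≤ 83 / 100 := (norm_Lm_le hμ _).trans (by linarith)
  have a4 : ‖Lm μ a + γ‖ ≤ 83 / 100 := (norm_add_le _ _).trans (by linarith)
  rw [E.Gloc μ hμ _ (by linarith : ‖Lm μ (a + γ)‖ < 9 / 10),
    E.Gloc μ hμ _ (by linarith : ‖Lm μ a‖ < 9 / 10), E.Gloc 0 h0 _ (by linarith : ‖a + γ‖ < 9 / 10),
    E.Gloc 0 h0 _ (by linarith : ‖a‖ < 9 / 10), bE_zero]
  -- logarithmic part
  have l0 : ∀ z : ℂ, 1 / 2 ≤ ‖1 + μ * om2 z‖ := fun z => by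
    have h1 := norm_sub_le (1 + μ * om2 z) (μ * om2 z)
    rw [add_sub_cancel_right, norm_one, norm_mul] at h1
    nlinarith [norm_om2_le z, norm_nonneg (om2 z)]
  have l1 : |(Real.log ‖Lm μ (a + γ)‖ - Real.log ‖a + γ‖) - (Real.log ‖Lm μ a‖ - Real.log ‖a‖)|
      ≤ ‖μ‖ * (2 * ‖om2 (a + γ) - om2 a‖) := by
    rw [log_Lm μ hμ, log_Lm μ hμ]
    refine (abs_log_sub_le (l0 _) (l0 _)).trans ?_
    have := abs_norm_sub_norm_le (1 + μ * om2 (a + γ)) (1 + μ * om2 a)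
    rw [add_sub_add_left_eq_sub, ← mul_sub, norm_mul] at this
    linarith
  -- holomorphic part
  have hs : Convex ℝ (closedBall (0 : ℂ) (9 / 10)) := convex_closedBall _ _
  have hm : ∀ z : ℂ, ‖z‖ ≤ 9 / 10 → z ∈ closedBall (0 : ℂ) (9 / 10) := fun z hz => by simpa using hz
  have hm' : ∀ z ∈ closedBall (0 : ℂ) (9 / 10), ‖z‖ ≤ 9 / 10 := fun z hz => by simpa using hz
  have d0 : ∀ z ∈ closedBall (0 : ℂ) (9 / 10), HasDerivAt (E.F μ) (iteratedDeriv 1 (E.F μ) z) z :=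
    fun z hz => hasDerivAt_iter E hμ 0 (hm' z hz)
  have d0' : ∀ z ∈ closedBall (0 : ℂ) (9 / 10), HasDerivAt (E.F 0) (iteratedDeriv 1 (E.F 0) z) z :=
    fun z hz => hasDerivAt_iter E h0 0 (hm' z hz)
  have f1 := mv hs d0 (fun z hz => hC 1 (by norm_num) z (hm' z hz)) (hm _ (by linarith :
    ‖Lm μ a + γ‖ ≤ 9 / 10)) (hm _ (by linarith : ‖Lm μ (a + γ)‖ ≤ 9 / 10))
  have f2 := ddiff hs d0 (fun z hz => hasDerivAt_iter E hμ 1 (hm' z hz))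
    (fun z hz => hC 2 (by norm_num) z (hm' z hz)) (p := a) (q := Lm μ a) (δ := γ)
    (hm _ (by linarith)) (hm _ (by linarith)) (hm _ (by linarith)) (hm _ (by linarith))
  have f3 := mv hs (f := fun z => E.F μ z - E.F 0 z) (fun z hz => (d0 z hz).sub (d0' z hz))
    (fun z hz => hL z (hm' z hz)) (hm _ (by linarith : ‖a‖ ≤ 9 / 10))
    (hm _ (by linarith : ‖a + γ‖ ≤ 9 / 10))
  rw [Lm_add, add_sub_add_left_eq_sub, norm_Lm_sub, ← Lm_add] at f1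
  rw [norm_Lm_sub] at f2
  rw [add_sub_cancel_left] at f3
  have f4 : |((E.F μ (Lm μ (a + γ))).re - (E.F 0 (a + γ)).re) - ((E.F μ (Lm μ a)).re - (E.F 0 a).re)|
      ≤ ‖μ‖ * (3 * C * ‖γ‖) := by
    have e : ((E.F μ (Lm μ (a + γ))).re - (E.F 0 (a + γ)).re) - ((E.F μ (Lm μ a)).re - (E.F 0 a).re)
        = ((E.F μ (Lm μ (a + γ)) - E.F μ (Lm μ a + γ))
          + (E.F μ (Lm μ a + γ) - E.F μ (Lm μ a) - (E.F μ (a + γ) - E.F μ a))
          + (E.F μ (a + γ) - E.F 0 (a + γ) - (E.F μ a - E.F 0 a))).re := by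
      simp only [add_re, sub_re]; ring
    rw [e]
    refine (abs_re_le_norm _).trans ((norm_add₃_le).trans ?_)
    have : C * ‖γ‖ * (‖μ‖ * ‖a‖) ≤ C * ‖γ‖ * (‖μ‖ * 1) := by gcongr; linarith
    nlinarith
  -- quadratic part
  have q1 : |(bE μ * ‖Lm μ (a + γ)‖ ^ 2 / 2 - π * ‖a + γ‖ ^ 2 / 2)
      - (bE μ * ‖Lm μ a‖ ^ 2 / 2 - π * ‖a‖ ^ 2 / 2)| ≤ ‖μ‖ * ((8 + 2 * C) * ‖γ‖) := by
    set σ := a + (a + γ) with hσ
    have s1 : ‖σ‖ ≤ 154 / 100 := (norm_add_le _ _).trans (by linarith)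
    have s2 : ‖Lm μ σ‖ ≤ 16 / 10 := (norm_Lm_le hμ _).trans (by linarith)
    have s3 : ‖Lm μ γ‖ ≤ ‖γ‖ * (101 / 100) := norm_Lm_le hμ _
    have e1 := sq_sub_sq a γ
    have e2 := sq_sub_sq (Lm μ a) (Lm μ γ)
    rw [← Lm_add, ← Lm_add, ← hσ] at e2
    rw [← hσ] at e1
    have e : (bE μ * ‖Lm μ (a + γ)‖ ^ 2 / 2 - π * ‖a + γ‖ ^ 2 / 2)
        - (bE μ * ‖Lm μ a‖ ^ 2 / 2 - π * ‖a‖ ^ 2 / 2)
        = (bE μ - π) / 2 * (conj (Lm μ σ) * Lm μ γ).re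
          + π / 2 * (conj (Lm μ σ) * (Lm μ γ - γ) + conj (Lm μ σ - σ) * γ).re := by
      simp only [map_sub, mul_sub, sub_mul, add_re, sub_re]
      linear_combination (bE μ / 2) * e2 - (π / 2) * e1
    rw [e]
    have t1 : |(conj (Lm μ σ) * Lm μ γ).re| ≤ 2 * ‖γ‖ := by
      refine (abs_re_le_norm _).trans ?_
      rw [norm_mul, Complex.norm_conj]
      nlinarith [norm_nonneg (Lm μ γ), norm_nonneg (Lm μ σ)]
    have t2 : |(conj (Lm μ σ) * (Lm μ γ - γ) + conj (Lm μ σ - σ) * γ).re| ≤ 4 * (‖μ‖ * ‖γ‖) := by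
      refine (abs_re_le_norm _).trans ((norm_add_le _ _).trans ?_)
      rw [norm_mul, norm_mul, Complex.norm_conj, Complex.norm_conj, norm_Lm_sub, norm_Lm_sub]
      have : 0 ≤ ‖μ‖ * ‖γ‖ := by positivity
      nlinarith
    refine (abs_add_le _ _).trans ?_
    rw [abs_mul, abs_mul, abs_div, abs_of_pos (by positivity : 0 < π / 2), abs_two]
    have p4 : π / 2 ≤ 2 := by linarith [Real.pi_le_four]
    calc _ ≤ C * ‖μ‖ / 2 * (2 * ‖γ‖) + 2 * (4 * (‖μ‖ * ‖γ‖)) := by gcongr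
      _ ≤ _ := by nlinarith [mul_nonneg hC0 (mul_nonneg n0 n2)]
  have l2 := abs_le.1 l1
  have f5 := abs_le.1 f4
  have q2 := abs_le.1 q1
  exact abs_le.2 ⟨by linarith, by linarith⟩

theorem one_le_norm_gi {y : GI} (hy : y ≠ 0) : 1 ≤ ‖(y : ℂ)‖ := by
  have h1 : 0 < y.norm := GaussianInt.norm_pos.2 hy
  have h2 : (1 : ℝ) ≤ (y.norm : ℝ) := by exact_mod_cast h1
  rw [GaussianInt.intCast_real_norm, ← Complex.sq_norm] at h2
  nlinarith [norm_nonneg (y : ℂ)]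

theorem St.norm {g : GI} (hg : St g) : ‖(g : ℂ)‖ = 1 := by
  rcases hg with h | h | h | h <;> simp [h, coe_gi]

theorem St.neg {g : GI} (hg : St g) : St (-g) := by
  rcases hg with h | h | h | h <;> simp [h, St]

theorem dd_small {m : ℕ} (hm : 7 ≤ m) : dd m ≤ 1 / 10 := by
  have h1 := dd_anti hm
  have h2 := dd_sq 7
  have h3 := dd_pos 7
  nlinarith

theorem abs_log_dd (m : ℕ) : -(m : ℝ) ≤ Real.log (dd m) := by
  unfold dd
  rw [Real.log_rpow (by norm_num)]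
  have h1 := Real.log_two_lt_d9
  have h2 : (0 : ℝ) ≤ m := Nat.cast_nonneg m
  nlinarith

theorem Gr_crude (E : Ell) {C : ℝ}
    (hC : ∀ k ≤ 4, ∀ w : ℂ, ‖w‖ ≤ 9 / 10 → ‖iteratedDeriv k (E.F 0) w‖ ≤ C)
    {m : ℕ} (hm : 1 ≤ m) {a : ℂ} (ha : ‖a‖ ≤ 72 / 100) (ha' : a = 0 ∨ dd m ≤ ‖a‖) :
    |E.Gr 0 a| ≤ (3 + C) * m := by
  have hm1 : (1 : ℝ) ≤ m := by exact_mod_cast hm
  have hC0 : 0 ≤ C := (norm_nonneg _).trans (hC 0 (by norm_num) 0 (by norm_num))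
  rw [E.Gloc 0 (by simp) a (by linarith), bE_zero]
  have h1 : |Real.log ‖a‖| ≤ m := by
    rcases ha' with h | h
    · simp [h]
    · have h2 := Real.log_le_log (dd_pos m) h
      have h3 := Real.log_nonpos (norm_nonneg a) (by linarith)
      have h4 := abs_log_dd m
      exact abs_le.2 ⟨by linarith, by linarith⟩
  have h2 : |(E.F 0 a).re| ≤ C := (abs_re_le_norm _).trans (hC 0 (by norm_num) a (by linarith))
  have h3 : 0 ≤ π * ‖a‖ ^ 2 / 2 := by positivity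
  have h4 : π * ‖a‖ ^ 2 / 2 ≤ 2 := by
    have : ‖a‖ ^ 2 ≤ 1 := pow_le_one₀ (norm_nonneg _) (by linarith)
    nlinarith [Real.pi_le_four, Real.pi_pos]
  have h5 := abs_le.1 h1
  have h6 := abs_le.1 h2
  have h7 : C ≤ C * m := le_mul_of_one_le_right hC0 hm1
  exact abs_le.2 ⟨by nlinarith, by nlinarith⟩

end Pool.Agent.P.MP_cc4a10_gt.KerGP
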