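import Pool.Agent.P.MP_cc4a10_gt.St

/-!
Difference estimates for the force kernel: the abstract part.
-/

open Set Filter Topology Complex Metric
open scoped ComplexConjugate Real

noncomputable section

namespace Pool.Agent.P.MP_cc4a10_gt.KerZP

theorem mvt0 {φ φ' : ℂ → ℂ} {v : ℂ} {M : ℝ}
    (h : ∀ z, ‖z‖ ≤ ‖v‖ → HasDerivAt φ (φ' z) z ∧ ‖φ' z‖ ≤ M) : ‖φ v - φ 0‖ ≤ M * ‖v‖ := by
  have := (convex_closedBall (0 : ℂ) ‖v‖).norm_image_sub_le_of_norm_hasDerivWithin_le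
    (f := φ) (f' := φ') (C := M) (x := 0) (y := v)
    (fun z hz => (h z (by simpa using hz)).1.hasDerivWithinAt)
    (fun z hz => (h z (by simpa using hz)).2) (by simp) (by simp)
  simpa using this

/-- A tower of derivatives with scale `1 / t` on a disc. -/
def Tw (p : ℂ) (R : ℝ) (f : ℕ → ℂ → ℂ) (A t : ℝ) : Prop :=
  ∀ k ≤ 3, ∀ w, ‖w - p‖ ≤ R → (k < 3 → HasDerivAt (f k) (f (k + 1) w) w) ∧ ‖f k w‖ ≤ A * t ^ (k + 1)

theorem Tw.lip {p : ℂ} {R A t : ℝ} {f : ℕ → ℂ → ℂ} (h : Tw p R f A t) {k : ℕ} (hk : k < 3)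
    {x y : ℂ} (hx : ‖x - p‖ ≤ R) (hy : ‖y - p‖ ≤ R) :
    ‖f k x - f k y‖ ≤ A * t ^ (k + 2) * ‖x - y‖ :=
  (convex_closedBall p R).norm_image_sub_le_of_norm_hasDerivWithin_le
    (f := f k) (f' := f (k + 1)) (x := y) (y := x)
    (fun z hz => ((h k hk.le z (by simpa [dist_eq_norm] using hz)).1 hk).hasDerivWithinAt)
    (fun z hz => (h (k + 1) hk z (by simpa [dist_eq_norm] using hz)).2)
    (by simpa [dist_eq_norm] using hy) (by simpa [dist_eq_norm] using hx)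

theorem Tw.der {p : ℂ} {R A t : ℝ} {f : ℕ → ℂ → ℂ} (h : Tw p R f A t) {k : ℕ} (hk : k < 3)
    (x : ℂ) {z : ℂ} (hx : ‖x + z - p‖ ≤ R) :
    HasDerivAt (fun s => f k (x + s)) (f (k + 1) (x + z)) z :=
  ((h k hk.le _ hx).1 hk).comp_const_add x z

/-- The position of the points. -/
structure Geo (m d t : ℝ) (p δ δ' a a' : ℂ) : Prop where
  m0 : 0 ≤ m
  m1 : m ≤ 1 / 100
  d0 : 0 < d
  t0 : 0 < t
  td : t * (‖p‖ + d) = 1
  n1 : ‖δ‖ = d
  n2 : ‖δ'‖ = d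
  ha : ‖a - p‖ ≤ m * ‖p‖
  ha' : ‖a' - (p + δ)‖ ≤ m * ‖p + δ‖
  haa : ‖a' - a - δ‖ ≤ m * d

/-- The list of estimates. -/
def Good (f g W : ℂ → ℂ) (D : ℂ → ℂ → ℂ) (C m d t : ℝ) (p δ δ' a a' : ℂ) : Prop :=
  (∀ e : ℂ, ‖e‖ ≤ d / 10 → (p = 0 → e = 0) →
    ‖f (a + e)‖ ≤ C * t ∧ ‖f (a + e) - f a‖ ≤ C * (‖e‖ * t ^ 2) ∧
    ∀ e' : ℂ, ‖e'‖ ≤ d / 10 → (p + δ = 0 → e' = 0) →
      ‖(f (a' + e') - f a' - D (p + δ) e') - (f (a + e) - f a - D p e)‖ ≤ C *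
        (m * (‖e‖ * d * t ^ 3 + ‖e' - e‖ * t ^ 2)
          + (‖e‖ ^ 2 * d * t ^ 4 + ‖e‖ * ‖e' - e‖ * t ^ 3 + ‖e' - e‖ ^ 2 * t ^ 3))) ∧
  ‖f a - g p‖ ≤ C * (m * t) ∧
  ‖(f a' - g (p + δ)) - (f a - g p)‖ ≤ C * (m * d * t ^ 2) ∧
  ‖g (p + δ) - g p‖ ≤ C * (d * t ^ 2) ∧
  ‖g (p + δ + δ') - g (p + δ) - g (p + δ') + g p‖ ≤ C * (d ^ 2 * t ^ 3) ∧
  ‖W p‖ ≤ C * t ^ 2 ∧
  ‖W (p + δ) - W p‖ ≤ C * (d * t ^ 3) ∧
  ‖W (p + δ + δ') - W (p + δ) - W (p + δ') + W p‖ ≤ C * (d ^ 2 * t ^ 4)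

theorem nadd {x x1 x2 : ℂ} {C1 C2 s : ℝ} (h1 : ‖x1‖ ≤ C1 * s) (h2 : ‖x2‖ ≤ C2 * s)
    (h : x = x1 + x2) : ‖x‖ ≤ (C1 + C2) * s := by
  rw [h, add_mul]; exact (norm_add_le _ _).trans (add_le_add h1 h2)

theorem Good.add {f1 g1 W1 f2 g2 W2 : ℂ → ℂ} {D1 D2 : ℂ → ℂ → ℂ} {C1 C2 m d t : ℝ}
    {p δ δ' a a' : ℂ} (h1 : Good f1 g1 W1 D1 C1 m d t p δ δ' a a')
    (h2 : Good f2 g2 W2 D2 C2 m d t p δ δ' a a') :
    Good (fun w => f1 w + f2 w) (fun w => g1 w + g2 w) (fun w => W1 w + W2 w)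
      (fun q e => D1 q e + D2 q e) (C1 + C2) m d t p δ δ' a a' := by
  obtain ⟨a1, a2, a3, a4, a5, a6, a7, a8⟩ := h1
  obtain ⟨b1, b2, b3, b4, b5, b6, b7, b8⟩ := h2
  refine ⟨fun e he h0 => ?_, nadd a2 b2 (by ring), nadd a3 b3 (by ring), nadd a4 b4 (by ring),
    nadd a5 b5 (by ring), nadd a6 b6 rfl, nadd a7 b7 (by ring), nadd a8 b8 (by ring)⟩
  obtain ⟨c1, c2, c3⟩ := a1 e he h0
  obtain ⟨d1, d2, d3⟩ := b1 e he h0
  exact ⟨nadd c1 d1 rfl, nadd c2 d2 (by ring),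
    fun e' he' h0' => nadd (c3 e' he' h0') (d3 e' he' h0') (by ring)⟩

section tower
variable {m d t A : ℝ} {p δ δ' a a' : ℂ} {f g : ℕ → ℂ → ℂ}

theorem Geo.tp (G : Geo m d t p δ δ' a a') : t * ‖p‖ ≤ 1 := by
  have := G.td; have := mul_pos G.t0 G.d0; nlinarith
theorem Geo.tq (G : Geo m d t p δ δ' a a') : t * ‖p + δ‖ ≤ 1 := by
  have h := norm_add_le p δ
  rw [G.n1] at h
  rw [← G.td]; exact mul_le_mul_of_nonneg_left h G.t0.le
theorem Geo.tdl (G : Geo m d t p δ δ' a a') : t * d ≤ 1 := by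
  have := G.td; have := mul_nonneg G.t0.le (norm_nonneg p); nlinarith

theorem Geo.mem1 (G : Geo m d t p δ δ' a a') {z : ℂ} (hz : ‖z‖ ≤ 2 * d) :
    ‖a + z - p‖ ≤ ‖p‖ / 100 + 3 * d := by
  have h1 := norm_add_le (a - p) z
  rw [show a - p + z = a + z - p by ring] at h1
  have := G.ha; have := G.m1; have := G.d0
  nlinarith [norm_nonneg p]
theorem Geo.mem2 (G : Geo m d t p δ δ' a a') {z : ℂ} (hz : ‖z‖ ≤ d / 2) :
    ‖a' + z - p‖ ≤ ‖p‖ / 100 + 3 * d := by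
  have h1 := norm_add₃_le (a := a' - a - δ) (b := δ) (c := z)
  have h2 : ‖a' - a - δ + δ + z‖ ≤ 2 * d := by
    have := G.haa; have := G.m1; have := G.d0; have := G.n1; nlinarith
  have := G.mem1 h2
  rwa [show a + (a' - a - δ + δ + z) = a' + z by ring] at this
theorem Geo.mem0 (G : Geo m d t p δ δ' a a') {z : ℂ} (hz : ‖z‖ ≤ 2 * d) :
    ‖p + z - p‖ ≤ ‖p‖ / 100 + 3 * d := by
  rw [add_sub_cancel_left]; have := G.d0; have := norm_nonneg p; linarith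

theorem mix {R : ℝ} (hf : Tw p R f A t)
    (hfg : ∀ k < 3, ∀ w, ‖w - p‖ ≤ R → ‖f k w - g k w‖ ≤ A * m * t ^ (k + 1)) {k : ℕ} (hk : k < 3)
    {x y : ℂ} (hx : ‖x - p‖ ≤ R) (hy : ‖y - p‖ ≤ R) :
    ‖f k x - g k y‖ ≤ A * t ^ (k + 2) * ‖x - y‖ + A * m * t ^ (k + 1) := by
  rw [show f k x - g k y = (f k x - f k y) + (f k y - g k y) by ring]
  exact (norm_add_le _ _).trans (add_le_add (hf.lip hk hx hy) (hfg k hk y hy))

theorem t3 (G : Geo m d t p δ δ' a a') (hA : 0 ≤ A) (hf : Tw p (‖p‖ / 100 + 3 * d) f A t)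
    (hg : Tw p (‖p‖ / 100 + 3 * d) g A t)
    (hfg : ∀ k < 3, ∀ w, ‖w - p‖ ≤ ‖p‖ / 100 + 3 * d → ‖f k w - g k w‖ ≤ A * m * t ^ (k + 1))
    {k : ℕ} (hk : k < 2) {z : ℂ} {ε : ℝ} (hz : ‖z‖ ≤ ε) (hε : ε ≤ d / 10) :
    ‖f k (a' + z) - f k (a + z) - (g k (p + δ) - g k p)‖
      ≤ A * d * (3 * m * t ^ (k + 2) + t ^ (k + 3) * ε) := by
  have hd := G.d0
  have ht := G.t0
  have hm := G.m0
  have hzs : ∀ s : ℂ, ‖s‖ ≤ ‖δ‖ → ‖a + z + s - p‖ ≤ ‖p‖ / 100 + 3 * d := fun s hs => by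
    rw [add_assoc]; apply G.mem1
    have := norm_add_le z s; rw [G.n1] at hs; linarith
  have hps : ∀ s : ℂ, ‖s‖ ≤ ‖δ‖ → ‖p + s - p‖ ≤ ‖p‖ / 100 + 3 * d := fun s hs => by
    apply G.mem0; rw [G.n1] at hs; linarith
  have h1 : ‖f k (a' + z) - f k (a + z + δ)‖ ≤ A * t ^ (k + 2) * (m * d) := by
    refine (hf.lip (by omega) (G.mem2 (by linarith)) (hzs δ le_rfl)).trans ?_
    rw [show a' + z - (a + z + δ) = a' - a - δ by ring]
    have := G.haa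
    gcongr
  have h2 := mvt0 (φ := fun s => f k (a + z + s) - g k (p + s))
    (φ' := fun s => f (k + 1) (a + z + s) - g (k + 1) (p + s)) (v := δ)
    (M := A * (2 * m * t ^ (k + 2) + t ^ (k + 3) * ε)) fun s hs => by
      refine ⟨(hf.der (by omega) _ (hzs s hs)).sub (hg.der (by omega) _ (hps s hs)), ?_⟩
      refine (mix hf hfg (k := k + 1) (by omega) (hzs s hs) (hps s hs)).trans ?_
      have e1 : ‖a + z + s - (p + s)‖ ≤ m * ‖p‖ + ε := by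
        rw [show a + z + s - (p + s) = (a - p) + z by ring]
        exact (norm_add_le _ _).trans (add_le_add G.ha hz)
      have e2 : A * t ^ (k + 1 + 2) * ‖a + z + s - (p + s)‖ ≤ A * t ^ (k + 1 + 2) * (m * ‖p‖ + ε) := by
        gcongr
      have e3 : A * m * t ^ (k + 2) * (t * ‖p‖) ≤ A * m * t ^ (k + 2) * 1 := by
        have := G.tp; gcongr
      calc _ ≤ A * t ^ (k + 1 + 2) * (m * ‖p‖ + ε) + A * m * t ^ (k + 1 + 1) := by linarith
        _ = A * m * t ^ (k + 2) * (t * ‖p‖) + A * t ^ (k + 3) * ε + A * m * t ^ (k + 2) := by ring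
        _ ≤ _ := by linarith
  simp only [add_zero] at h2
  rw [G.n1] at h2
  rw [show f k (a' + z) - f k (a + z) - (g k (p + δ) - g k p) = (f k (a' + z) - f k (a + z + δ))
    + (f k (a + z + δ) - g k (p + δ) - (f k (a + z) - g k p)) by ring]
  refine (norm_add_le _ _).trans ((add_le_add h1 h2).trans (le_of_eq (by ring)))

theorem sec (G : Geo m d t p δ δ' a a') (hg : Tw p (‖p‖ / 100 + 3 * d) g A t)
    {k : ℕ} (hk : k < 2) :
    ‖g k (p + δ + δ') - g k (p + δ) - g k (p + δ') + g k p‖ ≤ A * (d ^ 2 * t ^ (k + 3)) := by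
  have hd := G.d0
  have hps : ∀ s : ℂ, ‖s‖ ≤ ‖δ‖ → ‖p + s - p‖ ≤ ‖p‖ / 100 + 3 * d := fun s hs => by
    apply G.mem0; rw [G.n1] at hs; linarith
  have hqs : ∀ s : ℂ, ‖s‖ ≤ ‖δ‖ → ‖p + δ' + s - p‖ ≤ ‖p‖ / 100 + 3 * d := fun s hs => by
    rw [add_assoc]; apply G.mem0
    have := norm_add_le δ' s; rw [G.n1] at hs; rw [G.n2] at this; linarith
  have h2 := mvt0 (φ := fun s => g k (p + δ' + s) - g k (p + s))
    (φ' := fun s => g (k + 1) (p + δ' + s) - g (k + 1) (p + s)) (v := δ)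
    (M := A * t ^ (k + 3) * d) fun s hs => by
      refine ⟨(hg.der (by omega) _ (hqs s hs)).sub (hg.der (by omega) _ (hps s hs)), ?_⟩
      refine (hg.lip (k := k + 1) (by omega) (hqs s hs) (hps s hs)).trans (le_of_eq ?_)
      rw [show p + δ' + s - (p + s) = δ' by ring, G.n2]
  simp only [add_zero] at h2
  rw [G.n1] at h2
  rw [show g k (p + δ + δ') - g k (p + δ) - g k (p + δ') + g k p
    = g k (p + δ' + δ) - g k (p + δ) - (g k (p + δ') - g k p) by rw [add_right_comm p δ']; ring]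
  exact h2.trans (le_of_eq (by ring))

theorem good_tower (G : Geo m d t p δ δ' a a') (hA : 0 ≤ A)
    (hf : Tw p (‖p‖ / 100 + 3 * d) f A t) (hg : Tw p (‖p‖ / 100 + 3 * d) g A t)
    (hfg : ∀ k < 3, ∀ w, ‖w - p‖ ≤ ‖p‖ / 100 + 3 * d → ‖f k w - g k w‖ ≤ A * m * t ^ (k + 1)) :
    Good (f 0) (g 0) (g 1) (fun q e => g 1 q * e) (3 * A) m d t p δ δ' a a' := by
  have hd := G.d0
  have ht := G.t0
  have hm := G.m0
  have hp : ‖p - p‖ ≤ ‖p‖ / 100 + 3 * d := by simp; positivity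
  have hq : ‖p + δ - p‖ ≤ ‖p‖ / 100 + 3 * d := G.mem0 (by rw [G.n1]; linarith)
  have ha : ‖a - p‖ ≤ ‖p‖ / 100 + 3 * d := by simpa using G.mem1 (z := 0) (by simp; positivity)
  have up : ∀ {x s : ℝ}, x ≤ A * s → 0 ≤ s → x ≤ 3 * A * s := fun h hs => by
    have := mul_nonneg hA hs; linarith
  refine ⟨fun e he _ => ⟨?_, ?_, fun e' he' _ => ?_⟩, ?_, ?_, ?_, ?_, ?_, ?_, ?_⟩
  · exact up (by simpa using (hf 0 (by omega) _ (G.mem1 (z := e) (by linarith))).2) ht.le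
  · refine up ?_ (by positivity)
    have := hf.lip (k := 0) (by omega) (G.mem1 (z := e) (by linarith)) ha
    rw [add_sub_cancel_left] at this
    exact this.trans (le_of_eq (by ring))
  · have hε : ‖e' - e‖ ≤ d / 5 := (norm_sub_le _ _).trans (by linarith)
    have hzs : ∀ s : ℂ, ‖s‖ ≤ ‖e' - e‖ → ‖a' + e + s - p‖ ≤ ‖p‖ / 100 + 3 * d := fun s hs => by
      rw [add_assoc]; apply G.mem2
      have := norm_add_le e s; linarith
    have h1 := mvt0 (φ := fun s => f 0 (a' + e + s) - g 1 (p + δ) * s)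
      (φ' := fun s => f 1 (a' + e + s) - g 1 (p + δ)) (v := e' - e)
      (M := A * (2 * m * t ^ 2 + t ^ 3 * ‖e‖ + t ^ 3 * ‖e' - e‖)) fun s hs => by
        refine ⟨(hf.der (by omega) _ (hzs s hs)).sub
          (by simpa using (hasDerivAt_id s).const_mul (g 1 (p + δ))), ?_⟩
        refine (mix hf hfg (k := 1) (by omega) (hzs s hs) hq).trans ?_
        have e1 : ‖a' + e + s - (p + δ)‖ ≤ m * ‖p + δ‖ + ‖e‖ + ‖e' - e‖ := by
          rw [show a' + e + s - (p + δ) = (a' - (p + δ)) + e + s by ring]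
          exact norm_add₃_le.trans (add_le_add (add_le_add G.ha' le_rfl) hs)
        have e2 : A * t ^ (1 + 2) * ‖a' + e + s - (p + δ)‖
            ≤ A * t ^ (1 + 2) * (m * ‖p + δ‖ + ‖e‖ + ‖e' - e‖) := by gcongr
        have e3 : A * m * t ^ 2 * (t * ‖p + δ‖) ≤ A * m * t ^ 2 * 1 := by
          have := G.tq; gcongr
        calc _ ≤ A * t ^ (1 + 2) * (m * ‖p + δ‖ + ‖e‖ + ‖e' - e‖) + A * m * t ^ (1 + 1) := by
              linarith
          _ = A * m * t ^ 2 * (t * ‖p + δ‖) + A * (t ^ 3 * ‖e‖ + t ^ 3 * ‖e' - e‖)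
              + A * m * t ^ 2 := by ring
          _ ≤ _ := by linarith
    have h2 := mvt0 (φ := fun s => f 0 (a' + s) - f 0 (a + s) - (g 1 (p + δ) - g 1 p) * s)
      (φ' := fun s => f 1 (a' + s) - f 1 (a + s) - (g 1 (p + δ) - g 1 p)) (v := e)
      (M := A * d * (3 * m * t ^ 3 + t ^ 4 * ‖e‖)) fun s hs => by
        refine ⟨((hf.der (by omega) _ (G.mem2 (by linarith))).sub
          (hf.der (by omega) _ (G.mem1 (by linarith)))).sub
          (by simpa using (hasDerivAt_id s).const_mul (g 1 (p + δ) - g 1 p)), ?_⟩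
        exact t3 G hA hf hg hfg (by omega) hs he
    simp only [add_zero, mul_zero, sub_zero] at h1 h2
    rw [show a' + e + (e' - e) = a' + e' by ring] at h1
    refine le_trans (le_of_eq ?_) ((norm_add_le _ _).trans ((add_le_add h1 h2).trans ?_))
    · congr 1; ring
    · have q1 : 0 ≤ A * (m * ‖e' - e‖ * t ^ 2) := by positivity
      have q2 : 0 ≤ A * (‖e‖ ^ 2 * d * t ^ 4 + ‖e‖ * ‖e' - e‖ * t ^ 3 + ‖e' - e‖ ^ 2 * t ^ 3) := by
        positivity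
      linarith
  · have e1 : ‖f 0 a - g 0 p‖ ≤ A * t ^ 2 * ‖a - p‖ + A * m * t ^ 1 :=
      mix hf hfg (k := 0) (by omega) ha hp
    have e2 : A * t ^ 2 * ‖a - p‖ ≤ A * t ^ 2 * (m * ‖p‖) := by
      have := G.ha; gcongr
    have e3 : A * m * t * (t * ‖p‖) ≤ A * m * t * 1 := by
      have := G.tp; gcongr
    have q1 : 0 ≤ A * m * t := by positivity
    linarith
  · have := t3 G hA hf hg hfg (k := 0) (by omega) (z := 0) (ε := 0) (by simp) (by positivity)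
    simp only [add_zero] at this
    refine le_trans (le_of_eq ?_) (this.trans (le_of_eq (by ring)))
    congr 1; ring
  · refine up ?_ (by positivity)
    have := hg.lip (k := 0) (by omega) hq hp
    rw [add_sub_cancel_left, G.n1] at this
    exact this.trans (le_of_eq (by ring))
  · exact up (sec G hg (k := 0) (by omega)) (by positivity)
  · exact up (hg 1 (by omega) _ hp).2 (by positivity)
  · refine up ?_ (by positivity)
    have := hg.lip (k := 1) (by omega) hq hp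
    rw [add_sub_cancel_left, G.n1] at this
    exact this.trans (le_of_eq (by ring))
  · exact up (sec G hg (k := 1) (by omega)) (by positivity)

end tower

end Pool.Agent.P.MP_cc4a10_gt.KerZP
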