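import Pool.Agent.P.MP_cc4a10_gt.KerZ1

/-!
Difference estimates for the force kernel: the pole and the antilinear part.
-/

open Set Filter Topology Complex Metric
open scoped ComplexConjugate Real

noncomputable section

namespace Pool.Agent.P.MP_cc4a10_gt.KerZP

variable {m d t : ℝ} {p δ δ' a a' : ℂ}

theorem good_conj (G : Geo m d t p δ δ' a a') {b C0 : ℝ} (hC : 0 ≤ C0) (hb : |b - π| ≤ C0 * m)
    (hp : ‖p‖ ≤ 3 / 4) (hd1 : d ≤ 1 / 100) :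
    Good (fun w => -(b * conj w)) (fun w => -(π * conj w)) (fun _ => 0)
      (fun _ e => -(π * conj e)) (4 + 2 * C0) m d t p δ δ' a a' := by
  have hd := G.d0
  have ht := G.t0
  have hm := G.m0
  have hm1 := G.m1
  have hπ : π ≤ 3.15 := Real.pi_lt_d2.le
  have hπ0 := Real.pi_pos
  have t1 : 1 ≤ t := by have := G.td; nlinarith [norm_nonneg p]
  have t2 : 1 ≤ t ^ 2 := one_le_pow₀ t1
  have hb' : |b| ≤ 4 + 2 * C0 := by
    have := abs_add_le (b - π) π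
    rw [sub_add_cancel, abs_of_pos hπ0] at this
    nlinarith
  have nb : ∀ (c : ℝ) (z : ℂ), ‖(c : ℂ) * conj z‖ = |c| * ‖z‖ := fun c z => by simp
  have hap : ‖a - p‖ ≤ m := by have := G.ha; nlinarith
  have ha : ‖a‖ ≤ 4 / 5 := by
    have := norm_add_le (a - p) p; rw [sub_add_cancel] at this; linarith
  refine ⟨fun e he _ => ⟨?_, ?_, fun e' he' _ => ?_⟩, ?_, ?_, ?_, ?_, by simp; positivity,
    by simp; positivity, by simp; positivity⟩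
  · rw [norm_neg, nb]
    have := norm_add_le a e
    gcongr; linarith
  · rw [show -((b : ℂ) * conj (a + e)) - -(b * conj a) = -(b * conj e) by simp; ring, norm_neg, nb]
    gcongr
    nlinarith [norm_nonneg e]
  · rw [show (-((b : ℂ) * conj (a' + e')) - -(b * conj a') - -(π * conj e'))
      - (-(b * conj (a + e)) - -(b * conj a) - -(π * conj e))
      = -(((b - π : ℝ) : ℂ) * conj (e' - e)) by simp; ring, norm_neg, nb]
    have q0 : 0 ≤ m * ‖e' - e‖ := by positivity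
    have q1 : m * ‖e' - e‖ ≤ m * (‖e‖ * d * t ^ 3 + ‖e' - e‖ * t ^ 2)
        + (‖e‖ ^ 2 * d * t ^ 4 + ‖e‖ * ‖e' - e‖ * t ^ 3 + ‖e' - e‖ ^ 2 * t ^ 3) := by
      have r1 : 0 ≤ m * (‖e‖ * d * t ^ 3) := by positivity
      have r2 : 0 ≤ ‖e‖ ^ 2 * d * t ^ 4 + ‖e‖ * ‖e' - e‖ * t ^ 3 + ‖e' - e‖ ^ 2 * t ^ 3 := by
        positivity
      nlinarith
    calc |b - π| * ‖e' - e‖ ≤ C0 * m * ‖e' - e‖ := by gcongr
      _ ≤ (4 + 2 * C0) * (m * ‖e' - e‖) := by nlinarith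
      _ ≤ _ := by gcongr
  · rw [show -((b : ℂ) * conj a) - -(π * conj p)
      = -(((b - π : ℝ) : ℂ) * conj a + (π : ℝ) * conj (a - p)) by simp; ring, norm_neg]
    refine (norm_add_le _ _).trans ?_
    rw [nb, nb, abs_of_pos hπ0]
    have r1 : |b - π| * ‖a‖ ≤ C0 * m * 1 := by gcongr; linarith
    have r2 : π * ‖a - p‖ ≤ 4 * m := by gcongr; linarith
    have r3 : (4 + 2 * C0) * (m * 1) ≤ (4 + 2 * C0) * (m * t) := by gcongr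
    nlinarith [mul_nonneg hC hm]
  · rw [show (-((b : ℂ) * conj a') - -(π * conj (p + δ))) - (-(b * conj a) - -(π * conj p))
      = -(((b - π : ℝ) : ℂ) * conj (a' - a) + (π : ℝ) * conj (a' - a - δ)) by simp; ring, norm_neg]
    refine (norm_add_le _ _).trans ?_
    rw [nb, nb, abs_of_pos hπ0]
    have r0 : ‖a' - a‖ ≤ 2 * d := by
      have := norm_add_le (a' - a - δ) δ
      rw [sub_add_cancel, G.n1] at this
      have := G.haa; nlinarith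
    have r1 : |b - π| * ‖a' - a‖ ≤ C0 * m * (2 * d) := by gcongr
    have r2 : π * ‖a' - a - δ‖ ≤ 4 * (m * d) := by have := G.haa; gcongr; linarith
    have r3 : (4 + 2 * C0) * (m * d * 1) ≤ (4 + 2 * C0) * (m * d * t ^ 2) := by gcongr
    nlinarith
  · rw [show -((π : ℂ) * conj (p + δ)) - -(π * conj p) = -((π : ℝ) * conj δ) by simp; ring,
      norm_neg, nb, abs_of_pos hπ0, G.n1]
    gcongr
    · linarith
    · nlinarith
  · rw [show -((π : ℂ) * conj (p + δ + δ')) - -(π * conj (p + δ)) - -(π * conj (p + δ'))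
      + -(π * conj p) = 0 by simp; ring, norm_zero]
    positivity

/-- The derivatives of `1 / w`. -/
def iv (k : ℕ) (w : ℂ) : ℂ := (-1) ^ k * k.factorial * w⁻¹ ^ (k + 1)

theorem iv_der (k : ℕ) {w : ℂ} (hw : w ≠ 0) : HasDerivAt (iv k) (iv (k + 1) w) w := by
  have h := ((hasDerivAt_inv hw).pow (k + 1)).const_mul ((-1) ^ k * (k.factorial : ℂ))
  have e : iv (k + 1) w = (-1) ^ k * (k.factorial : ℂ)
      * (((k + 1 : ℕ) : ℂ) * w⁻¹ ^ (k + 1 - 1) * -(w ^ 2)⁻¹) := by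
    simp only [iv, Nat.factorial_succ, add_tsub_cancel_right, ← inv_pow]
    push_cast
    ring
  rw [e]; exact h

theorem tw_iv (G : Geo m d t p δ δ' a a') (hp : 7 * d ≤ ‖p‖) :
    Tw p (‖p‖ / 100 + 3 * d) iv 65536 t := by
  intro k hk w hw
  have hd := G.d0
  have ht := G.t0
  have h1 : ‖p‖ ≤ ‖w‖ + ‖w - p‖ := by
    have := norm_sub_le w (w - p); rwa [sub_sub_cancel] at this
  have h2 : 0 < ‖w‖ := by linarith
  have h3 : ‖w⁻¹‖ ≤ 3 * t := by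
    rw [norm_inv, inv_le_iff_one_le_mul₀ h2, ← G.td]
    nlinarith
  refine ⟨fun _ => iv_der k (norm_pos_iff.1 h2), ?_⟩
  have h4 : ‖iv k w‖ = k.factorial * ‖w⁻¹‖ ^ (k + 1) := by simp [iv]
  have h5 : (k.factorial : ℝ) ≤ 6 := by exact_mod_cast Nat.factorial_le hk
  have h6 : (3 : ℝ) ^ (k + 1) ≤ 3 ^ 4 := pow_le_pow_right₀ (by norm_num) (by omega)
  calc ‖iv k w‖ ≤ 6 * (3 * t) ^ (k + 1) := by rw [h4]; gcongr
    _ = 6 * 3 ^ (k + 1) * t ^ (k + 1) := by ring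
    _ ≤ _ := by gcongr; linarith

theorem inv_sub_le {x y : ℂ} (h : x = 0 ↔ y = 0) : ‖x⁻¹ - y⁻¹‖ = ‖x - y‖ * ‖x⁻¹‖ * ‖y⁻¹‖ := by
  by_cases hx : x = 0
  · simp [hx, h.1 hx]
  · have hy : y ≠ 0 := fun hy => hx (h.2 hy)
    rw [← norm_mul, ← norm_mul, ← norm_neg]; congr 1; field_simp; ring

theorem inv_pt (hd : 0 < d) (hm : m ≤ 1 / 100) {q x e : ℂ} (hq : q = 0 ∨ d ≤ ‖q‖)
    (hx : ‖x - q‖ ≤ m * ‖q‖) (he : ‖e‖ ≤ d / 10) (h0 : q = 0 → e = 0) :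
    (x + e = 0 ↔ q = 0) ∧ ‖(x + e)⁻¹‖ ≤ 2 * d⁻¹ := by
  rcases hq with hq | hq
  · have : x = 0 := by simpa [hq] using hx
    simp [hq, h0 hq, this, hd.le]
  · have h1 : ‖q‖ ≤ ‖x + e‖ + ‖x - q‖ + ‖e‖ := by
      have := norm_add₃_le (a := x + e) (b := -(x - q)) (c := -e)
      rwa [show x + e + -(x - q) + -e = q by ring, norm_neg, norm_neg] at this
    have h2 : d / 2 ≤ ‖x + e‖ := by nlinarith
    refine ⟨⟨fun h => ?_, fun h => ?_⟩, ?_⟩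
    · rw [h, norm_zero] at h2; linarith
    · rw [h, norm_zero] at hq; linarith
    · rw [norm_inv, show 2 * d⁻¹ = (d / 2)⁻¹ by field_simp]
      exact inv_anti₀ (by positivity) h2

theorem inv_pt2 (hd : 0 < d) (hm0 : 0 ≤ m) (hm : m ≤ 1 / 100) {q x e : ℂ} (hq : q = 0 ∨ d ≤ ‖q‖)
    (hx : ‖x - q‖ ≤ m * ‖q‖) (he : ‖e‖ ≤ d / 10) (h0 : q = 0 → e = 0) :
    ‖(x + e)⁻¹ - q⁻¹‖ ≤ 2 * m * d⁻¹ + 4 * ‖e‖ * d⁻¹ ^ 2 := by
  obtain ⟨h1, h2⟩ := inv_pt hd hm hq hx he h0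
  obtain ⟨-, h3⟩ := inv_pt hd hm (x := q) (e := 0) hq (by simp; positivity) (by simp; positivity)
    (fun _ => rfl)
  rw [add_zero] at h3
  rw [inv_sub_le h1]
  have h4 : ‖x + e - q‖ ≤ m * ‖q‖ + ‖e‖ := by
    rw [show x + e - q = (x - q) + e by ring]; exact (norm_add_le _ _).trans (by linarith)
  have h5 : ‖q‖ * ‖q⁻¹‖ ≤ 1 := by rw [norm_inv]; exact mul_inv_le_one
  calc _ ≤ (m * ‖q‖ + ‖e‖) * (2 * d⁻¹) * ‖q⁻¹‖ := by gcongr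
    _ = 2 * m * d⁻¹ * (‖q‖ * ‖q⁻¹‖) + ‖e‖ * (2 * d⁻¹) * ‖q⁻¹‖ := by ring
    _ ≤ 2 * m * d⁻¹ * 1 + ‖e‖ * (2 * d⁻¹) * (2 * d⁻¹) := by gcongr
    _ = _ := by ring

theorem inv_pt3 (hd : 0 < d) (hm0 : 0 ≤ m) (hm : m ≤ 1 / 100) {q x e : ℂ} (hq : q = 0 ∨ d ≤ ‖q‖)
    (hx : ‖x - q‖ ≤ m * ‖q‖) (he : ‖e‖ ≤ d / 10) (h0 : q = 0 → e = 0) :
    ‖iv 0 (x + e) - iv 0 x‖ ≤ 4 * ‖e‖ * d⁻¹ ^ 2 ∧
    ‖iv 0 (x + e) - iv 0 x - iv 1 q * e‖ ≤ 8 * (m * ‖e‖ * d⁻¹ ^ 2 + ‖e‖ ^ 2 * d⁻¹ ^ 3) := by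
  have z0 : ‖(0 : ℂ)‖ ≤ d / 10 := by simp; positivity
  obtain ⟨h1, h2⟩ := inv_pt hd hm hq hx he h0
  obtain ⟨h3, h4⟩ := inv_pt hd hm hq hx z0 (fun _ => rfl)
  obtain ⟨-, h5⟩ := inv_pt hd hm (x := q) (e := 0) hq (by simp; positivity) z0 (fun _ => rfl)
  have h6 := inv_pt2 hd hm0 hm hq hx he h0
  have h7 := inv_pt2 hd hm0 hm hq hx z0 (fun _ => rfl)
  simp only [add_zero, norm_zero, mul_zero, zero_mul] at h3 h4 h5 h7
  have i0 : ∀ w, iv 0 w = w⁻¹ := fun w => by simp [iv]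
  have i1 : ∀ w, iv 1 w = -w⁻¹ ^ 2 := fun w => by simp [iv]
  rw [i0, i0, i1]
  constructor
  · rw [inv_sub_le (h1.trans h3.symm), add_sub_cancel_left]
    calc _ ≤ ‖e‖ * (2 * d⁻¹) * (2 * d⁻¹) := by gcongr
      _ = _ := by ring
  · have e1 : (x + e)⁻¹ - x⁻¹ - -q⁻¹ ^ 2 * e
        = -(e * (q⁻¹ * (x⁻¹ - q⁻¹) + x⁻¹ * ((x + e)⁻¹ - q⁻¹))) := by
      by_cases hq0 : q = 0
      · simp [h0 hq0]
      · have hx0 : x ≠ 0 := fun h => hq0 (h3.1 h)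
        have hx1 : x + e ≠ 0 := fun h => hq0 (h1.1 h)
        field_simp; ring
    rw [e1, norm_neg, norm_mul]
    have e2 := norm_add_le (q⁻¹ * (x⁻¹ - q⁻¹)) (x⁻¹ * ((x + e)⁻¹ - q⁻¹))
    rw [norm_mul, norm_mul] at e2
    calc _ ≤ ‖e‖ * (‖q⁻¹‖ * ‖x⁻¹ - q⁻¹‖ + ‖x⁻¹‖ * ‖(x + e)⁻¹ - q⁻¹‖) := by gcongr
      _ ≤ ‖e‖ * (2 * d⁻¹ * (2 * m * d⁻¹) + 2 * d⁻¹ * (2 * m * d⁻¹ + 4 * ‖e‖ * d⁻¹ ^ 2)) := by
        gcongr
      _ = _ := by ring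

theorem good_near (G : Geo m d t p δ δ' a a') (hp : ‖p‖ ≤ 7 * d) (l0 : p = 0 ∨ d ≤ ‖p‖)
    (l1 : p + δ = 0 ∨ d ≤ ‖p + δ‖) (l2 : p + δ' = 0 ∨ d ≤ ‖p + δ'‖)
    (l3 : p + δ + δ' = 0 ∨ d ≤ ‖p + δ + δ'‖) :
    Good (iv 0) (iv 0) (iv 1) (fun q e => iv 1 q * e) (3 * 65536) m d t p δ δ' a a' := by
  have hd := G.d0
  have ht := G.t0
  have hm := G.m0
  have hm1 := G.m1
  have z0 : ‖(0 : ℂ)‖ ≤ d / 10 := by simp; positivity
  have i0 : ∀ w, iv 0 w = w⁻¹ := fun w => by simp [iv]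
  have i1 : ∀ w, iv 1 w = -w⁻¹ ^ 2 := fun w => by simp [iv]
  obtain ⟨D, hD⟩ : ∃ D, D = d⁻¹ := ⟨_, rfl⟩
  have D0 : 0 < D := by rw [hD]; positivity
  have dD : d * D = 1 := by rw [hD]; field_simp
  have Dt : D ≤ 8 * t := by
    rw [hD, inv_le_iff_one_le_mul₀ hd, ← G.td]; nlinarith
  have D2 : D ^ 2 ≤ 64 * t ^ 2 := by
    calc _ ≤ (8 * t) ^ 2 := by gcongr
      _ = _ := by ring
  have D3 : D ^ 3 ≤ 512 * t ^ 3 := by
    calc _ ≤ (8 * t) ^ 3 := by gcongr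
      _ = _ := by ring
  have D4 : D ^ 4 ≤ 4096 * t ^ 4 := by
    calc _ ≤ (8 * t) ^ 4 := by gcongr
      _ = _ := by ring
  have E1 : D ≤ 64 * (d * t ^ 2) := by
    calc D = d * D ^ 2 := by rw [pow_two, ← mul_assoc, dD, one_mul]
      _ ≤ d * (64 * t ^ 2) := by gcongr
      _ = _ := by ring
  have E2 : D ^ 2 ≤ 512 * (d * t ^ 3) := by
    calc D ^ 2 = (d * D) * D ^ 2 := by rw [dD, one_mul]
      _ = d * D ^ 3 := by ring
      _ ≤ d * (512 * t ^ 3) := by gcongr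
      _ = _ := by ring
  have E3 : D ^ 3 ≤ 4096 * (d * t ^ 4) := by
    calc D ^ 3 = (d * D) * D ^ 3 := by rw [dD, one_mul]
      _ = d * D ^ 4 := by ring
      _ ≤ d * (4096 * t ^ 4) := by gcongr
      _ = _ := by ring
  have E4 : D ≤ 512 * (d ^ 2 * t ^ 3) := by
    calc D = (d * D) ^ 2 * D := by rw [dD]; ring
      _ = d ^ 2 * D ^ 3 := by ring
      _ ≤ d ^ 2 * (512 * t ^ 3) := by gcongr
      _ = _ := by ring
  have E5 : D ^ 2 ≤ 4096 * (d ^ 2 * t ^ 4) := by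
    calc D ^ 2 = (d * D) ^ 2 * D ^ 2 := by rw [dD]; ring
      _ = d ^ 2 * D ^ 4 := by ring
      _ ≤ d ^ 2 * (4096 * t ^ 4) := by gcongr
      _ = _ := by ring
  have b0 : ∀ q : ℂ, (q = 0 ∨ d ≤ ‖q‖) → ‖iv 0 q‖ ≤ 2 * D ∧ ‖iv 1 q‖ ≤ 4 * D ^ 2 := fun q hq => by
    obtain ⟨-, h5⟩ := inv_pt hd hm1 (x := q) (e := 0) hq (by simp; positivity) z0 (fun _ => rfl)
    rw [add_zero, ← hD] at h5
    rw [i0, i1, norm_neg, norm_pow]
    refine ⟨h5, ?_⟩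
    calc _ ≤ (2 * D) ^ 2 := by gcongr
      _ = _ := by ring
  have n4 : ∀ x y z w : ℂ, ‖x - y - z + w‖ ≤ ‖x‖ + ‖y‖ + ‖z‖ + ‖w‖ := fun x y z w => by
    have := norm_add_le (x - y - z) w
    have := norm_sub_le (x - y) z
    have := norm_sub_le x y
    linarith
  have c0 := inv_pt2 hd hm hm1 l0 G.ha z0 (fun _ => rfl)
  have c1 := inv_pt2 hd hm hm1 l1 G.ha' z0 (fun _ => rfl)
  simp only [add_zero, norm_zero, mul_zero, zero_mul, ← hD, ← i0] at c0 c1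
  refine ⟨fun e he h0 => ⟨?_, ?_, fun e' he' h0' => ?_⟩, ?_, ?_, ?_, ?_, ?_, ?_, ?_⟩
  · have := (inv_pt hd hm1 l0 G.ha he h0).2
    rw [← hD, ← i0] at this; linarith
  · have := (inv_pt3 hd hm hm1 l0 G.ha he h0).1
    rw [← hD] at this
    have q : ‖e‖ * D ^ 2 ≤ ‖e‖ * (64 * t ^ 2) := by gcongr
    have q' : 0 ≤ ‖e‖ * t ^ 2 := by positivity
    linarith
  · have h1 := (inv_pt3 hd hm hm1 l0 G.ha he h0).2
    have h2 := (inv_pt3 hd hm hm1 l1 G.ha' he' h0').2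
    rw [← hD] at h1 h2
    have h3 : ‖e'‖ ≤ ‖e‖ + ‖e' - e‖ := by
      have := norm_add_le e (e' - e); rwa [add_sub_cancel] at this
    have h4 : 8 * (m * ‖e'‖ * D ^ 2 + ‖e'‖ ^ 2 * D ^ 3)
        ≤ 8 * (m * (‖e‖ + ‖e' - e‖) * D ^ 2 + (‖e‖ + ‖e' - e‖) ^ 2 * D ^ 3) := by gcongr
    refine (norm_sub_le _ _).trans ?_
    have q1 : m * ‖e‖ * D ^ 2 ≤ m * ‖e‖ * (512 * (d * t ^ 3)) := by gcongr
    have q2 : m * ‖e' - e‖ * D ^ 2 ≤ m * ‖e' - e‖ * (64 * t ^ 2) := by gcongr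
    have q3 : ‖e‖ ^ 2 * D ^ 3 ≤ ‖e‖ ^ 2 * (4096 * (d * t ^ 4)) := by gcongr
    have q4 : ‖e‖ * ‖e' - e‖ * D ^ 3 ≤ ‖e‖ * ‖e' - e‖ * (512 * t ^ 3) := by gcongr
    have q5 : ‖e' - e‖ ^ 2 * D ^ 3 ≤ ‖e' - e‖ ^ 2 * (512 * t ^ 3) := by gcongr
    have r1 : 0 ≤ m * ‖e‖ * (d * t ^ 3) := by positivity
    have r2 : 0 ≤ m * ‖e' - e‖ * t ^ 2 := by positivity
    have r3 : 0 ≤ ‖e‖ ^ 2 * (d * t ^ 4) := by positivity
    have r4 : 0 ≤ ‖e‖ * ‖e' - e‖ * t ^ 3 := by positivity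
    have r5 : 0 ≤ ‖e' - e‖ ^ 2 * t ^ 3 := by positivity
    linarith
  · have q : m * D ≤ m * (8 * t) := by gcongr
    have q' : 0 ≤ m * t := by positivity
    linarith
  · refine (norm_sub_le _ _).trans ?_
    have q : m * D ≤ m * (64 * (d * t ^ 2)) := by gcongr
    have q' : 0 ≤ m * d * t ^ 2 := by positivity
    linarith
  · refine (norm_sub_le _ _).trans ?_
    have := (b0 _ l0).1; have := (b0 _ l1).1
    linarith
  · refine (n4 _ _ _ _).trans ?_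
    have := (b0 _ l0).1; have := (b0 _ l1).1; have := (b0 _ l2).1; have := (b0 _ l3).1
    linarith
  · have := (b0 _ l0).2
    have q' : 0 ≤ t ^ 2 := by positivity
    linarith
  · refine (norm_sub_le _ _).trans ?_
    have := (b0 _ l0).2; have := (b0 _ l1).2
    have q' : 0 ≤ d * t ^ 3 := by positivity
    linarith
  · refine (n4 _ _ _ _).trans ?_
    have := (b0 _ l0).2; have := (b0 _ l1).2; have := (b0 _ l2).2; have := (b0 _ l3).2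
    have q' : 0 ≤ d ^ 2 * t ^ 4 := by positivity
    linarith

theorem good_iv (G : Geo m d t p δ δ' a a') (l0 : p = 0 ∨ d ≤ ‖p‖)
    (l1 : p + δ = 0 ∨ d ≤ ‖p + δ‖) (l2 : p + δ' = 0 ∨ d ≤ ‖p + δ'‖)
    (l3 : p + δ + δ' = 0 ∨ d ≤ ‖p + δ + δ'‖) :
    Good (iv 0) (iv 0) (iv 1) (fun q e => iv 1 q * e) (3 * 65536) m d t p δ δ' a a' := by
  rcases le_total ‖p‖ (7 * d) with hp | hp
  · exact good_near G hp l0 l1 l2 l3
  · refine good_tower G (by norm_num) (tw_iv G hp) (tw_iv G hp) fun k _ w _ => ?_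
    have := G.m0; have := G.t0
    simp; positivity

end Pool.Agent.P.MP_cc4a10_gt.KerZP
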