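import Pool.Agent.P.MP_cc4a10_gt.St

/-!
The linear estimate from the window estimate: sum the windows with weights.
-/

open Finset

namespace Pool.Agent.P.MP_cc4a10_gt.LTP

theorem bb_mono (j0 : ℕ) : StrictMono (bb j0) :=
  strictMono_nat_of_lt_succ fun i => by simp only [bb]; omega

theorem stg_le {j0 i : ℕ} {k : ℤ} (h : k.natAbs ≤ bb j0 i) : stg j0 k ≤ j0 + i := by
  unfold stg
  have hs : (range k.natAbs).filter (fun i' => bb j0 i' < k.natAbs) ⊆ range i := by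
    intro i' hi'
    have h2 := (mem_filter.1 hi').2
    exact mem_range.2 ((bb_mono j0).lt_iff_lt.1 (lt_of_lt_of_le h2 h))
  have := card_le_card hs
  rw [card_range] at this
  omega

theorem le_stg {j0 i : ℕ} {k : ℤ} (h : bb j0 i < k.natAbs) : j0 + i + 1 ≤ stg j0 k := by
  unfold stg
  have hs : range (i + 1) ⊆ (range k.natAbs).filter (fun i' => bb j0 i' < k.natAbs) := by
    intro i' hi'
    have h1 : bb j0 i' ≤ bb j0 i := (bb_mono j0).monotone (by have := mem_range.1 hi'; omega)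
    have h2 : i' ≤ bb j0 i' := (bb_mono j0).le_apply
    exact mem_filter.2 ⟨mem_range.2 (by omega), by omega⟩
  have := card_le_card hs
  rw [card_range] at this
  omega

theorem j0_le (j0 : ℕ) (k : ℤ) : j0 ≤ stg j0 k := by unfold stg; omega

theorem len_mono {a b : ℕ} (h : a ≤ b) : len a ≤ len b := by
  unfold len
  exact Nat.pow_le_pow_right (by norm_num) (by omega)

theorem len_succ (a : ℕ) : len (a + 1) ≤ 2 * len a := by
  unfold len
  rw [← pow_succ']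
  exact Nat.pow_le_pow_right (by norm_num) (by omega)

theorem len_ge {a : ℕ} (h : 10 ≤ a) : 32 ≤ len a := by
  unfold len
  calc 32 = 2 ^ 5 := by norm_num
    _ ≤ _ := Nat.pow_le_pow_right (by norm_num) (by omega)

theorem gap {j0 i : ℕ} {k K : ℤ} (h1 : stg j0 K ≤ j0 + i) (h2 : j0 + i + 2 ≤ stg j0 k) :
    K.natAbs + 2 * len (j0 + i + 1) < k.natAbs := by
  have a1 : K.natAbs ≤ bb j0 i := by
    by_contra h
    have := le_stg (not_le.1 h); omega
  have a2 : bb j0 (i + 1) < k.natAbs := by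
    by_contra h
    have := stg_le (not_lt.1 h); omega
  simp only [bb] at a2
  omega

/-- Stages differ by at most one inside a window. -/
theorem near {j0 : ℕ} {k K : ℤ} (h1 : k - 3 * wid j0 k ≤ K) (h2 : K ≤ k + 3 * wid j0 k) :
    stg j0 K ≤ stg j0 k + 1 ∧ stg j0 k ≤ stg j0 K + 1 := by
  have hk := j0_le j0 k
  have hK := j0_le j0 K
  unfold wid at h1 h2
  constructor
  · by_contra h
    obtain ⟨i, hi⟩ := Nat.exists_eq_add_of_le hk
    have g := gap (j0 := j0) (i := i) (k := K) (K := k) (by omega) (by omega)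
    have := len_mono (show stg j0 k ≤ j0 + i + 1 by omega)
    omega
  · by_contra h
    obtain ⟨i, hi⟩ : ∃ i, stg j0 k = j0 + i + 2 := ⟨stg j0 k - j0 - 2, by omega⟩
    have g := gap (j0 := j0) (i := i) (k := k) (K := K) (by omega) (by omega)
    have := len_succ (j0 + i + 1)
    rw [hi] at h1 h2
    rw [show j0 + i + 1 + 1 = j0 + i + 2 by rfl] at this
    omega

theorem wid_pos {j0 : ℕ} (h : 10 ≤ j0) (k : ℤ) : 1 ≤ wid j0 k := by
  have := len_ge (h.trans (j0_le j0 k))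
  unfold wid; omega

theorem wid_cmp {j0 : ℕ} {k K : ℤ} (h : stg j0 k ≤ stg j0 K + 1) :
    wid j0 k ≤ 2 * wid j0 K + 1 := by
  have a := len_mono h
  have b := len_succ (stg j0 K)
  unfold wid; omega

theorem mK_bd {j0 : ℕ} (h : 10 ≤ j0) (K : ℤ) :
    stg j0 K + 1 ≤ mK (SS j0) K ∧ mK (SS j0) K ≤ stg j0 K + 2 := by
  have w := wid_pos h K
  have a := near (j0 := j0) (k := K) (K := K - 1) (by omega) (by omega)
  simp only [mK, jl, SS]
  omega

theorem wid_le_NN {j0 i : ℕ} {K : ℤ} (h : K ∈ Icc (-NN j0 i : ℤ) (NN j0 i + 1)) :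
    wid j0 K ≤ NN j0 i := by
  have h1 := mem_Icc.1 h
  have h2 : K.natAbs ≤ bb j0 (i + 1) := by
    simp only [bb, NN] at h1 ⊢
    omega
  have h3 := len_mono (show stg j0 K ≤ j0 + i + 1 from stg_le h2)
  unfold wid NN
  omega

/-- The weight of the window at `k`. -/
noncomputable def wt (j0 : ℕ) (k : ℤ) : ℝ := 1 / tt (stg j0 k) ^ 40 / wid j0 k

theorem wt_nonneg (j0 : ℕ) (k : ℤ) : 0 ≤ wt j0 k := by
  have := tt_pos (stg j0 k)
  unfold wt; positivity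

theorem wt_le {j0 : ℕ} (h : 10 ≤ j0) {k K : ℤ}
    (a : stg j0 K ≤ stg j0 k + 1 ∧ stg j0 k ≤ stg j0 K + 1) :
    wt j0 k ≤ 1 / tt (mK (SS j0) K) ^ 40 * (3 / wid j0 K) := by
  have m := mK_bd h K
  have w1 := wid_pos h k
  have w2 := wid_pos h K
  have w3 := wid_cmp a.1
  have t1 := tt_pos (stg j0 k)
  have t2 := tt_pos (mK (SS j0) K)
  have t3 : tt (mK (SS j0) K) ≤ tt (stg j0 k) := tt_anti (by omega)
  have r1 : (1 : ℝ) ≤ wid j0 k := by exact_mod_cast w1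
  have r2 : (1 : ℝ) ≤ wid j0 K := by exact_mod_cast w2
  have r3 : (wid j0 K : ℝ) ≤ 3 * wid j0 k := by exact_mod_cast (by omega : wid j0 K ≤ 3 * wid j0 k)
  unfold wt
  rw [div_eq_mul_one_div (1 / _) (wid j0 k : ℝ)]
  have e : 1 / (wid j0 k : ℝ) ≤ 3 / wid j0 K := by
    rw [div_le_div_iff₀ (by linarith) (by linarith)]; linarith
  gcongr

theorem le_wt {j0 : ℕ} (h : 10 ≤ j0) {k K : ℤ}
    (a : stg j0 K ≤ stg j0 k + 1 ∧ stg j0 k ≤ stg j0 K + 1) :
    1 / tt (mK (SS j0) K) ^ 40 / 64 * (1 / (3 * wid j0 K)) ≤ wt j0 k := by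
  have m := mK_bd h K
  have w1 := wid_pos h k
  have w2 := wid_pos h K
  have w3 := wid_cmp a.2
  have t1 := tt_pos (stg j0 k)
  have t2 := tt_pos (mK (SS j0) K)
  have u1 := tt_pow_le (m := stg j0 k) (n := stg j0 k + 1) le_rfl (k := 40) (by norm_num)
  have u2 := tt_pow_le (m := stg j0 k + 1) (n := stg j0 k + 2) le_rfl (k := 40) (by norm_num)
  have u3 := tt_pow_le (m := stg j0 k + 2) (n := mK (SS j0) K) (by omega) (k := 40) (by norm_num)
  have r1 : (1 : ℝ) ≤ wid j0 k := by exact_mod_cast w1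
  have r3 : (wid j0 k : ℝ) ≤ 3 * wid j0 K := by exact_mod_cast (by omega : wid j0 k ≤ 3 * wid j0 K)
  unfold wt
  rw [div_eq_mul_one_div (1 / tt (stg j0 k) ^ 40) (wid j0 k : ℝ)]
  have e : 1 / tt (mK (SS j0) K) ^ 40 / 64 ≤ 1 / tt (stg j0 k) ^ 40 := by
    rw [div_div, div_le_div_iff₀ (by positivity) (by positivity)]; linarith
  gcongr

theorem hi {j0 : ℕ} (h : 10 ≤ j0) (I : Finset ℤ) (K : ℤ) :
    ∑ k ∈ I, (if K ∈ Icc (k - 3 * wid j0 k) (k + 3 * wid j0 k) then wt j0 k else 0)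
      ≤ 57 * (1 / tt (mK (SS j0) K) ^ 40) := by
  have w2 := wid_pos h K
  have r2 : (1 : ℝ) ≤ wid j0 K := by exact_mod_cast w2
  have t2 := tt_pos (mK (SS j0) K)
  rw [← sum_filter]
  have hs : I.filter (fun k => K ∈ Icc (k - 3 * wid j0 k) (k + 3 * wid j0 k))
      ⊆ Icc (K - 9 * wid j0 K) (K + 9 * wid j0 K) := by
    intro k hk
    have h1 := mem_Icc.1 (mem_filter.1 hk).2
    have h2 := wid_cmp (near h1.1 h1.2).2
    exact mem_Icc.2 (by omega)
  have hc : ((I.filter (fun k => K ∈ Icc (k - 3 * wid j0 k) (k + 3 * wid j0 k))).card : ℝ)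
      ≤ 19 * wid j0 K := by
    have := card_le_card hs
    rw [Int.card_Icc] at this
    exact_mod_cast (by omega : (I.filter
      (fun k => K ∈ Icc (k - 3 * wid j0 k) (k + 3 * wid j0 k))).card ≤ 19 * wid j0 K)
  calc _ ≤ ∑ k ∈ I.filter (fun k => K ∈ Icc (k - 3 * wid j0 k) (k + 3 * wid j0 k)),
        1 / tt (mK (SS j0) K) ^ 40 * (3 / wid j0 K) := by
        refine sum_le_sum fun k hk => ?_
        have h1 := mem_Icc.1 (mem_filter.1 hk).2
        exact wt_le h (near h1.1 h1.2)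
    _ ≤ (19 * wid j0 K) * (1 / tt (mK (SS j0) K) ^ 40 * (3 / wid j0 K)) := by
        rw [sum_const, nsmul_eq_mul]; gcongr
    _ = _ := by field_simp; norm_num

theorem lo {j0 i : ℕ} (h : 10 ≤ j0) {K : ℤ} (hK : K ∈ Icc (-NN j0 i : ℤ) (NN j0 i + 1)) :
    1 / 384 * (1 / tt (mK (SS j0) K) ^ 40) ≤ ∑ k ∈ Icc (-NN j0 i : ℤ) (NN j0 i + 1),
      (if K ∈ Icc (k - wid j0 k) (k + wid j0 k) then wt j0 k else 0) := by
  have w2 := wid_pos h K
  have r2 : (1 : ℝ) ≤ wid j0 K := by exact_mod_cast w2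
  have t2 := tt_pos (mK (SS j0) K)
  have w3 := wid_le_NN hK
  have hK' := mem_Icc.1 hK
  obtain ⟨a, ha1, ha2, ha3, ha4⟩ : ∃ a : ℤ, -NN j0 i ≤ a ∧
      a + (wid j0 K / 2 : ℕ) ≤ NN j0 i + 1 ∧ a ≤ K ∧ K ≤ a + (wid j0 K / 2 : ℕ) := by
    rcases le_total 0 K with h0 | h0
    · exact ⟨K - (wid j0 K / 2 : ℕ), by omega, by omega, by omega, by omega⟩
    · exact ⟨K, by omega, by omega, by omega, by omega⟩
  have hn : ∀ k ∈ Icc a (a + (wid j0 K / 2 : ℕ)),
      stg j0 K ≤ stg j0 k + 1 ∧ stg j0 k ≤ stg j0 K + 1 := fun k hk => by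
    have h1 := mem_Icc.1 hk
    exact (near (j0 := j0) (k := K) (K := k) (by omega) (by omega)).symm
  rw [← sum_filter]
  have hs : Icc a (a + (wid j0 K / 2 : ℕ)) ⊆ (Icc (-NN j0 i : ℤ) (NN j0 i + 1)).filter
      (fun k => K ∈ Icc (k - wid j0 k) (k + wid j0 k)) := by
    intro k hk
    have h1 := mem_Icc.1 hk
    have h2 := wid_cmp (hn k hk).1
    exact mem_filter.2 ⟨mem_Icc.2 (by omega), mem_Icc.2 (by omega)⟩
  have hc : (wid j0 K : ℝ) / 2 ≤ (Icc a (a + (wid j0 K / 2 : ℕ))).card := by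
    rw [Int.card_Icc, div_le_iff₀ (by norm_num)]
    exact_mod_cast (by omega : wid j0 K ≤ (a + (wid j0 K / 2 : ℕ) + 1 - a).toNat * 2)
  calc _ = (wid j0 K : ℝ) / 2 * (1 / tt (mK (SS j0) K) ^ 40 / 64 * (1 / (3 * wid j0 K))) := by
        field_simp; norm_num
    _ ≤ ∑ k ∈ Icc a (a + (wid j0 K / 2 : ℕ)),
        1 / tt (mK (SS j0) K) ^ 40 / 64 * (1 / (3 * wid j0 K)) := by
        rw [sum_const, nsmul_eq_mul]; gcongr
    _ ≤ ∑ k ∈ Icc a (a + (wid j0 K / 2 : ℕ)), wt j0 k :=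
        sum_le_sum fun k hk => le_wt h (hn k hk)
    _ ≤ _ := sum_le_sum_of_subset_of_nonneg hs fun k _ _ => wt_nonneg j0 k

/-- Summation of the windows. -/
theorem absorb (I : Finset ℤ) (A B : ℤ → Finset ℤ) (n f b a : ℤ → ℝ) (c D : ℝ)
    (hn : ∀ K, 0 ≤ n K) (hf : ∀ K, 0 ≤ f K) (hb : ∀ k, 0 ≤ b k)
    (hlo : ∀ K ∈ I, c * a K ≤ ∑ k ∈ I, if K ∈ A k then b k else 0)
    (hhi : ∀ K ∈ I, ∑ k ∈ I, (if K ∈ B k then b k else 0) ≤ D * a K)
    (hw : ∀ k ∈ I, ∑ K ∈ A k, n K ≤ ∑ K ∈ B k ∩ I, f K) :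
    c * ∑ K ∈ I, n K * a K ≤ D * ∑ K ∈ I, f K * a K := by
  have e : ∀ (g : ℤ → ℝ) (X : ℤ → Finset ℤ),
      ∑ K ∈ I, g K * ∑ k ∈ I, (if K ∈ X k then b k else 0)
        = ∑ k ∈ I, b k * ∑ K ∈ X k ∩ I, g K := fun g X => by
    simp only [mul_sum]
    rw [sum_comm]
    refine sum_congr rfl fun k _ => ?_
    rw [inter_comm, ← filter_mem_eq_inter, sum_filter]
    refine sum_congr rfl fun K _ => ?_
    split_ifs <;> ring
  calc _ = ∑ K ∈ I, n K * (c * a K) := by rw [mul_sum]; exact sum_congr rfl fun K _ => by ring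
    _ ≤ ∑ K ∈ I, n K * ∑ k ∈ I, (if K ∈ A k then b k else 0) :=
        sum_le_sum fun K hK => mul_le_mul_of_nonneg_left (hlo K hK) (hn K)
    _ = ∑ k ∈ I, b k * ∑ K ∈ A k ∩ I, n K := e n A
    _ ≤ ∑ k ∈ I, b k * ∑ K ∈ B k ∩ I, f K := by
        refine sum_le_sum fun k hk => mul_le_mul_of_nonneg_left (le_trans ?_ (hw k hk)) (hb k)
        exact sum_le_sum_of_subset_of_nonneg inter_subset_left fun K _ _ => hn K
    _ = ∑ K ∈ I, f K * ∑ k ∈ I, (if K ∈ B k then b k else 0) := (e f B).symm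
    _ ≤ ∑ K ∈ I, f K * (D * a K) :=
        sum_le_sum fun K hK => mul_le_mul_of_nonneg_left (hhi K hK) (hf K)
    _ = _ := by rw [mul_sum]; exact sum_congr rfl fun K _ => by ring

theorem nT_nonneg (S : Sys) (v : Vec) (K : ℤ) : 0 ≤ nT S v K := by
  unfold nT nb2
  have a := g2_nonneg (lvT S K).m (eT S v K)
  have b := msq_nonneg (lvT S K).m (fun u => (sT S v K u : ℂ))
  positivity

end Pool.Agent.P.MP_cc4a10_gt.LTP

namespace Pool.Agent.P.MP_cc4a10_gt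

open LTP in
theorem pLT (h1 : S_Win) : S_LT := by
  intro E
  obtain ⟨C, hC, hw⟩ := h1 E
  obtain ⟨j1, hj⟩ := hw (1 / (768 * 57)) (by norm_num)
  refine ⟨768 * 57 * C, max j1 10, by positivity, fun j0 i h0 v e hv => ?_⟩
  have h10 : 10 ≤ j0 := le_trans (le_max_right _ _) h0
  have key := absorb (Icc (-NN j0 i : ℤ) (NN j0 i + 1))
    (fun k => Icc (k - wid j0 k) (k + wid j0 k))
    (fun k => Icc (k - 3 * wid j0 k) (k + 3 * wid j0 k)) (nT (SS j0) v)
    (fun K => C * e K ^ 2 + 1 / (768 * 57) * nT (SS j0) v K) (wt j0)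
    (fun K => 1 / tt (mK (SS j0) K) ^ 40) (1 / 384) 57 (nT_nonneg _ _)
    (fun K => by have := nT_nonneg (SS j0) v K; positivity) (wt_nonneg j0)
    (fun K hK => lo h10 hK) (fun K _ => hi h10 _ K)
    (hj j0 i (le_trans (le_max_left _ _) h0) v e hv)
  have e1 : ∑ K ∈ Icc (-NN j0 i : ℤ) (NN j0 i + 1),
      (C * e K ^ 2 + 1 / (768 * 57) * nT (SS j0) v K) * (1 / tt (mK (SS j0) K) ^ 40)
      = C * ∑ K ∈ Icc (-NN j0 i : ℤ) (NN j0 i + 1), e K ^ 2 / tt (mK (SS j0) K) ^ 40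
        + 1 / (768 * 57) * ∑ K ∈ Icc (-NN j0 i : ℤ) (NN j0 i + 1),
          nT (SS j0) v K / tt (mK (SS j0) K) ^ 40 := by
    rw [mul_sum, mul_sum, ← sum_add_distrib]
    exact sum_congr rfl fun K _ => by ring
  have e2 : ∑ K ∈ Icc (-NN j0 i : ℤ) (NN j0 i + 1),
      nT (SS j0) v K * (1 / tt (mK (SS j0) K) ^ 40) = ∑ K ∈ Icc (-NN j0 i : ℤ) (NN j0 i + 1),
          nT (SS j0) v K / tt (mK (SS j0) K) ^ 40 := sum_congr rfl fun K _ => by ring
  rw [e1, e2] at key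
  linarith

end Pool.Agent.P.MP_cc4a10_gt

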