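import Pool.Agent.P.MP_cc4a10_gt.Defs

/-!
Definitions for the linear theory (Bloch functions, symbols, mode systems) and for the geometric
part (Weierstrass data, pieces of the surface).
-/

open Set Filter Topology Complex
open scoped ComplexConjugate Real

noncomputable section

namespace Pool.Agent.P.MP_cc4a10_gt

/-- The real linear map `h ↦ a h - conj (b h)`. -/
def wl (a b : ℂ) : ℂ →L[ℝ] ℂ :=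
  ContinuousLinearMap.mul ℝ ℂ a - (conjCLE : ℂ →L[ℝ] ℂ).comp (ContinuousLinearMap.mul ℝ ℂ b)
/-- The real linear form `h ↦ Re (a h)`. -/
def hl (a : ℂ) : ℂ →L[ℝ] ℝ := reCLM.comp (ContinuousLinearMap.mul ℝ ℂ a)

/-! ### Symbols -/

def dot (θ z : ℂ) : ℝ := (conj θ * z).re
def ex (θ z : ℂ) : ℂ := exp (-I * dot θ z)
def hf : ℂ := (1 + I) / 2
def NL (z : ℂ) : Prop := ∀ w : GI, z ≠ w
/-- `θ` lies in the closed square and is not zero. -/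
def Sq (θ : ℂ) : Prop := θ ≠ 0 ∧ |θ.re| ≤ π ∧ |θ.im| ≤ π

structure Sy where
  p : ℂ
  c : ℂ
  ch : ℂ
  z0 : ℂ
  z1 : ℂ
  zh : ℂ
  g0 : ℂ
  g1 : ℂ
  gh : ℂ

/-- Bloch function with simple poles on the lattice, and its potential. -/
structure BD (θ : ℂ) where
  f : ℂ → ℂ
  g : ℂ → ℂ
  γ : ℂ → ℂ
  g0 : ℂ
  df : ∀ z, NL z → DifferentiableAt ℂ f z
  bl : ∀ z (w : GI), f (z + w) = exp (I * dot θ w) * f z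
  hg : DifferentiableOn ℂ g (Metric.ball 0 (9 / 10))
  loc : ∀ z, ‖z‖ < 9 / 10 → z ≠ 0 → f z = z⁻¹ + g z
  hγ : ∀ z, NL z → HasFDerivAt γ (wl (f z / 2) (f (-z) / 2)) z
  blγ : ∀ z (w : GI), γ (z + w) = exp (I * dot θ w) * γ z
  lim : Tendsto (fun z => γ z - Real.log ‖z‖) (𝓝[≠] 0) (𝓝 g0)

def BD.sy {θ : ℂ} (b : BD θ) : Sy :=
  ⟨-deriv b.g 0, -deriv b.f (1 / 2) * ex θ (1 / 2), -deriv b.f hf * ex θ hf,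
    b.g 0, b.f (1 / 2) * ex θ (1 / 2), b.f hf * ex θ hf,
    b.g0, b.γ (1 / 2) * ex θ (1 / 2), b.γ hf * ex θ hf⟩

def thq (j : ℕ) (κ : GI) : ℂ := 2 * π * κ * conj al ^ j
def sW (E : Ell) (j : ℕ) (κ : GI) (o : ℂ) : ℂ :=
  al ^ (2 * j) * ts j (fun w => E.wp (al ^ j * (o + w)) * ex (thq j κ) (o + w))
def sZ (E : Ell) (j : ℕ) (κ : GI) (o : ℂ) : ℂ :=
  al ^ j * ts j (fun w => E.Z 0 (al ^ j * (o + w)) * ex (thq j κ) (o + w))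
def sG (E : Ell) (j : ℕ) (κ : GI) (o : ℂ) : ℂ :=
  ts j (fun w => (E.Gr 0 (al ^ j * (o + w)) : ℂ) * ex (thq j κ) (o + w))
/-- Symbols as finite sums over the torus. -/
def syT (E : Ell) (j : ℕ) (κ : GI) : Sy :=
  ⟨sW E j κ 0, sW E j κ (1 / 2), sW E j κ hf, sZ E j κ 0, sZ E j κ (1 / 2), sZ E j κ hf,
    sG E j κ 0 - ((j : ℝ) / 2 * Real.log 2 : ℝ), sG E j κ (1 / 2), sG E j κ hf⟩
def LL (j : ℕ) : ℝ := (j : ℝ) / 2 * Real.log 2 - 1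
def ee (E : Ell) : ℝ := (E.wp (1 / 2)).re

/-- Explicit series. -/
def UU (w : ℂ) : ℂ := (exp w - 1)⁻¹
def cth (w : ℂ) : ℂ := cosh w / sinh w
def hk (k : ℕ) (θ : ℂ) : ℂ :=
  (2 * π * (k + 1) + θ.re) * UU (2 * π * (k + 1) + θ)
    + (2 * π * (k + 1) - θ.re) * UU (2 * π * (k + 1) - θ)
def fE (θ z : ℂ) : ℂ :=
  exp (I * θ.re * z) * (π * cot (π * z) - π * I * cth (θ / 2) + 2 * π * I * ∑' k : ℕ,
    (exp (-2 * π * I * (k + 1) * z) * UU (2 * π * (k + 1) - θ)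
      - exp (2 * π * I * (k + 1) * z) * UU (2 * π * (k + 1) + θ)))
def eE : ℝ := 2 * π ^ 2 / 3 +
  16 * π ^ 2 * ∑' k : ℕ, (2 * k + 1) / (Real.exp (2 * π * (2 * k + 1)) - 1)
def pE (θ : ℂ) : ℂ :=
  π ^ 2 / 3 + θ.re ^ 2 / 2 - π * θ.re * cth (θ / 2) - 2 * π * ∑' k : ℕ, hk k θ
def cE (θ : ℂ) : ℂ :=
  π ^ 2 - π * θ.re * cth (θ / 2) + 2 * π * ∑' k : ℕ, (-1) ^ k * hk k θ
def OmE (θ : ℂ) : ℂ := (eE + pE θ) ^ 2 - cE θ ^ 2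
def Om (e : ℝ) (s : Sy) : ℂ := (e + s.p) ^ 2 - s.c ^ 2

/-! ### Mode systems -/

structure T3 where
  x : ℂ
  X : ℂ
  s : ℂ

instance : Zero T3 := ⟨⟨0, 0, 0⟩⟩

def tp (t : T3) (a b c : ℂ) : ℂ := conj t.X * a / 2 + conj t.x * b / 2 + conj t.s * c
def bU1 (D c z0 z1 g g1 : ℂ) (A B A' : T3) : ℂ :=
  tp A' (D * A.x - c * B.x + z0 * A.s - z1 * B.s)
    (conj D * A.X - conj c * B.X - (conj z0 * A.s - conj z1 * B.s))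
    (-(z0 * A.x - z1 * B.x) / 2 + (conj z0 * A.X - conj z1 * B.X) / 2 + g * A.s - g1 * B.s)
/-- Form of a uniform level between the layers `A` and `B`. -/
def bU (D c z0 z1 g g1 : ℂ) (A B A' B' : T3) : ℂ :=
  bU1 D c z0 z1 g g1 A B A' + bU1 D c z0 z1 g g1 B A B'
def kp : ℂ := (1 - I) / 2
/-- Uniform level of the coarse stage and of the fine stage. -/
def bP (e L : ℝ) (s : Sy) : T3 → T3 → T3 → T3 → ℂ :=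
  bU (e + s.p) s.c s.z0 s.z1 (s.g0 - L) s.g1
def bC (e L : ℝ) (s : Sy) : T3 → T3 → T3 → T3 → ℂ :=
  bU (-I * (e + s.p)) (-I * s.c) (kp * s.z0) (kp * s.z1) ((s.g0 - L) / 2) (s.g1 / 2)
/-- Form of the transition level: `A` coarse, `B` and `C` the two fine modes. -/
def bT (e L L' : ℝ) (s s1 s2 : Sy) (A B C A' B' C' : T3) : ℂ :=
  tp A' (s.p * A.x + I * s1.ch * B.x - I * s2.ch * C.x + s.z0 * A.s
        - kp * (s1.zh * B.s - s2.zh * C.s))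
      (conj s.p * A.X + conj (I * s1.ch) * B.X - conj (I * s2.ch) * C.X - (conj s.z0 * A.s
        - (conj (kp * s1.zh) * B.s - conj (kp * s2.zh) * C.s)))
      (-(s.z0 * A.x - conj s.z0 * A.X) / 2 + (kp * (s1.zh * B.x - s2.zh * C.x)
        - (conj (kp * s1.zh) * B.X - conj (kp * s2.zh) * C.X)) / 2
        + (s.g0 - L) * A.s - (s1.gh * B.s - s2.gh * C.s) / 2)
  + tp B' (-I * s1.p * B.x + e * C.x + I * s1.ch * A.x + kp * s1.z0 * B.s - kp * s1.zh * A.s)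
      (conj (-I * s1.p) * B.X + e * C.X + conj (I * s1.ch) * A.X
        - (conj (kp * s1.z0) * B.s - conj (kp * s1.zh) * A.s))
      (-(kp * s1.z0 * B.x - conj (kp * s1.z0) * B.X) / 2
        + (kp * s1.zh * A.x - conj (kp * s1.zh) * A.X) / 2
        + (s1.g0 - L') / 2 * B.s - s1.gh / 2 * A.s)
  + tp C' (-I * s2.p * C.x + e * B.x - I * s2.ch * A.x + kp * s2.z0 * C.s + kp * s2.zh * A.s)
      (conj (-I * s2.p) * C.X + e * B.X - conj (I * s2.ch) * A.X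
        - (conj (kp * s2.z0) * C.s + conj (kp * s2.zh) * A.s))
      (-(kp * s2.z0 * C.x - conj (kp * s2.z0) * C.X) / 2
        - (kp * s2.zh * A.x - conj (kp * s2.zh) * A.X) / 2
        + (s2.g0 - L') / 2 * C.s + s2.gh / 2 * A.s)

def n1 (L : ℝ) (A : T3) : ℝ := ‖A.x‖ ^ 2 + ‖A.X‖ ^ 2 + L * ‖A.s‖ ^ 2
/-- Mode norm of a level, `r` the size of the frequency. -/
def nU (r L : ℝ) (A B : T3) : ℝ :=
  ‖A.x - B.x‖ ^ 2 + ‖A.X - B.X‖ ^ 2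
    + r ^ 2 * (‖A.x‖ ^ 2 + ‖A.X‖ ^ 2 + ‖B.x‖ ^ 2 + ‖B.X‖ ^ 2)
    + L * (‖A.s‖ ^ 2 + ‖B.s‖ ^ 2) + ‖A.s - B.s‖ ^ 2 / r ^ 2

/-- One chain: `a n`, levels between `n` and `n + 1`. -/
def bM1 (e L : ℝ) (s : Sy) (N : ℕ) (a a' : ℕ → T3) : ℂ :=
  ∑ n ∈ Finset.range N, bP e L s (a n) (a (n + 1)) (a' n) (a' (n + 1))
def nM1 (r L : ℝ) (N : ℕ) (a : ℕ → T3) : ℝ := ∑ n ∈ Finset.range N, nU r L (a n) (a (n + 1))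
/-- Three chains joined at the transition level. -/
def bM3 (e L L' : ℝ) (s s1 s2 : Sy) (N : ℕ) (a b c a' b' c' : ℕ → T3) : ℂ :=
  bM1 e L s N a a' + bT e L L' s s1 s2 (a 0) (b 0) (c 0) (a' 0) (b' 0) (c' 0)
    + ∑ n ∈ Finset.range N, (bC e L' s1 (b n) (b (n + 1)) (b' n) (b' (n + 1))
      + bC e L' s2 (c n) (c (n + 1)) (c' n) (c' (n + 1)))
def nM3 (r L : ℝ) (N : ℕ) (a b c : ℕ → T3) : ℝ :=
  nM1 r L N a + nU r L (a 0) (b 0) + nM1 r L N b + ∑ n ∈ Finset.range (N + 1), n1 L (c n)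
def Fs (N : ℕ) (a : ℕ → T3) : Prop := ∀ n, N ≤ n → a n = 0

def Bd (C : ℝ) (s : Sy) : Prop :=
  ‖s.p‖ ≤ C ∧ ‖s.c‖ ≤ C ∧ ‖s.ch‖ ≤ C ∧ ‖s.z0‖ ≤ C ∧ ‖s.z1‖ ≤ C ∧ ‖s.zh‖ ≤ C ∧
    ‖s.g0‖ ≤ C ∧ ‖s.g1‖ ≤ C ∧ ‖s.gh‖ ≤ C
def Gap (η e : ℝ) (s : Sy) (Z : ℂ) : Prop :=
  Z ^ 2 = Om e s ∧ ‖s.c‖ ≤ (1 - η) * ‖e + s.p + Z‖ ∧ η ≤ ‖e + s.p + Z‖
def det3 (e : ℝ) (s s1 s2 : Sy) (Z Z1 Z2 : ℂ) : ℂ :=
  Matrix.det !![Z + s.p, I * s1.ch, -I * s2.ch; I * s1.ch, -I * (Z1 + s1.p), e;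
    -I * s2.ch, e, -I * (Z2 + s2.p)]
def wq : ℂ := exp (π / 4 * I)
/-- Asymptotics valid on the whole square. -/
structure Asy (C : ℝ) (θ : ℂ) (s : Sy) : Prop where
  z0 : ‖s.z0 + 2 * π * I / θ‖ ≤ C * ‖θ‖
  z1 : ‖s.z1 + 2 * π * I / θ‖ ≤ C * ‖θ‖
  zh : ‖s.zh + 2 * π * I / θ‖ ≤ C * ‖θ‖
  g0 : ‖s.g0 + 2 * π / ‖θ‖ ^ 2‖ ≤ C
  g1 : ‖s.g1 + 2 * π / ‖θ‖ ^ 2‖ ≤ C
  gh : ‖s.gh + 2 * π / ‖θ‖ ^ 2‖ ≤ C
/-- Low frequency hypotheses for one chain. -/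
structure LowH (C c0 e : ℝ) (θ : ℂ) (s : Sy) : Prop extends Asy C θ s where
  p : ‖s.p + π * conj θ / θ‖ ≤ C * ‖θ‖
  c : ‖s.c - e + π * conj θ / θ‖ ≤ C * ‖θ‖
  ch : ‖s.p - s.ch‖ ≤ C * ‖θ‖ ^ 2
  up : ‖e + s.p - s.c‖ ≤ C * ‖θ‖ ^ 2
  lo1 : c0 * ‖θ‖ ^ 2 ≤ (wq * (e + s.p - s.c)).re
  lo2 : c0 * ‖θ‖ ^ 2 ≤ (conj wq * (e + s.p - s.c)).re
/-- Low frequency hypotheses for the second child. -/
structure LowP (C e r : ℝ) (s s1 s2 : Sy) : Prop where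
  bd : Bd C s2
  p : ‖s2.p‖ ≤ C * r ^ 2
  c : ‖s2.c‖ ≤ C * r
  ch : ‖e - I * s2.ch‖ ≤ C * r
  zh : ‖s2.zh‖ ≤ C * r
  pc : ‖s.p + I * s1.ch‖ ≤ C * r ^ 2

/-- Character, Fourier coefficients of layer `k` in the units of stage `J`, synthesis. -/
def chi (κ : GI) (z : ℂ) : ℂ := exp (2 * π * I * dot κ z)
def hat (S : Sys) (J : ℕ) (v : Vec) (k : ℤ) (κ : GI) : T3 :=
  ⟨av (S.st k) (fun w => v.1 k (lp S k w) * conj (chi κ (lp S k w))) / al ^ J,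
   av (S.st k) (fun w => conj (v.1 k (lp S k w)) * conj (chi κ (lp S k w))) / conj al ^ J,
   av (S.st k) (fun w => (v.2 k (lp S k w) : ℂ) * conj (chi κ (lp S k w)))⟩
open Classical in
def syn (S : Sys) (J : ℕ) (R : ℤ → Finset GI) (a : ℤ → GI → T3) : Vec :=
  (fun k z => if ∃ w, z = lp S k w then al ^ J / 2 *
      ∑ κ ∈ R k, ((a k κ).x * chi κ z + conj (a k κ).X * conj (chi κ z)) else 0,
   fun k z => if ∃ w, z = lp S k w then (∑ κ ∈ R k, (a k κ).s * chi κ z).re else 0)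
/-- `R` is a system of representatives modulo `(1+i)^j`. -/
def Rep (j : ℕ) (R : Finset GI) : Prop :=
  (∀ κ ∈ R, ∀ κ' ∈ R, om ^ j ∣ κ - κ' → κ = κ') ∧ ∀ κ, ∃ κ' ∈ R, om ^ j ∣ κ - κ'
/-- Representatives with frequency in the square. -/
def RepS (j : ℕ) (R : Finset GI) : Prop :=
  Rep j R ∧ 0 ∈ R ∧ ∀ κ ∈ R, κ ≠ 0 → Sq (thq j κ)
/-- Representatives for the next stage. -/
def R2 (j : ℕ) (R : Finset GI) : Finset GI := R ∪ R.image (fun κ => κ + om ^ j)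

/-! ### Geometry -/

def mkE (w : ℂ) (x : ℝ) : E3 := !₂[w.re, w.im, x]
def hz (x : E3) : ℂ := ⟨x 0, x 1⟩

/-- Pieces of the surface: level `K` is a graph, layer `k` consists of necks between the levels
`k` and `k + 1`. -/
structure Pieces where
  Ω : ℤ → Set ℂ
  co : ℤ → Set ℂ
  cl : ℤ → Set ℂ
  X : ℤ → ℂ → E3
  nk : ℤ → Set GI
  Y : ℤ → GI → ℂ → E3
  r1 : ℤ → GI → ℝ
  r2 : ℤ → GI → ℝ
  η : ℤ → GI → ℝ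
  β : ℤ → GI → ℝ
  cen : ℤ → GI → ℂ
  a1 : ℤ → ℝ
  a2 : ℤ → ℝ
  b1 : ℤ → ℝ
  b2 : ℤ → ℝ
  D : ℤ → ℝ
  M : Set E3
  hM : M = (⋃ K, X K '' co K) ∪ ⋃ k, ⋃ u ∈ nk k, Y k u '' An (r1 k u) (r2 k u)
  ord : ∀ k, a1 k < b2 (k - 1) ∧ b2 (k - 1) < b1 k ∧ b1 k < a2 k ∧ a2 k < a1 (k + 1)
  bdd : ∃ H, ∀ k, |a1 k| ≤ H
  oΩ : ∀ K, IsOpen (Ω K)
  mX : ∀ K, IsMinImm (Ω K) (X K)
  gr : ∀ K, ∀ z ∈ Ω K, ∀ z' ∈ Ω K, ‖z - z'‖ / 2 ≤ ‖hz (X K z) - hz (X K z')‖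
  ccl : ∀ K, IsClosed (cl K) ∧ cl K ⊆ Ω K ∧
    ∀ z ∈ Ω K, X K z 2 ∈ Ioo (a1 K) (a2 K) → z ∈ cl K
  cco : ∀ K, IsPreconnected (co K) ∧ co K ⊆ Ω K ∧ ∀ z ∈ co K, X K z 2 ∈ Ioo (a1 K) (a2 K)
  mY : ∀ k, ∀ u ∈ nk k, IsMinImm (An (r1 k u) (r2 k u)) (Y k u) ∧
    InjOn (Y k u) (An (r1 k u) (r2 k u)) ∧ 0 < r1 k u ∧ r1 k u < r2 k u ∧ 0 < β k u
  hY : ∀ k, ∀ u ∈ nk k, ∀ v ∈ An (r1 k u) (r2 k u),
    Y k u v 2 = η k u + β k u * Real.log ‖v‖ ∧ ‖hz (Y k u v) - cen k u‖ ≤ min (D k) (D (k + 1)) / 10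
  rY : ∀ k, ∀ u ∈ nk k, a1 k < η k u + β k u * Real.log (r1 k u) ∧
    η k u + β k u * Real.log (r1 k u) < b1 k ∧ b2 k < η k u + β k u * Real.log (r2 k u) ∧
    η k u + β k u * Real.log (r2 k u) < a2 (k + 1)
  sep : ∀ k, ∀ u ∈ nk k, ∀ u' ∈ nk k, u ≠ u' → D (k + 1) / 2 ≤ ‖cen k u - cen k u'‖
  sep2 : ∀ k, ∀ u ∈ nk (k - 1), ∀ u' ∈ nk k, D k / 2 ≤ ‖cen (k - 1) u - cen k u'‖
  hA : ∀ K, M ∩ {x | x 2 ∈ Ioo (a1 K) (a2 K)} = X K '' {z ∈ Ω K | X K z 2 ∈ Ioo (a1 K) (a2 K)}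
  hB : ∀ k, M ∩ {x | x 2 ∈ Ioo (b1 k) (b2 k)} = ⋃ u ∈ nk k,
    Y k u '' {v ∈ An (r1 k u) (r2 k u) | Y k u v 2 ∈ Ioo (b1 k) (b2 k)}
  meet : ∀ k, ∀ u ∈ nk k, (Y k u '' An (r1 k u) (r2 k u) ∩ X k '' co k).Nonempty ∧
    (Y k u '' An (r1 k u) (r2 k u) ∩ X (k + 1) '' co (k + 1)).Nonempty
  ne : ∀ k, ∃ u ∈ nk k, ‖cen k u‖ ≤ 3
  Dp : ∀ K, 0 < D K ∧ D K ≤ 1
  up : ∀ (K : ℤ) (R : ℝ), ∃ n : ℕ, R ≤ ∑ i ∈ Finset.range n, D (K + i)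
  dn : ∀ (K : ℤ) (R : ℝ), ∃ n : ℕ, R ≤ ∑ i ∈ Finset.range n, D (K - i)

/-- Anchor point next to a neck, and the centre of the neck computed from it. -/
def anc (m : ℕ) (c p : ℂ) (a : ℝ) : ℂ := p + ((a * rho m / 4 / dd m : ℝ) : ℂ) * c
def cen1 (Z N : ℂ → ℂ) (t : ℂ) (v v' : ℂ → ℂ) (z z' : ℂ) : ℂ :=
  Z z - seg (fun y => exp (N y)) (t / v' z') (v z)

/-- Weierstrass data on the levels and necks, with all periods closed. -/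
structure WD where
  m : ℤ → ℕ
  nk : ℤ → Set GI
  c : ℤ → ℂ
  p : ℤ → GI → ℂ
  q : ℤ → GI → ℝ
  ot : ℤ → GI → ℤ
  par : ℤ → GI → GI
  ψ : ℤ → ℂ → ℂ
  lam : ℤ → ℂ → ℂ
  Zc : ℤ → ℂ → ℂ
  h : ℤ → ℂ → ℝ
  hb : ℤ → ℝ
  v : ℤ → GI → ℂ → ℂ
  N : ℤ → GI → ℂ → ℂ
  t : ℤ → GI → ℂ
  hr : ℤ → GI → ℝ
  cen : ℤ → GI → ℂ
  big : ∀ K, 10 ^ 6 ≤ m K ∧ m K ≤ m (K + 1) + 1 ∧ m (K + 1) ≤ m K + 1
  nc : ∀ K, ‖c K‖ = dd (m K)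
  ang : ∀ K, dd (m K) * dd (m (K + 1)) * (7 / 10)
    ≤ (conj (io K (c K)) * io (K + 1) (c (K + 1))).re
  sep : ∀ K, ∀ u ∈ nk K, ∀ u' ∈ nk K,
    ‖p K u - p K u' - c K * ((u - u' : GI) : ℂ)‖ ≤ dd (m K) * ‖((u - u' : GI) : ℂ)‖ / 100
  inv : ∀ K, ∀ u ∈ nk K, ot K u = (if 0 < q K u then K - 1 else K + 1) ∧
    par K u ∈ nk (ot K u) ∧ par (ot K u) (par K u) = u ∧ q (ot K u) (par K u) = -q K u ∧
    t (ot K u) (par K u) = t K u ∧ cen (ot K u) (par K u) = cen K u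
  qb : ∀ K, ∀ u ∈ nk K, dd (m K) ^ 2 ≤ |q K u| ∧ |q K u| ≤ 5 * dd (m K) ^ 2 ∧
    q K u ^ 2 / 2 ≤ ‖t K u‖ ∧ ‖t K u‖ ≤ 2 * q K u ^ 2 ∧ ‖t K u + q K u ^ 2‖ ≤ q K u ^ 2 / 100
  ne : ∀ K, (∃ u ∈ nk K, 0 < q K u ∧ ‖(u : ℂ)‖ ≤ 2) ∧ ∃ u ∈ nk K, q K u < 0
  hol : ∀ K, DifferentiableOn ℂ (ψ K) (Out (nk K) (p K) (rho1 (m K))) ∧
    DifferentiableOn ℂ (lam K) (Out (nk K) (p K) (rho1 (m K)))
  sm : ∀ K, ∀ z ∈ Out (nk K) (p K) (rho1 (m K)), ‖exp (lam K z) - 1‖ ≤ 1 / 100 ∧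
    ‖ψ K z ^ 2 * exp (-lam K z)‖ ≤ 1 / 100 ∧
    HasFDerivAt (h K) (hl (2 * ψ K z)) z
  dZ : ∀ K, ∀ z ∈ Out (nk K) (p K) (2 * rho1 (m K)),
    HasFDerivAt (Zc K) (wl (exp (lam K z)) (ψ K z ^ 2 * exp (-lam K z))) z
  vv : ∀ K, ∀ u ∈ nk K, DifferentiableOn ℂ (v K u) (Metric.ball (p K u) (2 * rho (m K))) ∧
    v K u (p K u) = 0 ∧ ∀ z, ‖z - p K u‖ < 2 * rho (m K) → ‖deriv (v K u) z - 1‖ ≤ 1 / 100 ∧
      (z ≠ p K u → ψ K z = q K u * deriv (v K u) z / v K u z ∧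
        h K z = hr K u + 2 * q K u * Real.log ‖v K u z‖)
  hco : ∀ K, ∀ z ∈ Out (nk K) (p K) (rho (m K) / 5), |h K z - hb K| ≤ dd (m K) ^ 2 * m K / 200
  hre : ∀ K, ∀ u ∈ nk K,
    |hr K u + 2 * q K u * Real.log (dd (m K)) - hb K| ≤ dd (m K) ^ 2 * m K / 1000
  hma : ∀ K, ∀ u ∈ nk K,
    hr K u = hr (ot K u) (par K u) - 2 * q K u * Real.log ‖t K u‖
  nN : ∀ K, ∀ u ∈ nk K,
    DifferentiableOn ℂ (N K u)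
      (An (‖t K u‖ / (rho (m (ot K u)) * (44 / 100))) (rho (m K) * (44 / 100))) ∧
    (∀ y ∈ An (‖t K u‖ / (rho (m (ot K u)) * (44 / 100))) (rho (m K) * (44 / 100)),
      ‖exp (N K u y) - 1‖ ≤ 1 / 100 ∧
      exp (N K u y) * exp (N (ot K u) (par K u) (t K u / y)) * -t K u = q K u ^ 2) ∧
    (∀ z, rho1 (m K) < ‖z - p K u‖ → ‖z - p K u‖ < rho (m K) * (42 / 100) →
      exp (lam K z) = exp (N K u (v K u z)) * deriv (v K u) z) ∧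
    cint 0 (rho (m K) / 4) (fun y => exp (N K u y))
      = -conj (cint 0 (rho (m K) / 4) (fun y => q K u ^ 2 / (exp (N K u y) * y ^ 2)))
  ce : ∀ K, ∀ u ∈ nk K,
    (cen1 (Zc K) (N K u) (t K u) (v K u) (v (ot K u) (par K u))
        (anc (m K) (c K) (p K u) 1) (anc (m (ot K u)) (c (ot K u)) (p (ot K u) (par K u)) 1)
      + cen1 (Zc K) (N K u) (t K u) (v K u) (v (ot K u) (par K u))
        (anc (m K) (c K) (p K u) (-1))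
        (anc (m (ot K u)) (c (ot K u)) (p (ot K u) (par K u)) (-1))) / 2 = io K (cen K u) ∧
    ‖io K (cen K u) - c K * u‖ ≤ dd (m K) / 100
  sumu : ∀ (K : ℤ) (R : ℝ), ∃ n : ℕ, R ≤ ∑ i ∈ Finset.range n, dd (m (K + i))
  sumd : ∀ (K : ℤ) (R : ℝ), ∃ n : ℕ, R ≤ ∑ i ∈ Finset.range n, dd (m (K - i))
  sumh : ∃ H, ∀ T : Finset ℤ, ∑ K ∈ T, dd (m K) ^ 2 * m K ≤ H

end Pool.Agent.P.MP_cc4a10_gt
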