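import Pool.Agent.P.MP_cc4a10_gt.St

/-!
Package Loc3, part A: bookkeeping of the window around a transition, elementary inequalities.
-/

open Set Filter Topology Complex Metric
open scoped ComplexConjugate Real

noncomputable section

namespace Pool.Agent.P.MP_cc4a10_gt.Loc3P

/-- Layers and levels of a window that contains one transition. -/
structure Win3 (S : Sys) (j : ℕ) (a b : ℤ) where
  kc : ℕ → ℤ
  kf : ℕ → ℤ
  Lc : ℕ → ℤ
  Lf : ℕ → ℤ
  Kt : ℤ
  Na : ℕ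
  Nb : ℕ
  isC : ℤ → Bool
  idx : ℤ → ℕ
  hsum : ∀ g : ℤ → ℝ, ∑ K ∈ Finset.Icc (a - 1) (b + 1 + 1), g K =
    ∑ n ∈ Finset.range (Na + 1), g (Lc n) + g Kt + ∑ n ∈ Finset.range (Nb + 1), g (Lf n)
  hLc : ∀ n, (kc n = Lc n ∧ kc (n + 1) = Lc n - 1) ∨ (kc n = Lc n - 1 ∧ kc (n + 1) = Lc n)
  hLf : ∀ n, (kf n = Lf n ∧ kf (n + 1) = Lf n - 1) ∨ (kf n = Lf n - 1 ∧ kf (n + 1) = Lf n)
  hKt : (kc 0 = Kt - 1 ∧ kf 0 = Kt) ∨ (kc 0 = Kt ∧ kf 0 = Kt - 1)
  stc : ∀ n, n ≤ Na + 1 → S.st (kc n) = j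
  stf : ∀ n, n ≤ Nb + 1 → S.st (kf n) = j + 1
  cC : ∀ n, isC (kc n) = true ∧ idx (kc n) = n
  cF : ∀ n, isC (kf n) = false ∧ idx (kf n) = n
  cov : ∀ k, (∃ n, k = kc n) ∨ ∃ n, k = kf n
  outc : ∀ n, Na ≤ n → kc n < a ∨ b < kc n
  outf : ∀ n, Nb ≤ n → kf n < a ∨ b < kf n
  inc : ∀ n, n ≤ Na → a - 1 ≤ kc n ∧ kc n ≤ b + 1
  inf : ∀ n, n ≤ Nb → a - 1 ≤ kf n ∧ kf n ≤ b + 1

theorem sum_up (g : ℤ → ℝ) (x : ℤ) (n : ℕ) :
    ∑ K ∈ Finset.Ico x (x + n), g K = ∑ i ∈ Finset.range n, g (x + i) := by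
  induction n with
  | zero => simp
  | succ n ih =>
    rw [Finset.sum_range_succ, ← ih]
    have : Finset.Ico x (x + (n + 1 : ℕ)) = insert (x + n) (Finset.Ico x (x + n)) := by
      ext k; simp only [Finset.mem_Ico, Finset.mem_insert]; push_cast; omega
    rw [this, Finset.sum_insert (by simp), add_comm]

theorem sum_down (g : ℤ → ℝ) (x : ℤ) (n : ℕ) :
    ∑ K ∈ Finset.Ioc (x - n) x, g K = ∑ i ∈ Finset.range n, g (x - i) := by
  induction n with
  | zero => simp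
  | succ n ih =>
    rw [Finset.sum_range_succ, ← ih]
    have : Finset.Ioc (x - (n + 1 : ℕ)) x = insert (x - n) (Finset.Ioc (x - n) x) := by
      ext k; simp only [Finset.mem_Ioc, Finset.mem_insert]; push_cast; omega
    rw [this, Finset.sum_insert (by simp), add_comm]

theorem sum_split (g : ℤ → ℝ) (a b k0 : ℤ) (h1 : a ≤ k0) (h2 : k0 < b) :
    ∑ K ∈ Finset.Icc (a - 1) (b + 1 + 1), g K =
      ∑ n ∈ Finset.range ((k0 - a + 1).toNat + 1), g (k0 - n) + g (k0 + 1)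
        + ∑ n ∈ Finset.range ((b - k0).toNat + 1), g (k0 + 2 + n) := by
  rw [← sum_up, ← sum_down]
  have e : Finset.Icc (a - 1) (b + 1 + 1) =
      (Finset.Ioc (k0 - ((k0 - a + 1).toNat + 1 : ℕ)) k0 ∪ {k0 + 1})
        ∪ Finset.Ico (k0 + 2) (k0 + 2 + ((b - k0).toNat + 1 : ℕ)) := by
    ext k
    simp only [Finset.mem_Icc, Finset.mem_union, Finset.mem_Ioc, Finset.mem_singleton,
      Finset.mem_Ico]
    push_cast
    omega
  rw [e, Finset.sum_union, Finset.sum_union, Finset.sum_singleton]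
  · rw [Finset.disjoint_left]; intro k hk hk'
    simp only [Finset.mem_Ioc, Finset.mem_singleton] at hk hk'; omega
  · rw [Finset.disjoint_left]; intro k hk hk'
    simp only [Finset.mem_union, Finset.mem_Ioc, Finset.mem_singleton, Finset.mem_Ico] at hk hk'
    omega

theorem exists_win (S : Sys) (j : ℕ) (a b k0 : ℤ) (h1 : a ≤ k0) (h2 : k0 < b)
    (h : (∀ k, a - 2 ≤ k → k ≤ b + 2 → S.st k = if k ≤ k0 then j else j + 1) ∨
      ∀ k, a - 2 ≤ k → k ≤ b + 2 → S.st k = if k ≤ k0 then j + 1 else j) :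
    Nonempty (Win3 S j a b) := by
  rcases h with h | h
  · refine ⟨{
      kc := fun n => k0 - n, kf := fun n => k0 + 1 + n, Lc := fun n => k0 - n,
      Lf := fun n => k0 + 2 + n, Kt := k0 + 1, Na := (k0 - a + 1).toNat, Nb := (b - k0).toNat,
      isC := fun k => decide (k ≤ k0),
      idx := fun k => if k ≤ k0 then (k0 - k).toNat else (k - k0 - 1).toNat,
      hsum := fun g => sum_split g a b k0 h1 h2, hLc := ?_, hLf := ?_, hKt := ?_, stc := ?_,
      stf := ?_, cC := ?_, cF := ?_, cov := ?_, outc := ?_, outf := ?_, inc := ?_, inf := ?_ }⟩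
    · intro n; left; push_cast; omega
    · intro n; right; push_cast; omega
    · left; simp
    · intro n hn; rw [h _ (by omega) (by omega), if_pos (by omega)]
    · intro n hn; rw [h _ (by omega) (by omega), if_neg (by omega)]
    · intro n; refine ⟨by simp, ?_⟩; rw [if_pos (by omega)]; omega
    · intro n; refine ⟨by simp only [decide_eq_false_iff_not]; omega, ?_⟩
      rw [if_neg (by omega)]; omega
    · intro k; by_cases hk : k ≤ k0
      · left; exact ⟨(k0 - k).toNat, by omega⟩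
      · right; exact ⟨(k - k0 - 1).toNat, by omega⟩
    · intro n hn; omega
    · intro n hn; omega
    · intro n hn; omega
    · intro n hn; omega
  · refine ⟨{
      kf := fun n => k0 - n, kc := fun n => k0 + 1 + n, Lf := fun n => k0 - n,
      Lc := fun n => k0 + 2 + n, Kt := k0 + 1, Nb := (k0 - a + 1).toNat, Na := (b - k0).toNat,
      isC := fun k => decide (k0 < k),
      idx := fun k => if k ≤ k0 then (k0 - k).toNat else (k - k0 - 1).toNat,
      hsum := fun g => by rw [sum_split g a b k0 h1 h2]; ring, hLc := ?_, hLf := ?_, hKt := ?_,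
      stc := ?_, stf := ?_, cC := ?_, cF := ?_, cov := ?_, outc := ?_, outf := ?_, inc := ?_,
      inf := ?_ }⟩
    · intro n; right; push_cast; omega
    · intro n; left; push_cast; omega
    · right; simp
    · intro n hn; rw [h _ (by omega) (by omega), if_neg (by omega)]
    · intro n hn; rw [h _ (by omega) (by omega), if_pos (by omega)]
    · intro n; refine ⟨by simp only [decide_eq_true_eq]; omega, ?_⟩
      rw [if_neg (by omega)]; omega
    · intro n; refine ⟨by simp, ?_⟩; rw [if_pos (by omega)]; omega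
    · intro k; by_cases hk : k ≤ k0
      · right; exact ⟨(k0 - k).toNat, by omega⟩
      · left; exact ⟨(k - k0 - 1).toNat, by omega⟩
    · intro n hn; omega
    · intro n hn; omega
    · intro n hn; omega
    · intro n hn; omega

/-! ### Mode forms and norms -/

@[simp] theorem z_x : (0 : T3).x = 0 := rfl
@[simp] theorem z_X : (0 : T3).X = 0 := rfl
@[simp] theorem z_s : (0 : T3).s = 0 := rfl

theorem bU_symm (D c z0 z1 g g1 : ℂ) (A B A' B' : T3) :
    bU D c z0 z1 g g1 B A B' A' = bU D c z0 z1 g g1 A B A' B' := by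
  unfold bU; ring

theorem bU_zero (D c z0 z1 g g1 : ℂ) (A' B' : T3) : bU D c z0 z1 g g1 0 0 A' B' = 0 := by
  simp [bU, bU1, tp]

theorem nU_symm (r L : ℝ) (A B : T3) : nU r L B A = nU r L A B := by
  unfold nU
  rw [norm_sub_rev B.x, norm_sub_rev B.X, norm_sub_rev B.s]; ring

theorem nU_nonneg (r : ℝ) {L : ℝ} (hL : 0 ≤ L) (A B : T3) : 0 ≤ nU r L A B := by
  unfold nU; positivity

theorem n1_nonneg {L : ℝ} (hL : 0 ≤ L) (A : T3) : 0 ≤ n1 L A := by
  unfold n1; positivity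

theorem nU_le (r : ℝ) {L L' t : ℝ} (ht : 1 ≤ t) (h : L' ≤ t * L) (A B : T3) :
    nU r L' A B ≤ t * nU r L A B := by
  unfold nU
  have h1 : 0 ≤ ‖A.x - B.x‖ ^ 2 + ‖A.X - B.X‖ ^ 2
      + r ^ 2 * (‖A.x‖ ^ 2 + ‖A.X‖ ^ 2 + ‖B.x‖ ^ 2 + ‖B.X‖ ^ 2) + ‖A.s - B.s‖ ^ 2 / r ^ 2 := by
    positivity
  have h2 : 0 ≤ ‖A.s‖ ^ 2 + ‖B.s‖ ^ 2 := by positivity
  nlinarith [mul_le_mul_of_nonneg_right h h2, mul_le_mul_of_nonneg_right ht h1]

theorem n1_le {L L' t : ℝ} (ht : 1 ≤ t) (h : L' ≤ t * L) (A : T3) : n1 L' A ≤ t * n1 L A := by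
  unfold n1
  have h1 : 0 ≤ ‖A.x‖ ^ 2 + ‖A.X‖ ^ 2 := by positivity
  have h2 : 0 ≤ ‖A.s‖ ^ 2 := by positivity
  nlinarith [mul_le_mul_of_nonneg_right h h2, mul_le_mul_of_nonneg_right ht h1]

theorem nsq_sub (x y : ℂ) : ‖x - y‖ ^ 2 ≤ 2 * ‖x‖ ^ 2 + 2 * ‖y‖ ^ 2 := by
  have := norm_sub_le x y
  nlinarith [norm_nonneg (x - y), norm_nonneg x, norm_nonneg y, sq_nonneg (‖x‖ - ‖y‖)]

theorem nU_one_le {L L' : ℝ} (h : L' + 2 ≤ 10 * L) (A B : T3) :
    nU 1 L' A B ≤ 10 * (n1 L A + n1 L B) := by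
  unfold nU n1
  have h1 := nsq_sub A.x B.x
  have h2 := nsq_sub A.X B.X
  have h3 := nsq_sub A.s B.s
  have h4 : 0 ≤ ‖A.s‖ ^ 2 + ‖B.s‖ ^ 2 := by positivity
  have h5 := mul_le_mul_of_nonneg_right h h4
  simp only [one_pow, one_mul, div_one]
  nlinarith [sq_nonneg ‖A.x‖, sq_nonneg ‖A.X‖, sq_nonneg ‖B.x‖, sq_nonneg ‖B.X‖]

/-! ### Frequencies -/

theorem abs_le_abs_sub (x : ℝ) (hx : |x| ≤ π) (n : ℤ) : |x| ≤ |x - 2 * π * n| := by
  rcases eq_or_ne n 0 with rfl | hn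
  · simp
  · have h1 : (1 : ℝ) ≤ |(n : ℝ)| := by
      rw [← Int.cast_abs]; exact_mod_cast Int.one_le_abs hn
    have h2 : |2 * π * n| = 2 * π * |(n : ℝ)| := by
      rw [abs_mul, abs_of_pos (by positivity : (0 : ℝ) < 2 * π)]
    have h3 := abs_sub_abs_le_abs_sub (2 * π * n) x
    rw [abs_sub_comm] at h3
    nlinarith [Real.pi_pos]

theorem sub_re (θ : ℂ) (w : GI) : (θ - 2 * π * w).re = θ.re - 2 * π * w.re := by
  simp
theorem sub_im (θ : ℂ) (w : GI) : (θ - 2 * π * w).im = θ.im - 2 * π * w.im := by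
  simp

theorem norm_le_norm_sub (θ : ℂ) (h1 : |θ.re| ≤ π) (h2 : |θ.im| ≤ π) (w : GI) :
    ‖θ‖ ≤ ‖θ - 2 * π * w‖ := by
  have e1 := abs_le_abs_sub θ.re h1 w.re
  have e2 := abs_le_abs_sub θ.im h2 w.im
  rw [← sub_re] at e1
  rw [← sub_im] at e2
  rw [← abs_norm, ← abs_norm (θ - _), ← sq_le_sq, Complex.sq_norm, Complex.sq_norm,
    Complex.normSq_apply, Complex.normSq_apply]
  rw [← sq_le_sq] at e1 e2
  nlinarith

theorem kp_re (θ : ℂ) : (θ * kp).re = (θ.re + θ.im) / 2 := by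
  simp [kp]; ring
theorem kp_im (θ : ℂ) : (θ * kp).im = (θ.im - θ.re) / 2 := by
  simp [kp]; ring

theorem kp_diamond (θ : ℂ) (h1 : |θ.re| ≤ π) (h2 : |θ.im| ≤ π) :
    |(θ * kp).re| + |(θ * kp).im| ≤ π := by
  rw [kp_re, kp_im]
  rw [abs_le] at h1 h2
  rcases abs_cases ((θ.re + θ.im) / 2) with h | h <;>
    rcases abs_cases ((θ.im - θ.re) / 2) with h' | h' <;> linarith [h.1, h'.1]

theorem norm_kp_sq (θ : ℂ) : ‖θ * kp‖ ^ 2 = ‖θ‖ ^ 2 / 2 := by
  rw [Complex.sq_norm, Complex.sq_norm, Complex.normSq_apply, Complex.normSq_apply, kp_re, kp_im]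
  ring

theorem child1 (θ : ℂ) (h1 : |θ.re| ≤ π) (h2 : |θ.im| ≤ π) :
    ‖θ * kp‖ ≤ 10 * ‖θ‖ ∧ ∀ w : GI, ‖θ‖ ≤ 10 * ‖θ * kp - 2 * π * w‖ := by
  have hd := kp_diamond θ h1 h2
  have hs := norm_kp_sq θ
  have p1 := norm_nonneg θ
  have p2 := norm_nonneg (θ * kp)
  refine ⟨by nlinarith, fun w => ?_⟩
  have := norm_le_norm_sub (θ * kp) (by linarith [abs_nonneg (θ * kp).im])
    (by linarith [abs_nonneg (θ * kp).re]) w
  have h3 : ‖θ‖ ≤ 10 * ‖θ * kp‖ := by nlinarith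
  linarith

theorem odd_abs (n : ℤ) : π ≤ |π - 2 * π * n| := by
  have h1 : (1 : ℝ) ≤ |((1 - 2 * n : ℤ) : ℝ)| := by
    rw [← Int.cast_abs]; exact_mod_cast Int.one_le_abs (by omega)
  have e : π - 2 * π * n = π * ((1 - 2 * n : ℤ) : ℝ) := by push_cast; ring
  rw [e, abs_mul, abs_of_pos Real.pi_pos]
  nlinarith [Real.pi_pos]

theorem child2 (θ : ℂ) (h1 : |θ.re| ≤ π) (h2 : |θ.im| ≤ π) :
    ‖θ * kp + π * (1 - I)‖ ≤ 10 * 1 ∧ ∀ w : GI, 1 ≤ 10 * ‖θ * kp + π * (1 - I) - 2 * π * w‖ := by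
  have hd := kp_diamond θ h1 h2
  have hre : (θ * kp + π * (1 - I)).re = (θ * kp).re + π := by simp
  have him : (θ * kp + π * (1 - I)).im = (θ * kp).im - π := by simp; ring
  have hpi := Real.pi_lt_d2
  have hpi' := Real.pi_gt_three
  constructor
  · have := Complex.norm_le_abs_re_add_abs_im (θ * kp + π * (1 - I))
    rw [hre, him] at this
    have e1 := abs_add_le (θ * kp).re π
    have e2 := abs_sub (θ * kp).im π
    rw [abs_of_pos Real.pi_pos] at e1 e2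
    linarith
  · intro w
    have e1 := Complex.abs_re_le_norm (θ * kp + π * (1 - I) - 2 * π * w)
    have e2 := Complex.abs_im_le_norm (θ * kp + π * (1 - I) - 2 * π * w)
    rw [sub_re, hre] at e1
    rw [sub_im, him] at e2
    have o1 := odd_abs w.re
    have o2 := odd_abs (-w.im)
    have t1 := abs_sub_abs_le_abs_sub (π - 2 * π * w.re) (-(θ * kp).re)
    have t2 := abs_sub_abs_le_abs_sub (π - 2 * π * (-w.im : ℤ)) ((θ * kp).im)
    rw [abs_neg] at t1
    have q1 : π - 2 * π * w.re - -(θ * kp).re = (θ * kp).re + π - 2 * π * w.re := by ring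
    have q2 : π - 2 * π * (-w.im : ℤ) - (θ * kp).im = -((θ * kp).im - π - 2 * π * w.im) := by
      push_cast; ring
    rw [q1] at t1
    rw [q2, abs_neg] at t2
    linarith

theorem om_pow_ne (j : ℕ) : om ^ j ≠ 0 := pow_ne_zero _ (by decide)

theorem not_mem_shift {j : ℕ} {R : Finset GI} (h : Rep j R) {κ : GI} (hκ : κ ∈ R) :
    κ + om ^ j ∉ R := fun h' => by
  have := h.1 _ h' _ hκ (by simp)
  exact om_pow_ne j (by simpa using this)

theorem thq_zero (j : ℕ) : thq j 0 = 0 := by simp [thq]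

/-- Levels only see the two adjacent layers. -/
theorem nT_congr (S : Sys) (v w : Vec) (K : ℤ) (h1 : v.1 (K - 1) = w.1 (K - 1))
    (h2 : v.1 K = w.1 K) (h3 : v.2 (K - 1) = w.2 (K - 1)) (h4 : v.2 K = w.2 K) :
    nT S v K = nT S w K := by
  have e1 : eT S v K = eT S w K := by
    funext u; unfold eT lk; split_ifs <;> simp only [h1, h2]
  have e2 : sT S v K = sT S w K := by
    funext u; unfold sT lk; split_ifs <;> simp only [h3, h4]
  unfold nT; rw [e1, e2]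

theorem hat_zero (S : Sys) (J : ℕ) (v : Vec) (k : ℤ) (h1 : v.1 k = 0) (h2 : v.2 k = 0) (κ : GI) :
    hat S J v k κ = 0 := by
  unfold hat
  simp only [h1, h2, Pi.zero_apply, zero_mul, map_zero, ofReal_zero, av_const, zero_div]
  rfl

theorem syn_zero (S : Sys) (J : ℕ) (R : ℤ → Finset GI) (t : ℤ → GI → T3) (k : ℤ)
    (h : ∀ κ, t k κ = 0) : (syn S J R t).1 k = 0 ∧ (syn S J R t).2 k = 0 := by
  constructor <;> funext z <;> simp [syn, h]

end Pool.Agent.P.MP_cc4a10_gt.Loc3P
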