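import Pool.Agent.P.MP_cc4a10_gt.St

/-! High frequency stability of three chains: the pure displacement system. -/

open Set Filter Topology Complex Metric
open scoped ComplexConjugate Real

noncomputable section

namespace Pool.Agent.P.MP_cc4a10_gt

namespace MH3P

theorem n0 (M : ℝ) : ‖(0 : ℂ)‖ ≤ M * 0 := by simp

theorem nadd {a c : ℂ} {M t : ℝ} (h : ‖a‖ ≤ M * t) (hc : ‖c‖ ≤ M) (v : ℂ) :
    ‖a + c * v‖ ≤ M * (t + ‖v‖) := by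
  have h1 := norm_add_le a (c * v)
  have h2 : ‖c * v‖ ≤ M * ‖v‖ := by
    rw [norm_mul]; exact mul_le_mul_of_nonneg_right hc (norm_nonneg _)
  linarith

theorem nsub {a c : ℂ} {M t : ℝ} (h : ‖a‖ ≤ M * t) (hc : ‖c‖ ≤ M) (v : ℂ) :
    ‖a - c * v‖ ≤ M * (t + ‖v‖) := by
  have h1 := nadd h (show ‖-c‖ ≤ M by rwa [norm_neg]) v
  rwa [neg_mul, ← sub_eq_add_neg] at h1

theorem cof {B : ℝ} {a b c d : ℂ} (ha : ‖a‖ ≤ B) (hb : ‖b‖ ≤ B) (hc : ‖c‖ ≤ B) (hd : ‖d‖ ≤ B) :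
    ‖a * b - c * d‖ ≤ 2 * B ^ 2 := by
  have h0 : 0 ≤ B := (norm_nonneg _).trans ha
  have h1 := norm_sub_le (a * b) (c * d)
  rw [norm_mul, norm_mul] at h1
  have h2 := mul_le_mul ha hb (norm_nonneg _) h0
  have h3 := mul_le_mul hc hd (norm_nonneg _) h0
  nlinarith

/-- Interior row of the recurrence. -/
def Ei (D c : ℂ) (x : ℕ → ℂ) (n : ℕ) : ℂ := 2 * D * x (n + 1) - c * (x n + x (n + 2))
def II (D c : ℂ) (x : ℕ → ℂ) (N : ℕ) : ℝ := ∑ n ∈ Finset.range (N + 1), ‖Ei D c x n‖ ^ 2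
def HG (η : ℝ) (D c Z : ℂ) : Prop :=
  Z ^ 2 = D ^ 2 - c ^ 2 ∧ ‖c‖ ≤ (1 - η) * ‖D + Z‖ ∧ η ≤ ‖D + Z‖ ∧ ‖D + Z‖ ≤ 10 / η

theorem II_nonneg (D c : ℂ) (x : ℕ → ℂ) (N : ℕ) : 0 ≤ II D c x N :=
  Finset.sum_nonneg fun _ _ => sq_nonneg _

theorem cram {η B G : ℝ} {d x k1 k2 k3 r1 r2 r3 : ℂ} (hη : 0 < η) (hd : η ≤ ‖d‖)
    (h1 : ‖k1‖ ≤ B) (h2 : ‖k2‖ ≤ B) (h3 : ‖k3‖ ≤ B) (h : d * x = 0 + k1 * r1 + k2 * r2 + k3 * r3)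
    (hG : ‖r1‖ ^ 2 + ‖r2‖ ^ 2 + ‖r3‖ ^ 2 ≤ G) : ‖x‖ ^ 2 ≤ 3 * B ^ 2 / η ^ 2 * G := by
  have h4 := nadd (nadd (nadd (n0 B) h1 r1) h2 r2) h3 r3
  rw [← h, norm_mul] at h4
  have h5 : η * ‖x‖ ≤ B * (0 + ‖r1‖ + ‖r2‖ + ‖r3‖) :=
    (mul_le_mul_of_nonneg_right hd (norm_nonneg _)).trans h4
  have h6 : (η * ‖x‖) ^ 2 ≤ (B * (0 + ‖r1‖ + ‖r2‖ + ‖r3‖)) ^ 2 :=
    pow_le_pow_left₀ (by positivity) h5 2
  have h7 : (0 + ‖r1‖ + ‖r2‖ + ‖r3‖) ^ 2 ≤ 3 * G := by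
    nlinarith [sq_nonneg (‖r1‖ - ‖r2‖), sq_nonneg (‖r1‖ - ‖r3‖), sq_nonneg (‖r2‖ - ‖r3‖)]
  rw [div_mul_eq_mul_div, le_div_iff₀ (by positivity)]
  rw [mul_pow, mul_pow] at h6
  nlinarith [mul_le_mul_of_nonneg_left h7 (sq_nonneg B)]

theorem sq_sub_le (a b : ℂ) : ‖a - b‖ ^ 2 ≤ 2 * ‖a‖ ^ 2 + 2 * ‖b‖ ^ 2 := by
  have h := norm_sub_le a b
  have h2 : ‖a - b‖ ^ 2 ≤ (‖a‖ + ‖b‖) ^ 2 := pow_le_pow_left₀ (norm_nonneg _) h 2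
  nlinarith [sq_nonneg (‖a‖ - ‖b‖)]

theorem xsys (hH : S_Half) {η : ℝ} (hη : 0 < η) (B : ℝ) : ∃ C : ℝ, 1 ≤ C ∧
    ∀ (D1 c1 Z1 P1 D2 c2 Z2 P2 D3 c3 Z3 P3 m12 m13 m23 : ℂ) (x y w : ℕ → ℂ) (N : ℕ),
    HG η D1 c1 Z1 → HG η D2 c2 Z2 → HG η D3 c3 Z3 →
    ‖Z1 + P1‖ ≤ B → ‖Z2 + P2‖ ≤ B → ‖Z3 + P3‖ ≤ B → ‖m12‖ ≤ B → ‖m13‖ ≤ B → ‖m23‖ ≤ B →
    η ≤ ‖Matrix.det !![Z1 + P1, m12, m13; m12, Z2 + P2, m23; m13, m23, Z3 + P3]‖ →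
    (∀ n, N ≤ n → x n = 0) → (∀ n, N ≤ n → y n = 0) → (∀ n, N ≤ n → w n = 0) →
    ∑ n ∈ Finset.range (N + 1), ‖x n‖ ^ 2 + ∑ n ∈ Finset.range (N + 1), ‖y n‖ ^ 2
      + ∑ n ∈ Finset.range (N + 1), ‖w n‖ ^ 2 ≤ C *
      ((‖D1 * x 0 - c1 * x 1 + (P1 * x 0 + m12 * y 0 + m13 * w 0)‖ ^ 2 + II D1 c1 x N)
        + (‖D2 * y 0 - c2 * y 1 + (P2 * y 0 + m23 * w 0 + m12 * x 0)‖ ^ 2 + II D2 c2 y N)
        + (‖D3 * w 0 - c3 * w 1 + (P3 * w 0 + m23 * y 0 + m13 * x 0)‖ ^ 2 + II D3 c3 w N)) := by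
  obtain ⟨C, hC, hh⟩ := hH η hη
  set C2 : ℝ := 3 * (2 * B ^ 2) ^ 2 / η ^ 2 with hC2
  have C20 : 0 ≤ C2 := by positivity
  refine ⟨1 + C * (3 * (C2 * (2 + 2 * C)) + 1), le_add_of_nonneg_right (by positivity), ?_⟩
  intro D1 c1 Z1 P1 D2 c2 Z2 P2 D3 c3 Z3 P3 m12 m13 m23 x y w N g1 g2 g3 b1 b2 b3 b12 b13 b23
    hdet sx sy sw
  obtain ⟨u1, v1⟩ := hh D1 c1 Z1 x N g1.1 g1.2.1 g1.2.2.1 g1.2.2.2 sx
  obtain ⟨u2, v2⟩ := hh D2 c2 Z2 y N g2.1 g2.2.1 g2.2.2.1 g2.2.2.2 sy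
  obtain ⟨u3, v3⟩ := hh D3 c3 Z3 w N g3.1 g3.2.1 g3.2.2.1 g3.2.2.2 sw
  change _ ≤ C * II D1 c1 x N at u1
  change _ ≤ C * II D2 c2 y N at u2
  change _ ≤ C * II D3 c3 w N at u3
  change _ ≤ C * (_ + II D1 c1 x N) at v1
  change _ ≤ C * (_ + II D2 c2 y N) at v2
  change _ ≤ C * (_ + II D3 c3 w N) at v3
  have i1 := II_nonneg D1 c1 x N
  have i2 := II_nonneg D2 c2 y N
  have i3 := II_nonneg D3 c3 w N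
  set e1 := D1 * x 0 - c1 * x 1 + (P1 * x 0 + m12 * y 0 + m13 * w 0) with he1
  set e2 := D2 * y 0 - c2 * y 1 + (P2 * y 0 + m23 * w 0 + m12 * x 0) with he2
  set e3 := D3 * w 0 - c3 * w 1 + (P3 * w 0 + m23 * y 0 + m13 * x 0) with he3
  set ρ1 := D1 * x 0 - c1 * x 1 - Z1 * x 0 with hρ1
  set ρ2 := D2 * y 0 - c2 * y 1 - Z2 * y 0 with hρ2
  set ρ3 := D3 * w 0 - c3 * w 1 - Z3 * w 0 with hρ3
  set G := (‖e1‖ ^ 2 + II D1 c1 x N) + (‖e2‖ ^ 2 + II D2 c2 y N) + (‖e3‖ ^ 2 + II D3 c3 w N)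
    with hG
  have n1 := sq_nonneg ‖e1‖
  have n2 := sq_nonneg ‖e2‖
  have n3 := sq_nonneg ‖e3‖
  have G0 : 0 ≤ G := by positivity
  have hr : ‖e1 - ρ1‖ ^ 2 + ‖e2 - ρ2‖ ^ 2 + ‖e3 - ρ3‖ ^ 2 ≤ (2 + 2 * C) * G := by
    have a1 := sq_sub_le e1 ρ1
    have a2 := sq_sub_le e2 ρ2
    have a3 := sq_sub_le e3 ρ3
    have a4 := mul_nonneg hC.le n1
    have a5 := mul_nonneg hC.le n2
    have a6 := mul_nonneg hC.le n3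
    rw [hG]
    linarith only [a1, a2, a3, a4, a5, a6, u1, u2, u3, i1, i2, i3]
  rw [Matrix.det_fin_three] at hdet
  simp only [Matrix.of_apply, Matrix.cons_val', Matrix.cons_val_zero, Matrix.cons_val_one,
    Matrix.cons_val, Matrix.cons_val_fin_one] at hdet
  have hx := cram (x := x 0) hη hdet (cof b2 b3 b23 b23) (cof b13 b23 b12 b3) (cof b12 b23 b13 b2)
    (by rw [he1, he2, he3, hρ1, hρ2, hρ3]; ring) hr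
  have hy := cram (x := y 0) hη hdet (cof b13 b23 b12 b3) (cof b1 b3 b13 b13) (cof b12 b13 b1 b23)
    (by rw [he1, he2, he3, hρ1, hρ2, hρ3]; ring) hr
  have hw := cram (x := w 0) hη hdet (cof b12 b23 b13 b2) (cof b12 b13 b1 b23) (cof b1 b2 b12 b12)
    (by rw [he1, he2, he3, hρ1, hρ2, hρ3]; ring) hr
  rw [← hC2] at hx hy hw
  have hI : II D1 c1 x N + II D2 c2 y N + II D3 c3 w N ≤ G := by rw [hG]; linarith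
  have h1 : ‖x 0‖ ^ 2 + II D1 c1 x N + (‖y 0‖ ^ 2 + II D2 c2 y N) + (‖w 0‖ ^ 2 + II D3 c3 w N)
      ≤ (3 * (C2 * (2 + 2 * C)) + 1) * G := by linarith only [hx, hy, hw, hI]
  linarith only [mul_le_mul_of_nonneg_left h1 hC.le, v1, v2, v3, G0]

theorem site {Ex EX σ a b c : ℂ} {l δ U W : ℝ} (hδ : 0 < δ) (ha : ‖a - Ex‖ ≤ U)
    (hb : ‖b - EX‖ ≤ U) (hc : ‖c + l * σ‖ ≤ W) :
    (‖Ex‖ ^ 2 + ‖EX‖ ^ 2) / 4 - U ^ 2 / 2 + (l - 1 / δ) * ‖σ‖ ^ 2 - δ * W ^ 2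
      ≤ (tp ⟨EX, Ex, -σ⟩ a b c).re := by
  have key : ∀ (p u : ℂ) (V : ℝ), ‖u‖ ≤ V → |(conj p * u).re| ≤ ‖p‖ * V := by
    intro p u V hu
    refine (abs_re_le_norm _).trans ?_
    rw [norm_mul, Complex.norm_conj]
    exact mul_le_mul_of_nonneg_left hu (norm_nonneg _)
  have sq : ∀ p : ℂ, conj p * p = ((‖p‖ ^ 2 : ℝ) : ℂ) := by
    intro p
    rw [Complex.conj_mul']; push_cast; rfl
  have h1 := abs_le.mp (key Ex _ _ ha)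
  have h2 := abs_le.mp (key EX _ _ hb)
  have h3 := abs_le.mp (key σ _ _ hc)
  have e : tp ⟨EX, Ex, -σ⟩ a b c = ((‖Ex‖ ^ 2 / 2 + ‖EX‖ ^ 2 / 2 + l * ‖σ‖ ^ 2 : ℝ) : ℂ)
      + ((1 / 2 : ℝ) : ℂ) * (conj Ex * (a - Ex)) + ((1 / 2 : ℝ) : ℂ) * (conj EX * (b - EX))
      - conj σ * (c + l * σ) := by
    have s1 := sq Ex
    have s2 := sq EX
    have s3 := sq σ
    simp only [tp, map_neg]
    push_cast at s1 s2 s3 ⊢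
    linear_combination s1 / 2 + s2 / 2 + l * s3
  rw [e, sub_re, add_re, add_re, ofReal_re, re_ofReal_mul, re_ofReal_mul]
  have h4 : ‖σ‖ * W ≤ 1 / δ * ‖σ‖ ^ 2 + δ * W ^ 2 := by
    have h5 : 0 ≤ 1 / δ * (‖σ‖ - δ * W) ^ 2 := by positivity
    have h6 : 1 / δ * (‖σ‖ - δ * W) ^ 2 = 1 / δ * ‖σ‖ ^ 2 - 2 * (‖σ‖ * W) + δ * W ^ 2 := by
      field_simp; ring
    have h7 : 0 ≤ ‖σ‖ * W := mul_nonneg (norm_nonneg _) ((norm_nonneg _).trans hc)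
    linarith
  nlinarith [sq_nonneg (‖Ex‖ - U), sq_nonneg (‖EX‖ - U)]

theorem site2 {σ a b c a' b' c' p p' q q' : ℂ} {l δ U W U' W' : ℝ} (hδ : 0 < δ)
    (ha : ‖a - p‖ ≤ U) (hb : ‖b - q‖ ≤ U) (hc : ‖c + l * σ‖ ≤ W)
    (ha' : ‖a' - p'‖ ≤ U') (hb' : ‖b' - q'‖ ≤ U') (hc' : ‖c' + l * σ‖ ≤ W') :
    (‖p + p'‖ ^ 2 + ‖q + q'‖ ^ 2) / 4 - (U + U') ^ 2 / 2 + (2 * l - 1 / δ) * ‖σ‖ ^ 2
      - δ * (W + W') ^ 2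
      ≤ (tp ⟨q + q', p + p', -σ⟩ a b c + tp ⟨q + q', p + p', -σ⟩ a' b' c').re := by
  have e : tp ⟨q + q', p + p', -σ⟩ a b c + tp ⟨q + q', p + p', -σ⟩ a' b' c'
      = tp ⟨q + q', p + p', -σ⟩ (a + a') (b + b') (c + c') := by
    simp only [tp]; ring
  rw [e]
  refine site hδ ?_ ?_ ?_
  · exact (congrArg norm (by ring)).trans_le ((norm_add_le _ _).trans (add_le_add ha ha'))
  · exact (congrArg norm (by ring)).trans_le ((norm_add_le _ _).trans (add_le_add hb hb'))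
  · exact (congrArg norm (by push_cast; ring)).trans_le
      ((norm_add_le _ _).trans (add_le_add hc hc'))

theorem sh3 (f : ℕ → ℝ) (hf : ∀ n, 0 ≤ f n) (N : ℕ) :
    ∑ n ∈ Finset.range (N + 1), (f n + f (n + 1) + f (n + 2))
      ≤ 3 * ∑ n ∈ Finset.range (N + 3), f n := by
  have h0 : ∑ n ∈ Finset.range (N + 3), f n
      = ∑ n ∈ Finset.range (N + 1), f n + f (N + 1) + f (N + 2) := by
    rw [Finset.sum_range_succ, Finset.sum_range_succ]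
  have h1 : ∑ n ∈ Finset.range (N + 3), f n
      = ∑ n ∈ Finset.range (N + 1), f (n + 1) + f (N + 2) + f 0 := by
    rw [Finset.sum_range_succ', Finset.sum_range_succ]
  have h2 : ∑ n ∈ Finset.range (N + 3), f n
      = ∑ n ∈ Finset.range (N + 1), f (n + 2) + f 1 + f 0 := by
    rw [Finset.sum_range_succ', Finset.sum_range_succ']
  rw [Finset.sum_add_distrib, Finset.sum_add_distrib]
  linarith [hf 0, hf 1, hf (N + 1), hf (N + 2)]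

theorem sh01 (f : ℕ → ℝ) (hf : ∀ n, 0 ≤ f n) (N : ℕ) :
    f 0 + f 1 ≤ ∑ n ∈ Finset.range (N + 3), f n := by
  rw [Finset.sum_range_succ', Finset.sum_range_succ']
  have : 0 ≤ ∑ n ∈ Finset.range (N + 1), f (n + 1 + 1) := Finset.sum_nonneg fun _ _ => hf _
  linarith

theorem II_le {M : ℝ} {D c : ℂ} (hD : ‖D‖ ≤ 2 * M) (hc : ‖c‖ ≤ M) (x : ℕ → ℂ) (N : ℕ) :
    II D c x N ≤ 144 * M ^ 2 * ∑ n ∈ Finset.range (N + 3), ‖x n‖ ^ 2 := by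
  have h0 : 0 ≤ M := (norm_nonneg _).trans hc
  have h1 : ∀ n, ‖Ei D c x n‖ ^ 2
      ≤ 48 * M ^ 2 * (‖x n‖ ^ 2 + ‖x (n + 1)‖ ^ 2 + ‖x (n + 2)‖ ^ 2) := by
    intro n
    have a1 : ‖2 * D‖ ≤ 4 * M := by rw [norm_mul]; simp; linarith
    have a2 : ‖c‖ ≤ 4 * M := by linarith
    have a3 := nsub (nsub (nadd (n0 _) a1 (x (n + 1))) a2 (x n)) a2 (x (n + 2))
    have a4 : ‖Ei D c x n‖ ≤ 4 * M * (0 + ‖x (n + 1)‖ + ‖x n‖ + ‖x (n + 2)‖) :=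
      (congrArg norm (by rw [Ei]; ring)).trans_le a3
    have a5 := pow_le_pow_left₀ (norm_nonneg _) a4 2
    have a6 : (0 + ‖x (n + 1)‖ + ‖x n‖ + ‖x (n + 2)‖) ^ 2
        ≤ 3 * (‖x n‖ ^ 2 + ‖x (n + 1)‖ ^ 2 + ‖x (n + 2)‖ ^ 2) := by
      nlinarith [sq_nonneg (‖x n‖ - ‖x (n + 1)‖), sq_nonneg (‖x n‖ - ‖x (n + 2)‖),
        sq_nonneg (‖x (n + 1)‖ - ‖x (n + 2)‖)]
    rw [mul_pow] at a5
    nlinarith [mul_le_mul_of_nonneg_left a6 (sq_nonneg (4 * M))]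
  have h2 := sh3 (fun n => ‖x n‖ ^ 2) (fun _ => sq_nonneg _) N
  calc II D c x N ≤ ∑ n ∈ Finset.range (N + 1),
        48 * M ^ 2 * (‖x n‖ ^ 2 + ‖x (n + 1)‖ ^ 2 + ‖x (n + 2)‖ ^ 2) :=
        Finset.sum_le_sum fun n _ => h1 n
    _ ≤ _ := by
      rw [← Finset.mul_sum]
      nlinarith [mul_le_mul_of_nonneg_left h2 (sq_nonneg M)]

theorem e0_le {M : ℝ} {D c P m m' : ℂ} (hD : ‖D‖ ≤ 2 * M) (hc : ‖c‖ ≤ M) (hP : ‖P‖ ≤ M)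
    (hm : ‖m‖ ≤ M) (hm' : ‖m'‖ ≤ M) (x0 x1 y w : ℂ) :
    ‖D * x0 - c * x1 + (P * x0 + m * y + m' * w)‖ ^ 2
      ≤ 36 * M ^ 2 * (‖x0‖ ^ 2 + ‖x1‖ ^ 2 + ‖y‖ ^ 2 + ‖w‖ ^ 2) := by
  have h0 : 0 ≤ M := (norm_nonneg _).trans hc
  have a1 : ‖D + P‖ ≤ 3 * M := (norm_add_le _ _).trans (by linarith)
  have a3 := nadd (nadd (nsub (nadd (n0 _) a1 x0) (show ‖c‖ ≤ 3 * M by linarith) x1)
    (show ‖m‖ ≤ 3 * M by linarith) y) (show ‖m'‖ ≤ 3 * M by linarith) w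
  have a4 : ‖D * x0 - c * x1 + (P * x0 + m * y + m' * w)‖
      ≤ 3 * M * (0 + ‖x0‖ + ‖x1‖ + ‖y‖ + ‖w‖) := (congrArg norm (by ring)).trans_le a3
  have a5 := pow_le_pow_left₀ (norm_nonneg _) a4 2
  have a6 : (0 + ‖x0‖ + ‖x1‖ + ‖y‖ + ‖w‖) ^ 2
      ≤ 4 * (‖x0‖ ^ 2 + ‖x1‖ ^ 2 + ‖y‖ ^ 2 + ‖w‖ ^ 2) := by
    nlinarith [sq_nonneg (‖x0‖ - ‖x1‖), sq_nonneg (‖x0‖ - ‖y‖), sq_nonneg (‖x0‖ - ‖w‖),
      sq_nonneg (‖x1‖ - ‖y‖), sq_nonneg (‖x1‖ - ‖w‖), sq_nonneg (‖y‖ - ‖w‖)]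
  rw [mul_pow] at a5
  nlinarith [mul_le_mul_of_nonneg_left a6 (sq_nonneg (3 * M))]

end MH3P

end Pool.Agent.P.MP_cc4a10_gt
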