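import Pool.Agent.P.MP_cc4a10_gt.MH3a

/-! High frequency stability of three chains: one chain and the norms. -/

open Set Filter Topology Complex Metric
open scoped ComplexConjugate Real

noncomputable section

namespace Pool.Agent.P.MP_cc4a10_gt

namespace MH3P

def cx (a : ℕ → T3) (k : ℕ) : ℂ := (a k).x
def cX (a : ℕ → T3) (k : ℕ) : ℂ := conj (a k).X
def tst (D c : ℂ) (a : ℕ → T3) (e0 E0 : ℂ) : ℕ → T3
  | 0 => ⟨conj E0, e0, -(a 0).s⟩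
  | n + 1 => ⟨conj (Ei D c (cX a) n), Ei D c (cx a) n, -(a (n + 1)).s⟩
def sx (a : ℕ → T3) (N : ℕ) : ℝ := ∑ n ∈ Finset.range (N + 3), ‖(a n).x‖ ^ 2
def sX (a : ℕ → T3) (N : ℕ) : ℝ := ∑ n ∈ Finset.range (N + 3), ‖(a n).X‖ ^ 2
def ss (a : ℕ → T3) (N : ℕ) : ℝ := ∑ n ∈ Finset.range (N + 3), ‖(a n).s‖ ^ 2
def mm (A : T3) : ℝ := ‖A.x‖ + ‖A.X‖ + ‖A.s‖
def hh (A : T3) : ℝ := ‖A.x‖ ^ 2 + ‖A.X‖ ^ 2 + ‖A.s‖ ^ 2

theorem sx_nonneg (a : ℕ → T3) (N : ℕ) : 0 ≤ sx a N := Finset.sum_nonneg fun _ _ => sq_nonneg _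
theorem sX_nonneg (a : ℕ → T3) (N : ℕ) : 0 ≤ sX a N := Finset.sum_nonneg fun _ _ => sq_nonneg _
theorem ss_nonneg (a : ℕ → T3) (N : ℕ) : 0 ≤ ss a N := Finset.sum_nonneg fun _ _ => sq_nonneg _
theorem hh_nonneg (A : T3) : 0 ≤ hh A := by unfold hh; positivity
theorem sum_hh (a : ℕ → T3) (N : ℕ) :
    ∑ n ∈ Finset.range (N + 3), hh (a n) = sx a N + sX a N + ss a N := by
  simp only [hh, sx, sX, ss, Finset.sum_add_distrib]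
theorem sum_n1 (L : ℝ) (a : ℕ → T3) (N : ℕ) :
    ∑ n ∈ Finset.range (N + 3), n1 L (a n) = sx a N + sX a N + L * ss a N := by
  simp only [n1, sx, sX, ss, Finset.sum_add_distrib, Finset.mul_sum]

theorem sq3 (a b c : ℝ) : (a + b + c) ^ 2 ≤ 3 * (a ^ 2 + b ^ 2 + c ^ 2) := by
  nlinarith [sq_nonneg (a - b), sq_nonneg (a - c), sq_nonneg (b - c)]
theorem sq3' (a b c : ℝ) : (a + b + (a + c)) ^ 2 ≤ 6 * (c ^ 2 + a ^ 2 + b ^ 2) := by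
  nlinarith [sq_nonneg (a - 2 * b), sq_nonneg (a - 2 * c), sq_nonneg (b - c)]
theorem mm_sq (A : T3) : mm A ^ 2 ≤ 3 * hh A := sq3 _ _ _

@[simp] theorem zx : (0 : T3).x = 0 := rfl
@[simp] theorem zX : (0 : T3).X = 0 := rfl
@[simp] theorem zs : (0 : T3).s = 0 := rfl

section
variable {M : ℝ} {z : ℂ}
theorem bn (h : ‖z‖ ≤ M) : ‖-z‖ ≤ M := by rwa [norm_neg]
theorem bc (h : ‖z‖ ≤ M) : ‖conj z‖ ≤ M := by rwa [Complex.norm_conj]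
theorem bh (h : ‖z‖ ≤ M) : ‖z / 2‖ ≤ M := by
  rw [norm_div]; simp; linarith [norm_nonneg z]
theorem bi (h : ‖z‖ ≤ M) : ‖I * z‖ ≤ M := by rwa [norm_mul, norm_I, one_mul]
theorem bj (h : ‖z‖ ≤ M) : ‖-I * z‖ ≤ M := by rwa [norm_mul, norm_neg, norm_I, one_mul]
theorem bk (h : ‖z‖ ≤ M) : ‖kp * z‖ ≤ M := by
  have h1 : ‖kp‖ ≤ 1 := by
    have h2 := norm_sub_le (1 : ℂ) I
    rw [kp, norm_div]; simp at h2 ⊢; linarith
  rw [norm_mul]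
  nlinarith [norm_nonneg z, norm_nonneg kp]
theorem b0 (h : ‖z‖ ≤ M) : ‖(0 : ℂ)‖ ≤ M := by simpa using (norm_nonneg _).trans h
end

theorem lin3 {M : ℝ} {k1 k2 k3 : ℂ} (h1 : ‖k1‖ ≤ M) (h2 : ‖k2‖ ≤ M) (h3 : ‖k3‖ ≤ M)
    (u v w : ℂ) {y : ℂ} (h : y = k1 * u + k2 * v + k3 * w) : ‖y‖ ≤ M * (‖u‖ + ‖v‖ + ‖w‖) := by
  have h4 := nadd (nadd (nadd (n0 M) h1 u) h2 v) h3 w
  rwa [zero_add, zero_add, ← h] at h4

theorem lin6 {M : ℝ} {k1 k2 k3 k4 k5 k6 : ℂ} (h1 : ‖k1‖ ≤ M) (h2 : ‖k2‖ ≤ M) (h3 : ‖k3‖ ≤ M)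
    (h4 : ‖k4‖ ≤ M) (h5 : ‖k5‖ ≤ M) (h6 : ‖k6‖ ≤ M) (A B : T3) {y : ℂ}
    (h : y = k1 * A.x + k2 * A.X + k3 * A.s + (k4 * B.x + k5 * B.X + k6 * B.s)) :
    ‖y‖ ≤ M * (mm A + mm B) := by
  rw [h, mul_add]
  exact (norm_add_le _ _).trans (add_le_add (lin3 h1 h2 h3 _ _ _ rfl) (lin3 h4 h5 h6 _ _ _ rfl))

theorem lin9 {M : ℝ} {k1 k2 k3 k4 k5 k6 k7 k8 k9 : ℂ} (h1 : ‖k1‖ ≤ M) (h2 : ‖k2‖ ≤ M)
    (h3 : ‖k3‖ ≤ M) (h4 : ‖k4‖ ≤ M) (h5 : ‖k5‖ ≤ M) (h6 : ‖k6‖ ≤ M) (h7 : ‖k7‖ ≤ M)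
    (h8 : ‖k8‖ ≤ M) (h9 : ‖k9‖ ≤ M) (A B C : T3) {y : ℂ}
    (h : y = k1 * A.x + k2 * A.X + k3 * A.s + (k4 * B.x + k5 * B.X + k6 * B.s)
      + (k7 * C.x + k8 * C.X + k9 * C.s)) : ‖y‖ ≤ M * (mm A + mm B + mm C) := by
  rw [h, mul_add]
  exact (norm_add_le _ _).trans
    (add_le_add (lin6 h1 h2 h3 h4 h5 h6 _ _ rfl) (lin3 h7 h8 h9 _ _ _ rfl))

theorem row {M l : ℝ} {z0 z1 g g1 : ℂ} (D c : ℂ) (h0 : ‖z0‖ ≤ M) (h1 : ‖z1‖ ≤ M)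
    (hg : ‖g + l‖ ≤ M) (hg1 : ‖g1‖ ≤ M) (A B : T3) :
    ‖D * A.x - c * B.x + z0 * A.s - z1 * B.s - (D * A.x - c * B.x)‖ ≤ M * (‖A.s‖ + ‖B.s‖) ∧
    ‖conj D * A.X - conj c * B.X - (conj z0 * A.s - conj z1 * B.s)
      - (conj D * A.X - conj c * B.X)‖ ≤ M * (‖A.s‖ + ‖B.s‖) ∧
    ‖-(z0 * A.x - z1 * B.x) / 2 + (conj z0 * A.X - conj z1 * B.X) / 2 + g * A.s - g1 * B.s
      + l * A.s‖ ≤ M * (mm A + mm B) := by
  refine ⟨?_, ?_, ?_⟩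
  · simpa using lin3 h0 (bn h1) h0 A.s B.s 0 (y := D * A.x - c * B.x + z0 * A.s - z1 * B.s
      - (D * A.x - c * B.x)) (by ring)
  · have := lin3 (bn (bc h0)) (bc h1) h0 A.s B.s 0 (y := conj D * A.X - conj c * B.X
      - (conj z0 * A.s - conj z1 * B.s) - (conj D * A.X - conj c * B.X)) (by ring)
    rwa [norm_zero, add_zero] at this
  · exact lin6 (bh (bn h0)) (bh (bc h0)) hg (bh h1) (bh (bn (bc h1))) (bn hg1) A B (by ring)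

theorem chain {M l δ : ℝ} (hδ : 0 < δ) {z0 z1 g g1 : ℂ} (D c : ℂ) (h0 : ‖z0‖ ≤ M)
    (h1 : ‖z1‖ ≤ M) (hg : ‖g + l‖ ≤ M) (hg1 : ‖g1‖ ≤ M) (a : ℕ → T3) (N : ℕ) (hs : Fs N a)
    {aT bT cT : ℂ} (pT PT : ℂ) {sT mT : ℝ} (k1 : ‖aT - pT‖ ≤ M * sT)
    (k2 : ‖bT - conj PT‖ ≤ M * sT) (k3 : ‖cT + l * (a 0).s‖ ≤ M * mT) {e0 E0 : ℂ}
    (he : e0 = D * cx a 0 - c * cx a 1 + pT) (hE : E0 = D * cX a 0 - c * cX a 1 + PT) :
    ((‖e0‖ ^ 2 + II D c (cx a) N) + (‖E0‖ ^ 2 + II D c (cX a) N)) / 4 + (2 * l - 1 / δ) * ss a N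
      - 100 * M ^ 2 * (ss a N + sT ^ 2) - δ * (100 * M ^ 2 * (sx a N + sX a N + ss a N + mT ^ 2))
      ≤ (∑ n ∈ Finset.range (N + 2), bU D c z0 z1 g g1 (a n) (a (n + 1))
          (tst D c a e0 E0 n) (tst D c a e0 E0 (n + 1)) + tp (tst D c a e0 E0 0) aT bT cT).re := by
  set t := tst D c a e0 E0 with ht
  have hsplit : ∑ n ∈ Finset.range (N + 2), bU D c z0 z1 g g1 (a n) (a (n + 1)) (t n) (t (n + 1))
      + tp (t 0) aT bT cT = (bU1 D c z0 z1 g g1 (a 0) (a 1) (t 0) + tp (t 0) aT bT cT)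
        + ∑ n ∈ Finset.range (N + 1), (bU1 D c z0 z1 g g1 (a (n + 1)) (a (n + 2)) (t (n + 1))
          + bU1 D c z0 z1 g g1 (a (n + 1)) (a n) (t (n + 1))) := by
    simp only [bU, Finset.sum_add_distrib]
    rw [Finset.sum_range_succ' (fun n => bU1 D c z0 z1 g g1 (a n) (a (n + 1)) (t n)),
      Finset.sum_range_succ (fun n => bU1 D c z0 z1 g g1 (a (n + 1)) (a n) (t (n + 1))) (N + 1)]
    have hz : bU1 D c z0 z1 g g1 (a (N + 1 + 1)) (a (N + 1)) (t (N + 1 + 1)) = 0 := by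
      rw [hs (N + 1 + 1) (by omega), hs (N + 1) (by omega)]
      simp [bU1, tp]
    rw [hz]
    ring
  have hM2 := sq_nonneg M
  have hint : ∀ n, (‖Ei D c (cx a) n‖ ^ 2 + ‖Ei D c (cX a) n‖ ^ 2) / 4
      - 3 * M ^ 2 * (‖(a n).s‖ ^ 2 + ‖(a (n + 1)).s‖ ^ 2 + ‖(a (n + 2)).s‖ ^ 2)
      + (2 * l - 1 / δ) * ‖(a (n + 1)).s‖ ^ 2
      - δ * (18 * M ^ 2) * (hh (a n) + hh (a (n + 1)) + hh (a (n + 2)))
      ≤ (bU1 D c z0 z1 g g1 (a (n + 1)) (a (n + 2)) (t (n + 1))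
          + bU1 D c z0 z1 g g1 (a (n + 1)) (a n) (t (n + 1))).re := by
    intro n
    obtain ⟨r1, r2, r3⟩ := row D c h0 h1 hg hg1 (a (n + 1)) (a (n + 2))
    obtain ⟨r4, r5, r6⟩ := row D c h0 h1 hg hg1 (a (n + 1)) (a n)
    have h := site2 hδ r1 r2 r3 r4 r5 r6
    have e1 : D * (a (n + 1)).x - c * (a (n + 2)).x + (D * (a (n + 1)).x - c * (a n).x)
        = Ei D c (cx a) n := by simp only [Ei, cx]; ring
    have e2 : conj D * (a (n + 1)).X - conj c * (a (n + 2)).X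
        + (conj D * (a (n + 1)).X - conj c * (a n).X) = conj (Ei D c (cX a) n) := by
      simp only [Ei, cX, map_sub, map_mul, map_add, conj_conj, map_ofNat]; ring
    rw [e1, e2, Complex.norm_conj, ← mul_add, ← mul_add, mul_pow, mul_pow] at h
    refine le_trans ?_ h
    have q1 := mul_le_mul_of_nonneg_left (sq3' ‖(a (n + 1)).s‖ ‖(a (n + 2)).s‖ ‖(a n).s‖) hM2
    have q2 : (mm (a (n + 1)) + mm (a (n + 2)) + (mm (a (n + 1)) + mm (a n))) ^ 2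
        ≤ 18 * (hh (a n) + hh (a (n + 1)) + hh (a (n + 2))) := by
      linarith [sq3' (mm (a (n + 1))) (mm (a (n + 2))) (mm (a n)), mm_sq (a n), mm_sq (a (n + 1)),
        mm_sq (a (n + 2))]
    have q3 := mul_le_mul_of_nonneg_left q2 (mul_nonneg hδ.le hM2)
    linarith only [q1, q3]
  have hbd : (‖e0‖ ^ 2 + ‖E0‖ ^ 2) / 4 - 2 * M ^ 2 * (ss a N + sT ^ 2)
      + (2 * l - 1 / δ) * ‖(a 0).s‖ ^ 2 - δ * (9 * M ^ 2) * (sx a N + sX a N + ss a N + mT ^ 2)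
      ≤ (bU1 D c z0 z1 g g1 (a 0) (a 1) (t 0) + tp (t 0) aT bT cT).re := by
    obtain ⟨r1, r2, r3⟩ := row D c h0 h1 hg hg1 (a 0) (a 1)
    have h := site2 hδ r1 r2 r3 k1 k2 k3
    have e1 : D * (a 0).x - c * (a 1).x + pT = e0 := he.symm
    have e2 : conj D * (a 0).X - conj c * (a 1).X + conj PT = conj E0 := by
      simp only [hE, cX, map_sub, map_mul, map_add, conj_conj]
    rw [e1, e2, Complex.norm_conj, ← mul_add, ← mul_add, mul_pow, mul_pow] at h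
    refine le_trans ?_ h
    have p1 : ‖(a 0).s‖ ^ 2 + ‖(a 1).s‖ ^ 2 ≤ ss a N :=
      sh01 (fun n => ‖(a n).s‖ ^ 2) (fun _ => sq_nonneg _) N
    have p2 := sh01 (fun n => hh (a n)) (fun _ => hh_nonneg _) N
    rw [sum_hh] at p2
    have q1 : (‖(a 0).s‖ + ‖(a 1).s‖ + sT) ^ 2 ≤ 4 * (ss a N + sT ^ 2) := by
      linarith [sq3 ‖(a 0).s‖ ‖(a 1).s‖ sT, ss_nonneg a N, sq_nonneg sT]
    have q2 : (mm (a 0) + mm (a 1) + mT) ^ 2 ≤ 9 * (sx a N + sX a N + ss a N + mT ^ 2) := by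
      linarith [sq3 (mm (a 0)) (mm (a 1)) mT, mm_sq (a 0), mm_sq (a 1), sq_nonneg mT]
    have q3 := mul_le_mul_of_nonneg_left q1 hM2
    have q4 := mul_le_mul_of_nonneg_left q2 (mul_nonneg hδ.le hM2)
    linarith only [q3, q4]
  have hsum := Finset.sum_le_sum (s := Finset.range (N + 1)) fun n _ => hint n
  rw [hsplit, add_re, re_sum]
  rw [Finset.sum_sub_distrib, Finset.sum_add_distrib, Finset.sum_sub_distrib, ← Finset.sum_div,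
    Finset.sum_add_distrib, ← Finset.mul_sum, ← Finset.mul_sum, ← Finset.mul_sum] at hsum
  have w1 := sh3 (fun n => ‖(a n).s‖ ^ 2) (fun _ => sq_nonneg _) N
  have w2 := sh3 (fun n => hh (a n)) (fun _ => hh_nonneg _) N
  rw [sum_hh] at w2
  change _ ≤ 3 * ss a N at w1
  have w3 : ss a N = ∑ n ∈ Finset.range (N + 1), ‖(a (n + 1)).s‖ ^ 2 + ‖(a 0).s‖ ^ 2 := by
    rw [ss, Finset.sum_range_succ, Finset.sum_range_succ', hs (N + 2) (by omega)]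
    simp
  have w4 := mul_le_mul_of_nonneg_left w1 hM2
  have w5 := mul_le_mul_of_nonneg_left w2 (mul_nonneg hδ.le hM2)
  have w6 := mul_nonneg hM2 (ss_nonneg a N)
  have w7 := mul_nonneg hM2 (sq_nonneg sT)
  have w8 := mul_nonneg (mul_nonneg hδ.le hM2) (sq_nonneg mT)
  have w9 := mul_nonneg (mul_nonneg hδ.le hM2)
    (add_nonneg (add_nonneg (sx_nonneg a N) (sX_nonneg a N)) (ss_nonneg a N))
  have w10 : (2 * l - 1 / δ) * ss a N = (2 * l - 1 / δ) *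
      ∑ n ∈ Finset.range (N + 1), ‖(a (n + 1)).s‖ ^ 2 + (2 * l - 1 / δ) * ‖(a 0).s‖ ^ 2 := by
    rw [w3]; ring
  unfold II
  linarith only [hsum, hbd, w4, w5, w6, w7, w8, w9, w10]

theorem tst_fs (D c : ℂ) {a : ℕ → T3} (e0 E0 : ℂ) {N : ℕ} (hs : Fs N a) :
    Fs (N + 1) (tst D c a e0 E0) := by
  intro n hn
  obtain ⟨k, rfl⟩ : ∃ k, n = k + 1 := ⟨n - 1, by omega⟩
  have h0 := hs k (by omega)
  have h1 := hs (k + 1) (by omega)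
  have h2 := hs (k + 2) (by omega)
  simp only [tst, Ei, cx, cX, h0, h1, h2, zx, zX, zs]
  simp
  rfl

theorem tst_ss (D c : ℂ) (a : ℕ → T3) (e0 E0 : ℂ) (N : ℕ) : ss (tst D c a e0 E0) N = ss a N := by
  refine Finset.sum_congr rfl fun n _ => ?_
  cases n <;> simp [tst]

theorem tst_sx (D c : ℂ) {a : ℕ → T3} (e0 E0 : ℂ) {N : ℕ} (hs : Fs N a) :
    sx (tst D c a e0 E0) N = ‖E0‖ ^ 2 + II D c (cX a) N := by
  rw [sx, Finset.sum_range_succ, Finset.sum_range_succ', tst_fs D c e0 E0 hs (N + 2) (by omega)]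
  simp [tst, II, add_comm]

theorem tst_sX (D c : ℂ) {a : ℕ → T3} (e0 E0 : ℂ) {N : ℕ} (hs : Fs N a) :
    sX (tst D c a e0 E0) N = ‖e0‖ ^ 2 + II D c (cx a) N := by
  rw [sX, Finset.sum_range_succ, Finset.sum_range_succ', tst_fs D c e0 E0 hs (N + 2) (by omega)]
  simp [tst, II, add_comm]

theorem n1_nonneg {L : ℝ} (hL : 1 ≤ L) (A : T3) : 0 ≤ n1 L A := by
  have : 0 ≤ L := by linarith
  unfold n1; positivity

theorem nU_le {η r L : ℝ} (hη : 0 < η) (h1 : η ≤ r) (h2 : r ≤ 5) (hL : 1 ≤ L) (A B : T3) :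
    nU r L A B ≤ (28 + 2 / η ^ 2) * (n1 L A + n1 L B) := by
  have a1 := sq_sub_le A.x B.x
  have a2 := sq_sub_le A.X B.X
  have a3 := sq_sub_le A.s B.s
  have hr : 0 < r := hη.trans_le h1
  have b1 : r ^ 2 ≤ 25 := by nlinarith
  have b2 : 0 ≤ ‖A.x‖ ^ 2 + ‖A.X‖ ^ 2 + ‖B.x‖ ^ 2 + ‖B.X‖ ^ 2 := by positivity
  have b3 : 0 ≤ ‖A.s‖ ^ 2 + ‖B.s‖ ^ 2 := by positivity
  have b4 := mul_le_mul_of_nonneg_right b1 b2
  have b5 := mul_le_mul_of_nonneg_right hL b3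
  have b6 : ‖A.s - B.s‖ ^ 2 / r ^ 2 ≤ 2 / η ^ 2 * (n1 L A + n1 L B) := by
    have c1 : ‖A.s - B.s‖ ^ 2 ≤ 2 * (n1 L A + n1 L B) := by
      unfold n1; linarith
    calc ‖A.s - B.s‖ ^ 2 / r ^ 2 ≤ 2 * (n1 L A + n1 L B) / η ^ 2 :=
          div_le_div₀ ((sq_nonneg _).trans c1) c1 (by positivity) (pow_le_pow_left₀ hη.le h1 2)
      _ = _ := by ring
  unfold nU
  rw [add_mul]
  refine add_le_add ?_ b6
  unfold n1
  linarith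

theorem nU_ge {η r L : ℝ} (hη : 0 < η) (hη1 : η ≤ 1) (h1 : η ≤ r) (hL : 1 ≤ L) (A B : T3) :
    η ^ 2 * n1 L A ≤ nU r L A B := by
  have L0 : 0 ≤ L := by linarith
  have b1 : η ^ 2 ≤ r ^ 2 := pow_le_pow_left₀ hη.le h1 2
  have b2 : η ^ 2 ≤ 1 := by nlinarith
  have b3 := mul_le_mul_of_nonneg_right b1 (show 0 ≤ ‖A.x‖ ^ 2 + ‖A.X‖ ^ 2 by positivity)
  have b4 := mul_le_mul_of_nonneg_right b2 (show 0 ≤ L * ‖A.s‖ ^ 2 by positivity)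
  have b5 : 0 ≤ r ^ 2 * (‖B.x‖ ^ 2 + ‖B.X‖ ^ 2) := by positivity
  have b6 : 0 ≤ L * ‖B.s‖ ^ 2 := by positivity
  have b7 : 0 ≤ ‖A.s - B.s‖ ^ 2 / r ^ 2 := by positivity
  unfold nU n1
  linarith [sq_nonneg ‖A.x - B.x‖, sq_nonneg ‖A.X - B.X‖]

theorem nM1_le {η r L : ℝ} (hη : 0 < η) (h1 : η ≤ r) (h2 : r ≤ 5) (hL : 1 ≤ L) (a : ℕ → T3)
    (N : ℕ) : nM1 r L (N + 2) a ≤ (28 + 2 / η ^ 2) * (2 * (sx a N + sX a N + L * ss a N)) := by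
  have h := Finset.sum_le_sum (s := Finset.range (N + 2)) fun n _ =>
    nU_le hη h1 h2 hL (a n) (a (n + 1))
  rw [← Finset.mul_sum, Finset.sum_add_distrib] at h
  refine h.trans (mul_le_mul_of_nonneg_left ?_ (by positivity))
  have e1 := Finset.sum_range_succ (fun n => n1 L (a n)) (N + 2)
  have e2 := Finset.sum_range_succ' (fun n => n1 L (a n)) (N + 2)
  rw [← sum_n1]
  linarith [n1_nonneg hL (a 0), n1_nonneg hL (a (N + 2))]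

theorem nM1_ge {η r L : ℝ} (hη : 0 < η) (hη1 : η ≤ 1) (h1 : η ≤ r) (hL : 1 ≤ L) {a : ℕ → T3}
    {N : ℕ} (hs : Fs N a) : η ^ 2 * (sx a N + sX a N + L * ss a N) ≤ nM1 r L (N + 2) a := by
  have h := Finset.sum_le_sum (s := Finset.range (N + 2)) fun n _ =>
    nU_ge hη hη1 h1 hL (a n) (a (n + 1))
  rw [← Finset.mul_sum] at h
  rw [← sum_n1, Finset.sum_range_succ, hs (N + 2) (by omega)]
  simpa [n1, nM1] using h

theorem nM3_le {η r L : ℝ} (hη : 0 < η) (h1 : η ≤ r) (h2 : r ≤ 5) (hL : 1 ≤ L) (a b c : ℕ → T3)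
    (N : ℕ) : nM3 r L (N + 2) a b c ≤ 3 * (28 + 2 / η ^ 2) *
      (sx a N + sX a N + sx b N + sX b N + sx c N + sX c N + L * (ss a N + ss b N + ss c N)) := by
  have a1 := nM1_le hη h1 h2 hL a N
  have a2 := nM1_le hη h1 h2 hL b N
  have a3 := nU_le hη h1 h2 hL (a 0) (b 0)
  have a4 := sh01 (fun n => n1 L (a n)) (fun _ => n1_nonneg hL _) N
  have a5 := sh01 (fun n => n1 L (b n)) (fun _ => n1_nonneg hL _) N
  have a6 : 0 ≤ ∑ n ∈ Finset.range (N + 3), n1 L (c n) :=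
    Finset.sum_nonneg fun _ _ => n1_nonneg hL _
  rw [sum_n1] at a4 a5 a6
  have K1 : 1 ≤ 28 + 2 / η ^ 2 := by
    have : 0 ≤ 2 / η ^ 2 := by positivity
    linarith
  have a7 : n1 L (a 0) + n1 L (b 0)
      ≤ sx a N + sX a N + L * ss a N + (sx b N + sX b N + L * ss b N) := by
    linarith [n1_nonneg hL (a 1), n1_nonneg hL (b 1)]
  have a8 := mul_le_mul_of_nonneg_left a7 (zero_le_one.trans K1)
  have a9 := mul_le_mul_of_nonneg_right K1 a6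
  unfold nM3
  rw [sum_n1]
  linarith only [a1, a2, a3, a8, a9, a6]

theorem nM3_ge {η r L : ℝ} (hη : 0 < η) (hη1 : η ≤ 1) (h1 : η ≤ r) (hL : 1 ≤ L)
    {a b : ℕ → T3} (c : ℕ → T3) {N : ℕ} (ha : Fs N a) (hb : Fs N b) : η ^ 2 *
      (sx a N + sX a N + sx b N + sX b N + sx c N + sX c N + L * (ss a N + ss b N + ss c N))
      ≤ nM3 r L (N + 2) a b c := by
  have a1 := nM1_ge hη hη1 h1 hL ha
  have a2 := nM1_ge hη hη1 h1 hL hb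
  have a3 := nU_ge hη hη1 h1 hL (a 0) (b 0)
  have a4 := mul_nonneg (sq_nonneg η) (n1_nonneg hL (a 0))
  have a6 : 0 ≤ ∑ n ∈ Finset.range (N + 3), n1 L (c n) :=
    Finset.sum_nonneg fun _ _ => n1_nonneg hL _
  rw [sum_n1] at a6
  have b2 : η ^ 2 ≤ 1 := by nlinarith
  have a9 := mul_le_mul_of_nonneg_right b2 a6
  unfold nM3
  rw [sum_n1]
  linarith only [a1, a2, a3, a4, a9]

end MH3P

end Pool.Agent.P.MP_cc4a10_gt
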