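import Pool.Agent.P.MP_cc4a10_gt.St

/-! Low frequency stability of three chains: the junction and the second child. -/

open Complex
open scoped ComplexConjugate Real

namespace Pool.Agent.P.MP_cc4a10_gt

namespace ML3P

theorem wq_eq : wq = (√2 / 2 : ℝ) + (√2 / 2 : ℝ) * I := by
  have h : (π / 4 : ℂ) = ((π / 4 : ℝ) : ℂ) := by push_cast; ring
  rw [wq, h, exp_mul_I, ← ofReal_cos, ← ofReal_sin, Real.cos_pi_div_four, Real.sin_pi_div_four]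

theorem norm_wq : ‖wq‖ = 1 := by
  have h : (π / 4 : ℂ) = ((π / 4 : ℝ) : ℂ) := by push_cast; ring
  rw [wq, h, norm_exp_ofReal_mul_I]

theorem wq_mul : wq * -I = conj wq := by
  rw [wq_eq]
  generalize √2 / 2 = h
  apply Complex.ext <;> simp

theorem main_re {e : ℝ} (he : 6 ≤ e) (u : ℂ) :
    2 * ‖u‖ ^ 2 ≤ (wq / 2 * (-I * e) * (conj u * u)).re ∧
      2 * ‖u‖ ^ 2 ≤ (conj wq / 2 * (I * e) * (conj u * u)).re := by
  have h : (14 / 10 : ℝ) ≤ √2 := Real.le_sqrt_of_sq_le (by norm_num)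
  have h1 : conj u * u = ((‖u‖ ^ 2 : ℝ) : ℂ) := by rw [conj_mul']; push_cast; rfl
  have h2 : (wq / 2 * (-I * e)).re = √2 / 2 / 2 * e := by
    rw [wq_eq]; generalize √2 / 2 = h; simp
  have h3 : (conj wq / 2 * (I * e)).re = √2 / 2 / 2 * e := by
    rw [wq_eq]; generalize √2 / 2 = h; simp [neg_div]
  have h4 : 2 ≤ √2 / 2 / 2 * e := by nlinarith
  rw [h1, re_mul_ofReal, re_mul_ofReal, h2, h3]
  exact ⟨by gcongr, by gcongr⟩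

theorem real_re (a : ℝ) (u : ℂ) : ((a : ℂ) * (conj u * u)).re = a * ‖u‖ ^ 2 := by
  rw [conj_mul', ← ofReal_pow, ← ofReal_mul, ofReal_re]

theorem cj {k : ℂ} {a : ℝ} (h : ‖k‖ ≤ a) : ‖conj k‖ ≤ a := by rwa [Complex.norm_conj]

theorem hv {k : ℂ} {a : ℝ} (h : ‖k‖ ≤ a) : ‖k / 2‖ ≤ a := by
  rw [norm_div, Complex.norm_ofNat]
  linarith [norm_nonneg k]

theorem mi {k : ℂ} {a : ℝ} (h : ‖k‖ ≤ a) : ‖-I * k‖ ≤ a := by simpa using h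

theorem tp_ge {t : T3} {a b c : ℂ} {α β γ δ : ℝ} (h1 : ‖t.x‖ ≤ α) (h2 : ‖t.X‖ ≤ α)
    (h3 : ‖t.s‖ ≤ γ) (ha : ‖a‖ ≤ β) (hb : ‖b‖ ≤ β) (hc : ‖c‖ ≤ δ) :
    -(α * β + γ * δ) ≤ (tp t a b c).re := by
  have h4 := norm_mul_le_of_le (cj h2) ha
  have h5 := norm_mul_le_of_le (cj h1) hb
  have h6 := norm_mul_le_of_le (cj h3) hc
  have h7 : ‖tp t a b c‖ ≤ ‖conj t.X * a‖ / 2 + ‖conj t.x * b‖ / 2 + ‖conj t.s * c‖ :=
    norm_add_le_of_le (norm_add_le_of_le (by simp) (by simp)) le_rfl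
  linarith [(abs_le.1 (abs_re_le_norm (tp t a b c))).1]

theorem TL_x (A : T3) : ‖(TL A).x‖ = ‖A.X‖ := by simp [TL, norm_wq]
theorem TL_X (A : T3) : ‖(TL A).X‖ = ‖A.x‖ := by simp [TL, norm_wq]
theorem TL_s (A : T3) : ‖(TL A).s‖ = ‖A.s‖ := by simp [TL]

/-- one half of a level of the second child -/
theorem half {K η n e L' : ℝ} {p c z0 z1 g0 g1 : ℂ} {A B : T3} (he : 6 ≤ e) (hη : η ≤ 1)
    (hp : ‖p‖ ≤ K * η) (hc : ‖c‖ ≤ K * η) (h0 : ‖z0‖ ≤ K) (h1 : ‖z1‖ ≤ K) (h2 : ‖g0‖ ≤ K)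
    (h3 : ‖g1‖ ≤ K) (ax : ‖A.x‖ ≤ n) (aX : ‖A.X‖ ≤ n) (as : ‖A.s‖ ≤ η * n)
    (bx : ‖B.x‖ ≤ n) (bX : ‖B.X‖ ≤ n) (bs : ‖B.s‖ ≤ η * n) :
    2 * ‖A.x‖ ^ 2 + 2 * ‖A.X‖ ^ 2 + L' / 2 * ‖A.s‖ ^ 2 - 10 * K * η * n ^ 2 ≤
      (bU1 (-I * (e + p)) (-I * c) z0 z1 ((g0 - L') / 2) (g1 / 2) A B (TL A)).re := by
  have id : bU1 (-I * (e + p)) (-I * c) z0 z1 ((g0 - L') / 2) (g1 / 2) A B (TL A) =
      wq / 2 * (-I * e) * (conj A.x * A.x) + conj wq / 2 * (I * e) * (conj A.X * A.X)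
      + ((L' / 2 : ℝ) : ℂ) * (conj A.s * A.s) + tp (TL A)
        (-I * p * A.x - -I * c * B.x + z0 * A.s - z1 * B.s)
        (conj (-I * p) * A.X - conj (-I * c) * B.X - conj z0 * A.s + conj z1 * B.s)
        (z1 / 2 * B.x - z0 / 2 * A.x + conj z0 / 2 * A.X - conj z1 / 2 * B.X
          + g0 / 2 * A.s - g1 / 2 * B.s) := by
    simp only [bU1, tp, TL, map_mul, map_add, map_neg, conj_conj, conj_I, conj_ofReal]
    push_cast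
    ring
  have hn : 0 ≤ n := (norm_nonneg _).trans ax
  have P1 : ∀ {k u : ℂ}, ‖k‖ ≤ K * η → ‖u‖ ≤ n → ‖k * u‖ ≤ K * η * n := norm_mul_le_of_le
  have P4 : ∀ {k u : ℂ}, ‖k‖ ≤ K → ‖u‖ ≤ η * n → ‖k * u‖ ≤ K * η * n := fun a b =>
    (norm_mul_le_of_le a b).trans_eq (by ring)
  have P5 : ∀ {k u : ℂ}, ‖k‖ ≤ K → ‖u‖ ≤ n → ‖k / 2 * u‖ ≤ K * n := fun a b =>
    norm_mul_le_of_le (hv a) b
  have hs : η * n ≤ n := by nlinarith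
  have h := tp_ge (t := TL A) ((TL_x A).trans_le aX) ((TL_X A).trans_le ax) ((TL_s A).trans_le as)
    (norm_sub_le_of_le (norm_add_le_of_le (norm_sub_le_of_le (P1 (mi hp) ax) (P1 (mi hc) bx))
      (P4 h0 as)) (P4 h1 bs))
    (norm_add_le_of_le (norm_sub_le_of_le (norm_sub_le_of_le (P1 (cj (mi hp)) aX)
      (P1 (cj (mi hc)) bX)) (P4 (cj h0) as)) (P4 (cj h1) bs))
    (norm_sub_le_of_le (norm_add_le_of_le (norm_sub_le_of_le (norm_add_le_of_le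
      (norm_sub_le_of_le (P5 h1 bx) (P5 h0 ax)) (P5 (cj h0) aX)) (P5 (cj h1) bX))
      (P5 h2 (as.trans hs))) (P5 h3 (bs.trans hs)))
  rw [id, add_re, add_re, add_re, real_re]
  linarith [(main_re he A.x).1, (main_re he A.X).2]

/-- the test vector at the first site of the second child -/
noncomputable def TC (A B C : T3) : T3 :=
  ⟨wq * (C.X + 2 * I * (A.X - B.X)), conj wq * (C.x - 2 * I * (A.x - B.x)), -C.s⟩

theorem TC_x (A B C : T3) : ‖(TC A B C).x‖ ≤ ‖C.X‖ + 2 * ‖A.X - B.X‖ := by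
  simp only [TC, norm_mul, norm_wq, one_mul]
  exact norm_add_le_of_le le_rfl (by simp)

theorem TC_X (A B C : T3) : ‖(TC A B C).X‖ ≤ ‖C.x‖ + 2 * ‖A.x - B.x‖ := by
  simp only [TC, norm_mul, Complex.norm_conj, norm_wq, one_mul]
  exact norm_sub_le_of_le le_rfl (by simp)

theorem junc_id (e L L' : ℝ) (s s1 s2 : Sy) (A B C C1 : T3) :
    bT e L L' s s1 s2 A B C (TL A) (TL B) (TC A B C) +
      bU1 (-I * (e + s2.p)) (-I * s2.c) (kp * s2.z0) (kp * s2.z1) ((s2.g0 - L') / 2) (s2.g1 / 2)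
        C C1 (TC A B C) =
    bU (-I * e - I * s1.ch) (-I * e - I * s1.ch) (kp * s1.zh) (kp * s1.zh) ((s1.g0 - L') / 2)
        (s1.gh / 2) A B (TL A) (TL B)
      + wq / 2 * (-I * e) * (conj (C.x - I * (A.x - B.x)) * (C.x - I * (A.x - B.x)))
      + conj wq / 2 * (I * e) * (conj (C.X + I * (A.X - B.X)) * (C.X + I * (A.X - B.X)))
      + ((L - L' / 2 : ℝ) : ℂ) * (conj A.s * A.s) + (L' : ℂ) * (conj C.s * C.s)
      + tp (TL A)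
        ((s.p + I * s1.ch) * A.x + (e - I * s2.ch) * C.x + (s.z0 - kp * s1.zh) * A.s
          + kp * s2.zh * C.s)
        (conj (s.p + I * s1.ch) * A.X + conj (e - I * s2.ch) * C.X
          - conj (s.z0 - kp * s1.zh) * A.s - conj (kp * s2.zh) * C.s)
        (conj (s.z0 - kp * s1.zh) / 2 * A.X - (s.z0 - kp * s1.zh) / 2 * A.x
          - kp * s2.zh / 2 * C.x + conj (kp * s2.zh) / 2 * C.X + (s.g0 - s1.g0 / 2) * A.s
          + s2.gh / 2 * C.s)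
      + tp (TL B) (-I * (s1.p - s1.ch) * B.x + (kp * s1.z0 - kp * s1.zh) * B.s)
        (conj (-I * (s1.p - s1.ch)) * B.X - conj (kp * s1.z0 - kp * s1.zh) * B.s)
        (conj (kp * s1.z0 - kp * s1.zh) / 2 * B.X - (kp * s1.z0 - kp * s1.zh) / 2 * B.x)
      + tp (TC A B C)
        ((e - I * s2.ch) * A.x + -I * s2.p * C.x + -I * s2.p * C.x - -I * s2.c * C1.x
          + kp * s2.z0 * C.s + kp * s2.z0 * C.s + kp * s2.zh * A.s - kp * s2.z1 * C1.s)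
        (conj (e - I * s2.ch) * A.X + conj (-I * s2.p) * C.X + conj (-I * s2.p) * C.X
          - conj (-I * s2.c) * C1.X - conj (kp * s2.z0) * C.s - conj (kp * s2.z0) * C.s
          - conj (kp * s2.zh) * A.s + conj (kp * s2.z1) * C1.s)
        (conj (kp * s2.z0) * C.X - kp * s2.z0 * C.x - kp * s2.zh / 2 * A.x
          + conj (kp * s2.zh) / 2 * A.X + s2.g0 * C.s + s2.gh / 2 * A.s
          + kp * s2.z1 / 2 * C1.x - conj (kp * s2.z1) / 2 * C1.X - s2.g1 / 2 * C1.s) := by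
  simp only [bT, bU, bU1, tp, TL, TC, map_mul, map_add, map_sub, map_neg, conj_conj, conj_I,
    conj_ofReal, map_ofNat]
  push_cast
  ring_nf
  simp only [I_sq, I_pow_three]
  ring

/-- the junction -/
theorem junc {K η ρ m n e L L' : ℝ} {s s1 s2 : Sy} {A B C C1 : T3} (he : 6 ≤ e) (hη : η ≤ 1)
    (hρ : 0 ≤ ρ) (hρη : ρ ≤ η) (hm : ρ * m = n)
    (h1 : ‖s.p + I * s1.ch‖ ≤ K * ρ ^ 4) (h2 : ‖e - I * s2.ch‖ ≤ K * ρ ^ 2)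
    (h3 : ‖s.z0 - kp * s1.zh‖ ≤ K * ρ ^ 2) (h4 : ‖kp * s2.zh‖ ≤ K * ρ ^ 2)
    (h5 : ‖s.g0 - s1.g0 / 2‖ ≤ K) (h6 : ‖s1.p - s1.ch‖ ≤ K * ρ ^ 4)
    (h7 : ‖kp * s1.z0 - kp * s1.zh‖ ≤ K * ρ ^ 2) (h8 : ‖s2.p‖ ≤ K * ρ ^ 2)
    (h9 : ‖s2.c‖ ≤ K * ρ ^ 2) (k0 : ‖kp * s2.z0‖ ≤ K) (k1 : ‖kp * s2.z1‖ ≤ K)
    (k2 : ‖s2.g0‖ ≤ K) (k3 : ‖s2.g1‖ ≤ K) (k4 : ‖s2.gh‖ ≤ K)
    (ax : ‖A.x‖ ≤ m) (aX : ‖A.X‖ ≤ m) (as : ‖A.s‖ ≤ η * n)
    (bx : ‖B.x‖ ≤ m) (bX : ‖B.X‖ ≤ m) (bs : ‖B.s‖ ≤ η * n)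
    (cx : ‖C.x‖ ≤ n) (cX : ‖C.X‖ ≤ n) (cs : ‖C.s‖ ≤ η * n)
    (dx : ‖C1.x‖ ≤ n) (dX : ‖C1.X‖ ≤ n) (ds : ‖C1.s‖ ≤ η * n)
    (ex : ‖A.x - B.x‖ ≤ n) (eX : ‖A.X - B.X‖ ≤ n) :
    (bU (-I * e - I * s1.ch) (-I * e - I * s1.ch) (kp * s1.zh) (kp * s1.zh) ((s1.g0 - L') / 2)
        (s1.gh / 2) A B (TL A) (TL B)).re
      + 2 * ‖C.x - I * (A.x - B.x)‖ ^ 2 + 2 * ‖C.X + I * (A.X - B.X)‖ ^ 2
      + (L - L' / 2) * ‖A.s‖ ^ 2 + L' * ‖C.s‖ ^ 2 - 47 * K * η * n ^ 2 ≤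
    (bT e L L' s s1 s2 A B C (TL A) (TL B) (TC A B C) +
      bU1 (-I * (e + s2.p)) (-I * s2.c) (kp * s2.z0) (kp * s2.z1) ((s2.g0 - L') / 2) (s2.g1 / 2)
        C C1 (TC A B C)).re := by
  have hn : 0 ≤ n := (norm_nonneg _).trans cx
  have hK : 0 ≤ K := (norm_nonneg _).trans k2
  have hρ1 : ρ ≤ 1 := hρη.trans hη
  have hs : η * n ≤ n := by nlinarith
  have q1 : ρ * n ≤ η * n := by gcongr
  have q2 : ρ * (ρ * n) ≤ η * n := by nlinarith [mul_nonneg hρ hn]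
  have P1 : ∀ {k u : ℂ}, ‖k‖ ≤ K * ρ ^ 4 → ‖u‖ ≤ m → ‖k * u‖ ≤ K * ρ * (η * n) := fun a b =>
    (norm_mul_le_of_le a b).trans (by
      calc K * ρ ^ 4 * m = K * ρ * (ρ * (ρ * n)) := by rw [← hm]; ring
        _ ≤ _ := by gcongr)
  have P2 : ∀ {k u : ℂ}, ‖k‖ ≤ K * ρ ^ 2 → ‖u‖ ≤ n → ‖k * u‖ ≤ K * ρ * (η * n) := fun a b =>
    (norm_mul_le_of_le a b).trans (by
      calc K * ρ ^ 2 * n = K * ρ * (ρ * n) := by ring
        _ ≤ _ := by gcongr)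
  have P3 : ∀ {k u : ℂ}, ‖k‖ ≤ K * ρ ^ 2 → ‖u‖ ≤ m → ‖k * u‖ ≤ K * (η * n) := fun a b =>
    (norm_mul_le_of_le a b).trans (by
      calc K * ρ ^ 2 * m = K * (ρ * n) := by rw [← hm]; ring
        _ ≤ _ := by gcongr)
  have P6 : ∀ {k u : ℂ}, ‖k‖ ≤ K * ρ ^ 2 → ‖u‖ ≤ n → ‖k * u‖ ≤ K * (η * n) := fun a b =>
    (norm_mul_le_of_le a b).trans (by
      calc K * ρ ^ 2 * n = K * (ρ * (ρ * n)) := by ring
        _ ≤ _ := by gcongr)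
  have P4 : ∀ {k u : ℂ}, ‖k‖ ≤ K → ‖u‖ ≤ η * n → ‖k * u‖ ≤ K * (η * n) := norm_mul_le_of_le
  have P5 : ∀ {k u : ℂ}, ‖k‖ ≤ K → ‖u‖ ≤ n → ‖k * u‖ ≤ K * n := norm_mul_le_of_le
  have W : ∀ {k : ℂ}, ‖k‖ ≤ K * (η * n) → ‖k‖ ≤ K * n := fun a => a.trans (by gcongr)
  have as' := as.trans hs
  have bs' := bs.trans hs
  have cs' := cs.trans hs
  have ds' := ds.trans hs
  have tA := tp_ge (t := TL A) ((TL_x A).trans_le aX) ((TL_X A).trans_le ax) ((TL_s A).trans_le as)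
    (norm_add_le_of_le (norm_add_le_of_le (norm_add_le_of_le (P1 h1 ax) (P2 h2 cx)) (P2 h3 as'))
      (P2 h4 cs'))
    (norm_sub_le_of_le (norm_sub_le_of_le (norm_add_le_of_le (P1 (cj h1) aX) (P2 (cj h2) cX))
      (P2 (cj h3) as')) (P2 (cj h4) cs'))
    (norm_add_le_of_le (norm_add_le_of_le (norm_add_le_of_le (norm_sub_le_of_le
      (norm_sub_le_of_le (W (P3 (hv (cj h3)) aX)) (W (P3 (hv h3) ax))) (W (P6 (hv h4) cx)))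
      (W (P6 (hv (cj h4)) cX))) (P5 h5 as')) (P5 (hv k4) cs'))
  have tB := tp_ge (t := TL B) ((TL_x B).trans_le bX) ((TL_X B).trans_le bx) ((TL_s B).trans_le bs)
    (norm_add_le_of_le (P1 (mi h6) bx) (P2 h7 bs'))
    (norm_sub_le_of_le (P1 (cj (mi h6)) bX) (P2 (cj h7) bs'))
    (norm_sub_le_of_le (W (P3 (hv (cj h7)) bX)) (W (P3 (hv h7) bx)))
  have tC := tp_ge (t := TC A B C) (α := 3 * n) (γ := η * n)
    ((TC_x A B C).trans (by linarith)) ((TC_X A B C).trans (by linarith)) (by simpa [TC] using cs)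
    (norm_sub_le_of_le (norm_add_le_of_le (norm_add_le_of_le (norm_add_le_of_le
      (norm_sub_le_of_le (norm_add_le_of_le (norm_add_le_of_le (P3 h2 ax) (P6 (mi h8) cx))
      (P6 (mi h8) cx)) (P6 (mi h9) dx)) (P4 k0 cs)) (P4 k0 cs)) (P6 h4 as')) (P4 k1 ds))
    (norm_add_le_of_le (norm_sub_le_of_le (norm_sub_le_of_le (norm_sub_le_of_le
      (norm_sub_le_of_le (norm_add_le_of_le (norm_add_le_of_le (P3 (cj h2) aX)
      (P6 (cj (mi h8)) cX)) (P6 (cj (mi h8)) cX)) (P6 (cj (mi h9)) dX)) (P4 (cj k0) cs))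
      (P4 (cj k0) cs)) (P6 (cj h4) as')) (P4 (cj k1) ds))
    (norm_sub_le_of_le (norm_sub_le_of_le (norm_add_le_of_le (norm_add_le_of_le
      (norm_add_le_of_le (norm_add_le_of_le (norm_sub_le_of_le (norm_sub_le_of_le
      (P5 (cj k0) cX) (P5 k0 cx)) (W (P3 (hv h4) ax))) (W (P3 (hv (cj h4)) aX))) (P5 k2 cs'))
      (P5 (hv k4) as')) (P5 (hv k1) dx)) (P5 (hv (cj k1)) dX)) (P5 (hv k3) ds'))
  have e1 : m * (K * ρ * (η * n)) = K * η * n ^ 2 := by rw [← hm]; ring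
  rw [junc_id]
  simp only [add_re, real_re]
  linarith [(main_re he (C.x - I * (A.x - B.x))).1, (main_re he (C.X + I * (A.X - B.X))).2]

end ML3P

end Pool.Agent.P.MP_cc4a10_gt
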