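import Pool.Agent.P.MP_cc4a10_gt.NT3

/-!
Norm of a synthesised vector on a transition level.
-/

open Set Filter Topology Complex
open scoped ComplexConjugate Real

noncomputable section

namespace Pool.Agent.P.MP_cc4a10_gt
namespace NTP

theorem av_mul_real (m : ℕ) (a : ℝ) (F : GI → ℝ) : av m (fun u => a * F u) = a * av m F := by
  simp only [av, ts_mul_left_real, smul_eq_mul]; ring

theorem g2_bound {m : ℕ} {c : ℂ} {ε P Q T : GI → ℂ} {N : ℝ} (hP : Per m P) (hQ : Per m Q)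
    (hT : Per m T)
    (h : ∀ u, ‖ε u - c * Q u‖
      ≤ ‖c‖ * (‖P u - Q u‖ + ‖Q (u + gi) - Q u‖ + ‖T u‖ + ‖T (u + gi)‖))
    (h1 : msq m (fun u => P u - Q u) ≤ 2 * N) (h2 : msq m (fun u => Q (u + 1) - Q u) ≤ N)
    (h3 : msq m (fun u => Q (u + gi) - Q u) ≤ N) (h4 : msq m T ≤ 2 * N) :
    g2 m ε ≤ 342 * N * ‖c‖ ^ 2 := by
  set M : GI → ℝ := fun u => ‖P u - Q u‖ + ‖Q (u + gi) - Q u‖ + ‖T u‖ + ‖T (u + gi)‖ with hM
  have hp : Per m (fun u => M u ^ 2) := fun u w => by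
    simp only [hM, hP u w, hQ u w, hT u w, hQ.shift gi u w, hT.shift gi u w]
  have h5 := msq_shift hT gi
  have hM2 : av m (fun u => M u ^ 2) ≤ 28 * N := by
    have := av_mono m (F := fun u => M u ^ 2) (G := fun u => 4 * (‖P u - Q u‖ ^ 2
      + ‖Q (u + gi) - Q u‖ ^ 2 + ‖T u‖ ^ 2 + ‖T (u + gi)‖ ^ 2)) fun u => by
        simp only [hM]
        generalize ‖P u - Q u‖ = x1
        generalize ‖Q (u + gi) - Q u‖ = x2
        generalize ‖T u‖ = x3
        generalize ‖T (u + gi)‖ = x4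
        nlinarith [sq_nonneg (x1 - x2), sq_nonneg (x1 - x3), sq_nonneg (x1 - x4),
          sq_nonneg (x2 - x3), sq_nonneg (x2 - x4), sq_nonneg (x3 - x4)]
    rw [av_mul_real, av_add, av_add, av_add] at this
    unfold msq at h1 h3 h4 h5
    linarith
  have key : ∀ g, msq m (fun u => Q (u + g) - Q u) ≤ N →
      msq m (fun u => ε (u + g) - ε u) ≤ 171 * N * ‖c‖ ^ 2 := by
    intro g hg
    have h6 : av m (fun u => M (u + g) ^ 2) = av m (fun u => M u ^ 2) := by
      unfold av; rw [ts_shift hp g]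
    have := av_mono m (F := fun u => ‖ε (u + g) - ε u‖ ^ 2) (G := fun u => (3 * ‖c‖ ^ 2) *
      (‖Q (u + g) - Q u‖ ^ 2 + M (u + g) ^ 2 + M u ^ 2)) fun u => by
        have e : ε (u + g) - ε u = c * (Q (u + g) - Q u) + (ε (u + g) - c * Q (u + g))
          - (ε u - c * Q u) := by ring
        have b : ‖ε (u + g) - ε u‖ ≤ ‖c‖ * (‖Q (u + g) - Q u‖ + M (u + g) + M u) := by
          rw [e, mul_add, mul_add, ← norm_mul]
          exact (norm_sub_le _ _).trans
            (add_le_add ((norm_add_le _ _).trans (add_le_add le_rfl (h _))) (h _))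
        refine (pow_le_pow_left₀ (norm_nonneg _) b 2).trans ?_
        rw [mul_pow, mul_comm 3, mul_assoc]
        refine mul_le_mul_of_nonneg_left ?_ (sq_nonneg _)
        generalize ‖Q (u + g) - Q u‖ = x1
        generalize M (u + g) = x2
        generalize M u = x3
        nlinarith [sq_nonneg (x1 - x2), sq_nonneg (x1 - x3), sq_nonneg (x2 - x3)]
    rw [av_mul_real, av_add, av_add, h6] at this
    unfold msq at hg ⊢
    refine this.trans ?_
    have h7 : 0 ≤ 3 * ‖c‖ ^ 2 := by positivity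
    nlinarith [mul_le_mul_of_nonneg_left hg h7, mul_le_mul_of_nonneg_left hM2 h7]
  have := key 1 h2
  have := key gi h3
  unfold g2; linarith

theorem msq_three {m : ℕ} {F A B C : GI → ℂ} (h : ∀ u, ‖F u‖ ≤ ‖A u‖ + ‖B u‖ + ‖C u‖) :
    msq m F ≤ 3 * (msq m A + msq m B + msq m C) := by
  have := av_mono m (F := fun u => ‖F u‖ ^ 2)
    (G := fun u => 3 * (‖A u‖ ^ 2 + ‖B u‖ ^ 2 + ‖C u‖ ^ 2)) fun u => by
      refine (pow_le_pow_left₀ (norm_nonneg _) (h u) 2).trans ?_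
      nlinarith [sq_nonneg (‖A u‖ - ‖B u‖), sq_nonneg (‖A u‖ - ‖C u‖), sq_nonneg (‖B u‖ - ‖C u‖)]
  rwa [av_mul_real, av_add, av_add] at this

theorem dn_le {m : ℕ} {ρ : GI → ℝ} {W : GI → ℂ} {k s : ℝ} (hs : 0 ≤ s)
    (hρ : ∀ u, ρ u = k * (W u).re)
    (h : ∀ f : GI → ℂ, Per m f → g2 m f ≤ 1 → ‖av m (fun u => W u * f u)‖ ≤ s) :
    dn m ρ ^ 2 ≤ (|k| * s) ^ 2 := by
  refine pow_le_pow_left₀ (Real.sSup_nonneg ?_) (Real.sSup_le ?_ (by positivity)) 2
  · rintro x ⟨f, -, -, rfl⟩; exact norm_nonneg _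
  rintro x ⟨f, hf, hg, rfl⟩
  have h1 := h f hf hg
  have h2 := h (fun u => conj (f u)) (fun u w => by simp only [hf u w]) (by
    simpa only [g2, msq, ← map_sub, RCLike.norm_conj] using hg)
  have e : av m (fun u => (ρ u : ℂ) * f u) = (k / 2 : ℝ) * (av m (fun u => W u * f u)
      + conj (av m (fun u => W u * conj (f u)))) := by
    rw [av_conj, ← av_add, ← av_mul_left]
    congr 1; funext u
    rw [hρ, ofReal_mul, re_eq_add_conj, map_mul, conj_conj]; push_cast; ring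
  rw [e, norm_mul, norm_real, Real.norm_eq_abs, abs_div, abs_two]
  have h3 := norm_add_le (av m (fun u => W u * f u)) (conj (av m (fun u => W u * conj (f u))))
  rw [RCLike.norm_conj] at h3
  nlinarith [abs_nonneg k]

open Classical in
/-- Indicator of a class modulo two. -/
def ind (F : Prop → Prop → Prop) (u : GI) : ℂ := if F (Odd u.im) (Odd u.re) then 1 else 0

theorem ind_P2 (F : Prop → Prop → Prop) : P2 (ind F) := by
  refine ⟨fun u w => ?_, fun u => ?_⟩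
  · have h2 : (2 : GI) * w = w + w := two_mul w
    have h1 : Odd (u + 2 * w).im ↔ Odd u.im := by
      rw [h2, Int.odd_iff, Int.odd_iff, Zsqrtd.im_add, Zsqrtd.im_add]; omega
    have h3 : Odd (u + 2 * w).re ↔ Odd u.re := by
      rw [h2, Int.odd_iff, Int.odd_iff, Zsqrtd.re_add, Zsqrtd.re_add]; omega
    unfold ind
    rw [propext h1, propext h3]
  · unfold ind; split_ifs <;> simp

theorem odd_im_gi (u : GI) : Odd (u + gi).im ↔ ¬Odd u.im := by
  simp only [gi, Zsqrtd.im_add, Int.odd_iff]; omega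
theorem re_gi (u : GI) : (u + gi).re = u.re := by simp [gi]
theorem odd_re_one (u : GI) : Odd (u - 1).re ↔ ¬Odd u.re := by
  simp only [Zsqrtd.re_sub, Zsqrtd.re_one, Int.odd_iff]; omega
theorem im_one (u : GI) : (u - 1).im = u.im := by simp
theorem odd_im_gi' (u : GI) : Odd (u - gi).im ↔ ¬Odd u.im := by
  simp only [gi, Zsqrtd.im_sub, Int.odd_iff]; omega
theorem re_gi' (u : GI) : (u - gi).re = u.re := by simp [gi]

/-- The weighted size changes on the cells. -/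
def WW (A B C : GI → ℂ) (u : GI) : ℂ :=
  if Odd u.im then (if Odd u.re then A u else -(B u + C u) / 2)
  else (if Odd u.re then -(B u - C u) / 2 else 0)

theorem WW_le {j : ℕ} {R : Finset GI} (hR : RepS j R) {a b c f : GI → ℂ} (h0 : a 0 - b 0 = 0)
    (hf : Per (j + 2) f) (hg : g2 (j + 2) f ≤ 1) {s : ℝ} (hs : 0 ≤ s)
    (h1 : ∑ κ ∈ R, ‖a κ - b κ‖ ^ 2 / ‖thq j κ‖ ^ 2 ≤ s ^ 2) (h2 : ∑ κ ∈ R, ‖b κ‖ ^ 2 ≤ s ^ 2)
    (h3 : ∑ κ ∈ R, ‖c κ‖ ^ 2 ≤ s ^ 2) :
    ‖av (j + 2) (fun u => WW (Y j R a) (Y j R b) (Y j R c) u * f u)‖ ≤ 18 * s := by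
  have t1 := keyK hR (ind_P2 fun p q => p ∧ q) hf hg (b := fun κ => a κ - b κ) h0 hs h1
  have t2 := keyD hR (ind_P2 fun p q => p ∧ ¬q) hf hg (Or.inl rfl) hs h2
  have t3 := keyD hR (ind_P2 fun p q => ¬p ∧ q) hf hg (Or.inr rfl) hs h2
  have t4 := keyD hR (ind_P2 fun p q => p ∧ ¬q) hf hg (Or.inl rfl) hs h3
  have t5 := keyD hR (ind_P2 fun p q => ¬p ∧ q) hf hg (Or.inr rfl) hs h3
  have e : ∀ u, WW (Y j R a) (Y j R b) (Y j R c) u * f u
      = ind (fun p q => p ∧ q) u * Y j R (fun κ => a κ - b κ) u * f u + (1 / 2 : ℂ) *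
        ((ind (fun p q => p ∧ ¬q) (u - 1) - ind (fun p q => p ∧ ¬q) u) * Y j R b u * f u
        + (ind (fun p q => ¬p ∧ q) (u - gi) - ind (fun p q => ¬p ∧ q) u) * Y j R b u * f u
        + (ind (fun p q => p ∧ ¬q) (u - 1) - ind (fun p q => p ∧ ¬q) u) * Y j R c u * f u
        - (ind (fun p q => ¬p ∧ q) (u - gi) - ind (fun p q => ¬p ∧ q) u) * Y j R c u * f u) := by
    intro u
    rw [← Y_sub]
    simp only [WW, ind, odd_re_one, im_one, odd_im_gi', re_gi']
    by_cases p : Odd u.im <;> by_cases q : Odd u.re <;> simp [p, q] <;> ring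
  simp only [e]
  rw [av_add, av_mul_left, av_sub, av_add, av_add]
  refine (norm_add_le _ _).trans ?_
  rw [norm_mul, show ‖(1 / 2 : ℂ)‖ = 1 / 2 by simp]
  have := (norm_sub_le _ _).trans (add_le_add ((norm_add_le _ _).trans
    (add_le_add ((norm_add_le _ _).trans (add_le_add t2 t3)) t4)) t5)
  linarith

end NTP

open NTP in
theorem pNT : S_NT := by
  refine ⟨6000, by norm_num, fun S K kc kf j R a hS hk hc hf hR hR2 h0 h0' => ?_⟩
  obtain ⟨sg, hsg, hl, lc, lf, hhc, hhf⟩ := level hS hk hc hf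
  set N := ∑ κ ∈ R kc,
    (nU ‖thq j κ‖ (j + 2) (a kc κ) (a kf κ) + n1 (j + 2) (a kf (κ + om ^ j))) with hN
  have hb : ∀ F : GI → ℝ, (∀ κ, F κ ≤ nU ‖thq j κ‖ (j + 2) (a kc κ) (a kf κ)
      + n1 (j + 2) (a kf (κ + om ^ j))) → ∑ κ ∈ R kc, F κ ≤ N :=
    fun F h => Finset.sum_le_sum fun κ _ => h κ
  have hj : (0 : ℝ) ≤ j := Nat.cast_nonneg j
  have pos : ∀ κ, 0 ≤ ‖(a kc κ).x - (a kf κ).x‖ ^ 2 + ‖(a kc κ).X - (a kf κ).X‖ ^ 2 ∧
      0 ≤ ‖thq j κ‖ ^ 2 * (‖(a kc κ).x‖ ^ 2 + ‖(a kc κ).X‖ ^ 2) ∧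
      0 ≤ ‖thq j κ‖ ^ 2 * (‖(a kf κ).x‖ ^ 2 + ‖(a kf κ).X‖ ^ 2) ∧
      0 ≤ (j : ℝ) * ‖(a kc κ).s‖ ^ 2 ∧ 0 ≤ (j : ℝ) * ‖(a kf κ).s‖ ^ 2 ∧
      0 ≤ (j : ℝ) * ‖(a kf (κ + om ^ j)).s‖ ^ 2 ∧ 0 ≤ ‖(a kc κ).s‖ ^ 2 ∧ 0 ≤ ‖(a kf κ).s‖ ^ 2 ∧
      0 ≤ ‖(a kf (κ + om ^ j)).s‖ ^ 2 ∧ 0 ≤ ‖(a kc κ).s - (a kf κ).s‖ ^ 2 / ‖thq j κ‖ ^ 2 ∧
      0 ≤ ‖(a kf (κ + om ^ j)).x‖ ^ 2 + ‖(a kf (κ + om ^ j)).X‖ ^ 2 := fun κ => by
    refine ⟨?_, ?_, ?_, ?_, ?_, ?_, ?_, ?_, ?_, ?_, ?_⟩ <;> positivity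
  have hN0 : 0 ≤ N := by
    have := hb (fun _ => 0) fun κ => by
      obtain ⟨p1, p2, p3, p4, p5, p6, p7, p8, p9, p10, p11⟩ := pos κ
      simp only [nU, n1]; linarith
    simpa using this
  have hq : ∀ u, q0 (lvT S K) u = sg * (4 * dd (j + 2) ^ 2) * pat (1 / 2) u := fun u => by
    rw [hl]; rfl
  have hd := pow_pos (dd_pos (j + 2)) 2
  have hsg0 : sg ≠ 0 := fun h => by simp [h] at hsg
  have hsn : ∀ u, ‖sn u‖ = 1 := fun u => by unfold sn; split_ifs <;> simp
  -- displacements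
  have b1 : g2 (j + 2) (eT S (syn S j R a) K) ≤ 342 * N * ‖cc j‖ ^ 2 := by
    refine g2_bound (Z_per j (R kc) (fun κ => (a kc κ).x) (fun κ => (a kc κ).X))
      (Z_per j (R kc) (fun κ => (a kf κ).x) (fun κ => (a kf κ).X))
      (Z_per j (R kc) (fun κ => (a kf (κ + om ^ j)).x) (fun κ => (a kf (κ + om ^ j)).X))
      (fun u => ?_) ?_ ?_ ?_ ?_
    · have he : eT S (syn S j R a) K u
          = (syn S j R a).1 (lk S K (nbr (1 / 2) u)) (cc j * (nbr (1 / 2) u : GI)) := by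
        unfold eT; rw [hl]
      rw [he]
      generalize hP : Z j (R kc) (fun κ => (a kc κ).x) (fun κ => (a kc κ).X) = P
      generalize hQ : Z j (R kc) (fun κ => (a kf κ).x) (fun κ => (a kf κ).X) = Q
      generalize hT : Z j (R kc) (fun κ => (a kf (κ + om ^ j)).x)
        (fun κ => (a kf (κ + om ^ j)).X) = T
      have n1 := norm_nonneg (P u - Q u)
      have n2 := norm_nonneg (Q (u + gi) - Q u)
      have n3 := norm_nonneg (T u)
      have n4 := norm_nonneg (T (u + gi))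
      have fine : ∀ w : GI, (Odd w.im ↔ ¬Odd w.re) → ‖(syn S j R a).1 (lk S K w) (cc j * w)
          - cc j * Q u‖ ≤ ‖cc j‖ * (‖Q w - Q u‖ + ‖T w‖) := fun w hw => by
        rw [lf w hw, (syn_fine hf hhf hR.1 hR2 a hw).1, hQ, hT, ← mul_sub, norm_mul,
          add_sub_right_comm]
        gcongr
        refine (norm_add_le _ _).trans ?_
        rw [norm_mul, hsn, one_mul]
      by_cases p : Odd u.im <;> by_cases q : Odd u.re
      · have hn : nbr (1 / 2) u = u := by simp [nbr, pat, p, q]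
        rw [hn, lc u p q, (syn_coarse hc hhc R a p q).1, hP, ← mul_sub, norm_mul]
        gcongr; linarith
      · have hn : nbr (1 / 2) u = u := by norm_num [nbr, pat, p, q]
        rw [hn]
        refine (fine u (by simp [p, q])).trans ?_
        refine mul_le_mul_of_nonneg_left ?_ (norm_nonneg _)
        rw [sub_self (Q u), norm_zero]; linarith
      · have hn : nbr (1 / 2) u = u := by simp [nbr, pat, p, q]
        rw [hn]
        refine (fine u (by simp [p, q])).trans ?_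
        refine mul_le_mul_of_nonneg_left ?_ (norm_nonneg _)
        rw [sub_self (Q u), norm_zero]; linarith
      · have hn : nbr (1 / 2) u = u + gi := by simp [nbr, pat, p, q]
        rw [hn]
        refine (fine (u + gi) (by rw [odd_im_gi, re_gi]; simp [p, q])).trans ?_
        gcongr; linarith
    · simp only [Z_sub]
      refine (msq_Z hR.1 _ _).trans (mul_le_mul_of_nonneg_left (hb _ fun κ => ?_) zero_le_two)
      obtain ⟨p1, p2, p3, p4, p5, p6, p7, p8, p9, p10, p11⟩ := pos κ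
      simp only [nU, n1]; linarith
    · refine (msq_Z_shift hR.1 _ _ (by simp)).trans (hb _ fun κ => ?_)
      obtain ⟨p1, p2, p3, p4, p5, p6, p7, p8, p9, p10, p11⟩ := pos κ
      simp only [nU, n1]; linarith
    · refine (msq_Z_shift hR.1 _ _ (by rw [coe_gi, norm_I])).trans (hb _ fun κ => ?_)
      obtain ⟨p1, p2, p3, p4, p5, p6, p7, p8, p9, p10, p11⟩ := pos κ
      simp only [nU, n1]; linarith
    · refine (msq_Z hR.1 _ _).trans (mul_le_mul_of_nonneg_left (hb _ fun κ => ?_) zero_le_two)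
      obtain ⟨p1, p2, p3, p4, p5, p6, p7, p8, p9, p10, p11⟩ := pos κ
      simp only [nU, n1]; linarith
  -- size changes
  generalize hA : Y j (R kc) (fun κ => (a kc κ).s) = A
  generalize hB : Y j (R kc) (fun κ => (a kf κ).s) = B
  generalize hC : Y j (R kc) (fun κ => (a kf (κ + om ^ j)).s) = C
  have hs : ∀ u, sT S (syn S j R a) K u = if Odd u.im then (if Odd u.re then (A u).re
      else (B u + C u).re) else (if Odd u.re then (B u - C u).re else 0) := by
    intro u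
    have he : sT S (syn S j R a) K u = if pat (1 / 2) u = 0 then 0
        else (syn S j R a).2 (lk S K u) (cc j * u) := by
      unfold sT; rw [hq, hl]; simp [hsg0, (dd_pos (j + 2)).ne']
    rw [he]
    by_cases p : Odd u.im <;> by_cases q : Odd u.re
    · rw [lc u p q, (syn_coarse hc hhc R a p q).2, hA]; simp [pat, p, q]
    · rw [lf u (by simp [p, q]), (syn_fine hf hhf hR.1 hR2 a (by simp [p, q])).2, hB, hC]
      norm_num [pat, p, q, sn]
    · rw [lf u (by simp [p, q]), (syn_fine hf hhf hR.1 hR2 a (by simp [p, q])).2, hB, hC]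
      simp [pat, p, q, sn, sub_eq_add_neg]
    · simp [pat, p, q]
  have b2 : ((j + 2 : ℕ) : ℝ) * msq (j + 2) (fun u => (sT S (syn S j R a) K u : ℂ)) ≤ 3 * N := by
    have h1 := msq_three (m := j + 2) (F := fun u => (sT S (syn S j R a) K u : ℂ)) (A := A) (B := B)
      (C := C) fun u => by
        have n1 := norm_nonneg (A u)
        have n2 := norm_nonneg (B u)
        have n3 := norm_nonneg (C u)
        rw [norm_real, Real.norm_eq_abs, hs]
        split_ifs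
        · linarith [abs_re_le_norm (A u)]
        · linarith [abs_re_le_norm (B u + C u), norm_add_le (B u) (C u)]
        · linarith [abs_re_le_norm (B u - C u), norm_sub_le (B u) (C u)]
        · rw [abs_zero]; linarith
    rw [← hA, ← hB, ← hC, msq_Y hR.1, msq_Y hR.1, msq_Y hR.1, ← Finset.sum_add_distrib,
      ← Finset.sum_add_distrib] at h1
    refine (mul_le_mul_of_nonneg_left h1 (Nat.cast_nonneg _)).trans ?_
    rw [mul_left_comm, Finset.mul_sum]
    refine mul_le_mul_of_nonneg_left (hb _ fun κ => ?_) (by norm_num)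
    obtain ⟨p1, p2, p3, p4, p5, p6, p7, p8, p9, p10, p11⟩ := pos κ
    simp only [nU, n1]; push_cast; linarith
  have b3 : dn (j + 2) (fun u => q0 (lvT S K) u * sT S (syn S j R a) K u / dd (j + 2) ^ 2) ^ 2
      ≤ (|4 * sg| * (18 * √N)) ^ 2 := by
    refine dn_le (W := WW A B C) (by positivity) (fun u => ?_) fun f hf hg => ?_
    · rw [hq, hs, WW, pat]
      have hd0 := (dd_pos (j + 2)).ne'
      split_ifs <;> simp <;> field_simp <;> ring
    · rw [← hA, ← hB, ← hC]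
      refine WW_le hR (by rw [h0, h0', sub_self]) hf hg (Real.sqrt_nonneg _) ?_ ?_ ?_ <;>
        rw [Real.sq_sqrt hN0] <;> refine hb _ fun κ => ?_ <;>
        obtain ⟨p1, p2, p3, p4, p5, p6, p7, p8, p9, p10, p11⟩ := pos κ <;>
        simp only [nU, n1] <;> linarith
  rw [abs_mul, hsg, mul_pow, mul_pow, mul_pow, Real.sq_sqrt hN0, sq_abs] at b3
  have hm : (lvT S K).m = j + 2 := by rw [hl]
  rw [norm_cc, ← div_le_iff₀ hd] at b1
  unfold nT nb2
  rw [hm]
  linarith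

end Pool.Agent.P.MP_cc4a10_gt
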