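import Pool.Agent.P.MP_cc4a10_gt.St

/-!
Trigonometric sums on the cells of a transition level: periodicity, Parseval, summation by parts.
-/

open Set Filter Topology Complex
open scoped ComplexConjugate Real

noncomputable section

namespace Pool.Agent.P.MP_cc4a10_gt.NTP

theorem dot_add (κ z z' : ℂ) : dot κ (z + z') = dot κ z + dot κ z' := by
  simp [dot, mul_add]
theorem dot_add_left (κ κ' z : ℂ) : dot (κ + κ') z = dot κ z + dot κ' z := by
  simp [dot, add_mul]
theorem dot_neg_left (κ z : ℂ) : dot (-κ) z = -dot κ z := by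
  simp [dot]

theorem chi_add (κ : GI) (z z' : ℂ) : chi κ (z + z') = chi κ z * chi κ z' := by
  simp only [chi, dot_add, ← Complex.exp_add]; congr 1; push_cast; ring
theorem chi_add_left (κ κ' : GI) (z : ℂ) : chi (κ + κ') z = chi κ z * chi κ' z := by
  simp only [chi, GaussianInt.toComplex_add, dot_add_left, ← Complex.exp_add]
  congr 1; push_cast; ring
theorem chi_eq (κ : GI) (z : ℂ) : chi κ z = exp (I * ((2 * π * dot κ z : ℝ) : ℂ)) := by
  simp only [chi]; congr 1; push_cast; ring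
theorem norm_chi (κ : GI) (z : ℂ) : ‖chi κ z‖ = 1 := by
  rw [chi_eq, norm_exp_I_mul_ofReal]
theorem chi_zero (z : ℂ) : chi 0 z = 1 := by simp [chi, dot]
theorem conj_chi (κ : GI) (z : ℂ) : conj (chi κ z) = chi (-κ) z := by
  simp only [chi, ← exp_conj, GaussianInt.toComplex_neg, dot_neg_left]
  congr 1; simp [map_ofNat]
theorem chi_int (κ w : GI) : chi κ w = 1 := by
  rw [chi, Complex.exp_eq_one_iff]
  refine ⟨κ.re * w.re + κ.im * w.im, ?_⟩
  have : dot κ w = ((κ.re * w.re + κ.im * w.im : ℤ) : ℝ) := by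
    simp [dot]
  rw [this]; push_cast; ring

/-- Cell size. -/
def cc (j : ℕ) : ℂ := al ^ j / 2

theorem al_mul_om : al * (om : ℂ) = I := by
  rw [coe_om, al]; ring_nf; rw [I_sq]; ring
theorem al_mul_conj : al * conj (om : ℂ) = 1 := by
  rw [coe_om, al]; simp only [map_add, map_one, conj_I]; ring_nf; rw [I_sq]; ring
theorem cc_om (j : ℕ) : cc j * ((om ^ (j + 2) : GI) : ℂ) = ((gi ^ (j + 1) : GI) : ℂ) := by
  have h : (om : ℂ) ^ 2 = 2 * I := by rw [coe_om]; ring_nf; rw [I_sq]; ring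
  simp only [map_pow, coe_gi, cc]
  rw [pow_add (om : ℂ), h, pow_succ I, ← al_mul_om, mul_pow, al_mul_om]; ring

theorem chi_per (j : ℕ) (κ : GI) : Per (j + 2) (fun u : GI => chi κ (cc j * u)) := by
  intro u w
  simp only [GaussianInt.toComplex_add, GaussianInt.toComplex_mul, mul_add, chi_add]
  rw [← mul_assoc, cc_om, ← GaussianInt.toComplex_mul, chi_int, mul_one]

theorem chi_cc (j : ℕ) (κ : GI) (z : ℂ) :
    chi κ (cc j * z) = exp (I * ((dot (thq j κ) z / 2 : ℝ) : ℂ)) := by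
  rw [chi_eq]; congr 3
  have h : conj (thq j κ) * z = ((2 * π * 2 : ℝ) : ℂ) * (conj (κ : ℂ) * (cc j * z)) := by
    simp only [thq, cc, map_mul, map_pow, conj_conj, conj_ofReal, map_ofNat]; push_cast; ring
  simp only [dot, h, re_ofReal_mul]; ring

theorem norm_chi_sub_one (j : ℕ) (κ : GI) (z : ℂ) :
    ‖chi κ (cc j * z) - 1‖ ≤ ‖thq j κ‖ * ‖z‖ / 2 := by
  rw [chi_cc]
  refine Real.norm_exp_I_mul_ofReal_sub_one_le.trans ?_
  rw [Real.norm_eq_abs, abs_div, abs_two]
  gcongr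
  refine (abs_re_le_norm _).trans ?_
  rw [norm_mul, RCLike.norm_conj]

theorem sq_le_exp {x : ℝ} (hx : |x| ≤ π) : x ^ 2 ≤ 4 * ‖exp (I * (x : ℂ)) - 1‖ ^ 2 := by
  rw [norm_exp_I_mul_ofReal_sub_one, Real.norm_eq_abs, abs_mul, abs_two]
  have h := Real.mul_abs_le_abs_sin (x := x / 2) (by rw [abs_div, abs_two]; linarith)
  rw [abs_div, abs_two] at h
  have h4 : |x| ≤ 4 * |Real.sin (x / 2)| := by
    have hp := Real.pi_pos
    have h1 : |x| ≤ π * |Real.sin (x / 2)| := by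
      have : 2 / π * (|x| / 2) = |x| / π := by field_simp
      rw [this, div_le_iff₀ hp] at h; linarith
    have := abs_nonneg (Real.sin (x / 2))
    nlinarith [Real.pi_le_four]
  rw [← sq_abs x]
  nlinarith [abs_nonneg x]

/-- Symbols of the two double steps. -/
def e1 (j : ℕ) (κ : GI) : ℂ := chi κ (cc j * ((2 : GI) : ℂ)) - 1
def e2 (j : ℕ) (κ : GI) : ℂ := chi κ (cc j * ((2 * gi : GI) : ℂ)) - 1
def DD (j : ℕ) (κ : GI) : ℝ := ‖e1 j κ‖ ^ 2 + ‖e2 j κ‖ ^ 2

theorem DD_ge (j : ℕ) (κ : GI) (h : Sq (thq j κ)) : ‖thq j κ‖ ^ 2 ≤ 4 * DD j κ := by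
  have h1 : dot (thq j κ) ((2 : GI) : ℂ) / 2 = (thq j κ).re := by
    rw [show ((2 : GI) : ℂ) = 2 from map_ofNat _ 2]; simp [dot]
  have h2 : dot (thq j κ) ((2 * gi : GI) : ℂ) / 2 = (thq j κ).im := by
    rw [GaussianInt.toComplex_mul, coe_gi, show ((2 : GI) : ℂ) = 2 from map_ofNat _ 2]; simp [dot]
  rw [DD, e1, e2, chi_cc, chi_cc, h1, h2, Complex.sq_norm, normSq_apply]
  have := sq_le_exp h.2.1
  have := sq_le_exp h.2.2
  linarith

theorem av_mul_left (m : ℕ) (a : ℂ) (F : GI → ℂ) : av m (fun u => a * F u) = a * av m F := by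
  simp only [av, ts_mul_left, real_smul]; ring
theorem av_sum {ι : Type*} (m : ℕ) (T : Finset ι) (F : ι → GI → ℂ) :
    av m (fun u => ∑ i ∈ T, F i u) = ∑ i ∈ T, av m (F i) := by
  simp only [av, ts_sum, Finset.smul_sum]
theorem av_shift {m : ℕ} {F : GI → ℂ} (h : Per m F) (x : GI) :
    av m (fun u => F (u + x)) = av m F := by
  simp only [av, ts_shift h x]
theorem av_conj (m : ℕ) (F : GI → ℂ) : conj (av m F) = av m (fun u => conj (F u)) := by
  simp only [av, real_smul, map_mul, conj_ofReal, ts_conj]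
theorem msq_coe (m : ℕ) (F : GI → ℂ) : ((msq m F : ℝ) : ℂ) = av m (fun u => F u * conj (F u)) := by
  simp only [msq, av, smul_eq_mul, real_smul, ofReal_mul, ts_ofReal, mul_conj, normSq_eq_norm_sq]

theorem av_chi (j : ℕ) (ν : GI) (h : ¬om ^ j ∣ ν) :
    av (j + 2) (fun u : GI => chi ν (cc j * u)) = 0 := by
  by_contra hne
  have key : ∀ g : GI, chi ν (cc j * g) = 1 := by
    intro g
    have h1 := av_shift (chi_per j ν) g
    simp only [GaussianInt.toComplex_add, mul_add, chi_add] at h1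
    simp only [mul_comm _ (chi ν (cc j * g))] at h1
    rw [av_mul_left] at h1
    exact (mul_eq_right₀ hne).1 h1
  have k2 : ∀ g : GI, ∃ n : ℤ, dot ν (cc j * g) = n := by
    intro g
    obtain ⟨n, hn⟩ := Complex.exp_eq_one_iff.1 (key g)
    refine ⟨n, ?_⟩
    have hp : (2 * π * I : ℂ) ≠ 0 := two_pi_I_ne_zero
    have : ((dot ν (cc j * g) : ℝ) : ℂ) = n := mul_left_cancel₀ hp (by rw [hn]; ring)
    exact_mod_cast this
  obtain ⟨n1, h1⟩ := k2 2
  obtain ⟨n2, h2⟩ := k2 (2 * gi)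
  apply h
  have e2 : ((2 : GI) : ℂ) = 2 := map_ofNat _ 2
  have h3 : conj (ν : ℂ) * al ^ j = ((⟨n1, -n2⟩ : GI) : ℂ) := by
    rw [GaussianInt.toComplex_mul, coe_gi, e2] at h2
    rw [e2] at h1
    have a1 : cc j * 2 = al ^ j := by rw [cc]; ring
    have a2 : cc j * (2 * I) = al ^ j * I := by rw [cc]; ring
    rw [a1, dot] at h1
    rw [a2, dot, ← mul_assoc, mul_I_re] at h2
    apply Complex.ext
    · simp only [GaussianInt.toComplex_def']; simp [h1]
    · simp only [GaussianInt.toComplex_def']; simp [← h2]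
  refine ⟨star ⟨n1, -n2⟩, GaussianInt.toComplex_injective ?_⟩
  have h4 : conj (ν : ℂ) = conj (om : ℂ) ^ j * ((⟨n1, -n2⟩ : GI) : ℂ) := by
    rw [← h3, mul_left_comm, ← mul_pow, mul_comm _ al, al_mul_conj, one_pow, mul_one]
  have h5 := congrArg conj h4
  rw [conj_conj, map_mul, map_pow, conj_conj] at h5
  rw [h5, GaussianInt.toComplex_mul, GaussianInt.toComplex_star, map_pow]

/-- Trigonometric sum on the cells. -/
def Y (j : ℕ) (R : Finset GI) (a : GI → ℂ) (u : GI) : ℂ := ∑ κ ∈ R, a κ * chi κ (cc j * u)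

theorem Y_per (j : ℕ) (R : Finset GI) (a : GI → ℂ) : Per (j + 2) (Y j R a) := fun u w =>
  Finset.sum_congr rfl fun κ _ => congrArg (a κ * ·) (chi_per j κ u w)
theorem Y_shift (j : ℕ) (R : Finset GI) (a : GI → ℂ) (u g : GI) :
    Y j R a (u + g) - Y j R a u = Y j R (fun κ => a κ * (chi κ (cc j * g) - 1)) u := by
  simp only [Y, ← Finset.sum_sub_distrib, GaussianInt.toComplex_add, mul_add, chi_add]
  exact Finset.sum_congr rfl fun κ _ => by ring
theorem Y_sub (j : ℕ) (R : Finset GI) (a b : GI → ℂ) (u : GI) :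
    Y j R a u - Y j R b u = Y j R (fun κ => a κ - b κ) u := by
  simp only [Y, ← Finset.sum_sub_distrib, sub_mul]

theorem msq_Y {j : ℕ} {R : Finset GI} (hR : Rep j R) (a : GI → ℂ) :
    msq (j + 2) (Y j R a) = ∑ κ ∈ R, ‖a κ‖ ^ 2 := by
  apply ofReal_injective
  rw [msq_coe]
  have h : ∀ u : GI, Y j R a u * conj (Y j R a u)
      = ∑ κ ∈ R, ∑ κ' ∈ R, (a κ * conj (a κ')) * chi (κ - κ') (cc j * u) := by
    intro u
    simp only [Y, map_sum, Finset.sum_mul_sum, map_mul, conj_chi, sub_eq_add_neg, chi_add_left]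
    exact Finset.sum_congr rfl fun κ _ => Finset.sum_congr rfl fun κ' _ => by ring
  simp only [h, av_sum, av_mul_left]
  push_cast
  refine Finset.sum_congr rfl fun κ hκ => ?_
  rw [Finset.sum_eq_single κ]
  · simp only [sub_self, chi_zero, av_const, mul_one, mul_conj, normSq_eq_norm_sq]; push_cast; rfl
  · intro κ' hκ' hne
    rw [av_chi j _ (fun hd => hne (hR.1 κ hκ κ' hκ' hd).symm), mul_zero]
  · intro h; exact absurd hκ h

end Pool.Agent.P.MP_cc4a10_gt.NTP
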