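import Pool.Agent.P.MP_cc4a10_gt.NT1

/-!
Summation by parts against test functions of bounded gradient.
-/

open Set Filter Topology Complex
open scoped ComplexConjugate Real

noncomputable section

namespace Pool.Agent.P.MP_cc4a10_gt.NTP

/-- Bounded weights that depend on the class modulo two only. -/
def P2 (χ : GI → ℂ) : Prop := (∀ u w, χ (u + 2 * w) = χ u) ∧ ∀ u, ‖χ u‖ ≤ 1

theorem P2.per {χ : GI → ℂ} (h : P2 χ) (j : ℕ) : Per (j + 2) χ := fun u w => by
  have h2 : om ^ 2 = 2 * gi := by decide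
  rw [pow_add, h2, show om ^ j * (2 * gi) * w = 2 * (om ^ j * gi * w) by ring, h.1]

theorem pair_le (m : ℕ) {χ F G : GI → ℂ} (h : ∀ u, ‖χ u‖ ≤ 1) {s t : ℝ} (hs : 0 ≤ s) (ht : 0 ≤ t)
    (hF : msq m F ≤ s ^ 2) (hG : msq m G ≤ t ^ 2) :
    ‖av m (fun u => χ u * F u * G u)‖ ≤ s * t := by
  refine (norm_av_le m _).trans ((av_mono m (G := fun u => ‖F u‖ * ‖G u‖) fun u => ?_).trans
    ((av_mul_le m F G).trans ?_))
  · rw [norm_mul, norm_mul]
    have := mul_le_mul_of_nonneg_right (h u) (norm_nonneg (F u))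
    exact mul_le_mul_of_nonneg_right (by linarith) (norm_nonneg _)
  · exact mul_le_mul (Real.sqrt_le_iff.2 ⟨hs, hF⟩) (Real.sqrt_le_iff.2 ⟨ht, hG⟩)
      (Real.sqrt_nonneg _) hs

theorem msq_two {m : ℕ} {f : GI → ℂ} (hf : Per m f) (g : GI)
    (h : msq m (fun u => f (u + g) - f u) ≤ 1) : msq m (fun u => f (u + 2 * g) - f u) ≤ 2 ^ 2 := by
  have hp : Per m (fun u => f (u + g) - f u) := fun u w => by
    simp only [hf.shift g u w, hf u w]
  have h1 := msq_shift hp g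
  have h2 := msq_add_le m (fun u => f (u + g + g) - f (u + g)) (fun u => f (u + g) - f u)
  have h3 : (fun u => f (u + 2 * g) - f u)
      = fun u => f (u + g + g) - f (u + g) + (f (u + g) - f u) := by
    funext u; rw [two_mul, add_assoc]; ring
  rw [h3]; linarith

theorem sbp {m : ℕ} {χ φ f : GI → ℂ} (hχ : Per m χ) (hb : ∀ u, ‖χ u‖ ≤ 1) (hφ : Per m φ)
    (hf : Per m f) (g : GI) (hg : ∀ u, χ (u + g) = χ u) {s t : ℝ} (hs : 0 ≤ s) (ht : 0 ≤ t)
    (hF : msq m φ ≤ s ^ 2) (hG : msq m (fun u => f (u + g) - f u) ≤ t ^ 2) :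
    ‖av m (fun u => χ u * (φ (u + g) - φ u) * f u)‖ ≤ s * t := by
  have hp : Per m (fun u => χ u * φ u * f u) := fun u w => by simp only [hχ u w, hφ u w, hf u w]
  have h1 := av_shift hp g
  simp only [hg] at h1
  have h2 : av m (fun u => χ u * (φ (u + g) - φ u) * f u)
      = -av m (fun u => χ u * φ (u + g) * (f (u + g) - f u)) := by
    simp only [mul_sub, sub_mul, av_sub, h1]; ring
  rw [h2, norm_neg]
  exact pair_le m hb hs ht (by rw [msq_shift hφ]; exact hF) hG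

theorem g2_one {m : ℕ} {f : GI → ℂ} (h : g2 m f ≤ 1) :
    msq m (fun u => f (u + 1) - f u) ≤ 1 ∧ msq m (fun u => f (u + gi) - f u) ≤ 1 := by
  have h1 := msq_nonneg m (fun u => f (u + 1) - f u)
  have h2 := msq_nonneg m (fun u => f (u + gi) - f u)
  unfold g2 at h
  constructor <;> linarith

/-- Negative norm bound for sums without zero mode. -/
theorem keyK {j : ℕ} {R : Finset GI} (hR : RepS j R) {χ f b : GI → ℂ} (hχ : P2 χ)
    (hf : Per (j + 2) f) (hg : g2 (j + 2) f ≤ 1) (hb : b 0 = 0) {s : ℝ} (hs : 0 ≤ s)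
    (h : ∑ κ ∈ R, ‖b κ‖ ^ 2 / ‖thq j κ‖ ^ 2 ≤ s ^ 2) :
    ‖av (j + 2) (fun u => χ u * Y j R b u * f u)‖ ≤ 8 * s := by
  have hD : ∀ κ ∈ R, κ ≠ 0 → 0 < ‖thq j κ‖ ^ 2 ∧ ‖thq j κ‖ ^ 2 ≤ 4 * DD j κ := fun κ hκ h0 =>
    ⟨pow_pos (norm_pos_iff.2 (hR.2.2 κ hκ h0).1) 2, DD_ge j κ (hR.2.2 κ hκ h0)⟩
  have hm : ∀ e : GI → ℂ, (∀ κ, ‖e κ‖ ^ 2 ≤ DD j κ) →
      msq (j + 2) (Y j R (fun κ => b κ * conj (e κ) / DD j κ)) ≤ (2 * s) ^ 2 := by
    intro e he
    rw [msq_Y hR.1, mul_pow]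
    refine le_trans ?_ (mul_le_mul_of_nonneg_left h (by norm_num))
    rw [Finset.mul_sum]
    refine Finset.sum_le_sum fun κ hκ => ?_
    by_cases h0 : κ = 0
    · simp [h0, hb]
    obtain ⟨h1, h2⟩ := hD κ hκ h0
    have h3 : 0 < DD j κ := by linarith
    rw [norm_div, norm_mul, RCLike.norm_conj, norm_real, Real.norm_of_nonneg h3.le, div_pow, mul_pow,
      mul_div_assoc', div_le_div_iff₀ (by positivity) h1]
    have h4 := sq_nonneg ‖b κ‖
    have h5 : ‖e κ‖ ^ 2 * ‖thq j κ‖ ^ 2 ≤ DD j κ * (4 * DD j κ) :=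
      mul_le_mul (he κ) h2 h1.le h3.le
    nlinarith [mul_le_mul_of_nonneg_left h5 h4]
  have hY : ∀ u, Y j R b u
      = (Y j R (fun κ => b κ * conj (e1 j κ) / DD j κ) (u + 2 * 1)
          - Y j R (fun κ => b κ * conj (e1 j κ) / DD j κ) u)
        + (Y j R (fun κ => b κ * conj (e2 j κ) / DD j κ) (u + 2 * gi)
          - Y j R (fun κ => b κ * conj (e2 j κ) / DD j κ) u) := by
    intro u
    rw [Y_shift, Y_shift, mul_one]
    simp only [Y, ← Finset.sum_add_distrib, ← add_mul]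
    refine Finset.sum_congr rfl fun κ hκ => ?_
    congr 1
    by_cases h0 : κ = 0
    · simp [h0, hb]
    obtain ⟨h1, h2⟩ := hD κ hκ h0
    have h3 : ((DD j κ : ℝ) : ℂ) ≠ 0 := ofReal_ne_zero.2 (by linarith : 0 < DD j κ).ne'
    have h4 : ((DD j κ : ℝ) : ℂ) = conj (e1 j κ) * e1 j κ + conj (e2 j κ) * e2 j κ := by
      rw [DD, conj_mul', conj_mul']; push_cast; rfl
    change b κ = b κ * conj (e1 j κ) / DD j κ * e1 j κ + b κ * conj (e2 j κ) / DD j κ * e2 j κ
    field_simp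
    rw [h4]
  obtain ⟨g1, g2⟩ := g2_one hg
  have t1 := sbp (hχ.per j) hχ.2 (Y_per j R _) hf (2 * 1) (fun u => hχ.1 u 1) (by positivity)
    (by norm_num) (hm (e1 j) fun κ => by unfold DD; nlinarith [sq_nonneg ‖e2 j κ‖])
    (msq_two hf 1 g1)
  have t2 := sbp (hχ.per j) hχ.2 (Y_per j R _) hf (2 * gi) (fun u => hχ.1 u gi) (by positivity)
    (by norm_num) (hm (e2 j) fun κ => by unfold DD; nlinarith [sq_nonneg ‖e1 j κ‖])
    (msq_two hf gi g2)
  simp only [hY, mul_add, add_mul, av_add]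
  refine (norm_add_le _ _).trans ?_
  linarith

/-- Dipole weights. -/
theorem keyD {j : ℕ} {R : Finset GI} (hR : RepS j R) {χ f b : GI → ℂ} (hχ : P2 χ)
    (hf : Per (j + 2) f) (hg : g2 (j + 2) f ≤ 1) {g : GI} (hg1 : g = 1 ∨ g = gi) {s : ℝ}
    (hs : 0 ≤ s) (h : ∑ κ ∈ R, ‖b κ‖ ^ 2 ≤ s ^ 2) :
    ‖av (j + 2) (fun u => (χ (u - g) - χ u) * Y j R b u * f u)‖ ≤ 5 * s := by
  have hn : ‖(g : ℂ)‖ = 1 := by
    rcases hg1 with rfl | rfl
    · simp
    · rw [coe_gi, norm_I]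
  have hfg : msq (j + 2) (fun u => f (u + g) - f u) ≤ 1 ^ 2 := by
    rw [one_pow]
    rcases hg1 with rfl | rfl
    exacts [(g2_one hg).1, (g2_one hg).2]
  have hp : Per (j + 2) (fun u => χ (u - g) * Y j R b u * f u) := fun u w => by
    have := (hχ.per j).shift (-g) u w
    simp only [← sub_eq_add_neg] at this
    simp only [this, Y_per j R b u w, hf u w]
  have h1 := av_shift hp g
  simp only [add_sub_cancel_right] at h1
  have h2 : av (j + 2) (fun u => (χ (u - g) - χ u) * Y j R b u * f u)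
      = av (j + 2) (fun u => χ u * Y j R b (u + g) * (f (u + g) - f u))
        + av (j + 2) (fun u => χ u * Y j R (fun κ => b κ * (chi κ (cc j * g) - 1)) u * f u) := by
    simp only [← Y_shift]
    simp only [mul_sub, sub_mul, av_sub, h1]; ring
  have t1 := pair_le (j + 2) (F := fun u => Y j R b (u + g)) hχ.2 hs zero_le_one
    (by rw [msq_shift (Y_per j R b), msq_Y hR.1]; exact h) hfg
  have t2 := keyK hR hχ hf hg (b := fun κ => b κ * (chi κ (cc j * g) - 1))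
    (by simp [chi_zero]) (s := s / 2) (by positivity) (by
      rw [div_pow]
      refine le_trans ?_ (div_le_div_of_nonneg_right h (by norm_num))
      rw [Finset.sum_div]
      refine Finset.sum_le_sum fun κ _ => ?_
      have h3 := norm_chi_sub_one j κ g
      rw [hn, mul_one] at h3
      rcases eq_or_lt_of_le (norm_nonneg (thq j κ)) with h0 | h0
      · rw [← h0]; simp; positivity
      rw [norm_mul, mul_pow, div_le_div_iff₀ (by positivity) (by norm_num)]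
      have h4 : ‖chi κ (cc j * g) - 1‖ ^ 2 ≤ (‖thq j κ‖ / 2) ^ 2 := by gcongr
      nlinarith [mul_le_mul_of_nonneg_left h4 (sq_nonneg ‖b κ‖)])
  rw [h2]
  refine (norm_add_le _ _).trans ?_
  linarith

end Pool.Agent.P.MP_cc4a10_gt.NTP
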