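import Pool.Agent.P.MP_cc4a10_gt.NT2

/-!
The synthesised vector on the cells of a transition level.
-/

open Set Filter Topology Complex
open scoped ComplexConjugate Real

noncomputable section

namespace Pool.Agent.P.MP_cc4a10_gt.NTP

theorem level {S : Sys} {K kc kf : ℤ} {j : ℕ} (hS : S.ok)
    (hk : (kc = K - 1 ∧ kf = K) ∨ (kc = K ∧ kf = K - 1)) (hc : S.st kc = j)
    (hf : S.st kf = j + 1) :
    ∃ sg : ℝ, |sg| = 1 ∧ lvT S K = ⟨j + 2, cc j, sg, 1 / 2⟩ ∧
      (∀ u : GI, Odd u.im → Odd u.re → lk S K u = kc) ∧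
      (∀ u : GI, (Odd u.im ↔ ¬Odd u.re) → lk S K u = kf) ∧ S.hh kc = true ∧ S.hh kf = true := by
  have h0 := hS (K - 1)
  rw [sub_add_cancel] at h0
  have hd := pow_pos (dd_pos (j + 2)) 2
  rcases hk with ⟨rfl, rfl⟩ | ⟨rfl, rfl⟩
  · have hl : lvT S kf = ⟨j + 2, cc j, 1, 1 / 2⟩ := by
      simp [lvT, jl, low, hc, hf, cc]
    refine ⟨1, abs_one, hl, fun u h1 h2 => ?_, fun u h => ?_, ?_⟩
    · simp [lk, hl, q0, pat, h1, h2, hd]
    · have : ¬0 < q0 (lvT S kf) u := by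
        by_cases h2 : Odd u.re
        · have h1 : ¬Odd u.im := fun h1 => h.1 h1 h2
          simp only [hl, q0, pat, h1, h2, if_true, if_false]; linarith
        · simp only [hl, q0, pat, h.2 h2, h2, if_true, if_false]; linarith
      simp [lk, this]
    · rcases h0 with h0 | h0
      · omega
      · exact h0.2
  · have hl : lvT S kc = ⟨j + 2, cc j, -1, 1 / 2⟩ := by
      simp [lvT, jl, low, hc, hf, cc]
    refine ⟨-1, by simp, hl, fun u h1 h2 => ?_, fun u h => ?_, ?_⟩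
    · have : ¬0 < q0 (lvT S kc) u := by
        simp only [hl, q0, pat, h1, h2, if_true]; linarith
      simp [lk, this]
    · have : 0 < q0 (lvT S kc) u := by
        by_cases h2 : Odd u.re
        · have h1 : ¬Odd u.im := fun h1 => h.1 h1 h2
          simp only [hl, q0, pat, h1, h2, if_true, if_false]; linarith
        · simp only [hl, q0, pat, h.2 h2, h2, if_true, if_false]; linarith
      simp [lk, this]
    · rcases h0 with h0 | h0
      · omega
      · exact ⟨h0.2.2, h0.2.1⟩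

theorem mem_coarse {S : Sys} {k : ℤ} {j : ℕ} (hc : S.st k = j) (hh : S.hh k = true) {u : GI}
    (h1 : Odd u.im) (h2 : Odd u.re) : ∃ w, cc j * u = lp S k w := by
  obtain ⟨b, hb⟩ := h1
  obtain ⟨a, ha⟩ := h2
  refine ⟨⟨a, b⟩, ?_⟩
  rw [lp, hc, hh, cc, GaussianInt.toComplex_def u, ha, hb, GaussianInt.toComplex_def']
  simp only [oo, if_true]; push_cast; ring

theorem mem_fine {S : Sys} {k : ℤ} {j : ℕ} (hc : S.st k = j + 1) (hh : S.hh k = true) {u : GI}
    (h : Odd u.im ↔ ¬Odd u.re) : ∃ w, cc j * u = lp S k w := by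
  obtain ⟨a, b, ha, hb⟩ : ∃ a b : ℤ, u.re = a - b ∧ u.im = 1 + a + b := by
    rw [Int.odd_iff, Int.odd_iff] at h
    exact ⟨(u.re + u.im - 1) / 2, (u.im - 1 - u.re) / 2, by omega, by omega⟩
  refine ⟨⟨a, b⟩, ?_⟩
  rw [lp, hc, hh, cc, GaussianInt.toComplex_def u, ha, hb, GaussianInt.toComplex_def', pow_succ]
  simp only [oo, if_true, al]; push_cast
  have : (1 + I) / 2 * ((1 + I) / 2 + (a + b * I)) = (a - b + (1 + a + b) * I) / 2 := by
    linear_combination ((1 : ℂ) / 4 + b / 2) * I_sq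
  rw [mul_assoc, this]; ring

/-- Sign of the second child on the cells. -/
def sn (u : GI) : ℂ := if Odd u.re then -1 else 1

theorem chi_om (j : ℕ) (u : GI) : chi (om ^ j) (cc j * u) = sn u := by
  have h : dot ((om ^ j : GI) : ℂ) (cc j * u) = (u.re : ℝ) / 2 := by
    have : conj ((om ^ j : GI) : ℂ) * (cc j * u) = ((1 / 2 : ℝ) : ℂ) * u := by
      rw [map_pow, map_pow, cc, ← mul_assoc, ← mul_div_assoc, ← mul_pow, mul_comm _ al,
        al_mul_conj, one_pow]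
      push_cast; rfl
    rw [dot, this, re_ofReal_mul, GaussianInt.intCast_re]; ring
  rw [chi, h, show (2 * π * I * ((u.re : ℝ) / 2 : ℝ) : ℂ) = (u.re : ℤ) * (π * I) by push_cast; ring,
    exp_int_mul, exp_pi_mul_I, sn]
  split_ifs with h1
  · exact h1.neg_one_zpow
  · exact (Int.not_odd_iff_even.1 h1).neg_one_zpow

theorem sum_R2 {j : ℕ} {R : Finset GI} (hR : Rep j R) (F : GI → ℂ) :
    ∑ κ ∈ R2 j R, F κ = ∑ κ ∈ R, F κ + ∑ κ ∈ R, F (κ + om ^ j) := by
  rw [R2, Finset.sum_union, Finset.sum_image (fun _ _ _ _ h => add_right_cancel h)]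
  rw [Finset.disjoint_left]
  intro κ hκ h
  obtain ⟨κ', hκ', h⟩ := Finset.mem_image.1 h
  have h1 := hR.1 κ hκ κ' hκ' ⟨1, by rw [← h]; ring⟩
  rw [h1] at h
  exact pow_ne_zero j om_ne_zero (by simpa using h)

/-- Sum of the two halves of a displacement. -/
def Z (j : ℕ) (R : Finset GI) (a b : GI → ℂ) (u : GI) : ℂ := Y j R a u + conj (Y j R b u)

theorem syn_coarse {S : Sys} {k : ℤ} {j : ℕ} (hc : S.st k = j) (hh : S.hh k = true)
    (R : ℤ → Finset GI) (a : ℤ → GI → T3) {u : GI} (h1 : Odd u.im) (h2 : Odd u.re) :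
    (syn S j R a).1 k (cc j * u) = cc j * Z j (R k) (fun κ => (a k κ).x) (fun κ => (a k κ).X) u ∧
    (syn S j R a).2 k (cc j * u) = (Y j (R k) (fun κ => (a k κ).s) u).re := by
  have hm := mem_coarse hc hh h1 h2
  simp only [syn, if_pos hm, Z, Y, map_sum, map_mul, Finset.sum_add_distrib, and_true]
  rfl

theorem syn_fine {S : Sys} {k : ℤ} {j : ℕ} (hc : S.st k = j + 1) (hh : S.hh k = true)
    {R : ℤ → Finset GI} {R0 : Finset GI} (hR : Rep j R0) (hk : R k = R2 j R0) (a : ℤ → GI → T3)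
    {u : GI} (h : Odd u.im ↔ ¬Odd u.re) :
    (syn S j R a).1 k (cc j * u) = cc j * (Z j R0 (fun κ => (a k κ).x) (fun κ => (a k κ).X) u
      + sn u * Z j R0 (fun κ => (a k (κ + om ^ j)).x) (fun κ => (a k (κ + om ^ j)).X) u) ∧
    (syn S j R a).2 k (cc j * u) = (Y j R0 (fun κ => (a k κ).s) u
      + sn u * Y j R0 (fun κ => (a k (κ + om ^ j)).s) u).re := by
  have hm := mem_fine hc hh h
  have hs : conj (sn u) = sn u := by unfold sn; split_ifs <;> simp
  simp only [syn, if_pos hm, hk, sum_R2 hR, chi_add_left, chi_om, Z, Y, map_sum, map_mul, hs,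
    Finset.sum_add_distrib, mul_add, Finset.mul_sum]
  refine ⟨?_, ?_⟩
  · simp only [cc, mul_comm, mul_left_comm]; abel
  · simp only [mul_comm, mul_left_comm]

theorem Z_per (j : ℕ) (R : Finset GI) (a b : GI → ℂ) : Per (j + 2) (Z j R a b) := fun u w => by
  simp only [Z, Y_per j R a u w, Y_per j R b u w]

theorem msq_Z {j : ℕ} {R : Finset GI} (hR : Rep j R) (a b : GI → ℂ) :
    msq (j + 2) (Z j R a b) ≤ 2 * ∑ κ ∈ R, (‖a κ‖ ^ 2 + ‖b κ‖ ^ 2) := by
  have h := msq_add_le (j + 2) (Y j R a) (fun u => conj (Y j R b u))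
  have h2 : msq (j + 2) (fun u => conj (Y j R b u)) = msq (j + 2) (Y j R b) := by
    simp only [msq, RCLike.norm_conj]
  rw [h2, msq_Y hR, msq_Y hR] at h
  rw [Finset.sum_add_distrib, mul_add]
  exact h

theorem Z_sub (j : ℕ) (R : Finset GI) (a b a' b' : GI → ℂ) (u : GI) :
    Z j R a b u - Z j R a' b' u = Z j R (fun κ => a κ - a' κ) (fun κ => b κ - b' κ) u := by
  simp only [Z, ← Y_sub, map_sub]; ring

theorem msq_Z_shift {j : ℕ} {R : Finset GI} (hR : Rep j R) (a b : GI → ℂ) {g : GI}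
    (hg : ‖(g : ℂ)‖ = 1) : msq (j + 2) (fun u => Z j R a b (u + g) - Z j R a b u)
      ≤ ∑ κ ∈ R, ‖thq j κ‖ ^ 2 * (‖a κ‖ ^ 2 + ‖b κ‖ ^ 2) := by
  have h : (fun u => Z j R a b (u + g) - Z j R a b u)
      = Z j R (fun κ => a κ * (chi κ (cc j * g) - 1)) (fun κ => b κ * (chi κ (cc j * g) - 1)) := by
    funext u; simp only [Z, ← Y_shift, map_sub]; ring
  rw [h]
  refine (msq_Z hR _ _).trans ?_
  rw [Finset.mul_sum]
  refine Finset.sum_le_sum fun κ _ => ?_
  have h3 := norm_chi_sub_one j κ g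
  rw [hg, mul_one] at h3
  have h4 : ‖chi κ (cc j * g) - 1‖ ^ 2 ≤ (‖thq j κ‖ / 2) ^ 2 := by gcongr
  rw [norm_mul, norm_mul, mul_pow, mul_pow]
  nlinarith [mul_le_mul_of_nonneg_left h4 (sq_nonneg ‖a κ‖),
    mul_le_mul_of_nonneg_left h4 (sq_nonneg ‖b κ‖),
    mul_nonneg (sq_nonneg ‖thq j κ‖) (add_nonneg (sq_nonneg ‖a κ‖) (sq_nonneg ‖b κ‖))]

theorem norm_cc (j : ℕ) : ‖cc j‖ ^ 2 = dd (j + 2) ^ 2 := by
  have h : ‖al‖ ^ 2 = 2⁻¹ := by
    rw [Complex.sq_norm, al, normSq_apply]; norm_num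
  rw [dd_sq, cc, norm_div, norm_pow, div_pow, ← pow_mul, mul_comm, pow_mul, h, pow_add]
  simp; ring

end Pool.Agent.P.MP_cc4a10_gt.NTP
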