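import Pool.Agent.P.MP_cc4a10_gt.St

/-!
Tools for the norm of a synthesised vector: splitting of means into the four classes modulo two,
characters.
-/

open Set Filter Topology Complex Metric
open scoped ComplexConjugate Real

noncomputable section

namespace Pool.Agent.P.MP_cc4a10_gt
namespace NUP

section lin
variable {V : Type*} [AddCommGroup V] [Module ℝ V]

omit [Module ℝ V] in
theorem sum_two_mul (n : ℕ) (f : ℕ → V) :
    ∑ a ∈ Finset.range (2 * n), f a = ∑ a ∈ Finset.range n, (f (2 * a) + f (2 * a + 1)) := by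
  induction n with
  | zero => simp
  | succ n ih =>
    rw [show 2 * (n + 1) = 2 * n + 1 + 1 by ring, Finset.sum_range_succ, Finset.sum_range_succ, ih,
      Finset.sum_range_succ, add_assoc]

omit [Module ℝ V] in
theorem sum_double (n : ℕ) (f : ℕ → V) (h : ∀ a, f (n + a) = f a) :
    ∑ a ∈ Finset.range (2 * n), f a = ∑ a ∈ Finset.range n, f a + ∑ a ∈ Finset.range n, f a := by
  rw [two_mul, Finset.sum_range_add]; simp only [h]

theorem av_split (j : ℕ) (F : GI → V) : av (j + 1) F = (1 / 4 : ℝ) •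
    (av j (fun w => F (0 + 2 * w)) + av j (fun w => F (1 + 2 * w))
      + av j (fun w => F (gi + 2 * w)) + av j (fun w => F (1 + gi + 2 * w))) := by
  have e0 : ∀ a b : ℕ, (0 + 2 * (⟨a, b⟩ : GI)) = ⟨((2 * a : ℕ) : ℤ), ((2 * b : ℕ) : ℤ)⟩ := by
    intro a b; ext <;> simp
  have e1 : ∀ a b : ℕ, (1 + 2 * (⟨a, b⟩ : GI)) = ⟨((2 * a + 1 : ℕ) : ℤ), ((2 * b : ℕ) : ℤ)⟩ := by
    intro a b; ext <;> simp [add_comm]
  have e2 : ∀ a b : ℕ, (gi + 2 * (⟨a, b⟩ : GI)) = ⟨((2 * a : ℕ) : ℤ), ((2 * b + 1 : ℕ) : ℤ)⟩ := by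
    intro a b; ext <;> simp [gi, add_comm]
  have e3 : ∀ a b : ℕ, (1 + gi + 2 * (⟨a, b⟩ : GI))
      = ⟨((2 * a + 1 : ℕ) : ℤ), ((2 * b + 1 : ℕ) : ℤ)⟩ := by
    intro a b; ext <;> simp [gi, add_comm]
  unfold av ts
  simp only [e0, e1, e2, e3]
  rw [show 2 ^ (j + 1) = 2 * 2 ^ j by ring, sum_two_mul]
  simp only [sum_two_mul, Finset.sum_add_distrib, smul_add, smul_smul]
  have : ((2 : ℝ) ^ (j + 1))⁻¹ * ((2 : ℝ) ^ (j + 1))⁻¹ = 1 / 4 * (((2 : ℝ) ^ j)⁻¹ * ((2 : ℝ) ^ j)⁻¹) := by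
    rw [pow_succ]; field_simp; norm_num
  rw [this]; abel

theorem av_succ {j : ℕ} {G : GI → V} (h : Per j G) : av (j + 1) G = av j G := by
  have hr : ∀ (a : ℕ) (b : ℤ), G ⟨((2 ^ j + a : ℕ) : ℤ), b⟩ = G ⟨a, b⟩ := fun a b => by
    rw [← h.two ⟨a, b⟩ 1, two_pow_mk]; congr 1; ext <;> simp [add_comm]
  have hi : ∀ (a : ℤ) (b : ℕ), G ⟨a, ((2 ^ j + b : ℕ) : ℤ)⟩ = G ⟨a, b⟩ := fun a b => by
    rw [← h.two ⟨a, b⟩ gi, two_pow_mk]; congr 1; ext <;> simp [gi, add_comm]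
  unfold av ts
  rw [show 2 ^ (j + 1) = 2 * 2 ^ j by ring,
    sum_double (2 ^ j) (fun a => ∑ b ∈ Finset.range (2 * 2 ^ j), G ⟨a, b⟩) (fun a => by simp only [hr])]
  have : ∀ a : ℕ, ∑ b ∈ Finset.range (2 * 2 ^ j), G ⟨a, b⟩
      = ∑ b ∈ Finset.range (2 ^ j), G ⟨a, b⟩ + ∑ b ∈ Finset.range (2 ^ j), G ⟨a, b⟩ := fun a =>
    sum_double (2 ^ j) (fun b => G ⟨a, b⟩) (fun b => hi a b)
  simp only [this, Finset.sum_add_distrib, smul_add, smul_smul]
  rw [← add_smul, ← add_smul]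
  congr 1
  rw [pow_succ]; field_simp; norm_num

omit [AddCommGroup V] [Module ℝ V] in
theorem per_class {j : ℕ} {F : GI → V} (h : Per (j + 2) F) (o : GI) :
    Per j (fun w => F (o + 2 * w)) := fun u w => by
  have : o + 2 * (u + om ^ j * w) = o + 2 * u + om ^ (j + 2) * (-gi * w) := by
    have h2 : (2 : GI) = om ^ 2 * -gi := by decide
    rw [pow_add, mul_add, add_assoc]
    conv_lhs => rw [h2]
    rw [← h2]; nth_rewrite 2 [h2]; ring
  simp only [this]; exact h _ _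

theorem av_four {j : ℕ} (F : GI → V) (h : ∀ o, Per j (fun w => F (o + 2 * w))) :
    av (j + 2) F = (1 / 4 : ℝ) •
    (av j (fun w => F (0 + 2 * w)) + av j (fun w => F (1 + 2 * w))
      + av j (fun w => F (gi + 2 * w)) + av j (fun w => F (1 + gi + 2 * w))) := by
  rw [av_split, av_succ (h 0), av_succ (h 1), av_succ (h gi), av_succ (h (1 + gi))]

end lin

theorem msq_class_le {j : ℕ} {F : GI → ℂ} (h : Per (j + 2) F) {o : GI}
    (ho : o = 0 ∨ o = 1 ∨ o = gi ∨ o = 1 + gi) :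
    msq j (fun w => F (o + 2 * w)) ≤ 4 * msq (j + 2) F := by
  have hp : ∀ o, Per j (fun w => (fun u => ‖F u‖ ^ 2) (o + 2 * w)) := fun o u w => by
    simp only [per_class h o u w]
  have := av_four (fun u => ‖F u‖ ^ 2) hp
  have h0 := msq_nonneg j (fun w => F (0 + 2 * w))
  have h1 := msq_nonneg j (fun w => F (1 + 2 * w))
  have h2 := msq_nonneg j (fun w => F (gi + 2 * w))
  have h3 := msq_nonneg j (fun w => F (1 + gi + 2 * w))
  unfold msq at *
  rw [this, smul_eq_mul]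
  rcases ho with rfl | rfl | rfl | rfl <;> linarith

theorem chi_add (κ : GI) (z z' : ℂ) : chi κ (z + z') = chi κ z * chi κ z' := by
  unfold chi dot
  rw [← exp_add]; congr 1; simp only [mul_add, add_re]; push_cast; ring

theorem norm_chi (κ : GI) (z : ℂ) : ‖chi κ z‖ = 1 := by
  unfold chi
  rw [show 2 * π * I * (dot κ z : ℂ) = ((2 * π * dot κ z : ℝ) : ℂ) * I by push_cast; ring]
  exact norm_exp_ofReal_mul_I _

theorem chi_gi (κ w : GI) : chi κ w = 1 := by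
  unfold chi
  have : dot κ w = ((κ.re * w.re + κ.im * w.im : ℤ) : ℝ) := by
    unfold dot; simp
  rw [this, show 2 * π * I * (((κ.re * w.re + κ.im * w.im : ℤ) : ℝ) : ℂ)
    = ((κ.re * w.re + κ.im * w.im : ℤ) : ℂ) * (2 * π * I) by push_cast; ring]
  exact exp_int_mul_two_pi_mul_I _

theorem chi_zero (κ : GI) : chi κ 0 = 1 := by simpa using chi_gi κ 0

theorem al_mul_om : al * (om : GI) = (gi : GI) := by
  rw [coe_om, coe_gi, al]; ring_nf; rw [I_sq]; ring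

theorem chi_per (j : ℕ) (κ : GI) (o : ℂ) : Per j (fun w => chi κ (al ^ j * (o + w))) := fun u w => by
  have : al ^ j * (o + ((u + om ^ j * w : GI) : ℂ)) = al ^ j * (o + u) + ((gi ^ j * w : GI) : ℂ) := by
    rw [map_mul, map_pow, ← al_mul_om, map_add, map_mul, map_pow]; ring
  simp only [this, chi_add, chi_gi, mul_one]

theorem chi_eq (j : ℕ) (κ : GI) (y : ℂ) : chi κ (al ^ j * y) = exp (I * dot (thq j κ) y) := by
  unfold chi thq dot
  congr 1
  have : (conj (2 * π * κ * conj al ^ j : ℂ) * y).re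
      = 2 * π * (conj (κ : ℂ) * (al ^ j * y)).re := by
    rw [show conj (2 * π * κ * conj al ^ j : ℂ) * y
        = ((2 * π : ℝ) : ℂ) * (conj (κ : ℂ) * (al ^ j * y)) by
      simp only [map_mul, map_pow, conj_conj, conj_ofReal, map_ofNat]; push_cast; ring,
      re_ofReal_mul]
  rw [this]; push_cast; ring

theorem norm_chi_sub_one (j : ℕ) (κ : GI) (y : ℂ) :
    ‖chi κ (al ^ j * y) - 1‖ ≤ ‖thq j κ‖ * ‖y‖ := by
  rw [chi_eq]
  refine Real.norm_exp_I_mul_ofReal_sub_one_le.trans ?_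
  unfold dot
  refine (abs_re_le_norm _).trans ?_
  rw [norm_mul, norm_conj]

theorem exp_low (x : ℝ) : ∃ n : ℤ, (x - 2 * π * n) ^ 2 ≤ 5 / 2 * ‖exp (I * x) - 1‖ ^ 2 := by
  refine ⟨round (x / (2 * π)), ?_⟩
  set n := round (x / (2 * π))
  have hpi := Real.pi_pos
  have h1 : |x - 2 * π * n| ≤ π := by
    have := abs_sub_round (x / (2 * π))
    rw [show x - 2 * π * n = 2 * π * (x / (2 * π) - n) by field_simp, abs_mul,
      abs_of_pos (by positivity : 0 < 2 * π)]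
    nlinarith
  have h2 : exp (I * x) = exp (I * ((x - 2 * π * n : ℝ) : ℂ)) := by
    rw [show I * ((x - 2 * π * n : ℝ) : ℂ) = I * x - n * (2 * π * I) by push_cast; ring, exp_sub,
      exp_int_mul_two_pi_mul_I, div_one]
  rw [h2, norm_exp_I_mul_ofReal_sub_one]
  set y := x - 2 * π * n
  have h3 : 2 / π * |y / 2| ≤ |Real.sin (y / 2)| :=
    Real.mul_abs_le_abs_sin (by rw [abs_div, abs_two]; linarith)
  rw [abs_div, abs_two] at h3
  have h4 : |y| ≤ π * |Real.sin (y / 2)| := by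
    have : 2 / π * (|y| / 2) = |y| / π := by field_simp
    rw [this, div_le_iff₀ hpi] at h3; linarith
  have h5 : π ^ 2 ≤ 10 := by nlinarith [Real.pi_lt_d2]
  rw [Real.norm_eq_abs, abs_mul, abs_two, ← sq_abs y]
  have h6 : |y| ^ 2 ≤ (π * |Real.sin (y / 2)|) ^ 2 := by gcongr
  nlinarith [sq_nonneg |Real.sin (y / 2)|]

theorem r_low (j : ℕ) (κ : GI) {r : ℝ} (hr : 0 < r) (h : ∀ w : GI, r ≤ 10 * ‖thq j κ - 2 * π * w‖) :
    r ^ 2 ≤ 250 * (‖chi κ (al ^ j * ((1 : GI) : ℂ)) - 1‖ ^ 2 + ‖chi κ (al ^ j * (gi : GI)) - 1‖ ^ 2) := by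
  rw [chi_eq, chi_eq]
  obtain ⟨n1, h1⟩ := exp_low (dot (thq j κ) ((1 : GI) : ℂ))
  obtain ⟨n2, h2⟩ := exp_low (dot (thq j κ) (gi : GI))
  have e1 : dot (thq j κ) ((1 : GI) : ℂ) = (thq j κ).re := by simp [dot]
  have e2 : dot (thq j κ) (gi : GI) = (thq j κ).im := by rw [coe_gi]; simp [dot]
  have h3 := h ⟨n1, n2⟩
  have h4 : ‖thq j κ - 2 * π * ((⟨n1, n2⟩ : GI) : ℂ)‖ ^ 2
      = ((thq j κ).re - 2 * π * n1) ^ 2 + ((thq j κ).im - 2 * π * n2) ^ 2 := by
    rw [← normSq_eq_norm_sq, normSq_apply]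
    simp [GaussianInt.toComplex_def']; ring
  have h5 : r ^ 2 ≤ (10 * ‖thq j κ - 2 * π * ((⟨n1, n2⟩ : GI) : ℂ)‖) ^ 2 := by gcongr
  rw [mul_pow, h4] at h5
  rw [← e1, ← e2] at h5
  nlinarith

end NUP
end Pool.Agent.P.MP_cc4a10_gt
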