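import Pool.Agent.P.MP_cc4a10_gt.NU1

/-!
Trigonometric sums on the cells of a uniform level.
-/

open Set Filter Topology Complex Metric
open scoped ComplexConjugate Real

noncomputable section

namespace Pool.Agent.P.MP_cc4a10_gt
namespace NUP

/-- Parseval identities at stage `j`. -/
def Pv (j : ℕ) (R : Finset GI) : Prop := ∀ o : ℂ,
  (∀ a : GI → ℂ, msq j (fun w => ∑ κ ∈ R, a κ * chi κ (al ^ j * (o + w))) = ∑ κ ∈ R, ‖a κ‖ ^ 2) ∧
  ∀ f : GI → ℂ, Per j f →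
    ∑ κ ∈ R, ‖av j (fun w => f w * conj (chi κ (al ^ j * (o + w))))‖ ^ 2 = msq j f

def Cl {V : Type*} (b : GI → V) : Prop := ∀ u w, b (u + 2 * w) = b u

def TS (j : ℕ) (R : Finset GI) (b : GI → GI → ℂ) (u : GI) : ℂ :=
  ∑ κ ∈ R, b u κ * chi κ (al ^ j / 2 * u)

theorem TS_class {j : ℕ} {R : Finset GI} {b : GI → GI → ℂ} (hb : Cl b) (o w : GI) :
    TS j R b (o + 2 * w) = ∑ κ ∈ R, b o κ * chi κ (al ^ j * ((o : ℂ) / 2 + w)) := by
  unfold TS
  rw [hb]
  refine Finset.sum_congr rfl fun κ _ => ?_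
  congr 2
  rw [map_add, map_mul, map_ofNat]; ring

theorem TS_per {j : ℕ} {R : Finset GI} {b : GI → GI → ℂ} (hb : Cl b) (o : GI) :
    Per j (fun w => TS j R b (o + 2 * w)) := fun u w => by
  simp only [TS_class hb]
  refine Finset.sum_congr rfl fun κ _ => ?_
  have := chi_per j κ ((o : ℂ) / 2) u w
  simp only at this
  rw [this]

theorem msq_TS_le {j : ℕ} {R : Finset GI} (hP : Pv j R) {b : GI → GI → ℂ} (hb : Cl b)
    (M : GI → ℝ) (hM : ∀ o, ∀ κ ∈ R, ‖b o κ‖ ^ 2 ≤ M κ) :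
    msq (j + 2) (TS j R b) ≤ ∑ κ ∈ R, M κ := by
  have hp : ∀ o, Per j (fun w => (fun u => ‖TS j R b u‖ ^ 2) (o + 2 * w)) := fun o u w => by
    have := TS_per (j := j) (R := R) hb o u w
    simp only at this ⊢
    rw [this]
  have h := av_four (fun u => ‖TS j R b u‖ ^ 2) hp
  have hc : ∀ o : GI, av j (fun w => ‖TS j R b (o + 2 * w)‖ ^ 2) ≤ ∑ κ ∈ R, M κ := fun o => by
    simp only [TS_class hb]
    have := (hP ((o : ℂ) / 2)).1 (b o)
    unfold msq at this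
    rw [this]
    exact Finset.sum_le_sum (hM o)
  unfold msq
  rw [h, smul_eq_mul]
  linarith [hc 0, hc 1, hc gi, hc (1 + gi)]

theorem TS_diff (j : ℕ) (R : Finset GI) (b : GI → GI → ℂ) (g u : GI) :
    TS j R b (u + g) - TS j R b u
      = TS j R (fun u κ => b (u + g) κ * chi κ (al ^ j / 2 * g) - b u κ) u := by
  unfold TS
  rw [← Finset.sum_sub_distrib]
  refine Finset.sum_congr rfl fun κ _ => ?_
  rw [map_add, mul_add, chi_add]; ring

theorem coef_le (j : ℕ) (κ : GI) {A B p p' y y' : ℂ} {r : ℝ} (hp : p = A ∨ p = B)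
    (hp' : p' = A ∨ p' = B) (hy : ‖y‖ ≤ 1) (hy' : ‖y'‖ ≤ 1)
    (h : (A = 0 ∧ B = 0) ∨ (0 < r ∧ ‖thq j κ‖ ≤ 10 * r)) :
    ‖p' * chi κ (al ^ j * y') - p * chi κ (al ^ j * y)‖ ^ 2
      ≤ 1600 * (‖A - B‖ ^ 2 + r ^ 2 * (‖A‖ ^ 2 + ‖B‖ ^ 2)) := by
  rcases h with ⟨rfl, rfl⟩ | ⟨hr, h⟩
  · have h1 : p = 0 := by tauto
    have h2 : p' = 0 := by tauto
    simp [h1, h2]
  have h1 : ‖chi κ (al ^ j * y) - 1‖ ≤ 10 * r :=
    (norm_chi_sub_one j κ y).trans (by nlinarith [norm_nonneg (thq j κ), norm_nonneg y])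
  have h2 : ‖chi κ (al ^ j * y') - 1‖ ≤ 10 * r :=
    (norm_chi_sub_one j κ y').trans (by nlinarith [norm_nonneg (thq j κ), norm_nonneg y'])
  have h3 : ‖p' - p‖ ≤ ‖A - B‖ := by
    rcases hp with rfl | rfl <;> rcases hp' with rfl | rfl <;> simp [norm_sub_rev]
  have h4 : ‖p‖ ≤ ‖A‖ + ‖B‖ := by
    rcases hp with rfl | rfl <;> simp
  have h5 : ‖p'‖ ≤ ‖A‖ + ‖B‖ := by
    rcases hp' with rfl | rfl <;> simp
  have h6 : ‖p' * chi κ (al ^ j * y') - p * chi κ (al ^ j * y)‖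
      ≤ ‖A - B‖ + 20 * r * (‖A‖ + ‖B‖) := by
    rw [show p' * chi κ (al ^ j * y') - p * chi κ (al ^ j * y)
      = (p' - p) + p' * (chi κ (al ^ j * y') - 1) - p * (chi κ (al ^ j * y) - 1) by ring]
    refine (norm_sub_le _ _).trans ?_
    refine (add_le_add (norm_add_le _ _) le_rfl).trans ?_
    rw [norm_mul, norm_mul]
    have a1 : ‖p'‖ * ‖chi κ (al ^ j * y') - 1‖ ≤ (‖A‖ + ‖B‖) * (10 * r) := by gcongr
    have a2 : ‖p‖ * ‖chi κ (al ^ j * y) - 1‖ ≤ (‖A‖ + ‖B‖) * (10 * r) := by gcongr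
    linarith
  refine (pow_le_pow_left₀ (norm_nonneg _) h6 2).trans ?_
  nlinarith [sq_nonneg (‖A - B‖ - 20 * r * (‖A‖ + ‖B‖)), sq_nonneg (r * (‖A‖ - ‖B‖)),
    sq_nonneg ‖A - B‖]

theorem odd_re (u w : GI) : Odd (u + 2 * w).re ↔ Odd u.re := by
  have : (u + 2 * w).re = u.re + 2 * w.re := by simp
  rw [this, Int.odd_add]; simp
theorem odd_im (u w : GI) : Odd (u + 2 * w).im ↔ Odd u.im := by
  have : (u + 2 * w).im = u.im + 2 * w.im := by simp
  rw [this, Int.odd_add]; simp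

theorem nbr_zero (u : GI) : nbr 0 u = u + if Odd u.im then 0 else gi := by
  unfold nbr pat
  by_cases h1 : Odd u.im <;> by_cases h2 : Odd u.re <;> simp [h1, h2]

/-- Displacement field read on the cells. -/
def Ex (j : ℕ) (R : Finset GI) (A B : GI → ℂ) (u : GI) : ℂ :=
  ∑ κ ∈ R, (if Odd u.re then A κ else B κ) * chi κ (al ^ j / 2 * (nbr 0 u : GI))

theorem g2_Ex {j : ℕ} {R : Finset GI} (hP : Pv j R) (A B : GI → ℂ) (r : GI → ℝ)
    (h : ∀ κ ∈ R, (A κ = 0 ∧ B κ = 0) ∨ (0 < r κ ∧ ‖thq j κ‖ ≤ 10 * r κ)) :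
    g2 (j + 2) (Ex j R A B)
      ≤ 3200 * ∑ κ ∈ R, (‖A κ - B κ‖ ^ 2 + r κ ^ 2 * (‖A κ‖ ^ 2 + ‖B κ‖ ^ 2)) := by
  set n : GI → GI := fun u => if Odd u.im then 0 else gi with hn
  set b : GI → GI → ℂ := fun u κ => (if Odd u.re then A κ else B κ) * chi κ (al ^ j / 2 * n u) with hb
  have hE : Ex j R A B = TS j R b := by
    funext u
    unfold Ex TS
    refine Finset.sum_congr rfl fun κ _ => ?_
    rw [nbr_zero, map_add, mul_add, chi_add]; simp only [hb, hn]; ring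
  have hn1 : ∀ u, ‖(n u : ℂ)‖ ≤ 1 := fun u => by
    simp only [hn]; split_ifs <;> simp [coe_gi]
  have key : ∀ g : GI, ‖(g : ℂ)‖ ≤ 1 → msq (j + 2) (fun u => TS j R b (u + g) - TS j R b u)
      ≤ ∑ κ ∈ R, 1600 * (‖A κ - B κ‖ ^ 2 + r κ ^ 2 * (‖A κ‖ ^ 2 + ‖B κ‖ ^ 2)) := fun g hg => by
    simp only [TS_diff]
    refine msq_TS_le hP ?_ _ ?_
    · intro u w
      funext κ
      simp only [hb, hn, add_right_comm u (2 * w) g, odd_re, odd_im]
    · intro o κ hκ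
      have e1 : b (o + g) κ * chi κ (al ^ j / 2 * g) = (if Odd (o + g).re then A κ else B κ)
          * chi κ (al ^ j * (((n (o + g) : ℂ) + g) / 2)) := by
        simp only [hb]; rw [mul_assoc, ← chi_add]; congr 2; ring
      have e2 : b o κ = (if Odd o.re then A κ else B κ) * chi κ (al ^ j * ((n o : ℂ) / 2)) := by
        simp only [hb]; congr 2; ring
      rw [e1, e2]
      refine coef_le j κ (by split_ifs <;> simp) (by split_ifs <;> simp) ?_ ?_ (h κ hκ)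
      · rw [norm_div]; simp only [Complex.norm_ofNat]; linarith [hn1 o]
      · rw [norm_div]; simp only [Complex.norm_ofNat]
        linarith [hn1 (o + g), norm_add_le (n (o + g) : ℂ) g]
  have k1 := key 1 (by simp)
  have k2 := key gi (by simp [coe_gi])
  rw [← Finset.mul_sum] at k1 k2
  rw [hE, g2]; linarith

theorem msq_conj (m : ℕ) (F : GI → ℂ) : msq m (fun u => conj (F u)) = msq m F := by
  simp only [msq, norm_conj]

theorem g2_conj (m : ℕ) (F : GI → ℂ) : g2 m (fun u => conj (F u)) = g2 m F := by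
  simp only [g2, ← map_sub, msq_conj]

theorem g2_comb (m : ℕ) (a : ℂ) (F G : GI → ℂ) :
    g2 m (fun u => a * (F u + conj (G u))) ≤ ‖a‖ ^ 2 * (2 * g2 m F + 2 * g2 m G) := by
  have key : ∀ g : GI, msq m (fun u => a * (F (u + g) + conj (G (u + g))) - a * (F u + conj (G u)))
      ≤ ‖a‖ ^ 2 * (2 * msq m (fun u => F (u + g) - F u) + 2 * msq m (fun u => G (u + g) - G u)) :=
    fun g => by
      have : (fun u => a * (F (u + g) + conj (G (u + g))) - a * (F u + conj (G u)))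
          = fun u => a * ((F (u + g) - F u) + conj (G (u + g) - G u)) := by
        funext u; rw [map_sub]; ring
      rw [this, msq_mul]
      gcongr
      refine (msq_add_le m _ _).trans ?_
      rw [msq_conj m (fun u => G (u + g) - G u)]
  unfold g2
  linarith [key 1, key gi]

end NUP
end Pool.Agent.P.MP_cc4a10_gt
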