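import Pool.Agent.P.MP_cc4a10_gt.NU2

/-!
The dual norm of the density of a synthesised vector on a uniform level.
-/

open Set Filter Topology Complex Metric
open scoped ComplexConjugate Real

noncomputable section

namespace Pool.Agent.P.MP_cc4a10_gt
namespace NUP

theorem av_mul_left (m : ℕ) (a : ℂ) (F : GI → ℂ) : av m (fun u => a * F u) = a * av m F := by
  simp only [av, ts_mul_left, real_smul]; ring

theorem av_sum (m : ℕ) (R : Finset GI) (F : GI → GI → ℂ) :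
    av m (fun u => ∑ κ ∈ R, F κ u) = ∑ κ ∈ R, av m (F κ) := by
  simp only [av, ts_sum, Finset.smul_sum]

theorem av_conj (m : ℕ) (F : GI → ℂ) : av m (fun u => conj (F u)) = conj (av m F) := by
  simp only [av, ← ts_conj, real_smul, map_mul, conj_ofReal]

theorem conj_chi_mul (κ : GI) (z : ℂ) : conj (chi κ z) * chi κ z = 1 := by
  rw [conj_mul', norm_chi]; simp

/-- Fourier coefficient of `f` on the class of `o`. -/
def fh (j : ℕ) (f : GI → ℂ) (o κ : GI) : ℂ :=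
  av j (fun w => f (o + 2 * w) * conj (chi κ (al ^ j * ((o : ℂ) / 2 + w))))

theorem fh_shift {j : ℕ} {f : GI → ℂ} (hf : Per (j + 2) f) (o g κ : GI) :
    fh j (fun u => f (u + g + g) - f u) o κ = (chi κ (al ^ j * g) - 1) * fh j f o κ := by
  have hH : Per j (fun w => f (o + 2 * w) * conj (chi κ (al ^ j * ((o : ℂ) / 2 + w)))) := fun u w => by
    have h1 := per_class hf o u w
    have h2 := chi_per j κ ((o : ℂ) / 2) u w
    simp only at h1 h2 ⊢
    rw [h1, h2]
  have h1 : av j (fun w => f (o + 2 * (w + g)) * conj (chi κ (al ^ j * ((o : ℂ) / 2 + ((w + g : GI) : ℂ)))))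
      = fh j f o κ := by
    unfold fh av; rw [ts_shift hH g]
  rw [sub_mul, one_mul]
  nth_rewrite 1 [← h1]
  unfold fh
  rw [← av_mul_left, ← av_sub]
  congr 1
  funext w
  have e1 : chi κ (al ^ j * ((o : ℂ) / 2 + ((w + g : GI) : ℂ)))
      = chi κ (al ^ j * ((o : ℂ) / 2 + w)) * chi κ (al ^ j * g) := by
    rw [← chi_add, map_add]; congr 1; ring
  beta_reduce
  rw [e1, map_mul, show o + 2 * w + g + g = o + 2 * (w + g) by ring]
  linear_combination (-f (o + 2 * (w + g)) * conj (chi κ (al ^ j * ((o : ℂ) / 2 + w))))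
    * conj_chi_mul κ (al ^ j * g)

theorem fh_half (j : ℕ) (f : GI → ℂ) (κ : GI) :
    fh j (fun u => f (u + 1) - f u) gi κ
      = chi κ (al ^ j * (1 / 2)) * fh j f (1 + gi) κ - fh j f gi κ := by
  unfold fh
  rw [← av_mul_left, ← av_sub]
  congr 1
  funext w
  have e1 : chi κ (al ^ j * (((1 + gi : GI) : ℂ) / 2 + w))
      = chi κ (al ^ j * (((gi : GI) : ℂ) / 2 + w)) * chi κ (al ^ j * (1 / 2)) := by
    rw [← chi_add, map_add, map_one]; congr 1; ring
  beta_reduce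
  rw [e1, map_mul, show gi + 2 * w + 1 = 1 + gi + 2 * w by ring]
  linear_combination (-f (1 + gi + 2 * w) * conj (chi κ (al ^ j * (((gi : GI) : ℂ) / 2 + w))))
    * conj_chi_mul κ (al ^ j * (1 / 2))

theorem sum_fh_le {j : ℕ} {R : Finset GI} (hP : Pv j R) {f : GI → ℂ} (hf : Per (j + 2) f) {o : GI}
    (ho : o = 0 ∨ o = 1 ∨ o = gi ∨ o = 1 + gi) :
    ∑ κ ∈ R, ‖fh j f o κ‖ ^ 2 ≤ 4 * msq (j + 2) f := by
  have := (hP ((o : ℂ) / 2)).2 _ (per_class hf o)
  unfold fh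
  rw [this]
  exact msq_class_le hf ho

theorem per_diff {m : ℕ} {f : GI → ℂ} (hf : Per m f) (g : GI) : Per m (fun u => f (u + g) - f u) :=
  fun u w => by
    have := hf.shift g u w
    simp only at this ⊢
    rw [this, hf]

theorem sum_shift_le {j : ℕ} {R : Finset GI} (hP : Pv j R) {f : GI → ℂ} (hf : Per (j + 2) f)
    (g : GI) : ∑ κ ∈ R, ‖chi κ (al ^ j * g) - 1‖ ^ 2 * ‖fh j f (1 + gi) κ‖ ^ 2
      ≤ 16 * msq (j + 2) (fun u => f (u + g) - f u) := by
  have hD : Per (j + 2) (fun u => f (u + g + g) - f u) := by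
    simpa only [add_assoc] using per_diff hf (g + g)
  have h1 := sum_fh_le hP hD (o := 1 + gi) (by simp)
  simp only [fh_shift hf, norm_mul, mul_pow] at h1
  have h2 := msq_add_le (j + 2) (fun u => f (u + g + g) - f (u + g)) (fun u => f (u + g) - f u)
  have h3 := msq_shift (per_diff hf g) g
  simp only [sub_add_sub_cancel] at h2
  rw [h3] at h2
  linarith

/-- Coefficients of the density. -/
def be (A B : GI → ℂ) (u κ : GI) : ℂ := 4 * (pat 0 u : ℂ) * (if Odd u.re then A κ else B κ)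

theorem be_cl (A B : GI → ℂ) : Cl (be A B) := fun u w => by
  funext κ; simp only [be, pat, odd_re, odd_im]

theorem pair_eq {j : ℕ} (R : Finset GI) (A B : GI → ℂ) {f : GI → ℂ} (hf : Per (j + 2) f) :
    av (j + 2) (fun u => conj (TS j R (be A B) u) * f u)
      = ∑ κ ∈ R, (conj (A κ) * fh j f (1 + gi) κ - conj (B κ) * fh j f gi κ) := by
  have hc : ∀ o : GI, av j (fun w => conj (TS j R (be A B) (o + 2 * w)) * f (o + 2 * w))
      = ∑ κ ∈ R, conj (be A B o κ) * fh j f o κ := fun o => by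
    simp only [TS_class (be_cl A B), fh, ← av_mul_left, ← av_sum, map_sum, map_mul, Finset.sum_mul]
    congr 1; funext w
    exact Finset.sum_congr rfl fun κ _ => by ring
  rw [av_four (fun u => conj (TS j R (be A B) u) * f u) (fun o u w => by
    have h1 := per_class hf o u w
    have h2 := TS_per (j := j) (R := R) (be_cl A B) o u w
    simp only at h1 h2 ⊢
    rw [h1, h2])]
  simp only [hc]
  have b0 : ∀ κ, be A B 0 κ = 0 := fun κ => by simp [be, pat]
  have b1 : ∀ κ, be A B 1 κ = 0 := fun κ => by simp [be, pat]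
  have b2 : ∀ κ, be A B gi κ = -4 * B κ := fun κ => by simp [be, pat, gi]
  have b3 : ∀ κ, be A B (1 + gi) κ = 4 * A κ := fun κ => by simp [be, pat, gi]
  simp only [b0, b1, b2, b3, map_zero, zero_mul, Finset.sum_const_zero, zero_add, real_smul,
    ← Finset.sum_add_distrib, Finset.mul_sum, map_mul, map_neg, map_ofNat]
  refine Finset.sum_congr rfl fun κ _ => ?_
  push_cast; ring

theorem pair_le {j : ℕ} {R : Finset GI} (hP : Pv j R) (A B : GI → ℂ) (r : GI → ℝ)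
    (h : ∀ κ ∈ R, (A κ = 0 ∧ B κ = 0) ∨ (0 < r κ ∧ ‖thq j κ‖ ≤ 10 * r κ ∧
      ∀ w : GI, r κ ≤ 10 * ‖thq j κ - 2 * π * w‖)) {f : GI → ℂ} (hf : Per (j + 2) f) :
    ‖av (j + 2) (fun u => conj (TS j R (be A B) u) * f u)‖
      ≤ √(∑ κ ∈ R, (‖B κ‖ ^ 2 + ‖A κ - B κ‖ ^ 2 / r κ ^ 2)) * √(300000 * g2 (j + 2) f) := by
  set T : GI → ℝ := fun κ => 18000 * (‖chi κ (al ^ j * ((1 : GI) : ℂ)) - 1‖ ^ 2
    * ‖fh j f (1 + gi) κ‖ ^ 2 + ‖chi κ (al ^ j * (gi : GI)) - 1‖ ^ 2 * ‖fh j f (1 + gi) κ‖ ^ 2)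
    + 2 * ‖fh j (fun u => f (u + 1) - f u) gi κ‖ ^ 2 with hT
  have hT0 : ∀ κ, 0 ≤ T κ := fun κ => by simp only [hT]; positivity
  have hs : ∑ κ ∈ R, T κ ≤ 300000 * g2 (j + 2) f := by
    have h1 := sum_shift_le hP hf 1
    have h2 := sum_shift_le hP hf gi
    have h3 := sum_fh_le hP (per_diff hf 1) (o := gi) (by simp)
    have h4 := msq_nonneg (j + 2) (fun u => f (u + 1) - f u)
    have h5 := msq_nonneg (j + 2) (fun u => f (u + gi) - f u)
    simp only [hT, Finset.sum_add_distrib, ← Finset.mul_sum]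
    unfold g2
    linarith
  rw [pair_eq R A B hf]
  refine (norm_sum_le _ _).trans ?_
  have ht : ∀ κ ∈ R, ‖conj (A κ) * fh j f (1 + gi) κ - conj (B κ) * fh j f gi κ‖
      ≤ √(‖B κ‖ ^ 2 + ‖A κ - B κ‖ ^ 2 / r κ ^ 2) * √(T κ) := fun κ hκ => by
    rcases h κ hκ with ⟨h1, h2⟩ | ⟨hr, h1, h2⟩
    · rw [h1, h2]; simp
    set N := √(‖B κ‖ ^ 2 + ‖A κ - B κ‖ ^ 2 / r κ ^ 2)
    have hN : 0 ≤ N := Real.sqrt_nonneg _
    have a1 : ‖B κ‖ ≤ N := Real.le_sqrt_of_sq_le (le_add_of_nonneg_right (by positivity))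
    have a2 : ‖A κ - B κ‖ ≤ N * r κ := by
      rw [← div_le_iff₀ hr]
      exact Real.le_sqrt_of_sq_le (by rw [div_pow]; exact le_add_of_nonneg_left (by positivity))
    have a3 : ‖chi κ (al ^ j * (1 / 2)) - 1‖ ≤ 5 * r κ :=
      (norm_chi_sub_one j κ _).trans (by simp; linarith)
    set F := ‖fh j f (1 + gi) κ‖
    set H := ‖fh j (fun u => f (u + 1) - f u) gi κ‖
    have a4 : 6 * r κ * F + H ≤ √(T κ) := by
      refine Real.le_sqrt_of_sq_le ?_
      have := r_low j κ hr h2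
      have h6 : r κ ^ 2 * F ^ 2 ≤ 250 * (‖chi κ (al ^ j * ((1 : GI) : ℂ)) - 1‖ ^ 2
        + ‖chi κ (al ^ j * (gi : GI)) - 1‖ ^ 2) * F ^ 2 := by gcongr
      simp only [hT]
      nlinarith [sq_nonneg (6 * r κ * F - H)]
    have e : conj (A κ) * fh j f (1 + gi) κ - conj (B κ) * fh j f gi κ
        = conj (A κ - B κ) * fh j f (1 + gi) κ
          - conj (B κ) * ((chi κ (al ^ j * (1 / 2)) - 1) * fh j f (1 + gi) κ)
          + conj (B κ) * fh j (fun u => f (u + 1) - f u) gi κ := by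
      rw [fh_half, map_sub]; ring
    rw [e]
    refine (norm_add_le _ _).trans ?_
    refine (add_le_add (norm_sub_le _ _) le_rfl).trans ?_
    simp only [norm_mul, norm_conj]
    have b1 : ‖A κ - B κ‖ * F ≤ N * r κ * F := by gcongr
    have b2 : ‖B κ‖ * (‖chi κ (al ^ j * (1 / 2)) - 1‖ * F) ≤ N * (5 * r κ * F) := by gcongr
    have b3 : ‖B κ‖ * H ≤ N * H := by gcongr
    have b4 : N * (6 * r κ * F + H) ≤ N * √(T κ) := by gcongr
    linarith
  refine (Finset.sum_le_sum ht).trans ?_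
  refine (Real.sum_sqrt_mul_sqrt_le R (fun κ => by positivity) hT0).trans ?_
  gcongr

theorem dn_le {j : ℕ} {R : Finset GI} (hP : Pv j R) (A B : GI → ℂ) (r : GI → ℝ)
    (h : ∀ κ ∈ R, (A κ = 0 ∧ B κ = 0) ∨ (0 < r κ ∧ ‖thq j κ‖ ≤ 10 * r κ ∧
      ∀ w : GI, r κ ≤ 10 * ‖thq j κ - 2 * π * w‖)) {s : ℝ} (hs : s = 1 ∨ s = -1) :
    dn (j + 2) (fun u => s * (TS j R (be A B) u).re) ^ 2
      ≤ 300000 * ∑ κ ∈ R, (‖B κ‖ ^ 2 + ‖A κ - B κ‖ ^ 2 / r κ ^ 2) := by
  set N := ∑ κ ∈ R, (‖B κ‖ ^ 2 + ‖A κ - B κ‖ ^ 2 / r κ ^ 2)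
  have hN : 0 ≤ N := Finset.sum_nonneg fun κ _ => by positivity
  have h0 : 0 ≤ dn (j + 2) (fun u => s * (TS j R (be A B) u).re) := by
    refine Real.sSup_nonneg ?_
    rintro x ⟨f, -, -, rfl⟩
    exact norm_nonneg _
  have h1 : dn (j + 2) (fun u => s * (TS j R (be A B) u).re) ≤ √N * √300000 := by
    refine Real.sSup_le ?_ (by positivity)
    rintro x ⟨f, hf, hg, rfl⟩
    have k1 := pair_le hP A B r h hf
    have k2 := pair_le hP A B r h (f := fun u => conj (f u)) (fun u w => by simp only [hf u w])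
    rw [g2_conj] at k2
    have k3 : √(300000 * g2 (j + 2) f) ≤ √300000 := Real.sqrt_le_sqrt (by linarith)
    have k4 : √N * √(300000 * g2 (j + 2) f) ≤ √N * √300000 := by gcongr
    have e : av (j + 2) (fun u => ((s * (TS j R (be A B) u).re : ℝ) : ℂ) * f u)
        = (s / 2 : ℂ) * (av (j + 2) (fun u => conj (TS j R (be A B) u) * f u)
          + conj (av (j + 2) (fun u => conj (TS j R (be A B) u) * conj (f u)))) := by
      rw [← av_conj, ← av_add, ← av_mul_left]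
      congr 1; funext u
      rw [map_mul, conj_conj, conj_conj, ofReal_mul, re_eq_add_conj]; ring
    rw [e, norm_mul]
    have k5 : ‖(s / 2 : ℂ)‖ = 1 / 2 := by rcases hs with rfl | rfl <;> simp
    rw [k5]
    have k6 := norm_add_le (av (j + 2) (fun u => conj (TS j R (be A B) u) * f u))
      (conj (av (j + 2) (fun u => conj (TS j R (be A B) u) * conj (f u))))
    rw [norm_conj] at k6
    linarith
  refine (pow_le_pow_left₀ h0 h1 2).trans ?_
  rw [mul_pow, Real.sq_sqrt hN, Real.sq_sqrt (by norm_num)]; linarith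

end NUP
end Pool.Agent.P.MP_cc4a10_gt
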