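import Pool.Agent.P.MP_cc4a10_gt.St

/-!
Tools for the neck package: real derivatives of the form `h ↦ a h - conj (b h)`, segments,
annuli and logarithmic coordinates.
-/

open Set Filter Topology Complex Metric
open scoped ComplexConjugate Real

noncomputable section

namespace Pool.Agent.P.MP_cc4a10_gt.NeckP

theorem wl_apply (a b h : ℂ) : wl a b h = a * h - conj (b * h) := by simp [wl]
theorem hl_apply (a h : ℂ) : hl a h = (a * h).re := by simp [hl]

theorem wl_comp {P f : ℂ → ℂ} {a b f' z : ℂ} (hP : HasFDerivAt P (wl a b) (f z))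
    (hf : HasDerivAt f f' z) : HasFDerivAt (fun w => P (f w)) (wl (a * f') (b * f')) z := by
  refine (hP.comp z (hf.hasFDerivAt.restrictScalars ℝ)).congr_fderiv
    (ContinuousLinearMap.ext fun h => ?_)
  simp [wl_apply]
  ring

theorem wl_neg_conj {P : ℂ → ℂ} {a b z : ℂ} (hP : HasFDerivAt P (wl a b) z) :
    HasFDerivAt (fun w => -conj (P w)) (wl b a) z := by
  refine (((conjCLE : ℂ →L[ℝ] ℂ).hasFDerivAt.comp z hP).neg).congr_fderiv
    (ContinuousLinearMap.ext fun h => ?_)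
  simp [wl_apply]

theorem wl_hol {f : ℂ → ℂ} {a z : ℂ} (hf : HasDerivAt f a z) : HasFDerivAt f (wl a 0) z := by
  refine (hf.hasFDerivAt.restrictScalars ℝ).congr_fderiv (ContinuousLinearMap.ext fun h => ?_)
  simp [wl_apply, mul_comm]

theorem wl_add {P R : ℂ → ℂ} {a b a' b' z : ℂ} (hP : HasFDerivAt P (wl a b) z)
    (hR : HasFDerivAt R (wl a' b') z) :
    HasFDerivAt (fun w => P w + R w) (wl (a + a') (b + b')) z := by
  refine (hP.add hR).congr_fderiv (ContinuousLinearMap.ext fun h => ?_)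
  simp [wl_apply]
  ring

theorem wl_sub {P R : ℂ → ℂ} {a b a' b' z : ℂ} (hP : HasFDerivAt P (wl a b) z)
    (hR : HasFDerivAt R (wl a' b') z) :
    HasFDerivAt (fun w => P w - R w) (wl (a - a') (b - b')) z := by
  refine (hP.sub hR).congr_fderiv (ContinuousLinearMap.ext fun h => ?_)
  simp [wl_apply]
  ring

theorem wl_congr {P : ℂ → ℂ} {a b a' b' z : ℂ} (hP : HasFDerivAt P (wl a b) z) (ha : a = a')
    (hb : b = b') : HasFDerivAt P (wl a' b') z := ha ▸ hb ▸ hP

theorem wl_zero : wl 0 0 = 0 := ContinuousLinearMap.ext fun h => by simp [wl_apply]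

theorem norm_wl_le (a b : ℂ) : ‖wl a b‖ ≤ ‖a‖ + ‖b‖ := by
  refine ContinuousLinearMap.opNorm_le_bound _ (by positivity) fun h => ?_
  rw [wl_apply]
  refine (norm_sub_le _ _).trans ?_
  rw [Complex.norm_conj, norm_mul, norm_mul, add_mul]

theorem log_der {w : ℂ} (h0 : w ≠ 0) : HasFDerivAt (fun v : ℂ => Real.log ‖v‖) (hl w⁻¹) w := by
  have h1 : ‖w‖ ^ 2 ≠ 0 := pow_ne_zero 2 (norm_ne_zero_iff.2 h0)
  have h2 := (((hasStrictFDerivAt_norm_sq w).hasFDerivAt).log h1).const_mul (1 / 2 : ℝ)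
  have h3 : (fun v : ℂ => Real.log ‖v‖) = fun v : ℂ => 1 / 2 * Real.log (‖v‖ ^ 2) := by
    funext v
    rw [Real.log_pow]
    push_cast
    ring
  rw [h3]
  refine h2.congr_fderiv (ContinuousLinearMap.ext fun h => ?_)
  simp [hl_apply, normSq_eq_norm_sq]
  field_simp
  ring

theorem wl_log (R : ℂ) {w : ℂ} (h0 : w ≠ 0) :
    HasFDerivAt (fun v : ℂ => 2 * R * (Real.log ‖v‖ : ℝ)) (wl (R / w) (-conj R / w)) w := by
  have h1 := (ofRealCLM.hasFDerivAt.comp w (log_der h0)).const_mul (2 * R)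
  refine h1.congr_fderiv (ContinuousLinearMap.ext fun h => ?_)
  have h2 : (((w⁻¹ * h).re : ℝ) : ℂ) = (w⁻¹ * h + conj (w⁻¹ * h)) / 2 := by
    rw [Complex.add_conj]
    push_cast
    ring
  simp only [smul_apply, ContinuousLinearMap.comp_apply, hl_apply,
    ofRealCLM_apply, wl_apply, smul_eq_mul, h2, map_mul, map_div₀, map_neg, conj_conj, map_inv₀]
  ring

theorem seg_ftc {P f g : ℂ → ℂ} {a b : ℂ} {S : Set ℂ}
    (hS : ∀ x ∈ Icc (0 : ℝ) 1, a + x * (b - a) ∈ S) (hf : ContinuousOn f S)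
    (hg : ContinuousOn g S) (hP : ∀ y ∈ S, HasFDerivAt P (wl (f y) (g y)) y) :
    P b - P a = seg f a b - conj (seg g a b) := by
  have hc : Continuous fun x : ℝ => a + x * (b - a) := by fun_prop
  have hf' : IntervalIntegrable (fun x : ℝ => f (a + x * (b - a))) MeasureTheory.volume 0 1 := by
    refine ContinuousOn.intervalIntegrable ?_
    rw [uIcc_of_le zero_le_one]
    exact hf.comp hc.continuousOn hS
  have hg0 : ContinuousOn (fun x : ℝ => g (a + x * (b - a))) (uIcc 0 1) := by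
    rw [uIcc_of_le zero_le_one]
    exact hg.comp hc.continuousOn hS
  have hg' := hg0.intervalIntegrable (μ := MeasureTheory.volume)
  have hg2 : IntervalIntegrable (fun x : ℝ => conj ((b - a) * g (a + x * (b - a))))
      MeasureTheory.volume 0 1 :=
    (continuous_conj.comp_continuousOn (hg0.const_smul (b - a))).intervalIntegrable
  have hd : ∀ x ∈ uIcc (0 : ℝ) 1, HasDerivAt (fun x : ℝ => P (a + x * (b - a)))
      ((b - a) * f (a + x * (b - a)) - conj ((b - a) * g (a + x * (b - a)))) x := by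
    intro x hx
    rw [uIcc_of_le zero_le_one] at hx
    have h1 : HasDerivAt (fun x : ℝ => a + x * (b - a)) (b - a) x := by
      simpa using ((ofRealCLM.hasDerivAt (x := x)).mul_const (b - a)).const_add a
    have h2 := (hP _ (hS x hx)).comp_hasDerivAt x h1
    exact h2.congr_deriv (by rw [wl_apply, mul_comm (b - a), mul_comm (b - a)])
  have h := intervalIntegral.integral_eq_sub_of_hasDerivAt hd ((hf'.const_mul _).sub hg2)
  rw [intervalIntegral.integral_sub (hf'.const_mul _) hg2, intervalIntegral.integral_const_mul] at h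
  have h3 := (conjCLE : ℂ →L[ℝ] ℂ).intervalIntegral_comp_comm (hg'.const_mul (b - a))
  simp only [ContinuousLinearEquiv.coe_coe, conjCLE_apply, intervalIntegral.integral_const_mul]
    at h3
  rw [h3] at h
  simpa [seg] using h.symm

theorem seg_hol {H f : ℂ → ℂ} {a b : ℂ} {S : Set ℂ}
    (hS : ∀ x ∈ Icc (0 : ℝ) 1, a + x * (b - a) ∈ S) (hf : ContinuousOn f S)
    (hP : ∀ y ∈ S, HasDerivAt H (f y) y) : H b - H a = seg f a b := by
  have h := seg_ftc (g := fun _ => 0) hS hf continuousOn_const fun y hy => wl_hol (hP y hy)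
  simpa [seg] using h

theorem norm_seg_le {f : ℂ → ℂ} {a b : ℂ} {S : Set ℂ} {C : ℝ}
    (hS : ∀ x ∈ Icc (0 : ℝ) 1, a + x * (b - a) ∈ S) (hf : ∀ y ∈ S, ‖f y‖ ≤ C) :
    ‖seg f a b‖ ≤ ‖b - a‖ * C := by
  rw [seg, norm_mul]
  refine mul_le_mul_of_nonneg_left ?_ (norm_nonneg _)
  have h := intervalIntegral.norm_integral_le_of_norm_le_const (a := (0 : ℝ)) (b := 1) (C := C)
    (f := fun x : ℝ => f (a + x * (b - a))) fun x hx => by
      rw [uIoc_of_le zero_le_one] at hx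
      exact hf _ (hS x ⟨hx.1.le, hx.2⟩)
  simpa using h

theorem convex_strip (a b : ℝ) : Convex ℝ {w : ℂ | a < w.re ∧ w.re < b} :=
  (convex_halfSpace_re_gt a).inter (convex_halfSpace_re_lt b)

theorem exp_mem {a b : ℝ} (ha : 0 < a) (hb : 0 < b) {w : ℂ} (h1 : Real.log a < w.re)
    (h2 : w.re < Real.log b) : a < ‖exp w‖ ∧ ‖exp w‖ < b := by
  rw [Complex.norm_exp]
  exact ⟨(Real.log_lt_iff_lt_exp ha).1 h1, (Real.lt_log_iff_exp_lt hb).1 h2⟩

theorem log_mem {a b : ℝ} (ha : 0 < a) {y : ℂ} (h1 : a < ‖y‖) (h2 : ‖y‖ < b) :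
    Real.log a < (log y).re ∧ (log y).re < Real.log b := by
  rw [log_re]
  exact ⟨Real.log_lt_log ha h1, Real.log_lt_log (ha.trans h1) h2⟩

theorem ann_preconn (p : ℂ) {a b : ℝ} (ha : 0 < a) (hb : 0 < b) :
    IsPreconnected {z : ℂ | a < ‖z - p‖ ∧ ‖z - p‖ < b} := by
  have h : {z : ℂ | a < ‖z - p‖ ∧ ‖z - p‖ < b}
      = (fun w => p + exp w) '' {w : ℂ | Real.log a < w.re ∧ w.re < Real.log b} := by
    ext z
    constructor
    · rintro ⟨h1, h2⟩
      have h0 : z - p ≠ 0 := norm_pos_iff.1 (ha.trans h1)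
      exact ⟨log (z - p), log_mem ha h1 h2, by simp [exp_log h0]⟩
    · rintro ⟨w, ⟨h1, h2⟩, rfl⟩
      simpa using exp_mem ha hb h1 h2
  rw [h]
  exact (convex_strip _ _).isPreconnected.image _ (by fun_prop)

theorem ann_open (p : ℂ) (a b : ℝ) : IsOpen {z : ℂ | a < ‖z - p‖ ∧ ‖z - p‖ < b} := by
  have h : Continuous fun z : ℂ => ‖z - p‖ := by fun_prop
  exact (isOpen_lt continuous_const h).inter (isOpen_lt h continuous_const)

theorem An_open (a b : ℝ) : IsOpen (An a b) := by simpa [An] using ann_open 0 a b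

theorem const_ann {f : ℂ → ℂ} (p : ℂ) {a b : ℝ} (ha : 0 < a) (hb : 0 < b)
    (hf : ∀ z, a < ‖z - p‖ → ‖z - p‖ < b → HasFDerivAt f (wl 0 0) z) :
    ∃ D, ∀ z, a < ‖z - p‖ → ‖z - p‖ < b → f z = D := by
  obtain ⟨D, hD⟩ := (ann_open p a b).exists_is_const_of_fderiv_eq_zero (𝕜 := ℝ) (f := f)
    (ann_preconn p ha hb)
    (fun z hz => (hf z hz.1 hz.2).differentiableAt.differentiableWithinAt)
    (fun z hz => by rw [(hf z hz.1 hz.2).fderiv, wl_zero]; rfl)
  exact ⟨D, fun z h1 h2 => hD z ⟨h1, h2⟩⟩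

/-- Mean value inequality in the logarithmic coordinate for the deviation from the catenoid. -/
theorem mvt_log {P E : ℂ → ℂ} {Q B : ℝ} {S : Set ℂ} (hS : Convex ℝ S) (hQ : 0 ≤ Q)
    (hP : ∀ w ∈ S, HasFDerivAt P (wl (E (exp w)) (Q / (E (exp w) * exp w ^ 2))) (exp w) ∧
      ‖E (exp w) - 1‖ ≤ 1 / 100 ∧ ‖exp w‖ / 100 + Q / ‖exp w‖ / 99 ≤ B)
    {w w' : ℂ} (hw : w ∈ S) (hw' : w' ∈ S) :
    ‖(P (exp w') - exp w' - conj (Q / exp w')) - (P (exp w) - exp w - conj (Q / exp w))‖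
      ≤ B * ‖w' - w‖ := by
  refine Convex.norm_image_sub_le_of_norm_hasFDerivWithin_le
    (f := fun w => P (exp w) - exp w - conj (Q / exp w))
    (f' := fun w => wl ((E (exp w) - 1) * exp w) (Q / exp w * ((E (exp w))⁻¹ - 1)))
    (fun x hx => ?_) (fun x hx => ?_) hS hw hw'
  · obtain ⟨h1, h2, -⟩ := hP x hx
    have e0 := exp_ne_zero x
    have hE : E (exp x) ≠ 0 := by
      intro h
      rw [h] at h2
      norm_num at h2
    have h3 := wl_comp h1 (Complex.hasDerivAt_exp x)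
    have h4 := wl_hol (Complex.hasDerivAt_exp x)
    have h5 : HasDerivAt (fun w => (Q : ℂ) / exp w) (-(Q / exp x)) x := by
      refine ((hasDerivAt_const x (Q : ℂ)).div (Complex.hasDerivAt_exp x) e0).congr_deriv ?_
      field_simp
      ring
    have h6 := wl_add (wl_sub h3 h4) (wl_neg_conj (wl_hol h5))
    simp only [← sub_eq_add_neg] at h6
    refine (wl_congr h6 ?_ ?_).hasFDerivWithinAt
    · ring
    · field_simp
      ring
  · obtain ⟨-, h2, h3⟩ := hP x hx
    refine (norm_wl_le _ _).trans (le_trans (add_le_add ?_ ?_) h3)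
    · rw [norm_mul]
      nlinarith [norm_nonneg (exp x)]
    · have h4 : 99 / 100 ≤ ‖E (exp x)‖ := by
        have h := norm_sub_norm_le (1 : ℂ) (E (exp x))
        rw [norm_sub_rev, norm_one] at h
        linarith
      have hE : E (exp x) ≠ 0 := norm_pos_iff.1 (by linarith)
      have h5 : ‖(E (exp x))⁻¹ - 1‖ ≤ 1 / 99 := by
        have h : (E (exp x))⁻¹ - 1 = -(E (exp x) - 1) / E (exp x) := by
          field_simp
          ring
        rw [h, norm_div, norm_neg, div_le_iff₀ (by linarith)]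
        linarith
      rw [norm_mul, norm_div, Complex.norm_real, Real.norm_eq_abs, abs_of_nonneg hQ]
      have h6 : 0 ≤ Q / ‖exp x‖ := by positivity
      nlinarith

/-- Injectivity on circles. -/
theorem circ_inj {P E : ℂ → ℂ} {Q : ℝ} (hQ : 0 ≤ Q) {y y' : ℂ} (h0 : y ≠ 0) (hn : ‖y'‖ = ‖y‖)
    (hP : ∀ x, ‖x‖ = ‖y‖ →
      HasFDerivAt P (wl (E x) (Q / (E x * x ^ 2))) x ∧ ‖E x - 1‖ ≤ 1 / 100)
    (he : P y' = P y) : y' = y := by
  have hr : 0 < ‖y‖ := norm_pos_iff.2 h0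
  set α := arg (y' / y) with hα
  have h1 : exp (α * I) = y' / y := by
    have h := norm_mul_exp_arg_mul_I (y' / y)
    rwa [norm_div, hn, div_self hr.ne', ofReal_one, one_mul] at h
  have h2 : exp (log y + α * I) = y' := by
    rw [exp_add, exp_log h0, h1]
    field_simp
  have hS : Convex ℝ {w : ℂ | w.re = Real.log ‖y‖} := by
    have h := (convex_halfSpace_re_ge (Real.log ‖y‖)).inter
      (convex_halfSpace_re_le (Real.log ‖y‖))
    convert h using 1
    ext w
    exact ⟨fun h => ⟨h.ge, h.le⟩, fun h => le_antisymm h.2 h.1⟩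
  have h3 := mvt_log (P := P) (E := E) (B := ‖y‖ / 100 + Q / ‖y‖ / 99) hS hQ (fun w hw => by
    have h : ‖exp w‖ = ‖y‖ := by rw [Complex.norm_exp, hw, Real.exp_log hr]
    exact ⟨(hP _ h).1, (hP _ h).2, by rw [h]⟩)
    (w := log y) (w' := log y + α * I) (log_re y) (by simp [log_re])
  rw [h2, exp_log h0, he] at h3
  have hc : ∀ x : ℂ, ‖x‖ = ‖y‖ → conj (Q / x) = x * ((Q / ‖y‖ ^ 2 : ℝ) : ℂ) := by
    intro x hx
    have hx0 : x ≠ 0 := norm_pos_iff.1 (hx ▸ hr)
    have hx1 : conj x ≠ 0 := by simpa using hx0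
    rw [← hx, map_div₀, conj_ofReal]
    push_cast
    rw [← Complex.mul_conj']
    field_simp
  have h4 : P y - y' - conj (Q / y') - (P y - y - conj (Q / y))
      = -(y * (exp (I * α) - 1) * ((1 + Q / ‖y‖ ^ 2 : ℝ) : ℂ)) := by
    rw [hc y' hn, hc y rfl, mul_comm I, h1]
    push_cast
    field_simp
    ring
  have h5 : 0 ≤ Q / ‖y‖ ^ 2 := by positivity
  rw [h4, norm_neg, norm_mul, norm_mul, Complex.norm_exp_I_mul_ofReal_sub_one, Complex.norm_real,
    Real.norm_eq_abs, Real.norm_eq_abs, abs_of_nonneg (by linarith : 0 ≤ 1 + Q / ‖y‖ ^ 2),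
    add_sub_cancel_left, norm_mul, norm_I, mul_one, Complex.norm_real, Real.norm_eq_abs,
    abs_mul, abs_two] at h3
  have h6 : 2 / π * |α / 2| ≤ |Real.sin (α / 2)| := Real.mul_abs_le_abs_sin (by
    rw [abs_div, abs_two]
    linarith [abs_arg_le_pi (y' / y)])
  have h7 : 1 / 2 ≤ 2 / π := by
    rw [div_le_div_iff₀ (by norm_num) Real.pi_pos]
    linarith [Real.pi_le_four]
  rw [abs_div, abs_two] at h6
  have h8 : |α| / 2 ≤ 2 * |Real.sin (α / 2)| := by nlinarith [abs_nonneg α]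
  have h9 : Q / ‖y‖ = ‖y‖ * (Q / ‖y‖ ^ 2) := by field_simp
  rw [h9] at h3
  have h10 : ‖y‖ * (|α| / 2) * (1 + Q / ‖y‖ ^ 2)
      ≤ ‖y‖ * (2 * |Real.sin (α / 2)|) * (1 + Q / ‖y‖ ^ 2) := by gcongr
  have h11 : ‖y‖ * |α| ≤ 0 := by
    nlinarith [mul_nonneg (mul_nonneg hr.le (abs_nonneg α)) h5, mul_nonneg hr.le (abs_nonneg α)]
  have h12 : α = 0 := by
    by_contra h
    exact absurd h11 (not_le.2 (mul_pos hr (abs_pos.2 h)))
  rw [← h2, h12]
  simp [exp_log h0]

end Pool.Agent.P.MP_cc4a10_gt.NeckP
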