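import Pool.Agent.P.MP_cc4a10_gt.NeckA

/-!
One neck seen from its two sides, in abstract form.
-/

open Set Filter Topology Complex Metric
open scoped ComplexConjugate Real

noncomputable section

namespace Pool.Agent.P.MP_cc4a10_gt.NeckP

structure Side where
  ρ : ℝ
  ρ1 : ℝ
  d : ℝ
  p : ℂ
  c : ℂ
  v : ℂ → ℂ
  Z : ℂ → ℂ
  E : ℂ → ℂ

def Side.an (s : Side) (a : ℝ) : ℂ := s.p + ((a * s.ρ / 4 / s.d : ℝ) : ℂ) * s.c
def AA (s s' : Side) (t : ℂ) : Set ℂ := An (‖t‖ / (s'.ρ * (44 / 100))) (s.ρ * (44 / 100))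
def E2 (s : Side) (Q : ℝ) (y : ℂ) : ℂ := Q / (s.E y * y ^ 2)
def cn (s s' : Side) (t : ℂ) (a : ℝ) : ℂ :=
  s.Z (s.an a) - seg s.E (t / s'.v (s'.an a)) (s.v (s.an a))

structure OK (s s' : Side) (t : ℂ) (Q : ℝ) : Prop where
  ρp : 0 < s.ρ
  dp : 0 < s.d
  nc : ‖s.c‖ = s.d
  ang : s.d * s'.d * (7 / 10) ≤ -(s.c * s'.c).re
  Qp : 0 < Q
  tQ : ‖t + Q‖ ≤ Q / 100
  r1 : ‖t‖ / (s'.ρ * (44 / 100)) ≤ s.ρ1
  r2 : 1000 * s.ρ1 ≤ s.ρ
  hv : ∀ z, ‖z - s.p‖ < 2 * s.ρ →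
    ‖s.v z - (z - s.p)‖ ≤ ‖z - s.p‖ / 100 ∧ DifferentiableAt ℂ s.v z
  hE : DifferentiableOn ℂ s.E (AA s s' t)
  bE : ∀ y ∈ AA s s' t, ‖s.E y - 1‖ ≤ 1 / 100 ∧ s.E y * s'.E (t / y) * -t = Q
  hZ : ∀ z, 2 * s.ρ1 < ‖z - s.p‖ → ‖z - s.p‖ < s.ρ * (42 / 100) →
    HasFDerivAt s.Z (wl (s.E (s.v z) * deriv s.v z) (E2 s Q (s.v z) * deriv s.v z)) z
  res : cint 0 (s.ρ / 4) s.E = -conj (cint 0 (s.ρ / 4) (E2 s Q))

variable {s s' : Side} {t : ℂ} {Q : ℝ}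

theorem OK.tn (h : OK s s' t Q) : Q * (99 / 100) ≤ ‖t‖ ∧ ‖t‖ ≤ Q * (101 / 100) := by
  have hq : ‖(Q : ℂ)‖ = Q := by rw [Complex.norm_real, Real.norm_eq_abs, abs_of_pos h.Qp]
  have h1 := norm_sub_le (t + Q) t
  have h2 := norm_sub_le (t + Q) Q
  rw [add_sub_cancel_left, hq] at h1
  rw [add_sub_cancel_right, hq] at h2
  constructor <;> linarith [h.tQ]

theorem OK.tp (h : OK s s' t Q) : 0 < ‖t‖ := by linarith [h.tn.1, h.Qp]
theorem OK.t0 (h : OK s s' t Q) : t ≠ 0 := norm_pos_iff.1 h.tp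

theorem OK.r1p (h : OK s s' t Q) (h' : OK s' s t Q) : 0 < ‖t‖ / (s'.ρ * (44 / 100)) := by
  have := h.tp
  have := h'.ρp
  positivity

theorem OK.ne0 (h : OK s s' t Q) (h' : OK s' s t Q) {y : ℂ} (hy : y ∈ AA s s' t) : y ≠ 0 :=
  norm_pos_iff.1 ((h.r1p h').trans hy.1)

theorem OK.swap (h : OK s s' t Q) (h' : OK s' s t Q) {y : ℂ} (hy : y ∈ AA s s' t) :
    t / y ∈ AA s' s t := by
  have h0 := norm_pos_iff.2 (h.ne0 h' hy)
  have h1 := hy.1
  have h2 := hy.2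
  have := h.ρp
  have := h'.ρp
  refine ⟨?_, ?_⟩ <;> rw [norm_div]
  · exact div_lt_div_of_pos_left h.tp h0 h2
  · rw [div_lt_iff₀ (by positivity)] at h1
    rw [div_lt_iff₀ h0]
    linarith

theorem OK.vn (h : OK s s' t Q) {z : ℂ} (hz : ‖z - s.p‖ < 2 * s.ρ) :
    ‖z - s.p‖ * (99 / 100) ≤ ‖s.v z‖ ∧ ‖s.v z‖ ≤ ‖z - s.p‖ * (101 / 100) := by
  have h0 := (h.hv z hz).1
  have h1 := norm_sub_norm_le (s.v z) (z - s.p)
  have h2 := norm_sub_norm_le (z - s.p) (s.v z)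
  rw [norm_sub_rev (z - s.p)] at h2
  constructor <;> linarith

theorem OK.vmem (h : OK s s' t Q) (h' : OK s' s t Q) {z : ℂ} (h1 : 2 * s.ρ1 < ‖z - s.p‖)
    (h2 : ‖z - s.p‖ < s.ρ * (42 / 100)) : s.v z ∈ AA s s' t := by
  have := h.ρp
  have h3 := h.vn (z := z) (by linarith)
  have := h.r1
  have := h.r1p h'
  exact ⟨by linarith [h3.1], by linarith [h3.2]⟩

theorem OK.En (h : OK s s' t Q) {y : ℂ} (hy : y ∈ AA s s' t) :
    s.E y ≠ 0 ∧ ‖s.E y‖ ≤ 101 / 100 := by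
  have h0 := (h.bE y hy).1
  refine ⟨fun e => ?_, ?_⟩
  · rw [e] at h0
    norm_num at h0
  · have h1 := norm_sub_norm_le (s.E y) 1
    rw [norm_one] at h1
    linarith

theorem OK.hE2 (h : OK s s' t Q) (h' : OK s' s t Q) : DifferentiableOn ℂ (E2 s Q) (AA s s' t) :=
  (differentiableOn_const _).div (h.hE.mul (differentiableOn_id.pow 2))
    fun _ hy => mul_ne_zero (h.En hy).1 (pow_ne_zero 2 (h.ne0 h' hy))

theorem OK.ann (hA : S_Ann) (h : OK s s' t Q) (h' : OK s' s t Q) {F : ℂ → ℂ}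
    (hF : DifferentiableOn ℂ F (AA s s' t)) :
    ∃ G : ℂ → ℂ, ∀ y ∈ AA s s' t, HasDerivAt G (F y - cint 0 (s.ρ / 4) F / y) y := by
  have := h.ρp
  have := h.r1
  have := h.r2
  obtain ⟨G, hG⟩ := hA F 0 (‖t‖ / (s'.ρ * (44 / 100))) (s.ρ * (44 / 100)) (s.ρ / 4)
    (h.r1p h').le (by linarith) (by linarith) (by simpa [AA, An] using hF)
  exact ⟨G, fun y hy => by simpa using hG y (by simpa using hy.1) (by simpa using hy.2)⟩

theorem OK.exP (hA : S_Ann) (h : OK s s' t Q) (h' : OK s' s t Q) :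
    ∃ P : ℂ → ℂ, ∀ y ∈ AA s s' t, HasFDerivAt P (wl (s.E y) (E2 s Q y)) y := by
  obtain ⟨G1, h1⟩ := h.ann hA h' h.hE
  obtain ⟨G2, h2⟩ := h.ann hA h' (h.hE2 h')
  refine ⟨fun y => G1 y + -conj (G2 y) + 2 * cint 0 (s.ρ / 4) s.E * (Real.log ‖y‖ : ℝ),
    fun y hy => ?_⟩
  refine wl_congr (wl_add (wl_add (wl_hol (h1 y hy)) (wl_neg_conj (wl_hol (h2 y hy))))
    (wl_log _ (h.ne0 h' hy))) ?_ ?_
  · ring
  · rw [h.res]
    simp

theorem OK.side (h : OK s s' t Q) (h' : OK s' s t Q) {P : ℂ → ℂ}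
    (hP : ∀ y ∈ AA s s' t, HasFDerivAt P (wl (s.E y) (E2 s Q y)) y) :
    ∃ D, ∀ z, 2 * s.ρ1 < ‖z - s.p‖ → ‖z - s.p‖ < s.ρ * (42 / 100) → P (s.v z) = s.Z z + D := by
  have := h.ρp
  have := h.r1
  have := h.r1p h'
  obtain ⟨D, hD⟩ := const_ann (f := fun z => P (s.v z) - s.Z z) s.p (a := 2 * s.ρ1)
    (b := s.ρ * (42 / 100)) (by linarith) (by linarith) fun z h1 h2 =>
    wl_congr (wl_sub (wl_comp (hP _ (h.vmem h' h1 h2)) (h.hv z (by linarith)).2.hasDerivAt)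
      (h.hZ z h1 h2)) (sub_self _) (sub_self _)
  exact ⟨D, fun z h1 h2 => by rw [← hD z h1 h2]; ring⟩

theorem div_der (t : ℂ) {y : ℂ} (hy : y ≠ 0) : HasDerivAt (fun w => t / w) (-t / y ^ 2) y := by
  refine ((hasDerivAt_const y t).div (hasDerivAt_id y) hy).congr_deriv ?_
  simp

theorem OK.rel1 (h : OK s s' t Q) (h' : OK s' s t Q) {y : ℂ} (hy : y ∈ AA s' s t) :
    E2 s Q (t / y) * (-t / y ^ 2) = s'.E y := by
  have h1 := (h'.bE y hy).2
  have h2 := (h.En (h'.swap h hy)).1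
  have h3 := h'.ne0 h hy
  have h4 := h.t0
  rw [E2, ← h1]
  field_simp

theorem OK.rel2 (h : OK s s' t Q) (h' : OK s' s t Q) {y : ℂ} (hy : y ∈ AA s' s t) :
    s.E (t / y) * (-t / y ^ 2) = E2 s' Q y := by
  have h1 := (h'.bE y hy).2
  have h2 := (h'.En hy).1
  have h3 := h'.ne0 h hy
  rw [E2, ← h1]
  field_simp

theorem OK.other (h : OK s s' t Q) (h' : OK s' s t Q) {P : ℂ → ℂ}
    (hP : ∀ y ∈ AA s s' t, HasFDerivAt P (wl (s.E y) (E2 s Q y)) y) :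
    ∀ y ∈ AA s' s t, HasFDerivAt (fun w => -conj (P (t / w))) (wl (s'.E y) (E2 s' Q y)) y :=
  fun _ hy => wl_congr (wl_neg_conj (wl_comp (f := fun w => t / w) (hP _ (h'.swap h hy))
    (div_der t (h'.ne0 h hy)))) (h.rel1 h' hy) (h.rel2 h' hy)

theorem OK.an_norm (h : OK s s' t Q) {a : ℝ} (ha : a ^ 2 = 1) : ‖s.an a - s.p‖ = s.ρ / 4 := by
  have h1 : |a| = 1 := by rw [← sq_eq_sq₀ (abs_nonneg a) zero_le_one, sq_abs, ha, one_pow]
  have := h.ρp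
  have := h.dp
  rw [Side.an, add_sub_cancel_left, norm_mul, h.nc, Complex.norm_real, Real.norm_eq_abs, abs_div,
    abs_div, abs_mul, h1, abs_of_pos h.ρp, abs_of_pos h.dp, abs_of_pos (by norm_num : (0 : ℝ) < 4)]
  field_simp

theorem OK.an_in (h : OK s s' t Q) {a : ℝ} (ha : a ^ 2 = 1) :
    2 * s.ρ1 < ‖s.an a - s.p‖ ∧ ‖s.an a - s.p‖ < s.ρ * (42 / 100) := by
  rw [h.an_norm ha]
  constructor <;> linarith [h.ρp, h.r2]

theorem OK.y1n (h : OK s s' t Q) {a : ℝ} (ha : a ^ 2 = 1) :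
    s.ρ * (2475 / 10000) ≤ ‖s.v (s.an a)‖ ∧ ‖s.v (s.an a)‖ ≤ s.ρ * (2525 / 10000) := by
  have h1 := h.vn (z := s.an a) (by rw [h.an_norm ha]; linarith [h.ρp])
  rw [h.an_norm ha] at h1
  constructor <;> linarith [h1.1, h1.2]

theorem OK.kn (h : OK s s' t Q) {a : ℝ} (ha : a ^ 2 = 1) : ‖(a : ℂ) * s.c‖ = s.d := by
  have h1 : |a| = 1 := by rw [← sq_eq_sq₀ (abs_nonneg a) zero_le_one, sq_abs, ha, one_pow]
  rw [norm_mul, h.nc, Complex.norm_real, Real.norm_eq_abs, h1, one_mul]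

theorem re_ge (a b : ℂ) : -(‖a‖ * ‖b‖) ≤ (a * b).re := by
  have h := abs_re_le_norm (a * b)
  rw [norm_mul] at h
  exact neg_le_of_abs_le h

theorem re_div (t k : ℂ) {y : ℂ} (hy : y ≠ 0) :
    (t / y * k).re * ‖y‖ ^ 2 = (t * conj y * k).re := by
  have h : t * conj y * k = t / y * k * ((‖y‖ ^ 2 : ℝ) : ℂ) := by
    push_cast
    rw [← Complex.mul_conj']
    field_simp
  rw [h, re_mul_ofReal]

theorem OK.geo1 (h : OK s s' t Q) {a : ℝ} (ha : a ^ 2 = 1) :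
    s.d * (‖t‖ / (s'.ρ * (44 / 100))) < (s.v (s.an a) * conj (a * s.c)).re := by
  have hρ := h.ρp
  have hd := h.dp
  have h1 := (h.hv (s.an a) (by rw [h.an_norm ha]; linarith)).1
  rw [h.an_norm ha] at h1
  have h2 := re_ge (s.v (s.an a) - (s.an a - s.p)) (conj (a * s.c))
  rw [Complex.norm_conj, h.kn ha, sub_mul, sub_re] at h2
  have h3 : (s.an a - s.p) * conj (a * s.c) = ((s.ρ / 4 * s.d : ℝ) : ℂ) := by
    have hd' : (s.d : ℂ) ≠ 0 := ofReal_ne_zero.2 hd.ne'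
    have ha' : (a : ℂ) ^ 2 = 1 := by exact_mod_cast ha
    have h4 := Complex.mul_conj' s.c
    rw [h.nc] at h4
    rw [Side.an, add_sub_cancel_left, map_mul, conj_ofReal]
    push_cast
    field_simp
    linear_combination (s.ρ : ℂ) * (a : ℂ) ^ 2 * h4 + (s.ρ : ℂ) * (s.d : ℂ) ^ 2 * ha'
  rw [h3, ofReal_re] at h2
  have h5 := mul_le_mul_of_nonneg_right h1 hd.le
  have h6 := mul_le_mul_of_nonneg_left (h.r1.trans (show s.ρ1 ≤ s.ρ / 1000 by linarith [h.r2]))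
    hd.le
  nlinarith [mul_pos hρ hd]

theorem OK.geo0 (h : OK s s' t Q) (h' : OK s' s t Q) {a : ℝ} (ha : a ^ 2 = 1) :
    s.d * (‖t‖ / (s'.ρ * (44 / 100))) < (t / s'.v (s'.an a) * conj (a * s.c)).re := by
  have hρ := h'.ρp
  have hd := h.dp
  have hd' := h'.dp
  have hQ := h.Qp
  obtain ⟨n1, n2⟩ := h'.y1n ha
  set y := s'.v (s'.an a) with hy
  have y0 : 0 < ‖y‖ := by linarith
  have h1 := (h'.hv (s'.an a) (by rw [h'.an_norm ha]; linarith)).1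
  rw [h'.an_norm ha, ← hy] at h1
  have h2 := re_ge (-(y - (s'.an a - s'.p))) (a * s.c)
  rw [norm_neg, h.kn ha, neg_mul, neg_re, sub_mul, sub_re] at h2
  have h3 : (s'.an a - s'.p) * (a * s.c) = ((s'.ρ / 4 / s'.d : ℝ) : ℂ) * (s.c * s'.c) := by
    have ha' : (a : ℂ) ^ 2 = 1 := by exact_mod_cast ha
    rw [Side.an, add_sub_cancel_left]
    push_cast
    linear_combination (s'.ρ : ℂ) / 4 / s'.d * (s.c * s'.c) * ha'
  rw [h3, re_ofReal_mul] at h2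
  have h4 : s'.ρ / 4 / s'.d * (s.d * s'.d * (7 / 10)) ≤ s'.ρ / 4 / s'.d * -(s.c * s'.c).re :=
    mul_le_mul_of_nonneg_left h.ang (by positivity)
  have h5 : s'.ρ / 4 / s'.d * (s.d * s'.d * (7 / 10)) = s'.ρ * s.d * (7 / 40) := by
    field_simp
    norm_num
  have h6 := mul_le_mul_of_nonneg_right h1 hd.le
  have h7 : s'.ρ * s.d * (1725 / 10000) ≤ -(y * (a * s.c)).re := by nlinarith
  have h8 : (t * conj y * conj (a * s.c)).re
      = ((t + Q) * conj (y * (a * s.c))).re + Q * -(y * (a * s.c)).re := by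
    rw [add_mul, add_re, re_ofReal_mul, conj_re, map_mul (starRingEnd ℂ) y, ← mul_assoc]
    ring
  have h9 := re_ge (t + Q) (conj (y * (a * s.c)))
  rw [Complex.norm_conj, norm_mul y, h.kn ha] at h9
  have h10 : ‖t + Q‖ * (‖y‖ * s.d) ≤ Q / 100 * (s'.ρ * (2525 / 10000) * s.d) := by
    have := h.tQ
    gcongr
  have h11 := mul_le_mul_of_nonneg_left h7 hQ.le
  refine lt_of_mul_lt_mul_right ?_ (pow_pos y0 2).le
  rw [re_div t _ (norm_pos_iff.1 y0), h8]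
  have h12 : s.d * (‖t‖ / (s'.ρ * (44 / 100))) * ‖y‖ ^ 2
      ≤ s.d * (Q * (101 / 100) / (s'.ρ * (44 / 100))) * (s'.ρ * (2525 / 10000)) ^ 2 := by
    have := h.tn.2
    gcongr
  have h13 : s.d * (Q * (101 / 100) / (s'.ρ * (44 / 100))) * (s'.ρ * (2525 / 10000)) ^ 2
      = Q * (s'.ρ * s.d) * (101 / 44 * (2525 / 10000) ^ 2) := by
    field_simp
  have h14 : 0 < Q * (s'.ρ * s.d) := by positivity
  nlinarith

theorem OK.y0n (h : OK s s' t Q) (h' : OK s' s t Q) {a : ℝ} (ha : a ^ 2 = 1) :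
    ‖t / s'.v (s'.an a)‖ ≤ s.ρ * (2525 / 10000) := by
  have hρ := h'.ρp
  have n1 := (h'.y1n ha).1
  have h1 := h.r1
  have h2 := h.r2
  have h3 := (h.r1p h').trans_le h1
  rw [div_le_iff₀ (by positivity)] at h1
  rw [norm_div, div_le_iff₀ (by linarith)]
  nlinarith [mul_pos h3 hρ, h.ρp]

theorem OK.segm (h : OK s s' t Q) (h' : OK s' s t Q) {a : ℝ} (ha : a ^ 2 = 1) :
    ∀ x ∈ Icc (0 : ℝ) 1, t / s'.v (s'.an a) + x * (s.v (s.an a) - t / s'.v (s'.an a))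
      ∈ {y | y ∈ AA s s' t ∧ 0 < (y * conj (a * s.c)).re} := by
  intro x hx
  have g0 := h.geo0 h' ha
  have g1 := h.geo1 ha
  have n0 := h.y0n h' ha
  have n1 := (h.y1n ha).2
  set y0 := t / s'.v (s'.an a)
  set y1 := s.v (s.an a)
  set k := conj (a * s.c) with hk
  have hx0 := hx.1
  have hx1 : 0 ≤ 1 - x := by linarith [hx.2]
  have e : y0 + x * (y1 - y0) = ((1 - x : ℝ) : ℂ) * y0 + x * y1 := by
    push_cast
    ring
  have h1 : s.d * (‖t‖ / (s'.ρ * (44 / 100))) < ((y0 + x * (y1 - y0)) * k).re := by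
    rw [e, add_mul, add_re, mul_assoc, mul_assoc, re_ofReal_mul, re_ofReal_mul]
    rcases le_total (y0 * k).re (y1 * k).re with h2 | h2
    · nlinarith [mul_nonneg hx0 (sub_nonneg.2 h2)]
    · nlinarith [mul_nonneg hx1 (sub_nonneg.2 h2)]
  refine ⟨⟨?_, ?_⟩, (mul_pos h.dp (h.r1p h')).trans h1⟩
  · have h2 := re_le_norm ((y0 + x * (y1 - y0)) * k)
    rw [norm_mul, hk, Complex.norm_conj, h.kn ha, ← hk, mul_comm _ s.d] at h2
    exact lt_of_mul_lt_mul_left (h1.trans_le h2) h.dp.le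
  · rw [e]
    refine (norm_add_le _ _).trans_lt ?_
    rw [norm_mul, norm_mul, Complex.norm_real, Complex.norm_real, Real.norm_eq_abs,
      Real.norm_eq_abs, abs_of_nonneg hx0, abs_of_nonneg hx1]
    nlinarith [mul_le_mul_of_nonneg_left n0 hx1, mul_le_mul_of_nonneg_left n1 hx0, h.ρp]

theorem OK.loop (hA : S_Ann) (h : OK s s' t Q) (h' : OK s' s t Q) {a : ℝ} (ha : a ^ 2 = 1) :
    seg (E2 s Q) (t / s'.v (s'.an a)) (s.v (s.an a))
      + seg s'.E (t / s.v (s.an a)) (s'.v (s'.an a)) = 0 := by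
  obtain ⟨G, hG⟩ := h.ann hA h' (h.hE2 h')
  have g0 := (mul_pos h.dp (h.r1p h')).trans (h.geo0 h' ha)
  have g1 := (mul_pos h.dp (h.r1p h')).trans (h.geo1 ha)
  have s1 := h.segm h' ha
  have s2 := h'.segm h ha
  have m1 := h.ne0 h' (h.vmem h' (h.an_in ha).1 (h.an_in ha).2)
  have m2 := h'.ne0 h (h'.vmem h (h'.an_in ha).1 (h'.an_in ha).2)
  set y1 := s.v (s.an a)
  set y2 := s'.v (s'.an a)
  set k := conj (a * s.c)
  set R := cint 0 (s.ρ / 4) (E2 s Q)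
  have hH : ∀ y ∈ {y | y ∈ AA s s' t ∧ 0 < (y * k).re},
      HasDerivAt (fun w => G w + R * log (w * k)) (E2 s Q y) y := by
    intro y hy
    have h1 : y * k ∈ slitPlane := Or.inl hy.2
    have h2 := slitPlane_ne_zero h1
    have h3 := left_ne_zero_of_mul h2
    have h4 := right_ne_zero_of_mul h2
    refine ((hG y hy.1).add
      ((((hasDerivAt_id y).mul_const k).clog h1).const_mul R)).congr_deriv ?_
    simp only [id]
    field_simp
    ring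
  have e1 := seg_hol s1 ((h.hE2 h').continuousOn.mono fun y hy => hy.1) hH
  have tt0 : t / (t / y1) = y1 := by
    have := h.t0
    field_simp
  have e2 := seg_hol (H := fun w => G (t / w) + R * log (t / w * k)) (f := s'.E)
    (a := t / y1) (b := y2) (S := {y | y ∈ AA s' s t ∧ 0 < (t / y * k).re}) (fun x hx => by
      refine ⟨(s2 x hx).1, ?_⟩
      have n := h'.ne0 h (s2 x hx).1
      have n1 : t / y1 ≠ 0 := div_ne_zero h.t0 m1
      have p1 : 0 < (t * conj (t / y1) * k).re := by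
        rw [← re_div t k n1, tt0]
        exact mul_pos g1 (pow_pos (norm_pos_iff.2 n1) 2)
      have p2 : 0 < (t * conj y2 * k).re := by
        rw [← re_div t k m2]
        exact mul_pos g0 (pow_pos (norm_pos_iff.2 m2) 2)
      refine lt_of_mul_lt_mul_right ?_ (pow_pos (norm_pos_iff.2 n) 2).le
      have e : t * conj (t / y1 + x * (y2 - t / y1)) * k
          = ((1 - x : ℝ) : ℂ) * (t * conj (t / y1) * k) + x * (t * conj y2 * k) := by
        simp only [map_add, map_mul, map_sub, conj_ofReal]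
        push_cast
        ring
      rw [re_div t k n, zero_mul, e, add_re, re_ofReal_mul, re_ofReal_mul]
      have hx0 := hx.1
      have hx1 : 0 ≤ 1 - x := by linarith [hx.2]
      rcases le_total (t * conj (t / y1) * k).re (t * conj y2 * k).re with h2 | h2
      · nlinarith [mul_nonneg hx0 (sub_nonneg.2 h2)]
      · nlinarith [mul_nonneg hx1 (sub_nonneg.2 h2)])
    (h'.hE.continuousOn.mono fun y hy => hy.1) (fun y hy =>
      ((hH (t / y) ⟨h'.swap h hy.1, hy.2⟩).comp y (div_der t (h'.ne0 h hy.1))).congr_deriv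
        (h.rel1 h' hy.1))
  simp only [tt0] at e2
  linear_combination -e1 - e2

theorem OK.Qdiv (h : OK s s' t Q) (h' : OK s' s t Q) {y : ℂ} (hy : y ∈ AA s s' t) :
    Q / ‖y‖ ≤ s'.ρ * (45 / 100) := by
  have h1 := hy.1
  have := h'.ρp
  have h0 := norm_pos_iff.2 (h.ne0 h' hy)
  rw [div_lt_iff₀ (by positivity)] at h1
  rw [div_le_iff₀ h0]
  nlinarith [h.tn.1, mul_pos this h0]

theorem OK.near (h : OK s s' t Q) (h' : OK s' s t Q) {P : ℂ → ℂ} {L : ℝ}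
    (hP : ∀ y ∈ AA s s' t, HasFDerivAt P (wl (s.E y) (E2 s Q y)) y)
    (hL : s.ρ * (44 / 100) ≤ ‖t‖ / (s'.ρ * (44 / 100)) * Real.exp L)
    {y y1 : ℂ} (hy : y ∈ AA s s' t) (hy1 : y1 ∈ AA s s' t) :
    ‖P y - P y1‖ ≤ (s.ρ + s'.ρ) * ((L + 8) / 200 + 1) := by
  have hρ := h.ρp
  have hρ' := h'.ρp
  have r0 := h.r1p h'
  have r2 : 0 < s.ρ * (44 / 100) := by positivity
  have m0 := log_mem r0 hy.1 hy.2
  have m1 := log_mem r0 hy1.1 hy1.2
  have h1 := mvt_log (P := P) (E := s.E) (B := (s.ρ + s'.ρ) / 200) (convex_strip _ _) h.Qp.le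
    (fun w hw => by
      have hm : exp w ∈ AA s s' t := exp_mem r0 r2 hw.1 hw.2
      exact ⟨hP _ hm, (h.bE _ hm).1, by linarith [hm.2, h.Qdiv h' hm]⟩) m1 m0
  rw [exp_log (h.ne0 h' hy), exp_log (h.ne0 h' hy1)] at h1
  have h2 : Real.log (s.ρ * (44 / 100)) ≤ Real.log (‖t‖ / (s'.ρ * (44 / 100))) + L := by
    have h3 := Real.log_le_log r2 hL
    rwa [Real.log_mul r0.ne' (Real.exp_pos L).ne', Real.log_exp] at h3
  have h3 : ‖log y - log y1‖ ≤ L + 8 := by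
    refine (norm_le_abs_re_add_abs_im _).trans (add_le_add ?_ ?_)
    · rw [sub_re, abs_le]
      constructor <;> linarith [m0.1, m0.2, m1.1, m1.2]
    · rw [sub_im, log_im, log_im, abs_le]
      constructor <;> linarith [neg_pi_lt_arg y, arg_le_pi y, neg_pi_lt_arg y1, arg_le_pi y1,
        Real.pi_le_four]
  have h4 := mul_le_mul_of_nonneg_left h3 (show 0 ≤ (s.ρ + s'.ρ) / 200 by positivity)
  have hq : ∀ x ∈ AA s s' t, ‖x + conj (Q / x)‖ ≤ (s.ρ + s'.ρ) / 2 := by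
    intro x hx
    refine (norm_add_le _ _).trans ?_
    rw [Complex.norm_conj, norm_div, Complex.norm_real, Real.norm_eq_abs, abs_of_pos h.Qp]
    linarith [hx.2, h.Qdiv h' hx]
  have e : P y - P y1 = (P y - y - conj (Q / y) - (P y1 - y1 - conj (Q / y1)))
      + ((y + conj (Q / y)) - (y1 + conj (Q / y1))) := by ring
  rw [e]
  refine (norm_add_le _ _).trans ?_
  have h5 := norm_sub_le (y + conj (Q / y)) (y1 + conj (Q / y1))
  linarith [hq y hy, hq y1 hy1]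

theorem OK.main (hA : S_Ann) (h : OK s s' t Q) (h' : OK s' s t Q) {C : ℂ} {L : ℝ}
    (hc : (cn s s' t 1 + cn s s' t (-1)) / 2 = C)
    (hc' : (cn s' s t 1 + cn s' s t (-1)) / 2 = -conj C)
    (hL : s.ρ * (44 / 100) ≤ ‖t‖ / (s'.ρ * (44 / 100)) * Real.exp L) :
    ∃ P : ℂ → ℂ, (∀ y ∈ AA s s' t, HasFDerivAt P (wl (s.E y) (E2 s Q y)) y ∧
      ‖P y - C‖ ≤ (s.ρ + s'.ρ) * ((L + 8) / 200 + 2) ∧
      ∀ y', ‖y'‖ = ‖y‖ → P y' = P y → y' = y) ∧
    (∀ z, 2 * s.ρ1 < ‖z - s.p‖ → ‖z - s.p‖ < s.ρ * (42 / 100) → P (s.v z) = s.Z z) ∧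
    ∀ z, 2 * s'.ρ1 < ‖z - s'.p‖ → ‖z - s'.p‖ < s'.ρ * (42 / 100) →
      -conj (P (t / s'.v z)) = s'.Z z := by
  obtain ⟨P0, hP0⟩ := h.exP hA h'
  obtain ⟨D, hD⟩ := h.side h' hP0
  set P : ℂ → ℂ := fun y => P0 y - D with hPd
  have hP : ∀ y ∈ AA s s' t, HasFDerivAt P (wl (s.E y) (E2 s Q y)) y :=
    fun y hy => (hP0 y hy).sub_const D
  have hZ : ∀ z, 2 * s.ρ1 < ‖z - s.p‖ → ‖z - s.p‖ < s.ρ * (42 / 100) → P (s.v z) = s.Z z :=
    fun z h1 h2 => by simp only [hPd, hD z h1 h2, add_sub_cancel_right]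
  clear_value P
  obtain ⟨D', hD'⟩ := h'.side h (h.other h' hP)
  have key : ∀ a : ℝ, a ^ 2 = 1 → D' = -conj (cn s s' t a) - cn s' s t a := by
    intro a ha
    have e1 := seg_ftc (h.segm h' ha) (h.hE.continuousOn.mono fun y hy => hy.1)
      ((h.hE2 h').continuousOn.mono fun y hy => hy.1) fun y hy => hP y hy.1
    have e2 := h.loop hA h' ha
    have e3 := hD' _ (h'.an_in ha).1 (h'.an_in ha).2
    rw [hZ _ (h.an_in ha).1 (h.an_in ha).2] at e1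
    have e4 := congrArg conj e1
    simp only [map_sub, conj_conj] at e4
    simp only [cn, map_sub]
    linear_combination -e3 + e4 - e2
  have hD0 : D' = 0 := by
    have e := congrArg conj hc
    simp only [map_div₀, map_add, map_ofNat] at e
    linear_combination (key 1 (by norm_num)) / 2 + (key (-1) (by norm_num)) / 2 - e - hc'
  refine ⟨P, fun y hy => ⟨hP y hy, ?_, fun y' h1 h2 => ?_⟩, hZ, fun z h1 h2 => ?_⟩
  · have hb : ∀ a : ℝ, a ^ 2 = 1 →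
        ‖P y - cn s s' t a‖ ≤ (s.ρ + s'.ρ) * ((L + 8) / 200 + 2) := by
      intro a ha
      have e1 := h.near h' hP hL hy (h.vmem h' (h.an_in ha).1 (h.an_in ha).2)
      have e2 := norm_seg_le (f := s.E) (h.segm h' ha) fun y hy => (h.En hy.1).2
      have e3 := norm_sub_le (s.v (s.an a)) (t / s'.v (s'.an a))
      have e4 := h.y0n h' ha
      have e5 := (h.y1n ha).2
      rw [hZ _ (h.an_in ha).1 (h.an_in ha).2] at e1
      rw [cn, ← sub_add]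
      refine (norm_add_le _ _).trans ?_
      linarith [h.ρp, h'.ρp]
    have e : P y - C = ((P y - cn s s' t 1) + (P y - cn s s' t (-1))) / 2 := by
      rw [← hc]
      ring
    rw [e, norm_div, Complex.norm_two]
    linarith [norm_add_le (P y - cn s s' t 1) (P y - cn s s' t (-1)), hb 1 (by norm_num),
      hb (-1) (by norm_num)]
  · refine circ_inj (E := s.E) h.Qp.le (h.ne0 h' hy) h1 (fun x hx => ?_) h2
    have hm : x ∈ AA s s' t := ⟨hx ▸ hy.1, hx ▸ hy.2⟩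
    exact ⟨hP x hm, (h.bE x hm).1⟩
  · rw [hD' z h1 h2, hD0, add_zero]

end Pool.Agent.P.MP_cc4a10_gt.NeckP
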