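import Mathlib

/-!
Complex ball arithmetic in fixed point, evaluated strictly, with soundness proofs.
-/

open Complex

noncomputable section

namespace Pool.Agent.P.MP_cc4a10_gt.NumAP

structure B where
  re : ℤ
  im : ℤ
  r : ℕ

def fN (n : ℕ) (k : ℕ → Bool) : Bool := Nat.rec (k 0) (fun m _ => k (Nat.succ m)) n
def fI (n : ℤ) (k : ℤ → Bool) : Bool :=
  Int.rec (fun m => fN m fun a => k (Int.ofNat a)) (fun m => fN m fun a => k (Int.negSucc a)) n
def fB (x : B) (k : B → Bool) : Bool :=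
  fI x.re fun a => fI x.im fun b => fN x.r fun r => k ⟨a, b, r⟩

theorem fN_eq (n : ℕ) (k : ℕ → Bool) : fN n k = k n := by cases n <;> rfl
theorem fI_eq (n : ℤ) (k : ℤ → Bool) : fI n k = k n := by
  cases n <;> simp only [fI, fN_eq]
theorem fB_eq (x : B) (k : B → Bool) : fB x k = k x := by simp only [fB, fI_eq, fN_eq]

def S : ℕ := 1099511627776
def SI : ℤ := Int.ofNat 1099511627776
def S2 : ℕ := 1208925819614629174706176

def nr (a b : ℕ) : ℕ :=
  Nat.succ (Nat.shiftRight (Nat.add (Nat.succ (Nat.add a b))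
    (Nat.div (Nat.add (Nat.mul a a) (Nat.mul b b)) (Nat.succ (Nat.add a b)))) 1)
def nrm (x : B) : ℕ := nr x.re.natAbs x.im.natAbs
def mul (x y : B) : B :=
  ⟨Int.shiftRight (Int.sub (Int.mul x.re y.re) (Int.mul x.im y.im)) 40,
   Int.shiftRight (Int.add (Int.mul x.re y.im) (Int.mul x.im y.re)) 40,
   Nat.add (Nat.shiftRight
    (Nat.add (Nat.mul (nrm x) y.r) (Nat.mul (Nat.add (nrm y) y.r) x.r)) 40) 3⟩
def mulR (a : ℤ) (r : ℕ) (y : B) : B :=
  ⟨Int.shiftRight (Int.mul a y.re) 40, Int.shiftRight (Int.mul a y.im) 40,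
   Nat.add (Nat.shiftRight
    (Nat.add (Nat.mul a.natAbs y.r) (Nat.mul (Nat.add (nrm y) y.r) r)) 40) 3⟩
def add (x y : B) : B := ⟨Int.add x.re y.re, Int.add x.im y.im, Nat.add x.r y.r⟩
def sub (x y : B) : B := ⟨Int.sub x.re y.re, Int.sub x.im y.im, Nat.add x.r y.r⟩
def addR (a : ℤ) (r : ℕ) (y : B) : B := ⟨Int.add a y.re, y.im, Nat.add r y.r⟩
def subR (a : ℤ) (r : ℕ) (y : B) : B := ⟨Int.sub a y.re, Int.neg y.im, Nat.add r y.r⟩
def rot (x : B) : B := ⟨Int.neg x.im, x.re, x.r⟩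
def sqh (a : ℤ) (r : ℕ) : B :=
  mulR (Int.shiftRight a 1) (Nat.add (Nat.shiftRight r 1) 2) ⟨a, Int.ofNat 0, r⟩
def n2 (x : B) : ℕ :=
  Nat.add (Nat.mul x.re.natAbs x.re.natAbs) (Nat.mul x.im.natAbs x.im.natAbs)
def inv (x : B) (k : B → Bool) : Bool :=
  fN (Nat.sub (n2 x) (Nat.mul x.r x.r)) fun D => Nat.blt 0 D &&
  fB ⟨Int.ediv (Int.mul x.re (Int.ofNat S2)) (Int.ofNat D),
      Int.ediv (Int.mul (Int.neg x.im) (Int.ofNat S2)) (Int.ofNat D),
      Nat.add (Nat.div (Nat.mul x.r S2) D) 3⟩ k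
def nw (n s : ℕ) : ℕ := Nat.shiftRight (Nat.add s (Nat.div n s)) 1
def isq (n : ℕ) (k : ℕ → Bool) : Bool :=
  fN (Nat.shiftLeft 1 (Nat.shiftRight (Nat.succ (Nat.log2 n)) 1)) fun s =>
  fN (nw n s) fun s => fN (nw n s) fun s => fN (nw n s) k
def sq2 (x : B) (t : ℕ) (u : ℤ) (k : B → Bool) : Bool :=
  fN (Nat.add (Nat.add
    (Int.sub (Int.mul x.re SI) (Int.sub (Int.ofNat (Nat.mul t t)) (Int.mul u u))).natAbs
    (Int.sub (Int.mul x.im SI) (Int.mul (Int.ofNat (Nat.mul 2 t)) u)).natAbs) (Nat.mul x.r S))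
    fun d => fN (Nat.sub (Nat.mul 2 t) (Nat.succ (Nat.div d t))) fun g => Nat.blt 0 g &&
  fN (Nat.succ (Nat.div d g)) fun e => k ⟨Int.ofNat t, u, e⟩
def sqr (x : B) (k : B → Bool) : Bool :=
  fN x.re.toNat fun a => Nat.blt 0 a &&
  fN (Nat.mul (Nat.add a (Nat.div (Nat.mul x.im.natAbs x.im.natAbs) (Nat.mul 4 a))) S) fun n =>
  isq n fun t => fI (Int.ediv (Int.mul x.im SI) (Int.ofNat (Nat.mul 2 t))) fun u => sq2 x t u k

def ex (cx cy : ℤ) (ρ : ℕ) (k : B → Bool) : Bool :=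
  Nat.ble cx.natAbs 3628388371660 && Nat.ble cy.natAbs 3628388371660 &&
  fB ⟨Int.shiftRight cx 3, Int.shiftRight cy 3, 2⟩ fun w =>
  fB (addR 45812984491 1 (mulR 9162596898 1 w)) fun t =>
  fB (addR 183251937963 1 (mul t w)) fun t =>
  fB (addR 549755813888 0 (mul t w)) fun t =>
  fB (addR SI 0 (mul t w)) fun t =>
  fB (addR SI 84000000 (mul t w)) fun t =>
  fB (mul t t) fun t => fB (mul t t) fun t => fB (mul t t) fun t =>
  fB (mulR SI (Nat.add ρ (Nat.succ (Nat.shiftRight (Nat.mul ρ ρ) 40))) t) k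

/-- The scale. -/
def s : ℝ := 1099511627776
def B.c (x : B) : ℂ := ⟨x.re, x.im⟩
def B.Mem (x : B) (z : ℂ) : Prop := ‖(s : ℂ) * z - x.c‖ ≤ x.r
/-- Real centre. -/
def MemR (a : ℤ) (r : ℕ) (z : ℂ) : Prop := ‖(s : ℂ) * z - (a : ℂ)‖ ≤ r

theorem s_pos : 0 < s := by norm_num [s]

theorem memR_iff (a : ℤ) (r : ℕ) (z : ℂ) : MemR a r z ↔ B.Mem ⟨a, 0, r⟩ z := by
  have : (B.c ⟨a, 0, r⟩) = (a : ℂ) := by apply Complex.ext <;> simp [B.c]
  rw [B.Mem, this, MemR]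

theorem memR_real {a : ℤ} {r : ℕ} {t : ℝ} (h : |s * t - a| ≤ r) : MemR a r (t : ℂ) := by
  rw [MemR, show (s : ℂ) * t - (a : ℂ) = ((s * t - a : ℝ) : ℂ) by push_cast; ring, norm_real]
  exact h

theorem ndiv_le (n d : ℕ) (hd : 0 < d) : (n : ℝ) / d ≤ (Nat.div n d : ℕ) + 1 := by
  have h : n < d * (n / d + 1) := Nat.lt_mul_div_succ n hd
  have h' : (n : ℝ) < d * ((n / d : ℕ) + 1) := by exact_mod_cast h
  rw [div_le_iff₀ (by exact_mod_cast hd)]
  change _ ≤ (((n / d : ℕ) : ℝ) + 1) * d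
  linarith

theorem nsh_le (n k : ℕ) : (n : ℝ) / 2 ^ k ≤ (Nat.shiftRight n k : ℕ) + 1 := by
  have := ndiv_le n (2 ^ k) (by positivity)
  have e : Nat.shiftRight n k = Nat.div n (2 ^ k) := Nat.shiftRight_eq_div_pow n k
  rw [e]
  simpa using this

theorem idiv_err (n : ℤ) (d : ℕ) (hd : 0 < d) :
    |(n : ℝ) / d - (Int.ediv n (Int.ofNat d) : ℤ)| ≤ 1 := by
  have hd' : (0 : ℤ) < d := by exact_mod_cast hd
  have h1 : n / (d : ℤ) * d ≤ n := Int.ediv_mul_le n hd'.ne'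
  have h2 : n < (n / (d : ℤ) + 1) * d := Int.lt_ediv_add_one_mul_self n hd'
  have h1' : ((n / (d : ℤ) : ℤ) : ℝ) * d ≤ n := by exact_mod_cast h1
  have h2' : (n : ℝ) < (((n / (d : ℤ) : ℤ) : ℝ) + 1) * d := by exact_mod_cast h2
  have hp : (0 : ℝ) < d := by exact_mod_cast hd
  change |(n : ℝ) / d - ((n / (d : ℤ) : ℤ) : ℝ)| ≤ 1
  rw [← le_div_iff₀ hp] at h1'
  rw [← div_lt_iff₀ hp] at h2'
  rw [abs_le]
  constructor <;> linarith

theorem ish_err (n : ℤ) (k : ℕ) : |(n : ℝ) / 2 ^ k - (Int.shiftRight n k : ℤ)| ≤ 1 := by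
  have := idiv_err n (2 ^ k) (by positivity)
  have e : Int.shiftRight n k = Int.ediv n (Int.ofNat (2 ^ k)) := Int.shiftRight_eq_div_pow n k
  rw [e]
  simpa using this

theorem norm_le_two {z : ℂ} {a b : ℤ} (h1 : |z.re - a| ≤ 1) (h2 : |z.im - b| ≤ 1) (r : ℕ) :
    ‖z - B.c ⟨a, b, r⟩‖ ≤ 2 := by
  have := norm_le_abs_re_add_abs_im (z - B.c ⟨a, b, r⟩)
  simp only [B.c, sub_re, sub_im] at this ⊢
  linarith

theorem n2_eq (x : B) : (n2 x : ℝ) = ‖x.c‖ ^ 2 := by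
  rw [Complex.sq_norm, normSq_apply]
  change ((x.re.natAbs * x.re.natAbs + x.im.natAbs * x.im.natAbs : ℕ) : ℝ) = _
  push_cast
  simp [B.c, Nat.cast_natAbs]

theorem nrm_le (x : B) : ‖x.c‖ ≤ nrm x := by
  set a := x.re.natAbs
  set b := x.im.natAbs
  have h1 := ndiv_le (n2 x) (a + b + 1) (by omega)
  have h2 : 2 * nrm x ≥ (a + b + 1) + Nat.div (n2 x) (a + b + 1) + 1 := by
    change 2 * (((a + b + 1) + Nat.div (n2 x) (a + b + 1)) >>> 1 + 1) ≥ _
    rw [Nat.shiftRight_eq_div_pow]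
    omega
  have h3 : ((a + b + 1 : ℕ) : ℝ) + (Nat.div (n2 x) (a + b + 1) : ℕ) + 1 ≤ 2 * nrm x := by
    exact_mod_cast h2
  have hp : (0 : ℝ) < ((a + b + 1 : ℕ) : ℝ) := by positivity
  rw [n2_eq] at h1
  have h4 : 2 * ‖x.c‖ ≤ ((a + b + 1 : ℕ) : ℝ) + ‖x.c‖ ^ 2 / ((a + b + 1 : ℕ) : ℝ) := by
    rw [← sub_le_iff_le_add', le_div_iff₀ hp]
    nlinarith [sq_nonneg (‖x.c‖ - ((a + b + 1 : ℕ) : ℝ))]
  linarith

theorem mul_core {c d z w e : ℂ} {r t : ℕ} {m n : ℕ} (hz : ‖(s : ℂ) * z - c‖ ≤ r)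
    (hw : ‖(s : ℂ) * w - d‖ ≤ t) (hm : ‖c‖ ≤ m) (hn : ‖d‖ ≤ n) (he : ‖c * d / s - e‖ ≤ 2) :
    ‖(s : ℂ) * (z * w) - e‖ ≤
      (Nat.add (Nat.shiftRight (Nat.add (Nat.mul m t) (Nat.mul (Nat.add n t) r)) 40) 3 : ℕ) := by
  have hs : (s : ℂ) ≠ 0 := by exact_mod_cast s_pos.ne'
  have e1 : (s : ℂ) * (z * w) - e = (c * (s * w - d) + (d + (s * w - d)) * (s * z - c)) / s
      + (c * d / s - e) := by field_simp; ring
  have h1 : ‖c * (s * w - d) + (d + (s * w - d)) * (s * z - c)‖ ≤ m * t + (n + t) * r := by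
    refine (norm_add_le _ _).trans ?_
    rw [norm_mul, norm_mul]
    have := norm_add_le d (s * w - d)
    gcongr
    linarith
  have h2 := nsh_le (Nat.add (Nat.mul m t) (Nat.mul (Nat.add n t) r)) 40
  have h3 : ((Nat.add (Nat.mul m t) (Nat.mul (Nat.add n t) r) : ℕ) : ℝ) = m * t + (n + t) * r := by
    change ((m * t + (n + t) * r : ℕ) : ℝ) = _
    push_cast
    ring
  rw [h3, show (2 : ℝ) ^ 40 = s by norm_num [s]] at h2
  rw [e1]
  refine (norm_add_le _ _).trans ?_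
  rw [norm_div, norm_real, Real.norm_of_nonneg s_pos.le]
  have h4 := div_le_div_of_nonneg_right h1 s_pos.le
  change _ ≤ ((_ + 3 : ℕ) : ℝ)
  push_cast
  linarith

theorem mul_ok {x y : B} {z w : ℂ} (hz : x.Mem z) (hw : y.Mem w) : (mul x y).Mem (z * w) := by
  refine mul_core hz hw (nrm_le x) (nrm_le y) (norm_le_two ?_ ?_ _)
  · convert ish_err (Int.sub (Int.mul x.re y.re) (Int.mul x.im y.im)) 40 using 3
    rw [div_ofReal_re, show (2 : ℝ) ^ 40 = s by norm_num [s]]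
    change _ = ((x.re * y.re - x.im * y.im : ℤ) : ℝ) / s
    simp [B.c]
  · convert ish_err (Int.add (Int.mul x.re y.im) (Int.mul x.im y.re)) 40 using 3
    rw [div_ofReal_im, show (2 : ℝ) ^ 40 = s by norm_num [s]]
    change _ = ((x.re * y.im + x.im * y.re : ℤ) : ℝ) / s
    simp [B.c]

theorem mulR_ok {a : ℤ} {r : ℕ} {y : B} {z w : ℂ} (hz : MemR a r z) (hw : y.Mem w) :
    (mulR a r y).Mem (z * w) := by
  refine mul_core hz hw (by simp [Nat.cast_natAbs]) (nrm_le y) (norm_le_two ?_ ?_ _)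
  · convert ish_err (Int.mul a y.re) 40 using 3
    rw [div_ofReal_re, show (2 : ℝ) ^ 40 = s by norm_num [s]]
    change _ = ((a * y.re : ℤ) : ℝ) / s
    simp [B.c]
  · convert ish_err (Int.mul a y.im) 40 using 3
    rw [div_ofReal_im, show (2 : ℝ) ^ 40 = s by norm_num [s]]
    change _ = ((a * y.im : ℤ) : ℝ) / s
    simp [B.c]

theorem add_ok {x y : B} {z w : ℂ} (hz : x.Mem z) (hw : y.Mem w) : (add x y).Mem (z + w) := by
  have e : (s : ℂ) * (z + w) - (add x y).c = (s * z - x.c) + (s * w - y.c) := by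
    have : (add x y).c = x.c + y.c := by
      apply Complex.ext
      · change ((x.re + y.re : ℤ) : ℝ) = _
        simp [B.c]
      · change ((x.im + y.im : ℤ) : ℝ) = _
        simp [B.c]
    rw [this]; ring
  rw [B.Mem, e]
  change _ ≤ ((x.r + y.r : ℕ) : ℝ)
  push_cast
  exact (norm_add_le _ _).trans (add_le_add hz hw)

theorem sub_ok {x y : B} {z w : ℂ} (hz : x.Mem z) (hw : y.Mem w) : (sub x y).Mem (z - w) := by
  have e : (s : ℂ) * (z - w) - (sub x y).c = (s * z - x.c) - (s * w - y.c) := by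
    have : (sub x y).c = x.c - y.c := by
      apply Complex.ext
      · change ((x.re - y.re : ℤ) : ℝ) = _
        simp [B.c]
      · change ((x.im - y.im : ℤ) : ℝ) = _
        simp [B.c]
    rw [this]; ring
  rw [B.Mem, e]
  change _ ≤ ((x.r + y.r : ℕ) : ℝ)
  push_cast
  exact (norm_sub_le _ _).trans (add_le_add hz hw)

theorem addR_ok {a : ℤ} {r : ℕ} {y : B} {z w : ℂ} (hz : MemR a r z) (hw : y.Mem w) :
    (addR a r y).Mem (z + w) := by
  have := add_ok ((memR_iff _ _ _).1 hz) hw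
  have e : Int.add 0 y.im = y.im := zero_add y.im
  simpa only [add, addR, e] using this

theorem subR_ok {a : ℤ} {r : ℕ} {y : B} {z w : ℂ} (hz : MemR a r z) (hw : y.Mem w) :
    (subR a r y).Mem (z - w) := by
  have := sub_ok ((memR_iff _ _ _).1 hz) hw
  have e : Int.sub 0 y.im = Int.neg y.im := zero_sub y.im
  simpa only [sub, subR, e] using this

theorem RaddR {a b : ℤ} {r t : ℕ} {z w : ℂ} (hz : MemR a r z) (hw : MemR b t w) :
    MemR (Int.add a b) (Nat.add r t) (z + w) :=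
  (memR_iff _ _ _).2 (addR_ok hz ((memR_iff _ _ _).1 hw))

theorem RsubR {a b : ℤ} {r t : ℕ} {z w : ℂ} (hz : MemR a r z) (hw : MemR b t w) :
    MemR (Int.sub a b) (Nat.add r t) (z - w) :=
  (memR_iff _ _ _).2 (subR_ok hz ((memR_iff _ _ _).1 hw))

theorem rot_ok {x : B} {z : ℂ} (hz : x.Mem z) : (rot x).Mem (I * z) := by
  have e : (s : ℂ) * (I * z) - (rot x).c = I * (s * z - x.c) := by
    have : (rot x).c = I * x.c := by
      apply Complex.ext
      · change ((-x.im : ℤ) : ℝ) = _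
        simp [B.c]
      · simp [B.c, rot]
    rw [this]; ring
  rw [B.Mem, e, norm_mul, norm_I, one_mul]
  exact hz

theorem sqh_ok {a : ℤ} {r : ℕ} {z : ℂ} (hz : MemR a r z) : (sqh a r).Mem (z / 2 * z) := by
  refine mulR_ok ?_ ((memR_iff _ _ _).1 hz)
  have h1 := ish_err a 1
  have h2 := nsh_le r 1
  have e : (s : ℂ) * (z / 2) - (Int.shiftRight a 1 : ℤ) =
      (s * z - a) / 2 + (((a : ℝ) / 2 ^ 1 - (Int.shiftRight a 1 : ℤ) : ℝ) : ℂ) := by
    push_cast; ring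
  rw [MemR, e]
  refine (norm_add_le _ _).trans ?_
  rw [norm_real, norm_div, Real.norm_eq_abs]
  change _ ≤ ((_ + 2 : ℕ) : ℝ)
  rw [MemR] at hz
  push_cast at h2 ⊢
  rw [Complex.norm_two]
  linarith

theorem inv_ok {x : B} {z : ℂ} {k : B → Bool} (hz : x.Mem z) (h : inv x k = true) :
    z ≠ 0 ∧ ∃ y : B, y.Mem z⁻¹ ∧ k y = true := by
  simp only [inv, fN_eq, fB_eq, Bool.and_eq_true, Nat.blt_eq] at h
  obtain ⟨hD, hk⟩ := h
  set D := Nat.sub (n2 x) (Nat.mul x.r x.r) with hDdef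
  have hDp : (0 : ℝ) < D := by exact_mod_cast hD
  have hDe : (D : ℝ) = ‖x.c‖ ^ 2 - (x.r : ℝ) ^ 2 := by
    have : D + x.r * x.r = n2 x := by
      change n2 x - x.r * x.r + _ = _
      change 0 < n2 x - x.r * x.r at hD
      omega
    rw [← n2_eq, ← this]
    push_cast
    ring
  have hs : (s : ℂ) ≠ 0 := by exact_mod_cast s_pos.ne'
  obtain ⟨w, hw⟩ : ∃ w, (s : ℂ) * z = x.c + w := ⟨s * z - x.c, by ring⟩
  rw [B.Mem, hw, add_sub_cancel_left] at hz
  have hr : (0 : ℝ) ≤ x.r := by positivity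
  have hlt : (x.r : ℝ) < ‖x.c‖ := by
    by_contra hc
    have := pow_le_pow_left₀ (norm_nonneg _) (not_lt.1 hc) 2
    linarith
  have hz0 : x.c + w ≠ 0 := by
    intro h0
    have : x.c = -w := eq_neg_of_add_eq_zero_left h0
    rw [this, norm_neg] at hlt
    linarith
  have hz1 : z ≠ 0 := by
    rintro rfl
    exact hz0 (by rw [← hw, mul_zero])
  refine ⟨hz1, _, ?_, hk⟩
  have hD0 : (D : ℂ) ≠ 0 := by exact_mod_cast hD.ne'
  have key : ‖(D : ℂ) - (starRingEnd ℂ) x.c * (x.c + w)‖ ≤ x.r * ‖x.c + w‖ := by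
    have hw2 : ‖w‖ ^ 2 ≤ (x.r : ℝ) ^ 2 := pow_le_pow_left₀ (norm_nonneg _) hz 2
    apply le_of_sq_le_sq _ (by positivity) |>.trans le_rfl
    rw [mul_pow, Complex.sq_norm, Complex.sq_norm, normSq_apply, normSq_apply]
    rw [Complex.sq_norm, normSq_apply] at hDe hw2
    simp only [sub_re, sub_im, mul_re, mul_im, add_re, add_im, conj_re, conj_im, natCast_re,
      natCast_im]
    have := mul_nonneg (sub_nonneg.2 hw2) hDp.le
    rw [hDe] at this ⊢
    nlinarith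
  have hS2 : ((S2 : ℕ) : ℝ) = s ^ 2 := by norm_num [S2, s]
  have e : (s : ℂ) * z⁻¹ = (s : ℂ) ^ 2 / D *
      ((D - (starRingEnd ℂ) x.c * (x.c + w)) / (x.c + w)) + (starRingEnd ℂ) x.c * s ^ 2 / D := by
    have : z = (x.c + w) / s := by rw [← hw]; field_simp
    rw [this]
    field_simp
    ring
  have h1 : ‖(s : ℂ) ^ 2 / D * ((D - (starRingEnd ℂ) x.c * (x.c + w)) / (x.c + w))‖
      ≤ x.r * s ^ 2 / D := by
    rw [norm_mul, norm_div, norm_div, norm_pow, norm_real, Real.norm_of_nonneg s_pos.le,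
      norm_natCast]
    have := (div_le_iff₀ (norm_pos_iff.2 hz0)).2 key
    calc _ ≤ s ^ 2 / D * x.r := by gcongr
      _ = _ := by ring
  have h2 := ndiv_le (Nat.mul x.r S2) D hD
  have h3 : ((Nat.mul x.r S2 : ℕ) : ℝ) = x.r * s ^ 2 := by
    rw [← hS2]; exact Nat.cast_mul _ _
  rw [h3] at h2
  rw [B.Mem, e, add_sub_assoc]
  refine (norm_add_le _ _).trans ?_
  have h4 : ‖(starRingEnd ℂ) x.c * s ^ 2 / D - B.c
      ⟨Int.ediv (Int.mul x.re (Int.ofNat S2)) (Int.ofNat D),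
      Int.ediv (Int.mul (Int.neg x.im) (Int.ofNat S2)) (Int.ofNat D),
      Nat.add (Nat.div (Nat.mul x.r S2) D) 3⟩‖ ≤ 2 := by
    refine norm_le_two ?_ ?_ _
    · convert idiv_err (Int.mul x.re (Int.ofNat S2)) D hD using 3
      rw [div_natCast_re]
      change _ = ((x.re * (S2 : ℕ) : ℤ) : ℝ) / D
      push_cast
      rw [hS2, ← ofReal_pow, mul_comm, re_ofReal_mul]
      simp [B.c, mul_comm]
    · convert idiv_err (Int.mul (Int.neg x.im) (Int.ofNat S2)) D hD using 3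
      rw [div_natCast_im]
      change _ = ((-x.im * (S2 : ℕ) : ℤ) : ℝ) / D
      push_cast
      rw [hS2, ← ofReal_pow, mul_comm, im_ofReal_mul]
      simp [B.c, mul_comm]
  change _ ≤ ((_ + 3 : ℕ) : ℝ)
  push_cast
  linarith

theorem sq2_ok {x : B} {t : ℕ} {u : ℤ} {z : ℂ} {k : B → Bool} (hz : x.Mem (z ^ 2))
    (hp : 0 < z.re) (h : sq2 x t u k = true) : ∃ y : B, y.Mem z ∧ k y = true := by
  simp only [sq2, fN_eq, Bool.and_eq_true, Nat.blt_eq] at h
  obtain ⟨hg, hk⟩ := h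
  refine ⟨_, ?_, hk⟩
  set d := Nat.add (Nat.add
    (Int.sub (Int.mul x.re SI) (Int.sub (Int.ofNat (Nat.mul t t)) (Int.mul u u))).natAbs
    (Int.sub (Int.mul x.im SI) (Int.mul (Int.ofNat (Nat.mul 2 t)) u)).natAbs) (Nat.mul x.r S)
    with hd
  set g := Nat.sub (Nat.mul 2 t) (Nat.succ (Nat.div d t)) with hgd
  have hg1 : g + (Nat.div d t + 1) = 2 * t := by
    change 2 * t - (Nat.div d t + 1) + _ = _
    change 0 < 2 * t - (Nat.div d t + 1) at hg
    omega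
  have ht : 0 < t := by omega
  have hg2 : (g : ℝ) + ((Nat.div d t : ℕ) + 1) = 2 * t := by exact_mod_cast hg1
  set σ : ℂ := ⟨t, u⟩ with hσ
  have hdr : (d : ℝ) = |x.re * s - (t * t - u * u)| + |x.im * s - 2 * t * u| + x.r * s := by
    change ((((x.re * 1099511627776 - ((t * t : ℕ) - u * u) : ℤ)).natAbs
      + ((x.im * 1099511627776 - (2 * t : ℕ) * u : ℤ)).natAbs + x.r * 1099511627776 : ℕ) : ℝ) = _
    push_cast [Nat.cast_natAbs]
    rfl
  have h1 : ‖(s * z - σ) * (s * z + σ)‖ ≤ d := by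
    have e : ((s : ℂ) * z - σ) * (s * z + σ) = (s * x.c - σ ^ 2) + s * (s * z ^ 2 - x.c) := by ring
    rw [e, hdr]
    refine (norm_add_le _ _).trans (add_le_add ?_ ?_)
    · refine (norm_le_abs_re_add_abs_im _).trans (le_of_eq ?_)
      congr 2
      · simp [hσ, B.c, pow_two, mul_comm]
      · simp [hσ, B.c, pow_two]
        ring
    · rw [norm_mul, norm_real, Real.norm_of_nonneg s_pos.le, mul_comm]
      exact mul_le_mul_of_nonneg_right hz s_pos.le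
  rw [norm_mul] at h1
  have htr : (0 : ℝ) < t := by exact_mod_cast ht
  have hgr : (0 : ℝ) < g := by exact_mod_cast hg
  have h2 : (t : ℝ) ≤ ‖s * z + σ‖ := by
    refine le_trans ?_ (re_le_norm _)
    have := mul_pos s_pos hp
    simp only [add_re, re_ofReal_mul, hσ]
    linarith
  have h3 : ‖s * z - σ‖ ≤ d / t := by
    rw [le_div_iff₀ htr]
    exact (mul_le_mul_of_nonneg_left h2 (norm_nonneg _)).trans h1
  have h4 : (g : ℝ) ≤ ‖s * z + σ‖ := by
    have a1 := ndiv_le d t ht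
    have a2 : ‖2 * σ‖ ≤ ‖s * z + σ‖ + ‖s * z - σ‖ := by
      rw [show 2 * σ = (s * z + σ) - (s * z - σ) by ring]
      exact norm_sub_le _ _
    have a3 : 2 * (t : ℝ) ≤ ‖2 * σ‖ := by
      refine le_trans ?_ (re_le_norm _)
      simp [hσ]
    linarith
  have h5 : ‖s * z - σ‖ ≤ d / g := by
    rw [le_div_iff₀ hgr]
    exact (mul_le_mul_of_nonneg_left h4 (norm_nonneg _)).trans h1
  have h6 := ndiv_le d g hg
  change ‖s * z - σ‖ ≤ ((Nat.div d g + 1 : ℕ) : ℝ)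
  push_cast
  linarith

theorem sqr_ok {x : B} {z : ℂ} {k : B → Bool} (hz : x.Mem (z ^ 2))
    (hp : 0 < z.re) (h : sqr x k = true) : ∃ y : B, y.Mem z ∧ k y = true := by
  simp only [sqr, isq, fN_eq, fI_eq, Bool.and_eq_true] at h
  exact sq2_ok hz hp h.2

theorem memR_one {r : ℕ} {z : ℂ} (h : s * ‖z - 1‖ ≤ r) : MemR SI r z := by
  have : (s : ℂ) * z - (SI : ℤ) = s * (z - 1) := by
    change _ - (((1099511627776 : ℕ) : ℤ) : ℂ) = _
    simp only [s]
    push_cast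
    ring
  rwa [MemR, this, norm_mul, norm_real, Real.norm_of_nonneg s_pos.le]

theorem ex_ok {cx cy : ℤ} {ρ : ℕ} {z : ℂ} {k : B → Bool} (hz : B.Mem ⟨cx, cy, ρ⟩ z)
    (hρ : (ρ : ℝ) ≤ s) (h : ex cx cy ρ k = true) : ∃ y : B, y.Mem (exp z) ∧ k y = true := by
  simp only [ex, fB_eq, Bool.and_eq_true, Nat.ble_eq] at h
  obtain ⟨⟨hx, hy⟩, hk⟩ := h
  refine ⟨_, ?_, hk⟩
  have hs : (s : ℂ) ≠ 0 := by exact_mod_cast s_pos.ne'
  set c : ℂ := B.c ⟨cx, cy, ρ⟩ with hc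
  set w : ℂ := c / s / 8 with hw
  have hW : B.Mem ⟨Int.shiftRight cx 3, Int.shiftRight cy 3, 2⟩ w := by
    rw [B.Mem, show (s : ℂ) * w = c / (8 : ℝ) by rw [hw]; push_cast; field_simp]
    refine norm_le_two ?_ ?_ _
    · convert ish_err cx 3 using 3
      rw [div_ofReal_re]
      norm_num [hc, B.c]
    · convert ish_err cy 3 using 3
      rw [div_ofReal_im]
      norm_num [hc, B.c]
  have hn : ‖w‖ ≤ 6 / 10 := by
    have a1 : |(cx : ℝ)| ≤ 3628388371660 := by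
      rw [← Int.cast_abs, ← Nat.cast_natAbs]; exact_mod_cast hx
    have a2 : |(cy : ℝ)| ≤ 3628388371660 := by
      rw [← Int.cast_abs, ← Nat.cast_natAbs]; exact_mod_cast hy
    have a3 : ‖c‖ ≤ 48 / 10 * s := by
      apply le_of_sq_le_sq _ (by norm_num [s]) |>.trans le_rfl
      rw [Complex.sq_norm, normSq_apply]
      have b1 := abs_le.1 a1
      have b2 := abs_le.1 a2
      simp only [hc, B.c, s]
      nlinarith
    rw [hw, norm_div, norm_div, norm_real, Real.norm_of_nonneg s_pos.le, div_div,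
      div_le_iff₀ (by norm_num [s])]
    norm_num
    linarith
  have hb := Complex.exp_bound (x := w) (by linarith) (n := 6) (by norm_num)
  set P : ℂ := ∑ m ∈ Finset.range 6, w ^ m / (m.factorial : ℂ) with hP
  have k0 : MemR SI 84000000 (exp w - P + 1) := by
    apply memR_one
    rw [add_sub_cancel_right]
    have : ‖w‖ ^ 6 ≤ (6 / 10) ^ 6 := pow_le_pow_left₀ (norm_nonneg _) hn 6
    norm_num [Nat.factorial, s] at hb this ⊢
    linarith
  have k1 : MemR SI 0 1 := memR_one (by simp)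
  have k2 : MemR 549755813888 0 ((1 / 2 : ℝ) : ℂ) := memR_real (by norm_num [s])
  have k3 : MemR 183251937963 1 ((1 / 6 : ℝ) : ℂ) := memR_real (by norm_num [s, abs_le])
  have k4 : MemR 45812984491 1 ((1 / 24 : ℝ) : ℂ) := memR_real (by norm_num [s, abs_le])
  have k5 : MemR 9162596898 1 ((1 / 120 : ℝ) : ℂ) := memR_real (by norm_num [s, abs_le])
  have t1 := addR_ok k0 (mul_ok (addR_ok k1 (mul_ok (addR_ok k2 (mul_ok (addR_ok k3
    (mul_ok (addR_ok k4 (mulR_ok k5 hW)) hW)) hW)) hW)) hW)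
  have e1 : exp w - P + 1 + (1 + (((1 / 2 : ℝ) : ℂ) + (((1 / 6 : ℝ) : ℂ) + (((1 / 24 : ℝ) : ℂ)
      + ((1 / 120 : ℝ) : ℂ) * w) * w) * w) * w) * w = exp w := by
    simp only [hP, Finset.sum_range_succ, Nat.factorial]
    push_cast
    ring
  rw [e1] at t1
  have t2 := mul_ok t1 t1
  have t3 := mul_ok t2 t2
  have t4 := mul_ok t3 t3
  set δ : ℂ := z - c / s with hδ
  have hδ1 : s * ‖δ‖ ≤ ρ := by
    rw [B.Mem, show (s : ℂ) * z - c = s * δ by rw [hδ]; field_simp, norm_mul, norm_real,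
      Real.norm_of_nonneg s_pos.le] at hz
    exact hz
  have hδ2 : ‖δ‖ ≤ 1 := by
    by_contra hc'
    nlinarith [s_pos]
  have k6 : MemR SI (Nat.add ρ (Nat.succ (Nat.shiftRight (Nat.mul ρ ρ) 40))) (exp δ) := by
    apply memR_one
    have a1 := norm_exp_sub_one_sub_id_le hδ2
    have a2 : ‖exp δ - 1‖ ≤ ‖exp δ - 1 - δ‖ + ‖δ‖ := by
      simpa using norm_add_le (exp δ - 1 - δ) δ
    have a3 := nsh_le (Nat.mul ρ ρ) 40
    rw [show (2 : ℝ) ^ 40 = s by norm_num [s], show ((Nat.mul ρ ρ : ℕ) : ℝ) = ρ * ρ from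
      Nat.cast_mul _ _] at a3
    have a4 : s * ‖δ‖ ^ 2 ≤ ρ * ρ / s := by
      rw [le_div_iff₀ s_pos]
      have := mul_nonneg s_pos.le (norm_nonneg δ)
      nlinarith
    change _ ≤ ((ρ + (_ + 1) : ℕ) : ℝ)
    push_cast
    nlinarith [s_pos]
  convert mulR_ok k6 t4 using 1
  simp only [← exp_add]
  congr 1
  rw [hδ, hw]
  ring

end Pool.Agent.P.MP_cc4a10_gt.NumAP
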