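import Pool.Agent.P.MP_cc4a10_gt.Lin
import Pool.Agent.P.MP_cc4a10_gt.NumABall

/-!
Enclosures of the explicit series.
-/

open Complex
open scoped Real

noncomputable section

namespace Pool.Agent.P.MP_cc4a10_gt.NumAP

theorem epi_bd : 2314069262 / 100000000 ≤ Real.exp π ∧ Real.exp π ≤ 2314069264 / 100000000 := by
  have e : Real.exp π = Real.exp 1 ^ 3 * Real.exp (π - 3) := by
    rw [← Real.exp_nat_mul, ← Real.exp_add]; congr 1; push_cast; ring
  have a1 := Real.exp_one_gt_d9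
  have a2 := Real.exp_one_lt_d9
  have b1 := Real.exp_bound (x := 7079632679 / 50000000000) (by norm_num [abs_le]) (n := 8)
    (by norm_num)
  have b2 := Real.exp_bound (x := 14159265359 / 100000000000) (by norm_num [abs_le]) (n := 8)
    (by norm_num)
  have c1 : Real.exp (7079632679 / 50000000000) ≤ Real.exp (π - 3) :=
    Real.exp_le_exp.2 (by linarith [Real.pi_gt_d20])
  have c2 : Real.exp (π - 3) ≤ Real.exp (14159265359 / 100000000000) :=
    Real.exp_le_exp.2 (by linarith [Real.pi_lt_d20])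
  rw [abs_le] at b1 b2
  norm_num [Finset.sum_range_succ, Nat.factorial] at b1 b2
  have d1 : 115210724616 / 100000000000 ≤ Real.exp (π - 3) := by linarith [b1.1]
  have d2 : Real.exp (π - 3) ≤ 115210724622 / 100000000000 := by linarith [b2.2]
  rw [e]
  constructor
  · calc _ ≤ (2.7182818283 : ℝ) ^ 3 * (115210724616 / 100000000000) := by norm_num
      _ ≤ _ := by gcongr
  · calc _ ≤ (2.7182818286 : ℝ) ^ 3 * (115210724622 / 100000000000) := by gcongr
      _ ≤ _ := by norm_num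

theorem e2pi_bd : 5354916549 / 10000000 ≤ Real.exp (2 * π) ∧
    Real.exp (2 * π) ≤ 5354916559 / 10000000 := by
  have e : Real.exp (2 * π) = Real.exp π ^ 2 := by rw [← Real.exp_nat_mul]; norm_num
  obtain ⟨a, b⟩ := epi_bd
  rw [e]
  constructor <;> nlinarith

theorem exp_ge (n : ℕ) {t : ℝ} (h : n * π ≤ t) : (23 : ℝ) ^ n ≤ Real.exp t := by
  refine le_trans ?_ (Real.exp_le_exp.2 h)
  rw [Real.exp_nat_mul]
  exact pow_le_pow_left₀ (by norm_num) (by linarith [epi_bd.1]) n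

theorem UU_le (n : ℕ) (hn : n ≠ 0) {w : ℂ} (h : n * π ≤ w.re) : ‖UU w‖ ≤ 1 / (23 ^ n - 1) := by
  have h1 := exp_ge n h
  have h2 : (1 : ℝ) < 23 ^ n := one_lt_pow₀ (by norm_num) hn
  have h3 := norm_sub_norm_le (exp w) 1
  rw [norm_exp, norm_one] at h3
  rw [UU, norm_inv, one_div]
  exact inv_anti₀ (by linarith) (by linarith)

theorem hk_le (k n m : ℕ) (hn : n ≠ 0) (hm : m ≠ 0) {θ : ℂ} (h0 : 0 ≤ θ.re) (h1 : θ.re ≤ π)
    (e1 : n = 2 * k + 2) (e2 : m = 2 * k + 1) : ‖hk k θ‖ ≤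
    (2 * k + 3) * π * (1 / (23 ^ n - 1)) + (2 * k + 2) * π * (1 / (23 ^ m - 1)) := by
  have hp := Real.pi_pos
  have hk0 : (0 : ℝ) ≤ k := by positivity
  have a1 : ‖(2 * π * (k + 1) + θ.re : ℂ)‖ ≤ (2 * k + 3) * π := by
    rw [show (2 * π * (k + 1) + θ.re : ℂ) = ((2 * π * (k + 1) + θ.re : ℝ) : ℂ) by push_cast; ring,
      norm_real, Real.norm_of_nonneg (by positivity)]
    linarith
  have a2 : ‖(2 * π * (k + 1) - θ.re : ℂ)‖ ≤ (2 * k + 2) * π := by
    rw [show (2 * π * (k + 1) - θ.re : ℂ) = ((2 * π * (k + 1) - θ.re : ℝ) : ℂ) by push_cast; ring,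
      norm_real, Real.norm_of_nonneg (by nlinarith)]
    linarith
  have b1 := UU_le n hn (w := 2 * π * (k + 1) + θ) (by
    rw [e1]; simp; nlinarith)
  have b2 := UU_le m hm (w := 2 * π * (k + 1) - θ) (by
    rw [e2]; simp; nlinarith)
  refine (norm_add_le _ _).trans ?_
  rw [norm_mul, norm_mul]
  gcongr

theorem pow_aux (k : ℕ) : (k + 3 : ℝ) ≤ 3 * 2 ^ k := by
  have : k + 3 ≤ 3 * 2 ^ k := by
    have := Nat.lt_two_pow_self (n := k)
    omega
  exact_mod_cast this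

theorem hk_tail (k : ℕ) {θ : ℂ} (h0 : 0 ≤ θ.re) (h1 : θ.re ≤ π) :
    ‖hk (k + 2) θ‖ ≤ 1 / 100000 * (1 / 2) ^ k := by
  refine (hk_le (k + 2) (2 * k + 6) (2 * k + 5) (by omega) (by omega) h0 h1 (by ring)
    (by ring)).trans ?_
  have a1 := pow_aux k
  have a2 : (4 : ℝ) ^ k ≤ 23 ^ (2 * k) := by
    rw [pow_mul]; exact pow_le_pow_left₀ (by norm_num) (by norm_num) k
  have a3 : (1 : ℝ) ≤ 4 ^ k := one_le_pow₀ (by norm_num)
  have a4 : (4 : ℝ) ^ k = 2 ^ k * 2 ^ k := by rw [← mul_pow]; norm_num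
  have a5 : (0 : ℝ) < 2 ^ k := by positivity
  have b1 : 1 / ((23 : ℝ) ^ (2 * k + 6) - 1) ≤ 1 / (100000000 * 4 ^ k) := by
    apply one_div_le_one_div_of_le (by positivity)
    rw [pow_add]; nlinarith
  have b2 : 1 / ((23 : ℝ) ^ (2 * k + 5) - 1) ≤ 1 / (6000000 * 4 ^ k) := by
    apply one_div_le_one_div_of_le (by positivity)
    rw [pow_add]; nlinarith
  have hp := Real.pi_le_four
  have hp0 := Real.pi_pos
  calc _ ≤ (7 * 2 ^ k : ℝ) * 4 * (1 / (100000000 * 4 ^ k))
        + (6 * 2 ^ k) * 4 * (1 / (6000000 * 4 ^ k)) := by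
        push_cast
        have : (1 : ℝ) ≤ 2 ^ k := one_le_pow₀ (by norm_num)
        have c1 : (0 : ℝ) ≤ 1 / (23 ^ (2 * k + 6) - 1) := by
          apply div_nonneg zero_le_one
          rw [pow_add]; nlinarith
        have c2 : (0 : ℝ) ≤ 1 / (23 ^ (2 * k + 5) - 1) := by
          apply div_nonneg zero_le_one
          rw [pow_add]; nlinarith
        gcongr <;> linarith
    _ ≤ _ := by
        rw [a4, one_div_pow]
        field_simp
        norm_num

theorem tail_split {f : ℕ → ℂ} {C : ℝ} (n : ℕ) (h : ∀ k, ‖f (k + n)‖ ≤ C * (1 / 2) ^ k) :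
    ∃ T, ‖T‖ ≤ 2 * C ∧ ∑' k, f k = ∑ i ∈ Finset.range n, f i + T := by
  have hs : HasSum (fun k : ℕ => C * (1 / 2 : ℝ) ^ k) (C * 2) := hasSum_geometric_two.mul_left C
  have h1 : Summable fun k => f (k + n) := Summable.of_norm_bounded hs.summable h
  refine ⟨∑' k, f (k + n), (tsum_of_norm_bounded hs h).trans (by linarith), ?_⟩
  exact (((summable_nat_add_iff n).1 h1).sum_add_tsum_nat_add n).symm

theorem eE_bd : |eE - 2 * π ^ 2 / 3 - 2954465 / 10000000| ≤ 1 / 100000 := by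
  obtain ⟨T, hT, e⟩ := tail_split (C := 3 / 100000000) (n := 1)
    (f := fun k => (((2 * k + 1) / (Real.exp (2 * π * (2 * k + 1)) - 1) : ℝ) : ℂ)) fun k => by
      have a1 := pow_aux k
      have a0 := exp_ge (4 * k + 6) (t := 2 * π * (2 * (k + 1 : ℕ) + 1))
        (le_of_eq (by push_cast; ring))
      have a2 : (16 : ℝ) ^ k ≤ 23 ^ (4 * k) := by
        rw [pow_mul]; exact pow_le_pow_left₀ (by norm_num) (by norm_num) k
      have a3 : (1 : ℝ) ≤ 2 ^ k := one_le_pow₀ (by norm_num)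
      have a4 : (16 : ℝ) ^ k = 2 ^ k * (2 ^ k * (2 ^ k * 2 ^ k)) := by
        simp only [← mul_pow]; norm_num
      have a5 : (2 * k + 3 : ℝ) ≤ 3 * (2 ^ k * 2 ^ k) := by
        have : 2 * k + 3 ≤ 3 * (2 ^ k * 2 ^ k) := by
          have := Nat.lt_two_pow_self (n := k)
          nlinarith
        exact_mod_cast this
      have a6 : (1 : ℝ) ≤ 16 ^ k := one_le_pow₀ (by norm_num)
      rw [pow_add] at a0
      have b : 100000000 * 16 ^ k ≤ Real.exp (2 * π * (2 * (k + 1 : ℕ) + 1)) - 1 := by nlinarith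
      rw [norm_real, Real.norm_of_nonneg (div_nonneg (by positivity) (by linarith)),
        div_le_iff₀ (by linarith)]
      calc _ ≤ 3 / 100000000 * (1 / 2 : ℝ) ^ k * (100000000 * 16 ^ k) := by
            rw [a4, one_div_pow]
            push_cast
            field_simp
            nlinarith
        _ ≤ _ := by gcongr
  rw [← ofReal_tsum, Finset.sum_range_one] at e
  have e' := congrArg re e
  have hT' := (abs_re_le_norm T).trans hT
  simp only [ofReal_re, add_re, Nat.cast_zero, mul_zero, zero_add, mul_one] at e'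
  rw [eE, e']
  obtain ⟨q1, q2⟩ := e2pi_bd
  have c1 : 1 / (Real.exp (2 * π) - 1) ≤ 1 / (5344916549 / 10000000) :=
    one_div_le_one_div_of_le (by norm_num) (by linarith)
  have c2 : 1 / (5344916559 / 10000000) ≤ 1 / (Real.exp (2 * π) - 1) :=
    one_div_le_one_div_of_le (by linarith) (by linarith)
  have p1 : 98696044 / 10000000 ≤ π ^ 2 := by nlinarith [Real.pi_gt_d20]
  have p2 : π ^ 2 ≤ 98696045 / 10000000 := by nlinarith [Real.pi_lt_d20, Real.pi_pos]
  rw [abs_le] at hT' ⊢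
  constructor <;> nlinarith

def pi1 : ℤ := 3454217652358
def pi2 : ℤ := 6908435304715
def pi4 : ℤ := 13816870609431
def Qc : ℤ := 588779301700000
def qc : ℤ := 2053274998
def e0 : ℤ := 324846862136

def ev (x : ℤ) (h : ℕ) (E : B) (k : B → B → Bool) : Bool :=
  inv (addR (Int.neg SI) 0 E) fun u =>
  inv (addR (Int.neg qc) 10 E) fun v => fB (mulR qc 10 v) fun v =>
  inv (subR Qc 800000 E) fun w => fB (addR (Int.neg SI) 0 (mulR Qc 800000 w)) fun w =>
  fI (Int.sub pi2 x) fun xm => fI (Int.sub pi1 x) fun y => fN (Nat.add 1 h) fun h1 =>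
  fB (add (mulR (Int.add pi2 x) h1 v) (mulR xm h1 w)) fun H =>
  fB (mulR x h u) fun xu =>
  fB (sub (addR e0 300000000 (sqh x h)) (mulR pi4 1 H)) fun A =>
  fB (sub (addR e0 15500000000 (sqh xm h1)) (mulR pi4 1 xu)) fun C =>
  fB (sub (addR (Int.neg 1808624133424) 7800000000 (sqh y h1)) (mulR pi2 1 (add xu H))) fun p =>
  fB (mul A C) fun O => k p O

theorem m_pi1 : MemR pi1 1 (π : ℂ) := memR_real (by
  rw [abs_le]
  norm_num [s, pi1]
  constructor <;> linarith [Real.pi_gt_d20, Real.pi_lt_d20])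
theorem m_pi2 : MemR pi2 1 (2 * π : ℂ) := by
  have : MemR pi2 1 ((2 * π : ℝ) : ℂ) := memR_real (by
    rw [abs_le]
    norm_num [s, pi2]
    constructor <;> linarith [Real.pi_gt_d20, Real.pi_lt_d20])
  simpa using this
theorem m_pi4 : MemR pi4 1 (4 * π : ℂ) := by
  have : MemR pi4 1 ((4 * π : ℝ) : ℂ) := memR_real (by
    rw [abs_le]
    norm_num [s, pi4]
    constructor <;> linarith [Real.pi_gt_d20, Real.pi_lt_d20])
  simpa using this
theorem m_Q : MemR Qc 800000 (exp (2 * π)) := by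
  have : MemR Qc 800000 ((Real.exp (2 * π) : ℝ) : ℂ) := memR_real (by
    rw [abs_le]
    norm_num [s, Qc]
    constructor <;> linarith [e2pi_bd.1, e2pi_bd.2])
  simpa using this
theorem neg_ok {a : ℤ} {r : ℕ} {z : ℂ} (h : MemR a r z) : MemR (Int.neg a) r (-z) := by
  rw [MemR, show (s : ℂ) * -z - (Int.neg a : ℤ) = -(s * z - a) by
    change _ - ((-a : ℤ) : ℂ) = _
    push_cast; ring, norm_neg]
  exact h
theorem m_q : MemR qc 10 (exp (2 * π))⁻¹ := by
  have c1 : (Real.exp (2 * π))⁻¹ ≤ (5354916549 / 10000000)⁻¹ := inv_anti₀ (by norm_num) e2pi_bd.1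
  have c2 : (5354916559 / 10000000)⁻¹ ≤ (Real.exp (2 * π))⁻¹ :=
    inv_anti₀ (Real.exp_pos _) e2pi_bd.2
  have : MemR qc 10 (((Real.exp (2 * π))⁻¹ : ℝ) : ℂ) := memR_real (by
    rw [abs_le]
    norm_num [s, qc] at c1 c2 ⊢
    constructor <;> linarith)
  simpa using this

theorem memR_near {a : ℤ} {r : ℕ} {t η : ℝ} {z : ℂ} (h : ‖z‖ ≤ η)
    (h2 : |s * t - a| + s * η ≤ r) : MemR a r (t + z) := by
  rw [MemR, show (s : ℂ) * (t + z) - a = ((s * t - a : ℝ) : ℂ) + s * z by push_cast; ring]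
  refine (norm_add_le _ _).trans ?_
  rw [norm_real, norm_mul, norm_real, Real.norm_of_nonneg s_pos.le, Real.norm_eq_abs]
  nlinarith [s_pos]

theorem cth_eq {θ : ℂ} (h : -1 + exp θ ≠ 0) : cth (θ / 2) = 1 + 2 * (-1 + exp θ)⁻¹ := by
  have e : exp θ = exp (θ / 2) * exp (θ / 2) := by rw [← exp_add]; congr 1; ring
  have h0 := exp_ne_zero (θ / 2)
  rw [e] at h ⊢
  rw [cth, Complex.cosh, Complex.sinh, exp_neg]
  set a := exp (θ / 2)
  have h1 : a - a⁻¹ ≠ 0 := by
    intro h2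
    apply h
    have : a * (a - a⁻¹) = -1 + a * a := by field_simp; ring
    rw [← this, h2, mul_zero]
  obtain ⟨u, hu⟩ : ∃ u, u = (-1 + a * a)⁻¹ := ⟨_, rfl⟩
  have h2 : u * (-1 + a * a) = 1 := by rw [hu, inv_mul_cancel₀ h]
  have h3 : a * a⁻¹ = 1 := mul_inv_cancel₀ h0
  rw [← hu, div_eq_iff (div_ne_zero h1 two_ne_zero)]
  linear_combination (-a⁻¹) * h2 + (u * a) * h3

theorem ev_ok {x : ℤ} {h : ℕ} {E : B} {k : B → B → Bool} {θ : ℂ} (h0 : 0 ≤ θ.re)
    (h1 : θ.re ≤ π) (hx : MemR x h (θ.re : ℂ)) (hE : E.Mem (exp θ)) (H : ev x h E k = true) :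
    ∃ p O : B, p.Mem (pE θ) ∧ O.Mem (OmE θ) ∧ k p O = true := by
  have m1 : MemR (Int.neg SI) 0 (-1) := neg_ok (memR_one (by simp))
  obtain ⟨n1, u, hu, H⟩ := inv_ok (addR_ok m1 hE) H
  obtain ⟨-, v, hv, H⟩ := inv_ok (addR_ok (neg_ok m_q) hE) H
  rw [fB_eq] at H
  obtain ⟨n3, w, hw, H⟩ := inv_ok (subR_ok m_Q hE) H
  simp only [fB_eq, fI_eq, fN_eq] at H
  have hH := add_ok (mulR_ok (RaddR m_pi2 hx) (mulR_ok m_q hv))
    (mulR_ok (RsubR m_pi2 hx) (addR_ok m1 (mulR_ok m_Q hw)))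
  have hxu := mulR_ok hx hu
  obtain ⟨T1, hT1, e1⟩ := tail_split 2 (f := fun k => hk k θ) fun k => hk_tail k h0 h1
  obtain ⟨T2, hT2, e2⟩ := tail_split 2 (f := fun k => (-1) ^ k * hk k θ) fun k => by
    simpa using hk_tail k h0 h1
  have hh1 := hk_le 1 4 3 (by norm_num) (by norm_num) h0 h1 rfl rfl
  have p1 := Real.pi_lt_d4
  have p0 := Real.pi_pos
  have hh2 : ‖hk 1 θ‖ ≤ 11 / 10000 := by
    norm_num at hh1
    linarith
  have np : ‖(2 * π : ℂ)‖ ≤ 62832 / 10000 := by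
    rw [norm_mul, norm_real, Real.norm_of_nonneg p0.le, Complex.norm_two]
    linarith
  have eb := eE_bd
  have ma : MemR e0 300000000 (((eE - 2 * π ^ 2 / 3 : ℝ) : ℂ) + -(2 * π * (T1 + T2))) := by
    refine memR_near (η := 62832 / 10000 * (4 / 100000)) ?_ ?_
    · rw [norm_neg, norm_mul]
      have := norm_add_le T1 T2
      gcongr
      linarith
    · rw [abs_le] at eb
      have : |s * (eE - 2 * π ^ 2 / 3) - e0| ≤ 11000000 := by
        rw [abs_le]
        norm_num [s, e0]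
        constructor <;> linarith [eb.1, eb.2]
      norm_num [s] at this ⊢
      linarith
  have mb : MemR e0 15500000000
      (((eE - 2 * π ^ 2 / 3 : ℝ) : ℂ) + -(2 * π * (hk 1 θ + hk 1 θ + (T1 - T2)))) := by
    refine memR_near (η := 62832 / 10000 * (224 / 100000)) ?_ ?_
    · rw [norm_neg, norm_mul]
      have := norm_sub_le T1 T2
      have := norm_add₃_le (a := hk 1 θ) (b := hk 1 θ) (c := T1 - T2)
      gcongr
      linarith
    · rw [abs_le] at eb
      have : |s * (eE - 2 * π ^ 2 / 3) - e0| ≤ 11000000 := by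
        rw [abs_le]
        norm_num [s, e0]
        constructor <;> linarith [eb.1, eb.2]
      norm_num [s] at this ⊢
      linarith
  have mc : MemR (Int.neg 1808624133424) 7800000000
      (((-π ^ 2 / 6 : ℝ) : ℂ) + -(2 * π * (hk 1 θ + T1))) := by
    refine memR_near (η := 62832 / 10000 * (112 / 100000)) ?_ ?_
    · rw [norm_neg, norm_mul]
      have := norm_add_le (hk 1 θ) T1
      gcongr
      linarith
    · have q1 : 98696044 / 10000000 ≤ π ^ 2 := by nlinarith [Real.pi_gt_d20]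
      have q2 : π ^ 2 ≤ 98696045 / 10000000 := by nlinarith [Real.pi_lt_d20]
      have : |s * (-π ^ 2 / 6) - (-1808624133424 : ℤ)| ≤ 11000000 := by
        rw [abs_le]
        norm_num [s]
        constructor <;> linarith
      change |_ - ((-1808624133424 : ℤ) : ℝ)| + _ ≤ _
      norm_num [s] at this ⊢
      linarith
  have hA := sub_ok (addR_ok ma (sqh_ok hx)) (mulR_ok m_pi4 hH)
  have hC := sub_ok (addR_ok mb (sqh_ok (RsubR m_pi2 hx))) (mulR_ok m_pi4 hxu)
  have hP := sub_ok (addR_ok mc (sqh_ok (RsubR m_pi1 hx))) (mulR_ok m_pi2 (add_ok hxu hH))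
  have z0 := exp_ne_zero θ
  have zQ := exp_ne_zero (2 * π)
  have eH : hk 0 θ = (2 * π + θ.re) * ((exp (2 * π))⁻¹ * (-(exp (2 * π))⁻¹ + exp θ)⁻¹)
      + (2 * π - θ.re) * (-1 + exp (2 * π) * (exp (2 * π) - exp θ)⁻¹) := by
    simp only [hk, UU, Nat.cast_zero, zero_add, mul_one, exp_add, exp_sub]
    congr 2
    · rw [← mul_inv]
      congr 1
      field_simp
      ring
    · field_simp
      ring
  rw [← eH] at hA hP
  refine ⟨_, _, ?_, ?_, H⟩
  · convert hP using 1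
    rw [pE, e1, cth_eq n1]
    simp only [Finset.sum_range_succ, Finset.sum_range_zero]
    push_cast
    ring
  · convert mul_ok hA hC using 1
    rw [OmE, pE, cE, e1, e2, cth_eq n1]
    simp only [Finset.sum_range_succ, Finset.sum_range_zero]
    push_cast
    ring

theorem pE_neg (θ : ℂ) : pE (-θ) = pE θ ∧ OmE (-θ) = OmE θ := by
  have e1 : ∀ k, hk k (-θ) = hk k θ := fun k => by
    simp only [hk, neg_re, ofReal_neg, sub_neg_eq_add, ← sub_eq_add_neg]
    ring
  have e2 : cth (-θ / 2) = -cth (θ / 2) := by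
    rw [neg_div, cth, cth, cosh_neg, sinh_neg, div_neg]
  have e3 : pE (-θ) = pE θ := by
    simp only [pE, e1, e2, neg_re, ofReal_neg]
    ring
  refine ⟨e3, ?_⟩
  simp only [OmE, e3, cE, e1, e2, neg_re, ofReal_neg]
  ring

end Pool.Agent.P.MP_cc4a10_gt.NumAP
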