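import Pool.Agent.P.MP_cc4a10_gt.NumAEv

/-!
The subdivision checker and its soundness.
-/

open Complex
open scoped Real

noncomputable section

namespace Pool.Agent.P.MP_cc4a10_gt.NumAP

def inn (cx cy : ℤ) (h : ℕ) : Bool :=
  Nat.blt (Nat.mul 100 (Nat.add (Nat.mul (Nat.add cx.natAbs h) (Nat.add cx.natAbs h))
    (Nat.mul (Nat.add cy.natAbs h) (Nat.add cy.natAbs h)))) (Nat.mul 36 S2)
def rad (h : ℕ) : ℕ := Nat.succ (Nat.shiftRight (Nat.mul h 363) 8)

def leafA (cx cy : ℤ) (h : ℕ) : Bool :=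
  inn cx cy h || Nat.blt (Nat.add h 3454217652360) cx.natAbs ||
  Nat.blt (Nat.add h 3454217652360) cy.natAbs ||
  (Nat.ble h 549755813888 && ex cx cy (rad h) fun E => ev cx h E fun p O =>
    Nat.ble (Nat.add (Nat.add (Nat.mul 2 O.im.natAbs)
      (Nat.succ (Nat.shiftRight (Nat.mul O.r 9) 2))) 109951162778) O.re.toNat &&
    Nat.ble (Nat.add (nrm p) p.r) 4178144185548)

def leafG (cx cy : ℤ) (h : ℕ) : Bool :=
  inn cx cy h || Nat.blt (Nat.add (Nat.mul 2 h) 3454217652360) (Nat.add cx.natAbs cy.natAbs) ||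
  (Nat.ble h 549755813888 && ex cx cy (rad h) fun E => ev cx h E fun p1 O1 =>
    inv E fun E' => fB (mulR (Int.neg 25443460621475) 12000 E') fun E2 =>
    fI (Int.sub pi1 cx) fun x2 =>
    ev x2 (Nat.add 1 h) E2 fun p2 O2 => sqr O1 fun z1 => sqr O2 fun z2 =>
    fB (mul p1 p2) fun pp => fB (mulR (Int.neg 4398046511104) 0 pp) fun pp => sqr pp fun Z =>
    fB (sub z2 p1) fun a => fB (sub z1 p2) fun b =>
    fB (add (mul a b) (mul (rot Z) (add a b))) fun G =>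
    Nat.ble (Nat.mul (Nat.add G.r 109951162778) (Nat.add G.r 109951162778)) (n2 G))

def run (leaf : ℤ → ℤ → ℕ → Bool) : ℕ → ℤ → ℤ → ℕ → Bool
  | 0, cx, cy, h => leaf cx cy h
  | n + 1, cx, cy, h => leaf cx cy h || fN (Nat.shiftRight (Nat.succ h) 1) fun k =>
    fI (Int.add cx (Int.ofNat k)) fun x1 => fI (Int.sub cx (Int.ofNat k)) fun x2 =>
    fI (Int.add cy (Int.ofNat k)) fun y1 => fI (Int.sub cy (Int.ofNat k)) fun y2 =>
    run leaf n x1 y1 k && run leaf n x1 y2 k && run leaf n x2 y1 k && run leaf n x2 y2 k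

/-- The point lies in the box. -/
def InB (cx cy : ℤ) (h : ℕ) (θ : ℂ) : Prop := |s * θ.re - cx| ≤ h ∧ |s * θ.im - cy| ≤ h

theorem half_cov {t : ℝ} {c : ℤ} {h : ℕ} (H : |t - c| ≤ h) :
    |t - (Int.add c (Int.ofNat (Nat.shiftRight (Nat.succ h) 1)) : ℤ)|
      ≤ (Nat.shiftRight (Nat.succ h) 1 : ℕ) ∨
    |t - (Int.sub c (Int.ofNat (Nat.shiftRight (Nat.succ h) 1)) : ℤ)|
      ≤ (Nat.shiftRight (Nat.succ h) 1 : ℕ) := by
  have h1 : h ≤ 2 * Nat.shiftRight (Nat.succ h) 1 := by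
    change h ≤ 2 * ((h + 1) >>> 1)
    rw [Nat.shiftRight_eq_div_pow]
    omega
  set k := Nat.shiftRight (Nat.succ h) 1
  have h2 : (h : ℝ) ≤ 2 * k := by exact_mod_cast h1
  change |t - ((c + (k : ℕ) : ℤ) : ℝ)| ≤ k ∨ |t - ((c - (k : ℕ) : ℤ) : ℝ)| ≤ k
  push_cast
  rw [abs_le] at H
  rcases le_total t c with h3 | h3
  · right; rw [abs_le]; constructor <;> linarith
  · left; rw [abs_le]; constructor <;> linarith

theorem run_ok {leaf : ℤ → ℤ → ℕ → Bool} {P : ℂ → Prop}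
    (hl : ∀ cx cy h θ, leaf cx cy h = true → InB cx cy h θ → P θ) :
    ∀ n cx cy h θ, run leaf n cx cy h = true → InB cx cy h θ → P θ := by
  intro n
  induction n with
  | zero => exact hl
  | succ n ih =>
    intro cx cy h θ H hb
    simp only [run, fN_eq, fI_eq, Bool.or_eq_true, Bool.and_eq_true] at H
    rcases H with H | ⟨⟨⟨H1, H2⟩, H3⟩, H4⟩
    · exact hl _ _ _ _ H hb
    · rcases half_cov hb.1 with a | a <;> rcases half_cov hb.2 with b | b
      exacts [ih _ _ _ _ H1 ⟨a, b⟩, ih _ _ _ _ H2 ⟨a, b⟩, ih _ _ _ _ H3 ⟨a, b⟩,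
        ih _ _ _ _ H4 ⟨a, b⟩]

theorem abs_up {t : ℝ} {c : ℤ} {h : ℕ} (H : |t - c| ≤ h) :
    |t| ≤ (c.natAbs : ℝ) + h ∧ (c.natAbs : ℝ) ≤ |t| + h := by
  rw [Nat.cast_natAbs, Int.cast_abs]
  have := abs_sub_abs_le_abs_sub t c
  have := abs_sub_abs_le_abs_sub (c : ℝ) t
  rw [abs_sub_comm] at this
  constructor <;> linarith

theorem inn_ok {cx cy : ℤ} {h : ℕ} {θ : ℂ} (H : inn cx cy h = true) (hb : InB cx cy h θ) :
    ‖θ‖ < 6 / 10 := by
  rw [inn, Nat.blt_eq] at H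
  change 100 * ((cx.natAbs + h) * (cx.natAbs + h) + (cy.natAbs + h) * (cy.natAbs + h))
    < 36 * 1208925819614629174706176 at H
  have H' : 100 * (((cx.natAbs : ℝ) + h) * (cx.natAbs + h) + ((cy.natAbs : ℝ) + h)
    * (cy.natAbs + h)) < 36 * 1208925819614629174706176 := by exact_mod_cast H
  have a := mul_self_le_mul_self (abs_nonneg _) (abs_up hb.1).1
  have b := mul_self_le_mul_self (abs_nonneg _) (abs_up hb.2).1
  rw [abs_mul_abs_self] at a b
  apply lt_of_pow_lt_pow_left₀ 2 (by norm_num)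
  rw [Complex.sq_norm, normSq_apply]
  simp only [s] at a b
  nlinarith

theorem box_mem {cx cy : ℤ} {h : ℕ} {θ : ℂ} (hb : InB cx cy h θ) (hh : h ≤ 549755813888) :
    B.Mem ⟨cx, cy, rad h⟩ θ ∧ (rad h : ℝ) ≤ s := by
  constructor
  · have a := nsh_le (Nat.mul h 363) 8
    have e : ((Nat.mul h 363 : ℕ) : ℝ) = h * 363 := by
      change ((h * 363 : ℕ) : ℝ) = _
      push_cast; ring
    rw [e] at a
    have b : ‖(s : ℂ) * θ - B.c ⟨cx, cy, rad h⟩‖ ≤ h * 363 / 2 ^ 8 := by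
      apply le_of_sq_le_sq _ (by positivity) |>.trans le_rfl
      rw [Complex.sq_norm, normSq_apply]
      have a1 := mul_self_le_mul_self (abs_nonneg _) hb.1
      have a2 := mul_self_le_mul_self (abs_nonneg _) hb.2
      rw [abs_mul_abs_self] at a1 a2
      simp only [B.c, sub_re, sub_im, re_ofReal_mul, im_ofReal_mul]
      nlinarith [mul_self_nonneg (h : ℝ)]
    change _ ≤ ((Nat.shiftRight (Nat.mul h 363) 8 + 1 : ℕ) : ℝ)
    push_cast
    exact b.trans a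
  · have : rad h ≤ 1099511627776 := by
      change (h * 363) >>> 8 + 1 ≤ _
      rw [Nat.shiftRight_eq_div_pow]
      omega
    rw [s]
    exact_mod_cast this

theorem spi : s * π < 3454217652360 := by
  rw [s]; linarith [Real.pi_lt_d20]

theorem leafA_ok (cx cy : ℤ) (h : ℕ) (θ : ℂ) (H : leafA cx cy h = true) (hb : InB cx cy h θ) :
    0 ≤ θ.re → θ.re ≤ π → |θ.im| ≤ π → 6 / 10 ≤ ‖θ‖ →
      1 / 10 ≤ (OmE θ).re ∧ 2 * |(OmE θ).im| ≤ (OmE θ).re ∧ ‖pE θ‖ ≤ 38 / 10 := by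
  intro h0 h1 h2 h3
  simp only [leafA, Bool.or_eq_true, Bool.and_eq_true, Nat.blt_eq, Nat.ble_eq] at H
  have sp := s_pos
  rcases H with ((H | H) | H) | ⟨hh, H⟩
  · linarith [inn_ok H hb]
  · have H' : (h : ℝ) + 3454217652360 < cx.natAbs := by exact_mod_cast H
    have := (abs_up hb.1).2
    rw [abs_of_nonneg (by positivity)] at this
    nlinarith [spi]
  · have H' : (h : ℝ) + 3454217652360 < cy.natAbs := by exact_mod_cast H
    have := (abs_up hb.2).2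
    rw [abs_mul, abs_of_pos sp] at this
    nlinarith [spi]
  obtain ⟨E, hE, H⟩ := ex_ok (box_mem hb hh).1 (box_mem hb hh).2 H
  obtain ⟨p, O, hp, hO, H⟩ := ev_ok h0 h1 (memR_real hb.1) hE H
  simp only [Bool.and_eq_true, Nat.ble_eq] at H
  obtain ⟨H1, H2⟩ := H
  have H2' : (nrm p : ℝ) + p.r ≤ 4178144185548 := by exact_mod_cast H2
  have a := nsh_le (Nat.mul O.r 9) 2
  have e : ((Nat.mul O.r 9 : ℕ) : ℝ) = O.r * 9 := by
    change ((O.r * 9 : ℕ) : ℝ) = _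
    push_cast; ring
  rw [e] at a
  have H3 : ((2 * O.im.natAbs + (Nat.shiftRight (Nat.mul O.r 9) 2 + 1) + 109951162778 : ℕ) : ℤ)
      ≤ O.re := by
    change 2 * O.im.natAbs + (Nat.shiftRight (Nat.mul O.r 9) 2 + 1) + 109951162778
      ≤ O.re.toNat at H1
    omega
  have H4 : 2 * |(O.im : ℝ)| + ((Nat.shiftRight (Nat.mul O.r 9) 2 : ℕ) + 1) + 109951162778
      ≤ (O.re : ℝ) := by
    have := (Int.cast_le (R := ℝ)).2 H3
    rw [Int.cast_natCast] at this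
    push_cast [Nat.cast_natAbs] at this
    exact this
  set w := (s : ℂ) * OmE θ - O.c with hw
  have w1 : s * (OmE θ).re = O.re + w.re := by simp [hw, B.c]
  have w2 : s * (OmE θ).im = O.im + w.im := by simp [hw, B.c]
  have w3 : ‖w‖ ≤ O.r := hO
  have w4 : 2 * |w.im| - w.re ≤ 9 / 4 * ‖w‖ := by
    apply le_of_sq_le_sq _ (by positivity) |>.trans le_rfl
    rw [mul_pow, Complex.sq_norm, normSq_apply, ← abs_mul_abs_self w.im]
    nlinarith [sq_nonneg (|w.im| + 2 * w.re), sq_nonneg w.re, sq_nonneg |w.im|]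
  have w5 : s * |(OmE θ).im| ≤ |(O.im : ℝ)| + |w.im| := by
    rw [← abs_of_pos sp, ← abs_mul, w2]
    exact abs_add_le _ _
  have w6 : s * (2 * |(OmE θ).im| + 1 / 10) ≤ s * (OmE θ).re := by
    rw [w1, mul_add, mul_left_comm, show s * (1 / 10) = 1099511627776 / 10 by norm_num [s]]
    linarith
  have w7 := le_of_mul_le_mul_left w6 sp
  refine ⟨by linarith [abs_nonneg (OmE θ).im], by linarith, ?_⟩
  have b := norm_add_le ((s : ℂ) * pE θ - p.c) p.c
  rw [sub_add_cancel, norm_mul, norm_real, Real.norm_of_nonneg sp.le] at b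
  have b2 : ‖(s : ℂ) * pE θ - p.c‖ ≤ p.r := hp
  have b3 := nrm_le p
  have b4 : s * ‖pE θ‖ ≤ 4178144185548 := by linarith
  rw [s] at b4
  linarith

theorem leafG_ok (cx cy : ℤ) (h : ℕ) (θ : ℂ) (H : leafG cx cy h = true) (hb : InB cx cy h θ) :
    0 ≤ θ.re → θ.re + |θ.im| ≤ π → 6 / 10 ≤ ‖θ‖ → ∀ θ2 z1 z2 Z : ℂ, θ2.re = π - θ.re →
      exp θ2 = -exp π * (exp θ)⁻¹ → 0 < z1.re → 0 < z2.re → 0 < Z.re → z1 ^ 2 = OmE θ →
      z2 ^ 2 = OmE θ2 → Z ^ 2 = -4 * pE θ * pE θ2 →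
      1 / 10 ≤ ‖(z2 - pE θ) * (z1 - pE θ2) + I * Z * (z2 - pE θ + (z1 - pE θ2))‖ := by
  intro h0 h1 h3 θ2 z1 z2 Z e1 e2 p1 p2 p3 q1 q2 q3
  simp only [leafG, Bool.or_eq_true, Bool.and_eq_true, Nat.blt_eq, Nat.ble_eq] at H
  have sp := s_pos
  have an := abs_nonneg θ.im
  rcases H with (H | H) | ⟨hh, H⟩
  · linarith [inn_ok H hb]
  · have H' : 2 * (h : ℝ) + 3454217652360 < cx.natAbs + cy.natAbs := by exact_mod_cast H
    have a := (abs_up hb.1).2
    have b := (abs_up hb.2).2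
    rw [abs_of_nonneg (by positivity)] at a
    rw [abs_mul, abs_of_pos sp] at b
    nlinarith [spi]
  obtain ⟨E, hE, H⟩ := ex_ok (box_mem hb hh).1 (box_mem hb hh).2 H
  obtain ⟨P1, O1, hP1, hO1, H⟩ := ev_ok h0 (by linarith) (memR_real hb.1) hE H
  obtain ⟨-, E', hE', H⟩ := inv_ok hE H
  rw [fB_eq, fI_eq] at H
  have mE : MemR (Int.neg 25443460621475) 12000 (-exp π) := by
    apply neg_ok
    have : MemR 25443460621475 12000 ((Real.exp π : ℝ) : ℂ) := memR_real (by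
      rw [abs_le]
      norm_num [s]
      constructor <;> linarith [epi_bd.1, epi_bd.2])
    simpa using this
  have mx : MemR (Int.sub pi1 cx) (Nat.add 1 h) (θ2.re : ℂ) := by
    rw [e1, ofReal_sub]
    exact RsubR m_pi1 (memR_real hb.1)
  obtain ⟨P2, O2, hP2, hO2, H⟩ := ev_ok (θ := θ2) (by linarith) (by linarith) mx
    (by rw [e2]; exact mulR_ok mE hE') H
  obtain ⟨Z1, hZ1, H⟩ := sqr_ok (by rw [q1]; exact hO1) p1 H
  obtain ⟨Z2, hZ2, H⟩ := sqr_ok (by rw [q2]; exact hO2) p2 H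
  rw [fB_eq, fB_eq] at H
  have m4 : MemR (Int.neg 4398046511104) 0 (-4) := by
    apply neg_ok
    have : MemR 4398046511104 0 ((4 : ℝ) : ℂ) := memR_real (by norm_num [s])
    simpa using this
  obtain ⟨Z3, hZ3, H⟩ := sqr_ok (by rw [q3, mul_assoc]; exact mulR_ok m4 (mul_ok hP1 hP2)) p3 H
  simp only [fB_eq, Nat.ble_eq] at H
  have hG := add_ok (mul_ok (sub_ok hZ2 hP1) (sub_ok hZ1 hP2))
    (mul_ok (rot_ok hZ3) (add_ok (sub_ok hZ2 hP1) (sub_ok hZ1 hP2)))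
  set G := add (mul (sub Z2 P1) (sub Z1 P2)) (mul (rot Z3) (add (sub Z2 P1) (sub Z1 P2)))
  set g := (z2 - pE θ) * (z1 - pE θ2) + I * Z * (z2 - pE θ + (z1 - pE θ2))
  have H' : ((G.r : ℝ) + 109951162778) * (G.r + 109951162778) ≤ n2 G := by exact_mod_cast H
  rw [n2_eq, ← pow_two] at H'
  have a := le_of_sq_le_sq H' (norm_nonneg _)
  have b := norm_sub_norm_le G.c ((s : ℂ) * g)
  rw [norm_sub_rev, norm_mul, norm_real, Real.norm_of_nonneg sp.le] at b
  have b2 : ‖(s : ℂ) * g - G.c‖ ≤ G.r := hG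
  have b4 : 109951162778 ≤ s * ‖g‖ := by linarith
  rw [s] at b4
  linarith

theorem root_box {θ : ℂ} (h0 : 0 ≤ θ.re) (h1 : θ.re ≤ π) (h2 : |θ.im| ≤ π) :
    InB 1786706395136 1786706395136 1786706395136 θ ∨
    InB 1786706395136 (Int.neg 1786706395136) 1786706395136 θ := by
  have p := Real.pi_lt_d2
  rw [abs_le] at h2
  have a : |s * θ.re - (1786706395136 : ℤ)| ≤ (1786706395136 : ℕ) := by
    rw [abs_le, s]; push_cast; constructor <;> linarith
  rcases le_total 0 θ.im with h | h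
  · refine Or.inl ⟨a, ?_⟩
    rw [abs_le, s]; push_cast; constructor <;> linarith
  · refine Or.inr ⟨a, ?_⟩
    change |_ - ((-1786706395136 : ℤ) : ℝ)| ≤ _
    rw [abs_le, s]; push_cast; constructor <;> linarith

end Pool.Agent.P.MP_cc4a10_gt.NumAP
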