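import Pool.Agent.P.MP_cc4a10_gt.St

/-!
Numerical and elementary facts used for the pieces of the surface.
-/

open Set Filter Topology Complex Metric
open scoped ComplexConjugate Real

noncomputable section

namespace Pool.Agent.P.MP_cc4a10_gt.PiecesP

theorem log_dd (m : ℕ) : Real.log (dd m) = -(m : ℝ) / 2 * Real.log 2 := by
  unfold dd; rw [Real.log_rpow (by norm_num)]

theorem log_tt (m : ℕ) : Real.log (tt m) = -(m : ℝ) / 32 * Real.log 2 := by
  unfold tt; rw [Real.log_rpow (by norm_num)]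

theorem cast_big {m : ℕ} (h : 10 ^ 6 ≤ m) : (1000000 : ℝ) ≤ m := by exact_mod_cast h

theorem log_m_le {m : ℕ} (h : 10 ^ 6 ≤ m) : Real.log m ≤ m / 50000 := by
  have hm := cast_big h
  have h1 : Real.log ((m : ℝ) / 2 ^ 20) ≤ m / 2 ^ 20 - 1 :=
    Real.log_le_sub_one_of_pos (by positivity)
  rw [Real.log_div (by positivity) (by positivity), Real.log_pow] at h1
  have h2 := Real.log_two_lt_d9
  push_cast at h1
  norm_num at h1 h2 ⊢
  linarith

theorem rho_pos {m : ℕ} (h : 10 ^ 6 ≤ m) : 0 < rho m := by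
  have hm := cast_big h
  unfold rho; have := dd_pos m; positivity

theorem rho1_pos (m : ℕ) : 0 < rho1 m := mul_pos (dd_pos m) (tt_pos m)

theorem rho_le {m : ℕ} (h : 10 ^ 6 ≤ m) : 1000000 * rho m ≤ dd m := by
  have hm := cast_big h
  have hd := dd_pos m
  unfold rho
  rw [← mul_div_assoc, div_le_iff₀ (by positivity)]
  nlinarith

theorem tt_small {m : ℕ} (h : 10 ^ 6 ≤ m) : tt m * (1000 * m) ≤ 1 := by
  have hm := cast_big h
  have ht := tt_pos m
  have h1 := log_m_le h
  have h2 := Real.log_two_gt_d9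
  have h3 : Real.log 1000 ≤ 1000 := (Real.log_le_sub_one_of_pos (by norm_num)).trans (by norm_num)
  rw [← Real.log_nonpos_iff (by positivity), Real.log_mul ht.ne' (by positivity),
    Real.log_mul (by norm_num) (by positivity), log_tt]
  nlinarith

theorem rho1_le {m : ℕ} (h : 10 ^ 6 ≤ m) : 1000 * rho1 m ≤ rho m := by
  have hm := cast_big h
  have hd := dd_pos m
  have h1 := tt_small h
  unfold rho rho1
  rw [le_div_iff₀ (by positivity)]
  nlinarith

theorem dd_sq_le {m : ℕ} (h : 10 ^ 6 ≤ m) : 10 * dd m ^ 2 ≤ rho1 m := by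
  have hm := cast_big h
  have hd := dd_pos m
  have ht := tt_pos m
  have h1 := tt_small h
  have h2 : tt m ≤ 1 / 10 := by nlinarith
  have h3 : tt m ^ 15 ≤ 1 / 10 :=
    (pow_le_of_le_one ht.le (tt_le_one m) (by norm_num)).trans h2
  have h4 : dd m = tt m * tt m ^ 15 := by rw [← tt_pow_16]; ring
  have h5 : 10 * dd m ≤ tt m := by rw [h4]; nlinarith
  unfold rho1; nlinarith

theorem dd_le_two {m n : ℕ} (h : n ≤ m + 1) : dd m ≤ 2 * dd n := by
  have h1 : dd (m + 1) ≤ dd n := dd_anti h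
  have h2 : dd m ^ 2 = 2 * dd (m + 1) ^ 2 := by
    rw [dd_sq, dd_sq, pow_succ]; field_simp
  have h3 := dd_pos m
  have h4 := dd_pos (m + 1)
  nlinarith

/-- Radii comparable with `rho`. -/
theorem log_near {m : ℕ} (h : 10 ^ 6 ≤ m) :
    |Real.log (rho m * (41 / 100)) - Real.log (dd m)| ≤ m / 10000 := by
  have hm := cast_big h
  have hd := dd_pos m
  have h1 := log_m_le h
  have h2 : 0 ≤ Real.log m := Real.log_nonneg (by linarith)
  have h3 : Real.log (100 / 41) ≤ 2 :=
    (Real.log_le_sub_one_of_pos (by norm_num)).trans (by norm_num)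
  have h4 : 0 ≤ Real.log (100 / 41) := Real.log_nonneg (by norm_num)
  have h5 : Real.log (41 / 100) = -Real.log (100 / 41) := by
    rw [← Real.log_inv]; norm_num
  unfold rho
  rw [Real.log_mul (by positivity) (by norm_num), Real.log_div hd.ne' (by positivity), h5, abs_le]
  constructor <;> linarith

/-- Radii comparable with `rho1`. -/
theorem log_far {m : ℕ} (h : 10 ^ 6 ≤ m) {r : ℝ} (h0 : 0 < r) (hr : r ≤ 4 * rho1 m) :
    Real.log r - Real.log (dd m) ≤ -(m / 50) := by
  have hm := cast_big h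
  have hd := dd_pos m
  have ht := tt_pos m
  have h1 : Real.log r ≤ Real.log (4 * rho1 m) := Real.log_le_log h0 hr
  have h2 := Real.log_two_gt_d9
  have h3 : Real.log 4 ≤ 3 := (Real.log_le_sub_one_of_pos (by norm_num)).trans (by norm_num)
  unfold rho1 at h1
  rw [Real.log_mul (by norm_num) (by positivity), Real.log_mul hd.ne' ht.ne', log_tt] at h1
  nlinarith

theorem one_le_norm {u : GI} (h : u ≠ 0) : 1 ≤ ‖(u : ℂ)‖ := by
  have h1 : (1 : ℤ) ≤ u.norm := GaussianInt.norm_pos.2 h
  have h2 : (1 : ℝ) ≤ ‖(u : ℂ)‖ ^ 2 := by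
    rw [← Complex.normSq_eq_norm_sq, ← GaussianInt.intCast_real_norm]
    exact_mod_cast h1
  nlinarith [norm_nonneg (u : ℂ)]

theorem io_io (K : ℤ) (z : ℂ) : io K (io K z) = z := by
  unfold io; split_ifs <;> simp

theorem norm_io_sub (K : ℤ) (a b : ℂ) : ‖io K a - io K b‖ = ‖a - b‖ := by
  unfold io; split_ifs
  · rfl
  · rw [neg_sub_neg, ← map_sub, Complex.norm_conj, norm_sub_rev]

theorem io_succ (K : ℤ) (z : ℂ) : io K (-conj z) = io (K + 1) z := by
  unfold io
  by_cases h : Even K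
  · have : ¬Even (K + 1) := by simpa [Int.even_add_one] using h
    simp [h, this]
  · have : Even (K + 1) := by simpa [Int.even_add_one] using h
    simp [h, this]

theorem hz_mkE (w : ℂ) (x : ℝ) : hz (mkE w x) = w := by
  apply Complex.ext <;> simp [hz, mkE]

theorem mkE_two (w : ℂ) (x : ℝ) : mkE w x 2 = x := by simp [mkE]

theorem isOpen_An (r1 r2 : ℝ) : IsOpen (An r1 r2) :=
  (isOpen_lt continuous_const continuous_norm).inter (isOpen_lt continuous_norm continuous_const)

theorem Out_mono (nk : Set GI) (p : GI → ℂ) {r r' : ℝ} (h : r ≤ r') : Out nk p r' ⊆ Out nk p r :=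
  fun _ hz u hu => h.trans_lt (hz u hu)

theorem hasFDerivAt_log_norm (a b : ℝ) {y : ℂ} (hy : y ≠ 0) :
    HasFDerivAt (fun z : ℂ => a + 2 * b * Real.log ‖z‖) (hl (2 * (b / y))) y := by
  have h1 : HasDerivAt (fun z : ℂ => (2 * b : ℂ) * log (z / y)) (2 * b * ((1 / y) / (y / y))) y :=
    (((hasDerivAt_id y).div_const y).clog (by simp [div_self hy])).const_mul _
  have h2 := (reCLM.hasFDerivAt.comp y
    (h1.hasFDerivAt.restrictScalars ℝ)).const_add (a + 2 * b * Real.log ‖y‖)
  have h3 := h2.congr_of_eventuallyEq (f₁ := fun z : ℂ => a + 2 * b * Real.log ‖z‖) (by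
    filter_upwards [isOpen_ne.mem_nhds hy] with z hz
    have : ((2 * b : ℂ) * log (z / y)).re = 2 * b * (Real.log ‖z‖ - Real.log ‖y‖) := by
      rw [show (2 * b : ℂ) = ((2 * b : ℝ) : ℂ) by push_cast; ring, Complex.re_ofReal_mul,
        Complex.log_re, norm_div, Real.log_div (norm_ne_zero_iff.2 hz) (norm_ne_zero_iff.2 hy)]
    simp only [Function.comp, reCLM_apply, this]; ring)
  refine h3.congr_fderiv ?_
  refine ContinuousLinearMap.ext fun z => ?_
  simp only [hl, ContinuousLinearMap.comp_apply, reCLM_apply, ContinuousLinearMap.mul_apply',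
    ContinuousLinearMap.coe_restrictScalars', ContinuousLinearMap.toSpanSingleton_apply,
    smul_eq_mul, div_self hy]
  congr 1; field_simp

theorem norm_wl_sub_id (a b : ℂ) :
    ‖wl a b - ContinuousLinearMap.id ℝ ℂ‖ ≤ ‖a - 1‖ + ‖b‖ := by
  refine ContinuousLinearMap.opNorm_le_bound _ (by positivity) fun h => ?_
  have : (wl a b - ContinuousLinearMap.id ℝ ℂ) h = (a - 1) * h - conj (b * h) := by
    simp [wl]; ring
  rw [this]
  refine (norm_sub_le _ _).trans ?_
  rw [Complex.norm_conj, norm_mul, norm_mul]; linarith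

end Pool.Agent.P.MP_cc4a10_gt.PiecesP
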