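import Pool.Agent.P.MP_cc4a10_gt.PiecesA

/-!
One level of the Weierstrass data: separation, the neck coordinate, heights.
-/

open Set Filter Topology Complex Metric
open scoped ComplexConjugate Real

noncomputable section

namespace Pool.Agent.P.MP_cc4a10_gt.PiecesP

variable (W : WD)

/-- Unit of height on level `K`. -/
def Uh (K : ℤ) : ℝ := dd (W.m K) ^ 2 * W.m K

theorem big (K : ℤ) : 10 ^ 6 ≤ W.m K := (W.big K).1

theorem Uh_pos (K : ℤ) : 0 < Uh W K := by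
  have := cast_big (big W K); have := dd_pos (W.m K)
  unfold Uh; positivity

theorem sepp {K : ℤ} {u u' : GI} (hu : u ∈ W.nk K) (hu' : u' ∈ W.nk K) (h : u ≠ u') :
    dd (W.m K) * (99 / 100) ≤ ‖W.p K u - W.p K u'‖ := by
  have h1 := W.sep K u hu u' hu'
  have h2 := one_le_norm (sub_ne_zero.2 h)
  have h3 : ‖W.c K * ((u - u' : GI) : ℂ)‖ = dd (W.m K) * ‖((u - u' : GI) : ℂ)‖ := by
    rw [norm_mul, W.nc]
  have h4 := norm_sub_norm_le (W.c K * ((u - u' : GI) : ℂ)) (W.p K u - W.p K u')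
  rw [norm_sub_rev (W.c K * _)] at h4
  have hd := dd_pos (W.m K)
  nlinarith

theorem sep_le (K : ℤ) {r : ℝ} (h : r ≤ rho (W.m K)) : Sep (W.nk K) (W.p K) (4 * r) := by
  intro u hu u' hu' hne
  have h1 := sepp W hu hu' hne
  have h2 := rho_le (big W K)
  have h3 := rho_pos (big W K)
  linarith

theorem mem_Out {K : ℤ} {u : GI} (hu : u ∈ W.nk K) {z : ℂ} {r : ℝ} (h1 : r < ‖z - W.p K u‖)
    (h2 : ‖z - W.p K u‖ ≤ rho (W.m K)) : z ∈ Out (W.nk K) (W.p K) r := by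
  intro u' hu'
  by_cases h : u = u'
  · rw [← h]; exact h1
  have h3 := sepp W hu hu' h
  have h4 := rho_le (big W K)
  have h5 := rho_pos (big W K)
  have h6 : ‖W.p K u - W.p K u'‖ ≤ ‖z - W.p K u‖ + ‖z - W.p K u'‖ := by
    have := norm_sub_le (z - W.p K u') (z - W.p K u)
    rw [show z - W.p K u' - (z - W.p K u) = W.p K u - W.p K u' by ring] at this
    linarith
  linarith

theorem v_bd (hI : S_Inv) {K : ℤ} {u : GI} (hu : u ∈ W.nk K) {z : ℂ}
    (hz : ‖z - W.p K u‖ ≤ rho (W.m K)) :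
    ‖z - W.p K u‖ * (99 / 100) ≤ ‖W.v K u z‖ ∧ ‖W.v K u z‖ ≤ ‖z - W.p K u‖ * (101 / 100) := by
  have hr := rho_pos (big W K)
  obtain ⟨h1, h2, h3⟩ := W.vv K u hu
  have h4 := (hI (W.v K u) (W.p K u) (2 * rho (W.m K)) (by positivity) h1 h2
    (fun z hz => (h3 z (by simpa [dist_eq_norm] using hz)).1)).1 z
    (by rw [mem_ball, dist_eq_norm]; linarith) (W.p K u) (mem_ball_self (by positivity))
  rw [h2, sub_zero] at h4
  have h5 := norm_sub_norm_le (W.v K u z) (z - W.p K u)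
  have h6 := norm_sub_norm_le (z - W.p K u) (W.v K u z)
  rw [norm_sub_rev (z - W.p K u)] at h6
  constructor <;> linarith

theorem v_surj (hI : S_Inv) {K : ℤ} {u : GI} (hu : u ∈ W.nk K) {w : ℂ}
    (hw : ‖w‖ < rho (W.m K) * (41 / 100)) :
    ∃ z, ‖z - W.p K u‖ < rho (W.m K) * (42 / 100) ∧ W.v K u z = w := by
  have hr := rho_pos (big W K)
  obtain ⟨h1, h2, h3⟩ := W.vv K u hu
  obtain ⟨z, hz, hv⟩ := (hI (W.v K u) (W.p K u) (rho (W.m K) * (42 / 100)) (by positivity)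
    (h1.mono (ball_subset_ball (by linarith))) h2
    (fun z hz => (h3 z (by rw [mem_ball, dist_eq_norm] at hz; linarith)).1)).2.1 w (by linarith)
  exact ⟨z, by simpa [dist_eq_norm] using hz, hv⟩

theorem q_ne {K : ℤ} {u : GI} (hu : u ∈ W.nk K) : W.q K u ≠ 0 := by
  intro h
  have h1 := (W.qb K u hu).1
  have := dd_pos (W.m K)
  rw [h, abs_zero] at h1
  nlinarith

theorem t_ne {K : ℤ} {u : GI} (hu : u ∈ W.nk K) : W.t K u ≠ 0 := by
  have h1 := (W.qb K u hu).2.2.1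
  have h2 := q_ne W hu
  have : 0 < W.q K u ^ 2 := by positivity
  exact norm_pos_iff.1 (by linarith)

theorem t_le {K : ℤ} {u : GI} (hu : u ∈ W.nk K) :
    ‖W.t K u‖ ≤ rho1 (W.m K) * rho1 (W.m (W.ot K u)) / 2 := by
  obtain ⟨-, hp, -, hq, -, -⟩ := W.inv K u hu
  have h1 := (W.qb K u hu).2.1
  have h2 := (W.qb K u hu).2.2.2.1
  have h3 := (W.qb _ _ hp).2.1
  rw [hq, abs_neg] at h3
  have h4 := dd_sq_le (big W K)
  have h5 := dd_sq_le (big W (W.ot K u))
  have h6 : W.q K u ^ 2 = |W.q K u| * |W.q K u| := by rw [abs_mul_abs_self, sq]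
  have h7 : |W.q K u| * |W.q K u| ≤ (rho1 (W.m K) / 2) * (rho1 (W.m (W.ot K u)) / 2) :=
    mul_le_mul (by linarith) (by linarith) (abs_nonneg _) (by linarith [abs_nonneg (W.q K u)])
  linarith

theorem h_near {K : ℤ} {u : GI} (hu : u ∈ W.nk K) :
    |W.hr K u + 2 * W.q K u * Real.log (rho (W.m K) * (41 / 100)) - W.hb K| ≤ Uh W K / 500 := by
  have h1 := W.hre K u hu
  have h2 := log_near (big W K)
  have h3 := (W.qb K u hu).2.1
  have hm := cast_big (big W K)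
  have h4 : |2 * W.q K u * (Real.log (rho (W.m K) * (41 / 100)) - Real.log (dd (W.m K)))|
      ≤ 2 * (5 * dd (W.m K) ^ 2) * (W.m K / 10000) := by
    rw [abs_mul, abs_mul, abs_two]; gcongr
  have h5 := abs_add_le (W.hr K u + 2 * W.q K u * Real.log (dd (W.m K)) - W.hb K)
    (2 * W.q K u * (Real.log (rho (W.m K) * (41 / 100)) - Real.log (dd (W.m K))))
  rw [show W.hr K u + 2 * W.q K u * Real.log (dd (W.m K)) - W.hb K +
    2 * W.q K u * (Real.log (rho (W.m K) * (41 / 100)) - Real.log (dd (W.m K))) =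
    W.hr K u + 2 * W.q K u * Real.log (rho (W.m K) * (41 / 100)) - W.hb K by ring] at h5
  unfold Uh; linarith

theorem h_far {K : ℤ} {u : GI} (hu : u ∈ W.nk K) {r : ℝ} (h0 : 0 < r)
    (hr : r ≤ 4 * rho1 (W.m K)) :
    (0 < W.q K u → W.hr K u + 2 * W.q K u * Real.log r < W.hb K - Uh W K / 40) ∧
    (W.q K u < 0 → W.hb K + Uh W K / 40 < W.hr K u + 2 * W.q K u * Real.log r) := by
  have h1 := abs_le.1 (W.hre K u hu)
  have h2 := log_far (big W K) h0 hr
  have h3 := (W.qb K u hu).1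
  have hm := cast_big (big W K)
  have hU := Uh_pos W K
  have h4 : |W.q K u| * (Real.log r - Real.log (dd (W.m K))) ≤ -(dd (W.m K) ^ 2 * (W.m K / 50)) := by
    have : dd (W.m K) ^ 2 * (W.m K / 50) ≤ |W.q K u| * (W.m K / 50) := by gcongr
    nlinarith [abs_nonneg (W.q K u)]
  unfold Uh at *
  constructor
  · intro hq; rw [abs_of_pos hq] at h4; nlinarith
  · intro hq; rw [abs_of_neg hq] at h4; nlinarith

theorem h_far' {K : ℤ} {u : GI} (hu : u ∈ W.nk K) {r : ℝ} (h0 : 0 < r)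
    (h : W.hr K u + 2 * W.q K u * Real.log r ∈ Ioo (W.hb K - Uh W K / 40) (W.hb K + Uh W K / 40)) :
    4 * rho1 (W.m K) < r := by
  by_contra hr
  obtain ⟨h1, h2⟩ := h_far W hu h0 (not_lt.1 hr)
  rcases lt_or_gt_of_ne (q_ne W hu) with hq | hq
  · linarith [h2 hq, h.2]
  · linarith [h1 hq, h.1]

theorem ot_pos {k : ℤ} {u : GI} (hu : u ∈ W.nk (k + 1)) (hq : 0 < W.q (k + 1) u) :
    W.ot (k + 1) u = k := by
  rw [(W.inv _ u hu).1, if_pos hq]; ring

theorem ot_neg {k : ℤ} {u : GI} (hu : u ∈ W.nk k) (hq : W.q k u < 0) : W.ot k u = k + 1 := by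
  rw [(W.inv _ u hu).1, if_neg (not_lt.2 hq.le)]

/-- The data on the lower side of a neck. -/
theorem lowd {k : ℤ} {u : GI} (hu : u ∈ W.nk (k + 1)) (hq : 0 < W.q (k + 1) u) :
    W.par (k + 1) u ∈ W.nk k ∧ W.q k (W.par (k + 1) u) = -W.q (k + 1) u ∧
    W.cen k (W.par (k + 1) u) = W.cen (k + 1) u ∧
    W.hr (k + 1) u = W.hr k (W.par (k + 1) u) - 2 * W.q (k + 1) u * Real.log ‖W.t (k + 1) u‖ ∧
    ‖W.t (k + 1) u‖ ≤ rho1 (W.m (k + 1)) * rho1 (W.m k) / 2 := by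
  obtain ⟨-, h2, -, h4, -, h6⟩ := W.inv _ u hu
  have h7 := W.hma _ u hu
  have h8 := t_le W hu
  rw [ot_pos W hu hq] at h2 h4 h6 h7 h8
  exact ⟨h2, h4, h6, h7, h8⟩

theorem ne_up (k : ℤ) : ∃ u ∈ W.nk (k + 1), 0 < W.q (k + 1) u ∧ ‖(u : ℂ)‖ ≤ 2 := (W.ne (k + 1)).1

theorem gap (k : ℤ) : W.hb k + Uh W k / 40 < W.hb (k + 1) - Uh W (k + 1) / 40 := by
  obtain ⟨u, hu, hq, -⟩ := ne_up W k
  obtain ⟨h1, h2, -, h4, h5⟩ := lowd W hu hq
  have hr := rho1_pos (W.m (k + 1))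
  have hr' := rho1_pos (W.m k)
  have ht := norm_pos_iff.2 (t_ne W hu)
  have h6 := (h_far W hu hr (by linarith)).1 hq
  have h7 := (h_far W h1 (r := ‖W.t (k + 1) u‖ / rho1 (W.m (k + 1))) (by positivity)
    (by rw [div_le_iff₀ hr]; nlinarith)).2 (by linarith)
  rw [Real.log_div ht.ne' hr.ne', h2] at h7
  nlinarith

theorem step_le (k : ℤ) : W.hb (k + 1) - W.hb k ≤ 31 * (Uh W k + Uh W (k + 1)) := by
  obtain ⟨u, hu, hq, -⟩ := ne_up W k
  obtain ⟨h1, h2, -, h4, -⟩ := lowd W hu hq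
  have h5 := abs_le.1 (W.hre _ u hu)
  have h6 := abs_le.1 (W.hre _ _ h1)
  rw [h2] at h6
  obtain ⟨q1, q2, q3, -⟩ := W.qb _ u hu
  rw [abs_of_pos hq] at q1 q2
  have hd := dd_pos (W.m (k + 1))
  have hm := cast_big (big W (k + 1))
  have l1 : Real.log (dd (W.m k)) ≤ 0 := Real.log_nonpos (dd_pos _).le (dd_le_one _)
  have l2 : Real.log (dd (W.m (k + 1))) ≤ 0 := Real.log_nonpos (dd_pos _).le (dd_le_one _)
  have l3 : Real.log (dd (W.m (k + 1)) ^ 4 / 2) ≤ Real.log ‖W.t (k + 1) u‖ := by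
    refine Real.log_le_log (by positivity) (le_trans ?_ q3)
    have : (dd (W.m (k + 1)) ^ 2) ^ 2 ≤ W.q (k + 1) u ^ 2 := by gcongr
    nlinarith
  rw [Real.log_div (by positivity) (by norm_num), Real.log_pow, log_dd] at l3
  have l4 := Real.log_two_lt_d9
  have l5 : -Real.log ‖W.t (k + 1) u‖ ≤ 3 * W.m (k + 1) := by push_cast at l3; nlinarith
  have l6 : W.q (k + 1) u * -Real.log ‖W.t (k + 1) u‖
      ≤ 5 * dd (W.m (k + 1)) ^ 2 * (3 * W.m (k + 1)) :=
    (mul_le_mul_of_nonneg_left l5 hq.le).trans (by gcongr)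
  have l7 := mul_nonpos_of_nonneg_of_nonpos hq.le l1
  have l8 := mul_nonpos_of_nonneg_of_nonpos hq.le l2
  have u1 := Uh_pos W k
  have u2 := Uh_pos W (k + 1)
  unfold Uh at *
  nlinarith

theorem hb_bdd : ∃ H, ∀ k, |W.hb k - Uh W k / 40| ≤ H := by
  obtain ⟨H, hH⟩ := W.sumh
  have key : ∀ a b : ℤ, a ≤ b → 0 ≤ W.hb b - W.hb a ∧
      W.hb b - W.hb a ≤ 62 * ∑ K ∈ Finset.Icc a b, Uh W K - 31 * Uh W b := by
    intro a b hab
    induction b, hab using Int.leInduction with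
    | base => simp; linarith [Uh_pos W a]
    | succ b hab ih =>
      have h1 : Finset.Icc a (b + 1) = insert (b + 1) (Finset.Icc a b) := by
        ext x; simp; omega
      rw [h1, Finset.sum_insert (by simp)]
      have := step_le W b
      have := gap W b
      have := Uh_pos W b
      have := Uh_pos W (b + 1)
      constructor <;> linarith [ih.1, ih.2]
  refine ⟨|W.hb 0| + 63 * H, fun k => ?_⟩
  have h1 : Uh W k ≤ H := by simpa [Uh] using hH {k}
  have h2 := Uh_pos W k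
  have h3 := Uh_pos W 0
  have h4 := le_abs_self (W.hb 0)
  have h5 := neg_abs_le (W.hb 0)
  rw [abs_le]
  rcases le_total 0 k with hk | hk
  · have h6 := key 0 k hk
    have h7 : ∑ K ∈ Finset.Icc 0 k, Uh W K ≤ H := hH _
    constructor <;> linarith [h6.1, h6.2]
  · have h6 := key k 0 hk
    have h7 : ∑ K ∈ Finset.Icc k 0, Uh W K ≤ H := hH _
    constructor <;> linarith [h6.1, h6.2]

theorem cen_sep {K : ℤ} {u u' : GI} (hu : u ∈ W.nk K) (hu' : u' ∈ W.nk K) (h : u ≠ u') :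
    dd (W.m K) / 2 ≤ ‖W.cen K u - W.cen K u'‖ := by
  have h1 := (W.ce K u hu).2
  have h2 := (W.ce K u' hu').2
  have h3 := one_le_norm (sub_ne_zero.2 h)
  have h4 : ‖W.c K * u - W.c K * u'‖ = dd (W.m K) * ‖((u - u' : GI) : ℂ)‖ := by
    rw [← mul_sub, norm_mul, W.nc, map_sub]
  have hd := dd_pos (W.m K)
  rw [← norm_io_sub K]
  have h5 : W.c K * u - W.c K * u' = (io K (W.cen K u) - io K (W.cen K u'))
      - (io K (W.cen K u) - W.c K * u) + (io K (W.cen K u') - W.c K * u') := by ring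
  have h6 := norm_add_le ((io K (W.cen K u) - io K (W.cen K u'))
      - (io K (W.cen K u) - W.c K * u)) (io K (W.cen K u') - W.c K * u')
  have h7 := norm_sub_le (io K (W.cen K u) - io K (W.cen K u')) (io K (W.cen K u) - W.c K * u)
  rw [← h5, h4] at h6
  nlinarith

end Pool.Agent.P.MP_cc4a10_gt.PiecesP
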