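import Pool.Agent.P.MP_cc4a10_gt.St

/-!
Package Ref, part one: local structure and bounds of the kernels.
-/

open Set Filter Topology Complex Metric
open scoped ComplexConjugate Real

noncomputable section

namespace Pool.Agent.P.MP_cc4a10_gt.RefP

theorem Lm_add (μ a b : ℂ) : Lm μ (a + b) = Lm μ a + Lm μ b := by
  simp only [Lm, map_add]; ring
theorem Lm_sub (μ a b : ℂ) : Lm μ (a - b) = Lm μ a - Lm μ b := by
  simp only [Lm, map_sub]; ring
theorem Lm_neg (μ a : ℂ) : Lm μ (-a) = -Lm μ a := by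
  simp only [Lm, map_neg]; ring
theorem Lm_zero (μ : ℂ) : Lm μ 0 = 0 := by simp [Lm]

theorem norm_Lm_sub (μ a : ℂ) : ‖Lm μ a - a‖ = ‖μ‖ * ‖a‖ := by
  simp [Lm]

theorem Lm_lower {μ : ℂ} (hμ : ‖μ‖ ≤ 1 / 100) (a : ℂ) : ‖a‖ * (99 / 100) ≤ ‖Lm μ a‖ := by
  have h1 := norm_Lm_sub μ a
  have h2 : ‖a‖ ≤ ‖Lm μ a‖ + ‖Lm μ a - a‖ := by
    have := norm_sub_le (Lm μ a) (Lm μ a - a)
    rwa [sub_sub_cancel] at this
  nlinarith [norm_nonneg a]

theorem one_le_norm {u : GI} (h : u ≠ 0) : 1 ≤ ‖(u : ℂ)‖ := by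
  have h1 : 0 < u.norm := GaussianInt.norm_pos.2 h
  have h2 : (u.norm : ℝ) = Complex.normSq (u : ℂ) := GaussianInt.intCast_real_norm u
  have h3 : (1 : ℝ) ≤ u.norm := by exact_mod_cast h1
  rw [h2, Complex.normSq_eq_norm_sq] at h3
  nlinarith [norm_nonneg (u : ℂ)]

open Classical in
/-- Indicator of the lattice. -/
def ind (μ z : ℂ) : ℝ := if ∃ u : GI, z = Lm μ u then 1 else 0

theorem hl_apply (a h : ℂ) : hl a h = (a * h).re := rfl

/-- `hl` as a linear map. -/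
def hlL : ℂ →ₗ[ℝ] (ℂ →L[ℝ] ℝ) where
  toFun := hl
  map_add' a b := by ext h; simp [hl_apply]; ring
  map_smul' r a := by ext h; simp [hl_apply]; ring

theorem hl_mul (r : ℝ) (a : ℂ) : r • hl a = hl (r * a) := by
  have := hlL.map_smul r a
  rw [real_smul] at this
  exact this.symm

/-- The facts on one lattice that are used. -/
structure KF (E : Ell) (C : ℝ) (μ : ℂ) : Prop where
  mu : ‖μ‖ ≤ 1 / 100
  f0 : ∀ w : ℂ, ‖w‖ ≤ 9 / 10 → ‖E.F μ w‖ ≤ C
  f1 : ∀ w : ℂ, ‖w‖ ≤ 9 / 10 → ‖deriv (E.F μ) w‖ ≤ C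
  lip : ∀ w : ℂ, ‖w‖ ≤ 9 / 10 → ‖E.F μ w - E.F 0 w‖ ≤ C * ‖μ‖
  b : |bE μ - π| ≤ C * ‖μ‖
  cov : ∀ z : ℂ, ∃ u : GI, ‖z - Lm μ u‖ ≤ 72 / 100
  odd : ∀ z, E.Z μ (-z) = -E.Z μ z ∧ E.Gr μ (-z) = E.Gr μ z
  z0 : E.Z μ 0 = 0
  g0 : E.Gr μ 0 = 0
  rot : ∀ z, E.Gr 0 (I * z) = E.Gr 0 z
  off : ∀ z, (∀ u : GI, z ≠ Lm μ u) → HasFDerivAt (E.Gr μ) (hl (E.Z μ z)) z ∧
    DifferentiableAt ℂ (fun w => E.Z μ w + bE μ * conj w) z

theorem kf_of (h : S_Ker0) (E : Ell) : ∃ C : ℝ, 0 < C ∧ ∀ μ : ℂ, ‖μ‖ ≤ 1 / 100 → KF E C μ := by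
  obtain ⟨C, hC, H⟩ := h E
  refine ⟨C, hC, fun μ hμ => ?_⟩
  obtain ⟨a1, a2, a3, -, a5, a6, a7, -, a9, a10, -⟩ := H μ hμ
  refine ⟨hμ, fun w hw => ?_, fun w hw => ?_, fun w hw => ?_, a2, a3, a5, a6, a7,
    fun z => (a9 z).2.2.2.2.2.1, a10⟩
  · simpa using (a1 0 (by norm_num) w hw).1
  · simpa using (a1 1 (by norm_num) w hw).1
  · simpa using (a1 0 (by norm_num) w hw).2 0 (by norm_num)

variable {E : Ell} {C : ℝ} {μ : ℂ}

theorem KF.k1 (K : KF E C μ) (z0 : ℂ) :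
    DifferentiableAt ℂ (fun z => E.Z μ z + bE μ * conj z - ind μ z0 * (z - z0)⁻¹) z0 ∧
    HasFDerivAt (fun z => E.Gr μ z - ind μ z0 * Real.log ‖z - z0‖) (hl (E.Z μ z0)) z0 := by
  by_cases h : ∃ u : GI, z0 = Lm μ u
  · have hi : ind μ z0 = 1 := if_pos h
    obtain ⟨u, hu⟩ := h
    have ev : ∀ᶠ z in 𝓝 z0, ‖z - z0‖ < 9 / 10 := by
      filter_upwards [ball_mem_nhds z0 (show (0 : ℝ) < 9 / 10 by norm_num)] with z hz
      rwa [mem_ball, dist_eq_norm] at hz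
    have hb : ball (0 : ℂ) (19 / 20) ∈ 𝓝 (0 : ℂ) := ball_mem_nhds _ (by norm_num)
    have hF := E.hol μ K.mu
    have hF0 : deriv (E.F μ) 0 = 0 := by
      have := E.Zloc μ K.mu 0 (by norm_num)
      rw [K.z0] at this
      simpa using this.symm
    have eZ : ∀ z, E.Z μ z = E.Z μ (z - z0) := fun z => by
      rw [← E.Zper μ K.mu (z - z0) u, ← hu, sub_add_cancel]
    have eG : ∀ z, E.Gr μ z = E.Gr μ (z - z0) := fun z => by
      rw [← E.Gper μ K.mu (z - z0) u, ← hu, sub_add_cancel]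
    constructor
    · have d1 : DifferentiableAt ℂ (deriv (E.F μ)) (z0 - z0) := by
        rw [sub_self]
        exact (hF.deriv isOpen_ball).differentiableAt hb
      have d2 : DifferentiableAt ℂ (fun z => deriv (E.F μ) (z - z0) + bE μ * conj z0) z0 :=
        (DifferentiableAt.comp z0 (f := fun z => z - z0) d1
          (differentiableAt_id.sub_const z0)).add_const _
      refine d2.congr_of_eventuallyEq ?_
      filter_upwards [ev] with z hz
      rw [eZ, E.Zloc μ K.mu _ hz, hi, map_sub]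
      push_cast
      ring
    · have d1 : HasDerivAt (E.F μ) 0 (z0 - z0) := by
        rw [sub_self]
        have := (hF.differentiableAt hb).hasDerivAt
        rwa [hF0] at this
      have d2 : HasDerivAt (fun z => E.F μ (z - z0)) 0 z0 := by
        simpa using d1.comp_sub_const z0 z0
      have d3 := reCLM.hasFDerivAt.comp z0 (d2.hasFDerivAt.restrictScalars ℝ)
      have d4 := (((hasFDerivAt_id (𝕜 := ℝ) z0).sub_const z0).norm_sq.const_mul (bE μ / 2))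
      have d5 := d3.sub d4
      rw [eZ z0, sub_self, K.z0]
      refine (d5.congr_of_eventuallyEq ?_).congr_fderiv ?_
      · filter_upwards [ev] with z hz
        rw [eG, E.Gloc μ K.mu _ hz, hi]
        simp
        ring
      · ext; simp [hl_apply]
  · have hi : ind μ z0 = 0 := if_neg h
    push Not at h
    simpa [hi] using (K.off z0 h).symm

theorem KF.k2 (K : KF E C μ) {a : ℂ} (ha : a ≠ 0) (p z0 : ℂ) :
    DifferentiableAt ℂ (fun z => a⁻¹ * E.Z μ ((z - p) / a) + a⁻¹ * (conj a)⁻¹ * bE μ * conj z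
      - ind μ ((z0 - p) / a) * (z - z0)⁻¹) z0 ∧
    HasFDerivAt (fun z => E.Gr μ ((z - p) / a) - ind μ ((z0 - p) / a) * Real.log ‖(z - z0) / a‖)
      (hl (a⁻¹ * E.Z μ ((z0 - p) / a))) z0 := by
  obtain ⟨h1, h2⟩ := K.k1 ((z0 - p) / a)
  have d : HasDerivAt (fun z => (z - p) / a) (1 / a) z0 :=
    ((hasDerivAt_id z0).sub_const p).div_const a
  have e : ∀ z, (z - p) / a - (z0 - p) / a = (z - z0) / a := fun z => by ring
  constructor
  · have d2 := ((h1.comp z0 d.differentiableAt).const_mul a⁻¹).add_const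
      (a⁻¹ * (conj a)⁻¹ * bE μ * conj p)
    refine d2.congr_of_eventuallyEq (Eventually.of_forall fun z => ?_)
    simp only [Function.comp, e, map_div₀, map_sub, inv_div]
    have hc : conj a ≠ 0 := by simpa using ha
    field_simp
    ring
  · have d2 := h2.comp z0 (d.hasFDerivAt.restrictScalars ℝ)
    refine (d2.congr_of_eventuallyEq (Eventually.of_forall fun z => ?_)).congr_fderiv ?_
    · simp only [Function.comp, e]
    · refine ContinuousLinearMap.ext fun h => ?_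
      simp only [ContinuousLinearMap.comp_apply, hl_apply, ContinuousLinearMap.coe_restrictScalars',
        ContinuousLinearMap.toSpanSingleton_apply, smul_eq_mul]
      congr 1
      ring

theorem KF.babs (K : KF E C μ) (hC : 0 < C) : |bE μ| ≤ 4 + C := by
  have h1 := K.b
  have h2 := K.mu
  have h3 := Real.pi_lt_four
  have h4 := Real.pi_pos
  have h5 : C * ‖μ‖ ≤ C := by nlinarith
  rw [abs_le] at h1 ⊢
  constructor <;> linarith [h1.1, h1.2]

theorem KF.near (K : KF E C μ) (hC : 0 < C) {x : ℂ} (hx : ‖x‖ < 9 / 10) :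
    ‖E.Z μ x - x⁻¹‖ ≤ 4 + 2 * C := by
  rw [E.Zloc μ K.mu x hx, show x⁻¹ + deriv (E.F μ) x - bE μ * conj x - x⁻¹ =
    deriv (E.F μ) x - bE μ * conj x by ring]
  refine (norm_sub_le _ _).trans ?_
  have h1 := K.f1 x hx.le
  have h2 := K.babs hC
  rw [norm_mul, norm_real, Real.norm_eq_abs, norm_conj]
  nlinarith [abs_nonneg (bE μ), norm_nonneg x]

theorem KF.far (K : KF E C μ) (hC : 0 < C) {y : ℂ} (hy : ∀ w : GI, 1 / 20 ≤ ‖y - Lm μ w‖) :
    ‖E.Z μ y‖ ≤ 24 + 2 * C ∧ |E.Gr μ y| ≤ 24 + 2 * C := by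
  obtain ⟨u, hu⟩ := K.cov y
  have h0 := hy u
  rw [← sub_add_cancel y (Lm μ u), E.Zper μ K.mu, E.Gper μ K.mu]
  generalize y - Lm μ u = x at hu h0
  have hx : ‖x‖ < 9 / 10 := by linarith
  have hp : 0 < ‖x‖ := by linarith
  have hi : ‖x‖⁻¹ ≤ 20 := by
    rw [inv_le_comm₀ hp (by norm_num)]; linarith
  constructor
  · have h1 := K.near hC hx
    have h2 := norm_add_le (E.Z μ x - x⁻¹) x⁻¹
    rw [sub_add_cancel, norm_inv] at h2
    linarith
  · rw [E.Gloc μ K.mu x hx]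
    have h1 : Real.log ‖x‖ ≤ 0 := Real.log_nonpos hp.le (by linarith)
    have h2 : -Real.log ‖x‖ ≤ 20 := by
      rw [← Real.log_inv]
      linarith [Real.log_le_sub_one_of_pos (inv_pos.2 hp)]
    have h3 := abs_le.1 ((abs_re_le_norm _).trans (K.f0 x hx.le))
    have h4 := abs_le.1 (K.babs hC)
    have h5 : ‖x‖ ^ 2 ≤ 1 := by nlinarith
    have h6 : 0 ≤ ‖x‖ ^ 2 := by positivity
    rw [abs_le]
    constructor <;> nlinarith [h3.1, h3.2, h4.1, h4.2]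

theorem KF.half (K : KF E C μ) (K0 : KF E C 0) (hC : 0 < C) {x : ℂ} (hx : ‖x‖ = 1 / 2) :
    |E.Gr μ (Lm μ x) - E.Gr 0 x| ≤ (4 + 2 * C) * ‖μ‖ := by
  have hm := K.mu
  have hn := norm_nonneg μ
  have e1 : ‖Lm μ x - x‖ = ‖μ‖ / 2 := by rw [norm_Lm_sub, hx]; ring
  have e2 := abs_le.1 ((abs_norm_sub_norm_le (Lm μ x) x).trans e1.le)
  generalize Lm μ x = y at e1 e2 ⊢
  rw [hx] at e2
  have hy : ‖y‖ < 9 / 10 := by linarith [e2.2]
  have hy0 : 0 < ‖y‖ := by linarith [e2.1]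
  rw [E.Gloc μ hm y hy, E.Gloc 0 K0.mu x (by linarith), hx]
  have b0 : bE 0 = π := by simp [bE]
  have l1 : Real.log ‖y‖ - Real.log (1 / 2) ≤ ‖μ‖ := by
    rw [← Real.log_div hy0.ne' (by norm_num)]
    have := Real.log_le_sub_one_of_pos (show 0 < ‖y‖ / (1 / 2) by positivity)
    linarith [e2.2]
  have l2 : Real.log (1 / 2) - Real.log ‖y‖ ≤ 2 * ‖μ‖ := by
    rw [← Real.log_div (by norm_num) hy0.ne']
    have h1 := Real.log_le_sub_one_of_pos (show 0 < 1 / 2 / ‖y‖ by positivity)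
    have h2 : 1 / 2 / ‖y‖ ≤ 1 + 2 * ‖μ‖ := by
      rw [div_le_iff₀ hy0]; nlinarith [e2.1]
    linarith
  have f1 := K.lip y hy.le
  have f2 : ‖E.F 0 y - E.F 0 x‖ ≤ C * ‖y - x‖ := by
    refine (convex_closedBall (0 : ℂ) (9 / 10)).norm_image_sub_le_of_norm_deriv_le
      (fun w hw => (E.hol 0 K0.mu).differentiableAt (isOpen_ball.mem_nhds ?_))
      (fun w hw => K0.f1 w (by simpa using hw)) (by simp [hx]; norm_num) (by simpa using hy.le)
    exact closedBall_subset_ball (by norm_num) hw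
  have f3 := norm_add_le (E.F μ y - E.F 0 y) (E.F 0 y - E.F 0 x)
  rw [sub_add_sub_cancel] at f3
  have f4 := abs_le.1 ((abs_re_le_norm _).trans f3)
  rw [sub_re] at f4
  rw [e1] at f2
  have g1 := abs_le.1 K.b
  have g2 : ‖y‖ ^ 2 ≤ 1 / 4 + ‖μ‖ := by nlinarith [e2.2]
  have g3 : 1 / 4 - ‖μ‖ ≤ ‖y‖ ^ 2 := by nlinarith [e2.1]
  have g4 := Real.pi_lt_four
  have g5 := Real.pi_pos
  have g6 : (bE μ - π) * ‖y‖ ^ 2 ≤ C * ‖μ‖ := by nlinarith [g1.2, mul_nonneg hC.le hn]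
  have g7 : -(C * ‖μ‖) ≤ (bE μ - π) * ‖y‖ ^ 2 := by nlinarith [g1.1, mul_nonneg hC.le hn]
  rw [b0, abs_le]
  constructor <;> nlinarith [f4.1, f4.2]

theorem ts_diff {m : ℕ} {f : GI → ℂ → ℂ} {z0 : ℂ} (h : ∀ u, DifferentiableAt ℂ (f u) z0) :
    DifferentiableAt ℂ (fun z => ts m (fun u => f u z)) z0 := by
  unfold ts
  exact (DifferentiableAt.fun_sum fun a _ => DifferentiableAt.fun_sum fun b _ => h _).const_smul _

theorem ts_fderiv {m : ℕ} {f : GI → ℂ → ℝ} {f' : GI → ℂ →L[ℝ] ℝ} {z0 : ℂ}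
    (h : ∀ u, HasFDerivAt (f u) (f' u) z0) :
    HasFDerivAt (fun z => ts m (fun u => f u z)) (ts m f') z0 := by
  unfold ts
  exact (HasFDerivAt.fun_sum fun a _ => HasFDerivAt.fun_sum fun b _ => h _).const_smul
    ((2 : ℝ) ^ m)⁻¹

end Pool.Agent.P.MP_cc4a10_gt.RefP
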