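import Pool.Agent.P.MP_cc4a10_gt.Ref1

/-!
Package Ref, part two: the distribution relation for the unperturbed level.
-/

open Set Filter Topology Complex Metric
open scoped ComplexConjugate Real

noncomputable section

namespace Pool.Agent.P.MP_cc4a10_gt.RefP

/-- The lattice parameter in the frame of the level. -/
def mu' (l : Lv) (μ : ℂ) : ℂ := μ * conj l.c / l.c
def pp (l : Lv) (μ : ℂ) (u : GI) : ℂ := Lm μ (l.c * u)
def yy (l : Lv) (μ : ℂ) (a : GI) (z : ℂ) : ℂ := (z - pp l μ a) / (2 * l.c)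
def sm {V : Type} [Add V] (f : GI → V) : V := f om + f gi + f 1
def RZ (E : Ell) (l : Lv) (μ z : ℂ) : ℂ :=
  sm fun a => (q0 l a : ℂ) * ((2 * l.c)⁻¹ * E.Z (mu' l μ) (yy l μ a z))
def RG (E : Ell) (l : Lv) (μ z : ℂ) : ℝ := sm fun a => q0 l a * E.Gr (mu' l μ) (yy l μ a z)
def ee (l : Lv) (μ z : ℂ) : ℝ := sm fun a => q0 l a * ind (mu' l μ) (yy l μ a z)

open Classical in
/-- The facts on the level that are used. -/
structure LF (l : Lv) : Prop where
  ok : l.ok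
  per : Per l.m (q0 l)
  evn : ∀ u, q0 l (-u) = q0 l u
  neu : ts l.m (q0 l) = 0
  qb : ∀ u, |q0 l u| ≤ 4 * dd l.m ^ 2
  nc : ‖l.c‖ = dd l.m
  un : ∃ w0 v : GI, l.c * ((om ^ l.m : GI) : ℂ) = w0 ∧ w0 * v = 1
  one : ∀ u, ts l.m (fun w => if om ^ l.m ∣ w - u then q0 l w else 0) = q0 l u

theorem lf_of (hB : S_Box) (hD : S_Dip) {l : Lv} (h : l.ok) : LF l := by
  obtain ⟨-, -, a3, a4, a5, -, a7, a8, ⟨w0, a9, a10⟩, -⟩ := hD l h
  obtain ⟨v, hv⟩ := a10.exists_right_inv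
  exact ⟨h, a3, fun u => (a4 u).1, a5, a7, a8, ⟨w0, v, a9, hv⟩,
    ((hB l.m).2.2.2.2.2.1 ℝ (q0 l) a3).1⟩

variable {E : Ell} {C : ℝ} {μ : ℂ} {l : Lv}

theorem LF.c0 (L : LF l) : l.c ≠ 0 := by
  rw [← norm_pos_iff, L.nc]; exact dd_pos _

theorem LF.nmu (L : LF l) (μ : ℂ) : ‖mu' l μ‖ = ‖μ‖ := by
  have := norm_pos_iff.2 L.c0
  simp only [mu', norm_div, norm_mul, norm_conj]
  field_simp

theorem LF.Lm_c (L : LF l) (μ z : ℂ) : Lm μ (l.c * z) = l.c * Lm (mu' l μ) z := by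
  have := L.c0
  simp only [Lm, mu', map_mul]
  field_simp

theorem pp_add (u w : GI) : pp l μ (u + w) = pp l μ u + pp l μ w := by
  simp only [pp, map_add, mul_add, Lm_add]
theorem pp_neg (u : GI) : pp l μ (-u) = -pp l μ u := by
  simp only [pp, map_neg, mul_neg, Lm_neg]
theorem pp_sub (u w : GI) : pp l μ (u - w) = pp l μ u - pp l μ w := by
  simp only [pp, map_sub, mul_sub, Lm_sub]

theorem LF.pp_two (L : LF l) (μ : ℂ) (w : GI) : pp l μ (2 * w) = 2 * l.c * Lm (mu' l μ) w := by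
  have e : ((2 * w : GI) : ℂ) = w + w := by rw [two_mul, map_add]
  rw [pp, L.Lm_c, e, Lm_add]; ring

theorem LF.yy_sub (L : LF l) (μ : ℂ) (a w : GI) (z : ℂ) :
    yy l μ a z - Lm (mu' l μ) w = (z - pp l μ (a + 2 * w)) / (2 * l.c) := by
  have := L.c0
  rw [pp_add, L.pp_two, yy]
  field_simp
  ring

theorem LF.sep (L : LF l) (hμ : ‖μ‖ ≤ 1 / 100) {u w : GI} (h : u ≠ w) :
    dd l.m * (99 / 100) ≤ ‖pp l μ u - pp l μ w‖ := by
  rw [← pp_sub]
  refine le_trans ?_ (Lm_lower hμ _)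
  rw [norm_mul, L.nc]
  have h1 := one_le_norm (sub_ne_zero.2 h)
  have h2 := dd_pos l.m
  nlinarith

theorem LF.inj (L : LF l) (hμ : ‖μ‖ ≤ 1 / 100) {u w : GI} (h : pp l μ u = pp l μ w) : u = w := by
  by_contra hn
  have h1 := L.sep hμ hn
  rw [h, sub_self, norm_zero] at h1
  linarith [dd_pos l.m]

theorem LF.yy_eq (L : LF l) (μ : ℂ) (a w : GI) (z : ℂ) :
    yy l μ a z = Lm (mu' l μ) w ↔ z = pp l μ (a + 2 * w) := by
  rw [← sub_eq_zero, L.yy_sub, div_eq_zero_iff, sub_eq_zero]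
  simp [L.c0]

theorem LF.coarse (L : LF l) (μ : ℂ) (w : GI) :
    ∃ x : GI, Lm μ w = pp l μ (om ^ l.m * x) ∧ ∃ y : GI, om ^ l.m * x = 2 * y := by
  obtain ⟨w0, v, h1, h2⟩ := L.un
  refine ⟨v * w, ?_, ?_⟩
  · rw [pp, map_mul, ← mul_assoc, h1, ← map_mul, ← mul_assoc, h2, one_mul]
  · obtain ⟨k, hk⟩ := Nat.exists_eq_add_of_le L.ok.1
    refine ⟨gi * om ^ k * (v * w), ?_⟩
    rw [hk, pow_add, show om ^ 2 = 2 * gi by decide]
    ring

theorem LF.fine (L : LF l) (μ : ℂ) (x : GI) : ∃ w : GI, pp l μ (om ^ l.m * x) = Lm μ w := by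
  obtain ⟨w0, v, h1, -⟩ := L.un
  exact ⟨w0 * x, by rw [pp, map_mul, ← mul_assoc, h1, ← map_mul]⟩

theorem q0_two (l : Lv) (a w : GI) : q0 l (a + 2 * w) = q0 l a := by
  have h1 : Odd (a + 2 * w).im ↔ Odd a.im := by
    simp [Int.odd_iff]
  have h2 : Odd (a + 2 * w).re ↔ Odd a.re := by
    simp [Int.odd_iff]
  simp only [q0, pat, h1, h2]

theorem cls (u a : GI) : (∃ w, u = a + 2 * w) ↔ u.re % 2 = a.re % 2 ∧ u.im % 2 = a.im % 2 := by
  constructor
  · rintro ⟨w, rfl⟩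
    simp
  · rintro ⟨h1, h2⟩
    refine ⟨⟨(u.re - a.re) / 2, (u.im - a.im) / 2⟩, ?_⟩
    ext <;> simp <;> omega

open Classical in
theorem LF.ind_pp (L : LF l) (hμ : ‖μ‖ ≤ 1 / 100) (a u : GI) :
    ind (mu' l μ) (yy l μ a (pp l μ u)) = if ∃ w, u = a + 2 * w then 1 else 0 := by
  unfold ind
  congr 1
  simp only [L.yy_eq]
  exact propext ⟨fun ⟨w, h⟩ => ⟨w, L.inj hμ h⟩, fun ⟨w, h⟩ => ⟨w, congrArg _ h⟩⟩

theorem LF.ee_pp (L : LF l) (hμ : ‖μ‖ ≤ 1 / 100) (u : GI) : ee l μ (pp l μ u) = q0 l u := by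
  simp only [ee, sm, L.ind_pp hμ, cls]
  rcases Int.emod_two_eq_zero_or_one u.re with h1 | h1 <;>
    rcases Int.emod_two_eq_zero_or_one u.im with h2 | h2 <;>
    simp [q0, pat, Int.odd_iff, h1, h2, om, gi]

theorem LF.ee_off (L : LF l) {z : ℂ} (h : ∀ u, z ≠ pp l μ u) : ee l μ z = 0 := by
  have : ∀ a, ind (mu' l μ) (yy l μ a z) = 0 := fun a => by
    refine if_neg ?_
    rintro ⟨w, hw⟩
    exact h _ ((L.yy_eq μ a w z).1 hw)
  simp [ee, sm, this]

theorem LF.ts_ind (L : LF l) (hμ : ‖μ‖ ≤ 1 / 100) (z : ℂ) :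
    ts l.m (fun u => q0 l u * ind μ (z - pp l μ u)) = ee l μ z := by
  classical
  by_cases h : ∃ u, z = pp l μ u
  · obtain ⟨u, rfl⟩ := h
    rw [L.ee_pp hμ, ← L.one u]
    congr 1
    funext w
    unfold ind
    by_cases hd : om ^ l.m ∣ w - u
    · rw [if_pos hd, if_pos, mul_one]
      obtain ⟨x, hx⟩ := hd
      obtain ⟨y, hy⟩ := L.fine μ (-x)
      exact ⟨y, by rw [← hy, ← pp_sub, mul_neg, ← hx, neg_sub]⟩
    · rw [if_neg hd, if_neg, mul_zero]
      rintro ⟨y, hy⟩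
      obtain ⟨x, hx, -⟩ := L.coarse μ y
      rw [hx, ← pp_sub] at hy
      exact hd (dvd_sub_comm.1 ⟨x, L.inj hμ hy⟩)
  · push Not at h
    rw [L.ee_off h]
    have : ∀ u, ind μ (z - pp l μ u) = 0 := fun u => by
      refine if_neg ?_
      rintro ⟨y, hy⟩
      obtain ⟨x, hx, -⟩ := L.coarse μ y
      refine h (u + om ^ l.m * x) ?_
      rw [pp_add, ← hx, ← hy]; ring
    simp [this]

theorem sm_q0 (l : Lv) : sm (q0 l) = 0 := by
  simp [sm, q0, pat, om, gi]; ring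

theorem psi0 (z : ℂ) : psi E l ⟨μ, 0, 0⟩ z = ts l.m (fun u => (q0 l u : ℂ) * E.Z μ (z - pp l μ u)) := by
  simp [psi, qq, pos, pp]
theorem ht0 (z : ℂ) : ht E l ⟨μ, 0, 0⟩ z = ts l.m (fun u => q0 l u * E.Gr μ (z - pp l μ u)) := by
  simp [ht, qq, pos, pp]

theorem LF.yy_shift (L : LF l) (μ : ℂ) (a w : GI) (z : ℂ) :
    yy l μ a (z + pp l μ (2 * w)) = yy l μ a z + Lm (mu' l μ) w := by
  have := L.c0
  rw [L.pp_two, yy, yy]
  field_simp
  ring

theorem LF.yy_neg (L : LF l) (μ : ℂ) (a : GI) (z : ℂ) :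
    yy l μ a (-z) = -(yy l μ a z + Lm (mu' l μ) a) := by
  rw [← L.yy_shift, two_mul, pp_add, yy, yy]
  ring

theorem psi_eq (L : LF l) (K : KF E C μ) (K' : KF E C (mu' l μ)) (z : ℂ) :
    psi E l ⟨μ, 0, 0⟩ z = RZ E l μ z := by
  have hc : 2 * l.c ≠ 0 := mul_ne_zero two_ne_zero L.c0
  have hd : Differentiable ℂ (fun z => psi E l ⟨μ, 0, 0⟩ z - RZ E l μ z) := by
    intro z0
    have d1 := ts_diff (m := l.m) fun u => (K.k2 one_ne_zero (pp l μ u) z0).1.const_mul (q0 l u : ℂ)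
    have d2 := fun a => (K'.k2 hc (pp l μ a) z0).1.const_mul (q0 l a : ℂ)
    refine (d1.sub (((d2 om).add (d2 gi)).add (d2 1))).congr_of_eventuallyEq
      (Eventually.of_forall fun z => ?_)
    have e1 := congrArg (fun x : ℝ => (x : ℂ)) (L.ts_ind K.mu z0)
    have e2 := congrArg (fun x : ℝ => (x : ℂ)) L.neu
    have e3 := congrArg (fun x : ℝ => (x : ℂ)) (sm_q0 l)
    simp only [ts_ofReal, ee, sm, yy] at e1 e2 e3
    push_cast at e1 e2 e3
    have e4 : ∀ u, (q0 l u : ℂ) * (1⁻¹ * E.Z μ ((z - pp l μ u) / 1) +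
        1⁻¹ * (conj (1 : ℂ))⁻¹ * bE μ * conj z - ind μ ((z0 - pp l μ u) / 1) * (z - z0)⁻¹) =
        q0 l u * E.Z μ (z - pp l μ u) + (bE μ * conj z) * q0 l u -
          (z - z0)⁻¹ * (q0 l u * ind μ (z0 - pp l μ u)) := fun u => by
      simp only [inv_one, div_one, map_one]; ring
    simp only [Pi.sub_apply, Pi.add_apply, e4, ts_sub, ts_add, ts_mul_left, e1, e2, psi0, RZ, sm, yy]
    linear_combination ((2 * l.c)⁻¹ * (conj (2 * l.c))⁻¹ * bE (mu' l μ) * conj z) * e3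
  have hp : ∀ z (w : GI), psi E l ⟨μ, 0, 0⟩ (z + Lm μ w) - RZ E l μ (z + Lm μ w) =
      psi E l ⟨μ, 0, 0⟩ z - RZ E l μ z := by
    intro z w
    obtain ⟨x, hx, y, hy⟩ := L.coarse μ w
    congr 1
    · simp only [psi0, add_sub_right_comm, E.Zper μ K.mu]
    · simp only [RZ, hx, hy, L.yy_shift, E.Zper _ K'.mu]
  have ho : psi E l ⟨μ, 0, 0⟩ (-z) - RZ E l μ (-z) = -(psi E l ⟨μ, 0, 0⟩ z - RZ E l μ z) := by
    have h1 : Per l.m (fun u => (q0 l u : ℂ) * E.Z μ (-z - pp l μ u)) := by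
      intro u w
      obtain ⟨y, hy⟩ := L.fine μ (-w)
      have : -z - pp l μ (u + om ^ l.m * w) = -z - pp l μ u + Lm μ y := by
        rw [← hy, mul_neg, pp_neg, pp_add]; ring
      simp only [L.per u w, this, E.Zper μ K.mu]
    have h2 : ∀ u, -z - pp l μ (-u) = -(z - pp l μ u) := fun u => by rw [pp_neg]; ring
    rw [psi0, psi0, ← ts_neg_arg h1]
    simp only [h2, L.evn, (K.odd _).1, mul_neg, ts_neg, RZ, sm, L.yy_neg, (K'.odd _).1,
      E.Zper _ K'.mu]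
    ring
  have hb : Bornology.IsBounded (range fun z => psi E l ⟨μ, 0, 0⟩ z - RZ E l μ z) := by
    refine ((isCompact_closedBall (0 : ℂ) 1).image hd.continuous).isBounded.subset ?_
    rintro _ ⟨z, rfl⟩
    obtain ⟨u, hu⟩ := K.cov z
    refine ⟨z - Lm μ u, by simpa using hu.trans (by norm_num), ?_⟩
    have := hp (z - Lm μ u) u
    rw [sub_add_cancel] at this
    exact this.symm
  have := hd.apply_eq_apply_of_bounded hb z (-z)
  rw [ho] at this
  linear_combination this / 2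

theorem LF.isol (L : LF l) (hμ : ‖μ‖ ≤ 1 / 100) (z0 : ℂ) :
    ∀ᶠ z in 𝓝 z0, z ≠ z0 → ∀ u, z ≠ pp l μ u := by
  have hd := dd_pos l.m
  by_cases h : ∃ u, ‖z0 - pp l μ u‖ < dd l.m / 4 ∧ z0 ≠ pp l μ u
  · obtain ⟨u, h1, h2⟩ := h
    filter_upwards [ball_mem_nhds z0 (norm_pos_iff.2 (sub_ne_zero.2 h2))] with z hz _ w hw
    rw [mem_ball, dist_eq_norm, hw] at hz
    have hn : w ≠ u := by
      rintro rfl
      rw [norm_sub_rev] at hz
      exact lt_irrefl _ hz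
    have h3 := L.sep hμ hn
    have h4 := norm_add_le (pp l μ w - z0) (z0 - pp l μ u)
    rw [sub_add_sub_cancel] at h4
    linarith
  · filter_upwards [ball_mem_nhds z0 (show 0 < dd l.m / 4 by positivity)] with z hz hn w hw
    rw [mem_ball, dist_eq_norm, hw, norm_sub_rev] at hz
    exact h ⟨w, hz, fun e => hn (hw.trans e.symm)⟩

theorem ht_eq (L : LF l) (K : KF E C μ) (K' : KF E C (mu' l μ)) : ∃ κ : ℝ, ∀ z,
    ht E l ⟨μ, 0, 0⟩ z = RG E l μ z - ee l μ z * Real.log (2 * dd l.m) + κ := by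
  have hc : 2 * l.c ≠ 0 := mul_ne_zero two_ne_zero L.c0
  have hd : ∀ z0, HasFDerivAt (fun z => ht E l ⟨μ, 0, 0⟩ z - RG E l μ z +
      ee l μ z * Real.log (2 * dd l.m)) (0 : ℂ →L[ℝ] ℝ) z0 := by
    intro z0
    have d1 := ts_fderiv (m := l.m) fun u => (K.k2 one_ne_zero (pp l μ u) z0).2.const_mul (q0 l u)
    have d2 := fun a => (K'.k2 hc (pp l μ a) z0).2.const_mul (q0 l a)
    refine (((d1.sub (((d2 om).add (d2 gi)).add (d2 1))).add_const
      (ee l μ z0 * Real.log (2 * dd l.m))).congr_of_eventuallyEq ?_).congr_fderiv ?_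
    · filter_upwards [L.isol K.mu z0] with z hz
      have e1 := L.ts_ind K.mu z0
      have e4 : ∀ u, q0 l u * (E.Gr μ ((z - pp l μ u) / 1) -
          ind μ ((z0 - pp l μ u) / 1) * Real.log ‖(z - z0) / 1‖) =
          q0 l u * E.Gr μ (z - pp l μ u) -
            Real.log ‖z - z0‖ * (q0 l u * ind μ (z0 - pp l μ u)) := fun u => by
        simp only [div_one]; ring
      simp only [Pi.sub_apply, Pi.add_apply, e4, ts_sub, ts_mul_left_real, e1, ht0, RG, sm]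
      by_cases h : z = z0
      · subst h
        simp [yy]
      · have h0 : ‖z - z0‖ ≠ 0 := norm_ne_zero_iff.2 (sub_ne_zero.2 h)
        have h1 : ‖(z - z0) / (2 * l.c)‖ = ‖z - z0‖ / (2 * dd l.m) := by
          rw [norm_div, norm_mul, L.nc]; simp
        rw [L.ee_off (hz h), h1, Real.log_div h0 (by have := dd_pos l.m; positivity)]
        simp only [ee, sm, yy]
        ring
    · have e1 := psi_eq L K K' z0
      have e2 := ts_map hlL l.m (fun u => (q0 l u : ℂ) * E.Z μ (z0 - pp l μ u))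
      have e3 := fun a b => hlL.map_add a b
      change ∀ a b, hl (a + b) = hl a + hl b at e3
      change hl _ = ts l.m (fun u => hl _) at e2
      simp only [hl_mul, inv_one, one_mul, div_one, ← e2, ← e3]
      rw [← psi0, e1]
      exact sub_self _
  refine ⟨ht E l ⟨μ, 0, 0⟩ 0 - RG E l μ 0 + ee l μ 0 * Real.log (2 * dd l.m), fun z => ?_⟩
  have := is_const_of_fderiv_eq_zero (𝕜 := ℝ) (fun z => (hd z).differentiableAt)
    (fun z => (hd z).fderiv) z 0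
  linarith

end Pool.Agent.P.MP_cc4a10_gt.RefP
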