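import Pool.Agent.P.MP_cc4a10_gt.St

/-! Sector and size of `Om` and `p` on the whole square. -/

open Set Filter Topology Complex Metric
open scoped ComplexConjugate Real

noncomputable section

namespace Pool.Agent.P.MP_cc4a10_gt.SecP

theorem np_of_sq {θ : ℂ} (h : Sq θ) : NP θ := fun w hw => by
  have h1 : ∀ n : ℤ, |2 * π * n| ≤ π → n = 0 := fun n hn => by
    rw [abs_mul, abs_of_pos (by positivity : 0 < 2 * π), ← Int.cast_abs] at hn
    by_contra h0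
    have : (1 : ℝ) ≤ (|n| : ℤ) := by exact_mod_cast Int.one_le_abs h0
    nlinarith [Real.pi_pos]
  have h2 : θ.re = 2 * π * w.re := by simp [hw, GaussianInt.intCast_re]
  have h3 : θ.im = 2 * π * w.im := by simp [hw, GaussianInt.intCast_im]
  refine h.1 (Complex.ext ?_ ?_)
  · rw [h2, h1 w.re (h2 ▸ h.2.1)]; simp
  · rw [h3, h1 w.im (h3 ▸ h.2.2)]; simp

theorem small {e s : ℝ} {p c β : ℂ} (he : 6875 / 1000 ≤ e) (he' : e ≤ 6876 / 1000) (hs : 0 ≤ s)
    (hs' : s ≤ 36 / 100) (hβ : ‖β‖ = 1) (hp : ‖p + π * β‖ ≤ 6 / 10 * s)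
    (hc : ‖e + p - c - (2735 / 10000 * s + β * s / 8)‖ ≤ 19 / 1000 * s) :
    ‖(e + p) ^ 2 - c ^ 2 - (547 / 1000 * e * s : ℝ)‖ ≤ 1411 / 1000 * s := by
  obtain ⟨X, hX⟩ : ∃ X, X = e + p - c - (2735 / 10000 * s + β * s / 8) := ⟨_, rfl⟩
  obtain ⟨Y, hY⟩ : ∃ Y, Y = p + π * β := ⟨_, rfl⟩
  rw [← hX] at hc
  rw [← hY] at hp
  have h1 := Real.pi_gt_d4
  have h2 := Real.pi_lt_d4
  have hB : ‖e + p - c‖ ≤ 4175 / 10000 * s := by
    rw [show e + p - c = X + ((2735 / 10000 * s : ℝ) + β * (s / 8 : ℝ)) by rw [hX]; push_cast; ring]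
    refine (norm_add_le _ _).trans ?_
    have := norm_add_le ((2735 / 10000 * s : ℝ) : ℂ) (β * (s / 8 : ℝ))
    rw [norm_mul, hβ, norm_real, norm_real, Real.norm_of_nonneg (by positivity),
      Real.norm_of_nonneg (by positivity)] at this
    linarith
  have hD : ‖2 * Y - (e + p - c)‖ ≤ 5823 / 10000 := by
    refine (norm_sub_le _ _).trans ?_
    rw [norm_mul, Complex.norm_two]
    linarith
  have hA : ‖((2 * e : ℝ) : ℂ) - (2 * π : ℝ) * β‖ ≤ 20036 / 1000 := by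
    refine (norm_sub_le _ _).trans ?_
    rw [norm_mul, hβ, norm_real, norm_real, Real.norm_of_nonneg (by positivity),
      Real.norm_of_nonneg (by positivity)]
    linarith
  have e1 : (e + p) ^ 2 - c ^ 2 - (547 / 1000 * e * s : ℝ)
      = ((e / 4 - 547 / 1000 * π) * s : ℝ) * β - (π / 4 * s : ℝ) * β ^ 2
        + (((2 * e : ℝ) : ℂ) - (2 * π : ℝ) * β) * X + (2 * Y - (e + p - c)) * (e + p - c) := by
    rw [hX, hY]
    push_cast
    ring
  have a1 : ‖(((e / 4 - 547 / 1000 * π) * s : ℝ) : ℂ) * β‖ ≤ 1 / 1000 * s := by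
    rw [norm_mul, hβ, norm_real, mul_one, Real.norm_of_nonneg (mul_nonneg (by linarith) hs)]
    gcongr
    linarith
  have a2 : ‖((π / 4 * s : ℝ) : ℂ) * β ^ 2‖ ≤ 7854 / 10000 * s := by
    rw [norm_mul, norm_pow, hβ, norm_real, one_pow, mul_one, Real.norm_of_nonneg (by positivity)]
    exact mul_le_mul_of_nonneg_right (by linarith) hs
  have a3 : ‖(((2 * e : ℝ) : ℂ) - (2 * π : ℝ) * β) * X‖ ≤ 20036 / 1000 * (19 / 1000 * s) := by
    rw [norm_mul]; gcongr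
  have a4 : ‖(2 * Y - (e + p - c)) * (e + p - c)‖ ≤ 5823 / 10000 * (4175 / 10000 * s) := by
    rw [norm_mul]; gcongr
  rw [e1]
  refine (norm_add_le _ _).trans ((add_le_add ((norm_add_le _ _).trans
    (add_le_add ((norm_sub_le _ _).trans (add_le_add a1 a2)) a3)) a4).trans ?_)
  linarith

end SecP

open SecP in
theorem pSec (hE : S_Ex) (hE0 : S_Ex0) (hS : S_NumS) (hA : S_NumA) : S_Sec := by
  intro E θ b h
  obtain ⟨-, hp, hc⟩ := hE θ b (np_of_sq h) h.2.1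
  obtain ⟨he, -, he1, he2⟩ := hE0 E
  have hO : Om (ee E) b.sy = OmE θ := by rw [Om, he, hp, hc, OmE]
  rw [hO, hp]
  have h1 := Real.pi_gt_d4
  have h2 := Real.pi_lt_d4
  rcases le_total (6 / 10) ‖θ‖ with hr | hr
  · obtain ⟨h3, h4⟩ := hA θ h.2.1 h.2.2 hr
    refine ⟨le_trans ?_ h3, h4⟩
    rw [Complex.sq_norm, normSq_apply]
    nlinarith [abs_mul_abs_self θ.re, abs_mul_abs_self θ.im, abs_nonneg θ.re, abs_nonneg θ.im,
      h.2.1, h.2.2]
  · obtain ⟨h3, h4⟩ := hS θ h.1 (by linarith)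
    have hs : 0 ≤ ‖θ‖ ^ 2 := sq_nonneg _
    have hs' : ‖θ‖ ^ 2 ≤ 36 / 100 := by nlinarith [norm_nonneg θ]
    have hβ : ‖conj θ / θ‖ = 1 := by
      rw [norm_div, norm_conj, div_self (norm_ne_zero_iff.2 h.1)]
    have h5 : conj θ ^ 2 = conj θ / θ * (‖θ‖ ^ 2 : ℝ) := by
      rw [Complex.sq_norm, ← mul_conj]
      field_simp [h.1]
    rw [mul_div_assoc] at h3
    rw [h5, ← ofReal_pow] at h4
    have h6 := small he1 he2 hs hs' hβ h3 (h4.trans (by gcongr; linarith))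
    obtain ⟨D, hD⟩ : ∃ D, D = OmE θ - (547 / 1000 * eE * ‖θ‖ ^ 2 : ℝ) := ⟨_, rfl⟩
    have h7 : ‖D‖ ≤ 1411 / 1000 * ‖θ‖ ^ 2 := hD ▸ h6
    have h8 : (OmE θ).re = D.re + 547 / 1000 * eE * ‖θ‖ ^ 2 := by
      rw [hD, sub_re, ofReal_re, sub_add_cancel]
    have h9 : (OmE θ).im = D.im := by rw [hD, sub_im, ofReal_im, sub_zero]
    have h10 : 376 / 100 * ‖θ‖ ^ 2 ≤ 547 / 1000 * eE * ‖θ‖ ^ 2 := by gcongr; linarith
    have h11 : 2 * |D.im| - D.re ≤ 23 / 10 * ‖D‖ := by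
      refine le_of_sq_le_sq ?_ (by positivity)
      rw [mul_pow, Complex.sq_norm, normSq_apply]
      nlinarith [abs_mul_abs_self D.im, sq_nonneg (|D.im| + 2 * D.re), mul_self_nonneg D.re,
        mul_self_nonneg D.im]
    rw [h8, h9]
    refine ⟨by linarith [neg_abs_le D.re, abs_re_le_norm D], by linarith, ?_⟩
    have h12 := norm_sub_le (pE θ + π * (conj θ / θ)) (π * (conj θ / θ))
    rw [add_sub_cancel_right, norm_mul, hβ, norm_real, Real.norm_of_nonneg Real.pi_pos.le] at h12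
    linarith

end Pool.Agent.P.MP_cc4a10_gt
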