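import Pool.Agent.P.MP_cc4a10_gt.ShpK

/-!
Package Shp, part 2: comparison of the potential with the unperturbed one.
-/

open Set Filter Topology Complex Metric
open scoped ComplexConjugate Real

noncomputable section

namespace Pool.Agent.P.MP_cc4a10_gt.ShpP

theorem red_le (hB : S_Box) (m : ℕ) (u0 : GI) {F G : GI → ℝ} (hF : Per m F) (hG : Per m G)
    (h : ∀ w : GI, ‖((u0 - w : GI) : ℂ)‖ * dd m ≤ 7072 / 10000 →
      Hh m (u0 - w) = 1 + ‖((u0 - w : GI) : ℂ)‖ → F w ≤ G w) (w : GI) : F w ≤ G w := by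
  obtain ⟨h1, -, h3, -⟩ := hB m
  obtain ⟨⟨v, hv⟩, h2, -⟩ := h1 (u0 - w)
  have e : w = (u0 - mr m (u0 - w)) + om ^ m * (-v) := by linear_combination (-1 : GI) * hv
  have e1 : u0 - (u0 - mr m (u0 - w)) = mr m (u0 - w) := by ring
  have h4 : Hh m (mr m (u0 - w)) = 1 + ‖((mr m (u0 - w) : GI) : ℂ)‖ := by
    rw [← h3 _ v, ← hv]; rfl
  have := h (u0 - mr m (u0 - w)) (by rw [e1]; exact h2) (by rw [e1]; exact h4)
  rw [e, hF, hG]; exact this

/-- The facts about one level that are used below. -/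
structure Ctx (E : Ell) (l : Lv) (s : Ls) (z : ℂ) (u0 : GI) (K CS M B : ℝ) : Prop where
  box : S_Box
  dip : S_Dip
  ok : l.ok
  ker : KerEst E K
  K0 : 0 < K
  CS0 : 0 < CS
  B0 : 0 < B
  mu : ‖s.μ‖ ≤ 1 / 100
  d1 : dd l.m ≤ 1 / 100
  pe : Per l.m s.ε
  eb : ∀ u, ‖s.ε u‖ ≤ M ∧ ‖s.ε u‖ ≤ dd l.m / 1000
  hp : ∀ u u' : GI, ‖pos l s u - pos l s u' - l.c * ((u - u' : GI) : ℂ)‖
    ≤ dd l.m * ‖((u - u' : GI) : ℂ)‖ / 200
  sm : ts l.m (fun u => 1 / Hh l.m u ^ 2) ≤ CS * l.m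
  ge : g2 l.m s.ε ≤ dd l.m ^ 2 * B ^ 2
  hz : z ∈ Out (Nk l) (pos l s) (dd l.m / 5)
  hu : ‖z - pos l s u0‖ ≤ dd l.m * (72 / 100)

variable {E : Ell} {l : Lv} {s : Ls} {z : ℂ} {u0 : GI} {K CS M B : ℝ}

theorem Ctx.nc (c : Ctx E l s z u0 K CS M B) : ‖l.c‖ = dd l.m :=
  (c.dip l c.ok).2.2.2.2.2.2.2.1

theorem Ctx.sepn (c : Ctx E l s z u0 K CS M B) (u u' : GI) :
    ‖pos l s u - pos l s u'‖ ≤ dd l.m * ‖((u - u' : GI) : ℂ)‖ * (201 / 200) ∧
    dd l.m * ‖((u - u' : GI) : ℂ)‖ * (199 / 200) ≤ ‖pos l s u - pos l s u'‖ := by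
  have h1 := c.hp u u'
  have h2 := abs_norm_sub_norm_le (pos l s u - pos l s u') (l.c * ((u - u' : GI) : ℂ))
  rw [norm_mul, c.nc, abs_le] at h2
  constructor <;> linarith [h2.1, h2.2]

theorem Ctx.pts (c : Ctx E l s z u0 K CS M B) {w n : GI} {y : ℂ}
    (hr : ‖((u0 - w : GI) : ℂ)‖ * dd l.m ≤ 7072 / 10000) (hn : q0 l n ≠ 0)
    (hnw : ‖((n - w : GI) : ℂ)‖ ≤ 2) (hy : ‖y - (z - pos l s n)‖ ≤ dd l.m / 100) :
    dd l.m * (1 + ‖((u0 - w : GI) : ℂ)‖) / 25 ≤ ‖y‖ ∧ ‖y‖ < 9 / 10 := by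
  have hd := dd_pos l.m
  have hd1 := c.d1
  have h1 : dd l.m / 5 < ‖z - pos l s n‖ := c.hz n hn
  obtain ⟨h2, h3⟩ := c.sepn u0 n
  have h4 := abs_norm_sub_norm_le ((u0 - w : GI) : ℂ) ((u0 - n : GI) : ℂ)
  have e4 : ((u0 - w : GI) : ℂ) - ((u0 - n : GI) : ℂ) = ((n - w : GI) : ℂ) := by
    simp only [GaussianInt.toComplex_sub]; ring
  rw [e4, abs_le] at h4
  have h5 := abs_norm_sub_norm_le y (z - pos l s n)
  rw [abs_le] at h5
  have h6 := abs_norm_sub_norm_le (z - pos l s n) (pos l s u0 - pos l s n)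
  rw [show z - pos l s n - (pos l s u0 - pos l s n) = z - pos l s u0 by ring, abs_le] at h6
  have h7 := c.hu
  have h8 : dd l.m * ‖((u0 - n : GI) : ℂ)‖ ≤ dd l.m * ‖((u0 - w : GI) : ℂ)‖ + 2 * dd l.m := by
    nlinarith [h4.1]
  have h9 : dd l.m * ‖((u0 - w : GI) : ℂ)‖ ≤ dd l.m * ‖((u0 - n : GI) : ℂ)‖ + 2 * dd l.m := by
    nlinarith [h4.2]
  have h10 : 0 ≤ dd l.m * ‖((u0 - w : GI) : ℂ)‖ := by positivity
  rw [mul_comm] at hr
  rw [mul_add]
  constructor <;> linarith [h5.1, h5.2, h6.1, h6.2]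

theorem Ctx.perG (c : Ctx E l s z u0 K CS M B) {e : GI → ℂ} (he : Per l.m e) :
    Per l.m (fun w => E.Gr s.μ (z - (Lm s.μ (l.c * w) + e w))) := by
  intro u v
  obtain ⟨w0, hw0, -⟩ := (c.dip l c.ok).2.2.2.2.2.2.2.2.1
  have e1 : z - (Lm s.μ (l.c * ((u + om ^ l.m * v : GI) : ℂ)) + e (u + om ^ l.m * v))
      = z - (Lm s.μ (l.c * u) + e u) + Lm s.μ ((-(w0 * v) : GI) : ℂ) := by
    rw [he, GaussianInt.toComplex_add, GaussianInt.toComplex_mul, mul_add, ← mul_assoc, hw0,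
      Lm_add, GaussianInt.toComplex_neg, Lm_neg, GaussianInt.toComplex_mul]
    ring
  simp only [e1]
  exact E.Gper _ c.mu _ _

theorem Ctx.perH (c : Ctx E l s z u0 K CS M B) : Per l.m (fun w => Hh l.m (u0 - w)) :=
  (c.box l.m).2.2.1.sub_left u0

theorem Ctx.H1 (c : Ctx E l s z u0 K CS M B) (x : GI) :
    1 ≤ Hh l.m x ∧ Hh l.m x * dd l.m ≤ 2 :=
  ⟨((c.box l.m).2.2.2.2.1 x).1, ((c.box l.m).2.2.2.2.1 x).2.1⟩

theorem Ctx.smH (c : Ctx E l s z u0 K CS M B) :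
    ts l.m (fun w => 1 / Hh l.m (u0 - w) ^ 2) ≤ CS * l.m := by
  have hp : Per l.m (fun u => 1 / Hh l.m u ^ 2) := fun u v => by
    simp only [(c.box l.m).2.2.1 u v]
  rw [ts_sub_left hp u0]; exact c.sm

/-- Change of the potential kernel caused by the displacement. -/
def Ps (E : Ell) (l : Lv) (s : Ls) (z : ℂ) (w : GI) : ℝ :=
  E.Gr s.μ (z - pos l s w) - E.Gr s.μ (z - Lm s.μ (l.c * w))

theorem Ctx.perPs (c : Ctx E l s z u0 K CS M B) : Per l.m (Ps E l s z) := by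
  intro u v
  have h1 := c.perG c.pe u v
  have h2 := c.perG (e := fun _ => 0) (fun _ _ => rfl) u v
  simp only [add_zero] at h1 h2
  simp only [Ps, pos, h1, h2]

theorem Ctx.grad (c : Ctx E l s z u0 K CS M B) {g : GI} (hg : ‖(g : ℂ)‖ = 1) {β : GI → ℝ}
    (hβ : Per l.m β) (hb : ∀ u, |β u| ≤ 4 * dd l.m ^ 2)
    (hn : ∀ u, β u ≠ 0 → q0 l u ≠ 0 ∧ q0 l (u + g) ≠ 0) (w : GI) :
    |β w| * |Ps E l s z (w + g) - Ps E l s z w| ≤
      (5000 * K * M * dd l.m) * (1 / Hh l.m (u0 - w) ^ 2)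
        + (100 * K * dd l.m) * (‖s.ε (w + g) - s.ε w‖ / Hh l.m (u0 - w)) := by
  have hd := dd_pos l.m
  have hK := c.K0
  have hM : 0 ≤ M := (norm_nonneg _).trans (c.eb 0).1
  revert w
  refine red_le c.box l.m u0 ?_ ?_ ?_
  · intro u v
    simp only [hβ u v, c.perPs u v, c.perPs.shift g u v]
  · intro u v
    simp only [c.perH u v, c.pe u v, c.pe.shift g u v]
  intro w hr hH
  have hH1 := c.H1 (u0 - w)
  have hH0 : 0 < Hh l.m (u0 - w) := by linarith [hH1.1]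
  by_cases h0 : β w = 0
  · rw [h0, abs_zero, zero_mul]; positivity
  obtain ⟨n1, n2⟩ := hn w h0
  have hδ : 0 < dd l.m * Hh l.m (u0 - w) / 25 := by positivity
  have hδ1 : dd l.m * Hh l.m (u0 - w) / 25 ≤ 1 := by linarith [hH1.2]
  obtain ⟨k1, k2⟩ := c.ker s.μ c.mu _ hδ hδ1
  have p1 : ∀ y, ‖y - (z - pos l s w)‖ ≤ dd l.m / 100 →
      dd l.m * Hh l.m (u0 - w) / 25 ≤ ‖y‖ ∧ ‖y‖ < 9 / 10 := fun y hy => by
    rw [hH]; exact c.pts hr n1 (by simp) hy
  have p2 : ∀ y, ‖y - (z - pos l s (w + g))‖ ≤ dd l.m / 100 →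
      dd l.m * Hh l.m (u0 - w) / 25 ≤ ‖y‖ ∧ ‖y‖ < 9 / 10 := fun y hy => by
    rw [hH]; exact c.pts hr n2 (by rw [add_sub_cancel_left, hg]; norm_num) hy
  have e1 := (c.eb w).2
  have e2 := (c.eb (w + g)).2
  have small : ∀ t : ℝ, 0 ≤ t → t ≤ 1 → ∀ e' : ℂ, ‖e'‖ ≤ dd l.m / 1000 →
      ‖e' - t * s.ε w‖ ≤ dd l.m / 100 := by
    intro t h0 h1 e' he'
    have h2 := norm_sub_le e' (t * s.ε w)
    rw [norm_mul, Complex.norm_real, Real.norm_of_nonneg h0] at h2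
    nlinarith [norm_nonneg (s.ε w)]
  have q1 : ∀ t : ℝ, 0 ≤ t → t ≤ 1 →
      ‖z - Lm s.μ (l.c * w) - t * s.ε w - (z - pos l s w)‖ ≤ dd l.m / 100 := by
    intro t h0 h1
    have := small t h0 h1 _ e1
    convert this using 2; unfold pos; ring
  have q2 : ∀ t : ℝ, 0 ≤ t → t ≤ 1 → ‖z - Lm s.μ (l.c * (w + g : GI)) - t * s.ε w
      - (z - pos l s (w + g))‖ ≤ dd l.m / 100 := by
    intro t h0 h1
    have := small t h0 h1 _ e2
    convert this using 2; unfold pos; ring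
  have b2 := k2 (z - Lm s.μ (l.c * w)) (z - Lm s.μ (l.c * (w + g : GI))) (s.ε w)
    (fun t h0 h1 => ⟨(p1 _ (q1 t h0 h1)).1, (p2 _ (q2 t h0 h1)).1, (p1 _ (q1 t h0 h1)).2,
      (p2 _ (q2 t h0 h1)).2⟩)
  have q3 := p2 _ (q2 1 zero_le_one le_rfl)
  rw [Complex.ofReal_one, one_mul] at q3
  have q4 := p2 (z - pos l s (w + g)) (by rw [sub_self, norm_zero]; positivity)
  have b1 := k1 _ _ q4.1 q3.1 q4.2 q3.2
  have e3 : ‖z - pos l s (w + g) - (z - Lm s.μ (l.c * (w + g : GI)) - s.ε w)‖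
      = ‖s.ε (w + g) - s.ε w‖ := by
    rw [← norm_neg]; congr 1; unfold pos; ring
  have e4 : ‖z - Lm s.μ (l.c * w) - (z - Lm s.μ (l.c * (w + g : GI)))‖ ≤ 2 * dd l.m := by
    have : z - Lm s.μ (l.c * w) - (z - Lm s.μ (l.c * (w + g : GI))) = Lm s.μ (l.c * g) := by
      rw [GaussianInt.toComplex_add, mul_add, Lm_add]; ring
    rw [this]
    have h := norm_Lm_le c.mu (l.c * g)
    rwa [norm_mul, hg, c.nc, mul_one] at h
  rw [e3] at b1
  have b3 : K * ‖s.ε w‖ * ‖z - Lm s.μ (l.c * w) - (z - Lm s.μ (l.c * (w + g : GI)))‖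
      / (dd l.m * Hh l.m (u0 - w) / 25) ^ 2
      ≤ K * M * (2 * dd l.m) / (dd l.m * Hh l.m (u0 - w) / 25) ^ 2 := by
    gcongr; exact (c.eb w).1
  have e5 : Ps E l s z (w + g) - Ps E l s z w =
      (E.Gr s.μ (z - pos l s (w + g)) - E.Gr s.μ (z - Lm s.μ (l.c * (w + g : GI)) - s.ε w))
      + ((E.Gr s.μ (z - Lm s.μ (l.c * (w + g : GI)) - s.ε w)
          - E.Gr s.μ (z - Lm s.μ (l.c * (w + g : GI))))
        - (E.Gr s.μ (z - Lm s.μ (l.c * w) - s.ε w) - E.Gr s.μ (z - Lm s.μ (l.c * w)))) := by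
    simp only [Ps, pos, sub_sub]; ring
  have b4 : |Ps E l s z (w + g) - Ps E l s z w| ≤
      K * ‖s.ε (w + g) - s.ε w‖ / (dd l.m * Hh l.m (u0 - w) / 25)
      + K * M * (2 * dd l.m) / (dd l.m * Hh l.m (u0 - w) / 25) ^ 2 := by
    rw [e5]; exact (abs_add_le _ _).trans (add_le_add b1 (b2.trans b3))
  calc _ ≤ (4 * dd l.m ^ 2) * (K * ‖s.ε (w + g) - s.ε w‖ / (dd l.m * Hh l.m (u0 - w) / 25)
      + K * M * (2 * dd l.m) / (dd l.m * Hh l.m (u0 - w) / 25) ^ 2) := by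
        gcongr; exact hb w
    _ = _ := by field_simp; ring

theorem Ctx.sumE (c : Ctx E l s z u0 K CS M B) {y : GI → ℂ}
    (hy : msq l.m y ≤ dd l.m ^ 2 * B ^ 2) :
    ts l.m (fun w => ‖y w‖ / Hh l.m (u0 - w)) ≤ B * (1 + CS * l.m) := by
  have hB := c.B0
  have hd := dd_pos l.m
  have h1 : ts l.m (fun w => ‖y w‖ / Hh l.m (u0 - w)) ≤
      ts l.m (fun w => B⁻¹ * ‖y w‖ ^ 2 + B * (1 / Hh l.m (u0 - w) ^ 2)) := by
    refine ts_mono _ fun w => ?_
    have hH : 0 < Hh l.m (u0 - w) := by linarith [(c.H1 (u0 - w)).1]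
    have e : B⁻¹ * ‖y w‖ ^ 2 + B * (1 / Hh l.m (u0 - w) ^ 2) - 2 * (‖y w‖ / Hh l.m (u0 - w))
        = B⁻¹ * (‖y w‖ - B / Hh l.m (u0 - w)) ^ 2 := by field_simp; ring
    have h2 : 0 ≤ B⁻¹ * (‖y w‖ - B / Hh l.m (u0 - w)) ^ 2 := by positivity
    have h3 : 0 ≤ ‖y w‖ / Hh l.m (u0 - w) := by positivity
    linarith
  rw [ts_add, ts_mul_left_real, ts_mul_left_real] at h1
  have h2 : ts l.m (fun w => ‖y w‖ ^ 2) ≤ B ^ 2 := by
    rw [ts_eq_av, smul_eq_mul]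
    have e : (2 : ℝ) ^ l.m * dd l.m ^ 2 = 1 := by rw [dd_sq]; field_simp
    calc (2 : ℝ) ^ l.m * av l.m (fun w => ‖y w‖ ^ 2) ≤ 2 ^ l.m * (dd l.m ^ 2 * B ^ 2) := by
          gcongr; exact hy
      _ = B ^ 2 := by rw [← mul_assoc, e, one_mul]
  have h3 : B⁻¹ * ts l.m (fun w => ‖y w‖ ^ 2) ≤ B := by
    calc _ ≤ B⁻¹ * B ^ 2 := by gcongr
      _ = B := by field_simp
  have h4 : B * ts l.m (fun w => 1 / Hh l.m (u0 - w) ^ 2) ≤ B * (CS * l.m) := by
    gcongr; exact c.smH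
  linarith

theorem norm_gi : ‖((gi : GI) : ℂ)‖ = 1 := by rw [coe_gi, Complex.norm_I]

theorem Ctx.partA (c : Ctx E l s z u0 K CS M B) :
    |ts l.m (fun w => q0 l w * Ps E l s z w)| ≤
      2 * ((5000 * K * M * dd l.m) * (CS * l.m) + (100 * K * dd l.m) * (B * (1 + CS * l.m))) := by
  obtain ⟨⟨β1, β2, p1, p2, hb, n1, n2, hΨ⟩, -⟩ := c.dip l c.ok
  have hd := dd_pos l.m
  have hK := c.K0
  have hM : 0 ≤ M := (norm_nonneg _).trans (c.eb 0).1
  have h1 := hΨ (fun w => (Ps E l s z w : ℂ)) (fun u v => by simp only [c.perPs u v])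
  have h2 : |ts l.m (fun w => q0 l w * Ps E l s z w)|
      = ‖ts l.m (fun u => (q0 l u : ℂ) * (Ps E l s z u : ℂ))‖ := by
    rw [← Real.norm_eq_abs, ← Complex.norm_real, ts_ofReal]; simp only [Complex.ofReal_mul]
  rw [h2, h1]
  refine (norm_ts_le _ _).trans ?_
  have g1 := c.grad (g := 1) (by simp) p1 (fun u => (hb u).1) n1
  have g2' := c.grad norm_gi p2 (fun u => (hb u).2) n2
  have h3 := ts_mono l.m (F := fun u => ‖(β1 u : ℂ) * ((Ps E l s z (u + 1) : ℂ) - Ps E l s z u)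
      + (β2 u : ℂ) * ((Ps E l s z (u + gi) : ℂ) - Ps E l s z u)‖)
    (G := fun w => ((5000 * K * M * dd l.m) * (1 / Hh l.m (u0 - w) ^ 2)
        + (100 * K * dd l.m) * (‖s.ε (w + 1) - s.ε w‖ / Hh l.m (u0 - w)))
      + ((5000 * K * M * dd l.m) * (1 / Hh l.m (u0 - w) ^ 2)
        + (100 * K * dd l.m) * (‖s.ε (w + gi) - s.ε w‖ / Hh l.m (u0 - w)))) (fun w => by
      refine (norm_add_le _ _).trans (add_le_add ?_ ?_)
      · rw [norm_mul, ← Complex.ofReal_sub, Complex.norm_real, Complex.norm_real]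
        exact g1 w
      · rw [norm_mul, ← Complex.ofReal_sub, Complex.norm_real, Complex.norm_real]
        exact g2' w)
  refine h3.trans ?_
  simp only [ts_add, ts_mul_left_real]
  have hg := c.ge
  unfold g2 at hg
  have m1 := msq_nonneg l.m (fun u => s.ε (u + 1) - s.ε u)
  have m2 := msq_nonneg l.m (fun u => s.ε (u + gi) - s.ε u)
  have s1 := c.sumE (y := fun u => s.ε (u + 1) - s.ε u) (by linarith)
  have s2 := c.sumE (y := fun u => s.ε (u + gi) - s.ε u) (by linarith)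
  have s3 := c.smH
  have t1 := mul_le_mul_of_nonneg_left s1 (show 0 ≤ 100 * K * dd l.m by positivity)
  have t2 := mul_le_mul_of_nonneg_left s2 (show 0 ≤ 100 * K * dd l.m by positivity)
  have t3 := mul_le_mul_of_nonneg_left s3 (show 0 ≤ 5000 * K * M * dd l.m by positivity)
  linarith

theorem nbr_neck (hl : l.ok) (u : GI) : q0 l (nbr l.τ u) ≠ 0 := by
  obtain ⟨-, -, h1, h2⟩ := hl
  have hd := dd_pos l.m
  have hs : l.sg ≠ 0 := by rcases h1 with h | h <;> rw [h] <;> norm_num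
  have hp : pat l.τ (nbr l.τ u) ≠ 0 := by
    unfold nbr
    split_ifs with h
    · have him : ¬Odd u.im := by
        intro ho
        unfold pat at h
        rw [if_pos ho] at h
        split_ifs at h
        · norm_num at h
        · rcases h2 with h2 | h2 <;> rw [h2] at h <;> norm_num at h
      have ho : Odd (u + gi).im := by
        have : (u + gi).im = u.im + 1 := by simp [gi]
        rw [this]
        exact (Int.not_odd_iff_even.1 him).add_one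
      unfold pat
      rw [if_pos ho]
      split_ifs
      · norm_num
      · rcases h2 with h2 | h2 <;> rw [h2] <;> norm_num
    · exact h
  unfold q0
  positivity

theorem nbr_eq {u : GI} (h : q0 l u ≠ 0) : nbr l.τ u = u := by
  unfold nbr
  rw [if_neg]
  intro h0
  apply h
  unfold q0
  rw [h0, mul_zero]

theorem nbr_dist (τ : ℝ) (u g : GI) (hg : ‖(g : ℂ)‖ = 1) :
    ‖((nbr τ u - u : GI) : ℂ)‖ ≤ 2 ∧ ‖((nbr τ (u + g) - u : GI) : ℂ)‖ ≤ 2 ∧
    ‖((nbr τ u - nbr τ (u + g) : GI) : ℂ)‖ ≤ 2 := by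
  have h1 := norm_add_le (g : ℂ) (gi : GI)
  have h2 := norm_sub_le ((gi : GI) : ℂ) g
  rw [hg, norm_gi] at h1 h2
  unfold nbr
  refine ⟨?_, ?_, ?_⟩
  · split_ifs
    · rw [add_sub_cancel_left, norm_gi]; norm_num
    · simp
  · split_ifs
    · rw [show u + g + gi - u = g + gi by ring, GaussianInt.toComplex_add]; linarith
    · rw [add_sub_cancel_left, hg]; norm_num
  · split_ifs
    · rw [show u + gi - (u + g + gi) = -g by ring, GaussianInt.toComplex_neg, norm_neg, hg]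
      norm_num
    · rw [show u + gi - (u + g) = gi - g by ring, GaussianInt.toComplex_sub]; linarith
    · rw [show u - (u + g + gi) = -(g + gi) by ring, GaussianInt.toComplex_neg, norm_neg,
        GaussianInt.toComplex_add]; linarith
    · rw [show u - (u + g) = -g by ring, GaussianInt.toComplex_neg, norm_neg, hg]; norm_num

/-- The potential kernel seen from the neck next to a cell. -/
def fN (E : Ell) (l : Lv) (s : Ls) (z : ℂ) (w : GI) : ℂ :=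
  (E.Gr s.μ (z - pos l s (nbr l.τ w)) : ℝ)

theorem Ctx.perf (c : Ctx E l s z u0 K CS M B) : Per l.m (fN E l s z) :=
  ((c.dip l c.ok).2.2.2.2.2.2.2.2.2 (fun w => ((E.Gr s.μ (z - pos l s w) : ℝ) : ℂ))
    (fun u v => by
      have := c.perG c.pe u v
      simp only at this
      simp only [pos, this])).1

theorem Ctx.gradf (c : Ctx E l s z u0 K CS M B) {g : GI} (hg : ‖(g : ℂ)‖ = 1) :
    msq l.m (fun w => fN E l s z (w + g) - fN E l s z w)
      ≤ dd l.m ^ 2 * ((75 * K) ^ 2 * (CS * l.m)) := by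
  have hd := dd_pos l.m
  have hK := c.K0
  have h1 : ∀ w, ‖fN E l s z (w + g) - fN E l s z w‖ ≤ 75 * K / Hh l.m (u0 - w) := by
    refine red_le c.box l.m u0 ?_ ?_ ?_
    · intro u v
      simp only [c.perf u v, c.perf.shift g u v]
    · intro u v
      simp only [c.perH u v]
    intro w hr hH
    have hH1 := c.H1 (u0 - w)
    have hH0 : 0 < Hh l.m (u0 - w) := by linarith [hH1.1]
    have hδ : 0 < dd l.m * Hh l.m (u0 - w) / 25 := by positivity
    have hδ1 : dd l.m * Hh l.m (u0 - w) / 25 ≤ 1 := by linarith [hH1.2]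
    obtain ⟨k1, -⟩ := c.ker s.μ c.mu _ hδ hδ1
    obtain ⟨d1, d2, d3⟩ := nbr_dist l.τ w g hg
    have p1 := c.pts hr (nbr_neck c.ok w) d1 (y := z - pos l s (nbr l.τ w))
      (by rw [sub_self, norm_zero]; positivity)
    have p2 := c.pts hr (nbr_neck c.ok (w + g)) d2 (y := z - pos l s (nbr l.τ (w + g)))
      (by rw [sub_self, norm_zero]; positivity)
    rw [← hH] at p1 p2
    have b1 := k1 _ _ p2.1 p1.1 p2.2 p1.2
    have b2 : ‖z - pos l s (nbr l.τ (w + g)) - (z - pos l s (nbr l.τ w))‖ ≤ 3 * dd l.m := by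
      rw [show z - pos l s (nbr l.τ (w + g)) - (z - pos l s (nbr l.τ w))
        = pos l s (nbr l.τ w) - pos l s (nbr l.τ (w + g)) by ring]
      have := (c.sepn (nbr l.τ w) (nbr l.τ (w + g))).1
      nlinarith
    unfold fN
    rw [← Complex.ofReal_sub, Complex.norm_real, Real.norm_eq_abs]
    calc _ ≤ _ := b1
      _ ≤ K * (3 * dd l.m) / (dd l.m * Hh l.m (u0 - w) / 25) := by gcongr
      _ = _ := by field_simp; ring
  have h2 := ts_mono l.m (F := fun w => ‖fN E l s z (w + g) - fN E l s z w‖ ^ 2)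
    (G := fun w => (75 * K) ^ 2 * (1 / Hh l.m (u0 - w) ^ 2)) (fun w => by
      calc _ ≤ (75 * K / Hh l.m (u0 - w)) ^ 2 := by gcongr; exact h1 w
        _ = _ := by ring)
  rw [ts_mul_left_real] at h2
  have h3 := mul_le_mul_of_nonneg_left c.smH (show 0 ≤ (75 * K) ^ 2 by positivity)
  unfold msq av
  rw [smul_eq_mul, dd_sq]
  gcongr
  exact h2.trans h3

theorem Ctx.partB (c : Ctx E l s z u0 K CS M B) (hD : S_Dn) (ps : Per l.m s.σ)
    (neu : ts l.m (fun u => q0 l u * s.σ u) = 0)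
    (hdn : dn l.m (fun u => q0 l u * s.σ u / dd l.m ^ 2) ≤ B) :
    |ts l.m (fun w => q0 l w * s.σ w * E.Gr s.μ (z - pos l s w))|
      ≤ B * (dd l.m * (75 * K * (1 + CS) * l.m)) := by
  have hd := dd_pos l.m
  have hK := c.K0
  have hCS := c.CS0
  have hB := c.B0
  have hm : (2 : ℝ) ≤ l.m := by exact_mod_cast c.ok.1
  obtain ⟨C, -, h⟩ := hD
  have pq := (c.dip l c.ok).2.2.1
  have e2 : (2 : ℝ) ^ l.m * dd l.m ^ 2 = 1 := by rw [dd_sq]; field_simp
  have hne : ts l.m (fun u => q0 l u * s.σ u / dd l.m ^ 2) = 0 := by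
    have := ts_mul_left_real l.m (dd l.m ^ 2)⁻¹ (fun u => q0 l u * s.σ u)
    rw [neu, mul_zero] at this
    rw [← this]; congr 1; funext u; ring
  obtain ⟨h0, h1, -⟩ := h l.m (fun u => q0 l u * s.σ u / dd l.m ^ 2) c.ok.1
    (fun u v => by simp only [pq u v, ps u v]) hne
  have h2 := h1 _ c.perf
  have h3 : √(g2 l.m (fN E l s z)) ≤ dd l.m * (75 * K * (1 + CS) * l.m) := by
    apply Real.sqrt_le_iff.2 ⟨by positivity, ?_⟩
    have g1 := c.gradf (g := 1) (by simp)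
    have g2' := c.gradf norm_gi
    have h4 : 2 * (CS * l.m) ≤ ((1 + CS) * l.m) ^ 2 := by
      have h5 : 2 * CS ≤ (1 + CS) ^ 2 := by nlinarith
      have h6 : (l.m : ℝ) ≤ l.m ^ 2 := by nlinarith
      calc 2 * (CS * l.m) = (2 * CS) * l.m := by ring
        _ ≤ (1 + CS) ^ 2 * l.m ^ 2 := by gcongr
        _ = _ := by ring
    have h7 := mul_le_mul_of_nonneg_left h4 (show 0 ≤ dd l.m ^ 2 * (75 * K) ^ 2 by positivity)
    unfold g2
    nlinarith
  have h4 : |ts l.m (fun w => q0 l w * s.σ w * E.Gr s.μ (z - pos l s w))|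
      = ‖av l.m (fun u => ((q0 l u * s.σ u / dd l.m ^ 2 : ℝ) : ℂ) * fN E l s z u)‖ := by
    rw [← Real.norm_eq_abs, ← Complex.norm_real, ts_ofReal]
    congr 1
    unfold av
    rw [← ts_smul]
    congr 1
    funext u
    by_cases hq : q0 l u = 0
    · simp [hq]
    · unfold fN
      rw [nbr_eq hq, ← Complex.ofReal_mul, Complex.real_smul, ← Complex.ofReal_mul, dd_sq]
      congr 1
      field_simp
  rw [h4]
  refine h2.trans ?_
  gcongr

end Pool.Agent.P.MP_cc4a10_gt.ShpP
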