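import Pool.Agent.P.MP_cc4a10_gt.St

/-!
Package Shp, part 1: local estimates for the kernels.
-/

open Set Filter Topology Complex Metric
open scoped ComplexConjugate Real

noncomputable section

namespace Pool.Agent.P.MP_cc4a10_gt.ShpP

theorem Lm_add (μ a b : ℂ) : Lm μ (a + b) = Lm μ a + Lm μ b := by
  simp only [Lm, map_add]; ring

theorem Lm_neg (μ a : ℂ) : Lm μ (-a) = -Lm μ a := by
  simp only [Lm, map_neg]; ring

theorem norm_Lm_le {μ : ℂ} (h : ‖μ‖ ≤ 1 / 100) (a : ℂ) : ‖Lm μ a‖ ≤ 2 * ‖a‖ := by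
  have h1 : ‖Lm μ a‖ ≤ ‖a‖ + ‖μ‖ * ‖a‖ := by
    unfold Lm
    refine (norm_add_le _ _).trans ?_
    rw [norm_mul, Complex.norm_conj]
  nlinarith [norm_nonneg a]

theorem one_le_norm_coe {u : GI} (hu : u ≠ 0) : 1 ≤ ‖(u : ℂ)‖ := by
  have h1 : (1 : ℤ) ≤ u.norm := by
    have := GaussianInt.norm_pos.2 hu
    omega
  have h2 : ((u.norm : ℤ) : ℝ) = Complex.normSq (u : ℂ) := GaussianInt.intCast_real_norm u
  have h3 : (1 : ℝ) ≤ ‖(u : ℂ)‖ ^ 2 := by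
    rw [Complex.sq_norm, ← h2]; exact_mod_cast h1
  nlinarith [norm_nonneg (u : ℂ)]

theorem abs_log_sub_le {x y δ : ℝ} (hδ : 0 < δ) (hx : δ ≤ x) (hy : δ ≤ y) :
    |Real.log x - Real.log y| ≤ |x - y| / δ := by
  have key : ∀ a b : ℝ, δ ≤ a → δ ≤ b → Real.log a - Real.log b ≤ |a - b| / δ := by
    intro a b ha hb
    have ha0 : 0 < a := hδ.trans_le ha
    have hb0 : 0 < b := hδ.trans_le hb
    rw [← Real.log_div ha0.ne' hb0.ne']
    have h1 := Real.log_le_sub_one_of_pos (div_pos ha0 hb0)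
    have h2 : a / b - 1 = (a - b) / b := by field_simp
    have h3 : (a - b) / b ≤ |a - b| / b := by gcongr; exact le_abs_self _
    have h4 : |a - b| / b ≤ |a - b| / δ := by gcongr
    linarith
  rw [abs_le]
  have h1 := key x y hx hy
  have h2 := key y x hy hx
  rw [abs_sub_comm] at h2
  constructor <;> linarith

/-- The three kernel estimates used in this package. -/
def KerEst (E : Ell) (K : ℝ) : Prop := ∀ μ : ℂ, ‖μ‖ ≤ 1 / 100 → ∀ δ : ℝ, 0 < δ → δ ≤ 1 →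
  (∀ y y' : ℂ, δ ≤ ‖y‖ → δ ≤ ‖y'‖ → ‖y‖ < 9 / 10 → ‖y'‖ < 9 / 10 →
    |E.Gr μ y - E.Gr μ y'| ≤ K * ‖y - y'‖ / δ) ∧
  ∀ a a' e : ℂ, (∀ t : ℝ, 0 ≤ t → t ≤ 1 → δ ≤ ‖a - t * e‖ ∧ δ ≤ ‖a' - t * e‖ ∧
    ‖a - t * e‖ < 9 / 10 ∧ ‖a' - t * e‖ < 9 / 10) →
    |(E.Gr μ (a' - e) - E.Gr μ a') - (E.Gr μ (a - e) - E.Gr μ a)| ≤ K * ‖e‖ * ‖a - a'‖ / δ ^ 2

theorem kerEst (hK : S_Ker0) (E : Ell) : ∃ K : ℝ, 0 < K ∧ KerEst E K := by
  obtain ⟨C, hC, h⟩ := hK E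
  refine ⟨5 + 2 * C, by positivity, fun μ hμ δ hδ hδ1 => ?_⟩
  obtain ⟨hd, hb, -, hL, -, -, -, -, -, hder, -⟩ := h μ hμ
  have hb' : |bE μ| ≤ 4 + C := by
    have h1 : |bE μ| ≤ |bE μ - π| + |π| := by
      have := abs_add_le (bE μ - π) π
      rwa [sub_add_cancel] at this
    have h2 : |π| ≤ 4 := by rw [abs_of_pos Real.pi_pos]; exact Real.pi_le_four
    nlinarith
  have hsub : closedBall (0 : ℂ) (9 / 10) ⊆ ball 0 (19 / 20) :=
    closedBall_subset_ball (by norm_num)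
  have hF := E.hol μ hμ
  have hF' : DifferentiableOn ℂ (deriv (E.F μ)) (ball 0 (19 / 20)) := hF.deriv isOpen_ball
  have lip : ∀ (f : ℂ → ℂ), DifferentiableOn ℂ f (ball 0 (19 / 20)) →
      (∀ w, ‖w‖ ≤ 9 / 10 → ‖deriv f w‖ ≤ C) → ∀ y y' : ℂ, ‖y‖ < 9 / 10 → ‖y'‖ < 9 / 10 →
      ‖f y - f y'‖ ≤ C * ‖y - y'‖ := by
    intro f hf hf' y y' hy hy'
    refine Convex.norm_image_sub_le_of_norm_deriv_le (𝕜 := ℂ) (s := closedBall (0 : ℂ) (9 / 10))
      (fun x hx => hf.differentiableAt (isOpen_ball.mem_nhds (hsub hx)))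
      (fun x hx => hf' x (by simpa using hx)) (convex_closedBall _ _) ?_ ?_
    · simpa using hy'.le
    · simpa using hy.le
  have lip1 := lip (E.F μ) hF (fun w hw => by
    have := (hd 1 (by norm_num) w hw).1
    rwa [iteratedDeriv_one] at this)
  have lip2 := lip (deriv (E.F μ)) hF' (fun w hw => by
    have := (hd 2 (by norm_num) w hw).1
    rwa [iteratedDeriv_succ, iteratedDeriv_one] at this)
  have hZ : ∀ y y' : ℂ, δ ≤ ‖y‖ → δ ≤ ‖y'‖ → ‖y‖ < 9 / 10 → ‖y'‖ < 9 / 10 →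
      ‖E.Z μ y - E.Z μ y'‖ ≤ (5 + 2 * C) * ‖y - y'‖ / δ ^ 2 := by
    intro y y' h1 h2 h3 h4
    rw [E.Zloc μ hμ y h3, E.Zloc μ hμ y' h4]
    have hy0 : y ≠ 0 := norm_pos_iff.1 (hδ.trans_le h1)
    have hy0' : y' ≠ 0 := norm_pos_iff.1 (hδ.trans_le h2)
    have e : y⁻¹ + deriv (E.F μ) y - bE μ * conj y - (y'⁻¹ + deriv (E.F μ) y' - bE μ * conj y')
        = -((y - y') / (y * y')) + (deriv (E.F μ) y - deriv (E.F μ) y')
          - bE μ * conj (y - y') := by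
      rw [map_sub]; field_simp; ring
    rw [e]
    have n1 : ‖-((y - y') / (y * y'))‖ ≤ ‖y - y'‖ / δ ^ 2 := by
      rw [norm_neg, norm_div, norm_mul, sq]
      gcongr
    have n2 := lip2 y y' h3 h4
    have n3 : ‖(bE μ : ℂ) * conj (y - y')‖ ≤ (4 + C) * ‖y - y'‖ := by
      rw [norm_mul, Complex.norm_conj, Complex.norm_real, Real.norm_eq_abs]
      gcongr
    have n4 : (4 + 2 * C) * ‖y - y'‖ ≤ (4 + 2 * C) * ‖y - y'‖ / δ ^ 2 := by
      rw [le_div_iff₀ (by positivity)]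
      have : δ ^ 2 ≤ 1 := by nlinarith
      have h5 : 0 ≤ (4 + 2 * C) * ‖y - y'‖ := by positivity
      nlinarith
    have n5 := norm_sub_le (-((y - y') / (y * y')) + (deriv (E.F μ) y - deriv (E.F μ) y'))
      ((bE μ : ℂ) * conj (y - y'))
    have n6 := norm_add_le (-((y - y') / (y * y'))) (deriv (E.F μ) y - deriv (E.F μ) y')
    have e2 : (5 + 2 * C) * ‖y - y'‖ / δ ^ 2
        = ‖y - y'‖ / δ ^ 2 + (4 + 2 * C) * ‖y - y'‖ / δ ^ 2 := by ring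
    rw [e2]; linarith
  constructor
  · intro y y' h1 h2 h3 h4
    rw [E.Gloc μ hμ y h3, E.Gloc μ hμ y' h4]
    have n0 : |‖y‖ - ‖y'‖| ≤ ‖y - y'‖ := abs_norm_sub_norm_le y y'
    have n1 : |Real.log ‖y‖ - Real.log ‖y'‖| ≤ ‖y - y'‖ / δ :=
      (abs_log_sub_le hδ h1 h2).trans (by gcongr)
    have n2 : |(E.F μ y).re - (E.F μ y').re| ≤ C * ‖y - y'‖ := by
      rw [← Complex.sub_re]
      exact (Complex.abs_re_le_norm _).trans (lip1 y y' h3 h4)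
    have n3 : |bE μ * ‖y‖ ^ 2 / 2 - bE μ * ‖y'‖ ^ 2 / 2| ≤ (4 + C) * ‖y - y'‖ := by
      have e : bE μ * ‖y‖ ^ 2 / 2 - bE μ * ‖y'‖ ^ 2 / 2
          = bE μ * ((‖y‖ - ‖y'‖) * ((‖y‖ + ‖y'‖) / 2)) := by ring
      rw [e, abs_mul, abs_mul]
      have h5 : |(‖y‖ + ‖y'‖) / 2| ≤ 1 := by
        rw [abs_of_nonneg (by positivity)]; linarith
      calc |bE μ| * (|‖y‖ - ‖y'‖| * |(‖y‖ + ‖y'‖) / 2|) ≤ (4 + C) * (‖y - y'‖ * 1) := by gcongr
        _ = _ := by ring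
    have n4 : (4 + 2 * C) * ‖y - y'‖ ≤ (4 + 2 * C) * ‖y - y'‖ / δ := by
      rw [le_div_iff₀ hδ]
      have h5 : 0 ≤ (4 + 2 * C) * ‖y - y'‖ := by positivity
      nlinarith
    have e2 : (5 + 2 * C) * ‖y - y'‖ / δ = ‖y - y'‖ / δ + (4 + 2 * C) * ‖y - y'‖ / δ := by ring
    rw [e2, abs_le]
    rw [abs_le] at n1 n2 n3
    constructor <;> linarith [n1.1, n1.2, n2.1, n2.2, n3.1, n3.2]
  · intro a a' e hp
    have hnl : ∀ y : ℂ, δ ≤ ‖y‖ → ‖y‖ < 9 / 10 → ∀ u : GI, y ≠ Lm μ u := by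
      intro y h1 h2 u hu
      by_cases h0 : u = 0
      · subst h0
        rw [hu] at h1
        simp [Lm] at h1
        linarith
      · have := one_le_norm_coe h0
        have h3 := hL u
        rw [← hu] at h3
        linarith
    have hline : ∀ (x : ℂ) (t : ℝ), δ ≤ ‖x - t * e‖ → ‖x - t * e‖ < 9 / 10 →
        HasDerivAt (fun t : ℝ => E.Gr μ (x - t * e)) (E.Z μ (x - t * e) * (-e)).re t := by
      intro x t h1 h2
      have d1 : HasDerivAt (fun t : ℝ => x - (t : ℂ) * e) (-e) t := by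
        have := ((Complex.ofRealCLM.hasDerivAt (x := t)).mul_const e).const_sub x
        simpa using this
      have d2 := (hder _ (hnl _ h1 h2)).1.comp_hasDerivAt t d1
      simpa [hl, Function.comp_def] using d2
    have hφ : ∀ t ∈ Icc (0 : ℝ) 1, HasDerivAt
        (fun t : ℝ => E.Gr μ (a' - t * e) - E.Gr μ (a - t * e))
        ((E.Z μ (a' - t * e) * (-e)).re - (E.Z μ (a - t * e) * (-e)).re) t := by
      intro t ht
      obtain ⟨p1, p2, p3, p4⟩ := hp t ht.1 ht.2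
      exact (hline a' t p2 p4).sub (hline a t p1 p3)
    obtain ⟨c, hc, hc'⟩ := exists_hasDerivAt_eq_slope _ _ (zero_lt_one' ℝ)
      (fun t ht => (hφ t ht).continuousAt.continuousWithinAt)
      (fun t ht => hφ t (Ioo_subset_Icc_self ht))
    obtain ⟨p1, p2, p3, p4⟩ := hp c hc.1.le hc.2.le
    have hz := hZ _ _ p2 p1 p4 p3
    simp only [Complex.ofReal_one, one_mul, Complex.ofReal_zero, zero_mul, sub_zero,
      div_one] at hc'
    have e1 : (E.Gr μ (a' - e) - E.Gr μ a') - (E.Gr μ (a - e) - E.Gr μ a)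
        = ((E.Z μ (a' - c * e) - E.Z μ (a - c * e)) * (-e)).re := by
      rw [sub_mul, Complex.sub_re, hc']; ring
    rw [e1]
    refine (Complex.abs_re_le_norm _).trans ?_
    rw [norm_mul, norm_neg]
    have e2 : a' - c * e - (a - c * e) = -(a - a') := by ring
    rw [e2, norm_neg] at hz
    calc _ ≤ (5 + 2 * C) * ‖a - a'‖ / δ ^ 2 * ‖e‖ := by gcongr
      _ = _ := by ring

end Pool.Agent.P.MP_cc4a10_gt.ShpP
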