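import Pool.Agent.P.MP_cc4a10_gt.St

/-!
The Cousin operator on one level: lemmas on one circle.
-/

open Set Filter Topology Complex Metric
open scoped ComplexConjugate Real

noncomputable section

namespace Pool.Agent.P.MP_cc4a10_gt.SoP

theorem cint_add_center (p P : ℂ) (r : ℝ) (g : ℂ → ℂ) :
    cint (p + P) r g = cint p r (fun ξ => g (ξ + P)) := by
  unfold cint circleIntegral
  congr 1
  refine intervalIntegral.integral_congr fun θ _ => ?_
  simp only [deriv_circleMap]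
  congr 2
  simp only [circleMap]; ring

theorem cint_neg_center (p : ℂ) (r : ℝ) (g : ℂ → ℂ) :
    cint (-p) r g = -cint p r (fun ξ => g (-ξ)) := by
  unfold cint circleIntegral
  have hper : Function.Periodic
      (fun θ : ℝ => deriv (circleMap (-p) r) θ • g (circleMap (-p) r θ)) (2 * π) := by
    intro θ
    simp only [deriv_circleMap, periodic_circleMap _ _ θ]
  have h1 := hper.intervalIntegral_add_eq 0 π
  have h2 := intervalIntegral.integral_comp_add_right (a := 0) (b := 2 * π)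
    (fun θ : ℝ => deriv (circleMap (-p) r) θ • g (circleMap (-p) r θ)) π
  rw [zero_add] at h1 h2
  rw [h1, add_comm π (2 * π), ← h2, ← mul_neg, ← intervalIntegral.integral_neg]
  congr 1
  refine intervalIntegral.integral_congr fun θ _ => ?_
  have e : ∀ c : ℂ, circleMap (-c) r (θ + π) = -circleMap c r θ := fun c => by
    simp only [circleMap]; push_cast
    rw [add_mul, exp_add, exp_pi_mul_I]; ring
  have e0 := e 0
  rw [neg_zero] at e0
  simp only [deriv_circleMap, e, e0, smul_eq_mul]; ring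

theorem cint_congr {p : ℂ} {r : ℝ} (hr : 0 ≤ r) {f g : ℂ → ℂ} (h : EqOn f g (sphere p r)) :
    cint p r f = cint p r g := by
  unfold cint; rw [circleIntegral.integral_congr hr h]

theorem cint_zero (p : ℂ) (r : ℝ) : cint p r (fun _ => 0) = 0 := by
  simp [cint, circleIntegral]

theorem norm_cint_le {p : ℂ} {r B : ℝ} (hr : 0 ≤ r) {g : ℂ → ℂ}
    (h : ∀ ξ ∈ sphere p r, ‖g ξ‖ ≤ B) : ‖cint p r g‖ ≤ r * B := by
  have := circleIntegral.norm_two_pi_i_inv_smul_integral_le_of_norm_le_const hr h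
  simpa only [cint, smul_eq_mul] using this

theorem cint_add {p : ℂ} {r : ℝ} (hr : 0 ≤ r) {f g : ℂ → ℂ} (hf : ContinuousOn f (sphere p r))
    (hg : ContinuousOn g (sphere p r)) :
    cint p r (fun ξ => f ξ + g ξ) = cint p r f + cint p r g := by
  unfold cint
  rw [circleIntegral.integral_add (hf.circleIntegrable hr) (hg.circleIntegrable hr), mul_add]

theorem cint_mul_const (p : ℂ) (r : ℝ) (f : ℂ → ℂ) (a : ℂ) :
    cint p r (fun ξ => f ξ * a) = a * cint p r f := by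
  unfold cint
  simp only [mul_comm _ a, circleIntegral.integral_const_mul]; ring

/-- Differentiation under the circle integral. -/
theorem hasDerivAt_cint {p z : ℂ} {r ε B : ℝ} (hr : 0 ≤ r) (hε : 0 < ε) {f G G' : ℂ → ℂ}
    {U : Set ℂ} (hf : ContinuousOn f (sphere p r)) (hG : ∀ y ∈ U, HasDerivAt G (G' y) y)
    (hG' : ContinuousOn G' U) (hB : ∀ y ∈ U, ‖G' y‖ ≤ B)
    (hU : ∀ ξ ∈ sphere p r, ∀ z' ∈ ball z ε, ξ - z' ∈ U) :
    HasDerivAt (fun z' => cint p r (fun ξ => f ξ * G (ξ - z')))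
      (cint p r (fun ξ => f ξ * -G' (ξ - z))) z := by
  unfold cint circleIntegral
  refine HasDerivAt.const_mul _ ?_
  have hm : ∀ θ, circleMap p r θ ∈ sphere p r := fun θ => circleMap_mem_sphere p hr θ
  have hfc : Continuous fun θ => f (circleMap p r θ) :=
    hf.comp_continuous (continuous_circleMap p r) hm
  have hdc : Continuous fun θ => deriv (circleMap p r) θ := by
    simp only [deriv_circleMap]; exact (continuous_circleMap 0 r).mul continuous_const
  have hGc : ContinuousOn G U := fun y hy => (hG y hy).continuousAt.continuousWithinAt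
  have hc1 : ∀ z' ∈ ball z ε, Continuous fun θ =>
      deriv (circleMap p r) θ • (f (circleMap p r θ) * G (circleMap p r θ - z')) := fun z' hz' =>
    hdc.smul (hfc.mul (hGc.comp_continuous ((continuous_circleMap p r).sub continuous_const)
      fun θ => hU _ (hm θ) _ hz'))
  have hc2 : Continuous fun θ =>
      deriv (circleMap p r) θ • (f (circleMap p r θ) * -G' (circleMap p r θ - z)) :=
    hdc.smul (hfc.mul (hG'.comp_continuous ((continuous_circleMap p r).sub continuous_const)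
      fun θ => hU _ (hm θ) _ (mem_ball_self hε)).neg)
  refine (intervalIntegral.hasDerivAt_integral_of_dominated_loc_of_deriv_le
    (F := fun z' θ => deriv (circleMap p r) θ • (f (circleMap p r θ) * G (circleMap p r θ - z')))
    (F' := fun z' θ => deriv (circleMap p r) θ • (f (circleMap p r θ) * -G' (circleMap p r θ - z')))
    (bound := fun θ => ‖deriv (circleMap p r) θ‖ * (‖f (circleMap p r θ)‖ * B))
    (ball_mem_nhds z hε) ?_ ?_ ?_ ?_ ?_ ?_).2
  · filter_upwards [ball_mem_nhds z hε] with z' hz' using (hc1 z' hz').aestronglyMeasurable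
  · exact (hc1 z (mem_ball_self hε)).intervalIntegrable _ _
  · exact hc2.aestronglyMeasurable
  · refine Eventually.of_forall fun θ _ z' hz' => ?_
    rw [norm_smul, norm_mul, norm_neg]
    gcongr
    exact hB _ (hU _ (hm θ) _ hz')
  · exact (hdc.norm.mul (hfc.norm.mul continuous_const)).intervalIntegrable _ _
  · refine Eventually.of_forall fun θ _ z' hz' => ?_
    have h1 : HasDerivAt (fun x => G (circleMap p r θ - x)) (-G' (circleMap p r θ - z')) z' :=
      (hG _ (hU _ (hm θ) _ hz')).comp_const_sub _ _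
    exact (h1.const_mul _).const_smul (deriv (circleMap p r) θ)

/-- Local form of the kernel. -/
structure Loc (Z F1 : ℂ → ℂ) (b C : ℝ) : Prop where
  eq : ∀ w, ‖w‖ < 9 / 10 → Z w = w⁻¹ + F1 w - b * conj w
  hol : DifferentiableOn ℂ F1 (ball 0 (9 / 10))
  b1 : ∀ w, ‖w‖ < 9 / 10 → ‖F1 w‖ ≤ C
  b2 : ∀ w, ‖w‖ < 9 / 10 → ‖deriv F1 w‖ ≤ C
  bb : |b| ≤ C

theorem Loc.ker {Z F1 : ℂ → ℂ} {b C : ℝ} (L : Loc Z F1 b C) {ξ z : ℂ} (p : ℂ)
    (h : ‖ξ - z‖ < 9 / 10) :
    Z (ξ - z) + b * conj (ξ - p) = (ξ - z)⁻¹ + F1 (ξ - z) + b * conj (z - p) := by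
  rw [L.eq _ h]; simp only [map_sub]; ring

theorem one_norm {Z F1 : ℂ → ℂ} {b C : ℝ} (L : Loc Z F1 b C) {p z : ℂ} {r η A : ℝ} (hr : 0 < r)
    (hη : 0 < η) {f : ℂ → ℂ} (hf : ∀ ξ ∈ sphere p r, ‖f ξ‖ ≤ A / r) (hz : ‖z - p‖ ≤ 1)
    (h : ∀ ξ ∈ sphere p r, η ≤ ‖ξ - z‖ ∧ ‖ξ - z‖ ≤ 85 / 100) :
    ‖cint p r (fun ξ => f ξ * (Z (ξ - z) + b * conj (ξ - p)))‖ ≤ A * (1 / η + 2 * C) := by
  have hC : 0 ≤ C := (abs_nonneg _).trans L.bb
  refine (norm_cint_le (B := A / r * (1 / η + 2 * C)) hr.le fun ξ hξ => ?_).trans_eq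
    (by field_simp)
  obtain ⟨h1, h2⟩ := h ξ hξ
  have h3 : ‖ξ - z‖ < 9 / 10 := by linarith
  rw [L.ker p h3, norm_mul]
  have hA : 0 ≤ A / r := (norm_nonneg _).trans (hf ξ hξ)
  gcongr
  · exact hf ξ hξ
  have e1 : ‖(ξ - z)⁻¹‖ ≤ 1 / η := by rw [norm_inv, one_div]; exact inv_anti₀ hη h1
  have e2 := L.b1 _ h3
  have e3 : ‖(b : ℂ) * conj (z - p)‖ ≤ C := by
    rw [norm_mul, Complex.norm_conj, norm_real, Real.norm_eq_abs]
    calc |b| * ‖z - p‖ ≤ C * 1 := by gcongr; exact L.bb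
      _ = C := mul_one _
  linarith [norm_add₃_le (a := (ξ - z)⁻¹) (b := F1 (ξ - z)) (c := (b : ℂ) * conj (z - p))]

theorem one_deriv {Z F1 : ℂ → ℂ} {b C : ℝ} (L : Loc Z F1 b C) {p z : ℂ} {r η A : ℝ} (hr : 0 < r)
    (hη : 0 < η) {f : ℂ → ℂ} (hc : ContinuousOn f (sphere p r))
    (hf : ∀ ξ ∈ sphere p r, ‖f ξ‖ ≤ A / r)
    (h : ∀ ξ ∈ sphere p r, η ≤ ‖ξ - z‖ ∧ ‖ξ - z‖ ≤ 85 / 100) :
    ∃ D, HasDerivAt (fun z' => cint p r (fun ξ => f ξ * (Z (ξ - z') + b * conj (ξ - p)))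
      - b * conj z' * cint p r f) D z ∧ ‖D‖ ≤ A * (1 / η ^ 2 + C) := by
  have hC : 0 ≤ C := (abs_nonneg _).trans L.bb
  set ε := min (η / 2) (1 / 100) with hε
  have hε0 : 0 < ε := lt_min (by linarith) (by norm_num)
  set U : Set ℂ := {y | η / 2 ≤ ‖y‖ ∧ ‖y‖ < 9 / 10} with hUd
  have hU : ∀ ξ ∈ sphere p r, ∀ z' ∈ ball z ε, ξ - z' ∈ U := by
    intro ξ hξ z' hz'
    obtain ⟨h1, h2⟩ := h ξ hξ
    rw [mem_ball, dist_eq_norm] at hz'
    have e : ξ - z = (ξ - z') + (z' - z) := by ring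
    have e' : ξ - z' = (ξ - z) - (z' - z) := by ring
    have a1 := norm_add_le (ξ - z') (z' - z)
    have a2 := norm_sub_le (ξ - z) (z' - z)
    rw [← e] at a1; rw [← e'] at a2
    have := min_le_left (η / 2) (1 / 100)
    have := min_le_right (η / 2) (1 / 100)
    constructor <;> linarith
  have hne : ∀ y ∈ U, y ≠ 0 := fun y hy h0 => by
    have := hy.1; rw [h0, norm_zero] at this; linarith
  have hUb : ∀ y ∈ U, y ∈ ball (0 : ℂ) (9 / 10) := fun y hy => mem_ball_zero_iff.2 hy.2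
  have hG : ∀ y ∈ U, HasDerivAt (fun y => y⁻¹ + F1 y) (-(y ^ 2)⁻¹ + deriv F1 y) y := fun y hy =>
    (hasDerivAt_inv (hne y hy)).add
      (L.hol.differentiableAt (isOpen_ball.mem_nhds (hUb y hy))).hasDerivAt
  have hG' : ContinuousOn (fun y : ℂ => -(y ^ 2)⁻¹ + deriv F1 y) U :=
    (((continuousOn_id.pow 2).inv₀ fun y hy => pow_ne_zero 2 (hne y hy)).neg).add
      ((L.hol.deriv isOpen_ball).continuousOn.mono hUb)
  have hb : ∀ (a : ℝ) (y : ℂ), 0 < a → a ≤ ‖y‖ → ‖y‖ < 9 / 10 →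
      ‖-(y ^ 2)⁻¹ + deriv F1 y‖ ≤ 1 / a ^ 2 + C := by
    intro a y ha h1 h2
    refine (norm_add_le _ _).trans (add_le_add ?_ (L.b2 y h2))
    rw [norm_neg, norm_inv, norm_pow, one_div]
    exact inv_anti₀ (by positivity) (by gcongr)
  have hd := hasDerivAt_cint (B := 1 / (η / 2) ^ 2 + C) hr.le hε0 hc hG hG'
    (fun y hy => hb _ y (by linarith) hy.1 hy.2) hU
  refine ⟨_, (hd.sub_const (b * conj p * cint p r f)).congr_of_eventuallyEq ?_, ?_⟩
  · filter_upwards [ball_mem_nhds z hε0] with z' hz'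
    have hGc : ContinuousOn (fun ξ => (ξ - z')⁻¹ + F1 (ξ - z')) (sphere p r) :=
      ContinuousOn.comp (g := fun y => y⁻¹ + F1 y) (t := U)
        (fun y hy => (hG y hy).continuousAt.continuousWithinAt)
        (continuousOn_id.sub continuousOn_const) fun ξ hξ => hU ξ hξ z' hz'
    rw [cint_congr (g := fun ξ => f ξ * ((ξ - z')⁻¹ + F1 (ξ - z')) + f ξ * (b * conj (z' - p)))
      hr.le fun ξ hξ => by simp only [L.ker p (hU ξ hξ z' hz').2]; ring,
      cint_add hr.le (hc.fun_mul hGc) (hc.fun_mul continuousOn_const), cint_mul_const, map_sub]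
    ring
  · refine (norm_cint_le (B := A / r * (1 / η ^ 2 + C)) hr.le fun ξ hξ => ?_).trans_eq
      (by field_simp)
    obtain ⟨h1, h2⟩ := h ξ hξ
    have hA : 0 ≤ A / r := (norm_nonneg _).trans (hf ξ hξ)
    rw [norm_mul, norm_neg]
    gcongr
    · exact hf ξ hξ
    · exact hb η _ hη h1 (by linarith)

/-- No pole in the annulus. -/
theorem jump_far {Z F1 : ℂ → ℂ} {b C : ℝ} (L : Loc Z F1 b C) {p z : ℂ} {r R : ℝ} (hr : 0 < r)
    (hrR : r ≤ R) {f : ℂ → ℂ} (hf : ∀ ξ ∈ closedBall p R \ ball p r, DifferentiableAt ℂ f ξ)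
    (h : ∀ ξ ∈ closedBall p R, ξ ≠ z ∧ ‖ξ - z‖ < 9 / 10) :
    cint p R (fun ξ => f ξ * (Z (ξ - z) + b * conj (ξ - p)))
      = cint p r (fun ξ => f ξ * (Z (ξ - z) + b * conj (ξ - p))) := by
  have hs : ∀ a, a ≤ R → ∀ ξ ∈ sphere p a, ‖ξ - z‖ < 9 / 10 := fun a ha ξ hξ =>
    (h ξ (closedBall_subset_closedBall ha (sphere_subset_closedBall hξ))).2
  rw [cint_congr (g := fun ξ => f ξ * ((ξ - z)⁻¹ + F1 (ξ - z) + b * conj (z - p))) (hr.le.trans hrR)
      fun ξ hξ => by simp only [L.ker p (hs R le_rfl ξ hξ)],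
    cint_congr (g := fun ξ => f ξ * ((ξ - z)⁻¹ + F1 (ξ - z) + b * conj (z - p))) hr.le
      fun ξ hξ => by simp only [L.ker p (hs r hrR ξ hξ)]]
  have hd : ∀ ξ ∈ closedBall p R \ ball p r, DifferentiableAt ℂ
      (fun ξ => f ξ * ((ξ - z)⁻¹ + F1 (ξ - z) + b * conj (z - p))) ξ := by
    intro ξ hξ
    obtain ⟨h1, h2⟩ := h ξ hξ.1
    have h3 : DifferentiableAt ℂ (fun ξ => F1 (ξ - z)) ξ :=
      (L.hol.differentiableAt (isOpen_ball.mem_nhds (mem_ball_zero_iff.2 h2))).comp ξ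
        (differentiableAt_id.sub_const z)
    exact (hf ξ hξ).mul ((((differentiableAt_id.sub_const z).inv (sub_ne_zero.2 h1)).add
      h3).add_const _)
  unfold cint
  rw [circleIntegral_eq_of_differentiable_on_annulus_off_countable hr hrR countable_empty
    (fun ξ hξ => (hd ξ hξ).continuousAt.continuousWithinAt)
    fun ξ hξ => hd ξ ⟨ball_subset_closedBall hξ.1.1, fun h' => hξ.1.2 (ball_subset_closedBall h')⟩]

/-- The Cauchy formula on the annulus. -/
theorem jump_own {Z F1 : ℂ → ℂ} {b C : ℝ} (L : Loc Z F1 b C) {p z : ℂ} {r R : ℝ} (hr : 0 < r)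
    (h1 : r < ‖z - p‖) (h2 : ‖z - p‖ < R) {f : ℂ → ℂ}
    (hf : ∀ ξ ∈ closedBall p R \ ball p r, DifferentiableAt ℂ f ξ)
    (h : ∀ ξ ∈ closedBall p R, ‖ξ - z‖ < 9 / 10) :
    cint p R (fun ξ => f ξ * (Z (ξ - z) + b * conj (ξ - p)))
      = cint p r (fun ξ => f ξ * (Z (ξ - z) + b * conj (ξ - p))) + f z := by
  have hrR : r ≤ R := by linarith
  have hzA : z ∈ closedBall p R \ ball p r :=
    ⟨by rw [mem_closedBall, dist_eq_norm]; exact h2.le,
      by rw [mem_ball, dist_eq_norm]; exact not_lt.2 h1.le⟩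
  set g : ℂ → ℂ := fun ξ => dslope f z ξ + f ξ * (F1 (ξ - z) + b * conj (z - p)) with hg
  have hF : ∀ ξ ∈ closedBall p R, DifferentiableAt ℂ (fun ξ => F1 (ξ - z)) ξ := fun ξ hξ =>
    (L.hol.differentiableAt (isOpen_ball.mem_nhds (mem_ball_zero_iff.2 (h ξ hξ)))).comp ξ
      (differentiableAt_id.sub_const z)
  have hgc : ContinuousOn g (closedBall p R \ ball p r) := by
    intro ξ hξ
    refine ContinuousAt.continuousWithinAt (ContinuousAt.add ?_
      ((hf ξ hξ).mul ((hF ξ hξ.1).add_const _)).continuousAt)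
    by_cases hz : ξ = z
    · rw [hz]; exact continuousAt_dslope_same.2 (hf z hzA)
    · exact (continuousAt_dslope_of_ne hz).2 (hf ξ hξ).continuousAt
  have hgd : ∀ ξ ∈ (ball p R \ closedBall p r) \ {z}, DifferentiableAt ℂ g ξ := by
    intro ξ hξ
    have hξ' : ξ ∈ closedBall p R \ ball p r :=
      ⟨ball_subset_closedBall hξ.1.1, fun h' => hξ.1.2 (ball_subset_closedBall h')⟩
    exact ((differentiableAt_dslope_of_ne hξ.2).2 (hf ξ hξ')).add
      ((hf ξ hξ').mul ((hF ξ hξ'.1).add_const _))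
  have hE := circleIntegral_eq_of_differentiable_on_annulus_off_countable hr hrR
    (countable_singleton z) hgc hgd
  have key : ∀ a, r ≤ a → a ≤ R → a ≠ ‖z - p‖ →
      cint p a (fun ξ => f ξ * (Z (ξ - z) + b * conj (ξ - p)))
        = cint p a g + f z * cint p a (fun ξ => (ξ - z)⁻¹) := by
    intro a ha1 ha2 ha3
    have hsub : sphere p a ⊆ closedBall p R \ ball p r := fun ξ hξ =>
      ⟨closedBall_subset_closedBall ha2 (sphere_subset_closedBall hξ),
        by rw [mem_ball, mem_sphere.1 hξ]; exact not_lt.2 ha1⟩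
    have hne : ∀ ξ ∈ sphere p a, ξ ≠ z := fun ξ hξ hz => ha3 (by
      rw [← hz, ← dist_eq_norm, mem_sphere.1 hξ])
    have hi : ContinuousOn (fun ξ => (ξ - z)⁻¹) (sphere p a) :=
      (continuousOn_id.sub continuousOn_const).inv₀ fun ξ hξ => sub_ne_zero.2 (hne ξ hξ)
    rw [← cint_mul_const, ← cint_add (hr.le.trans ha1) (hgc.mono hsub)
      (hi.fun_mul continuousOn_const)]
    refine cint_congr (hr.le.trans ha1) fun ξ hξ => ?_
    simp only [L.ker p (h ξ (hsub hξ).1), hg, dslope_of_ne f (hne ξ hξ), slope, vsub_eq_sub,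
      smul_eq_mul]
    ring
  rw [key R hrR le_rfl h2.ne', key r le_rfl hrR h1.ne]
  have e1 : cint p R (fun ξ => (ξ - z)⁻¹) = 1 := by
    unfold cint
    rw [circleIntegral.integral_sub_inv_of_mem_ball (by rw [mem_ball, dist_eq_norm]; exact h2)]
    exact inv_mul_cancel₀ two_pi_I_ne_zero
  have e2 : cint p r (fun ξ => (ξ - z)⁻¹) = 0 := by
    unfold cint
    have hne : ∀ ξ ∈ closedBall p r, ξ - z ≠ 0 := fun ξ hξ h0 => by
      rw [mem_closedBall, dist_eq_norm, sub_eq_zero.1 h0] at hξ; linarith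
    rw [circleIntegral_eq_zero_of_differentiable_on_off_countable (f := fun ξ => (ξ - z)⁻¹)
      hr.le countable_empty
      ((continuousOn_id.sub continuousOn_const).inv₀ hne)
      fun ξ hξ => (differentiableAt_id.sub_const z).inv (hne ξ (ball_subset_closedBall hξ.1)),
      mul_zero]
  have e3 : cint p R g = cint p r g := by unfold cint; rw [hE]
  rw [e1, e2, e3]; ring

theorem ts_hasDerivAt (m : ℕ) {T : GI → ℂ → ℂ} {D : GI → ℂ} {z : ℂ}
    (h : ∀ w, HasDerivAt (T w) (D w) z) :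
    HasDerivAt (fun z' => ts m (fun w => T w z')) (ts m D) z := by
  unfold ts
  refine HasDerivAt.const_smul _ ?_
  exact HasDerivAt.fun_sum fun a _ => HasDerivAt.fun_sum fun b _ => h _

end Pool.Agent.P.MP_cc4a10_gt.SoP
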