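import Pool.Agent.P.MP_cc4a10_gt.St

/-!
Package Solv, part A: linearity and the reflection symmetry of the level forms.
-/

open Set Filter Topology Complex Metric
open scoped ComplexConjugate Real

noncomputable section

namespace Pool.Agent.P.MP_cc4a10_gt.SolvP

variable (E : Ell) (l : Lv)

theorem Rlin_add (ε ε' : GI → ℂ) (σ σ' : GI → ℝ) (u : GI) :
    Rlin E l (ε + ε') (σ + σ') u = Rlin E l ε σ u + Rlin E l ε' σ' u := by
  unfold Rlin
  rw [← ts_add]; congr 1; funext w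
  simp only [Pi.add_apply, map_sub, map_add]; push_cast; ring

theorem Rlin_smul (a : ℝ) (ε : GI → ℂ) (σ : GI → ℝ) (u : GI) :
    Rlin E l (a • ε) (a • σ) u = a * Rlin E l ε σ u := by
  unfold Rlin
  rw [← ts_mul_left]; congr 1; funext w
  simp only [Pi.smul_apply, map_sub, map_mul, Complex.real_smul, smul_eq_mul, conj_ofReal]
  push_cast; ring

theorem hlin_add (ε ε' : GI → ℂ) (σ σ' : GI → ℝ) (u : GI) :
    hlin E l (ε + ε') (σ + σ') u = hlin E l ε σ u + hlin E l ε' σ' u := by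
  unfold hlin
  rw [← ts_add]; congr 1; funext w
  simp only [Pi.add_apply, mul_re, sub_re, sub_im, add_re, add_im]; ring

theorem hlin_smul (a : ℝ) (ε : GI → ℂ) (σ : GI → ℝ) (u : GI) :
    hlin E l (a • ε) (a • σ) u = a * hlin E l ε σ u := by
  unfold hlin
  rw [← ts_mul_left_real]; congr 1; funext w
  simp only [Pi.smul_apply, mul_re, sub_re, sub_im, smul_re, smul_im, smul_eq_mul]; ring

theorem pair_add_right (F : GI → ℂ) (G : GI → ℝ) (ε ε' : GI → ℂ) (σ σ' : GI → ℝ) :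
    pair l F G (ε + ε') (σ + σ') = pair l F G ε σ + pair l F G ε' σ' := by
  unfold pair
  rw [← ts_add]; congr 1; funext w
  simp only [Pi.add_apply, mul_add, add_re]; ring

theorem pair_smul_right (a : ℝ) (F : GI → ℂ) (G : GI → ℝ) (ε : GI → ℂ) (σ : GI → ℝ) :
    pair l F G (a • ε) (a • σ) = a * pair l F G ε σ := by
  unfold pair
  rw [← ts_mul_left_real]; congr 1; funext w
  simp only [Pi.smul_apply, mul_re, smul_re, smul_im, smul_eq_mul]; ring

theorem BL_add_left (ε ε' : GI → ℂ) (σ σ' : GI → ℝ) (x : GI → ℂ) (y : GI → ℝ) :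
    BL E l (ε + ε') (σ + σ') x y = BL E l ε σ x y + BL E l ε' σ' x y := by
  unfold BL pair Flin Glin
  rw [← ts_add]; congr 1; funext w
  simp only [Rlin_add, hlin_add, Pi.add_apply, mul_add, add_mul, add_re]; ring

theorem BL_smul_left (a : ℝ) (ε : GI → ℂ) (σ : GI → ℝ) (x : GI → ℂ) (y : GI → ℝ) :
    BL E l (a • ε) (a • σ) x y = a * BL E l ε σ x y := by
  unfold BL pair Flin Glin
  rw [← ts_mul_left_real]; congr 1; funext w
  simp only [Rlin_smul, hlin_smul, Pi.smul_apply, mul_re, mul_im, ofReal_re, ofReal_im,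
    smul_eq_mul]
  ring

theorem eT_add (S : Sys) (v w : Vec) (K : ℤ) : eT S (v + w) K = eT S v K + eT S w K := rfl
theorem eT_smul (S : Sys) (a : ℝ) (v : Vec) (K : ℤ) : eT S (a • v) K = a • eT S v K := rfl
theorem sT_add (S : Sys) (v w : Vec) (K : ℤ) : sT S (v + w) K = sT S v K + sT S w K := by
  funext u; simp only [sT, Pi.add_apply, Prod.snd_add]; split_ifs <;> simp
theorem sT_smul (S : Sys) (a : ℝ) (v : Vec) (K : ℤ) : sT S (a • v) K = a • sT S v K := by
  funext u; simp only [sT, Pi.smul_apply, Prod.smul_snd]; split_ifs <;> simp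

theorem pair_cont (ε : GI → ℂ) (σ : GI → ℝ) (K : ℤ) :
    Continuous fun p : (ℤ → GI → ℂ) × (ℤ → GI → ℝ) => pair l (p.1 K) (p.2 K) ε σ := by
  unfold pair ts
  fun_prop

/-! ### Only the cells with a neck count -/

theorem Flin_congr {ε ε' : GI → ℂ} (σ : GI → ℝ) (h : ∀ u, q0 l u ≠ 0 → ε u = ε' u) :
    Flin E l ε σ = Flin E l ε' σ := by
  funext u
  unfold Flin Rlin
  by_cases hu : q0 l u = 0
  · simp [hu]
  · congr 2; funext w
    by_cases hw : q0 l w = 0
    · simp [hw]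
    · rw [h u hu, h w hw]

theorem Glin_congr {ε ε' : GI → ℂ} (σ : GI → ℝ) (h : ∀ u, q0 l u ≠ 0 → ε u = ε' u) :
    Glin E l ε σ = Glin E l ε' σ := by
  funext u
  unfold Glin hlin
  by_cases hu : q0 l u = 0
  · simp [hu]
  · congr 3; funext w
    by_cases hw : q0 l w = 0
    · simp [hw]
    · rw [h u hu, h w hw]

theorem pair_congr {F : GI → ℂ} (G : GI → ℝ) {ε ε' : GI → ℂ} (σ : GI → ℝ)
    (hF : ∀ u, q0 l u = 0 → F u = 0) (h : ∀ u, q0 l u ≠ 0 → ε u = ε' u) :
    pair l F G ε σ = pair l F G ε' σ := by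
  unfold pair
  congr 1; funext u
  by_cases hu : q0 l u = 0
  · simp [hF u hu]
  · rw [h u hu]

/-! ### Reflection -/

theorem pair_neg {F ε : GI → ℂ} {G σ : GI → ℝ} (hF : Per l.m F) (hG : Per l.m G) (hε : Per l.m ε)
    (hσ : Per l.m σ) :
    pair l (fun u => -F (-u)) (fun u => G (-u)) (fun u => -ε (-u)) (fun u => σ (-u))
      = pair l F G ε σ := by
  unfold pair
  rw [← ts_neg_arg (F := fun u => (F u * ε u).re + G u * σ u)
    (fun u w => by simp only [hF u w, hG u w, hε u w, hσ u w])]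
  simp only [neg_mul_neg]

theorem ker_per (hD : S_Dip) (hl : l.ok) (u w x : GI) :
    ∃ y : GI, l.c * ((u - (w + om ^ l.m * x) : GI) : ℂ) = l.c * ((u - w : GI) : ℂ) + y := by
  obtain ⟨w0, h0, -⟩ := (hD l hl).2.2.2.2.2.2.2.2.1
  refine ⟨-(w0 * x), ?_⟩
  simp only [map_sub, map_add, map_mul, map_neg, ← h0]; ring

theorem Lm_zero (z : ℂ) : Lm 0 z = z := by simp [Lm]

theorem lin_neg (hD : S_Dip) (hK : S_Ker0) (hl : l.ok) {ε : GI → ℂ} {σ : GI → ℝ}
    (hε : Per l.m ε) (hσ : Per l.m σ) :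
    Flin E l (fun u => -ε (-u)) (fun u => σ (-u)) = (fun u => -Flin E l ε σ (-u)) ∧
    Glin E l (fun u => -ε (-u)) (fun u => σ (-u)) = fun u => Glin E l ε σ (-u) := by
  obtain ⟨C, -, hk⟩ := hK E
  obtain ⟨-, -, -, -, hZG, -, -, -, hW, -⟩ := hk 0 (by simp)
  obtain ⟨-, -, hq, hqn, -⟩ := hD l hl
  have pW : ∀ u w x : GI, E.wp (l.c * ((u - (w + om ^ l.m * x) : GI) : ℂ))
      = E.wp (l.c * ((u - w : GI) : ℂ)) := fun u w x => by
    obtain ⟨y, hy⟩ := ker_per l hD hl u w x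
    rw [hy, E.Wper]
  have pZ : ∀ u w x : GI, E.Z 0 (l.c * ((u - (w + om ^ l.m * x) : GI) : ℂ))
      = E.Z 0 (l.c * ((u - w : GI) : ℂ)) := fun u w x => by
    obtain ⟨y, hy⟩ := ker_per l hD hl u w x
    rw [hy, ← Lm_zero y, E.Zper 0 (by simp)]
  have pG : ∀ u w x : GI, E.Gr 0 (l.c * ((u - (w + om ^ l.m * x) : GI) : ℂ))
      = E.Gr 0 (l.c * ((u - w : GI) : ℂ)) := fun u w x => by
    obtain ⟨y, hy⟩ := ker_per l hD hl u w x
    rw [hy, ← Lm_zero y, E.Gper 0 (by simp)]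
  have e : ∀ u w : GI, l.c * ((-u - -w : GI) : ℂ) = -(l.c * ((u - w : GI) : ℂ)) := fun u w => by
    simp only [map_sub, map_neg]; ring
  have hR : ∀ u, Rlin E l (fun u => -ε (-u)) (fun u => σ (-u)) u = -Rlin E l ε σ (-u) := by
    intro u
    unfold Rlin
    rw [← ts_neg_arg (F := fun w => (q0 l w : ℂ) *
      (-E.wp (l.c * ((-u - w : GI) : ℂ)) * (ε (-u) - ε w) - π * conj (ε (-u) - ε w))
        + ((q0 l w * σ w : ℝ) : ℂ) * E.Z 0 (l.c * ((-u - w : GI) : ℂ)))
      (fun w x => by simp only [hq w x, hε w x, hσ w x, pW, pZ]), ← ts_neg]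
    congr 1; funext w
    simp only [e, (hZG _).1, (hW _).1, (hqn w).1]
    simp only [map_sub, map_neg]; ring
  have hH : ∀ u, hlin E l (fun u => -ε (-u)) (fun u => σ (-u)) u = hlin E l ε σ (-u) := by
    intro u
    unfold hlin
    rw [← ts_neg_arg (F := fun w => q0 l w *
      (E.Z 0 (l.c * ((-u - w : GI) : ℂ)) * (ε (-u) - ε w)).re
        + q0 l w * σ w * E.Gr 0 (l.c * ((-u - w : GI) : ℂ)))
      (fun w x => by simp only [hq w x, hε w x, hσ w x, pG, pZ])]
    congr 1; funext w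
    simp only [e, (hZG _).1, (hZG _).2, (hqn w).1]
    congr 3; ring
  constructor
  · funext u; unfold Flin; rw [hR, (hqn u).1]; ring
  · funext u; unfold Glin; rw [hH, (hqn u).1]

/-- The reflection. -/
def JJ (v : Vec) : Vec := (fun k z => -v.1 k (-z), fun k z => v.2 k (-z))

theorem JJ_JJ (v : Vec) : JJ (JJ v) = v := by
  ext <;> simp [JJ]

theorem neg_lp (S : Sys) (k : ℤ) : ∃ x : GI, ∀ w, -lp S k w = lp S k (x - w) := by
  unfold lp oo
  split_ifs
  · refine ⟨-om, fun w => ?_⟩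
    simp only [map_sub, map_neg, coe_om]; ring
  · refine ⟨-gi, fun w => ?_⟩
    simp only [map_sub, map_neg, coe_gi]; ring

theorem lp_per (S : Sys) (k : ℤ) (u w : GI) :
    lp S k (u + om ^ S.st k * w) = lp S k u + ((gi ^ S.st k * w : GI) : ℂ) := by
  have h : al * (1 + I) = I := by
    unfold al; ring_nf; simp only [I_sq]; ring
  unfold lp
  simp only [map_add, map_mul, map_pow, coe_om, coe_gi]
  have h' : I ^ S.st k = al ^ S.st k * (1 + I) ^ S.st k := by rw [← mul_pow, h]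
  rw [h']; ring

theorem adm_per {S : Sys} {v : Vec} (hv : Adm S v) (k : ℤ) :
    Per (S.st k) (fun w => v.1 k (lp S k w)) ∧ Per (S.st k) (fun w => v.2 k (lp S k w)) :=
  ⟨fun u w => by simp only [lp_per, (hv.per k _ _).1],
    fun u w => by simp only [lp_per, (hv.per k _ _).2]⟩

theorem adm_JJ {S : Sys} {v : Vec} (hv : Adm S v) : Adm S (JJ v) := by
  refine ⟨fun k z hz => ?_, fun k z w => ?_, fun k => ?_, fun k => ?_⟩
  · obtain ⟨x, hx⟩ := neg_lp S k
    have := hv.off k (-z) fun w h => hz (x - w) (by rw [← hx, ← h, neg_neg])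
    simp [JJ, this]
  · have := hv.per k (-z) (-w)
    simp only [map_neg] at this
    simp only [JJ, neg_add, this, and_self]
  · obtain ⟨x, hx⟩ := neg_lp S k
    simp only [JJ, hx]
    rw [ts_neg, ts_sub_left (adm_per hv k).1 x, hv.m1, neg_zero]
  · obtain ⟨x, hx⟩ := neg_lp S k
    simp only [JJ, hx]
    rw [ts_sub_left (adm_per hv k).2 x, hv.m2]

theorem supp_JJ {a b : ℤ} {v : Vec} (hv : Supp a b v) : Supp a b (JJ v) := fun k hk => by
  constructor <;> funext z <;> simp [JJ, hv k hk]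

theorem nbr_eq {u : GI} (h : q0 l u ≠ 0) : nbr l.τ u = u := by
  unfold nbr
  rw [if_neg]
  intro h'
  exact h (by simp [q0, h'])

theorem eT_JJ (hD : S_Dip) {S : Sys} {K : ℤ} (hl : (lvT S K).ok) (v : Vec) (u : GI)
    (hu : q0 (lvT S K) u ≠ 0) : eT S (JJ v) K u = -eT S v K (-u) := by
  have hqn := ((hD _ hl).2.2.2.1 u).1
  unfold eT
  rw [nbr_eq _ hu, nbr_eq _ (by rwa [hqn])]
  simp only [JJ, lk, hqn, map_neg, mul_neg]

theorem sT_JJ (hD : S_Dip) {S : Sys} {K : ℤ} (hl : (lvT S K).ok) (v : Vec) :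
    sT S (JJ v) K = fun u => sT S v K (-u) := by
  funext u
  have hqn := ((hD _ hl).2.2.2.1 u).1
  simp only [sT, JJ, lk, hqn, map_neg, mul_neg]

theorem pT_JJ (hD : S_Dip) (hP : S_Par) {S : Sys} (hS : S.ok) {K : ℤ} {v : Vec} (hv : Adm S v)
    {F : GI → ℂ} {G : GI → ℝ} (pF : Per (mK S K) F) (pG : Per (mK S K) G)
    (h0 : ∀ u, q0 (lvT S K) u = 0 → F (-u) = 0) :
    pair (lvT S K) (fun u => -F (-u)) (fun u => G (-u)) (eT S (JJ v) K) (sT S (JJ v) K)
      = pair (lvT S K) F G (eT S v K) (sT S v K) := by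
  have hl := (hP S hS K).1
  have hL := ((hP S hS K).2.2.2.2.2.2.2.2.2 v hv).1
  rw [sT_JJ hD hl, pair_congr _ _ _ (fun u hu => by rw [h0 u hu, neg_zero]) (eT_JJ hD hl v)]
  exact pair_neg _ pF pG hL.pe hL.ps

theorem BT_JJ (hD : S_Dip) (hP : S_Par) (hK : S_Ker0) (hF : S_Flip) {S : Sys} (hS : S.ok) (K : ℤ)
    {v v' : Vec} (hv : Adm S v) (hv' : Adm S v') :
    BT E S (JJ v) (JJ v') K = BT E S v v' K := by
  have hl := (hP S hS K).1
  have hL := ((hP S hS K).2.2.2.2.2.2.2.2.2 v hv).1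
  have hper := ((hF E S hS K).1 _ _ hL).2.2.2.2.2.2.1
  have hn := lin_neg E _ hD hK hl hL.pe hL.ps
  unfold BT BL
  rw [sT_JJ hD hl v, Flin_congr E _ _ (eT_JJ hD hl v), Glin_congr E _ _ (eT_JJ hD hl v), hn.1, hn.2]
  refine pT_JJ hD hP hS hv' hper.1 hper.2 fun u hu => ?_
  unfold Flin
  rw [((hD _ hl).2.2.2.1 u).1, hu]; simp

end Pool.Agent.P.MP_cc4a10_gt.SolvP
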