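import Pool.Agent.P.MP_cc4a10_gt.StA

/-!
Statements, part C: the linear theory.
-/

open Set Filter Topology Complex Metric
open scoped ComplexConjugate Real

noncomputable section

namespace Pool.Agent.P.MP_cc4a10_gt

/-- `θ` is not in `2 π Z[i]`. -/
def NP (θ : ℂ) : Prop := ∀ w : GI, θ ≠ 2 * π * w

/-- Characters, representatives, inversion, Parseval. -/
def S_Char : Prop :=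
  (∀ j, ∃ R, RepS j R) ∧
  (∀ j R, Rep j R → Rep (j + 1) (R2 j R) ∧ ∀ F : GI → ℝ,
    ∑ κ ∈ R2 j R, F κ = ∑ κ ∈ R, (F κ + F (κ + om ^ j))) ∧
  (∀ j κ, (NP (thq j κ) ↔ ¬om ^ j ∣ κ) ∧ thq (j + 1) κ = thq j κ * kp ∧
    thq (j + 1) (κ + om ^ j) = thq j κ * kp + π * (1 - I)) ∧
  (∀ j R (o : ℂ), Rep j R →
    (∀ a : GI → ℂ, msq j (fun w => ∑ κ ∈ R, a κ * chi κ (al ^ j * (o + w))) = ∑ κ ∈ R, ‖a κ‖ ^ 2) ∧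
    ∀ f : GI → ℂ, Per j f →
      (∀ w : GI, ∑ κ ∈ R, av j (fun w => f w * conj (chi κ (al ^ j * (o + w))))
        * chi κ (al ^ j * (o + w)) = f w) ∧
      ∑ κ ∈ R, ‖av j (fun w => f w * conj (chi κ (al ^ j * (o + w))))‖ ^ 2 = msq j f) ∧
  ∀ (S : Sys) (J : ℕ) (R : ℤ → Finset GI),
    (∀ v, Adm S v → (∀ k κ, om ^ S.st k ∣ κ → hat S J v k κ = 0) ∧
      ∀ k, Rep (S.st k) (R k) → (syn S J R (hat S J v)).1 k = v.1 k ∧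
        (syn S J R (hat S J v)).2 k = v.2 k) ∧
    ∀ a : ℤ → GI → T3, (∀ k, ∀ κ ∈ R k, om ^ S.st k ∣ κ → a k κ = 0) → Adm S (syn S J R a)

/-- Sums of the kernels over the torsion points. -/
def S_Tor0 : Prop := ∀ E : Ell, E.wp (1 / 2) = ee E ∧ E.wp (I / 2) = -ee E ∧ E.wp hf = 0 ∧
  ∀ (j : ℕ) (z : ℂ), sW E j 0 z = E.wp z

/-- The torus sums are the symbols of a Bloch function. -/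
def S_Tor : Prop := ∀ (E : Ell) (j : ℕ) (κ : GI), NP (thq j κ) →
  ∃ b : BD (thq j κ), syT E j κ = b.sy

/-- Fourier form of a uniform level. -/
def S_FU : Prop := ∀ (E : Ell) (S : Sys) (K : ℤ) (j : ℕ) (R : ℤ → Finset GI) (v : Vec)
  (a : ℤ → GI → T3), S.ok → S.st (K - 1) = j → S.st K = j → R (K - 1) = R K → Rep j (R K) →
  Adm S v →
  BT E S v (syn S j R a) K = ((2 : ℝ) ^ j)⁻¹ * ∑ κ ∈ R K, (bP (ee E) (LL j) (syT E j κ)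
    (hat S j v (K - 1) κ) (hat S j v K κ) (a (K - 1) κ) (a K κ)).re ∧
  ∀ J, j = J + 1 → BT E S v (syn S J R a) K = ((2 : ℝ) ^ J)⁻¹ * ∑ κ ∈ R K,
    (bC (ee E) (LL j) (syT E j κ) (hat S J v (K - 1) κ) (hat S J v K κ) (a (K - 1) κ) (a K κ)).re

/-- Fourier form of a transition level, `kc` the coarse and `kf` the fine layer. -/
def S_FT : Prop := ∀ (E : Ell) (S : Sys) (K kc kf : ℤ) (j : ℕ) (R : ℤ → Finset GI) (v : Vec)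
  (a : ℤ → GI → T3), S.ok → ((kc = K - 1 ∧ kf = K) ∨ (kc = K ∧ kf = K - 1)) → S.st kc = j →
  S.st kf = j + 1 → Rep j (R kc) → R kf = R2 j (R kc) → Adm S v →
  BT E S v (syn S j R a) K = ((2 : ℝ) ^ j)⁻¹ * ∑ κ ∈ R kc,
    (bT (ee E) (LL j) (LL (j + 1)) (syT E j κ) (syT E (j + 1) κ) (syT E (j + 1) (κ + om ^ j))
      (hat S j v kc κ) (hat S j v kf κ) (hat S j v kf (κ + om ^ j))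
      (a kc κ) (a kf κ) (a kf (κ + om ^ j))).re

/-- Norm of a synthesised vector on a uniform level. -/
def S_NU : Prop := ∃ C : ℝ, 0 < C ∧ ∀ (S : Sys) (K : ℤ) (j J : ℕ) (R : ℤ → Finset GI)
  (a : ℤ → GI → T3) (r : GI → ℝ), S.ok → S.st (K - 1) = j → S.st K = j → (j = J ∨ j = J + 1) →
  R (K - 1) = R K → Rep j (R K) →
  (∀ κ ∈ R K, (a (K - 1) κ = 0 ∧ a K κ = 0) ∨ (0 < r κ ∧ ‖thq j κ‖ ≤ 10 * r κ ∧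
    ∀ w : GI, r κ ≤ 10 * ‖thq j κ - 2 * π * w‖)) →
  nT S (syn S J R a) K ≤ C * ∑ κ ∈ R K, nU (r κ) (j + 2) (a (K - 1) κ) (a K κ)

/-- Norm of a synthesised vector on a transition level. -/
def S_NT : Prop := ∃ C : ℝ, 0 < C ∧ ∀ (S : Sys) (K kc kf : ℤ) (j : ℕ) (R : ℤ → Finset GI)
  (a : ℤ → GI → T3), S.ok → ((kc = K - 1 ∧ kf = K) ∨ (kc = K ∧ kf = K - 1)) → S.st kc = j →
  S.st kf = j + 1 → RepS j (R kc) → R kf = R2 j (R kc) → a kc 0 = 0 → a kf 0 = 0 →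
  nT S (syn S j R a) K ≤ C * ∑ κ ∈ R kc,
    (nU ‖thq j κ‖ (j + 2) (a kc κ) (a kf κ) + n1 (j + 2) (a kf (κ + om ^ j)))

/-- Uniqueness, rotation and change of representative for Bloch functions. -/
def S_Uni : Prop := ∀ (θ : ℂ) (b : BD θ), NP θ →
  (∀ b' : BD θ, (∀ z, NL z → b'.f z = b.f z) ∧ ∀ z, ‖z‖ < 9 / 10 → b'.g z = b.g z) ∧
  (∃ b' : BD (I * θ), (∀ z, b'.f (I * z) = -I * b.f z) ∧ (∀ z, b'.g (I * z) = -I * b.g z) ∧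
    (∀ z, b'.γ (I * z) = b.γ z) ∧ b'.g0 = b.g0) ∧
  (∀ w : GI, ∃ b' : BD (θ + 2 * π * w), b'.f = b.f ∧ b'.g = b.g ∧ b'.γ = b.γ ∧ b'.g0 = b.g0) ∧
  ∀ (χ : GI → ℂ) (h : ℂ → ℂ), (∀ w, ‖χ w‖ = 1) → (∀ z, NL z → DifferentiableAt ℂ h z) →
    (∀ z (w : GI), NL z → h (z + w) = χ w * h z) →
    Tendsto (fun z => z * h z) (𝓝[≠] 0) (𝓝 0) → ∃ κ, ∀ z, NL z → h z = κ

/-- Maximum principle on a strip. -/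
def S_Strip : Prop := ∀ (χ1 χ2 : ℂ) (h : ℂ → ℂ), ‖χ1‖ = 1 → ‖χ2‖ = 1 →
  (∀ z, NL z → |z.im| < 1 → DifferentiableAt ℂ h z) →
  (∀ z, NL z → |z.im| < 1 → h (z + 1) = χ1 * h z) →
  (∀ z : ℂ, -1 < z.im → z.im < 0 → h (z + I) = χ2 * h z) →
  Tendsto (fun z => z * h z) (𝓝[≠] 0) (𝓝 0) → ∃ κ, ∀ z, NL z → |z.im| < 1 → h z = κ

/-- Explicit series for a Bloch function. -/
def S_Ex : Prop := ∀ (θ : ℂ) (b : BD θ), NP θ → |θ.re| ≤ π →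
  (∀ z, NL z → |z.im| < 1 → b.f z = fE θ z) ∧ b.sy.p = pE θ ∧ b.sy.c = cE θ

def S_Ex0 : Prop := ∀ E : Ell, ee E = eE ∧
  π ^ 2 / 3 - 8 * π ^ 2 * ∑' k : ℕ, ((k : ℝ) + 1) / (Real.exp (2 * π * (k + 1)) - 1) = π ∧
  6875 / 1000 ≤ eE ∧ eE ≤ 6876 / 1000

/-- The identities between the symbols. -/
def S_Id : Prop := ∀ E : Ell,
  (∀ (θ : ℂ) (b : BD θ), NP θ → b.sy.p ^ 2 - b.sy.ch ^ 2 = Om (ee E) b.sy ∧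
    (∀ b' : BD (I * θ), b'.sy.p = -b.sy.p ∧ Om (ee E) b'.sy = Om (ee E) b.sy) ∧
    ∀ (w : GI) (b' : BD (θ + 2 * π * w)), b'.sy.p = b.sy.p ∧ Om (ee E) b'.sy = Om (ee E) b.sy) ∧
  ∀ (θ : ℂ) (b : BD θ) (b1 : BD (θ * kp)) (b2 : BD (θ * kp + π * (1 - I))), NP θ →
    b.sy.p = -I * (b1.sy.p + b2.sy.p) ∧ Om (ee E) b.sy = -4 * b1.sy.p * b2.sy.p ∧
    b1.sy.ch * b2.sy.ch = ee E * b.sy.p ∧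
    Om (ee E) b1.sy + Om (ee E) b2.sy = ee E ^ 2 + 2 * b1.sy.p * b2.sy.p ∧
    b.sy.z1 = kp * (b1.sy.zh - b2.sy.zh)

/-- The Bloch function minus its leading term, on the paths that are used. -/
def S_AsyZ : Prop := ∃ C : ℝ, 0 < C ∧ ∀ (θ : ℂ) (b : BD θ), Sq θ →
  ‖b.sy.z0 + 2 * π * I / θ‖ ≤ C * ‖θ‖ ∧ ‖b.sy.z1 + 2 * π * I / θ‖ ≤ C * ‖θ‖ ∧
  ‖b.sy.zh + 2 * π * I / θ‖ ≤ C * ‖θ‖ ∧ ‖b.sy.ch + π * conj θ / θ‖ ≤ C * ‖θ‖ ∧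
  ‖b.sy.p‖ ≤ C ∧ ‖b.sy.c‖ ≤ C ∧
  (∀ z : ℂ, NL z → |z.re| ≤ 1 → |z.im| ≤ 1 / 2 → (|z.im| = 1 / 2 ∨ |z.re| ≤ 1 / 2) →
    ‖b.f z * ex θ z + 2 * π * I / θ - z⁻¹‖ ≤ C) ∧
  ‖(∫ x in (0 : ℝ)..1, b.f (x + I / 2) * ex θ (x + I / 2)) + 2 * π * I / θ‖ ≤ C * ‖θ‖ ∧
  ‖(∫ x in (0 : ℝ)..1, b.f (-(x + I / 2)) * ex θ (-(x + I / 2))) + 2 * π * I / θ‖
    ≤ C * ‖θ‖

def S_Asy : Prop := (∃ C : ℝ, 0 < C ∧ ∀ (θ : ℂ) (b : BD θ), Sq θ → Asy C θ b.sy) ∧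
  ∀ η : ℝ, 0 < η → ∃ C : ℝ, 0 < C ∧ ∀ (θ : ℂ) (b : BD θ),
    (∀ w : GI, η ≤ ‖θ - 2 * π * w‖) → Bd C b.sy

/-- Small frequencies, explicit series. -/
def S_NumS : Prop := ∀ θ : ℂ, θ ≠ 0 → ‖θ‖ ≤ 9 / 10 →
  ‖pE θ + π * conj θ / θ‖ ≤ 6 / 10 * ‖θ‖ ^ 2 ∧
  ‖eE + pE θ - cE θ - (2735 / 10000 * ‖θ‖ ^ 2 + conj θ ^ 2 / 8)‖
    ≤ (1 / 100 + ‖θ‖ ^ 2 / 40) * ‖θ‖ ^ 2

/-- Interval bounds away from zero. -/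
def S_NumA : Prop := ∀ θ : ℂ, |θ.re| ≤ π → |θ.im| ≤ π → 6 / 10 ≤ ‖θ‖ →
  1 / 10 ≤ (OmE θ).re ∧ 2 * |(OmE θ).im| ≤ (OmE θ).re ∧ ‖pE θ‖ ≤ 38 / 10

def S_NumG : Prop := ∀ θ θ2 z1 z2 Z : ℂ, |θ.re| + |θ.im| ≤ π → 6 / 10 ≤ ‖θ‖ →
  ((0 ≤ θ.re ∧ θ2 = θ - π * (1 + I)) ∨ (θ.re ≤ 0 ∧ θ2 = θ + π * (1 - I))) →
  0 < z1.re → 0 < z2.re → 0 < Z.re → z1 ^ 2 = OmE θ → z2 ^ 2 = OmE θ2 →
  Z ^ 2 = -4 * pE θ * pE θ2 →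
  1 / 10 ≤ ‖(z2 - pE θ) * (z1 - pE θ2) + I * Z * (z2 - pE θ + (z1 - pE θ2))‖

/-- Sector and size of `Om` and `p` on the whole square. -/
def S_Sec : Prop := ∀ E : Ell, ∀ (θ : ℂ) (b : BD θ), Sq θ →
  ‖θ‖ ^ 2 / 200 ≤ (Om (ee E) b.sy).re ∧ 2 * |(Om (ee E) b.sy).im| ≤ (Om (ee E) b.sy).re ∧
  ‖b.sy.p‖ ≤ 38 / 10

def S_Low : Prop := ∀ E : Ell, ∃ C c0 r0 : ℝ, 0 < C ∧ 0 < c0 ∧ 0 < r0 ∧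
  ∀ (θ : ℂ) (b : BD θ), θ ≠ 0 → ‖θ‖ ≤ r0 → LowH C c0 (ee E) θ b.sy ∧
    ∀ (b1 : BD (θ * kp)) (b2 : BD (θ * kp + π * (1 - I))), LowP C (ee E) ‖θ‖ b.sy b1.sy b2.sy

def S_High : Prop := ∀ (E : Ell) (r0 : ℝ), 0 < r0 → ∃ η : ℝ, 0 < η ∧ η ≤ r0 ∧ η ≤ 1 / 10 ∧
  (∀ (θ : ℂ) (b : BD θ), Sq θ → r0 ≤ ‖θ‖ → (Bd (1 / η) b.sy ∧ ∃ Z, Gap η (ee E) b.sy Z) ∧
    ∀ (b1 : BD (θ * kp)) (b2 : BD (θ * kp + π * (1 - I))),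
      Bd (1 / η) b1.sy ∧ Bd (1 / η) b2.sy ∧ ∃ Z Z1 Z2, Gap η (ee E) b.sy Z ∧
        Gap η (ee E) b1.sy Z1 ∧ Gap η (ee E) b2.sy Z2 ∧
        η ≤ ‖det3 (ee E) b.sy b1.sy b2.sy Z Z1 Z2‖) ∧
  ∀ b2 : BD (0 * kp + π * (1 - I)),
    Bd (1 / η) b2.sy ∧ ∃ Z2, Gap η (ee E) b2.sy Z2 ∧ η ≤ ‖Z2 + b2.sy.p‖

/-- Stability of one chain with a Dirichlet end. -/
def St1 (c1 C1 e r L : ℝ) (s : Sy) : Prop := ∀ (N : ℕ) (a : ℕ → T3), Fs N a → a 0 = 0 →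
  ∃ a', Fs (N + 1) a' ∧ a' 0 = 0 ∧ c1 * nM1 r L (N + 2) a ≤ (bM1 e L s (N + 2) a a').re ∧
    nM1 r L (N + 2) a' ≤ C1 * nM1 r L (N + 2) a
/-- Stability of three chains. -/
def St3 (c1 C1 e r L L' : ℝ) (s s1 s2 : Sy) : Prop := ∀ (N Na Nb : ℕ) (a b c : ℕ → T3),
  Na ≤ N → Nb ≤ N → Fs Na a → Fs Nb b → Fs Nb c →
  ∃ a' b' c', Fs (Na + 1) a' ∧ Fs (Nb + 1) b' ∧ Fs (Nb + 1) c' ∧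
    c1 * nM3 r L (N + 2) a b c ≤ (bM3 e L L' s s1 s2 (N + 2) a b c a' b' c').re ∧
    nM3 r L (N + 2) a' b' c' ≤ C1 * nM3 r L (N + 2) a b c
/-- Stability of the zero mode family. -/
def St0 (c1 C1 e L L' : ℝ) (s s1 s2 : Sy) : Prop := ∀ (N Nb : ℕ) (c : ℕ → T3), Nb ≤ N →
  Fs Nb c → ∃ c', Fs (Nb + 1) c' ∧
    c1 * nM3 0 L (N + 2) 0 0 c ≤ (bM3 e L L' s s1 s2 (N + 2) 0 0 c 0 0 c').re ∧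
    nM3 0 L (N + 2) 0 0 c' ≤ C1 * nM3 0 L (N + 2) 0 0 c

/-- The low frequency test vector. -/
def TL (A : T3) : T3 := ⟨wq * A.X, conj wq * A.x, -A.s⟩
/-- Coercivity of one level at low frequency. -/
def S_Lvl : Prop := ∀ C e δ : ℝ, 0 < C → 6 ≤ e → e ≤ 7 → 0 < δ →
  ∃ r0 L0 c1 : ℝ, 0 < r0 ∧ 0 < c1 ∧ ∀ (θ ε D c z0 z1 g g1 : ℂ) (L : ℝ), θ ≠ 0 → ‖θ‖ ≤ r0 →
    (ε = 1 ∨ ε = -I) → ‖c - (ε * e - π * conj θ / θ)‖ ≤ C * ‖θ‖ →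
    ‖z0 + 2 * π * I / θ‖ ≤ C * ‖θ‖ → ‖z1 + 2 * π * I / θ‖ ≤ C * ‖θ‖ →
    ‖g + L + 2 * π / ‖θ‖ ^ 2‖ ≤ C → ‖g1 + 2 * π / ‖θ‖ ^ 2‖ ≤ C → L0 ≤ L → ∀ A B : T3,
    c1 * (‖A.x - B.x‖ ^ 2 + ‖A.X - B.X‖ ^ 2 + L * (‖A.s‖ ^ 2 + ‖B.s‖ ^ 2)
        + ‖A.s - B.s‖ ^ 2 / ‖θ‖ ^ 2)
      + ((wq * (D - c)).re / 2 - δ * ‖θ‖ ^ 2) * (‖A.x‖ ^ 2 + ‖A.X‖ ^ 2 + ‖B.x‖ ^ 2 + ‖B.X‖ ^ 2)
      ≤ (bU D c z0 z1 g g1 A B (TL A) (TL B)).re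

def S_ML1 : Prop := ∀ C c0 e : ℝ, 0 < C → 0 < c0 → 6 ≤ e → e ≤ 7 →
  ∃ r0 L0 c1 C1 : ℝ, 0 < r0 ∧ 0 < c1 ∧ 0 < C1 ∧ ∀ (θ : ℂ) (s : Sy) (L : ℝ), θ ≠ 0 → ‖θ‖ ≤ r0 →
    LowH C c0 e θ s → L0 ≤ L → St1 c1 C1 e ‖θ‖ L s
def S_ML3 : Prop := ∀ C c0 e : ℝ, 0 < C → 0 < c0 → 6 ≤ e → e ≤ 7 →
  ∃ r0 L0 c1 C1 : ℝ, 0 < r0 ∧ 0 < c1 ∧ 0 < C1 ∧ ∀ (θ : ℂ) (s s1 s2 : Sy) (L L' : ℝ), θ ≠ 0 →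
    ‖θ‖ ≤ r0 → LowH C c0 e θ s → LowH C c0 e (θ * kp) s1 → LowP C e ‖θ‖ s s1 s2 → L0 ≤ L →
    |L' - L| ≤ 1 → St3 c1 C1 e ‖θ‖ L L' s s1 s2

/-- Half line estimates for the recurrence `2 D x n - c (x (n-1) + x (n+1))`. -/
def S_Half : Prop := ∀ η : ℝ, 0 < η → ∃ C : ℝ, 0 < C ∧ ∀ (D c Z : ℂ) (x : ℕ → ℂ) (N : ℕ),
  Z ^ 2 = D ^ 2 - c ^ 2 → ‖c‖ ≤ (1 - η) * ‖D + Z‖ → η ≤ ‖D + Z‖ → ‖D + Z‖ ≤ 10 / η →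
  (∀ n, N ≤ n → x n = 0) →
  ‖D * x 0 - c * x 1 - Z * x 0‖ ^ 2
      ≤ C * ∑ n ∈ Finset.range (N + 1), ‖2 * D * x (n + 1) - c * (x n + x (n + 2))‖ ^ 2 ∧
    ∑ n ∈ Finset.range (N + 1), ‖x n‖ ^ 2 ≤ C * (‖x 0‖ ^ 2 +
      ∑ n ∈ Finset.range (N + 1), ‖2 * D * x (n + 1) - c * (x n + x (n + 2))‖ ^ 2)

def S_MH1 : Prop := ∀ η e : ℝ, 0 < η → η ≤ 1 / 10 → |e| ≤ 7 →
  ∃ L0 c1 C1 : ℝ, 0 < c1 ∧ 0 < C1 ∧ ∀ (s : Sy) (Z : ℂ) (L : ℝ), Bd (1 / η) s → Gap η e s Z →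
    L0 ≤ L → (∀ r, η ≤ r → r ≤ 5 → St1 c1 C1 e r L s) ∧
      (η ≤ ‖Z + s.p‖ → ∀ (L' : ℝ) (s0 s1 : Sy), |L' - L| ≤ 1 → St0 c1 C1 e L L' s0 s1 s)
def S_MH3 : Prop := ∀ η e : ℝ, 0 < η → η ≤ 1 / 10 → |e| ≤ 7 →
  ∃ L0 c1 C1 : ℝ, 0 < c1 ∧ 0 < C1 ∧ ∀ (s s1 s2 : Sy) (Z Z1 Z2 : ℂ) (r L L' : ℝ),
    Bd (1 / η) s → Bd (1 / η) s1 → Bd (1 / η) s2 → Gap η e s Z → Gap η e s1 Z1 →
    Gap η e s2 Z2 → η ≤ ‖det3 e s s1 s2 Z Z1 Z2‖ → η ≤ r → r ≤ 5 → L0 ≤ L → |L' - L| ≤ 1 →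
    St3 c1 C1 e r L L' s s1 s2

/-- All modes are stable. -/
def S_Modes : Prop := ∀ E : Ell, ∃ (c1 C1 : ℝ) (j1 : ℕ), 0 < c1 ∧ 0 < C1 ∧ ∀ j, j1 ≤ j →
  (j + 2 : ℝ) ≤ 4 * LL j ∧ LL j ≤ j + 2 ∧
  (∀ κ, Sq (thq j κ) → St1 c1 C1 (ee E) ‖thq j κ‖ (LL j) (syT E j κ) ∧
    St3 c1 C1 (ee E) ‖thq j κ‖ (LL j) (LL (j + 1)) (syT E j κ) (syT E (j + 1) κ)
      (syT E (j + 1) (κ + om ^ j))) ∧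
  St0 c1 C1 (ee E) (LL j) (LL (j + 1)) (syT E j 0) (syT E (j + 1) 0) (syT E (j + 1) (0 + om ^ j))

/-- A priori estimate with tests supported in `[a', b']`. -/
def Loc (E : Ell) (S : Sys) (C : ℝ) (j : ℕ) (a b a' b' : ℤ) : Prop :=
  ∀ (v : Vec) (A : ℝ), Adm S v → Supp a b v → 0 ≤ A →
  (∀ v', Adm S v' → Supp a' b' v' → |∑ K ∈ Finset.Icc a' (b' + 1), BT E S v v' K|
    ≤ A * √(∑ K ∈ Finset.Icc a' (b' + 1), nT S v' K)) →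
  (∑ K ∈ Finset.Icc a' (b' + 1), nT S v K) * dd j ^ 4 ≤ C * A ^ 2

def S_Loc1 : Prop := ∀ E : Ell, ∃ (C : ℝ) (j1 : ℕ), 0 < C ∧ ∀ (S : Sys) (j : ℕ) (a b : ℤ),
  S.ok → j1 ≤ j → a ≤ b → (∀ k, a - 2 ≤ k → k ≤ b + 2 → S.st k = j) →
  Loc E S C j a b (a - 1) b ∧ Loc E S C j a b a (b + 1)

def S_Loc3 : Prop := ∀ E : Ell, ∃ (C : ℝ) (j1 : ℕ), 0 < C ∧ ∀ (S : Sys) (j : ℕ) (a b k0 : ℤ),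
  S.ok → j1 ≤ j → a ≤ k0 → k0 < b →
  ((∀ k, a - 2 ≤ k → k ≤ b + 2 → S.st k = if k ≤ k0 then j else j + 1) ∨
    ∀ k, a - 2 ≤ k → k ≤ b + 2 → S.st k = if k ≤ k0 then j + 1 else j) →
  Loc E S C j a b (a - 1) (b + 1)

/-- Cut-offs in the layer index. -/
def S_Cut : Prop := ∀ E : Ell, ∃ (C : ℝ) (j1 : ℕ), 0 < C ∧ ∀ (S : Sys) (χ : ℤ → ℝ) (v : Vec),
  S.ok → Big S j1 → Adm S v → Adm S (cut χ v) ∧ ∀ (K : ℤ) (h : ℝ), |χ K| ≤ 1 → |χ (K - 1)| ≤ 1 →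
  |χ K - χ (K - 1)| ≤ h → h ≤ dd (mK S K) → nT S (cut χ v) K ≤ C * nT S v K ∧
    (χ K = 1 → χ (K - 1) = 1 → nT S (cut χ v) K = nT S v K) ∧
    (χ K = 0 → χ (K - 1) = 0 → nT S (cut χ v) K = 0 ∧
      ∀ v', BT E S (cut χ v) v' K = 0 ∧ BT E S v' (cut χ v) K = 0) ∧
    ∀ v', Adm S v' → |BT E S (cut χ v) v' K - BT E S v (cut χ v') K|
      ≤ C * mK S K * dd (mK S K) * h * (√(nT S v K) * √(nT S v' K))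

end Pool.Agent.P.MP_cc4a10_gt
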