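import Pool.Agent.P.MP_cc4a10_gt.StB
import Pool.Agent.P.MP_cc4a10_gt.StC
import Pool.Agent.P.MP_cc4a10_gt.Basic

/-!
Statements, part D: auxiliary statements that split the larger packages.
-/

open Set Filter Topology Complex Metric
open scoped ComplexConjugate Real

noncomputable section

namespace Pool.Agent.P.MP_cc4a10_gt

open Classical in
/-- Representatives modulo `(1+i)^m`. -/
def S_Box : Prop := ∀ m : ℕ,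
  (∀ u, (∃ w, u = mr m u + om ^ m * w) ∧ ‖((mr m u : GI) : ℂ)‖ * dd m ≤ 7072 / 10000 ∧
    (∀ w, ‖((mr m u : GI) : ℂ)‖ ≤ ‖((u + om ^ m * w : GI) : ℂ)‖) ∧ (mr m u = 0 ↔ om ^ m ∣ u)) ∧
  Per m (mr m) ∧ Per m (Hh m) ∧ ‖((om ^ m : GI) : ℂ)‖ * dd m = 1 ∧
  (∀ u, 1 ≤ Hh m u ∧ Hh m u * dd m ≤ 2 ∧ Hh m (-u) = Hh m u ∧
    ∀ g : GI, Hh m (u + g) ≤ Hh m u + ‖(g : ℂ)‖) ∧
  (∀ (V : Type) [AddCommGroup V] [Module ℝ V] (F : GI → V), Per m F →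
    (∀ u, ts m (fun w => if om ^ m ∣ w - u then F w else 0) = F u) ∧
    ∀ R, Rep m R → ts m F = ∑ κ ∈ R, F κ) ∧
  (∃ R, Rep m R ∧ ∀ κ ∈ R, mr m κ = κ) ∧
  ∀ F : GI → ℂ, Per m F → ∀ u, ‖F u‖ ^ 2 ≤ msq m F / dd m ^ 2

/-- The field of a neutral density, by duality. -/
def S_Dual : Prop := ∀ (m : ℕ) (ρ : GI → ℝ) (k : GI → ℂ) (B : ℝ), 2 ≤ m → Per m ρ → ts m ρ = 0 →
  Per m k → ts m (fun x => ‖k (x + 1) - k x‖) ≤ B → ts m (fun x => ‖k (x + gi) - k x‖) ≤ B →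
  msq m (fun u => ts m (fun w => (ρ w : ℂ) * k (u - w))) ≤ 2 * B ^ 2 * dn m ρ ^ 2

def S_BddA : Prop := ∀ E : Ell, ∃ (C : ℝ) (m0 : ℕ), 0 < C ∧ ∀ (l : Lv), l.ok → m0 ≤ l.m →
  ∀ ε ε' : GI → ℂ, Per l.m ε → Per l.m ε' →
  |pair l (Flin E l ε 0) 0 ε' 0| ≤ C * l.m * (√(g2 l.m ε) * √(g2 l.m ε'))

def S_BddB : Prop := ∀ E : Ell, ∃ (C : ℝ) (m0 : ℕ), 0 < C ∧ ∀ (l : Lv), l.ok → m0 ≤ l.m →
  ∀ ε : GI → ℂ, Per l.m ε →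
  g2 l.m (fun u => ts l.m (fun w => (q0 l w : ℂ) * (E.Z 0 (l.c * ((u - w : GI) : ℂ)) * (ε u - ε w))))
    ≤ (C * l.m * dd l.m) ^ 2 * g2 l.m ε

def S_ErrF2 : Prop := ∀ E : Ell, ∃ (C : ℝ) (m0 : ℕ), 0 < C ∧ ∀ (l : Lv) (s : Ls) (b : ℝ),
  LG l s b → m0 ≤ l.m → ∀ ε' : GI → ℂ, Per l.m ε' → M0 l ε' →
  ‖ts l.m (fun u => (q0 l u : ℂ) * ε' u * ts l.m (fun w => ((q0 l w * s.σ w : ℝ) : ℂ) *
      (E.Z s.μ (Lm s.μ (l.c * ((u - w : GI) : ℂ)) + (s.ε u - s.ε w))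
        - E.Z 0 (l.c * ((u - w : GI) : ℂ)))))‖
    ≤ C * (l.m : ℝ) ^ 2 * tt l.m ^ 4 * b * (dd l.m * √(g2 l.m ε'))

def S_ErrH2 : Prop := ∀ E : Ell, ∃ (C : ℝ) (m0 : ℕ), 0 < C ∧ ∀ (l : Lv) (s : Ls) (b : ℝ),
  LG l s b → m0 ≤ l.m →
  msq l.m (fun u => ((ts l.m (fun w => q0 l w * KG E l.c s.μ (u - w) (s.ε u - s.ε w)) : ℝ) : ℂ))
    ≤ (C * (l.m : ℝ) ^ 2 * tt l.m ^ 4 * b * dd l.m ^ 2) ^ 2

def S_ErrH3 : Prop := ∀ E : Ell, ∃ (C : ℝ) (m0 : ℕ), 0 < C ∧ ∀ (l : Lv) (s : Ls) (b : ℝ),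
  LG l s b → m0 ≤ l.m → ∀ σ' : GI → ℝ, LV l 0 σ' →
  |ts l.m (fun u => q0 l u * σ' u * ts l.m (fun w => q0 l w * s.σ w *
      (E.Gr s.μ (Lm s.μ (l.c * ((u - w : GI) : ℂ)) + (s.ε u - s.ε w))
        - E.Gr 0 (l.c * ((u - w : GI) : ℂ)))))|
    ≤ C * (l.m : ℝ) ^ 3 * tt l.m ^ 4 * b * (dd l.m ^ 2 * √(nb2 l 0 σ'))

def S_ShpR : Prop := ∀ E : Ell, ∃ (C : ℝ) (m0 : ℕ), 0 < C ∧ ∀ (l : Lv) (s : Ls) (b : ℝ),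
  LG l s b → m0 ≤ l.m →
  (∀ u ∈ Nk l, ∀ z, ‖z - pos l s u‖ < dd l.m / 2 → ‖RR E l s u z‖ ≤ C * dd l.m) ∧
  ∀ z ∈ Out (Nk l) (pos l s) (dd l.m / 5), ‖psi E l s z‖ ≤ C * dd l.m

/-- Families of functions on the discs around the necks. -/
def FamOK (S : Sys) (x : Cfg) (a : ℝ) (M : Fam) : Prop := ∀ K, ∀ u ∈ Nk (lvF S K),
  DifferentiableOn ℂ (M K u) (ball (pK S x K u) (rho (mK S K) * (3 / 4))) ∧
  (∀ z, ‖z - pK S x K u‖ ≤ rho (mK S K) * (3 / 4) → ‖M K u z‖ ≤ a) ∧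
  (∀ z, M K (-u) (-z) = M K u z) ∧
  ∀ w z, M K (u + om ^ mK S K * w) (z + prd S x K w) = M K u z

/-- One step of the Cousin iteration. -/
def S_Fo : Prop := ∀ E : Ell, ∃ (C : ℝ) (j1 : ℕ), 0 < C ∧ ∀ (S : Sys) (x : Cfg), S.ok →
  Big S j1 → XX S x → ∀ (a : ℝ) (M : Fam), FamOK S x a M →
  FamOK S x (a / 2) (fun K _ z => So E S x K (fo E S x M K) (rho (mK S K)) z) ∧ ∀ K,
  (∀ u ∈ Nk (lvF S K), ‖tn S x K u + qK S x K u ^ 2‖ ≤ qK S x K u ^ 2 / 100 ∧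
    DifferentiableOn ℂ (mm E S x M K u) (ball 0 (rho (mK S K) * (49 / 100))) ∧
    (∀ y, ‖y‖ ≤ rho (mK S K) * (45 / 100) → ‖mm E S x M K u y‖ ≤ a) ∧
    (∀ z, ‖z - pK S x K u‖ < rho (mK S K) * (45 / 100) →
      mm E S x M K u (vK E S x K u z) = M K u z) ∧
    (∀ y, mm E S x M K (-u) (-y) = mm E S x M K u y ∧
      ∀ w, mm E S x M K (u + om ^ mK S K * w) y = mm E S x M K u y) ∧
    DifferentiableOn ℂ (fo E S x M K u)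
      {ξ | rho1 (mK S K) / 4 < ‖ξ - pK S x K u‖ ∧ ‖ξ - pK S x K u‖ < 2 * rho (mK S K)} ∧
    DifferentiableOn ℂ (So E S x K (fo E S x M K) (rho (mK S K)))
      (ball (pK S x K u) (rho (mK S K))) ∧
    ∀ z, ‖z - pK S x K u‖ ≤ rho (mK S K) * (3 / 4) →
      ‖So E S x K (fo E S x M K) (rho (mK S K)) z‖ ≤ C * a * (mK S K : ℝ) ^ 2 * dd (mK S K) ∧
      ∀ (a' : ℝ) (M' : Fam), FamOK S x a' M' →
        So E S x K (fo E S x (M - M') K) (rho (mK S K)) z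
          = So E S x K (fo E S x M K) (rho (mK S K)) z
            - So E S x K (fo E S x M' K) (rho (mK S K)) z) ∧
  ∀ u ξ, fo E S x M K (-u) (-ξ) = fo E S x M K u ξ ∧
    (∀ w, fo E S x M K (u + om ^ mK S K * w) (ξ + prd S x K w) = fo E S x M K u ξ) ∧
    (rho1 (mK S K) / 4 < ‖ξ - pK S x K u‖ → ‖ξ - pK S x K u‖ < 2 * rho (mK S K) →
      ‖fo E S x M K u ξ‖ ≤ C * a * mK S K * dd (mK S K) ^ 3 / ‖ξ - pK S x K u‖)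

/-- The final statement. -/
def S_Final : Prop := ∃ M : Set E3, IsMinSurf M ∧ IsConnected M ∧ IsIComplete M ∧
  ∃ K : Set E3, IsCompact K ∧ ¬IsCompact (M ∩ K)

end Pool.Agent.P.MP_cc4a10_gt
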