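import Pool.Agent.P.MP_cc4a10_gt.Lin

/-!
Statements, part A: tools, kernels, one level.
-/

open Set Filter Topology Complex Metric
open scoped ComplexConjugate Real

noncomputable section

namespace Pool.Agent.P.MP_cc4a10_gt

def S_Ell : Prop := Nonempty Ell
def S_LS : Prop := Nonempty LSop

def S_Tych : Prop := ∀ (V : Type) [AddCommGroup V] [Module ℝ V] [TopologicalSpace V]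
  [IsTopologicalAddGroup V] [ContinuousSMul ℝ V] [LocallyConvexSpace ℝ V] [T2Space V]
  (X : Set V) (T : V → V), IsCompact X → Convex ℝ X → X.Nonempty → ContinuousOn T X →
  MapsTo T X X → ∃ x ∈ X, T x = x

/-- Sums of the weights. -/
def S_Sum : Prop := ∃ C : ℝ, 0 < C ∧ ∀ m : ℕ, 1 ≤ m →
  ts m (fun u => 1 / Hh m u) ≤ C / dd m ∧ ts m (fun u => 1 / Hh m u ^ 2) ≤ C * m ∧
  ts m (fun u => 1 / Hh m u ^ 3) ≤ C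

/-- Young and Minkowski type inequalities. -/
def S_Young : Prop := ∀ (m : ℕ) (k : GI → ℝ), Per m k → (∀ u, 0 ≤ k u) →
  (∀ (y : GI → ℂ) (A : GI → GI → ℂ), Per m y → (∀ u w, ‖A u w‖ ≤ k (u - w) * ‖y w‖) →
    msq m (fun u => ts m (A u)) ≤ ts m k ^ 2 * msq m y) ∧
  (∀ (ε : GI → ℂ) (x : GI), Per m ε → msq m (fun u => ε (u - x) - ε u) ≤ 2 * Hh m x ^ 2 * g2 m ε) ∧
  (∀ (ε : GI → ℂ) (A : GI → GI → ℂ), Per m ε → (∀ u w, ‖A u w‖ ≤ k (u - w) * ‖ε u - ε w‖) →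
    msq m (fun u => ts m (A u)) ≤ 2 * ts m (fun x => k x * Hh m x) ^ 2 * g2 m ε) ∧
  (∀ a b : GI → ℂ, Per m a → Per m b →
    av m (fun u => ts m (fun w => k (u - w) * (‖a u‖ * ‖b w‖)))
      ≤ ts m k * (√(msq m a) * √(msq m b))) ∧
  (∀ ε ε' : GI → ℂ, Per m ε → Per m ε' →
    av m (fun u => ts m (fun w => k (u - w) * (‖ε u - ε w‖ * ‖ε' u - ε' w‖)))
      ≤ 2 * ts m (fun x => k x * Hh m x ^ 2) * (√(g2 m ε) * √(g2 m ε'))) ∧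
  (∀ ε b : GI → ℂ, Per m ε → Per m b →
    av m (fun u => ts m (fun w => k (u - w) * (‖ε u - ε w‖ * ‖b w‖)))
      ≤ 2 * ts m (fun x => k x * Hh m x) * (√(g2 m ε) * √(msq m b)) ∧
    av m (fun u => ts m (fun w => k (u - w) * (‖ε u - ε w‖ * ‖b u‖)))
      ≤ 2 * ts m (fun x => k x * Hh m x) * (√(g2 m ε) * √(msq m b)))

/-- Poincare inequality and the logarithmic sup bound. -/
def S_Poin : Prop := ∃ C : ℝ, 0 < C ∧ ∀ (m : ℕ) (ε : GI → ℂ), 2 ≤ m → Per m ε →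
  msq m (fun u => ε u - av m ε) ≤ C ^ 2 * g2 m ε / dd m ^ 2 ∧
  (∀ u w, ‖ε u - ε w‖ ≤ C * m * √(g2 m ε) / dd m) ∧
  (ts m (fun u => if Odd u.im ∧ Odd u.re then ε u else 0) = 0 →
    msq m ε ≤ C ^ 2 * g2 m ε / dd m ^ 2 ∧ ∀ u, ‖ε u‖ ≤ C * m * √(g2 m ε) / dd m)

/-- The dual norm. -/
def S_Dn : Prop := ∃ C : ℝ, 0 < C ∧ ∀ (m : ℕ) (ρ : GI → ℝ), 2 ≤ m → Per m ρ → ts m ρ = 0 →
  0 ≤ dn m ρ ∧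
  (∀ f : GI → ℂ, Per m f → ‖av m (fun u => (ρ u : ℂ) * f u)‖ ≤ dn m ρ * √(g2 m f)) ∧
  (∀ b : ℝ, 0 ≤ b → (∀ f : GI → ℂ, Per m f →
    ‖av m (fun u => (ρ u : ℂ) * f u)‖ ≤ b * √(g2 m f)) → dn m ρ ≤ b) ∧
  dn m ρ ≤ C * √(msq m (fun u => (ρ u : ℂ))) / dd m ∧
  (∀ a : ℝ, dn m (fun u => a * ρ u) = |a| * dn m ρ) ∧
  (∀ ρ' : GI → ℝ, Per m ρ' → ts m ρ' = 0 → dn m (fun u => ρ u + ρ' u) ≤ dn m ρ + dn m ρ') ∧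
  dn m (fun u => ρ (-u)) = dn m ρ ∧ dn m (fun u => ρ (star u)) = dn m ρ

/-- Cauchy estimates and symmetries of the kernels. -/
def S_Ker0 : Prop := ∀ E : Ell, ∃ C : ℝ, 0 < C ∧ ∀ μ : ℂ, ‖μ‖ ≤ 1 / 100 →
  (∀ k ≤ 4, ∀ w : ℂ, ‖w‖ ≤ 9 / 10 → ‖iteratedDeriv k (E.F μ) w‖ ≤ C ∧
    ∀ ν : ℂ, ‖ν‖ ≤ 1 / 100 → ‖iteratedDeriv k (E.F μ) w - iteratedDeriv k (E.F ν) w‖ ≤ C * ‖μ - ν‖) ∧
  |bE μ - π| ≤ C * ‖μ‖ ∧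
  (∀ z : ℂ, ∃ u : GI, ‖z - Lm μ u‖ ≤ 72 / 100) ∧
  (∀ u : GI, ‖(u : ℂ)‖ * (99 / 100) ≤ ‖Lm μ u‖) ∧
  (∀ z, E.Z μ (-z) = -E.Z μ z ∧ E.Gr μ (-z) = E.Gr μ z) ∧
  E.Z μ 0 = 0 ∧ E.Gr μ 0 = 0 ∧ E.wp 0 = 0 ∧
  (∀ z, E.wp (-z) = E.wp z ∧ E.wp (I * z) = -E.wp z ∧ E.wp (conj z) = conj (E.wp z) ∧
    E.Z 0 (I * z) = -I * E.Z 0 z ∧ E.Z 0 (conj z) = conj (E.Z 0 z) ∧
    E.Gr 0 (I * z) = E.Gr 0 z ∧ E.Gr 0 (conj z) = E.Gr 0 z) ∧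
  (∀ z, (∀ u : GI, z ≠ Lm μ u) → HasFDerivAt (E.Gr μ) (hl (E.Z μ z)) z ∧
    DifferentiableAt ℂ (fun w => E.Z μ w + bE μ * conj w) z) ∧
  (∀ z, NL z → HasDerivAt (fun w => E.Z 0 w + π * conj w) (-E.wp z) z ∧
    DifferentiableAt ℂ E.wp z)

/-- Unit steps. -/
def St (g : GI) : Prop := g = 1 ∨ g = -1 ∨ g = gi ∨ g = -gi
/-- Remainders of the force kernel and of the potential kernel. -/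
def KZ (E : Ell) (c μ : ℂ) (x : GI) (e : ℂ) : ℂ :=
  E.Z μ (Lm μ (c * x) + e) - E.Z μ (Lm μ (c * x)) - (-E.wp (c * x) * e - π * conj e)
def KG (E : Ell) (c μ : ℂ) (x : GI) (e : ℂ) : ℝ :=
  E.Gr μ (Lm μ (c * x) + e) - E.Gr μ (Lm μ (c * x)) - (E.Z 0 (c * x) * e).re

def S_KerZ : Prop := ∀ E : Ell, ∃ (C : ℝ) (m0 : ℕ), 0 < C ∧ ∀ (l : Lv) (μ : ℂ), l.ok → m0 ≤ l.m →
  ‖μ‖ ≤ 1 / 100 → ∀ (x g g' : GI), St g → St g' →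
  (∀ e : ℂ, ‖e‖ ≤ dd l.m / 10 → (mr l.m x = 0 → e = 0) →
    ‖E.Z μ (Lm μ (l.c * x) + e)‖ ≤ C / (dd l.m * Hh l.m x) ∧
    ‖E.Z μ (Lm μ (l.c * x) + e) - E.Z μ (Lm μ (l.c * x))‖ ≤ C * ‖e‖ / (dd l.m * Hh l.m x) ^ 2 ∧
    ∀ e' : ℂ, ‖e'‖ ≤ dd l.m / 10 → (mr l.m (x + g) = 0 → e' = 0) →
      ‖KZ E l.c μ (x + g) e' - KZ E l.c μ x e‖ ≤ C *
        (‖μ‖ * (‖e‖ / Hh l.m x ^ 3 + ‖e' - e‖ / Hh l.m x ^ 2) / dd l.m ^ 2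
        + (‖e‖ ^ 2 / Hh l.m x ^ 4 + ‖e‖ * ‖e' - e‖ / Hh l.m x ^ 3 + ‖e' - e‖ ^ 2 / Hh l.m x ^ 3)
          / dd l.m ^ 3)) ∧
  ‖E.Z μ (Lm μ (l.c * x)) - E.Z 0 (l.c * x)‖ ≤ C * ‖μ‖ / (dd l.m * Hh l.m x) ∧
  ‖(E.Z μ (Lm μ (l.c * (x + g : GI))) - E.Z 0 (l.c * (x + g : GI)))
    - (E.Z μ (Lm μ (l.c * x)) - E.Z 0 (l.c * x))‖ ≤ C * ‖μ‖ / (dd l.m * Hh l.m x ^ 2) ∧
  ‖E.Z 0 (l.c * (x + g : GI)) - E.Z 0 (l.c * x)‖ ≤ C / (dd l.m * Hh l.m x ^ 2) ∧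
  ‖E.Z 0 (l.c * (x + g + g' : GI)) - E.Z 0 (l.c * (x + g : GI)) - E.Z 0 (l.c * (x + g' : GI))
    + E.Z 0 (l.c * x)‖ ≤ C / (dd l.m * Hh l.m x ^ 3) ∧
  ‖E.wp (l.c * x)‖ ≤ C / (dd l.m * Hh l.m x) ^ 2 ∧
  ‖E.wp (l.c * (x + g : GI)) - E.wp (l.c * x)‖ ≤ C / (dd l.m ^ 2 * Hh l.m x ^ 3) ∧
  ‖E.wp (l.c * (x + g + g' : GI)) - E.wp (l.c * (x + g : GI)) - E.wp (l.c * (x + g' : GI))
    + E.wp (l.c * x)‖ ≤ C / (dd l.m ^ 2 * Hh l.m x ^ 4)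

def S_KerG : Prop := ∀ E : Ell, ∃ (C : ℝ) (m0 : ℕ), 0 < C ∧ ∀ (l : Lv) (μ : ℂ), l.ok → m0 ≤ l.m →
  ‖μ‖ ≤ 1 / 100 → ∀ (x g g' : GI), St g → St g' →
  (∀ e : ℂ, ‖e‖ ≤ dd l.m / 10 → (mr l.m x = 0 → e = 0) →
    |E.Gr μ (Lm μ (l.c * x) + e) - E.Gr μ (Lm μ (l.c * x)) - (E.Z μ (Lm μ (l.c * x)) * e).re|
      ≤ C * ‖e‖ ^ 2 / (dd l.m * Hh l.m x) ^ 2 ∧
    ∀ e' : ℂ, ‖e'‖ ≤ dd l.m / 10 → (mr l.m (x + g) = 0 → e' = 0) →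
      |KG E l.c μ (x + g) e' - KG E l.c μ x e| ≤ C *
        (‖μ‖ * (‖e‖ / Hh l.m x ^ 2 + ‖e' - e‖ / Hh l.m x) / dd l.m
        + (‖e‖ ^ 2 / Hh l.m x ^ 3 + ‖e‖ * ‖e' - e‖ / Hh l.m x ^ 2 + ‖e' - e‖ ^ 2 / Hh l.m x ^ 2)
          / dd l.m ^ 2)) ∧
  |(E.Gr μ (Lm μ (l.c * (x + g : GI))) - E.Gr 0 (l.c * (x + g : GI)))
    - (E.Gr μ (Lm μ (l.c * x)) - E.Gr 0 (l.c * x))| ≤ C * ‖μ‖ / Hh l.m x ∧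
  |E.Gr 0 (l.c * (x + g + g' : GI)) - E.Gr 0 (l.c * (x + g : GI)) - E.Gr 0 (l.c * (x + g' : GI))
    + E.Gr 0 (l.c * x)| ≤ C * (1 / Hh l.m x ^ 2 + l.m / Hh l.m x ^ 3)

/-- The charge pattern is a discrete divergence; symmetric sums vanish. -/
def S_Dip : Prop := ∀ l : Lv, l.ok →
  (∃ β1 β2 : GI → ℝ, Per l.m β1 ∧ Per l.m β2 ∧
    (∀ u, |β1 u| ≤ 4 * dd l.m ^ 2 ∧ |β2 u| ≤ 4 * dd l.m ^ 2) ∧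
    (∀ u, β1 u ≠ 0 → q0 l u ≠ 0 ∧ q0 l (u + 1) ≠ 0) ∧
    (∀ u, β2 u ≠ 0 → q0 l u ≠ 0 ∧ q0 l (u + gi) ≠ 0) ∧
    ∀ Ψ : GI → ℂ, Per l.m Ψ → ts l.m (fun u => (q0 l u : ℂ) * Ψ u) =
      ts l.m (fun u => (β1 u : ℂ) * (Ψ (u + 1) - Ψ u) + (β2 u : ℂ) * (Ψ (u + gi) - Ψ u))) ∧
  (∀ (k : GI → ℂ) (u : GI), Per l.m k → (∀ x, k (-x) = -k x) →
    ts l.m (fun w => (q0 l w : ℂ) * k (u - w)) = 0) ∧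
  Per l.m (q0 l) ∧ (∀ u, q0 l (-u) = q0 l u ∧ q0 l (star u) = q0 l u) ∧ ts l.m (q0 l) = 0 ∧
  (∀ u, q0 l u ≠ 0 → 2 * dd l.m ^ 2 ≤ |q0 l u|) ∧ (∀ u, |q0 l u| ≤ 4 * dd l.m ^ 2) ∧
  ‖l.c‖ = dd l.m ∧ (∃ w0 : GI, l.c * ((om ^ l.m : GI) : ℂ) = w0 ∧ IsUnit w0) ∧
  ∀ f : GI → ℂ, Per l.m f → Per l.m (fun u => f (nbr l.τ u)) ∧
    g2 l.m (fun u => f (nbr l.τ u)) ≤ 20 * g2 l.m f

/-- The unperturbed level. -/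
def S_Ref : Prop := ∀ E : Ell, ∃ C : ℝ, 0 < C ∧ ∀ (l : Lv) (μ : ℂ), l.ok → ‖μ‖ ≤ 1 / 100 →
  ∃ κ κ1 κ2 : ℝ,
  (∀ u ∈ Nk l, ∀ z, ‖z - Lm μ (l.c * u)‖ ≤ dd l.m * (6 / 10) →
    ‖RR E l ⟨μ, 0, 0⟩ u z‖ ≤ C * dd l.m) ∧
  (∀ z ∈ Out (Nk l) (fun u => Lm μ (l.c * u)) (dd l.m / 10),
    ‖psi E l ⟨μ, 0, 0⟩ z‖ ≤ C * dd l.m ∧ |ht E l ⟨μ, 0, 0⟩ z - κ| ≤ C * dd l.m ^ 2) ∧
  (∀ u ∈ Nk l, |ht E l ⟨μ, 0, 0⟩ (Lm μ (l.c * u)) + q0 l u * Real.log (dd l.m) - κ|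
    ≤ C * dd l.m ^ 2) ∧
  (∀ u : GI, Odd u.im ∧ Odd u.re → ht E l ⟨μ, 0, 0⟩ (Lm μ (l.c * u)) = κ1) ∧
  (∀ u ∈ Nk l, ¬(Odd u.im ∧ Odd u.re) →
    |ht E l ⟨μ, 0, 0⟩ (Lm μ (l.c * u)) - κ2| ≤ C * ‖μ‖ * dd l.m ^ 2)

/-- Structure of a good level. -/
def S_Lev : Prop := ∀ E : Ell, ∃ (C : ℝ) (m0 : ℕ), 0 < C ∧ ∀ (l : Lv) (s : Ls) (b : ℝ),
  LG l s b → m0 ≤ l.m →
  (∀ u, ‖s.ε u‖ ≤ C * l.m * b ∧ ‖s.ε u‖ ≤ rho l.m / 1000 ∧ |s.σ u| ≤ C * b / dd l.m ∧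
    |s.σ u| ≤ 1 / 1000) ∧ msq l.m s.ε ≤ (C * b) ^ 2 ∧ ts l.m (qq l s) = 0 ∧
  (∀ u u' : GI, ‖pos l s u - pos l s u' - l.c * ((u - u' : GI) : ℂ)‖
    ≤ dd l.m * ‖((u - u' : GI) : ℂ)‖ / 200) ∧
  (∀ z, ∃ u, ‖z - pos l s u‖ ≤ dd l.m * (72 / 100)) ∧
  (∀ u w, pos l s (u + om ^ l.m * w) = pos l s u + Lm s.μ (l.c * ((om ^ l.m * w : GI) : ℂ))) ∧
  (∀ u ∈ Nk l, pos l s (-u) = -pos l s u) ∧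
  (∀ z, psi E l s (-z) = -psi E l s z ∧ ht E l s (-z) = ht E l s z ∧ ∀ w : GI,
    psi E l s (z + Lm s.μ w) = psi E l s z ∧ ht E l s (z + Lm s.μ w) = ht E l s z) ∧
  (∀ z ∈ Out (Nk l) (pos l s) 0, DifferentiableAt ℂ (psi E l s) z ∧
    HasFDerivAt (ht E l s) (hl (psi E l s z)) z) ∧
  ∀ u ∈ Nk l, DifferentiableOn ℂ (RR E l s u) (ball (pos l s u) (dd l.m / 2)) ∧
    ContinuousAt (fun z => ht E l s z - qq l s u * Real.log ‖z - pos l s u‖) (pos l s u)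

/-- Sharp bounds on a good level. -/
def S_Shp : Prop := ∀ E : Ell, ∃ (C : ℝ) (m0 : ℕ), 0 < C ∧ ∀ (l : Lv) (s : Ls) (b : ℝ),
  LG l s b → m0 ≤ l.m → ∃ κ : ℝ,
  (∀ u ∈ Nk l, ∀ z, ‖z - pos l s u‖ < dd l.m / 2 → ‖RR E l s u z‖ ≤ C * dd l.m) ∧
  (∀ z ∈ Out (Nk l) (pos l s) (dd l.m / 5),
    ‖psi E l s z‖ ≤ C * dd l.m ∧ |ht E l s z - κ| ≤ C * dd l.m ^ 2) ∧
  (∀ u ∈ Nk l, |ht E l s (pos l s u) + qq l s u * Real.log (dd l.m) - κ| ≤ C * dd l.m ^ 2) ∧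
  ∀ z ∈ Out (Nk l) (pos l s) (rho l.m / 5), |ht E l s z - κ| ≤ C * dd l.m ^ 2 * √(l.m)

/-- The neck coordinate. -/
def S_Vt : Prop := ∀ E : Ell, ∃ (C : ℝ) (m0 : ℕ), 0 < C ∧ ∀ (l : Lv) (s : Ls) (b : ℝ),
  LG l s b → m0 ≤ l.m → ∀ u ∈ Nk l,
  DifferentiableOn ℂ (vt E l s u) (ball (pos l s u) (3 * rho l.m)) ∧
  DifferentiableOn ℂ (lv E l s u) (ball (pos l s u) (3 * rho l.m)) ∧
  vt E l s u (pos l s u) = 0 ∧ lv E l s u (pos l s u) = 0 ∧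
  HasDerivAt (lv E l s u) (2 * RR E l s u (pos l s u) / qq l s u) (pos l s u) ∧
  (∀ z, ‖z - pos l s u‖ < 3 * rho l.m →
    ‖deriv (vt E l s u) z - 1‖ ≤ C / l.m ∧ ‖lv E l s u z‖ ≤ C / l.m ∧
    exp (lv E l s u z) = deriv (vt E l s u) z ∧
    (z ≠ pos l s u → psi E l s z = qq l s u * deriv (vt E l s u) z / vt E l s u z ∧
      ht E l s z = ht E l s (pos l s u) + qq l s u * Real.log ‖vt E l s u z‖)) ∧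
  (∀ z, vt E l s (-u) (-z) = -vt E l s u z ∧ lv E l s (-u) (-z) = lv E l s u z) ∧
  ∀ (w : GI) z, vt E l s (u + om ^ l.m * w) (z + Lm s.μ (l.c * ((om ^ l.m * w : GI) : ℂ)))
      = vt E l s u z ∧
    lv E l s (u + om ^ l.m * w) (z + Lm s.μ (l.c * ((om ^ l.m * w : GI) : ℂ))) = lv E l s u z

/-- Primitive on an annulus. -/
def S_Ann : Prop := ∀ (F : ℂ → ℂ) (p : ℂ) (r1 r2 r : ℝ), 0 ≤ r1 → r1 < r → r < r2 →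
  DifferentiableOn ℂ F {z | r1 < ‖z - p‖ ∧ ‖z - p‖ < r2} →
  ∃ G : ℂ → ℂ, ∀ z, r1 < ‖z - p‖ → ‖z - p‖ < r2 → HasDerivAt G (F z - cint p r F / (z - p)) z

/-- A coordinate close to the identity. -/
def S_Inv : Prop := ∀ (v : ℂ → ℂ) (p : ℂ) (R : ℝ), 0 < R → DifferentiableOn ℂ v (ball p R) →
  v p = 0 → (∀ z ∈ ball p R, ‖deriv v z - 1‖ ≤ 1 / 100) →
  (∀ z ∈ ball p R, ∀ z' ∈ ball p R, ‖v z - v z' - (z - z')‖ ≤ ‖z - z'‖ / 100) ∧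
  (∀ y, ‖y‖ < R * (98 / 100) → ∃ z ∈ ball p R, v z = y) ∧
  (∀ (M : ℂ → ℂ) (r : ℝ), 0 < r → r < R → DifferentiableOn ℂ M (ball p R) →
    DifferentiableOn ℂ (fun y => cint p r (fun ξ => M ξ * deriv v ξ / (v ξ - y)))
      (ball 0 (r * (98 / 100))) ∧
    ∀ z ∈ ball p r, ‖v z‖ < r * (98 / 100) →
      cint p r (fun ξ => M ξ * deriv v ξ / (v ξ - v z)) = M z) ∧
  ∀ (Ψ : ℂ → ℂ) (r1 r2 r r' : ℝ), 0 ≤ r1 → DifferentiableOn ℂ Ψ (An r1 r2) → r < R →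
    r1 < r * (98 / 100) → r * (102 / 100) < r2 → r1 < r' → r' < r2 →
    cint p r (fun z => Ψ (v z) * deriv v z) = cint 0 r' Ψ

def Sep (nk : Set GI) (p : GI → ℂ) (δ : ℝ) : Prop :=
  ∀ u ∈ nk, ∀ u' ∈ nk, u ≠ u' → δ ≤ ‖p u - p u'‖

/-- Global primitive on the plane minus discs. -/
def S_Prim : Prop := ∀ (nk : Set GI) (p : GI → ℂ) (r r0 : ℝ) (F1 F2 : ℂ → ℂ), 0 < r → r < r0 →
  Sep nk p (6 * r + 3 * r0) → DifferentiableOn ℂ F1 (Out nk p r) →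
  DifferentiableOn ℂ F2 (Out nk p r) →
  (∀ u ∈ nk, cint (p u) r0 F1 = -conj (cint (p u) r0 F2)) →
  ∃ Z : ℂ → ℂ, ∀ z ∈ Out nk p (2 * r), HasFDerivAt Z (wl (F1 z) (F2 z)) z

/-- Mean value inequality and connectedness for the plane minus discs. -/
def S_Graph : Prop := ∀ (nk : Set GI) (p : GI → ℂ) (r : ℝ), 0 < r → Sep nk p (4 * r) →
  IsOpen (Out nk p r) ∧ IsPreconnected (Out nk p r) ∧ IsClosed {z | ∀ u ∈ nk, r ≤ ‖z - p u‖} ∧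
  ∀ (f : ℂ → ℂ) (η : ℝ), (∀ z ∈ Out nk p r, ∃ A : ℂ →L[ℝ] ℂ, HasFDerivAt f A z ∧ ‖A‖ ≤ η) →
    ∀ z ∈ Out nk p r, ∀ z' ∈ Out nk p r, ‖f z - f z'‖ ≤ 4 * η * ‖z - z'‖

/-- The force in mean square. -/
def S_Frc : Prop := ∀ E : Ell, ∃ (C : ℝ) (m0 : ℕ), 0 < C ∧ ∀ (l : Lv) (s : Ls) (b : ℝ),
  LG l s b → m0 ≤ l.m →
  msq l.m (nkr l (fun u => RR E l s u (pos l s u))) ≤ (C * l.m * dd l.m * b) ^ 2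

/-- The linearised form is bounded and symmetric. -/
def S_Bdd : Prop := ∀ E : Ell, ∃ (C : ℝ) (m0 : ℕ), 0 < C ∧ ∀ (l : Lv), l.ok → m0 ≤ l.m →
  ∀ ε σ ε' σ', LV l ε σ → LV l ε' σ' →
  |BL E l ε σ ε' σ'| ≤ C * l.m * dd l.m ^ 2 * (√(nb2 l ε σ) * √(nb2 l ε' σ'))

def S_ErrF : Prop := ∀ E : Ell, ∃ (C : ℝ) (m0 : ℕ), 0 < C ∧ ∀ (l : Lv) (s : Ls) (b : ℝ),
  LG l s b → m0 ≤ l.m → ∀ ε' : GI → ℂ, Per l.m ε' → M0 l ε' →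
  |pair l (fun u => (q0 l u : ℂ) * RR E l s u (pos l s u) - Flin E l s.ε s.σ u) 0 ε' 0|
    ≤ C * (l.m : ℝ) ^ 2 * tt l.m ^ 4 * b * (dd l.m * √(g2 l.m ε'))

def S_ErrH : Prop := ∀ E : Ell, ∃ (C : ℝ) (m0 : ℕ), 0 < C ∧ ∀ (l : Lv) (s : Ls) (b : ℝ),
  LG l s b → m0 ≤ l.m → ∀ σ' : GI → ℝ, LV l 0 σ' → M0 l (fun u => (σ' u : ℂ)) →
  |pair l 0 (fun u => q0 l u * ht E l s (pos l s u)
      + |q0 l u| * (|qq l s u| * Real.log |qq l s u|) - Glin E l s.ε s.σ u) 0 σ'|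
    ≤ C * ((l.m : ℝ) ^ 3 * tt l.m ^ 4 * b + tt l.m ^ 30) * (dd l.m ^ 2 * √(nb2 l 0 σ'))

/-- The Cousin operator on one level. -/
def S_So : Prop := ∀ E : Ell, ∃ (C : ℝ) (m0 : ℕ), 0 < C ∧ ∀ (l : Lv) (s : Ls) (b : ℝ),
  LG l s b → m0 ≤ l.m → ∀ (f : GI → ℂ → ℂ) (A : GI → ℝ) (A0 : ℝ),
  (∀ u, u ∉ Nk l → f u = 0) →
  (∀ u ∈ Nk l, DifferentiableOn ℂ (f u)
    {ξ | rho1 l.m / 4 < ‖ξ - pos l s u‖ ∧ ‖ξ - pos l s u‖ < 2 * rho l.m}) →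
  (∀ u ξ, f (-u) (-ξ) = f u ξ) →
  (∀ u w ξ, f (u + om ^ l.m * w) (ξ + Lm s.μ (l.c * ((om ^ l.m * w : GI) : ℂ))) = f u ξ) →
  Per l.m A → (∀ u, 0 ≤ A u ∧ A u ≤ A0) →
  (∀ u ξ, rho1 l.m / 4 < ‖ξ - pos l s u‖ → ‖ξ - pos l s u‖ < 2 * rho l.m →
    ‖f u ξ‖ ≤ A u / ‖ξ - pos l s u‖) →
  (∀ r, rho1 l.m / 2 ≤ r → r ≤ rho l.m →
    (∀ z, SoL E l s f r (-z) = SoL E l s f r z ∧
      ∀ w : GI, SoL E l s f r (z + Lm s.μ w) = SoL E l s f r z) ∧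
    (∀ z, (∀ u ∈ Nk l, ‖z - pos l s u‖ ≠ r) → DifferentiableAt ℂ (SoL E l s f r) z) ∧
    ∀ z δ, 0 < δ → (∀ u ∈ Nk l, δ ≤ |‖z - pos l s u‖ - r|) → ‖SoL E l s f r z‖
      ≤ C * (A0 / δ + √(l.m) * √(msq l.m (fun u => (A u : ℂ))) / dd l.m ^ 2)) ∧
  (∀ u ∈ Nk l, ∀ z, rho1 l.m / 2 < ‖z - pos l s u‖ → ‖z - pos l s u‖ < rho l.m →
    SoL E l s f (rho l.m) z = SoL E l s f (rho1 l.m / 2) z + f u z) ∧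
  msq l.m (nkr l (fun u => deriv (SoL E l s f (rho l.m)) (pos l s u)))
    ≤ (C * (l.m : ℝ) ^ 2 / dd l.m ^ 2) ^ 2 * msq l.m (fun u => (A u : ℂ))

end Pool.Agent.P.MP_cc4a10_gt
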