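import Pool.Agent.P.MP_cc4a10_gt.StA

/-!
Statements, part B: the layered system, the Cousin series, the fixed point, the geometry.
-/

open Set Filter Topology Complex Metric
open scoped ComplexConjugate Real

noncomputable section

namespace Pool.Agent.P.MP_cc4a10_gt

/-- Period of level `K` belonging to `w`. -/
def prd (S : Sys) (x : Cfg) (K : ℤ) (w : GI) : ℂ :=
  Lm (x.μ K) ((lvF S K).c * ((om ^ mK S K * w : GI) : ℂ))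

/-- Combinatorics of levels and layers. -/
def S_Par : Prop := ∀ S : Sys, S.ok → ∀ K : ℤ,
  (lvT S K).ok ∧ (lvF S K).ok ∧ mK S K ≤ mK S (K + 1) + 1 ∧ mK S (K + 1) ≤ mK S K + 1 ∧
  dd (mK S K) * dd (mK S (K + 1)) * (7 / 10) ≤ (conj (lvT S K).c * (lvT S (K + 1)).c).re ∧
  (∀ u, q0 (lvT S K) u ≠ 0 →
    q0 (lvT S (ot S K u)) (par S K u) = -q0 (lvT S K) u ∧ ot S (ot S K u) (par S K u) = K ∧
    par S (ot S K u) (par S K u) = u ∧ lk S (ot S K u) (par S K u) = lk S K u ∧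
    io (ot S K u) ((lvF S (ot S K u)).c * par S K u) = io K ((lvF S K).c * u) ∧
    par S K (-u) = -par S K u ∧ |q0 (lvT S K) u| = ((2 : ℝ) ^ S.st (lk S K u))⁻¹ ∧
    (∃ w, (lvT S K).c * u = lp S (lk S K u) w) ∧
    (∀ w, ∃ w', par S K (u + om ^ mK S K * w) = par S K u + om ^ mK S (ot S K u) * w') ∧
    ∀ v : Vec, flC K (eT S v K) u = io K (v.1 (lk S K u) (io K ((lvF S K).c * u))) ∧
      flR K (sT S v K) u = v.2 (lk S K u) (io K ((lvF S K).c * u))) ∧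
  (∀ f : ℂ → ℂ, (∀ z (w : GI), f (z + w) = f z) →
    ts (mK S K) (fun u => if 0 < q0 (lvT S K) u then f ((lvT S K).c * u) else 0)
      = ts (S.st (K - 1)) (fun w => f (lp S (K - 1) w)) ∧
    ts (mK S K) (fun u => if q0 (lvT S K) u < 0 then f ((lvT S K).c * u) else 0)
      = ts (S.st K) (fun w => f (lp S K w))) ∧
  (∀ w, (∃ u, 0 < q0 (lvT S K) u ∧ (lvT S K).c * u = lp S (K - 1) w) ∧
    ∃ u, q0 (lvT S K) u < 0 ∧ (lvT S K).c * u = lp S K w) ∧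
  (∀ g : ℤ → GI → ℝ, (∀ L, Per (mK S L) (g L)) → (∀ L u, 0 ≤ g L u) →
    ts (mK S K) (fun u => if q0 (lvT S K) u = 0 then 0 else g (ot S K u) (par S K u))
      ≤ ts (mK S (K - 1)) (g (K - 1)) + ts (mK S (K + 1)) (g (K + 1))) ∧
  ∀ v : Vec, Adm S v → LV (lvT S K) (eT S v K) (sT S v K) ∧ M0 (lvT S K) (eT S v K) ∧
    M0 (lvT S K) (fun u => (sT S v K u : ℂ))

/-- Passing from the true frame to the conformal frame of a level; good levels. -/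
def S_Flip : Prop := ∀ (E : Ell) (S : Sys), S.ok → ∀ K : ℤ,
  (∀ ε σ, LV (lvT S K) ε σ → LV (lvF S K) (flC K ε) (flR K σ) ∧
    nb2 (lvF S K) (flC K ε) (flR K σ) = nb2 (lvT S K) ε σ ∧
    (M0 (lvT S K) ε → M0 (lvF S K) (flC K ε)) ∧
    (M0 (lvT S K) (fun u => (σ u : ℂ)) → M0 (lvF S K) (fun u => (flR K σ u : ℂ))) ∧
    Flin E (lvF S K) (flC K ε) (flR K σ) = flC K (Flin E (lvT S K) ε σ) ∧
    Glin E (lvF S K) (flC K ε) (flR K σ) = flR K (Glin E (lvT S K) ε σ) ∧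
    (Per (mK S K) (Flin E (lvT S K) ε σ) ∧ Per (mK S K) (Glin E (lvT S K) ε σ)) ∧
    ((∀ u, q0 (lvT S K) u ≠ 0 → ε (-u) = -ε u) → (∀ u, σ (-u) = σ u) → ∀ u,
      Flin E (lvT S K) ε σ (-u) = -Flin E (lvT S K) ε σ u ∧
      Glin E (lvT S K) ε σ (-u) = Glin E (lvT S K) ε σ u) ∧
    ∀ F G, Per (mK S K) F → Per (mK S K) G →
      pair (lvT S K) (flC K F) (flR K G) ε σ = pair (lvF S K) F G (flC K ε) (flR K σ)) ∧
  ∀ x, Big S 10 → XX S x → LG (lvF S K) (ls S x K) (bK S x K)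

/-- Convergence of the Cousin series. -/
def S_Cou1 : Prop := ∀ E : Ell, ∃ (C : ℝ) (j1 : ℕ), 0 < C ∧ ∀ (S : Sys) (x : Cfg), S.ok →
  Big S j1 → XX S x → ∀ K, ∀ u ∈ Nk (lvF S K),
  (∀ n z, ‖z - pK S x K u‖ ≤ rho (mK S K) * (3 / 4) → ‖inc E S x n K u z‖ ≤ (1 / 2) ^ n) ∧
  DifferentiableOn ℂ (MM E S x K u) (ball (pK S x K u) (rho (mK S K) * (3 / 4))) ∧
  DifferentiableOn ℂ (Mt E S x K) (ball (pK S x K u) (rho (mK S K))) ∧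
  (∀ z, ‖z - pK S x K u‖ ≤ rho (mK S K) * (3 / 4) →
    MM E S x K u z = x.l K - lv E (lvF S K) (ls S x K) u z + Mt E S x K z ∧
    ‖Mt E S x K z‖ ≤ C * (mK S K : ℝ) ^ 2 * dd (mK S K)) ∧
  (∀ z, MM E S x K (-u) (-z) = MM E S x K u z ∧
    fo E S x (MM E S x) K (-u) (-z) = fo E S x (MM E S x) K u z ∧
    Nf E S x K (-u) (-z) = Nf E S x K u z) ∧
  (∀ w z, MM E S x K (u + om ^ mK S K * w) (z + prd S x K w) = MM E S x K u z ∧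
    fo E S x (MM E S x) K (u + om ^ mK S K * w) (z + prd S x K w) = fo E S x (MM E S x) K u z ∧
    Nf E S x K (u + om ^ mK S K * w) z = Nf E S x K u z) ∧
  ‖tn S x K u + qK S x K u ^ 2‖ ≤ qK S x K u ^ 2 / 100 ∧
  DifferentiableOn ℂ (mm E S x (MM E S x) K u) (ball 0 (rho (mK S K) * (49 / 100))) ∧
  (∀ y, ‖y‖ ≤ rho (mK S K) * (45 / 100) → ‖mm E S x (MM E S x) K u y‖ ≤ 1 / 1000) ∧
  (∀ z, ‖z - pK S x K u‖ < rho (mK S K) * (45 / 100) →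
    mm E S x (MM E S x) K u (vK E S x K u z) = MM E S x K u z) ∧
  DifferentiableOn ℂ (fo E S x (MM E S x) K u)
    {ξ | rho1 (mK S K) / 4 < ‖ξ - pK S x K u‖ ∧ ‖ξ - pK S x K u‖ < 2 * rho (mK S K)}

/-- The small quantity of level `K`. -/
def sm (S : Sys) (x : Cfg) (K : ℤ) : ℝ :=
  (mK S K : ℝ) ^ 2 * dd (mK S K) * b3 S x K + (mK S K : ℝ) ^ 4 * dd (mK S K) ^ 2

/-- Fine bounds for the Cousin solution. -/
def S_Cou2 : Prop := ∀ E : Ell, ∃ (C : ℝ) (j1 : ℕ), 0 < C ∧ ∀ (S : Sys) (x : Cfg), S.ok →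
  Big S j1 → XX S x → ∀ K,
  (∃ A : GI → ℝ, (∀ u, 0 ≤ A u ∧ A u ≤ C * dd (mK S K) * sm S x K / mK S K) ∧ Per (mK S K) A ∧
    msq (mK S K) (fun u => (A u : ℂ)) ≤ (C * dd (mK S K) ^ 2 * sm S x K / mK S K) ^ 2 ∧
    ∀ u ξ, rho1 (mK S K) / 4 < ‖ξ - pK S x K u‖ → ‖ξ - pK S x K u‖ < 2 * rho (mK S K) →
      ‖fo E S x (MM E S x) K u ξ‖ ≤ A u / ‖ξ - pK S x K u‖) ∧
  (∀ u ∈ Nk (lvF S K), ∀ z, ‖z - pK S x K u‖ ≤ rho (mK S K) * (3 / 4) →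
    ‖Mt E S x K z‖ ≤ C * sm S x K) ∧
  msq (mK S K) (nkr (lvF S K) (fun u => deriv (Mt E S x K) (pK S x K u)))
    ≤ (C * mK S K * sm S x K) ^ 2 ∧
  DifferentiableOn ℂ (lam E S x K) (Out (Nk (lvF S K)) (pK S x K) (rho1 (mK S K) / 2)) ∧
  (∀ z ∈ Out (Nk (lvF S K)) (pK S x K) (rho (mK S K) / 10),
    ‖lam E S x K z - x.l K‖ ≤ C * sm S x K) ∧
  (∀ z ∈ Out (Nk (lvF S K)) (pK S x K) (rho1 (mK S K)), ‖lam E S x K z‖ ≤ 1 / 1000) ∧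
  (∀ u ∈ Nk (lvF S K), ∀ z, rho1 (mK S K) / 2 < ‖z - pK S x K u‖ →
    ‖z - pK S x K u‖ < rho (mK S K) →
    lam E S x K z = x.l K + Mt E S x K z - fo E S x (MM E S x) K u z) ∧
  ∀ z, lam E S x K (-z) = lam E S x K z ∧
    ∀ w : GI, lam E S x K (z + Lm (x.μ K) w) = lam E S x K z

/-- The force residue. -/
def S_Phi : Prop := ∀ E : Ell, ∃ (C : ℝ) (j1 : ℕ), 0 < C ∧ ∀ (S : Sys) (x : Cfg), S.ok →
  Big S j1 → XX S x → ∀ K,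
  msq (mK S K) (fun u => (q0 (lvF S K) u : ℂ) * RR E (lvF S K) (ls S x K) u (pK S x K u)
      - fres E S x K u)
    ≤ (C * dd (mK S K) ^ 4 * (tt (mK S K) ^ 4 * b3 S x K + tt (mK S K) ^ 29)) ^ 2 ∧
  Per (mK S K) (fres E S x K) ∧ Per (mK S K) (gres E S x K) ∧
  Per (mK S K) (fun u => (q0 (lvF S K) u : ℂ) * RR E (lvF S K) (ls S x K) u (pK S x K u)) ∧
  ∀ u, fres E S x K (-u) = -fres E S x K u ∧ gres E S x K (-u) = gres E S x K u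

/-- Sum of the norms of three neighbouring levels. -/
def n3 (S : Sys) (v : Vec) (K : ℤ) : ℝ := √(nT S v (K - 1)) + √(nT S v K) + √(nT S v (K + 1))

/-- The error of the linearisation. -/
def S_Err : Prop := ∀ E : Ell, ∃ (C : ℝ) (j1 : ℕ), 0 < C ∧ ∀ (S : Sys) (x : Cfg), S.ok →
  Big S j1 → XX S x → ∀ K,
  (∀ v', Adm S v' → |pT S (FF E S x) (GG E S x) v' K| ≤ dd (mK S K) ^ 2 *
    (C * (mK S K * tt (mK S K) ^ 29 + tt (mK S K) ^ 3 * n3 S x.v K)) * √(nT S v' K)) ∧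
  (Per (mK S K) (FF E S x K) ∧ Per (mK S K) (GG E S x K)) ∧
  (∀ u, FF E S x K (-u) = -FF E S x K u ∧ GG E S x K (-u) = GG E S x K u) ∧
  ∀ u, q0 (lvT S K) u = 0 → FF E S x K u = 0

def S_Aux1 : Prop := ∀ E : Ell, ∃ (C : ℝ) (j1 : ℕ), 0 < C ∧ ∀ (S : Sys) (x : Cfg), S.ok →
  Big S j1 → XX S x → ∀ K,
  ‖lamN E S x K‖ ≤ tt (mK S K) ^ 30 ∧ ‖muN E S x K‖ ≤ tt (mK S K) ^ 30 ∧
  Per (mK S K) (I1 E S x K) ∧ Per (mK S K) (I2 E S x K) ∧ Per (mK S K) (sN E S x K) ∧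
  ∀ u, ‖I1 E S x K u‖ ≤ C * dd (mK S K) * tt (mK S K) ^ 30 ∧
    ‖I2 E S x K u‖ ≤ C * dd (mK S K) * tt (mK S K) ^ 30 ∧
    ‖sN E S x K u‖ ≤ tt (mK S K) ^ 29 ∧ sN E S x K (-u) = sN E S x K u

def S_Aux2 : Prop := ∀ E : Ell, ∃ (C : ℝ) (j1 : ℕ), 0 < C ∧ ∀ (S : Sys) (x : Cfg), S.ok →
  Big S j1 → XX S x → ∀ K, Per (mK S K) (xi1 E S x K) ∧
  ∀ u, ‖xi1 E S x K u‖ ≤ C * dd (mK S K) * tt (mK S K) ^ 30

/-- The set of configurations is compact and convex. -/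
def S_Cpt : Prop := ∀ S : Sys, S.ok →
  IsCompact {x | XX S x} ∧ Convex ℝ {x | XX S x} ∧ XX S 0

/-- Joint continuity on one level. -/
def S_Cont1 : Prop := ∀ E : Ell, ∃ j1 : ℕ, ∀ S : Sys, S.ok → Big S j1 → ∀ K,
  (∀ u, Continuous (fun x : Cfg => pK S x K u) ∧ Continuous (fun x : Cfg => qK S x K u) ∧
    Continuous (fun x : Cfg => tn S x K u)) ∧
  ContinuousOn (fun a : Cfg × ℂ => psK E S a.1 K a.2)
    {a | XX S a.1 ∧ a.2 ∈ Out (Nk (lvF S K)) (pK S a.1 K) 0} ∧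
  ∀ u ∈ Nk (lvF S K),
    ContinuousOn (fun x : Cfg => ht E (lvF S K) (ls S x K) (pK S x K u)) {x | XX S x} ∧
    ContinuousOn (fun a : Cfg × ℂ => vK E S a.1 K u (pK S a.1 K u + a.2))
      {a | XX S a.1 ∧ ‖a.2‖ < 3 * rho (mK S K)} ∧
    ContinuousOn (fun a : Cfg × ℂ => deriv (vK E S a.1 K u) (pK S a.1 K u + a.2))
      {a | XX S a.1 ∧ ‖a.2‖ < 3 * rho (mK S K)} ∧
    ContinuousOn (fun a : Cfg × ℂ => lv E (lvF S K) (ls S a.1 K) u (pK S a.1 K u + a.2))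
      {a | XX S a.1 ∧ ‖a.2‖ < 3 * rho (mK S K)}

/-- Joint continuity of the Cousin solution. -/
def S_Cont2 : Prop := ∀ E : Ell, ∃ j1 : ℕ, ∀ S : Sys, S.ok → Big S j1 → ∀ K,
  ContinuousOn (fun a : Cfg × ℂ => lam E S a.1 K a.2)
    {a | XX S a.1 ∧ a.2 ∈ Out (Nk (lvF S K)) (pK S a.1 K) (rho1 (mK S K) / 2)} ∧
  ∀ u ∈ Nk (lvF S K),
    ContinuousOn (fun a : Cfg × ℂ => MM E S a.1 K u (pK S a.1 K u + a.2))
      {a | XX S a.1 ∧ ‖a.2‖ ≤ rho (mK S K) * (3 / 4)} ∧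
    ContinuousOn (fun a : Cfg × ℂ => mm E S a.1 (MM E S a.1) K u a.2)
      {a | XX S a.1 ∧ ‖a.2‖ ≤ rho (mK S K) * (45 / 100)}

def S_Cont3 : Prop := ∀ E : Ell, ∃ j1 : ℕ, ∀ S : Sys, S.ok → Big S j1 → ∀ K u,
  ContinuousOn (fun x => FF E S x K u) {x | XX S x} ∧
  ContinuousOn (fun x => GG E S x K u) {x | XX S x} ∧
  ContinuousOn (fun x => fres E S x K u) {x | XX S x} ∧
  ContinuousOn (fun x => gres E S x K u) {x | XX S x} ∧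
  ContinuousOn (fun x => I1 E S x K u) {x | XX S x} ∧
  ContinuousOn (fun x => I2 E S x K u) {x | XX S x} ∧
  ContinuousOn (fun x => xi1 E S x K u) {x | XX S x} ∧
  ContinuousOn (fun x => sN E S x K u) {x | XX S x}

/-- Arithmetic of the stages. -/
def S_Stage : Prop :=
  (∀ j0, (SS j0).ok ∧ Big (SS j0) j0 ∧ (∀ k, stg j0 (-k) = stg j0 k) ∧
    (∀ k : ℤ, k.natAbs ≤ bb j0 0 → stg j0 k = j0) ∧
    (∀ (i : ℕ) (k : ℤ), bb j0 i < k.natAbs → k.natAbs ≤ bb j0 (i + 1) → stg j0 k = j0 + i + 1) ∧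
    StrictMono (bb j0) ∧ StrictMono (NN j0) ∧
    (∀ (K : ℤ) (R : ℝ), ∃ n : ℕ, R ≤ ∑ i ∈ Finset.range n, dd (mK (SS j0) (K + i))) ∧
    (∀ (K : ℤ) (R : ℝ), ∃ n : ℕ, R ≤ ∑ i ∈ Finset.range n, dd (mK (SS j0) (K - i)))) ∧
  (∀ η : ℝ, 0 < η → ∃ j1, ∀ j0, j1 ≤ j0 → ∀ T : Finset ℤ,
    ∑ K ∈ T, (mK (SS j0) K : ℝ) ^ 2 * tt (mK (SS j0) K) ^ 18 ≤ η) ∧
  ∀ η : ℝ, 0 < η → ∃ j1, ∀ j : ℕ, j1 ≤ j → (j + 3 : ℝ) ≤ η * (len j * dd (j + 3))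

/-- Hypothesis of the linear estimate. -/
def LTH (E : Ell) (j0 i : ℕ) (v : Vec) (e : ℤ → ℝ) : Prop :=
  Adm (SS j0) v ∧ Supp (-NN j0 i) (NN j0 i) v ∧ (∀ K, 0 ≤ e K) ∧
  ∀ v', Adm (SS j0) v' → Supp (-NN j0 i) (NN j0 i) v' →
    |∑ K ∈ Finset.Icc (-NN j0 i : ℤ) (NN j0 i + 1), BT E (SS j0) v v' K|
      ≤ ∑ K ∈ Finset.Icc (-NN j0 i : ℤ) (NN j0 i + 1),
        dd (mK (SS j0) K) ^ 2 * e K * √(nT (SS j0) v' K)
def wid (j0 : ℕ) (k : ℤ) : ℕ := len (stg j0 k) / 32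

/-- The linear estimate in one window. -/
def S_Win : Prop := ∀ E : Ell, ∃ C : ℝ, 0 < C ∧ ∀ η : ℝ, 0 < η → ∃ j1 : ℕ, ∀ j0 i, j1 ≤ j0 →
  ∀ (v : Vec) (e : ℤ → ℝ), LTH E j0 i v e → ∀ k ∈ Finset.Icc (-NN j0 i : ℤ) (NN j0 i + 1),
  ∑ K ∈ Finset.Icc (k - wid j0 k) (k + wid j0 k), nT (SS j0) v K
    ≤ ∑ K ∈ Finset.Icc (k - 3 * wid j0 k) (k + 3 * wid j0 k)
        ∩ Finset.Icc (-NN j0 i : ℤ) (NN j0 i + 1), (C * e K ^ 2 + η * nT (SS j0) v K)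

/-- The linear estimate. -/
def S_LT : Prop := ∀ E : Ell, ∃ (C : ℝ) (j1 : ℕ), 0 < C ∧ ∀ j0 i, j1 ≤ j0 →
  ∀ (v : Vec) (e : ℤ → ℝ), LTH E j0 i v e →
  ∑ K ∈ Finset.Icc (-NN j0 i : ℤ) (NN j0 i + 1), nT (SS j0) v K / tt (mK (SS j0) K) ^ 40
    ≤ C * ∑ K ∈ Finset.Icc (-NN j0 i : ℤ) (NN j0 i + 1), e K ^ 2 / tt (mK (SS j0) K) ^ 40

/-- Injectivity gives a solver. -/
def S_Solv : Prop := ∀ (E : Ell) (S : Sys) (N : ℕ), S.ok →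
  (∀ v, Adm S v → Supp (-N) N v → (∀ v', Adm S v' → Supp (-N) N v' →
    ∑ K ∈ Finset.Icc (-N : ℤ) (N + 1), BT E S v v' K = 0) →
    ∀ K ∈ Finset.Icc (-N : ℤ) (N + 1), nT S v K = 0) → Nonempty (Solv E S N)

def S_Map : Prop := ∀ (E : Ell) (L : LSop), ∃ j1 : ℕ, ∀ j0 i, j1 ≤ j0 →
  ∀ (sv : Solv E (SS j0) (NN j0 i)) (x : Cfg), XX (SS j0) x → XX (SS j0) (TN E L (SS j0) sv x)

def S_Fix : Prop := ∀ (E : Ell) (L : LSop), ∃ j1 : ℕ, ∀ j0, j1 ≤ j0 →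
  ∃ x, XX (SS j0) x ∧ Aux E L (SS j0) x ∧ ∀ N, Eqn E (SS j0) N x

/-- The equations at a solution. -/
def Eqs (E : Ell) (S : Sys) (x : Cfg) : Prop :=
  (∀ K, av (mK S K) (I1 E S x K) = 0 ∧ av (mK S K) (I2 E S x K) = 0) ∧
  (∀ K, ∀ u ∈ Nk (lvF S K), qK S x (ot S K u) (par S K u) = -qK S x K u ∧
    tn S x (ot S K u) (par S K u) = tn S x K u ∧
    Phi E S x (ot S K u) (par S K u) = conj (Phi E S x K u)) ∧
  ∃ H : ℤ → ℝ, ∀ K, ∀ u ∈ Nk (lvF S K),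
    H K + 2 * ht E (lvF S K) (ls S x K) (pK S x K u)
      = H (ot S K u) + 2 * ht E (lvF S (ot S K u)) (ls S x (ot S K u))
          (pK S x (ot S K u) (par S K u)) - 2 * qK S x K u * Real.log ‖tn S x K u‖

def S_Eqs : Prop := ∀ (E : Ell) (L : LSop), ∃ j1 : ℕ, ∀ (S : Sys) (x : Cfg), S.ok → Big S j1 →
  XX S x → Aux E L S x → (∀ N, Eqn E S N x) → Eqs E S x

/-- Gluing across a neck and the vanishing of the periods around it. -/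
def S_Glue : Prop := ∀ (E : Ell) (L : LSop), ∃ j1 : ℕ, ∀ (S : Sys) (x : Cfg), S.ok → Big S j1 →
  XX S x → Aux E L S x → Eqs E S x → ∀ K, ∀ u ∈ Nk (lvF S K),
  DifferentiableOn ℂ (Nf E S x K u) (An (‖tn S x K u‖ / (rho (mK S (ot S K u)) * (44 / 100)))
    (rho (mK S K) * (44 / 100))) ∧
  (∀ y ∈ An (‖tn S x K u‖ / (rho (mK S (ot S K u)) * (44 / 100))) (rho (mK S K) * (44 / 100)),
    ‖exp (Nf E S x K u y) - 1‖ ≤ 1 / 100 ∧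
    exp (Nf E S x K u y) * exp (Nf E S x (ot S K u) (par S K u) (tn S x K u / y))
      * -tn S x K u = qK S x K u ^ 2) ∧
  (∀ z, rho1 (mK S K) < ‖z - pK S x K u‖ → ‖z - pK S x K u‖ < rho (mK S K) * (42 / 100) →
    exp (lam E S x K z) = exp (Nf E S x K u (vK E S x K u z)) * deriv (vK E S x K u) z) ∧
  cint 0 (rho (mK S K) / 4) (fun y => exp (Nf E S x K u y)) = -conj (cint 0 (rho (mK S K) / 4)
    (fun y => qK S x K u ^ 2 / (exp (Nf E S x K u y) * y ^ 2))) ∧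
  cint (pK S x K u) (rho (mK S K) / 4) (F1 E S x K)
    = -conj (cint (pK S x K u) (rho (mK S K) / 4) (F2 E S x K))

/-- The horizontal primitive on each level and the position of the necks. -/
def S_Zc : Prop := ∀ (E : Ell) (L : LSop), ∃ j1 : ℕ, ∀ (S : Sys) (x : Cfg), S.ok → Big S j1 →
  XX S x → Aux E L S x → Eqs E S x → ∀ K, ∃ Zc : ℂ → ℂ,
  (∀ z ∈ Out (Nk (lvF S K)) (pK S x K) (2 * rho1 (mK S K)),
    HasFDerivAt Zc (wl (F1 E S x K z) (F2 E S x K z)) z) ∧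
  ∀ u ∈ Nk (lvF S K),
    ((Zc (zP S x K u 1) - II E S x K u 1) + (Zc (zP S x K u (-1)) - II E S x K u (-1))) / 2
      = (lvF S K).c * u + flC K (eT S x.v K) u

def S_WD : Prop := Nonempty WD

/-! ### Geometry -/

def S_Weier : Prop := ∀ (U : Set ℂ) (φ1 φ2 φ3 Z : ℂ → ℂ) (h : ℂ → ℝ), IsOpen U →
  DifferentiableOn ℂ φ1 U → DifferentiableOn ℂ φ2 U → DifferentiableOn ℂ φ3 U →
  (∀ z ∈ U, φ1 z ≠ 0 ∧ φ1 z * φ2 z = φ3 z ^ 2 ∧ HasFDerivAt Z (wl (φ1 z) (φ2 z)) z ∧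
    HasFDerivAt h (hl (2 * φ3 z)) z) →
  ∀ K : ℤ, IsMinImm U (fun z => mkE (io K (Z z)) (h z))

/-- The horizontal map of a neck. -/
def S_Neck : Prop := ∀ (W : WD) (K : ℤ), ∀ u ∈ W.nk K, ∃ P : ℂ → ℂ,
  (∀ y ∈ An (‖W.t K u‖ / (rho (W.m (W.ot K u)) * (43 / 100))) (rho (W.m K) * (43 / 100)),
    HasFDerivAt P (wl (exp (W.N K u y)) (W.q K u ^ 2 / (exp (W.N K u y) * y ^ 2))) y ∧
    ‖P y - io K (W.cen K u)‖ ≤ dd (W.m K) / 20 ∧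
    ∀ y', ‖y'‖ = ‖y‖ → P y' = P y → y' = y) ∧
  (∀ z, 2 * rho1 (W.m K) < ‖z - W.p K u‖ → ‖z - W.p K u‖ < rho (W.m K) * (42 / 100) →
    P (W.v K u z) = W.Zc K z) ∧
  ∀ z, 2 * rho1 (W.m (W.ot K u)) < ‖z - W.p (W.ot K u) (W.par K u)‖ →
    ‖z - W.p (W.ot K u) (W.par K u)‖ < rho (W.m (W.ot K u)) * (42 / 100) →
    -conj (P (W.t K u / W.v (W.ot K u) (W.par K u) z)) = W.Zc (W.ot K u) z

def S_Pieces : Prop := ∀ _ : WD, Nonempty Pieces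

def S_Asm1 : Prop := ∀ P : Pieces, IsMinSurf P.M
def S_Asm2 : Prop := ∀ P : Pieces,
  IsConnected P.M ∧ ∃ K : Set E3, IsCompact K ∧ ¬IsCompact (P.M ∩ K)
/-- On an embedded surface convergence in space is intrinsic convergence. -/
def S_IC : Prop := ∀ M : Set E3, IsMinSurf M → ∀ (x : ℕ → E3) (y : E3), (∀ n, x n ∈ M) → y ∈ M →
  Tendsto x atTop (𝓝 y) → Tendsto (fun n => idist M (x n) y) atTop (𝓝 0)
/-- Slices of the surface are closed. -/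
def S_Clo : Prop := ∀ (P : Pieces) (k k' : ℤ),
  IsClosed (P.M ∩ {x | x 2 ∈ Icc (P.a1 k) (P.a2 k')})
/-- Crossing levels costs length. -/
def S_Cross : Prop := ∀ (P : Pieces) (x : E3), x ∈ P.M → ∃ k k' : ℤ, ∀ y ∈ P.M,
  idist P.M x y < 1 → y 2 ∈ Icc (P.a1 k) (P.a2 k')
def S_Asm3 : Prop := ∀ P : Pieces, IsIComplete P.M

end Pool.Agent.P.MP_cc4a10_gt
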