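import Pool.Agent.P.MP_cc4a10_gt.Fo3

/-!
Package WD: the Weierstrass data of the solution.
-/

open Set Filter Topology Complex Metric
open scoped ComplexConjugate Real

noncomputable section

namespace Pool.Agent.P.MP_cc4a10_gt

namespace WDP

open FoP

theorem io_io (K : ℤ) (z : ℂ) : io K (io K z) = z := by
  unfold io; split_ifs <;> simp

theorem io_add (K : ℤ) (z w : ℂ) : io K (z + w) = io K z + io K w := by
  unfold io; split_ifs
  · rfl
  · rw [map_add, neg_add]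

theorem hl_two (a : ℂ) : hl (2 * a) = (2 : ℝ) • hl a := by
  ext h
  simp [hl]
  ring

theorem Out_mono {nk : Set GI} {p : GI → ℂ} {r r' : ℝ} (h : r ≤ r') : Out nk p r' ⊆ Out nk p r :=
  fun _ hz u hu => lt_of_le_of_lt h (hz u hu)

theorem signs {l : Lv} (h : l.ok) :
    (∃ u, 0 < q0 l u ∧ ‖(u : ℂ)‖ ≤ 2) ∧ ∃ u, q0 l u < 0 := by
  have hd := dd_pos l.m
  have hd2 : 0 < 4 * dd l.m ^ 2 := by positivity
  have e1 : pat l.τ om = 1 := by simp [pat, om]
  have e2 : pat l.τ gi = -(1 - l.τ) := by simp [pat, gi]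
  have hτ : 0 < 1 - l.τ := by rcases h.2.2.2 with e | e <;> rw [e] <;> norm_num
  have n1 : ‖((om : GI) : ℂ)‖ ≤ 2 := by
    rw [coe_om]; refine (norm_add_le _ _).trans ?_; simp; norm_num
  have n2 : ‖((gi : GI) : ℂ)‖ ≤ 2 := by rw [coe_gi]; simp
  have h3 := mul_pos hd2 hτ
  rcases h.2.2.1 with e | e
  · refine ⟨⟨om, ?_, n1⟩, gi, ?_⟩
    · unfold q0; rw [e, e1]; linarith
    · unfold q0; rw [e, e2]; linarith
  · refine ⟨⟨gi, ?_, n2⟩, om, ?_⟩
    · unfold q0; rw [e, e2]; linarith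
    · unfold q0; rw [e, e1]; linarith

theorem norm_flC (K : ℤ) (f : GI → ℂ) {b : ℝ} (h : ∀ u, ‖f u‖ ≤ b) (u : GI) : ‖flC K f u‖ ≤ b := by
  unfold flC; split_ifs
  · exact h u
  · rw [norm_neg, Complex.norm_conj]; exact h _

theorem dd_le_tt (m k : ℕ) (hk : k ≤ 16) : dd m ≤ tt m ^ k := by
  rw [← tt_pow_16]; exact pow_le_pow_of_le_one (tt_pos m).le (tt_le_one m) hk

end WDP

open FoP WDP in
theorem pWD (hEll : S_Ell) (hLS : S_LS) (hFix : S_Fix) (hEqs : S_Eqs) (hGlue : S_Glue)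
    (hZc : S_Zc) (hSt : S_Stage) (hShp : S_Shp) (hLev : S_Lev) (hVt : S_Vt) (hCou : S_Cou2)
    (hPar : S_Par) (hFlip : S_Flip) (hDip : S_Dip) (hPoin : S_Poin) : S_WD := by
  obtain ⟨E⟩ := hEll
  obtain ⟨L⟩ := hLS
  obtain ⟨j1, h1⟩ := hFix E L
  obtain ⟨j2, h2⟩ := hEqs E L
  obtain ⟨j3, h3⟩ := hGlue E L
  obtain ⟨j4, h4⟩ := hZc E L
  obtain ⟨j5, h5⟩ := hSt.2.1 1 one_pos
  obtain ⟨CS, j6, hCS, h6⟩ := hShp E
  obtain ⟨CL, j7, -, h7⟩ := hLev E
  obtain ⟨CV, j8, -, h8⟩ := hVt E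
  obtain ⟨CC, j9, -, h9⟩ := hCou E
  obtain ⟨j10, h10⟩ := exists_gd hFlip hLev hVt hDip E
  obtain ⟨CP, hCP, hP⟩ := hPoin
  obtain ⟨j11, h11⟩ := exists_pow_mul_tt_le 1 (η := 1 / (100 * (CP + CS))) (by positivity)
  obtain ⟨j12, h12⟩ := exists_nat_ge ((400 * CS) ^ 2 + 2000 * CS)
  obtain ⟨j0, hj0⟩ : ∃ j0, j0 = j1 + j2 + j3 + j4 + j5 + j6 + j7 + j8 + j9 + j10 + j11 + j12
    + 10 ^ 6 := ⟨_, rfl⟩
  obtain ⟨x, hX, hA, hE⟩ := h1 j0 (by omega)
  obtain ⟨hS, hB, -, -, -, -, -, su, sd⟩ := hSt.1 j0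
  have h5' := h5 j0 (by omega)
  generalize SS j0 = S at hX hA hE hS hB su sd h5'
  have hBj : ∀ j, j ≤ j0 → Big S j := fun j hj k => le_trans hj (hB k)
  have hm : ∀ K, j0 ≤ mK S K := by
    intro K
    have h1 := hB (K - 1)
    have h2 := hB K
    unfold mK jl
    omega
  have hQ := h2 S x hS (hBj _ (by omega)) hX hA hE
  have hG := h10 S x hS (hBj _ (by omega)) hX
  have hGl := h3 S x hS (hBj _ (by omega)) hX hA hQ
  choose Zc hZ1 hZ2 using h4 S x hS (hBj _ (by omega)) hX hA hQ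
  choose κ k1 k2 k3 k4 using fun K => h6 _ _ _ (hG K).lg (le_trans (by omega) (hm K))
  have hL := fun K => h7 _ _ _ (hG K).lg (le_trans (by omega) (hm K))
  have hV := fun K => h8 _ _ _ (hG K).lg (le_trans (by omega) (hm K))
  have hC := h9 S x hS (hBj _ (by omega)) hX
  have hD := fun K => hDip _ (hG K).lg.ok
  obtain ⟨-, hQ2, H, hQ3⟩ := hQ
  have hσ : ∀ K u, 999 / 1000 ≤ 1 + (ls S x K).σ u ∧ 1 + (ls S x K).σ u ≤ 1001 / 1000 := by
    intro K u
    have := abs_le.1 ((hL K).1 u).2.2.2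
    constructor <;> linarith [this.1, this.2]
  have hq : ∀ K u, qK S x K u = q0 (lvT S K) u * (1 + (ls S x K).σ u) := fun _ _ => rfl
  have hpos : ∀ K u, 0 < qK S x K u ↔ 0 < q0 (lvT S K) u := fun K u => by
    rw [hq]; exact mul_pos_iff_of_pos_right (by linarith [(hσ K u).1])
  have hqb : ∀ K, ∀ u ∈ Nk (lvF S K), dd (mK S K) ^ 2 ≤ |qK S x K u| ∧
      |qK S x K u| ≤ 5 * dd (mK S K) ^ 2 := by
    intro K u hu
    have a1 : 2 * dd (mK S K) ^ 2 ≤ |q0 (lvT S K) u| := (hD K).2.2.2.2.2.1 u hu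
    have a2 : |q0 (lvT S K) u| ≤ 4 * dd (mK S K) ^ 2 := (hD K).2.2.2.2.2.2.1 u
    have a3 := hσ K u
    have a4 : 0 ≤ dd (mK S K) ^ 2 := sq_nonneg _
    rw [hq, abs_mul, abs_of_pos (a := 1 + (ls S x K).σ u) (by linarith)]
    constructor <;> nlinarith
  have hsm : ∀ K, CP * mK S K * tt (mK S K) ≤ 1 / 100 ∧ CS * mK S K * tt (mK S K) ≤ 1 / 100 := by
    intro K
    have a1 := h11 (mK S K) (le_trans (by omega) (hm K))
    rw [pow_one, le_div_iff₀ (by positivity)] at a1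
    have a2 : 0 ≤ (mK S K : ℝ) * tt (mK S K) := mul_nonneg (by positivity) (tt_pos _).le
    constructor <;> nlinarith
  have hbig : ∀ K, (400 * CS) ^ 2 + 2000 * CS ≤ mK S K := fun K =>
    h12.trans (by exact_mod_cast le_trans (by omega) (hm K))
  have hψ : ∀ K, ∀ z ∈ Out (Nk (lvF S K)) (pK S x K) (rho1 (mK S K)),
      ‖psK E S x K z‖ ≤ 1 / 20 := by
    intro K z hz
    have hd := dd_pos (mK S K)
    have ht := tt_pos (mK S K)
    have a0 := (hG K).m10
    have a1 : CS * dd (mK S K) ≤ 1 / 100 := by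
      have b1 := dd_le_tt (mK S K) 1 (by norm_num)
      rw [pow_one] at b1
      have b2 := (hsm K).2
      have b3 : 0 ≤ CS * tt (mK S K) := by positivity
      nlinarith
    by_cases ho : z ∈ Out (Nk (lvF S K)) (pK S x K) (dd (mK S K) / 5)
    · exact ((k2 K z ho).1.trans a1).trans (by norm_num)
    · simp only [Out, mem_ofPred_eq, not_forall, not_lt] at ho
      obtain ⟨u, hu, hn⟩ := ho
      have b1 := k1 K u hu z (lt_of_le_of_lt hn (by show dd (mK S K) / 5 < dd (mK S K) / 2; linarith))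
      have b2 : psK E S x K z = RR E (lvF S K) (ls S x K) u z
          + (qK S x K u : ℂ) / (z - pK S x K u) := by
        unfold psK RR qK pK; ring
      have b3 : ‖(qK S x K u : ℂ) / (z - pK S x K u)‖ ≤ 1 / 100 := by
        have c1 := hz u hu
        unfold rho1 at c1
        rw [norm_div, Complex.norm_real, Real.norm_eq_abs, div_le_iff₀ (lt_trans (by positivity) c1)]
        have c2 := (hqb K u hu).2
        have c3 := dd_le_tt (mK S K) 2 (by norm_num)
        have c4 := tt_small (hG K).m10 (hG K).sm 0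
        rw [zero_add, pow_one] at c4
        have c5 : dd (mK S K) ≤ tt (mK S K) * (1 / 1000000) := by nlinarith
        nlinarith
      rw [b2]
      refine (norm_add_le _ _).trans ?_
      have : ‖RR E (lvF S K) (ls S x K) u z‖ ≤ 1 / 100 := b1.trans a1
      linarith
  have hε : ∀ K u, ‖eT S x.v K u‖ ≤ dd (mK S K) / 100 := by
    intro K u
    have hd := dd_pos (mK S K)
    have ht := tt_pos (mK S K)
    obtain ⟨a1, a2, -⟩ := (hPar S hS K).2.2.2.2.2.2.2.2.2 x.v hX.adm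
    have a3 := ((hP (mK S K) (eT S x.v K) (hG K).lg.ok.1 a1.pe).2.2 a2).2 u
    have a4 := hX.nb {K}
    rw [Finset.sum_singleton, div_le_one (by positivity)] at a4
    have a5 : g2 (mK S K) (eT S x.v K) / dd (mK S K) ^ 2 ≤ nT S x.v K := by
      unfold nT nb2
      have b1 := msq_nonneg (lvT S K).m (fun u => (sT S x.v K u : ℂ))
      have b2 : (0 : ℝ) ≤ (lvT S K).m := by positivity
      have b3 := mul_nonneg b2 b1
      have b4 := sq_nonneg (dn (lvT S K).m fun u => q0 (lvT S K) u * sT S x.v K u / dd (lvT S K).m ^ 2)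
      have em : (lvT S K).m = mK S K := rfl
      rw [em] at b3 b4 ⊢
      linarith
    have a6 : √(g2 (mK S K) (eT S x.v K)) ≤ dd (mK S K) * tt (mK S K) ^ 20 := by
      refine Real.sqrt_le_iff.2 ⟨by positivity, ?_⟩
      have := a5.trans a4
      rw [div_le_iff₀ (by positivity)] at this
      refine this.trans_eq ?_
      ring
    refine a3.trans ?_
    have a7 : tt (mK S K) ^ 3 ≤ 1 := pow_le_one₀ ht.le (tt_le_one _)
    calc _ ≤ CP * mK S K * (dd (mK S K) * tt (mK S K) ^ 20) / dd (mK S K) := by gcongr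
      _ = CP * mK S K * tt (mK S K) * tt (mK S K) ^ 3 * tt (mK S K) ^ 16 := by field_simp
      _ ≤ 1 / 100 * 1 * tt (mK S K) ^ 16 := by gcongr; exact (hsm K).1
      _ = _ := by rw [tt_pow_16]; ring
  have hcen : ∀ K, ∀ u ∈ Nk (lvF S K), io K (io K ((lvF S K).c * u)
      + x.v.1 (lk S K u) (io K ((lvF S K).c * u))) = (lvF S K).c * u + flC K (eT S x.v K) u := by
    intro K u hu
    rw [io_add, io_io, (((hPar S hS K).2.2.2.2.2.1 u hu).2.2.2.2.2.2.2.2.2 x.v).1]
  refine ⟨{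
    m := mK S, nk := fun K => Nk (lvF S K), c := fun K => (lvF S K).c, p := pK S x, q := qK S x
    ot := ot S, par := par S, ψ := psK E S x, lam := lam E S x, Zc := Zc
    h := fun K z => H K + 2 * ht E (lvF S K) (ls S x K) z
    hb := fun K => H K + 2 * κ K
    v := vK E S x, N := Nf E S x, t := tn S x
    hr := fun K u => H K + 2 * ht E (lvF S K) (ls S x K) (pK S x K u)
    cen := fun K u => io K ((lvF S K).c * u) + x.v.1 (lk S K u) (io K ((lvF S K).c * u))
    big := fun K => ⟨le_trans (by omega) (hm K), (hPar S hS K).2.2.1, (hPar S hS K).2.2.2.1⟩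
    nc := fun K => (hD K).2.2.2.2.2.2.2.1
    ang := fun K => ?_
    sep := fun K u _ u' _ => ?_
    inv := fun K u hu => ?_
    qb := fun K u hu => ?_
    ne := fun K => ?_
    hol := fun K => ⟨fun z hz => ?_, ?_⟩
    sm := fun K z hz => ⟨?_, ?_, ?_⟩
    dZ := hZ1
    vv := fun K u hu => ⟨?_, ((hG K).co u hu).zero, fun z hz => ⟨?_, fun hn => ?_⟩⟩
    hco := fun K z hz => ?_
    hre := fun K u hu => ?_
    hma := hQ3
    nN := fun K u hu => ⟨(hGl K u hu).1, (hGl K u hu).2.1, (hGl K u hu).2.2.1,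
      (hGl K u hu).2.2.2.1⟩
    ce := fun K u hu => ⟨?_, ?_⟩
    sumu := su
    sumd := sd
    sumh := ⟨1, fun T => le_trans (Finset.sum_le_sum fun K _ => ?_) (h5' T)⟩ }⟩
  · show _ ≤ (conj (io K (io K (lvT S K).c)) * io (K + 1) (io (K + 1) (lvT S (K + 1)).c)).re
    rw [io_io, io_io]
    exact (hPar S hS K).2.2.2.2.1
  · refine ((hL K).2.2.2.1 u u').trans ?_
    have hd := dd_pos (mK S K)
    have : 0 ≤ dd (mK S K) * ‖((u - u' : GI) : ℂ)‖ := by positivity
    show dd (mK S K) * _ / 200 ≤ _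
    linarith
  · obtain ⟨-, -, a3, a4, a5, -⟩ := (hPar S hS K).2.2.2.2.2.1 u hu
    refine ⟨?_, (par_facts hPar hS hu).1, a3, (hQ2 K u hu).1, (hQ2 K u hu).2.1, ?_⟩
    · simp only [hpos]; rfl
    · rw [a4, a5]
  · have a1 := (hG K).tnb u
    have a2 := norm_sub_norm_le ((qK S x K u : ℂ) ^ 2) (-tn S x K u)
    have a3 := norm_sub_norm_le (tn S x K u) (-(qK S x K u : ℂ) ^ 2)
    rw [sub_neg_eq_add, norm_neg, norm_pow, Complex.norm_real, Real.norm_eq_abs, sq_abs] at a2 a3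
    rw [add_comm] at a2
    have a4 := sq_nonneg (qK S x K u)
    exact ⟨(hqb K u hu).1, (hqb K u hu).2, by linarith, by linarith, a1⟩
  · obtain ⟨⟨u, a1, a2⟩, u', a3⟩ := signs (hG K).lg.ok
    refine ⟨⟨u, a1.ne', (hpos K u).2 a1, a2⟩, u', a3.ne, ?_⟩
    rw [hq]
    exact mul_neg_of_neg_of_pos a3 (by linarith [(hσ K u').1])
  · have : 0 ≤ rho1 (mK S K) := mul_nonneg (dd_pos _).le (tt_pos _).le
    exact ((hL K).2.2.2.2.2.2.2.2.1 z (Out_mono this hz)).1.differentiableWithinAt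
  · have : 0 ≤ rho1 (mK S K) := mul_nonneg (dd_pos _).le (tt_pos _).le
    exact (hC K).2.2.2.1.mono (Out_mono (by linarith))
  · have a1 := (hC K).2.2.2.2.2.1 z hz
    have := Complex.norm_exp_sub_one_le (x := lam E S x K z) (by linarith)
    linarith
  · have a1 := (hC K).2.2.2.2.2.1 z hz
    have a2 := Complex.norm_exp_sub_one_le (x := -lam E S x K z) (by rw [norm_neg]; linarith)
    rw [norm_neg] at a2
    have a3 := norm_sub_norm_le (exp (-lam E S x K z)) 1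
    rw [norm_one] at a3
    rw [norm_mul, norm_pow]
    have a4 : ‖psK E S x K z‖ ^ 2 ≤ (1 / 20) ^ 2 := by gcongr; exact hψ K z hz
    have a5 : ‖exp (-lam E S x K z)‖ ≤ 2 := by linarith
    exact (mul_le_mul a4 a5 (norm_nonneg _) (by norm_num)).trans (by norm_num)
  · have : 0 ≤ rho1 (mK S K) := mul_nonneg (dd_pos _).le (tt_pos _).le
    rw [hl_two]
    exact (((hL K).2.2.2.2.2.2.2.2.1 z (Out_mono this hz)).2.const_mul 2).const_add _
  · have hρ := ((hG K).co u hu).pos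
    exact ((hG K).co u hu).hol.mono (ball_subset_ball (by linarith))
  · have hρ := ((hG K).co u hu).pos
    exact ((hG K).co u hu).der z (mem_ball_iff_norm.2 (by linarith))
  · have hρ := ((hG K).co u hu).pos
    obtain ⟨a1, a2⟩ := ((hV K u hu).2.2.2.2.2.1 z
      (lt_trans hz (by show 2 * rho (mK S K) < 3 * rho (mK S K); linarith))).2.2.2 hn
    refine ⟨a1, ?_⟩
    rw [a2]
    unfold pK qK vK
    ring
  · have a1 : |ht E (lvF S K) (ls S x K) z - κ K| ≤ CS * dd (mK S K) ^ 2 * √(mK S K : ℝ) :=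
      k4 K z hz
    have a2 := hbig K
    have a3 : 400 * CS ≤ √(mK S K : ℝ) := Real.le_sqrt_of_sq_le (by nlinarith)
    have a4 : √(mK S K : ℝ) * √(mK S K : ℝ) = mK S K := Real.mul_self_sqrt (by positivity)
    rw [show H K + 2 * ht E (lvF S K) (ls S x K) z - (H K + 2 * κ K)
      = 2 * (ht E (lvF S K) (ls S x K) z - κ K) by ring, abs_mul, abs_two]
    have a5 : 0 ≤ dd (mK S K) ^ 2 * √(mK S K : ℝ) := by positivity
    nlinarith [mul_le_mul_of_nonneg_left a3 a5]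
  · have a1 : |ht E (lvF S K) (ls S x K) (pK S x K u) + qK S x K u * Real.log (dd (mK S K)) - κ K|
        ≤ CS * dd (mK S K) ^ 2 := k3 K u hu
    have a2 := hbig K
    rw [show H K + 2 * ht E (lvF S K) (ls S x K) (pK S x K u)
        + 2 * qK S x K u * Real.log (dd (mK S K)) - (H K + 2 * κ K)
      = 2 * (ht E (lvF S K) (ls S x K) (pK S x K u) + qK S x K u * Real.log (dd (mK S K)) - κ K)
      by ring, abs_mul, abs_two]
    have a3 : 2000 * CS ≤ mK S K := by nlinarith [sq_nonneg (400 * CS)]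
    have a5 : 0 ≤ dd (mK S K) ^ 2 := by positivity
    nlinarith [mul_le_mul_of_nonneg_left a3 a5]
  · rw [hcen K u hu]
    exact hZ2 K u hu
  · rw [hcen K u hu, add_sub_cancel_left]
    exact norm_flC K _ (hε K) u
  · have ht := tt_pos (mK S K)
    have a1 : dd (mK S K) ^ 2 ≤ tt (mK S K) ^ 18 := by
      rw [← tt_pow_16, ← pow_mul]
      exact pow_le_pow_of_le_one ht.le (tt_le_one _) (by norm_num)
    have a2 := (hG K).m10
    have a3 : (mK S K : ℝ) ≤ (mK S K : ℝ) ^ 2 := by nlinarith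
    rw [mul_comm]
    gcongr

end Pool.Agent.P.MP_cc4a10_gt
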